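import Pool.Agent.NUF.FarV

/-!
# Distinct rapidities near `π/16` or near `-π/16` are good (helper8)
-/

set_option autoImplicit false

namespace Pool.Agent.NUF

open _root_.Pool.Agent.EXL _root_.Pool.Agent.EXL.Pat _root_.Pool.Agent.EXL.HS Filter Topology

/-- Non-vanishing at the centre of the frame rapidities. -/
structure Cen (x : ℂ) : Prop where
  a : Fr.fa x ≠ 0
  D : Fm.Dn x ≠ 0
  pl : Complex.sin (x + x) ≠ 0
  p3 : Fr.fe (x + x) ≠ 0
  a' : Fr.fa' x ≠ 0
  sg : ∀ n : ℕ, 0 < n → (Fr.fb x / Fr.fa x) ^ n ≠ 1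

theorem sin_tl (t : ℝ) : Complex.sin (t * Fm.lam) = ((Real.sin (t * Real.pi / 8) : ℝ) : ℂ) := by
  rw [Fm.lam, Complex.ofReal_sin]
  congr 1
  push_cast
  ring

theorem sin_tl_pos {t : ℝ} (h1 : 0 < t) (h2 : t < 8) : 0 < Real.sin (t * Real.pi / 8) := by
  have := Real.pi_pos
  apply Real.sin_pos_of_pos_of_lt_pi
  · positivity
  · nlinarith

theorem sin_tl_ne {t : ℝ} (h1 : 0 < t) (h2 : t < 8) {x : ℂ} (hx : x = t * Fm.lam) :
    Complex.sin x ≠ 0 := by
  rw [hx, sin_tl]
  exact_mod_cast (sin_tl_pos h1 h2).ne'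

theorem cen1 : Cen Fm.lam where
  a := sin_tl_ne (t := 1) (by norm_num) (by norm_num) (by push_cast; ring)
  D := mul_ne_zero (sin_tl_ne (t := 3) (by norm_num) (by norm_num) (by push_cast; ring))
    (sin_tl_ne (t := 4) (by norm_num) (by norm_num) (by push_cast; ring))
  pl := sin_tl_ne (t := 2) (by norm_num) (by norm_num) (by push_cast; ring)
  p3 := sin_tl_ne (t := 5) (by norm_num) (by norm_num) (by push_cast; ring)
  a' := sin_tl_ne (t := 2) (by norm_num) (by norm_num) (by push_cast; ring)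
  sg n hn := by
    have h1 : Fr.fb Fm.lam = ((Real.sin (3 * Real.pi / 8) : ℝ) : ℂ) := by
      rw [← sin_tl 3, Fr.fb]; congr 1; push_cast; ring
    have h2 : Fr.fa Fm.lam = ((Real.sin (1 * Real.pi / 8) : ℝ) : ℂ) := by
      rw [← sin_tl 1, Fr.fa]; congr 1; push_cast; ring
    have h3 := sin_tl_pos (t := 1) (by norm_num) (by norm_num)
    have h4 : Real.sin (1 * Real.pi / 8) < Real.sin (3 * Real.pi / 8) := by
      have := Real.pi_pos
      apply Real.sin_lt_sin_of_lt_of_le_pi_div_two <;> linarith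
    rw [h1, h2]
    intro h
    have h5 : (Real.sin (3 * Real.pi / 8) / Real.sin (1 * Real.pi / 8)) ^ n = 1 := by exact_mod_cast h
    have h6 : 1 < Real.sin (3 * Real.pi / 8) / Real.sin (1 * Real.pi / 8) := (one_lt_div h3).2 h4
    exact absurd h5 (one_lt_pow₀ h6 (by omega)).ne'

theorem cen2 : Cen (2 * Fm.lam) where
  a := sin_tl_ne (t := 2) (by norm_num) (by norm_num) (by push_cast; ring)
  D := mul_ne_zero (sin_tl_ne (t := 4) (by norm_num) (by norm_num) (by push_cast; ring))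
    (sin_tl_ne (t := 5) (by norm_num) (by norm_num) (by push_cast; ring))
  pl := sin_tl_ne (t := 4) (by norm_num) (by norm_num) (by push_cast; ring)
  p3 := sin_tl_ne (t := 7) (by norm_num) (by norm_num) (by push_cast; ring)
  a' := sin_tl_ne (t := 1) (by norm_num) (by norm_num) (by push_cast; ring)
  sg n hn := by
    have h1 : Fr.fb (2 * Fm.lam) = ((Real.sin (4 * Real.pi / 8) : ℝ) : ℂ) := by
      rw [← sin_tl 4, Fr.fb]; congr 1; push_cast; ring
    have h2 : Fr.fa (2 * Fm.lam) = ((Real.sin (2 * Real.pi / 8) : ℝ) : ℂ) := by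
      rw [← sin_tl 2, Fr.fa]; congr 1
    have h3 := sin_tl_pos (t := 2) (by norm_num) (by norm_num)
    have h4 : Real.sin (2 * Real.pi / 8) < Real.sin (4 * Real.pi / 8) := by
      have := Real.pi_pos
      apply Real.sin_lt_sin_of_lt_of_le_pi_div_two <;> linarith
    rw [h1, h2]
    intro h
    have h5 : (Real.sin (4 * Real.pi / 8) / Real.sin (2 * Real.pi / 8)) ^ n = 1 := by exact_mod_cast h
    have h6 : 1 < Real.sin (4 * Real.pi / 8) / Real.sin (2 * Real.pi / 8) := (one_lt_div h3).2 h4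
    exact absurd h5 (one_lt_pow₀ h6 (by omega)).ne'

theorem Dn_zero : Fm.Dn 0 ≠ 0 := by
  unfold Fm.Dn
  exact mul_ne_zero (sin_tl_ne (t := 2) (by norm_num) (by norm_num) (by push_cast; ring))
    (sin_tl_ne (t := 3) (by norm_num) (by norm_num) (by push_cast; ring))

theorem fe_zero : Fr.fe 0 ≠ 0 :=
  sin_tl_ne (t := 3) (by norm_num) (by norm_num) (by push_cast; ring)

theorem sin_small {w : ℂ} (h0 : w ≠ 0) (h : ‖w‖ < 3) : Complex.sin w ≠ 0 := by
  intro hs
  rw [Complex.sin_eq_zero_iff] at hs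
  obtain ⟨k, hk⟩ := hs
  have hk0 : k ≠ 0 := by
    rintro rfl
    exact h0 (by rw [hk]; simp)
  have h1 : (1 : ℝ) ≤ |(k : ℝ)| := by exact_mod_cast Int.one_le_abs hk0
  have h2 : ‖w‖ = |(k : ℝ)| * Real.pi := by
    rw [hk, norm_mul, Complex.norm_intCast, Complex.norm_real, Real.norm_eq_abs,
      abs_of_pos Real.pi_pos]
  rw [h2] at h
  nlinarith [Real.pi_gt_three]

section near

variable {α : Type*} [DecidableEq α] [Fintype α]

omit [DecidableEq α] [Fintype α] in
theorem ev_ne {F : (α → ℂ) → ℂ} {w : ℂ} (hF : Continuous F) (h : F (fun _ => w) ≠ 0) :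
    ∀ᶠ z in 𝓝 (fun _ : α => w), F z ≠ 0 := hF.continuousAt.eventually_ne h

/-- All scalar conditions. -/
def Sca (z : α → ℂ) : Prop :=
  (∀ i, Fr.fa (ux z i) ≠ 0) ∧ (∀ i, Fm.Dn (ux z i) ≠ 0) ∧ (∀ i j, ‖ux z i - ux z j‖ < 3) ∧
    (∀ i j, Fm.Dn (ux z i - ux z j) ≠ 0) ∧ (∀ i j, Complex.sin (ux z i + ux z j) ≠ 0) ∧
    (∀ i j, Fr.fe (ux z i + ux z j) ≠ 0) ∧ (∀ i j, Fr.fe (ux z i - ux z j) ≠ 0) ∧
    (∀ i, Fr.fa' (ux z i) ≠ 0) ∧ ∀ Y : Finset α, Y.Nonempty → Fr.sg (ux z) Y ≠ 0

omit [DecidableEq α] [Fintype α] in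
theorem ux_const (w : ℂ) (i : α) : ux (fun _ : α => w) i = 3 * Real.pi / 16 - w := rfl

omit [DecidableEq α] [Fintype α] in
theorem cont_ux (i : α) : Continuous fun z : α → ℂ => ux z i := by
  unfold ux
  fun_prop

omit [DecidableEq α] in
theorem sca_near {w : ℂ} (hw : Cen (3 * Real.pi / 16 - w)) : ∀ᶠ z in 𝓝 (fun _ : α => w), Sca z := by
  have c1 := fun i : α => cont_ux i
  unfold Sca
  simp only [eventually_and, eventually_all]
  refine ⟨?_, ?_, ?_, ?_, ?_, ?_, ?_, ?_, ?_⟩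
  · intro i
    refine ev_ne (F := fun z => Fr.fa (ux z i)) ?_ hw.a
    unfold Fr.fa
    exact Complex.continuous_sin.comp (c1 i)
  · intro i
    refine ev_ne (F := fun z => Fm.Dn (ux z i)) ?_ hw.D
    unfold Fm.Dn
    have := c1 i
    fun_prop
  · intro i j
    have h : ContinuousAt (fun z : α → ℂ => ‖ux z i - ux z j‖) (fun _ => w) :=
      ((c1 i).sub (c1 j)).norm.continuousAt
    refine h.eventually_lt continuousAt_const ?_
    rw [ux_const, ux_const, sub_self, norm_zero]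
    norm_num
  · intro i j
    refine ev_ne (F := fun z => Fm.Dn (ux z i - ux z j)) ?_ ?_
    · unfold Fm.Dn
      have := c1 i
      have := c1 j
      fun_prop
    · show Fm.Dn (ux _ i - ux _ j) ≠ 0
      rw [ux_const, ux_const, sub_self]
      exact Dn_zero
  · intro i j
    refine ev_ne (F := fun z => Complex.sin (ux z i + ux z j)) ?_ hw.pl
    exact Complex.continuous_sin.comp ((c1 i).add (c1 j))
  · intro i j
    refine ev_ne (F := fun z => Fr.fe (ux z i + ux z j)) ?_ hw.p3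
    unfold Fr.fe
    have := c1 i
    have := c1 j
    fun_prop
  · intro i j
    refine ev_ne (F := fun z => Fr.fe (ux z i - ux z j)) ?_ ?_
    · unfold Fr.fe
      have := c1 i
      have := c1 j
      fun_prop
    · show Fr.fe (ux _ i - ux _ j) ≠ 0
      rw [ux_const, ux_const, sub_self]
      exact fe_zero
  · intro i
    refine ev_ne (F := fun z => Fr.fa' (ux z i)) ?_ hw.a'
    unfold Fr.fa'
    have := c1 i
    fun_prop
  · intro Y hY
    have hc : ContinuousAt (fun z : α → ℂ => Fr.sg (ux z) Y) (fun _ => w) := by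
      unfold Fr.sg Fr.Pe
      refine continuousAt_const.mul (ContinuousAt.sub ?_ continuousAt_const)
      refine tendsto_finsetProd Y fun k _ => ?_
      refine ContinuousAt.div ?_ ?_ hw.a
      · unfold Fr.fb
        have := c1 k
        exact Continuous.continuousAt (by fun_prop)
      · unfold Fr.fa
        exact (Complex.continuous_sin.comp (c1 k)).continuousAt
    refine hc.eventually_ne ?_
    unfold Fr.sg Fr.Pe
    simp only [ux_const, Finset.prod_const]
    have := hw.sg Y.card (Finset.card_pos.2 hY)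
    exact mul_ne_zero two_ne_zero (sub_ne_zero.2 this)

omit [Fintype α] in
/-- Good rows. -/
theorem good_of {w : ℂ} {z : α → ℂ} {X : List α} (hn : X.Nodup)
    (hd : ∀ i ∈ X, ∀ j ∈ X, i ≠ j → z i ≠ z j) (h : Sca fun i => if i ∈ X then z i else w)
    (hR : ∀ Y : List α, Y.Sublist X → Reg (fun i => if i ∈ X then z i else w) Y) : Good z X := by
  have e : ∀ i ∈ X, (fun i => if i ∈ X then z i else w) i = z i := fun i hi => if_pos hi
  obtain ⟨h1, h2, h3, h4, h5, h6, h7, h8, h9⟩ := h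
  have hg : Good (fun i => if i ∈ X then z i else w) X := by
    refine ⟨hn, fun i _ => h1 i, fun i _ => h2 i, ?_, fun i _ j _ _ => h4 i j, fun i _ j _ => h5 i j,
      fun i _ j _ => h6 i j, fun i _ j _ => h7 i j, fun i _ => h8 i, fun Y _ hY => h9 Y hY, hR⟩
    intro i hi j hj hij
    refine sin_small ?_ (h3 i j)
    unfold ux
    rw [sub_sub_sub_cancel_left, sub_ne_zero, e i hi, e j hj]
    exact (hd i hi j hj hij).symm
  exact hg.congr e

theorem near_ball {w : ℂ} {P : (α → ℂ) → Prop} (h : ∀ᶠ z in 𝓝 (fun _ : α => w), P z) :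
    ∃ r > 0, ∀ (z : α → ℂ) (X : List α), (∀ i ∈ X, ‖z i - w‖ < r) →
      P fun i => if i ∈ X then z i else w := by
  obtain ⟨r, hr, h1⟩ := Metric.eventually_nhds_iff.1 h
  refine ⟨r, hr, fun z X hz => h1 ?_⟩
  rw [dist_pi_lt_iff hr]
  intro i
  rw [dist_eq_norm]
  split_ifs with hi
  · exact hz i hi
  · rw [sub_self, norm_zero]
    exact hr

variable (α) in
/-- **Distinct rapidities near `π/16` are good.** -/
theorem good_near : ∃ r > 0, ∀ (z : α → ℂ) (X : List α), X.Nodup →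
    (∀ i ∈ X, ‖z i - Real.pi / 16‖ < r) → (∀ i ∈ X, ∀ j ∈ X, i ≠ j → z i ≠ z j) → Good z X := by
  have hc : Cen (3 * Real.pi / 16 - Real.pi / 16) := by
    have := cen1
    rwa [show Fm.lam = 3 * Real.pi / 16 - Real.pi / 16 by rw [Fm.lam]; ring] at this
  obtain ⟨r, hr, h⟩ := near_ball ((sca_near hc).and (reg_nhds (ι := α)))
  refine ⟨r, hr, fun z X hn hz hd => ?_⟩
  have h1 := h z X hz
  exact good_of hn hd h1.1 fun Y hY => h1.2 Y (hn.sublist hY)

variable (α) in
/-- **Distinct rapidities near `-π/16` are good.** -/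
theorem good_near' : ∃ r > 0, ∀ (z : α → ℂ) (X : List α), X.Nodup →
    (∀ i ∈ X, ‖z i + Real.pi / 16‖ < r) → (∀ i ∈ X, ∀ j ∈ X, i ≠ j → z i ≠ z j) →
      ∀ c d : α, c ∉ X → d ∉ X → c ≠ d → Good z X := by
  have hc : Cen (3 * Real.pi / 16 - (-(Real.pi / 16 : ℂ))) := by
    have := cen2
    rwa [show 2 * Fm.lam = 3 * Real.pi / 16 - (-(Real.pi / 16 : ℂ)) by rw [Fm.lam]; ring] at this
  have hneg : ∀ᶠ z in 𝓝 (fun _ : α => (-(Real.pi / 16) : ℂ)), ∀ X : List α, X.Nodup →
      Reg (fun i => -z i) X := by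
    have hcont : ContinuousAt (fun z : α → ℂ => fun i => -z i) (fun _ : α => (-(Real.pi / 16) : ℂ)) :=
      Continuous.continuousAt (by fun_prop)
    have h0 : (fun i : α => -(fun _ : α => (-(Real.pi / 16) : ℂ)) i) = fun _ => (Real.pi / 16 : ℂ) := by
      funext i
      simp
    have := reg_nhds (ι := α)
    rw [← h0] at this
    exact hcont.eventually this
  obtain ⟨r, hr, h⟩ := near_ball ((sca_near hc).and hneg)
  refine ⟨r, hr, fun z X hn hz hd c d hcX hdX hcd => ?_⟩
  have h1 := h z X (fun i hi => by rw [sub_neg_eq_add]; exact hz i hi)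
  refine good_of hn hd h1.1 fun Y hY => ?_
  have hcY : c ∉ Y.reverse := fun hh => hcX (hY.subset (by simpa using hh))
  have hdY : d ∉ Y.reverse := fun hh => hdX (hY.subset (by simpa using hh))
  have h2 := (h1.2 Y.reverse (List.nodup_reverse.2 (hn.sublist hY))).rev
    (List.nodup_reverse.2 (hn.sublist hY)) hcd hcY hdY
  rw [List.reverse_reverse] at h2
  exact h2.congr fun i _ => neg_neg _

end near

end Pool.Agent.NUF
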