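import Pool.Agent.NUF.PPol
import Pool.Agent.NUF.FarN

/-!
# Rapidities near the honeycomb point: the conditions of the relations
-/

set_option autoImplicit false

namespace Pool.Agent.NUF

open Pool.Agent.EXL (okR)
open Pool.Agent.EXL.Fm (Dn lam)
open Filter Topology

/-- `π / 16` -/
noncomputable def z0 : ℂ := Real.pi / 16

theorem sin_tl_ne' {t : ℝ} (h1 : -8 < t) (h2 : t < 0) {x : ℂ} (hx : x = t * lam) :
    Complex.sin x ≠ 0 := by
  have h := sin_tl_ne (t := -t) (by linarith) (by linarith) (x := -x) (by rw [hx]; push_cast; ring)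
  rw [Complex.sin_neg] at h
  exact fun e => h (by rw [e, neg_zero])

theorem okR_t {t : ℝ} (h1 : -2 < t) (h2 : t < 5) {x : ℂ} (hx : x = t * lam) : okR x := by
  rw [EXL.Fm.okR_iff]
  unfold Dn
  have e1 : 2 * lam + x = ((2 + t : ℝ) : ℂ) * lam := by rw [hx]; push_cast; ring
  have e2 : 3 * lam + x = ((3 + t : ℝ) : ℂ) * lam := by rw [hx]; push_cast; ring
  exact mul_ne_zero (sin_tl_ne (by linarith) (by linarith) e1) (sin_tl_ne (by linarith) (by linarith) e2)

theorem near_ok {Φ : ℂ → ℂ → ℂ} (hΦ : Continuous (fun p : ℂ × ℂ => Φ p.1 p.2)) (h : okR (Φ z0 z0)) :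
    ∀ᶠ r in 𝓝[>] (0 : ℝ), ∀ u ∈ Metric.ball z0 r, ∀ v ∈ Metric.ball z0 r, okR (Φ u v) := by
  have h1 := Fr.near2 (Φ := fun u v => Dn (Φ u v)) (c := z0) (c' := z0)
    (diff_Dn.continuous.comp hΦ) ((EXL.Fm.okR_iff _).1 h)
  filter_upwards [h1] with r hr u hu v hv
  exact (EXL.Fm.okR_iff _).2 (hr u hu v hv)

/-- The conditions on two rapidities. -/
structure OkP (a b : ℂ) : Prop where
  hm : okR (3 * Real.pi / 16 - a)
  hp : okR (3 * Real.pi / 16 + a)
  ab : okR (a - b)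
  cab : okR (3 * Real.pi / 8 - (a - b))
  cr : okR (3 * Real.pi / 16 + (a - 3 * lam))
  f1 : okR (3 * Real.pi / 16 - (a + 2 * lam))
  f2 : okR (3 * Real.pi / 16 + (a + 2 * lam))
  f3 : okR (3 * Real.pi / 16 - (a + lam))
  f4 : okR (3 * Real.pi / 16 + (a + lam))
  g1 : okR (a + 2 * lam - b)
  nm : 3 / 2 * lam - a ∈ Fr.nb
  np : 3 / 2 * lam + a ∈ Fr.nb

/-- The conditions on two distinct rapidities. -/
structure OkD (a b : ℂ) : Prop where
  k3 : okR (a - b - 3 * Real.pi / 8)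
  g2 : okR (-(a + 2 * lam - b))

theorem nb_near1 : ∀ᶠ r in 𝓝[>] (0 : ℝ), ∀ u ∈ Metric.ball z0 r, 3 / 2 * lam - u ∈ Fr.nb := by
  have h2 : ∀ᶠ r in 𝓝[>] (0 : ℝ), r < Fr.rG :=
    eventually_nhdsWithin_of_eventually_nhds (eventually_lt_nhds Fr.rG_pos)
  filter_upwards [h2] with r hr u hu
  refine Or.inl (Metric.mem_ball.2 ?_)
  rw [Metric.mem_ball, dist_eq_norm] at hu
  rw [dist_eq_norm, show 3 / 2 * lam - u - lam = -(u - z0) by unfold lam z0; ring, norm_neg]
  exact hu.trans hr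

theorem nb_near2 : ∀ᶠ r in 𝓝[>] (0 : ℝ), ∀ u ∈ Metric.ball z0 r, 3 / 2 * lam + u ∈ Fr.nb := by
  have h2 : ∀ᶠ r in 𝓝[>] (0 : ℝ), r < Fr.rG :=
    eventually_nhdsWithin_of_eventually_nhds (eventually_lt_nhds Fr.rG_pos)
  filter_upwards [h2] with r hr u hu
  refine Or.inr (Metric.mem_ball.2 ?_)
  rw [Metric.mem_ball, dist_eq_norm] at hu
  rw [dist_eq_norm, show 3 / 2 * lam + u - 2 * lam = u - z0 by unfold lam z0; ring]
  exact hu.trans hr

theorem near_OkP : ∀ᶠ r in 𝓝[>] (0 : ℝ), ∀ u ∈ Metric.ball z0 r, ∀ v ∈ Metric.ball z0 r, OkP u v := by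
  have e1 : (1 : ℝ) = 1 := rfl
  have c1 := near_ok (Φ := fun a b => 3 * Real.pi / 16 - a) (by fun_prop)
    (okR_t (t := 1) (by norm_num) (by norm_num) (by unfold z0 lam; push_cast; ring))
  have c2 := near_ok (Φ := fun a b => 3 * Real.pi / 16 + a) (by fun_prop)
    (okR_t (t := 2) (by norm_num) (by norm_num) (by unfold z0 lam; push_cast; ring))
  have c3 := near_ok (Φ := fun a b => a - b) (by fun_prop)
    (okR_t (t := 0) (by norm_num) (by norm_num) (by unfold z0 lam; push_cast; ring))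
  have c4 := near_ok (Φ := fun a b => 3 * Real.pi / 8 - (a - b)) (by fun_prop)
    (okR_t (t := 3) (by norm_num) (by norm_num) (by unfold z0 lam; push_cast; ring))
  have c5 := near_ok (Φ := fun a b => 3 * Real.pi / 16 + (a - 3 * lam)) (by fun_prop)
    (okR_t (t := -1) (by norm_num) (by norm_num) (by unfold z0 lam; push_cast; ring))
  have c6 := near_ok (Φ := fun a b => 3 * Real.pi / 16 - (a + 2 * lam)) (by fun_prop)
    (okR_t (t := -1) (by norm_num) (by norm_num) (by unfold z0 lam; push_cast; ring))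
  have c7 := near_ok (Φ := fun a b => 3 * Real.pi / 16 + (a + 2 * lam)) (by fun_prop)
    (okR_t (t := 4) (by norm_num) (by norm_num) (by unfold z0 lam; push_cast; ring))
  have c8 := near_ok (Φ := fun a b => 3 * Real.pi / 16 - (a + lam)) (by fun_prop)
    (okR_t (t := 0) (by norm_num) (by norm_num) (by unfold z0 lam; push_cast; ring))
  have c9 := near_ok (Φ := fun a b => 3 * Real.pi / 16 + (a + lam)) (by fun_prop)
    (okR_t (t := 3) (by norm_num) (by norm_num) (by unfold z0 lam; push_cast; ring))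
  have c10 := near_ok (Φ := fun a b => a + 2 * lam - b) (by fun_prop)
    (okR_t (t := 2) (by norm_num) (by norm_num) (by unfold z0 lam; push_cast; ring))
  filter_upwards [c1, c2, c3, c4, c5, c6, c7, c8, c9, c10, nb_near1, nb_near2] with
    r a1 a2 a3 a4 a5 a6 a7 a8 a9 a10 a11 a12 u hu v hv
  exact ⟨a1 u hu v hv, a2 u hu v hv, a3 u hu v hv, a4 u hu v hv, a5 u hu v hv, a6 u hu v hv,
    a7 u hu v hv, a8 u hu v hv, a9 u hu v hv, a10 u hu v hv, a11 u hu, a12 u hu⟩

theorem near_OkD : ∀ᶠ r in 𝓝[>] (0 : ℝ), ∀ u ∈ Metric.ball z0 r, ∀ v ∈ Metric.ball z0 r, u ≠ v →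
    OkD u v := by
  have n1 := Fr.near2 (Φ := fun a b => Complex.sin (2 * lam + (a - b - 3 * Real.pi / 8))) (c := z0)
    (c' := z0) (by fun_prop) (sin_tl_ne' (t := -1) (by norm_num) (by norm_num) (by unfold lam; push_cast; ring))
  have n2 := Fr.near2 (Φ := fun a b => Complex.sin (3 * lam + -(a + 2 * lam - b))) (c := z0)
    (c' := z0) (by fun_prop) (sin_tl_ne (t := 1) (by norm_num) (by norm_num) (by push_cast; ring))
  filter_upwards [n1, n2, Fr.sin_sub_ne_near z0] with r a1 a2 a3 u hu v hv huv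
  have h1 := a1 u hu v hv
  have h2 := a2 u hu v hv
  have h3 := a3 u hu v hv huv
  constructor
  · rw [EXL.Fm.okR_iff]
    unfold Dn
    refine mul_ne_zero h1 ?_
    rwa [show 3 * lam + (u - v - 3 * Real.pi / 8) = u - v by unfold lam; ring]
  · rw [EXL.Fm.okR_iff]
    unfold Dn
    refine mul_ne_zero ?_ h2
    rw [show 2 * lam + -(u + 2 * lam - v) = -(u - v) by ring, Complex.sin_neg]
    exact neg_ne_zero.2 h3

/-- A radius for which all conditions hold. -/
structure NR (ι : Type*) [DecidableEq ι] (r : ℝ) : Prop where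
  good : ∀ (z : ι → ℂ) (X : List ι), X.Nodup → (∀ i ∈ X, z i ∈ Metric.ball z0 r) →
    (∀ i ∈ X, ∀ j ∈ X, i ≠ j → z i ≠ z j) → Good z X
  good' : ∀ (z : ι → ℂ) (X : List ι), X.Nodup → (∀ i ∈ X, z i ∈ Metric.ball z0 r) →
    (∀ i ∈ X, ∀ j ∈ X, i ≠ j → z i ≠ z j) →
      ∀ c d : ι, c ∉ X → d ∉ X → c ≠ d → Good (fun i => -z i) X
  reg : ∀ (z : ι → ℂ) (X : List ι), X.Nodup → (∀ i ∈ X, z i ∈ Metric.ball z0 r) → Reg z X
  ok : ∀ u ∈ Metric.ball z0 r, ∀ v ∈ Metric.ball z0 r, OkP u v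
  od : ∀ u ∈ Metric.ball z0 r, ∀ v ∈ Metric.ball z0 r, u ≠ v → OkD u v

section NR

variable {ι : Type*} [DecidableEq ι] {r : ℝ}

theorem NR.reg' (h : NR ι r) (z : ι → ℂ) (X : List ι) (hn : X.Nodup)
    (hX : ∀ i ∈ X, z i ∈ Metric.ball z0 r) {c d : ι} (hc : c ∉ X) (hd : d ∉ X) (hcd : c ≠ d) :
    Reg (fun i => -z i) X := by
  have h1 := (h.reg z X.reverse (List.nodup_reverse.2 hn) (fun i hi => hX i (by simpa using hi))).rev
    (List.nodup_reverse.2 hn) hcd (by simpa using hc) (by simpa using hd)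
  rwa [List.reverse_reverse] at h1

variable (ι) in
theorem near_NR [Finite ι] : ∀ᶠ r in 𝓝[>] (0 : ℝ), NR ι r := by
  have : Fintype ι := Fintype.ofFinite ι
  obtain ⟨r1, h1, g1⟩ := good_near ι
  obtain ⟨r2, h2, g2⟩ := good_near' ι
  obtain ⟨r3, h3, g3⟩ := near_ball (reg_nhds (ι := ι))
  have l : ∀ a : ℝ, 0 < a → ∀ᶠ r in 𝓝[>] (0 : ℝ), r < a := fun a ha =>
    eventually_nhdsWithin_of_eventually_nhds (eventually_lt_nhds ha)
  filter_upwards [l r1 h1, l r2 h2, l r3 h3, near_OkP, near_OkD] with r e1 e2 e3 e4 e5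
  refine ⟨fun z X hn hX hd => g1 z X hn (fun i hi => ?_) hd,
    fun z X hn hX hd c d hc hd' hcd => g2 (fun i => -z i) X hn (fun i hi => ?_)
      (fun i hi j hj hij => fun e => hd i hi j hj hij (neg_injective e)) c d hc hd' hcd,
    fun z X hn hX => ?_, e4, e5⟩
  · have := hX i hi
    rw [Metric.mem_ball, dist_eq_norm] at this
    exact this.trans e1
  · have := hX i hi
    rw [Metric.mem_ball, dist_eq_norm, ← norm_neg] at this
    rw [show -z i + (Real.pi : ℂ) / 16 = -(z i - z0) by unfold z0; ring]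
    exact this.trans e2
  · have h4 := g3 z X (fun i hi => by
      have := hX i hi
      rw [Metric.mem_ball, dist_eq_norm] at this
      exact this.trans e3) X hn
    exact h4.congr fun i hi => if_pos hi

end NR

/-- The lines `L` have distinct rapidities near the honeycomb point; the sites `b`, `c` are not used. -/
structure Cx {ι : Type*} (r : ℝ) (z : ι → ℂ) (L : List (ι × ι)) (b c : ι) : Prop where
  gd : Gd L
  near : ∀ t ∈ L, z t.1 ∈ Metric.ball z0 r
  same : Same z L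
  dist : (L.map fun t => z t.1).Nodup
  bc : b ≠ c
  nb : ∀ t ∈ L, b ≠ t.1 ∧ b ≠ t.2
  nc : ∀ t ∈ L, c ≠ t.1 ∧ c ≠ t.2

/-- The values of the lines. -/
noncomputable def cv {ι : Type*} (z : ι → ℂ) (L : List (ι × ι)) : List ℂ := L.map fun t => NUMv.cc (z t.1)

namespace Cx

variable {ι : Type*} {r : ℝ} {z : ι → ℂ} {L L' : List (ι × ι)} {b c : ι}

theorem perm (h : Cx r z L b c) (hp : L.Perm L') : Cx r z L' b c where
  gd := h.gd.perm hp
  near t ht := h.near t (hp.mem_iff.2 ht)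
  same t ht := h.same t (hp.mem_iff.2 ht)
  dist := (hp.map _).nodup_iff.1 h.dist
  bc := h.bc
  nb t ht := h.nb t (hp.mem_iff.2 ht)
  nc t ht := h.nc t (hp.mem_iff.2 ht)

theorem sub (h : Cx r z L b c) (hs : L'.Sublist L) : Cx r z L' b c where
  gd := h.gd.sublist ((hs.map _).append (hs.map _))
  near t ht := h.near t (hs.subset ht)
  same t ht := h.same t (hs.subset ht)
  dist := h.dist.sublist (hs.map _)
  bc := h.bc
  nb t ht := h.nb t (hs.subset ht)
  nc t ht := h.nc t (hs.subset ht)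

theorem tail {t : ι × ι} (h : Cx r z (t :: L) b c) : Cx r z L b c := h.sub (List.sublist_cons_self t L)

theorem b1 (h : Cx r z L b c) : b ∉ L.map Prod.fst := fun hh => by
  obtain ⟨t, ht, e⟩ := List.mem_map.1 hh
  exact (h.nb t ht).1 e.symm

theorem b2 (h : Cx r z L b c) : b ∉ L.map Prod.snd := fun hh => by
  obtain ⟨t, ht, e⟩ := List.mem_map.1 hh
  exact (h.nb t ht).2 e.symm

theorem c1 (h : Cx r z L b c) : c ∉ L.map Prod.fst := fun hh => by
  obtain ⟨t, ht, e⟩ := List.mem_map.1 hh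
  exact (h.nc t ht).1 e.symm

theorem c2 (h : Cx r z L b c) : c ∉ L.map Prod.snd := fun hh => by
  obtain ⟨t, ht, e⟩ := List.mem_map.1 hh
  exact (h.nc t ht).2 e.symm

theorem nearR (h : Cx r z L b c) : ∀ i ∈ L.map Prod.fst, z i ∈ Metric.ball z0 r := fun i hi => by
  obtain ⟨t, ht, rfl⟩ := List.mem_map.1 hi
  exact h.near t ht

theorem nearL (h : Cx r z L b c) : ∀ i ∈ L.map Prod.snd, z i ∈ Metric.ball z0 r := fun i hi => by
  obtain ⟨t, ht, rfl⟩ := List.mem_map.1 hi
  rw [h.same t ht]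
  exact h.near t ht

theorem distR (h : Cx r z L b c) : ∀ i ∈ L.map Prod.fst, ∀ j ∈ L.map Prod.fst, i ≠ j → z i ≠ z j := by
  intro i hi j hj hij e
  obtain ⟨t, ht, rfl⟩ := List.mem_map.1 hi
  obtain ⟨s, hs, rfl⟩ := List.mem_map.1 hj
  exact hij (congrArg Prod.fst (List.inj_on_of_nodup_map h.dist ht hs e))

theorem distL (h : Cx r z L b c) : ∀ i ∈ L.map Prod.snd, ∀ j ∈ L.map Prod.snd, i ≠ j → z i ≠ z j := by
  intro i hi j hj hij e
  obtain ⟨t, ht, rfl⟩ := List.mem_map.1 hi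
  obtain ⟨s, hs, rfl⟩ := List.mem_map.1 hj
  rw [h.same t ht, h.same s hs] at e
  exact hij (congrArg Prod.snd (List.inj_on_of_nodup_map h.dist ht hs e))

theorem cvL (h : Cx r z L b c) : (L.map Prod.snd).map (fun i => NUMv.cc (z i)) = cv z L := by
  rw [List.map_map]
  exact List.map_congr_left fun t ht => by
    show NUMv.cc (z t.2) = _
    rw [h.same t ht]

variable [DecidableEq ι]

theorem regR (h : Cx r z L b c) (hr : NR ι r) : Reg z (L.map Prod.fst) := hr.reg z _ h.gd.fst h.nearR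

theorem regL (h : Cx r z L b c) (hr : NR ι r) : Reg (fun i => -z i) (L.map Prod.snd) :=
  hr.reg' z _ h.gd.snd h.nearL h.b2 h.c2 h.bc

theorem goodR (h : Cx r z L b c) (hr : NR ι r) : Good z (L.map Prod.fst) :=
  hr.good z _ h.gd.fst h.nearR h.distR

theorem goodL (h : Cx r z L b c) (hr : NR ι r) : Good (fun i => -z i) (L.map Prod.snd) :=
  hr.good' z _ h.gd.snd h.nearL h.distL b c h.b2 h.c2 h.bc

theorem okP (h : Cx r z L b c) (hr : NR ι r) {t s : ι × ι} (ht : t ∈ L) (hs : s ∈ L) :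
    OkP (z t.1) (z s.1) := hr.ok _ (h.near t ht) _ (h.near s hs)

theorem okD (h : Cx r z L b c) (hr : NR ι r) {t s : ι × ι} (ht : t ∈ L) (hs : s ∈ L) (hts : t ≠ s) :
    OkD (z t.1) (z s.1) :=
  hr.od _ (h.near t ht) _ (h.near s hs) fun e => hts (List.inj_on_of_nodup_map h.dist ht hs e)

/-- The scalar of the right half. -/
theorem qR (h : Cx r z L b c) (hr : NR ι r) :
    Fr.Qs (ux z) (L.map Prod.fst).toFinset = Fr.qc (cv z L) := by
  have hi : ∀ i ∈ L.map Prod.fst, ∀ j ∈ L.map Prod.fst, ux z i = ux z j → i = j := fun i hi j hj e => by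
    by_contra hij
    exact h.distR i hi j hj hij (sub_right_injective e)
  have hb : ∀ i ∈ L.map Prod.fst, ux z i ∈ Fr.nb := fun i hi => by
    have := (hr.ok _ (h.nearR i hi) _ (h.nearR i hi)).nm
    rwa [show (3 / 2 * lam - z i) = ux z i by unfold ux lam; ring] at this
  rw [← Fr.qc_lab h.gd.fst hi hb, List.map_map]
  congr 1
  exact List.map_congr_left fun t _ => (cf_m (z t.1))

/-- The scalar of the left half. -/
theorem qL (h : Cx r z L b c) (hr : NR ι r) :
    Fr.Qs (ux fun i => -z i) (L.map Prod.snd).toFinset = Fr.qc (cv z L) := by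
  have hi : ∀ i ∈ L.map Prod.snd, ∀ j ∈ L.map Prod.snd, ux (fun i => -z i) i = ux (fun i => -z i) j →
      i = j := fun i hi j hj e => by
    by_contra hij
    exact h.distL i hi j hj hij (neg_injective (sub_right_injective e))
  have hb : ∀ i ∈ L.map Prod.snd, ux (fun i => -z i) i ∈ Fr.nb := fun i hi => by
    have := (hr.ok _ (h.nearL i hi) _ (h.nearL i hi)).np
    rwa [show (3 / 2 * lam + z i) = ux (fun i => -z i) i by unfold ux lam; ring] at this
  rw [← Fr.qc_lab h.gd.snd hi hb, ← h.cvL]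
  congr 1
  refine List.map_congr_left fun i _ => ?_
  rw [← cf_p (z i)]
  congr 1
  unfold ux hh
  ring

theorem fR (h : Cx r z L b c) (hr : NR ι r) (ζ : ℂ) :
    Fr.Nf (ux z) (Fr.Qs (ux z)) (hh - ζ) (L.map Prod.fst).toFinset = Fr.qc (NUMv.cc ζ :: cv z L) := by
  have hi : ∀ i ∈ L.map Prod.fst, ∀ j ∈ L.map Prod.fst, ux z i = ux z j → i = j := fun i hi j hj e => by
    by_contra hij
    exact h.distR i hi j hj hij (sub_right_injective e)
  have hb : ∀ i ∈ L.map Prod.fst, ux z i ∈ Fr.nb := fun i hi => by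
    have := (hr.ok _ (h.nearR i hi) _ (h.nearR i hi)).nm
    rwa [show (3 / 2 * lam - z i) = ux z i by unfold ux lam; ring] at this
  rw [← Fr.qc_far_lab h.gd.fst hi hb, List.map_map, cf_m]
  congr 2
  exact List.map_congr_left fun t _ => (cf_m (z t.1))

theorem fL (h : Cx r z L b c) (hr : NR ι r) (ζ : ℂ) :
    Fr.Nf (ux fun i => -z i) (Fr.Qs (ux fun i => -z i)) (hh + ζ) (L.map Prod.snd).toFinset =
      Fr.qc (NUMv.cc ζ :: cv z L) := by
  have hi : ∀ i ∈ L.map Prod.snd, ∀ j ∈ L.map Prod.snd, ux (fun i => -z i) i = ux (fun i => -z i) j →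
      i = j := fun i hi j hj e => by
    by_contra hij
    exact h.distL i hi j hj hij (neg_injective (sub_right_injective e))
  have hb : ∀ i ∈ L.map Prod.snd, ux (fun i => -z i) i ∈ Fr.nb := fun i hi => by
    have := (hr.ok _ (h.nearL i hi) _ (h.nearL i hi)).np
    rwa [show (3 / 2 * lam + z i) = ux (fun i => -z i) i by unfold ux lam; ring] at this
  rw [← Fr.qc_far_lab h.gd.snd hi hb, cf_p, ← h.cvL]
  congr 2
  refine List.map_congr_left fun i _ => ?_
  rw [← cf_p (z i)]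
  congr 1
  unfold ux hh
  ring

end Cx

end Pool.Agent.NUF
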