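import Pool.Agent.NUF.FINS

/-!
# The absolute route: numerator and denominator
-/

set_option autoImplicit false
open scoped Classical

namespace Pool.Agent.NUF

open HexObs

/-- The bulk factor of `2 m` rows: `((2 / 3) (2 + √2)) ^ (2 m (2 m - 1)) (2 / 3) ^ (2 m)`. -/
noncomputable def bulk (m : ℕ) : ℝ := (2 / 3 * (2 + Real.sqrt 2)) ^ (2 * m * (2 * m - 1)) * (2 / 3) ^ (2 * m)

theorem bulk_pos (m : ℕ) : 0 < bulk m := by unfold bulk; positivity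

/-- Denominator from below (loop weight 0). -/
def DenLow : Prop := ∀ ε : ℝ, 0 < ε → ∃ c : ℝ, 0 < c ∧ ∀ m : ℕ, 1 ≤ m →
  c * (m : ℝ) ^ (5 / 24 - ε) * bulk m ≤ ‖(near_WW 0).Wd (List.replicate m 1) (List.replicate m 1)‖

/-- Numerator from above (loop weight 2). -/
def NumUp : Prop := ∀ ε : ℝ, 0 < ε → ∃ C : ℝ, ∀ m : ℕ, 1 ≤ m →
  ‖(near_WW 2).Wd (List.replicate m 1) (List.replicate m 1)‖ ≤ C * (m : ℝ) ^ (3 / 8 + ε) * bulk m

theorem ZZ_of_num_den (hN : NumUp) (hD : DenLow) (ε : ℝ) (hε : 0 < ε) :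
    ∃ C : ℝ, ∀ m : ℕ, 1 ≤ m → ‖ZZ 2 m‖ ≤ C * (m : ℝ) ^ (1 / 6 + ε) := by
  obtain ⟨C, hC⟩ := hN (ε / 2) (by positivity)
  obtain ⟨c, hc, hc1⟩ := hD (ε / 2) (by positivity)
  refine ⟨C / c, fun m hm => ?_⟩
  have hm0 : (0 : ℝ) < m := by exact_mod_cast hm
  have h1 := hC m hm
  have h2 := hc1 m hm
  have hb := bulk_pos m
  have h3 : 0 < c * (m : ℝ) ^ (5 / 24 - ε / 2) * bulk m := by positivity
  rw [ZZ, norm_div, div_le_iff₀ (h3.trans_le h2)]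
  have hC0 : 0 ≤ C := by
    by_contra hneg
    push Not at hneg
    have h4 := (norm_nonneg _).trans h1
    have h5 : C * (m : ℝ) ^ (3 / 8 + ε / 2) * bulk m < 0 :=
      mul_neg_of_neg_of_pos (mul_neg_of_neg_of_pos hneg (by positivity)) hb
    linarith
  have e : C * (m : ℝ) ^ (3 / 8 + ε / 2) * bulk m =
      C / c * (m : ℝ) ^ (1 / 6 + ε) * (c * (m : ℝ) ^ (5 / 24 - ε / 2) * bulk m) := by
    have e2 : (m : ℝ) ^ (3 / 8 + ε / 2) = (m : ℝ) ^ (1 / 6 + ε) * (m : ℝ) ^ (5 / 24 - ε / 2) := by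
      rw [← Real.rpow_add hm0]
      congr 1
      ring
    rw [e2]
    field_simp
  refine h1.trans (e.le.trans ?_)
  exact mul_le_mul_of_nonneg_left h2 (by positivity)

/-- **Superdiffusivity with every exponent below 3 / 2** from the two bounds. -/
theorem size_lower_of_num_den (hN : NumUp) (hD : DenLow) (p : ℝ) (hp : p < 3 / 2) :
    ∃ c : ℝ, 0 < c ∧ ∀ f : ℕ → Fin 3 → ℂ,
      (∀ i a, f i a = (-1 : ℂ) ^ i * Complex.exp (2 * (Real.pi : ℂ) * Complex.I * ((a : ℕ) : ℂ) / 3)) →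
      ∀ n : ℕ, 1 ≤ n → ∀ W : Finset (Fin n → Fin 3),
        W = Finset.univ.filter (fun s : Fin n → Fin 3 => ∀ j₁ j₂ : Fin (n + 1),
          (∑ i ∈ Finset.univ.filter (fun i : Fin n => (i : ℕ) < (j₁ : ℕ)), f (i : ℕ) (s i)) =
          (∑ i ∈ Finset.univ.filter (fun i : Fin n => (i : ℕ) < (j₂ : ℕ)), f (i : ℕ) (s i)) →
          j₁ = j₂) →
        c * (n : ℝ) ^ p ≤ (∑ s ∈ W, ‖∑ i : Fin n, f (i : ℕ) (s i)‖ ^ 2) / (W.card : ℝ) ∧
        ((W.filter (fun s => ∀ j : Fin (n + 1),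
          ‖∑ i ∈ Finset.univ.filter (fun i : Fin n => (i : ℕ) < (j : ℕ)), f (i : ℕ) (s i)‖ ≤
            c * (n : ℝ) ^ (p / 2))).card : ℝ) ≤ c⁻¹ * Real.exp (-(n : ℝ) ^ c) * (W.card : ℝ) :=
  size_lower_of_ZZ (ZZ_of_num_den hN hD) p hp

end Pool.Agent.NUF
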