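import Pool.Agent.NUF.HNF
import Pool.Agent.T2.LongB

/-!
NUL chain H: the lower input LowHH of the upper size bound, from lower bounds of the gas of nested polygons.
-/

set_option autoImplicit false

namespace HexObs

namespace LP

open Complex Finset

private lemma ln_vt (v : Pt) : Vt v ↔ (v.1 - v.2) % 3 ≠ 1 := by
  unfold Vt cl
  have h : ((v.1 - v.2 : ℤ) : ZMod 3) = ((1 : ℤ) : ZMod 3) ↔ (v.1 - v.2 - 1) % 3 = 0 := by
    rw [ZMod.intCast_eq_intCast_iff]
    unfold Int.ModEq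
    push_cast
    omega
  rw [Int.cast_one] at h
  rw [Ne, h]
  omega

private lemma ln_fc (v : Pt) : cl v = 1 ↔ (v.1 - v.2) % 3 = 1 := by
  unfold cl
  have h : ((v.1 - v.2 : ℤ) : ZMod 3) = ((1 : ℤ) : ZMod 3) ↔ (v.1 - v.2 - 1) % 3 = 0 := by
    rw [ZMod.intCast_eq_intCast_iff]
    unfold Int.ModEq
    push_cast
    omega
  rw [Int.cast_one] at h
  rw [h]
  omega

/-- three faces at every vertex. -/
theorem fcs_card {v : Pt} (hv : Vt v) : (fcs v).card = 3 := by
  have h2 : fcs v = (dirs.filter (fun d => cl v + cl d = 1)).image (fun d => v + d) := by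
    unfold fcs
    rw [Finset.filter_image]
    congr 1
    apply Finset.filter_congr
    intro d _
    rw [cl_add]
  have h3 : ∀ c : ZMod 3, c ≠ 1 → (dirs.filter (fun d => c + cl d = 1)).card = 3 := by decide
  rw [h2, Finset.card_image_of_injective _ (fun a b h => add_left_cancel h)]
  exact h3 _ hv

private lemma ln_dirs {d : Pt} (hd : d ∈ dirs) : d = (1, 0) ∨ d = (0, 1) ∨ d = (-1, 1) ∨ d = (-1, 0) ∨
    d = (0, -1) ∨ d = (1, -1) := by
  revert d
  decide

/-- the gas of a face of the strip contains the gas of the small parallelogram. -/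
theorem NF_face {z : ℝ} (hz0 : 0 ≤ z) {T A B m M : ℕ} {f : Pt} (hf : cl f = 1) (h1 : (3 * m : ℤ) ≤ lv f)
    (h2 : lv f + 3 * m ≤ 3 * T + 2) (h3 : -(3 * A : ℤ) + 3 * M ≤ nn f) (h4 : nn f + 3 * M ≤ 3 * B - 1) :
    NF z (PP m M) f0 ≤ NF z (Par T A B) f := by
  have hz : cl (f - f0) = 0 := by
    rw [cl_sub, hf]
    decide
  have e1 := NF_tr z hz (PP m M) f0
  have e2 : f0 + (f - f0) = f := by abel
  rw [e2] at e1
  rw [← e1]
  apply NF_mono hz0
  intro v hv
  rw [mem_Ti, mem_PP] at hv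
  obtain ⟨g1, g2, g3⟩ := hv
  rw [mem_par]
  have e3 : v = (v - (f - f0)) + (f - f0) := by abel
  refine ⟨?_, ?_⟩
  · rw [e3, tr_Vt hz]
    exact g1
  · rw [abs_lt] at g2 g3
    unfold lv nn f0 at *
    simp only [Prod.fst_sub, Prod.snd_sub] at *
    omega

/-- LowHH from the gas of nested polygons. -/
theorem lowHH_of_NF {b c : ℝ} (h : ∀ m : ℕ, 1 ≤ m → ∃ M : ℕ, c * (m : ℝ) ^ b ≤ NF (2 : ℝ) (PP m M) f0) :
    T2.LowHH b (3 * r2 * c) := by
  intro m hm
  obtain ⟨M, hM⟩ := h m hm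
  refine ⟨M + 6 * m + 6, ?_⟩
  intro L hL x hx
  have hr := r2_pos
  obtain ⟨hx1, hx2⟩ := CMP.mem_KJ hx
  obtain ⟨l, hl⟩ : ∃ l : ℤ, l = CMP.kl m x := ⟨_, rfl⟩
  rw [← hl]
  have hl' : l = 3 * (m + x.1) + x.2 := by
    rw [hl]
    rfl
  have hlv := CMP.lv_kv l
  have hnn := CMP.nn_kv l
  have hv : CMP.kv l ∈ Par (3 * m) L L := by
    rw [mem_par, ln_vt]
    unfold nn lv at *
    omega
  have h1 := (HH_NF (par_full (3 * m) L L) hv).1
  refine le_trans ?_ h1
  have h2 : ∀ f ∈ fcs (CMP.kv l), c * (m : ℝ) ^ b ≤ NF (2 : ℝ) (Par (3 * m) L L) f := by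
    intro f hf
    refine hM.trans ?_
    unfold fcs at hf
    rw [Finset.mem_filter, Finset.mem_image] at hf
    obtain ⟨⟨d, hd, rfl⟩, hf1⟩ := hf
    rw [mem_par, ln_vt] at hv
    have hf2 := hf1
    rw [ln_fc] at hf2
    apply NF_face (by norm_num) hf1
    all_goals
      unfold lv nn at *
      rcases ln_dirs hd with rfl | rfl | rfl | rfl | rfl | rfl <;>
        simp only [Prod.fst_add, Prod.snd_add] at * <;> omega
  have h3 := Finset.sum_le_sum h2
  rw [Finset.sum_const, nsmul_eq_mul, fcs_card (mem_par.1 hv).1] at h3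
  calc 3 * r2 * c * (m : ℝ) ^ b = r2 * (((3 : ℕ) : ℝ) * (c * (m : ℝ) ^ b)) := by
        push_cast
        ring
    _ ≤ _ := mul_le_mul_of_nonneg_left h3 hr.le

end LP

end HexObs
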