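import Pool.Agent.NUF.FINS
import Pool.Agent.NUF.LowNF
import Pool.Agent.T2.LongP

/-!
# The upper bound of the size from the lower bound of the partition function of the sphere lattice

`NFLow` : the gas of nested polygons of the strip of `2 m` rows is at least `m ^ (1 / 12 - ε)`.
`WindUp` : the partition function of the sphere lattice is at most a constant times the square of the gas of nested
polygons of a strip (loops that wind round the cylinder have a bounded total weight).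
`ZLow` : lower bound of the partition function, one number of rows for every scale.
-/

set_option autoImplicit false
open scoped Classical

namespace Pool.Agent.NUF

open HexObs HexObs.LP

/-- The gas of nested polygons from below. -/
def NFLow : Prop := ∀ ε : ℝ, 0 < ε → ∃ c : ℝ, 0 < c ∧ ∀ m : ℕ, 1 ≤ m → ∃ M : ℕ,
  c * (m : ℝ) ^ (1 / 12 - ε) ≤ NF (2 : ℝ) (HexObs.LP.PP m M) f0

/-- The loops that wind round the cylinder cost a constant only. -/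
def WindUp : Prop := ∃ (C : ℝ) (K : ℕ), 0 < C ∧ 1 ≤ K ∧ ∀ k : ℕ, 1 ≤ k → ∃ M : ℕ,
  ‖ZZ 2 (2 * k)‖ ≤ C * NF (2 : ℝ) (HexObs.LP.PP (K * k) M) f0 ^ 2

/-- The partition function of the sphere lattice from below (one number of rows for every scale). -/
def ZLow : Prop := ∀ ε : ℝ, 0 < ε → ∃ (c : ℝ) (K : ℕ), 0 < c ∧ 1 ≤ K ∧ ∀ m : ℕ, 1 ≤ m → ∃ k : ℕ, 1 ≤ k ∧
  k ≤ K * m ∧ c * (m : ℝ) ^ (1 / 6 - ε) ≤ ‖ZZ 2 (2 * k)‖

/-- Long walks with the excess `1 / 3`. -/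
theorem longWalks_third (h : NFLow) : T2.LongWalks (1 / 3) := by
  intro τ hτ
  obtain ⟨ε, hε⟩ : ∃ ε : ℝ, ε = min ((1 / 3 - τ) / 2) (1 / 12) := ⟨_, rfl⟩
  have h1 : 0 < ε := by
    rw [hε]
    exact lt_min (by linarith) (by norm_num)
  have h2 : ε ≤ 1 / 12 := by rw [hε]; exact min_le_right _ _
  have h3 : ε ≤ (1 / 3 - τ) / 2 := by rw [hε]; exact min_le_left _ _
  obtain ⟨c, hc, hN⟩ := h ε h1
  have h4 := T2.longWalks_low (a := 1 / 4) (b := 1 / 12 - ε) (c := 3 * r2 * c) (by norm_num) (by linarith)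
    (by have := r2_pos; positivity) (lowHH_of_NF hN) T2.uu_le_quarter
  exact h4 τ (by linarith)

/-- The gas of nested polygons from the partition function of the sphere lattice. -/
theorem nfLow_of (hW : WindUp) (hZ : ZLow) : NFLow := by
  intro ε hε
  obtain ⟨C, K, hC, hK, hW⟩ := hW
  obtain ⟨δ, hδ⟩ : ∃ δ : ℝ, δ = min ε (1 / 12) := ⟨_, rfl⟩
  have hδ0 : 0 < δ := by rw [hδ]; exact lt_min hε (by norm_num)
  have hδ1 : δ ≤ ε := by rw [hδ]; exact min_le_left _ _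
  have hδ2 : δ ≤ 1 / 12 := by rw [hδ]; exact min_le_right _ _
  obtain ⟨c, K', hc, hK', hZ⟩ := hZ (2 * δ) (by positivity)
  obtain ⟨R, hR⟩ : ∃ R : ℕ, R = K * K' := ⟨_, rfl⟩
  have hR1 : 1 ≤ R := by rw [hR]; exact Nat.mul_pos hK hK'
  have hRR : (1 : ℝ) ≤ R := by exact_mod_cast hR1
  -- the constant
  obtain ⟨d, hd⟩ : ∃ d : ℝ, d = min (Real.sqrt (c / C) / (2 * R : ℝ) ^ (1 / 12 - δ)) ((1 : ℝ) / (2 * R) ^ (1 / 12 - δ)) :=
    ⟨_, rfl⟩
  have hd0 : 0 < d := by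
    rw [hd]
    apply lt_min
    · have : 0 < Real.sqrt (c / C) := Real.sqrt_pos.2 (by positivity)
      positivity
    · positivity
  refine ⟨d, hd0, fun m hm => ?_⟩
  have hm0 : (0 : ℝ) < m := by exact_mod_cast hm
  have hm1 : (1 : ℝ) ≤ m := by exact_mod_cast hm
  have hpow : (m : ℝ) ^ (1 / 12 - ε) ≤ (m : ℝ) ^ (1 / 12 - δ) :=
    Real.rpow_le_rpow_of_exponent_le hm1 (by linarith)
  have e0 : (0 : ℝ) ≤ 1 / 12 - δ := by linarith
  rcases Nat.lt_or_ge m R with hmR | hmR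
  · refine ⟨0, ?_⟩
    have h1 : (1 : ℝ) ≤ NF (2 : ℝ) (HexObs.LP.PP m 0) f0 := one_le_NF (by norm_num) _ _
    have h2 : d * (m : ℝ) ^ (1 / 12 - ε) ≤ 1 := by
      have h3 : (m : ℝ) ^ (1 / 12 - ε) ≤ (2 * R : ℝ) ^ (1 / 12 - δ) := by
        refine hpow.trans (Real.rpow_le_rpow hm0.le ?_ e0)
        have : (m : ℝ) ≤ R := by exact_mod_cast hmR.le
        linarith
      have h4 : d ≤ 1 / (2 * R : ℝ) ^ (1 / 12 - δ) := by rw [hd]; exact min_le_right _ _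
      calc d * (m : ℝ) ^ (1 / 12 - ε) ≤ 1 / (2 * R : ℝ) ^ (1 / 12 - δ) * (2 * R : ℝ) ^ (1 / 12 - δ) :=
            mul_le_mul h4 h3 (by positivity) (by positivity)
        _ = 1 := by field_simp
    linarith
  · -- m0 = m / R
    obtain ⟨m0, hm0'⟩ : ∃ m0 : ℕ, m0 = m / R := ⟨_, rfl⟩
    have h1 : 1 ≤ m0 := by rw [hm0']; exact (Nat.one_le_div_iff hR1).2 hmR
    obtain ⟨k, hk1, hk2, hk3⟩ := hZ m0 h1
    obtain ⟨M, hM⟩ := hW k hk1
    refine ⟨M, ?_⟩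
    have h2 : K * k ≤ m := by
      calc K * k ≤ K * (K' * m0) := Nat.mul_le_mul_left _ hk2
        _ = m0 * R := by rw [hR]; ring
        _ ≤ m := by rw [hm0']; exact Nat.div_mul_le_self m R
    have h3 : HexObs.LP.PP (K * k) M ⊆ HexObs.LP.PP m M := by
      intro v hv
      rw [mem_PP] at hv ⊢
      refine ⟨hv.1, lt_of_lt_of_le hv.2.1 ?_, hv.2.2⟩
      have : ((K * k : ℕ) : ℤ) ≤ m := by exact_mod_cast h2
      linarith
    have h4 := NF_mono (z := 2) (by norm_num) f0 h3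
    have h5 : (1 : ℝ) ≤ NF (2 : ℝ) (HexObs.LP.PP (K * k) M) f0 := one_le_NF (by norm_num) _ _
    have h6 : c * (m0 : ℝ) ^ (1 / 6 - 2 * δ) ≤ C * NF (2 : ℝ) (HexObs.LP.PP m M) f0 ^ 2 := by
      refine hk3.trans (hM.trans (mul_le_mul_of_nonneg_left ?_ hC.le))
      exact pow_le_pow_left₀ (by linarith) h4 2
    have hm00 : (0 : ℝ) < m0 := by exact_mod_cast h1
    have h7 : c / C * ((m0 : ℝ) ^ (1 / 12 - δ)) ^ 2 ≤ NF (2 : ℝ) (HexObs.LP.PP m M) f0 ^ 2 := by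
      have e1 : ((m0 : ℝ) ^ (1 / 12 - δ)) ^ 2 = (m0 : ℝ) ^ (1 / 6 - 2 * δ) := by
        rw [← Real.rpow_natCast ((m0 : ℝ) ^ (1 / 12 - δ)) 2, ← Real.rpow_mul hm00.le]
        congr 1
        push_cast
        ring
      rw [e1, div_mul_eq_mul_div, div_le_iff₀ hC]
      linarith
    have h8 : Real.sqrt (c / C) * (m0 : ℝ) ^ (1 / 12 - δ) ≤ NF (2 : ℝ) (HexObs.LP.PP m M) f0 := by
      have h9 := Real.sqrt_le_sqrt h7
      rw [Real.sqrt_mul (by positivity), Real.sqrt_sq (by positivity), Real.sqrt_sq (by linarith)] at h9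
      exact h9
    have h10 : (m : ℝ) ≤ 2 * R * m0 := by
      have h11 : m < R * (m0 + 1) := by
        rw [hm0']
        exact Nat.lt_mul_div_succ m hR1
      have h12 : (m : ℝ) ≤ R * (m0 + 1) := by exact_mod_cast h11.le
      have h13 : (1 : ℝ) ≤ m0 := by exact_mod_cast h1
      nlinarith
    have h14 : (m : ℝ) ^ (1 / 12 - δ) ≤ (2 * R : ℝ) ^ (1 / 12 - δ) * (m0 : ℝ) ^ (1 / 12 - δ) := by
      rw [← Real.mul_rpow (by positivity) hm00.le]
      exact Real.rpow_le_rpow hm0.le h10 e0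
    have h15 : d ≤ Real.sqrt (c / C) / (2 * R : ℝ) ^ (1 / 12 - δ) := by rw [hd]; exact min_le_left _ _
    calc d * (m : ℝ) ^ (1 / 12 - ε) ≤ d * (m : ℝ) ^ (1 / 12 - δ) := mul_le_mul_of_nonneg_left hpow hd0.le
      _ ≤ Real.sqrt (c / C) / (2 * R : ℝ) ^ (1 / 12 - δ) *
          ((2 * R : ℝ) ^ (1 / 12 - δ) * (m0 : ℝ) ^ (1 / 12 - δ)) :=
            mul_le_mul h15 h14 (by positivity) (by positivity)
      _ = Real.sqrt (c / C) * (m0 : ℝ) ^ (1 / 12 - δ) := by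
            have : (0 : ℝ) < (2 * R : ℝ) ^ (1 / 12 - δ) := by positivity
            field_simp
      _ ≤ _ := h8

/-- **Two-sided bounds of the mean squared displacement** with the exponent `3 / 2` of Nienhuis, from the two-sided
asymptotics of the partition function of the sphere lattice. -/
theorem size_three_halves
    (hU : ∀ ε : ℝ, 0 < ε → ∃ C : ℝ, ∀ m : ℕ, 1 ≤ m → ‖ZZ 2 m‖ ≤ C * (m : ℝ) ^ (1 / 6 + ε))
    (hL : NFLow) (p q : ℝ) (hp : p < 3 / 2) (hq : 3 / 2 < q) :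
    ∃ c : ℝ, 0 < c ∧ ∀ f : ℕ → Fin 3 → ℂ,
      (∀ i a, f i a = (-1 : ℂ) ^ i * Complex.exp (2 * (Real.pi : ℂ) * Complex.I * ((a : ℕ) : ℂ) / 3)) →
      ∀ n : ℕ, 1 ≤ n → ∀ W : Finset (Fin n → Fin 3),
        W = Finset.univ.filter (fun s : Fin n → Fin 3 => ∀ j₁ j₂ : Fin (n + 1),
          (∑ i ∈ Finset.univ.filter (fun i : Fin n => (i : ℕ) < (j₁ : ℕ)), f (i : ℕ) (s i)) =
          (∑ i ∈ Finset.univ.filter (fun i : Fin n => (i : ℕ) < (j₂ : ℕ)), f (i : ℕ) (s i)) →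
          j₁ = j₂) →
        (c * (n : ℝ) ^ p ≤ (∑ s ∈ W, ‖∑ i : Fin n, f (i : ℕ) (s i)‖ ^ 2) / (W.card : ℝ) ∧
          (∑ s ∈ W, ‖∑ i : Fin n, f (i : ℕ) (s i)‖ ^ 2) / (W.card : ℝ) ≤ c⁻¹ * (n : ℝ) ^ q) ∧
        ((W.filter (fun s => ∀ j : Fin (n + 1),
          ‖∑ i ∈ Finset.univ.filter (fun i : Fin n => (i : ℕ) < (j : ℕ)), f (i : ℕ) (s i)‖ ≤
            c * (n : ℝ) ^ (p / 2))).card : ℝ) ≤ c⁻¹ * Real.exp (-(n : ℝ) ^ c) * (W.card : ℝ) ∧
        ((W.filter (fun s => ∃ j : Fin (n + 1), c⁻¹ * (n : ℝ) ^ (q / 2) <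
          ‖∑ i ∈ Finset.univ.filter (fun i : Fin n => (i : ℕ) < (j : ℕ)), f (i : ℕ) (s i)‖)).card : ℝ) ≤
            c⁻¹ * Real.exp (-(n : ℝ) ^ c) * (W.card : ℝ) :=
  T2.size_of (a := 4 / 3) (τ1 := 1 / 3) (by norm_num) (by norm_num) (fun _ ha => meanLen_of_ZZ hU ha) (by norm_num)
    (longWalks_third hL) p q (by linarith) (by linarith)

end Pool.Agent.NUF
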