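import Pool.Agent.NUF.HNF
import Pool.Agent.HexLoop.HitV
import Pool.Agent.HexLoop.MeanLen
import Pool.Agent.T2.Mean

/-!
NUL chain H, module H2: the mean length of the bridges from upper bounds of the gas of nested polygons.
-/

set_option autoImplicit false

namespace HexObs

namespace LP

open Complex Finset

open scoped ENNReal

private lemma HW_vx (k : ℤ) (t : List Bool) (i : ℕ) : vx (ft k).1 up t i = (ft k).1 + vx oo up t i := by
  have h2 := vx_mulE (1, 0) oo (ft k).1 up t i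
  rw [mulE_one, mulE_one] at h2
  rw [h2]
  congr 1
  exact sub_zero _

private lemma HW_ft (k : ℤ) : (ft k).1 = (2 * k, -k) := by
  show k • hz up = _
  have : hz up = (2, -1) := by decide
  rw [this]
  simp only [Prod.smul_mk, smul_eq_mul]
  ext
  · ring
  · ring

private lemma HW_lv (k : ℤ) (t : List Bool) (i : ℕ) : lv (vx (ft k).1 up t i) = lev t i := by
  rw [HW_vx, HW_ft]
  unfold lev ip up lv
  simp only [Prod.fst_add, Prod.snd_add]
  ring

private lemma HW_cl (v : Pt) (k : ℤ) : cl v = (k : ZMod 3) ↔ (v.1 - v.2 - k) % 3 = 0 := by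
  unfold cl
  rw [ZMod.intCast_eq_intCast_iff]
  unfold Int.ModEq
  push_cast
  omega

private lemma HW_vt (v : Pt) : Vt v ↔ (v.1 - v.2) % 3 ≠ 1 := by
  unfold Vt
  have h := HW_cl v 1
  rw [Int.cast_one] at h
  rw [Ne, h]
  omega

private lemma HW_fc (v : Pt) : cl v = 1 ↔ (v.1 - v.2) % 3 = 1 := by
  have h := HW_cl v 1
  rw [Int.cast_one] at h
  rw [h]
  omega

private lemma HW_zero (v : Pt) : cl v = 0 ↔ (v.1 - v.2) % 3 = 0 := by
  have h := HW_cl v 0
  rw [Int.cast_zero] at h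
  rw [h]
  omega

private lemma HW_dirs {d : Pt} (hd : d ∈ dirs) : d = (1, 0) ∨ d = (0, 1) ∨ d = (-1, 1) ∨ d = (-1, 0) ∨
    d = (0, -1) ∨ d = (1, -1) := by
  revert d
  decide

private lemma HW_card (v : Pt) : (fcs v).card ≤ 3 := by
  unfold fcs
  rw [Finset.filter_image]
  refine card_image_le.trans ?_
  have h : ∀ c : ZMod 3, (dirs.filter (fun d => c + cl d = 1)).card ≤ 3 := by decide
  have h2 := h (cl v)
  simp only [cl_add]
  exact h2

/-- the face f of the strip is moved to the central face. -/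
theorem NF_center {z0 : ℝ} (hz0' : 0 ≤ z0) {T A B : ℕ} {f : Pt} (hf : cl f = 1) (h1 : 1 ≤ lv f) (h2 : lv f ≤ 3 * T + 1) :
    ∃ M : ℕ, NF z0 (Par T A B) f ≤ NF z0 (PP T M) f0 := by
  set z : Pt := f0 - f with hz
  have hz0 : cl z = 0 := by
    rw [HW_zero, hz]
    rw [HW_fc] at hf
    simp only [f0, Prod.fst_sub, Prod.snd_sub]
    omega
  have hfz : f + z = f0 := by
    rw [hz]
    abel
  refine ⟨A + B + (nn f).natAbs + 1, ?_⟩
  rw [← NF_tr z0 hz0 (Par T A B) f, hfz]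
  apply NF_mono hz0'
  intro w hw
  rw [mem_Ti] at hw
  obtain ⟨v, rfl⟩ : ∃ v, w = v + z := ⟨w - z, by abel⟩
  have hv : v ∈ Par T A B := by
    have e : v + z - z = v := by abel
    rwa [e] at hw
  clear hw
  rw [mem_par, HW_vt] at hv
  obtain ⟨a1, a2, a3, a4, a5⟩ := hv
  rw [HW_fc] at hf
  rw [mem_PP, HW_vt, hz]
  unfold lv nn at *
  simp only [f0, Prod.fst_add, Prod.snd_add, Prod.fst_sub, Prod.snd_sub]
  refine ⟨by omega, ?_, ?_⟩
  · rw [abs_lt]
    constructor <;> omega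
  · rw [abs_lt]
    constructor <;> omega

/-- the bridges (from all the feet) that visit a vertex. -/
theorem hit_vertex_NF {T : ℕ} (hT : 1 ≤ T) {L : ℝ} (hL : ∀ M : ℕ, NF (2 : ℝ) (PP T M) f0 ≤ L) (v : Pt)
    (X : Finset (ℤ × List Bool)) (hX : ∀ x ∈ X, x.2 ∈ Brd T ∧ Hit {v} (ft x.1) x.2) :
    ∑ x ∈ X, xc ^ x.2.length ≤ 3 * L := by
  classical
  have hL1 : 1 ≤ L := (one_le_NF (by norm_num) _ _).trans (hL 0)
  rcases X.eq_empty_or_nonempty with h0 | ⟨x0, hx0⟩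
  · rw [h0, Finset.sum_empty]
    positivity
  set N := ∑ x ∈ X, ∑ i ∈ range (x.2.length + 1), (nn (vx (ft x.1).1 up x.2 i)).natAbs with hN
  set A := N + 1 with hA
  have hA1 : 1 ≤ A := by omega
  have hpar : ∀ x ∈ X, ∀ i, 1 ≤ i → i ≤ x.2.length → vx (ft x.1).1 up x.2 i ∈ Par T A A := by
    intro x hx i hi1 hi2
    have h1 : (nn (vx (ft x.1).1 up x.2 i)).natAbs ≤ N := by
      have h2 : (nn (vx (ft x.1).1 up x.2 i)).natAbs ≤
          ∑ i ∈ range (x.2.length + 1), (nn (vx (ft x.1).1 up x.2 i)).natAbs :=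
        Finset.single_le_sum (f := fun i => (nn (vx (ft x.1).1 up x.2 i)).natAbs)
          (fun _ _ => Nat.zero_le _) (mem_range.2 (by omega))
      exact h2.trans (Finset.single_le_sum (f := fun x : ℤ × List Bool =>
        ∑ i ∈ range (x.2.length + 1), (nn (vx (ft x.1).1 up x.2 i)).natAbs) (fun _ _ => Nat.zero_le _) hx)
    have h3 := (mem_Brd.1 (hX x hx).1).1 i hi1 hi2
    have h4 := lev_mod x.2 i
    have h5 := HW_lv x.1 x.2 i
    rw [mem_par, HW_vt, h5]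
    refine ⟨?_, h3.1, ?_, ?_, ?_⟩
    · unfold lv at h5
      split_ifs at h4 <;> omega
    · have := h3.2
      omega
    · omega
    · omega
  have hv : v ∈ Par T A A := by
    obtain ⟨i, h1, h2, h3⟩ := (hX x0 hx0).2
    rw [Finset.mem_singleton] at h3
    rw [← h3]
    exact hpar x0 hx0 i h1 h2
  have h1 := HH_ge hT hA1 hA1 (K := {v}) X (fun x hx => ⟨(hX x hx).1, hpar x hx, (hX x hx).2⟩)
  refine h1.trans ((HH_NF (par_full T A A) hv).2.trans ?_)
  have h2 : ∀ f ∈ fcs v, NF (2 : ℝ) (Par T A A) f ≤ L := by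
    intro f hf
    unfold fcs at hf
    rw [Finset.mem_filter, Finset.mem_image] at hf
    obtain ⟨⟨d, hd, rfl⟩, hf1⟩ := hf
    rw [mem_par, HW_vt] at hv
    obtain ⟨b1, b2, b3, _, _⟩ := hv
    obtain ⟨M, hM⟩ := NF_center (z0 := 2) (by norm_num) (T := T) (A := A) (B := A) hf1 (by
      rw [HW_fc] at hf1
      unfold lv at *
      rcases HW_dirs hd with rfl | rfl | rfl | rfl | rfl | rfl <;>
        simp only [Prod.fst_add, Prod.snd_add] at * <;> omega) (by
      rw [HW_fc] at hf1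
      unfold lv at *
      rcases HW_dirs hd with rfl | rfl | rfl | rfl | rfl | rfl <;>
        simp only [Prod.fst_add, Prod.snd_add] at * <;> omega)
    exact hM.trans (hL M)
  calc ∑ f ∈ fcs v, NF (2 : ℝ) (Par T A A) f ≤ ∑ _f ∈ fcs v, L := Finset.sum_le_sum h2
    _ = (fcs v).card * L := by rw [Finset.sum_const, nsmul_eq_mul]
    _ ≤ 3 * L := by
        apply mul_le_mul_of_nonneg_right _ (by linarith)
        exact_mod_cast HW_card v

/-- the letters of the bridges of height T. -/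
theorem mean_len_NF {T : ℕ} (hT : 1 ≤ T) {L : ℝ} (hL : ∀ M : ℕ, NF (2 : ℝ) (PP T M) f0 ≤ L) :
    ∑' t : Brd T, (t.1.length : ℝ≥0∞) * wE t.1 ≤ ENNReal.ofReal (6 * T * L) := by
  have h := mean_len (T := T) (b := 3 * L) (fun v X hX => hit_vertex_NF hT hL v X hX)
  refine h.trans (ENNReal.ofReal_le_ofReal (le_of_eq (by ring)))

/-- the mean length of the bridges with the exponent 5 / 4 + b. -/
theorem meanLen_of_NF {b C : ℝ} (h : ∀ T M : ℕ, 1 ≤ T → NF (2 : ℝ) (PP T M) f0 ≤ C * (T : ℝ) ^ b) :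
    ∃ C' : ℝ, 0 ≤ C' ∧ T2.MeanLen (5 / 4 + b) C' := by
  obtain ⟨c, hc, hB⟩ := T2.bT_quarter
  have hC : 1 ≤ C := by
    have h1 := (one_le_NF (z := (2 : ℝ)) (by norm_num) (PP 1 0) f0).trans (h 1 0 le_rfl)
    rwa [Nat.cast_one, Real.one_rpow, mul_one] at h1
  refine ⟨6 * C / c, by positivity, ?_⟩
  intro T hT
  have hT0 : (0 : ℝ) < T := by exact_mod_cast hT
  refine (mean_len_NF hT (fun M => h T M hT)).trans ?_
  have hB1 := hB T hT
  have h8 : BT T ≠ ⊤ := ne_top_of_le_ne_top ENNReal.one_ne_top (BT_le_one hT)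
  rw [← ENNReal.ofReal_toReal h8, ← ENNReal.ofReal_mul (by positivity)]
  apply ENNReal.ofReal_le_ofReal
  have e1 : 6 * (T : ℝ) * (C * (T : ℝ) ^ b) = 6 * C / c * (T : ℝ) ^ (5 / 4 + b) * (c * (T : ℝ) ^ (-(1 / 4) : ℝ)) := by
    have e2 : (T : ℝ) ^ (5 / 4 + b) * (T : ℝ) ^ (-(1 / 4) : ℝ) = T * (T : ℝ) ^ b := by
      nth_rewrite 3 [← Real.rpow_one (T : ℝ)]
      rw [← Real.rpow_add hT0, ← Real.rpow_add hT0]
      congr 1
      ring
    calc 6 * (T : ℝ) * (C * (T : ℝ) ^ b) = 6 * C * (T * (T : ℝ) ^ b) := by ring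
      _ = 6 * C * ((T : ℝ) ^ (5 / 4 + b) * (T : ℝ) ^ (-(1 / 4) : ℝ)) := by rw [e2]
      _ = _ := by
        field_simp
  rw [e1]
  exact mul_le_mul_of_nonneg_left hB1 (by positivity)

/-- every exponent above 4 / 3. -/
theorem meanLen_43 (h : ∀ ε : ℝ, 0 < ε → ∃ C : ℝ, ∀ T M : ℕ, 1 ≤ T →
    NF (2 : ℝ) (PP T M) f0 ≤ C * (T : ℝ) ^ (1 / 12 + ε)) {a : ℝ} (ha : 4 / 3 < a) :
    ∃ C : ℝ, 0 ≤ C ∧ T2.MeanLen a C := by
  obtain ⟨C, hC⟩ := h (a - 4 / 3) (by linarith)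
  obtain ⟨C', hC', h1⟩ := meanLen_of_NF hC
  refine ⟨C', hC', ?_⟩
  have e : (5 / 4 + (1 / 12 + (a - 4 / 3)) : ℝ) = a := by ring
  rwa [e] at h1

end LP

end HexObs
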