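import Pool.Agent.NUF.FNz
import Pool.Agent.NUF.MeanUp
import Pool.Agent.NUN.Strip
import Pool.Agent.T2.Size

/-!
# The mean length of the bridges from the disc function at equal points
-/

set_option autoImplicit false

namespace Pool.Agent.NUF

open Filter Topology HexObs HexObs.LP

/-- **The partition function of the sphere lattice** with `m` rows on both sides, from the disc function. -/
noncomputable def ZZ (n' : ℂ) (m : ℕ) : ℂ :=
  (near_WW n').Wd (List.replicate m 1) (List.replicate m 1) /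
    (near_WW 0).Wd (List.replicate m 1) (List.replicate m 1)

theorem ZD_eq_ZZ {ι : Type*} [DecidableEq ι] [Fintype ι] {L1 L2 : List (ι × ι)} {s4 : Fin 4 → ι}
    (n' : ℂ) {m : ℕ} (h1 : L1.length = m) (h2 : L2.length = m) (hG : Gd (L1 ++ L2)) (hi : Function.Injective s4)
    (hs4 : ∀ k, ∀ t ∈ L1 ++ L2, s4 k ≠ t.1 ∧ s4 k ≠ t.2) :
    NUG.ZD n' (s4 0) (s4 1) L1 L2 = ZZ n' m := by
  have h := ring_formula n' hG hi hs4
  rw [h1, h2] at h
  rw [ZZ, h, mul_div_cancel_left₀ _ (Wd_ne m)]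

/-- Chain F: the strip of `2 T` rows. -/
theorem chF {T : ℕ} (M : ℕ) (hT : 1 ≤ T) {B C : List (St (4 * T) × St (4 * T))} (hG : Gd (B ++ C))
    (hB : B.length = T) (hC : C.length = T) (h : ∀ k : Fin 4, ∀ t ∈ B ++ C, Sum.inr k ≠ t.1 ∧ Sum.inr k ≠ t.2)
    {n' : ℝ} (hn' : 0 ≤ n') :
    ∃ x : ℝ, ZV n' NUG.z0 B C = x ∧ NF n' (HexObs.LP.PP T M) f0 ≤ x := by
  have m1 : ∀ k : Fin 4, (Sum.inr k : St (4 * T)) ∉ (B ++ C).map Prod.fst := by
    intro k hk
    obtain ⟨t, ht, he⟩ := List.mem_map.1 hk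
    exact (h k t ht).1 he.symm
  have m2 : ∀ k : Fin 4, (Sum.inr k : St (4 * T)) ∉ (B ++ C).map Prod.snd := by
    intro k hk
    obtain ⟨t, ht, he⟩ := List.mem_map.1 hk
    exact (h k t ht).2 he.symm
  obtain ⟨r, -, hr⟩ := NUG.ZV_nn hG (c := (Sum.inr 0 : St (4 * T))) (e := Sum.inr 1)
    (fun e => absurd (Sum.inr_injective e) (by decide)) (m1 0) (m2 0) (m2 1) hn'
  refine ⟨r, hr, ?_⟩
  have h1 := NUN.NF_PP_le_ZV hG (s := fun k : Fin 4 => (Sum.inr k : St (4 * T))) Sum.inr_injective h hT hB hC hn' M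
  rw [hr, Complex.ofReal_re] at h1
  exact h1

/-- **The gas of nested polygons in a strip is bounded by the partition function of the sphere lattice.** -/
theorem NF_le_ZZ {n' : ℝ} (hn' : 0 ≤ n') {T : ℕ} (hT : 1 ≤ T) (M : ℕ) :
    ∃ x : ℝ, ZZ n' (2 * T) = x ∧ NF n' (HexObs.LP.PP T M) f0 ^ 2 ≤ x := by
  have hc : ∀ j : Fin 4, j * T + T ≤ 4 * T := fun j => by have := j.2; nlinarith
  set s : Fin 4 → List (St (4 * T) × St (4 * T)) := fun j => (seg (j * T) T (hc j)).map lk with hs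
  have hl : ∀ j, (s j).length = T := fun j => by rw [hs]; simp only [List.length_map, seg_length]
  have hG : Gd ((s 0 ++ s 1) ++ (s 2 ++ s 3)) := by
    simp only [hs, ← List.map_append]
    apply Gd_lk
    have hd : ∀ i j : Fin 4, i < j → List.Disjoint (seg (i * T) T (hc i)) (seg (j * T) T (hc j)) := by
      intro i j hij k h1 h2
      rw [mem_seg] at h1 h2
      have h3 : (i : ℕ) + 1 ≤ j := hij
      have h4 : ((i : ℕ) + 1) * T ≤ j * T := Nat.mul_le_mul_right T h3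
      rw [add_mul, one_mul] at h4
      omega
    rw [List.nodup_append', List.nodup_append', List.nodup_append', List.disjoint_append_left,
      List.disjoint_append_right, List.disjoint_append_right]
    exact ⟨⟨seg_nodup _, seg_nodup _, hd 0 1 (by decide)⟩, ⟨seg_nodup _, seg_nodup _, hd 2 3 (by decide)⟩,
      ⟨hd 0 2 (by decide), hd 0 3 (by decide)⟩, ⟨hd 1 2 (by decide), hd 1 3 (by decide)⟩⟩
  have hi : Function.Injective (fun k : Fin 4 => (Sum.inr k : St (4 * T))) := Sum.inr_injective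
  have hs4 : ∀ k : Fin 4, ∀ t ∈ (s 0 ++ s 1) ++ (s 2 ++ s 3), (Sum.inr k : St (4 * T)) ≠ t.1 ∧ Sum.inr k ≠ t.2 := by
    intro k t ht
    simp only [hs, ← List.map_append, List.mem_map] at ht
    obtain ⟨i, -, rfl⟩ := ht
    exact ⟨by simp [lk], by simp [lk]⟩
  have ms : ∀ k : Fin 4, (Sum.inr k : St (4 * T)) ∉ ((s 0 ++ s 1) ++ (s 2 ++ s 3)).map Prod.fst ∧
      (Sum.inr k : St (4 * T)) ∉ ((s 0 ++ s 1) ++ (s 2 ++ s 3)).map Prod.snd := fun k => by
    constructor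
    · intro h
      obtain ⟨t, ht, e⟩ := List.mem_map.1 h
      exact (hs4 k t ht).1 e.symm
    · intro h
      obtain ⟨t, ht, e⟩ := List.mem_map.1 h
      exact (hs4 k t ht).2 e.symm
  have ne : ∀ a b : Fin 4, a ≠ b → (Sum.inr a : St (4 * T)) ≠ Sum.inr b := fun a b hab e => hab (hi e)
  have hsp : NUG.Spare (Sum.inr 0 : St (4 * T)) (Sum.inr 1) (Sum.inr 2) ((s 0 ++ s 1) ++ (s 2 ++ s 3)) :=
    ⟨ne 0 1 (by decide), ne 0 2 (by decide), ne 1 2 (by decide), (ms 0).1, (ms 1).1, (ms 2).1,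
      (ms 0).2, (ms 1).2, (ms 2).2⟩
  obtain ⟨r, hr, h1⟩ := NUG.ZD_ge (n' := n') hG hsp hn'
  have h2 := ZD_eq_ZZ (L1 := s 0 ++ s 1) (L2 := s 2 ++ s 3) (s4 := fun k : Fin 4 => (Sum.inr k : St (4 * T)))
    (n' : ℂ) (m := 2 * T) (by rw [List.length_append, hl, hl]; ring) (by rw [List.length_append, hl, hl]; ring)
    hG hi hs4
  have hd' : ∀ i j : Fin 4, i < j → List.Disjoint (seg (i * T) T (hc i)) (seg (j * T) T (hc j)) := by
    intro i j hij k h1 h2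
    rw [mem_seg] at h1 h2
    have h3 : (i : ℕ) + 1 ≤ j := hij
    have h4 : ((i : ℕ) + 1) * T ≤ j * T := Nat.mul_le_mul_right T h3
    rw [add_mul, one_mul] at h4
    omega
  have g1 : Gd (s 1 ++ s 2) := by
    simp only [hs, ← List.map_append]
    apply Gd_lk
    rw [List.nodup_append']
    exact ⟨seg_nodup _, seg_nodup _, hd' 1 2 (by decide)⟩
  have g2 : Gd (s 3 ++ s 0) := by
    simp only [hs, ← List.map_append]
    apply Gd_lk
    rw [List.nodup_append']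
    exact ⟨seg_nodup _, seg_nodup _, (hd' 0 3 (by decide)).symm⟩
  obtain ⟨x, hx, hx1⟩ := chF M hT g1 (hl 1) (hl 2) (by
    intro k t ht
    apply hs4 k t
    simp only [List.mem_append] at ht ⊢
    tauto) hn'
  obtain ⟨y, hy, hy1⟩ := chF M hT g2 (hl 3) (hl 0) (by
    intro k t ht
    apply hs4 k t
    simp only [List.mem_append] at ht ⊢
    tauto) hn'
  refine ⟨x * y + r, ?_, ?_⟩
  · rw [← h2, h1, hx, hy]
    push_cast
    ring
  · have h4 : 0 ≤ NF n' (HexObs.LP.PP T M) f0 := zero_le_one.trans (one_le_NF hn' _ _)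
    have h5 := mul_le_mul hx1 hy1 h4 (h4.trans hx1)
    rw [sq]
    linarith

/-- **The gas of nested polygons from the asymptotics.** -/
theorem NF_le_of (h : ∀ ε : ℝ, 0 < ε → ∃ C : ℝ, ∀ m : ℕ, 1 ≤ m → ‖ZZ 2 m‖ ≤ C * (m : ℝ) ^ (1 / 6 + ε))
    {ε : ℝ} (hε : 0 < ε) : ∃ C : ℝ, ∀ T M : ℕ, 1 ≤ T → NF (2 : ℝ) (HexObs.LP.PP T M) f0 ≤ C * (T : ℝ) ^ (1 / 12 + ε) := by
  obtain ⟨C, hC⟩ := h (2 * ε) (by positivity)
  have hC0 : 0 ≤ C := by
    have h1 := hC 1 le_rfl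
    rw [Nat.cast_one, Real.one_rpow, mul_one] at h1
    exact (norm_nonneg _).trans h1
  refine ⟨Real.sqrt (C * 2 ^ (1 / 6 + 2 * ε)), fun T M hT => ?_⟩
  obtain ⟨x, hx, hx1⟩ := NF_le_ZZ (n' := 2) (by norm_num) hT M
  have h2 := hC (2 * T) (by omega)
  have h20 : ((2 : ℝ) : ℂ) = 2 := by norm_num
  rw [h20] at hx
  rw [hx, Complex.norm_real, Real.norm_eq_abs] at h2
  have hT0 : (0 : ℝ) < T := by exact_mod_cast hT
  have h3 : NF (2 : ℝ) (HexObs.LP.PP T M) f0 ^ 2 ≤ (C * 2 ^ (1 / 6 + 2 * ε)) * ((T : ℝ) ^ (1 / 12 + ε)) ^ 2 := by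
    refine hx1.trans ((le_abs_self x).trans (h2.trans (le_of_eq ?_)))
    push_cast
    rw [Real.mul_rpow (by norm_num) hT0.le, ← Real.rpow_natCast ((T : ℝ) ^ (1 / 12 + ε)) 2, ← Real.rpow_mul hT0.le]
    have e : (1 / 12 + ε) * ((2 : ℕ) : ℝ) = 1 / 6 + 2 * ε := by push_cast; ring
    rw [e]
    ring
  have h4 := Real.abs_le_sqrt h3
  rw [Real.sqrt_mul (by positivity), Real.sqrt_sq (by positivity)] at h4
  exact (le_abs_self _).trans h4

/-- **The mean length of the bridges.** -/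
theorem meanLen_of_ZZ
    (h : ∀ ε : ℝ, 0 < ε → ∃ C : ℝ, ∀ m : ℕ, 1 ≤ m → ‖ZZ 2 m‖ ≤ C * (m : ℝ) ^ (1 / 6 + ε))
    {a : ℝ} (ha : 4 / 3 < a) : ∃ C : ℝ, 0 ≤ C ∧ T2.MeanLen a C :=
  meanLen_43 (fun _ hε => NF_le_of h hε) ha

end Pool.Agent.NUF
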