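import Pool.Agent.NUI.Fin2
import Pool.Agent.NUNC.WindUp
import Pool.Agent.NUQ.DenL
import Pool.Agent.NUF.FINU
import Pool.Agent.NUF.FINA
import Pool.Agent.T2.SizeLim

/-!
# The size exponent `3 / 4` of the self-avoiding walk on the hexagonal lattice: final statements

`size_lim_of` : the limit form, from the upper bound of the partition function (`NumUp`) and the lower bound of the
gas of nested polygons (`NFLow`).
`size_lim_of_target`, `size_three_halves_of_target` : both from `NUI.Target` only.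
-/

set_option autoImplicit false

open scoped Classical

namespace Pool.Agent.NUF

open HexObs Filter

open scoped Topology

/-- The upper bound of the partition function of the sphere lattice from the upper bound of the numerator. -/
theorem zzUp_of (hU : NumUp) :
    ∀ ε : ℝ, 0 < ε → ∃ C : ℝ, ∀ m : ℕ, 1 ≤ m → ‖ZZ 2 m‖ ≤ C * (m : ℝ) ^ (1 / 6 + ε) :=
  fun ε hε => ZZ_of_num_den hU Pool.Agent.NUQ.denLow ε hε

/-- **The size exponent** in the limit form. -/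
theorem size_lim_of (hU : NumUp) (hL : NFLow) :
    ∀ f : ℕ → Fin 3 → ℂ,
      (∀ i b, f i b = (-1 : ℂ) ^ i * Complex.exp (2 * (Real.pi : ℂ) * Complex.I * ((b : ℕ) : ℂ) / 3)) →
      ∀ W : (n : ℕ) → Finset (Fin n → Fin 3),
        (∀ n : ℕ, W n = Finset.univ.filter (fun s : Fin n → Fin 3 => ∀ j₁ j₂ : Fin (n + 1),
          (∑ i ∈ Finset.univ.filter (fun i : Fin n => (i : ℕ) < (j₁ : ℕ)), f (i : ℕ) (s i)) =
          (∑ i ∈ Finset.univ.filter (fun i : Fin n => (i : ℕ) < (j₂ : ℕ)), f (i : ℕ) (s i)) →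
          j₁ = j₂)) →
        Tendsto (fun n : ℕ => Real.log ((∑ s ∈ W n, ‖∑ i : Fin n, f (i : ℕ) (s i)‖ ^ 2) / ((W n).card : ℝ)) /
          Real.log n) atTop (𝓝 (3 / 2)) ∧
        Tendsto (fun n : ℕ => Real.log ((∑ s ∈ W n, Finset.univ.sup' Finset.univ_nonempty (fun j : Fin (n + 1) =>
          ‖∑ i ∈ Finset.univ.filter (fun i : Fin n => (i : ℕ) < (j : ℕ)), f (i : ℕ) (s i)‖ ^ 2)) / ((W n).card : ℝ)) /
          Real.log n) atTop (𝓝 (3 / 2)) ∧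
        ∀ ε : ℝ, 0 < ε → ∃ c : ℝ, 0 < c ∧ ∀ n : ℕ, 1 ≤ n →
          (((W n).filter (fun s => ∀ j : Fin (n + 1),
            ‖∑ i ∈ Finset.univ.filter (fun i : Fin n => (i : ℕ) < (j : ℕ)), f (i : ℕ) (s i)‖ ≤
              (n : ℝ) ^ (3 / 4 - ε))).card : ℝ) ≤ c⁻¹ * Real.exp (-(n : ℝ) ^ c) * ((W n).card : ℝ) ∧
          (((W n).filter (fun s => ∃ j : Fin (n + 1), (n : ℝ) ^ (3 / 4 + ε) <
            ‖∑ i ∈ Finset.univ.filter (fun i : Fin n => (i : ℕ) < (j : ℕ)), f (i : ℕ) (s i)‖)).card : ℝ) ≤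
            c⁻¹ * Real.exp (-(n : ℝ) ^ c) * ((W n).card : ℝ) := by
  have h := T2.size_lim (a := 4 / 3) (by norm_num) (by norm_num) (fun _ ha => meanLen_of_ZZ (zzUp_of hU) ha)
    (by have e : (4 / 3 - 1 : ℝ) = 1 / 3 := by norm_num
        rw [e]
        exact longWalks_third hL)
  have e1 : (2 / (4 / 3) : ℝ) = 3 / 2 := by norm_num
  have e2 : (1 / (4 / 3) : ℝ) = 3 / 4 := by norm_num
  simp only [e1, e2] at h
  exact h

/-- The size exponent in the limit form from the target. -/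
theorem size_lim_of_target (h : NUI.Target) :
    ∀ f : ℕ → Fin 3 → ℂ,
      (∀ i b, f i b = (-1 : ℂ) ^ i * Complex.exp (2 * (Real.pi : ℂ) * Complex.I * ((b : ℕ) : ℂ) / 3)) →
      ∀ W : (n : ℕ) → Finset (Fin n → Fin 3),
        (∀ n : ℕ, W n = Finset.univ.filter (fun s : Fin n → Fin 3 => ∀ j₁ j₂ : Fin (n + 1),
          (∑ i ∈ Finset.univ.filter (fun i : Fin n => (i : ℕ) < (j₁ : ℕ)), f (i : ℕ) (s i)) =
          (∑ i ∈ Finset.univ.filter (fun i : Fin n => (i : ℕ) < (j₂ : ℕ)), f (i : ℕ) (s i)) →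
          j₁ = j₂)) →
        Tendsto (fun n : ℕ => Real.log ((∑ s ∈ W n, ‖∑ i : Fin n, f (i : ℕ) (s i)‖ ^ 2) / ((W n).card : ℝ)) /
          Real.log n) atTop (𝓝 (3 / 2)) ∧
        Tendsto (fun n : ℕ => Real.log ((∑ s ∈ W n, Finset.univ.sup' Finset.univ_nonempty (fun j : Fin (n + 1) =>
          ‖∑ i ∈ Finset.univ.filter (fun i : Fin n => (i : ℕ) < (j : ℕ)), f (i : ℕ) (s i)‖ ^ 2)) / ((W n).card : ℝ)) /
          Real.log n) atTop (𝓝 (3 / 2)) ∧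
        ∀ ε : ℝ, 0 < ε → ∃ c : ℝ, 0 < c ∧ ∀ n : ℕ, 1 ≤ n →
          (((W n).filter (fun s => ∀ j : Fin (n + 1),
            ‖∑ i ∈ Finset.univ.filter (fun i : Fin n => (i : ℕ) < (j : ℕ)), f (i : ℕ) (s i)‖ ≤
              (n : ℝ) ^ (3 / 4 - ε))).card : ℝ) ≤ c⁻¹ * Real.exp (-(n : ℝ) ^ c) * ((W n).card : ℝ) ∧
          (((W n).filter (fun s => ∃ j : Fin (n + 1), (n : ℝ) ^ (3 / 4 + ε) <
            ‖∑ i ∈ Finset.univ.filter (fun i : Fin n => (i : ℕ) < (j : ℕ)), f (i : ℕ) (s i)‖)).card : ℝ) ≤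
            c⁻¹ * Real.exp (-(n : ℝ) ^ c) * ((W n).card : ℝ) :=
  size_lim_of (NUI.numUp_of_target h) (NUI.nfLow_of_target Pool.Agent.NUNC.windUp h)

/-- Two-sided bounds of the mean squared displacement (and of the tails) from the target. -/
theorem size_three_halves_of_target (h : NUI.Target) (p q : ℝ) (hp : p < 3 / 2) (hq : 3 / 2 < q) :
    ∃ c : ℝ, 0 < c ∧ ∀ f : ℕ → Fin 3 → ℂ,
      (∀ i a, f i a = (-1 : ℂ) ^ i * Complex.exp (2 * (Real.pi : ℂ) * Complex.I * ((a : ℕ) : ℂ) / 3)) →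
      ∀ n : ℕ, 1 ≤ n → ∀ W : Finset (Fin n → Fin 3),
        W = Finset.univ.filter (fun s : Fin n → Fin 3 => ∀ j₁ j₂ : Fin (n + 1),
          (∑ i ∈ Finset.univ.filter (fun i : Fin n => (i : ℕ) < (j₁ : ℕ)), f (i : ℕ) (s i)) =
          (∑ i ∈ Finset.univ.filter (fun i : Fin n => (i : ℕ) < (j₂ : ℕ)), f (i : ℕ) (s i)) →
          j₁ = j₂) →
        (c * (n : ℝ) ^ p ≤ (∑ s ∈ W, ‖∑ i : Fin n, f (i : ℕ) (s i)‖ ^ 2) / (W.card : ℝ) ∧
          (∑ s ∈ W, ‖∑ i : Fin n, f (i : ℕ) (s i)‖ ^ 2) / (W.card : ℝ) ≤ c⁻¹ * (n : ℝ) ^ q) ∧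
        ((W.filter (fun s => ∀ j : Fin (n + 1),
          ‖∑ i ∈ Finset.univ.filter (fun i : Fin n => (i : ℕ) < (j : ℕ)), f (i : ℕ) (s i)‖ ≤
            c * (n : ℝ) ^ (p / 2))).card : ℝ) ≤ c⁻¹ * Real.exp (-(n : ℝ) ^ c) * (W.card : ℝ) ∧
        ((W.filter (fun s => ∃ j : Fin (n + 1), c⁻¹ * (n : ℝ) ^ (q / 2) <
          ‖∑ i ∈ Finset.univ.filter (fun i : Fin n => (i : ℕ) < (j : ℕ)), f (i : ℕ) (s i)‖)).card : ℝ) ≤
            c⁻¹ * Real.exp (-(n : ℝ) ^ c) * (W.card : ℝ) :=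
  size_three_halves (zzUp_of (NUI.numUp_of_target h)) (NUI.nfLow_of_target Pool.Agent.NUNC.windUp h) p q hp hq

end Pool.Agent.NUF
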