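import Pool.Agent.NUF.PFin
import Pool.Agent.NUF.Gas.Base

/-!
# The disc function at equal points is not zero (the coefficient of the highest power of the loop variable)
-/

set_option autoImplicit false

namespace NUMv

open Polynomial Filter Topology

variable {U : ℕ → Set ℂ} {W : List ℂ → List ℂ → ℂ} {P : List ℂ → List ℂ → ℂ[X]}

/-- The disc function is continuous. -/
theorem Near.Wd_tendsto (h : Near U W P) {ι : Type*} {l : Filter ι} {x y : ι → List ℂ} {x₀ y₀ : List ℂ}
    (hx : ∀ i, (x i).length = x₀.length) (hy : ∀ i, (y i).length = y₀.length)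
    (ht : Tendsto (fun i => pt (x i ++ y i)) l (𝓝 (pt (x₀ ++ y₀)))) :
    Tendsto (fun i => h.Wd (x i) (y i)) l (𝓝 (h.Wd x₀ y₀)) := by
  have e : ∀ i, h.Wd (x i) (y i) =
      ev (x i ++ y i) ((sw (fun _ => 1) (h.F x₀.length y₀.length)).coeff (dg (x₀.length + y₀.length))) := by
    intro i
    rw [Near.Wd, Near.sc, scp_coeff, hx, hy]
  have e0 : h.Wd x₀ y₀ =
      ev (x₀ ++ y₀) ((sw (fun _ => 1) (h.F x₀.length y₀.length)).coeff (dg (x₀.length + y₀.length))) := by
    rw [Near.Wd, Near.sc, scp_coeff]
  simp only [e, e0]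
  exact tendsto_eval ht _

end NUMv

namespace NUGas

open Filter Topology

variable {η σ : ℂ}

/-- All charges are `+`. -/
def allp (X : List ℂ) : List (ℂ × SignType) := X.map fun x => (x, SignType.pos)

theorem sch_single {X : List ℂ} {φ : List (ℂ × SignType) → ℂ}
    (h : ∀ e : List (ℂ × SignType), e.map Prod.fst = X → e ≠ allp X → φ e = 0) : sch X φ = φ (allp X) := by
  induction X generalizing φ with
  | nil => rfl
  | cons p X ih =>
    rw [sch, Finset.sum_eq_single SignType.pos]
    · rw [ih]
      · rfl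
      · intro e he hne
        apply h
        · rw [List.map_cons, he]
        · intro h2
          rw [allp, List.map_cons] at h2
          injection h2 with h3 h4
          exact hne h4
    · intro a _ ha
      have h1 : sch X (fun e => φ ((p, a) :: e)) = sch X (fun _ => (0 : ℂ)) := by
        apply sch_congr
        intro e he
        apply h
        · rw [List.map_cons, he]
        · intro h2
          rw [allp, List.map_cons] at h2
          injection h2 with h3 h4
          exact ha (congrArg Prod.snd h3)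
      rw [h1, sch_zero]
    · intro h1
      exact absurd (Finset.mem_univ _) h1

theorem sign_le (a : SignType) : ((a : SignType) : ℤ) ≤ 1 ∧ -1 ≤ ((a : SignType) : ℤ) := by
  rcases a with _ | _ | _ <;> decide

theorem tot_bd (e : List (ℂ × SignType)) : tot e ≤ e.length ∧ -(e.length : ℤ) ≤ tot e := by
  induction e with
  | nil => simp [tot]
  | cons c e ih =>
    rw [tot_cons, List.length_cons]
    have := sign_le c.2
    push_cast
    omega

theorem tot_max {e : List (ℂ × SignType)} (h : tot e = e.length) : e = allp (e.map Prod.fst) := by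
  induction e with
  | nil => rfl
  | cons c e ih =>
    rw [tot_cons, List.length_cons] at h
    have h1 := sign_le c.2
    have h2 := tot_bd e
    push_cast at h
    have h3 : tot e = e.length := by omega
    have h4 : ((c.2 : SignType) : ℤ) = 1 := by omega
    have h5 : c.2 = SignType.pos := by
      obtain ⟨p, a⟩ := c
      have h8 : ((a : SignType) : ℤ) = 1 := h4
      show a = SignType.pos
      clear h4 h1 h
      revert h8
      revert a
      decide
    have h6 := ih h3
    rw [List.map_cons, allp, List.map_cons]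
    congr 1
    exact Prod.ext rfl h5

theorem tot_allp (X : List ℂ) : tot (allp X) = X.length := by
  induction X with
  | nil => rfl
  | cons p X ih =>
    show tot ((p, SignType.pos) :: allp X) = _
    rw [tot_cons, ih, List.length_cons]
    push_cast
    have : ((SignType.pos : SignType) : ℤ) = 1 := rfl
    rw [this]
    ring

theorem geom_zero {n : ℕ} {r : ℂ} (h1 : r ^ n = 1) (h2 : r ≠ 1) : ∑ j ∈ Finset.range n, r ^ j = 0 := by
  rw [geom_sum_eq h2, h1, sub_self, zero_div]

/-- **The coefficient of the highest power of the loop variable.** -/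
theorem N_top {m : ℕ} {X Y : List ℂ} (hX : X.length = m) (hY : Y.length = m) {ζ : ℂ}
    (hζ : IsPrimitiveRoot ζ (2 * m + 1)) :
    ∑ j ∈ Finset.range (2 * m + 1), (ζ ^ j)⁻¹ ^ m * N η σ (ζ ^ j) X Y =
      (2 * m + 1) * (own η σ (allp X) * own η σ (allp Y) * crs η (allp X) (allp Y)) := by
  have hζ0 : ζ ≠ 0 := hζ.ne_zero (by omega)
  have e1 : ∀ j, (ζ ^ j)⁻¹ ^ m * N η σ (ζ ^ j) X Y =
      sch X (fun e => sch Y (fun f => (ζ ^ j)⁻¹ ^ m * term η σ (ζ ^ j) e f)) := by
    intro j
    rw [N, ← sch_mul_left]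
    refine sch_congr fun e _ => ?_
    rw [← sch_mul_left]
  have e2 : ∑ j ∈ Finset.range (2 * m + 1), (ζ ^ j)⁻¹ ^ m * N η σ (ζ ^ j) X Y =
      sch X (fun e => sch Y (fun f => ∑ j ∈ Finset.range (2 * m + 1), (ζ ^ j)⁻¹ ^ m * term η σ (ζ ^ j) e f)) := by
    rw [Finset.sum_congr rfl fun j _ => e1 j, ← sch_sum]
    refine sch_congr fun e _ => ?_
    rw [← sch_sum]
  have e3 : ∀ e f : List (ℂ × SignType), e.length = m → tot e ≠ m →
      ∑ j ∈ Finset.range (2 * m + 1), (ζ ^ j)⁻¹ ^ m * term η σ (ζ ^ j) e f = 0 := by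
    intro e f he ht
    by_cases h : tot e = tot f
    · have h1 : ∀ j : ℕ, (ζ ^ j)⁻¹ ^ m * term η σ (ζ ^ j) e f =
          (ζ ^ (tot e - m)) ^ j * (own η σ e * own η σ f * crs η e f) := by
        intro j
        rw [term, if_pos h]
        have h2 : (ζ ^ j)⁻¹ ^ m * (ζ ^ j) ^ tot e = (ζ ^ (tot e - m)) ^ j := by
          rw [zpow_sub₀ hζ0, div_pow, ← zpow_natCast, ← zpow_natCast ζ j, ← zpow_natCast (ζ ^ tot e) j,
            ← zpow_natCast (ζ ^ (m : ℤ)) j, ← zpow_mul, ← zpow_mul, ← zpow_mul, inv_zpow, ← zpow_mul,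
            div_eq_mul_inv, mul_comm, mul_comm (j : ℤ), mul_comm (j : ℤ)]
        rw [← h2]
        ring
      rw [Finset.sum_congr rfl fun j _ => h1 j, ← Finset.sum_mul, geom_zero, zero_mul]
      · rw [← zpow_natCast, ← zpow_mul, mul_comm, zpow_mul, zpow_natCast, hζ.pow_eq_one, one_zpow]
      · intro h3
        rw [hζ.zpow_eq_one_iff_dvd] at h3
        have h4 := tot_bd e
        rw [he] at h4
        have h5 : ((m : ℤ) - tot e).natAbs < 2 * m + 1 := by omega
        have h6 : ((2 * m + 1 : ℕ) : ℤ) ∣ (m : ℤ) - tot e := by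
          rw [← dvd_neg, neg_sub]
          exact h3
        have h7 := Int.eq_zero_of_dvd_of_natAbs_lt_natAbs h6 (by rw [Int.natAbs_natCast]; exact h5)
        omega
    · have h1 : ∀ j : ℕ, (ζ ^ j)⁻¹ ^ m * term η σ (ζ ^ j) e f = 0 := by
        intro j
        rw [term, if_neg h, mul_zero]
      exact Finset.sum_eq_zero fun j _ => h1 j
  rw [e2, sch_single, sch_single]
  · have h1 : tot (allp X) = tot (allp Y) := by rw [tot_allp, tot_allp, hX, hY]
    have h2 : ∀ j : ℕ, (ζ ^ j)⁻¹ ^ m * term η σ (ζ ^ j) (allp X) (allp Y) =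
        own η σ (allp X) * own η σ (allp Y) * crs η (allp X) (allp Y) := by
      intro j
      rw [term, if_pos h1, tot_allp, hX]
      have h3 : (ζ ^ j)⁻¹ ^ m * (ζ ^ j) ^ (m : ℤ) = 1 := by
        rw [zpow_natCast, inv_pow, inv_mul_cancel₀ (pow_ne_zero _ (pow_ne_zero _ hζ0))]
      linear_combination (own η σ (allp X) * own η σ (allp Y) * crs η (allp X) (allp Y)) * h3
    rw [Finset.sum_congr rfl fun j _ => h2 j, Finset.sum_const, Finset.card_range, nsmul_eq_mul]
    push_cast
    ring
  · intro f hf hne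
    have hl : f.length = m := by rw [← hY, ← hf, List.length_map]
    apply Finset.sum_eq_zero
    intro j _
    rw [term, if_neg, mul_zero]
    intro h
    apply hne
    rw [tot_allp, hX] at h
    have := tot_max (e := f) (by rw [← h, hl])
    rw [this, hf]
  · intro e he hne
    have hl : e.length = m := by rw [← hX, ← he, List.length_map]
    have ht : tot e ≠ m := by
      intro h
      apply hne
      have := tot_max (e := e) (by rw [h, hl])
      rw [this, he]
    have h1 : sch Y (fun f => ∑ j ∈ Finset.range (2 * m + 1), (ζ ^ j)⁻¹ ^ m * term η σ (ζ ^ j) e f) =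
        sch Y (fun _ => (0 : ℂ)) := sch_congr fun f _ => e3 e f hl ht
    rw [h1, sch_zero]

/-- The points `1 + t * j`. -/
def near1 (J : List ℕ) (t : ℂ) : List ℂ := J.map fun j : ℕ => 1 + t * (j : ℂ)

theorem own_cont (J : List ℕ) : Continuous fun t : ℂ => own η σ (allp (near1 J t)) := by
  induction J with
  | nil => exact continuous_const
  | cons j J ih =>
    have e : ∀ t : ℂ, own η σ (allp (near1 (j :: J) t)) = σ * (1 + t * j) *
        (J.map fun k : ℕ => F η .pos .pos (1 + t * j) (1 + t * k)).prod * own η σ (allp (near1 J t)) := by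
      intro t
      show own η σ ((1 + t * (j : ℂ), SignType.pos) :: allp (near1 J t)) = _
      rw [own]
      congr 2
      unfold allp near1
      rw [List.map_map, List.map_map]
      rfl
    simp only [e]
    refine (Continuous.mul (by fun_prop) ?_).mul ih
    refine continuous_list_prod _ fun k _ => ?_
    unfold F lin
    fun_prop

theorem crs_allp (X Y : List ℂ) : crs η (allp X) (allp Y) = 1 := by
  unfold crs allp
  apply List.prod_eq_one
  intro x hx
  rw [List.map_map, List.mem_map] at hx
  obtain ⟨c, -, rfl⟩ := hx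
  apply List.prod_eq_one
  intro x hx
  simp only [List.map_map, List.mem_map, Function.comp_apply] at hx
  obtain ⟨d, -, rfl⟩ := hx
  rfl

theorem F_one (hη : η ^ 4 = -1) : F η .pos .pos 1 1 ≠ 0 := by
  have h : ∀ k : ℕ, k % 8 ≠ 0 → lin η k 1 1 ≠ 0 := by
    intro k hk h
    unfold lin at h
    apply eta_pow_ne_one hη hk
    linear_combination h
  exact mul_ne_zero (mul_ne_zero (mul_ne_zero (h 2 (by norm_num)) (h 3 (by norm_num)))
    (h 5 (by norm_num))) (h 6 (by norm_num))

theorem own_ne (hη : η ^ 4 = -1) (hσ : σ ≠ 0) (m : ℕ) : own η σ (allp (List.replicate m 1)) ≠ 0 := by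
  induction m with
  | zero => exact one_ne_zero
  | succ m ih =>
    rw [List.replicate_succ]
    show own η σ ((1, SignType.pos) :: allp (List.replicate m 1)) ≠ 0
    rw [own]
    refine mul_ne_zero (mul_ne_zero ?_ ?_) ih
    · show σ * 1 ≠ 0
      rwa [mul_one]
    · apply List.prod_ne_zero
      intro h
      obtain ⟨d, hd, h0⟩ := List.mem_map.1 h
      obtain ⟨x, hx, rfl⟩ := List.mem_map.1 hd
      rw [List.mem_replicate] at hx
      rw [hx.2] at h0
      exact F_one hη h0

end NUGas

namespace Pool.Agent.NUF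

open Filter Topology NUGas

theorem near1_zero (J : List ℕ) : near1 J 0 = List.replicate J.length 1 := by
  unfold near1
  rw [List.eq_replicate_iff]
  refine ⟨by rw [List.length_map], fun x hx => ?_⟩
  obtain ⟨j, -, rfl⟩ := List.mem_map.1 hx
  ring

theorem near1_gen {J : List ℕ} (hJ : J.Nodup) {t : ℝ} (ht : 0 < t) : NUGas.Gen NUMv.eta (near1 J t) := by
  apply NUMv.gen_pos
  · intro c hc
    obtain ⟨j, -, rfl⟩ := List.mem_map.1 hc
    refine ⟨1 + t * j, ?_, by push_cast; ring⟩
    show (0 : ℝ) < 1 + t * j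
    positivity
  · apply hJ.map
    intro i j hij
    have h1 : (t : ℂ) * i = t * j := by linear_combination hij
    have h2 := mul_left_cancel₀ (by exact_mod_cast ht.ne') h1
    exact_mod_cast h2

theorem pt_near1 (J K : List ℕ) : Tendsto (fun t : ℝ => NUMv.pt (near1 J t ++ near1 K t)) (𝓝[>] 0)
    (𝓝 (NUMv.pt (List.replicate J.length 1 ++ List.replicate K.length 1))) := by
  have h0 : Tendsto (fun t : ℝ => NUMv.pt (near1 J t ++ near1 K t)) (𝓝 0)
    (𝓝 (NUMv.pt (near1 J ((0 : ℝ) : ℂ) ++ near1 K ((0 : ℝ) : ℂ)))) := by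
    have e : ∀ t : ℝ, near1 J t ++ near1 K t = near1 (J ++ K) t := by
      intro t
      unfold near1
      rw [List.map_append]
    simp only [e]
    generalize J ++ K = L
    induction L with
    | nil => exact tendsto_const_nhds
    | cons j L ih =>
      refine NUMv.tendsto_pt_cons ?_ ih
      have : Continuous fun t : ℝ => (1 : ℂ) + t * j := by fun_prop
      exact this.tendsto 0
  rw [Complex.ofReal_zero, near1_zero, near1_zero] at h0
  exact h0.mono_left nhdsWithin_le_nhds

/-- **The disc function is not zero at equal points.** -/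
theorem Wd_ne (m : ℕ) : (near_WW 0).Wd (List.replicate m 1) (List.replicate m 1) ≠ 0 := by
  intro h0
  -- the lines
  set L1 : List (St (2 * m) × St (2 * m)) := (seg 0 m (by omega)).map lk with hL1
  set L2 : List (St (2 * m) × St (2 * m)) := (seg m m (by omega)).map lk with hL2
  have l1 : L1.length = m := by rw [hL1, List.length_map, seg_length]
  have l2 : L2.length = m := by rw [hL2, List.length_map, seg_length]
  have hG : Gd (L1 ++ L2) := by
    rw [hL1, hL2, ← List.map_append]
    apply Gd_lk
    rw [List.nodup_append']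
    refine ⟨seg_nodup _, seg_nodup _, ?_⟩
    rw [List.disjoint_left]
    intro k h1 h2
    rw [mem_seg] at h1 h2
    omega
  have h1 : ∀ n' : ℂ, (near_WW n').Wd (List.replicate m 1) (List.replicate m 1) = 0 := by
    intro n'
    have h2 := ring_formula (L1 := L1) (L2 := L2) (s4 := fun k => Sum.inr k) n' hG
      (fun a b h => by injection h) (by
        intro k t ht
        rw [hL1, hL2, ← List.map_append, List.mem_map] at ht
        obtain ⟨i, -, rfl⟩ := ht
        exact ⟨by simp [lk], by simp [lk]⟩)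
    rw [l1, l2] at h2
    rw [h2, h0, zero_mul]
  obtain ⟨σ, hσ⟩ : ∃ σ : ℂ, σ ^ 2 = 2 - NUMv.eta + NUMv.eta ^ 3 :=
    IsAlgClosed.exists_pow_nat_eq _ (by norm_num)
  have hσ0 : σ ≠ 0 := by
    intro h
    rw [h, zero_pow two_ne_zero] at hσ
    have h2 := NUMv.rt_eta
    have h3 : (NUMv.rt : ℂ) = 2 := by rw [h2]; linear_combination hσ
    have h4 : Real.sqrt 2 = 2 := by
      unfold NUMv.rt at h3
      exact_mod_cast h3
    have h5 := Real.sq_sqrt (show (0 : ℝ) ≤ 2 by norm_num)
    rw [h4] at h5
    norm_num at h5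
  have hζ := Complex.isPrimitiveRoot_exp (2 * m + 1) (by omega)
  set ζ := Complex.exp (2 * Real.pi * Complex.I / ((2 * m + 1 : ℕ) : ℂ)) with hζd
  have hζ0 : ζ ≠ 0 := hζ.ne_zero (by omega)
  set J : List ℕ := List.range m with hJ
  have lJ : J.length = m := by rw [hJ, List.length_range]
  have t1 : ∀ om : ℂ, om ≠ 0 → Tendsto (fun t : ℝ => N NUMv.eta σ om (near1 J t) (near1 J t)) (𝓝[>] 0) (𝓝 0) := by
    intro om hom
    have h2 := (near_WW (om + om⁻¹)).Wd_tendsto (x := fun t : ℝ => near1 J t) (y := fun t : ℝ => near1 J t)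
      (x₀ := List.replicate J.length 1) (y₀ := List.replicate J.length 1) (l := 𝓝[>] 0)
      (fun t => by simp [near1]) (fun t => by simp [near1]) (pt_near1 J J)
    rw [lJ, h1] at h2
    refine h2.congr' ?_
    filter_upwards [self_mem_nhdsWithin] with t ht
    exact Wd_formula hσ hom (near1_gen List.nodup_range ht) (near1_gen List.nodup_range ht)
  have t2 : Tendsto (fun t : ℝ => ∑ j ∈ Finset.range (2 * m + 1), (ζ ^ j)⁻¹ ^ m *
      N NUMv.eta σ (ζ ^ j) (near1 J t) (near1 J t)) (𝓝[>] 0)
      (𝓝 (∑ j ∈ Finset.range (2 * m + 1), (ζ ^ j)⁻¹ ^ m * 0)) :=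
    tendsto_finsetSum _ fun j _ => (t1 (ζ ^ j) (pow_ne_zero _ hζ0)).const_mul _
  have t3 : Tendsto (fun t : ℝ => (2 * m + 1 : ℂ) * (own NUMv.eta σ (allp (near1 J t)) *
      own NUMv.eta σ (allp (near1 J t)) * crs NUMv.eta (allp (near1 J t)) (allp (near1 J t)))) (𝓝[>] 0)
      (𝓝 ((2 * m + 1 : ℂ) * (own NUMv.eta σ (allp (List.replicate m 1)) *
        own NUMv.eta σ (allp (List.replicate m 1)) * 1))) := by
    simp only [crs_allp]
    have h2 : Tendsto (fun t : ℝ => own NUMv.eta σ (allp (near1 J t))) (𝓝[>] 0)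
        (𝓝 (own NUMv.eta σ (allp (List.replicate m 1)))) := by
      have h3 := ((own_cont (η := NUMv.eta) (σ := σ) J).comp Complex.continuous_ofReal).tendsto 0
      simp only [Function.comp_apply] at h3
      rw [Complex.ofReal_zero, near1_zero, lJ] at h3
      exact h3.mono_left nhdsWithin_le_nhds
    exact ((h2.mul h2).mul_const 1).const_mul _
  have lX : ∀ t : ℝ, (near1 J t).length = m := fun t => by rw [near1, List.length_map, lJ]
  have t4 := t2.congr fun t => N_top (lX t) (lX t) hζ
  have h5 := tendsto_nhds_unique t4 t3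
  simp only [mul_zero, Finset.sum_const_zero, mul_one] at h5
  have h6 := own_ne NUMv.eta4 hσ0 m
  have h7 : ((2 * m + 1 : ℕ) : ℂ) ≠ 0 := Nat.cast_ne_zero.2 (by omega)
  push_cast at h7
  exact mul_ne_zero h7 (mul_ne_zero h6 h6) h5.symm

end Pool.Agent.NUF
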