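import Pool.Agent.NUF.UVec

/-!
# Renaming of the lines
-/

set_option autoImplicit false

namespace Pool.Agent.NUF

open _root_.Pool.Agent.EXL _root_.Pool.Agent.EXL.Pat _root_.Pool.Agent.EXL.HS

section pat

variable {α β : Type*} [DecidableEq α] [DecidableEq β] {e : β → α} (he : Function.Injective e)

/-- The embedding of the sites; the other sites are empty. -/
def eE (he : Function.Injective e) : Pat.Emb β α where
  φ := e
  inj := he
  p₀ := Pat.empty
  closed b := ⟨b, rfl⟩

/-- The state on the image of the sites. -/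
noncomputable abbrev rst (he : Function.Injective e) (q : Pat β) : Pat α := (eE he).st q

omit [DecidableEq α] [DecidableEq β] in
theorem rst_apply (q : Pat β) (b : β) : rst he q (e b) = e (q b) := (eE he).st_apply q b

omit [DecidableEq α] [DecidableEq β] in
theorem rst_out (q : Pat β) {x : α} (hx : x ∉ Set.range e) : rst he q x = x := by
  have h := (eE he).st_apply' q (x := x) (fun ⟨b, hb⟩ => hx ⟨b, hb⟩)
  rw [h]
  rfl

omit [DecidableEq α] [DecidableEq β] in
theorem rst_empty : rst he Pat.empty = Pat.empty := by
  ext x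
  show _ = x
  by_cases hx : x ∈ Set.range e
  · obtain ⟨b, rfl⟩ := hx
    rw [rst_apply]
    rfl
  · rw [rst_out he _ hx]

omit [DecidableEq α] [DecidableEq β] in
theorem rst_inj {q q' : Pat β} (h : rst he q = rst he q') : q = q' := st_inj _ h

variable {X : List β}

include he in
theorem idxOf_map (x : β) : (X.map e).idxOf (e x) = X.idxOf x := by
  induction X with
  | nil => rfl
  | cons y X ih =>
    by_cases h : x = y
    · subst h
      rw [List.map_cons, List.idxOf_cons_self, List.idxOf_cons_self]
    · rw [List.map_cons, List.idxOf_cons_ne _ (fun e' => h (he e').symm), List.idxOf_cons_ne _ (Ne.symm h), ih]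

/-- planar states. -/
theorem ax_rst {q : Pat β} : AX (X.map e) (rst he q) ↔ AX X q := by
  constructor
  · intro h
    refine ⟨fun x hx => ?_, fun a b hab hba => ?_⟩
    · have h1 := h.out (e x) (fun h' => hx (by
        obtain ⟨y, hy, hye⟩ := List.mem_map.1 h'
        exact he hye ▸ hy))
      rw [rst_apply] at h1
      exact he h1
    · have h1 := h.nc (e a) (e b) (by simpa only [idxOf_map he] using hab)
        (by rw [rst_apply]; simpa only [idxOf_map he] using hba)
      rw [rst_apply, rst_apply] at h1
      simpa only [idxOf_map he] using h1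
  · intro h
    refine ⟨fun x hx => ?_, fun a b hab hba => ?_⟩
    · by_cases hx' : x ∈ Set.range e
      · obtain ⟨y, rfl⟩ := hx'
        rw [rst_apply, h.out y (fun h' => hx (List.mem_map.2 ⟨y, h', rfl⟩))]
      · exact rst_out he _ hx'
    · by_cases ha : a ∈ Set.range e
      swap
      · rw [rst_out he _ ha] at hba
        omega
      by_cases hb : b ∈ Set.range e
      swap
      · rw [rst_out he _ hb]
        exact ⟨hab, hba⟩
      obtain ⟨a, rfl⟩ := ha
      obtain ⟨b, rfl⟩ := hb
      rw [rst_apply] at hba ⊢
      rw [rst_apply]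
      simp only [idxOf_map he] at hab hba ⊢
      exact h.nc a b hab hba

/-- every planar state on the image is an image. -/
theorem ax_exists_rst {p : Pat α} (h : AX (X.map e) p) : ∃ q, rst he q = p ∧ AX X q := by
  have hmem : ∀ x, x ∈ X.map e → p x ∈ X.map e := by
    intro x hx
    by_contra h'
    have h1 := ax_out h h'
    rw [p.inv] at h1
    exact h' (h1 ▸ hx)
  obtain ⟨q, hq⟩ := exists_st (eE he) p (by
    intro b
    by_cases hb : e b ∈ X.map e
    · obtain ⟨y, _, hy⟩ := List.mem_map.1 (hmem _ hb)
      exact ⟨y, hy.symm⟩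
    · exact ⟨b, ax_out h hb⟩) (by
    intro x hx
    apply ax_out h
    intro hx'
    obtain ⟨y, _, hy⟩ := List.mem_map.1 hx'
    exact hx ⟨y, hy⟩)
  refine ⟨q, hq, (ax_rst he).1 ?_⟩
  rw [show rst he q = p from hq]
  exact h

end pat

section vec

variable {α β : Type*} [DecidableEq α] [DecidableEq β] {e : β → α} (he : Function.Injective e)
  {X : List β} {z : β → ℂ} {z' : α → ℂ}

theorem M_rst {K : Type*} [CommRing K] {w : β → Wt K} {w' : α → Wt K} (h : ∀ j ∈ X, w' (e j) = w j) (c : β)
    (F : Pat α → K) (q : Pat β) :
    M w' (e c) (X.map e) F (rst he q) = M w c X (fun q => F (rst he q)) q := by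
  induction X generalizing q with
  | nil => rfl
  | cons j X ih =>
    rw [List.map_cons, M_cons, M_cons, h j (by simp)]
    have h1 := R_st (w j) (eE he) c j (M w' (e c) (X.map e) F) q
    refine h1.trans ?_
    congr 1
    funext q'
    exact ih (fun k hk => h k (by simp [hk])) q'

theorem colF_rst {K : Type*} [CommRing K] {w : β → Wt K} {w' : α → Wt K} (h : ∀ j ∈ X, w' (e j) = w j) (c : β)
    (F : Pat α → K) (q : Pat β) :
    colF w' (e c) (X.map e) F (rst he q) = colF w c X (fun q => F (rst he q)) q := by
  unfold colF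
  have h1 := emp_st (eE he) (M w' (e c) (X.map e) (emp (e c) F)) q c
  refine h1.trans ?_
  congr 1
  funext q'
  have h2 := M_rst he h c (emp (e c) F) q'
  refine h2.trans ?_
  congr 1
  funext q''
  exact emp_st (eE he) F q'' c

omit [DecidableEq α] [DecidableEq β] in
include he in
theorem notMem_map {c : β} (hc : c ∉ X) : e c ∉ X.map e := by
  intro h
  obtain ⟨y, hy, hye⟩ := List.mem_map.1 h
  exact hc (he hye ▸ hy)

theorem T0_rst (h : ∀ j ∈ X, z' (e j) = z j) {c : β} (hc : c ∉ X) (F : Pat α → ℂ) (q : Pat β) :
    T0 z' (e c) (X.map e) F (rst he q) = T0 z c X (fun q => F (rst he q)) q := by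
  have h1 := congrFun (congrFun (T0_fun z' (notMem_map he hc)) F) (rst he q)
  have h2 := congrFun (congrFun (T0_fun z hc) (fun q => F (rst he q))) q
  rw [h1, h2]
  exact colF_rst he (fun j hj => by rw [h j hj]) c F q

/-- The functional on the image of the sites. -/
noncomputable def push (he : Function.Injective e) (V : Fnl β) : Fnl α where
  toFun F := V (fun q => F (rst he q))
  map_add' F G := by
    rw [← map_add]
    rfl
  map_smul' a F := by
    rw [RingHom.id_apply, ← map_smul]
    rfl

omit [DecidableEq α] [DecidableEq β] in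
theorem push_apply (V : Fnl β) (F : Pat α → ℂ) : push he V F = V (fun q => F (rst he q)) := rfl

omit [DecidableEq α] [DecidableEq β] in
theorem ind_rst (q0 : Pat β) : (fun q => (HS.ind (rst he q0) : Pat α → ℂ) (rst he q)) = HS.ind q0 := by
  funext q
  by_cases h : q = q0
  · rw [h, ind_self, ind_self]
  · rw [ind_ne h, ind_ne fun h' => h (rst_inj he h')]

/-- **Renaming of the zero-leg functional.** -/
theorem IsV.push {V : Fnl β} (hn : X.Nodup) {c : β} (hc : c ∉ X) (h : ∀ j ∈ X, z' (e j) = z j)
    (hV : IsV z X V) : IsV z' (X.map e) (push he V) := by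
  have hs : Sup (X.map e) (NUF.push he V) := by
    intro F hF
    rw [push_apply]
    exact hV.sup _ fun q hq => hF _ ((ax_rst he).2 hq)
  refine ⟨hs, ?_, fun c' hc' => fix_indep hs (hn.map he) (notMem_map he hc) hc' ?_⟩
  · rw [push_apply, ← rst_empty he, ind_rst]
    exact hV.one
  · refine LinearMap.ext fun F => ?_
    rw [LinearMap.comp_apply, push_apply, push_apply]
    have h1 : (fun q => T0 z' (e c) (X.map e) F (rst he q)) = T0 z c X (fun q => F (rst he q)) := by
      funext q
      exact T0_rst he h hc F q
    rw [h1, ← LinearMap.comp_apply, hV.fix c hc]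

include he in
/-- **Renaming of the regularity.** -/
theorem reg_map_iff (hn : X.Nodup) {c : β} (hc : c ∉ X) (h : ∀ j ∈ X, z' (e j) = z j) :
    Reg z' (X.map e) ↔ Reg z X := by
  classical
  constructor
  · intro hR
    apply reg_of hn hc
    intro G h0 h1
    set G' : Pat α → ℂ := fun p => if h : ∃ q, rst he q = p then G h.choose else 0 with hG'
    have hG : ∀ q, G' (rst he q) = G q := by
      intro q
      have hex : ∃ q', rst he q' = rst he q := ⟨q, rfl⟩
      rw [hG']
      simp only
      rw [dif_pos hex]
      congr 1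
      exact rst_inj he hex.choose_spec
    have key := hR (e c) (notMem_map he hc) G' ?_ ?_
    · intro q
      rw [← hG q]
      exact key _
    · intro p hp
      by_cases hex : ∃ q, rst he q = p
      · obtain ⟨q, rfl⟩ := hex
        rw [hG]
        apply h0
        rintro ⟨h2, h3⟩
        exact hp ⟨fun h4 => h2 (rst_inj he (h4.trans (rst_empty he).symm)), (ax_rst he).2 h3⟩
      · rw [hG']
        simp only
        rw [dif_neg hex]
    · intro p hp hA
      obtain ⟨q, rfl, hq⟩ := ax_exists_rst he hA
      show T0 z' (e c) (X.map e) G' (rst he q) = G' (rst he q)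
      rw [T0_rst he h hc, hG]
      have h2 : (fun q => G' (rst he q)) = G := funext hG
      rw [h2]
      apply h1 q _ hq
      rintro rfl
      exact hp (rst_empty he)
  · intro hR
    apply reg_of (hn.map he) (notMem_map he hc)
    intro G h0 h1 p
    by_cases hp : p ≠ Pat.empty ∧ AX (X.map e) p
    swap
    · exact h0 p hp
    obtain ⟨q, rfl, hq⟩ := ax_exists_rst he hp.2
    refine hR c hc (fun q => G (rst he q)) (fun q' hq' => ?_) (fun q' hq' hA' => ?_) q
    · apply h0
      rintro ⟨h2, h3⟩
      refine hq' ⟨?_, (ax_rst he).1 h3⟩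
      rintro rfl
      exact h2 (rst_empty he)
    · show T0 z c X (fun q => G (rst he q)) q' = G (rst he q')
      rw [← T0_rst he h hc]
      exact h1 _ (fun h4 => hq' (rst_inj he (h4.trans (rst_empty he).symm))) ((ax_rst he).2 hA')

/-- **Renaming invariance of `VV`.** -/
theorem VV_map [Finite α] [Finite β] (hn : X.Nodup) {c : β} (hc : c ∉ X) (h : ∀ j ∈ X, z' (e j) = z j)
    (hR : Reg z X) (F : Pat α → ℂ) : VV z' (X.map e) F = VV z X (fun q => F (rst he q)) := by
  have h1 := ((isV_VV hn hc hR).push he hn hc h).eq_VV (hn.map he) (notMem_map he hc)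
    ((reg_map_iff he hn hc h).2 hR)
  rw [← h1, push_apply]

end vec

end Pool.Agent.NUF
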