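import Pool.Agent.NUF.PMid
import Pool.Agent.NUF.URen

/-!
# Renaming of the sites of the pairing
-/

set_option autoImplicit false

namespace Pool.Agent.NUF

open LPat

section rel

variable {Γ α β : Type*} [AddCommGroup Γ] [DecidableEq α] [DecidableEq β] {e : β → α}

/-- `Q` is `p` on the image of the sites, and empty elsewhere. -/
structure ResE (e : β → α) (Q : LPat Γ α) (p : LPat Γ β) : Prop where
  res : Res e Q p
  out : ∀ x, x ∉ Set.range e → Q x = x

/-- `G` is the function `H` of the restriction. -/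
def RelE (e : β → α) (G : LPat Γ α → ℂ) (H : LPat Γ β → ℂ) : Prop := ∀ Q p, ResE e Q p → G Q = H p

omit [DecidableEq α] [DecidableEq β] in
theorem relE_dl (he : Function.Injective e) : RelE e (dl Γ α) (dl Γ β) := by
  classical
  intro Q p h
  have key : Q = LPat.empty ↔ p = LPat.empty := by
    constructor
    · rintro rfl
      refine LPat.ext (funext fun x => ?_) (funext fun x => ?_)
      · exact he (h.res.1 x).symm
      · exact (h.res.2 x).symm
    · rintro rfl
      have h1 : ∀ x, Q x = x := by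
        intro x
        by_cases hx : x ∈ Set.range e
        · obtain ⟨y, rfl⟩ := hx
          exact h.res.1 y
        · exact h.out x hx
      exact LPat.ext (funext h1) (funext fun x => Q.fix x (h1 x))
  unfold dl
  by_cases hp : p = LPat.empty
  · rw [if_pos hp, if_pos (key.2 hp)]
  · rw [if_neg hp, if_neg (fun hh => hp (key.1 hh))]

theorem RelE.glue (he : Function.Injective e) {ν : Γ → ℂ} {a b : β} (hab : a ≠ b)
    {G : LPat Γ α → ℂ} {H : LPat Γ β → ℂ} (h : RelE e G H) :
    RelE e ((cops ν).glue (e a) (e b) G) ((cops ν).glue a b H) := by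
  intro Q p hQ
  have hab' : e a ≠ e b := fun hh => hab (he hh)
  have h1 : ∀ x, Q (e x) = e x ↔ p x = x := fun x => by rw [hQ.res.1, he.eq_iff]
  by_cases ha : p a = a
  · by_cases hb : p b = b
    · rw [glue_emp hab ha hb, glue_emp hab' ((h1 a).2 ha) ((h1 b).2 hb), h Q p hQ]
    · rw [glue_r hab ha hb, glue_r hab' ((h1 a).2 ha) (fun hh => hb ((h1 b).1 hh))]
  · have ha' : Q (e a) ≠ e a := fun hh => ha ((h1 a).1 hh)
    by_cases hb : p b = b
    · rw [glue_l hab ha hb, glue_l hab' ha' ((h1 b).2 hb)]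
    · have hb' : Q (e b) ≠ e b := fun hh => hb ((h1 b).1 hh)
      rw [glue_occ hab ha hb, glue_occ hab' ha' hb', hQ.res.lw he ν a b]
      congr 1
      refine h _ _ ⟨hQ.res.jo he a b ⟨hab, ha, hb⟩, fun x hx => ?_⟩
      exact (jo_fix_out Q (fun hh => hx ⟨a, hh.symm⟩) (fun hh => hx ⟨b, hh.symm⟩)).2 (hQ.out x hx)

omit [DecidableEq α] [DecidableEq β] in
theorem RelE.tw {χ : β → Γ} {χ' : α → Γ} (hχ : ∀ x, χ' (e x) = χ x) {G : LPat Γ α → ℂ}
    {H : LPat Γ β → ℂ} (h : RelE e G H) : RelE e (Tw χ' G) (Tw χ H) := by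
  intro Q p hQ
  refine h _ _ ⟨⟨fun x => ?_, fun x => ?_⟩, fun x hx => ?_⟩
  · exact hQ.res.1 x
  · rw [gau_s, gau_s, hQ.res.2, hχ]
    have e1 : Q (e x) = e (p x) := hQ.res.1 x
    rw [e1, hχ]
  · exact hQ.out x hx

theorem relE_gm (he : Function.Injective e) {ν : Γ → ℂ} {L : List (β × β)} (hL : Gd L) :
    RelE e (gm ν (L.map (Prod.map e e))) (gm ν L) := by
  induction L with
  | nil => exact relE_dl he
  | cons t L ih =>
    rw [List.map_cons, gm_cons, gm_cons]
    exact (ih (Gd_cons.1 hL).2.2).glue he (Gd_cons.1 hL).1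

theorem resE_ofP (he : Function.Injective e) {p q : EXL.Pat β} (hd : Dj p q) :
    ResE e (ofP Γ (un (rst he p) (rst he q))) (ofP Γ (un p q)) := by
  have hd' : Dj (rst he p) (rst he q) := by
    intro x
    by_cases hx : x ∈ Set.range e
    · obtain ⟨y, rfl⟩ := hx
      rcases hd y with h | h
      · left
        rw [rst_apply, h]
      · right
        rw [rst_apply, h]
    · exact Or.inl (rst_out he p hx)
  refine ⟨⟨fun x => ?_, fun x => rfl⟩, fun x hx => ?_⟩
  · rw [ofP_f, ofP_f, un_apply hd', un_apply hd, rst_apply, rst_apply]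
    by_cases h : p x = x
    · rw [if_pos (by rw [h]), if_pos h]
    · rw [if_neg (fun hh => h (he hh)), if_neg h]
  · rw [ofP_f, un_apply hd', rst_out he p hx, if_pos rfl, rst_out he q hx]

end rel

section Zp

variable {α β : Type*} [DecidableEq α] [DecidableEq β] {e : β → α} {n' : ℂ} {V V' : Fnl β}
  {L1 L2 : List (β × β)}

theorem chi_map (he : Function.Injective e) (L : List (β × β)) (x : β) :
    chi (L.map (Prod.map e e)) (e x) = chi L x := by
  have key : e x ∈ (L.map (Prod.map e e)).map Prod.snd ↔ x ∈ L.map Prod.snd := by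
    simp only [List.mem_map]
    constructor
    · rintro ⟨t, ⟨s, hs, rfl⟩, ht⟩
      exact ⟨s, hs, he ht⟩
    · rintro ⟨s, hs, rfl⟩
      exact ⟨Prod.map e e s, ⟨s, hs, rfl⟩, rfl⟩
  by_cases h : x ∈ L.map Prod.snd
  · rw [chi_mem h, chi_mem (key.2 h)]
  · rw [chi_notMem h, chi_notMem fun hh => h (key.1 hh)]

/-- **Renaming of the sites of the pairing.** -/
theorem Zp_map (he : Function.Injective e) (hG : Gd (L1 ++ L2)) (hV : SupS (Sr (L1 ++ L2)) V)
    (hV' : SupS (Sl (L1 ++ L2)) V') :
    Zp n' (push he V) (push he V') (L1.map (Prod.map e e)) (L2.map (Prod.map e e)) =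
      Zp n' V V' L1 L2 := by
  have key : RelE e (Tw (chi (L1.map (Prod.map e e))) (gm (nu2 n')
      (L1.map (Prod.map e e) ++ L2.map (Prod.map e e)))) (Tw (chi L1) (gm (nu2 n') (L1 ++ L2))) := by
    rw [← List.map_append]
    exact (relE_gm he hG).tw (chi_map he L1)
  unfold Zp
  rw [pr_apply, pr_apply, push_apply]
  refine hV.congr fun p hp => ?_
  rw [push_apply]
  refine hV'.congr fun q hq => ?_
  exact key _ _ (resE_ofP he (dj_of_sup hG.disj hp hq))

end Zp

end Pool.Agent.NUF
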