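import Pool.Agent.NUF.PDef
import Pool.Agent.NUF.PRen

/-!
# The partition function depends on the rapidities only

`ZV_map`: renaming of the sites.  `ZV_eq_Zc`: the partition function of a strip on any set of sites (with four
spare sites) is the partition function `Zc` of the lists of rapidities.
-/

set_option autoImplicit false

namespace Pool.Agent.NUF

section ren

variable {α β : Type*} [DecidableEq α] [DecidableEq β] {e : β → α} {z : β → ℂ} {z' : α → ℂ}
  {n' : ℂ} {K1 K2 K : List (β × β)}

omit [DecidableEq α] [DecidableEq β] in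
theorem map_pm_fst (K : List (β × β)) :
    (K.map (Prod.map e e)).map Prod.fst = (K.map Prod.fst).map e := by
  rw [List.map_map, List.map_map]
  rfl

omit [DecidableEq α] [DecidableEq β] in
theorem map_pm_snd (K : List (β × β)) :
    (K.map (Prod.map e e)).map Prod.snd = (K.map Prod.snd).map e := by
  rw [List.map_map, List.map_map]
  rfl

omit [DecidableEq α] [DecidableEq β] in
theorem Gd_map (h : Gd (K.map (Prod.map e e))) : Gd K := by
  unfold Gd at *
  rw [map_pm_fst, map_pm_snd, ← List.map_append] at h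
  exact List.Nodup.of_map e h

/-- **Renaming of the sites of the partition function.** -/
theorem ZV_map [Finite α] [Finite β] (he : Function.Injective e) (hG : Gd (K1 ++ K2)) {c : β}
    (hc : c ∉ (K1 ++ K2).map Prod.fst) (hc' : c ∉ (K1 ++ K2).map Prod.snd)
    (h1 : ∀ t ∈ K1 ++ K2, z' (e t.1) = z t.1) (h2 : ∀ t ∈ K1 ++ K2, z' (e t.2) = z t.2)
    (hR : Reg z ((K1 ++ K2).map Prod.fst)) (hR' : Reg (fun j => -z j) ((K1 ++ K2).map Prod.snd)) :
    ZV n' z' (K1.map (Prod.map e e)) (K2.map (Prod.map e e)) = ZV n' z K1 K2 := by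
  have a1 : ∀ j ∈ (K1 ++ K2).map Prod.fst, z' (e j) = z j := by
    intro j hj
    obtain ⟨t, ht, rfl⟩ := List.mem_map.1 hj
    exact h1 t ht
  have a2 : ∀ j ∈ (K1 ++ K2).map Prod.snd, (fun j => -z' j) (e j) = (fun j => -z j) j := by
    intro j hj
    obtain ⟨t, ht, rfl⟩ := List.mem_map.1 hj
    show -z' (e t.2) = -z t.2
    rw [h2 t ht]
  have v1 : VV z' (((K1 ++ K2).map Prod.fst).map e) = push he (VV z ((K1 ++ K2).map Prod.fst)) :=
    LinearMap.ext fun F => VV_map he hG.fst hc a1 hR F
  have v2 : VV (fun j => -z' j) (((K1 ++ K2).map Prod.snd).map e) =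
      push he (VV (fun j => -z j) ((K1 ++ K2).map Prod.snd)) :=
    LinearMap.ext fun F => VV_map he hG.snd hc' a2 hR' F
  unfold ZV
  rw [← List.map_append, map_pm_fst, map_pm_snd, v1, v2]
  exact Zp_map he hG (isV_VV hG.fst hc hR).sup.supS (isV_VV hG.snd hc' hR').sup.supS

end ren

section can

variable {ι : Type*} [DecidableEq ι] {z : ι → ℂ} {n' : ℂ} {L L1 L2 : List (ι × ι)} {s : Fin 4 → ι}

/-- The sites of the lines `L` and the four spare sites. -/
def em (L : List (ι × ι)) (s : Fin 4 → ι) : St L.length → ι :=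
  Sum.elim (fun x => cond x.2 (L.get x.1).2 (L.get x.1).1) s

omit [DecidableEq ι] in
theorem em_inj (hG : Gd L) (hs : Function.Injective s)
    (h : ∀ k, ∀ t ∈ L, s k ≠ t.1 ∧ s k ≠ t.2) : Function.Injective (em L s) := by
  have f1 : ∀ k k' : Fin L.length, (L.get k).1 = (L.get k').1 → k = k' := by
    intro k k' e
    have h1 := (List.nodup_iff_injective_get.1 hG.fst)
    have h2 : ∀ k : Fin L.length, (L.map Prod.fst).get (Fin.cast (List.length_map Prod.fst).symm k) =
        (L.get k).1 := by
      intro k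
      simp
    have h3 := h1 ((h2 k).trans (e.trans (h2 k').symm))
    exact Fin.cast_injective _ h3
  have f2 : ∀ k k' : Fin L.length, (L.get k).2 = (L.get k').2 → k = k' := by
    intro k k' e
    have h1 := (List.nodup_iff_injective_get.1 hG.snd)
    have h2 : ∀ k : Fin L.length, (L.map Prod.snd).get (Fin.cast (List.length_map Prod.snd).symm k) =
        (L.get k).2 := by
      intro k
      simp
    have h3 := h1 ((h2 k).trans (e.trans (h2 k').symm))
    exact Fin.cast_injective _ h3
  have f3 : ∀ k k' : Fin L.length, (L.get k).1 ≠ (L.get k').2 := by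
    intro k k' e
    have a1 : (L.get k).1 ∈ Sr L := List.mem_map_of_mem (L.get_mem k)
    have a2 : (L.get k).1 ∈ Sl L := by
      rw [e]
      exact List.mem_map_of_mem (L.get_mem k')
    exact Set.disjoint_left.1 hG.disj a1 a2
  have g : ∀ k, L.get k ∈ L := fun k => L.get_mem k
  rintro (⟨k, b⟩ | k) (⟨k', b'⟩ | k') e
  · cases b <;> cases b'
    · rw [f1 k k' e]
    · exact absurd e (f3 k k')
    · exact absurd e.symm (f3 k' k)
    · rw [f2 k k' e]
  · cases b
    · exact absurd e.symm (h k' _ (g k)).1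
    · exact absurd e.symm (h k' _ (g k)).2
  · cases b'
    · exact absurd e (h k _ (g k')).1
    · exact absurd e (h k _ (g k')).2
  · rw [hs e]

omit [DecidableEq ι] in
theorem em_lk : (List.finRange L.length).map (fun k => Prod.map (em L s) (em L s) (lk k)) = L := by
  have e : (fun k => Prod.map (em L s) (em L s) (lk k)) = L.get := by
    funext k
    rfl
  rw [e, ← List.ofFn_eq_map]
  exact List.ofFn_get L

theorem Zc_cast {A B : List ℂ} {n : ℕ} (h : (A ++ B).length = n) : Zc n' A B =
    ZV n' (Sum.elim (fun x : Fin n × Bool => (A ++ B).get (Fin.cast h.symm x.1))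
      (fun _ => Real.pi / 16)) (((List.finRange n).take A.length).map lk)
      (((List.finRange n).drop A.length).map lk) := by
  subst h
  rfl

/-- **The partition function depends on the rapidities only.** -/
theorem ZV_eq_Zc [Finite ι] (hG : Gd (L1 ++ L2)) (hs : Same z (L1 ++ L2))
    (hi : Function.Injective s) (h : ∀ k, ∀ t ∈ L1 ++ L2, s k ≠ t.1 ∧ s k ≠ t.2)
    (hR : Reg z ((L1 ++ L2).map Prod.fst)) (hR' : Reg (fun j => -z j) ((L1 ++ L2).map Prod.snd)) :
    ZV n' z L1 L2 = Zc n' (L1.map fun t => z t.1) (L2.map fun t => z t.1) := by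
  have he := em_inj hG hi h
  set e := em (L1 ++ L2) s with hedef
  have hlen : ((L1.map fun t => z t.1) ++ (L2.map fun t => z t.1)).length = (L1 ++ L2).length := by
    simp
  have hAB : (L1.map fun t => z t.1) ++ (L2.map fun t => z t.1) = (L1 ++ L2).map fun t => z t.1 :=
    List.map_append.symm
  rw [Zc_cast hlen, List.length_map]
  set zz : St (L1 ++ L2).length → ℂ :=
    Sum.elim (fun x : Fin (L1 ++ L2).length × Bool =>
      ((L1.map fun t => z t.1) ++ (L2.map fun t => z t.1)).get (Fin.cast hlen.symm x.1))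
      (fun _ => Real.pi / 16) with hzz
  set K1 : List (St (L1 ++ L2).length × St (L1 ++ L2).length) :=
    ((List.finRange (L1 ++ L2).length).take L1.length).map lk with hK1
  set K2 : List (St (L1 ++ L2).length × St (L1 ++ L2).length) :=
    ((List.finRange (L1 ++ L2).length).drop L1.length).map lk with hK2
  have k1 : K1.map (Prod.map e e) = L1 := by
    have e1 : K1.map (Prod.map e e) = ((List.finRange (L1 ++ L2).length).map
        (fun k => Prod.map e e (lk k))).take L1.length := by
      rw [hK1, List.map_map, List.map_take]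
      rfl
    rw [e1, em_lk]
    exact List.take_left
  have k2 : K2.map (Prod.map e e) = L2 := by
    have e1 : K2.map (Prod.map e e) = ((List.finRange (L1 ++ L2).length).map
        (fun k => Prod.map e e (lk k))).drop L1.length := by
      rw [hK2, List.map_map, List.map_drop]
      rfl
    rw [e1, em_lk]
    exact List.drop_left
  have k12 : K1 ++ K2 = (List.finRange (L1 ++ L2).length).map lk := by
    rw [hK1, hK2, ← List.map_append, List.take_append_drop]
  have hGK : Gd (K1 ++ K2) := by
    apply Gd_map (e := e)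
    rw [List.map_append, k1, k2]
    exact hG
  have hval : ∀ k : Fin (L1 ++ L2).length, ∀ b, zz (Sum.inl (k, b)) = z ((L1 ++ L2).get k).1 := by
    intro k b
    show ((L1.map fun t => z t.1) ++ (L2.map fun t => z t.1)).get (Fin.cast hlen.symm k) = _
    rw [List.get_eq_getElem, List.getElem_of_eq hAB, List.getElem_map]
    rfl
  have hm : ∀ t ∈ K1 ++ K2, ∃ k, t = lk k := by
    intro t ht
    rw [k12] at ht
    obtain ⟨k, _, rfl⟩ := List.mem_map.1 ht
    exact ⟨k, rfl⟩
  have h1 : ∀ t ∈ K1 ++ K2, z (e t.1) = zz t.1 := by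
    intro t ht
    obtain ⟨k, rfl⟩ := hm t ht
    exact (hval k false).symm
  have h2 : ∀ t ∈ K1 ++ K2, z (e t.2) = zz t.2 := by
    intro t ht
    obtain ⟨k, rfl⟩ := hm t ht
    exact (hs _ ((L1 ++ L2).get_mem k)).trans (hval k true).symm
  have hc : (Sum.inr 0 : St (L1 ++ L2).length) ∉ (K1 ++ K2).map Prod.fst := by
    intro hh
    obtain ⟨t, ht, e1⟩ := List.mem_map.1 hh
    obtain ⟨k, rfl⟩ := hm t ht
    exact absurd e1 (by simp [lk])
  have hc' : (Sum.inr 0 : St (L1 ++ L2).length) ∉ (K1 ++ K2).map Prod.snd := by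
    intro hh
    obtain ⟨t, ht, e1⟩ := List.mem_map.1 hh
    obtain ⟨k, rfl⟩ := hm t ht
    exact absurd e1 (by simp [lk])
  have m1 : (L1 ++ L2).map Prod.fst = ((K1 ++ K2).map Prod.fst).map e := by
    rw [← map_pm_fst, List.map_append (l₁ := K1), k1, k2]
  have m2 : (L1 ++ L2).map Prod.snd = ((K1 ++ K2).map Prod.snd).map e := by
    rw [← map_pm_snd, List.map_append (l₁ := K1), k1, k2]
  have r1 : Reg zz ((K1 ++ K2).map Prod.fst) := by
    rw [m1] at hR
    refine (reg_map_iff he hGK.fst hc ?_).1 hR
    intro j hj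
    obtain ⟨t, ht, rfl⟩ := List.mem_map.1 hj
    exact h1 t ht
  have r2 : Reg (fun j => -zz j) ((K1 ++ K2).map Prod.snd) := by
    rw [m2] at hR'
    refine (reg_map_iff he hGK.snd hc' ?_).1 hR'
    intro j hj
    obtain ⟨t, ht, rfl⟩ := List.mem_map.1 hj
    show -z (e t.2) = -zz t.2
    rw [h2 t ht]
  have key := ZV_map (n' := n') he hGK hc hc' h1 h2 r1 r2
  rw [k1, k2] at key
  exact key

end can

end Pool.Agent.NUF
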