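import Pool.Agent.NUF.PRel

/-!
# The partition function of the strip with a face, as a function of the rapidities

`ZV n' z L1 L2` = the pairing of the zero-leg functionals of the right and of the left half strip.
`Zc n' A B` = its value for the lists of rapidities `A` (lines below the face) and `B` (above the face), on a
fixed set of sites.
-/

set_option autoImplicit false

namespace Pool.Agent.NUF

section

variable {ι : Type*} [DecidableEq ι]

/-- **The partition function** (no closed loops except the ones round the face, which have weight `n'`). -/
noncomputable def ZV (n' : ℂ) (z : ι → ℂ) (L1 L2 : List (ι × ι)) : ℂ :=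
  Zp n' (VV z ((L1 ++ L2).map Prod.fst)) (VV (fun j => -z j) ((L1 ++ L2).map Prod.snd)) L1 L2

/-- The lines have the same rapidity on both sides. -/
def Same (z : ι → ℂ) (L : List (ι × ι)) : Prop := ∀ t ∈ L, z t.2 = z t.1

end

/-- The fixed set of sites for `n` lines. -/
abbrev St (n : ℕ) : Type := (Fin n × Bool) ⊕ Fin 4

/-- The line number `k`. -/
def lk {n : ℕ} (k : Fin n) : St n × St n := (Sum.inl (k, false), Sum.inl (k, true))

/-- The rapidities on the fixed set of sites. -/
noncomputable def cz (L : List ℂ) : St L.length → ℂ :=
  Sum.elim (fun x => L.get x.1) (fun _ => Real.pi / 16)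

/-- **The partition function of lists of rapidities.** -/
noncomputable def Zc (n' : ℂ) (A B : List ℂ) : ℂ :=
  ZV n' (cz (A ++ B)) (((List.finRange (A ++ B).length).take A.length).map lk)
    (((List.finRange (A ++ B).length).drop A.length).map lk)

end Pool.Agent.NUF
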