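import Pool.Agent.EXL.H1b

/-!
# The fixed functional of a column: existence, uniqueness, continuity

`A` = the admissible states, `T` = an operator with `T (ind empty) = ind empty` on the admissible states, such
that `1 - T` is injective on the functions supported on the non-empty admissible states.  Then there is exactly
one functional `V` supported on `A` with `V (ind empty) = 1` and `V ∘ T = V`.
-/

set_option autoImplicit false

namespace Pool.Agent.NUF

open EXL EXL.Pat EXL.HS Filter Topology

variable {α : Type*}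

section sup

variable {K : Type*} [CommRing K]

/-- The functional vanishes on the functions that vanish on the admissible states. -/
def SupF (A : Pat α → Prop) (V : (Pat α → K) →ₗ[K] K) : Prop := ∀ F, (∀ p, A p → F p = 0) → V F = 0

variable {A B : Pat α → Prop} {V W : (Pat α → K) →ₗ[K] K}

theorem SupF.congr (h : SupF A V) {F G : Pat α → K} (hFG : ∀ p, A p → F p = G p) : V F = V G := by
  rw [← sub_eq_zero, ← map_sub]
  exact h _ fun p hp => by rw [Pi.sub_apply, hFG p hp, sub_self]

theorem SupF.comp (h : SupF A V) {x : Module.End K (Pat α → K)} (hx : Pres A B (fun F => x F)) :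
    SupF B (V ∘ₗ x) := by
  intro F hF
  rw [LinearMap.comp_apply]
  apply h
  intro p hp
  have h1 := hx F 0 (fun q hq => hF q hq) p hp
  simp only [map_zero, Pi.zero_apply] at h1
  exact h1

theorem SupF.mono (h : SupF A V) (hAB : ∀ p, A p → B p) : SupF B V :=
  fun F hF => h F fun p hp => hF p (hAB p hp)

theorem SupF.add (h : SupF A V) (h' : SupF A W) : SupF A (V + W) :=
  fun F hF => by rw [LinearMap.add_apply, h F hF, h' F hF, add_zero]

theorem SupF.smul (h : SupF A V) (c : K) : SupF A (c • V) :=
  fun F hF => by rw [LinearMap.smul_apply, h F hF, smul_zero]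

theorem SupF.zero : SupF A (0 : (Pat α → K) →ₗ[K] K) := fun _ _ => rfl

theorem SupF.sub (h : SupF A V) (h' : SupF A W) : SupF A (V - W) :=
  fun F hF => by rw [LinearMap.sub_apply, h F hF, h' F hF, sub_zero]

theorem SupF.sum {ι : Type*} (s : Finset ι) {V : ι → (Pat α → K) →ₗ[K] K} (h : ∀ i ∈ s, SupF A (V i)) :
    SupF A (∑ i ∈ s, V i) := by
  intro F hF
  rw [LinearMap.sum_apply]
  exact Finset.sum_eq_zero fun i hi => h i hi F hF

end sup

/-- `1 - T` is injective on the functions supported on the non-empty admissible states. -/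
def InjN {K : Type*} [CommRing K] (A : Pat α → Prop) (T : (Pat α → K) → (Pat α → K)) : Prop :=
  ∀ G : Pat α → K, (∀ p, ¬ (p ≠ Pat.empty ∧ A p) → G p = 0) →
    (∀ p, p ≠ Pat.empty → A p → T G p = G p) → ∀ p, G p = 0

section field

variable {K : Type*} [Field K] {A : Pat α → Prop}

/-- the non-empty admissible states. -/
abbrev NE (A : Pat α → Prop) := {p : Pat α // p ≠ Pat.empty ∧ A p}

/-- the matrix `1 - T` on the non-empty admissible states. -/
noncomputable def nmat (A : Pat α → Prop) (T : (Pat α → K) → (Pat α → K)) : Matrix (NE A) (NE A) K :=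
  open scoped Classical in fun p q => (if p = q then 1 else 0) - T (ind q.1) p.1

/-- extension of a vector by zero. -/
noncomputable def extN (v : NE A → K) : Pat α → K :=
  open scoped Classical in fun p => if h : p ≠ Pat.empty ∧ A p then v ⟨p, h⟩ else 0

theorem extN_val (v : NE A → K) (p : NE A) : extN v p.1 = v p := by
  classical
  unfold extN
  rw [dif_pos p.2]

theorem extN_neg (v : NE A → K) {p : Pat α} (h : ¬ (p ≠ Pat.empty ∧ A p)) : extN v p = 0 := by
  classical
  unfold extN
  rw [dif_neg h]

theorem extN_eq_sum [Fintype (NE A)] (v : NE A → K) : extN v = fun p => ∑ q : NE A, v q * ind q.1 p := by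
  classical
  funext p
  by_cases h : p ≠ Pat.empty ∧ A p
  · rw [Finset.sum_eq_single ⟨p, h⟩]
    · rw [ind_self, mul_one]
      exact extN_val v ⟨p, h⟩
    · intro q _ hq
      rw [ind_ne, mul_zero]
      intro h1
      exact hq (Subtype.ext h1.symm)
    · intro h1
      exact absurd (Finset.mem_univ _) h1
  · rw [extN_neg v h, Finset.sum_eq_zero]
    intro q _
    rw [ind_ne, mul_zero]
    intro h1
    exact h (h1 ▸ q.2)

theorem nmat_mulVec [Fintype (NE A)] {T : (Pat α → K) → (Pat α → K)} (hT : Lin T) (v : NE A → K)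
    (p : NE A) : (nmat A T).mulVec v p = v p - T (extN v) p.1 := by
  classical
  rw [extN_eq_sum, hT.sum]
  unfold Matrix.mulVec dotProduct nmat
  simp only [sub_mul, Finset.sum_sub_distrib]
  congr 1
  · rw [Finset.sum_eq_single p]
    · rw [if_pos rfl, one_mul]
    · intro q _ hq
      rw [if_neg hq.symm, zero_mul]
    · intro h
      exact absurd (Finset.mem_univ p) h
  · apply Finset.sum_congr rfl
    intro q _
    ring

theorem nmat_det [Fintype (NE A)] [DecidableEq (NE A)] {T : (Pat α → K) → (Pat α → K)} (hT : Lin T) :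
    (nmat A T).det ≠ 0 ↔ InjN A T := by
  classical
  constructor
  · intro h G h0 h1 p
    by_contra hp
    apply h
    rw [← Matrix.exists_mulVec_eq_zero_iff]
    refine ⟨fun q => G q.1, ?_, ?_⟩
    · intro h2
      by_cases hpA : p ≠ Pat.empty ∧ A p
      · exact hp (congrFun h2 ⟨p, hpA⟩)
      · exact hp (h0 p hpA)
    · funext q
      have e : extN (fun q : NE A => G q.1) = G := by
        funext r
        by_cases hr : r ≠ Pat.empty ∧ A r
        · exact extN_val (fun q : NE A => G q.1) ⟨r, hr⟩
        · rw [extN_neg _ hr, h0 r hr]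
      rw [nmat_mulVec hT, e, h1 q.1 q.2.1 q.2.2, sub_self]
      rfl
  · intro inj hdet
    rw [← Matrix.exists_mulVec_eq_zero_iff] at hdet
    obtain ⟨v, hv, h0⟩ := hdet
    apply hv
    funext q
    have key := inj (extN v) (fun p hp => extN_neg v hp) ?_ q.1
    · rw [extN_val] at key
      exact key
    · intro p h1 h2
      have := congrFun h0 ⟨p, h1, h2⟩
      rw [nmat_mulVec hT] at this
      rw [show extN v p = v ⟨p, h1, h2⟩ from extN_val v ⟨p, h1, h2⟩]
      exact (sub_eq_zero.1 this).symm

/-- The functional with the given values on the non-empty admissible states and the value 1 on the empty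
state. -/
noncomputable def vfun [Fintype (NE A)] (v : NE A → K) : (Pat α → K) →ₗ[K] K where
  toFun F := F Pat.empty + ∑ p : NE A, v p * F p.1
  map_add' F G := by
    simp only [Pi.add_apply, mul_add, Finset.sum_add_distrib]
    ring
  map_smul' a F := by
    simp only [Pi.smul_apply, smul_eq_mul, RingHom.id_apply, mul_add, Finset.mul_sum]
    congr 1
    exact Finset.sum_congr rfl fun _ _ => by ring

theorem vfun_apply [Fintype (NE A)] (v : NE A → K) (F : Pat α → K) :
    vfun v F = F Pat.empty + ∑ p : NE A, v p * F p.1 := rfl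

theorem vfun_sup [Fintype (NE A)] (he : A Pat.empty) (v : NE A → K) : SupF A (vfun v) := by
  intro F hF
  rw [vfun_apply, hF _ he, zero_add]
  exact Finset.sum_eq_zero fun p _ => by rw [hF _ p.2.2, mul_zero]

theorem vfun_ind [Fintype (NE A)] (v : NE A → K) (q : NE A) : vfun v (ind q.1) = v q := by
  classical
  rw [vfun_apply, ind_ne q.2.1.symm, zero_add, Finset.sum_eq_single q]
  · rw [ind_self, mul_one]
  · intro p _ hp
    rw [ind_ne (fun h => hp (Subtype.ext h)), mul_zero]
  · intro h
    exact absurd (Finset.mem_univ _) h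

theorem vfun_empty [Fintype (NE A)] (v : NE A → K) : vfun v (ind Pat.empty) = 1 := by
  rw [vfun_apply, ind_self, Finset.sum_eq_zero, add_zero]
  intro p _
  rw [ind_ne p.2.1, mul_zero]

/-- Two functionals that agree on the admissible states. -/
theorem sup_ext [Finite α] {V W : (Pat α → K) →ₗ[K] K} (hV : SupF A V) (hW : SupF A W)
    (h : ∀ q, A q → V (ind q) = W (ind q)) : V = W := by
  classical
  have : Fintype (Pat α) := Fintype.ofFinite _
  refine LinearMap.ext fun F => ?_
  have hF : F = ∑ q, F q • (ind q : Pat α → K) := by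
    conv_lhs => rw [eq_sum_ind F]
    funext p
    rw [Finset.sum_apply]
    rfl
  rw [hF, map_sum, map_sum]
  refine Finset.sum_congr rfl fun q _ => ?_
  rw [map_smul, map_smul]
  by_cases hq : A q
  · rw [h q hq]
  · have hi : ∀ p, A p → (ind q : Pat α → K) p = 0 := by
      intro p hp
      apply ind_ne
      rintro rfl
      exact hq hp
    rw [hV _ hi, hW _ hi]

/-- the value of a functional on the image of an indicator. -/
theorem sup_sum [Finite α] [Fintype (NE A)] {V : (Pat α → K) →ₗ[K] K} (hV : SupF A V)
    (F : Pat α → K) : V F = F Pat.empty * V (ind Pat.empty) + ∑ p : NE A, F p.1 * V (ind p.1) := by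
  classical
  set G : Pat α → K := fun p => F Pat.empty * ind Pat.empty p + ∑ q : NE A, F q.1 * ind q.1 p with hG
  have h1 : V F = V G := by
    apply hV.congr
    intro p hp
    rw [hG]
    by_cases h : p = Pat.empty
    · subst h
      simp only
      rw [ind_self, mul_one, Finset.sum_eq_zero, add_zero]
      intro q _
      rw [ind_ne q.2.1.symm, mul_zero]
    · simp only
      rw [ind_ne h, mul_zero, zero_add, Finset.sum_eq_single ⟨p, h, hp⟩]
      · rw [ind_self, mul_one]
      · intro q _ hq
        rw [ind_ne (fun e => hq (Subtype.ext e.symm)), mul_zero]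
      · intro h'
        exact absurd (Finset.mem_univ _) h'
  have h2 : G = F Pat.empty • (ind Pat.empty : Pat α → K) + ∑ q : NE A, F q.1 • (ind q.1 : Pat α → K) := by
    funext p
    rw [Pi.add_apply, Finset.sum_apply]
    rfl
  rw [h1, h2, map_add, map_smul, map_sum]
  simp only [map_smul, smul_eq_mul]

variable {T : Module.End K (Pat α → K)}

theorem lin_end (T : Module.End K (Pat α → K)) : Lin (fun F => T F) := by
  intro a b F G
  have e : (fun p => a * F p + b * G p) = a • F + b • G := rfl
  rw [e]
  simp only [map_add, map_smul]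
  rfl

/-- **Uniqueness.** -/
theorem fix_unique [Finite α] (inj : InjN A (fun F => T F)) {W : (Pat α → K) →ₗ[K] K} (hW : SupF A W) (hTW : W ∘ₗ T = W)
    (h0 : W (ind Pat.empty) = 0) : W = 0 := by
  classical
  have : Fintype (NE A) := Fintype.ofFinite _
  have hdet := (nmat_det (A := A) (lin_end T)).2 inj
  set w : NE A → K := fun q => W (ind q.1) with hw
  have h1 : Matrix.vecMul w (nmat A (fun F => T F)) = 0 := by
    funext q
    unfold Matrix.vecMul dotProduct nmat
    simp only [mul_sub, Finset.sum_sub_distrib, mul_ite, mul_one, mul_zero, Finset.sum_ite_eq',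
      Finset.mem_univ, if_true, Pi.zero_apply]
    have h2 : W (T (ind q.1)) = w q := by
      rw [← LinearMap.comp_apply, hTW]
    rw [sup_sum hW, h0, mul_zero, zero_add] at h2
    rw [← h2, sub_eq_zero]
    exact Finset.sum_congr rfl fun p _ => by rw [mul_comm]
  have h2 : w = 0 := by
    have h3 := congrArg (fun u => Matrix.vecMul u (nmat A (fun F => T F))⁻¹) h1
    simp only [Matrix.vecMul_vecMul, Matrix.zero_vecMul] at h3
    rwa [Matrix.mul_nonsing_inv _ (Ne.isUnit hdet), Matrix.vecMul_one] at h3
  apply sup_ext hW SupF.zero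
  intro q hq
  by_cases hqe : q = Pat.empty
  · rw [hqe, h0]
    rfl
  · have := congrFun h2 ⟨q, hqe, hq⟩
    simp only [hw, Pi.zero_apply] at this
    rw [this]
    rfl

/-- **Existence.** -/
theorem fix_exists [Finite α] [Fintype (NE A)] [DecidableEq (NE A)] (he : A Pat.empty)
    (hP : Pres A A (fun F => T F))
    (hT : ∀ p, A p → T (ind Pat.empty) p = ind Pat.empty p) (hdet : (nmat A (fun F => T F)).det ≠ 0) :
    vfun (Matrix.vecMul (fun q : NE A => T (ind q.1) Pat.empty) (nmat A (fun F => T F))⁻¹) ∘ₗ T =
      vfun (Matrix.vecMul (fun q : NE A => T (ind q.1) Pat.empty) (nmat A (fun F => T F))⁻¹) := by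
  set κ : NE A → K := fun q => T (ind q.1) Pat.empty with hκ
  set v : NE A → K := Matrix.vecMul κ (nmat A (fun F => T F))⁻¹ with hv
  have hvM : Matrix.vecMul v (nmat A (fun F => T F)) = κ := by
    rw [hv, Matrix.vecMul_vecMul, Matrix.nonsing_inv_mul _ (Ne.isUnit hdet), Matrix.vecMul_one]
  have hS := vfun_sup he v
  apply sup_ext (hS.comp hP) hS
  intro q hq
  rw [LinearMap.comp_apply]
  by_cases hqe : q = Pat.empty
  · subst hqe
    rw [hS.congr hT]
  · have h1 := congrFun hvM ⟨q, hqe, hq⟩
    unfold Matrix.vecMul dotProduct nmat at h1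
    simp only [mul_sub, Finset.sum_sub_distrib, mul_ite, mul_one, mul_zero] at h1
    have h2 : ∑ x : NE A, (if x = (⟨q, hqe, hq⟩ : NE A) then v x else 0) = v ⟨q, hqe, hq⟩ := by
      rw [Finset.sum_eq_single ⟨q, hqe, hq⟩]
      · rw [if_pos rfl]
      · intro b _ hb
        rw [if_neg hb]
      · intro h
        exact absurd (Finset.mem_univ _) h
    have h3 : ∑ x : NE A, (if x = (⟨q, hqe, hq⟩ : NE A) then v x else 0) - ∑ x : NE A, v x * T (ind q) x.1 =
        κ ⟨q, hqe, hq⟩ := by
      convert h1 using 2
    rw [h2] at h3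
    rw [show vfun v (ind q) = v ⟨q, hqe, hq⟩ from vfun_ind v ⟨q, hqe, hq⟩, vfun_apply]
    have h4 : T (ind q) Pat.empty = κ ⟨q, hqe, hq⟩ := rfl
    rw [h4, ← h3]
    ring

/-- **Existence**, second form. -/
theorem fix_exists' [Finite α] (he : A Pat.empty) (hP : Pres A A (fun F => T F))
    (hT : ∀ p, A p → T (ind Pat.empty) p = ind Pat.empty p) (inj : InjN A (fun F => T F)) :
    ∃ V : (Pat α → K) →ₗ[K] K, SupF A V ∧ V (ind Pat.empty) = 1 ∧ V ∘ₗ T = V := by
  classical
  have : Fintype (NE A) := Fintype.ofFinite _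
  exact ⟨_, vfun_sup he _, vfun_empty _, fix_exists he hP hT ((nmat_det (lin_end _)).2 inj)⟩

end field

section top

variable {K : Type*} [Field K] [TopologicalSpace K] [IsTopologicalDivisionRing K] [T1Space K]
  {A : Pat α → Prop} {Z : Type*} [TopologicalSpace Z] {z0 : Z}

/-- **Existence near a point** at which `1 - T` is injective, with continuity. -/
theorem fix_near [Finite α] (he : A Pat.empty) {T : Z → Module.End K (Pat α → K)}
    (hP : ∀ z, Pres A A (fun F => T z F)) (hT : ∀ z p, A p → T z (ind Pat.empty) p = ind Pat.empty p)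
    (hcont : ∀ (F : Pat α → K) (p : Pat α), ContinuousAt (fun z => T z F p) z0)
    (inj : InjN A (fun F => T z0 F)) :
    ∃ V : Z → (Pat α → K) →ₗ[K] K,
      (∀ z, SupF A (V z) ∧ V z (ind Pat.empty) = 1) ∧
      (∀ F, ContinuousAt (fun z => V z F) z0) ∧
      ∀ᶠ z in 𝓝 z0, V z ∘ₗ T z = V z ∧ InjN A (fun F => T z F) := by
  classical
  have : Fintype (NE A) := Fintype.ofFinite _
  set M : Z → Matrix (NE A) (NE A) K := fun z => nmat A (fun F => T z F) with hM
  set κ : Z → (NE A → K) := fun z q => T z (ind q.1) Pat.empty with hκ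
  have hMe : ∀ p q, ContinuousAt (fun z => M z p q) z0 := fun p q =>
    continuousAt_const.sub (hcont _ _)
  have hMc : ContinuousAt M z0 := continuousAt_pi.2 fun p => continuousAt_pi.2 fun q => hMe p q
  have hκc : ContinuousAt κ z0 := by
    rw [continuousAt_pi]
    intro p
    exact hcont _ _
  have hdet0 : (M z0).det ≠ 0 := (nmat_det (lin_end _)).2 inj
  have hdetc : ContinuousAt (fun z => (M z).det) z0 :=
    (Continuous.matrix_det continuous_id).continuousAt.comp hMc
  have hev : ∀ᶠ z in 𝓝 z0, (M z).det ≠ 0 := hdetc.eventually_ne hdet0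
  have hinv : ContinuousAt (fun z => (M z)⁻¹) z0 := by
    have e : (fun z => (M z)⁻¹) = fun z => ((M z).det)⁻¹ • (M z).adjugate := by
      funext z
      rw [Matrix.inv_def, Ring.inverse_eq_inv']
    rw [e]
    exact (hdetc.inv₀ hdet0).smul ((Continuous.matrix_adjugate continuous_id).continuousAt.comp hMc)
  have hvc : ContinuousAt (fun z => Matrix.vecMul (κ z) (M z)⁻¹) z0 := by
    rw [continuousAt_pi]
    intro p
    unfold Matrix.vecMul dotProduct
    apply tendsto_finsetSum
    intro q _
    have h1 : ContinuousAt (fun z => (M z)⁻¹ q) z0 := continuousAt_pi.1 hinv q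
    have h2 : ContinuousAt (fun z => (M z)⁻¹ q p) z0 := continuousAt_pi.1 h1 p
    exact ((continuousAt_pi.1 hκc) q).mul h2
  refine ⟨fun z => vfun (Matrix.vecMul (κ z) (M z)⁻¹), fun z => ⟨vfun_sup he _, vfun_empty _⟩, ?_, ?_⟩
  · intro F
    simp only [vfun_apply]
    apply continuousAt_const.add
    apply tendsto_finsetSum
    intro q _
    exact ((continuousAt_pi.1 hvc) q).mul continuousAt_const
  · filter_upwards [hev] with z hz
    exact ⟨fix_exists he (hP z) (hT z) hz, (nmat_det (lin_end _)).1 hz⟩

end top

end Pool.Agent.NUF
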