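import Pool.Agent.EXL.Planar

/-!
# Planar states on a list of lines

`AX X p` = the state `p` is empty outside the list `X` and non-crossing in the order of the list.
-/

set_option autoImplicit false

namespace Pool.Agent.NUF

open EXL EXL.Pat EXL.HS

variable {α K : Type*} [DecidableEq α] [CommRing K]

/-- The states that are empty outside the list `X` and non-crossing in the order of the list. -/
def AX (X : List α) : Pat α → Prop := PD {x | x ∈ X} (fun x => (X.idxOf x : ℤ))

theorem ax_out {X : List α} {p : Pat α} (h : AX X p) {x : α} (hx : x ∉ X) : p x = x := h.out x hx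

theorem ax_empty (X : List α) : AX X Pat.empty :=
  ⟨fun _ _ => rfl, fun _ _ h1 h2 => ⟨h1, h2⟩⟩

theorem ax_injOn (X : List α) : Set.InjOn (fun x => (X.idxOf x : ℤ)) {x | x ∈ X} := by
  intro x hx y _ h
  simp only at h
  have h' : X.idxOf x = X.idxOf y := by exact_mod_cast h
  exact (List.idxOf_inj hx).1 h'

/-- Change of the list: the order of the occupied sites counts. -/
theorem ax_congr {X Y : List α} {p : Pat α} (h : AX X p) (h1 : ∀ x, p x ≠ x → x ∈ Y)
    (h2 : ∀ x y, p x ≠ x → p y ≠ y → (X.idxOf x < X.idxOf y ↔ Y.idxOf x < Y.idxOf y)) : AX Y p := by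
  refine ⟨fun x hx => by_contra fun h' => hx (h1 x h'), nc_congr (fun x y hx hy => ?_) h.nc⟩
  have := h2 x y hx hy
  simp only [Nat.cast_lt]
  exact this

section idx

variable {L1 L2 : List α} {c i k x y : α}

theorem idx_left (hx : x ∈ L1) (L : List α) : (L1 ++ L).idxOf x = L1.idxOf x :=
  List.idxOf_append_of_mem hx

theorem idx_right (hx : x ∉ L1) (L : List α) : (L1 ++ L).idxOf x = L1.length + L.idxOf x := by
  rw [List.idxOf_append_of_notMem hx]

theorem idx_cons_ne (h : x ≠ c) (L : List α) : (c :: L).idxOf x = L.idxOf x + 1 :=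
  List.idxOf_cons_ne _ (Ne.symm h)

theorem idx_cons_self (c : α) (L : List α) : (c :: L).idxOf c = 0 := List.idxOf_cons_self

/-- the order does not change when a line is inserted. -/
theorem idx_insert (hx : x ≠ c) (hy : y ≠ c) :
    ((L1 ++ L2).idxOf x < (L1 ++ L2).idxOf y ↔ (L1 ++ c :: L2).idxOf x < (L1 ++ c :: L2).idxOf y) := by
  by_cases h1 : x ∈ L1 <;> by_cases h2 : y ∈ L1
  · rw [idx_left h1, idx_left h2, idx_left h1, idx_left h2]
  · have h3 : L1.idxOf x < L1.length := List.idxOf_lt_length_of_mem h1
    rw [idx_left h1, idx_left h1, idx_right h2, idx_right h2]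
    omega
  · have h3 : L1.idxOf y < L1.length := List.idxOf_lt_length_of_mem h2
    rw [idx_left h2, idx_left h2, idx_right h1, idx_right h1]
    omega
  · rw [idx_right h1, idx_right h1, idx_right h2, idx_right h2, idx_cons_ne hx, idx_cons_ne hy]
    omega

end idx

/-- An empty line is inserted. -/
theorem ax_insert {L1 L2 : List α} {c : α} {p : Pat α} (hc : c ∉ L1 ++ L2) (h : AX (L1 ++ L2) p) :
    AX (L1 ++ c :: L2) p := by
  have hpc : p c = c := ax_out h hc
  refine ax_congr h (fun x hx => ?_) fun x y hx hy => idx_insert ?_ ?_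
  · have h1 : x ∈ L1 ++ L2 := by_contra fun h' => hx (ax_out h h')
    rw [List.mem_append] at h1 ⊢
    rcases h1 with h1 | h1
    · exact Or.inl h1
    · exact Or.inr (List.mem_cons_of_mem _ h1)
  · rintro rfl
    exact hx hpc
  · rintro rfl
    exact hy hpc

/-- An empty line is removed. -/
theorem ax_remove {L1 L2 : List α} {c : α} {p : Pat α} (h : AX (L1 ++ c :: L2) p) (hpc : p c = c) :
    AX (L1 ++ L2) p := by
  refine ax_congr h (fun x hx => ?_) fun x y hx hy => (idx_insert ?_ ?_).symm
  · have h1 : x ∈ L1 ++ c :: L2 := by_contra fun h' => hx (ax_out h h')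
    rw [List.mem_append, List.mem_cons] at h1
    rw [List.mem_append]
    rcases h1 with h1 | h1 | h1
    · exact Or.inl h1
    · exfalso
      rw [h1] at hx
      exact hx hpc
    · exact Or.inr h1
  · rintro rfl
    exact hx hpc
  · rintro rfl
    exact hy hpc

theorem adj_next (L1 L2 : List α) (i k : α) (hn : (L1 ++ i :: k :: L2).Nodup) :
    Adj {x | x ∈ L1 ++ i :: k :: L2} (fun x => ((L1 ++ i :: k :: L2).idxOf x : ℤ)) i k := by
  have hi : i ∉ L1 := fun h => (List.nodup_append.1 hn).2.2 i h i (by simp) rfl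
  have hk : k ∉ L1 := fun h => (List.nodup_append.1 hn).2.2 k h k (by simp) rfl
  have hik : i ≠ k := by
    have := (List.nodup_append.1 hn).2.1
    rw [List.nodup_cons] at this
    exact fun e => this.1 (by rw [e]; simp)
  intro x _
  have e1 : (L1 ++ i :: k :: L2).idxOf i = L1.length := by
    rw [idx_right hi, idx_cons_self, Nat.add_zero]
  have e2 : (L1 ++ i :: k :: L2).idxOf k = L1.length + 1 := by
    rw [idx_right hk, idx_cons_ne hik.symm, idx_cons_self]
  simp only [e1, e2]
  omega

/-- **The rhombus exchanges two neighbouring lines.** -/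
theorem pres_ax_R (w : Wt K) {L1 L2 : List α} {i k : α} (hn : (L1 ++ i :: k :: L2).Nodup) :
    Pres (AX (L1 ++ i :: k :: L2)) (AX (L1 ++ k :: i :: L2)) (R w i k) := by
  have hi : i ∉ L1 := fun h => (List.nodup_append.1 hn).2.2 i h i (by simp) rfl
  have hk : k ∉ L1 := fun h => (List.nodup_append.1 hn).2.2 k h k (by simp) rfl
  have hik : i ≠ k := by
    have := (List.nodup_append.1 hn).2.1
    rw [List.nodup_cons] at this
    exact fun e => this.1 (by rw [e]; simp)
  have key := pres_R (K := K) w hik (ax_injOn (L1 ++ i :: k :: L2)) (by simp) (by simp)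
    (adj_next L1 L2 i k hn)
  have hset : {x | x ∈ L1 ++ i :: k :: L2} = {x | x ∈ L1 ++ k :: i :: L2} := by
    ext x
    simp only [List.mem_append, List.mem_cons, Set.mem_ofPred_eq]
    tauto
  refine key.mono (fun _ h => h) fun p hp => ?_
  unfold AX
  rw [hset] at hp
  refine hp.congr fun x hx y hy => ?_
  have hidx : ∀ x, (L1 ++ i :: k :: L2).idxOf (Equiv.swap i k x) = (L1 ++ k :: i :: L2).idxOf x := by
    intro x
    by_cases h1 : x = i
    · subst h1
      rw [Equiv.swap_apply_left, idx_right hk, idx_cons_ne hik.symm, idx_cons_self, idx_right hi,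
        idx_cons_ne hik, idx_cons_self]
    · by_cases h2 : x = k
      · subst h2
        rw [Equiv.swap_apply_right, idx_right hk, idx_cons_self, idx_right hi, idx_cons_self]
      · rw [Equiv.swap_apply_of_ne_of_ne h1 h2]
        by_cases h3 : x ∈ L1
        · rw [idx_left h3, idx_left h3]
        · rw [idx_right h3, idx_right h3, idx_cons_ne h1, idx_cons_ne h2, idx_cons_ne h2,
            idx_cons_ne h1]
  simp only [hidx]

/-- A line crosses the rows. -/
theorem pres_ax_M (w : α → Wt K) {c : α} (X : List α) {L1 L2 : List α}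
    (hn : (L1 ++ c :: (X ++ L2)).Nodup) :
    Pres (AX (L1 ++ c :: (X ++ L2))) (AX (L1 ++ X ++ c :: L2)) (M w c X) := by
  induction X generalizing L1 with
  | nil =>
    simp only [List.nil_append, List.append_nil]
    exact Pres.id _
  | cons j X ih =>
    have h1 := pres_ax_R (w j) (L1 := L1) (L2 := X ++ L2) (i := c) (k := j) hn
    have hn' : ((L1 ++ [j]) ++ c :: (X ++ L2)).Nodup := by
      rw [List.append_assoc]
      refine (List.Perm.nodup_iff ?_).1 hn
      apply List.Perm.append_left
      exact List.Perm.swap _ _ _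
    have h2 := ih hn'
    have e1 : (L1 ++ [j]) ++ c :: (X ++ L2) = L1 ++ j :: c :: (X ++ L2) := by simp
    have e2 : L1 ++ [j] ++ X ++ c :: L2 = L1 ++ j :: X ++ c :: L2 := by simp
    rw [e1, e2] at h2
    exact h1.comp h2

/-- The auxiliary line is empty before. -/
theorem pres_ax_emp_l {L1 L2 : List α} {c : α} (hc : c ∉ L1 ++ L2) :
    Pres (K := K) (AX (L1 ++ L2)) (AX (L1 ++ c :: L2)) (emp c) := by
  intro F G h p hp
  simp only [emp, ax_out hp hc, if_true]
  exact h p (ax_insert hc hp)

/-- The auxiliary line is empty after. -/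
theorem pres_ax_emp_r (L1 L2 : List α) (c : α) :
    Pres (K := K) (AX (L1 ++ c :: L2)) (AX (L1 ++ L2)) (emp c) := by
  intro F G h p hp
  simp only [emp]
  split_ifs with hc
  · exact h p (ax_remove hp hc)
  · rfl

/-- The column, as an operator on functions. -/
def colF (w : α → Wt K) (c : α) (X : List α) (F : Pat α → K) : Pat α → K := emp c (M w c X (emp c F))

theorem pres_colF (w : α → Wt K) {c : α} {X : List α} (hn : X.Nodup) (hc : c ∉ X) :
    Pres (AX X) (AX X) (colF w c X) := by
  have h1 := pres_ax_emp_l (K := K) (L1 := []) (L2 := X) (c := c) (by simpa using hc)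
  have h2 := pres_ax_M w X (c := c) (L1 := []) (L2 := []) (by simpa using ⟨hc, hn⟩)
  have h3 := pres_ax_emp_r (K := K) X [] c
  simp only [List.nil_append, List.append_nil] at h1 h2 h3
  exact h1.comp (h2.comp h3)

theorem lin_M (w : α → Wt K) (c : α) (X : List α) : Lin (M w c X) := by
  induction X with
  | nil =>
    intro a b F G
    rfl
  | cons j X ih => exact (lin_R (w j) c j).comp ih

theorem lin_colF (w : α → Wt K) (c : α) (X : List α) : Lin (colF w c X) :=
  (lin_emp c).comp ((lin_M w c X).comp (lin_emp c))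

end Pool.Agent.NUF
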