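import Pool.Agent.NUF.HalfU
import Pool.Agent.NUF.ULin
import Pool.Agent.NUF.UPlan

/-!
# The functionals supported on the planar states of a list of lines

`spU X` = the functionals supported on the states that are empty outside the list `X` and non-crossing in the
order of the list; the closure facts `SpL`; the value at the indicator of the empty state.
-/

set_option autoImplicit false

namespace Pool.Agent.NUF

open EXL EXL.Pat EXL.HS

variable {ι : Type*} [DecidableEq ι]

/-- The functionals supported on the planar states of the list `X`. -/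
def spU (X : List ι) : Submodule ℂ (Module.Dual ℂ (Pat ι → ℂ)) where
  carrier := {V | SupF (AX X) V}
  add_mem' h h' := SupF.add h h'
  zero_mem' := SupF.zero
  smul_mem' c _ h := SupF.smul h c

theorem mem_spU {X : List ι} {V : Module.Dual ℂ (Pat ι → ℂ)} : V ∈ spU X ↔ SupF (AX X) V := Iff.rfl

/-- An arc between two neighbouring lines. -/
theorem pres_ax_cu {L D : List ι} {i k : ι} (hn : (L ++ i :: k :: D).Nodup) :
    Pres (K := ℂ) (AX (L ++ i :: k :: D)) (AX (L ++ i :: k :: D)) (fun F => opCu ℂ i k F) := by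
  intro F G h p hp
  simp only [opCu_apply]
  split_ifs
  · exact h _ (PD.cup (ax_injOn _) (by simp) (by simp) hp ((adj_next L D i k hn).clr hp))
  · rfl

/-- A line gets a new name. -/
theorem pres_ax_P {L D : List ι} {i k : ι} (hn : (L ++ i :: k :: D).Nodup) :
    Pres (K := ℂ) (AX (L ++ i :: D)) (AX (L ++ k :: D)) (fun F => opSw ℂ i k F) := by
  intro F G h p hp
  simp only [opSw_apply]
  apply h
  have hi : i ∉ L := fun h => (List.nodup_append.1 hn).2.2 i h i (by simp) rfl
  have hk : k ∉ L := fun h => (List.nodup_append.1 hn).2.2 k h k (by simp) rfl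
  have hn2 := (List.nodup_append.1 hn).2.1
  rw [List.nodup_cons, List.nodup_cons, List.mem_cons, not_or] at hn2
  have hik : i ≠ k := hn2.1.1
  have hkX : k ∉ (L ++ [i]) ++ D := by
    simp [hk, hik.symm, hn2.2.1]
  have hpk : p k = k := ax_out hp (by simpa using hkX)
  have h1 : AX ((L ++ [i]) ++ k :: D) p := ax_insert hkX (by simpa using hp)
  have h2 : AX (L ++ i :: k :: D) p := by simpa using h1
  have hset : {x | x ∈ L ++ i :: k :: D} = {x | x ∈ L ++ k :: i :: D} := by
    ext x
    simp only [List.mem_append, List.mem_cons, Set.mem_ofPred_eq]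
    tauto
  have h3 : AX (L ++ k :: i :: D) (Pat.swap i k p) := by
    have h4 := PD.relabel (D := {x | x ∈ L ++ i :: k :: D}) (i := i) (j := k) (by simp) (by simp) h2
    unfold AX
    rw [hset] at h4
    refine h4.congr fun x hx y hy => ?_
    have hidx : ∀ x, (L ++ i :: k :: D).idxOf (Equiv.swap i k x) = (L ++ k :: i :: D).idxOf x := by
      intro x
      by_cases h1 : x = i
      · subst h1
        rw [Equiv.swap_apply_left, idx_right hk, idx_cons_ne hik.symm, idx_cons_self, idx_right hi,
          idx_cons_ne hik, idx_cons_self]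
      · by_cases h2 : x = k
        · subst h2
          rw [Equiv.swap_apply_right, idx_right hk, idx_cons_self, idx_right hi, idx_cons_self]
        · rw [Equiv.swap_apply_of_ne_of_ne h1 h2]
          by_cases h3 : x ∈ L
          · rw [idx_left h3, idx_left h3]
          · rw [idx_right h3, idx_right h3, idx_cons_ne h1, idx_cons_ne h2, idx_cons_ne h2,
              idx_cons_ne h1]
    simp only [hidx]
  have h5 : Pat.swap i k p i = i := by
    rw [EXL.swap_apply, Equiv.swap_apply_left, hpk, Equiv.swap_apply_right]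
  have h6 : AX ((L ++ [k]) ++ i :: D) (Pat.swap i k p) := by simpa using h3
  simpa using ax_remove h6 h5

/-- **The closure facts.** -/
theorem uspl : SpL (uops (ι := ι)) (fun i j => opCu ℂ i j) spU where
  ins {L D x V} hn hV := by
    refine SupF.mono (mem_spU.1 hV) fun p hp => ax_insert ?_ hp
    intro h
    have h1 : (x :: (L ++ D)).Nodup := (List.Perm.nodup_iff List.perm_middle).1 hn
    exact (List.nodup_cons.1 h1).1 h
  out {X x V} hx hV := by
    refine LinearMap.ext fun F => ?_
    rw [rm_apply]
    refine SupF.congr (mem_spU.1 hV) fun p hp => ?_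
    rw [uops_E, opE_apply, if_pos (ax_out hp hx)]
  del {L D x V} _ hV := by
    refine SupF.comp (x := uops.E x) (mem_spU.1 hV) ?_
    have h := pres_ax_emp_r (K := ℂ) L D x
    exact fun F G hFG p hp => by
      have := h F G hFG p hp
      rw [← uops_E_apply, ← uops_E_apply] at this
      exact this
  R {L D i k u V} hn hV := by
    have hik : i ≠ k := by
      have h1 := (List.nodup_append.1 hn).2.1
      rw [List.nodup_cons] at h1
      exact fun e => h1.1 (by rw [e]; simp)
    refine SupF.comp (x := uops.R i k u) (mem_spU.1 hV) ?_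
    have h := pres_ax_R (K := ℂ) (rwt u) hn
    exact fun F G hFG p hp => by
      have := h F G hFG p hp
      rw [← uops_R_apply hik, ← uops_R_apply hik] at this
      exact this
  cu {L D i k V} hn hV := SupF.comp (x := opCu ℂ i k) (mem_spU.1 hV) (pres_ax_cu hn)
  P {L D i k V} hn hV := by
    rw [uops_P]
    exact SupF.comp (x := opSw ℂ i k) (mem_spU.1 hV) (pres_ax_P hn)

/-! ### The value at the indicator of the empty state -/

section emp

variable {i j : ι} {u : ℂ}

theorem swap_eq_empty (p : Pat ι) : Pat.swap i j p = Pat.empty ↔ p = Pat.empty := by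
  constructor
  · intro h
    rw [← Pat.swap_swap i j p, h]
    ext x
    rw [EXL.swap_apply]
    show Equiv.swap i j (Equiv.swap i j x) = x
    rw [Equiv.swap_apply_self]
  · rintro rfl
    ext x
    rw [EXL.swap_apply]
    show Equiv.swap i j (Equiv.swap i j x) = x
    rw [Equiv.swap_apply_self]

theorem E_ind : uops.E i (ind (Pat.empty : Pat ι) : Pat ι → ℂ) = ind Pat.empty := by
  funext p
  rw [uops_E, opE_apply]
  split_ifs with h
  · rfl
  · rw [ind_ne]
    rintro rfl
    exact h rfl

theorem P_ind : uops.P i j (ind (Pat.empty : Pat ι) : Pat ι → ℂ) = ind Pat.empty := by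
  classical
  funext p
  rw [uops_P, opSw_apply]
  by_cases h : p = Pat.empty
  · rw [h, (swap_eq_empty (i := i) (j := j) _).2 rfl]
  · rw [ind_ne h, ind_ne (fun e => h ((swap_eq_empty _).1 e))]

theorem cu_ind (h : i ≠ j) : opCu ℂ i j (ind (Pat.empty : Pat ι) : Pat ι → ℂ) = 0 := by
  funext p
  rw [opCu_apply, Pi.zero_apply]
  split_ifs with h1
  · rw [ind_ne]
    intro e
    have e1 : cup i j p i = j := by rw [EXL.cup_apply h1]; simp
    rw [e] at e1
    exact h e1
  · rfl

theorem opR_ind (h : i ≠ j) : uops.R i j u (ind (Pat.empty : Pat ι) : Pat ι → ℂ) = ind Pat.empty := by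
  classical
  funext p
  rw [uops_R_apply h, R]
  have hcu : ∀ q : Pat ι, q i = i → q j = j → (ind (Pat.empty : Pat ι) : Pat ι → ℂ) (cup i j q) = 0 := by
    intro q h1 h2
    have := congrFun (cu_ind (ι := ι) h) q
    rwa [opCu_apply, if_pos ⟨h1, h2⟩] at this
  have hsw : ∀ q : Pat ι, (ind (Pat.empty : Pat ι) : Pat ι → ℂ) (Pat.swap i j q) = ind Pat.empty q := by
    intro q
    have := congrFun (P_ind (ι := ι) (i := i) (j := j)) q
    rwa [uops_P, opSw_apply] at this
  split_ifs with h1 h2 h3 h4
  · rw [hcu p h1 h2, mul_zero, add_zero]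
  · rw [hsw, ind_ne, mul_zero, mul_zero, add_zero]
    rintro rfl
    exact h2 rfl
  · rw [hsw, ind_ne, mul_zero, mul_zero, add_zero]
    rintro rfl
    exact h1 rfl
  · rw [ind_ne, mul_zero]
    rintro rfl
    exact h1 rfl
  · have hc : CtOK i j p := ⟨h, h1, h3, h4⟩
    have e1 : cut i j p i = i := by rw [EXL.cut_apply hc]; simp
    have e2 : cut i j p j = j := by rw [EXL.cut_apply hc]; simp [h.symm]
    have e3 : cut i j p ≠ Pat.empty := by
      intro e
      have inv : ∀ x, p (p x) = x := p.inv
      have e4 : cut i j p (p i) = p j := by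
        rw [EXL.cut_apply hc]
        have n1 : p i ≠ i := h1
        simp [n1, h4]
      rw [e] at e4
      have e5 : p i = p j := e4
      exact h (by rw [← inv i, e5, inv])
    rw [hsw, hcu _ e1 e2, ind_ne e3, ind_ne, mul_zero, mul_zero, mul_zero, add_zero, add_zero]
    rintro rfl
    exact h1 rfl

theorem opM_ind {z : ι → ℂ} {a : ι} {t : ℂ} {X : List ι} (ha : a ∉ X) :
    uops.M z a t X (ind (Pat.empty : Pat ι) : Pat ι → ℂ) = ind Pat.empty := by
  induction X with
  | nil => rfl
  | cons r X ih =>
    have har : a ≠ r := fun e => ha (by simp [e])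
    rw [EXL.Glob.Ops.M_cons, Module.End.mul_apply, ih (fun h => ha (by simp [h])), opR_ind har]

theorem oE_ind {z : ι → ℂ} {X : List ι} :
    oE uops z X i (ind (Pat.empty : Pat ι) : Pat ι → ℂ) = ind Pat.empty := by
  rw [oE, opM_ind]
  exact fun h => (below_subset _ h).2 rfl

theorem oF_ind {z : ι → ℂ} {X : List ι} {b : ι} (hib : i ≠ b) :
    oF uops (fun i j => opCu ℂ i j) z b X i (ind (Pat.empty : Pat ι) : Pat ι → ℂ) = 0 := by
  rw [oF, Module.End.mul_apply, oE_ind, cu_ind hib]

theorem oB_ind {z : ι → ℂ} {X : List ι} {b : ι} :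
    oB uops z b X i (ind (Pat.empty : Pat ι) : Pat ι → ℂ) = ind Pat.empty := by
  rw [oB, Module.End.mul_apply, oE_ind, P_ind]

theorem hT0_ind {z : ι → ℂ} {c : ι} {X : List ι} (hc : c ∉ X) :
    hT0 uops z c X (ind (Pat.empty : Pat ι) : Pat ι → ℂ) = ind Pat.empty := by
  rw [hT0, Module.End.mul_apply, Module.End.mul_apply, E_ind, opM_ind hc, E_ind]

theorem hT1_ind {z : ι → ℂ} {b c : ι} {X : List ι} (hc : c ∉ X) (hbc : c ≠ b) :
    hT1 uops (fun i j => opCu ℂ i j) z c b X (ind (Pat.empty : Pat ι) : Pat ι → ℂ) = 0 := by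
  rw [hT1, Module.End.mul_apply, Module.End.mul_apply, E_ind, opM_ind hc, cu_ind hbc]

end emp

end Pool.Agent.NUF
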