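import Pool.Agent.NUF.UVec

/-!
# The ring

`Ring z i j w X` = a closed line with parameter `w` around the cylinder: the pair `i`, `j` is created below the
rows `X`, the line `j` crosses all rows (from the lowest to the highest one) and is joined to `i` above them.
`ringF` = the same for general weights (functions with values in any commutative ring).
-/

set_option autoImplicit false

namespace Pool.Agent.NUF

section

variable {α K : Type*} [DecidableEq α] [CommRing K]

/-- The ring with the weights `w`. -/
def ringF (w : α → EXL.Wt K) (i j : α) (X : List α) (F : EXL.Pat α → K) : EXL.Pat α → K :=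
  EXL.U i j (EXL.M w j X (EXL.glue i j F))

end

variable {ι : Type*} [DecidableEq ι]

/-- The ring. -/
noncomputable def Ring (z : ι → ℂ) (i j : ι) (w : ℂ) (X : List ι) : Module.End ℂ (EXL.Pat ι → ℂ) :=
  uops.U i j * uops.M z j w X * uops.glue i j

theorem Ring_apply (z : ι → ℂ) {i j : ι} (w : ℂ) {X : List ι} (hij : i ≠ j) (hj : j ∉ X)
    (F : EXL.Pat ι → ℂ) : Ring z i j w X F = ringF (fun k => EXL.rwt (w - z k)) i j X F := by
  unfold Ring ringF
  rw [Module.End.mul_apply, Module.End.mul_apply, uops_U_apply hij, uops_M_apply _ _ hj,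
    uops_glue_apply hij]

/-- The ring at the honeycomb point: `w - z k = π / 8`. -/
theorem Ring_hex {z : ι → ℂ} {i j : ι} {w : ℂ} {X : List ι} (hij : i ≠ j) (hj : j ∉ X)
    (hz : ∀ k ∈ X, w - z k = Real.pi / 8) (F : EXL.Pat ι → ℂ) :
    Ring z i j w X F = ringF (fun _ => _root_.Pool.Agent.EXL.hexW (HexObs.xc : ℂ)) i j X F := by
  rw [Ring_apply z w hij hj]
  unfold ringF
  rw [M_congr' (w := fun k => EXL.rwt (w - z k)) (w' := fun _ => _root_.Pool.Agent.EXL.hexW (HexObs.xc : ℂ))
    (fun k hk => by rw [hz k hk, EXL.rwt_hex])]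

end Pool.Agent.NUF
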