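import Pool.Agent.NUF.UVec
import Pool.Agent.EXL.FormInst

/-!
# Reversal: the column through the reversed list at the opposite rapidities is the same operator
-/

set_option autoImplicit false

namespace Pool.Agent.NUF

open _root_.Pool.Agent.EXL _root_.Pool.Agent.EXL.Pat _root_.Pool.Agent.EXL.HS

/-- The weights of the rhombus seen from the other side. -/
def cross {K : Type*} (w : Wt K) : Wt K := ⟨w.v, w.u2, w.u1, w.w2, w.w1⟩

theorem rwt_cross (u : ℂ) : rwt (3 * Real.pi / 8 - u) = cross (rwt u) := by
  rw [Fm.rwt_eq, Fm.rwt_eq]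
  have hl : (3 * Real.pi / 8 : ℂ) = 3 * Fm.lam := by
    unfold Fm.lam
    ring
  have hpi : (8 : ℂ) * Fm.lam = Real.pi := by
    unfold Fm.lam
    ring
  have e1 : Fm.Dn (3 * Fm.lam - u) = Fm.Dn u := by
    unfold Fm.Dn
    have h1 : Complex.sin (2 * Fm.lam + (3 * Fm.lam - u)) = Complex.sin (3 * Fm.lam + u) := by
      rw [← Complex.sin_pi_sub, ← hpi]
      congr 1
      ring
    have h2 : Complex.sin (3 * Fm.lam + (3 * Fm.lam - u)) = Complex.sin (2 * Fm.lam + u) := by
      rw [← Complex.sin_pi_sub, ← hpi]
      congr 1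
      ring
    rw [h1, h2, mul_comm]
  rw [hl]
  simp only [Fm.Wc, Fm.Wn, Wt.sc, cross, e1, Wt.mk.injEq]
  refine ⟨?_, ?_, ?_, ?_, ?_⟩
  · rw [sub_sub_cancel]
    ring
  · rw [sub_sub_cancel]
  · trivial
  · rw [sub_sub_cancel, show (2 * Fm.lam - (3 * Fm.lam - u) : ℂ) = u - Fm.lam by ring]
    ring
  · rw [show (3 * Fm.lam - u - Fm.lam : ℂ) = 2 * Fm.lam - u by ring]
    ring

section pat

variable {α K : Type*} [DecidableEq α] [CommRing K] {c d r : α}

/-- **A U-turn in front of a rhombus.** -/
theorem U_R_cross (w : Wt K) (hdc : d ≠ c) (hdr : d ≠ r) (hcr : c ≠ r) (F : Pat α → K) :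
    U d c (R w c r F) = U d c (R (cross w) d r F) := by
  funext p
  simp only [U]
  by_cases hd : p d = d
  swap
  · rw [if_neg hd, if_neg hd]
  by_cases hc : p c = c
  swap
  · rw [if_pos hd, if_pos hd, if_neg hc, if_neg hc]
  rw [if_pos hd, if_pos hd, if_pos hc, if_pos hc]
  have hq : ∀ x, cup d c p x = if x = d then c else if x = c then d else p x := pcup_apply hd hc
  have hqc : cup d c p c = d := by rw [hq, if_neg hdc.symm, if_pos rfl]
  have hqd : cup d c p d = c := by rw [hq, if_pos rfl]
  have hqr : cup d c p r = p r := by rw [hq, if_neg hdr.symm, if_neg hcr.symm]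
  have hpi := p.inv
  by_cases hr : p r = r
  · have h1 : swap c r (cup d c p) = cup d r p := by
      ext x
      rw [pcup_apply hd hr, pswap_apply, hq]
      simp only [Equiv.swap_apply_def]
      grind
    have h2 : swap d r (cup d c p) = cup c r p := by
      ext x
      rw [pcup_apply hc hr, pswap_apply, hq]
      simp only [Equiv.swap_apply_def]
      grind
    have hqr' : cup d c p r = r := by rw [hqr, hr]
    rw [R_e hc hr rfl, R_e hd hr rfl, R_l (by rw [hqc]; exact hdc) hqr' rfl,
      R_l (by rw [hqd]; exact hdc.symm) hqr' rfl, h1, h2]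
    simp only [cross]
    ring
  · have hrc : p r ≠ c := fun e => hcr (by rw [← hpi r, e, hc])
    have hrd : p r ≠ d := fun e => hdr (by rw [← hpi r, e, hd])
    have hqr' : cup d c p r ≠ r := by rw [hqr]; exact hr
    have hcc : c ≠ r ∧ cup d c p c ≠ c ∧ cup d c p r ≠ r ∧ cup d c p c ≠ r :=
      ⟨hcr, by rw [hqc]; exact hdc, hqr', by rw [hqc]; exact hdr⟩
    have hdd : d ≠ r ∧ cup d c p d ≠ d ∧ cup d c p r ≠ r ∧ cup d c p d ≠ r :=
      ⟨hdr, by rw [hqd]; exact hdc.symm, hqr', by rw [hqd]; exact hcr⟩
    have e1 : ∀ x, cut c r (cup d c p) x = if x = c then c else if x = r then r else if x = d then p r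
        else if x = p r then d else cup d c p x := by
      intro x
      rw [pcut_apply hcc.1 hcc.2.1 hcc.2.2.1 hcc.2.2.2, hqc, hqr]
    have e2 : ∀ x, cut d r (cup d c p) x = if x = d then d else if x = r then r else if x = c then p r
        else if x = p r then c else cup d c p x := by
      intro x
      rw [pcut_apply hdd.1 hdd.2.1 hdd.2.2.1 hdd.2.2.2, hqd, hqr]
    have f1 : cut c r (cup d c p) c = c := by rw [e1, if_pos rfl]
    have f2 : cut c r (cup d c p) r = r := by rw [e1, if_neg hcr.symm, if_pos rfl]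
    have f3 : cut d r (cup d c p) d = d := by rw [e2, if_pos rfl]
    have f4 : cut d r (cup d c p) r = r := by rw [e2, if_neg hdr.symm, if_pos rfl]
    have h1 : swap d r (cup d c p) = cup c r (cut c r (cup d c p)) := by
      ext x
      rw [pcup_apply f1 f2, pswap_apply, e1, hq, hq]
      simp only [Equiv.swap_apply_def]
      grind
    have h2 : swap c r (cup d c p) = cup d r (cut d r (cup d c p)) := by
      ext x
      rw [pcup_apply f3 f4, pswap_apply, e2, hq, hq]
      simp only [Equiv.swap_apply_def]
      grind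
    have h3 : swap d r p = cut c r (cup d c p) := by
      ext x
      rw [pswap_apply, e1, hq]
      simp only [Equiv.swap_apply_def]
      grind
    have h4 : swap c r p = cut d r (cup d c p) := by
      ext x
      rw [pswap_apply, e2, hq]
      simp only [Equiv.swap_apply_def]
      grind
    rw [R_r hc hr rfl, R_r hd hr rfl, R_d hcc.2.1 hcc.2.2.1 hcc.2.2.2 rfl rfl rfl,
      R_d hdd.2.1 hdd.2.2.1 hdd.2.2.2 rfl rfl rfl, h3, h4, ← h1, ← h2]
    simp only [cross]
    ring

/-- A rhombus on other lines commutes with a column. -/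
theorem R_M_comm (w : Wt K) (w' : α → Wt K) {X : List α} (hdr : d ≠ r) (hdc : d ≠ c) (hcr : c ≠ r)
    (hd : d ∉ X) (hr : r ∉ X) (hcX : c ∉ X) (F : Pat α → K) :
    R w d r (M w' c X F) = M w' c X (R w d r F) := by
  have h : Com (R w d r) (M w' c X) := by
    apply Com.M
    intro j hj G
    have hdj : d ≠ j := fun e => hd (e ▸ hj)
    have hrj : r ≠ j := fun e => hr (e ▸ hj)
    have hcj : c ≠ j := fun e => hcX (e ▸ hj)
    refine (R_isLoc w hdr).comm (R_isLoc (w' j) hcj) ?_ G
    rw [Set.disjoint_left]
    intro x hx hx'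
    simp only [Set.mem_insert_iff, Set.mem_singleton_iff] at hx hx'
    rcases hx with rfl | rfl <;> rcases hx' with h | h
    · exact hdc h
    · exact hdj h
    · exact hcr h.symm
    · exact hrj h
  exact h F

theorem emp_M_comm (w' : α → Wt K) {X : List α} (hdc : d ≠ c) (hd : d ∉ X) (hcX : c ∉ X) (F : Pat α → K) :
    emp d (M w' c X F) = M w' c X (emp d F) := by
  have h : Com (emp d) (M w' c X) := by
    apply Com.M
    intro j hj G
    have hdj : d ≠ j := fun e => hd (e ▸ hj)
    have hcj : c ≠ j := fun e => hcX (e ▸ hj)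
    refine (emp_isLoc d).comm (R_isLoc (w' j) hcj) ?_ G
    rw [Set.disjoint_left]
    intro x hx hx'
    simp only [Set.mem_insert_iff, Set.mem_singleton_iff] at hx hx'
    rcases hx' with h | h
    · exact hdc (by rw [← hx, h])
    · exact hdj (by rw [← hx, h])
  exact h F

/-- **A U-turn in front of a column**: the column is read from the other side. -/
theorem U_M_cross (w : α → Wt K) {X : List α} (hn : X.Nodup) (hdc : d ≠ c) (hd : d ∉ X) (hc : c ∉ X)
    (F : Pat α → K) : U d c (M w c X F) = U d c (M (fun j => cross (w j)) d X.reverse F) := by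
  induction X generalizing F with
  | nil => rfl
  | cons r X ih =>
    rw [List.nodup_cons] at hn
    have hdr : d ≠ r := fun e => hd (by simp [e])
    have hcr : c ≠ r := fun e => hc (by simp [e])
    have hd' : d ∉ X := fun e => hd (by simp [e])
    have hc' : c ∉ X := fun e => hc (by simp [e])
    rw [M_cons, U_R_cross _ hdc hdr hcr, R_M_comm _ _ hdr hdc hcr hd' hn.1 hc', ih hn.2 hd' hc',
      List.reverse_cons, M_append, M_cons, M_nil]

/-- **Reversal of the column** on the states in which both auxiliary lines are empty. -/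
theorem colF_rev (w : α → Wt K) {X : List α} (hn : X.Nodup) (hdc : d ≠ c) (hd : d ∉ X) (hc : c ∉ X)
    (F : Pat α → K) {p : Pat α} (hpc : p c = c) (hpd : p d = d) :
    colF w c X F p = colF (fun j => cross (w j)) d X.reverse F p := by
  have hd' : d ∉ X.reverse := by simpa using hd
  have hc' : c ∉ X.reverse := by simpa using hc
  have hcup : cup d c p d = c := by rw [pcup_apply hpd hpc, if_pos rfl]
  have hcup' : cup d c p c = d := by rw [pcup_apply hpd hpc, if_neg hdc.symm, if_pos rfl]
  have hcomm : emp c (emp d F) = emp d (emp c F) := by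
    funext q
    simp only [emp]
    split_ifs <;> rfl
  have h1 : U d c (M w c X (emp c (emp d F))) p = colF w c X F p := by
    simp only [U]
    rw [if_pos hpd, if_pos hpc, hcomm, ← emp_M_comm w hdc hd hc]
    simp only [emp]
    rw [if_pos hpd, hcup, if_neg hdc.symm, add_zero]
    unfold colF
    simp only [emp]
    rw [if_pos hpc]
  have h2 : U d c (M (fun j => cross (w j)) d X.reverse (emp c (emp d F))) p =
      colF (fun j => cross (w j)) d X.reverse F p := by
    simp only [U]
    rw [if_pos hpd, if_pos hpc, ← emp_M_comm _ hdc.symm hc' hd']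
    simp only [emp]
    rw [if_pos hpc, hcup', if_neg hdc, add_zero]
    unfold colF
    simp only [emp]
    rw [if_pos hpd]
  rw [← h1, ← h2, U_M_cross w hn hdc hd hc]

/-- The reversed list has the same planar states. -/
theorem ax_reverse {X : List α} (hn : X.Nodup) (p : Pat α) : AX X.reverse p ↔ AX X p := by
  have hidx : ∀ {X : List α} (hn : X.Nodup) {x : α} (hx : x ∈ X),
      X.reverse.idxOf x = X.length - 1 - X.idxOf x := by
    intro X hn x hx
    have h1 : X.idxOf x < X.length := List.idxOf_lt_length_of_mem hx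
    have h2 : X.length - 1 - X.idxOf x < X.reverse.length := by rw [List.length_reverse]; omega
    have h3 : X.reverse[X.length - 1 - X.idxOf x] = x := by
      rw [List.getElem_reverse]
      have h4 : X.length - 1 - (X.length - 1 - X.idxOf x) = X.idxOf x := by omega
      simp only [h4]
      exact List.getElem_idxOf h1
    have h5 := (List.nodup_reverse.2 hn).idxOf_getElem _ h2
    rw [h3] at h5
    exact h5
  have key : ∀ {X : List α}, X.Nodup → ∀ p : Pat α, AX X p → AX X.reverse p := by
    intro X hn p h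
    refine ⟨fun x hx => h.out x (fun hx' => hx (by simpa using hx')), ?_⟩
    intro a b hab hba
    simp only at hab hba ⊢
    by_cases ha : p a = a
    · rw [ha] at hba
      omega
    by_cases hb : p b = b
    · rw [hb]
      exact ⟨hab, hba⟩
    have hinv := p.inv
    have ha1 : a ∈ X := h.occ ha
    have ha2 : p a ∈ X := h.occ (by rw [hinv]; exact fun e => ha e.symm)
    have hb1 : b ∈ X := h.occ hb
    have hb2 : p b ∈ X := h.occ (by rw [hinv]; exact fun e => hb e.symm)
    rw [hidx hn ha1, hidx hn hb1] at hab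
    rw [hidx hn hb1, hidx hn ha2] at hba
    rw [hidx hn ha1, hidx hn hb2, hidx hn ha2]
    have l1 : X.idxOf a < X.length := List.idxOf_lt_length_of_mem ha1
    have l2 : X.idxOf (p a) < X.length := List.idxOf_lt_length_of_mem ha2
    have l3 : X.idxOf b < X.length := List.idxOf_lt_length_of_mem hb1
    have l4 : X.idxOf (p b) < X.length := List.idxOf_lt_length_of_mem hb2
    have h1 := h.nc (p a) b (by omega) (by rw [hinv]; omega)
    rw [hinv] at h1
    omega
  constructor
  · intro h
    have := key (List.nodup_reverse.2 hn) p h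
    rwa [List.reverse_reverse] at this
  · exact key hn p

end pat

section vec

variable {ι : Type*} [DecidableEq ι] {z : ι → ℂ} {c d : ι} {X : List ι}

/-- **REV for the column.** -/
theorem T0_rev (hn : X.Nodup) (hcd : c ≠ d) (hc : c ∉ X) (hd : d ∉ X) (F : Pat ι → ℂ) {p : Pat ι}
    (hp : AX X p) : T0 z c X F p = T0 (fun j => -z j) d X.reverse F p := by
  have hd' : d ∉ X.reverse := by simpa using hd
  have h1 := congrFun (congrFun (T0_fun z hc) F) p
  have h2 := congrFun (congrFun (T0_fun (fun j => -z j) hd') F) p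
  rw [h1, h2, colF_rev _ hn hcd.symm hd hc F (ax_out hp hc) (ax_out hp hd)]
  congr 2
  funext j
  rw [← rwt_cross]
  congr 1
  ring

/-- **REV**: the functional of the reversed list at the opposite rapidities. -/
theorem IsV.rev {V : Fnl ι} (hn : X.Nodup) (hcd : c ≠ d) (hc : c ∉ X) (hd : d ∉ X) (hV : IsV z X V) :
    IsV (fun j => -z j) X.reverse V := by
  have hs : Sup X.reverse V := hV.sup.mono fun p hp => (ax_reverse hn p).2 hp
  have hd' : d ∉ X.reverse := by simpa using hd
  refine ⟨hs, hV.one, fun c' hc' => fix_indep hs (List.nodup_reverse.2 hn) hd' hc' ?_⟩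
  refine LinearMap.ext fun F => ?_
  rw [LinearMap.comp_apply, ← hV.sup.congr fun p hp => T0_rev hn hcd hc hd F hp, ← LinearMap.comp_apply,
    hV.fix c hc]

theorem Reg.rev (hn : X.Nodup) (hcd : c ≠ d) (hc : c ∉ X) (hd : d ∉ X) (hR : Reg z X) :
    Reg (fun j => -z j) X.reverse := by
  have hd' : d ∉ X.reverse := by simpa using hd
  apply reg_of (List.nodup_reverse.2 hn) hd'
  intro G h0 h1 p
  refine hR c hc G (fun q hq => h0 q fun h => hq ⟨h.1, (ax_reverse hn q).1 h.2⟩) (fun q hq hA => ?_) p
  have h2 := h1 q hq ((ax_reverse hn q).2 hA)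
  show T0 z c X G q = G q
  rw [T0_rev hn hcd hc hd G hA]
  exact h2

theorem VV_rev [Finite ι] (hn : X.Nodup) (hcd : c ≠ d) (hc : c ∉ X) (hd : d ∉ X) (hR : Reg z X) :
    VV (fun j => -z j) X.reverse = VV z X :=
  (((isV_VV hn hc hR).rev hn hcd hc hd).eq_VV (List.nodup_reverse.2 hn) (by simpa using hc)
    (hR.rev hn hcd hc hd)).symm

end vec

end Pool.Agent.NUF
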