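import Pool.Agent.NUF.UVec
import Pool.Agent.NUF.HalfS
import Pool.Agent.NUF.Ring
import Pool.Agent.NUF.URev

/-!
# The double column and the ring on the functional (chain G of the board NUL)

The double column `uops.T z i j v X` and the ring preserve the planar states of `X` and the indicator of the
empty state; the double column fixes the functional `VV z X`.
-/

set_option autoImplicit false

namespace Pool.Agent.NUF

open _root_.Pool.Agent.EXL _root_.Pool.Agent.EXL.Pat _root_.Pool.Agent.EXL.HS

variable {ι : Type*} [DecidableEq ι] {i j : ι} {v : ℂ} {z : ι → ℂ} {X : List ι}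

/-! ### The caps -/

theorem uops_b (h : i ≠ j) (v : ℂ) :
    uops.b i j v = uops.E i * uops.E j + EXL.kK (3 * Real.pi / 8 - v) • opCu ℂ i j := by
  show rep0 ℂ id (if i = j then 0 else wbot (EXL.kK (3 * Real.pi / 8 - v)) i j) = _
  rw [if_neg h, wbot, map_add, map_mul, map_smul, rep0_e, rep0_e, rep0_cu, uops_E, uops_E]
  rfl

theorem uops_t (h : i ≠ j) (v : ℂ) :
    uops.t i j v = uops.E i * uops.E j + EXL.kK v • opCt ℂ i j := by
  show rep0 ℂ id (if i = j then 0 else wtop (EXL.kK v) i j) = _
  rw [if_neg h, wtop, map_add, map_mul, map_smul, rep0_e, rep0_e, rep0_ct, uops_E, uops_E]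
  rfl

theorem uops_U (h : i ≠ j) : uops.U i j = uops.E i * uops.E j + opCu ℂ i j := by
  show rep0 ℂ id (if i = j then 0 else wU i j) = _
  rw [if_neg h, wU, map_add, map_mul, rep0_e, rep0_e, rep0_cu, uops_E, uops_E]
  rfl

theorem uops_glue (h : i ≠ j) : uops.glue i j = uops.E i * uops.E j + opCt ℂ i j := by
  show rep0 ℂ id (if i = j then 0 else wglue i j) = _
  rw [if_neg h, wglue, map_add, map_mul, rep0_e, rep0_e, rep0_ct, uops_E, uops_E]
  rfl

/-! ### Planar states -/

omit [DecidableEq ι] in
/-- `Pres` of a sum. -/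
theorem pres_add {A B : Pat ι → Prop} {x y : Module.End ℂ (Pat ι → ℂ)} (hx : Pres A B fun F => x F)
    (hy : Pres A B fun F => y F) : Pres A B fun F => (x + y) F := by
  intro F G h p hp
  have h1 : x F p = x G p := hx F G h p hp
  have h2 : y F p = y G p := hy F G h p hp
  show x F p + y F p = x G p + y G p
  rw [h1, h2]

omit [DecidableEq ι] in
/-- `Pres` of a multiple. -/
theorem pres_smul {A B : Pat ι → Prop} {x : Module.End ℂ (Pat ι → ℂ)} (κ : ℂ) (hx : Pres A B fun F => x F) :
    Pres A B fun F => (κ • x) F := by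
  intro F G h p hp
  have h1 : x F p = x G p := hx F G h p hp
  show κ * x F p = κ * x G p
  rw [h1]

omit [DecidableEq ι] in
/-- `Pres` of a product. -/
theorem pres_mul {A B C : Pat ι → Prop} {x y : Module.End ℂ (Pat ι → ℂ)} (hx : Pres A B fun F => x F)
    (hy : Pres B C fun F => y F) : Pres A C fun F => (x * y) F := by
  intro F G h p hp
  exact hx _ _ (fun q hq => hy F G h q hq) p hp

theorem pres_E_r (L D : List ι) (i : ι) :
    Pres (AX (L ++ i :: D)) (AX (L ++ D)) fun F => uops.E i F := by
  intro F G h p hp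
  have := pres_ax_emp_r (K := ℂ) L D i F G h p hp
  rw [← uops_E_apply, ← uops_E_apply] at this
  exact this

/-- The projection to the states with two empty neighbours. -/
theorem pres_EE (L D : List ι) (i k : ι) :
    Pres (AX (L ++ i :: k :: D)) (AX (L ++ D)) fun F => (uops.E i * uops.E k) F := by
  exact pres_mul (pres_E_r L (k :: D) i) (pres_E_r L D k)

/-- Two neighbouring lines are cut. -/
theorem pres_ax_ct {L D : List ι} {i k : ι} (hn : (L ++ i :: k :: D).Nodup) :
    Pres (K := ℂ) (AX (L ++ i :: k :: D)) (AX (L ++ D)) (fun F => opCt ℂ i k F) := by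
  intro F G h p hp
  simp only [opCt_apply]
  split_ifs with hc
  · apply h
    have h1 : AX (L ++ i :: k :: D) (cut i k p) :=
      PD.cut (ax_injOn _) (by simp) (by simp) hp ((adj_next L D i k hn).clr hp)
    have h2 : AX (L ++ k :: D) (cut i k p) :=
      ax_remove h1 (by rw [EXL.cut_apply hc]; simp)
    refine ax_remove h2 ?_
    rw [EXL.cut_apply hc]
    simp [hc.1.symm]
  · rfl

theorem pres_ax_t {L D : List ι} {i k : ι} (hn : (L ++ i :: k :: D).Nodup) (v : ℂ) :
    Pres (AX (L ++ i :: k :: D)) (AX (L ++ D)) (fun F => uops.t i k v F) := by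
  have hik : i ≠ k := by
    have h1 := (List.nodup_append.1 hn).2.1
    rw [List.nodup_cons] at h1
    exact fun e => h1.1 (by rw [e]; simp)
  rw [uops_t hik]
  exact pres_add (pres_EE L D i k) (pres_smul _ (pres_ax_ct hn))

theorem pres_ax_glue {L D : List ι} {i k : ι} (hn : (L ++ i :: k :: D).Nodup) :
    Pres (AX (L ++ i :: k :: D)) (AX (L ++ D)) (fun F => uops.glue i k F) := by
  have hik : i ≠ k := by
    have h1 := (List.nodup_append.1 hn).2.1
    rw [List.nodup_cons] at h1
    exact fun e => h1.1 (by rw [e]; simp)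
  rw [uops_glue hik]
  exact pres_add (pres_EE L D i k) (pres_ax_ct hn)

/-- An arc is created on two new neighbouring lines. -/
theorem pres_ax_new {L D : List ι} {i k : ι} (hn : (L ++ i :: k :: D).Nodup) :
    Pres (AX (L ++ D)) (AX (L ++ i :: k :: D)) (fun F => opCu ℂ i k F) := by
  refine (pres_ax_cu hn).mono (fun p hp => ?_) fun _ h => h
  have h1 : (L ++ k :: D).Nodup := by
    refine List.Nodup.sublist ?_ hn
    exact List.Sublist.append_left (List.sublist_cons_self _ _) _
  have hk : k ∉ L ++ D := by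
    have h2 : (k :: (L ++ D)).Nodup := (List.Perm.nodup_iff List.perm_middle).1 h1
    exact (List.nodup_cons.1 h2).1
  have hi : i ∉ L ++ k :: D := by
    have h2 : (i :: (L ++ k :: D)).Nodup := (List.Perm.nodup_iff List.perm_middle).1 hn
    exact (List.nodup_cons.1 h2).1
  exact ax_insert hi (ax_insert hk hp)

/-- The projection to the states with two empty new lines. -/
theorem pres_EE_new {L D : List ι} {i k : ι} (hn : (L ++ i :: k :: D).Nodup) :
    Pres (AX (L ++ D)) (AX (L ++ i :: k :: D)) (fun F => (uops.E i * uops.E k) F) := by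
  have h1 : (L ++ k :: D).Nodup := by
    refine List.Nodup.sublist ?_ hn
    exact List.Sublist.append_left (List.sublist_cons_self _ _) _
  have hk : k ∉ L ++ D := by
    have h2 : (k :: (L ++ D)).Nodup := (List.Perm.nodup_iff List.perm_middle).1 h1
    exact (List.nodup_cons.1 h2).1
  have hi : i ∉ L ++ k :: D := by
    have h2 : (i :: (L ++ k :: D)).Nodup := (List.Perm.nodup_iff List.perm_middle).1 hn
    exact (List.nodup_cons.1 h2).1
  intro F G h p hp
  have h1 : AX (L ++ i :: k :: D) p := ax_insert hi (ax_insert hk hp)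
  show uops.E i (uops.E k F) p = uops.E i (uops.E k G) p
  rw [uops_E_apply, uops_E_apply, uops_E_apply, uops_E_apply]
  simp only [emp]
  split_ifs
  · exact h p h1
  · rfl
  · rfl

theorem pres_ax_b {L D : List ι} {i k : ι} (hn : (L ++ i :: k :: D).Nodup) (v : ℂ) :
    Pres (AX (L ++ D)) (AX (L ++ i :: k :: D)) (fun F => uops.b i k v F) := by
  have hik : i ≠ k := by
    have h1 := (List.nodup_append.1 hn).2.1
    rw [List.nodup_cons] at h1
    exact fun e => h1.1 (by rw [e]; simp)
  rw [uops_b hik]
  exact pres_add (pres_EE_new hn) (pres_smul _ (pres_ax_new hn))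

theorem pres_ax_U {L D : List ι} {i k : ι} (hn : (L ++ i :: k :: D).Nodup) :
    Pres (AX (L ++ D)) (AX (L ++ i :: k :: D)) (fun F => uops.U i k F) := by
  have hik : i ≠ k := by
    have h1 := (List.nodup_append.1 hn).2.1
    rw [List.nodup_cons] at h1
    exact fun e => h1.1 (by rw [e]; simp)
  rw [uops_U hik]
  exact pres_add (pres_EE_new hn) (pres_ax_new hn)

theorem pres_ax_uM (z : ι → ℂ) (w : ℂ) {c : ι} (X : List ι) {L1 L2 : List ι}
    (hn : (L1 ++ c :: (X ++ L2)).Nodup) :
    Pres (AX (L1 ++ c :: (X ++ L2))) (AX (L1 ++ X ++ c :: L2)) (fun F => uops.M z c w X F) := by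
  have hc : c ∉ X := by
    have h1 := (List.nodup_append.1 hn).2.1
    rw [List.nodup_cons] at h1
    exact fun e => h1.1 (by simp [e])
  intro F G h p hp
  have := pres_ax_M (K := ℂ) (fun j => rwt (w - z j)) X hn F G h p hp
  rw [← uops_M_apply z w hc, ← uops_M_apply z w hc] at this
  exact this

/-- **The double column preserves the planar states.** -/
theorem pres_T (z : ι → ℂ) (v : ℂ) (hn : (i :: j :: X).Nodup) :
    Pres (AX X) (AX X) (fun F => uops.T z i j v X F) := by
  have hn' := hn
  rw [List.nodup_cons, List.nodup_cons, List.mem_cons, not_or] at hn'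
  have h1 : Pres (AX X) (AX (i :: j :: X)) (fun F => uops.b i j v F) :=
    pres_ax_b (L := []) (D := X) hn v
  have h2 : Pres (AX (i :: j :: X)) (AX (i :: (X ++ [j]))) (fun F => uops.M z j v X F) := by
    have := pres_ax_uM z v (c := j) X (L1 := [i]) (L2 := []) (by simpa using hn)
    simpa using this
  have h3 : Pres (AX (i :: (X ++ [j]))) (AX (X ++ i :: [j]))
      (fun F => uops.M z i ((uops (ι := ι)).h + (uops (ι := ι)).h - v) X F) := by
    have := pres_ax_uM z ((uops (ι := ι)).h + (uops (ι := ι)).h - v) (c := i) X (L1 := []) (L2 := [j])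
      (by
        have : (i :: (X ++ [j])).Perm (i :: j :: X) := List.Perm.cons _ (List.perm_append_singleton _ _)
        simpa using (this.nodup_iff).2 hn)
    simpa using this
  have h4 : Pres (AX (X ++ i :: [j])) (AX X) (fun F => uops.t i j v F) := by
    have := pres_ax_t (L := X) (D := []) (i := i) (k := j)
      (by
        have : (X ++ i :: [j]).Perm (i :: j :: X) := by
          have e : X ++ i :: [j] = X ++ [i, j] := rfl
          rw [e]
          exact List.perm_append_comm
        exact (this.nodup_iff).2 hn) v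
    simpa using this
  unfold EXL.Glob.Ops.T
  exact pres_mul (pres_mul (pres_mul h1 h2) h3) h4

/-- **Rotation of the list**: the lowest line becomes the highest one. -/
theorem ax_rotate {L : List ι} {p : Pat ι} (hn : (i :: L).Nodup) (h : AX (i :: L) p) :
    AX (L ++ [i]) p := by
  rw [List.nodup_cons] at hn
  obtain ⟨hiL, hnL⟩ := hn
  have hinj : ∀ x ∈ L, ∀ y ∈ L, L.idxOf x = L.idxOf y → x = y := fun x hx y _ e => (List.idxOf_inj hx).1 e
  have hout : ∀ x, x ∉ L → x ≠ i → p x = x := fun x hx hxi => ax_out h (by simp [hxi, hx])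
  have r1 : ∀ x, x ≠ i → (i :: L).idxOf x = L.idxOf x + 1 := fun x hx => idx_cons_ne hx L
  have r0 : (i :: L).idxOf i = 0 := idx_cons_self i L
  have s1 : ∀ x ∈ L, (L ++ [i]).idxOf x = L.idxOf x := fun x hx => idx_left hx _
  have s0 : (L ++ [i]).idxOf i = L.length := by rw [idx_right hiL, idx_cons_self, Nat.add_zero]
  have s2 : ∀ x, x ∉ L → x ≠ i → (L ++ [i]).idxOf x = L.length + 1 := by
    intro x hx hxi
    rw [idx_right hx, idx_cons_ne hxi]
    simp
  have lt : ∀ x ∈ L, L.idxOf x < L.length := fun x hx => List.idxOf_lt_length_of_mem hx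
  have nc := h.nc
  have ncr : ∀ a b, (i :: L).idxOf a < (i :: L).idxOf b → (i :: L).idxOf b < (i :: L).idxOf (p a) →
      (i :: L).idxOf a < (i :: L).idxOf (p b) ∧ (i :: L).idxOf (p b) < (i :: L).idxOf (p a) := by
    intro a b h1 h2
    have := nc a b (by simpa only [Nat.cast_lt] using h1) (by simpa only [Nat.cast_lt] using h2)
    simpa only [Nat.cast_lt] using this
  refine ⟨fun x hx => h.out x fun h' => hx ?_, ?_⟩
  · have h'' : x ∈ i :: L := h'
    show x ∈ L ++ [i]
    rw [List.mem_cons] at h''
    rcases h'' with rfl | h''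
    · simp
    · simp [h'']
  intro a b hab hba
  have hab' : (L ++ [i]).idxOf a < (L ++ [i]).idxOf b := by simpa only [Nat.cast_lt] using hab
  have hba' : (L ++ [i]).idxOf b < (L ++ [i]).idxOf (p a) := by simpa only [Nat.cast_lt] using hba
  suffices hs : (L ++ [i]).idxOf a < (L ++ [i]).idxOf (p b) ∧
      (L ++ [i]).idxOf (p b) < (L ++ [i]).idxOf (p a) from
    by simpa only [Nat.cast_lt] using hs
  have inv : ∀ x, p (p x) = x := p.inv
  -- `a` and `b` are in `L`
  have haL : a ∈ L := by
    by_contra ha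
    by_cases hai : a = i
    · subst hai
      rw [s0] at hab'
      by_cases hb : b ∈ L
      · rw [s1 b hb] at hab'
        have := lt b hb
        omega
      · by_cases hbi : b = a
        · subst hbi
          rw [s0] at hab'
          omega
        · rw [s2 b hb hbi] at hba'
          by_cases hpa : p a ∈ L
          · rw [s1 _ hpa] at hba'
            have := lt _ hpa
            omega
          · by_cases hpi : p a = a
            · rw [hpi, s0] at hba'
              omega
            · rw [s2 _ hpa hpi] at hba'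
              omega
    · have e := hout a ha hai
      rw [e] at hba'
      omega
  have hpa : p a ∈ L ∨ p a = i := by
    by_contra hc
    push Not at hc
    have e := hout _ hc.1 hc.2
    rw [inv] at e
    exact hc.1 (e ▸ haL)
  have hbL : b ∈ L := by
    by_contra hb
    have hb' : L.length ≤ (L ++ [i]).idxOf b := by
      by_cases hbi : b = i
      · subst hbi
        rw [s0]
      · rw [s2 b hb hbi]
        omega
    rcases hpa with hpa | hpa
    · rw [s1 _ hpa] at hba'
      have := lt _ hpa
      omega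
    · rw [hpa, s0] at hba'
      omega
  have hai : a ≠ i := fun e => hiL (e ▸ haL)
  have hbi : b ≠ i := fun e => hiL (e ▸ hbL)
  have hpb : p b ∈ L ∨ p b = i := by
    by_contra hc
    push Not at hc
    have e := hout _ hc.1 hc.2
    rw [inv] at e
    exact hc.1 (e ▸ hbL)
  rw [s1 a haL, s1 b hbL] at hab'
  rw [s1 b hbL] at hba'
  rcases hpa with hpa | hpa
  · rw [s1 _ hpa] at hba' ⊢
    have hpai : p a ≠ i := fun e => hiL (e ▸ hpa)
    have h1 := ncr a b (by rw [r1 a hai, r1 b hbi]; omega) (by rw [r1 b hbi, r1 _ hpai]; omega)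
    rcases hpb with hpb | hpb
    · have hpbi : p b ≠ i := fun e => hiL (e ▸ hpb)
      rw [r1 a hai, r1 _ hpbi, r1 _ hpai] at h1
      rw [s1 a haL, s1 _ hpb]
      omega
    · rw [hpb, r0] at h1
      omega
  · rw [hpa, s0] at hba' ⊢
    rcases hpb with hpb | hpb
    · have hpbi : p b ≠ i := fun e => hiL (e ▸ hpb)
      rw [s1 a haL, s1 _ hpb]
      refine ⟨?_, lt _ hpb⟩
      by_contra hc
      have hne : p b ≠ a := by
        intro e
        have : b = p a := by rw [← e, inv]
        rw [hpa] at this
        exact hbi this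
      have hlt : L.idxOf (p b) < L.idxOf a := by
        rcases lt_or_eq_of_le (not_lt.1 hc) with h1 | h1
        · exact h1
        · exact absurd (hinj _ hpb _ haL h1) hne
      have hpi : p i = a := by rw [← hpa, inv]
      have h1 := ncr i (p b) (by rw [r0, r1 _ hpbi]; omega) (by rw [hpi, r1 _ hpbi, r1 a hai]; omega)
      rw [inv, r0, hpi, r1 b hbi, r1 a hai] at h1
      omega
    · exfalso
      have : b = a := by
        have e1 : b = p i := by rw [← hpb, inv]
        have e2 : a = p i := by rw [← hpa, inv]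
        rw [e1, e2]
      rw [this] at hab'
      omega

/-- Rotation of the list, backwards. -/
theorem ax_rotate' {L : List ι} {p : Pat ι} (hn : (i :: L).Nodup) (h : AX (L ++ [i]) p) :
    AX (i :: L) p := by
  have hn1 : (L ++ [i]).Nodup := ((List.perm_append_singleton i L).nodup_iff).2 hn
  have h1 : AX (i :: L.reverse) p := by
    have := (ax_reverse hn1 p).2 h
    simpa using this
  have hn' : (i :: L.reverse).Nodup := by
    rw [List.nodup_cons] at hn ⊢
    exact ⟨by simpa using hn.1, List.nodup_reverse.2 hn.2⟩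
  have h2 := ax_rotate hn' h1
  have h3 : AX (i :: L).reverse p := by simpa using h2
  exact (ax_reverse hn p).1 h3

/-- **The ring preserves the planar states.** -/
theorem pres_Ring (z : ι → ℂ) (w : ℂ) (hn : (i :: j :: X).Nodup) :
    Pres (AX X) (AX X) (fun F => Ring z i j w X F) := by
  have h1 : Pres (AX X) (AX (i :: j :: X)) (fun F => uops.U i j F) :=
    pres_ax_U (L := []) (D := X) hn
  have h2 : Pres (AX (i :: j :: X)) (AX (i :: (X ++ [j]))) (fun F => uops.M z j w X F) := by
    have := pres_ax_uM z w (c := j) X (L1 := [i]) (L2 := []) (by simpa using hn)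
    simpa using this
  have hn2 : (i :: (X ++ [j])).Nodup := by
    have : (i :: (X ++ [j])).Perm (i :: j :: X) := List.Perm.cons _ (List.perm_append_singleton _ _)
    exact (this.nodup_iff).2 hn
  have hn3 : (X ++ j :: [i]).Nodup := by
    have : (X ++ j :: [i]).Perm (i :: j :: X) := by
      have e : X ++ j :: [i] = X ++ [j, i] := rfl
      rw [e]
      exact List.perm_append_comm.trans (List.Perm.swap _ _ _)
    exact (this.nodup_iff).2 hn
  have h3 : Pres (AX (i :: (X ++ [j]))) (AX X) (fun F => uops.glue i j F) := by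
    have h := pres_ax_glue (L := X) (D := []) (i := j) (k := i) hn3
    rw [ulaws.gs (i := i) (j := j)]
    have h' : Pres (AX (X ++ j :: [i])) (AX X) (fun F => uops.glue j i F) := by simpa using h
    refine h'.mono (fun p hp => ?_) fun _ hp => hp
    have := ax_rotate hn2 hp
    simpa using this
  unfold Ring
  exact pres_mul (pres_mul h1 h2) h3

/-! ### The value at the empty state -/

theorem ct_ind : opCt ℂ i j (HS.ind (Pat.empty : Pat ι) : Pat ι → ℂ) = 0 := by
  funext p
  rw [opCt_apply, Pi.zero_apply]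
  split_ifs with hc
  · rw [ind_ne]
    intro e
    have inv : ∀ x, p (p x) = x := p.inv
    have e4 : cut i j p (p i) = p j := by
      rw [EXL.cut_apply hc]
      have n1 : p i ≠ i := hc.2.1
      simp [n1, hc.2.2.2]
    rw [e] at e4
    have e5 : p i = p j := e4
    exact hc.1 (by rw [← inv i, e5, inv])
  · rfl

theorem EE_ind : (uops.E i * uops.E j) (HS.ind (Pat.empty : Pat ι) : Pat ι → ℂ) = HS.ind Pat.empty := by
  rw [Module.End.mul_apply, E_ind, E_ind]

theorem b_ind (h : i ≠ j) (v : ℂ) :
    uops.b i j v (HS.ind (Pat.empty : Pat ι) : Pat ι → ℂ) = HS.ind Pat.empty := by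
  rw [uops_b h, LinearMap.add_apply, LinearMap.smul_apply, EE_ind, cu_ind h, smul_zero, add_zero]

theorem t_ind (h : i ≠ j) (v : ℂ) :
    uops.t i j v (HS.ind (Pat.empty : Pat ι) : Pat ι → ℂ) = HS.ind Pat.empty := by
  rw [uops_t h, LinearMap.add_apply, LinearMap.smul_apply, EE_ind, ct_ind, smul_zero, add_zero]

theorem U_ind (h : i ≠ j) :
    uops.U i j (HS.ind (Pat.empty : Pat ι) : Pat ι → ℂ) = HS.ind Pat.empty := by
  rw [uops_U h, LinearMap.add_apply, EE_ind, cu_ind h, add_zero]

theorem glue_indT (h : i ≠ j) :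
    uops.glue i j (HS.ind (Pat.empty : Pat ι) : Pat ι → ℂ) = HS.ind Pat.empty := by
  rw [uops_glue h, LinearMap.add_apply, EE_ind, ct_ind, add_zero]

theorem T_ind (z : ι → ℂ) (v : ℂ) (hn : (i :: j :: X).Nodup) :
    uops.T z i j v X (HS.ind (Pat.empty : Pat ι) : Pat ι → ℂ) = HS.ind Pat.empty := by
  rw [List.nodup_cons, List.nodup_cons, List.mem_cons, not_or] at hn
  unfold EXL.Glob.Ops.T
  rw [Module.End.mul_apply, Module.End.mul_apply, Module.End.mul_apply, t_ind hn.1.1, opM_ind hn.1.2,
    opM_ind hn.2.1, b_ind hn.1.1]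

theorem Ring_ind (z : ι → ℂ) (w : ℂ) (hn : (i :: j :: X).Nodup) :
    Ring z i j w X (HS.ind (Pat.empty : Pat ι) : Pat ι → ℂ) = HS.ind Pat.empty := by
  rw [List.nodup_cons, List.nodup_cons, List.mem_cons, not_or] at hn
  unfold Ring
  rw [Module.End.mul_apply, Module.End.mul_apply, glue_indT hn.1.1, opM_ind hn.2.1, U_ind hn.1.1]

/-! ### The double column fixes the functional -/

variable {c : ι}

/-- **The double column fixes the functional.** -/
theorem VV_T [Finite ι] (hn : (i :: j :: X).Nodup) (hc : c ∉ i :: j :: X)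
    (k1 : okR (v - 3 * Real.pi / 16)) (k2 : okR (3 * Real.pi / 16 - v)) (k3 : okC v)
    (k4 : okC (3 * Real.pi / 8 - v)) (h1 : ∀ r ∈ X, okR (v - z r))
    (h2 : ∀ r ∈ X, okR (3 * Real.pi / 8 - v - z r)) (h3 : ∀ r ∈ X, okR (3 * Real.pi / 16 - z r))
    (hR : Reg z X) : VV z X ∘ₗ uops.T z i j v X = VV z X := by
  have hn' := hn
  rw [List.nodup_cons, List.nodup_cons, List.mem_cons, not_or] at hn'
  rw [List.mem_cons, List.mem_cons, not_or, not_or] at hc
  have e : (uops (ι := ι)).h + (uops (ι := ι)).h = 3 * Real.pi / 8 := by rw [uops_h]; ring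
  have comm := (ulaws (ι := ι)).comm (z := z) (i := i) (j := j) (c := c) (v := v) (rows := X) hn'.1.1
    (Ne.symm hc.1) (Ne.symm hc.2.1) hn'.1.2 hn'.2.1 hc.2.2 hn'.2.2 k1 k2 k3 (by rw [e]; exact k4) h1
    (fun r hr => by rw [e]; exact h2 r hr) h3
  rw [← T0_eq_C] at comm
  refine IsV.eq_VV hn'.2.2 hc.2.2 hR ?_
  refine (isV_VV hn'.2.2 hc.2.2 hR).comp hn'.2.2 (fun _ h => h) (pres_T z v hn) hc.2.2 comm ?_
  intro p _
  rw [T_ind z v hn]

end Pool.Agent.NUF
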