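import Pool.Agent.NUF.FIN

/-!
# The mean squared displacement from the disc function at equal points
-/

set_option autoImplicit false
open scoped Classical

namespace Pool.Agent.NUF

open HexObs

/-- The lower bound of the size from the mean length of the bridges. -/
theorem size_lower_of {a : ℝ} (ha1 : 1 ≤ a) (ha2 : a < 4)
    (hM : ∀ a' : ℝ, a < a' → ∃ C : ℝ, 0 ≤ C ∧ T2.MeanLen a' C) (p : ℝ) (hp : p * a < 2) :
    ∃ c : ℝ, 0 < c ∧ ∀ f : ℕ → Fin 3 → ℂ,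
      (∀ i a, f i a = (-1 : ℂ) ^ i * Complex.exp (2 * (Real.pi : ℂ) * Complex.I * ((a : ℕ) : ℂ) / 3)) →
      ∀ n : ℕ, 1 ≤ n → ∀ W : Finset (Fin n → Fin 3),
        W = Finset.univ.filter (fun s : Fin n → Fin 3 => ∀ j₁ j₂ : Fin (n + 1),
          (∑ i ∈ Finset.univ.filter (fun i : Fin n => (i : ℕ) < (j₁ : ℕ)), f (i : ℕ) (s i)) =
          (∑ i ∈ Finset.univ.filter (fun i : Fin n => (i : ℕ) < (j₂ : ℕ)), f (i : ℕ) (s i)) →
          j₁ = j₂) →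
        c * (n : ℝ) ^ p ≤ (∑ s ∈ W, ‖∑ i : Fin n, f (i : ℕ) (s i)‖ ^ 2) / (W.card : ℝ) ∧
        ((W.filter (fun s => ∀ j : Fin (n + 1),
          ‖∑ i ∈ Finset.univ.filter (fun i : Fin n => (i : ℕ) < (j : ℕ)), f (i : ℕ) (s i)‖ ≤
            c * (n : ℝ) ^ (p / 2))).card : ℝ) ≤ c⁻¹ * Real.exp (-(n : ℝ) ^ c) * (W.card : ℝ) := by
  obtain ⟨p', hp'⟩ : ∃ p' : ℝ, p' = max p (1 / 2) := ⟨_, rfl⟩
  have hpp : p ≤ p' := by rw [hp']; exact le_max_left _ _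
  have hp1 : 1 / 2 ≤ p' := by rw [hp']; exact le_max_right _ _
  have hp0 : 0 < p' := by linarith
  have hpa : p' * a < 2 := by
    rw [hp']
    rcases le_total p (1 / 2) with h | h
    · rw [max_eq_right h]
      linarith
    · rw [max_eq_left h]
      exact hp
  have hp2 : p' < 2 := by nlinarith
  obtain ⟨a', ha'⟩ : ∃ a' : ℝ, a' = (a + 2 / p') / 2 := ⟨_, rfl⟩
  have haa : a < 2 / p' := by
    rw [lt_div_iff₀ hp0]
    linarith
  have ha3 : a < a' := by rw [ha']; linarith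
  have ha4 : p' * a' < 2 := by
    have h1 : a' < 2 / p' := by rw [ha']; linarith
    rw [lt_div_iff₀ hp0] at h1
    linarith
  obtain ⟨C, hC, hMC⟩ := hM a' ha3
  obtain ⟨hS1, hB1⟩ := T2.all_n (by linarith) hC hMC hp0 ha4
  obtain ⟨c, hc, h1⟩ := T2.result_p hp0 hp2 hS1 hB1
  refine ⟨c, hc, fun f hf n hn W hW => ?_⟩
  obtain ⟨h1a, h1b⟩ := h1 f hf n hn W hW
  have hnR : (1 : ℝ) ≤ n := by exact_mod_cast hn
  refine ⟨le_trans ?_ h1a, le_trans ?_ h1b⟩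
  · exact mul_le_mul_of_nonneg_left (Real.rpow_le_rpow_of_exponent_le hnR hpp) hc.le
  · refine Nat.cast_le.2 (Finset.card_le_card fun s hs => ?_)
    rw [Finset.mem_filter] at hs ⊢
    refine ⟨hs.1, fun j => (hs.2 j).trans ?_⟩
    exact mul_le_mul_of_nonneg_left (Real.rpow_le_rpow_of_exponent_le hnR (by linarith)) hc.le

/-- **Everything that is left**: the asymptotic upper bound of the partition function of the sphere lattice gives the
lower bound of the size with every exponent below 3 / 2. -/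
theorem size_lower_of_ZZ
    (h : ∀ ε : ℝ, 0 < ε → ∃ C : ℝ, ∀ m : ℕ, 1 ≤ m → ‖ZZ 2 m‖ ≤ C * (m : ℝ) ^ (1 / 6 + ε))
    (p : ℝ) (hp : p < 3 / 2) :
    ∃ c : ℝ, 0 < c ∧ ∀ f : ℕ → Fin 3 → ℂ,
      (∀ i a, f i a = (-1 : ℂ) ^ i * Complex.exp (2 * (Real.pi : ℂ) * Complex.I * ((a : ℕ) : ℂ) / 3)) →
      ∀ n : ℕ, 1 ≤ n → ∀ W : Finset (Fin n → Fin 3),
        W = Finset.univ.filter (fun s : Fin n → Fin 3 => ∀ j₁ j₂ : Fin (n + 1),
          (∑ i ∈ Finset.univ.filter (fun i : Fin n => (i : ℕ) < (j₁ : ℕ)), f (i : ℕ) (s i)) =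
          (∑ i ∈ Finset.univ.filter (fun i : Fin n => (i : ℕ) < (j₂ : ℕ)), f (i : ℕ) (s i)) →
          j₁ = j₂) →
        c * (n : ℝ) ^ p ≤ (∑ s ∈ W, ‖∑ i : Fin n, f (i : ℕ) (s i)‖ ^ 2) / (W.card : ℝ) ∧
        ((W.filter (fun s => ∀ j : Fin (n + 1),
          ‖∑ i ∈ Finset.univ.filter (fun i : Fin n => (i : ℕ) < (j : ℕ)), f (i : ℕ) (s i)‖ ≤
            c * (n : ℝ) ^ (p / 2))).card : ℝ) ≤ c⁻¹ * Real.exp (-(n : ℝ) ^ c) * (W.card : ℝ) :=
  size_lower_of (a := 4 / 3) (by norm_num) (by norm_num) (fun _ ha => meanLen_of_ZZ h ha) p (by linarith)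

end Pool.Agent.NUF
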