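import Pool.Agent.NUF.ScalP

/-!
# NUF/ScalF (helper15): trivial line, crossing and fusion of the scalars
-/

set_option autoImplicit false

namespace Pool.Agent.NUF.Fr

open Complex Finset EXL.Fm Filter Topology

/-! ### Trigonometry -/

theorem sum_cos (a b : ℂ) : cos (a + b) + cos (a - b) = 2 * (cos a * cos b) := by
  rw [Complex.cos_add, Complex.cos_sub]
  ring

theorem cos_sum (x y a b : ℂ) (h1 : x = a + b) (h2 : y = a - b) : cos x + cos y = 2 * (cos a * cos b) := by
  rw [h1, h2, sum_cos]

/-- `cos l` -/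
noncomputable def c1 : ℂ := cos lam

theorem c1_eq : c1 = s3 := by
  unfold c1 s3 lam
  rw [← Complex.cos_pi_div_two_sub]
  congr 1
  ring

theorem two_Dn (u : ℂ) : 2 * Dn u = cf u + c1 := by
  unfold Dn cf c1
  have h := two_sin_sin (2 * lam + u) (3 * lam + u)
  have e1 : cos (2 * lam + u - (3 * lam + u)) = cos lam := by rw [← Complex.cos_neg]; congr 1; ring
  have e2 : cos (2 * lam + u + (3 * lam + u)) = - cos (2 * u - 3 * lam) := by
    rw [← Complex.cos_neg (2 * u - 3 * lam)]
    exact cos_eq_neg _ _ (by ring)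
  rw [e1, e2] at h
  linear_combination h

/-- `cos (2v - l)`, `cos (2v + l)` -/
noncomputable def ca (v : ℂ) : ℂ := cos (2 * v - lam)
noncomputable def cb (v : ℂ) : ℂ := cos (2 * v + lam)

/-- the factor of one line in the crossing value -/
noncomputable def ph (v c : ℂ) : ℂ := (c + ca v) * (c + cb v)

theorem ph_cf (q k : ℂ) : ph q (cf k) = 4 * (Dn (-(q - k)) * Dn (q + k)) := by
  unfold ph ca cb cf
  rw [cos_sum (2 * k - 3 * lam) (2 * q - lam) (k + q - 2 * lam) (k - q - lam) (by ring) (by ring),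
    cos_sum (2 * k - 3 * lam) (2 * q + lam) (k + q - lam) (k - q - 2 * lam) (by ring) (by ring)]
  have s1 : ∀ x : ℂ, cos x = sin (x + 4 * lam) := by
    intro x
    rw [show x + 4 * lam = x + (Real.pi : ℂ) / 2 by unfold lam; ring, Complex.sin_add_pi_div_two]
  rw [s1 (k + q - 2 * lam), s1 (k - q - lam), s1 (k + q - lam), s1 (k - q - 2 * lam), Dn_eq, Dn_eq]
  unfold fb fe
  rw [show k + q - 2 * lam + 4 * lam = 2 * lam + (q + k) by ring,
    show k - q - lam + 4 * lam = 3 * lam + -(q - k) by ring,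
    show k + q - lam + 4 * lam = 3 * lam + (q + k) by ring,
    show k - q - 2 * lam + 4 * lam = 2 * lam + -(q - k) by ring]
  ring

/-- the factor of the crossing pair itself -/
theorem f0_eq (q : ℂ) : 4 * c3 * fa' q * fe q = cp q + cf q + (c1 - c3) := by
  rw [c1_eq, c3_eq, fa'_e, fe_e]
  unfold cp cf
  rw [Complex.cos_add, Complex.cos_sub, Complex.sin_two_mul, Complex.cos_two_mul]
  have h3 : cos (3 * lam) = (2 * s2 - 1) * s3 := by rw [← c3_eq]; rfl
  have h4 : sin (3 * lam) = s3 := rfl
  rw [h3, h4]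
  have hr := s3_sq
  have hq : s2 ^ 2 = 1 / 2 := by linear_combination (1 / 2) * s2_sq
  have hx : sin q ^ 2 = 1 - cos q ^ 2 := by linear_combination Complex.sin_sq_add_cos_sq q
  linear_combination ((-32) * sin q ^ 2 * s2 ^ 3 * s3 + 48 * sin q ^ 2 * s2 ^ 2 * s3 +
    (-24) * sin q ^ 2 * s2 * s3 + 4 * sin q ^ 2 * s3 + 8 * cos q ^ 2 * s2 * s3 +
    (-4) * cos q ^ 2 * s3) * hr + ((-16) * sin q ^ 2 * s2 ^ 2 * s3 + 8 * sin q ^ 2 * s2 * s3 +
    4 * sin q ^ 2 * s3 + 4 * cos q ^ 2 * s3) * hq + ((-6) * s2 * s3 + 4 * s3) * hx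

theorem cf_0 : cf 0 = c3 := by
  unfold cf c3
  rw [← Complex.cos_neg]
  congr 1
  ring

theorem lprod_toFinset {M : Type*} [CommMonoid M] {L : List ℂ} (hn : L.Nodup) (f : ℂ → M) :
    (L.map f).prod = ∏ a ∈ L.toFinset, f a := (List.prod_toFinset f hn).symm

/-! ### The trivial line -/

theorem Qs_R {ι : Type*} [DecidableEq ι] {z : ι → ℂ} {X : Finset ι} (h : ∀ i ∈ X, z i ∈ nb) :
    sg z X * Qs z X = ∑ i ∈ X, wt z i (X.erase i) / fa (z i) * Qs z (X.erase i) := by
  rcases X.eq_empty_or_nonempty with rfl | hX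
  · rw [sg_empty]
    simp
  · rw [Qs_eq, if_neg (Finset.nonempty_iff_ne_empty.mp hX), ← mul_assoc,
      mul_inv_cancel₀ (nb_GS.sg hX h), one_mul]

theorem qc_triv_nb {L : List ℂ} (hn : L.Nodup) (hL : ∀ a ∈ L, a ∈ nb) :
    qc (c3 :: L.map cf) = (L.map (fun u => cf u + c1)).prod * qc (L.map cf) := by
  rw [← cf_0, qc_far hn hL, qc_nb hn hL, lprod_toFinset hn]
  set X := L.toFinset with hX
  have hz : ∀ i ∈ X, id i ∈ nb := fun i hi => hL i (by rwa [hX, List.mem_toFinset] at hi)
  have hR := Qs_R (z := id) hz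
  have e1 : ∑ j ∈ X, wt id j (X.erase j) * fe (id j) * Dl id 0 (X.erase j) * Qs id (X.erase j) =
      (1 / 2) * Dl id 0 X * ∑ j ∈ X, wt id j (X.erase j) / fa (id j) * Qs id (X.erase j) := by
    rw [Finset.mul_sum]
    apply Finset.sum_congr rfl
    intro j hj
    rw [Dl_erase id 0 hj, dl_0]
    have := nb_GS.a _ (hz j hj)
    field_simp
  have e2 : ∏ a ∈ X, (cf a + c1) = Dl id 0 X * Pe id X := by
    unfold Dl Pe
    rw [← Finset.prod_mul_distrib]
    apply Finset.prod_congr rfl
    intro a ha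
    have h1 := nb_GS.a _ (hz a ha)
    rw [← two_Dn, Dn_eq, dl_0]
    field_simp
    exact mul_comm _ _
  rw [Nf_expand, e1, ← hR, e2]
  unfold sg
  ring

theorem map_cf_zf {A : List ℂ} (hA : ∀ a ∈ A, a ∈ UC) : (A.map zf).map cf = A := by
  rw [List.map_map]
  conv_rhs => rw [← List.map_id A]
  apply List.map_congr_left
  intro a ha
  exact cf_zf (hA a ha)

theorem nodup_map_zf {A : List ℂ} (hA : ∀ a ∈ A, a ∈ UC) (hn : A.Nodup) : (A.map zf).Nodup :=
  hn.map_on (fun x hx y hy h => zf_injOn (hA x hx) (hA y hy) h)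

theorem mem_map_zf {A : List ℂ} (hA : ∀ a ∈ A, a ∈ UC) : ∀ a ∈ A.map zf, a ∈ nb := by
  intro a ha
  obtain ⟨b, hb, rfl⟩ := List.mem_map.1 ha
  exact nb1_sub (zf_mem (hA b hb))

theorem PF_aff (n : ℕ) (a : ℂ) : NUMv.PF n (fun L => (L.map (fun c => c + a)).prod) :=
  (NUMv.PF.prod n (Polynomial.X + Polynomial.C a)).congr (fun L _ => by simp)

theorem PF_ph (n : ℕ) (v : ℂ) : NUMv.PF n (fun L => (L.map (ph v)).prod) :=
  (NUMv.PF.prod n ((Polynomial.X + Polynomial.C (ca v)) * (Polynomial.X + Polynomial.C (cb v)))).congr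
    (fun L _ => by
      refine congrArg List.prod (List.map_congr_left (fun c _ => ?_))
      rw [Polynomial.eval_mul]
      simp [ph])

/-- **The trivial line.** -/
theorem qc_triv (L : List ℂ) : qc (c3 :: L) = (L.map (fun c => c + c1)).prod * qc L := by
  refine NUMv.PF.ext UC_inf (n := L.length) ((qc_PF (L.length + 1)).cons c3)
    ((PF_aff L.length c1).mul (qc_PF L.length)) (fun A _ hA hn => ?_) L rfl
  have h := qc_triv_nb (nodup_map_zf hA hn) (mem_map_zf hA)
  rw [map_cf_zf hA] at h
  rw [h]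
  congr 2
  have h2 := map_cf_zf hA
  calc (A.map zf).map (fun u => cf u + c1) = ((A.map zf).map cf).map (fun c => c + c1) := by
        rw [List.map_map, List.map_map, List.map_map]; rfl
    _ = A.map (fun c => c + c1) := by rw [h2]

/-! ### Crossing -/

theorem cf_3 (q : ℂ) : cf (q + 3 * lam) = cp q := by
  unfold cf cp
  congr 1
  ring

theorem qc_cross_nb {q : ℂ} {L : List ℂ} (hn : (q :: L).Nodup) (hL : ∀ a ∈ q :: L, a ∈ nb) :
    qc (cp q :: cf q :: L.map cf) =
      (cp q + cf q + (c1 - c3)) * (L.map (fun u => ph q (cf u))).prod * qc (L.map cf) := by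
  have hn2 := List.nodup_cons.1 hn
  have hq : q ∉ L.toFinset := by rw [List.mem_toFinset]; exact hn2.1
  have hL2 : ∀ a ∈ L, a ∈ nb := fun a ha => hL a (List.mem_cons_of_mem _ ha)
  have h0 : dl (q + 3 * lam) (id q) = 0 := dl_3s q
  rw [← cf_3, ← List.map_cons, qc_far hn hL, List.toFinset_cons, Nf_node (z := id) hq h0,
    qc_nb hn2.2 hL2, lprod_toFinset hn2.2, cf_3, ← f0_eq]
  unfold wt Dl
  have e : ∏ a ∈ L.toFinset, ph q (cf a) = (∏ k ∈ L.toFinset, pr (id k) (id q)) *
      ∏ k ∈ L.toFinset, dl (q + 3 * lam) (id k) := by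
    rw [← Finset.prod_mul_distrib]
    apply Finset.prod_congr rfl
    intro k hk
    have hk' : k ∈ L := by rwa [List.mem_toFinset] at hk
    have hqk : q ≠ k := fun e => hq (e ▸ hk)
    have h1 := nb_GS.s q (hL q List.mem_cons_self) k (hL2 k hk') hqk
    simp only [id]
    rw [ph_cf, pr_r, dl_3, Dn_eq (q + k)]
    field_simp
    ring
  rw [e]
  simp only [id]
  ring

/-- **Crossing.** -/
theorem qc_cross {q : ℂ} (hq : q ∈ nb) (L : List ℂ) : qc (cp q :: cf q :: L) =
    (cp q + cf q + (c1 - c3)) * (L.map (ph q)).prod * qc L := by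
  have hU : (UC \ {cf q}).Infinite := UC_inf.sdiff (Set.finite_singleton _)
  refine NUMv.PF.ext hU (n := L.length) (((qc_PF (L.length + 2)).cons (cp q)).cons (cf q))
    (((NUMv.PF.const _ _).mul (PF_ph L.length q)).mul (qc_PF L.length)) (fun A _ hA hn => ?_) L rfl
  have hA' : ∀ a ∈ A, a ∈ UC := fun a ha => (hA a ha).1
  have hqA : q ∉ A.map zf := by
    intro h
    obtain ⟨b, hb, h2⟩ := List.mem_map.1 h
    apply (hA b hb).2
    rw [Set.mem_singleton_iff, ← h2, cf_zf (hA' b hb)]
  have h := qc_cross_nb (q := q) (List.nodup_cons.2 ⟨hqA, nodup_map_zf hA' hn⟩)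
    (fun a ha => by
      rcases List.mem_cons.1 ha with rfl | ha
      · exact hq
      · exact mem_map_zf hA' a ha)
  rw [map_cf_zf hA'] at h
  rw [h]
  congr 3
  calc (A.map zf).map (fun u => ph q (cf u)) = ((A.map zf).map cf).map (ph q) := by
        rw [List.map_map, List.map_map, List.map_map]; rfl
    _ = A.map (ph q) := by rw [map_cf_zf hA']

/-! ### One and two lines -/

theorem qc_one (a : ℂ) : qc [a] = 1 := by
  have h1 := qP_natDegree []
  have h2 := qP_coeff []
  rw [List.length_nil] at h1 h2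
  rw [qP_eval, Polynomial.eq_C_of_natDegree_le_zero h1, Polynomial.eval_C, h2, qc_nil]

theorem qc_two (a b : ℂ) : qc [a, b] = a + b + (c1 - c3) := by
  have h1 := qP_natDegree [b]
  have h2 := qP_coeff [b]
  rw [List.length_singleton] at h1 h2
  rw [qc_one] at h2
  have h3 := qc_triv [b]
  rw [qc_one, qP_eval] at h3
  have h4 := Polynomial.eq_X_add_C_of_natDegree_le_one h1
  rw [h2] at h4
  rw [h4] at h3
  rw [qP_eval, h4]
  simp only [Polynomial.eval_add, Polynomial.eval_mul, Polynomial.eval_C, Polynomial.eval_X,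
    List.map_cons, List.map_nil, List.prod_cons, List.prod_nil] at h3 ⊢
  linear_combination h3

/-! ### Fusion -/

theorem cp_sub (u v : ℂ) : cp u - cp v = - (2 * (fe (u + v) * sin (u - v))) := by
  unfold cp fe
  have h := two_sin_sin (3 * lam + (u + v)) (u - v)
  have e1 : cos (3 * lam + (u + v) - (u - v)) = cos (2 * v + 3 * lam) := by congr 1; ring
  have e2 : cos (3 * lam + (u + v) + (u - v)) = cos (2 * u + 3 * lam) := by congr 1; ring
  rw [e1, e2] at h
  linear_combination h

theorem cp_c3 (u : ℂ) : cp u - c3 = - (2 * (fe u * fa u)) := by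
  have h := cp_sub u 0
  have e : cp 0 = c3 := by unfold cp c3; congr 1; ring
  rw [e, add_zero, sub_zero] at h
  exact h

theorem cos_add_8 (x y : ℂ) (h : x = y + 8 * lam) : cos x + cos y = 0 := by
  rw [h, show y + 8 * lam = 8 * lam + y by ring, cos_8lam_add]
  ring

theorem fuse_k (q : ℂ) : 2 * s2 * (cf (q - lam) + c3) = cf q + cf (q - 2 * lam) + (c1 - c3) := by
  have h : cf q + cf (q - 2 * lam) = 2 * (cos (2 * q - 5 * lam) * cos (2 * lam)) := by
    unfold cf
    exact cos_sum _ _ _ _ (by ring) (by ring)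
  have h2 : cf (q - lam) = cos (2 * q - 5 * lam) := by unfold cf; congr 1; ring
  rw [cos2_eq] at h
  rw [h, h2, c1_eq, c3_eq]
  have hq : s2 ^ 2 = 1 / 2 := by linear_combination (1 / 2) * s2_sq
  linear_combination (4 * s3) * hq

theorem fuse_t (q : ℂ) : (cf q + c1) * (cf (q - 2 * lam) + c1) =
    (cf (q - lam) + c3) * (cf (q - lam) + c1) := by
  unfold cf c1 c3
  rw [cos_sum (2 * q - 3 * lam) lam (q - lam) (q - 2 * lam) (by ring) (by ring),
    cos_sum (2 * (q - 2 * lam) - 3 * lam) lam (q - 3 * lam) (q - 4 * lam) (by ring) (by ring),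
    cos_sum (2 * (q - lam) - 3 * lam) (3 * lam) (q - lam) (q - 4 * lam) (by ring) (by ring),
    cos_sum (2 * (q - lam) - 3 * lam) lam (q - 2 * lam) (q - 3 * lam) (by ring) (by ring)]
  ring

theorem fuse_p (q v : ℂ) : ph v (cf q) * ph v (cf (q - 2 * lam)) =
    (cf (q - lam) + cp v) * (cf (q - lam) + cf v) * ph v (cf (q - lam)) := by
  unfold ph ca cb cf cp
  rw [cos_sum (2 * q - 3 * lam) (2 * v - lam) (q + v - 2 * lam) (q - v - lam) (by ring) (by ring),
    cos_sum (2 * q - 3 * lam) (2 * v + lam) (q + v - lam) (q - v - 2 * lam) (by ring) (by ring),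
    cos_sum (2 * (q - 2 * lam) - 3 * lam) (2 * v - lam) (q + v - 4 * lam) (q - v - 3 * lam) (by ring) (by ring),
    cos_sum (2 * (q - 2 * lam) - 3 * lam) (2 * v + lam) (q + v - 3 * lam) (q - v - 4 * lam) (by ring) (by ring),
    cos_sum (2 * (q - lam) - 3 * lam) (2 * v + 3 * lam) (q + v - lam) (q - v - 4 * lam) (by ring) (by ring),
    cos_sum (2 * (q - lam) - 3 * lam) (2 * v - 3 * lam) (q + v - 4 * lam) (q - v - lam) (by ring) (by ring),
    cos_sum (2 * (q - lam) - 3 * lam) (2 * v - lam) (q + v - 3 * lam) (q - v - 2 * lam) (by ring) (by ring),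
    cos_sum (2 * (q - lam) - 3 * lam) (2 * v + lam) (q + v - 2 * lam) (q - v - 3 * lam) (by ring) (by ring)]
  ring

/-- fusion, near version, by induction on the number of the other lines -/
theorem fuse_near {q : ℂ} : ∀ (n : ℕ) (M : List ℂ), M.length = n → (q :: M).Nodup →
    (∀ a ∈ q :: M, a ∈ nb) → qc (cf q :: cf (q - 2 * lam) :: M.map cf) =
      2 * s2 * (cf (q - lam) + c3) * (M.map (fun u => cf (q - lam) + cf u)).prod *
        qc (cf (q - lam) :: M.map cf) := by
  intro n
  induction n using Nat.strong_induction_on with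
  | _ n ih =>
  intro M hM hn hnb
  rcases M with _ | ⟨k, M⟩
  · simp only [List.map_nil, List.prod_nil]
    rw [qc_two, qc_one, fuse_k]
    ring
  set g := cf (q - lam) with hg
  set K := 2 * s2 * (g + c3) with hK
  set Lc := M.map cf with hLc
  rw [List.length_cons] at hM
  have hn2 := List.nodup_cons.1 hn
  have hn3 := List.nodup_cons.1 hn2.2
  have hqM : (q :: M).Nodup := List.nodup_cons.2 ⟨fun h => hn2.1 (List.mem_cons_of_mem _ h), hn3.2⟩
  have hqnb : q ∈ nb := hnb q List.mem_cons_self
  have hMnb : ∀ a ∈ q :: M, a ∈ nb := by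
    intro a ha
    rcases List.mem_cons.1 ha with rfl | ha
    · exact hqnb
    · exact hnb a (List.mem_cons_of_mem _ (List.mem_cons_of_mem _ ha))
  have ihM := ih M.length (by omega) M rfl hqM hMnb
  rw [← hLc] at ihM
  have hlen : Lc.length = M.length := by rw [hLc, List.length_map]
  -- the two sides as polynomials in the value of the line k
  have hp1 : ∀ c, qc (cf q :: cf (q - 2 * lam) :: c :: Lc) = (qP (cf q :: cf (q - 2 * lam) :: Lc)).eval c := by
    intro c
    rw [← qP_eval]
    apply qc_perm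
    exact ((List.Perm.swap _ _ _).cons _).trans (List.Perm.swap _ _ _)
  have hp2 : ∀ c, qc (g :: c :: Lc) = (qP (g :: Lc)).eval c := by
    intro c
    rw [← qP_eval]
    exact qc_perm (List.Perm.swap _ _ _)
  set R : ℂ := K * (M.map (fun u => g + cf u)).prod with hR
  set D : Polynomial ℂ := qP (cf q :: cf (q - 2 * lam) :: Lc) -
    Polynomial.C R * ((Polynomial.X + Polynomial.C g) * qP (g :: Lc)) with hD
  have hDe : ∀ c, D.eval c = qc (cf q :: cf (q - 2 * lam) :: c :: Lc) -
      R * ((c + g) * qc (g :: c :: Lc)) := by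
    intro c
    rw [hD, hp1, hp2]
    simp
  have hDdeg : D.natDegree ≤ M.length + 1 := by
    rw [Polynomial.natDegree_le_iff_coeff_eq_zero]
    intro j hj
    have d1 := qP_natDegree (cf q :: cf (q - 2 * lam) :: Lc)
    have d2 := qP_natDegree (g :: Lc)
    rw [List.length_cons, List.length_cons, hlen] at d1
    rw [List.length_cons, hlen] at d2
    have c1' := qP_coeff (cf q :: cf (q - 2 * lam) :: Lc)
    have c2' := qP_coeff (g :: Lc)
    rw [List.length_cons, List.length_cons, hlen] at c1'
    rw [List.length_cons, hlen] at c2'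
    rw [hD, Polynomial.coeff_sub, Polynomial.coeff_C_mul, add_mul, Polynomial.coeff_add,
      Polynomial.coeff_C_mul]
    obtain ⟨j', rfl⟩ : ∃ j', j = j' + 1 := ⟨j - 1, by omega⟩
    rw [Polynomial.coeff_X_mul]
    rcases Nat.lt_or_ge (M.length + 1 + 1) (j' + 1) with h | h
    · rw [Polynomial.coeff_eq_zero_of_natDegree_lt (lt_of_le_of_lt d1 h),
        Polynomial.coeff_eq_zero_of_natDegree_lt (lt_of_le_of_lt d2 (by omega)),
        Polynomial.coeff_eq_zero_of_natDegree_lt (lt_of_le_of_lt d2 (by omega))]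
      ring
    · have hj2 : j' = M.length + 1 := by omega
      subst hj2
      rw [c1', c2', Polynomial.coeff_eq_zero_of_natDegree_lt (lt_of_le_of_lt d2 (by omega)), ihM]
      ring
  -- the nodes
  have hD0 : D = 0 := by
    apply Polynomial.eq_zero_of_natDegree_lt_card_of_eval_eq_zero' D
      (insert c3 ((q :: M).toFinset.image cp))
    · intro c hc
      rw [Finset.mem_insert, Finset.mem_image] at hc
      rw [hDe]
      rcases hc with rfl | ⟨v, hv, rfl⟩
      · have e1 : qc (cf q :: cf (q - 2 * lam) :: c3 :: Lc) = qc (c3 :: cf q :: cf (q - 2 * lam) :: Lc) :=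
          qc_perm (((List.Perm.swap _ _ _).cons _).trans (List.Perm.swap _ _ _))
        have e2 : qc (g :: c3 :: Lc) = qc (c3 :: g :: Lc) := qc_perm (List.Perm.swap _ _ _)
        rw [e1, e2, qc_triv, qc_triv, List.map_cons, List.map_cons, List.prod_cons, List.prod_cons,
          List.map_cons, List.prod_cons, ihM]
        have ht := fuse_t q
        rw [← hg] at ht
        linear_combination ((Lc.map (fun c => c + c1)).prod * (K * (M.map (fun u => g + cf u)).prod *
          qc (g :: Lc))) * ht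
      · rw [List.mem_toFinset, List.mem_cons] at hv
        rcases hv with rfl | hv
        · have e1 : qc (cf v :: cf (v - 2 * lam) :: cp v :: Lc) =
              qc (cp v :: cf v :: cf (v - 2 * lam) :: Lc) :=
            qc_perm (((List.Perm.swap _ _ _).cons _).trans (List.Perm.swap _ _ _))
          have e2 : cp v + g = 0 := by
            rw [hg]
            unfold cp cf
            exact cos_add_8 _ _ (by ring)
          have e3 : ph v (cf (v - 2 * lam)) = 0 := by
            unfold ph cb cf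
            rw [add_comm (cos (2 * (v - 2 * lam) - 3 * lam)) (cos (2 * v + lam)),
              cos_add_8 _ _ (by ring), mul_zero]
          rw [e1, qc_cross hqnb, List.map_cons, List.prod_cons, e2, e3]
          ring
        · have hperm := List.perm_cons_erase hv
          set M' := M.erase v with hM'
          have hvM : (v :: M').Nodup := hperm.nodup_iff.1 hn3.2
          have hvnb : v ∈ nb := hMnb v (List.mem_cons_of_mem _ hv)
          have hsub : ∀ a ∈ M', a ∈ M := fun a ha => hperm.mem_iff.2 (List.mem_cons_of_mem _ ha)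
          have hL2 : Lc.Perm (cf v :: M'.map cf) := by
            rw [hLc]
            exact hperm.map cf
          have hlen2 : M.length = M'.length + 1 := by rw [hperm.length_eq, List.length_cons]
          have ihM' := ih M'.length (by omega) M' rfl
            (List.nodup_cons.2 ⟨fun h => (List.nodup_cons.1 hqM).1 (hsub q h), (List.nodup_cons.1 hvM).2⟩)
            (by
              intro a ha
              rcases List.mem_cons.1 ha with rfl | ha
              · exact hqnb
              · exact hMnb a (List.mem_cons_of_mem _ (hsub a ha)))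
          have e1 : qc (cf q :: cf (q - 2 * lam) :: cp v :: Lc) =
              qc (cp v :: cf v :: cf q :: cf (q - 2 * lam) :: M'.map cf) := by
            apply qc_perm
            refine (((hL2.cons _).cons _).cons _).trans ?_
            refine (((List.Perm.swap _ _ _).cons _).trans (List.Perm.swap _ _ _)).trans ?_
            refine List.Perm.cons _ ?_
            exact ((List.Perm.swap _ _ _).cons _).trans (List.Perm.swap _ _ _)
          have e2 : qc (g :: cp v :: Lc) = qc (cp v :: cf v :: g :: M'.map cf) := by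
            apply qc_perm
            refine ((hL2.cons _).cons _).trans ?_
            refine (List.Perm.swap _ _ _).trans ?_
            exact List.Perm.cons _ (List.Perm.swap _ _ _)
          have e3 : (M.map (fun u => g + cf u)).prod = (g + cf v) * (M'.map (fun u => g + cf u)).prod := by
            rw [(hperm.map (fun u => g + cf u)).prod_eq, List.map_cons, List.prod_cons]
          rw [e1, e2, qc_cross hvnb, qc_cross hvnb, List.map_cons, List.map_cons, List.map_cons,
            List.prod_cons, List.prod_cons, List.prod_cons, ihM', hR, e3]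
          have hpv := fuse_p q v
          rw [← hg] at hpv
          linear_combination ((cp v + cf v + (c1 - c3)) * ((M'.map cf).map (ph v)).prod *
            (K * (M'.map (fun u => g + cf u)).prod * qc (g :: M'.map cf))) * hpv
    · have hinj : ((q :: M).toFinset.image cp).card = (q :: M).toFinset.card := by
        apply Finset.card_image_of_injOn
        intro a ha b hb hab
        by_contra hne
        have h1 : a ∈ nb := hMnb a (by simpa using ha)
        have h2 : b ∈ nb := hMnb b (by simpa using hb)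
        have h3 := cp_sub a b
        rw [sub_eq_zero.mpr hab] at h3
        exact mul_ne_zero two_ne_zero (mul_ne_zero (nb_GS.p3 a h1 b h2) (nb_GS.s a h1 b h2 hne))
          (neg_eq_zero.mp h3.symm)
      have hnot : c3 ∉ (q :: M).toFinset.image cp := by
        rw [Finset.mem_image]
        rintro ⟨v, hv, h⟩
        have h1 : v ∈ nb := hMnb v (by simpa using hv)
        have h3 := cp_c3 v
        rw [sub_eq_zero.mpr h] at h3
        exact mul_ne_zero two_ne_zero (mul_ne_zero (Dn_ne (nb_GS.D v h1)).2 (nb_GS.a v h1))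
          (neg_eq_zero.mp h3.symm)
      rw [Finset.card_insert_of_notMem hnot, hinj, List.toFinset_card_of_nodup hqM, List.length_cons]
      omega
  have hfin := hDe (cf k)
  rw [hD0, Polynomial.eval_zero] at hfin
  rw [List.map_cons, List.map_cons, List.prod_cons, ← hLc]
  linear_combination -hfin

/-- **Fusion.** -/
theorem qc_fuse {q : ℂ} (hq : q ∈ nb) (L : List ℂ) : qc (cf q :: cf (q - 2 * lam) :: L) =
    2 * s2 * (cf (q - lam) + c3) * (L.map (fun c => cf (q - lam) + c)).prod *
      qc (cf (q - lam) :: L) := by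
  have hU : (UC \ {cf q}).Infinite := UC_inf.sdiff (Set.finite_singleton _)
  have hPF : NUMv.PF L.length (fun L => (L.map (fun c => cf (q - lam) + c)).prod) :=
    (PF_aff L.length (cf (q - lam))).congr (fun L _ => by
      refine congrArg List.prod (List.map_congr_left (fun c _ => ?_))
      ring)
  refine NUMv.PF.ext hU (n := L.length) (((qc_PF (L.length + 2)).cons (cf q)).cons (cf (q - 2 * lam)))
    (((NUMv.PF.const _ _).mul hPF).mul ((qc_PF (L.length + 1)).cons (cf (q - lam))))
    (fun A _ hA hn => ?_) L rfl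
  have hA' : ∀ a ∈ A, a ∈ UC := fun a ha => (hA a ha).1
  have hqA : q ∉ A.map zf := by
    intro h
    obtain ⟨b, hb, h2⟩ := List.mem_map.1 h
    apply (hA b hb).2
    rw [Set.mem_singleton_iff, ← h2, cf_zf (hA' b hb)]
  have h := fuse_near (q := q) _ (A.map zf) rfl (List.nodup_cons.2 ⟨hqA, nodup_map_zf hA' hn⟩)
    (fun a ha => by
      rcases List.mem_cons.1 ha with rfl | ha
      · exact hq
      · exact mem_map_zf hA' a ha)
  rw [map_cf_zf hA'] at h
  rw [h]
  congr 3
  calc (A.map zf).map (fun u => cf (q - lam) + cf u) =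
        ((A.map zf).map cf).map (fun c => cf (q - lam) + c) := by
        rw [List.map_map, List.map_map, List.map_map]; rfl
    _ = A.map (fun c => cf (q - lam) + c) := by rw [map_cf_zf hA']

/-! ### The same in the rapidities `z` (`u = 3l/2 - z`) -/

theorem el_eq : NUMv.el = lam := by
  rw [lam_re]
  rfl

theorem cf_h (z : ℂ) : cf (3 / 2 * lam - z) = NUMv.cc z := by
  unfold cf NUMv.cc
  rw [← Complex.cos_neg (2 * z)]
  congr 1
  ring

theorem cf_h' (z : ℂ) : cf (3 / 2 * lam + z) = NUMv.cc z := by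
  unfold cf NUMv.cc
  congr 1
  ring

theorem kc_3 : NUMv.kc 3 = c3 := by
  unfold NUMv.kc c3
  rw [el_eq]
  norm_num

theorem kc_1 : NUMv.kc 1 = c1 := by
  unfold NUMv.kc c1
  rw [el_eq]
  norm_num

theorem qc_triv_z (L : List ℂ) : qc (NUMv.kc 3 :: L) = NUMv.trivF L * qc L := by
  rw [kc_3, qc_triv, NUMv.trivF, kc_1]

theorem ph_h (z : ℂ) (c : ℂ) : ph (3 / 2 * lam - z) c =
    (c - NUMv.cc (z + 3 * NUMv.el)) * (c - NUMv.cc (z - 6 * NUMv.el)) := by
  unfold ph ca cb NUMv.cc
  rw [el_eq]
  have e1 : cos (2 * (3 / 2 * lam - z) - lam) = - cos (2 * (z + 3 * lam)) := by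
    exact cos_eq_neg _ _ (by ring)
  have e2 : cos (2 * (3 / 2 * lam - z) + lam) = - cos (2 * (z - 6 * lam)) := by
    rw [← Complex.cos_neg (2 * (3 / 2 * lam - z) + lam)]
    have h := cos_8lam_add (2 * (z - 6 * lam))
    rw [← h]
    congr 1
    ring
  rw [e1, e2]
  ring

theorem qc_cross_z {z : ℂ} (hz : 3 / 2 * lam - z ∈ nb) (L : List ℂ) :
    qc (NUMv.cc (z - 3 * NUMv.el) :: NUMv.cc z :: L) = NUMv.crossF z L * qc L := by
  have h := qc_cross hz L
  rw [cf_h] at h
  have e1 : cp (3 / 2 * lam - z) = NUMv.cc (z - 3 * NUMv.el) := by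
    unfold cp NUMv.cc
    rw [el_eq, ← Complex.cos_neg]
    congr 1
    ring
  rw [e1] at h
  rw [h, NUMv.crossF, kc_1, kc_3]
  congr 3
  apply List.map_congr_left
  intro c _
  exact ph_h z c

theorem rt_eq : NUMv.rt = 2 * s2 := by
  have h : s2 = ((Real.sqrt 2 / 2 : ℝ) : ℂ) := by
    unfold s2
    rw [lam_re, show 2 * ((Real.pi / 8 : ℝ) : ℂ) = ((Real.pi / 4 : ℝ) : ℂ) by push_cast; ring,
      ← Complex.ofReal_sin, Real.sin_pi_div_four]
  rw [h, NUMv.rt]
  push_cast
  ring

theorem qc_fuse_z {z : ℂ} (hz : 3 / 2 * lam - z ∈ nb) (L : List ℂ) :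
    qc (NUMv.cc (z + 2 * NUMv.el) :: NUMv.cc z :: L) =
      NUMv.fuseF z L * qc (NUMv.cc (z + NUMv.el) :: L) := by
  have h := qc_fuse hz L
  rw [show 3 / 2 * lam - z - 2 * lam = 3 / 2 * lam - (z + 2 * lam) by ring,
    show 3 / 2 * lam - z - lam = 3 / 2 * lam - (z + lam) by ring, cf_h, cf_h, cf_h] at h
  rw [el_eq, NUMv.fuseF, kc_3, rt_eq, el_eq, ← h]
  exact qc_perm (List.Perm.swap _ _ _)

end Pool.Agent.NUF.Fr
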