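import Pool.Agent.EXL.Global

/-!
# The laws carry over along a relation

Generated file.
-/

set_option autoImplicit false

namespace Pool.Agent.EXL.Glob

variable {A B ι G : Type*} [Monoid A] [Monoid B] [AddCommGroup G]

/-- A relation that is compatible with products and carries equalities over. -/
structure RelM (r : A → B → Prop) : Prop where
  one : r 1 1
  mul : ∀ {a a' b b'}, r a b → r a' b' → r (a * a') (b * b')
  inj : ∀ {a a' b b'}, r a b → r a' b' → a = a' → b = b'

/-- Related systems of operators. -/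
structure OpsRel (r : A → B → Prop) (S : Ops A ι G) (T : Ops B ι G) : Prop where
  l : T.l = S.l
  h : T.h = S.h
  p : T.p = S.p
  q : T.q = S.q
  R : ∀ i j u, r (S.R i j u) (T.R i j u)
  P : ∀ i j, r (S.P i j) (T.P i j)
  E : ∀ i, r (S.E i) (T.E i)
  b : ∀ i j u, r (S.b i j u) (T.b i j u)
  t : ∀ i j u, r (S.t i j u) (T.t i j u)
  bc : ∀ i, r (S.bc i) (T.bc i)
  tc : ∀ i, r (S.tc i) (T.tc i)
  glue : ∀ i j, r (S.glue i j) (T.glue i j)
  U : ∀ i j, r (S.U i j) (T.U i j)
  Y : ∀ i j, r (S.Y i j) (T.Y i j)
  Yt : ∀ i j, r (S.Yt i j) (T.Yt i j)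
  Z : ∀ i, r (S.Z i) (T.Z i)

theorem Laws.rel {r : A → B → Prop} (X : RelM r) {S : Ops A ι G} {T : Ops B ι G}
    {ok okK : G → Prop} (O : OpsRel r S T) (W : Laws S ok okK) : Laws T ok okK := by
  obtain ⟨l, h, R, P, E, b, t, bc, tc, glue, U, Y, Yt, Z, p, q⟩ := T
  obtain ⟨el, eh, ep, eq, oR, oP, oE, ob, ot, obc, otc, oglue, oU, oY, oYt, oZ⟩ := O
  simp only at el eh ep eq oR oP oE ob ot obc otc oglue oU oY oYt oZ
  subst el eh ep eq
  constructor
  case hh => exact W.hh
  case cRR =>
    intro i₀ j₀ k₀ m₀ u₀ w₀ h1 h2 h3 h4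
    exact X.inj (by repeat first | exact X.one | exact oR _ _ _ | exact oP _ _ | exact oE _ | exact ob _ _ _ | exact ot _ _ _ | exact obc _ | exact otc _ | exact oglue _ _ | exact oU _ _ | exact oY _ _ | exact oYt _ _ | exact oZ _ | apply X.mul) (by repeat first | exact X.one | exact oR _ _ _ | exact oP _ _ | exact oE _ | exact ob _ _ _ | exact ot _ _ _ | exact obc _ | exact otc _ | exact oglue _ _ | exact oU _ _ | exact oY _ _ | exact oYt _ _ | exact oZ _ | apply X.mul) (W.cRR h1 h2 h3 h4)
  case cRP =>
    intro i₀ j₀ k₀ m₀ u₀ h1 h2 h3 h4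
    exact X.inj (by repeat first | exact X.one | exact oR _ _ _ | exact oP _ _ | exact oE _ | exact ob _ _ _ | exact ot _ _ _ | exact obc _ | exact otc _ | exact oglue _ _ | exact oU _ _ | exact oY _ _ | exact oYt _ _ | exact oZ _ | apply X.mul) (by repeat first | exact X.one | exact oR _ _ _ | exact oP _ _ | exact oE _ | exact ob _ _ _ | exact ot _ _ _ | exact obc _ | exact otc _ | exact oglue _ _ | exact oU _ _ | exact oY _ _ | exact oYt _ _ | exact oZ _ | apply X.mul) (W.cRP h1 h2 h3 h4)
  case cRb =>
    intro i₀ j₀ k₀ m₀ u₀ v₀ h1 h2 h3 h4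
    exact X.inj (by repeat first | exact X.one | exact oR _ _ _ | exact oP _ _ | exact oE _ | exact ob _ _ _ | exact ot _ _ _ | exact obc _ | exact otc _ | exact oglue _ _ | exact oU _ _ | exact oY _ _ | exact oYt _ _ | exact oZ _ | apply X.mul) (by repeat first | exact X.one | exact oR _ _ _ | exact oP _ _ | exact oE _ | exact ob _ _ _ | exact ot _ _ _ | exact obc _ | exact otc _ | exact oglue _ _ | exact oU _ _ | exact oY _ _ | exact oYt _ _ | exact oZ _ | apply X.mul) (W.cRb h1 h2 h3 h4)
  case cRt =>
    intro i₀ j₀ k₀ m₀ u₀ v₀ h1 h2 h3 h4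
    exact X.inj (by repeat first | exact X.one | exact oR _ _ _ | exact oP _ _ | exact oE _ | exact ob _ _ _ | exact ot _ _ _ | exact obc _ | exact otc _ | exact oglue _ _ | exact oU _ _ | exact oY _ _ | exact oYt _ _ | exact oZ _ | apply X.mul) (by repeat first | exact X.one | exact oR _ _ _ | exact oP _ _ | exact oE _ | exact ob _ _ _ | exact ot _ _ _ | exact obc _ | exact otc _ | exact oglue _ _ | exact oU _ _ | exact oY _ _ | exact oYt _ _ | exact oZ _ | apply X.mul) (W.cRt h1 h2 h3 h4)
  case cRglue =>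
    intro i₀ j₀ k₀ m₀ u₀ h1 h2 h3 h4
    exact X.inj (by repeat first | exact X.one | exact oR _ _ _ | exact oP _ _ | exact oE _ | exact ob _ _ _ | exact ot _ _ _ | exact obc _ | exact otc _ | exact oglue _ _ | exact oU _ _ | exact oY _ _ | exact oYt _ _ | exact oZ _ | apply X.mul) (by repeat first | exact X.one | exact oR _ _ _ | exact oP _ _ | exact oE _ | exact ob _ _ _ | exact ot _ _ _ | exact obc _ | exact otc _ | exact oglue _ _ | exact oU _ _ | exact oY _ _ | exact oYt _ _ | exact oZ _ | apply X.mul) (W.cRglue h1 h2 h3 h4)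
  case cRU =>
    intro i₀ j₀ k₀ m₀ u₀ h1 h2 h3 h4
    exact X.inj (by repeat first | exact X.one | exact oR _ _ _ | exact oP _ _ | exact oE _ | exact ob _ _ _ | exact ot _ _ _ | exact obc _ | exact otc _ | exact oglue _ _ | exact oU _ _ | exact oY _ _ | exact oYt _ _ | exact oZ _ | apply X.mul) (by repeat first | exact X.one | exact oR _ _ _ | exact oP _ _ | exact oE _ | exact ob _ _ _ | exact ot _ _ _ | exact obc _ | exact otc _ | exact oglue _ _ | exact oU _ _ | exact oY _ _ | exact oYt _ _ | exact oZ _ | apply X.mul) (W.cRU h1 h2 h3 h4)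
  case cRY =>
    intro i₀ j₀ k₀ m₀ u₀ h1 h2 h3 h4
    exact X.inj (by repeat first | exact X.one | exact oR _ _ _ | exact oP _ _ | exact oE _ | exact ob _ _ _ | exact ot _ _ _ | exact obc _ | exact otc _ | exact oglue _ _ | exact oU _ _ | exact oY _ _ | exact oYt _ _ | exact oZ _ | apply X.mul) (by repeat first | exact X.one | exact oR _ _ _ | exact oP _ _ | exact oE _ | exact ob _ _ _ | exact ot _ _ _ | exact obc _ | exact otc _ | exact oglue _ _ | exact oU _ _ | exact oY _ _ | exact oYt _ _ | exact oZ _ | apply X.mul) (W.cRY h1 h2 h3 h4)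
  case cRYt =>
    intro i₀ j₀ k₀ m₀ u₀ h1 h2 h3 h4
    exact X.inj (by repeat first | exact X.one | exact oR _ _ _ | exact oP _ _ | exact oE _ | exact ob _ _ _ | exact ot _ _ _ | exact obc _ | exact otc _ | exact oglue _ _ | exact oU _ _ | exact oY _ _ | exact oYt _ _ | exact oZ _ | apply X.mul) (by repeat first | exact X.one | exact oR _ _ _ | exact oP _ _ | exact oE _ | exact ob _ _ _ | exact ot _ _ _ | exact obc _ | exact otc _ | exact oglue _ _ | exact oU _ _ | exact oY _ _ | exact oYt _ _ | exact oZ _ | apply X.mul) (W.cRYt h1 h2 h3 h4)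
  case cRbc =>
    intro i₀ j₀ k₀ u₀ h1 h2
    exact X.inj (by repeat first | exact X.one | exact oR _ _ _ | exact oP _ _ | exact oE _ | exact ob _ _ _ | exact ot _ _ _ | exact obc _ | exact otc _ | exact oglue _ _ | exact oU _ _ | exact oY _ _ | exact oYt _ _ | exact oZ _ | apply X.mul) (by repeat first | exact X.one | exact oR _ _ _ | exact oP _ _ | exact oE _ | exact ob _ _ _ | exact ot _ _ _ | exact obc _ | exact otc _ | exact oglue _ _ | exact oU _ _ | exact oY _ _ | exact oYt _ _ | exact oZ _ | apply X.mul) (W.cRbc h1 h2)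
  case cRtc =>
    intro i₀ j₀ k₀ u₀ h1 h2
    exact X.inj (by repeat first | exact X.one | exact oR _ _ _ | exact oP _ _ | exact oE _ | exact ob _ _ _ | exact ot _ _ _ | exact obc _ | exact otc _ | exact oglue _ _ | exact oU _ _ | exact oY _ _ | exact oYt _ _ | exact oZ _ | apply X.mul) (by repeat first | exact X.one | exact oR _ _ _ | exact oP _ _ | exact oE _ | exact ob _ _ _ | exact ot _ _ _ | exact obc _ | exact otc _ | exact oglue _ _ | exact oU _ _ | exact oY _ _ | exact oYt _ _ | exact oZ _ | apply X.mul) (W.cRtc h1 h2)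
  case cRE =>
    intro i₀ j₀ k₀ u₀ h1 h2
    exact X.inj (by repeat first | exact X.one | exact oR _ _ _ | exact oP _ _ | exact oE _ | exact ob _ _ _ | exact ot _ _ _ | exact obc _ | exact otc _ | exact oglue _ _ | exact oU _ _ | exact oY _ _ | exact oYt _ _ | exact oZ _ | apply X.mul) (by repeat first | exact X.one | exact oR _ _ _ | exact oP _ _ | exact oE _ | exact ob _ _ _ | exact ot _ _ _ | exact obc _ | exact otc _ | exact oglue _ _ | exact oU _ _ | exact oY _ _ | exact oYt _ _ | exact oZ _ | apply X.mul) (W.cRE h1 h2)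
  case cbt =>
    intro i₀ j₀ k₀ m₀ u₀ v₀ h1 h2 h3 h4
    exact X.inj (by repeat first | exact X.one | exact oR _ _ _ | exact oP _ _ | exact oE _ | exact ob _ _ _ | exact ot _ _ _ | exact obc _ | exact otc _ | exact oglue _ _ | exact oU _ _ | exact oY _ _ | exact oYt _ _ | exact oZ _ | apply X.mul) (by repeat first | exact X.one | exact oR _ _ _ | exact oP _ _ | exact oE _ | exact ob _ _ _ | exact ot _ _ _ | exact obc _ | exact otc _ | exact oglue _ _ | exact oU _ _ | exact oY _ _ | exact oYt _ _ | exact oZ _ | apply X.mul) (W.cbt h1 h2 h3 h4)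
  case cbtc =>
    intro i₀ j₀ k₀ u₀ h1 h2
    exact X.inj (by repeat first | exact X.one | exact oR _ _ _ | exact oP _ _ | exact oE _ | exact ob _ _ _ | exact ot _ _ _ | exact obc _ | exact otc _ | exact oglue _ _ | exact oU _ _ | exact oY _ _ | exact oYt _ _ | exact oZ _ | apply X.mul) (by repeat first | exact X.one | exact oR _ _ _ | exact oP _ _ | exact oE _ | exact ob _ _ _ | exact ot _ _ _ | exact obc _ | exact otc _ | exact oglue _ _ | exact oU _ _ | exact oY _ _ | exact oYt _ _ | exact oZ _ | apply X.mul) (W.cbtc h1 h2)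
  case cbbc =>
    intro i₀ j₀ k₀ u₀ h1 h2
    exact X.inj (by repeat first | exact X.one | exact oR _ _ _ | exact oP _ _ | exact oE _ | exact ob _ _ _ | exact ot _ _ _ | exact obc _ | exact otc _ | exact oglue _ _ | exact oU _ _ | exact oY _ _ | exact oYt _ _ | exact oZ _ | apply X.mul) (by repeat first | exact X.one | exact oR _ _ _ | exact oP _ _ | exact oE _ | exact ob _ _ _ | exact ot _ _ _ | exact obc _ | exact otc _ | exact oglue _ _ | exact oU _ _ | exact oY _ _ | exact oYt _ _ | exact oZ _ | apply X.mul) (W.cbbc h1 h2)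
  case cbE =>
    intro i₀ j₀ k₀ u₀ h1 h2
    exact X.inj (by repeat first | exact X.one | exact oR _ _ _ | exact oP _ _ | exact oE _ | exact ob _ _ _ | exact ot _ _ _ | exact obc _ | exact otc _ | exact oglue _ _ | exact oU _ _ | exact oY _ _ | exact oYt _ _ | exact oZ _ | apply X.mul) (by repeat first | exact X.one | exact oR _ _ _ | exact oP _ _ | exact oE _ | exact ob _ _ _ | exact ot _ _ _ | exact obc _ | exact otc _ | exact oglue _ _ | exact oU _ _ | exact oY _ _ | exact oYt _ _ | exact oZ _ | apply X.mul) (W.cbE h1 h2)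
  case cbY =>
    intro i₀ j₀ k₀ m₀ u₀ h1 h2 h3 h4
    exact X.inj (by repeat first | exact X.one | exact oR _ _ _ | exact oP _ _ | exact oE _ | exact ob _ _ _ | exact ot _ _ _ | exact obc _ | exact otc _ | exact oglue _ _ | exact oU _ _ | exact oY _ _ | exact oYt _ _ | exact oZ _ | apply X.mul) (by repeat first | exact X.one | exact oR _ _ _ | exact oP _ _ | exact oE _ | exact ob _ _ _ | exact ot _ _ _ | exact obc _ | exact otc _ | exact oglue _ _ | exact oU _ _ | exact oY _ _ | exact oYt _ _ | exact oZ _ | apply X.mul) (W.cbY h1 h2 h3 h4)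
  case cbYt =>
    intro i₀ j₀ k₀ m₀ u₀ h1 h2 h3 h4
    exact X.inj (by repeat first | exact X.one | exact oR _ _ _ | exact oP _ _ | exact oE _ | exact ob _ _ _ | exact ot _ _ _ | exact obc _ | exact otc _ | exact oglue _ _ | exact oU _ _ | exact oY _ _ | exact oYt _ _ | exact oZ _ | apply X.mul) (by repeat first | exact X.one | exact oR _ _ _ | exact oP _ _ | exact oE _ | exact ob _ _ _ | exact ot _ _ _ | exact obc _ | exact otc _ | exact oglue _ _ | exact oU _ _ | exact oY _ _ | exact oYt _ _ | exact oZ _ | apply X.mul) (W.cbYt h1 h2 h3 h4)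
  case ctbc =>
    intro i₀ j₀ k₀ u₀ h1 h2
    exact X.inj (by repeat first | exact X.one | exact oR _ _ _ | exact oP _ _ | exact oE _ | exact ob _ _ _ | exact ot _ _ _ | exact obc _ | exact otc _ | exact oglue _ _ | exact oU _ _ | exact oY _ _ | exact oYt _ _ | exact oZ _ | apply X.mul) (by repeat first | exact X.one | exact oR _ _ _ | exact oP _ _ | exact oE _ | exact ob _ _ _ | exact ot _ _ _ | exact obc _ | exact otc _ | exact oglue _ _ | exact oU _ _ | exact oY _ _ | exact oYt _ _ | exact oZ _ | apply X.mul) (W.ctbc h1 h2)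
  case cttc =>
    intro i₀ j₀ k₀ u₀ h1 h2
    exact X.inj (by repeat first | exact X.one | exact oR _ _ _ | exact oP _ _ | exact oE _ | exact ob _ _ _ | exact ot _ _ _ | exact obc _ | exact otc _ | exact oglue _ _ | exact oU _ _ | exact oY _ _ | exact oYt _ _ | exact oZ _ | apply X.mul) (by repeat first | exact X.one | exact oR _ _ _ | exact oP _ _ | exact oE _ | exact ob _ _ _ | exact ot _ _ _ | exact obc _ | exact otc _ | exact oglue _ _ | exact oU _ _ | exact oY _ _ | exact oYt _ _ | exact oZ _ | apply X.mul) (W.cttc h1 h2)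
  case ctE =>
    intro i₀ j₀ k₀ u₀ h1 h2
    exact X.inj (by repeat first | exact X.one | exact oR _ _ _ | exact oP _ _ | exact oE _ | exact ob _ _ _ | exact ot _ _ _ | exact obc _ | exact otc _ | exact oglue _ _ | exact oU _ _ | exact oY _ _ | exact oYt _ _ | exact oZ _ | apply X.mul) (by repeat first | exact X.one | exact oR _ _ _ | exact oP _ _ | exact oE _ | exact ob _ _ _ | exact ot _ _ _ | exact obc _ | exact otc _ | exact oglue _ _ | exact oU _ _ | exact oY _ _ | exact oYt _ _ | exact oZ _ | apply X.mul) (W.ctE h1 h2)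
  case ctglue =>
    intro i₀ j₀ k₀ m₀ u₀ h1 h2 h3 h4
    exact X.inj (by repeat first | exact X.one | exact oR _ _ _ | exact oP _ _ | exact oE _ | exact ob _ _ _ | exact ot _ _ _ | exact obc _ | exact otc _ | exact oglue _ _ | exact oU _ _ | exact oY _ _ | exact oYt _ _ | exact oZ _ | apply X.mul) (by repeat first | exact X.one | exact oR _ _ _ | exact oP _ _ | exact oE _ | exact ob _ _ _ | exact ot _ _ _ | exact obc _ | exact otc _ | exact oglue _ _ | exact oU _ _ | exact oY _ _ | exact oYt _ _ | exact oZ _ | apply X.mul) (W.ctglue h1 h2 h3 h4)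
  case cbctc =>
    intro i₀ j₀ h1
    exact X.inj (by repeat first | exact X.one | exact oR _ _ _ | exact oP _ _ | exact oE _ | exact ob _ _ _ | exact ot _ _ _ | exact obc _ | exact otc _ | exact oglue _ _ | exact oU _ _ | exact oY _ _ | exact oYt _ _ | exact oZ _ | apply X.mul) (by repeat first | exact X.one | exact oR _ _ _ | exact oP _ _ | exact oE _ | exact ob _ _ _ | exact ot _ _ _ | exact obc _ | exact otc _ | exact oglue _ _ | exact oU _ _ | exact oY _ _ | exact oYt _ _ | exact oZ _ | apply X.mul) (W.cbctc h1)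
  case cglueE =>
    intro i₀ j₀ k₀ h1 h2
    exact X.inj (by repeat first | exact X.one | exact oR _ _ _ | exact oP _ _ | exact oE _ | exact ob _ _ _ | exact ot _ _ _ | exact obc _ | exact otc _ | exact oglue _ _ | exact oU _ _ | exact oY _ _ | exact oYt _ _ | exact oZ _ | apply X.mul) (by repeat first | exact X.one | exact oR _ _ _ | exact oP _ _ | exact oE _ | exact ob _ _ _ | exact ot _ _ _ | exact obc _ | exact otc _ | exact oglue _ _ | exact oU _ _ | exact oY _ _ | exact oYt _ _ | exact oZ _ | apply X.mul) (W.cglueE h1 h2)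
  case cYtYt =>
    intro i₀ j₀ k₀ m₀ h1 h2 h3 h4
    exact X.inj (by repeat first | exact X.one | exact oR _ _ _ | exact oP _ _ | exact oE _ | exact ob _ _ _ | exact ot _ _ _ | exact obc _ | exact otc _ | exact oglue _ _ | exact oU _ _ | exact oY _ _ | exact oYt _ _ | exact oZ _ | apply X.mul) (by repeat first | exact X.one | exact oR _ _ _ | exact oP _ _ | exact oE _ | exact ob _ _ _ | exact ot _ _ _ | exact obc _ | exact otc _ | exact oglue _ _ | exact oU _ _ | exact oY _ _ | exact oYt _ _ | exact oZ _ | apply X.mul) (W.cYtYt h1 h2 h3 h4)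
  case cEE =>
    intro i₀ j₀
    exact X.inj (by repeat first | exact X.one | exact oR _ _ _ | exact oP _ _ | exact oE _ | exact ob _ _ _ | exact ot _ _ _ | exact obc _ | exact otc _ | exact oglue _ _ | exact oU _ _ | exact oY _ _ | exact oYt _ _ | exact oZ _ | apply X.mul) (by repeat first | exact X.one | exact oR _ _ _ | exact oP _ _ | exact oE _ | exact ob _ _ _ | exact ot _ _ _ | exact obc _ | exact otc _ | exact oglue _ _ | exact oU _ _ | exact oY _ _ | exact oYt _ _ | exact oZ _ | apply X.mul) (W.cEE )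
  case cRZ =>
    intro i₀ j₀ k₀ u₀ h1 h2
    exact X.inj (by repeat first | exact X.one | exact oR _ _ _ | exact oP _ _ | exact oE _ | exact ob _ _ _ | exact ot _ _ _ | exact obc _ | exact otc _ | exact oglue _ _ | exact oU _ _ | exact oY _ _ | exact oYt _ _ | exact oZ _ | apply X.mul) (by repeat first | exact X.one | exact oR _ _ _ | exact oP _ _ | exact oE _ | exact ob _ _ _ | exact ot _ _ _ | exact obc _ | exact otc _ | exact oglue _ _ | exact oU _ _ | exact oY _ _ | exact oYt _ _ | exact oZ _ | apply X.mul) (W.cRZ h1 h2)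
  case cZZ =>
    intro i₀ j₀
    exact X.inj (by repeat first | exact X.one | exact oR _ _ _ | exact oP _ _ | exact oE _ | exact ob _ _ _ | exact ot _ _ _ | exact obc _ | exact otc _ | exact oglue _ _ | exact oU _ _ | exact oY _ _ | exact oYt _ _ | exact oZ _ | apply X.mul) (by repeat first | exact X.one | exact oR _ _ _ | exact oP _ _ | exact oE _ | exact ob _ _ _ | exact ot _ _ _ | exact obc _ | exact otc _ | exact oglue _ _ | exact oU _ _ | exact oY _ _ | exact oYt _ _ | exact oZ _ | apply X.mul) (W.cZZ )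
  case Rs =>
    intro i₀ j₀ u₀
    exact X.inj (by repeat first | exact X.one | exact oR _ _ _ | exact oP _ _ | exact oE _ | exact ob _ _ _ | exact ot _ _ _ | exact obc _ | exact otc _ | exact oglue _ _ | exact oU _ _ | exact oY _ _ | exact oYt _ _ | exact oZ _ | apply X.mul) (by repeat first | exact X.one | exact oR _ _ _ | exact oP _ _ | exact oE _ | exact ob _ _ _ | exact ot _ _ _ | exact obc _ | exact otc _ | exact oglue _ _ | exact oU _ _ | exact oY _ _ | exact oYt _ _ | exact oZ _ | apply X.mul) (W.Rs )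
  case Ps =>
    intro i₀ j₀
    exact X.inj (by repeat first | exact X.one | exact oR _ _ _ | exact oP _ _ | exact oE _ | exact ob _ _ _ | exact ot _ _ _ | exact obc _ | exact otc _ | exact oglue _ _ | exact oU _ _ | exact oY _ _ | exact oYt _ _ | exact oZ _ | apply X.mul) (by repeat first | exact X.one | exact oR _ _ _ | exact oP _ _ | exact oE _ | exact ob _ _ _ | exact ot _ _ _ | exact obc _ | exact otc _ | exact oglue _ _ | exact oU _ _ | exact oY _ _ | exact oYt _ _ | exact oZ _ | apply X.mul) (W.Ps )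
  case bs =>
    intro i₀ j₀ u₀
    exact X.inj (by repeat first | exact X.one | exact oR _ _ _ | exact oP _ _ | exact oE _ | exact ob _ _ _ | exact ot _ _ _ | exact obc _ | exact otc _ | exact oglue _ _ | exact oU _ _ | exact oY _ _ | exact oYt _ _ | exact oZ _ | apply X.mul) (by repeat first | exact X.one | exact oR _ _ _ | exact oP _ _ | exact oE _ | exact ob _ _ _ | exact ot _ _ _ | exact obc _ | exact otc _ | exact oglue _ _ | exact oU _ _ | exact oY _ _ | exact oYt _ _ | exact oZ _ | apply X.mul) (W.bs )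
  case ts =>
    intro i₀ j₀ u₀
    exact X.inj (by repeat first | exact X.one | exact oR _ _ _ | exact oP _ _ | exact oE _ | exact ob _ _ _ | exact ot _ _ _ | exact obc _ | exact otc _ | exact oglue _ _ | exact oU _ _ | exact oY _ _ | exact oYt _ _ | exact oZ _ | apply X.mul) (by repeat first | exact X.one | exact oR _ _ _ | exact oP _ _ | exact oE _ | exact ob _ _ _ | exact ot _ _ _ | exact obc _ | exact otc _ | exact oglue _ _ | exact oU _ _ | exact oY _ _ | exact oYt _ _ | exact oZ _ | apply X.mul) (W.ts )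
  case gs =>
    intro i₀ j₀
    exact X.inj (by repeat first | exact X.one | exact oR _ _ _ | exact oP _ _ | exact oE _ | exact ob _ _ _ | exact ot _ _ _ | exact obc _ | exact otc _ | exact oglue _ _ | exact oU _ _ | exact oY _ _ | exact oYt _ _ | exact oZ _ | apply X.mul) (by repeat first | exact X.one | exact oR _ _ _ | exact oP _ _ | exact oE _ | exact ob _ _ _ | exact ot _ _ _ | exact obc _ | exact otc _ | exact oglue _ _ | exact oU _ _ | exact oY _ _ | exact oYt _ _ | exact oZ _ | apply X.mul) (W.gs )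
  case EE =>
    intro i₀
    exact X.inj (by repeat first | exact X.one | exact oR _ _ _ | exact oP _ _ | exact oE _ | exact ob _ _ _ | exact ot _ _ _ | exact obc _ | exact otc _ | exact oglue _ _ | exact oU _ _ | exact oY _ _ | exact oYt _ _ | exact oZ _ | apply X.mul) (by repeat first | exact X.one | exact oR _ _ _ | exact oP _ _ | exact oE _ | exact ob _ _ _ | exact ot _ _ _ | exact obc _ | exact otc _ | exact oglue _ _ | exact oU _ _ | exact oY _ _ | exact oYt _ _ | exact oZ _ | apply X.mul) (W.EE )
  case Eb =>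
    intro i₀ j₀ v₀
    exact X.inj (by repeat first | exact X.one | exact oR _ _ _ | exact oP _ _ | exact oE _ | exact ob _ _ _ | exact ot _ _ _ | exact obc _ | exact otc _ | exact oglue _ _ | exact oU _ _ | exact oY _ _ | exact oYt _ _ | exact oZ _ | apply X.mul) (by repeat first | exact X.one | exact oR _ _ _ | exact oP _ _ | exact oE _ | exact ob _ _ _ | exact ot _ _ _ | exact obc _ | exact otc _ | exact oglue _ _ | exact oU _ _ | exact oY _ _ | exact oYt _ _ | exact oZ _ | apply X.mul) (W.Eb )
  case tE =>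
    intro i₀ j₀ v₀
    exact X.inj (by repeat first | exact X.one | exact oR _ _ _ | exact oP _ _ | exact oE _ | exact ob _ _ _ | exact ot _ _ _ | exact obc _ | exact otc _ | exact oglue _ _ | exact oU _ _ | exact oY _ _ | exact oYt _ _ | exact oZ _ | apply X.mul) (by repeat first | exact X.one | exact oR _ _ _ | exact oP _ _ | exact oE _ | exact ob _ _ _ | exact ot _ _ _ | exact obc _ | exact otc _ | exact oglue _ _ | exact oU _ _ | exact oY _ _ | exact oYt _ _ | exact oZ _ | apply X.mul) (W.tE )
  case Ebc =>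
    intro i₀
    exact X.inj (by repeat first | exact X.one | exact oR _ _ _ | exact oP _ _ | exact oE _ | exact ob _ _ _ | exact ot _ _ _ | exact obc _ | exact otc _ | exact oglue _ _ | exact oU _ _ | exact oY _ _ | exact oYt _ _ | exact oZ _ | apply X.mul) (by repeat first | exact X.one | exact oR _ _ _ | exact oP _ _ | exact oE _ | exact ob _ _ _ | exact ot _ _ _ | exact obc _ | exact otc _ | exact oglue _ _ | exact oU _ _ | exact oY _ _ | exact oYt _ _ | exact oZ _ | apply X.mul) (W.Ebc )
  case tcE =>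
    intro i₀
    exact X.inj (by repeat first | exact X.one | exact oR _ _ _ | exact oP _ _ | exact oE _ | exact ob _ _ _ | exact ot _ _ _ | exact obc _ | exact otc _ | exact oglue _ _ | exact oU _ _ | exact oY _ _ | exact oYt _ _ | exact oZ _ | apply X.mul) (by repeat first | exact X.one | exact oR _ _ _ | exact oP _ _ | exact oE _ | exact ob _ _ _ | exact ot _ _ _ | exact obc _ | exact otc _ | exact oglue _ _ | exact oU _ _ | exact oY _ _ | exact oYt _ _ | exact oZ _ | apply X.mul) (W.tcE )
  case glueE =>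
    intro i₀ j₀
    exact X.inj (by repeat first | exact X.one | exact oR _ _ _ | exact oP _ _ | exact oE _ | exact ob _ _ _ | exact ot _ _ _ | exact obc _ | exact otc _ | exact oglue _ _ | exact oU _ _ | exact oY _ _ | exact oYt _ _ | exact oZ _ | apply X.mul) (by repeat first | exact X.one | exact oR _ _ _ | exact oP _ _ | exact oE _ | exact ob _ _ _ | exact ot _ _ _ | exact obc _ | exact otc _ | exact oglue _ _ | exact oU _ _ | exact oY _ _ | exact oYt _ _ | exact oZ _ | apply X.mul) (W.glueE )
  case EU =>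
    intro i₀ j₀
    exact X.inj (by repeat first | exact X.one | exact oR _ _ _ | exact oP _ _ | exact oE _ | exact ob _ _ _ | exact ot _ _ _ | exact obc _ | exact otc _ | exact oglue _ _ | exact oU _ _ | exact oY _ _ | exact oYt _ _ | exact oZ _ | apply X.mul) (by repeat first | exact X.one | exact oR _ _ _ | exact oP _ _ | exact oE _ | exact ob _ _ _ | exact ot _ _ _ | exact obc _ | exact otc _ | exact oglue _ _ | exact oU _ _ | exact oY _ _ | exact oYt _ _ | exact oZ _ | apply X.mul) (W.EU )
  case YtE =>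
    intro i₀ j₀
    exact X.inj (by repeat first | exact X.one | exact oR _ _ _ | exact oP _ _ | exact oE _ | exact ob _ _ _ | exact ot _ _ _ | exact obc _ | exact otc _ | exact oglue _ _ | exact oU _ _ | exact oY _ _ | exact oYt _ _ | exact oZ _ | apply X.mul) (by repeat first | exact X.one | exact oR _ _ _ | exact oP _ _ | exact oE _ | exact ob _ _ _ | exact ot _ _ _ | exact obc _ | exact otc _ | exact oglue _ _ | exact oU _ _ | exact oY _ _ | exact oYt _ _ | exact oZ _ | apply X.mul) (W.YtE )
  case PP =>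
    intro i₀ j₀ h1
    exact X.inj (by repeat first | exact X.one | exact oR _ _ _ | exact oP _ _ | exact oE _ | exact ob _ _ _ | exact ot _ _ _ | exact obc _ | exact otc _ | exact oglue _ _ | exact oU _ _ | exact oY _ _ | exact oYt _ _ | exact oZ _ | apply X.mul) (by repeat first | exact X.one | exact oR _ _ _ | exact oP _ _ | exact oE _ | exact ob _ _ _ | exact ot _ _ _ | exact obc _ | exact otc _ | exact oglue _ _ | exact oU _ _ | exact oY _ _ | exact oYt _ _ | exact oZ _ | apply X.mul) (W.PP h1)
  case PE =>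
    intro i₀ j₀ h1
    exact X.inj (by repeat first | exact X.one | exact oR _ _ _ | exact oP _ _ | exact oE _ | exact ob _ _ _ | exact ot _ _ _ | exact obc _ | exact otc _ | exact oglue _ _ | exact oU _ _ | exact oY _ _ | exact oYt _ _ | exact oZ _ | apply X.mul) (by repeat first | exact X.one | exact oR _ _ _ | exact oP _ _ | exact oE _ | exact ob _ _ _ | exact ot _ _ _ | exact obc _ | exact otc _ | exact oglue _ _ | exact oU _ _ | exact oY _ _ | exact oYt _ _ | exact oZ _ | apply X.mul) (W.PE h1)
  case PR =>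
    intro i₀ j₀ k₀ u₀ h1 h2 h3
    exact X.inj (by repeat first | exact X.one | exact oR _ _ _ | exact oP _ _ | exact oE _ | exact ob _ _ _ | exact ot _ _ _ | exact obc _ | exact otc _ | exact oglue _ _ | exact oU _ _ | exact oY _ _ | exact oYt _ _ | exact oZ _ | apply X.mul) (by repeat first | exact X.one | exact oR _ _ _ | exact oP _ _ | exact oE _ | exact ob _ _ _ | exact ot _ _ _ | exact obc _ | exact otc _ | exact oglue _ _ | exact oU _ _ | exact oY _ _ | exact oYt _ _ | exact oZ _ | apply X.mul) (W.PR h1 h2 h3)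
  case PR' =>
    intro i₀ j₀ u₀ h1
    exact X.inj (by repeat first | exact X.one | exact oR _ _ _ | exact oP _ _ | exact oE _ | exact ob _ _ _ | exact ot _ _ _ | exact obc _ | exact otc _ | exact oglue _ _ | exact oU _ _ | exact oY _ _ | exact oYt _ _ | exact oZ _ | apply X.mul) (by repeat first | exact X.one | exact oR _ _ _ | exact oP _ _ | exact oE _ | exact ob _ _ _ | exact ot _ _ _ | exact obc _ | exact otc _ | exact oglue _ _ | exact oU _ _ | exact oY _ _ | exact oYt _ _ | exact oZ _ | apply X.mul) (W.PR' h1)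
  case Pb =>
    intro i₀ j₀ k₀ v₀ h1 h2 h3
    exact X.inj (by repeat first | exact X.one | exact oR _ _ _ | exact oP _ _ | exact oE _ | exact ob _ _ _ | exact ot _ _ _ | exact obc _ | exact otc _ | exact oglue _ _ | exact oU _ _ | exact oY _ _ | exact oYt _ _ | exact oZ _ | apply X.mul) (by repeat first | exact X.one | exact oR _ _ _ | exact oP _ _ | exact oE _ | exact ob _ _ _ | exact ot _ _ _ | exact obc _ | exact otc _ | exact oglue _ _ | exact oU _ _ | exact oY _ _ | exact oYt _ _ | exact oZ _ | apply X.mul) (W.Pb h1 h2 h3)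
  case Pt =>
    intro i₀ j₀ k₀ v₀ h1 h2 h3
    exact X.inj (by repeat first | exact X.one | exact oR _ _ _ | exact oP _ _ | exact oE _ | exact ob _ _ _ | exact ot _ _ _ | exact obc _ | exact otc _ | exact oglue _ _ | exact oU _ _ | exact oY _ _ | exact oYt _ _ | exact oZ _ | apply X.mul) (by repeat first | exact X.one | exact oR _ _ _ | exact oP _ _ | exact oE _ | exact ob _ _ _ | exact ot _ _ _ | exact obc _ | exact otc _ | exact oglue _ _ | exact oU _ _ | exact oY _ _ | exact oYt _ _ | exact oZ _ | apply X.mul) (W.Pt h1 h2 h3)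
  case Pbc =>
    intro i₀ j₀ h1
    exact X.inj (by repeat first | exact X.one | exact oR _ _ _ | exact oP _ _ | exact oE _ | exact ob _ _ _ | exact ot _ _ _ | exact obc _ | exact otc _ | exact oglue _ _ | exact oU _ _ | exact oY _ _ | exact oYt _ _ | exact oZ _ | apply X.mul) (by repeat first | exact X.one | exact oR _ _ _ | exact oP _ _ | exact oE _ | exact ob _ _ _ | exact ot _ _ _ | exact obc _ | exact otc _ | exact oglue _ _ | exact oU _ _ | exact oY _ _ | exact oYt _ _ | exact oZ _ | apply X.mul) (W.Pbc h1)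
  case Ptc =>
    intro i₀ j₀ h1
    exact X.inj (by repeat first | exact X.one | exact oR _ _ _ | exact oP _ _ | exact oE _ | exact ob _ _ _ | exact ot _ _ _ | exact obc _ | exact otc _ | exact oglue _ _ | exact oU _ _ | exact oY _ _ | exact oYt _ _ | exact oZ _ | apply X.mul) (by repeat first | exact X.one | exact oR _ _ _ | exact oP _ _ | exact oE _ | exact ob _ _ _ | exact ot _ _ _ | exact obc _ | exact otc _ | exact oglue _ _ | exact oU _ _ | exact oY _ _ | exact oYt _ _ | exact oZ _ | apply X.mul) (W.Ptc h1)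
  case Pglue =>
    intro i₀ j₀ k₀ h1 h2 h3
    exact X.inj (by repeat first | exact X.one | exact oR _ _ _ | exact oP _ _ | exact oE _ | exact ob _ _ _ | exact ot _ _ _ | exact obc _ | exact otc _ | exact oglue _ _ | exact oU _ _ | exact oY _ _ | exact oYt _ _ | exact oZ _ | apply X.mul) (by repeat first | exact X.one | exact oR _ _ _ | exact oP _ _ | exact oE _ | exact ob _ _ _ | exact ot _ _ _ | exact obc _ | exact otc _ | exact oglue _ _ | exact oU _ _ | exact oY _ _ | exact oYt _ _ | exact oZ _ | apply X.mul) (W.Pglue h1 h2 h3)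
  case cPb =>
    intro i₀ j₀ k₀ m₀ v₀ h1 h2 h3 h4
    exact X.inj (by repeat first | exact X.one | exact oR _ _ _ | exact oP _ _ | exact oE _ | exact ob _ _ _ | exact ot _ _ _ | exact obc _ | exact otc _ | exact oglue _ _ | exact oU _ _ | exact oY _ _ | exact oYt _ _ | exact oZ _ | apply X.mul) (by repeat first | exact X.one | exact oR _ _ _ | exact oP _ _ | exact oE _ | exact ob _ _ _ | exact ot _ _ _ | exact obc _ | exact otc _ | exact oglue _ _ | exact oU _ _ | exact oY _ _ | exact oYt _ _ | exact oZ _ | apply X.mul) (W.cPb h1 h2 h3 h4)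
  case cPt =>
    intro i₀ j₀ k₀ m₀ v₀ h1 h2 h3 h4
    exact X.inj (by repeat first | exact X.one | exact oR _ _ _ | exact oP _ _ | exact oE _ | exact ob _ _ _ | exact ot _ _ _ | exact obc _ | exact otc _ | exact oglue _ _ | exact oU _ _ | exact oY _ _ | exact oYt _ _ | exact oZ _ | apply X.mul) (by repeat first | exact X.one | exact oR _ _ _ | exact oP _ _ | exact oE _ | exact ob _ _ _ | exact ot _ _ _ | exact obc _ | exact otc _ | exact oglue _ _ | exact oU _ _ | exact oY _ _ | exact oYt _ _ | exact oZ _ | apply X.mul) (W.cPt h1 h2 h3 h4)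
  case cPE =>
    intro i₀ j₀ k₀ h1 h2
    exact X.inj (by repeat first | exact X.one | exact oR _ _ _ | exact oP _ _ | exact oE _ | exact ob _ _ _ | exact ot _ _ _ | exact obc _ | exact otc _ | exact oglue _ _ | exact oU _ _ | exact oY _ _ | exact oYt _ _ | exact oZ _ | apply X.mul) (by repeat first | exact X.one | exact oR _ _ _ | exact oP _ _ | exact oE _ | exact ob _ _ _ | exact ot _ _ _ | exact obc _ | exact otc _ | exact oglue _ _ | exact oU _ _ | exact oY _ _ | exact oYt _ _ | exact oZ _ | apply X.mul) (W.cPE h1 h2)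
  case L1 =>
    intro i₀ j₀ u₀ h1 h2 h3
    exact X.inj (by repeat first | exact X.one | exact oR _ _ _ | exact oP _ _ | exact oE _ | exact ob _ _ _ | exact ot _ _ _ | exact obc _ | exact otc _ | exact oglue _ _ | exact oU _ _ | exact oY _ _ | exact oYt _ _ | exact oZ _ | apply X.mul) (by repeat first | exact X.one | exact oR _ _ _ | exact oP _ _ | exact oE _ | exact ob _ _ _ | exact ot _ _ _ | exact obc _ | exact otc _ | exact oglue _ _ | exact oU _ _ | exact oY _ _ | exact oYt _ _ | exact oZ _ | apply X.mul) (W.L1 h1 h2 h3)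
  case L2 =>
    intro i₀ j₀ k₀ u₀ w₀ h1 h2 h3 h4 h5 h6
    exact X.inj (by repeat first | exact X.one | exact oR _ _ _ | exact oP _ _ | exact oE _ | exact ob _ _ _ | exact ot _ _ _ | exact obc _ | exact otc _ | exact oglue _ _ | exact oU _ _ | exact oY _ _ | exact oYt _ _ | exact oZ _ | apply X.mul) (by repeat first | exact X.one | exact oR _ _ _ | exact oP _ _ | exact oE _ | exact ob _ _ _ | exact ot _ _ _ | exact obc _ | exact otc _ | exact oglue _ _ | exact oU _ _ | exact oY _ _ | exact oYt _ _ | exact oZ _ | apply X.mul) (W.L2 h1 h2 h3 h4 h5 h6)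
  case L3 =>
    intro i₀ j₀ h1
    exact X.inj (by repeat first | exact X.one | exact oR _ _ _ | exact oP _ _ | exact oE _ | exact ob _ _ _ | exact ot _ _ _ | exact obc _ | exact otc _ | exact oglue _ _ | exact oU _ _ | exact oY _ _ | exact oYt _ _ | exact oZ _ | apply X.mul) (by repeat first | exact X.one | exact oR _ _ _ | exact oP _ _ | exact oE _ | exact ob _ _ _ | exact ot _ _ _ | exact obc _ | exact otc _ | exact oglue _ _ | exact oU _ _ | exact oY _ _ | exact oYt _ _ | exact oZ _ | apply X.mul) (W.L3 h1)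
  case C1 =>
    intro i₀ j₀ v₀ h1 h2 h3 h4
    exact X.inj (by repeat first | exact X.one | exact oR _ _ _ | exact oP _ _ | exact oE _ | exact ob _ _ _ | exact ot _ _ _ | exact obc _ | exact otc _ | exact oglue _ _ | exact oU _ _ | exact oY _ _ | exact oYt _ _ | exact oZ _ | apply X.mul) (by repeat first | exact X.one | exact oR _ _ _ | exact oP _ _ | exact oE _ | exact ob _ _ _ | exact ot _ _ _ | exact obc _ | exact otc _ | exact oglue _ _ | exact oU _ _ | exact oY _ _ | exact oYt _ _ | exact oZ _ | apply X.mul) (W.C1 h1 h2 h3 h4)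
  case C2 =>
    intro i₀ j₀ v₀ h1 h2 h3 h4
    exact X.inj (by repeat first | exact X.one | exact oR _ _ _ | exact oP _ _ | exact oE _ | exact ob _ _ _ | exact ot _ _ _ | exact obc _ | exact otc _ | exact oglue _ _ | exact oU _ _ | exact oY _ _ | exact oYt _ _ | exact oZ _ | apply X.mul) (by repeat first | exact X.one | exact oR _ _ _ | exact oP _ _ | exact oE _ | exact ob _ _ _ | exact ot _ _ _ | exact obc _ | exact otc _ | exact oglue _ _ | exact oU _ _ | exact oY _ _ | exact oYt _ _ | exact oZ _ | apply X.mul) (W.C2 h1 h2 h3 h4)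
  case CF =>
    intro i₀ j₀ c₀ v₀ h1 h2 h3 h4 h5 h6
    exact X.inj (by repeat first | exact X.one | exact oR _ _ _ | exact oP _ _ | exact oE _ | exact ob _ _ _ | exact ot _ _ _ | exact obc _ | exact otc _ | exact oglue _ _ | exact oU _ _ | exact oY _ _ | exact oYt _ _ | exact oZ _ | apply X.mul) (by repeat first | exact X.one | exact oR _ _ _ | exact oP _ _ | exact oE _ | exact ob _ _ _ | exact ot _ _ _ | exact obc _ | exact otc _ | exact oglue _ _ | exact oU _ _ | exact oY _ _ | exact oYt _ _ | exact oZ _ | apply X.mul) (W.CF h1 h2 h3 h4 h5 h6)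
  case CT =>
    intro i₀ j₀ c₀ v₀ h1 h2 h3 h4 h5 h6
    exact X.inj (by repeat first | exact X.one | exact oR _ _ _ | exact oP _ _ | exact oE _ | exact ob _ _ _ | exact ot _ _ _ | exact obc _ | exact otc _ | exact oglue _ _ | exact oU _ _ | exact oY _ _ | exact oYt _ _ | exact oZ _ | apply X.mul) (by repeat first | exact X.one | exact oR _ _ _ | exact oP _ _ | exact oE _ | exact ob _ _ _ | exact ot _ _ _ | exact obc _ | exact otc _ | exact oglue _ _ | exact oU _ _ | exact oY _ _ | exact oYt _ _ | exact oZ _ | apply X.mul) (W.CT h1 h2 h3 h4 h5 h6)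
  case bh =>
    intro i₀ j₀ h1
    exact X.inj (by repeat first | exact X.one | exact oR _ _ _ | exact oP _ _ | exact oE _ | exact ob _ _ _ | exact ot _ _ _ | exact obc _ | exact otc _ | exact oglue _ _ | exact oU _ _ | exact oY _ _ | exact oYt _ _ | exact oZ _ | apply X.mul) (by repeat first | exact X.one | exact oR _ _ _ | exact oP _ _ | exact oE _ | exact ob _ _ _ | exact ot _ _ _ | exact obc _ | exact otc _ | exact oglue _ _ | exact oU _ _ | exact oY _ _ | exact oYt _ _ | exact oZ _ | apply X.mul) (W.bh h1)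
  case th =>
    intro i₀ j₀ h1
    exact X.inj (by repeat first | exact X.one | exact oR _ _ _ | exact oP _ _ | exact oE _ | exact ob _ _ _ | exact ot _ _ _ | exact obc _ | exact otc _ | exact oglue _ _ | exact oU _ _ | exact oY _ _ | exact oYt _ _ | exact oZ _ | apply X.mul) (by repeat first | exact X.one | exact oR _ _ _ | exact oP _ _ | exact oE _ | exact ob _ _ _ | exact ot _ _ _ | exact obc _ | exact otc _ | exact oglue _ _ | exact oU _ _ | exact oY _ _ | exact oYt _ _ | exact oZ _ | apply X.mul) (W.th h1)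
  case CU =>
    intro i₀ j₀ r₀ u₀ h1 h2 h3 h4 h5
    exact X.inj (by repeat first | exact X.one | exact oR _ _ _ | exact oP _ _ | exact oE _ | exact ob _ _ _ | exact ot _ _ _ | exact obc _ | exact otc _ | exact oglue _ _ | exact oU _ _ | exact oY _ _ | exact oYt _ _ | exact oZ _ | apply X.mul) (by repeat first | exact X.one | exact oR _ _ _ | exact oP _ _ | exact oE _ | exact ob _ _ _ | exact ot _ _ _ | exact obc _ | exact otc _ | exact oglue _ _ | exact oU _ _ | exact oY _ _ | exact oYt _ _ | exact oZ _ | apply X.mul) (W.CU h1 h2 h3 h4 h5)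
  case CU2 =>
    intro i₀ j₀ r₀ u₀ h1 h2 h3 h4 h5
    exact X.inj (by repeat first | exact X.one | exact oR _ _ _ | exact oP _ _ | exact oE _ | exact ob _ _ _ | exact ot _ _ _ | exact obc _ | exact otc _ | exact oglue _ _ | exact oU _ _ | exact oY _ _ | exact oYt _ _ | exact oZ _ | apply X.mul) (by repeat first | exact X.one | exact oR _ _ _ | exact oP _ _ | exact oE _ | exact ob _ _ _ | exact ot _ _ _ | exact obc _ | exact otc _ | exact oglue _ _ | exact oU _ _ | exact oY _ _ | exact oYt _ _ | exact oZ _ | apply X.mul) (W.CU2 h1 h2 h3 h4 h5)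
  case t0 =>
    intro i₀ j₀ h1
    exact X.inj (by repeat first | exact X.one | exact oR _ _ _ | exact oP _ _ | exact oE _ | exact ob _ _ _ | exact ot _ _ _ | exact obc _ | exact otc _ | exact oglue _ _ | exact oU _ _ | exact oY _ _ | exact oYt _ _ | exact oZ _ | apply X.mul) (by repeat first | exact X.one | exact oR _ _ _ | exact oP _ _ | exact oE _ | exact ob _ _ _ | exact ot _ _ _ | exact obc _ | exact otc _ | exact oglue _ _ | exact oU _ _ | exact oY _ _ | exact oYt _ _ | exact oZ _ | apply X.mul) (W.t0 h1)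
  case b0 =>
    intro i₀ j₀ h1
    exact X.inj (by repeat first | exact X.one | exact oR _ _ _ | exact oP _ _ | exact oE _ | exact ob _ _ _ | exact ot _ _ _ | exact obc _ | exact otc _ | exact oglue _ _ | exact oU _ _ | exact oY _ _ | exact oYt _ _ | exact oZ _ | apply X.mul) (by repeat first | exact X.one | exact oR _ _ _ | exact oP _ _ | exact oE _ | exact ob _ _ _ | exact ot _ _ _ | exact obc _ | exact otc _ | exact oglue _ _ | exact oU _ _ | exact oY _ _ | exact oYt _ _ | exact oZ _ | apply X.mul) (W.b0 h1)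
  case R3 =>
    intro i₀ j₀ h1
    exact X.inj (by repeat first | exact X.one | exact oR _ _ _ | exact oP _ _ | exact oE _ | exact ob _ _ _ | exact ot _ _ _ | exact obc _ | exact otc _ | exact oglue _ _ | exact oU _ _ | exact oY _ _ | exact oYt _ _ | exact oZ _ | apply X.mul) (by repeat first | exact X.one | exact oR _ _ _ | exact oP _ _ | exact oE _ | exact ob _ _ _ | exact ot _ _ _ | exact obc _ | exact otc _ | exact oglue _ _ | exact oU _ _ | exact oY _ _ | exact oYt _ _ | exact oZ _ | apply X.mul) (W.R3 h1)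
  case FI =>
    intro i₀ j₀ i'₀ j'₀ v₀ h1 h2 h3 h4 h5 h6 h7 h8 h9 h10
    exact X.inj (by repeat first | exact X.one | exact oR _ _ _ | exact oP _ _ | exact oE _ | exact ob _ _ _ | exact ot _ _ _ | exact obc _ | exact otc _ | exact oglue _ _ | exact oU _ _ | exact oY _ _ | exact oYt _ _ | exact oZ _ | apply X.mul) (by repeat first | exact X.one | exact oR _ _ _ | exact oP _ _ | exact oE _ | exact ob _ _ _ | exact ot _ _ _ | exact obc _ | exact otc _ | exact oglue _ _ | exact oU _ _ | exact oY _ _ | exact oYt _ _ | exact oZ _ | apply X.mul) (W.FI h1 h2 h3 h4 h5 h6 h7 h8 h9 h10)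
  case TI =>
    intro i₀ n₀ i'₀ j'₀ v₀ h1 h2 h3 h4 h5 h6 h7 h8 h9 h10
    exact X.inj (by repeat first | exact X.one | exact oR _ _ _ | exact oP _ _ | exact oE _ | exact ob _ _ _ | exact ot _ _ _ | exact obc _ | exact otc _ | exact oglue _ _ | exact oU _ _ | exact oY _ _ | exact oYt _ _ | exact oZ _ | apply X.mul) (by repeat first | exact X.one | exact oR _ _ _ | exact oP _ _ | exact oE _ | exact ob _ _ _ | exact ot _ _ _ | exact obc _ | exact otc _ | exact oglue _ _ | exact oU _ _ | exact oY _ _ | exact oYt _ _ | exact oZ _ | apply X.mul) (W.TI h1 h2 h3 h4 h5 h6 h7 h8 h9 h10)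
  case R2 =>
    intro i₀ j₀ h1
    exact X.inj (by repeat first | exact X.one | exact oR _ _ _ | exact oP _ _ | exact oE _ | exact ob _ _ _ | exact ot _ _ _ | exact obc _ | exact otc _ | exact oglue _ _ | exact oU _ _ | exact oY _ _ | exact oYt _ _ | exact oZ _ | apply X.mul) (by repeat first | exact X.one | exact oR _ _ _ | exact oP _ _ | exact oE _ | exact ob _ _ _ | exact ot _ _ _ | exact obc _ | exact otc _ | exact oglue _ _ | exact oU _ _ | exact oY _ _ | exact oYt _ _ | exact oZ _ | apply X.mul) (W.R2 h1)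
  case B1 =>
    intro i₀ j₀ r₀ w₀ h1 h2 h3 h4 h5 h6
    exact X.inj (by repeat first | exact X.one | exact oR _ _ _ | exact oP _ _ | exact oE _ | exact ob _ _ _ | exact ot _ _ _ | exact obc _ | exact otc _ | exact oglue _ _ | exact oU _ _ | exact oY _ _ | exact oYt _ _ | exact oZ _ | apply X.mul) (by repeat first | exact X.one | exact oR _ _ _ | exact oP _ _ | exact oE _ | exact ob _ _ _ | exact ot _ _ _ | exact obc _ | exact otc _ | exact oglue _ _ | exact oU _ _ | exact oY _ _ | exact oYt _ _ | exact oZ _ | apply X.mul) (W.B1 h1 h2 h3 h4 h5 h6)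
  case B2 =>
    intro i₀ j₀ r₀ w₀ h1 h2 h3 h4 h5 h6
    exact X.inj (by repeat first | exact X.one | exact oR _ _ _ | exact oP _ _ | exact oE _ | exact ob _ _ _ | exact ot _ _ _ | exact obc _ | exact otc _ | exact oglue _ _ | exact oU _ _ | exact oY _ _ | exact oYt _ _ | exact oZ _ | apply X.mul) (by repeat first | exact X.one | exact oR _ _ _ | exact oP _ _ | exact oE _ | exact ob _ _ _ | exact ot _ _ _ | exact obc _ | exact otc _ | exact oglue _ _ | exact oU _ _ | exact oY _ _ | exact oYt _ _ | exact oZ _ | apply X.mul) (W.B2 h1 h2 h3 h4 h5 h6)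
  case Y3 =>
    intro i₀ n₀ i'₀ j'₀ v₀ h1 h2 h3 h4 h5 h6 h7 h8 h9 h10
    exact X.inj (by repeat first | exact X.one | exact oR _ _ _ | exact oP _ _ | exact oE _ | exact ob _ _ _ | exact ot _ _ _ | exact obc _ | exact otc _ | exact oglue _ _ | exact oU _ _ | exact oY _ _ | exact oYt _ _ | exact oZ _ | apply X.mul) (by repeat first | exact X.one | exact oR _ _ _ | exact oP _ _ | exact oE _ | exact ob _ _ _ | exact ot _ _ _ | exact obc _ | exact otc _ | exact oglue _ _ | exact oU _ _ | exact oY _ _ | exact oYt _ _ | exact oZ _ | apply X.mul) (W.Y3 h1 h2 h3 h4 h5 h6 h7 h8 h9 h10)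
  case Y4 =>
    intro i₀ j₀ i'₀ j'₀ v₀ h1 h2 h3 h4 h5 h6 h7 h8 h9 h10
    exact X.inj (by repeat first | exact X.one | exact oR _ _ _ | exact oP _ _ | exact oE _ | exact ob _ _ _ | exact ot _ _ _ | exact obc _ | exact otc _ | exact oglue _ _ | exact oU _ _ | exact oY _ _ | exact oYt _ _ | exact oZ _ | apply X.mul) (by repeat first | exact X.one | exact oR _ _ _ | exact oP _ _ | exact oE _ | exact ob _ _ _ | exact ot _ _ _ | exact obc _ | exact otc _ | exact oglue _ _ | exact oU _ _ | exact oY _ _ | exact oYt _ _ | exact oZ _ | apply X.mul) (W.Y4 h1 h2 h3 h4 h5 h6 h7 h8 h9 h10)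
  case Y5 =>
    intro i₀ n₀ r₀ h1 h2 h3
    exact X.inj (by repeat first | exact X.one | exact oR _ _ _ | exact oP _ _ | exact oE _ | exact ob _ _ _ | exact ot _ _ _ | exact obc _ | exact otc _ | exact oglue _ _ | exact oU _ _ | exact oY _ _ | exact oYt _ _ | exact oZ _ | apply X.mul) (by repeat first | exact X.one | exact oR _ _ _ | exact oP _ _ | exact oE _ | exact ob _ _ _ | exact ot _ _ _ | exact obc _ | exact otc _ | exact oglue _ _ | exact oU _ _ | exact oY _ _ | exact oYt _ _ | exact oZ _ | apply X.mul) (W.Y5 h1 h2 h3)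
  case qq => exact W.qq
  case ZZ =>
    intro i₀
    exact X.inj (by repeat first | exact X.one | exact oR _ _ _ | exact oP _ _ | exact oE _ | exact ob _ _ _ | exact ot _ _ _ | exact obc _ | exact otc _ | exact oglue _ _ | exact oU _ _ | exact oY _ _ | exact oYt _ _ | exact oZ _ | apply X.mul) (by repeat first | exact X.one | exact oR _ _ _ | exact oP _ _ | exact oE _ | exact ob _ _ _ | exact ot _ _ _ | exact obc _ | exact otc _ | exact oglue _ _ | exact oU _ _ | exact oY _ _ | exact oYt _ _ | exact oZ _ | apply X.mul) (W.ZZ )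
  case Rp =>
    intro i₀ j₀ u₀ h1
    exact X.inj (by repeat first | exact X.one | exact oR _ _ _ | exact oP _ _ | exact oE _ | exact ob _ _ _ | exact ot _ _ _ | exact obc _ | exact otc _ | exact oglue _ _ | exact oU _ _ | exact oY _ _ | exact oYt _ _ | exact oZ _ | apply X.mul) (by repeat first | exact X.one | exact oR _ _ _ | exact oP _ _ | exact oE _ | exact ob _ _ _ | exact ot _ _ _ | exact obc _ | exact otc _ | exact oglue _ _ | exact oU _ _ | exact oY _ _ | exact oYt _ _ | exact oZ _ | apply X.mul) (W.Rp h1)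
  case bp =>
    intro i₀ j₀ v₀ h1
    exact X.inj (by repeat first | exact X.one | exact oR _ _ _ | exact oP _ _ | exact oE _ | exact ob _ _ _ | exact ot _ _ _ | exact obc _ | exact otc _ | exact oglue _ _ | exact oU _ _ | exact oY _ _ | exact oYt _ _ | exact oZ _ | apply X.mul) (by repeat first | exact X.one | exact oR _ _ _ | exact oP _ _ | exact oE _ | exact ob _ _ _ | exact ot _ _ _ | exact obc _ | exact otc _ | exact oglue _ _ | exact oU _ _ | exact oY _ _ | exact oYt _ _ | exact oZ _ | apply X.mul) (W.bp h1)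
  case tp =>
    intro i₀ j₀ v₀ h1
    exact X.inj (by repeat first | exact X.one | exact oR _ _ _ | exact oP _ _ | exact oE _ | exact ob _ _ _ | exact ot _ _ _ | exact obc _ | exact otc _ | exact oglue _ _ | exact oU _ _ | exact oY _ _ | exact oYt _ _ | exact oZ _ | apply X.mul) (by repeat first | exact X.one | exact oR _ _ _ | exact oP _ _ | exact oE _ | exact ob _ _ _ | exact ot _ _ _ | exact obc _ | exact otc _ | exact oglue _ _ | exact oU _ _ | exact oY _ _ | exact oYt _ _ | exact oZ _ | apply X.mul) (W.tp h1)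
  case tq =>
    intro i₀ j₀ h1
    exact X.inj (by repeat first | exact X.one | exact oR _ _ _ | exact oP _ _ | exact oE _ | exact ob _ _ _ | exact ot _ _ _ | exact obc _ | exact otc _ | exact oglue _ _ | exact oU _ _ | exact oY _ _ | exact oYt _ _ | exact oZ _ | apply X.mul) (by repeat first | exact X.one | exact oR _ _ _ | exact oP _ _ | exact oE _ | exact ob _ _ _ | exact ot _ _ _ | exact obc _ | exact otc _ | exact oglue _ _ | exact oU _ _ | exact oY _ _ | exact oYt _ _ | exact oZ _ | apply X.mul) (W.tq h1)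
  case bq =>
    intro i₀ j₀ h1
    exact X.inj (by repeat first | exact X.one | exact oR _ _ _ | exact oP _ _ | exact oE _ | exact ob _ _ _ | exact ot _ _ _ | exact obc _ | exact otc _ | exact oglue _ _ | exact oU _ _ | exact oY _ _ | exact oYt _ _ | exact oZ _ | apply X.mul) (by repeat first | exact X.one | exact oR _ _ _ | exact oP _ _ | exact oE _ | exact ob _ _ _ | exact ot _ _ _ | exact obc _ | exact otc _ | exact oglue _ _ | exact oU _ _ | exact oY _ _ | exact oYt _ _ | exact oZ _ | apply X.mul) (W.bq h1)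

end Pool.Agent.EXL.Glob
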