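import Pool.Agent.NUF.Words
import Pool.Agent.NUF.LawsRel
import Pool.Agent.EXL.LawsInst

/-!
# The loop gas: operators on functions of labelled states, and their laws

`cops ν` = the local operators of the exact solution without ends, on functions of labelled states on the set
of labels; a closed loop with label `g` has weight `ν g`.
-/

set_option autoImplicit false

namespace Pool.Agent.NUF

open EXL (Wt okR okC LabMap ops)

/-- The weights of the caps. -/
noncomputable abbrev kK := EXL.kK

section hat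

variable {β : Type*} [DecidableEq β]

/-- Add a joined pair of ends. -/
def hat (q : EXL.Pat β) : EXL.Pat (β ⊕ Bool) where
  f := Sum.elim (fun x => Sum.inl (q x)) (fun c => Sum.inr (!c))
  inv y := by rcases y with y | y <;> simp

omit [DecidableEq β] in
theorem hat_inl (q : EXL.Pat β) (x : β) : hat q (Sum.inl x) = Sum.inl (q x) := rfl

omit [DecidableEq β] in
theorem hat_inr (q : EXL.Pat β) (c : Bool) : hat q (Sum.inr c) = Sum.inr (!c) := rfl

theorem hat_swap (i j : β) (q : EXL.Pat β) :
    EXL.Pat.swap (Sum.inl i) (Sum.inl j) (hat q) = hat (EXL.Pat.swap i j q) := by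
  have hs : ∀ x : β, Equiv.swap (Sum.inl i : β ⊕ Bool) (Sum.inl j) (Sum.inl x) =
      Sum.inl (Equiv.swap i j x) := fun x => swap_map Sum.inl_injective i j x
  have ho : ∀ c : Bool, Equiv.swap (Sum.inl i : β ⊕ Bool) (Sum.inl j) (Sum.inr c) = Sum.inr c :=
    fun c => Equiv.swap_apply_of_ne_of_ne (by simp) (by simp)
  ext y
  rcases y with y | y
  · rw [EXL.swap_apply, hs, hat_inl, hs, hat_inl, EXL.swap_apply]
  · rw [EXL.swap_apply, ho, hat_inr, ho, hat_inr]

theorem hat_cup (i j : β) (q : EXL.Pat β) :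
    EXL.Pat.cup (Sum.inl i) (Sum.inl j) (hat q) = hat (EXL.Pat.cup i j q) := by
  ext y
  rcases y with y | y
  · simp only [EXL.Pat.cup, hat_inl, Sum.inl.injEq]
    split_ifs <;> rfl
  · simp only [EXL.Pat.cup, hat_inr, hat_inl, Sum.inl.injEq]
    split_ifs <;> simp_all

theorem hat_cut (i j : β) (q : EXL.Pat β) :
    EXL.Pat.cut (Sum.inl i) (Sum.inl j) (hat q) = hat (EXL.Pat.cut i j q) := by
  ext y
  rcases y with y | y
  · simp only [EXL.Pat.cut, hat_inl, Sum.inl.injEq, ne_eq]
    split_ifs <;> rfl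
  · simp only [EXL.Pat.cut, hat_inr, hat_inl, Sum.inl.injEq, ne_eq, reduceCtorEq, if_false, ite_self]

end hat

section relc

variable {ι β K : Type*} [DecidableEq β] [CommRing K] (φ : ι → β)

/-- The operator `X` with ends acts on the states with joined ends like the word `w`. -/
def RelC (X : Module.End K (EXL.Pat (β ⊕ Bool) → K)) (w : Wd K ι) : Prop :=
  ∀ (G : EXL.Pat (β ⊕ Bool) → K) (H : EXL.Pat β → K), (∀ q, G (hat q) = H q) →
    ∀ q, X G (hat q) = rep0 K φ w H q

variable {φ}

theorem RelC.mul {X Y : Module.End K (EXL.Pat (β ⊕ Bool) → K)} {w v : Wd K ι} (h : RelC φ X w)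
    (h' : RelC φ Y v) : RelC φ (X * Y) (w * v) := by
  intro G H hGH q
  rw [map_mul]
  exact h _ _ (h' G H hGH) q

theorem RelC.one : RelC φ (1 : Module.End K (EXL.Pat (β ⊕ Bool) → K)) 1 := by
  intro G H hGH q
  rw [map_one]
  exact hGH q

theorem RelC.zero : RelC φ (0 : Module.End K (EXL.Pat (β ⊕ Bool) → K)) 0 := by
  intro G H hGH q
  rw [map_zero]
  rfl

/-- Words without ends. -/
theorem RelC.word (w : Wd K ι) :
    RelC φ (rep0 K (fun x => (Sum.inl (φ x) : β ⊕ Bool)) w) w := by
  induction w using Wd.ind with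
  | h0 r =>
    intro G H h q
    rw [AlgHom.commutes, AlgHom.commutes]
    simp only [Module.algebraMap_end_apply, Pi.smul_apply, h q]
  | h1 a =>
    intro G H h q
    rw [rep0, rep0, FreeAlgebra.lift_ι_apply, FreeAlgebra.lift_ι_apply]
    cases a with
    | e i =>
      simp only [EXL.opE_apply, hat_inl, Sum.inl.injEq, h q]
    | sw i j =>
      simp only [EXL.opSw_apply, hat_swap, h]
    | cu i j =>
      simp only [EXL.opCu_apply, hat_cup, h, EXL.Pat.CuOK, hat_inl, Sum.inl.injEq]
    | ct i j =>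
      simp only [EXL.opCt_apply, hat_cut, h, EXL.Pat.CtOK, hat_inl, Sum.inl.injEq, ne_eq]
  | h2 a b ha hb =>
    rw [map_mul]
    exact ha.mul hb
  | h3 a b ha hb =>
    intro G H h q
    rw [map_add, map_add, LinearMap.add_apply, LinearMap.add_apply, Pi.add_apply, Pi.add_apply,
      ha G H h q, hb G H h q]

theorem RelC.congr {X Y : Module.End K (EXL.Pat (β ⊕ Bool) → K)} {w : Wd K ι} (h : RelC φ X w)
    (e : ∀ (G : EXL.Pat (β ⊕ Bool) → K) (q : EXL.Pat β), Y G (hat q) = X G (hat q)) :
    RelC φ Y w := by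
  intro G H hGH q
  rw [e]
  exact h G H hGH q

end relc

/-! ### The operators -/

section cops

variable {Γ ι : Type*} [AddCommGroup Γ] [DecidableEq ι]

/-- The words of the loop gas. -/
noncomputable def cw : EXL.Glob.Ops (Wd ℂ ι) ι ℂ where
  l := Real.pi / 8
  h := 3 * Real.pi / 16
  R i j u := if i = j then 0 else wR (EXL.rwt u) i j
  P i j := wsw i j
  E i := we i
  b i j v := if i = j then 0 else wbot (EXL.kK (3 * Real.pi / 8 - v)) i j
  t i j v := if i = j then 0 else wtop (EXL.kK v) i j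
  bc i := we i
  tc i := we i
  glue i j := if i = j then 0 else wglue i j
  U i j := if i = j then 0 else wU i j
  Y i j := if i = j then 0 else wY EXL.xh i j
  Yt i j := if i = j then 0 else wYt EXL.xh i j
  Z i := wsg i
  p := Real.pi
  q := Real.pi / 2

/-- **The operators of the loop gas** on functions of labelled states. -/
noncomputable def cops (ν : Γ → ℂ) : EXL.Glob.Ops (Module.End ℂ (LPat Γ ι → ℂ)) ι ℂ where
  l := cw (ι := ι).l
  h := cw (ι := ι).h
  R i j u := repL ν id (cw.R i j u)
  P i j := repL ν id (cw.P i j)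
  E i := repL ν id (cw.E i)
  b i j v := repL ν id (cw.b i j v)
  t i j v := repL ν id (cw.t i j v)
  bc i := repL ν id (cw.bc i)
  tc i := repL ν id (cw.tc i)
  glue i j := repL ν id (cw.glue i j)
  U i j := repL ν id (cw.U i j)
  Y i j := repL ν id (cw.Y i j)
  Yt i j := repL ν id (cw.Yt i j)
  Z i := repL ν id (cw.Z i)
  p := cw (ι := ι).p
  q := cw (ι := ι).q

/-- The labels as sites, with two ends. -/
def LM (ι β : Type*) (φ : ι → β) (hφ : Function.Injective φ) : LabMap ι (β ⊕ Bool) where
  lab i := Sum.inl (φ i)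
  flo := Sum.inr false
  cei := Sum.inr true
  inj i j h := hφ (Sum.inl.inj h)
  ne_flo i := by simp
  ne_cei i := by simp
  flo_ne := by simp

variable {β : Type*} [DecidableEq β] {φ : ι → β} (hφ : Function.Injective φ)

/-- `X` = the operator with ends, `Y` = the operator of the loop gas. -/
def RC (φ : ι → β) (ν : Γ → ℂ) (X : Module.End ℂ (EXL.Pat (β ⊕ Bool) → ℂ))
    (Y : Module.End ℂ (LPat Γ ι → ℂ)) : Prop :=
  ∃ w : Wd ℂ ι, RelC φ X w ∧ Y = repL ν id w

theorem relM_RC [Finite ι] {ν : Γ → ℂ} (hν : ∀ g, ν (-g) = ν g) (h0 : ν 0 = 0) :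
    EXL.Glob.RelM (RC (Γ := Γ) (Sum.inl : ι → ι ⊕ ι) ν) where
  one := ⟨1, RelC.one, by rw [map_one]⟩
  mul := by
    rintro a a' b b' ⟨w, h1, rfl⟩ ⟨v, h2, rfl⟩
    exact ⟨w * v, h1.mul h2, by rw [map_mul]⟩
  inj := by
    rintro a a' b b' ⟨w, h1, rfl⟩ ⟨v, h2, rfl⟩ rfl
    apply transfer hν h0
    refine LinearMap.ext fun H => ?_
    funext q
    classical
    let G : EXL.Pat ((ι ⊕ ι) ⊕ Bool) → ℂ := fun Q => if h : ∃ q, hat q = Q then H h.choose else 0
    have hG : ∀ q, G (hat q) = H q := by
      intro q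
      have hex : ∃ q', hat q' = hat q := ⟨q, rfl⟩
      show (if h : ∃ q', hat q' = hat q then H h.choose else 0) = H q
      rw [dif_pos hex]
      congr 1
      have h3 := hex.choose_spec
      ext x
      have h4 : hat hex.choose (Sum.inl x) = hat q (Sum.inl x) := by rw [h3]
      rw [hat_inl, hat_inl] at h4
      exact Sum.inl.inj h4
    rw [← h1 G H hG q, ← h2 G H hG q]

include hφ in
theorem opsRel_RC (ν : Γ → ℂ) :
    EXL.Glob.OpsRel (RC (Γ := Γ) φ ν) (ops (LM ι β φ hφ)) (cops ν) where
  l := rfl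
  h := rfl
  p := rfl
  q := rfl
  R i j u := by
    refine ⟨cw.R i j u, ?_, rfl⟩
    by_cases h : i = j
    · subst h
      rw [EXL.ops_R0]
      show RelC φ 0 (if i = i then 0 else _)
      rw [if_pos rfl]
      exact RelC.zero
    · rw [EXL.ops_R h]
      show RelC φ _ (if i = j then 0 else _)
      rw [if_neg h]
      exact (RelC.word _).congr fun G q => by rw [rep0_R _ _ (by simpa using fun e => h (hφ e))]; rfl
  P i j := ⟨_, (RelC.word (wsw i j)).congr fun G q => by rw [rep0_sw']; rfl, rfl⟩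
  E i := ⟨_, (RelC.word (we i)).congr fun G q => by rw [rep0_emp]; rfl, rfl⟩
  b i j v := by
    refine ⟨cw.b i j v, ?_, rfl⟩
    by_cases h : i = j
    · subst h
      rw [EXL.ops_b0]
      show RelC φ 0 (if i = i then 0 else _)
      rw [if_pos rfl]
      exact RelC.zero
    · rw [EXL.ops_b h]
      show RelC φ _ (if i = j then 0 else _)
      rw [if_neg h]
      refine (RelC.word _).congr fun G q => ?_
      rw [wbot, map_add, map_mul, map_smul, rep0_e, rep0_e, rep0_cu]
      show EXL.bot _ _ (Sum.inl (φ i)) (Sum.inl (φ j)) (Sum.inr false) G (hat q) = _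
      have hb : hat q (Sum.inr false) ≠ Sum.inr false := by rw [hat_inr]; simp
      simp only [LinearMap.add_apply, Module.End.mul_apply, LinearMap.smul_apply, Pi.add_apply,
        Pi.smul_apply, smul_eq_mul, EXL.opE_apply, EXL.opCu_apply, EXL.bot, EXL.Pat.CuOK]
      by_cases h1 : hat q (Sum.inl (φ i)) = Sum.inl (φ i) <;>
        by_cases h2 : hat q (Sum.inl (φ j)) = Sum.inl (φ j) <;> simp [h1, h2, hb]
  t i j v := by
    refine ⟨cw.t i j v, ?_, rfl⟩
    by_cases h : i = j
    · subst h
      rw [EXL.ops_t0]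
      show RelC φ 0 (if i = i then 0 else _)
      rw [if_pos rfl]
      exact RelC.zero
    · rw [EXL.ops_t h]
      show RelC φ _ (if i = j then 0 else _)
      rw [if_neg h]
      refine (RelC.word _).congr fun G q => ?_
      rw [wtop, map_add, map_mul, map_smul, rep0_e, rep0_e, rep0_ct]
      show EXL.top _ _ (Sum.inl (φ i)) (Sum.inl (φ j)) (Sum.inr true) G (hat q) = _
      have hb : hat q (Sum.inr true) ≠ Sum.inr true := by rw [hat_inr]; simp
      have hij : (Sum.inl (φ i) : β ⊕ Bool) ≠ Sum.inl (φ j) := by simpa using fun e => h (hφ e)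
      simp only [LinearMap.add_apply, Module.End.mul_apply, LinearMap.smul_apply, Pi.add_apply,
        Pi.smul_apply, smul_eq_mul, EXL.opE_apply, EXL.opCt_apply, EXL.top, EXL.Pat.CtOK]
      by_cases h1 : hat q (Sum.inl (φ i)) = Sum.inl (φ i)
      · by_cases h2 : hat q (Sum.inl (φ j)) = Sum.inl (φ j) <;> simp [h1, h2, hb]
      · by_cases h2 : hat q (Sum.inl (φ j)) = Sum.inl (φ j)
        · simp [h1, h2, hb]
        · by_cases h3 : hat q (Sum.inl (φ i)) = Sum.inl (φ j)
          · simp [h1, h2, h3, hb]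
          · simp [h1, h2, h3, hij]
  bc i := by
    refine ⟨_, (RelC.word (we i)).congr fun G q => ?_, rfl⟩
    rw [rep0_emp]
    show EXL.bc (Sum.inl (φ i)) (Sum.inr false) G (hat q) = _
    have hb : hat q (Sum.inr false) ≠ Sum.inr false := by rw [hat_inr]; simp
    simp only [EXL.bc, EXL.emp, if_neg hb]
  tc i := by
    refine ⟨_, (RelC.word (we i)).congr fun G q => ?_, rfl⟩
    rw [rep0_emp]
    show EXL.tc (Sum.inl (φ i)) (Sum.inr true) G (hat q) = _
    have hb : hat q (Sum.inr true) ≠ Sum.inr true := by rw [hat_inr]; simp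
    simp only [EXL.tc, EXL.emp, if_neg hb]
  glue i j := by
    refine ⟨cw.glue i j, ?_, rfl⟩
    by_cases h : i = j
    · subst h
      rw [EXL.ops_glue0]
      show RelC φ 0 (if i = i then 0 else _)
      rw [if_pos rfl]
      exact RelC.zero
    · rw [EXL.ops_glue h]
      show RelC φ _ (if i = j then 0 else _)
      rw [if_neg h]
      exact (RelC.word _).congr fun G q => by
        rw [rep0_glue _ (by simpa using fun e => h (hφ e))]; rfl
  U i j := by
    refine ⟨cw.U i j, ?_, rfl⟩
    by_cases h : i = j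
    · subst h
      rw [EXL.ops_U0]
      show RelC φ 0 (if i = i then 0 else _)
      rw [if_pos rfl]
      exact RelC.zero
    · rw [EXL.ops_U h]
      show RelC φ _ (if i = j then 0 else _)
      rw [if_neg h]
      exact (RelC.word _).congr fun G q => by rw [rep0_U]; rfl
  Y i j := by
    refine ⟨cw.Y i j, ?_, rfl⟩
    by_cases h : i = j
    · subst h
      rw [EXL.ops_Y0]
      show RelC φ 0 (if i = i then 0 else _)
      rw [if_pos rfl]
      exact RelC.zero
    · rw [EXL.ops_Y h]
      show RelC φ _ (if i = j then 0 else _)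
      rw [if_neg h]
      exact (RelC.word _).congr fun G q => by rw [rep0_Y]; rfl
  Yt i j := by
    refine ⟨cw.Yt i j, ?_, rfl⟩
    by_cases h : i = j
    · subst h
      rw [EXL.ops_Yt0]
      show RelC φ 0 (if i = i then 0 else _)
      rw [if_pos rfl]
      exact RelC.zero
    · rw [EXL.ops_Yt h]
      show RelC φ _ (if i = j then 0 else _)
      rw [if_neg h]
      exact (RelC.word _).congr fun G q => by
        rw [rep0_Yt _ _ (by simpa using fun e => h (hφ e))]; rfl
  Z i := ⟨_, (RelC.word (wsg i)).congr fun G q => by rw [rep0_sg]; rfl, rfl⟩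

/-- **The laws hold for the loop gas with labels.** -/
theorem laws [Finite ι] {ν : Γ → ℂ} (hν : ∀ g, ν (-g) = ν g) (h0 : ν 0 = 0) :
    EXL.Glob.Laws (cops (ι := ι) ν) okR okC :=
  EXL.Glob.Laws.rel (relM_RC hν h0) (opsRel_RC (Γ := Γ) (φ := (Sum.inl : ι → ι ⊕ ι))
    Sum.inl_injective ν) (EXL.Ins.laws _)

end cops

end Pool.Agent.NUF
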