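import Pool.Agent.NUF.Gauge

/-!
# The double column with the face between its two lines

`Dop z i j v rows χ`: the line `j` crosses the rows, then the twist `χ` (cut line from the face), then the
line `i` crosses the rows.  `χ` takes the value `g` on the rows below the face and on the line `i`, and 0 on the
rows above the face and on the line `j`.
-/

set_option autoImplicit false

namespace Pool.Agent.NUF

open EXL (okR okC)

variable {Γ ι : Type*} [AddCommGroup Γ] [DecidableEq ι] {ν : Γ → ℂ} {z : ι → ℂ}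

/-- The double column with the twist `χ` between its two lines. -/
noncomputable def Dop (ν : Γ → ℂ) (z : ι → ℂ) (i j : ι) (v : ℂ) (rows : List ι) (χ : ι → Γ) :
    Module.End ℂ (LPat Γ ι → ℂ) :=
  (cops ν).b i j v * (cops ν).M z j v rows * Tw χ *
    (cops ν).M z i ((cops (Γ := Γ) (ι := ι) ν).h + (cops (Γ := Γ) (ι := ι) ν).h - v) rows *
    (cops ν).t i j v

/-- The twist commutes with a line if it is constant on the sites. -/
theorem tM {χ : ι → Γ} {a : ι} {w : ℂ} {rows : List ι} (h : ∀ r ∈ rows, χ a = χ r) :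
    Commute (Tw χ) ((cops ν).M z a w rows) :=
  ((cops ν).M_commute fun r hr => (tR (h r hr) _).symm).symm

section

variable (W : EXL.Glob.Laws (cops (Γ := Γ) (ι := ι) ν) okR okC)
include W

/-- `v = h`: the face is between two ordinary columns. -/
theorem Dop_h {i j : ι} {rows : List ι} (hij : i ≠ j) (hi : i ∉ rows) (hj : j ∉ rows)
    (χ : ι → Γ) :
    Dop ν z i j (cops (Γ := Γ) (ι := ι) ν).h rows χ =
      (cops ν).C z j rows * Tw χ * (cops ν).C z i rows := by
  set S := cops (Γ := Γ) (ι := ι) ν with hS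
  have e : S.h + S.h - S.h = S.h := by abel
  have c1 : S.M z j S.h rows * S.bc i = S.bc i * S.M z j S.h rows := (W.cMbc hij.symm hi).eq
  have c2 : S.M z i S.h rows * S.tc j = S.tc j * S.M z i S.h rows := (W.cMtc hij hj).eq
  have c3 : S.bc i * S.tc j = S.tc j * S.bc i := (W.cbctc hij).eq
  have c4 : Tw χ * S.bc i = S.bc i * Tw χ := (tbc χ i).eq
  have c5 : Tw χ * S.tc j = S.tc j * Tw χ := (ttc χ j).eq
  unfold Dop EXL.Glob.Ops.C
  rw [← hS, e, W.bh hij, W.th hij]
  calc S.bc j * S.bc i * S.M z j S.h rows * Tw χ * S.M z i S.h rows * (S.tc j * S.tc i)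
      = S.bc j * (S.bc i * S.M z j S.h rows) * Tw χ * (S.M z i S.h rows * S.tc j) * S.tc i := by
        simp only [mul_assoc]
    _ = S.bc j * S.M z j S.h rows * S.bc i * (Tw χ * S.tc j) * S.M z i S.h rows * S.tc i := by
        rw [← c1, c2]; simp only [mul_assoc]
    _ = S.bc j * S.M z j S.h rows * (S.bc i * S.tc j) * Tw χ * S.M z i S.h rows * S.tc i := by
        rw [c5]; simp only [mul_assoc]
    _ = S.bc j * S.M z j S.h rows * S.tc j * (S.bc i * Tw χ) * S.M z i S.h rows * S.tc i := by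
        rw [c3]; simp only [mul_assoc]
    _ = _ := by rw [← c4]; simp only [mul_assoc]

/-- **C1, first case**: at `v = z k`, `k` below the face, the row `k` is dragged above the face. -/
theorem Dop_zk {i j k : ι} {low up : List ι} {χ : ι → Γ} (hij : i ≠ j)
    (hi : i ∉ low ++ k :: up) (hj : j ∉ low ++ k :: up) (hn : (low ++ k :: up).Nodup)
    (h1 : χ i = χ k) (h2 : ∀ r ∈ low, χ k = χ r) (h3 : ∀ r ∈ up, χ j = χ r) :
    Dop ν z i j (z k) (low ++ k :: up) χ =
      Tw (χ ∘ Equiv.swap j k) * (cops ν).T z i j (z k) (low ++ k :: up) := by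
  set S := cops (Γ := Γ) (ι := ι) ν with hS
  have hik : i ≠ k := fun e => hi (by simp [e])
  have hjk : j ≠ k := fun e => hj (by simp [e])
  have hju : j ∉ up := fun e => hj (by simp [e])
  have hjl : j ∉ low := fun e => hj (by simp [e])
  have hn' := List.nodup_append.1 hn
  have hn2 := List.nodup_cons.1 hn'.2.1
  have hkl : k ∉ low := fun e => hn'.2.2 k e k (by simp) rfl
  have a1 : S.M z j (z k) (low ++ k :: up) = S.M z j (z k) low * (S.M z k (z k) up * S.P j k) := by
    rw [EXL.Glob.Ops.M_append, EXL.Glob.Ops.M_cons, sub_self, W.L3 hjk, W.P_M hjk hju hn2.1]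
  have hsw : (χ ∘ Equiv.swap j k) ∘ Equiv.swap j k = χ := by
    funext x
    simp only [Function.comp, Equiv.swap_apply_self]
  have a2 : Tw (χ ∘ Equiv.swap j k) * S.P j k = S.P j k * Tw χ := by
    rw [tP, hsw]
  have hχj : (χ ∘ Equiv.swap j k) j = χ k := by simp
  have hχk : (χ ∘ Equiv.swap j k) k = χ j := by simp
  have hχo : ∀ x, x ≠ j → x ≠ k → (χ ∘ Equiv.swap j k) x = χ x := by
    intro x h1 h2
    simp only [Function.comp, Equiv.swap_apply_of_ne_of_ne h1 h2]
  have c1 : Commute (Tw (χ ∘ Equiv.swap j k)) (S.M z k (z k) up) := tM fun r hr => by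
    rw [hχk, hχo r (fun e => hju (e ▸ hr)) (fun e => hn2.1 (e ▸ hr)), h3 r hr]
  have c2 : Commute (Tw (χ ∘ Equiv.swap j k)) (S.M z j (z k) low) := tM fun r hr => by
    rw [hχj, hχo r (fun e => hjl (e ▸ hr)) (fun e => hkl (e ▸ hr)), h2 r hr]
  have c3 : Commute (Tw (χ ∘ Equiv.swap j k)) (S.b i j (z k)) := tb (by
    rw [hχj, hχo i hij hik, h1]) _
  unfold Dop EXL.Glob.Ops.T
  rw [← hS, a1]
  calc S.b i j (z k) * (S.M z j (z k) low * (S.M z k (z k) up * S.P j k)) * Tw χ *
        S.M z i (S.h + S.h - z k) (low ++ k :: up) * S.t i j (z k)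
      = S.b i j (z k) * (S.M z j (z k) low * (S.M z k (z k) up * (S.P j k * Tw χ))) *
        S.M z i (S.h + S.h - z k) (low ++ k :: up) * S.t i j (z k) := by simp only [mul_assoc]
    _ = S.b i j (z k) * (S.M z j (z k) low * ((S.M z k (z k) up * Tw (χ ∘ Equiv.swap j k)) *
        S.P j k)) * S.M z i (S.h + S.h - z k) (low ++ k :: up) * S.t i j (z k) := by
        rw [← a2]; simp only [mul_assoc]
    _ = S.b i j (z k) * ((S.M z j (z k) low * Tw (χ ∘ Equiv.swap j k)) * (S.M z k (z k) up *
        S.P j k)) * S.M z i (S.h + S.h - z k) (low ++ k :: up) * S.t i j (z k) := by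
        rw [← c1.eq]; simp only [mul_assoc]
    _ = (S.b i j (z k) * Tw (χ ∘ Equiv.swap j k)) * (S.M z j (z k) low * (S.M z k (z k) up *
        S.P j k)) * S.M z i (S.h + S.h - z k) (low ++ k :: up) * S.t i j (z k) := by
        rw [← c2.eq]; simp only [mul_assoc]
    _ = _ := by rw [← c3.eq]; simp only [mul_assoc]

/-- **C1, second case**: at `v = 2 h - z k`, `k` above the face, the row `k` is dragged below the face. -/
theorem Dop_hk {i j k : ι} {low up : List ι} {χ : ι → Γ} (hij : i ≠ j)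
    (hi : i ∉ low ++ k :: up) (hj : j ∉ low ++ k :: up) (hn : (low ++ k :: up).Nodup)
    (h1 : χ j = χ k) (h2 : ∀ r ∈ low, χ i = χ r) (h3 : ∀ r ∈ up, χ k = χ r) :
    Dop ν z i j ((cops (Γ := Γ) (ι := ι) ν).h + (cops (Γ := Γ) (ι := ι) ν).h - z k)
        (low ++ k :: up) χ =
      (cops ν).T z i j ((cops (Γ := Γ) (ι := ι) ν).h + (cops (Γ := Γ) (ι := ι) ν).h - z k)
        (low ++ k :: up) * Tw (χ ∘ Equiv.swap i k) := by
  set S := cops (Γ := Γ) (ι := ι) ν with hS
  have hik : i ≠ k := fun e => hi (by simp [e])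
  have hjk : j ≠ k := fun e => hj (by simp [e])
  have hiu : i ∉ up := fun e => hi (by simp [e])
  have hil : i ∉ low := fun e => hi (by simp [e])
  have hn' := List.nodup_append.1 hn
  have hn2 := List.nodup_cons.1 hn'.2.1
  have hkl : k ∉ low := fun e => hn'.2.2 k e k (by simp) rfl
  have e0 : S.h + S.h - (S.h + S.h - z k) = z k := by abel
  have a1 : S.M z i (z k) (low ++ k :: up) = S.M z i (z k) low * (S.M z k (z k) up * S.P i k) := by
    rw [EXL.Glob.Ops.M_append, EXL.Glob.Ops.M_cons, sub_self, W.L3 hik, W.P_M hik hiu hn2.1]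
  have a2 : S.P i k * S.t i j (S.h + S.h - z k) = S.t k j (S.h + S.h - z k) * S.P i k :=
    W.Pt hik hij hjk.symm
  have c1 : Commute (Tw χ) (S.M z i (z k) low) := tM h2
  have c2 : Commute (Tw χ) (S.M z k (z k) up) := tM h3
  have c3 : Commute (Tw χ) (S.t k j (S.h + S.h - z k)) := tt h1.symm _
  have a3 : Tw χ * S.P i k = S.P i k * Tw (χ ∘ Equiv.swap i k) := tP χ i k
  unfold Dop EXL.Glob.Ops.T
  rw [← hS, e0, a1]
  calc S.b i j (S.h + S.h - z k) * S.M z j (S.h + S.h - z k) (low ++ k :: up) * Tw χ *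
        (S.M z i (z k) low * (S.M z k (z k) up * S.P i k)) * S.t i j (S.h + S.h - z k)
      = S.b i j (S.h + S.h - z k) * S.M z j (S.h + S.h - z k) (low ++ k :: up) *
        ((Tw χ * S.M z i (z k) low) * (S.M z k (z k) up * (S.P i k *
          S.t i j (S.h + S.h - z k)))) := by simp only [mul_assoc]
    _ = S.b i j (S.h + S.h - z k) * S.M z j (S.h + S.h - z k) (low ++ k :: up) *
        (S.M z i (z k) low * ((Tw χ * S.M z k (z k) up) * (S.t k j (S.h + S.h - z k) *
          S.P i k))) := by rw [c1.eq, a2]; simp only [mul_assoc]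
    _ = S.b i j (S.h + S.h - z k) * S.M z j (S.h + S.h - z k) (low ++ k :: up) *
        (S.M z i (z k) low * (S.M z k (z k) up * ((Tw χ * S.t k j (S.h + S.h - z k)) *
          S.P i k))) := by rw [c2.eq]; simp only [mul_assoc]
    _ = S.b i j (S.h + S.h - z k) * S.M z j (S.h + S.h - z k) (low ++ k :: up) *
        (S.M z i (z k) low * (S.M z k (z k) up * (S.t k j (S.h + S.h - z k) *
          (Tw χ * S.P i k)))) := by rw [c3.eq]; simp only [mul_assoc]
    _ = S.b i j (S.h + S.h - z k) * S.M z j (S.h + S.h - z k) (low ++ k :: up) *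
        (S.M z i (z k) low * (S.M z k (z k) up * ((S.t k j (S.h + S.h - z k) *
          S.P i k) * Tw (χ ∘ Equiv.swap i k)))) := by rw [a3]; simp only [mul_assoc]
    _ = _ := by rw [← a2]; simp only [mul_assoc]

end

end Pool.Agent.NUF
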