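import Pool.Agent.NUF.FarS

/-!
# Two far lines (helper15)

`far2 z p q u X` = the functional of the rows `p :: q :: X` (times the scalar `Q`), `X` good, `z q` and the frame
rapidity `u` of `p` arbitrary.
-/

set_option autoImplicit false

namespace Pool.Agent.NUF

open _root_.Pool.Agent.EXL _root_.Pool.Agent.EXL.Pat Filter Topology
open _root_.Pool.Agent.EXL.Fm (lam)

section defs

variable {α : Type*} [DecidableEq α]

/-- `p` is empty (factor `e`) or joined to `i` (factor `a`). -/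
noncomputable def jn (p i : α) (e a : ℂ) : Module.End ℂ (Pat α → ℂ) := e • 1 + a • opCu ℂ p i

/-- the scalar of `q` over `X` without the factor `a'` -/
noncomputable def wq (z : α → ℂ) (q : α) (X : List α) : ℂ :=
  ∏ k ∈ X.toFinset, Fr.pr (ux z k) (ux z q)

/-- The term of the row `i ∈ X`. -/
noncomputable def far2t (z : α → ℂ) (p q : α) (u : ℂ) (X : List α) (i : α) : Fnl α :=
  (Fr.pr (ux z q) (ux z i) * Fr.wt (ux z) i (X.toFinset.erase i) *
    (Fr.dl u (ux z q) * Fr.Dl (ux z) u (X.toFinset.erase i))) •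
      (far z q (ux z q) (X.erase i) ∘ₗ (jn p i (Fr.fe (ux z i)) (Fr.fa u) * oE uops z (q :: X) i))

/-- **Two far lines** `p`, `q` (the lowest ones); `u` = the frame rapidity of `p`. -/
noncomputable def far2 (z : α → ℂ) (p q : α) (u : ℂ) (X : List α) : Fnl α :=
  (Fr.dl u (ux z q) * Fr.Dl (ux z) u X.toFinset) • far z q (ux z q) X +
    ∑ i ∈ X.toFinset, far2t z p q u X i +
  (Fr.Dl (ux z) u X.toFinset * wq z q X * Fr.Qs (ux z) X.toFinset) •
    (VV z X ∘ₗ jn p q (4 * Fr.c3 * (Fr.fa' (ux z q) * Fr.fe (ux z q)))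
      (4 * Fr.c3 * (Fr.fa' (ux z q) * Fr.fa u)))

variable {z : α → ℂ} {X : List α} {b c p q : α} {u : ℂ}

theorem Dl_ins {x : α → ℂ} {Y : Finset α} (h : q ∉ Y) :
    Fr.Dl x u (insert q Y) = Fr.dl u (x q) * Fr.Dl x u Y := by
  unfold Fr.Dl
  rw [Finset.prod_insert h]

/-- `q` good: one far line over the rows `q :: X`. -/
theorem far2_eq [Finite α] (h : Good z (q :: X)) (hb : b ∉ q :: X) (hc : c ∉ q :: X) (hbc : b ≠ c) :
    far z p u (q :: X) = far2 z p q u X := by
  have hq : q ∉ X := (List.nodup_cons.1 h.nd).1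
  have hX : X.Nodup := (List.nodup_cons.1 h.nd).2
  have hqF : q ∉ X.toFinset := by rwa [List.mem_toFinset]
  have hT : (q :: X).toFinset = insert q X.toFinset := List.toFinset_cons
  have h1 : Fr.Qs (ux z) (insert q X.toFinset) • VV z (q :: X) = far z q (ux z q) X := by
    rw [← hT, far_near h hb hc hbc]
  have h2 : ∀ i ∈ X.toFinset, Fr.Qs (ux z) (insert q (X.toFinset.erase i)) • VV z (q :: X.erase i) =
      far z q (ux z q) (X.erase i) := by
    intro i _
    have hs : (q :: X.erase i).Sublist (q :: X) := (List.erase_sublist).cons_cons q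
    have hb' : b ∉ q :: X.erase i := fun h => hb (hs.subset h)
    have hc' : c ∉ q :: X.erase i := fun h => hc (hs.subset h)
    have e : (q :: X.erase i).toFinset = insert q (X.toFinset.erase i) := by
      rw [List.toFinset_cons]
      congr 1
      ext a
      simp [hX.mem_erase_iff]
    rw [← e, far_near (h.sub hs) hb' hc' hbc]
  have h3 : ∀ i ∈ X.toFinset, (insert q X.toFinset).erase i = insert q (X.toFinset.erase i) := by
    intro i hi
    have : i ≠ q := fun e => hqF (e ▸ hi)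
    rw [Finset.erase_insert_of_ne this.symm]
  have h4 : ∀ i ∈ X.toFinset, (q :: X).erase i = q :: X.erase i := by
    intro i hi
    have : q ≠ i := fun e => hqF (e ▸ hi)
    rw [List.erase_cons_tail]
    simpa using this
  have h5 : ∀ i ∈ X.toFinset, Fr.wt (ux z) i (insert q (X.toFinset.erase i)) =
      Fr.pr (ux z q) (ux z i) * Fr.wt (ux z) i (X.toFinset.erase i) := fun i _ =>
    Fr.wt_insert (ux z) fun h => hqF (Finset.mem_of_mem_erase h)
  have h6 : ∀ i ∈ X.toFinset, Fr.Dl (ux z) u (insert q (X.toFinset.erase i)) =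
      Fr.dl u (ux z q) * Fr.Dl (ux z) u (X.toFinset.erase i) := fun i _ =>
    Dl_ins fun h => hqF (Finset.mem_of_mem_erase h)
  have h7 : Fr.wt (ux z) q X.toFinset = 4 * Fr.c3 * Fr.fa' (ux z q) * wq z q X := rfl
  unfold far farE farC far2
  rw [hT, Finset.sum_insert hqF, Finset.sum_insert hqF, Finset.erase_insert hqF, List.erase_cons_head,
    oE_head, Dl_ins hqF, mul_smul (Fr.dl u (ux z q) * Fr.Dl (ux z) u X.toFinset), h1, h7]
  have e1 : VV z X ∘ₗ (1 : Module.End ℂ (Pat α → ℂ)) = VV z X := rfl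
  have e2 : VV z X ∘ₗ (opCu ℂ p q * 1 : Module.End ℂ (Pat α → ℂ)) = VV z X ∘ₗ opCu ℂ p q := rfl
  have e3 : ∀ e a : ℂ, VV z X ∘ₗ jn p q e a = e • VV z X + a • (VV z X ∘ₗ opCu ℂ p q) := by
    intro e a
    refine LinearMap.ext fun F => ?_
    simp only [jn, LinearMap.comp_apply, LinearMap.add_apply, LinearMap.smul_apply, map_add, map_smul,
      Module.End.one_apply]
  have e4 : ∀ i ∈ X.toFinset, far2t z p q u X i =
      (Fr.wt (ux z) i ((insert q X.toFinset).erase i) *
        Fr.Dl (ux z) u ((insert q X.toFinset).erase i) * Fr.fe (ux z i) *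
        Fr.Qs (ux z) ((insert q X.toFinset).erase i)) • (VV z ((q :: X).erase i) ∘ₗ
          oE uops z (q :: X) i) +
      Fr.fa u • ((Fr.wt (ux z) i ((insert q X.toFinset).erase i) *
        Fr.Dl (ux z) u ((insert q X.toFinset).erase i) *
        Fr.Qs (ux z) ((insert q X.toFinset).erase i)) • (VV z ((q :: X).erase i) ∘ₗ
          (opCu ℂ p i * oE uops z (q :: X) i))) := by
    intro i hi
    unfold far2t
    rw [← h2 i hi, h3 i hi, h4 i hi, h5 i hi, h6 i hi]
    refine LinearMap.ext fun F => ?_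
    simp only [jn, LinearMap.comp_apply, LinearMap.add_apply, LinearMap.smul_apply, map_add, map_smul,
      Module.End.one_apply, Module.End.mul_apply, smul_eq_mul]
    ring
  rw [Finset.sum_congr rfl e4, Finset.sum_add_distrib, ← Finset.smul_sum, e1, e2, e3]
  module

/-- **Both lines near.** -/
theorem far2_near [Finite α] (h : Good z (p :: q :: X)) (hb : b ∉ p :: q :: X) (hc : c ∉ p :: q :: X)
    (hbc : b ≠ c) :
    far2 z p q (ux z p) X = Fr.Qs (ux z) (p :: q :: X).toFinset • VV z (p :: q :: X) := by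
  rw [← far2_eq (h.sub (List.sublist_cons_self p _)) (fun h => hb (List.mem_cons_of_mem _ h))
    (fun h => hc (List.mem_cons_of_mem _ h)) hbc, far_near h hb hc hbc]

end defs

/-! ### The limit -/

section lim

variable {α β : Type*} [DecidableEq α] {l : Filter β} {f : β → ℝ} {σ : ℂ} {z : α → ℂ}
  {zb : β → α → ℂ} {X : List α} {p q : α}

omit [DecidableEq α] in
theorem LmF.smulc {c : β → ℂ} {c0 : ℂ} (hc : Tendsto c l (𝓝 c0)) (V : Fnl α) :
    LmF l (fun b => c b • V) (c0 • V) := LmF.smul hc (LmF.const V)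

omit [DecidableEq α] in
theorem LmF.zero_of {V : β → Fnl α} {V0 V0' : Fnl α} (h : LmF l V V0) (e : V0 = V0') :
    LmF l V V0' := e ▸ h

/-- **One far line**, leading order. -/
theorem far_lim (hf : Tendsto f l atTop) (hσ : σ = 1 ∨ σ = -1) (x : ℂ) (z : α → ℂ)
    (X : List α) (q : α) :
    LmF l (fun b => (TT (f b) ^ X.toFinset.card)⁻¹ • far z q (x - σ * (f b * Complex.I)) X)
      (ex σ (2 * x - 3 * lam) ^ X.toFinset.card • (Fr.Qs (ux z) X.toFinset • VV z X)) := by
  set n := X.toFinset.card with hn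
  set v : β → ℂ := fun b => x - σ * (f b * Complex.I) with hv
  have h1 := Dl_lim hf hσ x (ux z) X.toFinset
  have hcard : ∀ i ∈ X.toFinset, n = (X.toFinset.erase i).card + 1 := fun i hi => by
    rw [Finset.card_erase_of_mem hi]
    have := Finset.card_pos.2 ⟨i, hi⟩
    omega
  have h2 : ∀ i ∈ X.toFinset, Tendsto (fun b => Fr.Dl (ux z) (v b) (X.toFinset.erase i) /
      TT (f b) ^ n) l (𝓝 0) := by
    intro i hi
    have := (Dl_lim hf hσ x (ux z) (X.toFinset.erase i)).mul (TT_inv_lim hf 1)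
    rw [mul_zero] at this
    refine this.congr fun b => ?_
    rw [hcard i hi, div_mul_div_comm, mul_one, pow_succ]
  have h3 : ∀ i ∈ X.toFinset, Tendsto (fun b => Fr.fa (v b) *
      (Fr.Dl (ux z) (v b) (X.toFinset.erase i) / TT (f b) ^ n)) l (𝓝 0) := by
    intro i hi
    have := (Dl_lim hf hσ x (ux z) (X.toFinset.erase i)).mul (small_lim hf (fa_lim hf hσ x))
    rw [mul_zero] at this
    refine this.congr fun b => ?_
    rw [hcard i hi, div_mul_div_comm, pow_succ, ← mul_div_assoc]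
    congr 1
    ring
  have H1 := LmF.smulc (h1.mul_const (Fr.Qs (ux z) X.toFinset)) (VV z X)
  have H2 := LmF.sum X.toFinset fun i hi => LmF.smulc
    ((h2 i hi).const_mul (Fr.wt (ux z) i (X.toFinset.erase i) * Fr.fe (ux z i) *
      Fr.Qs (ux z) (X.toFinset.erase i))) (VV z (X.erase i) ∘ₗ oE uops z X i)
  have H3 := LmF.sum X.toFinset fun i hi => LmF.smulc
    ((h3 i hi).const_mul (Fr.wt (ux z) i (X.toFinset.erase i) *
      Fr.Qs (ux z) (X.toFinset.erase i))) (VV z (X.erase i) ∘ₗ (opCu ℂ q i * oE uops z X i))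
  refine (((H1.add H2).add H3).congr fun b => ?_).zero_of ?_
  · unfold far farE farC
    refine LinearMap.ext fun F => ?_
    simp only [LinearMap.add_apply, LinearMap.smul_apply, LinearMap.sum_apply, smul_eq_mul, mul_add,
      Finset.mul_sum]
    congr 1
    · congr 1
      · ring
      · refine Finset.sum_congr rfl fun i _ => ?_
        ring
    · refine Finset.sum_congr rfl fun i _ => ?_
      ring
  · simp only [mul_zero, zero_smul, Finset.sum_const_zero, add_zero, smul_smul, ← hn]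

theorem lm_jn {p i : α} {e a : β → ℂ} {e0 a0 : ℂ} (he : Tendsto e l (𝓝 e0))
    (ha : Tendsto a l (𝓝 a0)) : LmE l (fun b => jn p i (e b) (a b)) (jn p i e0 a0) := by
  intro F P
  show Tendsto (fun b => e b * F P + a b * opCu ℂ p i F P) l (𝓝 (e0 * F P + a0 * opCu ℂ p i F P))
  exact (he.mul_const _).add (ha.mul_const _)

variable [Finite α]

theorem lm_M_ex {w : β → ℂ} {i : α} {L : List α}
    (h : ∀ r ∈ L, ∃ X0, LmE l (fun b => uops.R i r (w b - zb b r)) X0) :
    ∃ X0, LmE l (fun b => uops.M (zb b) i (w b) L) X0 := by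
  induction L with
  | nil => exact ⟨1, LmE.const 1⟩
  | cons r L ih =>
    obtain ⟨X0, h1⟩ := h r (by simp)
    obtain ⟨Y0, h2⟩ := ih fun s hs => h s (by simp [hs])
    exact ⟨X0 * Y0, (h1.mul h2).congr fun b => by rw [Glob.Ops.M_cons]⟩

theorem oE_lim (hf : Tendsto f l atTop) (hσ : σ = 1 ∨ σ = -1) {x : ℂ} {i : α} (hi : i ∈ X)
    (hz : ∀ b, ∀ k ∈ X, zb b k = z k) (hq : ∀ b, ux (zb b) q = x - σ * (f b * Complex.I)) :
    ∃ X0, LmE l (fun b => oE uops (zb b) (q :: X) i) X0 := by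
  unfold oE
  refine lm_M_ex fun r hr => ?_
  obtain ⟨h1, h2⟩ := below_subset r hr
  rcases List.mem_cons.1 h1 with rfl | h1
  · have hσ' : -σ = 1 ∨ -σ = -1 := by
      rcases hσ with rfl | rfl
      · right; rfl
      · left; ring
    refine ⟨Ri (eI (-σ)) i r, (lm_R h2.symm (tw_sg hf hσ' (z i - 3 * Real.pi / 16 + x))).congr
      fun b => ?_⟩
    congr 1
    have := hq b
    unfold ux at this
    rw [hz b i hi]
    linear_combination (-1 : ℂ) * this
  · refine ⟨uops.R i r (z i - z r), (LmE.const _).congr fun b => ?_⟩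
    rw [hz b i hi, hz b r h1]

omit [Finite α] in
theorem erase_toF {i : α} (hX : X.Nodup) : (X.erase i).toFinset = X.toFinset.erase i := by
  ext a
  simp [hX.mem_erase_iff]

/-- A row `i ∈ X` does not contribute. -/
theorem far2t_lim (hf : Tendsto f l atTop) (hσ : σ = 1 ∨ σ = -1) (hX : X.Nodup) {x : ℂ} (y : ℂ) {i : α}
    (hi : i ∈ X) (hz : ∀ b, ∀ k ∈ X, zb b k = z k)
    (hq : ∀ b, ux (zb b) q = x - σ * (f b * Complex.I)) :
    LmF l (fun b => (TT (f b) ^ (2 * X.toFinset.card + 1))⁻¹ •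
      far2t (zb b) p q (y - σ * (f b * Complex.I)) X i) 0 := by
  set v : β → ℂ := fun b => y - σ * (f b * Complex.I) with hv
  have hiF : i ∈ X.toFinset := List.mem_toFinset.2 hi
  set m := (X.toFinset.erase i).card with hm
  have hcard : X.toFinset.card = m + 1 := by
    rw [hm, Finset.card_erase_of_mem hiF]
    have := Finset.card_pos.2 ⟨i, hiF⟩
    omega
  obtain ⟨c1, h1⟩ := pr_lim' hf hσ x (ux z i)
  have h2 := (dl_lim2 hf hσ y x).mul (Dl_lim hf hσ y (ux z) (X.toFinset.erase i))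
  have h3 := far_lim hf hσ x z (X.erase i) q
  rw [erase_toF hX] at h3
  obtain ⟨X0, h4⟩ := oE_lim (q := q) hf hσ hi hz hq
  have h5 : LmE l (fun b => jn p i (Fr.fe (ux z i) / TT (f b)) (Fr.fa (v b) / TT (f b)))
      (jn p i 0 0) := lm_jn (TT_inv_lim hf _) (small_lim hf (fa_lim hf hσ y))
  have h6 := (h3.comp (h5.mul h4)).smul ((h1.mul_const (Fr.wt (ux z) i (X.toFinset.erase i))).mul h2)
  have h0 : (jn p i 0 0 : Module.End ℂ (Pat α → ℂ)) = 0 := by
    rw [jn, zero_smul, zero_smul, add_zero]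
  rw [h0, zero_mul, LinearMap.comp_zero, smul_zero] at h6
  refine h6.congr fun b => ?_
  have e1 : ∀ k ∈ X.toFinset, ux (zb b) k = ux z k := fun k hk => by
    unfold ux
    rw [hz b k (List.mem_toFinset.1 hk)]
  have e2 : ∀ k ∈ X.toFinset.erase i, ux (zb b) k = ux z k := fun k hk =>
    e1 k (Finset.mem_of_mem_erase hk)
  unfold far2t
  rw [wt_congr (e1 i hiF) e2, Dl_congr e2, hq b, e1 i hiF,
    far_congr (z' := z) (X := X.erase i) fun k hk => hz b k (List.mem_of_mem_erase hk), hcard]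
  have hT := TT_ne (f b)
  refine LinearMap.ext fun F => ?_
  simp only [jn, LinearMap.comp_apply, LinearMap.add_apply, LinearMap.smul_apply, map_add, map_smul,
    Module.End.one_apply, Module.End.mul_apply, smul_eq_mul, ← hm]
  rw [show v b = y - σ * (f b * Complex.I) from rfl, show 2 * (m + 1) + 1 = m + m + 1 + 1 + 1 by ring, pow_succ, pow_succ, pow_succ, pow_add]
  field_simp

/-- The limit of the functional of two far lines. -/
noncomputable def lim2 (σ x y : ℂ) (z : α → ℂ) (p q : α) (X : List α) : Fnl α :=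
  ((ex σ (2 * y - 3 * lam) * ex σ (2 * x - 3 * lam)) ^ X.toFinset.card * Fr.Qs (ux z) X.toFinset) •
    (VV z X ∘ₗ jn p q (ex σ (2 * y - 3 * lam) + ex σ (2 * x - 3 * lam))
      (2 * Fr.c3 * ex σ (x + y - 3 * lam)))

/-- **The limit of the functional of two far lines**: frame rapidities `y` (of `p`) and `x` (of `q`). -/
theorem far2_lim (hf : Tendsto f l atTop) (hσ : σ = 1 ∨ σ = -1) (hX : X.Nodup) {x : ℂ} (y : ℂ)
    (hz : ∀ b, ∀ k ∈ X, zb b k = z k) (hq : ∀ b, ux (zb b) q = x - σ * (f b * Complex.I)) :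
    LmF l (fun b => (TT (f b) ^ (2 * X.toFinset.card + 1))⁻¹ •
      far2 (zb b) p q (y - σ * (f b * Complex.I)) X) (lim2 σ x y z p q X) := by
  set n := X.toFinset.card with hn
  set v : β → ℂ := fun b => y - σ * (f b * Complex.I) with hv
  have h1 := (dl_lim2 hf hσ y x).mul (Dl_lim hf hσ y (ux z) X.toFinset)
  have h2 := (far_lim hf hσ x z X q).smul h1
  have h3 := LmF.sum X.toFinset fun i hi =>
    far2t_lim (p := p) hf hσ hX y (List.mem_toFinset.1 hi) hz hq
  have h4 := ((Dl_lim hf hσ y (ux z) X.toFinset).mul (wt_lim hf hσ x (ux z) X.toFinset)).mul_const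
    (Fr.Qs (ux z) X.toFinset)
  have h5 := ((LmF.const (l := l) (VV z X)).comp (lm_jn (p := p) (i := q) (ae_lim hf hσ x)
    (aa_lim hf hσ x y))).smul h4
  refine (((h2.add h3).add h5).congr fun b => ?_).zero_of ?_
  · have e1 : ∀ k ∈ X.toFinset, ux (zb b) k = ux z k := fun k hk => by
      unfold ux
      rw [hz b k (List.mem_toFinset.1 hk)]
    have hT := TT_ne (f b)
    have e5 : wq (zb b) q X = ∏ k ∈ X.toFinset, Fr.pr (ux z k) (x - σ * (f b * Complex.I)) := by
      unfold wq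
      rw [hq b]
      exact Finset.prod_congr rfl fun k hk => by rw [e1 k hk]
    unfold far2
    rw [hq b, Dl_congr e1, Fr.Qs_congr _ e1, far_congr (z' := z) (X := X) (hz b),
      VV_congr (hz b), e5]
    refine LinearMap.ext fun F => ?_
    simp only [jn, LinearMap.comp_apply, LinearMap.add_apply, LinearMap.smul_apply, map_add, map_smul,
      Module.End.one_apply, smul_eq_mul, ← hn, mul_add, Finset.mul_sum, LinearMap.sum_apply]
    congr 1
    · congr 1
      rw [show 2 * n + 1 = n + n + 1 by ring, pow_succ, pow_add]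
      field_simp
    · rw [show 2 * n + 1 = n + n + 1 by ring, pow_succ, pow_add]
      field_simp
  · unfold lim2
    refine LinearMap.ext fun F => ?_
    simp only [jn, LinearMap.comp_apply, LinearMap.add_apply, LinearMap.smul_apply, map_add, map_smul,
      Module.End.one_apply, smul_eq_mul, ← hn, LinearMap.zero_apply, Finset.sum_const_zero]
    ring

/-! ### The two lines in the middle -/

omit [Finite α] in
theorem VV_jn {e a : ℂ} (hV : Sup X (VV z X)) (hp : p ∉ X) (hq : q ∉ X) (Y : Module.End ℂ (Pat α → ℂ))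
    (h1 : uops.E p * uops.E q * Y = uops.E p * uops.E q) (h2 : opCu ℂ p q * Y = opCu ℂ p q) :
    VV z X ∘ₗ (jn p q e a * Y) = VV z X ∘ₗ jn p q e a := by
  have hE : VV z X ∘ₗ (uops.E p * uops.E q) = VV z X := by
    have a1 : VV z X ∘ₗ uops.E p = VV z X := uspl.out hp hV
    have a2 : VV z X ∘ₗ uops.E q = VV z X := uspl.out hq hV
    show (VV z X ∘ₗ uops.E p) ∘ₗ uops.E q = VV z X
    rw [a1, a2]
  have e1 : VV z X ∘ₗ Y = VV z X := by
    conv_lhs => rw [← hE]
    show VV z X ∘ₗ (uops.E p * uops.E q * Y) = VV z X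
    rw [h1, hE]
  have e2 : VV z X ∘ₗ (opCu ℂ p q * Y) = VV z X ∘ₗ opCu ℂ p q := by rw [h2]
  refine LinearMap.ext fun F => ?_
  have f1 := LinearMap.congr_fun e1 F
  have f2 := LinearMap.congr_fun e2 F
  simp only [LinearMap.comp_apply, Module.End.mul_apply] at f1 f2
  simp only [jn, LinearMap.comp_apply, LinearMap.add_apply, LinearMap.smul_apply, map_add, map_smul,
    Module.End.one_apply, Module.End.mul_apply, f1, f2]

/-- **The limit with the two far lines above the rows `A`.** -/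
theorem far2_mid_lim (hf : Tendsto f l atTop) (hσ : σ = 1 ∨ σ = -1) (hX : X.Nodup) {x y : ℂ}
    (hz : ∀ b, ∀ k ∈ X, zb b k = z k) (hp : ∀ b, ux (zb b) p = y - σ * (f b * Complex.I))
    (hq : ∀ b, ux (zb b) q = x - σ * (f b * Complex.I)) (hV : Sup X (VV z X)) (hpX : p ∉ X)
    (hqX : q ∉ X) (hpq : p ≠ q) {A : List α} (hA : A.Sublist X) :
    LmF l (fun b => (TT (f b) ^ (2 * X.toFinset.card + 1))⁻¹ •
      (far2 (zb b) p q (ux (zb b) p) X ∘ₗ
        (uops.M (zb b) q (zb b q) A * uops.M (zb b) p (zb b p) A))) (lim2 σ x y z p q X) := by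
  have hpA : p ∉ A := fun h => hpX (hA.subset h)
  have hqA : q ∉ A := fun h => hqX (hA.subset h)
  have key : ∀ {r : α} {t : ℂ}, (∀ b, ux (zb b) r = t - σ * (f b * Complex.I)) → r ∉ A →
      LmE l (fun b => uops.M (zb b) r (zb b r) A) (Mi (eI σ) r A) := by
    intro r t hr hrA
    refine lm_M hrA fun k hk => (tw_sg hf hσ (3 * Real.pi / 16 - t - z k)).congr fun b => ?_
    congr 1
    have h1 := hr b
    unfold ux at h1
    rw [hz b k (hA.subset hk)]
    linear_combination (1 : ℂ) * h1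
  have h1 := far2_lim (p := p) hf hσ hX y hz hq
  have h2 := h1.comp ((key hq hqA).mul (key hp hpA))
  refine (h2.congr fun b => ?_).zero_of ?_
  · rw [hp b]
    rfl
  · have e := VV_jn (z := z) (X := X) (e := ex σ (2 * y - 3 * lam) + ex σ (2 * x - 3 * lam))
      (a := 2 * Fr.c3 * ex σ (x + y - 3 * lam)) hV hpX hqX (Mi (eI σ) q A * Mi (eI σ) p A)
      (EE_Mi _ _ _ _) (cu_Mi hσ hpq hpA hqA (hX.sublist hA))
    unfold lim2
    conv_rhs => rw [← e]
    rfl

end lim

/-! ### The exchange -/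

section exch

variable {α : Type*} [DecidableEq α] [Finite α] {z : α → ℂ} {c p q : α}

/-- A row slides through the rows `A`. -/
theorem VV_slide {A L1 L2 : List α} (hn : (L1 ++ q :: (A ++ L2)).Nodup)
    (hc : c ∉ L1 ++ q :: (A ++ L2)) (h1 : okR (3 * Real.pi / 16 - z q))
    (h2 : ∀ k ∈ A, okR (3 * Real.pi / 16 - z k)) (h3 : ∀ k ∈ A, okR (z q - z k))
    (hR : ∀ Y : List α, Y.Perm (L1 ++ q :: (A ++ L2)) → Reg z Y) :
    VV z (L1 ++ q :: (A ++ L2)) ∘ₗ uops.M z q (z q) A = VV z (L1 ++ (A ++ q :: L2)) := by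
  induction A generalizing L1 with
  | nil => rfl
  | cons k A ih =>
    have hp : (L1 ++ q :: k :: (A ++ L2)).Perm (L1 ++ k :: q :: (A ++ L2)) :=
      List.Perm.append_left _ (List.Perm.swap _ _ _)
    have e1 : VV z (L1 ++ q :: k :: (A ++ L2)) ∘ₗ uops.R q k (z q - z k) =
        VV z (L1 ++ k :: q :: (A ++ L2)) :=
      VV_exchange hn hc h1 (h2 k (by simp)) (h3 k (by simp)) (hR _ (List.Perm.refl _)) (hR _ hp.symm)
    have e2 : L1 ++ k :: q :: (A ++ L2) = (L1 ++ [k]) ++ q :: (A ++ L2) := by simp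
    have hp2 : ((L1 ++ [k]) ++ q :: (A ++ L2)).Perm (L1 ++ q :: k :: (A ++ L2)) := by
      rw [← e2]
      exact hp.symm
    have e3 := ih (L1 := L1 ++ [k]) (hp2.nodup_iff.2 hn) (fun h => hc (hp2.mem_iff.1 h))
      (fun m hm => h2 m (by simp [hm])) (fun m hm => h3 m (by simp [hm]))
      (fun Y hY => hR Y (hY.trans hp2))
    rw [Glob.Ops.M_cons]
    show (VV z (L1 ++ q :: k :: (A ++ L2)) ∘ₗ uops.R q k (z q - z k)) ∘ₗ uops.M z q (z q) A = _
    rw [e1, e2, e3]
    simp

/-- **The rows `A`, `p`, `q`, `B`.** -/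
theorem VV_mid {A B : List α} (hn : (p :: q :: (A ++ B)).Nodup) (hc : c ∉ p :: q :: (A ++ B))
    (h1 : okR (3 * Real.pi / 16 - z p)) (h1' : okR (3 * Real.pi / 16 - z q))
    (h2 : ∀ k ∈ A, okR (3 * Real.pi / 16 - z k)) (h3 : ∀ k ∈ A, okR (z p - z k))
    (h3' : ∀ k ∈ A, okR (z q - z k)) (hR : ∀ Y : List α, Y.Perm (p :: q :: (A ++ B)) → Reg z Y) :
    VV z (p :: q :: (A ++ B)) ∘ₗ (uops.M z q (z q) A * uops.M z p (z p) A) =
      VV z (A ++ p :: q :: B) := by
  have e1 : VV z (p :: q :: (A ++ B)) ∘ₗ uops.M z q (z q) A = VV z (p :: (A ++ q :: B)) :=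
    VV_slide (L1 := [p]) hn hc h1' h2 h3' hR
  have hp : (p :: (A ++ q :: B)).Perm (p :: q :: (A ++ B)) := List.Perm.cons _ List.perm_middle
  have e2 : VV z (p :: (A ++ q :: B)) ∘ₗ uops.M z p (z p) A = VV z (A ++ p :: q :: B) :=
    VV_slide (L1 := []) (hp.nodup_iff.2 hn) (fun h => hc (hp.mem_iff.1 h)) h1 h2 h3
      (fun Y hY => hR Y (hY.trans hp))
  show (VV z (p :: q :: (A ++ B)) ∘ₗ uops.M z q (z q) A) ∘ₗ uops.M z p (z p) A = _
  rw [e1, e2]

/-- **The rows `A`, `p`, `q`, `B`, all near.** -/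
theorem far2_mid {A B : List α} {b : α} (h : Good z (p :: q :: (A ++ B))) (hb : b ∉ p :: q :: (A ++ B))
    (hc : c ∉ p :: q :: (A ++ B)) (hbc : b ≠ c)
    (hR : ∀ Y : List α, Y.Perm (p :: q :: (A ++ B)) → Reg z Y) :
    far2 z p q (ux z p) (A ++ B) ∘ₗ (uops.M z q (z q) A * uops.M z p (z p) A) =
      Fr.Qs (ux z) (p :: q :: (A ++ B)).toFinset • VV z (A ++ p :: q :: B) := by
  have hn := h.nd
  have hpA : ∀ k ∈ A, k ≠ p := fun k hk e => (List.nodup_cons.1 hn).1 (by simp [← e, hk])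
  have hqA : ∀ k ∈ A, k ≠ q := fun k hk e =>
    (List.nodup_cons.1 (List.nodup_cons.1 hn).2).1 (by simp [← e, hk])
  have hok : ∀ i ∈ p :: q :: (A ++ B), okR (3 * Real.pi / 16 - z i) := fun i hi =>
    (EXL.Fm.okR_iff _).2 (h.D i hi)
  have hd : ∀ i ∈ p :: q :: (A ++ B), ∀ k ∈ A, k ≠ i → okR (z i - z k) := fun i hi k hk hki => by
    have := h.d k (by simp [hk]) i hi hki
    unfold ux at this
    rw [sub_sub_sub_cancel_left] at this
    exact (EXL.Fm.okR_iff _).2 this
  rw [far2_near h hb hc hbc, LinearMap.smul_comp,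
    VV_mid hn hc (hok p (by simp)) (hok q (by simp)) (fun k hk => hok k (by simp [hk]))
      (fun k hk => hd p (by simp) k hk (hpA k hk)) (fun k hk => hd q (by simp) k hk (hqA k hk)) hR]

end exch

end Pool.Agent.NUF
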