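import Pool.Agent.NUF.PRel

/-!
# Two lines in the middle, one on each side of the face

`mid x y p q V` = `x` times `V` with the sites `p`, `q` empty plus `y` times `V` with a new arc between `p` and
`q`.  The pairing of two such functionals: the arcs form a loop round the face.
-/

set_option autoImplicit false

namespace Pool.Agent.NUF

open LPat

section mid

variable {Γ ι : Type*} [AddCommGroup Γ] [DecidableEq ι] {ν : Γ → ℂ} {χ : ι → Γ}

/-- The sites `p`, `q` are empty (weight `x`) or joined by a new arc (weight `y`). -/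
noncomputable def wmid (x y : ℂ) (p q : ι) : Wd ℂ ι := x • (we p * we q) + y • wcu p q

omit [DecidableEq ι] in
theorem On.mid {T : Set ι} {p q : ι} (x y : ℂ) (hp : p ∈ T) (hq : q ∈ T) : On T (wmid x y p q) :=
  (((On.e hp).mul (On.e hq)).smul x).add ((On.cu hp hq).smul y)

theorem repL_mid (x y : ℂ) (p q : ι) : repL ν id (wmid x y p q) =
    x • (lE Γ ℂ p * lE Γ ℂ q) + y • lCu Γ ℂ p q := by
  rw [wmid, map_add, map_smul, map_smul, map_mul, repL, we, we, wcu, FreeAlgebra.lift_ι_apply,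
    FreeAlgebra.lift_ι_apply, FreeAlgebra.lift_ι_apply]
  rfl

theorem rep0_mid (x y : ℂ) (p q : ι) : rep0 ℂ id (wmid x y p q) =
    x • (EXL.opE ℂ p * EXL.opE ℂ q) + y • EXL.opCu ℂ p q := by
  rw [wmid, map_add, map_smul, map_smul, map_mul, rep0_e, rep0_e, rep0_cu]
  rfl

/-- The functional with two lines in the middle. -/
noncomputable def mid (x y : ℂ) (p q : ι) (V : Fnl ι) : Fnl ι := V ∘ₗ rep0 ℂ id (wmid x y p q)

theorem mid_apply (x y : ℂ) (p q : ι) (V : Fnl ι) (F : EXL.Pat ι → ℂ) :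
    mid x y p q V F = x * V (EXL.opE ℂ p (EXL.opE ℂ q F)) + y * V (EXL.opCu ℂ p q F) := by
  rw [mid, LinearMap.comp_apply, rep0_mid, LinearMap.add_apply, LinearMap.smul_apply,
    LinearMap.smul_apply, map_add, map_smul, map_smul, Module.End.mul_apply]
  rfl

theorem glue_emp {a b : ι} (hab : a ≠ b) {R : LPat Γ ι} (ha : R a = a) (hb : R b = b)
    (F : LPat Γ ι → ℂ) : (cops ν).glue a b F R = F R := by
  rw [glueL, if_neg hab, LinearMap.add_apply, Pi.add_apply, Module.End.mul_apply, lE_apply,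
    lE_apply, if_pos ha, if_pos hb, lCt_apply, if_neg (fun h => h.2.1 ha), add_zero]

theorem glue_l {a b : ι} (hab : a ≠ b) {R : LPat Γ ι} (ha : R a ≠ a) (hb : R b = b)
    (F : LPat Γ ι → ℂ) : (cops ν).glue a b F R = 0 := by
  rw [glueL, if_neg hab, LinearMap.add_apply, Pi.add_apply, Module.End.mul_apply, lE_apply,
    if_neg ha, lCt_apply, if_neg (fun h => h.2.2 hb), add_zero]

theorem glue_r {a b : ι} (hab : a ≠ b) {R : LPat Γ ι} (ha : R a = a) (hb : R b ≠ b)
    (F : LPat Γ ι → ℂ) : (cops ν).glue a b F R = 0 := by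
  rw [glueL, if_neg hab, LinearMap.add_apply, Pi.add_apply, Module.End.mul_apply, lE_apply,
    if_pos ha, lE_apply, if_neg hb, lCt_apply, if_neg (fun h => h.2.1 ha), add_zero]

theorem glue_occ {a b : ι} (hab : a ≠ b) {R : LPat Γ ι} (ha : R a ≠ a) (hb : R b ≠ b)
    (F : LPat Γ ι → ℂ) : (cops ν).glue a b F R = lw ν a b R * F (jo a b R) := by
  rw [glueL, if_neg hab, LinearMap.add_apply, Pi.add_apply, Module.End.mul_apply, lE_apply,
    if_neg ha, lCt_apply, if_pos ⟨hab, ha, hb⟩, zero_add]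

/-- The two arcs form a loop. -/
theorem mid_glue {p p' q q' : ι} (h1 : p ≠ p') (h2 : p ≠ q) (h3 : p ≠ q') (h4 : p' ≠ q)
    (h5 : p' ≠ q') (h6 : q ≠ q') {P : LPat Γ ι} (e1 : P p = p) (e2 : P p' = p') (e3 : P q = q)
    (e4 : P q' = q') (x y x' y' : ℂ) (G : LPat Γ ι → ℂ) :
    repL ν id (wmid x' y' p' q') (repL ν id (wmid x y p q)
      (Tw χ ((cops ν).glue p p' ((cops ν).glue q q' G)))) P =
    (x * x' + y * y' * ν ((χ p' - χ q') - (χ p - χ q))) * Tw χ G P := by
  set K := Tw χ ((cops ν).glue p p' ((cops ν).glue q q' G)) with hK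
  have hKa : ∀ Q, K Q = (cops ν).glue p p' ((cops ν).glue q q' G) (gau χ Q) := fun Q => rfl
  have c1 : CuOK p q P := ⟨e1, e3⟩
  have c2 : CuOK p' q' P := ⟨e2, e4⟩
  -- both empty
  have k1 : K P = Tw χ G P := by
    rw [hKa, glue_emp h1 (R := gau χ P) e1 e2, glue_emp h6 (R := gau χ P) e3 e4]
    rfl
  -- one arc
  have k2 : K (cup p q P) = 0 := by
    rw [hKa]
    refine glue_l h1 ?_ ?_ _
    · rw [gau_f, cup_f c1, if_pos rfl]; exact h2.symm
    · rw [gau_f, cup_f c1, if_neg h1.symm, if_neg h4, e2]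
  have k3 : K (cup p' q' P) = 0 := by
    rw [hKa]
    refine glue_r h1 ?_ ?_ _
    · rw [gau_f, cup_f c2, if_neg h1, if_neg h3, e1]
    · rw [gau_f, cup_f c2, if_pos rfl]; exact h5.symm
  -- two arcs
  have c3 : CuOK p q (cup p' q' P) := by
    constructor
    · rw [cup_f c2, if_neg h1, if_neg h3, e1]
    · rw [cup_f c2, if_neg h4.symm, if_neg h6, e3]
  set P2 := cup p q (cup p' q' P) with hP2
  have f2 : ∀ x, P2 x = if x = p then q else if x = q then p else
      if x = p' then q' else if x = q' then p' else P x := by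
    intro x
    rw [hP2, cup_f c3, cup_f c2]
  have s2 : ∀ x, P2.s x = P.s x := fun x => rfl
  have s0 : ∀ x, P x = x → P.s x = 0 := P.fix
  set P3 := gau χ P2 with hP3
  have f3 : ∀ x, P3 x = P2 x := fun x => rfl
  have s3 : ∀ x, P3.s x = P.s x + χ x - χ (P2 x) := fun x => rfl
  have g1 : P3 p = q := by rw [f3, f2, if_pos rfl]
  have g2 : P3 p' = q' := by rw [f3, f2, if_neg h1.symm, if_neg h4, if_pos rfl]
  have g3 : P3 q = p := by rw [f3, f2, if_neg h2.symm, if_pos rfl]
  have g4 : P3 q' = p' := by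
    rw [f3, f2, if_neg h3.symm, if_neg h6.symm, if_neg h5.symm, if_pos rfl]
  have m1 : P3 p ≠ p := by rw [g1]; exact h2.symm
  have m2 : P3 p' ≠ p' := by rw [g2]; exact h5.symm
  have m3 : P3 p ≠ p' := by rw [g1]; exact h4.symm
  have c4 : CtOK p p' P3 := ⟨h1, m1, m2, m3⟩
  set P4 := cut p p' P3 with hP4
  have f4 : ∀ x, P4 x = if x = p then p else if x = p' then p' else if x = q then q'
      else if x = q' then q else P3 x := by
    intro x
    rw [hP4, cut_f c4, g1, g2]
  have s4 : ∀ x, P4.s x = if x = p then 0 else if x = p' then 0 else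
      if x = q then P3.s p' - P3.s p else if x = q' then P3.s p - P3.s p' else P3.s x := by
    intro x
    rw [hP4, cut_s c4, g1, g2]
  have n1 : P4 q = q' := by rw [f4, if_neg h2.symm, if_neg h4.symm, if_pos rfl]
  have n2 : P4 q' = q := by
    rw [f4, if_neg h3.symm, if_neg h5.symm, if_neg h6.symm, if_pos rfl]
  have n3 : P4.s q = (χ p' - χ q') - (χ p - χ q) := by
    rw [s4, if_neg h2.symm, if_neg h4.symm, if_pos rfl, s3, s3, ← f3, ← f3, g1, g2, s0 _ e1,
      s0 _ e2]
    abel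
  have gs : ∀ x, (gau χ P).s x = P.s x + χ x - χ (P x) := fun x => rfl
  have hr : rem q q' P4 = gau χ P := by
    ext x
    · rw [rem_f n1, f4, f3, f2, gau_f]
      by_cases a1 : x = q
      · rw [if_pos a1, a1, e3]
      · rw [if_neg a1]
        by_cases a2 : x = q'
        · rw [if_pos a2, a2, e4]
        · rw [if_neg a2]
          by_cases a3 : x = p
          · rw [if_pos a3, a3, e1]
          · rw [if_neg a3]
            by_cases a4 : x = p'
            · rw [if_pos a4, a4, e2]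
            · simp only [a1, a2, a3, a4, if_false]
    · rw [rem_s n1, s4, gs]
      by_cases a1 : x = q
      · rw [if_pos a1, a1, e3, s0 _ e3]; abel
      · rw [if_neg a1]
        by_cases a2 : x = q'
        · rw [if_pos a2, a2, e4, s0 _ e4]; abel
        · rw [if_neg a2]
          by_cases a3 : x = p
          · rw [if_pos a3, a3, e1, s0 _ e1]; abel
          · rw [if_neg a3]
            by_cases a4 : x = p'
            · rw [if_pos a4, a4, e2, s0 _ e2]; abel
            · rw [if_neg a4, if_neg a1, if_neg a2, s3, f2]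
              simp only [a1, a2, a3, a4, if_false]
  have k4 : K P2 = ν ((χ p' - χ q') - (χ p - χ q)) * Tw χ G P := by
    rw [hKa, ← hP3, glue_occ h1 m1 m2, lw_neg P3 ν m3, one_mul, jo_neg P3 m3, ← hP4,
      glue_occ h6 (by rw [n1]; exact h6.symm) (by rw [n2]; exact h6), lw_pos P4 ν n1, n3,
      jo_pos P4 n1, hr]
    rfl
  rw [repL_mid, repL_mid]
  simp only [LinearMap.add_apply, LinearMap.smul_apply, Pi.add_apply, Pi.smul_apply,
    Module.End.mul_apply, lE_apply, lCu_apply, smul_eq_mul]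
  rw [if_pos e2, if_pos e4, if_pos e1, if_pos e3, if_pos c1, if_pos c2, if_pos c3, if_pos c3.1,
    if_pos c3.2, ← hP2, k1, k2, k3, k4]
  ring

end mid

section pairing

variable {ι : Type*} [DecidableEq ι] [Finite ι] {A B : List (ι × ι)} {V V' : Fnl ι} {n' : ℂ}

omit [Finite ι] in
theorem SupS.mid {S : Set ι} {p q : ι} (h : SupS S V) (x y : ℂ) :
    SupS (S ∪ {p, q}) (mid x y p q V) :=
  (h.mono Set.subset_union_left).comp (On.mid x y (by simp) (by simp))

/-- **Two lines in the middle, one on each side of the face.** -/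
theorem Zp_mid {p p' q q' : ι} (hG : Gd ((p, p') :: (q, q') :: (A ++ B)))
    (hV : SupS (Sr (A ++ B)) V) (hV' : SupS (Sl (A ++ B)) V') (x y x' y' : ℂ) :
    Zp n' (mid x y p q V) (mid x' y' p' q' V') (A ++ [(p, p')]) ((q, q') :: B) =
      (x * x' + y * y' * n') * Zp n' V V' A B := by
  have hp : (A ++ [(p, p')] ++ (q, q') :: B).Perm ((p, p') :: (q, q') :: (A ++ B)) := by
    rw [List.append_assoc]
    refine List.perm_middle.trans (List.Perm.cons _ ?_)
    exact List.perm_middle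
  have hG0 := hG.perm hp.symm
  obtain ⟨a1, a2, a3⟩ := Gd_cons.1 hG
  obtain ⟨b1, b2, b3⟩ := Gd_cons.1 a3
  obtain ⟨a4, a5, a6, a7⟩ := a2 (q, q') (by simp)
  simp only at a1 a4 a5 a6 a7 b1
  have d0 := b3.disj
  have np : ∀ t ∈ A ++ B, p ≠ t.1 ∧ p ≠ t.2 ∧ p' ≠ t.1 ∧ p' ≠ t.2 := fun t ht =>
    a2 t (List.mem_cons_of_mem _ ht)
  have nq : ∀ t ∈ A ++ B, q ≠ t.1 ∧ q ≠ t.2 ∧ q' ≠ t.1 ∧ q' ≠ t.2 := fun t ht => b2 t ht
  have p1 : p ∉ Sr (A ++ B) := fun h => by
    obtain ⟨t, ht, e⟩ := List.mem_map.1 h; exact (np t ht).1 e.symm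
  have p2 : p ∉ Sl (A ++ B) := fun h => by
    obtain ⟨t, ht, e⟩ := List.mem_map.1 h; exact (np t ht).2.1 e.symm
  have p3 : p' ∉ Sr (A ++ B) := fun h => by
    obtain ⟨t, ht, e⟩ := List.mem_map.1 h; exact (np t ht).2.2.1 e.symm
  have p4 : p' ∉ Sl (A ++ B) := fun h => by
    obtain ⟨t, ht, e⟩ := List.mem_map.1 h; exact (np t ht).2.2.2 e.symm
  have q1 : q ∉ Sr (A ++ B) := fun h => by
    obtain ⟨t, ht, e⟩ := List.mem_map.1 h; exact (nq t ht).1 e.symm
  have q2 : q ∉ Sl (A ++ B) := fun h => by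
    obtain ⟨t, ht, e⟩ := List.mem_map.1 h; exact (nq t ht).2.1 e.symm
  have q3 : q' ∉ Sr (A ++ B) := fun h => by
    obtain ⟨t, ht, e⟩ := List.mem_map.1 h; exact (nq t ht).2.2.1 e.symm
  have q4 : q' ∉ Sl (A ++ B) := fun h => by
    obtain ⟨t, ht, e⟩ := List.mem_map.1 h; exact (nq t ht).2.2.2 e.symm
  -- the values of the twist
  have c1 := chi_in hG0 (t := (p, p')) (by simp)
  have c2 := chi_out hG0 (t := (q, q')) (by simp)
  simp only at c1 c2
  have d1 : Disjoint (Sr (A ++ B)) (Sl (A ++ B) ∪ {p', q'}) := by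
    rw [Set.disjoint_union_right]
    refine ⟨d0, ?_⟩
    rw [Set.disjoint_right]
    rintro x hx
    rcases hx with rfl | hx
    · exact p3
    · rw [Set.mem_singleton_iff] at hx
      subst hx
      exact q3
  have o1 : On (Sl (A ++ B) ∪ {p', q'})ᶜ (wmid x y p q) := by
    refine On.mid x y ?_ ?_
    · simp only [Set.mem_compl_iff, Set.mem_union, Set.mem_insert_iff, Set.mem_singleton_iff,
        not_or]
      exact ⟨p2, a1, a5⟩
    · simp only [Set.mem_compl_iff, Set.mem_union, Set.mem_insert_iff, Set.mem_singleton_iff,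
        not_or]
      exact ⟨q2, a6.symm, b1⟩
  have o2 : On (Sr (A ++ B))ᶜ (wmid x' y' p' q') := On.mid x' y' p3 q3
  have h0 := nu2_zero n'
  unfold Zp
  rw [gm_perm (nu2_neg n') hG0 hp, gm_cons, gm_cons, show mid x y p q V =
    V ∘ₗ rep0 ℂ id (wmid x y p q) from rfl, pr_left h0 hV (hV'.mid x' y') d1 o1,
    show mid x' y' p' q' V' = V' ∘ₗ rep0 ℂ id (wmid x' y' p' q') from rfl,
    pr_right h0 hV hV' d0 o2]
  set χ := chi (A ++ [(p, p')]) with hχ
  have key : pr (ZMod 2) V V' (repL (nu2 n') id (wmid x' y' p' q') (repL (nu2 n') id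
      (wmid x y p q) (Tw χ ((cops (nu2 n')).glue p p' ((cops (nu2 n')).glue q q'
        (gm (nu2 n') (A ++ B))))))) =
      pr (ZMod 2) V V' ((x * x' + y * y' * n') • Tw χ (gm (nu2 n') (A ++ B))) := by
    rw [pr_apply, pr_apply]
    refine hV.congr fun P hP => ?_
    refine hV'.congr fun Q hQ => ?_
    have d := dj_of_sup d0 hP hQ
    have f : ∀ x, x ∉ Sr (A ++ B) → x ∉ Sl (A ++ B) → ofP (ZMod 2) (un P Q) x = x := by
      intro x hx hx'
      show un P Q x = x
      rw [un_apply d, if_pos (hP x hx), hQ x hx']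
    rw [mid_glue a1 a4 a5 a6 a7 b1 (f p p1 p2) (f p' p3 p4) (f q q1 q2) (f q' q3 q4), c1.1, c1.2,
      c2.1, c2.2]
    have hn : nu2 n' ((1 - 0 : ZMod 2) - (0 - 0)) = n' := by
      rw [nu2, if_neg]
      decide
    rw [hn]
    rfl
  rw [key, map_smul, smul_eq_mul]
  congr 1
  refine pr_tw hV hV' d0 (fun u hu v hv => ?_) (fun u hu v hv => ?_) _
  · have e : ∀ u ∈ Sr (A ++ B), χ u = chi A u := by
      intro u hu
      have : u ≠ p' := fun h => p3 (h ▸ hu)
      rw [hχ]
      unfold chi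
      simp only [List.map_append, List.map_cons, List.map_nil, List.mem_append,
        List.mem_singleton, this, or_false]
    rw [e u hu, e v hv]
  · have e : ∀ u ∈ Sl (A ++ B), χ u = chi A u := by
      intro u hu
      have : u ≠ p' := fun h => p4 (h ▸ hu)
      rw [hχ]
      unfold chi
      simp only [List.map_append, List.map_cons, List.map_nil, List.mem_append,
        List.mem_singleton, this, or_false]
    rw [e u hu, e v hv]

end pairing

end Pool.Agent.NUF
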