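import Pool.Agent.NUF.UVec
import Pool.Agent.EXL.FormInst
import Mathlib.Analysis.Analytic.Order

/-!
# One far line: regularity outside a countable closed set (B5)
-/

set_option autoImplicit false

namespace Pool.Agent.NUF

open _root_.Pool.Agent.EXL _root_.Pool.Agent.EXL.Pat _root_.Pool.Agent.EXL.HS Filter Topology

section aff

/-- Affine functions of the weights. -/
def Aff (f : Wt ℂ → ℂ) : Prop := ∃ a0 a1 a2 a3 a4 a5 : ℂ, ∀ w, f w = a0 + a1 * w.v + a2 * w.u1 + a3 * w.u2 +
  a4 * w.w1 + a5 * w.w2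

theorem Aff.const (a : ℂ) : Aff fun _ => a := ⟨a, 0, 0, 0, 0, 0, fun w => by ring⟩

theorem Aff.add {f g : Wt ℂ → ℂ} (hf : Aff f) (hg : Aff g) : Aff fun w => f w + g w := by
  obtain ⟨a0, a1, a2, a3, a4, a5, h⟩ := hf
  obtain ⟨b0, b1, b2, b3, b4, b5, h'⟩ := hg
  exact ⟨a0 + b0, a1 + b1, a2 + b2, a3 + b3, a4 + b4, a5 + b5, fun w => by
    simp only [h, h']
    ring⟩

theorem Aff.mul {f : Wt ℂ → ℂ} (c : ℂ) (hf : Aff f) : Aff fun w => c * f w := by
  obtain ⟨a0, a1, a2, a3, a4, a5, h⟩ := hf
  exact ⟨c * a0, c * a1, c * a2, c * a3, c * a4, c * a5, fun w => by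
    simp only [h]
    ring⟩

/-- The value at the weights of a rhombus times the denominator is an entire function. -/
theorem Aff.entire {f : Wt ℂ → ℂ} (hf : Aff f) : ∃ g : ℂ → ℂ, Differentiable ℂ g ∧
    ∀ u, okR u → Fm.Dn u * f (rwt u) = g u := by
  obtain ⟨a0, a1, a2, a3, a4, a5, h⟩ := hf
  refine ⟨fun u => a0 * Fm.Dn u + a1 * (Fm.Wn u).v + a2 * (Fm.Wn u).u1 + a3 * (Fm.Wn u).u2 +
    a4 * (Fm.Wn u).w1 + a5 * (Fm.Wn u).w2, ?_, ?_⟩
  · unfold Fm.Dn Fm.Wn
    fun_prop
  · intro u hu
    have hD := (Fm.okR_iff u).1 hu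
    rw [h, Fm.rwt_eq]
    simp only [Fm.Wc, Wt.sc]
    field_simp

end aff

section op

variable {α : Type*} [DecidableEq α]

theorem aff_R_var {i j : α} (G : Pat α → ℂ) (p : Pat α) : Aff fun w => R w i j G p := by
  by_cases hi : p i = i
  · by_cases hj : p j = j
    · exact ⟨G p, 0, 0, G (cup i j p), 0, 0, fun w => by simp only [R, if_pos hi, if_pos hj]; ring⟩
    · exact ⟨0, G p, G (swap i j p), 0, 0, 0, fun w => by simp only [R, if_pos hi, if_neg hj]; ring⟩
  · by_cases hj : p j = j
    · exact ⟨0, G p, G (swap i j p), 0, 0, 0, fun w => by simp only [R, if_neg hi, if_pos hj]; ring⟩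
    · by_cases hij : p i = j
      · exact ⟨0, 0, 0, 0, G p, 0, fun w => by simp only [R, if_neg hi, if_neg hj, if_pos hij]; ring⟩
      · exact ⟨0, 0, 0, G (cut i j p), G (swap i j p), G (cup i j (cut i j p)), fun w => by
          simp only [R, if_neg hi, if_neg hj, if_neg hij]; ring⟩

theorem aff_R_fix (w : Wt ℂ) {i j : α} {G : Wt ℂ → Pat α → ℂ} (hG : ∀ p, Aff fun W => G W p) (p : Pat α) :
    Aff fun W => R w i j (G W) p := by
  by_cases hi : p i = i
  · by_cases hj : p j = j
    · simp only [R, if_pos hi, if_pos hj]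
      exact (hG _).add ((hG _).mul _)
    · simp only [R, if_pos hi, if_neg hj]
      exact ((hG _).mul _).add ((hG _).mul _)
  · by_cases hj : p j = j
    · simp only [R, if_neg hi, if_pos hj]
      exact ((hG _).mul _).add ((hG _).mul _)
    · by_cases hij : p i = j
      · simp only [R, if_neg hi, if_neg hj, if_pos hij]
        exact (hG _).mul _
      · simp only [R, if_neg hi, if_neg hj, if_neg hij]
        exact (((hG _).mul _).add ((hG _).mul _)).add ((hG _).mul _)

variable {x c : α} {X : List α}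

theorem aff_M (w0 : α → Wt ℂ) (hn : X.Nodup) (G : Pat α → ℂ) (p : Pat α) :
    Aff fun W => M (fun j => if j = x then W else w0 j) c X G p := by
  induction X generalizing p with
  | nil => exact Aff.const _
  | cons j X ih =>
    rw [List.nodup_cons] at hn
    simp only [M_cons]
    by_cases hj : j = x
    · subst hj
      have h1 : ∀ W : Wt ℂ, M (fun k => if k = j then W else w0 k) c X G = M w0 c X G := by
        intro W
        have h2 : M (fun k => if k = j then W else w0 k) c X = M w0 c X := by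
          apply M_congr'
          intro k hk
          have hkj : k ≠ j := by
            rintro rfl
            exact hn.1 hk
          rw [if_neg hkj]
        rw [h2]
      simp only [if_true, h1]
      exact aff_R_var _ p
    · simp only [if_neg hj]
      exact aff_R_fix _ (fun q => ih hn.2 q) p

theorem aff_colF (w0 : α → Wt ℂ) (hn : X.Nodup) (G : Pat α → ℂ) (p : Pat α) :
    Aff fun W => colF (fun j => if j = x then W else w0 j) c X G p := by
  unfold colF
  simp only [emp]
  by_cases hp : p c = c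
  · simp only [if_pos hp]
    exact aff_M w0 hn _ p
  · simp only [if_neg hp]
    exact Aff.const _

end op

section far

variable {ι : Type*} [DecidableEq ι] {z : ι → ℂ} {c x : ι} {X : List ι}

/-- The column as a function of the rapidity of one row. -/
theorem T0_update (hn : X.Nodup) (hc : c ∉ X) (F : Pat ι → ℂ) (p : Pat ι) :
    ∃ f : Wt ℂ → ℂ, Aff f ∧ ∀ ζ, T0 (Function.update z x ζ) c X F p = f (rwt (3 * Real.pi / 16 - ζ)) := by
  refine ⟨_, aff_colF (x := x) (c := c) (fun j => rwt (3 * Real.pi / 16 - z j)) hn F p, fun ζ => ?_⟩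
  have h := congrFun (congrFun (T0_fun (Function.update z x ζ) hc) F) p
  rw [h]
  congr 1
  funext j
  by_cases hj : j = x
  · subst hj
    rw [Function.update_self, if_pos rfl]
  · rw [Function.update_of_ne hj, if_neg hj]

/-- The zero set of a nonzero entire function is countable. -/
theorem zeros_countable {f : ℂ → ℂ} (hf : Differentiable ℂ f) {a : ℂ} (ha : f a ≠ 0) :
    {x | f x = 0}.Countable := by
  have h1 : AnalyticOnNhd ℂ f Set.univ := fun y _ => hf.analyticAt y
  have h2 := h1.preimage_zero_mem_codiscrete ha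
  rw [mem_codiscrete'] at h2
  have h3 : (f ⁻¹' {0}ᶜ)ᶜ = {x | f x = 0} := by
    ext y
    simp
  rw [h3] at h2
  exact (HereditarilyLindelofSpace.isLindelof _).countable_of_isDiscrete h2.2

variable [Fintype ι]

/-- **B5: one far line.**  If the rows are regular for one value of the rapidity of the row `x`, they are regular
for all values outside a countable closed set. -/
theorem far_regular (hn : X.Nodup) (hc : c ∉ X) {ζ0 : ℂ} (h0 : okR (3 * Real.pi / 16 - ζ0))
    (hR : Reg (Function.update z x ζ0) X) :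
    ∃ S : Set ℂ, S.Countable ∧ IsClosed S ∧ ζ0 ∉ S ∧
      ∀ ζ, ζ ∉ S ↔ (okR (3 * Real.pi / 16 - ζ) ∧ Reg (Function.update z x ζ) X) := by
  classical
  have : Fintype (NE (AX X)) := Fintype.ofFinite _
  set h : ℂ := 3 * Real.pi / 16 with hh
  -- the entries
  have hent : ∀ p q : NE (AX X), ∃ g : ℂ → ℂ, Differentiable ℂ g ∧ ∀ ζ, okR (h - ζ) →
      Fm.Dn (h - ζ) * nmat (AX X) (fun F => T0 (Function.update z x ζ) c X F) p q = g ζ := by
    intro p q
    obtain ⟨f, hf, hT⟩ := T0_update (z := z) (x := x) hn hc (HS.ind q.1) p.1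
    obtain ⟨g, hg, hg'⟩ := hf.entire
    refine ⟨fun ζ => Fm.Dn (h - ζ) * (if p = q then 1 else 0) - g (h - ζ), ?_, ?_⟩
    · have h1 : Differentiable ℂ fun ζ => Fm.Dn (h - ζ) := by
        unfold Fm.Dn
        fun_prop
      have h2 : Differentiable ℂ fun ζ => g (h - ζ) := hg.comp (by fun_prop)
      exact (h1.mul_const _).sub h2
    · intro ζ hζ
      unfold nmat
      simp only
      rw [mul_sub, hT ζ, ← hh, ← hg' _ hζ]
      by_cases hpq : p = q
      · rw [if_pos hpq, if_pos hpq]
      · rw [if_neg hpq, if_neg hpq]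
  choose g hg hg' using hent
  set f : ℂ → ℂ := fun ζ => Matrix.det (Matrix.of fun p q => g p q ζ) * Fm.Dn (h - ζ) with hf
  have hfd : Differentiable ℂ f := by
    have h1 : Differentiable ℂ fun ζ => Fm.Dn (h - ζ) := by
      unfold Fm.Dn
      fun_prop
    refine Differentiable.mul ?_ h1
    have h2 : (fun ζ => Matrix.det (Matrix.of fun p q => g p q ζ)) =
        fun ζ => ∑ σ : Equiv.Perm (NE (AX X)), Equiv.Perm.sign σ • ∏ i, g (σ i) i ζ := by
      funext ζ
      rw [Matrix.det_apply]
      rfl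
    rw [h2]
    refine Differentiable.fun_sum fun σ _ => ?_
    refine Differentiable.const_smul ?_ _
    exact Differentiable.fun_finsetProd fun i _ => hg _ _
  have hdet : ∀ ζ, okR (h - ζ) → Matrix.det (Matrix.of fun p q => g p q ζ) =
      Fm.Dn (h - ζ) ^ Fintype.card (NE (AX X)) *
        (nmat (AX X) (fun F => T0 (Function.update z x ζ) c X F)).det := by
    intro ζ hζ
    rw [← Matrix.det_smul]
    congr 1
    ext p q
    rw [Matrix.smul_apply, smul_eq_mul, hg' p q ζ hζ, Matrix.of_apply]
  have hiff : ∀ ζ, f ζ ≠ 0 ↔ (okR (h - ζ) ∧ Reg (Function.update z x ζ) X) := by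
    intro ζ
    constructor
    · intro hζ
      have h1 : Fm.Dn (h - ζ) ≠ 0 := by
        intro e
        apply hζ
        rw [hf]
        simp only
        rw [e, mul_zero]
      have hok := (Fm.okR_iff _).2 h1
      refine ⟨hok, reg_of hn hc ((nmat_det (lin_end _)).1 ?_)⟩
      intro e
      apply hζ
      rw [hf]
      simp only
      rw [hdet ζ hok, e]
      ring
    · rintro ⟨hok, hreg⟩
      rw [hf]
      simp only
      rw [hdet ζ hok]
      have h1 := (Fm.okR_iff _).1 hok
      exact mul_ne_zero (mul_ne_zero (pow_ne_zero _ h1) ((nmat_det (lin_end _)).2 (hreg c hc))) h1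
  have hf0 : f ζ0 ≠ 0 := (hiff ζ0).2 ⟨h0, hR⟩
  refine ⟨{ζ | f ζ = 0}, zeros_countable hfd hf0, isClosed_eq hfd.continuous continuous_const, hf0, ?_⟩
  intro ζ
  exact hiff ζ

end far

end Pool.Agent.NUF
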