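import Pool.Agent.NUF.Far2
import Pool.Agent.NUF.FarN
import Pool.Agent.NUF.UFar
import Pool.Agent.NUF.PMid
import Pool.Agent.NUF.ScalF

/-!
# Two far lines: analyticity, and the limit on the two sides (helper15)

`FF z p q A X` = the functional of the rows `A, p, q, ...` (`X` = the other rows, `A` the ones below `p`).
-/

set_option autoImplicit false

namespace Pool.Agent.NUF

open _root_.Pool.Agent.EXL _root_.Pool.Agent.EXL.Pat Filter Topology
open _root_.Pool.Agent.EXL.Fm (lam)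

section dt

variable {α : Type*} {t : ℂ}

/-- Differentiability of a family of functionals. -/
def DtF (V : ℂ → Fnl α) (t : ℂ) : Prop := ∀ F, DifferentiableAt ℂ (fun s => V s F) t

/-- Differentiability of a family of operators. -/
def DtE (X : ℂ → Module.End ℂ (Pat α → ℂ)) (t : ℂ) : Prop :=
  ∀ F P, DifferentiableAt ℂ (fun s => X s F P) t

theorem DtF.const (V : Fnl α) : DtF (fun _ => V) t := fun _ => differentiableAt_const _

theorem DtE.const (X : Module.End ℂ (Pat α → ℂ)) : DtE (fun _ => X) t :=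
  fun _ _ => differentiableAt_const _

theorem DtF.add {V V' : ℂ → Fnl α} (h : DtF V t) (h' : DtF V' t) : DtF (fun s => V s + V' s) t :=
  fun F => (h F).add (h' F)

theorem DtF.smul {c : ℂ → ℂ} {V : ℂ → Fnl α} (hc : DifferentiableAt ℂ c t) (h : DtF V t) :
    DtF (fun s => c s • V s) t := fun F => hc.mul (h F)

theorem DtF.sum {κ : Type*} (s : Finset κ) {V : κ → ℂ → Fnl α} (h : ∀ k ∈ s, DtF (V k) t) :
    DtF (fun x => ∑ k ∈ s, V k x) t := by
  intro F
  simp only [LinearMap.sum_apply]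
  exact DifferentiableAt.fun_sum fun k hk => h k hk F

theorem DtF.app [Finite α] {V : ℂ → Fnl α} {G : ℂ → Pat α → ℂ} (h : DtF V t)
    (hG : ∀ P, DifferentiableAt ℂ (fun s => G s P) t) : DifferentiableAt ℂ (fun s => V s (G s)) t := by
  classical
  have : Fintype (Pat α) := Fintype.ofFinite _
  have e : (fun s => V s (G s)) = fun s => ∑ q, G s q * V s (HS.ind q) := by
    funext s
    exact fnl_sum (V s) (G s)
  rw [e]
  exact DifferentiableAt.fun_sum fun q _ => (hG q).mul (h (HS.ind q))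

theorem DtF.comp [Finite α] {V : ℂ → Fnl α} {X : ℂ → Module.End ℂ (Pat α → ℂ)} (h : DtF V t)
    (hX : DtE X t) : DtF (fun s => V s ∘ₗ X s) t := fun F => h.app fun P => hX F P

theorem DtE.mul [Finite α] {X Y : ℂ → Module.End ℂ (Pat α → ℂ)} (hX : DtE X t) (hY : DtE Y t) :
    DtE (fun s => X s * Y s) t := by
  intro F P
  classical
  have : Fintype (Pat α) := Fintype.ofFinite _
  have e : (fun s => (X s * Y s) F P) = fun s => ∑ q, Y s F q * X s (HS.ind q) P := by
    funext s
    exact end_sum (X s) (Y s F) P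
  rw [e]
  exact DifferentiableAt.fun_sum fun q _ => (hY F q).mul (hX (HS.ind q) P)

end dt

section R

variable {α : Type*} [DecidableEq α] {t : ℂ}

theorem dt_R {i j : α} (h : i ≠ j) {u : ℂ → ℂ} (hu : DifferentiableAt ℂ u t) (hD : Fm.Dn (u t) ≠ 0) :
    DtE (fun s => uops.R i j (u s)) t := by
  intro F p
  have hDn : DifferentiableAt ℂ (fun s => (Fm.Dn (u s))⁻¹) t := by
    refine DifferentiableAt.inv ?_ hD
    unfold Fm.Dn
    fun_prop
  have w1 : DifferentiableAt ℂ (fun s => (rwt (u s)).v) t := by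
    simp only [Fm.rwt_eq, Fm.Wc, Fm.Wn, EXL.Wt.sc]
    exact hDn.mul (by fun_prop)
  have w2 : DifferentiableAt ℂ (fun s => (rwt (u s)).u1) t := by
    simp only [Fm.rwt_eq, Fm.Wc, Fm.Wn, EXL.Wt.sc]
    exact hDn.mul (by fun_prop)
  have w3 : DifferentiableAt ℂ (fun s => (rwt (u s)).u2) t := by
    simp only [Fm.rwt_eq, Fm.Wc, Fm.Wn, EXL.Wt.sc]
    exact hDn.mul (by fun_prop)
  have w4 : DifferentiableAt ℂ (fun s => (rwt (u s)).w1) t := by
    simp only [Fm.rwt_eq, Fm.Wc, Fm.Wn, EXL.Wt.sc]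
    exact hDn.mul (by fun_prop)
  have w5 : DifferentiableAt ℂ (fun s => (rwt (u s)).w2) t := by
    simp only [Fm.rwt_eq, Fm.Wc, Fm.Wn, EXL.Wt.sc]
    exact hDn.mul (by fun_prop)
  simp only [uops_R_apply h]
  by_cases e1 : p i = i
  · by_cases e2 : p j = j
    · simp only [EXL.R, if_pos e1, if_pos e2]
      exact (differentiableAt_const _).add (w3.mul_const _)
    · simp only [EXL.R, if_pos e1, if_neg e2]
      exact (w1.mul_const _).add (w2.mul_const _)
  · by_cases e2 : p j = j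
    · simp only [EXL.R, if_neg e1, if_pos e2]
      exact (w1.mul_const _).add (w2.mul_const _)
    · by_cases e3 : p i = j
      · simp only [EXL.R, if_neg e1, if_neg e2, if_pos e3]
        exact w4.mul_const _
      · simp only [EXL.R, if_neg e1, if_neg e2, if_neg e3]
        exact ((w4.mul_const _).add (w3.mul_const _)).add (w5.mul_const _)

theorem dt_M [Finite α] {zs : ℂ → α → ℂ} {w : ℂ → ℂ} {i : α} {L : List α}
    (h : ∀ r ∈ L, DtE (fun s => uops.R i r (w s - zs s r)) t) :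
    DtE (fun s => uops.M (zs s) i (w s) L) t := by
  induction L with
  | nil => exact DtE.const 1
  | cons r L ih =>
    have h1 := h r (by simp)
    have h2 := ih fun k hk => h k (by simp [hk])
    intro F P
    have := (h1.mul h2) F P
    simp only [Glob.Ops.M_cons]
    exact this

/-! ### The set of the good positions of a far line -/

/-- The good positions of a far line. -/
def Om (z : α → ℂ) (X : List α) : Set ℂ :=
  {t | ∀ k ∈ X, Complex.sin (t - z k) ≠ 0 ∧ Fm.Dn (z k - t) ≠ 0 ∧ Fm.Dn (t - z k) ≠ 0}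

omit [DecidableEq α] in
theorem Om_neg {z : α → ℂ} {X : List α} {t : ℂ} : -t ∈ Om (fun i => -z i) X ↔ t ∈ Om z X := by
  unfold Om
  simp only [Set.mem_ofPred_eq]
  refine forall₂_congr fun k _ => ?_
  rw [show -t - -z k = -(t - z k) by ring, Complex.sin_neg, neg_ne_zero,
    show -z k - -t = t - z k by ring, show -(t - z k) = z k - t by ring]
  tauto

omit [DecidableEq α] in
theorem Om_eq (z : α → ℂ) (X : List α) : Om z X =
    {t | (X.map fun k => Complex.sin (t - z k) * (Fm.Dn (z k - t) * Fm.Dn (t - z k))).prod = 0}ᶜ := by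
  ext t
  simp only [Om, Set.mem_ofPred_eq, Set.mem_compl_iff, List.prod_eq_zero_iff, List.mem_map, not_exists,
    not_and, mul_eq_zero, not_or]

omit [DecidableEq α] in
theorem Om_diff (z : α → ℂ) (X : List α) : Differentiable ℂ fun t =>
    (X.map fun k => Complex.sin (t - z k) * (Fm.Dn (z k - t) * Fm.Dn (t - z k))).prod := by
  induction X with
  | nil => exact differentiable_const _
  | cons k X ih =>
    simp only [List.map_cons, List.prod_cons]
    refine Differentiable.mul ?_ ih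
    unfold Fm.Dn
    fun_prop

omit [DecidableEq α] in
theorem Om_open (z : α → ℂ) (X : List α) : IsOpen (Om z X) := by
  rw [Om_eq]
  exact (isClosed_eq (Om_diff z X).continuous continuous_const).isOpen_compl

omit [DecidableEq α] in
theorem Dn_im {x : ℂ} (h : x.im ≠ 0) : Fm.Dn x ≠ 0 := (Fm.okR_iff _).1 (ok_im h)

omit [DecidableEq α] in
theorem Om_im {z : α → ℂ} {X : List α} {t : ℂ} (h : ∀ k ∈ X, t.im ≠ (z k).im) : t ∈ Om z X := by
  intro k hk
  have h1 : (t - z k).im ≠ 0 := by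
    rw [Complex.sub_im]
    exact sub_ne_zero.2 (h k hk)
  have h2 : (z k - t).im ≠ 0 := by
    rw [Complex.sub_im]
    exact sub_ne_zero.2 (h k hk).symm
  exact ⟨sin_ne_im h1, Dn_im h2, Dn_im h1⟩

omit [DecidableEq α] in
theorem im_ev (ζ : ℂ) (z : α → ℂ) (X : List α) :
    ∀ᶠ R : ℝ in atTop, ∀ k ∈ X, (ζ + R * Complex.I).im ≠ (z k).im := by
  induction X with
  | nil => exact Eventually.of_forall fun R k hk => absurd hk (by simp)
  | cons k X ih =>
    filter_upwards [ih, eventually_gt_atTop ((z k).im - ζ.im)] with R h1 h2 m hm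
    rcases List.mem_cons.1 hm with rfl | hm
    · simp only [Complex.add_im, Complex.mul_im, Complex.ofReal_re, Complex.I_im, mul_one,
        Complex.ofReal_im, Complex.I_re, mul_zero, add_zero]
      intro e
      linarith
    · exact h1 m hm

omit [DecidableEq α] in
theorem Om_ev (ζ : ℂ) (z : α → ℂ) (X : List α) : ∀ᶠ R : ℝ in atTop, ζ + R * Complex.I ∈ Om z X := by
  filter_upwards [im_ev ζ z X] with R h
  exact Om_im h

omit [DecidableEq α] in
theorem Om_countable (z : α → ℂ) (X : List α) : (Om z X)ᶜ.Countable := by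
  obtain ⟨R, hR⟩ := (Om_ev 0 z X).exists
  rw [Om_eq, compl_compl]
  rw [Om_eq] at hR
  exact zeros_countable (Om_diff z X) hR

/-! ### Analyticity -/

omit [DecidableEq α] in
theorem dt_Dl (x : α → ℂ) (Y : Finset α) {u : ℂ → ℂ} (hu : DifferentiableAt ℂ u t) :
    DifferentiableAt ℂ (fun s => Fr.Dl x (u s) Y) t := by
  unfold Fr.Dl Fr.dl Fr.fa Fr.fa' Fr.fe
  exact DifferentiableAt.fun_finsetProd fun k _ => by fun_prop

theorem dt_fa {u : ℂ → ℂ} (hu : DifferentiableAt ℂ u t) :
    DifferentiableAt ℂ (fun s => Fr.fa (u s)) t := by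
  unfold Fr.fa
  fun_prop

theorem dt_fa' {u : ℂ → ℂ} (hu : DifferentiableAt ℂ u t) :
    DifferentiableAt ℂ (fun s => Fr.fa' (u s)) t := by
  unfold Fr.fa'
  fun_prop

theorem dt_fe {u : ℂ → ℂ} (hu : DifferentiableAt ℂ u t) :
    DifferentiableAt ℂ (fun s => Fr.fe (u s)) t := by
  unfold Fr.fe
  fun_prop

theorem dt_dl {u v : ℂ → ℂ} (hu : DifferentiableAt ℂ u t) (hv : DifferentiableAt ℂ v t) :
    DifferentiableAt ℂ (fun s => Fr.dl (u s) (v s)) t := by
  unfold Fr.dl Fr.fa Fr.fa' Fr.fe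
  fun_prop

theorem dt_pr {u v : ℂ → ℂ} (hu : DifferentiableAt ℂ u t) (hv : DifferentiableAt ℂ v t)
    (h : Complex.sin (u t - v t) ≠ 0) : DifferentiableAt ℂ (fun s => Fr.pr (u s) (v s)) t := by
  unfold Fr.pr Fm.Dn
  exact DifferentiableAt.div (by fun_prop) (by fun_prop) h

/-- One far line. -/
theorem dt_far (z : α → ℂ) (q : α) (X : List α) {u : ℂ → ℂ} (hu : DifferentiableAt ℂ u t) :
    DtF (fun s => far z q (u s) X) t := by
  unfold far farE farC
  have h1 := fun Y : Finset α => dt_Dl (ux z) Y hu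
  refine (DtF.add (DtF.smul ?_ (DtF.const _)) (DtF.sum _ fun i _ => DtF.smul ?_ (DtF.const _))).add
    (DtF.smul (dt_fa hu) (DtF.sum _ fun i _ => DtF.smul ?_ (DtF.const _)))
  · exact (h1 _).mul_const _
  · exact ((((h1 _).const_mul _).mul_const _).mul_const _)
  · exact (((h1 _).const_mul _).mul_const _)

theorem dt_jn {p i : α} {e a : ℂ → ℂ} (he : DifferentiableAt ℂ e t) (ha : DifferentiableAt ℂ a t) :
    DtE (fun s => jn p i (e s) (a s)) t := by
  intro F P
  show DifferentiableAt ℂ (fun s => e s * F P + a s * opCu ℂ p i F P) t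
  exact (he.mul_const _).add (ha.mul_const _)

variable [Finite α] {z : α → ℂ} {zs : ℂ → α → ℂ} {X : List α} {p q : α}

/-- **Two far lines.** -/
theorem dt_far2 {u : ℂ → ℂ} (hz : ∀ s, ∀ k ∈ X, zs s k = z k) (hu : DifferentiableAt ℂ u t)
    (hq : DifferentiableAt ℂ (fun s => zs s q) t) (hO : zs t q ∈ Om z X) :
    DtF (fun s => far2 (zs s) p q (u s) X) t := by
  have e1 : ∀ s, ∀ k ∈ X.toFinset, ux (zs s) k = ux z k := fun s k hk => by
    unfold ux
    rw [hz s k (List.mem_toFinset.1 hk)]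
  have e2 : ∀ s, ∀ i, ∀ k ∈ X.toFinset.erase i, ux (zs s) k = ux z k := fun s i k hk =>
    e1 s k (Finset.mem_of_mem_erase hk)
  have hx : DifferentiableAt ℂ (fun s => ux (zs s) q) t := by
    unfold ux
    exact hq.const_sub _
  have hwq : DifferentiableAt ℂ (fun s => wq (zs s) q X) t := by
    have e : (fun s => wq (zs s) q X) = fun s => ∏ k ∈ X.toFinset, Fr.pr (ux z k) (ux (zs s) q) := by
      funext s
      unfold wq
      exact Finset.prod_congr rfl fun k hk => by rw [e1 s k hk]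
    rw [e]
    refine DifferentiableAt.fun_finsetProd fun k hk => dt_pr (differentiableAt_const _) hx ?_
    have h := (hO k (List.mem_toFinset.1 hk)).1
    unfold ux
    rwa [sub_sub_sub_cancel_left]
  have e : (fun s => far2 (zs s) p q (u s) X) = fun s =>
      (Fr.dl (u s) (ux (zs s) q) * Fr.Dl (ux z) (u s) X.toFinset) • far z q (ux (zs s) q) X +
        ∑ i ∈ X.toFinset, far2t (zs s) p q (u s) X i +
      (Fr.Dl (ux z) (u s) X.toFinset * wq (zs s) q X * Fr.Qs (ux z) X.toFinset) •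
        (VV z X ∘ₗ jn p q (4 * Fr.c3 * (Fr.fa' (ux (zs s) q) * Fr.fe (ux (zs s) q)))
          (4 * Fr.c3 * (Fr.fa' (ux (zs s) q) * Fr.fa (u s)))) := by
    funext s
    unfold far2
    rw [Dl_congr (e1 s), Fr.Qs_congr _ (e1 s), far_congr (z' := z) (X := X) (hz s),
      VV_congr (hz s)]
  rw [e]
  refine (DtF.add (DtF.smul ((dt_dl hu hx).mul (dt_Dl _ _ hu)) (dt_far z q X hx))
    (DtF.sum _ fun i hi => ?_)).add (DtF.smul (((dt_Dl _ _ hu).mul hwq).mul_const _)
      (DtF.comp (DtF.const _) (dt_jn (((dt_fa' hx).mul (dt_fe hx)).const_mul _)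
        (((dt_fa' hx).mul (dt_fa hu)).const_mul _))))
  have hiX := List.mem_toFinset.1 hi
  have ei : (fun s => far2t (zs s) p q (u s) X i) = fun s =>
      (Fr.pr (ux (zs s) q) (ux z i) * Fr.wt (ux z) i (X.toFinset.erase i) *
        (Fr.dl (u s) (ux (zs s) q) * Fr.Dl (ux z) (u s) (X.toFinset.erase i))) •
        (far z q (ux (zs s) q) (X.erase i) ∘ₗ
          (jn p i (Fr.fe (ux z i)) (Fr.fa (u s)) * oE uops (zs s) (q :: X) i)) := by
    funext s
    unfold far2t
    rw [wt_congr (e1 s i hi) (e2 s i), Dl_congr (e2 s i), e1 s i hi,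
      far_congr (z' := z) (X := X.erase i) fun k hk => hz s k (List.mem_of_mem_erase hk)]
  rw [ei]
  have hO' := hO i hiX
  refine DtF.smul (((dt_pr hx (differentiableAt_const _) ?_).mul_const _).mul
    ((dt_dl hu hx).mul (dt_Dl _ _ hu))) (DtF.comp (dt_far z q _ hx) (DtE.mul
      (dt_jn (differentiableAt_const _) (dt_fa hu)) ?_))
  · unfold ux
    rw [sub_sub_sub_cancel_left, ← neg_sub, Complex.sin_neg]
    exact neg_ne_zero.2 hO'.1
  · unfold oE
    refine dt_M fun r hr => ?_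
    obtain ⟨h1, h2⟩ := below_subset r hr
    rcases List.mem_cons.1 h1 with rfl | h1
    · refine dt_R h2.symm ?_ ?_
      · have : (fun s => zs s i - zs s r) = fun s => z i - zs s r := by
          funext s
          rw [hz s i hiX]
        rw [this]
        exact hq.const_sub _
      · rw [hz t i hiX]
        exact hO'.2.1
    · have : (fun s => uops.R i r (zs s i - zs s r)) = fun _ => uops.R i r (z i - z r) := by
        funext s
        rw [hz s i hiX, hz s r h1]
      rw [this]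
      exact DtE.const _

/-- **The functional of the rows `A, p, q, ...`** (`X` = the other rows, `A` the lower ones). -/
noncomputable def FF (z : α → ℂ) (p q : α) (A X : List α) : Fnl α :=
  far2 z p q (ux z p) X ∘ₗ (uops.M z q (z q) A * uops.M z p (z p) A)

/-- **(F2)** Analyticity in every parameter. -/
theorem dt_FF {A : List α} (hA : ∀ k ∈ A, k ∈ X) (hpA : p ∉ A) (hqA : q ∉ A)
    (hz : ∀ s, ∀ k ∈ X, zs s k = z k) (hp : DifferentiableAt ℂ (fun s => zs s p) t)
    (hq : DifferentiableAt ℂ (fun s => zs s q) t) (hOp : zs t p ∈ Om z X) (hO : zs t q ∈ Om z X) :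
    DtF (fun s => FF (zs s) p q A X) t := by
  have key : ∀ r : α, r ∉ A → DifferentiableAt ℂ (fun s => zs s r) t → zs t r ∈ Om z X →
      DtE (fun s => uops.M (zs s) r (zs s r) A) t := by
    intro r hrA hr hO
    refine dt_M fun k hk => dt_R (fun e : r = k => hrA (by rw [e]; exact hk)) ?_ ?_
    · have : (fun s => zs s r - zs s k) = fun s => zs s r - z k := by
        funext s
        rw [hz s k (hA k hk)]
      rw [this]
      exact hr.sub_const _
    · rw [hz t k (hA k hk)]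
      exact (hO k (hA k hk)).2.2
  unfold FF
  refine DtF.comp (dt_far2 hz ?_ hq hO) ((key q hqA hq hO).mul (key p hpA hp hOp))
  unfold ux
  exact hp.const_sub _

end R

/-! ### The limits on the two sides -/

section sides

variable {α : Type*} [DecidableEq α]

theorem VV_mid_jn {z : α → ℂ} {X : List α} {p q : α} (hV : Sup X (VV z X)) (hp : p ∉ X) (hq : q ∉ X)
    (K e a : ℂ) : K • (VV z X ∘ₗ jn p q e a) = mid (K * e) (K * a) p q (VV z X) := by
  have a1 : VV z X ∘ₗ uops.E p = VV z X := uspl.out hp hV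
  have a2 : VV z X ∘ₗ uops.E q = VV z X := uspl.out hq hV
  refine LinearMap.ext fun F => ?_
  have f1 : VV z X (EXL.opE ℂ p (EXL.opE ℂ q F)) = VV z X F := by
    have b1 := LinearMap.congr_fun a1 (EXL.opE ℂ q F)
    have b2 := LinearMap.congr_fun a2 F
    rw [LinearMap.comp_apply, uops_E_apply] at b1 b2
    rw [← b2]
    exact b1
  rw [mid_apply, f1]
  simp only [jn, LinearMap.comp_apply, LinearMap.add_apply, LinearMap.smul_apply, map_add, map_smul,
    Module.End.one_apply, smul_eq_mul]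
  ring

/-- `2 cos 3λ` squared -/
theorem c3_sq : (2 * Fr.c3) * (2 * Fr.c3) = 2 - NUMv.rt := by
  rw [Fr.rt_eq]
  have h1 : Complex.cos (2 * (3 * lam)) = 2 * Fr.c3 ^ 2 - 1 := by
    rw [Complex.cos_two_mul]
    rfl
  have h2 : Complex.cos (2 * (3 * lam)) = - Fr.s2 := by
    unfold Fr.s2
    rw [show 2 * (3 * lam) = 2 * lam + Real.pi / 2 by unfold Fm.lam; ring, Complex.cos_add_pi_div_two]
  linear_combination (-2 : ℂ) * h1 + (2 : ℂ) * h2

/-- `e^{-2 i ζ}` -/
noncomputable def ea (ζ : ℂ) : ℂ := Complex.exp (-2 * Complex.I * ζ)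

/-- the factor of the arc -/
noncomputable def eg (ζ ξ : ℂ) : ℂ := 2 * Fr.c3 * Complex.exp (-Complex.I * (ζ + ξ))

theorem eg_sq (ζ ξ : ℂ) : eg ζ ξ * eg ζ ξ = (2 - NUMv.rt) * (ea ζ * ea ξ) := by
  rw [← c3_sq]
  unfold eg ea
  rw [← Complex.exp_add]
  have : Complex.exp (-2 * Complex.I * ζ + -2 * Complex.I * ξ) =
      Complex.exp (-Complex.I * (ζ + ξ)) * Complex.exp (-Complex.I * (ζ + ξ)) := by
    rw [← Complex.exp_add]
    congr 1
    ring
  rw [this]
  ring

variable [Finite α] {β : Type*} {l : Filter β} {f : β → ℝ} {z : α → ℂ} {zb : β → α → ℂ}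
  {X A : List α} {p q : α} {ζ ξ : ℂ}

/-- **(F3), the right side.** -/
theorem FF_limR (hf : Tendsto f l atTop) (hX : X.Nodup) (hz : ∀ b, ∀ k ∈ X, zb b k = z k)
    (hp : ∀ b, zb b p = ζ + f b * Complex.I) (hq : ∀ b, zb b q = ξ + f b * Complex.I)
    (hV : Sup X (VV z X)) (hpX : p ∉ X) (hqX : q ∉ X) (hpq : p ≠ q) (hA : A.Sublist X) :
    LmF l (fun b => (TT (f b) ^ (2 * X.length + 1))⁻¹ • FF (zb b) p q A X)
      (mid ((ea ζ * ea ξ) ^ X.length * Fr.Qs (ux z) X.toFinset * (ea ζ + ea ξ))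
        ((ea ζ * ea ξ) ^ X.length * Fr.Qs (ux z) X.toFinset * eg ζ ξ) p q (VV z X)) := by
  have hc : X.toFinset.card = X.length := List.toFinset_card_of_nodup hX
  have h := far2_mid_lim (σ := 1) (x := 3 * Real.pi / 16 - ξ) (y := 3 * Real.pi / 16 - ζ) hf
    (Or.inl rfl) hX hz (fun b => by unfold ux; rw [hp b]; ring) (fun b => by unfold ux; rw [hq b]; ring)
    hV hpX hqX hpq hA
  rw [hc] at h
  refine LmF.zero_of h ?_
  have e1 : ex 1 (2 * (3 * Real.pi / 16 - ζ) - 3 * lam) = ea ζ := by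
    unfold ex ea
    congr 1
    unfold Fm.lam
    ring
  have e2 : ex 1 (2 * (3 * Real.pi / 16 - ξ) - 3 * lam) = ea ξ := by
    unfold ex ea
    congr 1
    unfold Fm.lam
    ring
  have e3 : 2 * Fr.c3 * ex 1 (3 * Real.pi / 16 - ξ + (3 * Real.pi / 16 - ζ) - 3 * lam) = eg ζ ξ := by
    unfold ex eg
    congr 2
    unfold Fm.lam
    ring
  unfold lim2
  rw [e1, e2, e3, hc, VV_mid_jn hV hpX hqX]

/-- **(F3), the left side.** -/
theorem FF_limL (hf : Tendsto f l atTop) (hX : X.Nodup) (hz : ∀ b, ∀ k ∈ X, zb b k = z k)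
    (hp : ∀ b, zb b p = ζ + f b * Complex.I) (hq : ∀ b, zb b q = ξ + f b * Complex.I)
    (hV : Sup X (VV (fun i => -z i) X)) (hpX : p ∉ X) (hqX : q ∉ X) (hpq : p ≠ q)
    (hA : A.Sublist X) :
    LmF l (fun b => (TT (f b) ^ (2 * X.length + 1))⁻¹ • FF (fun i => -zb b i) p q A X)
      (mid ((ea ζ * ea ξ) ^ X.length * Fr.Qs (ux fun i => -z i) X.toFinset * (ea ζ + ea ξ))
        ((ea ζ * ea ξ) ^ X.length * Fr.Qs (ux fun i => -z i) X.toFinset * eg ζ ξ) p q
          (VV (fun i => -z i) X)) := by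
  have hc : X.toFinset.card = X.length := List.toFinset_card_of_nodup hX
  have h := far2_mid_lim (σ := -1) (z := fun i => -z i) (zb := fun b i => -zb b i)
    (x := 3 * Real.pi / 16 + ξ) (y := 3 * Real.pi / 16 + ζ) hf
    (Or.inr rfl) hX (fun b k hk => by rw [hz b k hk])
    (fun b => by
      show 3 * Real.pi / 16 - -zb b p = _
      rw [hp b]
      ring)
    (fun b => by
      show 3 * Real.pi / 16 - -zb b q = _
      rw [hq b]
      ring) hV hpX hqX hpq hA
  rw [hc] at h
  refine LmF.zero_of h ?_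
  have e1 : ex (-1) (2 * (3 * Real.pi / 16 + ζ) - 3 * lam) = ea ζ := by
    unfold ex ea
    congr 1
    unfold Fm.lam
    ring
  have e2 : ex (-1) (2 * (3 * Real.pi / 16 + ξ) - 3 * lam) = ea ξ := by
    unfold ex ea
    congr 1
    unfold Fm.lam
    ring
  have e3 : 2 * Fr.c3 * ex (-1) (3 * Real.pi / 16 + ξ + (3 * Real.pi / 16 + ζ) - 3 * lam) =
      eg ζ ξ := by
    unfold ex eg
    congr 2
    unfold Fm.lam
    ring
  unfold lim2
  rw [e1, e2, e3, hc, VV_mid_jn hV hpX hqX]

omit [Finite α] in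
/-- The product of the two sides, `K`, `K'` = the values of `Q`. -/
theorem mid_prod (ζ ξ K K' ν : ℂ) (n : ℕ) :
    (ea ζ * ea ξ) ^ n * K * (ea ζ + ea ξ) * ((ea ζ * ea ξ) ^ n * K' * (ea ζ + ea ξ)) +
      (ea ζ * ea ξ) ^ n * K * eg ζ ξ * ((ea ζ * ea ξ) ^ n * K' * eg ζ ξ) * ν =
    (ea ζ * ea ξ) ^ (2 * n) * ((ea ζ + ea ξ) ^ 2 + (2 - NUMv.rt) * ν * (ea ζ * ea ξ)) * (K * K') := by
  have h := eg_sq ζ ξ
  rw [two_mul, pow_add]
  linear_combination ((ea ζ * ea ξ) ^ n * (ea ζ * ea ξ) ^ n * K * K' * ν) * h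

/-- **(F1)** all rows near. -/
theorem FF_near {A B : List α} {b c : α} (h : Good z (p :: q :: (A ++ B)))
    (hb : b ∉ p :: q :: (A ++ B)) (hc : c ∉ p :: q :: (A ++ B)) (hbc : b ≠ c)
    (hR : ∀ Y : List α, Y.Perm (p :: q :: (A ++ B)) → Reg z Y) :
    FF z p q A (A ++ B) = Fr.Qs (ux z) (p :: q :: (A ++ B)).toFinset • VV z (A ++ p :: q :: B) :=
  far2_mid h hb hc hbc hR

end sides

end Pool.Agent.NUF
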