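import Pool.Agent.NUF.RInf

/-!
# The scalars of two lines at infinity (helper15)

`u = x - σ (R i)`, `R → ∞`, `σ = 1` or `σ = -1`; `T = e^{2R} / 2`; `ex σ x = e^{i σ x}`.
-/

set_option autoImplicit false

namespace Pool.Agent.NUF

open Filter Topology
open Complex (I exp sin cos)
open _root_.Pool.Agent.EXL.Fm (lam Dn)

/-- `e^{i σ x}` -/
noncomputable def ex (σ x : ℂ) : ℂ := exp (I * (σ * x))

theorem ex_add (σ x y : ℂ) : ex σ (x + y) = ex σ x * ex σ y := by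
  rw [ex, ex, ex, ← Complex.exp_add]
  congr 1
  ring

theorem ex_neg (σ x : ℂ) : ex σ (-x) = (ex σ x)⁻¹ := by
  rw [ex, ex, ← Complex.exp_neg]
  congr 1
  ring

theorem ex_ne (σ x : ℂ) : ex σ x ≠ 0 := Complex.exp_ne_zero _

theorem ex_mul_neg (σ x : ℂ) : ex σ x * ex σ (-x) = 1 := by
  rw [ex_neg, mul_inv_cancel₀ (ex_ne σ x)]

/-- the scale -/
noncomputable def TT (r : ℝ) : ℂ := exp (2 * r) / 2

theorem TT_ne (r : ℝ) : TT r ≠ 0 := div_ne_zero (Complex.exp_ne_zero _) two_ne_zero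

theorem exp_sq (r : ℝ) : exp (r : ℂ) * exp (r : ℂ) = 2 * TT r := by
  rw [TT, ← Complex.exp_add, mul_div_cancel₀ _ two_ne_zero]
  congr 1
  ring

section lim

variable {β : Type*} {l : Filter β} {f : β → ℝ} {σ : ℂ}

theorem exp_neg_lim (hf : Tendsto f l atTop) : Tendsto (fun b => exp (-(f b : ℂ))) l (𝓝 0) := by
  rw [tendsto_zero_iff_norm_tendsto_zero]
  have e2 : ∀ b, ‖exp (-(f b : ℂ))‖ = Real.exp (-(f b)) := fun b => by
    rw [← Complex.ofReal_neg, Complex.norm_exp_ofReal]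
  simp only [e2]
  exact Real.tendsto_exp_neg_atTop_nhds_zero.comp hf

theorem sin_far (hσ : σ = 1 ∨ σ = -1) (x : ℂ) (r : ℝ) : sin (x - σ * (r * I)) =
    σ * (ex σ x * exp (r : ℂ) - ex σ (-x) * exp (-(r : ℂ))) / (2 * I) := by
  have e1 : ex σ x * exp (r : ℂ) = exp (I * (σ * (x - σ * (r * I)))) := by
    rw [ex, ← Complex.exp_add]
    congr 1
    rcases hσ with rfl | rfl
    · linear_combination (r : ℂ) * Complex.I_sq
    · linear_combination (r : ℂ) * Complex.I_sq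
  have e2 : ex σ (-x) * exp (-(r : ℂ)) = exp (-(I * (σ * (x - σ * (r * I))))) := by
    rw [ex, ← Complex.exp_add]
    congr 1
    rcases hσ with rfl | rfl
    · linear_combination (-(r : ℂ)) * Complex.I_sq
    · linear_combination (-(r : ℂ)) * Complex.I_sq
  rw [e1, e2, ← EXL.Fm.two_I_sin]
  have hI : (2 : ℂ) * I ≠ 0 := mul_ne_zero two_ne_zero Complex.I_ne_zero
  rw [eq_div_iff hI]
  rcases hσ with rfl | rfl
  · rw [one_mul, one_mul, one_mul]
    ring
  · rw [show (-1 : ℂ) * (x - -1 * (r * I)) = -(x - -1 * (r * I)) by ring, Complex.sin_neg]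
    ring

theorem cos_far (hσ : σ = 1 ∨ σ = -1) (x : ℂ) (r : ℝ) : cos (x - σ * (r * I)) =
    (ex σ x * exp (r : ℂ) + ex σ (-x) * exp (-(r : ℂ))) / 2 := by
  have e1 : ex σ x * exp (r : ℂ) = exp (I * (σ * (x - σ * (r * I)))) := by
    rw [ex, ← Complex.exp_add]
    congr 1
    rcases hσ with rfl | rfl
    · linear_combination (r : ℂ) * Complex.I_sq
    · linear_combination (r : ℂ) * Complex.I_sq
  have e2 : ex σ (-x) * exp (-(r : ℂ)) = exp (-(I * (σ * (x - σ * (r * I))))) := by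
    rw [ex, ← Complex.exp_add]
    congr 1
    rcases hσ with rfl | rfl
    · linear_combination (-(r : ℂ)) * Complex.I_sq
    · linear_combination (-(r : ℂ)) * Complex.I_sq
  rw [e1, e2, Complex.cos]
  rcases hσ with rfl | rfl
  · congr 2
    · congr 1; ring
    · congr 1; ring
  · rw [add_comm]
    congr 2
    · congr 1; ring
    · congr 1; ring

/-- `sin (x - σ i R) / e^R` -/
theorem sin_lim (hf : Tendsto f l atTop) (hσ : σ = 1 ∨ σ = -1) (x : ℂ) :
    Tendsto (fun b => sin (x - σ * (f b * I)) / exp (f b)) l (𝓝 (σ * ex σ x / (2 * I))) := by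
  have e : ∀ b, sin (x - σ * (f b * I)) / exp (f b) =
      σ * (ex σ x - ex σ (-x) * (exp (-(f b : ℂ)) * exp (-(f b : ℂ)))) / (2 * I) := by
    intro b
    rw [sin_far hσ]
    have h1 : exp (f b : ℂ) * exp (-(f b : ℂ)) = 1 := by
      rw [← Complex.exp_add, add_neg_cancel, Complex.exp_zero]
    have h2 := Complex.exp_ne_zero (f b : ℂ)
    have hI : (2 : ℂ) * I ≠ 0 := mul_ne_zero two_ne_zero Complex.I_ne_zero
    rw [div_div, div_eq_div_iff (mul_ne_zero hI h2) hI]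
    linear_combination (σ * ex σ (-x) * exp (-(f b : ℂ)) * (2 * I)) * h1
  simp only [e]
  have h0 := exp_neg_lim hf
  have := (((h0.mul h0).const_mul (ex σ (-x))).const_sub (ex σ x)).const_mul σ
  have h2 := this.div_const (2 * I)
  rwa [show σ * (ex σ x - ex σ (-x) * (0 * 0)) / (2 * I) = σ * ex σ x / (2 * I) by ring] at h2

/-- `sin (x + σ i R) / e^R` -/
theorem sin_lim' (hf : Tendsto f l atTop) (hσ : σ = 1 ∨ σ = -1) (x : ℂ) :
    Tendsto (fun b => sin (x + σ * (f b * I)) / exp (f b)) l (𝓝 (-(σ * ex σ (-x) / (2 * I)))) := by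
  refine ((sin_lim hf hσ (-x)).neg).congr fun b => ?_
  rw [← neg_div, ← Complex.sin_neg]
  congr 2
  ring

/-- `cos (x - 2 σ i R) / T` -/
theorem cos_lim (hf : Tendsto f l atTop) (hσ : σ = 1 ∨ σ = -1) (x : ℂ) :
    Tendsto (fun b => cos (x - σ * (2 * (f b * I))) / TT (f b)) l (𝓝 (ex σ x)) := by
  have e : ∀ b, cos (x - σ * (2 * (f b * I))) / TT (f b) =
      ex σ x + ex σ (-x) * (exp (-((2 * f b : ℝ) : ℂ)) * exp (-((2 * f b : ℝ) : ℂ))) := by
    intro b
    have h := cos_far hσ x (2 * f b)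
    rw [show σ * (2 * (f b * I)) = σ * (((2 * f b : ℝ) : ℂ) * I) by push_cast; ring, h, TT]
    have h1 : exp (((2 * f b : ℝ) : ℂ)) * exp (-((2 * f b : ℝ) : ℂ)) = 1 := by
      rw [← Complex.exp_add, add_neg_cancel, Complex.exp_zero]
    have h2 := Complex.exp_ne_zero ((2 * f b : ℝ) : ℂ)
    rw [show (2 : ℂ) * (f b : ℂ) = ((2 * f b : ℝ) : ℂ) by push_cast; ring,
      div_div_div_cancel_right₀ two_ne_zero, div_eq_iff h2]
    linear_combination (-(ex σ (-x) * exp (-((2 * f b : ℝ) : ℂ)))) * h1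
  simp only [e]
  have h0 := exp_neg_lim (hf.const_mul_atTop (show (0 : ℝ) < 2 by norm_num))
  have := ((h0.mul h0).const_mul (ex σ (-x))).const_add (ex σ x)
  rwa [show ex σ x + ex σ (-x) * (0 * 0) = ex σ x by ring] at this

/-- A product of two functions of order `e^R`. -/
theorem mul_lim {g h : β → ℂ} {x y : ℂ} (hg : Tendsto (fun b => g b / exp (f b)) l (𝓝 x))
    (hh : Tendsto (fun b => h b / exp (f b)) l (𝓝 y)) :
    Tendsto (fun b => g b * h b / TT (f b)) l (𝓝 (2 * (x * y))) := by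
  refine ((hg.mul hh).const_mul 2).congr fun b => ?_
  rw [div_mul_div_comm, exp_sq]
  have := TT_ne (f b)
  field_simp

/-- A function of order `e^R` divided by `T`. -/
theorem small_lim (hf : Tendsto f l atTop) {g : β → ℂ} {x : ℂ}
    (hg : Tendsto (fun b => g b / exp (f b)) l (𝓝 x)) :
    Tendsto (fun b => g b / TT (f b)) l (𝓝 0) := by
  have h := hg.mul ((exp_neg_lim hf).const_mul 2)
  rw [show x * (2 * 0) = (0 : ℂ) by ring] at h
  refine h.congr fun b => ?_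
  have h1 : exp (f b : ℂ) * exp (-(f b : ℂ)) = 1 := by
    rw [← Complex.exp_add, add_neg_cancel, Complex.exp_zero]
  have h2 := Complex.exp_ne_zero (f b : ℂ)
  have h3 := exp_sq (f b)
  have h4 := TT_ne (f b)
  rw [div_mul_eq_mul_div, div_eq_div_iff h2 h4]
  linear_combination (-(g b * exp (-(f b : ℂ)))) * h3 + (g b * exp (f b : ℂ)) * h1

/-- A constant divided by `e^R`. -/
theorem inv_lim (hf : Tendsto f l atTop) : Tendsto (fun b => (exp (f b : ℂ))⁻¹) l (𝓝 0) := by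
  refine (exp_neg_lim hf).congr fun b => ?_
  rw [Complex.exp_neg]

/-! ### The frame functions -/

theorem fa_lim (hf : Tendsto f l atTop) (hσ : σ = 1 ∨ σ = -1) (x : ℂ) :
    Tendsto (fun b => Fr.fa (x - σ * (f b * I)) / exp (f b)) l (𝓝 (σ * ex σ x / (2 * I))) :=
  sin_lim hf hσ x

theorem fa'_lim (hf : Tendsto f l atTop) (hσ : σ = 1 ∨ σ = -1) (x : ℂ) :
    Tendsto (fun b => Fr.fa' (x - σ * (f b * I)) / exp (f b)) l
      (𝓝 (-(σ * ex σ (x - 3 * lam) / (2 * I)))) := by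
  have h := sin_lim' hf hσ (3 * lam - x)
  rw [neg_sub] at h
  refine h.congr fun b => ?_
  unfold Fr.fa'
  congr 2
  ring

theorem fe_lim (hf : Tendsto f l atTop) (hσ : σ = 1 ∨ σ = -1) (x : ℂ) :
    Tendsto (fun b => Fr.fe (x - σ * (f b * I)) / exp (f b)) l
      (𝓝 (σ * ex σ (3 * lam + x) / (2 * I))) := by
  refine (sin_lim hf hσ (3 * lam + x)).congr fun b => ?_
  unfold Fr.fe
  congr 2
  ring

theorem TT_inv_lim (hf : Tendsto f l atTop) (c : ℂ) : Tendsto (fun b => c / TT (f b)) l (𝓝 0) := by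
  refine small_lim hf (x := 0) ?_
  have := (inv_lim hf).const_mul c
  rwa [mul_zero] at this

theorem cf_lim (hf : Tendsto f l atTop) (hσ : σ = 1 ∨ σ = -1) (x : ℂ) :
    Tendsto (fun b => cf (x - σ * (f b * I)) / TT (f b)) l (𝓝 (ex σ (2 * x - 3 * lam))) := by
  refine (cos_lim hf hσ (2 * x - 3 * lam)).congr fun b => ?_
  unfold cf
  congr 2
  ring

theorem nd_lim (hf : Tendsto f l atTop) (hσ : σ = 1 ∨ σ = -1) (x : ℂ) :
    Tendsto (fun b => nd (x - σ * (f b * I)) / TT (f b)) l (𝓝 (ex σ (2 * x + 3 * lam))) := by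
  refine (cos_lim hf hσ (2 * x + 3 * lam)).congr fun b => ?_
  unfold nd
  congr 2
  ring

/-- a far line and a near line -/
theorem dl_lim (hf : Tendsto f l atTop) (hσ : σ = 1 ∨ σ = -1) (x y : ℂ) :
    Tendsto (fun b => Fr.dl (x - σ * (f b * I)) y / TT (f b)) l (𝓝 (ex σ (2 * x - 3 * lam))) := by
  have := (cf_lim hf hσ x).sub (TT_inv_lim hf (nd y))
  rw [sub_zero] at this
  refine this.congr fun b => ?_
  rw [dl_cf, sub_div]

/-- two far lines -/
theorem dl_lim2 (hf : Tendsto f l atTop) (hσ : σ = 1 ∨ σ = -1) (x y : ℂ) :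
    Tendsto (fun b => Fr.dl (x - σ * (f b * I)) (y - σ * (f b * I)) / TT (f b)) l
      (𝓝 (ex σ (2 * x - 3 * lam) - ex σ (2 * y + 3 * lam))) := by
  refine ((cf_lim hf hσ x).sub (nd_lim hf hσ y)).congr fun b => ?_
  rw [dl_cf, sub_div]

theorem sg_sq (hσ : σ = 1 ∨ σ = -1) : σ * σ = 1 := by
  rcases hσ with rfl | rfl <;> ring

theorem sg_ne (hσ : σ = 1 ∨ σ = -1) : σ ≠ 0 := by
  rcases hσ with rfl | rfl
  · exact one_ne_zero
  · exact neg_ne_zero.2 one_ne_zero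

theorem pr_aux {A B C D E : ℂ} (hs : σ ≠ 0) (hs2 : σ * σ = 1) (hE : E ≠ 0) (h : A * B * C = D * E) :
    2 * (2 * (-(σ * A / (2 * I)) * -(σ * B / (2 * I)))) * (σ * C / (2 * I) / -(σ * E / (2 * I))) =
      D := by
  have hI : (2 : ℂ) * I ≠ 0 := mul_ne_zero two_ne_zero Complex.I_ne_zero
  have h1 : σ * C / (2 * I) / -(σ * E / (2 * I)) = -(C / E) := by
    have hsE : σ * E ≠ 0 := mul_ne_zero hs hE
    rw [div_neg, div_div_div_cancel_right₀ hI, mul_div_mul_left _ _ hs]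
  rw [h1]
  have h2 : 2 * (2 * (-(σ * A / (2 * I)) * -(σ * B / (2 * I)))) * -(C / E) =
      -(4 * (σ * σ) * ((A * B * C) / E)) / (2 * I * (2 * I)) := by
    ring
  rw [h2, hs2, h, mul_div_assoc, div_self hE, show (2 : ℂ) * I * (2 * I) = 4 * I ^ 2 by ring,
    Complex.I_sq]
  ring

/-- the pair factor of a near line over a far line -/
theorem pr_lim (hf : Tendsto f l atTop) (hσ : σ = 1 ∨ σ = -1) (x y : ℂ) :
    Tendsto (fun b => Fr.pr y (x - σ * (f b * I)) / TT (f b)) l (𝓝 (ex σ (2 * x - 3 * lam))) := by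
  have h1 := sin_lim' hf hσ (2 * lam + (y - x))
  have h2 := sin_lim' hf hσ (3 * lam + (y - x))
  have h3 := sin_lim hf hσ (x + y + 2 * lam)
  have h4 := sin_lim' hf hσ (y - x)
  have hs := sg_ne hσ
  have hs2 := sg_sq hσ
  have hI : (2 : ℂ) * I ≠ 0 := mul_ne_zero two_ne_zero Complex.I_ne_zero
  have hn : -(σ * ex σ (-(y - x)) / (2 * I)) ≠ 0 :=
    neg_ne_zero.2 (div_ne_zero (mul_ne_zero hs (ex_ne _ _)) hI)
  have key := ((mul_lim h1 h2).const_mul 2).mul (h3.div h4 hn)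
  have e1 : ex σ (-(2 * lam + (y - x))) * ex σ (-(3 * lam + (y - x))) * ex σ (x + y + 2 * lam) =
      ex σ (2 * x - 3 * lam) * ex σ (-(y - x)) := by
    rw [← ex_add, ← ex_add, ← ex_add]
    congr 1
    ring
  have e0 : 2 * (2 * (-(σ * ex σ (-(2 * lam + (y - x))) / (2 * I)) *
      -(σ * ex σ (-(3 * lam + (y - x))) / (2 * I)))) *
      (σ * ex σ (x + y + 2 * lam) / (2 * I) / -(σ * ex σ (-(y - x)) / (2 * I))) =
        ex σ (2 * x - 3 * lam) := by
    exact pr_aux hs hs2 (ex_ne σ (-(y - x))) e1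
  rw [e0] at key
  refine key.congr fun b => ?_
  have hT := TT_ne (f b)
  have hE := Complex.exp_ne_zero (f b : ℂ)
  show 2 * (sin (2 * lam + (y - x) + σ * (f b * I)) * sin (3 * lam + (y - x) + σ * (f b * I)) /
    TT (f b)) * (sin (x + y + 2 * lam - σ * (f b * I)) / exp (f b) /
      (sin (y - x + σ * (f b * I)) / exp (f b))) = _
  rw [div_div_div_cancel_right₀ hE]
  unfold Fr.pr EXL.Fm.Dn
  rw [show 2 * lam + (y - (x - σ * (f b * I))) = 2 * lam + (y - x) + σ * (f b * I) by ring,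
    show 3 * lam + (y - (x - σ * (f b * I))) = 3 * lam + (y - x) + σ * (f b * I) by ring,
    show x - σ * (f b * I) + y + 2 * lam = x + y + 2 * lam - σ * (f b * I) by ring,
    show y - (x - σ * (f b * I)) = y - x + σ * (f b * I) by ring]
  ring

/-- the pair factor of a far line over a near line has a limit -/
theorem pr_lim' (hf : Tendsto f l atTop) (hσ : σ = 1 ∨ σ = -1) (x y : ℂ) :
    ∃ c : ℂ, Tendsto (fun b => Fr.pr (x - σ * (f b * I)) y / TT (f b)) l (𝓝 c) := by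
  have h1 := sin_lim hf hσ (2 * lam + (x - y))
  have h2 := sin_lim hf hσ (3 * lam + (x - y))
  have h3 := sin_lim hf hσ (y + x + 2 * lam)
  have h4 := sin_lim hf hσ (x - y)
  have hs := sg_ne hσ
  have hI : (2 : ℂ) * I ≠ 0 := mul_ne_zero two_ne_zero Complex.I_ne_zero
  have hn : σ * ex σ (x - y) / (2 * I) ≠ 0 := div_ne_zero (mul_ne_zero hs (ex_ne _ _)) hI
  have key := ((mul_lim h1 h2).const_mul 2).mul (h3.div h4 hn)
  refine ⟨_, key.congr fun b => ?_⟩
  have hE := Complex.exp_ne_zero (f b : ℂ)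
  show 2 * (sin (2 * lam + (x - y) - σ * (f b * I)) * sin (3 * lam + (x - y) - σ * (f b * I)) /
    TT (f b)) * (sin (y + x + 2 * lam - σ * (f b * I)) / exp (f b) /
      (sin (x - y - σ * (f b * I)) / exp (f b))) = _
  rw [div_div_div_cancel_right₀ hE]
  unfold Fr.pr EXL.Fm.Dn
  rw [show 2 * lam + (x - σ * (f b * I) - y) = 2 * lam + (x - y) - σ * (f b * I) by ring,
    show 3 * lam + (x - σ * (f b * I) - y) = 3 * lam + (x - y) - σ * (f b * I) by ring,
    show y + (x - σ * (f b * I)) + 2 * lam = y + x + 2 * lam - σ * (f b * I) by ring,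
    show x - σ * (f b * I) - y = x - y - σ * (f b * I) by ring]
  ring

theorem c3_ex (hσ : σ = 1 ∨ σ = -1) : 2 * Fr.c3 = ex σ (3 * lam) + ex σ (-(3 * lam)) := by
  unfold Fr.c3 ex Complex.cos
  rcases hσ with rfl | rfl
  · rw [mul_div_cancel₀ _ two_ne_zero]
    congr 2 <;> ring
  · rw [mul_div_cancel₀ _ two_ne_zero, add_comm]
    congr 2 <;> ring

/-- `4 c3 a'(q) e(q) / T` -/
theorem ae_lim (hf : Tendsto f l atTop) (hσ : σ = 1 ∨ σ = -1) (x : ℂ) :
    Tendsto (fun b => 4 * Fr.c3 * (Fr.fa' (x - σ * (f b * I)) * Fr.fe (x - σ * (f b * I)) / TT (f b))) l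
      (𝓝 (ex σ (2 * x + 3 * lam) + ex σ (2 * x - 3 * lam))) := by
  have key := (mul_lim (fa'_lim hf hσ x) (fe_lim hf hσ x)).const_mul (4 * Fr.c3)
  have hs2 := sg_sq hσ
  have h3 := c3_ex hσ
  have hI : (2 : ℂ) * I ≠ 0 := mul_ne_zero two_ne_zero Complex.I_ne_zero
  have e1 : ex σ (x - 3 * lam) * ex σ (3 * lam + x) = ex σ (2 * x) := by
    rw [← ex_add]; congr 1; ring
  have e2 : ex σ (2 * x) * ex σ (3 * lam) = ex σ (2 * x + 3 * lam) := by rw [← ex_add]
  have e3 : ex σ (2 * x) * ex σ (-(3 * lam)) = ex σ (2 * x - 3 * lam) := by rw [← ex_add]; rfl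
  have e0 : 4 * Fr.c3 * (2 * (-(σ * ex σ (x - 3 * lam) / (2 * I)) *
      (σ * ex σ (3 * lam + x) / (2 * I)))) = ex σ (2 * x + 3 * lam) + ex σ (2 * x - 3 * lam) := by
    have h5 : 4 * Fr.c3 * (2 * (-(σ * ex σ (x - 3 * lam) / (2 * I)) *
      (σ * ex σ (3 * lam + x) / (2 * I)))) =
        -(4 * (2 * Fr.c3) * (σ * σ) * (ex σ (x - 3 * lam) * ex σ (3 * lam + x))) /
          (2 * I * (2 * I)) := by
      ring
    rw [h5, e1, hs2, h3, ← e2, ← e3, show (2 : ℂ) * I * (2 * I) = 4 * I ^ 2 by ring, Complex.I_sq]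
    ring
  rwa [e0] at key

/-- `4 c3 a'(q) a(p) / T` -/
theorem aa_lim (hf : Tendsto f l atTop) (hσ : σ = 1 ∨ σ = -1) (x y : ℂ) :
    Tendsto (fun b => 4 * Fr.c3 * (Fr.fa' (x - σ * (f b * I)) * Fr.fa (y - σ * (f b * I)) / TT (f b))) l
      (𝓝 (2 * Fr.c3 * ex σ (x + y - 3 * lam))) := by
  have key := (mul_lim (fa'_lim hf hσ x) (fa_lim hf hσ y)).const_mul (4 * Fr.c3)
  have hs2 := sg_sq hσ
  have e1 : ex σ (x - 3 * lam) * ex σ y = ex σ (x + y - 3 * lam) := by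
    rw [← ex_add]; congr 1; ring
  have e0 : 4 * Fr.c3 * (2 * (-(σ * ex σ (x - 3 * lam) / (2 * I)) * (σ * ex σ y / (2 * I)))) =
      2 * Fr.c3 * ex σ (x + y - 3 * lam) := by
    have h5 : 4 * Fr.c3 * (2 * (-(σ * ex σ (x - 3 * lam) / (2 * I)) * (σ * ex σ y / (2 * I)))) =
        -(4 * (2 * Fr.c3) * (σ * σ) * (ex σ (x - 3 * lam) * ex σ y)) / (2 * I * (2 * I)) := by
      ring
    rw [h5, e1, hs2, show (2 : ℂ) * I * (2 * I) = 4 * I ^ 2 by ring, Complex.I_sq]
    ring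
  rwa [e0] at key

end lim

/-! ### Products -/

section prod

variable {α β : Type*} {l : Filter β} {f : β → ℝ} {σ : ℂ}

theorem prod_lim {g : α → β → ℂ} {c : ℂ} (Y : Finset α)
    (h : ∀ k ∈ Y, Tendsto (fun b => g k b / TT (f b)) l (𝓝 c)) :
    Tendsto (fun b => (∏ k ∈ Y, g k b) / TT (f b) ^ Y.card) l (𝓝 (c ^ Y.card)) := by
  have := tendsto_finsetProd Y h
  rw [Finset.prod_const] at this
  refine this.congr fun b => ?_
  rw [Finset.prod_div_distrib, Finset.prod_const]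

/-- `Dl (p ; X) / T ^ |X|` -/
theorem Dl_lim (hf : Tendsto f l atTop) (hσ : σ = 1 ∨ σ = -1) (x : ℂ) (y : α → ℂ) (Y : Finset α) :
    Tendsto (fun b => Fr.Dl y (x - σ * (f b * I)) Y / TT (f b) ^ Y.card) l
      (𝓝 (ex σ (2 * x - 3 * lam) ^ Y.card)) :=
  prod_lim Y fun k _ => dl_lim hf hσ x (y k)

theorem wt_lim (hf : Tendsto f l atTop) (hσ : σ = 1 ∨ σ = -1) (x : ℂ) (y : α → ℂ) (Y : Finset α) :
    Tendsto (fun b => (∏ k ∈ Y, Fr.pr (y k) (x - σ * (f b * I))) / TT (f b) ^ Y.card) l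
      (𝓝 (ex σ (2 * x - 3 * lam) ^ Y.card)) :=
  prod_lim Y fun k _ => pr_lim hf hσ x (y k)

end prod

end Pool.Agent.NUF
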