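import Pool.Agent.NUF.HalfV

/-!
# One more line, far from the others (helper8): the functional of the rows `p :: X`, all rapidities of `p`

`Good z X` : the conditions on the rows `X`.  `far z p u X = farE z u X + sin u • farC z p u X`, `u` = the
frame rapidity of `p`.
-/

set_option autoImplicit false

namespace Pool.Agent.NUF

open _root_.Pool.Agent.EXL _root_.Pool.Agent.EXL.Pat _root_.Pool.Agent.EXL.HS

section defs

variable {α : Type*} [DecidableEq α]

/-- The part of the functional in which `p` is empty or inserted as an empty line. -/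
noncomputable def farE (z : α → ℂ) (u : ℂ) (X : List α) : Fnl α :=
  (Fr.Dl (ux z) u X.toFinset * Fr.Qs (ux z) X.toFinset) • VV z X +
    ∑ i ∈ X.toFinset, (Fr.wt (ux z) i (X.toFinset.erase i) * Fr.Dl (ux z) u (X.toFinset.erase i) *
      Fr.fe (ux z i) * Fr.Qs (ux z) (X.toFinset.erase i)) • (VV z (X.erase i) ∘ₗ oE uops z X i)

/-- The part of the functional in which `p` is joined to one of the rows. -/
noncomputable def farC (z : α → ℂ) (p : α) (u : ℂ) (X : List α) : Fnl α :=
  ∑ i ∈ X.toFinset, (Fr.wt (ux z) i (X.toFinset.erase i) * Fr.Dl (ux z) u (X.toFinset.erase i) *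
      Fr.Qs (ux z) (X.toFinset.erase i)) • (VV z (X.erase i) ∘ₗ (opCu ℂ p i * oE uops z X i))

/-- **The functional of the rows `p :: X`**, `u` = the frame rapidity of `p`. -/
noncomputable def far (z : α → ℂ) (p : α) (u : ℂ) (X : List α) : Fnl α :=
  farE z u X + Fr.fa u • farC z p u X

/-- An arc between `p` and `i`. -/
theorem arc_word {p b i : α} {L : List α} (z : α → ℂ) (hpb : p ≠ b) (hpi : p ≠ i) (hbi : b ≠ i)
    (hp : p ∉ L) (hb : b ∉ L) :
    oF uops (fun i j => opCu ℂ i j) z b L i * uops.P p b =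
      uops.P p b * (opCu ℂ p i * oE uops z L i) := by
  have h1 : opCu ℂ b i * uops.P p b = uops.P p b * opCu ℂ p i := by
    have := uhlaws.Pcu (i := p) (j := b) (k := i) hpb hpi hbi
    exact this.symm
  have h2 : opCu ℂ i b = opCu ℂ b i := uhlaws.cus (i := i) (j := b)
  rw [oF, mul_assoc, (HLaws.oE_P ulaws hpi hbi hp hb).eq, ← mul_assoc, ← mul_assoc]
  congr 1
  show opCu ℂ i b * uops.P p b = _
  rw [h2, h1]

theorem arc_fnl {p b i : α} {L L' : List α} (z : α → ℂ) (hpb : p ≠ b) (hpi : p ≠ i) (hbi : b ≠ i)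
    (hp : p ∉ L) (hb : b ∉ L) {V : Fnl α} (hV : V ∈ spU L') (hp' : p ∉ L') (hb' : b ∉ L') :
    rm (uops.P p b) (rm (oF uops (fun i j => opCu ℂ i j) z b L i) V) =
      V ∘ₗ (opCu ℂ p i * oE uops z L i) := by
  rw [← rm_mul, arc_word z hpb hpi hbi hp hb, rm_mul]
  have h : rm (uops.P p b) V = V := by
    have h1 : uops.E p * uops.E b * uops.P p b = uops.E p * uops.E b * 1 := by
      rw [mul_one, ulaws.PE hpb]
    have h2 : rm (uops.E p * uops.E b) V = V := by
      rw [rm_mul, uspl.out hp' hV, uspl.out hb' hV]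
    exact rm_pre h1 h2
  rw [h]
  rfl

end defs

section SF

variable {ι α : Type*} [LinearOrder ι] [DecidableEq α] [Finite α] {z : α → ℂ} {s : ι → α} {b c : α}
  (hs : Sites s b c) (hz : RegS z s) (hG : Fr.Reg fun i => ux z (s i))
  (hsg : ∀ X : Finset ι, X.Nonempty → Fr.sg (fun i => ux z (s i)) X ≠ 0)
  (hR : ∀ Y : Finset ι, Reg z (lst s Y))
include hG hsg hR

/-- **The right side of (*') for the loop gas.** -/
theorem SF_far {p : α} {u : ℂ} {X : Finset ι} (hpb : p ≠ b) (hpX : p ∉ lst s X)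
    (L : Fr.FarAt (fr hs hz) u X) (hE : ∀ v, L.Ep v = v) (hB : ∀ v, L.Bp v = rm (uops.P p b) v) :
    Fr.SF (Fr.RPh (fr hs hz) (VV z [])) L = far z p u (lst s X) := by
  unfold Fr.SF far farE farC
  rw [hE, rph hs hz hG hsg hR, Finset.smul_sum, add_assoc, ← Finset.sum_add_distrib, lst_toFinset,
    Dl_comp hs.inj, Qs_comp hs.inj, smul_smul, Finset.sum_image (fun a _ b _ h => hs.inj h)]
  congr 1
  apply Finset.sum_congr rfl
  intro i hi
  have hX : insert i (X.erase i) = X := Finset.insert_erase hi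
  have hiX : i ∉ X.erase i := Finset.notMem_erase i X
  have heX : (lst s X).erase (s i) = lst s (X.erase i) := by
    have := erase_lst hs.inj hiX
    rwa [hX] at this
  have hpi : p ≠ s i := fun e => hpX (by rw [e]; exact (mem_lst' hs.inj).2 hi)
  rw [hE, hB, rph hs hz hG hsg hR, wt_comp hs.inj, Dl_comp hs.inj, Qs_comp hs.inj,
    ← Finset.image_erase hs.inj, map_smul, map_smul, map_smul, heX]
  have h1 : (fr hs hz).E i (X.erase i) (VV z (lst s (X.erase i))) =
      VV z (lst s (X.erase i)) ∘ₗ oE uops z (lst s X) (s i) := by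
    rw [fr_E, hX]
  have h2 : rm (uops.P p b) ((fr hs hz).F i (X.erase i) (VV z (lst s (X.erase i)))) =
      VV z (lst s (X.erase i)) ∘ₗ (opCu ℂ p (s i) * oE uops z (lst s X) (s i)) := by
    rw [fr_F, hX]
    refine arc_fnl z hpb hpi (hs.nb i).symm hpX (b_lst hs X) (L' := lst s (X.erase i))
      (isV_lst hs hR _).sup ?_ (b_lst hs _)
    rw [← heX]
    exact fun h => hpX (List.mem_of_mem_erase h)
  rw [h1, h2]
  module

end SF

/-! ### Lists of rows -/

section list

variable {α : Type*} [DecidableEq α]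

/-- The conditions on the rows. -/
structure Good (z : α → ℂ) (X : List α) : Prop where
  nd : X.Nodup
  a : ∀ i ∈ X, Fr.fa (ux z i) ≠ 0
  D : ∀ i ∈ X, Fm.Dn (ux z i) ≠ 0
  s : ∀ i ∈ X, ∀ j ∈ X, i ≠ j → Complex.sin (ux z i - ux z j) ≠ 0
  d : ∀ i ∈ X, ∀ j ∈ X, i ≠ j → Fm.Dn (ux z i - ux z j) ≠ 0
  pl : ∀ i ∈ X, ∀ j ∈ X, Complex.sin (ux z i + ux z j) ≠ 0
  p3 : ∀ i ∈ X, ∀ j ∈ X, Fr.fe (ux z i + ux z j) ≠ 0
  m3 : ∀ i ∈ X, ∀ j ∈ X, Fr.fe (ux z i - ux z j) ≠ 0
  a' : ∀ i ∈ X, Fr.fa' (ux z i) ≠ 0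
  sg0 : ∀ Y : Finset α, (∀ i ∈ Y, i ∈ X) → Y.Nonempty → Fr.sg (ux z) Y ≠ 0
  reg : ∀ Y : List α, Y.Sublist X → Reg z Y

variable {z : α → ℂ} {X : List α} {b c p : α} {u : ℂ}

theorem Good.sub {Y : List α} (h : Good z X) (hY : Y.Sublist X) : Good z Y where
  nd := h.nd.sublist hY
  a i hi := h.a i (hY.subset hi)
  D i hi := h.D i (hY.subset hi)
  s i hi j hj := h.s i (hY.subset hi) j (hY.subset hj)
  d i hi j hj := h.d i (hY.subset hi) j (hY.subset hj)
  pl i hi j hj := h.pl i (hY.subset hi) j (hY.subset hj)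
  p3 i hi j hj := h.p3 i (hY.subset hi) j (hY.subset hj)
  m3 i hi j hj := h.m3 i (hY.subset hi) j (hY.subset hj)
  a' i hi := h.a' i (hY.subset hi)
  sg0 Z hZ := h.sg0 Z fun i hi => hY.subset (hZ i hi)
  reg Z hZ := h.reg Z (hZ.trans hY)

omit [DecidableEq α] in
theorem lst_univ (X : List α) : lst X.get Finset.univ = X := by
  rw [lst, Fin.sort_univ, List.map_get_finRange]

omit [DecidableEq α] in
theorem lst_sub (X : List α) (Y : Finset (Fin X.length)) : (lst X.get Y).Sublist X := by
  have h : (Y.sort (· ≤ ·)) = ((Finset.univ : Finset (Fin X.length)).sort (· ≤ ·)).filter (· ∈ Y) := by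
    refine List.Perm.eq_of_pairwise (le := (· ≤ ·)) (fun a b _ _ h1 h2 => le_antisymm h1 h2)
      (Finset.pairwise_sort _ _) ((Finset.pairwise_sort _ _).filter _) ?_
    refine (List.perm_ext_iff_of_nodup (Finset.sort_nodup _ _) ((Finset.sort_nodup _ _).filter _)).2 ?_
    intro a
    simp
  rw [lst, h]
  refine (List.filter_sublist.map _).trans ?_
  have := lst_univ X
  rw [lst] at this
  rw [this]

omit [DecidableEq α] in
theorem mem_get (X : List α) (k : Fin X.length) : X.get k ∈ X := List.get_mem _ _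

omit [DecidableEq α] in
theorem get_inj (hX : X.Nodup) : Function.Injective X.get := List.nodup_iff_injective_get.1 hX

theorem Good.sites (h : Good z X) (hb : b ∉ X) (hc : c ∉ X) (hbc : b ≠ c) : Sites X.get b c where
  inj := get_inj h.nd
  nb k e := hb (e ▸ mem_get X k)
  nc k e := hc (e ▸ mem_get X k)
  bc := hbc

theorem Good.regS (h : Good z X) : RegS z X.get where
  D k := h.D _ (mem_get X k)
  d k m hkm := by
    have := h.d (X.get m) (mem_get X m) (X.get k) (mem_get X k)
      fun e => hkm (get_inj h.nd e).symm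
    unfold ux at this
    rwa [sub_sub_sub_cancel_left] at this

theorem Good.gen (h : Good z X) : Fr.Gen fun k => ux z (X.get k) where
  a k := h.a _ (mem_get X k)
  D k := h.D _ (mem_get X k)
  s k m hkm := h.s _ (mem_get X k) _ (mem_get X m) fun e => hkm (get_inj h.nd e)
  d k m hkm := h.d _ (mem_get X k) _ (mem_get X m) fun e => hkm (get_inj h.nd e)
  pl k m := h.pl _ (mem_get X k) _ (mem_get X m)
  p3 k m := h.p3 _ (mem_get X k) _ (mem_get X m)
  m3 k m := h.m3 _ (mem_get X k) _ (mem_get X m)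
  a' k := h.a' _ (mem_get X k)
  sg0 Y hY := by
    rw [sg_comp (get_inj h.nd)]
    refine h.sg0 _ ?_ (hY.image _)
    intro i hi
    obtain ⟨k, _, rfl⟩ := Finset.mem_image.1 hi
    exact mem_get X k

theorem Good.regY (h : Good z X) (Y : Finset (Fin X.length)) : Reg z (lst X.get Y) :=
  h.reg _ (lst_sub X Y)

/-- **(F1) - (F3)**, the rapidity of `p` is given by `z`. -/
theorem far_facts [Finite α] (h : Good z X) (hp : p ∉ X) (hb : b ∉ p :: X) (hc : c ∉ p :: X)
    (hbc : b ≠ c) :
    Sup (p :: X) (far z p (ux z p) X) ∧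
      (Fm.Dn (ux z p) ≠ 0 → far z p (ux z p) X ∘ₗ T0 z c (p :: X) = far z p (ux z p) X) ∧
      far z p (ux z p) X (HS.ind Pat.empty) = Fr.Nf (ux z) (Fr.Qs (ux z)) (ux z p) X.toFinset := by
  rw [List.mem_cons, not_or] at hb hc
  have hs : Sites X.get b c := h.sites hb.2 hc.2 hbc
  have hpX : ∀ k, X.get k ≠ p := fun k e => hp (e ▸ mem_get X k)
  have hG := h.gen
  have hsg := hG.sg0
  set L := farAt hs h.regS hpX (Ne.symm hb.1) (Ne.symm hc.1) Finset.univ with hL
  have hr := rec0 hs h.regS hsg h.regY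
  have hS : Fr.SF (Fr.RPh (fr hs h.regS) (VV z [])) L = far z p (ux z p) X := by
    have := SF_far hs h.regS hG.toReg hsg h.regY (X := Finset.univ) (Ne.symm hb.1)
      (by rw [lst_univ]; exact hp) L (fun v => rfl) (fun v => rfl)
    rw [lst_univ] at this
    exact this
  have hF := fun Y => Fr.four hG.toReg hr Y
  have h0 := isV_lst hs h.regY ∅
  rw [lst_empty] at h0
  refine ⟨?_, fun hD => ?_, ?_⟩
  · have := Fr.SF_mem L (hF _).m (fun i _ => (hF _).m)
    rw [hS] at this
    have e : L.W0 = spU (p :: lst X.get Finset.univ) := rfl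
    rw [e, lst_univ] at this
    exact this
  · have := Fr.TT_SF hG.toReg hD L (hF _) (fun i _ => hF _)
    rw [hS] at this
    have e : L.TT = rm (hT0 uops z c (p :: lst X.get Finset.univ)) := rfl
    rw [e, lst_univ] at this
    exact this
  · have := Fr.emp_SF L (emp0 hs h.regS) (e := evE) ?_ ?_ hG.toReg hr
    · rw [hS, evE_apply] at this
      rw [this]
      have e : (fun Y => (emp0 hs h.regS).emp (Fr.RPh (fr hs h.regS) (VV z []) Y)) =
          Fr.Qs fun k => ux z (X.get k) := by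
        funext Y
        have h1 : Fr.RPh (fr hs h.regS) (VV z []) ∅ = VV z [] := Fr.RPh_empty _ _
        refine Fr.QRec.eq hsg (Fr.emp_rec hG.toReg hr (emp0 hs h.regS) ?_) (Fr.Qs_rec hsg) Y
        rw [h1]
        exact h0.one
      rw [e]
      unfold Fr.Nf
      have hun : (Finset.univ : Finset (Fin X.length)).image X.get = X.toFinset := by
        rw [← lst_toFinset, lst_univ]
      rw [Dl_comp hs.inj, Qs_comp hs.inj, hun]
      congr 1
      rw [← hun, Finset.sum_image (fun a _ b _ h => hs.inj h)]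
      apply Finset.sum_congr rfl
      intro k _
      rw [wt_comp hs.inj, Dl_comp hs.inj, Qs_comp hs.inj, Finset.image_erase hs.inj]
    · intro v _
      rfl
    · intro v hv
      show (rm (uops.P p b) v) (HS.ind Pat.empty) = 0
      rw [rm_apply, P_ind, V1_ind hs h.regS hv]

/-! ### Dependence on the rapidities -/

omit [DecidableEq α] in
theorem wt_congr {x x' : α → ℂ} {i : α} {Y : Finset α} (hi : x i = x' i) (h : ∀ k ∈ Y, x k = x' k) :
    Fr.wt x i Y = Fr.wt x' i Y := by
  unfold Fr.wt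
  rw [hi, Finset.prod_congr rfl fun k hk => by rw [h k hk]]

omit [DecidableEq α] in
theorem Dl_congr {x x' : α → ℂ} {u : ℂ} {Y : Finset α} (h : ∀ k ∈ Y, x k = x' k) :
    Fr.Dl x u Y = Fr.Dl x' u Y := by
  unfold Fr.Dl
  exact Finset.prod_congr rfl fun k hk => by rw [h k hk]

theorem M_congrL {z z' : α → ℂ} {c : α} {t : ℂ} {L : List α} (h : ∀ r ∈ L, z r = z' r) :
    uops.M z c t L = uops.M z' c t L := by
  induction L with
  | nil => rfl
  | cons r L ih =>
    rw [Glob.Ops.M_cons, Glob.Ops.M_cons, h r (by simp), ih fun k hk => h k (by simp [hk])]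

theorem oE_congr {z z' : α → ℂ} {L : List α} {i : α} (hi : z i = z' i) (h : ∀ r ∈ L, z r = z' r) :
    oE uops z L i = oE uops z' L i := by
  rw [oE, oE, hi]
  exact M_congrL fun r hr => h r (below_subset _ hr).1

theorem farE_congr {z' : α → ℂ} (h : ∀ i ∈ X, z i = z' i) : farE z u X = farE z' u X := by
  have hx : ∀ i ∈ X.toFinset, ux z i = ux z' i := fun i hi => by
    unfold ux
    rw [h i (List.mem_toFinset.1 hi)]
  unfold farE
  rw [Dl_congr hx, Fr.Qs_congr _ hx, VV_congr h]
  congr 1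
  apply Finset.sum_congr rfl
  intro i hi
  have hx' : ∀ k ∈ X.toFinset.erase i, ux z k = ux z' k := fun k hk => hx k (Finset.mem_of_mem_erase hk)
  have hi' := List.mem_toFinset.1 hi
  rw [wt_congr (hx i hi) hx', Dl_congr hx', Fr.Qs_congr _ hx',
    VV_congr fun k hk => h k (List.mem_of_mem_erase hk), hx i hi, oE_congr (h i hi') h]

theorem farC_congr {z' : α → ℂ} (h : ∀ i ∈ X, z i = z' i) : farC z p u X = farC z' p u X := by
  have hx : ∀ i ∈ X.toFinset, ux z i = ux z' i := fun i hi => by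
    unfold ux
    rw [h i (List.mem_toFinset.1 hi)]
  unfold farC
  apply Finset.sum_congr rfl
  intro i hi
  have hx' : ∀ k ∈ X.toFinset.erase i, ux z k = ux z' k := fun k hk => hx k (Finset.mem_of_mem_erase hk)
  have hi' := List.mem_toFinset.1 hi
  rw [wt_congr (hx i hi) hx', Dl_congr hx', Fr.Qs_congr _ hx',
    VV_congr fun k hk => h k (List.mem_of_mem_erase hk), oE_congr (h i hi') h]

/-- The functional depends on the rapidities of the rows `X` only. -/
theorem far_congr {z' : α → ℂ} (h : ∀ i ∈ X, z i = z' i) : far z p u X = far z' p u X := by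
  unfold far
  rw [farE_congr h, farC_congr h]

theorem Nf_congr {x x' : α → ℂ} {Y : Finset α} (h : ∀ k ∈ Y, x k = x' k) :
    Fr.Nf x (Fr.Qs x) u Y = Fr.Nf x' (Fr.Qs x') u Y := by
  unfold Fr.Nf
  rw [Dl_congr h, Fr.Qs_congr _ h]
  congr 1
  apply Finset.sum_congr rfl
  intro i hi
  have h' : ∀ k ∈ Y.erase i, x k = x' k := fun k hk => h k (Finset.mem_of_mem_erase hk)
  rw [wt_congr (h i hi) h', Dl_congr h', Fr.Qs_congr _ h', h i hi]

theorem Good.congr {z' : α → ℂ} (hz : Good z X) (h : ∀ i ∈ X, z i = z' i) : Good z' X := by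
  have hx : ∀ i ∈ X, ux z' i = ux z i := fun i hi => by
    unfold ux
    rw [h i hi]
  refine ⟨hz.nd, ?_, ?_, ?_, ?_, ?_, ?_, ?_, ?_, ?_, ?_⟩
  · exact fun i hi => by rw [hx i hi]; exact hz.a i hi
  · exact fun i hi => by rw [hx i hi]; exact hz.D i hi
  · exact fun i hi j hj hij => by rw [hx i hi, hx j hj]; exact hz.s i hi j hj hij
  · exact fun i hi j hj hij => by rw [hx i hi, hx j hj]; exact hz.d i hi j hj hij
  · exact fun i hi j hj => by rw [hx i hi, hx j hj]; exact hz.pl i hi j hj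
  · exact fun i hi j hj => by rw [hx i hi, hx j hj]; exact hz.p3 i hi j hj
  · exact fun i hi j hj => by rw [hx i hi, hx j hj]; exact hz.m3 i hi j hj
  · exact fun i hi => by rw [hx i hi]; exact hz.a' i hi
  · intro Y hY hne
    have := hz.sg0 Y hY hne
    unfold Fr.sg Fr.Pe at this ⊢
    rwa [Finset.prod_congr rfl fun k hk => by rw [hx k (hY k hk)]]
  · exact fun Y hY => (hz.reg Y hY).congr fun j hj => h j (hY.subset hj)

section main

variable [Finite α]

/-- **(F1)** The functional is supported on the planar states of the rows `p :: X`. -/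
theorem far_sup (h : Good z X) (hp : p ∉ X) (hb : b ∉ p :: X) (hc : c ∉ p :: X) (hbc : b ≠ c) :
    Sup (p :: X) (far z p u X) := by
  classical
  have e : ∀ i ∈ X, z i = Function.update z p (3 * Real.pi / 16 - u) i := fun i hi => by
    have hip : i ≠ p := fun e => hp (e ▸ hi)
    rw [Function.update_of_ne hip]
  have := (far_facts (h.congr e) hp hb hc hbc).1
  rw [← far_congr e] at this
  have hu : ux (Function.update z p (3 * Real.pi / 16 - u)) p = u := by
    unfold ux
    rw [Function.update_self]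
    ring
  rwa [hu] at this

/-- **(F2)** The functional is fixed by the column. -/
theorem far_fix (h : Good z X) (hp : p ∉ X) (hb : b ∉ p :: X) (hc : c ∉ p :: X) (hbc : b ≠ c)
    (hD : Fm.Dn (ux z p) ≠ 0) {d : α} (hd : d ∉ p :: X) :
    far z p (ux z p) X ∘ₗ T0 z d (p :: X) = far z p (ux z p) X :=
  fix_indep (far_sup h hp hb hc hbc) (List.nodup_cons.2 ⟨hp, h.nd⟩) hc hd
    ((far_facts h hp hb hc hbc).2.1 hD)

/-- **(F3)** The value on the indicator of the empty state. -/
theorem far_one (h : Good z X) (hp : p ∉ X) (hb : b ∉ p :: X) (hc : c ∉ p :: X) (hbc : b ≠ c) :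
    far z p u X (HS.ind Pat.empty) = Fr.Nf (ux z) (Fr.Qs (ux z)) u X.toFinset := by
  classical
  have e : ∀ i ∈ X, z i = Function.update z p (3 * Real.pi / 16 - u) i := fun i hi => by
    have hip : i ≠ p := fun e => hp (e ▸ hi)
    rw [Function.update_of_ne hip]
  have := (far_facts (h.congr e) hp hb hc hbc).2.2
  rw [← far_congr e] at this
  have hu : ux (Function.update z p (3 * Real.pi / 16 - u)) p = u := by
    unfold ux
    rw [Function.update_self]
    ring
  rw [hu] at this
  rw [this]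
  symm
  apply Nf_congr
  intro k hk
  unfold ux
  rw [← e k (List.mem_toFinset.1 hk)]

/-- **(F4)** The functional is a multiple of the fixed functional of the rows `p :: X` if the latter is
unique. -/
theorem far_eq (h : Good z X) (hp : p ∉ X) (hb : b ∉ p :: X) (hc : c ∉ p :: X) (hbc : b ≠ c)
    (hD : Fm.Dn (ux z p) ≠ 0) (hR : Reg z (p :: X)) :
    far z p (ux z p) X = Fr.Nf (ux z) (Fr.Qs (ux z)) (ux z p) X.toFinset • VV z (p :: X) := by
  have hV := isV_VV (List.nodup_cons.2 ⟨hp, h.nd⟩) hc hR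
  rw [← sub_eq_zero]
  apply fix_zero hc hR
  · exact (far_sup h hp hb hc hbc).sub (hV.sup.smul _)
  · rw [LinearMap.sub_comp, LinearMap.smul_comp, hV.fix c hc, far_fix h hp hb hc hbc hD hc]
  · rw [LinearMap.sub_apply, LinearMap.smul_apply, hV.one, far_one h hp hb hc hbc, smul_eq_mul, mul_one,
      sub_self]

omit [Finite α] in
/-- The scalar fact for lists. -/
theorem scalL (h : Good z (p :: X)) : Fr.Qs (ux z) (p :: X).toFinset =
    Fr.Nf (ux z) (Fr.Qs (ux z)) (ux z p) X.toFinset := by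
  have hp : p ∉ X := (List.nodup_cons.1 h.nd).1
  have hG := h.gen
  have hinj := get_inj h.nd
  have h0 : (p :: X).get ⟨0, by simp⟩ = p := rfl
  have hun : (Finset.univ : Finset (Fin (p :: X).length)).image (p :: X).get = (p :: X).toFinset := by
    rw [← lst_toFinset, lst_univ]
  have key := Fr.scal hG (Fr.Qs_rec hG.sg0) (Finset.univ.erase ⟨0, by simp⟩) ⟨0, by simp⟩
    (Finset.notMem_erase _ _)
  rw [Finset.insert_erase (Finset.mem_univ _), Qs_comp hinj, hun] at key
  rw [key]
  have hX : (Finset.univ.erase ⟨0, by simp⟩ : Finset (Fin (p :: X).length)).image (p :: X).get =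
      X.toFinset := by
    rw [Finset.image_erase hinj, hun, h0, List.toFinset_cons, Finset.erase_insert]
    rwa [List.mem_toFinset]
  unfold Fr.Nf
  rw [Dl_comp hinj, Qs_comp hinj, hX]
  congr 1
  rw [← hX, Finset.sum_image (fun a _ b _ h => hinj h)]
  apply Finset.sum_congr rfl
  intro k _
  rw [wt_comp hinj, Dl_comp hinj, Qs_comp hinj, Finset.image_erase hinj]
  rfl

/-- **(F4)** for good rows `p :: X`. -/
theorem far_near (h : Good z (p :: X)) (hb : b ∉ p :: X) (hc : c ∉ p :: X) (hbc : b ≠ c) :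
    far z p (ux z p) X = Fr.Qs (ux z) (p :: X).toFinset • VV z (p :: X) := by
  rw [scalL h]
  exact far_eq (h.sub (List.sublist_cons_self p X)) (List.nodup_cons.1 h.nd).1 hb hc hbc
    (h.D p List.mem_cons_self) (h.reg _ (List.Sublist.refl _))

end main

/-! ### The dependence on `u` -/

/-- `cos (2u - 3l)` -/
noncomputable def cf (u : ℂ) : ℂ := Complex.cos (2 * u - 3 * Fm.lam)

/-- the node of a row -/
noncomputable def nd (x : ℂ) : ℂ := Complex.cos (2 * x + 3 * Fm.lam)

theorem dl_cf (u x : ℂ) : Fr.dl u x = cf u - nd x := by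
  unfold Fr.dl Fr.fa Fr.fa' Fr.fe cf nd
  have h1 := Fr.two_sin_sin u (3 * Fm.lam - u)
  have h2 := Fr.two_sin_sin x (3 * Fm.lam + x)
  have e1 : Complex.cos (u - (3 * Fm.lam - u)) = Complex.cos (2 * u - 3 * Fm.lam) := by congr 1; ring
  have e2 : Complex.cos (u + (3 * Fm.lam - u)) = Complex.cos (3 * Fm.lam) := by congr 1; ring
  have e3 : Complex.cos (x - (3 * Fm.lam + x)) = Complex.cos (3 * Fm.lam) := by
    rw [← Complex.cos_neg]; congr 1; ring
  have e4 : Complex.cos (x + (3 * Fm.lam + x)) = Complex.cos (2 * x + 3 * Fm.lam) := by congr 1; ring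
  linear_combination h1 + h2 + e1 - e2 + e3 - e4

omit [DecidableEq α] in
theorem Dl_cf (x : α → ℂ) (u : ℂ) (Y : Finset α) : Fr.Dl x u Y = ∏ k ∈ Y, (cf u - nd (x k)) := by
  unfold Fr.Dl
  exact Finset.prod_congr rfl fun k _ => dl_cf _ _

/-- the product as a polynomial -/
noncomputable def DlP (x : α → ℂ) (Y : Finset α) : Polynomial ℂ :=
  ∏ k ∈ Y, (Polynomial.X - Polynomial.C (nd (x k)))

omit [DecidableEq α] in
theorem DlP_eval (x : α → ℂ) (u : ℂ) (Y : Finset α) : (DlP x Y).eval (cf u) = Fr.Dl x u Y := by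
  rw [Dl_cf, DlP, Polynomial.eval_prod]
  simp

omit [DecidableEq α] in
theorem DlP_natDegree (x : α → ℂ) (Y : Finset α) : (DlP x Y).natDegree = Y.card := by
  rw [DlP, Polynomial.natDegree_prod_of_monic _ _ fun k _ => Polynomial.monic_X_sub_C _]
  simp

omit [DecidableEq α] in
theorem DlP_coeff (x : α → ℂ) (Y : Finset α) : (DlP x Y).coeff Y.card = 1 := by
  have h := Polynomial.monic_prod_of_monic Y (fun k => Polynomial.X - Polynomial.C (nd (x k)))
    fun k _ => Polynomial.monic_X_sub_C _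
  have h1 : (DlP x Y).coeff (DlP x Y).natDegree = 1 := h
  rwa [DlP_natDegree] at h1

/-- the coefficients of `farE` -/
noncomputable def cE (z : α → ℂ) (X : List α) (j : ℕ) : Fnl α :=
  ((DlP (ux z) X.toFinset).coeff j * Fr.Qs (ux z) X.toFinset) • VV z X +
    ∑ i ∈ X.toFinset, (Fr.wt (ux z) i (X.toFinset.erase i) * (DlP (ux z) (X.toFinset.erase i)).coeff j *
      Fr.fe (ux z i) * Fr.Qs (ux z) (X.toFinset.erase i)) • (VV z (X.erase i) ∘ₗ oE uops z X i)

/-- the coefficients of `farC` -/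
noncomputable def cC (z : α → ℂ) (p : α) (X : List α) (j : ℕ) : Fnl α :=
  ∑ i ∈ X.toFinset, (Fr.wt (ux z) i (X.toFinset.erase i) * (DlP (ux z) (X.toFinset.erase i)).coeff j *
      Fr.Qs (ux z) (X.toFinset.erase i)) • (VV z (X.erase i) ∘ₗ (opCu ℂ p i * oE uops z X i))

omit [DecidableEq α] in
theorem Dl_sum (x : α → ℂ) (u : ℂ) (Y : Finset α) {n : ℕ} (hn : Y.card < n) :
    Fr.Dl x u Y = ∑ j ∈ Finset.range n, (DlP x Y).coeff j * cf u ^ j := by
  rw [← DlP_eval, Polynomial.eval_eq_sum_range' (by rw [DlP_natDegree]; exact hn)]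

/-- **(F5)** `farE` is a polynomial of degree `|X|` in `cos (2u - 3l)`. -/
theorem farE_poly (h : X.Nodup) (z : α → ℂ) (u : ℂ) :
    farE z u X = ∑ j ∈ Finset.range (X.length + 1), cf u ^ j • cE z X j := by
  have hc : X.toFinset.card = X.length := List.toFinset_card_of_nodup h
  unfold farE cE
  simp only [smul_add, Finset.smul_sum, Finset.sum_add_distrib]
  rw [Dl_sum _ _ _ (n := X.length + 1) (by omega), Finset.sum_mul, Finset.sum_smul, Finset.sum_comm]
  congr 1
  · apply Finset.sum_congr rfl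
    intro j _
    rw [smul_smul]
    congr 1
    ring
  · apply Finset.sum_congr rfl
    intro i hi
    have hi' := Finset.card_erase_of_mem hi
    rw [Dl_sum _ _ _ (n := X.length + 1) (by omega), Finset.mul_sum, Finset.sum_mul, Finset.sum_mul,
      Finset.sum_smul]
    apply Finset.sum_congr rfl
    intro j _
    rw [smul_smul]
    congr 1
    ring

/-- **(F5)** the leading coefficient of `farE` -/
theorem cE_lead (h : X.Nodup) (z : α → ℂ) : cE z X X.length = Fr.Qs (ux z) X.toFinset • VV z X := by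
  have hc : X.toFinset.card = X.length := List.toFinset_card_of_nodup h
  unfold cE
  have h1 : (DlP (ux z) X.toFinset).coeff X.length = 1 := by rw [← hc, DlP_coeff]
  rw [h1, one_mul]
  refine (congrArg _ (Finset.sum_eq_zero fun i hi => ?_)).trans (add_zero _)
  have hi' := Finset.card_erase_of_mem hi
  have h2 : (DlP (ux z) (X.toFinset.erase i)).coeff X.length = 0 := by
    apply Polynomial.coeff_eq_zero_of_natDegree_lt
    rw [DlP_natDegree, hi']
    have := Finset.card_pos.2 ⟨i, hi⟩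
    omega
  rw [h2]
  simp

/-- **(F5)** `farC` is a polynomial of degree `< |X|` in `cos (2u - 3l)`. -/
theorem farC_poly (h : X.Nodup) (z : α → ℂ) (p : α) (u : ℂ) :
    farC z p u X = ∑ j ∈ Finset.range X.length, cf u ^ j • cC z p X j := by
  have hc : X.toFinset.card = X.length := List.toFinset_card_of_nodup h
  unfold farC cC
  simp only [Finset.smul_sum]
  rw [Finset.sum_comm]
  apply Finset.sum_congr rfl
  intro i hi
  have hi' := Finset.card_erase_of_mem hi
  have hp := Finset.card_pos.2 ⟨i, hi⟩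
  rw [Dl_sum _ _ _ (n := X.length) (by omega), Finset.mul_sum, Finset.sum_mul, Finset.sum_smul]
  apply Finset.sum_congr rfl
  intro j _
  rw [smul_smul]
  congr 1
  ring

/-! ### The crossing point -/

/-- **(F6)** `u = u_i + 3l`, `p` and `i` are the two lowest rows. -/
theorem far_cross {i : α} {Y : List α} (hi : i ∉ Y) (hpi : p ≠ i) (hp : p ∉ Y)
    (hV : Sup Y (VV z Y)) :
    far z p (ux z i + 3 * Fm.lam) (i :: Y) = (Fr.wt (ux z) i Y.toFinset *
      Fr.Dl (ux z) (ux z i + 3 * Fm.lam) Y.toFinset * Fr.fe (ux z i) * Fr.Qs (ux z) Y.toFinset) •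
        (VV z Y ∘ₗ uops.U p i) := by
  set u := ux z i + 3 * Fm.lam with hu
  have h0 : Fr.dl u (ux z i) = 0 := by
    unfold Fr.dl Fr.fa Fr.fa' Fr.fe
    rw [hu, show 3 * Fm.lam - (ux z i + 3 * Fm.lam) = -(ux z i) by ring, Complex.sin_neg,
      add_comm (3 * Fm.lam) (ux z i)]
    ring
  have hfa : Fr.fa u = Fr.fe (ux z i) := by
    unfold Fr.fa Fr.fe
    rw [hu, add_comm]
  have hiY : i ∉ Y.toFinset := by rwa [List.mem_toFinset]
  have hX : (i :: Y).toFinset = insert i Y.toFinset := List.toFinset_cons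
  have e0 : Fr.Dl (ux z) u (insert i Y.toFinset) = 0 := by
    unfold Fr.Dl
    rw [Finset.prod_insert hiY, h0, zero_mul]
  have ek : ∀ k ∈ Y.toFinset, Fr.Dl (ux z) u ((insert i Y.toFinset).erase k) = 0 := by
    intro k hk
    have hki : i ≠ k := fun e => hiY (e ▸ hk)
    unfold Fr.Dl
    rw [Finset.prod_eq_zero (i := i) _ h0]
    exact Finset.mem_erase.2 ⟨hki, Finset.mem_insert_self _ _⟩
  have eV : VV z Y ∘ₗ uops.U p i = VV z Y + VV z Y ∘ₗ opCu ℂ p i := by
    refine LinearMap.ext fun F => ?_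
    rw [LinearMap.comp_apply, LinearMap.add_apply, LinearMap.comp_apply, ← map_add]
    apply hV.congr
    intro q hq
    have h1 : q p = p := ax_out hq hp
    have h2 : q i = i := ax_out hq hi
    rw [uops_U_apply hpi, EXL.U, if_pos h1, if_pos h2, Pi.add_apply, opCu_apply, if_pos ⟨h1, h2⟩]
  unfold far farE farC
  rw [hX, e0, zero_mul, zero_smul, zero_add, Finset.sum_insert hiY, Finset.sum_insert hiY,
    Finset.erase_insert hiY, Finset.sum_eq_zero fun k hk => by rw [ek k hk]; simp,
    Finset.sum_eq_zero fun k hk => by rw [ek k hk]; simp, add_zero, add_zero, List.erase_cons_head,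
    oE_head, eV, hfa, mul_one]
  have e1 : VV z Y ∘ₗ (1 : Module.End ℂ (Pat α → ℂ)) = VV z Y := rfl
  rw [e1]
  module

end list

end Pool.Agent.NUF
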