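import Pool.Agent.EXL.FormW

/-!
# NUF/Frame (helper15): the insertion operators, abstractly

The rows have labels in `ι` and rapidities `z`.  `V0 X`, `V1 X`: the zero leg and one leg vectors of the rows
`X`.  `E i X`, `F i X`, `B i X`: the line `i` is inserted at the bottom of the rows `X` (empty, carrying the
leg, joined to the leg) and transported to its place.  `T0`, `T1`: the column with an empty bottom edge, and
with a strand carrying the leg that enters at the bottom.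
-/

set_option autoImplicit false

namespace Pool.Agent.NUF.Fr

open Complex Finset EXL.Fm

/-! ### The weights -/

/-- sin 2 lam -/
noncomputable def s2 : ℂ := sin (2 * lam)
/-- sin 3 lam -/
noncomputable def s3 : ℂ := sin (3 * lam)
/-- cos 3 lam -/
noncomputable def c3 : ℂ := cos (3 * lam)
/-- sin u -/
noncomputable def fa (u : ℂ) : ℂ := sin u
/-- sin (3 lam - u) -/
noncomputable def fa' (u : ℂ) : ℂ := sin (3 * lam - u)
/-- sin (2 lam + u) -/
noncomputable def fb (u : ℂ) : ℂ := sin (2 * lam + u)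
/-- sin (3 lam + u) -/
noncomputable def fe (u : ℂ) : ℂ := sin (3 * lam + u)

theorem Dn_eq (u : ℂ) : Dn u = fb u * fe u := rfl

/-- the weights -/
noncomputable def ru1 (u : ℂ) : ℂ := s2 * fa' u / Dn u
noncomputable def ru2 (u : ℂ) : ℂ := s2 * fa u / Dn u
noncomputable def rv (u : ℂ) : ℂ := fa u * fa' u / Dn u
noncomputable def rw1 (u : ℂ) : ℂ := Dn (-u) / Dn u

/-- The abstract frame. -/
structure Frame (ι : Type*) [DecidableEq ι] (V : Type*) [AddCommGroup V] [Module ℂ V] (z : ι → ℂ) where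
  V0 : Finset ι → Submodule ℂ V
  V1 : Finset ι → Submodule ℂ V
  T0 : Finset ι → V →ₗ[ℂ] V
  T1 : Finset ι → V →ₗ[ℂ] V
  E : ι → Finset ι → V →ₗ[ℂ] V
  F : ι → Finset ι → V →ₗ[ℂ] V
  B : ι → Finset ι → V →ₗ[ℂ] V
  mT0 : ∀ {X v}, v ∈ V0 X → T0 X v ∈ V0 X
  mT1 : ∀ {X v}, v ∈ V0 X → T1 X v ∈ V1 X
  mE0 : ∀ {i X v}, i ∉ X → v ∈ V0 X → E i X v ∈ V0 (insert i X)
  mE1 : ∀ {i X v}, i ∉ X → v ∈ V1 X → E i X v ∈ V1 (insert i X)
  mF : ∀ {i X v}, i ∉ X → v ∈ V0 X → F i X v ∈ V1 (insert i X)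
  mB : ∀ {i X v}, i ∉ X → v ∈ V1 X → B i X v ∈ V0 (insert i X)
  /-- the column on an empty line -/
  c1 : ∀ {i X v}, i ∉ X → v ∈ V0 X → Dn (z i) ≠ 0 →
    T0 (insert i X) (E i X v) = E i X (T0 X v) + ru2 (z i) • B i X (T1 X v)
  /-- the column on a line with the leg -/
  c2 : ∀ {i X v}, i ∉ X → v ∈ V0 X → Dn (z i) ≠ 0 →
    T0 (insert i X) (F i X v) = rv (z i) • F i X (T0 X v) + ru1 (z i) • E i X (T1 X v)
  /-- the column with the leg on an empty line -/
  c3' : ∀ {i X v}, i ∉ X → v ∈ V0 X → Dn (z i) ≠ 0 →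
    T1 (insert i X) (E i X v) = rv (z i) • E i X (T1 X v) + ru1 (z i) • F i X (T0 X v)
  /-- the column on a pair of joined lines -/
  c4 : ∀ {p i X v}, i ∉ X → p ∉ insert i X → v ∈ V0 X → Dn (z i) ≠ 0 → Dn (z p) ≠ 0 →
    T0 (insert p (insert i X)) (B p (insert i X) (F i X v)) =
      rv (z p) • B p (insert i X) (T0 (insert i X) (F i X v)) +
        (ru1 (z p) * rw1 (z i)) • E p (insert i X) (B i X (T1 X v))
  /-- exchange -/
  x1 : ∀ {i j X v}, i ∉ X → j ∉ X → i ≠ j → v ∈ V0 X → Dn (z j - z i) ≠ 0 →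
    E i (insert j X) (F j X v) = ru1 (z j - z i) • E j (insert i X) (F i X v) +
      rv (z j - z i) • F j (insert i X) (E i X v)
  x2 : ∀ {i j X v}, i ∉ X → j ∉ X → i ≠ j → v ∈ V0 X → Dn (z j - z i) ≠ 0 →
    F i (insert j X) (E j X v) = ru1 (z j - z i) • F j (insert i X) (E i X v) +
      rv (z j - z i) • E j (insert i X) (F i X v)
  x3 : ∀ {i j X v}, i ∉ X → j ∉ X → i ≠ j → v ∈ V0 X → Dn (z j - z i) ≠ 0 →
    B i (insert j X) (F j X v) = rw1 (z j - z i) • B j (insert i X) (F i X v)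

/-- Regular rapidities. -/
structure Reg {ι : Type*} (z : ι → ℂ) : Prop where
  a : ∀ i, fa (z i) ≠ 0
  D : ∀ i, Dn (z i) ≠ 0
  s : ∀ i j, i ≠ j → sin (z i - z j) ≠ 0
  d : ∀ i j, i ≠ j → Dn (z i - z j) ≠ 0

end Pool.Agent.NUF.Fr
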