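import Pool.Agent.NUF.GSig
import Pool.Agent.NUF.Ring
import Pool.Agent.EXL.ScalEq

/-!
# The double column far above the rows is the ring (chain G1c, G2 of the board NUL)

`tendsto_T`: if all rapidities and the parameter of the double column are shifted by `i R`, `R → ∞`, the double
column tends to the ring on the planar states.
-/

set_option autoImplicit false

namespace Pool.Agent.NUF

open _root_.Pool.Agent.EXL _root_.Pool.Agent.EXL.Pat _root_.Pool.Agent.EXL.HS Filter Topology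

/-! ### Caps -/

section gauge

variable {α K : Type*} [DecidableEq α] [CommRing K]

/-- The bottom cap of the loop gas. -/
def botU (κ : K) (i j : α) (F : Pat α → K) : Pat α → K := fun p =>
  if p i = i then (if p j = j then F p + κ * F (cup i j p) else 0) else 0

/-- The top cap of the loop gas. -/
def topU (κ : K) (i j : α) (F : Pat α → K) : Pat α → K := fun p =>
  if p i = i then (if p j = j then F p else 0)
  else if p j = j then 0
  else if p i = j then 0
  else κ * F (cut i j p)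

/-- The weights of the two caps can be put together. -/
theorem gauge {κ κ' : K} (h : κ * κ' = 1) {i j : α} (hij : i ≠ j) (w : α → Wt K) {X : List α} (hi : i ∉ X)
    (F : Pat α → K) (p : Pat α) :
    botU κ i j (M w j X (topU κ' i j F)) p = U i j (M w j X (glue i j F)) p := by
  have h1 : ∀ q : Pat α, q i = i → M w j X (topU κ' i j F) q = M w j X (glue i j F) q := by
    refine pres_M_eq w hij hij hi hi _ _ fun q hq => ?_
    simp only [topU, glue, if_pos hq]
  have h2 : ∀ q : Pat α, q i ≠ i → M w j X (topU κ' i j F) q = κ' * M w j X (glue i j F) q := by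
    intro q hq
    have h3 : M w j X (fun p => κ' * glue i j F p) q = κ' * M w j X (glue i j F) q := by
      have h4 := lin_M w j X κ' 0 (glue i j F) 0
      have h5 := congrFun h4 q
      simpa using h5
    rw [← h3]
    refine pres_M_occ w hij hi _ _ (fun q hq => ?_) q hq
    simp only [topU, glue, if_neg hq]
    split_ifs <;> simp
  simp only [botU, U]
  by_cases hpi : p i = i
  swap
  · rw [if_neg hpi, if_neg hpi]
  by_cases hpj : p j = j
  swap
  · rw [if_pos hpi, if_pos hpi, if_neg hpj, if_neg hpj]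
  rw [if_pos hpi, if_pos hpi, if_pos hpj, if_pos hpj, h1 p hpi, h2 (cup i j p) ?_, ← mul_assoc, h, one_mul]
  rw [pcup_apply hpi hpj, if_pos rfl]
  exact hij.symm

end gauge

section caps

variable {ι : Type*} [DecidableEq ι] {i j : ι} {v : ℂ}

theorem uops_b_apply (h : i ≠ j) (F : Pat ι → ℂ) :
    uops.b i j v F = botU (EXL.kK (3 * Real.pi / 8 - v)) i j F := by
  show rep0 ℂ id (if i = j then 0 else wbot (EXL.kK (3 * Real.pi / 8 - v)) i j) F = _
  rw [if_neg h, wbot, map_add, map_mul, map_smul, rep0_e, rep0_e, rep0_cu]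
  funext p
  simp only [LinearMap.add_apply, Module.End.mul_apply, LinearMap.smul_apply, Pi.add_apply, Pi.smul_apply,
    smul_eq_mul, opE_apply, opCu_apply, botU, CuOK, id]
  by_cases h1 : p i = i <;> by_cases h2 : p j = j <;> simp [h1, h2]

theorem uops_t_apply (h : i ≠ j) (F : Pat ι → ℂ) : uops.t i j v F = topU (EXL.kK v) i j F := by
  show rep0 ℂ id (if i = j then 0 else wtop (EXL.kK v) i j) F = _
  rw [if_neg h, wtop, map_add, map_mul, map_smul, rep0_e, rep0_e, rep0_ct]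
  funext p
  simp only [LinearMap.add_apply, Module.End.mul_apply, LinearMap.smul_apply, Pi.add_apply, Pi.smul_apply,
    smul_eq_mul, opE_apply, opCt_apply, topU, CtOK, id]
  by_cases h1 : p i = i
  · by_cases h2 : p j = j <;> simp [h1, h2]
  · by_cases h2 : p j = j
    · simp [h1, h2]
    · by_cases h3 : p i = j <;> simp [h1, h2, h3, h]

end caps

/-! ### The flipped double column -/

/-- **The double column with the other order of the two lines.** -/
theorem T_flip {A ι G : Type*} [Monoid A] [AddCommGroup G] {S : Glob.Ops A ι G} {ok okK : G → Prop}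
    (L : Glob.Laws S ok okK) {z : ι → G} {i j : ι} {v : G} {rows : List ι} (hij : i ≠ j) (hi : i ∉ rows)
    (hj : j ∉ rows) (hn : rows.Nodup) (k1 : ok (v + v - (S.h + S.h))) (k2 : ok (S.h + S.h - v - v))
    (k3 : okK v) (k4 : okK (S.h + S.h - v)) (h1 : ∀ r ∈ rows, ok (v - z r))
    (h2 : ∀ r ∈ rows, ok (S.h + S.h - v - z r)) :
    S.T z i j v rows =
      S.b i j (S.h + S.h - v) * S.M z i (S.h + S.h - v) rows * S.M z j v rows * S.t i j (S.h + S.h - v) := by
  have e1 := L.C1 (v := v) hij k2 k3 k4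
  have e2 := L.C2 (v := v) hij k1 k3 k4
  have eu : v - (S.h + S.h - v) = v + v - (S.h + S.h) := by abel
  have e3 := L.RTT (z := z) (a := j) (b := i) (w := v) (w' := S.h + S.h - v) hij.symm hj hi hn (by rw [eu]; exact k1)
    h1 h2
  rw [eu, L.Rs (i := j) (j := i)] at e3
  have en : -(v + v - (S.h + S.h)) = S.h + S.h - v - v := by abel
  have e4 := L.L1 (u := v + v - (S.h + S.h)) hij k1 (by rw [en]; exact k2)
  rw [en] at e4
  set x := S.R i j (v + v - (S.h + S.h)) with hx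
  set y := S.R i j (S.h + S.h - v - v) with hy
  set Mj := S.M z j v rows with hMj
  set Mi := S.M z i (S.h + S.h - v) rows with hMi
  unfold Glob.Ops.T
  rw [← e1, ← e2, ← hMj, ← hMi]
  calc S.b i j (S.h + S.h - v) * x * Mj * Mi * (y * S.t i j (S.h + S.h - v))
      = S.b i j (S.h + S.h - v) * (x * (Mj * Mi)) * (y * S.t i j (S.h + S.h - v)) := by simp only [mul_assoc]
    _ = S.b i j (S.h + S.h - v) * (Mi * Mj * x) * (y * S.t i j (S.h + S.h - v)) := by rw [e3]
    _ = S.b i j (S.h + S.h - v) * (Mi * Mj * (x * y)) * S.t i j (S.h + S.h - v) := by simp only [mul_assoc]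
    _ = _ := by rw [e4, mul_one]; simp only [mul_assoc]

/-! ### Limits of the operators -/

section lim

variable {Z α : Type*} [DecidableEq α] {l : Filter Z}

/-- Convergence of the weights. -/
structure WtTo (w : Z → Wt ℂ) (w0 : Wt ℂ) (l : Filter Z) : Prop where
  v : Tendsto (fun z => (w z).v) l (𝓝 w0.v)
  u1 : Tendsto (fun z => (w z).u1) l (𝓝 w0.u1)
  u2 : Tendsto (fun z => (w z).u2) l (𝓝 w0.u2)
  w1 : Tendsto (fun z => (w z).w1) l (𝓝 w0.w1)
  w2 : Tendsto (fun z => (w z).w2) l (𝓝 w0.w2)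

theorem WtTo.const (w0 : Wt ℂ) : WtTo (fun _ : Z => w0) w0 l :=
  ⟨tendsto_const_nhds, tendsto_const_nhds, tendsto_const_nhds, tendsto_const_nhds, tendsto_const_nhds⟩

theorem WtTo.R {w : Z → Wt ℂ} {w0 : Wt ℂ} (hw : WtTo w w0 l) (i j : α) {F : Z → Pat α → ℂ} {F0 : Pat α → ℂ}
    (hF : ∀ p, Tendsto (fun z => F z p) l (𝓝 (F0 p))) (p : Pat α) :
    Tendsto (fun z => R (w z) i j (F z) p) l (𝓝 (R w0 i j F0 p)) := by
  simp only [_root_.Pool.Agent.EXL.R]
  split_ifs
  · exact (hF p).add (hw.u2.mul (hF _))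
  · exact (hw.v.mul (hF p)).add (hw.u1.mul (hF _))
  · exact (hw.v.mul (hF p)).add (hw.u1.mul (hF _))
  · exact hw.w1.mul (hF p)
  · exact ((hw.w1.mul (hF _)).add (hw.u2.mul (hF _))).add (hw.w2.mul (hF _))

theorem tendsto_M {w : Z → α → Wt ℂ} {w0 : α → Wt ℂ} (i : α) {X : List α}
    (hw : ∀ k ∈ X, WtTo (fun z => w z k) (w0 k) l) {F : Z → Pat α → ℂ} {F0 : Pat α → ℂ}
    (hF : ∀ p, Tendsto (fun z => F z p) l (𝓝 (F0 p))) (p : Pat α) :
    Tendsto (fun z => M (w z) i X (F z) p) l (𝓝 (M w0 i X F0 p)) := by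
  induction X generalizing p with
  | nil => exact hF p
  | cons k X ih =>
    simp only [M_cons]
    exact (hw k (by simp)).R i k (fun q => ih (fun m hm => hw m (by simp [hm])) q) p

theorem tendsto_botU {κ : Z → ℂ} {κ0 : ℂ} (hκ : Tendsto κ l (𝓝 κ0)) (i j : α) {F : Z → Pat α → ℂ}
    {F0 : Pat α → ℂ} (hF : ∀ p, Tendsto (fun z => F z p) l (𝓝 (F0 p))) (p : Pat α) :
    Tendsto (fun z => botU (κ z) i j (F z) p) l (𝓝 (botU κ0 i j F0 p)) := by
  simp only [botU]
  split_ifs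
  · exact (hF p).add (hκ.mul (hF _))
  · exact tendsto_const_nhds
  · exact tendsto_const_nhds

theorem tendsto_topU {κ : Z → ℂ} {κ0 : ℂ} (hκ : Tendsto κ l (𝓝 κ0)) (i j : α) {F : Z → Pat α → ℂ}
    {F0 : Pat α → ℂ} (hF : ∀ p, Tendsto (fun z => F z p) l (𝓝 (F0 p))) (p : Pat α) :
    Tendsto (fun z => topU (κ z) i j (F z) p) l (𝓝 (topU κ0 i j F0 p)) := by
  simp only [topU]
  split_ifs
  · exact hF p
  · exact tendsto_const_nhds
  · exact tendsto_const_nhds
  · exact tendsto_const_nhds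
  · exact hκ.mul (hF _)

end lim

/-! ### Limits of the weights -/

section weights

open Sc Complex

variable {Z : Type*} {l : Filter Z} {u : Z → ℂ}

theorem rr16' : rr ^ 16 = -1 := by linear_combination rr16

/-- The weights far below: a crossing. -/
noncomputable def wsig : Wt ℂ := crs (-(rr ^ 4)⁻¹) (-rr ^ 4)

theorem wsig_mul : (-(rr ^ 4)⁻¹) * (-rr ^ 4) = 1 := by
  have := rr_ne
  field_simp

theorem wsig_sq : (-(rr ^ 4)⁻¹) * (-(rr ^ 4)⁻¹) + (-rr ^ 4) * (-rr ^ 4) = 0 := by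
  have := rr_ne
  field_simp
  linear_combination rr16

theorem cont_Df1 {q : Z → ℂ} (hq : Tendsto q l (𝓝 0)) : Tendsto (fun z => Df rr 1 (q z)) l (𝓝 (rr ^ 20)) := by
  have h2 : Tendsto (fun z => q z ^ 2) l (𝓝 0) := by simpa using hq.pow 2
  have h3 := ((tendsto_const_nhds (x := rr ^ 8 * 1 ^ 2)).sub h2).mul ((tendsto_const_nhds (x := rr ^ 12 * 1 ^ 2)).sub h2)
  have e : (rr ^ 8 * 1 ^ 2 - 0) * (rr ^ 12 * 1 ^ 2 - 0) = rr ^ 20 := by ring
  rw [e] at h3
  exact h3

/-- Below: the regular angles. -/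
theorem ok_below (h : Tendsto (fun z => exp (-(u z) * I)) l (𝓝 0)) : ∀ᶠ z in l, okR (u z) := by
  have h1 := cont_Df1 h
  filter_upwards [h1.eventually_ne (pow_ne_zero 20 rr_ne)] with z hz
  have e : exp (u z * I) = 1 / exp (-(u z) * I) := by
    rw [one_div, ← exp_neg]
    congr 1
    ring
  intro h0
  apply hz
  rw [← Dn_eq (exp_ne_zero _) e, h0, zero_mul]

/-- Below: the weights. -/
theorem wt_below (h : Tendsto (fun z => exp (-(u z) * I)) l (𝓝 0)) : WtTo (fun z => rwt (u z)) wsig l := by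
  have hev : ∀ᶠ z in l, rwt (u z) = Wf rr 1 (exp (-(u z) * I)) := by
    filter_upwards [ok_below h] with z hz
    refine rwt_eq (exp_ne_zero _) ?_ hz
    rw [one_div, ← exp_neg]
    congr 1
    ring
  obtain ⟨q, hq⟩ : ∃ q : Z → ℂ, q = fun z => exp (-(u z) * I) := ⟨_, rfl⟩
  have h0 : Tendsto q l (𝓝 0) := by rw [hq]; exact h
  have h2 : Tendsto (fun z => q z ^ 2) l (𝓝 0) := by simpa using h0.pow 2
  have hev' : ∀ᶠ z in l, rwt (u z) = Wf rr 1 (q z) := by rw [hq]; exact hev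
  have hD := cont_Df1 h0
  have hr := rr_ne
  have hr20 : rr ^ 20 ≠ 0 := pow_ne_zero _ hr
  have c : ∀ x : ℂ, Tendsto (fun _ : Z => x) l (𝓝 x) := fun x => tendsto_const_nhds
  have e16 : rr ^ 20 = -rr ^ 4 := by
    have : rr ^ 20 = rr ^ 16 * rr ^ 4 := by ring
    rw [this, rr16']
    ring
  refine ⟨?_, ?_, ?_, ?_, ?_⟩
  · have h3 : Tendsto (fun z => (Wf rr 1 (q z)).v) l (𝓝 (rr ^ 4 * (1 ^ 2 - 0) * (rr ^ 12 * 0 - 1 ^ 2) / rr ^ 20)) :=
      (((c _).mul ((c _).sub h2)).mul (((c _).mul h2).sub (c _))).div hD hr20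
    have e : rr ^ 4 * (1 ^ 2 - 0) * (rr ^ 12 * 0 - 1 ^ 2) / rr ^ 20 = wsig.v := by
      rw [e16]
      simp only [wsig, crs]
      field_simp
      ring
    rw [e] at h3
    exact h3.congr' (hev'.mono fun z hz => by simp only [hz])
  · have h3 : Tendsto (fun z => (Wf rr 1 (q z)).u1) l
        (𝓝 ((rr ^ 8 - 1) * 1 * 0 * (rr ^ 12 * 0 - 1 ^ 2) / rr ^ 20)) :=
      (((c _).mul h0).mul (((c _).mul h2).sub (c _))).div hD hr20
    have e : (rr ^ 8 - 1) * 1 * 0 * (rr ^ 12 * 0 - 1 ^ 2) / rr ^ 20 = wsig.u1 := by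
      simp only [wsig, crs]
      ring
    rw [e] at h3
    exact h3.congr' (hev'.mono fun z hz => by simp only [hz])
  · have h3 : Tendsto (fun z => (Wf rr 1 (q z)).u2) l
        (𝓝 (rr ^ 6 * 1 * 0 * (rr ^ 8 - 1) * (1 ^ 2 - 0) / rr ^ 20)) :=
      ((((c _).mul h0).mul (c _)).mul ((c _).sub h2)).div hD hr20
    have e : rr ^ 6 * 1 * 0 * (rr ^ 8 - 1) * (1 ^ 2 - 0) / rr ^ 20 = wsig.u2 := by
      simp only [wsig, crs]
      ring
    rw [e] at h3
    exact h3.congr' (hev'.mono fun z hz => by simp only [hz])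
  · have h3 : Tendsto (fun z => (Wf rr 1 (q z)).w1) l
        (𝓝 ((rr ^ 8 * 0 - 1 ^ 2) * (rr ^ 12 * 0 - 1 ^ 2) / rr ^ 20)) :=
      ((((c _).mul h2).sub (c _)).mul (((c _).mul h2).sub (c _))).div hD hr20
    have e : (rr ^ 8 * 0 - 1 ^ 2) * (rr ^ 12 * 0 - 1 ^ 2) / rr ^ 20 = wsig.w1 := by
      rw [e16]
      simp only [wsig, crs]
      field_simp
      ring
    rw [e] at h3
    exact h3.congr' (hev'.mono fun z hz => by simp only [hz])
  · have h3 : Tendsto (fun z => (Wf rr 1 (q z)).w2) l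
        (𝓝 (-(rr ^ 8 * (1 ^ 2 - 0) * (rr ^ 4 * 0 - 1 ^ 2)) / rr ^ 20)) :=
      (((((c _).mul ((c _).sub h2)).mul (((c _).mul h2).sub (c _)))).neg).div hD hr20
    have e : -(rr ^ 8 * (1 ^ 2 - 0) * (rr ^ 4 * 0 - 1 ^ 2)) / rr ^ 20 = wsig.w2 := by
      rw [e16]
      simp only [wsig, crs]
      field_simp
      ring
    rw [e] at h3
    exact h3.congr' (hev'.mono fun z hz => by simp only [hz])

/-- Above: the regular angles. -/
theorem ok_above (h : Tendsto (fun z => exp (u z * I)) l (𝓝 0)) : ∀ᶠ z in l, okR (u z) := by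
  have h2 : Tendsto (fun z => exp (u z * I) ^ 2) l (𝓝 0) := by simpa using h.pow 2
  have h3 : Tendsto (fun z => Df rr (exp (u z * I)) 1) l (𝓝 ((rr ^ 8 * 0 - 1 ^ 2) * (rr ^ 12 * 0 - 1 ^ 2))) :=
    ((tendsto_const_nhds.mul h2).sub tendsto_const_nhds).mul ((tendsto_const_nhds.mul h2).sub tendsto_const_nhds)
  have e : (rr ^ 8 * 0 - 1 ^ 2) * (rr ^ 12 * 0 - 1 ^ 2) = (1 : ℂ) := by ring
  rw [e] at h3
  filter_upwards [h3.eventually_ne one_ne_zero] with z hz
  intro h0
  apply hz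
  rw [← Dn_eq (u := u z) one_ne_zero (by rw [div_one]), h0, zero_mul]

/-- Above: the caps. -/
theorem cap_above (h : Tendsto (fun z => exp (u z * I)) l (𝓝 0)) :
    (∀ᶠ z in l, okC (u z)) ∧ Tendsto (fun z => EXL.kK (u z)) l (𝓝 (-rr ^ 6)) := by
  have h2 : Tendsto (fun z => exp (u z * I) ^ 2) l (𝓝 0) := by simpa using h.pow 2
  have h3 : Tendsto (fun z => Sf rr (exp (u z * I)) 1) l (𝓝 (rr ^ 6 * 0 - 1 ^ 2)) :=
    (tendsto_const_nhds.mul h2).sub tendsto_const_nhds
  have e : rr ^ 6 * 0 - 1 ^ 2 = (-1 : ℂ) := by ring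
  rw [e] at h3
  have h4 : ∀ᶠ z in l, okC (u z) := by
    filter_upwards [h3.eventually_ne (neg_ne_zero.2 one_ne_zero)] with z hz
    intro h0
    apply hz
    have h5 : Sn (u z) = 0 := h0
    rw [← Sn_eq (v := u z) (exp_ne_zero _) one_ne_zero (by rw [div_one]), h5, zero_mul]
  refine ⟨h4, ?_⟩
  have h5 : Tendsto (fun z => Kf rr (exp (u z * I)) 1) l (𝓝 ((rr ^ 6 * 1 ^ 2 - 0) / (-1))) :=
    (tendsto_const_nhds.sub h2).div h3 (neg_ne_zero.2 one_ne_zero)
  have e2 : (rr ^ 6 * 1 ^ 2 - 0) / (-1 : ℂ) = -rr ^ 6 := by ring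
  rw [e2] at h5
  refine h5.congr' (h4.mono fun z hz => ?_)
  show _ = EXL.kK (u z)
  rw [kK_eq (exp_ne_zero _) one_ne_zero (by rw [div_one]) hz]

/-- Below: the caps. -/
theorem cap_below (h : Tendsto (fun z => exp (-(u z) * I)) l (𝓝 0)) :
    (∀ᶠ z in l, okC (u z)) ∧ Tendsto (fun z => EXL.kK (u z)) l (𝓝 (-(rr ^ 6)⁻¹)) := by
  have h2 : Tendsto (fun z => exp (-(u z) * I) ^ 2) l (𝓝 0) := by simpa using h.pow 2
  have h3 : Tendsto (fun z => Sf rr 1 (exp (-(u z) * I))) l (𝓝 (rr ^ 6 * 1 ^ 2 - 0)) :=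
    tendsto_const_nhds.sub h2
  have e : rr ^ 6 * 1 ^ 2 - 0 = rr ^ 6 := by ring
  rw [e] at h3
  have hr6 : rr ^ 6 ≠ 0 := pow_ne_zero _ rr_ne
  have ee : ∀ z, exp (u z * I) = 1 / exp (-(u z) * I) := by
    intro z
    rw [one_div, ← exp_neg]
    congr 1
    ring
  have h4 : ∀ᶠ z in l, okC (u z) := by
    filter_upwards [h3.eventually_ne hr6] with z hz
    intro h0
    apply hz
    have h5 : Sn (u z) = 0 := h0
    rw [← Sn_eq (v := u z) one_ne_zero (exp_ne_zero _) (ee z), h5, zero_mul]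
  refine ⟨h4, ?_⟩
  have h5 : Tendsto (fun z => Kf rr 1 (exp (-(u z) * I))) l (𝓝 ((rr ^ 6 * 0 - 1 ^ 2) / rr ^ 6)) :=
    ((tendsto_const_nhds.mul h2).sub tendsto_const_nhds).div h3 hr6
  have e2 : (rr ^ 6 * 0 - 1 ^ 2) / rr ^ 6 = -(rr ^ 6)⁻¹ := by
    rw [mul_zero, zero_sub, one_pow, neg_div, one_div]
  rw [e2] at h5
  refine h5.congr' (h4.mono fun z hz => ?_)
  show _ = EXL.kK (u z)
  rw [kK_eq one_ne_zero (exp_ne_zero _) (ee z) hz]

theorem exp_small (a : ℂ) {c : ℝ} (hc : 0 < c) : Tendsto (fun t : ℝ => exp (a * I - (c * t : ℝ))) atTop (𝓝 0) := by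
  rw [tendsto_zero_iff_norm_tendsto_zero]
  have h1 : ∀ t : ℝ, ‖exp (a * I - (c * t : ℝ))‖ = Real.exp (a * I).re * Real.exp (-(c * t)) := by
    intro t
    rw [norm_exp, sub_re, ofReal_re, ← Real.exp_add]
    congr 1
  simp only [h1]
  have h2 : Tendsto (fun t : ℝ => Real.exp (-(c * t))) atTop (𝓝 0) :=
    Real.tendsto_exp_neg_atTop_nhds_zero.comp (tendsto_id.const_mul_atTop hc)
  simpa using h2.const_mul (Real.exp (a * I).re)

theorem above (a : ℂ) {c : ℝ} (hc : 0 < c) : Tendsto (fun t : ℝ => exp ((a + (c * t : ℝ) * I) * I)) atTop (𝓝 0) := by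
  refine (exp_small a hc).congr fun t => ?_
  congr 1
  linear_combination (-(c * t : ℝ) : ℂ) * I_sq

theorem belowR (a : ℂ) {c : ℝ} (hc : 0 < c) : Tendsto (fun t : ℝ => exp (-(a - (c * t : ℝ) * I) * I)) atTop (𝓝 0) := by
  refine (exp_small (-a) hc).congr fun t => ?_
  congr 1
  linear_combination (-(c * t : ℝ) : ℂ) * I_sq

end weights

/-! ### The limit of the double column -/

section main

open Complex

variable {ι : Type*} [DecidableEq ι]

/-- The double column far above the rows. -/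
noncomputable def Too (ζ : ι → ℂ) (i j : ι) (w : ℂ) (X : List ι) (F : Pat ι → ℂ) : Pat ι → ℂ :=
  botU (-Sc.rr ^ 6) i j (M (fun _ => wsig) i X (M (fun k => rwt (w - ζ k)) j X (topU (-(Sc.rr ^ 6)⁻¹) i j F)))

/-- **On the planar states the double column far above is the ring.** -/
theorem Too_eq (ζ : ι → ℂ) {i j : ι} (w : ℂ) {X : List ι} (hij : i ≠ j) (hi : i ∉ X) (hj : j ∉ X) (hn : X.Nodup)
    (F : Pat ι → ℂ) {p : Pat ι} (hp : AX X p) : Too ζ i j w X F p = Ring ζ i j w X F p := by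
  rw [Ring_apply ζ w hij hj]
  unfold ringF Too
  have hk : (-Sc.rr ^ 6) * (-(Sc.rr ^ 6)⁻¹) = 1 := by
    have := Sc.rr_ne
    field_simp
  rw [← gauge hk hij _ hi]
  have h1 := slide_planar wsig_mul wsig_sq hn hi
    (M (fun k => rwt (w - ζ k)) j X (topU (-(Sc.rr ^ 6)⁻¹) i j F)) hp
  have h2 := slide_cup wsig_mul wsig_sq hn hi hj
    (M (fun k => rwt (w - ζ k)) j X (topU (-(Sc.rr ^ 6)⁻¹) i j F)) hp
  simp only [botU, if_pos (ax_out hp hi), if_pos (ax_out hp hj)]
  have h1' : M (fun _ => wsig) i X (M (fun k => rwt (w - ζ k)) j X (topU (-(Sc.rr ^ 6)⁻¹) i j F)) p =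
    M (fun k => rwt (w - ζ k)) j X (topU (-(Sc.rr ^ 6)⁻¹) i j F) p := h1
  have h2' : M (fun _ => wsig) i X (M (fun k => rwt (w - ζ k)) j X (topU (-(Sc.rr ^ 6)⁻¹) i j F)) (cup i j p) =
    M (fun k => rwt (w - ζ k)) j X (topU (-(Sc.rr ^ 6)⁻¹) i j F) (cup i j p) := h2
  rw [h1', h2']

/-- **The limit of the double column.** -/
theorem tendsto_T_Too (ζ : ι → ℂ) {i j : ι} {w : ℂ} {X : List ι} (hij : i ≠ j) (hi : i ∉ X) (hj : j ∉ X)
    (hn : X.Nodup) (hw : ∀ k ∈ X, okR (w - ζ k)) (F : Pat ι → ℂ) (p : Pat ι) :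
    Tendsto (fun t : ℝ => uops.T (fun k => ζ k + t * I) i j (w + t * I) X F p) atTop (𝓝 (Too ζ i j w X F p)) := by
  have hh : (uops (ι := ι)).h + (uops (ι := ι)).h = 3 * Real.pi / 8 := by rw [uops_h]; ring
  -- the parameters
  have a1 : Tendsto (fun t : ℝ => exp ((w + t * I) * I)) atTop (𝓝 0) := by
    have := above w one_pos
    simpa using this
  have a2 : Tendsto (fun t : ℝ => exp ((w + t * I + (w + t * I) - 3 * Real.pi / 8) * I)) atTop (𝓝 0) := by
    refine (above (w + w - 3 * Real.pi / 8) two_pos).congr fun t => ?_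
    congr 1
    push_cast
    ring
  have b1 : Tendsto (fun t : ℝ => exp (-(3 * Real.pi / 8 - (w + t * I)) * I)) atTop (𝓝 0) := by
    refine (belowR (3 * Real.pi / 8 - w) one_pos).congr fun t => ?_
    congr 1
    push_cast
    ring
  have b2 : Tendsto (fun t : ℝ => exp (-(3 * Real.pi / 8 - (w + t * I) - (w + t * I)) * I)) atTop (𝓝 0) := by
    refine (belowR (3 * Real.pi / 8 - w - w) two_pos).congr fun t => ?_
    congr 1
    push_cast
    ring
  have b3 : ∀ k, Tendsto (fun t : ℝ => exp (-(3 * Real.pi / 8 - (w + t * I) - (ζ k + t * I)) * I)) atTop (𝓝 0) := by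
    intro k
    refine (belowR (3 * Real.pi / 8 - w - ζ k) two_pos).congr fun t => ?_
    congr 1
    push_cast
    ring
  have hev : ∀ᶠ t : ℝ in atTop, uops.T (fun k => ζ k + t * I) i j (w + t * I) X F p =
      botU (EXL.kK (w + t * I)) i j (M (fun k => rwt (3 * Real.pi / 8 - (w + t * I) - (ζ k + t * I))) i X
        (M (fun k => rwt (w - ζ k)) j X (topU (EXL.kK (3 * Real.pi / 8 - (w + t * I))) i j F))) p := by
    have h1 : ∀ᶠ t : ℝ in atTop, ∀ k ∈ X, okR (3 * Real.pi / 8 - (w + t * I) - (ζ k + t * I)) := by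
      have : ∀ᶠ t : ℝ in atTop, ∀ k ∈ X.toFinset, okR (3 * Real.pi / 8 - (w + t * I) - (ζ k + t * I)) := by
        rw [Filter.eventually_all_finset]
        intro k _
        exact ok_below (b3 k)
      exact this.mono fun t ht k hk => ht k (List.mem_toFinset.2 hk)
    filter_upwards [h1, ok_above a2, ok_below b2, (cap_above a1).1, (cap_below b1).1] with t h1 h2 h3 h4 h5
    have hT := T_flip (ulaws (ι := ι)) (z := fun k => ζ k + t * I) (v := w + t * I) hij hi hj hn
      (by rw [hh]; exact h2) (by rw [hh]; exact h3) h4 (by rw [hh]; exact h5)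
      (fun k hk => by
        have : w + t * I - (ζ k + t * I) = w - ζ k := by ring
        rw [this]
        exact hw k hk) (fun k hk => by rw [hh]; exact h1 k hk)
    rw [hT, hh, Module.End.mul_apply, Module.End.mul_apply, Module.End.mul_apply, uops_b_apply hij,
      uops_M_apply _ _ hi, uops_M_apply _ _ hj, uops_t_apply hij, sub_sub_cancel]
    have e1 : (fun k => rwt (w + t * I - (ζ k + t * I))) = fun k => rwt (w - ζ k) := by
      funext k
      congr 1
      ring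
    rw [e1]
  refine Tendsto.congr' (hev.mono fun t ht => ht.symm) ?_
  have c1 : ∀ q, Tendsto (fun t : ℝ => topU (EXL.kK (3 * Real.pi / 8 - (w + t * I))) i j F q) atTop
      (𝓝 (topU (-(Sc.rr ^ 6)⁻¹) i j F q)) :=
    fun q => tendsto_topU (cap_below b1).2 i j (F := fun _ => F) (fun _ => tendsto_const_nhds) q
  have c2 : ∀ q, Tendsto (fun t : ℝ => M (fun k => rwt (w - ζ k)) j X
      (topU (EXL.kK (3 * Real.pi / 8 - (w + t * I))) i j F) q) atTop
      (𝓝 (M (fun k => rwt (w - ζ k)) j X (topU (-(Sc.rr ^ 6)⁻¹) i j F) q)) :=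
    fun q => tendsto_M (w := fun _ k => rwt (w - ζ k)) j (fun k _ => WtTo.const _) c1 q
  have c3 : ∀ q, Tendsto (fun t : ℝ => M (fun k => rwt (3 * Real.pi / 8 - (w + t * I) - (ζ k + t * I))) i X
      (M (fun k => rwt (w - ζ k)) j X (topU (EXL.kK (3 * Real.pi / 8 - (w + t * I))) i j F)) q) atTop
      (𝓝 (M (fun _ => wsig) i X (M (fun k => rwt (w - ζ k)) j X (topU (-(Sc.rr ^ 6)⁻¹) i j F)) q)) :=
    fun q => tendsto_M (w := fun t k => rwt (3 * Real.pi / 8 - (w + (t : ℝ) * I) - (ζ k + (t : ℝ) * I)))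
      (w0 := fun _ => wsig) i (fun k _ => wt_below (b3 k)) c2 q
  exact tendsto_botU (cap_above a1).2 i j c3 p

/-- **The double column tends to the ring on the planar states.** -/
theorem tendsto_T (ζ : ι → ℂ) {i j : ι} {w : ℂ} {X : List ι} (hij : i ≠ j) (hi : i ∉ X) (hj : j ∉ X)
    (hn : X.Nodup) (hw : ∀ k ∈ X, okR (w - ζ k)) (F : Pat ι → ℂ) {p : Pat ι} (hp : AX X p) :
    Tendsto (fun t : ℝ => uops.T (fun k => ζ k + t * I) i j (w + t * I) X F p) atTop (𝓝 (Ring ζ i j w X F p)) := by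
  rw [← Too_eq ζ w hij hi hj hn F hp]
  exact tendsto_T_Too ζ hij hi hj hn hw F p

end main

end Pool.Agent.NUF
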