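import Pool.Agent.NUF.UPlan

/-!
# A line that crosses the rows without interaction (chain G2 of the board NUL)

`crs a b` = the weights of a crossing: `v = 1`, `u1 = u2 = 0`, `w1 = a`, `w2 = b` with `a b = 1`, `a² + b² = 0`
(the bracket of a crossing with loop weight 0).  A line with these weights slides over every planar state:
`slide_planar`.
-/

set_option autoImplicit false

namespace Pool.Agent.NUF

open EXL EXL.Pat EXL.HS

variable {α K : Type*} [DecidableEq α] [CommRing K]

/-- The weights of a crossing. -/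
def crs (a b : K) : Wt K := ⟨1, 0, 0, a, b⟩

section loc

variable {a b : K} {i r k m : α} {F : Pat α → K} {p : Pat α}

/-- A crossing with an empty row. -/
theorem R_crs_row (h : p r = r) : R (crs a b) i r F p = F p := by
  by_cases h1 : p i = i
  · rw [R_e h1 h rfl]
    simp [crs]
  · rw [R_l h1 h rfl]
    simp [crs]

/-- A crossing of an empty line. -/
theorem R_crs_line (h : p i = i) : R (crs a b) i r F p = F p := by
  by_cases h1 : p r = r
  · exact R_crs_row h1
  · rw [R_r h h1 rfl]
    simp [crs]

/-- **The second Reidemeister move.** -/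
theorem R_crs_crs (hab : a * b = 1) (hab2 : a * a + b * b = 0) (hir : i ≠ r) (hik : i ≠ k) (hrk : r ≠ k)
    (h : p r = k) : R (crs a b) i r (R (crs a b) i k F) p = F p := by
  have hk : p k = r := by rw [← h, p.inv]
  by_cases h1 : p i = i
  · rw [R_crs_line h1, R_crs_line h1]
  · have inv : ∀ x, p (p x) = x := p.inv
    have hA1 : p i ≠ r := fun e => by
      have h2 : p r = i := by rw [← e, p.inv]
      rw [h] at h2
      exact hik h2.symm
    have hA2 : p i ≠ k := fun e => by
      have h2 : p k = i := by rw [← e, p.inv]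
      rw [hk] at h2
      exact hir h2.symm
    obtain ⟨A, hA⟩ : ∃ A, p i = A := ⟨_, rfl⟩
    have hA' : p A = i := by rw [← hA, p.inv]
    rw [hA] at hA1 hA2
    have hAi : A ≠ i := by rw [← hA]; exact h1
    have hr0 : p r ≠ r := by rw [h]; exact hrk.symm
    have hir' : p i ≠ r := by rw [hA]; exact hA1
    -- the states
    have c0 : ∀ x, cut i r p x = if x = i then i else if x = r then r else if x = A then k
        else if x = k then A else p x := by
      intro x
      rw [pcut_apply hir h1 hr0 hir', hA, h]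
    have c1i : cut i r p i = i := by rw [c0, if_pos rfl]
    have c1r : cut i r p r = r := by rw [c0, if_neg (Ne.symm hir), if_pos rfl]
    obtain ⟨p2, hp2⟩ : ∃ p2, cup i r (cut i r p) = p2 := ⟨_, rfl⟩
    have c2 : ∀ x, p2 x = if x = i then r else if x = r then i else if x = A then k
        else if x = k then A else p x := by
      intro x
      rw [← hp2, pcup_apply c1i c1r]
      by_cases e1 : x = i
      · rw [if_pos e1, if_pos e1]
      · rw [if_neg e1, if_neg e1]
        by_cases e2 : x = r
        · rw [if_pos e2, if_pos e2]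
        · rw [if_neg e2, if_neg e2, c0, if_neg e1, if_neg e2]
    obtain ⟨p1, hp1⟩ : ∃ p1, swap i r p = p1 := ⟨_, rfl⟩
    have c3 : ∀ x, p1 x = if x = i then k else if x = k then i else if x = A then r
        else if x = r then A else p x := by
      intro x
      rw [← hp1, pswap_apply]
      by_cases e1 : x = i
      · rw [if_pos e1, e1, Equiv.swap_apply_left, h, Equiv.swap_apply_of_ne_of_ne hik.symm hrk.symm]
      · by_cases e2 : x = r
        · rw [if_neg e1, e2, if_neg hrk, if_neg (Ne.symm hA1), if_pos rfl, Equiv.swap_apply_right, hA,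
            Equiv.swap_apply_of_ne_of_ne hAi hA1]
        · rw [Equiv.swap_apply_of_ne_of_ne e1 e2, if_neg e1]
          by_cases e3 : x = k
          · rw [if_pos e3, e3, hk, Equiv.swap_apply_right]
          · by_cases e4 : x = A
            · rw [if_neg e3, if_pos e4, e4, hA', Equiv.swap_apply_left]
            · rw [if_neg e3, if_neg e4, if_neg e2, Equiv.swap_apply_of_ne_of_ne]
              · exact fun e => e4 (by rw [← hA, ← e, p.inv])
              · exact fun e => e3 (by rw [← h, ← e, p.inv])
    have d1 : p1 i = k := by rw [c3, if_pos rfl]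
    have d2i : p2 i = r := by rw [c2, if_pos rfl]
    have d2k : p2 k = A := by
      rw [c2, if_neg hik.symm, if_neg hrk.symm, if_neg (Ne.symm hA2), if_pos rfl]
    have d2i' : p2 i ≠ i := by rw [d2i]; exact Ne.symm hir
    have d2k' : p2 k ≠ k := by rw [d2k]; exact hA2
    have d2ik : p2 i ≠ k := by rw [d2i]; exact hrk
    have e1 : swap i k p2 = p := by
      ext x
      rw [pswap_apply]
      by_cases x1 : x = i
      · rw [x1, Equiv.swap_apply_left, d2k, Equiv.swap_apply_of_ne_of_ne hAi hA2]
        exact hA.symm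
      · by_cases x2 : x = k
        · rw [x2, Equiv.swap_apply_right, d2i, Equiv.swap_apply_of_ne_of_ne (Ne.symm hir) hrk]
          exact hk.symm
        · rw [Equiv.swap_apply_of_ne_of_ne x1 x2, c2, if_neg x1]
          by_cases x3 : x = r
          · rw [if_pos x3, Equiv.swap_apply_left, x3]
            exact h.symm
          · by_cases x4 : x = A
            · rw [if_neg x3, if_pos x4, Equiv.swap_apply_right, x4]
              exact hA'.symm
            · rw [if_neg x3, if_neg x4, if_neg x2, Equiv.swap_apply_of_ne_of_ne]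
              · exact fun e => x4 (by rw [← hA, ← e, p.inv])
              · exact fun e => x3 (by rw [← hk, ← e, p.inv])
    have e2 : cup i k (cut i k p2) = p1 := by
      have f0 : ∀ x, cut i k p2 x = if x = i then i else if x = k then k else if x = r then A
          else if x = A then r else p2 x := by
        intro x
        rw [pcut_apply hik d2i' d2k' d2ik, d2i, d2k]
      have f1 : cut i k p2 i = i := by rw [f0, if_pos rfl]
      have f2 : cut i k p2 k = k := by rw [f0, if_neg hik.symm, if_pos rfl]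
      ext x
      show cup i k (cut i k p2) x = p1 x
      rw [pcup_apply f1 f2, c3]
      by_cases x1 : x = i
      · rw [if_pos x1, if_pos x1]
      · rw [if_neg x1, if_neg x1]
        by_cases x2 : x = k
        · rw [if_pos x2, if_pos x2]
        · rw [if_neg x2, if_neg x2, f0, if_neg x1, if_neg x2]
          by_cases x3 : x = r
          · rw [if_pos x3, x3, if_neg (Ne.symm hA1), if_pos rfl]
          · rw [if_neg x3]
            by_cases x4 : x = A
            · rw [if_pos x4, if_pos x4]
            · rw [if_neg x4, if_neg x4, if_neg x3, c2, if_neg x1, if_neg x3, if_neg x4, if_neg x2]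
    rw [R_d h1 hr0 hir' hp1 rfl hp2, R_p hik d1, R_d d2i' d2k' d2ik e1 rfl e2]
    simp only [crs, zero_mul, add_zero]
    linear_combination F p1 * hab2 + F p * hab

/-- The state of the other lines does not change. -/
theorem pres_R_eq (w : Wt K) (h1 : r ≠ i) (h2 : r ≠ m) (h3 : k ≠ i) (h4 : k ≠ m) :
    Pres (fun q : Pat α => q r = k) (fun q => q r = k) (R w i m) := by
  intro F G h p hp
  have hk : p k = r := by rw [← hp, p.inv]
  have s1 : swap i m p r = k := by
    rw [pswap_apply, Equiv.swap_apply_of_ne_of_ne h1 h2, hp, Equiv.swap_apply_of_ne_of_ne h3 h4]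
  have s2 : ∀ q : Pat α, q r = k → cup i m q r = k := by
    intro q hq
    by_cases h5 : q i = i ∧ q m = m
    · rw [pcup_apply h5.1 h5.2, if_neg h1, if_neg h2, hq]
    · show (if q i = i ∧ q m = m then _ else q r) = k
      rw [if_neg h5, hq]
  have s3 : cut i m p r = k := by
    by_cases h5 : i ≠ m ∧ p i ≠ i ∧ p m ≠ m ∧ p i ≠ m
    · rw [pcut_apply h5.1 h5.2.1 h5.2.2.1 h5.2.2.2, if_neg h1, if_neg h2, if_neg, if_neg, hp]
      · exact fun e => h4 (by rw [← hp, e, p.inv])
      · exact fun e => h3 (by rw [← hp, e, p.inv])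
    · show (if i ≠ m ∧ p i ≠ i ∧ p m ≠ m ∧ p i ≠ m then _ else p r) = k
      rw [if_neg h5, hp]
  simp only [R]
  rw [h p hp, h _ s1, h _ (s2 p hp), h _ s3, h _ (s2 _ s3)]

/-- The occupation of the other lines does not change. -/
theorem pres_R_occ (w : Wt K) (h1 : r ≠ i) (h2 : r ≠ m) :
    Pres (fun q : Pat α => q r ≠ r) (fun q => q r ≠ r) (R w i m) := by
  intro F G h p hp
  have s1 : swap i m p r ≠ r := by
    rw [pswap_apply, Equiv.swap_apply_of_ne_of_ne h1 h2]
    intro e
    apply hp
    exact (Equiv.swap i m).injective (by rw [e, Equiv.swap_apply_of_ne_of_ne h1 h2])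
  have s2 : ∀ q : Pat α, q r ≠ r → cup i m q r ≠ r := by
    intro q hq
    by_cases h5 : q i = i ∧ q m = m
    · rw [pcup_apply h5.1 h5.2, if_neg h1, if_neg h2]
      exact hq
    · show (if q i = i ∧ q m = m then _ else q r) ≠ r
      rw [if_neg h5]
      exact hq
  have s3 : cut i m p r ≠ r := by
    by_cases h5 : i ≠ m ∧ p i ≠ i ∧ p m ≠ m ∧ p i ≠ m
    · have h6 : p i ≠ p m := fun e => h5.1 (p.inj e)
      rw [pcut_apply h5.1 h5.2.1 h5.2.2.1 h5.2.2.2, if_neg h1, if_neg h2]
      by_cases h7 : r = p i
      · rw [if_pos h7, h7]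
        exact fun e => h6 e.symm
      · rw [if_neg h7]
        by_cases h8 : r = p m
        · rw [if_pos h8, h8]
          exact h6
        · rw [if_neg h8]
          exact hp
    · show (if i ≠ m ∧ p i ≠ i ∧ p m ≠ m ∧ p i ≠ m then _ else p r) ≠ r
      rw [if_neg h5]
      exact hp
  simp only [R]
  rw [h p hp, h _ s1, h _ (s2 p hp), h _ s3, h _ (s2 _ s3)]

theorem pres_M_eq (w : α → Wt K) (h1 : r ≠ i) (h3 : k ≠ i) {X : List α} (h2 : r ∉ X) (h4 : k ∉ X) :
    Pres (fun q : Pat α => q r = k) (fun q => q r = k) (M w i X) := by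
  induction X with
  | nil => exact Pres.id _
  | cons m X ih =>
    exact (pres_R_eq (w m) h1 (fun e => h2 (by simp [e])) h3 (fun e => h4 (by simp [e]))).comp
      (ih (fun e => h2 (by simp [e])) (fun e => h4 (by simp [e])))

theorem pres_M_occ (w : α → Wt K) (h1 : r ≠ i) {X : List α} (h2 : r ∉ X) :
    Pres (fun q : Pat α => q r ≠ r) (fun q => q r ≠ r) (M w i X) := by
  induction X with
  | nil => exact Pres.id _
  | cons m X ih =>
    exact (pres_R_occ (w m) h1 (fun e => h2 (by simp [e]))).comp (ih (fun e => h2 (by simp [e])))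

end loc

theorem M_app (w : α → Wt K) (i : α) (L1 L2 : List α) (F : Pat α → K) :
    M w i (L1 ++ L2) F = M w i L1 (M w i L2 F) := by
  induction L1 with
  | nil => rfl
  | cons r L1 ih => rw [List.cons_append, M_cons, M_cons, ih]

/-! ### Two neighbours are joined -/

/-- The state maps the rows to the rows and is non-crossing on them. -/
structure Cls (X : List α) (q : Pat α) : Prop where
  mem : ∀ x ∈ X, q x ∈ X
  nc : ∀ x ∈ X, ∀ y ∈ X, X.idxOf x < X.idxOf y → X.idxOf y < X.idxOf (q x) →
    X.idxOf x < X.idxOf (q y) ∧ X.idxOf (q y) < X.idxOf (q x)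

theorem Cls.removeOne {L1 L2 : List α} {c : α} {q : Pat α} (h : Cls (L1 ++ c :: L2) q)
    (hc : c ∉ L1 ++ L2) (hq : ∀ x ∈ L1 ++ L2, q x ≠ c) : Cls (L1 ++ L2) q := by
  have hne : ∀ x ∈ L1 ++ L2, x ≠ c := fun x hx e => hc (e ▸ hx)
  have hm : ∀ x ∈ L1 ++ L2, x ∈ L1 ++ c :: L2 := by
    intro x hx
    rw [List.mem_append] at hx ⊢
    rcases hx with hx | hx
    · exact Or.inl hx
    · exact Or.inr (List.mem_cons_of_mem _ hx)
  have hm' : ∀ x ∈ L1 ++ c :: L2, x ≠ c → x ∈ L1 ++ L2 := by
    intro x hx hxc
    rw [List.mem_append, List.mem_cons] at hx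
    rw [List.mem_append]
    tauto
  have hmem : ∀ x ∈ L1 ++ L2, q x ∈ L1 ++ L2 := fun x hx => hm' _ (h.mem x (hm x hx)) (hq x hx)
  refine ⟨hmem, fun x hx y hy h1 h2 => ?_⟩
  have hx' := hne x hx
  have hy' := hne y hy
  have hqx := hq x hx
  have hqy := hq y hy
  have h3 := h.nc x (hm x hx) y (hm y hy) ((idx_insert hx' hy').1 h1) ((idx_insert hy' hqx).1 h2)
  exact ⟨(idx_insert hx' hqy).2 h3.1, (idx_insert hqy hqx).2 h3.2⟩

theorem split_at {X : List α} {x y : α} (hx : x ∈ X) (hy : y ∈ X) (h : X.idxOf y = X.idxOf x + 1) :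
    ∃ L1 L2, X = L1 ++ x :: y :: L2 := by
  have h1 : X.idxOf x < X.length := List.idxOf_lt_length_of_mem hx
  have h2 : X.idxOf y < X.length := List.idxOf_lt_length_of_mem hy
  refine ⟨X.take (X.idxOf x), X.drop (X.idxOf x + 1 + 1), ?_⟩
  have h3 : X.drop (X.idxOf x) = X[X.idxOf x] :: X.drop (X.idxOf x + 1) := List.drop_eq_getElem_cons h1
  have h4 : X.drop (X.idxOf x + 1) = X[X.idxOf x + 1]'(by omega) :: X.drop (X.idxOf x + 1 + 1) :=
    List.drop_eq_getElem_cons (by omega)
  have h5 : X[X.idxOf x] = x := List.getElem_idxOf h1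
  have h6 : X[X.idxOf x + 1]'(by omega) = y := by
    have h7 : X[X.idxOf y] = y := List.getElem_idxOf h2
    simp only [← h]
    exact h7
  conv_lhs => rw [← List.take_append_drop (X.idxOf x) X]
  rw [h3, h4, h5, h6]

/-- **Two neighbours are joined.** -/
theorem exists_adj {X : List α} {q : Pat α} (hX : X ≠ []) (hn : X.Nodup) (h : Cls X q)
    (ho : ∀ x ∈ X, q x ≠ x) : ∃ L1 r k L2, X = L1 ++ r :: k :: L2 ∧ q r = k := by
  have hinj : ∀ x ∈ X, ∀ y, X.idxOf x = X.idxOf y → x = y := fun x hx y e => (List.idxOf_inj hx).1 e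
  have key : ∀ d : ℕ, ∀ x ∈ X, X.idxOf (q x) = X.idxOf x + 1 + d →
      ∃ L1 r k L2, X = L1 ++ r :: k :: L2 ∧ q r = k := by
    intro d
    induction d using Nat.strong_induction_on with
    | _ d ih =>
      intro x hx hd
      rcases Nat.eq_zero_or_pos d with h0 | h0
      · subst h0
        obtain ⟨L1, L2, e⟩ := split_at hx (h.mem x hx) (by rw [hd])
        exact ⟨L1, x, q x, L2, e, rfl⟩
      · have h1 : X.idxOf (q x) < X.length := List.idxOf_lt_length_of_mem (h.mem x hx)
        obtain ⟨y, hy⟩ : ∃ y, X[X.idxOf x + 1]'(by omega) = y := ⟨_, rfl⟩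
        have hyX : y ∈ X := by
          rw [← hy]
          exact List.getElem_mem _
        have hyi : X.idxOf y = X.idxOf x + 1 := by
          rw [← hy]
          exact hn.idxOf_getElem _ _
        have h2 := h.nc x hx y hyX (by omega) (by omega)
        have h3 : X.idxOf (q y) ≠ X.idxOf y := fun e => ho y hyX (hinj _ (h.mem y hyX) _ e)
        obtain ⟨d', hd'⟩ : ∃ d', X.idxOf (q y) = X.idxOf y + 1 + d' := ⟨X.idxOf (q y) - (X.idxOf y + 1), by omega⟩
        exact ih d' (by omega) y hyX hd'
  obtain ⟨x, hx⟩ := List.exists_mem_of_ne_nil X hX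
  have h1 : X.idxOf (q x) ≠ X.idxOf x := fun e => ho x hx (hinj _ (h.mem x hx) _ e)
  rcases Nat.lt_or_ge (X.idxOf x) (X.idxOf (q x)) with h2 | h2
  · exact key (X.idxOf (q x) - (X.idxOf x + 1)) x hx (by omega)
  · refine key (X.idxOf x - (X.idxOf (q x) + 1)) (q x) (h.mem x hx) ?_
    rw [q.inv]
    omega

/-! ### Sliding -/

/-- **A line slides over the planar part of a state.** -/
theorem slide {a b : K} (hab : a * b = 1) (hab2 : a * a + b * b = 0) {i : α} (F : Pat α → K) :
    ∀ (n : ℕ) (X : List α) (q : Pat α), X.length = n → X.Nodup → i ∉ X → Cls X q →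
      M (fun _ => crs a b) i X F q = F q := by
  intro n
  induction n using Nat.strong_induction_on with
  | _ n ih =>
    intro X q hlen hn hi hC
    by_cases hX : X = []
    · subst hX
      rfl
    by_cases ho : ∀ x ∈ X, q x ≠ x
    · -- two neighbours are joined
      obtain ⟨L1, r, k, L2, hXe, hqr⟩ := exists_adj hX hn hC ho
      subst hXe
      have hn1 := List.nodup_append.1 hn
      have hn2 := List.nodup_cons.1 hn1.2.1
      have hn3 := List.nodup_cons.1 hn2.2
      have hrk : r ≠ k := fun e => hn2.1 (by simp [e])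
      have hr2 : r ∉ L2 := fun e => hn2.1 (List.mem_cons_of_mem _ e)
      have hr1 : r ∉ L1 := fun e => hn1.2.2 r e r (by simp) rfl
      have hk1 : k ∉ L1 := fun e => hn1.2.2 k e k (by simp) rfl
      have hir : i ≠ r := fun e => hi (by simp [e])
      have hik : i ≠ k := fun e => hi (by simp [e])
      have hqk : q k = r := by rw [← hqr, q.inv]
      have h1 : M (fun _ => crs a b) i (L1 ++ r :: k :: L2) F q = M (fun _ => crs a b) i (L1 ++ L2) F q := by
        rw [M_app, M_app, M_cons, M_cons]
        exact pres_M_eq _ hir.symm hik.symm hr1 hk1 _ _ (fun p hp => R_crs_crs hab hab2 hir hik hrk hp) q hqr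
      rw [h1]
      have hn4 : (L1 ++ k :: L2).Nodup := by
        rw [List.nodup_append]
        exact ⟨hn1.1, hn2.2, fun x hx y hy => hn1.2.2 x hx y (List.mem_cons_of_mem _ hy)⟩
      have hn5 : (L1 ++ L2).Nodup := by
        rw [List.nodup_append]
        exact ⟨hn1.1, hn3.2, fun x hx y hy => hn1.2.2 x hx y (List.mem_cons_of_mem _ (List.mem_cons_of_mem _ hy))⟩
      have hrL : r ∉ L1 ++ L2 := by
        rw [List.mem_append]
        tauto
      have hkL : k ∉ L1 ++ L2 := by
        rw [List.mem_append]
        exact fun e => e.elim hk1 hn3.1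
      have hm : ∀ x ∈ L1 ++ L2, x ∈ L1 ++ r :: k :: L2 := by
        intro x hx
        rw [List.mem_append] at hx ⊢
        rcases hx with hx | hx
        · exact Or.inl hx
        · exact Or.inr (List.mem_cons_of_mem _ (List.mem_cons_of_mem _ hx))
      have hqx : ∀ x ∈ L1 ++ L2, q x ≠ r ∧ q x ≠ k := by
        intro x hx
        constructor
        · intro e
          apply hkL
          rw [← hqr, ← e, q.inv]
          exact hx
        · intro e
          apply hrL
          rw [← hqk, ← e, q.inv]
          exact hx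
      -- remove both
      have hC2 : Cls (L1 ++ L2) q := by
        refine ⟨fun x hx => ?_, fun x hx y hy h2 h3 => ?_⟩
        · have h2 := hC.mem x (hm x hx)
          rw [List.mem_append, List.mem_cons, List.mem_cons] at h2
          rw [List.mem_append]
          have h3 := hqx x hx
          tauto
        · have hx' : x ≠ r ∧ x ≠ k := ⟨fun e => hrL (e ▸ hx), fun e => hkL (e ▸ hx)⟩
          have hy' : y ≠ r ∧ y ≠ k := ⟨fun e => hrL (e ▸ hy), fun e => hkL (e ▸ hy)⟩
          have ins : ∀ u v : α, u ≠ r → u ≠ k → v ≠ r → v ≠ k → ((L1 ++ L2).idxOf u < (L1 ++ L2).idxOf v ↔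
              (L1 ++ r :: k :: L2).idxOf u < (L1 ++ r :: k :: L2).idxOf v) := by
            intro u v u1 u2 v1 v2
            rw [idx_insert (L1 := L1) (L2 := L2) u2 v2, idx_insert (L1 := L1) (L2 := k :: L2) u1 v1]
          have hqx' := hqx x hx
          have hqy' := hqx y hy
          have h4 := hC.nc x (hm x hx) y (hm y hy) ((ins x y hx'.1 hx'.2 hy'.1 hy'.2).1 h2)
            ((ins y (q x) hy'.1 hy'.2 hqx'.1 hqx'.2).1 h3)
          exact ⟨(ins x (q y) hx'.1 hx'.2 hqy'.1 hqy'.2).2 h4.1, (ins (q y) (q x) hqy'.1 hqy'.2 hqx'.1 hqx'.2).2 h4.2⟩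
      refine ih (L1 ++ L2).length ?_ (L1 ++ L2) q rfl hn5 (fun e => hi (hm i e)) hC2
      rw [← hlen]
      simp only [List.length_append, List.length_cons]
      omega
    · -- an empty row
      push Not at ho
      obtain ⟨r, hr, hqr⟩ := ho
      obtain ⟨L1, L2, hXe⟩ := List.append_of_mem hr
      subst hXe
      have hn1 := List.nodup_append.1 hn
      have hn2 := List.nodup_cons.1 hn1.2.1
      have hr1 : r ∉ L1 := fun e => hn1.2.2 r e r (by simp) rfl
      have hir : i ≠ r := fun e => hi (by simp [e])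
      have h1 : M (fun _ => crs a b) i (L1 ++ r :: L2) F q = M (fun _ => crs a b) i (L1 ++ L2) F q := by
        rw [M_app, M_app, M_cons]
        exact pres_M_eq _ hir.symm hir.symm hr1 hr1 _ _ (fun p hp => R_crs_row hp) q hqr
      rw [h1]
      have hrL : r ∉ L1 ++ L2 := by
        rw [List.mem_append]
        exact fun e => e.elim hr1 hn2.1
      have hn5 : (L1 ++ L2).Nodup := by
        rw [List.nodup_append]
        exact ⟨hn1.1, hn2.2, fun x hx y hy => hn1.2.2 x hx y (List.mem_cons_of_mem _ hy)⟩
      have hC2 : Cls (L1 ++ L2) q := hC.removeOne hrL (fun x hx e => hrL (by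
        have h2 : q r = x := by rw [← e, q.inv]
        rw [hqr] at h2
        rw [h2]
        exact hx))
      refine ih (L1 ++ L2).length ?_ (L1 ++ L2) q rfl hn5 (fun e => hi ?_) hC2
      · rw [← hlen]
        simp only [List.length_append, List.length_cons]
        omega
      · rw [List.mem_append] at e ⊢
        rcases e with e | e
        · exact Or.inl e
        · exact Or.inr (List.mem_cons_of_mem _ e)

theorem Cls.of_ax {X : List α} {p q : Pat α} (h : AX X p) (hq : ∀ x ∈ X, q x = p x) : Cls X q := by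
  have hmem : ∀ x ∈ X, p x ∈ X := by
    intro x hx
    by_contra h1
    have h2 := ax_out h h1
    rw [p.inv] at h2
    rw [← h2] at h1
    exact h1 hx
  refine ⟨fun x hx => by rw [hq x hx]; exact hmem x hx, fun x hx y hy h1 h2 => ?_⟩
  rw [hq x hx] at h2 ⊢
  rw [hq y hy]
  have h3 := h.nc x y (by exact_mod_cast h1) (by exact_mod_cast h2)
  exact ⟨by exact_mod_cast h3.1, by exact_mod_cast h3.2⟩

/-- **A line slides over a planar state**, empty line. -/
theorem slide_planar {a b : K} (hab : a * b = 1) (hab2 : a * a + b * b = 0) {i : α} {X : List α} (hn : X.Nodup)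
    (hi : i ∉ X) (F : Pat α → K) {p : Pat α} (h : AX X p) : M (fun _ => crs a b) i X F p = F p :=
  slide hab hab2 F _ X p rfl hn hi (Cls.of_ax h fun _ _ => rfl)

/-- **A line slides over a planar state**, the line is joined to `j` below the rows. -/
theorem slide_cup {a b : K} (hab : a * b = 1) (hab2 : a * a + b * b = 0) {i j : α} {X : List α} (hn : X.Nodup)
    (hi : i ∉ X) (hj : j ∉ X) (F : Pat α → K) {p : Pat α} (h : AX X p) :
    M (fun _ => crs a b) i X F (cup i j p) = F (cup i j p) := by
  refine slide hab hab2 F _ X _ rfl hn hi (Cls.of_ax h fun x hx => ?_)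
  rw [pcup_apply (ax_out h hi) (ax_out h hj), if_neg (show x ≠ i from fun e => hi (e ▸ hx)),
    if_neg (show x ≠ j from fun e => hj (e ▸ hx))]

end Pool.Agent.NUF
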