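import Pool.Agent.NUF.Cl

/-!
# Twists of the labels (cut lines)

`gau χ`: the label of the arc from `x` to `y` is shifted by `χ x - χ y`.  `lG χ` commutes with an operator if `χ`
is constant on its sites.
-/

set_option autoImplicit false

namespace Pool.Agent.NUF

open LPat

variable {Γ α : Type*} [AddCommGroup Γ]

/-- Gauge transformation. -/
def LPat.gau (χ : α → Γ) (p : LPat Γ α) : LPat Γ α where
  f := p.f
  s x := p.s x + χ x - χ (p x)
  inv := p.inv
  anti x := by rw [p.anti, p.inv]; abel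
  fix x h := by rw [p.fix x h, h]; abel

theorem gau_f (χ : α → Γ) (p : LPat Γ α) (x : α) : gau χ p x = p x := rfl

theorem gau_s (χ : α → Γ) (p : LPat Γ α) (x : α) : (gau χ p).s x = p.s x + χ x - χ (p x) := rfl

theorem gau_gau (χ χ' : α → Γ) (p : LPat Γ α) : gau χ (gau χ' p) = gau (χ + χ') p := by
  ext x
  · rfl
  · simp only [gau_s, gau_f, Pi.add_apply]
    abel

theorem gau_zero (p : LPat Γ α) : gau (0 : α → Γ) p = p := by
  ext x
  · rfl
  · simp only [gau_s, Pi.zero_apply]
    abel

/-- Only the differences along the arcs matter. -/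
theorem gau_congr {χ χ' : α → Γ} {p : LPat Γ α} (h : ∀ x, χ x - χ (p x) = χ' x - χ' (p x)) :
    gau χ p = gau χ' p := by
  ext x
  · rfl
  · rw [gau_s, gau_s, add_sub_assoc, h x, add_sub_assoc]

variable [DecidableEq α]

theorem gau_single (i : α) (g : Γ) (p : LPat Γ α) : gau (Pi.single i g) p = tw i g p := by
  have inv : ∀ x, p (p x) = x := p.inv
  ext x
  · rfl
  · rw [gau_s]
    by_cases h : p i = i
    · rw [tw_neg h]
      by_cases hx : x = i
      · subst hx
        rw [h]
        abel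
      · have h2 : p x ≠ i := fun e => hx (by rw [← inv x, e, h])
        rw [Pi.single_eq_of_ne hx, Pi.single_eq_of_ne h2]
        abel
    · rw [tw_s h]
      by_cases hx : x = i
      · subst hx
        rw [Pi.single_eq_same, Pi.single_eq_of_ne h, if_pos rfl]
        abel
      · by_cases hx2 : x = p i
        · subst hx2
          rw [Pi.single_eq_of_ne h, inv, Pi.single_eq_same, if_neg h, if_pos rfl]
          abel
        · have h2 : p x ≠ i := fun e => hx2 (by rw [← e, inv])
          rw [Pi.single_eq_of_ne hx, Pi.single_eq_of_ne h2, if_neg hx, if_neg hx2]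
          abel

section
variable {i j : α} (χ : α → Γ) (p : LPat Γ α)

theorem gau_swap : swap i j (gau χ p) = gau (χ ∘ Equiv.swap i j) (swap i j p) := by
  ext x
  · rfl
  · simp only [swap_s, gau_s, swap_f, Function.comp, Equiv.swap_apply_self]

theorem gau_swap_eq (h : χ i = χ j) : swap i j (gau χ p) = gau χ (swap i j p) := by
  rw [gau_swap]
  congr 1
  funext x
  simp only [Function.comp, Equiv.swap_apply_def]
  split_ifs with h1 h2
  · rw [h1, h]
  · rw [h2, h]
  · rfl

theorem gau_cup (h : χ i = χ j) (hc : CuOK i j p) : cup i j (gau χ p) = gau χ (cup i j p) := by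
  have hc' : CuOK i j (gau χ p) := hc
  have e1 := p.fix i hc.1
  have e2 := p.fix j hc.2
  obtain ⟨a, b⟩ := hc
  ext x
  · rw [cup_f hc', gau_f, gau_f, cup_f ⟨a, b⟩]
  · rw [cup_s, gau_s, gau_s, cup_s, cup_f ⟨a, b⟩]
    by_cases h1 : x = i
    · subst h1
      rw [if_pos rfl, a, h]
    · by_cases h2 : x = j
      · subst h2
        rw [if_neg h1, if_pos rfl, b, h]
      · rw [if_neg h1, if_neg h2]

theorem gau_jo (h : χ i = χ j) (hc : OcOK i j p) : jo i j (gau χ p) = gau χ (jo i j p) := by
  have inv : ∀ x, p (p x) = x := p.inv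
  by_cases a : p i = j
  · have a' : gau χ p i = j := a
    have b : p j = i := by rw [← a, inv]
    rw [jo_pos _ a, jo_pos _ a']
    ext x
    · rfl
    · rw [rem_s a', gau_s, gau_s, rem_s a, rem_f a]
      by_cases h1 : x = i
      · subst h1
        simp
      · by_cases h2 : x = j
        · subst h2
          simp [h1]
        · simp [h1, h2]
  · have a' : gau χ p i ≠ j := a
    have c : CtOK i j p := ⟨hc.1, hc.2.1, hc.2.2, a⟩
    have c' : CtOK i j (gau χ p) := c
    rw [jo_neg _ a, jo_neg _ a']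
    ext x
    · rfl
    · rw [cut_s c', gau_s, gau_s, gau_s, gau_s, cut_s c, cut_f c, gau_f, gau_f]
      obtain ⟨c1, c2, c3, c4⟩ := c
      have c5 : p j ≠ i := fun h => c4 (by rw [← h, inv])
      have c6 : p i ≠ p j := fun h => c1 (by rw [← inv i, h, inv])
      by_cases h1 : x = i
      · subst h1
        simp
      · by_cases h2 : x = j
        · subst h2
          simp [h1]
        · by_cases h3 : x = p i
          · subst h3
            rw [if_neg h1, if_neg h2, if_pos rfl, if_neg h1, if_neg h2, if_pos rfl, if_neg h1,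
              if_neg h2, if_pos rfl, h]
            abel
          · by_cases h4 : x = p j
            · subst h4
              rw [if_neg h1, if_neg h2, if_neg h3, if_pos rfl, if_neg h1, if_neg h2, if_neg h3,
                if_pos rfl, if_neg h1, if_neg h2, if_neg h3, if_pos rfl, h]
              abel
            · simp only [h1, h2, h3, h4, if_false]

theorem gau_lw {K : Type*} [CommRing K] (ν : Γ → K) (h : χ i = χ j) :
    lw ν i j (gau χ p) = lw ν i j p := by
  by_cases a : p i = j
  · have a' : gau χ p i = j := a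
    rw [lw_pos _ ν a, lw_pos _ ν a', gau_s, a, h]
    congr 1
    abel
  · have a' : gau χ p i ≠ j := a
    rw [lw_neg _ ν a, lw_neg _ ν a']

end

section ops

variable (K : Type*) [CommRing K]

/-- The twist as an operator. -/
def lG (χ : α → Γ) : Module.End K (LPat Γ α → K) where
  toFun F p := F (gau χ p)
  map_add' _ _ := rfl
  map_smul' _ _ := rfl

variable {K}

omit [DecidableEq α] in
theorem lG_apply (χ : α → Γ) (F : LPat Γ α → K) (p : LPat Γ α) : lG K χ F p = F (gau χ p) := rfl

omit [DecidableEq α] in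
theorem lG_mul (χ χ' : α → Γ) : lG K χ * lG K χ' = lG K (χ + χ') := by
  refine LinearMap.ext fun F => ?_
  funext p
  simp only [Module.End.mul_apply, lG_apply, gau_gau, add_comm χ χ']

omit [DecidableEq α] in
theorem lG_zero : lG K (0 : α → Γ) = 1 := by
  refine LinearMap.ext fun F => ?_
  funext p
  simp only [lG_apply, gau_zero, Module.End.one_apply]

omit [DecidableEq α] in
theorem lG_comm (χ χ' : α → Γ) : Commute (lG K χ) (lG K χ') := by
  rw [commute_iff_eq, lG_mul, lG_mul, add_comm]

/-- The support of a word: `χ` takes equal values on the sites of every letter. -/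
def GOK (χ : α → Γ) : Gen α → Prop
  | .e _ => True
  | .sw i j => χ i = χ j
  | .cu i j => χ i = χ j
  | .ct i j => χ i = χ j

variable {ν : Γ → K}

theorem lG_comm_e (χ : α → Γ) (i : α) : Commute (lG K χ) (lE Γ K i) := rfl

theorem lG_comm_sw {χ : α → Γ} {i j : α} (h : χ i = χ j) : Commute (lG K χ) (lSw Γ K i j) := by
  refine LinearMap.ext fun F => ?_
  funext p
  simp only [Module.End.mul_apply, lG_apply, lSw_apply, gau_swap_eq χ p h]

/-- The exchange of two sites moves the twist. -/
theorem lG_sw (χ : α → Γ) (i j : α) :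
    lG K χ * lSw Γ K i j = lSw Γ K i j * lG K (χ ∘ Equiv.swap i j) := by
  refine LinearMap.ext fun F => ?_
  funext p
  simp only [Module.End.mul_apply, lG_apply, lSw_apply, gau_swap χ p]

theorem lG_comm_cu {χ : α → Γ} {i j : α} (h : χ i = χ j) : Commute (lG K χ) (lCu Γ K i j) := by
  refine LinearMap.ext fun F => ?_
  funext p
  simp only [Module.End.mul_apply, lG_apply, lCu_apply]
  by_cases hc : CuOK i j p
  · rw [if_pos hc, if_pos (show CuOK i j (gau χ p) from hc), gau_cup χ p h hc]
  · rw [if_neg hc, if_neg (show ¬ CuOK i j (gau χ p) from hc)]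

theorem lG_comm_ct {χ : α → Γ} {i j : α} (h : χ i = χ j) : Commute (lG K χ) (lCt ν i j) := by
  refine LinearMap.ext fun F => ?_
  funext p
  simp only [Module.End.mul_apply, lG_apply, lCt_apply]
  by_cases hc : OcOK i j p
  · rw [if_pos hc, if_pos (show OcOK i j (gau χ p) from hc), gau_jo χ p h hc, gau_lw χ p ν h]
  · rw [if_neg hc, if_neg (show ¬ OcOK i j (gau χ p) from hc)]

/-- The words that commute with the twist. -/
def GC (ν : Γ → K) (χ : α → Γ) (w : Wd K α) : Prop := Commute (lG K χ) (repL ν id w)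

theorem GC.e (χ : α → Γ) (i : α) : GC ν χ (we i) := by
  unfold GC
  rw [repL, we, FreeAlgebra.lift_ι_apply]
  exact lG_comm_e χ i

theorem GC.one (χ : α → Γ) : GC ν χ (1 : Wd K α) := by
  unfold GC
  rw [map_one]
  exact Commute.one_right _

theorem GC.zero (χ : α → Γ) : GC ν χ (0 : Wd K α) := by
  unfold GC
  rw [map_zero]
  exact Commute.zero_right _

theorem GC.mul {χ : α → Γ} {w v : Wd K α} (h : GC ν χ w) (h' : GC ν χ v) : GC ν χ (w * v) := by
  unfold GC at *
  rw [map_mul]
  exact h.mul_right h'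

theorem GC.add {χ : α → Γ} {w v : Wd K α} (h : GC ν χ w) (h' : GC ν χ v) : GC ν χ (w + v) := by
  unfold GC at *
  rw [map_add]
  exact h.add_right h'

theorem GC.sub {χ : α → Γ} {w v : Wd K α} (h : GC ν χ w) (h' : GC ν χ v) : GC ν χ (w - v) := by
  unfold GC at *
  rw [map_sub]
  exact h.sub_right h'

theorem GC.smul {χ : α → Γ} {w : Wd K α} (c : K) (h : GC ν χ w) : GC ν χ (c • w) := by
  unfold GC at *
  rw [map_smul]
  exact h.smul_right c

theorem GC.o (χ : α → Γ) (i : α) : GC ν χ (wo i) := (GC.one χ).sub (GC.e χ i)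

theorem GC.sw {χ : α → Γ} {i j : α} (h : χ i = χ j) : GC ν χ (wsw i j) := by
  unfold GC
  rw [repL, wsw, FreeAlgebra.lift_ι_apply]
  exact lG_comm_sw h

theorem GC.cu {χ : α → Γ} {i j : α} (h : χ i = χ j) : GC ν χ (wcu i j) := by
  unfold GC
  rw [repL, wcu, FreeAlgebra.lift_ι_apply]
  exact lG_comm_cu h

theorem GC.ct {χ : α → Γ} {i j : α} (h : χ i = χ j) : GC ν χ (wct i j) := by
  unfold GC
  rw [repL, wct, FreeAlgebra.lift_ι_apply]
  exact lG_comm_ct h

theorem GC.R {χ : α → Γ} {i j : α} (w : EXL.Wt K) (h : χ i = χ j) : GC ν χ (wR w i j) := by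
  have sw := (GC.sw (ν := ν) h)
  have cu := (GC.cu (ν := ν) h)
  have ct := (GC.ct (ν := ν) h)
  have ei := GC.e (ν := ν) χ i
  have ej := GC.e (ν := ν) χ j
  have oi := GC.o (ν := ν) χ i
  have oj := GC.o (ν := ν) χ j
  exact (((ei.mul ej).add (cu.smul _)).add (((ei.mul oj).add (oi.mul ej)).mul
    (((GC.one χ).smul _).add (sw.smul _)))).add ((oi.mul oj).mul (((sw.smul _).add
      (ct.smul _)).add ((ct.mul cu).smul _)))

theorem GC.bot {χ : α → Γ} {i j : α} (κ : K) (h : χ i = χ j) : GC ν χ (wbot κ i j) :=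
  ((GC.e χ i).mul (GC.e χ j)).add ((GC.cu h).smul _)

theorem GC.top {χ : α → Γ} {i j : α} (κ : K) (h : χ i = χ j) : GC ν χ (wtop κ i j) :=
  ((GC.e χ i).mul (GC.e χ j)).add ((GC.ct h).smul _)

theorem GC.glue {χ : α → Γ} {i j : α} (h : χ i = χ j) : GC ν χ (wglue (K := K) i j) :=
  ((GC.e χ i).mul (GC.e χ j)).add (GC.ct h)

theorem GC.U {χ : α → Γ} {i j : α} (h : χ i = χ j) : GC ν χ (wU (K := K) i j) :=
  ((GC.e χ i).mul (GC.e χ j)).add (GC.cu h)

theorem GC.Y {χ : α → Γ} {a b : α} (x : K) (h : χ a = χ b) : GC ν χ (wY x a b) :=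
  (((GC.e χ b).mul (GC.e χ a)).add ((GC.cu h).smul _)).add
    ((((GC.e χ b).mul (GC.o χ a)).mul ((GC.one χ).add (GC.sw h))).smul _)

theorem GC.Yt {χ : α → Γ} {a b : α} (x : K) (h : χ a = χ b) : GC ν χ (wYt x a b) :=
  ((((GC.e χ b).mul (GC.e χ a)).add (((GC.e χ b).mul (GC.o χ a)).smul _)).add
    ((((GC.o χ b).mul (GC.e χ a)).mul (GC.sw h)).smul _)).add ((GC.ct h).smul _)

theorem GC.sg (χ : α → Γ) (i : α) : GC ν χ (wsg (K := K) i) := (GC.e χ i).sub (GC.o χ i)

/-! ### The twists are trivial at empty sites -/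

/-- Two twists that differ only at the empty site `i`. -/
theorem lE_lG {χ χ' : α → Γ} {i : α} (h : ∀ x, x ≠ i → χ x = χ' x) :
    lE Γ K i * lG K χ = lE Γ K i * lG K χ' := by
  refine LinearMap.ext fun F => ?_
  funext p
  simp only [Module.End.mul_apply, lG_apply, lE_apply]
  by_cases hp : p i = i
  · have inv : ∀ x, p (p x) = x := p.inv
    rw [if_pos hp, if_pos hp]
    congr 1
    apply gau_congr
    intro x
    by_cases hx : x = i
    · subst hx
      rw [hp, sub_self, sub_self]
    · have h2 : p x ≠ i := fun e => hx (by rw [← inv x, e, hp])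
      rw [h x hx, h _ h2]
  · rw [if_neg hp, if_neg hp]

end ops

section cops

variable {Γ ι : Type*} [AddCommGroup Γ] [DecidableEq ι] {ν : Γ → ℂ} {χ : ι → Γ} {i j : ι}

/-- The twist. -/
noncomputable abbrev Tw (χ : ι → Γ) : Module.End ℂ (LPat Γ ι → ℂ) := lG ℂ χ

theorem tR (h : χ i = χ j) (u : ℂ) : Commute (Tw χ) ((cops ν).R i j u) := by
  show GC ν χ (if i = j then 0 else _)
  split_ifs
  · exact GC.zero χ
  · exact GC.R _ h

theorem tb (h : χ i = χ j) (v : ℂ) : Commute (Tw χ) ((cops ν).b i j v) := by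
  show GC ν χ (if i = j then 0 else _)
  split_ifs
  · exact GC.zero χ
  · exact GC.bot _ h

theorem tt (h : χ i = χ j) (v : ℂ) : Commute (Tw χ) ((cops ν).t i j v) := by
  show GC ν χ (if i = j then 0 else _)
  split_ifs
  · exact GC.zero χ
  · exact GC.top _ h

theorem tglue (h : χ i = χ j) : Commute (Tw χ) ((cops ν).glue i j) := by
  show GC ν χ (if i = j then 0 else _)
  split_ifs
  · exact GC.zero χ
  · exact GC.glue h

theorem tU (h : χ i = χ j) : Commute (Tw χ) ((cops ν).U i j) := by
  show GC ν χ (if i = j then 0 else _)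
  split_ifs
  · exact GC.zero χ
  · exact GC.U h

theorem tY (h : χ i = χ j) : Commute (Tw χ) ((cops ν).Y i j) := by
  show GC ν χ (if i = j then 0 else _)
  split_ifs
  · exact GC.zero χ
  · exact GC.Y _ h

theorem tYt (h : χ i = χ j) : Commute (Tw χ) ((cops ν).Yt i j) := by
  show GC ν χ (if i = j then 0 else _)
  split_ifs
  · exact GC.zero χ
  · exact GC.Yt _ h

theorem tE (χ : ι → Γ) (i : ι) : Commute (Tw χ) ((cops ν).E i) := GC.e χ i

theorem tbc (χ : ι → Γ) (i : ι) : Commute (Tw χ) ((cops ν).bc i) := GC.e χ i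

theorem ttc (χ : ι → Γ) (i : ι) : Commute (Tw χ) ((cops ν).tc i) := GC.e χ i

theorem tZ (χ : ι → Γ) (i : ι) : Commute (Tw χ) ((cops ν).Z i) := GC.sg χ i

theorem tP (χ : ι → Γ) (i j : ι) :
    Tw χ * (cops ν).P i j = (cops ν).P i j * Tw (χ ∘ Equiv.swap i j) := by
  show lG ℂ χ * repL ν id (wsw i j) = repL ν id (wsw i j) * lG ℂ (χ ∘ Equiv.swap i j)
  rw [repL, wsw, FreeAlgebra.lift_ι_apply]
  exact lG_sw χ i j

theorem tE_congr {χ' : ι → Γ} (h : ∀ x, x ≠ i → χ x = χ' x) :
    (cops ν).E i * Tw χ = (cops ν).E i * Tw χ' := by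
  show repL ν id (we i) * lG ℂ χ = repL ν id (we i) * lG ℂ χ'
  rw [repL, we, FreeAlgebra.lift_ι_apply]
  exact lE_lG h

end cops

end Pool.Agent.NUF
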