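import Pool.Agent.NUF.NF
import Pool.Agent.HexLoop.SDVertE

/-!
NUL chain H, module H1: the walks that hit a vertex against the gas of nested polygons (n' = 2) around the faces at
the vertex: (1 / sqrt 2) sum NF <= HH <= sum NF.
-/

set_option autoImplicit false

namespace HexObs

namespace LP

open Complex Finset

/-! ## every polygon through v comes from a walk that comes back to v -/

lemma hn_ex0 {Ω : Finset Pt} {a : Pt × Pt} {t : List Bool} : t ∈ ex0 Ω a ↔ Arr0 Ω a t ∧ tp a t ∉ Ω := by
  unfold ex0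
  rw [Finset.mem_filter, mem_arr0]

/-- the edges of a walk that comes back to v. -/
noncomputable def hnE (v d : Pt) (t : List Bool) : Finset (Pt × Pt) :=
  (range (t.length + 1)).image (fun i => (vx v d t i, dx d t i))

/-- the word of a polygon, the last turn omitted. -/
def hnW (τ : ℕ → Bool) (m : ℕ) : List Bool := (List.range (m - 1)).map τ

lemma hnW_length (τ : ℕ → Bool) (m : ℕ) : (hnW τ m).length = m - 1 := by
  unfold hnW
  rw [List.length_map, List.length_range]

lemma hnW_tf (τ : ℕ → Bool) (m : ℕ) {i : ℕ} (h : i < m - 1) : tf (hnW τ m) i = τ i := by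
  unfold tf hnW
  rw [List.getD_eq_getElem _ _ (by rw [List.length_map, List.length_range]; exact h), List.getElem_map,
    List.getElem_range]

lemma hnW_vx (v d : Pt) (τ : ℕ → Bool) (m : ℕ) {i : ℕ} (h : i ≤ m) : vx v d (hnW τ m) i = vs v d τ i := by
  unfold vx
  apply vs_congr
  intro k hk
  exact hnW_tf τ m (by omega)

lemma hnW_dx (d : Pt) (τ : ℕ → Bool) (m : ℕ) {i : ℕ} (h : i ≤ m - 1) : dx d (hnW τ m) i = ds d τ i := by
  unfold dx
  apply ds_congr
  intro k hk
  exact hnW_tf τ m (by omega)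

lemma hn_word {Ω : Finset Pt} {v d : Pt} {τ : ℕ → Bool} {m : ℕ} (h : Poly v d τ m)
    (hs : VE (pe v d τ m) ⊆ Ω) : hnW τ m ∈ ex0 (Ω.erase v) (v, d) ∧ tp (v, d) (hnW τ m) = v ∧
      hnE v d (hnW τ m) = pe v d τ m := by
  have hm := h.pos
  have htp : tp (v, d) (hnW τ m) = v := by
    unfold tp tip
    rw [hnW_length, Nat.sub_add_cancel hm, hnW_vx v d τ m le_rfl]
    exact h.clv
  have hmem : ∀ i, i < m → vs v d τ i ∈ Ω := by
    intro i hi
    apply hs
    unfold VE
    rw [Finset.mem_image]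
    refine ⟨eg v d τ i, ?_, rfl⟩
    unfold pe
    exact Finset.mem_image_of_mem _ (Finset.mem_range.2 hi)
  refine ⟨?_, htp, ?_⟩
  · rw [hn_ex0, htp]
    refine ⟨⟨?_, ?_⟩, Finset.notMem_erase v Ω⟩
    · intro i hi hil
      rw [hnW_length] at hil
      show vx v d (hnW τ m) i ∈ Ω.erase v
      rw [hnW_vx v d τ m (by omega), Finset.mem_erase]
      refine ⟨?_, hmem i (by omega)⟩
      intro he
      exact h.inj 0 i (by omega) (by omega) he.symm
    · intro i k hi hik hk
      rw [hnW_length] at hk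
      show vx v d (hnW τ m) i ≠ vx v d (hnW τ m) k
      rw [hnW_vx v d τ m (by omega), hnW_vx v d τ m (by omega)]
      exact h.inj i k hik (by omega)
  · unfold hnE pe
    rw [hnW_length, Nat.sub_add_cancel hm]
    apply Finset.image_congr
    intro i hi
    rw [Finset.mem_coe, Finset.mem_range] at hi
    show (vx v d (hnW τ m) i, dx d (hnW τ m) i) = (vs v d τ i, ds d τ i)
    rw [hnW_vx v d τ m (by omega), hnW_dx d τ m (by omega)]


/-! ## the number of the faces inside -/

private lemma hn_dir3 : ∀ d ∈ dirs, ∀ e ∈ dirs, cl e = -cl d → e = rotL d ∨ e = rotR d ∨ e = -d := by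
  decide

private lemma hn_cl : ∀ a b c : ZMod 3, a ≠ 1 → (b = 1 ∨ b = 2) → a + b ≠ 1 → a + c = 1 → c = -b := by
  decide

private lemma hn_cl2 {d : Pt} (h : d ∈ dirs) : cl d = 1 ∨ cl d = 2 := by
  revert d
  decide

private lemma hn_rot (d : Pt) : -d + rotL d = -rotR d ∧ -d + rotR d = -rotL d := by
  obtain ⟨a, b⟩ := d
  unfold rotL rotR
  simp only [Prod.neg_mk, Prod.mk_add_mk, Prod.mk.injEq]
  omega

private lemma hn_fcs {v d f : Pt} (hd : De (v, d)) (hf : f ∈ fcs v) :
    f = v + rotL d ∨ f = v + rotR d ∨ f = v + -d := by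
  unfold fcs at hf
  rw [Finset.mem_filter, Finset.mem_image] at hf
  obtain ⟨⟨e, he, rfl⟩, hc⟩ := hf
  have h1 := hd.2.1
  have h2 := hd.2.2
  unfold Vt at h1 h2
  simp only at h1 h2
  rw [cl_add] at h2 hc
  rcases hn_dir3 d hd.1 e he (hn_cl _ _ _ h1 (hn_cl2 hd.1) h2 hc) with h | h | h <;> rw [h] <;> simp

private lemma hn_count {E : Finset (Pt × Pt)} (hE : IsPoly E) {v d u d' : Pt} (h1 : (v, d) ∈ E)
    (h2 : (u, d') ∈ E) (h3 : u + d' = v) {c : Bool} (hc : turn c d' = d) :
    ((fcs v).filter (fun f => Nw E f ≠ 0)).card ≤ (if sgn c = sg E then 1 else 2) := by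
  have hd : De (v, d) := isPoly_de hE h1
  have s1 := side hE h1
  have s2 := side hE h2
  simp only at s1 s2
  have hu : u = v + -d' := by
    rw [← h3]
    abel
  have n3 : Nw E (v + -d) = if c = true then (if sg E = 1 then 0 else -1) else (if sg E = 1 then 1 else 0) := by
    cases c
    · have : u + rotL d' = v + -d := by
        rw [hu, add_assoc, (hn_rot d').1, ← hc]
        rfl
      rw [← this, s2.1]
      simp
    · have : u + rotR d' = v + -d := by
        rw [hu, add_assoc, (hn_rot d').2, ← hc]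
        rfl
      rw [← this, s2.2]
      simp
  have c1 : ∀ x : Pt, ((fcs v).filter (fun f => Nw E f ≠ 0)) ⊆ {x} →
      ((fcs v).filter (fun f => Nw E f ≠ 0)).card ≤ 1 := by
    intro x hx
    exact (Finset.card_le_card hx).trans (by rw [Finset.card_singleton])
  have c2 : ∀ x y : Pt, ((fcs v).filter (fun f => Nw E f ≠ 0)) ⊆ {x, y} →
      ((fcs v).filter (fun f => Nw E f ≠ 0)).card ≤ 2 := by
    intro x y hx
    exact (Finset.card_le_card hx).trans Finset.card_le_two
  rcases sg_cases E with hs | hs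
  · have hR : Nw E (v + rotR d) = 0 := by
      rw [s1.2, if_pos hs]
    cases c
    · rw [if_neg (by rw [hs]; decide)]
      apply c2 (v + rotL d) (v + -d)
      intro f hf
      rw [Finset.mem_filter] at hf
      rw [Finset.mem_insert, Finset.mem_singleton]
      rcases hn_fcs hd hf.1 with h | h | h
      · exact Or.inl h
      · exfalso
        rw [h] at hf
        exact hf.2 hR
      · exact Or.inr h
    · rw [if_pos (by rw [hs]; decide)]
      have hN : Nw E (v + -d) = 0 := by
        rw [n3, if_pos rfl, if_pos hs]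
      apply c1 (v + rotL d)
      intro f hf
      rw [Finset.mem_filter] at hf
      rw [Finset.mem_singleton]
      rcases hn_fcs hd hf.1 with h | h | h
      · exact h
      · exfalso
        rw [h] at hf
        exact hf.2 hR
      · exfalso
        rw [h] at hf
        exact hf.2 hN
  · have hs1 : ¬ sg E = 1 := by rw [hs]; decide
    have hL : Nw E (v + rotL d) = 0 := by
      rw [s1.1, if_neg hs1]
    cases c
    · rw [if_pos (by rw [hs]; decide)]
      have hN : Nw E (v + -d) = 0 := by
        rw [n3, if_neg (by decide), if_neg hs1]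
      apply c1 (v + rotR d)
      intro f hf
      rw [Finset.mem_filter] at hf
      rw [Finset.mem_singleton]
      rcases hn_fcs hd hf.1 with h | h | h
      · exfalso
        rw [h] at hf
        exact hf.2 hL
      · exact h
      · exfalso
        rw [h] at hf
        exact hf.2 hN
    · rw [if_neg (by rw [hs]; decide)]
      apply c2 (v + rotR d) (v + -d)
      intro f hf
      rw [Finset.mem_filter] at hf
      rw [Finset.mem_insert, Finset.mem_singleton]
      rcases hn_fcs hd hf.1 with h | h | h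
      · exfalso
        rw [h] at hf
        exact hf.2 hL
      · exact Or.inl h
      · exact Or.inr h

/-! ## the weights -/

/-- 1 / sqrt 2. -/
noncomputable def r2 : ℝ := 1 / Real.sqrt 2

lemma r2_pos : 0 < r2 := by
  unfold r2
  positivity

lemma r2_sq : r2 * r2 = 1 / 2 := by
  unfold r2
  rw [div_mul_div_comm, Real.mul_self_sqrt (by norm_num), one_mul]

lemma r2_eq : r2 = Real.sqrt 2 / 2 := by
  unfold r2
  have h := Real.mul_self_sqrt (show (0 : ℝ) ≤ 2 by norm_num)
  have h2 : 0 < Real.sqrt 2 := by positivity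
  rw [div_eq_div_iff h2.ne' (by norm_num)]
  linarith

lemma r2_le : r2 ≤ 1 := by
  have h1 := r2_sq
  have h2 := r2_pos
  nlinarith

private lemma hn_cos5 : xc * r2 ≤ -Real.cos (5 * (Real.pi / 8)) := by
  have h1 : Real.cos (5 * (Real.pi / 8)) = -Real.sin (Real.pi / 8) := by
    have : (5 * (Real.pi / 8) : ℝ) = Real.pi / 8 + Real.pi / 2 := by ring
    rw [this, Real.cos_add_pi_div_two]
  have h2 := HexObs.cos_pos
  rw [h1, neg_neg]
  unfold xc
  rw [div_mul_eq_mul_div, div_le_iff₀ (by positivity), one_mul]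
  have h3 : 2 * Real.sin (Real.pi / 8) * Real.cos (Real.pi / 8) = Real.sin (2 * (Real.pi / 8)) :=
    (Real.sin_two_mul _).symm
  have h4 : Real.sin (2 * (Real.pi / 8)) = r2 := by
    rw [r2_eq, ← Real.sin_pi_div_four]
    congr 1
    ring
  rw [h4] at h3
  linarith

private lemma hn_cos7 : xc * r2 * 2 ≤ -Real.cos (7 * (Real.pi / 8)) := by
  have h1 : Real.cos (7 * (Real.pi / 8)) = -Real.cos (Real.pi / 8) := by
    have : (7 * (Real.pi / 8) : ℝ) = Real.pi - Real.pi / 8 := by ring
    rw [this, Real.cos_pi_sub]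
  have h2 := HexObs.cos_pos
  rw [h1, neg_neg]
  unfold xc
  rw [div_mul_eq_mul_div, div_mul_eq_mul_div, div_le_iff₀ (by positivity)]
  have h3 : 2 * Real.cos (Real.pi / 8) ^ 2 - 1 = r2 := by
    rw [← Real.cos_two_mul, r2_eq, ← Real.cos_pi_div_four]
    congr 1
    ring
  have h4 := r2_le
  nlinarith

/-! ## the walks that come back to v -/

private lemma hnd_dir : ∀ d ∈ dirs, ∀ d' ∈ dirs, cl d = cl (-d') → d ≠ -d' → ∃ c : Bool, turn c d' = d := by
  decide

private lemma hnd_neg : ∀ d ∈ dirs, ∀ b : Bool, turn b d ≠ -d := by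
  decide

private lemma hnd_cl : ∀ a b c : ZMod 3, a ≠ 1 → (b = 1 ∨ b = 2) → (c = 1 ∨ c = 2) → a + b ≠ 1 → a + c ≠ 1 → b = c := by
  decide

private lemma hnd_cl2 {d : Pt} (h : d ∈ dirs) : cl d = 1 ∨ cl d = 2 := by
  revert d
  decide

/-- two edges at v. -/
private lemma hnd_two {v d d' : Pt} (h : De (v, d)) (h' : De (v - d', d')) (hne : d ≠ -d') :
    ∃ c : Bool, turn c d' = d := by
  apply hnd_dir d h.1 d' h'.1 _ hne
  have h1 := h.2.1
  have h2 := h.2.2
  have h3 := h'.2.1
  unfold Vt at h1 h2 h3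
  simp only at h1 h2 h3
  rw [cl_add] at h2
  rw [sub_eq_add_neg, cl_add] at h3
  exact hnd_cl _ _ _ h1 (hnd_cl2 h.1) (hnd_cl2 (neg_mem_dirs h'.1)) h2 h3

private noncomputable def hnT (t : List Bool) (c : Bool) (i : ℕ) : Bool :=
  if i % (t.length + 1) = t.length then c else tf t (i % (t.length + 1))

private lemma hnd_last {Ω : Finset Pt} {v : Pt} {d : Pt} (hd : De (v, d)) {t : List Bool}
    (ht : t ∈ ex0 (Ω.erase v) (v, d)) (h : tp (v, d) t = v) : ∃ c : Bool, turn c (dx d t t.length) = d := by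
  rw [hn_ex0] at ht
  have h1 : vx v d t t.length + dx d t t.length = v := h
  have h2 : vx v d t t.length = v - dx d t t.length := eq_sub_of_add_eq h1
  have h3 : De (vx v d t t.length, dx d t t.length) := de_vx hd t t.length
  have h4 : De (v - dx d t t.length, dx d t t.length) := by
    rw [← h2]
    exact h3
  apply hnd_two hd h4
  intro h5
  rcases Nat.eq_zero_or_pos t.length with h0 | h0
  · rw [h0] at h5
    have h6 : dx d t 0 = d := rfl
    rw [h6] at h5
    have : ∀ e ∈ dirs, e ≠ -e := by decide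
    exact this d hd.1 h5
  · have h6 : vx v d t t.length = vx v d t 1 := by
      rw [h2]
      show v - dx d t t.length = v + d
      nth_rw 2 [h5]
      abel
    rcases Nat.lt_or_ge 1 t.length with h7 | h7
    · exact ht.1.inj 1 t.length le_rfl h7 le_rfl h6.symm
    · have h8 : t.length = 1 := by omega
      rw [h8] at h5
      have h9 : dx d t 1 = turn (tf t 0) d := rfl
      rw [h9] at h5
      exact hnd_neg d hd.1 (tf t 0) (neg_eq_iff_eq_neg.1 h5.symm)

private lemma hnd_tau {t : List Bool} {c : Bool} {i : ℕ} (h : i < t.length) : hnT t c i = tf t i := by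
  unfold hnT
  rw [Nat.mod_eq_of_lt (by omega), if_neg (by omega)]

private lemma hnd_tauc {t : List Bool} {c : Bool} : hnT t c t.length = c := by
  unfold hnT
  rw [Nat.mod_eq_of_lt (by omega), if_pos rfl]

private lemma hnd_ds {d : Pt} {t : List Bool} {c : Bool} {i : ℕ} (h : i ≤ t.length) :
    ds d (hnT t c) i = dx d t i := by
  unfold dx
  apply ds_congr
  intro k hk
  exact hnd_tau (by omega)

private lemma hnd_vs {v d : Pt} {t : List Bool} {c : Bool} {i : ℕ} (h : i ≤ t.length + 1) :
    vs v d (hnT t c) i = vx v d t i := by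
  unfold vx
  apply vs_congr
  intro k hk
  exact hnd_tau (by omega)

private lemma hnd_poly {Ω : Finset Pt} {v : Pt} {d : Pt} (hd : De (v, d)) {t : List Bool}
    (ht : t ∈ ex0 (Ω.erase v) (v, d)) (h : tp (v, d) t = v) {c : Bool} (hc : turn c (dx d t t.length) = d) :
    Poly v d (hnT t c) (t.length + 1) ∧ hnE v d t = pe v d (hnT t c) (t.length + 1) := by
  rw [hn_ex0] at ht
  refine ⟨⟨by omega, hd, ?_, ?_, ?_, ?_⟩, ?_⟩
  · intro i
    unfold hnT
    rw [Nat.add_mod_right]
  · rw [hnd_vs le_rfl]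
    exact h
  · have h1 : ds d (hnT t c) (t.length + 1) = turn (hnT t c t.length) (ds d (hnT t c) t.length) := rfl
    rw [h1, hnd_tauc, hnd_ds le_rfl, hc]
  · intro i k hik hk
    rw [hnd_vs (by omega), hnd_vs (by omega)]
    rcases Nat.eq_zero_or_pos i with hi | hi
    · subst hi
      intro h2
      have h3 : vx v d t 0 = v := rfl
      rw [h3] at h2
      have h4 := ht.1.mem k (by omega) (by omega)
      exact (Finset.mem_erase.1 h4).1 h2.symm
    · exact ht.1.inj i k hi hik (by omega)
  · unfold hnE pe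
    apply Finset.image_congr
    intro i hi
    rw [Finset.mem_coe, Finset.mem_range] at hi
    show (vx v d t i, dx d t i) = (vs v d (hnT t c) i, ds d (hnT t c) i)
    rw [hnd_vs (by omega), hnd_ds (by omega)]

private lemma hnd_turn_b : ∀ d ∈ dirs, ∀ b b' : Bool, turn b d = turn b' d → b = b' := by
  decide

private lemma hnd_inj {Ω : Finset Pt} {v : Pt} {d : Pt} (hd : De (v, d)) {t t' : List Bool}
    (ht : t ∈ ex0 (Ω.erase v) (v, d)) (h : tp (v, d) t = v)
    (ht' : t' ∈ ex0 (Ω.erase v) (v, d)) (h' : tp (v, d) t' = v) (hEE : hnE v d t = hnE v d t') : t = t' := by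
  obtain ⟨c, hc⟩ := hnd_last hd ht h
  obtain ⟨c', hc'⟩ := hnd_last hd ht' h'
  obtain ⟨hP, hE⟩ := hnd_poly hd ht h hc
  obtain ⟨hP', hE'⟩ := hnd_poly hd ht' h' hc'
  have hl : t.length = t'.length := by
    have h1 := pe_card hP
    have h2 := pe_card hP'
    rw [← hE, hEE, hE', h2] at h1
    omega
  have hPo : IsPoly (hnE v d t) := ⟨_, _, _, _, hP, hE⟩
  have key : ∀ i, i ≤ t.length → vx v d t i = vx v d t' i ∧ dx d t i = dx d t' i := by
    intro i
    induction i with
    | zero =>
      intro _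
      exact ⟨rfl, rfl⟩
    | succ i ih =>
      intro hi
      obtain ⟨e1, e2⟩ := ih (by omega)
      have e3 : vx v d t (i + 1) = vx v d t' (i + 1) := by
        rw [vx_succ, vx_succ, e1, e2]
      have m1 : (vx v d t (i + 1), dx d t (i + 1)) ∈ hnE v d t := by
        unfold hnE
        rw [Finset.mem_image]
        exact ⟨i + 1, Finset.mem_range.2 (by omega), rfl⟩
      have m2 : (vx v d t' (i + 1), dx d t' (i + 1)) ∈ hnE v d t := by
        rw [hEE]
        unfold hnE
        rw [Finset.mem_image]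
        exact ⟨i + 1, Finset.mem_range.2 (by omega), rfl⟩
      rw [e3] at m1
      exact ⟨e3, isPoly_fun hPo m1 m2⟩
  apply List.ext_getElem hl
  intro i h1 h2
  have a1 : dx d t (i + 1) = turn (tf t i) (dx d t i) := rfl
  have a2 : dx d t' (i + 1) = turn (tf t' i) (dx d t' i) := rfl
  have a3 := (key (i + 1) (by omega)).2
  rw [a1, a2, ← (key i (by omega)).2] at a3
  have a4 := hnd_turn_b _ (de_vx hd t i).1 _ _ a3
  unfold tf at a4
  rwa [List.getD_eq_getElem _ _ h1, List.getD_eq_getElem _ _ h2] at a4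


private lemma hn_term {Ω : Finset Pt} {v : Pt} {d : Pt} (hd : De (v, d)) {t : List Bool}
    (ht : t ∈ ex0 (Ω.erase v) (v, d)) (h : tp (v, d) t = v) :
    xc ^ (hnE v d t).card * (r2 * ((fcs v).filter (fun f => Nw (hnE v d t) f ≠ 0)).card) ≤ -(wt t).re := by
  obtain ⟨c, hc⟩ := hnd_last hd ht h
  obtain ⟨hP, hE⟩ := hnd_poly hd ht h hc
  have hPo : IsPoly (hnE v d t) := ⟨_, _, _, _, hP, hE⟩
  have hcard : (hnE v d t).card = t.length + 1 := by
    rw [hE, pe_card hP]
  have hwind : wind t + sgn c = 6 * sg (hnE v d t) := by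
    rw [hE, ← turn_sum hP, Finset.sum_range_succ, hnd_tauc, wind_sum]
    congr 1
    apply Finset.sum_congr rfl
    intro i hi
    rw [Finset.mem_range] at hi
    rw [hnd_tau hi]
  have hm1 : (v, d) ∈ hnE v d t := by
    unfold hnE
    rw [Finset.mem_image]
    exact ⟨0, Finset.mem_range.2 (by omega), rfl⟩
  have hm2 : (vx v d t t.length, dx d t t.length) ∈ hnE v d t := by
    unfold hnE
    rw [Finset.mem_image]
    exact ⟨t.length, Finset.mem_range.2 (by omega), rfl⟩
  have hcnt := hn_count hPo hm1 hm2 h hc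
  have hx := xc_pos
  have hr := r2_pos
  have hxp : 0 < xc ^ t.length := pow_pos hx _
  rw [wt_re, hcard, pow_succ]
  have hcnt' : (((fcs v).filter (fun f => Nw (hnE v d t) f ≠ 0)).card : ℝ) ≤
      ((if sgn c = sg (hnE v d t) then 1 else 2 : ℕ) : ℝ) := by
    exact_mod_cast hcnt
  have key : xc * (r2 * ((if sgn c = sg (hnE v d t) then 1 else 2 : ℕ) : ℝ)) ≤
      -Real.cos (wind t * (Real.pi / 8)) := by
    rcases sg_cases (hnE v d t) with hs | hs
    · cases c
      · have hw : wind t = 7 := by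
          rw [hs] at hwind
          have : sgn false = -1 := rfl
          omega
        rw [hw, if_neg (by rw [hs]; decide)]
        push_cast
        rw [← mul_assoc]
        exact hn_cos7
      · have hw : wind t = 5 := by
          rw [hs] at hwind
          have : sgn true = 1 := rfl
          omega
        rw [hw, if_pos (by rw [hs]; decide)]
        push_cast
        rw [mul_one]
        exact hn_cos5
    · cases c
      · have hw : wind t = -5 := by
          rw [hs] at hwind
          have : sgn false = -1 := rfl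
          omega
        rw [hw, if_pos (by rw [hs]; decide)]
        push_cast
        rw [mul_one, neg_mul, Real.cos_neg]
        exact hn_cos5
      · have hw : wind t = -7 := by
          rw [hs] at hwind
          have : sgn true = 1 := rfl
          omega
        rw [hw, if_neg (by rw [hs]; decide)]
        push_cast
        rw [neg_mul, Real.cos_neg, ← mul_assoc]
        exact hn_cos7
  have k1 : xc * (r2 * (((fcs v).filter (fun f => Nw (hnE v d t) f ≠ 0)).card : ℝ)) ≤
      xc * (r2 * ((if sgn c = sg (hnE v d t) then 1 else 2 : ℕ) : ℝ)) :=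
    mul_le_mul_of_nonneg_left (mul_le_mul_of_nonneg_left hcnt' hr.le) hx.le
  have k2 := mul_le_mul_of_nonneg_right (k1.trans key) hxp.le
  calc xc ^ t.length * xc * (r2 * (((fcs v).filter (fun f => Nw (hnE v d t) f ≠ 0)).card : ℝ)) =
      xc * (r2 * (((fcs v).filter (fun f => Nw (hnE v d t) f ≠ 0)).card : ℝ)) * xc ^ t.length := by ring
    _ ≤ _ := k2
    _ = _ := by ring

open Classical in
/-- the walks that come back to v: lower bound. -/
theorem ret_ge {Ω : Finset Pt} {v : Pt} :
    r2 * ∑ E ∈ (polys Ω).filter (fun E => v ∈ VE E), xc ^ E.card * ((fcs v).filter (fun f => Nw E f ≠ 0)).card ≤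
    -∑ d ∈ dirs.filter (fun d => De (v, d)), ∑ t ∈ (ex0 (Ω.erase v) (v, d)).filter (fun t => tp (v, d) t = v),
      (wt t).re := by
  have hx := xc_pos
  have hr := r2_pos
  have h1 : ∀ d ∈ dirs.filter (fun d => De (v, d)),
      ∑ E ∈ (polys Ω).filter (fun E => (v, d) ∈ E), xc ^ E.card * (r2 * ((fcs v).filter (fun f => Nw E f ≠ 0)).card) ≤
      -∑ t ∈ (ex0 (Ω.erase v) (v, d)).filter (fun t => tp (v, d) t = v), (wt t).re := by
    intro d hd
    rw [Finset.mem_filter] at hd
    have hd := hd.2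
    rw [← Finset.sum_neg_distrib]
    have h2 : ∀ t ∈ (ex0 (Ω.erase v) (v, d)).filter (fun t => tp (v, d) t = v),
        xc ^ (hnE v d t).card * (r2 * ((fcs v).filter (fun f => Nw (hnE v d t) f ≠ 0)).card) ≤ -(wt t).re := by
      intro t ht
      rw [Finset.mem_filter] at ht
      exact hn_term hd ht.1 ht.2
    refine le_trans ?_ (Finset.sum_le_sum h2)
    rw [← Finset.sum_image (f := fun E => xc ^ E.card * (r2 * (((fcs v).filter (fun f => Nw E f ≠ 0)).card : ℝ)))
      (g := hnE v d)]
    · apply Finset.sum_le_sum_of_subset_of_nonneg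
      · intro E hE
        rw [Finset.mem_filter, mem_polys] at hE
        obtain ⟨⟨hP, hV⟩, hmem⟩ := hE
        obtain ⟨τ, m, hpo, hEq⟩ := root_at hP hmem
        simp only at hpo hEq
        rw [hEq] at hV
        obtain ⟨k1, k2, k3⟩ := hn_word hpo hV
        rw [Finset.mem_image]
        exact ⟨hnW τ m, Finset.mem_filter.2 ⟨k1, k2⟩, by rw [k3, hEq]⟩
      · intro E _ _
        positivity
    · intro t ht t' ht' h3
      rw [Finset.mem_coe, Finset.mem_filter] at ht ht'
      exact hnd_inj hd ht.1 ht.2 ht'.1 ht'.2 h3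
  rw [← Finset.sum_neg_distrib]
  refine le_trans (le_of_eq ?_) (Finset.sum_le_sum h1)
  rw [← Finset.sum_biUnion]
  · rw [Finset.mul_sum]
    apply Finset.sum_congr
    · ext E
      rw [Finset.mem_biUnion, Finset.mem_filter]
      constructor
      · rintro ⟨hE, hv'⟩
        unfold VE at hv'
        rw [Finset.mem_image] at hv'
        obtain ⟨⟨w, d⟩, hq, hw⟩ := hv'
        simp only at hw
        subst hw
        have hde := isPoly_de (mem_polys.1 hE).1 hq
        exact ⟨d, Finset.mem_filter.2 ⟨hde.1, hde⟩, Finset.mem_filter.2 ⟨hE, hq⟩⟩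
      · rintro ⟨d, _, hE⟩
        rw [Finset.mem_filter] at hE
        refine ⟨hE.1, ?_⟩
        unfold VE
        rw [Finset.mem_image]
        exact ⟨(v, d), hE.2, rfl⟩
    · intro E _
      ring
  · intro d _ d' _ hne
    rw [Function.onFun, Finset.disjoint_left]
    intro E hE hE'
    rw [Finset.mem_filter] at hE hE'
    exact hne (isPoly_fun (mem_polys.1 hE.1).1 hE.2 hE'.2)


/-! ## the faces at v -/

private lemma hne_card1 : ∀ c : ZMod 3, c ≠ 1 →
    (dirs.filter (fun d => c + cl d ≠ 1)).card = (dirs.filter (fun d => c + cl d = 1)).card := by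
  decide

open Classical in
private lemma hne_card {v : Pt} (hv : Vt v) : (dirs.filter (fun d => De (v, d))).card = (fcs v).card := by
  have h1 : dirs.filter (fun d => De (v, d)) = dirs.filter (fun d => cl v + cl d ≠ 1) := by
    apply Finset.filter_congr
    intro d hd
    unfold De Vt
    simp only [← cl_add]
    constructor
    · rintro ⟨_, _, h⟩
      exact h
    · intro h
      exact ⟨hd, hv, h⟩
  have h2 : fcs v = (dirs.filter (fun d => cl v + cl d = 1)).image (fun d => v + d) := by
    unfold fcs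
    rw [Finset.filter_image]
    congr 1
    apply Finset.filter_congr
    intro d _
    rw [cl_add]
  rw [h1, h2, Finset.card_image_of_injective _ (fun a b h => add_left_cancel h)]
  exact hne_card1 _ hv

private lemma hne_dir : ∀ e ∈ dirs, ∀ e' ∈ dirs, cl e = cl e' → e ≠ e' →
    ∃ d ∈ dirs, cl d = -cl e ∧ ((rotL d = e ∧ rotR d = e') ∨ (rotL d = e' ∧ rotR d = e)) := by
  decide

private lemma hne_cl : ∀ a b : ZMod 3, a ≠ 1 → a + b = 1 → a + -b ≠ 1 := by
  decide

private lemma hne_cl' : ∀ a b c : ZMod 3, a + b = 1 → a + c = 1 → b = c := by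
  decide

private lemma hne_all {E : Finset (Pt × Pt)} (hE : IsPoly E) {v : Pt} (h : Ins E v) :
    ∀ f ∈ fcs v, Nw E f ≠ 0 := by
  intro f hf
  unfold fcs at hf
  rw [Finset.mem_filter, Finset.mem_image] at hf
  obtain ⟨⟨e, he, rfl⟩, hc⟩ := hf
  obtain ⟨hv, hvE, e', he', hc', hN⟩ := h
  by_cases hee : e = e'
  · rw [hee]
    exact hN
  · unfold Fc at hc'
    rw [cl_add] at hc hc'
    have hcc := hne_cl' _ _ _ hc hc'
    obtain ⟨d, hd, hcd, hrot⟩ := hne_dir e he e' he' hcc hee
    have hde : De (v, d) := by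
      refine ⟨hd, hv, ?_⟩
      unfold Vt
      simp only
      rw [cl_add, hcd]
      exact hne_cl _ _ hv hc
    have h1 : (v, d) ∉ E := by
      intro h2
      apply hvE
      unfold VE
      rw [Finset.mem_image]
      exact ⟨(v, d), h2, rfl⟩
    have h2 : rv (v, d) ∉ E := by
      intro h3
      obtain ⟨b, hb⟩ := isPoly_next hE h3
      apply hvE
      unfold VE
      rw [Finset.mem_image]
      refine ⟨_, hb, ?_⟩
      show v + d + -d = v
      abel
    have h3 := Nw_edge hE hde
    rw [if_neg h1, if_neg h2] at h3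
    simp only at h3
    rcases hrot with ⟨h4, h5⟩ | ⟨h4, h5⟩
    · rw [h4, h5] at h3
      have : Nw E (v + e) = Nw E (v + e') := by omega
      rw [this]
      exact hN
    · rw [h4, h5] at h3
      have : Nw E (v + e) = Nw E (v + e') := by omega
      rw [this]
      exact hN

/-- a polygon around a face at v is around v or through v. -/
theorem ins_of_face {E : Finset (Pt × Pt)} {v f : Pt} (hv : Vt v) (hf : f ∈ fcs v) (hN : Nw E f ≠ 0)
    (hvE : v ∉ VE E) : Ins E v := by
  unfold fcs at hf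
  rw [Finset.mem_filter, Finset.mem_image] at hf
  obtain ⟨⟨e, he, rfl⟩, hc⟩ := hf
  exact ⟨hv, hvE, e, he, hc, hN⟩

theorem NF_thr {K : Type*} [CommRing K] [Algebra ℝ K] (z : K) {Ω : Finset Pt} {E : Finset (Pt × Pt)}
    (hE : E ∈ polys Ω) {v f : Pt} (hv : Vt v) (hf : f ∈ fcs v) (hvE : v ∈ VE E) : NF z (inn Ω E) f = 1 := by
  have hp : pf (inn Ω E) f = ∅ := by
    rw [Finset.eq_empty_iff_forall_notMem]
    intro E' hE'
    rw [mem_pf, mem_polys] at hE'
    obtain ⟨⟨h1, h2⟩, h3⟩ := hE'
    rw [mem_polys] at hE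
    have h4 : ∀ w ∈ VE E', Ins E w := fun w hw => (mem_inn.1 (h2 hw)).2
    have h5 : v ∉ VE E' := fun h => (h4 v h).2.1 hvE
    have h6 := ins_of_face hv hf h3 h5
    exact (nested hE.1 h1 h4 h6).2.1 hvE
  rw [NF_rec, hp, Finset.sum_empty, add_zero]

open Classical in
private lemma hne_split {Ω : Finset Pt} (v : Pt) (p : Pt × Pt) :
    ∑ t ∈ exv Ω v p, (wt t).re = (SS (Ω.erase v) p).re -
      ∑ t ∈ (ex0 (Ω.erase v) p).filter (fun t => tp p t = v), (wt t).re := by
  have h1 : exv Ω v p = (ex0 (Ω.erase v) p).filter (fun t => ¬ tp p t = v) := by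
    unfold exv
    apply Finset.filter_congr
    intro t _
    rfl
  unfold SS
  rw [Complex.re_sum, h1, ← Finset.sum_filter_add_sum_filter_not (ex0 (Ω.erase v) p) (fun t => tp p t = v)]
  ring

open Classical in
/-- the recursion for the sum over the faces at v. -/
private lemma hne_rec {Ω : Finset Pt} {v : Pt} (hv : Vt v) :
    ∑ f ∈ fcs v, NF (2 : ℝ) Ω f = ((fcs v).card : ℝ) +
      ∑ E ∈ (polys Ω).filter (fun E => Ins E v), xc ^ E.card * ∑ f ∈ fcs v, NF (2 : ℝ) (inn Ω E) f +
      ∑ E ∈ (polys Ω).filter (fun E => v ∈ VE E), xc ^ E.card *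
        (((fcs v).filter (fun f => Nw E f ≠ 0)).card : ℝ) := by
  classical
  have e1 : ∀ f ∈ fcs v, NF (2 : ℝ) Ω f = 1 + ∑ E ∈ polys Ω, (if Nw E f ≠ 0 then
      xc ^ E.card * NF (2 : ℝ) (inn Ω E) f else 0) := by
    intro f _
    rw [NF_rec]
    congr 1
    have : pf Ω f = (polys Ω).filter (fun E => Nw E f ≠ 0) := by
      ext E
      rw [mem_pf, Finset.mem_filter]
    rw [this, Finset.sum_filter]
    apply Finset.sum_congr rfl
    intro E _
    split_ifs
    · rw [smul_eq_mul]
      ring
    · rfl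
  rw [Finset.sum_congr rfl e1, Finset.sum_add_distrib, Finset.sum_comm, Finset.sum_const, nsmul_eq_mul, mul_one,
    add_assoc]
  congr 1
  have e2 : ∀ E ∈ polys Ω, ∑ f ∈ fcs v, (if Nw E f ≠ 0 then xc ^ E.card * NF (2 : ℝ) (inn Ω E) f else 0) =
      (if Ins E v then xc ^ E.card * ∑ f ∈ fcs v, NF (2 : ℝ) (inn Ω E) f else 0) +
      (if v ∈ VE E then xc ^ E.card * (((fcs v).filter (fun f => Nw E f ≠ 0)).card : ℝ) else 0) := by
    intro E hE
    by_cases hvE : v ∈ VE E
    · have h1 : ¬ Ins E v := fun h => h.2.1 hvE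
      rw [if_neg h1, if_pos hvE, zero_add, Finset.cast_card, Finset.mul_sum, Finset.sum_filter]
      apply Finset.sum_congr rfl
      intro f hf
      rw [NF_thr (2 : ℝ) hE hv hf hvE]
    · rw [if_neg hvE, add_zero]
      by_cases hI : Ins E v
      · rw [if_pos hI, Finset.mul_sum]
        apply Finset.sum_congr rfl
        intro f hf
        rw [if_pos (hne_all (mem_polys.1 hE).1 hI f hf)]
      · rw [if_neg hI]
        apply Finset.sum_eq_zero
        intro f hf
        rw [if_neg]
        intro hN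
        exact hI (ins_of_face hv hf hN hvE)
  rw [Finset.sum_congr rfl e2, Finset.sum_add_distrib, Finset.sum_filter, Finset.sum_filter]

private lemma hne_main (n : ℕ) : ∀ {Ω : Finset Pt}, Ω.card ≤ n → Full Ω → ∀ {v : Pt}, v ∈ Ω →
    r2 * ∑ f ∈ fcs v, NF (2 : ℝ) Ω f ≤ HH Ω {v} ∧ HH Ω {v} ≤ ∑ f ∈ fcs v, NF (2 : ℝ) Ω f := by
  classical
  induction n with
  | zero =>
    intro Ω h _ v hv
    have := Finset.card_pos.2 ⟨v, hv⟩
    omega
  | succ n ih =>
    intro Ω hcard hΩ v hv
    have hx := xc_pos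
    have hr := r2_pos
    have hr1 := r2_le
    have hvt : Vt v := hΩ.1 v hv
    have e1 : HH Ω {v} = ∑ d ∈ dirs.filter (fun d => De (v, d)), (SS (Ω.erase v) (v, d)).re +
        -∑ d ∈ dirs.filter (fun d => De (v, d)), ∑ t ∈ (ex0 (Ω.erase v) (v, d)).filter (fun t => tp (v, d) t = v),
          (wt t).re := by
      rw [HH_vertex hΩ hv, ← sub_eq_add_neg, ← Finset.sum_sub_distrib]
      apply Finset.sum_congr rfl
      intro d _
      rw [hne_split]
    have e2 := bulk_vertex hΩ hv
    have e3 := ret_le hv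
    have e3' := ret_ge (Ω := Ω) (v := v)
    have e0 := hne_rec (Ω := Ω) hvt
    have e4 : ∀ E ∈ (polys Ω).filter (fun E => Ins E v),
        xc ^ E.card * (r2 * ∑ f ∈ fcs v, NF (2 : ℝ) (inn Ω E) f) ≤ xc ^ E.card * HH (inn Ω E) {v} ∧
        xc ^ E.card * HH (inn Ω E) {v} ≤ xc ^ E.card * ∑ f ∈ fcs v, NF (2 : ℝ) (inn Ω E) f := by
      intro E hE
      rw [Finset.mem_filter] at hE
      have h2 := inn_card hE.1
      have h3 := ih (by omega) (full_inn hΩ hE.1) (mem_inn.2 ⟨hv, hE.2⟩)
      exact ⟨mul_le_mul_of_nonneg_left h3.1 (by positivity), mul_le_mul_of_nonneg_left h3.2 (by positivity)⟩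
    have e5 := Finset.sum_le_sum (fun E hE => (e4 E hE).1)
    have e6 := Finset.sum_le_sum (fun E hE => (e4 E hE).2)
    have e7 : ∑ E ∈ (polys Ω).filter (fun E => Ins E v),
        xc ^ E.card * (r2 * ∑ f ∈ fcs v, NF (2 : ℝ) (inn Ω E) f) = r2 *
        ∑ E ∈ (polys Ω).filter (fun E => Ins E v), xc ^ E.card * ∑ f ∈ fcs v, NF (2 : ℝ) (inn Ω E) f := by
      rw [Finset.mul_sum]
      apply Finset.sum_congr rfl
      intro E _
      ring
    rw [e7] at e5
    have e8 : ((dirs.filter (fun d => De (v, d))).card : ℝ) = ((fcs v).card : ℝ) := by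
      rw [hne_card hvt]
    rw [e8] at e2
    have hc : (0 : ℝ) ≤ ((fcs v).card : ℝ) := Nat.cast_nonneg _
    rw [e1, e0, e2]
    constructor
    · have : r2 * ((fcs v).card : ℝ) ≤ ((fcs v).card : ℝ) := by
        nlinarith
      rw [mul_add, mul_add]
      linarith
    · linarith

/-- H1: the walks that hit a vertex against the gas of nested polygons. -/
theorem HH_NF {Ω : Finset Pt} (hΩ : Full Ω) {v : Pt} (hv : v ∈ Ω) :
    r2 * ∑ f ∈ fcs v, NF (2 : ℝ) Ω f ≤ HH Ω {v} ∧ HH Ω {v} ≤ ∑ f ∈ fcs v, NF (2 : ℝ) Ω f :=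
  hne_main Ω.card le_rfl hΩ hv

end LP

end HexObs
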