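import Pool.Agent.EXL.Global

/-!
# Insertion of a line into a half strip vector

Abstract system of local operators `S` with the creation of an arc `cu`.  For a list `X` of rows (first
element = lowest row) and `i ∈ X`: `oE` inserts the line `i`, empty, below all rows and transports it to its
place; `oF` inserts it joined to the leg `b`; `oB` lets it carry the strand of the leg `b`; `oC = C_ij` inserts an
arc between `i` and `j`.  `hT0`, `hT1`, `hT2` = the column (nothing enters from below / a new strand with leg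
`b` enters / the leg `b` itself enters).

Words are read from the left to the right (the left factor acts first on the states).  The prefixes
`E i * E b * E c` mean that the sites are empty before.
-/

set_option autoImplicit false

namespace Pool.Agent.NUF

open EXL.Glob (Ops Laws)

/-- The weights of the rhombus. -/
structure HW where
  /-- turn -/
  u1 : ℂ → ℂ
  /-- creation -/
  u2 : ℂ → ℂ
  /-- straight -/
  v : ℂ → ℂ
  /-- two turns -/
  w1 : ℂ → ℂ

/-- The laws of the creation of an arc and of the rhombus on simple states. -/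
structure HLaws {A ι : Type*} [Ring A] [Algebra ℂ A] (S : Ops A ι ℂ) (cu : ι → ι → A) (w : HW) :
    Prop where
  cuR : ∀ {i j k m : ι} {u : ℂ}, i ≠ k → i ≠ m → j ≠ k → j ≠ m → Commute (cu i j) (S.R k m u)
  cuE : ∀ {i j k : ι}, i ≠ k → j ≠ k → Commute (cu i j) (S.E k)
  cus : ∀ {i j : ι}, cu i j = cu j i
  Ecu : ∀ {i j : ι}, i ≠ j → S.E i * cu i j = cu i j
  cuE0 : ∀ {i j : ι}, i ≠ j → cu i j * S.E i = 0
  Pcu : ∀ {i j k : ι}, i ≠ j → i ≠ k → j ≠ k → S.P i j * cu i k = cu j k * S.P i j
  PP3 : ∀ {i j k : ι}, i ≠ j → i ≠ k → j ≠ k → S.P i j * S.P i k = S.P j k * S.P i j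
  PE1 : ∀ {i j : ι}, i ≠ j → S.P i j * S.E i = S.E j * S.P i j
  tile0 : ∀ {i j : ι} {u : ℂ}, i ≠ j →
    S.E i * S.E j * S.R i j u = S.E i * S.E j + w.u2 u • cu i j
  tile1 : ∀ {i j : ι} {u : ℂ}, i ≠ j → (1 - S.E i) * S.E j * S.R i j u =
    (1 - S.E i) * S.E j * (w.v u • 1 + w.u1 u • S.P i j)
  tile2 : ∀ {i j : ι} {u : ℂ}, i ≠ j → cu i j * S.R i j u = w.w1 u • cu i j

section defs

variable {A ι : Type*} [Ring A] [Algebra ℂ A] [DecidableEq ι] (S : Ops A ι ℂ) (cu : ι → ι → A)
  (z : ι → ℂ)

/-- The rows below `i`. -/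
def below (X : List ι) (i : ι) : List ι := X.takeWhile fun y => decide (y ≠ i)

/-- Insertion of the empty line `i`. -/
def oE (X : List ι) (i : ι) : A := S.M z i (z i) (below X i)

/-- Insertion of the line `i` joined to the new leg `b`. -/
def oF (b : ι) (X : List ι) (i : ι) : A := cu i b * oE S z X i

/-- Insertion of the line `i`, which gets the strand of the leg `b`. -/
def oB (b : ι) (X : List ι) (i : ι) : A := S.P i b * oE S z X i

/-- Insertion of an arc between `i` and `j`. -/
def oC (b : ι) (X : List ι) (i j : ι) : A := oF S cu z b (X.erase i) j * oB S z b X i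

/-- The column, nothing enters from below. -/
def hT0 (c : ι) (X : List ι) : A := S.E c * S.M z c S.h X * S.E c

/-- The column, a new strand with the leg `b` enters from below. -/
def hT1 (c b : ι) (X : List ι) : A := cu c b * S.M z c S.h X * S.E c

/-- The column, the strand of the leg `b` enters from below. -/
def hT2 (c b : ι) (X : List ι) : A := S.P c b * S.M z c S.h X * S.E c

end defs

section list

variable {ι : Type*}

theorem split_of_mem {X : List ι} {i : ι} (hi : i ∈ X) : ∃ L D, X = L ++ i :: D ∧ i ∉ L := by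
  obtain ⟨L, D, h⟩ := List.eq_append_cons_of_mem hi
  exact ⟨L, D, h⟩

variable [DecidableEq ι]

theorem below_split {L D : List ι} {i : ι} (h : i ∉ L) : below (L ++ i :: D) i = L := by
  induction L with
  | nil => simp [below]
  | cons y L ih =>
    rw [List.mem_cons, not_or] at h
    have h1 : y ≠ i := fun e => h.1 e.symm
    have h2 := ih h.2
    rw [below] at h2 ⊢
    rw [List.cons_append, List.takeWhile_cons_of_pos (by simpa using h1), h2]

theorem erase_split {L D : List ι} {i : ι} (h : i ∉ L) : (L ++ i :: D).erase i = L ++ D := by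
  rw [List.erase_append_right _ h]
  simp

theorem below_subset {X : List ι} {i : ι} : ∀ r ∈ below X i, r ∈ X ∧ r ≠ i := by
  intro r hr
  refine ⟨(List.takeWhile_prefix _).subset hr, ?_⟩
  have h1 := List.mem_takeWhile_imp hr
  simpa using h1

end list

namespace HLaws

/-- A line is transported through a column. -/
theorem transport {A ι : Type*} [Monoid A] {S : Ops A ι ℂ} {ok okK : ℂ → Prop}
    (W : Laws S ok okK) {z : ι → ℂ} {t : ℂ} {L D : List ι} {i c : ι}
    (hn : (L ++ i :: D).Nodup) (hc : c ∉ L ++ i :: D) (h0 : ok (t - z i))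
    (h1 : ∀ r ∈ L, ok (t - z r)) (h2 : ∀ r ∈ L, ok (z i - z r)) :
    S.M z i (z i) L * S.M z c t (L ++ i :: D) =
      S.R c i (t - z i) * S.M z c t (L ++ D) * S.M z i (z i) L := by
  have hci : c ≠ i := fun e => hc (by simp [e])
  have hcL : c ∉ L := fun e => hc (by simp [e])
  have hn' := List.nodup_append.1 hn
  have hiL : i ∉ L := fun e => hn'.2.2 i e i (by simp) rfl
  have hiD : i ∉ D := (List.nodup_cons.1 hn'.2.1).1
  have rtt := W.RTT (z := z) (a := c) (b := i) (w := t) (w' := z i) (rows := L) hci hcL hiL hn'.1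
    h0 h1 h2
  have c1 : S.M z i (z i) L * S.M z c t D = S.M z c t D * S.M z i (z i) L := by
    refine (Ops.M_commute S fun r hr => ?_).eq
    refine (W.cMR (a := c) (rows := D) (k := i) (m := r) hci ?_ hiD ?_).symm
    · exact fun e => hcL (e ▸ hr)
    · intro hrD
      exact hn'.2.2 r hr r (by simp [hrD]) rfl
  calc S.M z i (z i) L * S.M z c t (L ++ i :: D)
      = (S.M z i (z i) L * S.M z c t L * S.R c i (t - z i)) * S.M z c t D := by
        rw [Ops.M_append, Ops.M_cons]; simp only [mul_assoc]
    _ = S.R c i (t - z i) * S.M z c t L * (S.M z i (z i) L * S.M z c t D) := by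
        rw [rtt]; simp only [mul_assoc]
    _ = _ := by rw [c1, Ops.M_append]; simp only [mul_assoc]

variable {A ι : Type*} [Ring A] [Algebra ℂ A] {S : Ops A ι ℂ} {cu : ι → ι → A}
  {w : HW} {ok okK : ℂ → Prop} (H : HLaws S cu w) (W : Laws S ok okK) {z : ι → ℂ}

section tiles
include H W

theorem cuP {i j k : ι} (h1 : i ≠ j) (h2 : i ≠ k) (h3 : j ≠ k) :
    cu i k * S.P i j = S.P i j * cu j k := by
  have h := H.Pcu h1.symm h3 h2
  rw [W.Ps (i := j) (j := i)] at h
  exact h.symm

theorem PP4 {i j k : ι} (h1 : i ≠ j) (h2 : i ≠ k) (h3 : j ≠ k) :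
    S.P i k * S.P i j = S.P i j * S.P j k := by
  have h := H.PP3 h1.symm h3 h2
  rw [W.Ps (i := j) (j := i)] at h
  exact h.symm

/-- A strand at `i` with the leg `b` meets the empty line `j`. -/
theorem tileF {i j b : ι} {u : ℂ} (hij : i ≠ j) (hib : i ≠ b) (hjb : j ≠ b) :
    S.E j * cu i b * S.R i j u = w.v u • (S.E j * cu i b) + w.u1 u • (S.E i * cu j b) := by
  have e1 : S.E j * cu i b = cu i b * (1 - S.E i) * S.E j := by
    rw [mul_sub, mul_one, H.cuE0 hib, sub_zero, (H.cuE hij hjb.symm).eq]
  have e2 : S.E j * cu i b * S.P i j = S.E i * cu j b := by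
    calc S.E j * cu i b * S.P i j = S.E j * (S.E i * cu i b) * S.P i j := by rw [H.Ecu hib]
      _ = (S.E j * S.E i) * (cu i b * S.P i j) := by simp only [mul_assoc]
      _ = (S.E i * S.E j) * (S.P i j * cu j b) := by rw [W.cEE.eq, H.cuP W hij hib hjb]
      _ = (S.E i * S.E j * S.P i j) * cu j b := by simp only [mul_assoc]
      _ = S.E i * (S.E j * cu j b) := by rw [W.PE hij]; simp only [mul_assoc]
      _ = _ := by rw [H.Ecu hjb]
  calc S.E j * cu i b * S.R i j u
      = cu i b * ((1 - S.E i) * S.E j * S.R i j u) := by rw [e1]; simp only [mul_assoc]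
    _ = cu i b * (1 - S.E i) * S.E j * (w.v u • 1 + w.u1 u • S.P i j) := by
        rw [H.tile1 hij]; simp only [mul_assoc]
    _ = S.E j * cu i b * (w.v u • 1 + w.u1 u • S.P i j) := by rw [e1]
    _ = w.v u • (S.E j * cu i b) + w.u1 u • (S.E j * cu i b * S.P i j) := by
        rw [mul_add, mul_smul_comm, mul_one, mul_smul_comm]
    _ = _ := by rw [e2]

/-- The strand of the leg `b` is at `i` and meets the empty line `c`. -/
theorem tileB {i b c : ι} {u : ℂ} (hib : i ≠ b) (hic : i ≠ c) (hbc : b ≠ c) :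
    S.E i * (1 - S.E b) * S.E c * (S.P i b * S.R c i u) =
      S.E i * (1 - S.E b) * S.E c * (w.v u • S.P i b + w.u1 u • S.P c b) := by
  have e1 : S.E i * (1 - S.E b) * S.E c * S.P i b = S.P i b * S.E b * ((1 - S.E i) * S.E c) := by
    have a1 : S.E c * S.P i b = S.P i b * S.E c := (W.cPE hic hbc).eq.symm
    have a2 : (1 - S.E b) * S.P i b = S.P i b * (1 - S.E i) := by
      rw [sub_mul, mul_sub, one_mul, mul_one, H.PE1 hib]
    have a3 : S.E i * S.P i b = S.P i b * S.E b := by
      have h := H.PE1 hib.symm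
      rw [W.Ps (i := b) (j := i)] at h
      exact h.symm
    calc S.E i * (1 - S.E b) * S.E c * S.P i b
        = S.E i * (1 - S.E b) * (S.E c * S.P i b) := by simp only [mul_assoc]
      _ = S.E i * ((1 - S.E b) * S.P i b) * S.E c := by rw [a1]; simp only [mul_assoc]
      _ = (S.E i * S.P i b) * ((1 - S.E i) * S.E c) := by rw [a2]; simp only [mul_assoc]
      _ = _ := by rw [a3]
  have e2 : S.E i * (1 - S.E b) * S.E c * (S.P i b * S.P i c) =
      S.E i * (1 - S.E b) * S.E c * S.P c b := by
    have a4 : S.P i b * S.P i c = S.P i c * S.P c b := H.PP4 W hic hib hbc.symm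
    have a5 : (1 - S.E b) * S.E c = S.E c * (1 - S.E b) := by
      rw [sub_mul, mul_sub, one_mul, mul_one, (W.cEE (i := b) (j := c)).eq]
    have a6 : (1 - S.E b) * S.P i c = S.P i c * (1 - S.E b) := by
      rw [sub_mul, mul_sub, one_mul, mul_one, (W.cPE hib hbc.symm).eq]
    calc S.E i * (1 - S.E b) * S.E c * (S.P i b * S.P i c)
        = S.E i * ((1 - S.E b) * S.E c) * (S.P i c * S.P c b) := by
          rw [a4]; simp only [mul_assoc]
      _ = S.E i * S.E c * ((1 - S.E b) * S.P i c) * S.P c b := by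
          rw [a5]; simp only [mul_assoc]
      _ = (S.E i * S.E c * S.P i c) * (1 - S.E b) * S.P c b := by
          rw [a6]; simp only [mul_assoc]
      _ = S.E i * (S.E c * (1 - S.E b)) * S.P c b := by
          rw [W.PE hic]; simp only [mul_assoc]
      _ = _ := by rw [← a5]; simp only [mul_assoc]
  calc S.E i * (1 - S.E b) * S.E c * (S.P i b * S.R c i u)
      = (S.E i * (1 - S.E b) * S.E c * S.P i b) * S.R i c u := by
        rw [W.Rs (i := c) (j := i)]; simp only [mul_assoc]
    _ = S.P i b * S.E b * ((1 - S.E i) * S.E c * S.R i c u) := by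
        rw [e1]; simp only [mul_assoc]
    _ = (S.P i b * S.E b * ((1 - S.E i) * S.E c)) * (w.v u • 1 + w.u1 u • S.P i c) := by
        rw [H.tile1 hic]; simp only [mul_assoc]
    _ = S.E i * (1 - S.E b) * S.E c * (w.v u • S.P i b + w.u1 u • (S.P i b * S.P i c)) := by
        rw [← e1, mul_assoc _ (S.P i b), mul_add, mul_smul_comm, mul_one, mul_smul_comm]
    _ = S.E i * (1 - S.E b) * S.E c * (w.v u • S.P i b) +
          w.u1 u • (S.E i * (1 - S.E b) * S.E c * (S.P i b * S.P i c)) := by
        rw [mul_add, mul_smul_comm]; rw [mul_smul_comm]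
    _ = _ := by rw [e2, mul_add, mul_smul_comm, mul_smul_comm]

end tiles

/-! ### Column identities -/

section column

variable [DecidableEq ι] {X : List ι} {i b c : ι}

omit [Algebra ℂ A] in
/-- The place of `i`: `c` crosses the rows. -/
theorem tr_col (W : Laws S ok okK) (hn : X.Nodup) (hi : i ∈ X) (hc : c ∉ X)
    (h0 : ok (S.h - z i)) (h0' : ∀ r ∈ below X i, ok (S.h - z r))
    (h1 : ∀ r ∈ below X i, ok (z i - z r)) :
    oE S z X i * (S.M z c S.h X * S.E c) =
      S.R c i (S.h - z i) * (S.M z c S.h (X.erase i) * S.E c) * oE S z X i := by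
  obtain ⟨L, D, rfl, hL⟩ := split_of_mem hi
  rw [below_split hL] at h0' h1
  rw [oE, below_split hL, erase_split hL]
  have t := transport (z := z) (t := S.h) W hn hc h0 h0' h1
  have hcL : c ∉ L := fun e => hc (by simp [e])
  have hci : i ≠ c := fun e => hc (by simp [e])
  have e : S.M z i (z i) L * S.E c = S.E c * S.M z i (z i) L := (W.cME hci hcL).eq
  calc S.M z i (z i) L * (S.M z c S.h (L ++ i :: D) * S.E c)
      = S.M z i (z i) L * S.M z c S.h (L ++ i :: D) * S.E c := by rw [mul_assoc]
    _ = S.R c i (S.h - z i) * S.M z c S.h (L ++ D) * (S.M z i (z i) L * S.E c) := by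
        rw [t]; simp only [mul_assoc]
    _ = _ := by rw [e]; simp only [mul_assoc]

omit [Algebra ℂ A] in
theorem oE_E (W : Laws S ok okK) {k : ι} (hk : k ≠ i) (hX : k ∉ X) :
    Commute (oE S z X i) (S.E k) :=
  W.cME hk.symm fun e => hX (below_subset _ e).1

omit [Algebra ℂ A] in
theorem oE_P (W : Laws S ok okK) {k m : ι} (hk : k ≠ i) (hm : m ≠ i) (hX : k ∉ X) (hX' : m ∉ X) :
    Commute (oE S z X i) (S.P k m) :=
  W.cMP hk.symm hm.symm (fun e => hX (below_subset _ e).1) fun e => hX' (below_subset _ e).1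

include H in
theorem oE_cu {k m : ι} (hk : k ≠ i) (hm : m ≠ i) (hX : k ∉ X) (hX' : m ∉ X) :
    Commute (oE S z X i) (cu k m) :=
  S.M_commute fun _ hr => (H.cuR hk (fun e => hX (e ▸ (below_subset _ hr).1)) hm
    (fun e => hX' (e ▸ (below_subset _ hr).1))).symm

omit [Algebra ℂ A] [DecidableEq ι] in
theorem N_E (W : Laws S ok okK) {k : ι} (hk : k ≠ c) (hX : k ∉ X) :
    Commute (S.M z c S.h X * S.E c) (S.E k) :=
  (W.cME hk.symm hX).mul_left W.cEE

omit [Algebra ℂ A] [DecidableEq ι] in
theorem N_P (W : Laws S ok okK) {k m : ι} (hk : k ≠ c) (hm : m ≠ c) (hX : k ∉ X) (hX' : m ∉ X) :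
    Commute (S.M z c S.h X * S.E c) (S.P k m) :=
  (W.cMP hk.symm hm.symm hX hX').mul_left (W.cPE hk hm).symm

omit [DecidableEq ι] in
include H in
theorem N_cu {k m : ι} (hk : k ≠ c) (hm : m ≠ c) (hX : k ∉ X) (hX' : m ∉ X) :
    Commute (S.M z c S.h X * S.E c) (cu k m) :=
  (S.M_commute fun _ hr => (H.cuR hk (fun e => hX (e ▸ hr)) hm
    (fun e => hX' (e ▸ hr))).symm).mul_left (H.cuE hk hm).symm

variable (hn : X.Nodup) (hi : i ∈ X) (hb : b ∉ X) (hc : c ∉ X) (hbc : b ≠ c)
  (h0 : ok (S.h - z i)) (h0' : ∀ r ∈ below X i, ok (S.h - z r))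
  (h1 : ∀ r ∈ below X i, ok (z i - z r))
include H W hn hi hb hc hbc h0 h0' h1

/-- Column identity (c1). -/
theorem c1 : S.E i * S.E b * S.E c * (oE S z X i * hT0 S z c X) =
    S.E i * S.E b * S.E c * (hT0 S z c (X.erase i) * oE S z X i +
      w.u2 (S.h - z i) • (hT1 S cu z c b (X.erase i) * oB S z b X i)) := by
  have hib : i ≠ b := fun e => hb (e ▸ hi)
  have hic : i ≠ c := fun e => hc (e ▸ hi)
  have hiX : i ∉ X.erase i := hn.not_mem_erase
  have hbX : b ∉ X.erase i := fun e => hb (List.mem_of_mem_erase e)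
  set K := oE S z X i with hK
  set N := S.M z c S.h X * S.E c with hN
  set N' := S.M z c S.h (X.erase i) * S.E c with hN'
  set R := S.R c i (S.h - z i) with hR
  have tr : K * N = R * N' * K := tr_col W hn hi hc h0 h0' h1
  have a1 : K * S.E c = S.E c * K := (oE_E W hic.symm hc).eq
  have a2 : N' * S.P i b = S.P i b * N' := (N_P W hic hbc hiX hbX).eq
  have a3 : S.E i * S.E b * S.E c * S.E c = S.E i * S.E b * S.E c := by rw [mul_assoc, W.EE]
  have a4 : S.E i * S.E b * S.E c * R = S.E i * S.E b * S.E c +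
      w.u2 (S.h - z i) • (S.E b * cu c i) := by
    calc S.E i * S.E b * S.E c * R = S.E b * (S.E c * S.E i * R) := by
          rw [W.cEE.eq, mul_assoc (S.E b), W.cEE.eq]; simp only [mul_assoc]
      _ = S.E b * (S.E c * S.E i) + w.u2 (S.h - z i) • (S.E b * cu c i) := by
          rw [H.tile0 hic.symm, mul_add, mul_smul_comm]
      _ = _ := by rw [W.cEE.eq, ← mul_assoc, W.cEE.eq]
  have a5 : S.E i * S.E b * S.E c * (cu c b * S.P i b) = S.E b * cu c i := by
    have q1 : cu c b * S.P i b = S.P i b * cu c i := by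
      rw [H.cus (i := c) (j := b), W.Ps (i := i) (j := b), H.cuP W hib.symm hbc hic,
        H.cus (i := i) (j := c)]
    calc S.E i * S.E b * S.E c * (cu c b * S.P i b)
        = S.E i * S.E b * (S.E c * S.P i b) * cu c i := by rw [q1]; simp only [mul_assoc]
      _ = (S.E i * S.E b * S.P i b) * (S.E c * cu c i) := by
          rw [(W.cPE hic hbc).eq.symm]; simp only [mul_assoc]
      _ = S.E b * (S.E i * cu i c) := by
          rw [W.PE hib, H.Ecu hic.symm, H.cus (i := c), W.cEE.eq, mul_assoc]
      _ = _ := by rw [H.Ecu hic, H.cus]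
  have l : S.E i * S.E b * S.E c * (K * hT0 S z c X) =
      S.E i * S.E b * S.E c * R * (N' * K) := by
    calc S.E i * S.E b * S.E c * (K * hT0 S z c X)
        = S.E i * S.E b * S.E c * (K * S.E c) * N := by rw [hT0, hN]; simp only [mul_assoc]
      _ = (S.E i * S.E b * S.E c * S.E c) * (K * N) := by rw [a1]; simp only [mul_assoc]
      _ = _ := by rw [a3, tr]; simp only [mul_assoc]
  have r1 : S.E i * S.E b * S.E c * (hT0 S z c (X.erase i) * K) =
      S.E i * S.E b * S.E c * (N' * K) := by
    calc S.E i * S.E b * S.E c * (hT0 S z c (X.erase i) * K)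
        = (S.E i * S.E b * S.E c * S.E c) * (N' * K) := by rw [hT0, hN']; simp only [mul_assoc]
      _ = _ := by rw [a3]
  have r2 : S.E i * S.E b * S.E c * (hT1 S cu z c b (X.erase i) * oB S z b X i) =
      S.E b * cu c i * (N' * K) := by
    calc S.E i * S.E b * S.E c * (hT1 S cu z c b (X.erase i) * oB S z b X i)
        = S.E i * S.E b * S.E c * (cu c b * (N' * S.P i b)) * K := by
          rw [hT1, oB, ← hK, hN']; simp only [mul_assoc]
      _ = S.E i * S.E b * S.E c * (cu c b * S.P i b) * (N' * K) := by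
          rw [a2]; simp only [mul_assoc]
      _ = _ := by rw [a5]
  rw [l, a4, mul_add, mul_smul_comm, r1, r2, add_mul, smul_mul_assoc]

/-- Column identity (c2). -/
theorem c2 : S.E i * S.E b * S.E c * (oF S cu z b X i * hT0 S z c X) =
    S.E i * S.E b * S.E c * (w.v (S.h - z i) • (hT0 S z c (X.erase i) * oF S cu z b X i) +
      w.u1 (S.h - z i) • (hT1 S cu z c b (X.erase i) * oE S z X i)) := by
  have hib : i ≠ b := fun e => hb (e ▸ hi)
  have hic : i ≠ c := fun e => hc (e ▸ hi)
  have hiX : i ∉ X.erase i := hn.not_mem_erase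
  have hbX : b ∉ X.erase i := fun e => hb (List.mem_of_mem_erase e)
  set K := oE S z X i with hK
  set N := S.M z c S.h X * S.E c with hN
  set N' := S.M z c S.h (X.erase i) * S.E c with hN'
  set R := S.R c i (S.h - z i) with hR
  have tr : K * N = R * N' * K := tr_col W hn hi hc h0 h0' h1
  have a1 : K * S.E c = S.E c * K := (oE_E W hic.symm hc).eq
  have a2 : N' * cu i b = cu i b * N' := (N_cu H hic hbc hiX hbX).eq
  have a3 : cu i b * S.E c = S.E c * cu i b := (H.cuE hic hbc).eq
  have a4 : S.E c * cu i b * R = w.v (S.h - z i) • (S.E c * cu i b) +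
      w.u1 (S.h - z i) • (S.E i * cu c b) := by
    rw [hR, W.Rs]; exact H.tileF W hic hib hbc.symm
  have l : oF S cu z b X i * hT0 S z c X = S.E c * cu i b * R * (N' * K) := by
    calc oF S cu z b X i * hT0 S z c X = cu i b * (K * S.E c) * N := by
          rw [hT0, oF, ← hK, hN]; simp only [mul_assoc]
      _ = (cu i b * S.E c) * (K * N) := by rw [a1]; simp only [mul_assoc]
      _ = _ := by rw [a3, tr]; simp only [mul_assoc]
  have r1 : hT0 S z c (X.erase i) * oF S cu z b X i = S.E c * cu i b * (N' * K) := by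
    calc hT0 S z c (X.erase i) * oF S cu z b X i = S.E c * (N' * cu i b) * K := by
          rw [hT0, oF, ← hK, hN']; simp only [mul_assoc]
      _ = _ := by rw [a2]; simp only [mul_assoc]
  have r2 : S.E i * S.E b * S.E c * (hT1 S cu z c b (X.erase i) * K) =
      S.E i * S.E b * S.E c * (S.E i * cu c b * (N' * K)) := by
    calc S.E i * S.E b * S.E c * (hT1 S cu z c b (X.erase i) * K)
        = S.E i * (S.E b * S.E c) * (cu c b * (N' * K)) := by
          rw [hT1, hN']; simp only [mul_assoc]
      _ = S.E i * S.E i * (S.E b * S.E c) * (cu c b * (N' * K)) := by rw [W.EE]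
      _ = S.E i * (S.E i * (S.E b * S.E c)) * (cu c b * (N' * K)) := by simp only [mul_assoc]
      _ = S.E i * ((S.E b * S.E c) * S.E i) * (cu c b * (N' * K)) := by
          rw [(W.cEE.mul_right W.cEE : Commute (S.E i) (S.E b * S.E c)).eq]
      _ = _ := by simp only [mul_assoc]
  rw [l, a4, mul_add, mul_smul_comm, mul_smul_comm, r1, r2, add_mul, smul_mul_assoc,
    smul_mul_assoc, mul_add, mul_smul_comm, mul_smul_comm]

/-- Column identity (c3). -/
theorem c3 : S.E i * S.E b * S.E c * (oE S z X i * hT1 S cu z c b X) =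
    S.E i * S.E b * S.E c * (w.v (S.h - z i) • (hT1 S cu z c b (X.erase i) * oE S z X i) +
      w.u1 (S.h - z i) • (hT0 S z c (X.erase i) * oF S cu z b X i)) := by
  have hib : i ≠ b := fun e => hb (e ▸ hi)
  have hic : i ≠ c := fun e => hc (e ▸ hi)
  have hiX : i ∉ X.erase i := hn.not_mem_erase
  have hbX : b ∉ X.erase i := fun e => hb (List.mem_of_mem_erase e)
  set K := oE S z X i with hK
  set N := S.M z c S.h X * S.E c with hN
  set N' := S.M z c S.h (X.erase i) * S.E c with hN'
  set R := S.R c i (S.h - z i) with hR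
  have tr : K * N = R * N' * K := tr_col W hn hi hc h0 h0' h1
  have a1 : K * cu c b = cu c b * K := (oE_cu H hic.symm hib.symm hc hb).eq
  have a2 : N' * cu i b = cu i b * N' := (N_cu H hic hbc hiX hbX).eq
  have a4 : S.E i * cu c b * R = w.v (S.h - z i) • (S.E i * cu c b) +
      w.u1 (S.h - z i) • (S.E c * cu i b) := H.tileF W hic.symm hbc.symm hib
  have a6 : S.E i * S.E b * S.E c * S.E i = S.E i * S.E b * S.E c := by
    have q : S.E i * (S.E b * S.E c) = S.E b * S.E c * S.E i :=
      (W.cEE.mul_right W.cEE : Commute (S.E i) (S.E b * S.E c)).eq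
    calc S.E i * S.E b * S.E c * S.E i = S.E i * (S.E b * S.E c * S.E i) := by
          simp only [mul_assoc]
      _ = S.E i * S.E i * (S.E b * S.E c) := by rw [← q]; simp only [mul_assoc]
      _ = _ := by rw [W.EE]; simp only [mul_assoc]
  have l : S.E i * S.E b * S.E c * (K * hT1 S cu z c b X) =
      S.E i * S.E b * S.E c * (S.E i * cu c b * R * (N' * K)) := by
    calc S.E i * S.E b * S.E c * (K * hT1 S cu z c b X)
        = S.E i * S.E b * S.E c * ((K * cu c b) * N) := by rw [hT1, hN]; simp only [mul_assoc]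
      _ = S.E i * S.E b * S.E c * S.E i * (cu c b * (K * N)) := by
          rw [a1, a6]; simp only [mul_assoc]
      _ = _ := by rw [tr]; simp only [mul_assoc]
  have r1 : S.E i * S.E b * S.E c * (hT1 S cu z c b (X.erase i) * K) =
      S.E i * S.E b * S.E c * (S.E i * cu c b * (N' * K)) := by
    calc S.E i * S.E b * S.E c * (hT1 S cu z c b (X.erase i) * K)
        = S.E i * S.E b * S.E c * S.E i * (cu c b * (N' * K)) := by
          rw [a6, hT1, hN']; simp only [mul_assoc]
      _ = _ := by simp only [mul_assoc]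
  have r2 : hT0 S z c (X.erase i) * oF S cu z b X i = S.E c * cu i b * (N' * K) := by
    calc hT0 S z c (X.erase i) * oF S cu z b X i = S.E c * (N' * cu i b) * K := by
          rw [hT0, oF, ← hK, hN']; simp only [mul_assoc]
      _ = _ := by rw [a2]; simp only [mul_assoc]
  rw [l, a4, mul_add, mul_smul_comm, mul_smul_comm, r1, r2, add_mul, smul_mul_assoc,
    smul_mul_assoc, mul_add, mul_smul_comm, mul_smul_comm]

/-- Column identity (c4). -/
theorem c4 : S.E i * (1 - S.E b) * S.E c * (oB S z b X i * hT0 S z c X) =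
    S.E i * (1 - S.E b) * S.E c * (w.v (S.h - z i) • (hT0 S z c (X.erase i) * oB S z b X i) +
      w.u1 (S.h - z i) • (hT2 S z c b (X.erase i) * oE S z X i)) := by
  have hib : i ≠ b := fun e => hb (e ▸ hi)
  have hic : i ≠ c := fun e => hc (e ▸ hi)
  have hiX : i ∉ X.erase i := hn.not_mem_erase
  have hbX : b ∉ X.erase i := fun e => hb (List.mem_of_mem_erase e)
  set K := oE S z X i with hK
  set N := S.M z c S.h X * S.E c with hN
  set N' := S.M z c S.h (X.erase i) * S.E c with hN'
  set R := S.R c i (S.h - z i) with hR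
  have tr : K * N = R * N' * K := tr_col W hn hi hc h0 h0' h1
  have a1 : K * S.E c = S.E c * K := (oE_E W hic.symm hc).eq
  have a2 : N' * S.P i b = S.P i b * N' := (N_P W hic hbc hiX hbX).eq
  have a3 : S.P i b * S.E c = S.E c * S.P i b := (W.cPE hic hbc).eq
  have a4 : S.E i * (1 - S.E b) * S.E c * S.E c = S.E i * (1 - S.E b) * S.E c := by
    rw [mul_assoc, W.EE]
  have a5 := H.tileB W (u := S.h - z i) hib hic hbc
  rw [← hR] at a5
  have l : S.E i * (1 - S.E b) * S.E c * (oB S z b X i * hT0 S z c X) =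
      S.E i * (1 - S.E b) * S.E c * (S.P i b * R) * (N' * K) := by
    calc S.E i * (1 - S.E b) * S.E c * (oB S z b X i * hT0 S z c X)
        = S.E i * (1 - S.E b) * S.E c * (S.P i b * (K * S.E c) * N) := by
          rw [hT0, oB, ← hK, hN]; simp only [mul_assoc]
      _ = S.E i * (1 - S.E b) * S.E c * ((S.P i b * S.E c) * (K * N)) := by
          rw [a1]; simp only [mul_assoc]
      _ = (S.E i * (1 - S.E b) * S.E c * S.E c) * (S.P i b * R * N' * K) := by
          rw [a3, tr]; simp only [mul_assoc]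
      _ = _ := by rw [a4]; simp only [mul_assoc]
  have r1 : S.E i * (1 - S.E b) * S.E c * (hT0 S z c (X.erase i) * oB S z b X i) =
      S.E i * (1 - S.E b) * S.E c * S.P i b * (N' * K) := by
    calc S.E i * (1 - S.E b) * S.E c * (hT0 S z c (X.erase i) * oB S z b X i)
        = (S.E i * (1 - S.E b) * S.E c * S.E c) * (N' * S.P i b) * K := by
          rw [hT0, oB, ← hK, hN']; simp only [mul_assoc]
      _ = _ := by rw [a4, a2]; simp only [mul_assoc]
  have r2 : hT2 S z c b (X.erase i) * K = S.P c b * (N' * K) := by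
    rw [hT2, hN']; simp only [mul_assoc]
  rw [l, a5, mul_add, mul_add, mul_smul_comm, mul_smul_comm, mul_smul_comm, mul_smul_comm, r1, r2,
    add_mul, smul_mul_assoc, smul_mul_assoc]
  simp only [mul_assoc]

/-- Column identity (c5). -/
theorem c5 : S.E i * S.E b * S.E c * (oF S cu z b X i * hT2 S z c b X) =
    w.w1 (S.h - z i) • (S.E i * S.E b * S.E c * (hT1 S cu z c b (X.erase i) * oB S z b X i)) := by
  have hib : i ≠ b := fun e => hb (e ▸ hi)
  have hic : i ≠ c := fun e => hc (e ▸ hi)
  have hiX : i ∉ X.erase i := hn.not_mem_erase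
  have hbX : b ∉ X.erase i := fun e => hb (List.mem_of_mem_erase e)
  set K := oE S z X i with hK
  set N := S.M z c S.h X * S.E c with hN
  set N' := S.M z c S.h (X.erase i) * S.E c with hN'
  set R := S.R c i (S.h - z i) with hR
  have tr : K * N = R * N' * K := tr_col W hn hi hc h0 h0' h1
  have a1 : K * S.P c b = S.P c b * K := (oE_P W hic.symm hib.symm hc hb).eq
  have a2 : N' * S.P i b = S.P i b * N' := (N_P W hic hbc hiX hbX).eq
  have a3 : cu i b * S.P c b = S.P c b * cu c i := by
    rw [H.cus (i := i) (j := b), W.Ps (i := c) (j := b), H.cuP W hbc hib.symm hic.symm]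
  have a4 : cu c b * S.P i b = S.P i b * cu c i := by
    rw [H.cus (i := c) (j := b), W.Ps (i := i) (j := b), H.cuP W hib.symm hbc hic,
      H.cus (i := i) (j := c)]
  have a5 : S.E i * S.E b * S.E c * S.P c b = S.E i * S.E b * S.E c := by
    rw [mul_assoc (S.E i), (W.cEE (i := b) (j := c)).eq, mul_assoc (S.E i), W.PE hbc.symm]
  have a6 : S.E i * S.E b * S.E c * S.P i b = S.E i * S.E b * S.E c := by
    rw [mul_assoc (S.E i * S.E b), (W.cPE hic hbc).eq.symm, ← mul_assoc (S.E i * S.E b),
      W.PE hib]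
  calc S.E i * S.E b * S.E c * (oF S cu z b X i * hT2 S z c b X)
      = S.E i * S.E b * S.E c * (cu i b * (K * S.P c b) * N) := by
        rw [hT2, oF, ← hK, hN]; simp only [mul_assoc]
    _ = S.E i * S.E b * S.E c * ((cu i b * S.P c b) * (K * N)) := by
        rw [a1]; simp only [mul_assoc]
    _ = S.E i * S.E b * S.E c * S.P c b * (cu c i * R) * (N' * K) := by
        rw [a3, tr]; simp only [mul_assoc]
    _ = w.w1 (S.h - z i) • (S.E i * S.E b * S.E c * cu c i * (N' * K)) := by
        rw [a5, hR, H.tile2 hic.symm, mul_smul_comm, smul_mul_assoc]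
    _ = w.w1 (S.h - z i) • (S.E i * S.E b * S.E c * S.P i b * cu c i * (N' * K)) := by rw [a6]
    _ = w.w1 (S.h - z i) • (S.E i * S.E b * S.E c * (cu c b * (S.P i b * N') * K)) := by
        rw [mul_assoc (S.E i * S.E b * S.E c) (S.P i b), ← a4]; simp only [mul_assoc]
    _ = _ := by rw [← a2, hT1, oB, ← hK, hN']; simp only [mul_assoc]

end column

/-! ### Exchange identities -/

section exchange

variable [DecidableEq ι] {X : List ι} {i j b : ι}

omit [Algebra ℂ A] in
theorem swapEE_lt (W : Laws S ok okK) {L D D' : List ι} (hn : (L ++ i :: (D ++ j :: D')).Nodup)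
    (h : ∀ r ∈ L ++ i :: (D ++ j :: D'), ∀ s ∈ L ++ i :: (D ++ j :: D'), r ≠ s → ok (z r - z s)) :
    oE S z ((L ++ i :: (D ++ j :: D')).erase j) i * oE S z (L ++ i :: (D ++ j :: D')) j =
      S.R j i (z j - z i) *
        (oE S z ((L ++ i :: (D ++ j :: D')).erase i) j * oE S z (L ++ i :: (D ++ j :: D')) i) := by
  have hn1 := List.nodup_append.1 hn
  have hn2 := List.nodup_cons.1 hn1.2.1
  have hn3 := List.nodup_append.1 hn2.2
  have hiL : i ∉ L := fun e => hn1.2.2 i e i (by simp) rfl
  have hjL : j ∉ L := fun e => hn1.2.2 j e j (by simp) rfl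
  have hiD : i ∉ D := fun e => hn2.1 (by simp [e])
  have hjD : j ∉ D := fun e => hn3.2.2 j e j (by simp) rfl
  have hij : i ≠ j := fun e => hn2.1 (by simp [e])
  have hj1 : j ∉ L ++ i :: D := by simp [hjL, hjD, hij.symm]
  have hj2 : j ∉ L ++ D := by simp [hjL, hjD]
  have e1 : L ++ i :: (D ++ j :: D') = (L ++ i :: D) ++ j :: D' := by simp
  have e2 : (L ++ i :: (D ++ j :: D')).erase i = (L ++ D) ++ j :: D' := by
    rw [erase_split hiL, List.append_assoc]
  have e3 : (L ++ i :: (D ++ j :: D')).erase j = L ++ i :: (D ++ D') := by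
    rw [e1, erase_split hj1]; simp
  have f1 : oE S z ((L ++ i :: (D ++ j :: D')).erase j) i = S.M z i (z i) L := by
    rw [e3, oE, below_split hiL]
  have f2 : oE S z (L ++ i :: (D ++ j :: D')) j = S.M z j (z j) (L ++ i :: D) := by
    rw [e1, oE, below_split hj1]
  have f3 : oE S z ((L ++ i :: (D ++ j :: D')).erase i) j = S.M z j (z j) (L ++ D) := by
    rw [e2, oE, below_split hj2]
  have f4 : oE S z (L ++ i :: (D ++ j :: D')) i = S.M z i (z i) L := by
    rw [oE, below_split hiL]
  rw [f1, f2, f3, f4, ← mul_assoc]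
  refine transport (z := z) (t := z j) W ?_ hj1 ?_ ?_ ?_
  · refine List.Nodup.sublist ?_ hn
    refine List.Sublist.append (List.Sublist.refl _) (List.Sublist.cons_cons _ ?_)
    exact List.sublist_append_left _ _
  · exact h j (by simp) i (by simp) hij.symm
  · exact fun r hr => h j (by simp) r (by simp [hr]) fun e => hjL (e ▸ hr)
  · exact fun r hr => h i (by simp) r (by simp [hr]) fun e => hiL (e ▸ hr)

omit [Algebra ℂ A] in
/-- The order of two insertions. -/
theorem swapEE (W : Laws S ok okK) (hn : X.Nodup) (hi : i ∈ X) (hj : j ∈ X) (hij : i ≠ j)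
    (h : ∀ r ∈ X, ∀ s ∈ X, r ≠ s → ok (z r - z s)) :
    oE S z (X.erase i) j * oE S z X i =
      S.R i j (z i - z j) * (oE S z (X.erase j) i * oE S z X j) := by
  obtain ⟨L, D, rfl, hL⟩ := split_of_mem hi
  by_cases hjL : j ∈ L
  · obtain ⟨L1, D1, rfl, hL1⟩ := split_of_mem hjL
    have e : (L1 ++ j :: D1) ++ i :: D = L1 ++ j :: (D1 ++ i :: D) := by simp
    rw [e] at hn h ⊢
    exact swapEE_lt W hn h
  · have hjD : j ∈ D := by
      simp only [List.mem_append, List.mem_cons] at hj
      rcases hj with hj | hj | hj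
      · exact absurd hj hjL
      · exact absurd hj.symm hij
      · exact hj
    obtain ⟨D1, D2, rfl, hD⟩ := split_of_mem hjD
    have q := swapEE_lt W hn h
    have o1 : ok (z i - z j) := h i hi j hj hij
    have o2 : ok (-(z i - z j)) := by rw [neg_sub]; exact h j hj i hi hij.symm
    have q2 := W.L1 hij o1 o2
    rw [neg_sub, W.Rs (i := i) (j := j) (u := z j - z i)] at q2
    rw [q, ← mul_assoc, q2, one_mul]

variable (hn : X.Nodup) (hi : i ∈ X) (hj : j ∈ X) (hij : i ≠ j) (hb : b ∉ X)
include H W hn hi hj hij hb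

/-- The word of `C_ij`. -/
theorem oC_word : S.E i * S.E j * S.E b * oC S cu z b X i j =
    S.E i * S.E j * S.E b * (cu i j * (oE S z (X.erase i) j * oE S z X i)) := by
  have hib : i ≠ b := fun e => hb (e ▸ hi)
  have hjb : j ≠ b := fun e => hb (e ▸ hj)
  have hiX : i ∉ X.erase i := hn.not_mem_erase
  have hbX : b ∉ X.erase i := fun e => hb (List.mem_of_mem_erase e)
  have a1 : oE S z (X.erase i) j * S.P i b = S.P i b * oE S z (X.erase i) j :=
    (oE_P W hij hjb.symm hiX hbX).eq
  have a2 : cu j b * S.P i b = S.P i b * cu i j := by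
    rw [H.cus (i := j) (j := b), W.Ps (i := i) (j := b), H.cuP W hib.symm hjb.symm hij]
  have a3 : S.E i * S.E j * S.E b * S.P i b = S.E i * S.E j * S.E b := by
    calc S.E i * S.E j * S.E b * S.P i b = S.E i * (S.E j * S.E b) * S.P i b := by
          simp only [mul_assoc]
      _ = S.E i * (S.E b * (S.E j * S.P i b)) := by rw [W.cEE.eq]; simp only [mul_assoc]
      _ = (S.E i * S.E b * S.P i b) * S.E j := by
          rw [(W.cPE hij hjb.symm).eq.symm]; simp only [mul_assoc]
      _ = S.E i * (S.E b * S.E j) := by rw [W.PE hib, mul_assoc]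
      _ = _ := by rw [W.cEE.eq, mul_assoc]
  calc S.E i * S.E j * S.E b * oC S cu z b X i j
      = S.E i * S.E j * S.E b * (cu j b * (oE S z (X.erase i) j * S.P i b) * oE S z X i) := by
        rw [oC, oF, oB]; simp only [mul_assoc]
    _ = S.E i * S.E j * S.E b * ((cu j b * S.P i b) * (oE S z (X.erase i) j * oE S z X i)) := by
        rw [a1]; simp only [mul_assoc]
    _ = S.E i * S.E j * S.E b * S.P i b * (cu i j * (oE S z (X.erase i) j * oE S z X i)) := by
        rw [a2]; simp only [mul_assoc]
    _ = _ := by rw [a3]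

variable (h : ∀ r ∈ X, ∀ s ∈ X, r ≠ s → ok (z r - z s))
include h

/-- `E_i F_j = u1 E_j F_i + v F_j E_i`. -/
theorem xEF : S.E i * S.E j * S.E b * (oF S cu z b (X.erase i) j * oE S z X i) =
    S.E i * S.E j * S.E b * (w.u1 (z i - z j) • (oF S cu z b (X.erase j) i * oE S z X j) +
      w.v (z i - z j) • (oE S z (X.erase j) i * oF S cu z b X j)) := by
  have hib : i ≠ b := fun e => hb (e ▸ hi)
  have hjb : j ≠ b := fun e => hb (e ▸ hj)
  have hjX : j ∉ X.erase j := hn.not_mem_erase
  have hbX : b ∉ X.erase j := fun e => hb (List.mem_of_mem_erase e)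
  have q := swapEE W hn hi hj hij h
  have a1 : oE S z (X.erase j) i * cu j b = cu j b * oE S z (X.erase j) i :=
    (oE_cu H hij.symm hib.symm hjX hbX).eq
  have t := H.tileF W (u := z i - z j) hij.symm hjb hib
  have p : ∀ x : A, S.E i * S.E j * S.E b * (S.E i * x) = S.E i * S.E j * S.E b * x := by
    intro x
    rw [← mul_assoc, mul_assoc (S.E i), mul_assoc (S.E i),
      ← (W.cEE.mul_right W.cEE : Commute (S.E i) (S.E j * S.E b)).eq, ← mul_assoc, W.EE,
      ← mul_assoc (S.E i)]
  have p' : ∀ x : A, S.E i * S.E j * S.E b * (S.E j * x) = S.E i * S.E j * S.E b * x := by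
    intro x
    rw [← mul_assoc, mul_assoc (S.E i * S.E j), (W.cEE (i := b) (j := j)).eq,
      mul_assoc (S.E i), ← mul_assoc (S.E j), W.EE, ← mul_assoc (S.E i)]
  calc S.E i * S.E j * S.E b * (oF S cu z b (X.erase i) j * oE S z X i)
      = S.E i * S.E j * S.E b * (S.E i * (cu j b * (oE S z (X.erase i) j * oE S z X i))) := by
        rw [p, oF]; simp only [mul_assoc]
    _ = S.E i * S.E j * S.E b * (S.E i * cu j b * S.R j i (z i - z j) *
          (oE S z (X.erase j) i * oE S z X j)) := by
        rw [q, W.Rs (i := i) (j := j)]; simp only [mul_assoc]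
    _ = w.v (z i - z j) • (S.E i * S.E j * S.E b * (S.E i * (cu j b *
          (oE S z (X.erase j) i * oE S z X j)))) +
        w.u1 (z i - z j) • (S.E i * S.E j * S.E b * (S.E j * (cu i b *
          (oE S z (X.erase j) i * oE S z X j)))) := by
        rw [t, add_mul, smul_mul_assoc, smul_mul_assoc, mul_add, mul_smul_comm, mul_smul_comm]
        simp only [mul_assoc]
    _ = w.v (z i - z j) • (S.E i * S.E j * S.E b * (oE S z (X.erase j) i * oF S cu z b X j)) +
        w.u1 (z i - z j) • (S.E i * S.E j * S.E b * (oF S cu z b (X.erase j) i * oE S z X j)) := by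
        rw [p, p', oF, oF, ← mul_assoc (oE S z (X.erase j) i), a1]; simp only [mul_assoc]
    _ = _ := by rw [mul_add, mul_smul_comm, mul_smul_comm, add_comm]

/-- `F_i E_j = u1 F_j E_i + v E_j F_i`. -/
theorem xFE : S.E i * S.E j * S.E b * (oE S z (X.erase i) j * oF S cu z b X i) =
    S.E i * S.E j * S.E b * (w.u1 (z i - z j) • (oE S z (X.erase j) i * oF S cu z b X j) +
      w.v (z i - z j) • (oF S cu z b (X.erase j) i * oE S z X j)) := by
  have hib : i ≠ b := fun e => hb (e ▸ hi)
  have hjb : j ≠ b := fun e => hb (e ▸ hj)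
  have hjX : j ∉ X.erase j := hn.not_mem_erase
  have hbX : b ∉ X.erase j := fun e => hb (List.mem_of_mem_erase e)
  have hiX : i ∉ X.erase i := hn.not_mem_erase
  have hbX' : b ∉ X.erase i := fun e => hb (List.mem_of_mem_erase e)
  have q := swapEE W hn hi hj hij h
  have a0 : oE S z (X.erase i) j * cu i b = cu i b * oE S z (X.erase i) j :=
    (oE_cu H hij hjb.symm hiX hbX').eq
  have a1 : oE S z (X.erase j) i * cu j b = cu j b * oE S z (X.erase j) i :=
    (oE_cu H hij.symm hib.symm hjX hbX).eq
  have t := H.tileF W (u := z i - z j) hij hib hjb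
  have p : ∀ x : A, S.E i * S.E j * S.E b * (S.E i * x) = S.E i * S.E j * S.E b * x := by
    intro x
    rw [← mul_assoc, mul_assoc (S.E i), mul_assoc (S.E i),
      ← (W.cEE.mul_right W.cEE : Commute (S.E i) (S.E j * S.E b)).eq, ← mul_assoc, W.EE,
      ← mul_assoc (S.E i)]
  have p' : ∀ x : A, S.E i * S.E j * S.E b * (S.E j * x) = S.E i * S.E j * S.E b * x := by
    intro x
    rw [← mul_assoc, mul_assoc (S.E i * S.E j), (W.cEE (i := b) (j := j)).eq,
      mul_assoc (S.E i), ← mul_assoc (S.E j), W.EE, ← mul_assoc (S.E i)]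
  calc S.E i * S.E j * S.E b * (oE S z (X.erase i) j * oF S cu z b X i)
      = S.E i * S.E j * S.E b * (S.E j * (cu i b * (oE S z (X.erase i) j * oE S z X i))) := by
        rw [p', oF, ← mul_assoc (oE S z (X.erase i) j), a0]; simp only [mul_assoc]
    _ = S.E i * S.E j * S.E b * (S.E j * cu i b * S.R i j (z i - z j) *
          (oE S z (X.erase j) i * oE S z X j)) := by
        rw [q]; simp only [mul_assoc]
    _ = w.v (z i - z j) • (S.E i * S.E j * S.E b * (S.E j * (cu i b *
          (oE S z (X.erase j) i * oE S z X j)))) +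
        w.u1 (z i - z j) • (S.E i * S.E j * S.E b * (S.E i * (cu j b *
          (oE S z (X.erase j) i * oE S z X j)))) := by
        rw [t, add_mul, smul_mul_assoc, smul_mul_assoc, mul_add, mul_smul_comm, mul_smul_comm]
        simp only [mul_assoc]
    _ = w.v (z i - z j) • (S.E i * S.E j * S.E b * (oF S cu z b (X.erase j) i * oE S z X j)) +
        w.u1 (z i - z j) • (S.E i * S.E j * S.E b * (oE S z (X.erase j) i * oF S cu z b X j)) := by
        rw [p, p', oF, oF, ← mul_assoc (oE S z (X.erase j) i) (cu j b), a1]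
        simp only [mul_assoc]
    _ = _ := by rw [mul_add, mul_smul_comm, mul_smul_comm, add_comm]

/-- `C_ij = w1 C_ji`. -/
theorem xC : S.E i * S.E j * S.E b * oC S cu z b X i j =
    w.w1 (z i - z j) • (S.E i * S.E j * S.E b * oC S cu z b X j i) := by
  have q := swapEE W hn hi hj hij h
  have q1 := H.oC_word W (z := z) hn hi hj hij hb
  have q2 := H.oC_word W (z := z) hn hj hi hij.symm hb
  rw [(W.cEE (i := j) (j := i)).eq] at q2
  rw [q1, q2, q, ← mul_assoc (cu i j), H.tile2 hij, H.cus (i := j) (j := i), smul_mul_assoc,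
    mul_smul_comm]

/-- `E_i E_j = E_j E_i + u2 C_ji`. -/
theorem xEE : S.E i * S.E j * S.E b * (oE S z (X.erase i) j * oE S z X i) =
    S.E i * S.E j * S.E b * (oE S z (X.erase j) i * oE S z X j +
      w.u2 (z i - z j) • oC S cu z b X j i) := by
  have q := swapEE W hn hi hj hij h
  have q2 := H.oC_word W (z := z) hn hj hi hij.symm hb
  have p : S.E i * S.E j * S.E b = S.E b * (S.E i * S.E j) :=
    (W.cEE.mul_left W.cEE : Commute (S.E i * S.E j) (S.E b)).eq
  rw [(W.cEE (i := j) (j := i)).eq] at q2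
  calc S.E i * S.E j * S.E b * (oE S z (X.erase i) j * oE S z X i)
      = S.E b * (S.E i * S.E j * S.R i j (z i - z j)) *
          (oE S z (X.erase j) i * oE S z X j) := by
        rw [p, q]; simp only [mul_assoc]
    _ = S.E b * (S.E i * S.E j) * (oE S z (X.erase j) i * oE S z X j) +
        w.u2 (z i - z j) • (S.E b * cu i j * (oE S z (X.erase j) i * oE S z X j)) := by
        rw [H.tile0 hij, mul_add, add_mul, mul_smul_comm, smul_mul_assoc]
    _ = _ := by
        have e : S.E b * cu i j = S.E i * S.E j * S.E b * cu j i := by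
          rw [p, mul_assoc, mul_assoc, H.Ecu hij.symm, H.cus (i := j) (j := i), H.Ecu hij]
        rw [mul_add, mul_smul_comm, q2, ← p, e]
        simp only [mul_assoc]

end exchange

end HLaws

end Pool.Agent.NUF
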