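import Pool.Agent.NUF.HalfA
import Pool.Agent.NUF.Frame

/-!
# The frame of the insertion operators

Vectors = functionals on functions of states; an operator acts on functionals from the right.  `Sp X` = the
functionals supported on the (planar) states of the list of sites `X`.
-/

set_option autoImplicit false

namespace Pool.Agent.NUF

open EXL.Glob (Ops Laws)

section rm

variable {M : Type*} [AddCommGroup M] [Module ℂ M]

/-- Right multiplication of a functional by an operator. -/
def rm (x : Module.End ℂ M) : Module.Dual ℂ M →ₗ[ℂ] Module.Dual ℂ M where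
  toFun V := LinearMap.comp V x
  map_add' _ _ := rfl
  map_smul' _ _ := rfl

theorem rm_apply (x : Module.End ℂ M) (V : Module.Dual ℂ M) (F : M) : rm x V F = V (x F) := rfl

theorem rm_mul (x y : Module.End ℂ M) (V : Module.Dual ℂ M) : rm (x * y) V = rm y (rm x V) := rfl

theorem rm_one (V : Module.Dual ℂ M) : rm 1 V = V := rfl

theorem rm_add (x y : Module.End ℂ M) (V : Module.Dual ℂ M) : rm (x + y) V = rm x V + rm y V := by
  ext F
  rw [rm_apply, LinearMap.add_apply, map_add]
  rfl

theorem rm_sub (x y : Module.End ℂ M) (V : Module.Dual ℂ M) : rm (x - y) V = rm x V - rm y V := by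
  ext F
  rw [rm_apply, LinearMap.sub_apply, map_sub]
  rfl

theorem rm_smul (a : ℂ) (x : Module.End ℂ M) (V : Module.Dual ℂ M) : rm (a • x) V = a • rm x V := by
  ext F
  rw [rm_apply, LinearMap.smul_apply, map_smul]
  rfl

theorem rm_pre {e x y : Module.End ℂ M} {V : Module.Dual ℂ M} (h : e * x = e * y)
    (hV : rm e V = V) : rm x V = rm y V := by
  rw [← hV, ← rm_mul, h, rm_mul]

end rm

/-- The functionals supported on the states of a list of sites. -/
structure SpL {α M : Type*} [AddCommGroup M] [Module ℂ M] (S : Ops (Module.End ℂ M) α ℂ)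
    (cu : α → α → Module.End ℂ M) (Sp : List α → Submodule ℂ (Module.Dual ℂ M)) : Prop where
  ins : ∀ {L D : List α} {x : α} {V : Module.Dual ℂ M}, (L ++ x :: D).Nodup →
    V ∈ Sp (L ++ D) → V ∈ Sp (L ++ x :: D)
  out : ∀ {X : List α} {x : α} {V : Module.Dual ℂ M}, x ∉ X → V ∈ Sp X → rm (S.E x) V = V
  del : ∀ {L D : List α} {x : α} {V : Module.Dual ℂ M}, (L ++ x :: D).Nodup →
    V ∈ Sp (L ++ x :: D) → rm (S.E x) V ∈ Sp (L ++ D)
  R : ∀ {L D : List α} {i k : α} {u : ℂ} {V : Module.Dual ℂ M}, (L ++ i :: k :: D).Nodup →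
    V ∈ Sp (L ++ i :: k :: D) → rm (S.R i k u) V ∈ Sp (L ++ k :: i :: D)
  cu : ∀ {L D : List α} {i k : α} {V : Module.Dual ℂ M}, (L ++ i :: k :: D).Nodup →
    V ∈ Sp (L ++ i :: k :: D) → rm (cu i k) V ∈ Sp (L ++ i :: k :: D)
  P : ∀ {L D : List α} {i k : α} {V : Module.Dual ℂ M}, (L ++ i :: k :: D).Nodup →
    V ∈ Sp (L ++ i :: D) → rm (S.P i k) V ∈ Sp (L ++ k :: D)

namespace SpL

variable {α M : Type*} [AddCommGroup M] [Module ℂ M] {S : Ops (Module.End ℂ M) α ℂ}
  {cu : α → α → Module.End ℂ M} {Sp : List α → Submodule ℂ (Module.Dual ℂ M)} (G : SpL S cu Sp)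
  {z : α → ℂ}
include G

/-- A line crosses the rows `X`. -/
theorem line {a : α} {t : ℂ} {X : List α} : ∀ {L D : List α} {V : Module.Dual ℂ M},
    (L ++ a :: (X ++ D)).Nodup → V ∈ Sp (L ++ a :: (X ++ D)) →
    rm (S.M z a t X) V ∈ Sp (L ++ (X ++ a :: D)) := by
  induction X with
  | nil => intro L D V _ hV; exact hV
  | cons r X ih =>
    intro L D V hn hV
    rw [Ops.M_cons, rm_mul]
    have h1 := G.R (u := t - z r) hn hV
    have hn2 : ((L ++ [r]) ++ a :: (X ++ D)).Nodup := by
      refine (List.Perm.nodup_iff ?_).1 hn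
      simp only [List.append_assoc, List.cons_append, List.nil_append]
      exact List.Perm.append_left _ (List.Perm.swap _ _ _)
    have h2 := ih (L := L ++ [r]) (D := D) hn2 (by simpa using h1)
    simpa using h2

end SpL

section lst

variable {ι α : Type*} [LinearOrder ι]

/-- The list of the sites of a finite set of rows. -/
def lst (s : ι → α) (X : Finset ι) : List α := (X.sort (· ≤ ·)).map s

variable {s : ι → α} {X : Finset ι} {i : ι}

theorem mem_lst {a : α} : a ∈ lst s X ↔ ∃ i ∈ X, s i = a := by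
  simp [lst]

variable (hs : Function.Injective s)
include hs

theorem mem_lst' : s i ∈ lst s X ↔ i ∈ X := by
  rw [mem_lst]
  constructor
  · rintro ⟨j, hj, e⟩
    rwa [← hs e]
  · exact fun h => ⟨i, h, rfl⟩

theorem nodup_lst : (lst s X).Nodup := (Finset.sort_nodup _ _).map hs

variable [DecidableEq α]

theorem erase_lst (hi : i ∉ X) : (lst s (insert i X)).erase (s i) = lst s X := by
  rw [lst, ← List.map_erase hs, lst]
  congr 1
  refine List.Perm.eq_of_pairwise (le := (· ≤ ·)) (fun a b _ _ h1 h2 => le_antisymm h1 h2) ?_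
    (Finset.pairwise_sort _ _) ?_
  · exact (Finset.pairwise_sort _ _).sublist List.erase_sublist
  · refine (List.perm_ext_iff_of_nodup ((Finset.sort_nodup _ _).erase _) (Finset.sort_nodup _ _)).2 ?_
    intro a
    rw [(Finset.sort_nodup _ _).mem_erase_iff, Finset.mem_sort, Finset.mem_sort, Finset.mem_insert]
    constructor
    · rintro ⟨h1, h2 | h2⟩
      · exact absurd h2 h1
      · exact h2
    · intro h
      exact ⟨fun e => hi (e ▸ h), Or.inr h⟩

end lst

section closure

variable {α M : Type*} [AddCommGroup M] [Module ℂ M] {S : Ops (Module.End ℂ M) α ℂ}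
  {cu : α → α → Module.End ℂ M} {w : HW} {Sp : List α → Submodule ℂ (Module.Dual ℂ M)}
  (G : SpL S cu Sp) {z : α → ℂ} {X : List α} {i b c : α} {V : Module.Dual ℂ M}

include G

theorem SpL.cT0 (hX : (c :: X).Nodup) (hV : V ∈ Sp X) : rm (hT0 S z c X) V ∈ Sp X := by
  have hc : c ∉ X := (List.nodup_cons.1 hX).1
  rw [NUF.hT0, rm_mul, rm_mul, G.out hc hV]
  have h1 : V ∈ Sp ([] ++ c :: (X ++ [])) :=
    G.ins (L := []) (D := X ++ []) (by simpa using hX) (by simpa using hV)
  have h2 := G.line (z := z) (t := S.h) (by simpa using hX) h1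
  have hn : (([] : List α) ++ (X ++ [c])).Nodup := by
    rw [List.nil_append, List.nodup_append]
    refine ⟨(List.nodup_cons.1 hX).2, List.nodup_singleton _, ?_⟩
    intro a ha d hd e
    rw [List.mem_singleton] at hd
    exact hc (by rw [← hd, ← e]; exact ha)
  have h3 := G.del (L := X) (D := []) (x := c) (by simpa using hn) (by simpa using h2)
  simpa using h3

theorem SpL.cT1 (H : HLaws S cu w) (hX : (b :: c :: X).Nodup) (hV : V ∈ Sp X) :
    rm (hT1 S cu z c b X) V ∈ Sp (b :: X) := by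
  have hX1 := List.nodup_cons.1 hX
  have hX2 := List.nodup_cons.1 hX1.2
  have hbc : b ≠ c := fun e => hX1.1 (by simp [e])
  have hbX : b ∉ X := fun e => hX1.1 (by simp [e])
  rw [NUF.hT1, rm_mul, rm_mul, H.cus]
  have h1 : V ∈ Sp ([] ++ c :: X) := G.ins (L := []) (D := X) hX1.2 (by simpa using hV)
  have h2 : V ∈ Sp ([] ++ b :: c :: X) := G.ins (L := []) (D := c :: X) hX h1
  have h3 : rm (cu b c) V ∈ Sp ([b] ++ c :: (X ++ [])) := by simpa using G.cu hX h2
  have h4 := G.line (z := z) (t := S.h) (by simpa using hX) h3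
  have hn : ((b :: X) ++ c :: []).Nodup := by
    rw [List.nodup_append]
    refine ⟨List.nodup_cons.2 ⟨hbX, hX2.2⟩, List.nodup_singleton _, ?_⟩
    intro a ha d hd e
    rw [List.mem_singleton] at hd
    rw [hd] at e
    rw [e, List.mem_cons] at ha
    rcases ha with ha | ha
    · exact hbc ha.symm
    · exact hX2.1 ha
  have h5 := G.del (L := b :: X) (D := []) (x := c) hn (by simpa using h4)
  simpa using h5

variable [DecidableEq α]

theorem SpL.oE {P : List α} (hn : (P ++ X).Nodup) (hi : i ∈ X) (hV : V ∈ Sp (P ++ i :: X.erase i)) :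
    rm (oE S z X i) V ∈ Sp (P ++ X) := by
  obtain ⟨L, D, rfl, hL⟩ := split_of_mem hi
  rw [NUF.oE, below_split hL]
  rw [erase_split hL] at hV
  have hp : (P ++ i :: (L ++ D)).Nodup := by
    refine (List.Perm.nodup_iff ?_).1 hn
    exact List.Perm.append_left _ List.perm_middle
  simpa using G.line (z := z) (t := z i) hp hV

theorem SpL.oE0 (hn : X.Nodup) (hi : i ∈ X) (hV : V ∈ Sp (X.erase i)) :
    rm (NUF.oE S z X i) V ∈ Sp X := by
  have h1 : V ∈ Sp ([] ++ i :: X.erase i) :=
    G.ins (L := []) (D := X.erase i) (List.nodup_cons.2 ⟨hn.not_mem_erase, hn.erase _⟩)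
      (by simpa using hV)
  exact G.oE (P := []) (by simpa using hn) hi h1

theorem SpL.oE1 (hn : (b :: X).Nodup) (hi : i ∈ X) (hV : V ∈ Sp (b :: X.erase i)) :
    rm (NUF.oE S z X i) V ∈ Sp (b :: X) := by
  have hn1 := List.nodup_cons.1 hn
  have hib : b ≠ i := fun e => hn1.1 (e ▸ hi)
  have h0 : ([b] ++ i :: X.erase i).Nodup := by
    refine List.nodup_cons.2 ⟨?_, List.nodup_cons.2 ⟨hn1.2.not_mem_erase, hn1.2.erase _⟩⟩
    show b ∉ i :: X.erase i
    rw [List.mem_cons, not_or]
    exact ⟨hib, fun e => hn1.1 (List.mem_of_mem_erase e)⟩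
  have h1 : V ∈ Sp ([b] ++ i :: X.erase i) := G.ins (L := [b]) (D := X.erase i) h0 (by simpa using hV)
  exact G.oE (P := [b]) (by simpa using hn) hi h1

theorem SpL.oF (H : HLaws S cu w) (hn : (b :: X).Nodup) (hi : i ∈ X) (hV : V ∈ Sp (X.erase i)) :
    rm (NUF.oF S cu z b X i) V ∈ Sp (b :: X) := by
  have hn1 := List.nodup_cons.1 hn
  have hib : b ≠ i := fun e => hn1.1 (e ▸ hi)
  have h0 : ([] ++ b :: i :: X.erase i).Nodup := by
    refine List.nodup_cons.2 ⟨?_, List.nodup_cons.2 ⟨hn1.2.not_mem_erase, hn1.2.erase _⟩⟩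
    show b ∉ i :: X.erase i
    rw [List.mem_cons, not_or]
    exact ⟨hib, fun e => hn1.1 (List.mem_of_mem_erase e)⟩
  have h1 : V ∈ Sp ([] ++ i :: X.erase i) :=
    G.ins (L := []) (D := X.erase i) (List.nodup_cons.2 ⟨hn1.2.not_mem_erase, hn1.2.erase _⟩)
      (by simpa using hV)
  have h2 : V ∈ Sp ([] ++ b :: i :: X.erase i) := G.ins (L := []) (D := i :: X.erase i) h0 h1
  rw [NUF.oF, rm_mul, H.cus]
  exact G.oE (P := [b]) (by simpa using hn) hi (by simpa using G.cu h0 h2)

theorem SpL.oB {ok okK : ℂ → Prop} (W : Laws S ok okK) (hn : (b :: X).Nodup) (hi : i ∈ X)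
    (hV : V ∈ Sp (b :: X.erase i)) : rm (NUF.oB S z b X i) V ∈ Sp X := by
  have hn1 := List.nodup_cons.1 hn
  have hib : b ≠ i := fun e => hn1.1 (e ▸ hi)
  have h0 : ([] ++ b :: i :: X.erase i).Nodup := by
    refine List.nodup_cons.2 ⟨?_, List.nodup_cons.2 ⟨hn1.2.not_mem_erase, hn1.2.erase _⟩⟩
    show b ∉ i :: X.erase i
    rw [List.mem_cons, not_or]
    exact ⟨hib, fun e => hn1.1 (List.mem_of_mem_erase e)⟩
  rw [NUF.oB, rm_mul, W.Ps]
  have h2 : rm (S.P b i) V ∈ Sp ([] ++ i :: X.erase i) := G.P h0 (by simpa using hV)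
  exact G.oE (P := []) (by simpa using hn1.2) hi h2

end closure

/-! ### The frame -/

section frame

variable {ι α M : Type*} [LinearOrder ι] [DecidableEq α] [AddCommGroup M] [Module ℂ M]
  {S : Ops (Module.End ℂ M) α ℂ} {cu : α → α → Module.End ℂ M} {ok okK : ℂ → Prop}
  {Sp : List α → Submodule ℂ (Module.Dual ℂ M)} {z : α → ℂ} {s : ι → α} {b c : α}

/-- The weights. -/
noncomputable def hw : HW := ⟨Fr.ru1, Fr.ru2, Fr.rv, Fr.rw1⟩

omit [DecidableEq α] in
theorem lst_cons_nodup (hs : Function.Injective s) {X : Finset ι} (hb : ∀ i, s i ≠ b) :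
    (b :: lst s X).Nodup := by
  refine List.nodup_cons.2 ⟨?_, nodup_lst hs⟩
  rw [mem_lst]
  rintro ⟨i, _, e⟩
  exact hb i e

omit [DecidableEq α] in
theorem rm_pre3 {V : Module.Dual ℂ M} {i j k : α} {x y : Module.End ℂ M}
    (hi : rm (S.E i) V = V) (hj : rm (S.E j) V = V) (hk : rm (S.E k) V = V)
    (h : S.E i * S.E j * S.E k * x = S.E i * S.E j * S.E k * y) : rm x V = rm y V := by
  refine rm_pre h ?_
  rw [rm_mul, rm_mul, hi, hj, hk]

/-- **The frame of the half strip vectors.** -/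
noncomputable def frame (W : Laws S ok okK) (H : HLaws S cu hw) (G : SpL S cu Sp)
    (hok : ∀ u, EXL.Fm.Dn u ≠ 0 → ok u) (hs : Function.Injective s) (hb : ∀ i, s i ≠ b)
    (hc : ∀ i, s i ≠ c) (hbc : b ≠ c) (hD : ∀ i, EXL.Fm.Dn (S.h - z (s i)) ≠ 0)
    (hd : ∀ i j, i ≠ j → EXL.Fm.Dn (z (s i) - z (s j)) ≠ 0) :
    Fr.Frame ι (Module.Dual ℂ M) (fun i => S.h - z (s i)) where
  V0 X := Sp (lst s X)
  V1 X := Sp (b :: lst s X)
  T0 X := rm (hT0 S z c (lst s X))
  T1 X := rm (hT1 S cu z c b (lst s X))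
  E i X := rm (oE S z (lst s (insert i X)) (s i))
  F i X := rm (oF S cu z b (lst s (insert i X)) (s i))
  B i X := rm (oB S z b (lst s (insert i X)) (s i))
  mT0 {X v} hv := G.cT0 (lst_cons_nodup hs hc) hv
  mT1 {X v} hv := G.cT1 H (by
    refine List.nodup_cons.2 ⟨?_, lst_cons_nodup hs hc⟩
    rw [List.mem_cons, not_or]
    exact ⟨hbc, (List.nodup_cons.1 (lst_cons_nodup hs hb)).1⟩) hv
  mE0 {i X v} hi hv := G.oE0 (nodup_lst hs) ((mem_lst' hs).2 (by simp)) (by rwa [erase_lst hs hi])
  mE1 {i X v} hi hv := G.oE1 (lst_cons_nodup hs hb) ((mem_lst' hs).2 (by simp))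
    (by rwa [erase_lst hs hi])
  mF {i X v} hi hv := G.oF H (lst_cons_nodup hs hb) ((mem_lst' hs).2 (by simp))
    (by rwa [erase_lst hs hi])
  mB {i X v} hi hv := G.oB W (lst_cons_nodup hs hb) ((mem_lst' hs).2 (by simp))
    (by rwa [erase_lst hs hi])
  c1 {i X v} hi hv _ := by
    have o : ∀ {a}, a ∉ lst s X → rm (S.E a) v = v := fun h => G.out h hv
    have hbX : ∀ Y : Finset ι, b ∉ lst s Y := fun Y => (List.nodup_cons.1 (lst_cons_nodup hs hb)).1
    have hcX : ∀ Y : Finset ι, c ∉ lst s Y := fun Y => (List.nodup_cons.1 (lst_cons_nodup hs hc)).1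
    have hiY : s i ∈ lst s (insert i X) := (mem_lst' hs).2 (by simp)
    have hr : ∀ r ∈ below (lst s (insert i X)) (s i), ok (S.h - z r) := by
      intro r hr
      obtain ⟨k, _, rfl⟩ := mem_lst.1 (below_subset _ hr).1
      exact hok _ (hD k)
    have hr' : ∀ r ∈ below (lst s (insert i X)) (s i), ok (z (s i) - z r) := by
      intro r hr
      obtain ⟨k, _, rfl⟩ := mem_lst.1 (below_subset _ hr).1
      exact hok _ (hd i k fun e => (below_subset _ hr).2 (by rw [e]))
    have key := H.c1 W (z := z) (nodup_lst hs) hiY (hbX _) (hcX _) hbc (hok _ (hD i)) hr hr'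
    rw [← rm_mul, rm_pre3 (o (fun e => hi ((mem_lst' hs).1 e))) (o (hbX _)) (o (hcX _)) key,
      erase_lst hs hi, rm_add, rm_smul, rm_mul, rm_mul]
    rfl
  c2 {i X v} hi hv _ := by
    have o : ∀ {a}, a ∉ lst s X → rm (S.E a) v = v := fun h => G.out h hv
    have hbX : ∀ Y : Finset ι, b ∉ lst s Y := fun Y => (List.nodup_cons.1 (lst_cons_nodup hs hb)).1
    have hcX : ∀ Y : Finset ι, c ∉ lst s Y := fun Y => (List.nodup_cons.1 (lst_cons_nodup hs hc)).1
    have hiY : s i ∈ lst s (insert i X) := (mem_lst' hs).2 (by simp)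
    have hr : ∀ r ∈ below (lst s (insert i X)) (s i), ok (S.h - z r) := by
      intro r hr
      obtain ⟨k, _, rfl⟩ := mem_lst.1 (below_subset _ hr).1
      exact hok _ (hD k)
    have hr' : ∀ r ∈ below (lst s (insert i X)) (s i), ok (z (s i) - z r) := by
      intro r hr
      obtain ⟨k, _, rfl⟩ := mem_lst.1 (below_subset _ hr).1
      exact hok _ (hd i k fun e => (below_subset _ hr).2 (by rw [e]))
    have key := H.c2 W (z := z) (nodup_lst hs) hiY (hbX _) (hcX _) hbc (hok _ (hD i)) hr hr'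
    rw [← rm_mul, rm_pre3 (o (fun e => hi ((mem_lst' hs).1 e))) (o (hbX _)) (o (hcX _)) key,
      erase_lst hs hi, rm_add, rm_smul, rm_smul, rm_mul, rm_mul]
    rfl
  c3' {i X v} hi hv _ := by
    have o : ∀ {a}, a ∉ lst s X → rm (S.E a) v = v := fun h => G.out h hv
    have hbX : ∀ Y : Finset ι, b ∉ lst s Y := fun Y => (List.nodup_cons.1 (lst_cons_nodup hs hb)).1
    have hcX : ∀ Y : Finset ι, c ∉ lst s Y := fun Y => (List.nodup_cons.1 (lst_cons_nodup hs hc)).1
    have hiY : s i ∈ lst s (insert i X) := (mem_lst' hs).2 (by simp)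
    have hr : ∀ r ∈ below (lst s (insert i X)) (s i), ok (S.h - z r) := by
      intro r hr
      obtain ⟨k, _, rfl⟩ := mem_lst.1 (below_subset _ hr).1
      exact hok _ (hD k)
    have hr' : ∀ r ∈ below (lst s (insert i X)) (s i), ok (z (s i) - z r) := by
      intro r hr
      obtain ⟨k, _, rfl⟩ := mem_lst.1 (below_subset _ hr).1
      exact hok _ (hd i k fun e => (below_subset _ hr).2 (by rw [e]))
    have key := H.c3 W (z := z) (nodup_lst hs) hiY (hbX _) (hcX _) hbc (hok _ (hD i)) hr hr'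
    rw [← rm_mul, rm_pre3 (o (fun e => hi ((mem_lst' hs).1 e))) (o (hbX _)) (o (hcX _)) key,
      erase_lst hs hi, rm_add, rm_smul, rm_smul, rm_mul, rm_mul]
    rfl
  c4 {p i X v} hi hp hv _ _ := by
    have o : ∀ {a}, a ∉ lst s X → rm (S.E a) v = v := fun h => G.out h hv
    have hbX : ∀ Y : Finset ι, b ∉ lst s Y := fun Y => (List.nodup_cons.1 (lst_cons_nodup hs hb)).1
    have hcX : ∀ Y : Finset ι, c ∉ lst s Y := fun Y => (List.nodup_cons.1 (lst_cons_nodup hs hc)).1
    have hr : ∀ (Y : Finset ι) (i : ι), ∀ r ∈ below (lst s (insert i Y)) (s i), ok (S.h - z r) := by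
      intro Y i r hr
      obtain ⟨k, _, rfl⟩ := mem_lst.1 (below_subset _ hr).1
      exact hok _ (hD k)
    have hr' : ∀ (Y : Finset ι) (i : ι), ∀ r ∈ below (lst s (insert i Y)) (s i),
        ok (z (s i) - z r) := by
      intro Y i r hr
      obtain ⟨k, _, rfl⟩ := mem_lst.1 (below_subset _ hr).1
      exact hok _ (hd i k fun e => (below_subset _ hr).2 (by rw [e]))
    have hiY : s i ∈ lst s (insert i X) := (mem_lst' hs).2 (by simp)
    have hpY : s p ∈ lst s (insert p (insert i X)) := (mem_lst' hs).2 (by simp)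
    have hib : s i ≠ b := hb i
    have hcb : c ≠ b := hbc.symm
    -- the vector with the leg
    have hV1 : rm (oF S cu z b (lst s (insert i X)) (s i)) v ∈ Sp (b :: lst s (insert i X)) :=
      G.oF H (lst_cons_nodup hs hb) hiY (by rwa [erase_lst hs hi])
    have ob : rm (1 - S.E b) (rm (oF S cu z b (lst s (insert i X)) (s i)) v) =
        rm (oF S cu z b (lst s (insert i X)) (s i)) v := by
      have e : oF S cu z b (lst s (insert i X)) (s i) * S.E b = 0 := by
        rw [oF, mul_assoc, (HLaws.oE_E W hib.symm (hbX _)).eq, ← mul_assoc, H.cus,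
          H.cuE0 hib.symm, zero_mul]
      rw [rm_sub, rm_one, ← rm_mul, e]
      ext F
      simp [rm_apply]
    have k4 := H.c4 W (z := z) (nodup_lst hs) hpY (hbX _) (hcX _) hbc (hok _ (hD p)) (hr _ _)
      (hr' _ _)
    have k5 := H.c5 W (z := z) (nodup_lst hs) hiY (hbX _) (hcX _) hbc (hok _ (hD i)) (hr _ _)
      (hr' _ _)
    rw [← mul_smul_comm] at k5
    have q5 := rm_pre3 (o (fun e => hi ((mem_lst' hs).1 e))) (o (hbX _)) (o (hcX _)) k5
    rw [rm_mul, rm_smul, rm_mul, erase_lst hs hi] at q5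
    have hpo : s p ∉ b :: lst s (insert i X) := by
      rw [List.mem_cons, not_or]
      exact ⟨hb p, fun e => hp ((mem_lst' hs).1 e)⟩
    have hco : c ∉ b :: lst s (insert i X) := by
      rw [List.mem_cons, not_or]
      exact ⟨hcb, hcX _⟩
    have hpre : rm (S.E (s p) * (1 - S.E b) * S.E c)
        (rm (oF S cu z b (lst s (insert i X)) (s i)) v) =
        rm (oF S cu z b (lst s (insert i X)) (s i)) v := by
      rw [rm_mul, rm_mul, G.out hpo hV1, ob, G.out hco hV1]
    have q4 := rm_pre k4 hpre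
    rw [rm_mul, erase_lst hs hp, rm_add, rm_smul, rm_smul, rm_mul, rm_mul, q5, map_smul,
      smul_smul] at q4
    exact q4
  x1 {i j X v} hi hj hij hv _ := by
    have o : ∀ {a}, a ∉ lst s X → rm (S.E a) v = v := fun h => G.out h hv
    have hbX : ∀ Y : Finset ι, b ∉ lst s Y := fun Y => (List.nodup_cons.1 (lst_cons_nodup hs hb)).1
    have hiY : s i ∈ lst s (insert i (insert j X)) := (mem_lst' hs).2 (by simp)
    have hjY : s j ∈ lst s (insert i (insert j X)) := (mem_lst' hs).2 (by simp)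
    have hi' : i ∉ insert j X := by simp [hij, hi]
    have hj' : j ∉ insert i X := by simp [hij.symm, hj]
    have e1 : (lst s (insert i (insert j X))).erase (s i) = lst s (insert j X) := erase_lst hs hi'
    have e2 : (lst s (insert i (insert j X))).erase (s j) = lst s (insert i X) := by
      rw [Finset.insert_comm]; exact erase_lst hs hj'
    have hh : ∀ r ∈ lst s (insert i (insert j X)), ∀ t ∈ lst s (insert i (insert j X)), r ≠ t →
        ok (z r - z t) := by
      intro r hr t ht hrt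
      obtain ⟨k, _, rfl⟩ := mem_lst.1 hr
      obtain ⟨m, _, rfl⟩ := mem_lst.1 ht
      exact hok _ (hd k m fun e => hrt (by rw [e]))
    have key := H.xEF W (z := z) (nodup_lst hs) hiY hjY (fun e => hij (hs e)) (hbX _) hh
    have q := rm_pre3 (o (fun e => hi ((mem_lst' hs).1 e))) (o (fun e => hj ((mem_lst' hs).1 e)))
      (o (hbX _)) key
    rw [rm_mul, rm_add, rm_smul, rm_smul, rm_mul, rm_mul, e1, e2] at q
    rw [q, sub_sub_sub_cancel_left, Finset.insert_comm i j X]
    rfl
  x2 {i j X v} hi hj hij hv _ := by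
    have o : ∀ {a}, a ∉ lst s X → rm (S.E a) v = v := fun h => G.out h hv
    have hbX : ∀ Y : Finset ι, b ∉ lst s Y := fun Y => (List.nodup_cons.1 (lst_cons_nodup hs hb)).1
    have hiY : s i ∈ lst s (insert i (insert j X)) := (mem_lst' hs).2 (by simp)
    have hjY : s j ∈ lst s (insert i (insert j X)) := (mem_lst' hs).2 (by simp)
    have hi' : i ∉ insert j X := by simp [hij, hi]
    have hj' : j ∉ insert i X := by simp [hij.symm, hj]
    have e1 : (lst s (insert i (insert j X))).erase (s i) = lst s (insert j X) := erase_lst hs hi'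
    have e2 : (lst s (insert i (insert j X))).erase (s j) = lst s (insert i X) := by
      rw [Finset.insert_comm]; exact erase_lst hs hj'
    have hh : ∀ r ∈ lst s (insert i (insert j X)), ∀ t ∈ lst s (insert i (insert j X)), r ≠ t →
        ok (z r - z t) := by
      intro r hr t ht hrt
      obtain ⟨k, _, rfl⟩ := mem_lst.1 hr
      obtain ⟨m, _, rfl⟩ := mem_lst.1 ht
      exact hok _ (hd k m fun e => hrt (by rw [e]))
    have key := H.xFE W (z := z) (nodup_lst hs) hiY hjY (fun e => hij (hs e)) (hbX _) hh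
    have q := rm_pre3 (o (fun e => hi ((mem_lst' hs).1 e))) (o (fun e => hj ((mem_lst' hs).1 e)))
      (o (hbX _)) key
    rw [rm_mul, rm_add, rm_smul, rm_smul, rm_mul, rm_mul, e1, e2] at q
    rw [q, sub_sub_sub_cancel_left, Finset.insert_comm i j X]
    rfl
  x3 {i j X v} hi hj hij hv _ := by
    have o : ∀ {a}, a ∉ lst s X → rm (S.E a) v = v := fun h => G.out h hv
    have hbX : ∀ Y : Finset ι, b ∉ lst s Y := fun Y => (List.nodup_cons.1 (lst_cons_nodup hs hb)).1
    have hiY : s i ∈ lst s (insert i (insert j X)) := (mem_lst' hs).2 (by simp)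
    have hjY : s j ∈ lst s (insert i (insert j X)) := (mem_lst' hs).2 (by simp)
    have hi' : i ∉ insert j X := by simp [hij, hi]
    have hj' : j ∉ insert i X := by simp [hij.symm, hj]
    have e1 : (lst s (insert i (insert j X))).erase (s i) = lst s (insert j X) := erase_lst hs hi'
    have e2 : (lst s (insert i (insert j X))).erase (s j) = lst s (insert i X) := by
      rw [Finset.insert_comm]; exact erase_lst hs hj'
    have hh : ∀ r ∈ lst s (insert i (insert j X)), ∀ t ∈ lst s (insert i (insert j X)), r ≠ t →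
        ok (z r - z t) := by
      intro r hr t ht hrt
      obtain ⟨k, _, rfl⟩ := mem_lst.1 hr
      obtain ⟨m, _, rfl⟩ := mem_lst.1 ht
      exact hok _ (hd k m fun e => hrt (by rw [e]))
    have key := H.xC W (z := z) (nodup_lst hs) hiY hjY (fun e => hij (hs e)) (hbX _) hh
    rw [← mul_smul_comm] at key
    have q := rm_pre3 (o (fun e => hi ((mem_lst' hs).1 e))) (o (fun e => hj ((mem_lst' hs).1 e)))
      (o (hbX _)) key
    rw [oC, oC, rm_mul, rm_smul, rm_mul, e1, e2] at q
    rw [q, sub_sub_sub_cancel_left, Finset.insert_comm i j X]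
    rfl

end frame

end Pool.Agent.NUF
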