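import Pool.Agent.NUF.HalfS

/-!
# The frame of the loop gas on unlabelled states
-/

set_option autoImplicit false

namespace Pool.Agent.NUF

open EXL EXL.Pat EXL.HS

variable {ι α : Type*} [LinearOrder ι] [DecidableEq α]

/-- Regular rapidities. -/
structure RegS (z : α → ℂ) (s : ι → α) : Prop where
  D : ∀ i, EXL.Fm.Dn (3 * Real.pi / 16 - z (s i)) ≠ 0
  d : ∀ i j, i ≠ j → EXL.Fm.Dn (z (s i) - z (s j)) ≠ 0

/-- The sites of the rows `s`, of the leg `b` and of the column `c`. -/
structure Sites (s : ι → α) (b c : α) : Prop where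
  inj : Function.Injective s
  nb : ∀ i, s i ≠ b
  nc : ∀ i, s i ≠ c
  bc : b ≠ c

/-- **The frame of the loop gas on unlabelled states.** -/
noncomputable def uframe {z : α → ℂ} {s : ι → α} {b c : α} (hs : Sites s b c) (hz : RegS z s) :
    Fr.Frame ι (Module.Dual ℂ (Pat α → ℂ)) (fun i => (uops (ι := α)).h - z (s i)) :=
  frame ulaws uhlaws uspl (fun u hu => (EXL.Fm.okR_iff u).2 hu) hs.inj hs.nb hs.nc hs.bc hz.D hz.d

variable {z : α → ℂ} {s : ι → α} {b c : α} (hs : Sites s b c) (hz : RegS z s) {X : Finset ι} {i : ι}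
  (V : Module.Dual ℂ (Pat α → ℂ))

theorem uframe_V0 : (uframe hs hz).V0 X = spU (lst s X) := rfl

theorem uframe_V1 : (uframe hs hz).V1 X = spU (b :: lst s X) := rfl

theorem uframe_T0 : (uframe hs hz).T0 X V = V ∘ₗ T0 z c (lst s X) := rfl

theorem uframe_T1 : (uframe hs hz).T1 X V =
    V ∘ₗ hT1 uops (fun i j => opCu ℂ i j) z c b (lst s X) := rfl

theorem uframe_E : (uframe hs hz).E i X V = V ∘ₗ oE uops z (lst s (insert i X)) (s i) := rfl

theorem uframe_F : (uframe hs hz).F i X V =
    V ∘ₗ oF uops (fun i j => opCu ℂ i j) z b (lst s (insert i X)) (s i) := rfl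

theorem uframe_B : (uframe hs hz).B i X V = V ∘ₗ oB uops z b (lst s (insert i X)) (s i) := rfl

/-- The value at the indicator of the empty state. -/
noncomputable def evE : Module.Dual ℂ (Pat α → ℂ) →ₗ[ℂ] ℂ :=
  LinearMap.applyₗ (ind (Pat.empty : Pat α) : Pat α → ℂ)

omit [DecidableEq α] in
theorem evE_apply : evE V = V (ind Pat.empty) := rfl

theorem evE_T0 : evE ((uframe hs hz).T0 X V) = evE V := by
  rw [uframe_T0, evE_apply, evE_apply, LinearMap.comp_apply]
  congr 1
  exact hT0_ind fun h => by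
    obtain ⟨k, _, e⟩ := mem_lst.1 h
    exact hs.nc k e

theorem evE_T1 : evE ((uframe hs hz).T1 X V) = 0 := by
  rw [uframe_T1, evE_apply, LinearMap.comp_apply, hT1_ind ?_ hs.bc.symm, map_zero]
  intro h
  obtain ⟨k, _, e⟩ := mem_lst.1 h
  exact hs.nc k e

theorem evE_E : evE ((uframe hs hz).E i X V) = evE V := by
  rw [uframe_E, evE_apply, evE_apply, LinearMap.comp_apply, oE_ind]

theorem evE_F : evE ((uframe hs hz).F i X V) = 0 := by
  rw [uframe_F, evE_apply, LinearMap.comp_apply, oF_ind (hs.nb i), map_zero]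

theorem evE_B : evE ((uframe hs hz).B i X V) = evE V := by
  rw [uframe_B, evE_apply, evE_apply, LinearMap.comp_apply, oB_ind]

end Pool.Agent.NUF
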