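import Pool.Agent.NUF.Cl
import Pool.Agent.EXL.Col

/-!
# The loop gas on unlabelled states

`uops` = the local operators of the loop gas on functions of unlabelled states on the set of labels (the closed
loops have weight 0); `ulaws` = their laws.  `T0 z c X` = the ordinary column through the rows of the list `X`
(the first row is the lowest one).
-/

set_option autoImplicit false

namespace Pool.Agent.NUF

open EXL (okR okC LabMap ops mk)

section rel

variable {ι β : Type*} [DecidableEq ι] [DecidableEq β] {φ : ι → β} (hφ : Function.Injective φ)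

include hφ in
/-- The operators with ends act on the states with joined ends like the words of the loop gas. -/
theorem opsRel_w : EXL.Glob.OpsRel (fun X (w : Wd ℂ ι) => RelC φ X w) (ops (LM ι β φ hφ)) cw where
  l := rfl
  h := rfl
  p := rfl
  q := rfl
  R i j u := by
    by_cases h : i = j
    · subst h
      rw [EXL.ops_R0]
      show RelC φ 0 (if i = i then 0 else _)
      rw [if_pos rfl]
      exact RelC.zero
    · rw [EXL.ops_R h]
      show RelC φ _ (if i = j then 0 else _)
      rw [if_neg h]
      exact (RelC.word _).congr fun G q => by rw [rep0_R _ _ (by simpa using fun e => h (hφ e))]; rfl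
  P i j := (RelC.word (wsw i j)).congr fun G q => by rw [rep0_sw']; rfl
  E i := (RelC.word (we i)).congr fun G q => by rw [rep0_emp]; rfl
  b i j v := by
    by_cases h : i = j
    · subst h
      rw [EXL.ops_b0]
      show RelC φ 0 (if i = i then 0 else _)
      rw [if_pos rfl]
      exact RelC.zero
    · rw [EXL.ops_b h]
      show RelC φ _ (if i = j then 0 else _)
      rw [if_neg h]
      refine (RelC.word _).congr fun G q => ?_
      rw [wbot, map_add, map_mul, map_smul, rep0_e, rep0_e, rep0_cu]
      show EXL.bot _ _ (Sum.inl (φ i)) (Sum.inl (φ j)) (Sum.inr false) G (hat q) = _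
      have hb : hat q (Sum.inr false) ≠ Sum.inr false := by rw [hat_inr]; simp
      simp only [LinearMap.add_apply, Module.End.mul_apply, LinearMap.smul_apply, Pi.add_apply,
        Pi.smul_apply, smul_eq_mul, EXL.opE_apply, EXL.opCu_apply, EXL.bot, EXL.Pat.CuOK]
      by_cases h1 : hat q (Sum.inl (φ i)) = Sum.inl (φ i) <;>
        by_cases h2 : hat q (Sum.inl (φ j)) = Sum.inl (φ j) <;> simp [h1, h2, hb]
  t i j v := by
    by_cases h : i = j
    · subst h
      rw [EXL.ops_t0]
      show RelC φ 0 (if i = i then 0 else _)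
      rw [if_pos rfl]
      exact RelC.zero
    · rw [EXL.ops_t h]
      show RelC φ _ (if i = j then 0 else _)
      rw [if_neg h]
      refine (RelC.word _).congr fun G q => ?_
      rw [wtop, map_add, map_mul, map_smul, rep0_e, rep0_e, rep0_ct]
      show EXL.top _ _ (Sum.inl (φ i)) (Sum.inl (φ j)) (Sum.inr true) G (hat q) = _
      have hb : hat q (Sum.inr true) ≠ Sum.inr true := by rw [hat_inr]; simp
      have hij : (Sum.inl (φ i) : β ⊕ Bool) ≠ Sum.inl (φ j) := by simpa using fun e => h (hφ e)
      simp only [LinearMap.add_apply, Module.End.mul_apply, LinearMap.smul_apply, Pi.add_apply,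
        Pi.smul_apply, smul_eq_mul, EXL.opE_apply, EXL.opCt_apply, EXL.top, EXL.Pat.CtOK]
      by_cases h1 : hat q (Sum.inl (φ i)) = Sum.inl (φ i)
      · by_cases h2 : hat q (Sum.inl (φ j)) = Sum.inl (φ j) <;> simp [h1, h2, hb]
      · by_cases h2 : hat q (Sum.inl (φ j)) = Sum.inl (φ j)
        · simp [h1, h2, hb]
        · by_cases h3 : hat q (Sum.inl (φ i)) = Sum.inl (φ j)
          · simp [h1, h2, h3, hb]
          · simp [h1, h2, h3, hij]
  bc i := by
    refine (RelC.word (we i)).congr fun G q => ?_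
    rw [rep0_emp]
    show EXL.bc (Sum.inl (φ i)) (Sum.inr false) G (hat q) = _
    have hb : hat q (Sum.inr false) ≠ Sum.inr false := by rw [hat_inr]; simp
    simp only [EXL.bc, EXL.emp, if_neg hb]
  tc i := by
    refine (RelC.word (we i)).congr fun G q => ?_
    rw [rep0_emp]
    show EXL.tc (Sum.inl (φ i)) (Sum.inr true) G (hat q) = _
    have hb : hat q (Sum.inr true) ≠ Sum.inr true := by rw [hat_inr]; simp
    simp only [EXL.tc, EXL.emp, if_neg hb]
  glue i j := by
    by_cases h : i = j
    · subst h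
      rw [EXL.ops_glue0]
      show RelC φ 0 (if i = i then 0 else _)
      rw [if_pos rfl]
      exact RelC.zero
    · rw [EXL.ops_glue h]
      show RelC φ _ (if i = j then 0 else _)
      rw [if_neg h]
      exact (RelC.word _).congr fun G q => by
        rw [rep0_glue _ (by simpa using fun e => h (hφ e))]; rfl
  U i j := by
    by_cases h : i = j
    · subst h
      rw [EXL.ops_U0]
      show RelC φ 0 (if i = i then 0 else _)
      rw [if_pos rfl]
      exact RelC.zero
    · rw [EXL.ops_U h]
      show RelC φ _ (if i = j then 0 else _)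
      rw [if_neg h]
      exact (RelC.word _).congr fun G q => by rw [rep0_U]; rfl
  Y i j := by
    by_cases h : i = j
    · subst h
      rw [EXL.ops_Y0]
      show RelC φ 0 (if i = i then 0 else _)
      rw [if_pos rfl]
      exact RelC.zero
    · rw [EXL.ops_Y h]
      show RelC φ _ (if i = j then 0 else _)
      rw [if_neg h]
      exact (RelC.word _).congr fun G q => by rw [rep0_Y]; rfl
  Yt i j := by
    by_cases h : i = j
    · subst h
      rw [EXL.ops_Yt0]
      show RelC φ 0 (if i = i then 0 else _)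
      rw [if_pos rfl]
      exact RelC.zero
    · rw [EXL.ops_Yt h]
      show RelC φ _ (if i = j then 0 else _)
      rw [if_neg h]
      exact (RelC.word _).congr fun G q => by
        rw [rep0_Yt _ _ (by simpa using fun e => h (hφ e))]; rfl
  Z i := (RelC.word (wsg i)).congr fun G q => by rw [rep0_sg]; rfl

end rel

section uops

variable {ι : Type*} [DecidableEq ι]

/-- **The operators of the loop gas** on functions of unlabelled states (the closed loops have weight 0). -/
noncomputable def uops : EXL.Glob.Ops (Module.End ℂ (EXL.Pat ι → ℂ)) ι ℂ where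
  l := cw (ι := ι).l
  h := cw (ι := ι).h
  R i j u := rep0 ℂ id (cw.R i j u)
  P i j := rep0 ℂ id (cw.P i j)
  E i := rep0 ℂ id (cw.E i)
  b i j v := rep0 ℂ id (cw.b i j v)
  t i j v := rep0 ℂ id (cw.t i j v)
  bc i := rep0 ℂ id (cw.bc i)
  tc i := rep0 ℂ id (cw.tc i)
  glue i j := rep0 ℂ id (cw.glue i j)
  U i j := rep0 ℂ id (cw.U i j)
  Y i j := rep0 ℂ id (cw.Y i j)
  Yt i j := rep0 ℂ id (cw.Yt i j)
  Z i := rep0 ℂ id (cw.Z i)
  p := cw (ι := ι).p
  q := cw (ι := ι).q

/-- `X` = the operator with ends, `Y` = the operator of the loop gas. -/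
def UC (X : Module.End ℂ (EXL.Pat (ι ⊕ Bool) → ℂ)) (Y : Module.End ℂ (EXL.Pat ι → ℂ)) : Prop :=
  ∃ w : Wd ℂ ι, RelC id X w ∧ Y = rep0 ℂ id w

theorem relM_UC : EXL.Glob.RelM (UC (ι := ι)) where
  one := ⟨1, RelC.one, by rw [map_one]⟩
  mul := by
    rintro a a' b b' ⟨w, h1, rfl⟩ ⟨v, h2, rfl⟩
    exact ⟨w * v, h1.mul h2, by rw [map_mul]⟩
  inj := by
    rintro a a' b b' ⟨w, h1, rfl⟩ ⟨v, h2, rfl⟩ rfl
    refine LinearMap.ext fun H => ?_
    funext q
    classical
    let G : EXL.Pat (ι ⊕ Bool) → ℂ := fun Q => if h : ∃ q, hat q = Q then H h.choose else 0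
    have hG : ∀ q, G (hat q) = H q := by
      intro q
      have hex : ∃ q', hat q' = hat q := ⟨q, rfl⟩
      show (if h : ∃ q', hat q' = hat q then H h.choose else 0) = H q
      rw [dif_pos hex]
      congr 1
      have h3 := hex.choose_spec
      ext x
      have h4 : hat hex.choose (Sum.inl x) = hat q (Sum.inl x) := by rw [h3]
      rw [hat_inl, hat_inl] at h4
      exact Sum.inl.inj h4
    rw [← h1 G H hG q, ← h2 G H hG q]

theorem opsRel_UC : EXL.Glob.OpsRel (UC (ι := ι)) (ops (LM ι ι id Function.injective_id)) uops := by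
  have h := opsRel_w (ι := ι) (φ := id) Function.injective_id
  exact { l := rfl
          h := rfl
          p := rfl
          q := rfl
          R := fun i j u => ⟨_, h.R i j u, rfl⟩
          P := fun i j => ⟨_, h.P i j, rfl⟩
          E := fun i => ⟨_, h.E i, rfl⟩
          b := fun i j v => ⟨_, h.b i j v, rfl⟩
          t := fun i j v => ⟨_, h.t i j v, rfl⟩
          bc := fun i => ⟨_, h.bc i, rfl⟩
          tc := fun i => ⟨_, h.tc i, rfl⟩
          glue := fun i j => ⟨_, h.glue i j, rfl⟩
          U := fun i j => ⟨_, h.U i j, rfl⟩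
          Y := fun i j => ⟨_, h.Y i j, rfl⟩
          Yt := fun i j => ⟨_, h.Yt i j, rfl⟩
          Z := fun i => ⟨_, h.Z i, rfl⟩ }

/-- **The laws of the loop gas on unlabelled states.** -/
theorem ulaws : EXL.Glob.Laws (uops (ι := ι)) okR okC :=
  EXL.Glob.Laws.rel relM_UC opsRel_UC (EXL.Ins.laws _)

variable {i j : ι} {u : ℂ}

theorem uops_h : (uops (ι := ι)).h = 3 * Real.pi / 16 := rfl

theorem uops_l : (uops (ι := ι)).l = Real.pi / 8 := rfl

theorem uops_R (h : i ≠ j) : uops.R i j u = mk (EXL.R (EXL.rwt u) i j) (EXL.lin_R _ _ _) := by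
  refine LinearMap.ext fun F => ?_
  show rep0 ℂ id (if i = j then 0 else wR (EXL.rwt u) i j) F = _
  rw [if_neg h, rep0_R _ _ h]
  rfl

theorem uops_R_apply (h : i ≠ j) (F : EXL.Pat ι → ℂ) :
    uops.R i j u F = EXL.R (EXL.rwt u) i j F := by
  rw [uops_R h]
  rfl

theorem uops_E_apply (F : EXL.Pat ι → ℂ) : uops.E i F = EXL.emp i F := rep0_emp _ _ _

theorem uops_bc : uops.bc i = uops.E i := rfl

theorem uops_tc : uops.tc i = uops.E i := rfl

theorem uops_P_apply (F : EXL.Pat ι → ℂ) : uops.P i j F = EXL.sw i j F := rep0_sw' _ _ _ _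

theorem uops_U_apply (h : i ≠ j) (F : EXL.Pat ι → ℂ) : uops.U i j F = EXL.U i j F := by
  show rep0 ℂ id (if i = j then 0 else wU i j) F = _
  rw [if_neg h, rep0_U]
  rfl

theorem uops_glue_apply (h : i ≠ j) (F : EXL.Pat ι → ℂ) : uops.glue i j F = EXL.glue i j F := by
  show rep0 ℂ id (if i = j then 0 else wglue i j) F = _
  rw [if_neg h, rep0_glue _ h]
  rfl

theorem uops_M_apply (z : ι → ℂ) {c : ι} (w : ℂ) {X : List ι} (hc : c ∉ X) (F : EXL.Pat ι → ℂ) :
    uops.M z c w X F = EXL.M (fun j => EXL.rwt (w - z j)) c X F := by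
  induction X with
  | nil => rfl
  | cons r X ih =>
    have hcr : c ≠ r := fun e => hc (by simp [e])
    rw [EXL.Glob.Ops.M_cons, Module.End.mul_apply, ih (fun h => hc (by simp [h])), uops_R_apply hcr]
    rfl

/-- The column through the rows of the list `X`, the auxiliary line is `c`. -/
noncomputable def T0 (z : ι → ℂ) (c : ι) (X : List ι) : Module.End ℂ (EXL.Pat ι → ℂ) :=
  uops.E c * uops.M z c (uops (ι := ι)).h X * uops.E c

theorem T0_eq_C (z : ι → ℂ) (c : ι) (X : List ι) : T0 z c X = uops.C z c X := by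
  unfold T0 EXL.Glob.Ops.C
  rw [uops_bc, uops_tc]

theorem T0_apply (z : ι → ℂ) {c : ι} {X : List ι} (hc : c ∉ X) (F : EXL.Pat ι → ℂ) :
    T0 z c X F = EXL.emp c (EXL.M (fun j => EXL.rwt (3 * Real.pi / 16 - z j)) c X (EXL.emp c F)) := by
  unfold T0
  rw [Module.End.mul_apply, Module.End.mul_apply, uops_E_apply, uops_M_apply _ _ hc, uops_E_apply]
  rfl

end uops

end Pool.Agent.NUF
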