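import Pool.Agent.NUF.HalfF
import Pool.Agent.NUF.UOps
import Pool.Agent.EXL.FormInst

/-!
# The laws of the creation of an arc for the loop gas on unlabelled states
-/

set_option autoImplicit false

namespace Pool.Agent.NUF

open EXL EXL.Pat

section weights

theorem rwt_u1 (u : ℂ) : (rwt u).u1 = Fr.ru1 u := by
  rw [Fm.rwt_eq, Fm.Wc, Wt.sc, Fm.Wn, Fr.ru1, Fr.s2, Fr.fa', div_eq_inv_mul]

theorem rwt_u2 (u : ℂ) : (rwt u).u2 = Fr.ru2 u := by
  rw [Fm.rwt_eq, Fm.Wc, Wt.sc, Fm.Wn, Fr.ru2, Fr.s2, Fr.fa, div_eq_inv_mul]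

theorem rwt_v (u : ℂ) : (rwt u).v = Fr.rv u := by
  rw [Fm.rwt_eq, Fm.Wc, Wt.sc, Fm.Wn, Fr.rv, Fr.fa, Fr.fa', div_eq_inv_mul]

theorem rwt_w1 (u : ℂ) : (rwt u).w1 = Fr.rw1 u := by
  rw [Fm.rwt_eq, Fm.Wc, Wt.sc, Fm.Wn, Fr.rw1, div_eq_inv_mul, Fm.Dn, Fm.Dn, sub_eq_add_neg,
    sub_eq_add_neg]

end weights

variable {ι : Type*} [DecidableEq ι] {i j k m : ι} {u : ℂ}

theorem uops_E : (uops (ι := ι)).E i = opE ℂ i := rep0_e _ _

theorem uops_P : (uops (ι := ι)).P i j = opSw ℂ i j := rep0_sw _ _ _

theorem uops_R0 : (uops (ι := ι)).R i i u = 0 := by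
  show rep0 ℂ id (if i = i then 0 else wR (EXL.rwt u) i i) = 0
  rw [if_pos rfl, map_zero]

theorem uops_R_loc (h : i ≠ j) : (uops (ι := ι)).R i j u ∈ Loc ℂ ({i, j} : Set ι) := by
  obtain ⟨L, hL, hR⟩ := R_isLoc (K := ℂ) (rwt u) h
  have e : (uops (ι := ι)).R i j u = L := by
    refine LinearMap.ext fun F => ?_
    rw [uops_R_apply h, hR]
  rw [e]
  exact hL

theorem opCu_comm : opCu ℂ i j = opCu ℂ j i := by
  refine LinearMap.ext fun F => ?_
  funext p
  rw [opCu_apply, opCu_apply]
  have e : cup i j p = cup j i p := by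
    ext x
    simp only [cup]
    grind
  simp only [CuOK, e, and_comm]

/-- **The laws of the creation of an arc.** -/
theorem uhlaws : HLaws (uops (ι := ι)) (fun i j => opCu ℂ i j) hw where
  cuR {i j k m u} h1 h2 h3 h4 := by
    by_cases h : k = m
    · subst h
      rw [uops_R0]
      exact Commute.zero_right _
    · refine Loc.commute ?_ (Loc.cu (S := {i, j}) (by simp) (by simp)) (uops_R_loc h)
      rw [Set.disjoint_left]
      rintro a (rfl | rfl) (hb | hb)
      · exact h1 hb
      · exact h2 hb
      · exact h3 hb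
      · exact h4 hb
  cuE {i j k} h1 h2 := by
    rw [uops_E]
    exact (EXL.comm_E_Cu h1.symm h2.symm).symm
  cus := opCu_comm
  Ecu {i j} h := by
    rw [uops_E]
    refine LinearMap.ext fun F => ?_
    funext p
    rw [Module.End.mul_apply, opE_apply, opCu_apply]
    split_ifs with h1 h2 h2
    · rfl
    · rfl
    · exact absurd h2.1 h1
    · rfl
  cuE0 {i j} h := by
    rw [uops_E]
    refine LinearMap.ext fun F => ?_
    funext p
    rw [Module.End.mul_apply, opCu_apply, opE_apply, LinearMap.zero_apply, Pi.zero_apply]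
    split_ifs with h1 h2
    · exfalso
      rw [cup_apply h1] at h2
      simp only [if_true] at h2
      exact h h2.symm
    · rfl
    · rfl
  Pcu {i j k} h1 h2 h3 := by
    rw [uops_P]
    refine LinearMap.ext fun F => ?_
    funext p
    rw [Module.End.mul_apply, Module.End.mul_apply, opSw_apply, opCu_apply, opCu_apply, opSw_apply]
    have e1 : Pat.swap i j p i = i ↔ p j = j := by
      rw [swap_apply, Equiv.swap_apply_left]
      constructor
      · intro h
        rw [← (Equiv.swap i j).injective.eq_iff, h, Equiv.swap_apply_right]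
      · intro h
        rw [h, Equiv.swap_apply_right]
    have e2 : Pat.swap i j p k = k ↔ p k = k := EXL.swap_eq_out p h2.symm h3.symm h2.symm h3.symm
    by_cases h : p j = j ∧ p k = k
    · have h' : CuOK i k (Pat.swap i j p) := ⟨e1.2 h.1, e2.2 h.2⟩
      rw [if_pos h', if_pos h]
      congr 1
      ext x
      rw [cup_apply h', swap_apply, swap_apply, cup_apply h]
      simp only [Equiv.swap_apply_def]
      grind
    · have h' : ¬ CuOK i k (Pat.swap i j p) := fun hh => h ⟨e1.1 hh.1, e2.1 hh.2⟩
      rw [if_neg h', if_neg h]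
  PP3 {i j k} h1 h2 h3 := by
    rw [uops_P, uops_P, uops_P]
    refine LinearMap.ext fun F => ?_
    funext p
    rw [Module.End.mul_apply, Module.End.mul_apply, opSw_apply, opSw_apply, opSw_apply, opSw_apply]
    congr 1
    have hc : ∀ x, Equiv.swap i k (Equiv.swap i j x) = Equiv.swap i j (Equiv.swap j k x) := by
      intro x
      simp only [Equiv.swap_apply_def]
      grind
    have hc' : ∀ x, Equiv.swap i j (Equiv.swap i k x) = Equiv.swap j k (Equiv.swap i j x) := by
      intro x
      simp only [Equiv.swap_apply_def]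
      grind
    ext x
    rw [swap_apply, swap_apply, swap_apply, swap_apply, hc, hc']
  PE1 {i j} h := by
    rw [uops_P, uops_E, uops_E]
    refine LinearMap.ext fun F => ?_
    funext p
    rw [Module.End.mul_apply, Module.End.mul_apply, opSw_apply, opE_apply, opE_apply, opSw_apply]
    have e1 : Pat.swap i j p i = i ↔ p j = j := by
      rw [swap_apply, Equiv.swap_apply_left]
      constructor
      · intro h
        rw [← (Equiv.swap i j).injective.eq_iff, h, Equiv.swap_apply_right]
      · intro h
        rw [h, Equiv.swap_apply_right]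
    simp only [e1]
  tile0 {i j u} h := by
    rw [uops_E, uops_E]
    refine LinearMap.ext fun F => ?_
    funext p
    rw [Module.End.mul_apply, Module.End.mul_apply, uops_R_apply h, LinearMap.add_apply,
      LinearMap.smul_apply, Module.End.mul_apply, Pi.add_apply, Pi.smul_apply, smul_eq_mul,
      opE_apply, opE_apply, opE_apply, opE_apply, opCu_apply, R]
    simp only [hw, ← rwt_u2]
    by_cases h1 : p i = i
    · by_cases h2 : p j = j
      · simp [h1, h2, CuOK]
      · simp [h1, h2, CuOK]
    · simp [h1, CuOK]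
  tile1 {i j u} h := by
    rw [uops_E, uops_E, uops_P]
    refine LinearMap.ext fun F => ?_
    funext p
    rw [Module.End.mul_apply, Module.End.mul_apply, uops_R_apply h, LinearMap.sub_apply,
      Module.End.one_apply, Pi.sub_apply, opE_apply, Module.End.mul_apply, Module.End.mul_apply,
      LinearMap.sub_apply, Module.End.one_apply, Pi.sub_apply, opE_apply, LinearMap.add_apply,
      LinearMap.smul_apply, LinearMap.smul_apply, Module.End.one_apply]
    simp only [opE_apply, Pi.add_apply, Pi.smul_apply, smul_eq_mul, opSw_apply, R, hw, ← rwt_v,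
      ← rwt_u1]
    by_cases h1 : p i = i
    · simp [h1]
    · by_cases h2 : p j = j
      · simp [h1, h2]
      · simp [h1, h2]
  tile2 {i j u} h := by
    refine LinearMap.ext fun F => ?_
    funext p
    rw [Module.End.mul_apply, uops_R_apply h, opCu_apply, LinearMap.smul_apply, Pi.smul_apply,
      opCu_apply, smul_eq_mul]
    simp only [hw, ← rwt_w1]
    by_cases h1 : CuOK i j p
    · rw [if_pos h1, if_pos h1]
      have e1 : cup i j p i = j := by rw [cup_apply h1]; simp
      have e2 : cup i j p j = i := by rw [cup_apply h1]; simp [h.symm]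
      rw [R, if_neg (by rw [e1]; exact h.symm), if_neg (by rw [e2]; exact h), if_pos e1]
    · rw [if_neg h1, if_neg h1, mul_zero]

end Pool.Agent.NUF
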