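import Pool.Agent.NUF.StarB
import Pool.Agent.NUF.URev
import Pool.Agent.NUF.HalfI

/-!
# The recursion family of the loop gas = the fixed functionals

`fr` = the frame of the loop gas (the vectors with one leg vanish on the states without the leg);
`rph` : the recursion family of the frame is `Q(X) • VV z X`; `farAt` = one more line `p` below the rows.
-/

set_option autoImplicit false

namespace Pool.Agent.NUF

open _root_.Pool.Agent.EXL _root_.Pool.Agent.EXL.Pat _root_.Pool.Agent.EXL.HS

/-! ### Reindexing of the scalars -/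

section reindex

variable {ι κ : Type*} [DecidableEq ι] [DecidableEq κ] {s : ι → κ} (hs : Function.Injective s)
  (x : κ → ℂ)
include hs

omit [DecidableEq ι] in
theorem wt_comp (i : ι) (Y : Finset ι) :
    Fr.wt (fun i => x (s i)) i Y = Fr.wt x (s i) (Y.image s) := by
  unfold Fr.wt
  rw [Finset.prod_image (fun a _ b _ h => hs h)]

omit [DecidableEq ι] in
theorem Dl_comp (u : ℂ) (Y : Finset ι) :
    Fr.Dl (fun i => x (s i)) u Y = Fr.Dl x u (Y.image s) := by
  unfold Fr.Dl
  rw [Finset.prod_image (fun a _ b _ h => hs h)]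

omit [DecidableEq ι] in
theorem sg_comp (Y : Finset ι) : Fr.sg (fun i => x (s i)) Y = Fr.sg x (Y.image s) := by
  unfold Fr.sg Fr.Pe
  rw [Finset.prod_image (fun a _ b _ h => hs h)]

theorem Qs_comp (Y : Finset ι) : Fr.Qs (fun i => x (s i)) Y = Fr.Qs x (Y.image s) := by
  induction Y using Finset.strongInduction with
  | H Y ih =>
    rw [Fr.Qs_eq, Fr.Qs_eq, sg_comp hs]
    by_cases h : Y = ∅
    · rw [if_pos h, if_pos (by rw [h, Finset.image_empty])]
    · rw [if_neg h, if_neg (by rwa [Finset.image_eq_empty])]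
      congr 1
      rw [Finset.sum_image (fun a _ b _ h => hs h)]
      apply Finset.sum_congr rfl
      intro i hi
      rw [wt_comp hs, ih _ (Finset.erase_ssubset hi), Finset.image_erase hs]

end reindex

/-! ### The frame -/

variable {ι α : Type*} [LinearOrder ι] [DecidableEq α]

/-- The frame rapidities. -/
noncomputable def ux (z : α → ℂ) (a : α) : ℂ := 3 * Real.pi / 16 - z a

omit [DecidableEq α] in
theorem lst_toFinset [DecidableEq α] (s : ι → α) (Y : Finset ι) : (lst s Y).toFinset = Y.image s := by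
  ext a
  rw [List.mem_toFinset, mem_lst, Finset.mem_image]

variable {z : α → ℂ} {s : ι → α} {b c : α}

/-- A letter that keeps the leg empty. -/
theorem E_line {a k : α} {t : ℂ} {L : List α} (h : k ≠ a) (hL : k ∉ L) :
    uops.M z a t L * uops.E k = uops.E k * (uops (ι := α)).M z a t L :=
  (ulaws.cME h.symm hL).eq

theorem hT1_E (hs : Sites s b c) (X : Finset ι) :
    hT1 uops (fun i j => opCu ℂ i j) z c b (lst s X) * uops.E b = 0 := by
  have hb : b ∉ lst s X := fun h => by
    obtain ⟨k, _, e⟩ := mem_lst.1 h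
    exact hs.nb k e
  have hbc := hs.bc
  rw [hT1, mul_assoc, (ulaws.cEE (i := c) (j := b)).eq, ← mul_assoc, mul_assoc (opCu ℂ c b),
    E_line hbc hb, ← mul_assoc, uhlaws.cus (i := c) (j := b), uhlaws.cuE0 hbc, zero_mul, zero_mul]

theorem oE_Eb (hs : Sites s b c) (X : Finset ι) (i : ι) :
    oE uops z (lst s X) (s i) * uops.E b = uops.E b * oE uops z (lst s X) (s i) := by
  have hb : b ∉ lst s X := fun h => by
    obtain ⟨k, _, e⟩ := mem_lst.1 h
    exact hs.nb k e
  exact (HLaws.oE_E ulaws (hs.nb i).symm hb).eq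

theorem oF_E (hs : Sites s b c) (X : Finset ι) (i : ι) :
    oF uops (fun i j => opCu ℂ i j) z b (lst s X) (s i) * uops.E b = 0 := by
  rw [oF, mul_assoc, oE_Eb hs, ← mul_assoc, uhlaws.cus (i := s i) (j := b),
    uhlaws.cuE0 (hs.nb i).symm, zero_mul]

/-- **The frame of the loop gas**: the vectors with one leg vanish on the states without the leg. -/
noncomputable def fr (hs : Sites s b c) (hz : RegS z s) : Fr.Frame ι (Fnl α) (fun i => ux z (s i)) :=
  { uframe hs hz with
    V1 := fun X => (uframe hs hz).V1 X ⊓ LinearMap.ker (rm (uops.E b))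
    mT1 := by
      intro X v hv
      refine Submodule.mem_inf.2 ⟨(uframe hs hz).mT1 hv, LinearMap.mem_ker.2 ?_⟩
      show rm (uops.E b) (rm _ v) = 0
      rw [← rm_mul, hT1_E hs]
      ext F
      simp [rm_apply]
    mE1 := by
      intro i X v hi hv
      refine Submodule.mem_inf.2 ⟨(uframe hs hz).mE1 hi hv.1, LinearMap.mem_ker.2 ?_⟩
      show rm (uops.E b) (rm _ v) = 0
      rw [← rm_mul, oE_Eb hs, rm_mul, LinearMap.mem_ker.1 hv.2, map_zero]
    mF := by
      intro i X v hi hv
      refine Submodule.mem_inf.2 ⟨(uframe hs hz).mF hi hv, LinearMap.mem_ker.2 ?_⟩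
      show rm (uops.E b) (rm _ v) = 0
      rw [← rm_mul, oF_E hs]
      ext F
      simp [rm_apply]
    mB := fun hi hv => (uframe hs hz).mB hi hv.1 }

variable (hs : Sites s b c) (hz : RegS z s) {X : Finset ι} {i : ι} (V : Fnl α)

theorem fr_V0 : (fr hs hz).V0 X = spU (lst s X) := rfl

theorem fr_T0 : (fr hs hz).T0 X V = V ∘ₗ T0 z c (lst s X) := rfl

theorem fr_E : (fr hs hz).E i X V = V ∘ₗ oE uops z (lst s (insert i X)) (s i) := rfl

theorem fr_F : (fr hs hz).F i X V =
    V ∘ₗ oF uops (fun i j => opCu ℂ i j) z b (lst s (insert i X)) (s i) := rfl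

theorem fr_B : (fr hs hz).B i X V = V ∘ₗ oB uops z b (lst s (insert i X)) (s i) := rfl

theorem V1_ind {v : Fnl α} (hv : v ∈ (fr hs hz).V1 X) : v (HS.ind Pat.empty) = 0 := by
  have h := LinearMap.mem_ker.1 hv.2
  have h1 := congrArg (fun W : Fnl α => W (HS.ind Pat.empty)) h
  simp only [rm_apply, E_ind, LinearMap.zero_apply] at h1
  exact h1

/-- The empty component. -/
noncomputable def emp0 : Fr.Emp (fr hs hz) where
  emp := evE
  eE _ _ := by rw [fr_E, evE_apply, evE_apply, LinearMap.comp_apply, oE_ind]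
  eB _ hv := by rw [fr_B, evE_apply, LinearMap.comp_apply, oB_ind, V1_ind hs hz hv]

/-! ### The recursion family -/

omit [DecidableEq α] in
theorem lst_empty : lst s ∅ = [] := by simp [lst]

omit [DecidableEq α] in
theorem c_lst (hs : Sites s b c) (Y : Finset ι) : c ∉ lst s Y := fun h => by
  obtain ⟨k, _, e⟩ := mem_lst.1 h
  exact hs.nc k e

omit [DecidableEq α] in
theorem b_lst (hs : Sites s b c) (Y : Finset ι) : b ∉ lst s Y := fun h => by
  obtain ⟨k, _, e⟩ := mem_lst.1 h
  exact hs.nb k e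

section rph

variable [Finite α] (hG : Fr.Reg fun i => ux z (s i))
  (hsg : ∀ X : Finset ι, X.Nonempty → Fr.sg (fun i => ux z (s i)) X ≠ 0)
  (hR : ∀ Y : Finset ι, Reg z (lst s Y))

include hs hR in
theorem isV_lst (Y : Finset ι) : IsV z (lst s Y) (VV z (lst s Y)) :=
  isV_VV (nodup_lst hs.inj) (c_lst hs Y) (hR Y)

include hR in
theorem uniq_lst (Y : Finset ι) : ∀ v ∈ (fr hs hz).V0 Y, (fr hs hz).T0 Y v = v →
    (emp0 hs hz).emp v = 0 → v = 0 :=
  fun _ hv h h0 => fix_zero (c_lst hs Y) (hR Y) hv h h0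

include hsg hR in
theorem rec0 : Fr.Rec (fr hs hz) (Fr.RPh (fr hs hz) (VV z [])) := by
  have h0 := isV_lst hs hR ∅
  rw [lst_empty] at h0
  refine Fr.RPh_rec hsg ?_ ?_ ?_
  · show VV z [] ∈ spU (lst s ∅)
    rw [lst_empty]
    exact h0.sup
  · rw [fr_T0, lst_empty]
    exact h0.fix c (by simp)
  · show rm (hT1 uops (fun i j => opCu ℂ i j) z c b (lst s ∅)) (VV z []) = 0
    have e : hT1 uops (fun i j => opCu ℂ i j) z c b ([] : List α) = 0 := by
      show opCu ℂ c b * 1 * uops.E c = 0
      rw [mul_one, uhlaws.cuE0 hs.bc.symm]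
    rw [lst_empty, e]
    ext F
    simp [rm_apply]

include hG hsg hR in
/-- **The recursion family is the family of the fixed functionals.** -/
theorem rph (Y : Finset ι) : Fr.RPh (fr hs hz) (VV z []) Y =
    Fr.Qs (fun i => ux z (s i)) Y • VV z (lst s Y) := by
  have hV := isV_lst hs hR Y
  have h0 := isV_lst hs hR ∅
  rw [lst_empty] at h0
  have hr := rec0 hs hz hsg hR
  have h1 := Fr.Ph_eq hG hr (emp0 hs hz) (uniq_lst hs hz hR Y) (w := VV z (lst s Y)) hV.sup
    (hV.fix c (c_lst hs Y)) hV.one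
  have h2 : (emp0 hs hz).emp (Fr.RPh (fr hs hz) (VV z []) Y) = Fr.Qs (fun i => ux z (s i)) Y := by
    refine Fr.QRec.eq hsg (Fr.emp_rec hG hr (emp0 hs hz) ?_) (Fr.Qs_rec hsg) Y
    rw [Fr.RPh_empty]
    exact h0.one
  rw [← h2]
  exact h1

end rph

/-! ### One more line below the rows -/

section far

theorem oE_head (z : α → ℂ) (p : α) (L : List α) : oE uops z (p :: L) p = 1 := by
  rw [oE]
  have : below (p :: L) p = [] := by simp [below]
  rw [this]
  rfl

theorem oB_head (z : α → ℂ) (b p : α) (L : List α) : oB uops z b (p :: L) p = uops.P p b := by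
  rw [oB, oE_head, mul_one]

theorem okR_Dn {u : ℂ} (h : EXL.Fm.Dn u ≠ 0) : okR u := (EXL.Fm.okR_iff u).2 h

/-- **One more line `p` below the rows**, with an arbitrary rapidity. -/
noncomputable def farAt {p : α} (hp : ∀ i, s i ≠ p) (hpb : p ≠ b) (hpc : p ≠ c) (X : Finset ι) :
    Fr.FarAt (fr hs hz) (ux z p) X where
  W0 := spU (p :: lst s X)
  TT := rm (hT0 uops z c (p :: lst s X))
  Ep := LinearMap.id
  Bp := rm (uops.P p b)
  mE {v} hv := by
    have hpX : p ∉ lst s X := fun h => by
      obtain ⟨k, _, e⟩ := mem_lst.1 h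
      exact hp k e
    exact uspl.ins (L := []) (D := lst s X) (List.nodup_cons.2 ⟨hpX, nodup_lst hs.inj⟩) hv
  mB {v} hv := by
    have hpX : p ∉ lst s X := fun h => by
      obtain ⟨k, _, e⟩ := mem_lst.1 h
      exact hp k e
    have hn : ([] ++ b :: p :: lst s X).Nodup := by
      refine List.nodup_cons.2 ⟨?_, List.nodup_cons.2 ⟨hpX, nodup_lst hs.inj⟩⟩
      rw [List.mem_cons, not_or]
      exact ⟨hpb.symm, b_lst hs X⟩
    have h := uspl.P hn (V := v) hv.1
    rwa [ulaws.Ps (i := b) (j := p)] at h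
  c1 {v} hv hD := by
    have hpX : p ∉ lst s X := fun h => by
      obtain ⟨k, _, e⟩ := mem_lst.1 h
      exact hp k e
    have hn : (p :: lst s X).Nodup := List.nodup_cons.2 ⟨hpX, nodup_lst hs.inj⟩
    have hbX : b ∉ p :: lst s X := by
      rw [List.mem_cons, not_or]
      exact ⟨hpb.symm, b_lst hs X⟩
    have hcX : c ∉ p :: lst s X := by
      rw [List.mem_cons, not_or]
      exact ⟨hpc.symm, c_lst hs X⟩
    have hbel : below (p :: lst s X) p = [] := by simp [below]
    have key := uhlaws.c1 ulaws (z := z) hn (List.mem_cons_self) hbX hcX hs.bc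
      (okR_Dn hD) (by rw [hbel]; simp) (by rw [hbel]; simp)
    rw [List.erase_cons_head, oE_head, oB_head, one_mul, mul_one] at key
    have q := rm_pre3 (uspl.out hpX hv) (uspl.out (b_lst hs X) hv) (uspl.out (c_lst hs X) hv) key
    show rm _ v = _
    rw [q, rm_add, rm_smul, rm_mul]
    rfl
  c4 {i v} hi hv hD hDi := by
    have hpX : p ∉ lst s X := fun h => by
      obtain ⟨k, _, e⟩ := mem_lst.1 h
      exact hp k e
    have hn : (p :: lst s X).Nodup := List.nodup_cons.2 ⟨hpX, nodup_lst hs.inj⟩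
    have hbX : b ∉ p :: lst s X := by
      rw [List.mem_cons, not_or]
      exact ⟨hpb.symm, b_lst hs X⟩
    have hcX : c ∉ p :: lst s X := by
      rw [List.mem_cons, not_or]
      exact ⟨hpc.symm, c_lst hs X⟩
    have hbel : below (p :: lst s X) p = [] := by simp [below]
    have hiX : i ∉ X.erase i := Finset.notMem_erase i X
    have hX : insert i (X.erase i) = X := Finset.insert_erase hi
    have heX : (lst s X).erase (s i) = lst s (X.erase i) := by
      have := erase_lst hs.inj hiX
      rwa [hX] at this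
    have hiY : s i ∈ lst s X := (mem_lst' hs.inj).2 hi
    have hv' : v ∈ spU (lst s (X.erase i)) := hv
    have hr : ∀ r ∈ below (lst s X) (s i), okR ((uops (ι := α)).h - z r) := by
      intro r hr
      obtain ⟨k, _, rfl⟩ := mem_lst.1 (below_subset _ hr).1
      exact okR_Dn (hz.D k)
    have hr' : ∀ r ∈ below (lst s X) (s i), okR (z (s i) - z r) := by
      intro r hr
      obtain ⟨k, _, rfl⟩ := mem_lst.1 (below_subset _ hr).1
      exact okR_Dn (hz.d i k fun e => (below_subset _ hr).2 (by rw [e]))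
    -- the vector with the leg
    set v1 : Fnl α := rm (oF uops (fun i j => opCu ℂ i j) z b (lst s X) (s i)) v with hv1
    have hV1 : v1 ∈ spU (b :: lst s X) :=
      uspl.oF uhlaws (List.nodup_cons.2 ⟨b_lst hs X, nodup_lst hs.inj⟩) hiY (by rwa [heX])
    have ob : rm (1 - uops.E b) v1 = v1 := by
      rw [rm_sub, rm_one, hv1, ← rm_mul, oF_E hs]
      ext F
      simp [rm_apply]
    have k4 := uhlaws.c4 ulaws (z := z) hn (List.mem_cons_self) hbX hcX hs.bc
      (okR_Dn hD) (by rw [hbel]; simp) (by rw [hbel]; simp)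
    rw [List.erase_cons_head, oE_head, oB_head, mul_one] at k4
    have k5 := uhlaws.c5 ulaws (z := z) (nodup_lst hs.inj) hiY (b_lst hs X) (c_lst hs X) hs.bc
      (okR_Dn hDi) hr hr'
    rw [← mul_smul_comm] at k5
    have o : ∀ {a}, a ∉ lst s (X.erase i) → rm (uops.E a) v = v := fun h => uspl.out h hv'
    have q5 := rm_pre3 (o (fun e => hiX ((mem_lst' hs.inj).1 e))) (o (b_lst hs _)) (o (c_lst hs _)) k5
    rw [rm_mul, rm_smul, rm_mul, heX, ← hv1] at q5
    have hpo : p ∉ b :: lst s X := by
      rw [List.mem_cons, not_or]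
      exact ⟨hpb, hpX⟩
    have hco : c ∉ b :: lst s X := by
      rw [List.mem_cons, not_or]
      exact ⟨hs.bc.symm, c_lst hs X⟩
    have hpre : rm (uops.E p * (1 - uops.E b) * uops.E c) v1 = v1 := by
      rw [rm_mul, rm_mul, uspl.out hpo hV1, ob, uspl.out hco hV1]
    have q4 := rm_pre k4 hpre
    rw [rm_mul, rm_add, rm_smul, rm_smul, rm_mul, q5] at q4
    have e1 : (fr hs hz).F i (X.erase i) v = v1 := by
      show rm (oF uops (fun i j => opCu ℂ i j) z b (lst s (insert i (X.erase i))) (s i)) v = v1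
      rw [hX]
    have e2 : (fr hs hz).B i (X.erase i) = rm (oB uops z b (lst s X) (s i)) := by
      show rm (oB uops z b (lst s (insert i (X.erase i))) (s i)) = _
      rw [hX]
    show rm _ (rm _ ((fr hs hz).F i (X.erase i) v)) = _
    rw [e1, e2, q4, smul_smul]
    rfl

end far

end Pool.Agent.NUF
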