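import Pool.Agent.NUF.LOps

/-!
# Labelled connectivity states: two joinings with disjoint supports commute
-/

set_option autoImplicit false

namespace Pool.Agent.NUF

open LPat

variable {Γ α K : Type*} [AddCommGroup Γ] [DecidableEq α] [CommRing K]

/-- The state after joining the strands at `i` and `j` (both occupied). -/
def LPat.jo (i j : α) (p : LPat Γ α) : LPat Γ α := if p i = j then rem i j p else cut i j p

/-- The weight of the closed loop. -/
def LPat.lw (ν : Γ → K) (i j : α) (p : LPat Γ α) : K := if p i = j then ν (p.s i) else 1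

section
variable {i j k l : α} (p : LPat Γ α)

theorem jo_pos (h : p i = j) : jo i j p = rem i j p := if_pos h

theorem jo_neg (h : p i ≠ j) : jo i j p = cut i j p := if_neg h

theorem lw_pos (ν : Γ → K) (h : p i = j) : lw ν i j p = ν (p.s i) := if_pos h

theorem lw_neg (ν : Γ → K) (h : p i ≠ j) : lw ν i j p = 1 := if_neg h

theorem ocOK_jo (h1 : k ≠ i) (h2 : k ≠ j) (h3 : l ≠ i) (h4 : l ≠ j) :
    OcOK k l (jo i j p) ↔ OcOK k l p := by
  unfold jo
  split_ifs
  · exact ocOK_rem p h1 h2 h3 h4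
  · exact ocOK_cut p h1 h2 h3 h4

theorem jo_fix_out (h1 : k ≠ i) (h2 : k ≠ j) : jo i j p k = k ↔ p k = k := by
  unfold jo
  split_ifs
  · exact rem_fix_out p h1 h2
  · exact cut_fix_out p h1 h2

theorem rem_rem (h1 : k ≠ i) (h2 : k ≠ j) (h3 : l ≠ i) (h4 : l ≠ j) (a : p i = j) (b : p k = l) :
    rem k l (rem i j p) = rem i j (rem k l p) := by
  have e1 : rem i j p k = l := by rw [rem_out p h1 h2, b]
  have e2 : rem k l p i = j := by rw [rem_out p h1.symm h3.symm, a]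
  ext x
  · rw [rem_f e1, rem_f a, rem_f e2, rem_f b]
    grind
  · rw [rem_s e1, rem_s a, rem_s e2, rem_s b]
    grind

theorem rem_cut (h1 : k ≠ i) (h2 : k ≠ j) (h3 : l ≠ i) (h4 : l ≠ j) (hk : OcOK k l p)
    (a : p i = j) (b : p k ≠ l) :
    cut k l (rem i j p) = rem i j (cut k l p) ∧ cut k l p i = j ∧ (cut k l p).s i = p.s i := by
  have inv : ∀ x, p (p x) = x := p.inv
  have c : CtOK k l p := ⟨hk.1, hk.2.1, hk.2.2, b⟩
  have e1 : CtOK k l (rem i j p) := by
    refine ⟨hk.1, ?_, ?_, ?_⟩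
    · rw [rem_out p h1 h2]; exact hk.2.1
    · rw [rem_out p h3 h4]; exact hk.2.2
    · rw [rem_out p h1 h2]; exact b
  have e2 : cut k l p i = j := by
    rw [cut_f c]
    grind
  refine ⟨?_, e2, ?_⟩
  · ext x
    · rw [cut_f e1, rem_f e2, cut_f c, rem_f a, rem_f a, rem_f a]
      grind
    · rw [cut_s e1, rem_s e2, cut_s c, rem_f a, rem_f a, rem_s a, rem_s a, rem_s a]
      grind
  · rw [cut_s c]
    grind

theorem cut_close (h1 : k ≠ i) (h2 : k ≠ j) (h3 : l ≠ i) (h4 : l ≠ j) (hi : CtOK i j p)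
    (hk : OcOK k l p) (b : cut i j p k = l) (c : p k ≠ l) :
    CtOK k l p ∧ cut k l p i = j ∧ rem k l (cut i j p) = rem i j (cut k l p) ∧
      ((cut k l p).s i = (cut i j p).s k ∨ (cut k l p).s i = - (cut i j p).s k) := by
  have inv : ∀ x, p (p x) = x := p.inv
  have an : ∀ x, p.s (p x) = - p.s x := p.anti
  have c : CtOK k l p := ⟨hk.1, hk.2.1, hk.2.2, c⟩
  have hb := b
  rw [cut_f hi] at hb
  have e2 : cut k l p i = j := by
    rw [cut_f c]
    grind
  refine ⟨c, e2, ?_, ?_⟩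
  · ext x
    · rw [rem_f b, rem_f e2, cut_f hi, cut_f c]
      grind (splits := 30)
    · rw [rem_s b, rem_s e2, cut_s hi, cut_s c]
      grind (splits := 30)
  · rw [cut_s hi, cut_s c]
    grind (splits := 30)

theorem cut_cut (h1 : k ≠ i) (h2 : k ≠ j) (h3 : l ≠ i) (h4 : l ≠ j)
    (ha : CtOK i j p) (hb : CtOK k l (cut i j p)) (hc : CtOK k l p) :
    CtOK i j (cut k l p) ∧ cut k l (cut i j p) = cut i j (cut k l p) := by
  have inv : ∀ x, p (p x) = x := p.inv
  have an : ∀ x, p.s (p x) = - p.s x := p.anti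
  have hd : CtOK i j (cut k l p) := by
    simp only [CtOK, cut] at ha hb hc ⊢
    grind
  refine ⟨hd, ?_⟩
  ext x
  · rw [cut_f hb, cut_f hd]
    simp only [CtOK, cut_f ha, cut_f hc] at hb hd ⊢
    clear an
    grind (splits := 30)
  · rw [cut_s hb, cut_s hd]
    simp only [CtOK, cut_f ha, cut_f hc, cut_s ha, cut_s hc] at hb hd ⊢
    grind (splits := 40)

/-- **Two joinings commute.** -/
theorem jo_jo (ν : Γ → K) (hν : ∀ g, ν (-g) = ν g) (h1 : k ≠ i) (h2 : k ≠ j) (h3 : l ≠ i)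
    (h4 : l ≠ j) (hi : OcOK i j p) (hk : OcOK k l p) :
    jo k l (jo i j p) = jo i j (jo k l p) ∧
      lw ν i j p * lw ν k l (jo i j p) = lw ν k l p * lw ν i j (jo k l p) := by
  by_cases a : p i = j
  · by_cases b : p k = l
    · rw [jo_pos p a, jo_pos p b, lw_pos p ν a, lw_pos p ν b]
      have e1 : rem i j p k = l := by rw [rem_out p h1 h2, b]
      have e2 : rem k l p i = j := by rw [rem_out p h1.symm h3.symm, a]
      rw [jo_pos _ e1, jo_pos _ e2, lw_pos _ ν e1, lw_pos _ ν e2, rem_s a, rem_s b,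
        if_neg h1, if_neg h2, if_neg h1.symm, if_neg h3.symm]
      exact ⟨rem_rem p h1 h2 h3 h4 a b, mul_comm _ _⟩
    · obtain ⟨q1, q2, q3⟩ := rem_cut p h1 h2 h3 h4 hk a b
      have e1 : rem i j p k ≠ l := by rw [rem_out p h1 h2]; exact b
      rw [jo_pos p a, jo_neg p b, lw_pos p ν a, lw_neg p ν b, jo_neg _ e1, jo_pos _ q2,
        lw_neg _ ν e1, lw_pos _ ν q2, q1, q3]
      exact ⟨rfl, mul_comm _ _⟩
  · have ci : CtOK i j p := ⟨hi.1, hi.2.1, hi.2.2, a⟩
    by_cases b : p k = l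
    · obtain ⟨q1, q2, q3⟩ := rem_cut p h1.symm h3.symm h2.symm h4.symm hi b a
      have e1 : rem k l p i ≠ j := by rw [rem_out p h1.symm h3.symm]; exact a
      rw [jo_neg p a, jo_pos p b, lw_neg p ν a, lw_pos p ν b, jo_neg _ e1, jo_pos _ q2,
        lw_neg _ ν e1, lw_pos _ ν q2, q1, q3]
      exact ⟨rfl, mul_comm _ _⟩
    · have ck : CtOK k l p := ⟨hk.1, hk.2.1, hk.2.2, b⟩
      by_cases c : cut i j p k = l
      · obtain ⟨q0, q1, q2, q3⟩ := cut_close p h1 h2 h3 h4 ci hk c b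
        rw [jo_neg p a, jo_neg p b, lw_neg p ν a, lw_neg p ν b, jo_pos _ c, jo_pos _ q1,
          lw_pos _ ν c, lw_pos _ ν q1, q2]
        refine ⟨rfl, ?_⟩
        rcases q3 with q3 | q3
        · rw [q3]
        · rw [q3, hν]
      · have hb : CtOK k l (cut i j p) := ⟨hk.1, fun h => hk.2.1 ((cut_fix_out p h1 h2).1 h),
          fun h => hk.2.2 ((cut_fix_out p h3 h4).1 h), c⟩
        obtain ⟨q1, q2⟩ := cut_cut p h1 h2 h3 h4 ci hb ck
        rw [jo_neg p a, jo_neg p b, lw_neg p ν a, lw_neg p ν b, jo_neg _ c, jo_neg _ q1.2.2.2,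
          lw_neg _ ν c, lw_neg _ ν q1.2.2.2, q2]
        exact ⟨rfl, rfl⟩

end

end Pool.Agent.NUF
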