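import Pool.Agent.NUF.LCt

/-!
# Elementary operators on functions of labelled states
-/

set_option autoImplicit false

namespace Pool.Agent.NUF

open LPat

variable {Γ α : Type*} [AddCommGroup Γ] [DecidableEq α]

section ops

variable (Γ) (K : Type*) [CommRing K]

/-- the site `i` is empty -/
def lE (i : α) : Module.End K (LPat Γ α → K) where
  toFun F p := if p i = i then F p else 0
  map_add' F G := by
    funext p; simp only [Pi.add_apply]; split_ifs <;> simp
  map_smul' c F := by
    funext p; simp only [Pi.smul_apply, RingHom.id_apply, smul_eq_mul]; split_ifs <;> simp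

/-- exchange of two sites -/
def lSw (i j : α) : Module.End K (LPat Γ α → K) where
  toFun F p := F (swap i j p)
  map_add' _ _ := rfl
  map_smul' _ _ := rfl

/-- creation of an arc with label 0 (`0` unless both sites are empty) -/
def lCu (i j : α) : Module.End K (LPat Γ α → K) where
  toFun F p := if CuOK i j p then F (cup i j p) else 0
  map_add' F G := by
    funext p; simp only [Pi.add_apply]; split_ifs <;> simp
  map_smul' c F := by
    funext p; simp only [Pi.smul_apply, RingHom.id_apply, smul_eq_mul]; split_ifs <;> simp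

variable {Γ} {K}

/-- joining of two strands (`0` unless both sites are occupied); a closed loop has its weight -/
def lCt (ν : Γ → K) (i j : α) : Module.End K (LPat Γ α → K) where
  toFun F p := if OcOK i j p then lw ν i j p * F (jo i j p) else 0
  map_add' F G := by
    funext p; simp only [Pi.add_apply]; split_ifs <;> simp [mul_add]
  map_smul' c F := by
    funext p; simp only [Pi.smul_apply, RingHom.id_apply, smul_eq_mul]; split_ifs
    · ring
    · simp

variable (K) in
/-- shift of the label of the strand at `i` -/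
def lTw (i : α) (g : Γ) : Module.End K (LPat Γ α → K) where
  toFun F p := F (tw i g p)
  map_add' _ _ := rfl
  map_smul' _ _ := rfl

theorem lE_apply (i : α) (F : LPat Γ α → K) (p : LPat Γ α) :
    lE Γ K i F p = if p i = i then F p else 0 := rfl

theorem lSw_apply (i j : α) (F : LPat Γ α → K) (p : LPat Γ α) :
    lSw Γ K i j F p = F (swap i j p) := rfl

theorem lCu_apply (i j : α) (F : LPat Γ α → K) (p : LPat Γ α) :
    lCu Γ K i j F p = if CuOK i j p then F (cup i j p) else 0 := rfl

theorem lCt_apply (ν : Γ → K) (i j : α) (F : LPat Γ α → K) (p : LPat Γ α) :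
    lCt ν i j F p = if OcOK i j p then lw ν i j p * F (jo i j p) else 0 := rfl

theorem lTw_apply (i : α) (g : Γ) (F : LPat Γ α → K) (p : LPat Γ α) :
    lTw K i g F p = F (tw i g p) := rfl

/-! ### Commutation -/

section
variable {i j k l : α} {ν : Γ → K} (hν : ∀ g, ν (-g) = ν g)

theorem comm_E_E (i k : α) : Commute (lE Γ K i) (lE Γ K k) := by
  refine LinearMap.ext fun F => ?_
  funext p
  simp only [Module.End.mul_apply, lE_apply]
  split_ifs <;> rfl

theorem comm_E_Sw (h1 : k ≠ i) (h2 : k ≠ j) : Commute (lE Γ K k) (lSw Γ K i j) := by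
  refine LinearMap.ext fun F => ?_
  funext p
  simp only [Module.End.mul_apply, lE_apply, lSw_apply, swap_eq_out p h1 h2 h1 h2]

theorem comm_E_Cu (h1 : k ≠ i) (h2 : k ≠ j) : Commute (lE Γ K k) (lCu Γ K i j) := by
  refine LinearMap.ext fun F => ?_
  funext p
  simp only [Module.End.mul_apply, lE_apply, lCu_apply, cup_out p h1 h2]
  split_ifs <;> rfl

theorem comm_E_Ct (h1 : k ≠ i) (h2 : k ≠ j) : Commute (lE Γ K k) (lCt ν i j) := by
  refine LinearMap.ext fun F => ?_
  funext p
  simp only [Module.End.mul_apply, lE_apply, lCt_apply, jo_fix_out p h1 h2]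
  split_ifs <;> simp

theorem comm_E_Tw (g : Γ) (k i : α) : Commute (lE Γ K k) (lTw K i g) := by
  refine LinearMap.ext fun F => ?_
  funext p
  rfl

theorem comm_Sw_Sw (h1 : k ≠ i) (h2 : k ≠ j) (h3 : l ≠ i) (h4 : l ≠ j) :
    Commute (lSw Γ K i j) (lSw Γ K k l) := by
  refine LinearMap.ext fun F => ?_
  funext p
  simp only [Module.End.mul_apply, lSw_apply, swap_swap_comm p h1 h2 h3 h4]

theorem comm_Sw_Cu (h1 : k ≠ i) (h2 : k ≠ j) (h3 : l ≠ i) (h4 : l ≠ j) :
    Commute (lSw Γ K i j) (lCu Γ K k l) := by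
  refine LinearMap.ext fun F => ?_
  funext p
  simp only [Module.End.mul_apply, lSw_apply, lCu_apply, cuOK_swap p h1 h2 h3 h4]
  split_ifs with h
  · rw [swap_cup_comm p h1 h2 h3 h4 h]
  · rfl

theorem comm_Sw_Ct (h1 : k ≠ i) (h2 : k ≠ j) (h3 : l ≠ i) (h4 : l ≠ j) :
    Commute (lSw Γ K i j) (lCt ν k l) := by
  refine LinearMap.ext fun F => ?_
  funext p
  simp only [Module.End.mul_apply, lSw_apply, lCt_apply, ocOK_swap p h1 h2 h3 h4]
  by_cases h : OcOK k l p
  · rw [if_pos h, if_pos h]
    by_cases a : p k = l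
    · have a' : swap i j p k = l := (swap_eq_out p h1 h2 h3 h4).2 a
      rw [lw_pos _ ν a, lw_pos _ ν a', jo_pos _ a, jo_pos _ a', swap_rem_comm p h1 h2 h3 h4 a,
        swap_s_out p h1 h2]
    · have a' : swap i j p k ≠ l := fun hh => a ((swap_eq_out p h1 h2 h3 h4).1 hh)
      rw [lw_neg _ ν a, lw_neg _ ν a', jo_neg _ a, jo_neg _ a',
        swap_cut_comm p h1 h2 h3 h4 ⟨h.1, h.2.1, h.2.2, a⟩]
  · rw [if_neg h, if_neg h]

theorem comm_Sw_Tw (g : Γ) (h1 : k ≠ i) (h2 : k ≠ j) : Commute (lSw Γ K i j) (lTw K k g) := by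
  refine LinearMap.ext fun F => ?_
  funext p
  simp only [Module.End.mul_apply, lSw_apply, lTw_apply, swap_tw_comm p g h1 h2]

theorem comm_Cu_Cu (h1 : k ≠ i) (h2 : k ≠ j) (h3 : l ≠ i) (h4 : l ≠ j) :
    Commute (lCu Γ K i j) (lCu Γ K k l) := by
  refine LinearMap.ext fun F => ?_
  funext p
  simp only [Module.End.mul_apply, lCu_apply, cuOK_cup p h1 h2 h3 h4,
    cuOK_cup p h1.symm h3.symm h2.symm h4.symm]
  by_cases h : CuOK i j p
  · by_cases h' : CuOK k l p
    · rw [if_pos h, if_pos h', if_pos h', if_pos h, cup_cup_comm p h1 h2 h3 h4 h h']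
    · rw [if_pos h, if_neg h', if_neg h']
  · by_cases h' : CuOK k l p
    · rw [if_neg h, if_pos h', if_neg h]
    · rw [if_neg h, if_neg h']

theorem comm_Cu_Ct (h1 : k ≠ i) (h2 : k ≠ j) (h3 : l ≠ i) (h4 : l ≠ j) :
    Commute (lCu Γ K i j) (lCt ν k l) := by
  refine LinearMap.ext fun F => ?_
  funext p
  simp only [Module.End.mul_apply, lCu_apply, lCt_apply, ocOK_cup p h1 h2 h3 h4]
  by_cases h' : OcOK k l p
  · by_cases h : CuOK i j p
    · rw [if_pos h, if_pos h', if_pos h']
      by_cases a : p k = l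
      · have a' : cup i j p k = l := by rw [cup_out p h1 h2, a]
        have h2' : CuOK i j (rem k l p) := (cuOK_rem p h1.symm h3.symm h2.symm h4.symm).2 h
        rw [lw_pos _ ν a, lw_pos _ ν a', jo_pos _ a, jo_pos _ a', if_pos h2',
          cup_rem_comm p h1 h2 h3 h4 h a, cup_s]
      · have a' : cup i j p k ≠ l := by rw [cup_out p h1 h2]; exact a
        have h2' : CuOK i j (cut k l p) := (cuOK_cut p h1.symm h3.symm h2.symm h4.symm).2 h
        rw [lw_neg _ ν a, lw_neg _ ν a', jo_neg _ a, jo_neg _ a', if_pos h2',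
          cup_cut_comm p h1 h2 h3 h4 h ⟨h'.1, h'.2.1, h'.2.2, a⟩]
    · have h2' : ¬ CuOK i j (jo k l p) := by
        rw [CuOK, jo_fix_out p h1.symm h3.symm, jo_fix_out p h2.symm h4.symm]
        exact h
      rw [if_neg h, if_pos h', if_neg h2', mul_zero]
  · by_cases h : CuOK i j p
    · rw [if_pos h, if_neg h', if_neg h']
    · rw [if_neg h, if_neg h']

theorem comm_Cu_Tw (g : Γ) (h1 : k ≠ i) (h2 : k ≠ j) : Commute (lCu Γ K i j) (lTw K k g) := by
  refine LinearMap.ext fun F => ?_
  funext p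
  simp only [Module.End.mul_apply, lCu_apply, lTw_apply]
  by_cases h : CuOK i j p
  · rw [if_pos h, if_pos (show CuOK i j (tw k g p) from h), cup_tw_comm p g h1 h2 h]
  · rw [if_neg h, if_neg (show ¬ CuOK i j (tw k g p) from h)]

include hν in
theorem comm_Ct_Ct (h1 : k ≠ i) (h2 : k ≠ j) (h3 : l ≠ i) (h4 : l ≠ j) :
    Commute (lCt ν i j) (lCt ν k l) := by
  refine LinearMap.ext fun F => ?_
  funext p
  simp only [Module.End.mul_apply, lCt_apply, ocOK_jo p h1 h2 h3 h4,
    ocOK_jo p h1.symm h3.symm h2.symm h4.symm]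
  by_cases h : OcOK i j p
  · by_cases h' : OcOK k l p
    · obtain ⟨q1, q2⟩ := jo_jo p ν hν h1 h2 h3 h4 h h'
      rw [if_pos h, if_pos h', if_pos h', if_pos h, ← mul_assoc, ← mul_assoc, q1, q2]
    · rw [if_pos h, if_neg h', if_neg h', mul_zero]
  · by_cases h' : OcOK k l p
    · rw [if_neg h, if_pos h', if_neg h, mul_zero]
    · rw [if_neg h, if_neg h']

theorem comm_Ct_Tw (g : Γ) (h1 : k ≠ i) (h2 : k ≠ j) : Commute (lCt ν i j) (lTw K k g) := by
  refine LinearMap.ext fun F => ?_
  funext p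
  simp only [Module.End.mul_apply, lCt_apply, lTw_apply]
  by_cases h : OcOK i j p
  · rw [if_pos h, if_pos (show OcOK i j (tw k g p) from h)]
    by_cases a : p i = j
    · have a' : tw k g p i = j := a
      rw [lw_pos _ ν a, lw_pos _ ν a', jo_pos _ a, jo_pos _ a', rem_tw_comm p g h1 h2 a,
        tw_s_out p g h1 (by rw [a]; exact h2.symm)]
    · have a' : tw k g p i ≠ j := a
      rw [lw_neg _ ν a, lw_neg _ ν a', jo_neg _ a, jo_neg _ a',
        cut_tw_comm p g h1 h2 ⟨h.1, h.2.1, h.2.2, a⟩]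
  · rw [if_neg h, if_neg (show ¬ OcOK i j (tw k g p) from h)]

theorem comm_Tw_Tw (g g' : Γ) (i k : α) : Commute (lTw K i g) (lTw K k g') := by
  refine LinearMap.ext fun F => ?_
  funext p
  simp only [Module.End.mul_apply, lTw_apply, tw_tw_comm p g' g k i]

end

end ops

end Pool.Agent.NUF
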