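import Pool.Agent.NUF.LPat

/-!
# Labelled connectivity states: commutation of operations with disjoint supports
-/

set_option autoImplicit false

namespace Pool.Agent.NUF

open LPat

variable {Γ α : Type*} [AddCommGroup Γ] [DecidableEq α]

/-- both sites are empty -/
abbrev LPat.CuOK (i j : α) (p : LPat Γ α) : Prop := p i = i ∧ p j = j

/-- both sites are occupied -/
abbrev LPat.OcOK (i j : α) (p : LPat Γ α) : Prop := i ≠ j ∧ p i ≠ i ∧ p j ≠ j

theorem swap_f (i j : α) (p : LPat Γ α) (x : α) :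
    swap i j p x = Equiv.swap i j (p (Equiv.swap i j x)) := rfl

theorem swap_s (i j : α) (p : LPat Γ α) (x : α) :
    (swap i j p).s x = p.s (Equiv.swap i j x) := rfl

theorem cup_f {i j : α} {p : LPat Γ α} (h : CuOK i j p) (x : α) :
    cup i j p x = if x = i then j else if x = j then i else p x := by
  simp only [cup, if_pos h]

theorem cup_s (i j : α) (p : LPat Γ α) (x : α) : (cup i j p).s x = p.s x := rfl

theorem cut_f {i j : α} {p : LPat Γ α} (h : CtOK i j p) (x : α) :
    cut i j p x = if x = i then i else if x = j then j else if x = p i then p j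
      else if x = p j then p i else p x := by
  simp only [cut, if_pos h]

theorem cut_s {i j : α} {p : LPat Γ α} (h : CtOK i j p) (x : α) :
    (cut i j p).s x = if x = i then 0 else if x = j then 0 else if x = p i then p.s j - p.s i
        else if x = p j then p.s i - p.s j else p.s x := by
  simp only [cut, if_pos h]

theorem rem_f {i j : α} {p : LPat Γ α} (h : p i = j) (x : α) :
    rem i j p x = if x = i then i else if x = j then j else p x := by
  simp only [rem, if_pos h]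

theorem rem_s {i j : α} {p : LPat Γ α} (h : p i = j) (x : α) :
    (rem i j p).s x = if x = i then 0 else if x = j then 0 else p.s x := by
  simp only [rem, if_pos h]

theorem tw_f (i : α) (g : Γ) (p : LPat Γ α) (x : α) : tw i g p x = p x := rfl

theorem tw_s {i : α} {g : Γ} {p : LPat Γ α} (h : p i ≠ i) (x : α) :
    (tw i g p).s x = if x = i then p.s x + g else if x = p i then p.s x - g else p.s x := by
  simp only [tw, if_neg h]

theorem tw_neg {i : α} {g : Γ} {p : LPat Γ α} (h : p i = i) : tw i g p = p := by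
  ext x
  · rfl
  · simp only [tw, if_pos h]

section
variable {i j k l : α} (p : LPat Γ α)

theorem swap_out (h1 : k ≠ i) (h2 : k ≠ j) : swap i j p k = Equiv.swap i j (p k) := by
  rw [swap_f, Equiv.swap_apply_of_ne_of_ne h1 h2]

theorem swap_eq_out (h1 : k ≠ i) (h2 : k ≠ j) (h3 : l ≠ i) (h4 : l ≠ j) :
    swap i j p k = l ↔ p k = l := by
  rw [swap_out p h1 h2]
  constructor
  · intro h
    rw [← Equiv.swap_apply_of_ne_of_ne h3 h4] at h
    exact (Equiv.swap i j).injective h
  · intro h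
    rw [h, Equiv.swap_apply_of_ne_of_ne h3 h4]

theorem swap_s_out (h1 : k ≠ i) (h2 : k ≠ j) : (swap i j p).s k = p.s k := by
  rw [swap_s, Equiv.swap_apply_of_ne_of_ne h1 h2]

theorem cup_out (h1 : k ≠ i) (h2 : k ≠ j) : cup i j p k = p k := by
  simp [cup, h1, h2]

theorem cut_fix_out (h1 : k ≠ i) (h2 : k ≠ j) : cut i j p k = k ↔ p k = k := by
  have inv : ∀ x, p (p x) = x := p.inv
  simp only [cut]
  grind

theorem rem_fix_out (h1 : k ≠ i) (h2 : k ≠ j) : rem i j p k = k ↔ p k = k := by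
  simp only [rem]
  grind

theorem rem_out (h1 : k ≠ i) (h2 : k ≠ j) : rem i j p k = p k := by
  simp only [rem]
  grind

/-! swap and the others -/

theorem swap_swap_comm (h1 : k ≠ i) (h2 : k ≠ j) (h3 : l ≠ i) (h4 : l ≠ j) :
    swap i j (swap k l p) = swap k l (swap i j p) := by
  have hc : ∀ x, Equiv.swap i j (Equiv.swap k l x) = Equiv.swap k l (Equiv.swap i j x) := by
    intro x
    simp only [Equiv.swap_apply_def]
    grind
  ext x
  · simp only [swap, hc]
  · simp only [swap, hc]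

theorem swap_cup_comm (h1 : k ≠ i) (h2 : k ≠ j) (h3 : l ≠ i) (h4 : l ≠ j) (h : CuOK k l p) :
    swap i j (cup k l p) = cup k l (swap i j p) := by
  have h' : CuOK k l (swap i j p) := ⟨(swap_eq_out p h1 h2 h1 h2).2 h.1,
    (swap_eq_out p h3 h4 h3 h4).2 h.2⟩
  have inv : ∀ x, p (p x) = x := p.inv
  ext x
  · rw [cup_f h', swap_f, cup_f h, swap_f]
    simp only [Equiv.swap_apply_def]
    grind
  · rw [swap_s, cup_s, cup_s, swap_s]

theorem swap_cut_comm (h1 : k ≠ i) (h2 : k ≠ j) (h3 : l ≠ i) (h4 : l ≠ j) (h : CtOK k l p) :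
    swap i j (cut k l p) = cut k l (swap i j p) := by
  have h' : CtOK k l (swap i j p) := ⟨h.1, fun hh => h.2.1 ((swap_eq_out p h1 h2 h1 h2).1 hh),
    fun hh => h.2.2.1 ((swap_eq_out p h3 h4 h3 h4).1 hh),
    fun hh => h.2.2.2 ((swap_eq_out p h1 h2 h3 h4).1 hh)⟩
  have inv : ∀ x, p (p x) = x := p.inv
  ext x
  · rw [cut_f h', swap_f, cut_f h, swap_f, swap_f, swap_f]
    simp only [Equiv.swap_apply_def]
    grind (splits := 30)
  · rw [cut_s h', swap_s, cut_s h, swap_f, swap_f, swap_s, swap_s, swap_s]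
    simp only [Equiv.swap_apply_def]
    grind (splits := 30)

theorem swap_rem_comm (h1 : k ≠ i) (h2 : k ≠ j) (h3 : l ≠ i) (h4 : l ≠ j) (h : p k = l) :
    swap i j (rem k l p) = rem k l (swap i j p) := by
  have h' : swap i j p k = l := (swap_eq_out p h1 h2 h3 h4).2 h
  have inv : ∀ x, p (p x) = x := p.inv
  ext x
  · rw [rem_f h', swap_f, rem_f h, swap_f]
    simp only [Equiv.swap_apply_def]
    grind
  · rw [rem_s h', swap_s, rem_s h, swap_s]
    simp only [Equiv.swap_apply_def]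
    grind

theorem swap_tw_comm (g : Γ) (h1 : k ≠ i) (h2 : k ≠ j) :
    swap i j (tw k g p) = tw k g (swap i j p) := by
  by_cases h : p k = k
  · rw [tw_neg h, tw_neg ((swap_eq_out p h1 h2 h1 h2).2 h)]
  · have h' : swap i j p k ≠ k := fun hh => h ((swap_eq_out p h1 h2 h1 h2).1 hh)
    have inv : ∀ x, p (p x) = x := p.inv
    ext x
    · rfl
    · rw [tw_s h', swap_s, tw_s h, swap_s, swap_f]
      simp only [Equiv.swap_apply_def]
      grind

/-! cup and the others -/

theorem cup_cup_comm (h1 : k ≠ i) (h2 : k ≠ j) (h3 : l ≠ i) (h4 : l ≠ j) (h : CuOK i j p)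
    (h' : CuOK k l p) : cup i j (cup k l p) = cup k l (cup i j p) := by
  have hA : CuOK i j (cup k l p) := by
    refine ⟨?_, ?_⟩
    · rw [cup_out p h1.symm h3.symm]; exact h.1
    · rw [cup_out p h2.symm h4.symm]; exact h.2
  have hB : CuOK k l (cup i j p) := by
    refine ⟨?_, ?_⟩
    · rw [cup_out p h1 h2]; exact h'.1
    · rw [cup_out p h3 h4]; exact h'.2
  ext x
  · rw [cup_f hA, cup_f hB, cup_f h, cup_f h']
    grind
  · rfl

theorem ocOK_cup (h1 : k ≠ i) (h2 : k ≠ j) (h3 : l ≠ i) (h4 : l ≠ j) :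
    OcOK k l (cup i j p) ↔ OcOK k l p := by
  simp only [OcOK, cup_out p h1 h2, cup_out p h3 h4]

theorem cuOK_cup (h1 : k ≠ i) (h2 : k ≠ j) (h3 : l ≠ i) (h4 : l ≠ j) :
    CuOK k l (cup i j p) ↔ CuOK k l p := by
  simp only [CuOK, cup_out p h1 h2, cup_out p h3 h4]

theorem cuOK_cut (h1 : k ≠ i) (h2 : k ≠ j) (h3 : l ≠ i) (h4 : l ≠ j) :
    CuOK k l (cut i j p) ↔ CuOK k l p := by
  simp only [CuOK, cut_fix_out p h1 h2, cut_fix_out p h3 h4]

theorem cuOK_rem (h1 : k ≠ i) (h2 : k ≠ j) (h3 : l ≠ i) (h4 : l ≠ j) :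
    CuOK k l (rem i j p) ↔ CuOK k l p := by
  simp only [CuOK, rem_fix_out p h1 h2, rem_fix_out p h3 h4]

theorem ocOK_cut (h1 : k ≠ i) (h2 : k ≠ j) (h3 : l ≠ i) (h4 : l ≠ j) :
    OcOK k l (cut i j p) ↔ OcOK k l p := by
  simp only [OcOK, ne_eq, cut_fix_out p h1 h2, cut_fix_out p h3 h4]

theorem ocOK_rem (h1 : k ≠ i) (h2 : k ≠ j) (h3 : l ≠ i) (h4 : l ≠ j) :
    OcOK k l (rem i j p) ↔ OcOK k l p := by
  simp only [OcOK, ne_eq, rem_fix_out p h1 h2, rem_fix_out p h3 h4]

theorem cuOK_swap (h1 : k ≠ i) (h2 : k ≠ j) (h3 : l ≠ i) (h4 : l ≠ j) :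
    CuOK k l (swap i j p) ↔ CuOK k l p := by
  simp only [CuOK, swap_eq_out p h1 h2 h1 h2, swap_eq_out p h3 h4 h3 h4]

theorem ocOK_swap (h1 : k ≠ i) (h2 : k ≠ j) (h3 : l ≠ i) (h4 : l ≠ j) :
    OcOK k l (swap i j p) ↔ OcOK k l p := by
  simp only [OcOK, ne_eq, swap_eq_out p h1 h2 h1 h2, swap_eq_out p h3 h4 h3 h4]

theorem cup_cut_comm (h1 : k ≠ i) (h2 : k ≠ j) (h3 : l ≠ i) (h4 : l ≠ j) (h : CuOK i j p)
    (h' : CtOK k l p) : cup i j (cut k l p) = cut k l (cup i j p) := by
  have inv : ∀ x, p (p x) = x := p.inv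
  have hA : CuOK i j (cut k l p) := (cuOK_cut p h1.symm h3.symm h2.symm h4.symm).2 h
  have hB : CtOK k l (cup i j p) := by
    simp only [CtOK, cup_out p h1 h2, cup_out p h3 h4]
    exact h'
  have e1 := p.fix i h.1
  have e2 := p.fix j h.2
  ext x
  · rw [cup_f hA, cut_f hB, cut_f h']
    simp only [cup_f h]
    grind (splits := 30)
  · rw [cup_s, cut_s h', cut_s hB]
    simp only [cup_f h, cup_s]
    grind (splits := 30)

theorem cup_rem_comm (h1 : k ≠ i) (h2 : k ≠ j) (h3 : l ≠ i) (h4 : l ≠ j) (h : CuOK i j p)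
    (h' : p k = l) : cup i j (rem k l p) = rem k l (cup i j p) := by
  have inv : ∀ x, p (p x) = x := p.inv
  have hA : CuOK i j (rem k l p) := (cuOK_rem p h1.symm h3.symm h2.symm h4.symm).2 h
  have hB : cup i j p k = l := by rw [cup_out p h1 h2, h']
  ext x
  · rw [cup_f hA, rem_f hB, rem_f h']
    simp only [cup_f h]
    grind
  · rw [cup_s, rem_s h', rem_s hB, cup_s]

theorem cup_tw_comm (g : Γ) (h1 : k ≠ i) (h2 : k ≠ j) (h : CuOK i j p) :
    cup i j (tw k g p) = tw k g (cup i j p) := by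
  have inv : ∀ x, p (p x) = x := p.inv
  have e0 : cup i j p k = p k := cup_out p h1 h2
  by_cases hk : p k = k
  · rw [tw_neg hk, tw_neg (by rw [e0, hk])]
  · have hk' : cup i j p k ≠ k := by rw [e0]; exact hk
    have hA : CuOK i j (tw k g p) := h
    ext x
    · rw [cup_f hA, tw_f, tw_f, cup_f h]
    · rw [cup_s, tw_s hk, tw_s hk', cup_s, e0]

/-! cut / rem and twist -/

theorem cut_tw_comm (g : Γ) (h1 : k ≠ i) (h2 : k ≠ j) (h : CtOK i j p) :
    cut i j (tw k g p) = tw k g (cut i j p) := by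
  have inv : ∀ x, p (p x) = x := p.inv
  by_cases hk : p k = k
  · rw [tw_neg hk, tw_neg ((cut_fix_out p h1 h2).2 hk)]
  · have hk' : cut i j p k ≠ k := fun hh => hk ((cut_fix_out p h1 h2).1 hh)
    have hA : CtOK i j (tw k g p) := h
    obtain ⟨a1, a2, a3, a4⟩ := h
    have a5 : p j ≠ i := fun h => a4 (by rw [← h, inv])
    have a6 : p i ≠ p j := fun h => a1 (by rw [← inv i, h, inv])
    ext x
    · rfl
    · rw [cut_s hA, tw_s hk', tw_f, tw_f, tw_s hk, tw_s hk, tw_s hk, cut_s ⟨a1, a2, a3, a4⟩,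
        cut_f ⟨a1, a2, a3, a4⟩]
      grind (splits := 40)

theorem rem_tw_comm (g : Γ) (h1 : k ≠ i) (h2 : k ≠ j) (h : p i = j) :
    rem i j (tw k g p) = tw k g (rem i j p) := by
  have inv : ∀ x, p (p x) = x := p.inv
  have e0 : rem i j p k = p k := rem_out p h1 h2
  have hA : tw k g p i = j := h
  by_cases hk : p k = k
  · rw [tw_neg hk, tw_neg (by rw [e0, hk])]
  · have hk' : rem i j p k ≠ k := by rw [e0]; exact hk
    ext x
    · rfl
    · rw [rem_s hA, tw_s hk', tw_s hk, rem_s h, e0]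
      grind

theorem tw_s_out (g : Γ) (h1 : k ≠ i) (h2 : p i ≠ k) : (tw k g p).s i = p.s i := by
  have inv : ∀ x, p (p x) = x := p.inv
  by_cases hk : p k = k
  · rw [tw_neg hk]
  · rw [tw_s hk, if_neg h1.symm, if_neg]
    intro h
    exact h2 (by rw [h, inv])

theorem tw_tw_comm (g g' : Γ) (i k : α) : tw i g (tw k g' p) = tw k g' (tw i g p) := by
  have inv : ∀ x, p (p x) = x := p.inv
  by_cases hi : p i = i
  · rw [tw_neg hi, tw_neg (show tw k g' p i = i from hi)]
  · by_cases hk : p k = k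
    · rw [tw_neg hk, tw_neg (show tw i g p k = k from hk)]
    · ext x
      · rfl
      · rw [tw_s (show tw k g' p i ≠ i from hi), tw_s (show tw i g p k ≠ k from hk), tw_s hi,
          tw_s hk, tw_f, tw_f]
        split_ifs <;> abel

end

end Pool.Agent.NUF
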