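import Mathlib

/-!
# Labelled connectivity states

A labelled state is an involution of the sites together with a label in an abelian group for every
oriented arc (the label of the arc from `x` to its partner is `s x`; the opposite orientation has the
opposite label).  Closed loops with label `g` have the weight `ν g` (`ν` is even).
Elementary operators: `lE i` (the site is empty), `lSw i j` (exchange of two sites), `lCu i j` (new arc
with label 0), `lCt ν i j` (joining of two strands, the labels add up, a closed loop gets its weight),
`lTw i g` (the label of the strand at `i` is shifted).
-/

set_option autoImplicit false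

namespace Pool.Agent.NUF

/-- Labelled connectivity states. -/
@[ext] structure LPat (Γ α : Type*) [AddCommGroup Γ] where
  /-- the partner of a site -/
  f : α → α
  /-- the label of the arc from a site to its partner -/
  s : α → Γ
  inv : ∀ x, f (f x) = x
  anti : ∀ x, s (f x) = - s x
  fix : ∀ x, f x = x → s x = 0

namespace LPat

variable {Γ α : Type*} [AddCommGroup Γ]

instance : CoeFun (LPat Γ α) (fun _ => α → α) := ⟨LPat.f⟩

@[simp] theorem inv_apply (p : LPat Γ α) (x : α) : p (p x) = x := p.inv x

/-- The empty state. -/
def empty : LPat Γ α := ⟨id, fun _ => 0, fun _ => rfl, fun _ => by simp, fun _ _ => rfl⟩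

variable [DecidableEq α]

/-- Exchange of two sites. -/
def swap (i j : α) (p : LPat Γ α) : LPat Γ α where
  f x := Equiv.swap i j (p (Equiv.swap i j x))
  s x := p.s (Equiv.swap i j x)
  inv x := by simp
  anti x := by simp [p.anti]
  fix x h := by
    apply p.fix
    rw [← Equiv.apply_eq_iff_eq (Equiv.swap i j), h, Equiv.swap_apply_self]

/-- New arc with label 0 between two empty sites (no change if they are not both empty). -/
def cup (i j : α) (p : LPat Γ α) : LPat Γ α where
  f x := if p i = i ∧ p j = j then (if x = i then j else if x = j then i else p x) else p x
  s x := p.s x
  inv x := by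
    have inv : ∀ x, p (p x) = x := p.inv
    grind
  anti x := by
    have inv : ∀ x, p (p x) = x := p.inv
    by_cases h : p i = i ∧ p j = j
    · simp only [h, and_self, if_true]
      obtain ⟨h1, h2⟩ := h
      have e1 := p.fix i h1
      have e2 := p.fix j h2
      by_cases hi : x = i
      · subst hi; simp [e1, e2]
      · by_cases hj : x = j
        · subst hj; simp [hi, e1, e2]
        · simp only [hi, hj, if_false]
          exact p.anti x
    · simp only [h, if_false]
      exact p.anti x
  fix x h := by
    have inv : ∀ x, p (p x) = x := p.inv
    apply p.fix
    grind

/-- Both sites are occupied, and they are not the two ends of the same arc. -/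
abbrev CtOK (i j : α) (p : LPat Γ α) : Prop := i ≠ j ∧ p i ≠ i ∧ p j ≠ j ∧ p i ≠ j

/-- Join the strands at `i` and `j` (no change if the condition does not hold). -/
def cut (i j : α) (p : LPat Γ α) : LPat Γ α where
  f x := if CtOK i j p then
      (if x = i then i else if x = j then j else if x = p i then p j else if x = p j then p i
        else p x) else p x
  s x := if CtOK i j p then
      (if x = i then 0 else if x = j then 0 else if x = p i then p.s j - p.s i
        else if x = p j then p.s i - p.s j else p.s x) else p.s x
  inv x := by
    have inv : ∀ x, p (p x) = x := p.inv
    by_cases h : CtOK i j p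
    · simp only [if_pos h]
      grind
    · simp [h]
  anti x := by
    have inv : ∀ x, p (p x) = x := p.inv
    by_cases h : CtOK i j p
    · simp only [if_pos h]
      obtain ⟨h1, h2, h3, h4⟩ := h
      have h5 : p j ≠ i := fun h => h4 (by rw [← h, inv])
      have h6 : p i ≠ p j := fun h => h1 (by rw [← inv i, h, inv])
      by_cases hi : x = i
      · subst hi; simp
      · by_cases hj : x = j
        · subst hj; simp [hi]
        · by_cases ha : x = p i
          · subst ha; simp [hi, hj, h3, h5, h6.symm]
          · by_cases hb : x = p j
            · subst hb; simp [hi, hj, h2, h4, ha]
            · have h7 : p x ≠ i := fun h => ha (by rw [← h, inv])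
              have h8 : p x ≠ j := fun h => hb (by rw [← h, inv])
              have h9 : p x ≠ p i := fun h => hi (by rw [← inv x, h, inv])
              have h10 : p x ≠ p j := fun h => hj (by rw [← inv x, h, inv])
              simp [hi, hj, ha, hb, h7, h8, h9, h10, p.anti]
    · simp only [if_neg h]
      exact p.anti x
  fix x hx := by
    have inv : ∀ x, p (p x) = x := p.inv
    by_cases h : CtOK i j p
    · simp only [if_pos h] at hx ⊢
      obtain ⟨h1, h2, h3, h4⟩ := h
      by_cases hi : x = i
      · subst hi; simp
      · by_cases hj : x = j
        · subst hj; simp [hi]
        · by_cases ha : x = p i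
          · exfalso; grind
          · by_cases hb : x = p j
            · exfalso; grind
            · simp only [hi, hj, ha, hb, if_false] at hx ⊢
              exact p.fix x hx
    · simp only [if_neg h] at hx ⊢
      exact p.fix x hx

/-- Remove the arc between `i` and `j` (no change if there is no such arc). -/
def rem (i j : α) (p : LPat Γ α) : LPat Γ α where
  f x := if p i = j then (if x = i then i else if x = j then j else p x) else p x
  s x := if p i = j then (if x = i then 0 else if x = j then 0 else p.s x) else p.s x
  inv x := by
    have inv : ∀ x, p (p x) = x := p.inv
    grind
  anti x := by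
    have inv : ∀ x, p (p x) = x := p.inv
    by_cases h : p i = j
    · simp only [h, if_true]
      by_cases hi : x = i
      · subst hi; simp
      · by_cases hj : x = j
        · subst hj; simp [hi]
        · have h1 : p x ≠ i := fun h' => hj (by rw [← h, ← h', inv])
          have h2 : p x ≠ j := fun h' => hi (by rw [← inv x, h', ← h, inv])
          simp [hi, hj, h1, h2, p.anti]
    · simp only [h, if_false]
      exact p.anti x
  fix x hx := by
    have inv : ∀ x, p (p x) = x := p.inv
    by_cases h : p i = j
    · simp only [h, if_true] at hx ⊢
      by_cases hi : x = i
      · subst hi; simp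
      · by_cases hj : x = j
        · subst hj; simp [hi]
        · simp only [hi, hj, if_false] at hx ⊢
          exact p.fix x hx
    · simp only [h, if_false] at hx ⊢
      exact p.fix x hx

/-- Shift of the label of the strand at `i`, seen from `i` (no change if `i` is empty). -/
def tw (i : α) (g : Γ) (p : LPat Γ α) : LPat Γ α where
  f x := p x
  s x := if p i = i then p.s x else if x = i then p.s x + g else if x = p i then p.s x - g else p.s x
  inv x := p.inv x
  anti x := by
    have inv : ∀ x, p (p x) = x := p.inv
    by_cases h : p i = i
    · simp only [h, if_true]
      exact p.anti x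
    · simp only [h, if_false]
      by_cases hi : x = i
      · subst hi
        rw [if_neg h, if_pos rfl, if_pos rfl, p.anti]
        abel
      · by_cases hj : x = p i
        · subst hj
          rw [inv, if_pos rfl, if_neg h, if_pos rfl, p.anti]
          abel
        · have h1 : p x ≠ i := fun h' => hj (by rw [← h', inv])
          have h2 : p x ≠ p i := fun h' => hi (by rw [← inv x, h', inv])
          simp [hi, hj, h1, h2, p.anti]
  fix x hx := by
    by_cases h : p i = i
    · simp only [h, if_true]
      exact p.fix x hx
    · simp only [h, if_false]
      have inv : ∀ x, p (p x) = x := p.inv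
      have h1 : x ≠ i := fun h' => h (h' ▸ hx)
      have h2 : x ≠ p i := fun h' => h (by rw [h', inv] at hx; exact hx.symm)
      simp [h1, h2, p.fix x hx]

end LPat

end Pool.Agent.NUF
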