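import Pool.Agent.HexLoop.Wall
import Pool.Agent.PHW.Num1

/-!
NUL chain H, module H3a: the walks of the parallelogram from or to the walls have o(A) letters in the mean.
-/

set_option autoImplicit false

namespace HexObs

namespace LP

open Complex Finset

namespace WallL

private lemma wl_vt (v : Pt) : Vt v ↔ (v.1 - v.2) % 3 ≠ 1 := by
  unfold Vt cl
  have h : ((v.1 - v.2 : ℤ) : ZMod 3) = ((1 : ℤ) : ZMod 3) ↔ (v.1 - v.2 - 1) % 3 = 0 := by
    rw [ZMod.intCast_eq_intCast_iff]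
    unfold Int.ModEq
    push_cast
    omega
  rw [Int.cast_one] at h
  rw [Ne, h]
  omega

private lemma wl_bd {Ω : Finset Pt} {a : Pt × Pt} (ha : a ∈ bd Ω) : De a ∧ a.1 ∉ Ω ∧ a.1 + a.2 ∈ Ω := by
  unfold bd at ha
  simp only [Finset.mem_filter, Finset.mem_image] at ha
  obtain ⟨⟨p, hp, rfl⟩, h1, h2⟩ := ha
  refine ⟨h1, h2, ?_⟩
  show p.1 - p.2 + p.2 ∈ Ω
  rw [sub_add_cancel]
  exact (Finset.mem_product.1 hp).1

private lemma wl_ex0_sub {Ω : Finset Pt} {p : Pt × Pt} (h : p.1 ∉ Ω) {t : List Bool} (ht : t ∈ ex0 Ω p) :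
    t ∈ exits Ω p.1 p.2 := by
  unfold ex0 at ht
  rw [Finset.mem_filter, mem_arr0] at ht
  obtain ⟨⟨h1, h2⟩, h3⟩ := ht
  rw [mem_exits]
  refine ⟨⟨h1, ?_⟩, h3⟩
  intro i k hik hk
  rcases Nat.eq_zero_or_pos i with hi | hi
  · intro heq
    apply h
    have h4 := h1 k (by omega) hk
    rw [← heq, hi] at h4
    exact h4
  · exact h2 i k hi hik hk

private lemma wl_fb_ge {t : List Bool} (h : -3 ≤ wind t ∧ wind t ≤ 3) :
    Real.cos (3 * Real.pi / 8) * xc ^ t.length ≤ Tube.fb 0 t := by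
  unfold Tube.fb
  rw [add_zero]
  apply mul_le_mul_of_nonneg_right _ (pow_nonneg xc_pos.le _)
  rw [← Real.cos_abs (wind t * (Real.pi / 8))]
  have h3 : (-3 : ℝ) ≤ wind t := by exact_mod_cast h.1
  have h4 : (wind t : ℝ) ≤ 3 := by exact_mod_cast h.2
  have hp := Real.pi_pos
  apply Real.cos_le_cos_of_nonneg_of_le_pi (abs_nonneg _) (by linarith)
  rw [abs_mul, abs_of_pos (by positivity : 0 < Real.pi / 8)]
  have h5 : |(wind t : ℝ)| ≤ 3 := abs_le.2 ⟨h3, h4⟩
  nlinarith

private lemma wl_fb_le (t : List Bool) : Tube.fb 0 t ≤ xc ^ t.length := by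
  unfold Tube.fb
  have h1 := Real.cos_le_one (wind t * (Real.pi / 8) + 0)
  have h2 := pow_nonneg xc_pos.le t.length
  nlinarith

open Classical in
private lemma wl_core {Ω : Finset Pt} {v0 d0 : Pt} (hg : GoodDom Ω v0 d0) (hc : ∀ v ∈ Ω, IsHex v0 d0 v) {h : ℕ}
    (hh : 1 ≤ h) : Real.cos (3 * Real.pi / 8) * ∑ t ∈ (exits Ω v0 d0).filter (fun t => ∃ i, 1 ≤ i ∧ i ≤ t.length ∧
      3 * (h : ℤ) + 2 ≤ ip (vx v0 d0 t i - v0) d0), xc ^ t.length ≤ uu h := by
  set D : Finset Pt := Ω.filter (fun v => ip (v - v0) d0 < 3 * h + 2) with hD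
  have hDs : ∀ v ∈ D, v ∈ strip v0 d0 h := by
    intro v hv
    rw [hD, Finset.mem_filter] at hv
    exact ⟨hc v hv.1, hg.half v hv.1, hv.2⟩
  have h1 := Tube.two_dom (Ω := Ω) (Ω' := D) hg.dir hg.half
    (fun v hv => hg.half v (Finset.mem_of_mem_filter v hv)) 0
  have h2 : Real.cos (3 * Real.pi / 8) * ∑ t ∈ (exits Ω v0 d0).filter (fun t => ∃ i, 1 ≤ i ∧ i ≤ t.length ∧
      3 * (h : ℤ) + 2 ≤ ip (vx v0 d0 t i - v0) d0), xc ^ t.length ≤ ∑ t ∈ exits Ω v0 d0 \ exits D v0 d0, Tube.fb 0 t := by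
    rw [Finset.mul_sum]
    have h3 : ∀ t ∈ exits Ω v0 d0, -3 ≤ wind t ∧ wind t ≤ 3 := by
      intro t ht
      rcases hg.wind_cases ht with h | h | h | h | h | h | h <;> omega
    refine le_trans (Finset.sum_le_sum (fun t ht => wl_fb_ge (h3 t (Finset.mem_filter.1 ht).1))) ?_
    apply Finset.sum_le_sum_of_subset_of_nonneg
    · intro t ht
      rw [Finset.mem_filter] at ht
      obtain ⟨ht1, i, hi1, hi2, hi3⟩ := ht
      rw [Finset.mem_sdiff]
      refine ⟨ht1, fun h4 => ?_⟩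
      have h5 := (mem_exits.1 h4).1.mem i hi1 hi2
      rw [hD, Finset.mem_filter] at h5
      have := h5.2
      omega
    · intro t ht _
      exact Tube.fb_nonneg (by rw [abs_zero]; positivity) (h3 t (Finset.mem_sdiff.1 ht).1)
  have h6 : ∑ t ∈ exits D v0 d0 \ exits Ω v0 d0, Tube.fb 0 t ≤ uu h := by
    refine le_trans (Finset.sum_le_sum (fun t _ => wl_fb_le t)) ?_
    have h7 : gf ((exits D v0 d0 \ exits Ω v0 d0 : Finset (List Bool)) : Set (List Bool)) ≤ BT h := by
      rw [← gf_B hg.dir v0 h]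
      apply gf_mono
      intro t ht
      rw [Finset.mem_coe, Finset.mem_sdiff, mem_exits, mem_exits] at ht
      obtain ⟨⟨a1, a2⟩, a3⟩ := ht
      have a4 : IsArr Ω v0 d0 t := ⟨fun i hi hl => Finset.mem_of_mem_filter _ (a1.mem i hi hl), a1.inj⟩
      have a5 : tip v0 d0 t ∈ Ω := by
        by_contra hcon
        exact a3 ⟨a4, hcon⟩
      have a6 : ¬ ip (tip v0 d0 t - v0) d0 < 3 * h + 2 := by
        intro hcon
        exact a2 (Finset.mem_filter.2 ⟨a5, hcon⟩)
      have a7 : Saw (strip v0 d0 h) v0 d0 t := ⟨fun i hi hl => hDs _ (a1.mem i hi hl), a1.inj⟩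
      have a8 : tip v0 d0 t ∉ strip v0 d0 h := fun hcon => a6 hcon.2.2
      refine ⟨a7, a8, ?_⟩
      rcases strip_exit hg.dir hh a7 a8 with ⟨_, b⟩ | ⟨b, _⟩
      · exfalso
        rw [b] at a6
        apply a6
        positivity
      · exact b
    rw [gf_finset] at h7
    have h8 : BT h ≠ ⊤ := ne_top_of_le_ne_top ENNReal.one_ne_top (BT_le_one hh)
    exact (ENNReal.ofReal_le_iff_le_toReal h8).1 h7
  calc _ ≤ _ := h2
    _ = _ := h1
    _ ≤ _ := h6

/-- the whole mass. -/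
private lemma wl_core0 {Ω : Finset Pt} {v0 d0 : Pt} (hg : GoodDom Ω v0 d0) :
    Real.cos (3 * Real.pi / 8) * ∑ t ∈ exits Ω v0 d0, xc ^ t.length ≤ 1 := by
  have h1 := Tube.sum_fb Ω hg.dir hg.half 0
  rw [Real.cos_zero] at h1
  rw [← h1, Finset.mul_sum]
  apply Finset.sum_le_sum
  intro t ht
  apply wl_fb_ge
  rcases hg.wind_cases ht with h | h | h | h | h | h | h <;> omega

/-- the bridge weights tend to 0. -/
theorem uu_small {ε : ℝ} (hε : 0 < ε) : ∃ h : ℕ, 1 ≤ h ∧ ∀ k : ℕ, h ≤ k → uu k ≤ ε := by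
  obtain ⟨c, hc, h⟩ := Ex.relDecay
  have hc' : 0 < min c 1 := lt_min hc one_pos
  have h1 : ∀ T : ℕ, 1 ≤ T → uu T * (T : ℝ) ^ (min c 1) ≤ 1 := by
    intro T hT
    have h2 := Ex.rd_pow (b := uu) (fun T _ => uu_pos T) hc' (min_le_right _ _) (by
      intro T hT
      have h1 := h T hT
      have h2 : 0 ≤ bT T := bT_nonneg T
      have h3 : min c 1 * bT T ≤ c * bT T := mul_le_mul_of_nonneg_right (min_le_left _ _) h2
      exact h3.trans h1) (le_refl 1) T hT
    have h3 := uu_le_one 1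
    rw [Nat.cast_one, Real.one_rpow, mul_one] at h2
    exact h2.trans h3
  have h4 : Filter.Tendsto (fun T : ℕ => (T : ℝ) ^ (min c 1)) Filter.atTop Filter.atTop :=
    (tendsto_rpow_atTop hc').comp tendsto_natCast_atTop_atTop
  obtain ⟨T, hT1, hT2⟩ := ((Filter.eventually_ge_atTop 1).and (h4.eventually_ge_atTop (1 / ε))).exists
  refine ⟨T, hT1, fun k hk => (uu_anti hk).trans ?_⟩
  have h5 := h1 T hT1
  have h6 : 0 < (T : ℝ) ^ (min c 1) := lt_of_lt_of_le (by positivity) hT2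
  have h7 : uu T * (1 / ε) ≤ 1 := le_trans (mul_le_mul_of_nonneg_left hT2 (uu_pos T).le) h5
  rw [mul_one_div, div_le_one hε] at h7
  exact h7

/-- the walls have few edges. -/
private lemma wl_card {T A B : ℕ} (hT : 1 ≤ T) (hA : 1 ≤ A) (hB : 1 ≤ B) :
    ((bd (Par T A B)).filter (fun a => a.2 ≠ up ∧ a.2 ≠ -up)).card ≤ 2 * (3 * T + 3) := by
  classical
  have h1 : ∀ a ∈ (bd (Par T A B)).filter (fun a => a.2 ≠ up ∧ a.2 ≠ -up),
      ((a.2 = (1, -1) ∧ nn a.1 = -(3 * A : ℤ)) ∨ (a.2 = (-1, 1) ∧ nn a.1 = 3 * B - 1)) ∧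
        0 ≤ lv a.1 ∧ lv a.1 < 3 * T + 3 := by
    intro a ha
    rw [Finset.mem_filter] at ha
    obtain ⟨ha1, ha2, ha3⟩ := ha
    have h2 := (mem_par.1 (wl_bd ha1).2.2).2
    have e1 : lv (a.1 + a.2) = lv a.1 + lv a.2 := by
      unfold lv
      simp only [Prod.fst_add, Prod.snd_add]
      ring
    rw [e1] at h2
    rcases par_bd hT hA hB ha1 with ⟨e, _⟩ | ⟨e, _⟩ | h3 | h3
    · exact absurd e ha2
    · exact absurd e ha3
    · refine ⟨Or.inl h3, ?_⟩
      have e2 : lv a.2 = -1 := by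
        rw [h3.1]
        rfl
      rw [e2] at h2
      omega
    · refine ⟨Or.inr h3, ?_⟩
      have e2 : lv a.2 = 1 := by
        rw [h3.1]
        rfl
      rw [e2] at h2
      omega
  have h2 : ((bd (Par T A B)).filter (fun a => a.2 ≠ up ∧ a.2 ≠ -up)).card ≤
      ((Finset.univ : Finset Bool) ×ˢ Finset.Ico (0 : ℤ) (3 * T + 3)).card := by
    apply Finset.card_le_card_of_injOn (fun a => (decide (a.2 = (1, -1)), lv a.1))
    · intro a ha
      have h3 := (h1 a ha).2
      rw [Finset.mem_coe, Finset.mem_product, Finset.mem_Ico]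
      exact ⟨Finset.mem_univ _, h3⟩
    · intro a ha b hb hab
      obtain ⟨h3, _⟩ := h1 a ha
      obtain ⟨h4, _⟩ := h1 b hb
      have e1 : decide (a.2 = (1, -1)) = decide (b.2 = (1, -1)) := congrArg Prod.fst hab
      have e2 : lv a.1 = lv b.1 := congrArg Prod.snd hab
      have hne : ((-1, 1) : Pt) ≠ (1, -1) := by decide
      have key : a.2 = b.2 ∧ nn a.1 = nn b.1 := by
        rcases h3 with ⟨a1, a2⟩ | ⟨a1, a2⟩ <;> rcases h4 with ⟨b1, b2⟩ | ⟨b1, b2⟩
        · exact ⟨a1.trans b1.symm, a2.trans b2.symm⟩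
        · exfalso
          rw [a1, b1] at e1
          simp at e1
        · exfalso
          rw [a1, b1] at e1
          simp at e1
        · exact ⟨a1.trans b1.symm, a2.trans b2.symm⟩
      obtain ⟨k1, k2⟩ := key
      unfold lv at e2
      unfold nn at k2
      have k3 : a.1.2 = b.1.2 := by linarith
      have k4 : a.1.1 = b.1.1 := by linarith
      exact Prod.ext (Prod.ext k4 k3) k1
  refine h2.trans ?_
  rw [Finset.card_product, Int.card_Ico, Finset.card_univ, Fintype.card_bool]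
  have : (3 * (T : ℤ) + 3 - 0).toNat = 3 * T + 3 := by omega
  rw [this]

/-- hexagonal points. -/
theorem par_hex {T A B : ℕ} {a : Pt × Pt} (ha : a ∈ bd (Par T A B)) : ∀ v ∈ Par T A B, IsHex a.1 a.2 v := by
  intro v hv
  obtain ⟨⟨h1, h2, h3⟩, _, h4⟩ := wl_bd ha
  have h5 := (mem_par.1 hv).1
  have h6 := (mem_par.1 h4).1
  unfold IsHex
  have h7 : cl (a.1 + a.2) = cl a.1 + cl a.2 := cl_add _ _
  have h8 : cl a.2 ≠ 0 := by
    have : ∀ d ∈ dirs, cl d ≠ 0 := by decide
    exact this _ h1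
  unfold Vt at h5 h6 h2
  rw [h7] at h6
  have h10 : ∀ x z w : ZMod 3, (x ≠ 1 ∧ z + w ≠ 1 ∧ w ≠ 0 ∧ z ≠ 1) → (x = z ∨ x = z + w) := by
    decide
  exact h10 _ _ _ ⟨h5, h6, h8, h2⟩

open Classical in
/-- the number of the letters against the distances from the wall. -/
private lemma wl_len {T A B : ℕ} {a : Pt × Pt} {t : List Bool} (ht : t ∈ ex0 (Par T A B) a)
    (ha : (a.2 = (1, -1) ∧ nn a.1 = -(3 * A : ℤ)) ∨ (a.2 = (-1, 1) ∧ nn a.1 = 3 * B - 1)) :
    (t.length : ℝ) ≤ ∑ h ∈ range (A + B), (3 * (3 * T + 2) : ℝ) *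
      (if ∃ i, 1 ≤ i ∧ i ≤ t.length ∧ 3 * (h : ℤ) + 2 ≤ ip (vx a.1 a.2 t i - a.1) a.2 then 1 else 0) := by
  have ht0 : Arr0 (Par T A B) a t := by
    unfold ex0 at ht
    rw [Finset.mem_filter, mem_arr0] at ht
    exact ht.1
  obtain ⟨lam, hlam⟩ : ∃ lam : ℕ → ℤ, lam = fun i => ip (vx a.1 a.2 t i - a.1) a.2 := ⟨_, rfl⟩
  have hlam' : ∀ i, ip (vx a.1 a.2 t i - a.1) a.2 = lam i := fun i => by rw [hlam]
  simp only [hlam']
  have hnn : ∀ i, (a.2 = (1, -1) ∧ nn a.1 = -(3 * A : ℤ) ∧ lam i = nn (vx a.1 a.2 t i) + 3 * A) ∨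
      (a.2 = (-1, 1) ∧ nn a.1 = 3 * B - 1 ∧ lam i = 3 * B - 1 - nn (vx a.1 a.2 t i)) := by
    intro i
    rw [← hlam']
    set v := vx a.1 a.2 t i with hv
    rcases ha with ⟨e, hn⟩ | ⟨e, hn⟩
    · left
      refine ⟨e, hn, ?_⟩
      have e1 : ip (v - a.1) a.2 = nn v - nn a.1 := by
        rw [e]
        unfold ip nn
        simp only [Prod.fst_sub, Prod.snd_sub]
        ring
      rw [e1, hn]
      ring
    · right
      refine ⟨e, hn, ?_⟩
      have e1 : ip (v - a.1) a.2 = nn a.1 - nn v := by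
        rw [e]
        unfold ip nn
        simp only [Prod.fst_sub, Prod.snd_sub]
        ring
      rw [e1, hn]
  have hrange : ∀ i, 1 ≤ i → i ≤ t.length → 2 ≤ lam i ∧ lam i ≤ 3 * (A + B) - 2 := by
    intro i h1 h2
    have h3 := mem_par.1 (ht0.mem i h1 h2)
    obtain ⟨h4, _, _, h5, h6⟩ := h3
    rw [wl_vt] at h4
    have h7 : nn (vx a.1 a.2 t i) % 3 ≠ 1 := h4
    rcases hnn i with ⟨_, _, e⟩ | ⟨_, _, e⟩ <;> rw [e] <;> omega
  have hmaps : ∀ i ∈ Finset.Icc 1 t.length, ((lam i - 2) / 3).toNat ∈ range (A + B) := by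
    intro i hi
    rw [Finset.mem_Icc] at hi
    have := hrange i hi.1 hi.2
    rw [Finset.mem_range]
    omega
  have h1 := Finset.card_eq_sum_card_fiberwise (s := Finset.Icc 1 t.length) (t := range (A + B))
    (f := fun i => ((lam i - 2) / 3).toNat) hmaps
  rw [Nat.card_Icc, Nat.add_sub_cancel] at h1
  have h1' : (t.length : ℝ) = ∑ h ∈ range (A + B),
      (((Finset.Icc 1 t.length).filter (fun i => ((lam i - 2) / 3).toNat = h)).card : ℝ) := by
    exact_mod_cast h1
  refine (le_of_eq h1').trans ?_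
  apply Finset.sum_le_sum
  intro h _
  by_cases he : ((Finset.Icc 1 t.length).filter (fun i => ((lam i - 2) / 3).toNat = h)).Nonempty
  · obtain ⟨i0, hi0⟩ := he
    rw [Finset.mem_filter, Finset.mem_Icc] at hi0
    rw [if_pos]
    · rw [mul_one]
      have h2 : ((Finset.Icc 1 t.length).filter (fun i => ((lam i - 2) / 3).toNat = h)).card ≤
          (Finset.Ico (3 * h + 2 : ℤ) (3 * h + 5) ×ˢ Finset.Ico (0 : ℤ) (3 * T + 2)).card := by
        apply Finset.card_le_card_of_injOn (fun i => (lam i, lv (vx a.1 a.2 t i)))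
        · intro i hi
          rw [Finset.mem_coe, Finset.mem_filter, Finset.mem_Icc] at hi
          have h3 := mem_par.1 (ht0.mem i hi.1.1 hi.1.2)
          have h4 := hrange i hi.1.1 hi.1.2
          rw [Finset.mem_coe, Finset.mem_product, Finset.mem_Ico, Finset.mem_Ico]
          simp only
          omega
        · intro i hi k hk hik
          rw [Finset.mem_coe, Finset.mem_filter, Finset.mem_Icc] at hi hk
          simp only [Prod.mk.injEq] at hik
          have e1 : nn (vx a.1 a.2 t i) = nn (vx a.1 a.2 t k) := by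
            rcases hnn i with ⟨p1, p2, p3⟩ | ⟨p1, p2, p3⟩ <;> rcases hnn k with ⟨q1, q2, q3⟩ | ⟨q1, q2, q3⟩
            · omega
            · exfalso
              rw [p1] at q1
              exact absurd q1 (by decide)
            · exfalso
              rw [p1] at q1
              exact absurd q1 (by decide)
            · omega
          have e2 := hik.2
          have e3 : vx a.1 a.2 t i = vx a.1 a.2 t k := by
            unfold nn at e1
            unfold lv at e2
            apply Prod.ext <;> omega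
          rcases lt_trichotomy i k with h5 | h5 | h5
          · exact absurd e3 (ht0.inj i k hi.1.1 h5 hk.1.2)
          · exact h5
          · exact absurd e3.symm (ht0.inj k i hk.1.1 h5 hi.1.2)
      rw [Finset.card_product, Int.card_Ico, Int.card_Ico] at h2
      have e4 : ((3 * h + 5 : ℤ) - (3 * h + 2)).toNat = 3 := by omega
      have e5 : ((3 * T + 2 : ℤ) - 0).toNat = 3 * T + 2 := by omega
      rw [e4, e5] at h2
      exact_mod_cast h2
    · refine ⟨i0, hi0.1.1, hi0.1.2, ?_⟩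
      have := hrange i0 hi0.1.1 hi0.1.2
      omega
  · rw [Finset.not_nonempty_iff_eq_empty] at he
    rw [he, Finset.card_empty, Nat.cast_zero]
    split_ifs <;> positivity

/-- one start at a wall. -/
private lemma wl_one {T A B : ℕ} (hT : 1 ≤ T) (hA : 1 ≤ A) (hB : 1 ≤ B) {a : Pt × Pt} (ha : a ∈ bd (Par T A B))
    (hw : a.2 ≠ up ∧ a.2 ≠ -up) :
    Real.cos (3 * Real.pi / 8) * ∑ t ∈ ex0 (Par T A B) a, (t.length : ℝ) * xc ^ t.length ≤
      (3 * (3 * T + 2)) * ∑ h ∈ range (A + B), uu h := by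
  classical
  have hx := xc_pos
  have hcos := cos3_pos
  have ha' : (a.2 = (1, -1) ∧ nn a.1 = -(3 * A : ℤ)) ∨ (a.2 = (-1, 1) ∧ nn a.1 = 3 * B - 1) := by
    rcases par_bd hT hA hB ha with ⟨e, _⟩ | ⟨e, _⟩ | h3 | h3
    · exact absurd e hw.1
    · exact absurd e hw.2
    · exact Or.inl h3
    · exact Or.inr h3
  have h1 : ∑ t ∈ ex0 (Par T A B) a, (t.length : ℝ) * xc ^ t.length ≤ ∑ t ∈ ex0 (Par T A B) a,
      ∑ h ∈ range (A + B), (3 * (3 * T + 2) : ℝ) * (if ∃ i, 1 ≤ i ∧ i ≤ t.length ∧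
        3 * (h : ℤ) + 2 ≤ ip (vx a.1 a.2 t i - a.1) a.2 then xc ^ t.length else 0) := by
    apply Finset.sum_le_sum
    intro t ht
    refine (mul_le_mul_of_nonneg_right (wl_len ht ha') (pow_nonneg hx.le _)).trans (le_of_eq ?_)
    rw [Finset.sum_mul]
    apply Finset.sum_congr rfl
    intro h _
    rw [mul_assoc]
    congr 1
    split_ifs
    · rw [one_mul]
    · rw [zero_mul]
  rw [Finset.sum_comm] at h1
  have h2 : ∀ h ∈ range (A + B), Real.cos (3 * Real.pi / 8) * ∑ t ∈ ex0 (Par T A B) a, (3 * (3 * T + 2) : ℝ) *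
      (if ∃ i, 1 ≤ i ∧ i ≤ t.length ∧ 3 * (h : ℤ) + 2 ≤ ip (vx a.1 a.2 t i - a.1) a.2 then xc ^ t.length else 0) ≤
        (3 * (3 * T + 2)) * uu h := by
    intro h _
    rw [← Finset.mul_sum, mul_left_comm]
    apply mul_le_mul_of_nonneg_left _ (by positivity)
    have hsub : ∀ t ∈ ex0 (Par T A B) a, t ∈ exits (Par T A B) a.1 a.2 := fun t ht => wl_ex0_sub (wl_bd ha).2.1 ht
    rcases Nat.eq_zero_or_pos h with h0 | h0
    · rw [h0, uu_zero]
      refine le_trans (mul_le_mul_of_nonneg_left ?_ hcos.le) (wl_core0 (par_good hT hA hB ha))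
      refine le_trans (Finset.sum_le_sum (g := fun t => xc ^ t.length) ?_)
        (Finset.sum_le_sum_of_subset_of_nonneg hsub (fun t _ _ => pow_nonneg hx.le _))
      intro t _
      split_ifs
      · exact le_rfl
      · exact pow_nonneg hx.le _
    · refine le_trans (mul_le_mul_of_nonneg_left ?_ hcos.le) (wl_core (par_good hT hA hB ha) (par_hex ha) h0)
      rw [← Finset.sum_filter]
      apply Finset.sum_le_sum_of_subset_of_nonneg
      · intro t ht
        rw [Finset.mem_filter] at ht ⊢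
        exact ⟨hsub t ht.1, ht.2⟩
      · intro t _ _
        exact pow_nonneg hx.le _
  refine (mul_le_mul_of_nonneg_left h1 hcos.le).trans ?_
  rw [Finset.mul_sum, Finset.mul_sum]
  exact Finset.sum_le_sum h2

end WallL

open Classical in
/-- the walks from the walls and to the walls. -/
theorem wall_len {T : ℕ} (hT : 1 ≤ T) {ε : ℝ} (hε : 0 < ε) : ∃ A0 : ℕ, 1 ≤ A0 ∧ ∀ A : ℕ, A0 ≤ A →
    ∑ a ∈ bd (Par T A A), ∑ t ∈ (ex0 (Par T A A) a).filter (fun t =>
      (a.2 ≠ up ∧ a.2 ≠ -up) ∨ (dx a.2 t t.length ≠ up ∧ dx a.2 t t.length ≠ -up)),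
        (t.length : ℝ) * xc ^ t.length ≤ ε * A := by
  have hcos := cos3_pos
  have hx := xc_pos
  obtain ⟨K, hK⟩ : ∃ K : ℝ, K = 2 * (2 * (3 * T + 3)) * (3 * (3 * T + 2)) / Real.cos (3 * Real.pi / 8) := ⟨_, rfl⟩
  have hKp : 0 < K := by rw [hK]; positivity
  obtain ⟨h0, hh0, hu⟩ := WallL.uu_small (ε := ε / (4 * K)) (by positivity)
  obtain ⟨A0, hA0⟩ := exists_nat_gt (2 * K * h0 / ε)
  refine ⟨A0 + 1, by omega, ?_⟩
  intro A hA
  have hA1 : 1 ≤ A := by omega
  -- Cesaro
  have hces : ∑ h ∈ range (A + A), uu h ≤ h0 + ε / (4 * K) * (A + A) := by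
    have h1 : ∀ h ∈ range (A + A), uu h ≤ (if h < h0 then 1 else 0) + ε / (4 * K) := by
      intro h _
      have hp : 0 < ε / (4 * K) := by positivity
      split_ifs with hc
      · have := uu_le_one h
        linarith
      · rw [zero_add]
        exact hu h (by omega)
    refine (Finset.sum_le_sum h1).trans ?_
    rw [Finset.sum_add_distrib, Finset.sum_const, Finset.card_range, nsmul_eq_mul, ← Finset.sum_filter,
      Finset.sum_const, nsmul_eq_mul, mul_one]
    have h2 : ((range (A + A)).filter (fun h => h < h0)).card ≤ h0 := by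
      refine (Finset.card_le_card (t := range h0) ?_).trans (by rw [Finset.card_range])
      intro h hh
      rw [Finset.mem_filter] at hh
      exact Finset.mem_range.2 hh.2
    have h3 : (((range (A + A)).filter (fun h => h < h0)).card : ℝ) ≤ h0 := by exact_mod_cast h2
    push_cast
    linarith
  set S := ∑ a ∈ bd (Par T A A), ∑ t ∈ ex0 (Par T A A) a,
      (if a.2 ≠ up ∧ a.2 ≠ -up then (t.length : ℝ) * xc ^ t.length else 0) with hS
  have h2 : ∑ a ∈ bd (Par T A A), ∑ t ∈ (ex0 (Par T A A) a).filter (fun t =>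
      (a.2 ≠ up ∧ a.2 ≠ -up) ∨ (dx a.2 t t.length ≠ up ∧ dx a.2 t t.length ≠ -up)),
        (t.length : ℝ) * xc ^ t.length ≤ S + ∑ a ∈ bd (Par T A A), ∑ t ∈ ex0 (Par T A A) a,
      (if dx a.2 t t.length ≠ up ∧ dx a.2 t t.length ≠ -up then (t.length : ℝ) * xc ^ t.length else 0) := by
    rw [hS, ← Finset.sum_add_distrib]
    apply Finset.sum_le_sum
    intro a _
    rw [← Finset.sum_add_distrib, Finset.sum_filter]
    apply Finset.sum_le_sum
    intro t _
    have hx : 0 ≤ (t.length : ℝ) * xc ^ t.length := by positivity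
    by_cases p : a.2 ≠ up ∧ a.2 ≠ -up
    · by_cases q : dx a.2 t t.length ≠ up ∧ dx a.2 t t.length ≠ -up
      · rw [if_pos (Or.inl p), if_pos p, if_pos q]
        linarith
      · rw [if_pos (Or.inl p), if_pos p, if_neg q]
        linarith
    · by_cases q : dx a.2 t t.length ≠ up ∧ dx a.2 t t.length ≠ -up
      · rw [if_pos (Or.inr q), if_neg p, if_pos q]
        linarith
      · rw [if_neg (fun h => h.elim p q), if_neg p, if_neg q]
        linarith
  have hvt : ∀ v ∈ Par T A A, Vt v := fun v hv => (mem_par.1 hv).1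
  have h3 : ∑ a ∈ bd (Par T A A), ∑ t ∈ ex0 (Par T A A) a,
      (if dx a.2 t t.length ≠ up ∧ dx a.2 t t.length ≠ -up then (t.length : ℝ) * xc ^ t.length else 0) = S := by
    rw [rev_ex hvt (fun a t => if dx a.2 t t.length ≠ up ∧ dx a.2 t t.length ≠ -up then
      (t.length : ℝ) * xc ^ t.length else 0), hS]
    apply Finset.sum_congr rfl
    intro a ha
    apply Finset.sum_congr rfl
    intro t _
    rw [rev_length]
    have e2 : dx (rv (le a t)).2 (rev t) t.length = -a.2 := by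
      have := dx_rev a.2 t t.length le_rfl
      rw [Nat.sub_self] at this
      exact this
    rw [e2]
    have e3 : (-a.2 ≠ up ∧ -a.2 ≠ -up) ↔ (a.2 ≠ up ∧ a.2 ≠ -up) := by
      constructor
      · rintro ⟨h1, h2⟩
        exact ⟨fun e => h2 (by rw [e]), fun e => h1 (by rw [e, neg_neg])⟩
      · rintro ⟨h1, h2⟩
        exact ⟨fun e => h2 (by rw [← e, neg_neg]), fun e => h1 (neg_injective e)⟩
    by_cases c : a.2 ≠ up ∧ a.2 ≠ -up
    · rw [if_pos c, if_pos (e3.2 c)]
    · rw [if_neg c, if_neg (fun h => c (e3.1 h))]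
  have h4 : Real.cos (3 * Real.pi / 8) * S ≤ (2 * (3 * T + 3)) * ((3 * (3 * T + 2)) * ∑ h ∈ range (A + A), uu h) := by
    have h5 : ∀ a ∈ bd (Par T A A), Real.cos (3 * Real.pi / 8) * ∑ t ∈ ex0 (Par T A A) a,
        (if a.2 ≠ up ∧ a.2 ≠ -up then (t.length : ℝ) * xc ^ t.length else 0) ≤
        if a.2 ≠ up ∧ a.2 ≠ -up then (3 * (3 * T + 2)) * ∑ h ∈ range (A + A), uu h else 0 := by
      intro a ha
      by_cases hw : a.2 ≠ up ∧ a.2 ≠ -up
      · rw [if_pos hw]
        simp only [if_pos hw]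
        exact WallL.wl_one hT hA1 hA1 ha hw
      · rw [if_neg hw]
        simp only [if_neg hw]
        rw [Finset.sum_const_zero, mul_zero]
    rw [hS, Finset.mul_sum]
    refine (Finset.sum_le_sum h5).trans ?_
    rw [← Finset.sum_filter, Finset.sum_const, nsmul_eq_mul]
    apply mul_le_mul_of_nonneg_right
    · have := WallL.wl_card hT hA1 hA1
      exact_mod_cast this
    · exact mul_nonneg (by positivity) (Finset.sum_nonneg (fun h _ => (uu_pos h).le))
  have h6 : S ≤ K / 2 * ∑ h ∈ range (A + A), uu h := by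
    rw [hK]
    have h7 : S ≤ (2 * (3 * T + 3)) * ((3 * (3 * T + 2)) * ∑ h ∈ range (A + A), uu h) / Real.cos (3 * Real.pi / 8) := by
      rw [le_div_iff₀ hcos]
      linarith
    refine h7.trans (le_of_eq ?_)
    field_simp
  have h8 : K * (h0 : ℝ) ≤ ε * A / 2 := by
    rw [div_lt_iff₀ hε] at hA0
    have : (A0 : ℝ) ≤ A := by exact_mod_cast (by omega : A0 ≤ A)
    nlinarith
  have h9 : K * (ε / (4 * K) * (A + A)) = ε * A / 2 := by
    field_simp
    ring
  calc _ ≤ S + _ := h2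
    _ = S + S := by rw [h3]
    _ ≤ K * ∑ h ∈ range (A + A), uu h := by linarith
    _ ≤ K * (h0 + ε / (4 * K) * (A + A)) := mul_le_mul_of_nonneg_left hces hKp.le
    _ = K * h0 + K * (ε / (4 * K) * (A + A)) := by ring
    _ ≤ ε * A := by rw [h9]; linarith

end LP

end HexObs
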