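import Pool.Agent.NUF.HNF
import Pool.Agent.NUF.WallL
import Pool.Agent.PHW.Base

/-!
NUL chain H, module H3: lower bound for the number of the letters of the arcs and bridges of a strip.
-/

set_option autoImplicit false

namespace HexObs

namespace LP

open Complex Finset

open scoped ENNReal

/-- the number of the letters, summed over the words of P with the critical weight. -/
noncomputable def lenW (P : Set (List Bool)) : ℝ≥0∞ := ∑' t : P, ((t : List Bool).length : ℝ≥0∞) * wE t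

/-- the bridges and the arcs of the strip of height T. -/
noncomputable def MT (T : ℕ) : ℝ≥0∞ := lenW (Brd T) + lenW (Dn (St T) ∅ oo up)

lemma sum_le_lenW {F : Finset (List Bool)} {P : Set (List Bool)} (h : ∀ t ∈ F, t ∈ P) :
    ∑ t ∈ F, (t.length : ℝ≥0∞) * wE t ≤ lenW P := by
  unfold lenW
  rw [tsum_subtype P (fun t => (t.length : ℝ≥0∞) * wE t)]
  calc ∑ t ∈ F, (t.length : ℝ≥0∞) * wE t = ∑ t ∈ F, P.indicator (fun t => (t.length : ℝ≥0∞) * wE t) t :=
        Finset.sum_congr rfl (fun t ht => by rw [Set.indicator_of_mem (h t ht)])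
    _ ≤ _ := ENNReal.sum_le_tsum _

namespace MTl

private lemma ml_bd {Ω : Finset Pt} {a : Pt × Pt} : a ∈ bd Ω ↔ De a ∧ a.1 ∉ Ω ∧ a.1 + a.2 ∈ Ω := by
  unfold bd
  simp only [Finset.mem_filter, Finset.mem_image, Finset.mem_product]
  constructor
  · rintro ⟨⟨q, ⟨h1, h2⟩, rfl⟩, h3, h4⟩
    refine ⟨h3, h4, ?_⟩
    show q.1 - q.2 + q.2 ∈ Ω
    rw [sub_add_cancel]
    exact h1
  · rintro ⟨h1, h2, h3⟩
    refine ⟨⟨(a.1 + a.2, a.2), ⟨h3, h1.1⟩, ?_⟩, h1, h2⟩
    show (a.1 + a.2 - a.2, a.2) = a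
    rw [add_sub_cancel_right]

private lemma ml_ip (v : Pt) : ip v up = lv v := by
  unfold ip up lv
  ring

private lemma ml_ipn (v : Pt) : ip v (-up) = -lv v := by
  unfold ip up lv
  simp only [Prod.fst_neg, Prod.snd_neg]
  ring

private lemma ml_lvsub (v w : Pt) : lv (v - w) = lv v - lv w := by
  unfold lv
  simp only [Prod.fst_sub, Prod.snd_sub]
  ring

private lemma ml_upne : up ≠ -up := by decide

/-- the level of the point v in the strip of the boundary edge a. -/
private lemma ml_lev {T A B : ℕ} (hT : 1 ≤ T) (hA : 1 ≤ A) (hB : 1 ≤ B) {a : Pt × Pt} (ha : a ∈ bd (Par T A B))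
    (hu : a.2 = up ∨ a.2 = -up) : (∀ v, ip (v - a.1) a.2 = lv v) ∨ (∀ v, ip (v - a.1) a.2 = 3 * T + 2 - lv v) := by
  rcases par_bd hT hA hB ha with ⟨e, h⟩ | ⟨e, h⟩ | ⟨e, h⟩ | ⟨e, h⟩
  · left
    intro v
    rw [e, ml_ip, ml_lvsub, h, sub_zero]
  · right
    intro v
    rw [e, ml_ipn, ml_lvsub, h]
    ring
  · exfalso
    rcases hu with h1 | h1 <;> rw [e] at h1 <;> exact absurd h1 (by decide)
  · exfalso
    rcases hu with h1 | h1 <;> rw [e] at h1 <;> exact absurd h1 (by decide)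

/-- the words from the floor or the ceiling to the floor or the ceiling are words of the strip. -/
private lemma ml_out {T A B : ℕ} (hT : 1 ≤ T) (hA : 1 ≤ A) (hB : 1 ≤ B) {a : Pt × Pt} (ha : a ∈ bd (Par T A B))
    (hu : a.2 = up ∨ a.2 = -up) {t : List Bool} (ht : t ∈ ex0 (Par T A B) a)
    (he : dx a.2 t t.length = up ∨ dx a.2 t t.length = -up) :
    t ∈ out (strip a.1 a.2 T) a.1 a.2 (dx a.2 t t.length) := by
  have ha' := ml_bd.1 ha
  have hlev := ml_lev hT hA hB ha hu
  unfold ex0 at ht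
  rw [Finset.mem_filter, mem_arr0] at ht
  obtain ⟨ht1, ht2⟩ := ht
  have hlen : 1 ≤ t.length := by
    by_contra hcon
    have h0 : t.length = 0 := by omega
    apply ht2
    unfold tp tip
    rw [h0]
    exact ha'.2.2
  have hstrip : ∀ v ∈ Par T A B, v ∈ strip a.1 a.2 T := by
    intro v hv
    refine ⟨WallL.par_hex ha v hv, ?_⟩
    have h1 := mem_par.1 hv
    rcases hlev with h | h
    · rw [h]
      exact ⟨h1.2.1, h1.2.2.1⟩
    · rw [h]
      exact ⟨by linarith [h1.2.2.1], by linarith [h1.2.1]⟩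
  refine ⟨⟨fun i hi hl => hstrip _ (ht1.mem i hi hl), ?_⟩, ?_, rfl⟩
  · intro i k hik hk
    rcases Nat.eq_zero_or_pos i with hi | hi
    · intro heq
      apply ha'.2.1
      have h4 := ht1.mem k (by omega) hk
      rw [← heq, hi] at h4
      exact h4
    · exact ht1.inj i k hi hik hk
  · intro hin
    have hde : De (vx a.1 a.2 t t.length, dx a.2 t t.length) := de_vx (p := a) ha'.1 t t.length
    have hb : (tip a.1 a.2 t, -dx a.2 t t.length) ∈ bd (Par T A B) := by
      rw [ml_bd]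
      refine ⟨⟨neg_mem_dirs hde.1, hde.2.2, ?_⟩, ht2, ?_⟩
      · show Vt (vx a.1 a.2 t t.length + dx a.2 t t.length + -dx a.2 t t.length)
        rw [add_neg_cancel_right]
        exact hde.2.1
      · show vx a.1 a.2 t t.length + dx a.2 t t.length + -dx a.2 t t.length ∈ Par T A B
        rw [add_neg_cancel_right]
        exact ht1.mem _ hlen le_rfl
    have h2 : lv (tip a.1 a.2 t) = 0 ∨ lv (tip a.1 a.2 t) = 3 * T + 2 := by
      rcases par_bd hT hA hB hb with ⟨_, h⟩ | ⟨_, h⟩ | ⟨e, _⟩ | ⟨e, _⟩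
      · exact Or.inl h
      · exact Or.inr h
      · exfalso
        simp only at e
        rcases he with h1 | h1 <;> rw [h1] at e <;> exact absurd e (by decide)
      · exfalso
        simp only at e
        rcases he with h1 | h1 <;> rw [h1] at e <;> exact absurd e (by decide)
    have h3 := hin.2
    rcases hlev with h | h <;> rw [h] at h3 <;> rcases h2 with h2 | h2 <;> rw [h2] at h3 <;> omega

private lemma ml_brd (T : ℕ) : out (strip oo up T) oo up up = Brd T := by
  unfold Brd Br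
  rw [Set.sdiff_empty]
  rfl

private lemma ml_dn (T : ℕ) : out (strip oo up T) oo up (-up) = Dn (St T) ∅ oo up := by
  unfold Dn
  rw [Set.sdiff_empty]
  rfl

open Classical in
/-- one start at the floor or at the ceiling. -/
private lemma ml_one {T A B : ℕ} (hT : 1 ≤ T) (hA : 1 ≤ A) (hB : 1 ≤ B) {a : Pt × Pt} (ha : a ∈ bd (Par T A B))
    (hu : a.2 = up ∨ a.2 = -up) :
    ∑ t ∈ (ex0 (Par T A B) a).filter (fun t => dx a.2 t t.length = up ∨ dx a.2 t t.length = -up),
      (t.length : ℝ≥0∞) * wE t ≤ MT T := by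
  have hd : a.2 ∈ dirs := (ml_bd.1 ha).1.1
  rw [← Finset.sum_filter_add_sum_filter_not _ (fun t => dx a.2 t t.length = a.2)]
  unfold MT
  apply add_le_add
  · apply sum_le_lenW
    intro t ht
    rw [Finset.mem_filter, Finset.mem_filter] at ht
    have h1 := ml_out hT hA hB ha hu ht.1.1 ht.1.2
    rw [ht.2, (strip_rot hd (show up ∈ dirs by decide) a.1 oo T).1, ml_brd] at h1
    exact h1
  · apply sum_le_lenW
    intro t ht
    rw [Finset.mem_filter, Finset.mem_filter] at ht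
    have h1 := ml_out hT hA hB ha hu ht.1.1 ht.1.2
    have h2 : dx a.2 t t.length = -a.2 := by
      have h3 := ht.2
      rcases hu with h4 | h4 <;> rcases ht.1.2 with h5 | h5
      · exact absurd (h5.trans h4.symm) h3
      · rw [h5, h4]
      · rw [h5, h4, neg_neg]
      · exact absurd (h5.trans h4.symm) h3
    rw [h2, (strip_rot hd (show up ∈ dirs by decide) a.1 oo T).2, ml_dn] at h1
    exact h1

/-- the number of the starts at the floor and the ceiling. -/
private lemma ml_card {T A : ℕ} (hT : 1 ≤ T) (hA : 1 ≤ A) :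
    ((bd (Par T A A)).filter (fun a => a.2 = up ∨ a.2 = -up)).card ≤ 4 * A := by
  classical
  have h1 : ∀ a ∈ (bd (Par T A A)).filter (fun a => a.2 = up ∨ a.2 = -up),
      (a.2 = up ∧ lv a.1 = 0 ∧ nn a.1 % 3 = 0 ∧ -(A : ℤ) ≤ nn a.1 / 3 ∧ nn a.1 / 3 < A) ∨
      (a.2 = -up ∧ lv a.1 = 3 * T + 2 ∧ nn a.1 % 3 = 2 ∧ -(A : ℤ) ≤ nn a.1 / 3 ∧ nn a.1 / 3 < A) := by
    intro a ha
    rw [Finset.mem_filter] at ha
    obtain ⟨ha1, ha2⟩ := ha
    have h2 := (mem_par.1 (ml_bd.1 ha1).2.2)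
    obtain ⟨⟨x, y⟩, d⟩ := a
    rcases par_bd hT hA hA ha1 with ⟨e, h⟩ | ⟨e, h⟩ | ⟨e, h⟩ | ⟨e, h⟩
    · left
      simp only at e
      subst e
      refine ⟨rfl, h, ?_⟩
      unfold lv nn up at *
      simp only [Prod.mk_add_mk] at *
      omega
    · right
      simp only at e
      subst e
      refine ⟨rfl, h, ?_⟩
      unfold lv nn up at *
      simp only [Prod.mk_add_mk, Prod.neg_mk] at *
      omega
    · exfalso
      simp only at e ha2
      rw [e] at ha2
      rcases ha2 with h1 | h1 <;> exact absurd h1 (by decide)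
    · exfalso
      simp only at e ha2
      rw [e] at ha2
      rcases ha2 with h1 | h1 <;> exact absurd h1 (by decide)
  have h2 : ((bd (Par T A A)).filter (fun a => a.2 = up ∨ a.2 = -up)).card ≤
      ((Finset.univ : Finset Bool) ×ˢ Finset.Ico (-(A : ℤ)) A).card := by
    apply Finset.card_le_card_of_injOn (fun a => (decide (a.2 = up), nn a.1 / 3))
    · intro a ha
      rw [Finset.mem_coe, Finset.mem_product, Finset.mem_Ico]
      refine ⟨Finset.mem_univ _, ?_⟩
      rcases h1 a ha with ⟨_, _, _, h3⟩ | ⟨_, _, _, h3⟩ <;> exact h3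
    · intro a ha b hb hab
      have e1 : decide (a.2 = up) = decide (b.2 = up) := congrArg Prod.fst hab
      have e2 : nn a.1 / 3 = nn b.1 / 3 := congrArg Prod.snd hab
      have hne : -up ≠ up := by decide
      have key : a.2 = b.2 ∧ nn a.1 = nn b.1 ∧ lv a.1 = lv b.1 := by
        rcases h1 a ha with ⟨a1, a2, a3, _⟩ | ⟨a1, a2, a3, _⟩ <;> rcases h1 b hb with ⟨b1, b2, b3, _⟩ | ⟨b1, b2, b3, _⟩
        · exact ⟨a1.trans b1.symm, by omega, by omega⟩
        · exfalso
          rw [a1, b1] at e1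
          simp [hne] at e1
        · exfalso
          rw [a1, b1] at e1
          simp [hne] at e1
        · exact ⟨a1.trans b1.symm, by omega, by omega⟩
      obtain ⟨k1, k2, k5⟩ := key
      unfold lv at k5
      unfold nn at k2
      have k3 : a.1.2 = b.1.2 := by linarith
      have k4 : a.1.1 = b.1.1 := by linarith
      exact Prod.ext (Prod.ext k4 k3) k1
  refine h2.trans ?_
  rw [Finset.card_product, Int.card_Ico, Finset.card_univ, Fintype.card_bool]
  have : ((A : ℤ) - -(A : ℤ)).toNat = 2 * A := by omega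
  rw [this]
  omega

/-- the walks counted with the number of the vertices. -/
private lemma ml_HH (Ω : Finset Pt) : ∑ v ∈ Ω, HH Ω {v} ≤ ∑ a ∈ bd Ω, ∑ t ∈ ex0 Ω a, (t.length : ℝ) * xc ^ t.length := by
  classical
  have hx := xc_pos
  have h1 : ∀ v ∈ Ω, HH Ω {v} = ∑ a ∈ bd Ω, ∑ t ∈ ex0 Ω a, (if Hit {v} a t then
      Real.cos (wind t * (Real.pi / 8)) * xc ^ t.length else 0) := by
    intro v _
    unfold HH
    apply Finset.sum_congr rfl
    intro a _
    rw [Finset.sum_filter]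
  rw [Finset.sum_congr rfl h1, Finset.sum_comm]
  apply Finset.sum_le_sum
  intro a _
  rw [Finset.sum_comm]
  apply Finset.sum_le_sum
  intro t _
  rw [← Finset.sum_filter, Finset.sum_const, nsmul_eq_mul]
  have h2 : (Ω.filter (fun v => Hit {v} a t)).card ≤ t.length := by
    have h3 : Ω.filter (fun v => Hit {v} a t) ⊆ (Finset.Icc 1 t.length).image (fun i => vx a.1 a.2 t i) := by
      intro v hv
      rw [Finset.mem_filter] at hv
      obtain ⟨_, i, hi1, hi2, hi3⟩ := hv
      rw [Finset.mem_singleton] at hi3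
      rw [Finset.mem_image]
      exact ⟨i, Finset.mem_Icc.2 ⟨hi1, hi2⟩, hi3⟩
    refine (Finset.card_le_card h3).trans (Finset.card_image_le.trans ?_)
    rw [Nat.card_Icc]
    omega
  have h3 : ((Ω.filter (fun v => Hit {v} a t)).card : ℝ) ≤ t.length := by exact_mod_cast h2
  have h4 := Real.cos_le_one (wind t * (Real.pi / 8))
  have h5 : (0 : ℝ) ≤ ((Ω.filter (fun v => Hit {v} a t)).card : ℝ) := Nat.cast_nonneg _
  have h6 : 0 < xc ^ t.length := pow_pos hx _
  calc ((Ω.filter (fun v => Hit {v} a t)).card : ℝ) * (Real.cos (wind t * (Real.pi / 8)) * xc ^ t.length) ≤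
      ((Ω.filter (fun v => Hit {v} a t)).card : ℝ) * (1 * xc ^ t.length) := by gcongr
    _ ≤ _ := by
      rw [one_mul]
      gcongr

/-- the vertices in the middle. -/
private def mv (x : ℤ × ℤ) : Pt := (2 * x.2 + x.1, x.1 - x.2)

private lemma ml_fcs (v : Pt) (hv : cl v = 0) : fcs v = {v + (1, 0), v + (-1, 1), v + (0, -1)} := by
  have h1 : fcs v = (dirs.filter (fun d => cl d = 1)).image (fun d => v + d) := by
    unfold fcs
    rw [Finset.filter_image]
    congr 1
    apply Finset.filter_congr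
    intro d _
    rw [cl_add, hv, zero_add]
  have h2 : dirs.filter (fun d => cl d = 1) = {(1, 0), (-1, 1), (0, -1)} := by decide
  rw [h1, h2, Finset.image_insert, Finset.image_insert, Finset.image_singleton]

private lemma ml_clz (x : ℤ × ℤ) : cl (mv x) = 0 := by
  unfold cl mv
  simp only
  have : (2 * x.2 + x.1 - (x.1 - x.2) : ℤ) = 3 * x.2 := by ring
  rw [this]
  push_cast
  have : (3 : ZMod 3) = 0 := by decide
  rw [this, zero_mul]

/-- the gas of the faces in the middle contains the gas of the small parallelogram. -/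
private lemma ml_face {T A m M : ℕ} {f : Pt} (hf : cl f = 1) (h1 : (3 * m : ℤ) ≤ lv f) (h2 : lv f + 3 * m ≤ 3 * T + 2)
    (h3 : -(3 * A : ℤ) + 3 * M ≤ nn f) (h4 : nn f + 3 * M ≤ 3 * A - 1) :
    NF (2 : ℝ) (PP m M) f0 ≤ NF (2 : ℝ) (Par T A A) f := by
  have hz : cl (f - f0) = 0 := by
    rw [cl_sub, hf]
    decide
  have e1 := NF_tr (2 : ℝ) hz (PP m M) f0
  have e2 : f0 + (f - f0) = f := by abel
  rw [e2] at e1
  rw [← e1]
  apply NF_mono (by norm_num)
  intro v hv
  rw [mem_Ti, mem_PP] at hv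
  obtain ⟨g1, g2, g3⟩ := hv
  rw [mem_par]
  have e3 : v = (v - (f - f0)) + (f - f0) := by abel
  refine ⟨?_, ?_⟩
  · rw [e3, tr_Vt hz]
    exact g1
  · rw [abs_lt] at g2 g3
    unfold lv nn f0 at *
    simp only [Prod.fst_sub, Prod.snd_sub] at *
    omega

/-- the sum over the vertices in the middle. -/
private lemma ml_low {T A m M : ℕ} :
    3 * r2 * NF (2 : ℝ) (PP m M) f0 * (((T - 2 * m : ℕ) : ℝ) * ((2 * A - 2 * M - 1 : ℕ) : ℝ)) ≤
      ∑ v ∈ Par T A A, HH (Par T A A) {v} := by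
  classical
  have hr := r2_pos
  have hN : 1 ≤ NF (2 : ℝ) (PP m M) f0 := one_le_NF (by norm_num) _ _
  have hfull := par_full T A A
  set S : Finset (ℤ × ℤ) := Finset.Icc (m + 1 : ℤ) (T - m) ×ˢ Finset.Icc (-(A : ℤ) + M + 1) (A - M - 1) with hS
  have hinj : Set.InjOn mv (S : Set (ℤ × ℤ)) := by
    intro x _ y _ h
    unfold mv at h
    simp only [Prod.mk.injEq] at h
    apply Prod.ext <;> omega
  have hmem : ∀ x ∈ S, mv x ∈ Par T A A := by
    intro x hx
    rw [hS, Finset.mem_product, Finset.mem_Icc, Finset.mem_Icc] at hx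
    rw [mem_par]
    refine ⟨?_, ?_⟩
    · unfold Vt
      rw [ml_clz]
      decide
    · unfold mv lv nn
      simp only
      omega
  have hval : ∀ x ∈ S, 3 * r2 * NF (2 : ℝ) (PP m M) f0 ≤ HH (Par T A A) {mv x} := by
    intro x hx
    have h1 := (HH_NF hfull (hmem x hx)).1
    refine le_trans ?_ h1
    rw [ml_fcs _ (ml_clz x)]
    rw [hS, Finset.mem_product, Finset.mem_Icc, Finset.mem_Icc] at hx
    have k1 : ∀ e : Pt, (e = (1, 0) ∨ e = (-1, 1) ∨ e = (0, -1)) →
        NF (2 : ℝ) (PP m M) f0 ≤ NF (2 : ℝ) (Par T A A) (mv x + e) := by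
      intro e he
      apply ml_face
      · rw [cl_add, ml_clz, zero_add]
        rcases he with rfl | rfl | rfl <;> decide
      all_goals
        unfold mv
        rcases he with rfl | rfl | rfl <;> simp only [lv, nn, Prod.mk_add_mk] <;> omega
    rw [Finset.sum_insert, Finset.sum_insert, Finset.sum_singleton]
    · have a1 := k1 (1, 0) (Or.inl rfl)
      have a2 := k1 (-1, 1) (Or.inr (Or.inl rfl))
      have a3 := k1 (0, -1) (Or.inr (Or.inr rfl))
      have a4 : 3 * NF (2 : ℝ) (PP m M) f0 ≤ NF (2 : ℝ) (Par T A A) (mv x + (1, 0)) +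
        (NF (2 : ℝ) (Par T A A) (mv x + (-1, 1)) + NF (2 : ℝ) (Par T A A) (mv x + (0, -1))) := by linarith
      calc 3 * r2 * NF (2 : ℝ) (PP m M) f0 = r2 * (3 * NF (2 : ℝ) (PP m M) f0) := by ring
        _ ≤ _ := mul_le_mul_of_nonneg_left a4 hr.le
    · rw [Finset.mem_singleton]
      intro h
      exact absurd (add_left_cancel h) (by decide)
    · rw [Finset.mem_insert, Finset.mem_singleton]
      rintro (h | h) <;> exact absurd (add_left_cancel h) (by decide)
  have h2 : ∑ x ∈ S, HH (Par T A A) {mv x} = ∑ v ∈ S.image mv, HH (Par T A A) {v} := by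
    rw [Finset.sum_image (fun a ha b hb h => hinj ha hb h)]
  have h3 : ∑ v ∈ S.image mv, HH (Par T A A) {v} ≤ ∑ v ∈ Par T A A, HH (Par T A A) {v} := by
    apply Finset.sum_le_sum_of_subset_of_nonneg
    · intro v hv
      rw [Finset.mem_image] at hv
      obtain ⟨x, hx, rfl⟩ := hv
      exact hmem x hx
    · intro v hv _
      refine le_trans ?_ (HH_NF hfull hv).1
      apply mul_nonneg hr.le
      apply Finset.sum_nonneg
      intro f _
      have := one_le_NF (z := (2 : ℝ)) (by norm_num) (Par T A A) f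
      linarith
  have h4 := Finset.sum_le_sum hval
  rw [Finset.sum_const, nsmul_eq_mul] at h4
  have h5 : ((T - 2 * m : ℕ) : ℝ) * ((2 * A - 2 * M - 1 : ℕ) : ℝ) = (S.card : ℝ) := by
    rw [hS, Finset.card_product, Int.card_Icc, Int.card_Icc]
    have e1 : ((T : ℤ) - m + 1 - (m + 1)).toNat = T - 2 * m := by omega
    have e2 : ((A : ℤ) - M - 1 + 1 - (-(A : ℤ) + M + 1)).toNat = 2 * A - 2 * M - 1 := by omega
    rw [e1, e2]
    push_cast
    rfl
  rw [h5]
  calc 3 * r2 * NF (2 : ℝ) (PP m M) f0 * (S.card : ℝ) = (S.card : ℝ) * (3 * r2 * NF (2 : ℝ) (PP m M) f0) := by ring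
    _ ≤ _ := h4
    _ = _ := h2
    _ ≤ _ := h3

open Classical in
/-- the sum over the walks between the floor and the ceiling. -/
private lemma ml_up {T A : ℕ} (hT : 1 ≤ T) (hA : 1 ≤ A) (hM : MT T ≠ ⊤) :
    ∑ a ∈ bd (Par T A A), ∑ t ∈ ex0 (Par T A A) a, (t.length : ℝ) * xc ^ t.length ≤
      4 * A * (MT T).toReal + ∑ a ∈ bd (Par T A A), ∑ t ∈ (ex0 (Par T A A) a).filter (fun t =>
      (a.2 ≠ up ∧ a.2 ≠ -up) ∨ (dx a.2 t t.length ≠ up ∧ dx a.2 t t.length ≠ -up)),
        (t.length : ℝ) * xc ^ t.length := by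
  have hx := xc_pos
  have h1 : ∀ a ∈ bd (Par T A A), ∑ t ∈ ex0 (Par T A A) a, (t.length : ℝ) * xc ^ t.length ≤
      (if a.2 = up ∨ a.2 = -up then (MT T).toReal else 0) + ∑ t ∈ (ex0 (Par T A A) a).filter (fun t =>
      (a.2 ≠ up ∧ a.2 ≠ -up) ∨ (dx a.2 t t.length ≠ up ∧ dx a.2 t t.length ≠ -up)),
        (t.length : ℝ) * xc ^ t.length := by
    intro a ha
    rw [← Finset.sum_filter_add_sum_filter_not (ex0 (Par T A A) a) (fun t =>
      (a.2 ≠ up ∧ a.2 ≠ -up) ∨ (dx a.2 t t.length ≠ up ∧ dx a.2 t t.length ≠ -up)), add_comm]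
    apply add_le_add_left
    by_cases hu : a.2 = up ∨ a.2 = -up
    · rw [if_pos hu]
      have h2 := ml_one hT hA hA ha hu
      have h3 : (ex0 (Par T A A) a).filter (fun t => ¬ ((a.2 ≠ up ∧ a.2 ≠ -up) ∨ (dx a.2 t t.length ≠ up ∧
          dx a.2 t t.length ≠ -up))) =
          (ex0 (Par T A A) a).filter (fun t => dx a.2 t t.length = up ∨ dx a.2 t t.length = -up) := by
        apply Finset.filter_congr
        intro t _
        tauto
      rw [h3]
      have h4 : ∑ t ∈ (ex0 (Par T A A) a).filter (fun t => dx a.2 t t.length = up ∨ dx a.2 t t.length = -up),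
          (t.length : ℝ≥0∞) * wE t = ENNReal.ofReal (∑ t ∈ (ex0 (Par T A A) a).filter
          (fun t => dx a.2 t t.length = up ∨ dx a.2 t t.length = -up), (t.length : ℝ) * xc ^ t.length) := by
        rw [ENNReal.ofReal_sum_of_nonneg (fun t _ => by positivity)]
        apply Finset.sum_congr rfl
        intro t _
        unfold wE
        rw [ENNReal.ofReal_mul (Nat.cast_nonneg _), ENNReal.ofReal_natCast]
      rw [h4] at h2
      exact (ENNReal.ofReal_le_iff_le_toReal hM).1 h2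
    · rw [if_neg hu, Finset.sum_eq_zero]
      intro t ht
      exfalso
      rw [Finset.mem_filter] at ht
      apply ht.2
      left
      tauto
  refine (Finset.sum_le_sum h1).trans ?_
  rw [Finset.sum_add_distrib]
  apply add_le_add_left
  rw [← Finset.sum_filter, Finset.sum_const, nsmul_eq_mul]
  apply mul_le_mul_of_nonneg_right _ ENNReal.toReal_nonneg
  have := ml_card hT hA
  exact_mod_cast this

end MTl

/-- H3: the letters of the arcs and bridges of the strip against the gas of nested polygons. -/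
theorem MT_ge {T : ℕ} (hT : 1 ≤ T) (m M : ℕ) :
    ENNReal.ofReal (3 / 4 * r2 * NF (2 : ℝ) (PP m M) f0 * ((T - 2 * m : ℕ) : ℝ)) ≤ MT T := by
  classical
  by_cases hM : MT T = ⊤
  · rw [hM]
    exact le_top
  rw [ENNReal.ofReal_le_iff_le_toReal hM]
  have hr := r2_pos
  have hN : 1 ≤ NF (2 : ℝ) (PP m M) f0 := one_le_NF (by norm_num) _ _
  obtain ⟨c, hc⟩ : ∃ c : ℝ, c = 3 * r2 * NF (2 : ℝ) (PP m M) f0 * ((T - 2 * m : ℕ) : ℝ) := ⟨_, rfl⟩
  have hc0 : 0 ≤ c := by rw [hc]; positivity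
  rcases hc0.eq_or_lt with hz | hpos
  · have : 3 / 4 * r2 * NF (2 : ℝ) (PP m M) f0 * ((T - 2 * m : ℕ) : ℝ) = c / 4 := by rw [hc]; ring
    rw [this, ← hz, zero_div]
    exact ENNReal.toReal_nonneg
  by_contra hcon
  rw [not_le] at hcon
  have hcon' : (MT T).toReal < c / 4 := by
    rw [hc]
    linarith
  obtain ⟨A0, hA0, hW⟩ := wall_len hT (ε := c / 2) (by positivity)
  obtain ⟨A, hA⟩ : ∃ A : ℕ, A = A0 + (4 * M + 2) := ⟨_, rfl⟩
  have h1 := MTl.ml_low (T := T) (A := A) (m := m) (M := M)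
  have h2 := MTl.ml_HH (Par T A A)
  have h3 := MTl.ml_up hT (show 1 ≤ A by omega) hM
  have h4 := hW A (by omega)
  have h5 : 3 * r2 * NF (2 : ℝ) (PP m M) f0 * (((T - 2 * m : ℕ) : ℝ) * ((2 * A - 2 * M - 1 : ℕ) : ℝ)) =
      c * ((2 * A - 2 * M - 1 : ℕ) : ℝ) := by
    rw [hc]
    ring
  rw [h5] at h1
  have h6 : ((2 * A - 2 * M - 1 : ℕ) : ℝ) = 2 * (A : ℝ) - 2 * M - 1 := by
    rw [Nat.cast_sub (by omega), Nat.cast_sub (by omega)]
    push_cast
    ring
  rw [h6] at h1
  have h7 : (A : ℝ) = A0 + (4 * M + 2) := by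
    rw [hA]
    push_cast
    ring
  have h8 : (1 : ℝ) ≤ A0 := by exact_mod_cast hA0
  have h9 : 4 * (A : ℝ) * (MT T).toReal ≤ c * A := by
    have : 0 < (A : ℝ) := by rw [h7]; positivity
    nlinarith
  have h10 : c * (2 * (A : ℝ) - 2 * M - 1) ≤ c * A + c / 2 * A := by linarith
  have h11 : c * ((A : ℝ) - (4 * M + 2)) ≤ 0 := by nlinarith
  have h12 : 0 < c * ((A : ℝ) - (4 * M + 2)) := by
    apply mul_pos hpos
    rw [h7]
    linarith
  linarith

/-- the case without the gas: the letters of the arcs and bridges of the strip of height T are at least c T. -/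
theorem MT_lower : ∃ c : ℝ, 0 < c ∧ ∀ T : ℕ, 1 ≤ T → ENNReal.ofReal (c * T) ≤ MT T := by
  have hr := r2_pos
  refine ⟨3 / 4 * r2, by positivity, fun T hT => ?_⟩
  refine le_trans (ENNReal.ofReal_le_ofReal ?_) (MT_ge hT 0 0)
  have hN : 1 ≤ NF (2 : ℝ) (PP 0 0) f0 := one_le_NF (by norm_num) _ _
  rw [Nat.mul_zero, Nat.sub_zero]
  have hT' : (0 : ℝ) ≤ T := Nat.cast_nonneg _
  have : 3 / 4 * r2 * 1 * (T : ℝ) ≤ 3 / 4 * r2 * NF (2 : ℝ) (PP 0 0) f0 * (T : ℝ) := by gcongr
  linarith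

/-- with the gas: at height T at least c T times the gas of the parallelograms with 2 m rows, 4 m ≤ T. -/
theorem MT_lower_gas : ∃ c : ℝ, 0 < c ∧ ∀ T m M : ℕ, 1 ≤ T → 4 * m ≤ T →
    ENNReal.ofReal (c * T * NF (2 : ℝ) (PP m M) f0) ≤ MT T := by
  have hr := r2_pos
  refine ⟨3 / 8 * r2, by positivity, fun T m M hT hm => ?_⟩
  refine le_trans (ENNReal.ofReal_le_ofReal ?_) (MT_ge hT m M)
  have hN : 1 ≤ NF (2 : ℝ) (PP m M) f0 := one_le_NF (by norm_num) _ _
  have h1 : (T : ℝ) / 2 ≤ ((T - 2 * m : ℕ) : ℝ) := by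
    rw [Nat.cast_sub (by omega)]
    have : (4 * m : ℝ) ≤ T := by exact_mod_cast hm
    push_cast
    linarith
  calc 3 / 8 * r2 * T * NF (2 : ℝ) (PP m M) f0 = 3 / 4 * r2 * NF (2 : ℝ) (PP m M) f0 * (T / 2) := by ring
    _ ≤ _ := by gcongr

end LP

end HexObs
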