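import Pool.Agent.HexLoop.Inside
import Pool.Agent.HexLoop.Shift

/-!
The gas of nested polygons around a face: the sum over the chains of nested disjoint polygons of the domain Ω around
the face f, weight z * xc ^ length for every polygon. HexLoop has oriented polygons: both orientations have half
the weight.
-/

set_option autoImplicit false

namespace HexObs

namespace LP

open Finset

/-- the oriented polygons of Ω around the face f. -/
noncomputable def pf (Ω : Finset Pt) (f : Pt) : Finset (Finset (Pt × Pt)) := by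
  classical
  exact (polys Ω).filter (fun E => Nw E f ≠ 0)

theorem mem_pf {Ω : Finset Pt} {f : Pt} {E : Finset (Pt × Pt)} : E ∈ pf Ω f ↔ E ∈ polys Ω ∧ Nw E f ≠ 0 := by
  classical
  unfold pf
  rw [Finset.mem_filter]

section

variable {K : Type*} [CommRing K] [Algebra ℝ K]

/-- n rounds of the recursion. -/
noncomputable def nfn (z : K) (f : Pt) : ℕ → Finset Pt → K
  | 0, _ => 1
  | n + 1, Ω => 1 + ∑ E ∈ pf Ω f, (xc ^ E.card / 2) • (z * nfn z f n (inn Ω E))

/-- the sum over the chains of nested disjoint polygons around f in Ω. -/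
noncomputable def NF (z : K) (Ω : Finset Pt) (f : Pt) : K := nfn z f Ω.card Ω

private lemma nf_stable (z : K) (f : Pt) : ∀ (n m : ℕ) (Ω : Finset Pt), Ω.card ≤ n → Ω.card ≤ m →
    nfn z f n Ω = nfn z f m Ω := by
  have h0 : ∀ (Ω : Finset Pt), Ω.card = 0 → ∀ m, nfn z f m Ω = 1 := by
    intro Ω h m
    cases m with
    | zero => rfl
    | succ m =>
      have hp : pf Ω f = ∅ := by
        rw [Finset.eq_empty_iff_forall_notMem]
        intro E hE
        have := inn_card (mem_pf.1 hE).1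
        omega
      show 1 + ∑ E ∈ pf Ω f, _ = _
      rw [hp, Finset.sum_empty, add_zero]
  intro n
  induction n with
  | zero =>
    intro m Ω h1 _
    rw [h0 Ω (by omega) m]
    rfl
  | succ n ih =>
    intro m Ω h1 h2
    cases m with
    | zero =>
      rw [h0 Ω (by omega) (n + 1)]
      rfl
    | succ m =>
      show 1 + ∑ E ∈ pf Ω f, (xc ^ E.card / 2) • (z * nfn z f n (inn Ω E)) =
        1 + ∑ E ∈ pf Ω f, (xc ^ E.card / 2) • (z * nfn z f m (inn Ω E))
      congr 1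
      apply Finset.sum_congr rfl
      intro E hE
      have h3 := inn_card (mem_pf.1 hE).1
      rw [ih m (inn Ω E) (by omega) (by omega)]

/-- the recursion: the outermost polygon. -/
theorem NF_rec (z : K) (Ω : Finset Pt) (f : Pt) :
    NF z Ω f = 1 + ∑ E ∈ pf Ω f, (xc ^ E.card / 2) • (z * NF z (inn Ω E) f) := by
  unfold NF
  rw [nf_stable z f Ω.card (Ω.card + 1) Ω le_rfl (by omega)]
  show 1 + ∑ E ∈ pf Ω f, (xc ^ E.card / 2) • (z * nfn z f Ω.card (inn Ω E)) = _
  congr 1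
  apply Finset.sum_congr rfl
  intro E hE
  have h3 := inn_card (mem_pf.1 hE).1
  rw [nf_stable z f Ω.card (inn Ω E).card (inn Ω E) (by omega) le_rfl]

/-- induction over the domains. -/
theorem pf_ind {P : Finset Pt → Prop} {f : Pt} (h : ∀ Ω, (∀ E ∈ pf Ω f, P (inn Ω E)) → P Ω) (Ω : Finset Pt) :
    P Ω := by
  have key : ∀ n : ℕ, ∀ Ω : Finset Pt, Ω.card ≤ n → P Ω := by
    intro n
    induction n with
    | zero =>
      intro Ω hΩ
      apply h
      intro E hE
      have := inn_card (mem_pf.1 hE).1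
      omega
    | succ n ih =>
      intro Ω hΩ
      apply h
      intro E hE
      have := inn_card (mem_pf.1 hE).1
      exact ih _ (by omega)
  exact key Ω.card Ω le_rfl

theorem NF_zero (Ω : Finset Pt) (f : Pt) : NF (0 : K) Ω f = 1 := by
  rw [NF_rec]
  simp

theorem NF_map {L : Type*} [CommRing L] [Algebra ℝ L] (φ : K →ₐ[ℝ] L) (z : K) (Ω : Finset Pt) (f : Pt) :
    φ (NF z Ω f) = NF (φ z) Ω f := by
  induction Ω using pf_ind (f := f) with
  | h Ω ih =>
    rw [NF_rec, NF_rec (φ z), map_add, map_one, map_sum]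
    congr 1
    apply Finset.sum_congr rfl
    intro E hE
    rw [map_smul, map_mul, ih E hE]

end

/-! translations -/

lemma ins_TE {z : Pt} (hz : cl z = 0) {E : Finset (Pt × Pt)} {v : Pt} : Ins (TE z E) (v + z) ↔ Ins E v := by
  unfold Ins
  rw [tr_Vt hz, VE_TE, tr_mem]
  have e : ∀ d : Pt, v + z + d = v + d + z := fun d => by abel
  simp only [e, tr_Fc hz, Nw_TE]

theorem inn_tr {z : Pt} (hz : cl z = 0) (Ω : Finset Pt) (E : Finset (Pt × Pt)) :
    inn (Ti z Ω) (TE z E) = Ti z (inn Ω E) := by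
  ext w
  obtain ⟨v, rfl⟩ : ∃ v, w = v + z := ⟨w - z, by abel⟩
  rw [mem_inn, tr_mem, tr_mem, mem_inn, ins_TE hz]

theorem pf_tr {z : Pt} (hz : cl z = 0) (Ω : Finset Pt) (f : Pt) : pf (Ti z Ω) (f + z) = (pf Ω f).image (TE z) := by
  ext E
  rw [mem_pf, polys_tr hz, Finset.mem_image, Finset.mem_image]
  constructor
  · rintro ⟨⟨E', h1, rfl⟩, h2⟩
    rw [Nw_TE] at h2
    exact ⟨E', mem_pf.2 ⟨h1, h2⟩, rfl⟩
  · rintro ⟨E', h1, rfl⟩
    obtain ⟨h2, h3⟩ := mem_pf.1 h1
    exact ⟨⟨E', h2, rfl⟩, by rw [Nw_TE]; exact h3⟩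

theorem NF_tr {K : Type*} [CommRing K] [Algebra ℝ K] (w : K) {z : Pt} (hz : cl z = 0) (Ω : Finset Pt) (f : Pt) :
    NF w (Ti z Ω) (f + z) = NF w Ω f := by
  induction Ω using pf_ind (f := f) with
  | h Ω ih =>
    rw [NF_rec, NF_rec w Ω, pf_tr hz, Finset.sum_image (fun a _ b _ h => TE_inj z h)]
    congr 1
    apply Finset.sum_congr rfl
    intro E hE
    rw [card_TE, inn_tr hz, ih E hE]

/-! real weights -/

theorem one_le_NF {z : ℝ} (hz : 0 ≤ z) (Ω : Finset Pt) (f : Pt) : 1 ≤ NF z Ω f := by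
  have hx := xc_pos
  induction Ω using pf_ind (f := f) with
  | h Ω ih =>
    rw [NF_rec]
    have : 0 ≤ ∑ E ∈ pf Ω f, (xc ^ E.card / 2) • (z * NF z (inn Ω E) f) := by
      apply Finset.sum_nonneg
      intro E hE
      have := ih E hE
      rw [smul_eq_mul]
      positivity
    linarith

theorem polys_mono {Ω Ω' : Finset Pt} (h : Ω ⊆ Ω') : polys Ω ⊆ polys Ω' := by
  intro E hE
  rw [mem_polys] at hE ⊢
  exact ⟨hE.1, hE.2.trans h⟩

theorem pf_mono {Ω Ω' : Finset Pt} (h : Ω ⊆ Ω') (f : Pt) : pf Ω f ⊆ pf Ω' f := by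
  intro E hE
  rw [mem_pf] at hE ⊢
  exact ⟨polys_mono h hE.1, hE.2⟩

theorem inn_mono {Ω Ω' : Finset Pt} (h : Ω ⊆ Ω') (E : Finset (Pt × Pt)) : inn Ω E ⊆ inn Ω' E := by
  intro v hv
  rw [mem_inn] at hv ⊢
  exact ⟨h hv.1, hv.2⟩

theorem NF_mono {z : ℝ} (hz : 0 ≤ z) (f : Pt) {Ω : Finset Pt} : ∀ {Ω' : Finset Pt}, Ω ⊆ Ω' →
    NF z Ω f ≤ NF z Ω' f := by
  have hx := xc_pos
  induction Ω using pf_ind (f := f) with
  | h Ω ih =>
    intro Ω' h
    rw [NF_rec, NF_rec z Ω']
    have h1 : ∑ E ∈ pf Ω f, (xc ^ E.card / 2) • (z * NF z (inn Ω E) f) ≤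
        ∑ E ∈ pf Ω f, (xc ^ E.card / 2) • (z * NF z (inn Ω' E) f) := by
      apply Finset.sum_le_sum
      intro E hE
      have h2 := ih E hE (inn_mono h E)
      rw [smul_eq_mul, smul_eq_mul]
      gcongr
    have h3 : ∑ E ∈ pf Ω f, (xc ^ E.card / 2) • (z * NF z (inn Ω' E) f) ≤
        ∑ E ∈ pf Ω' f, (xc ^ E.card / 2) • (z * NF z (inn Ω' E) f) := by
      apply Finset.sum_le_sum_of_subset_of_nonneg (pf_mono h f)
      intro E _ _
      have := one_le_NF hz (inn Ω' E) f
      rw [smul_eq_mul]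
      positivity
    linarith

end LP

end HexObs
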