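import Pool.Agent.NUF.NF
import Pool.Agent.NUN.NF

/-!
The two definitions of the gas of nested polygons agree.
-/

set_option autoImplicit false

namespace HexObs

namespace LP

open Finset

theorem NF_eq_NUN (z : ℝ) (f : Pt) (Ω : Finset Pt) : NF z Ω f = Pool.Agent.NUN.NF xc (z / 2) f Ω := by
  induction Ω using pf_ind (f := f) with
  | h Ω ih =>
    rw [NF_rec, Pool.Agent.NUN.NF_eq]
    congr 1
    have h1 : pf Ω f = Pool.Agent.NUN.pf f Ω := by
      ext E
      rw [mem_pf, Pool.Agent.NUN.mem_pf, mem_polys, and_assoc]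
    rw [← h1]
    apply Finset.sum_congr rfl
    intro E hE
    rw [ih E hE, smul_eq_mul]
    ring

end LP

end HexObs
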