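import Pool.Agent.NUF.PNum

/-!
# The pairing is bilinear; the parity of the occupation of a line
-/

set_option autoImplicit false

namespace Pool.Agent.NUF

open Polynomial

section bil

variable {Γ ι K : Type*} [AddCommGroup Γ] [DecidableEq ι] [CommRing K]

theorem pr_add_left (V W V' : Module.Dual K (EXL.Pat ι → K)) (F : LPat Γ ι → K) :
    pr Γ (V + W) V' F = pr Γ V V' F + pr Γ W V' F := rfl

theorem pr_smul_left (c : K) (V V' : Module.Dual K (EXL.Pat ι → K)) (F : LPat Γ ι → K) :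
    pr Γ (c • V) V' F = c * pr Γ V V' F := rfl

theorem pr_add_right (V V' W' : Module.Dual K (EXL.Pat ι → K)) (F : LPat Γ ι → K) :
    pr Γ V (V' + W') F = pr Γ V V' F + pr Γ V W' F := by
  rw [pr_apply, pr_apply, pr_apply, ← map_add]
  rfl

theorem pr_smul_right (c : K) (V V' : Module.Dual K (EXL.Pat ι → K)) (F : LPat Γ ι → K) :
    pr Γ V (c • V') F = c * pr Γ V V' F := by
  rw [pr_apply, pr_apply, ← smul_eq_mul, ← map_smul]
  rfl

end bil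

section Zb

variable {ι : Type*} [DecidableEq ι]

/-- The pairing as a bilinear map. -/
noncomputable def Zb (n' : ℂ) (L1 L2 : List (ι × ι)) : Fnl ι →ₗ[ℂ] Fnl ι →ₗ[ℂ] ℂ :=
  LinearMap.mk₂ ℂ (fun V V' => Zp n' V V' L1 L2)
    (fun V W V' => pr_add_left V W V' _) (fun c V V' => pr_smul_left c V V' _)
    (fun V V' W' => pr_add_right V V' W' _) (fun c V V' => pr_smul_right c V V' _)

theorem Zb_apply (n' : ℂ) (L1 L2 : List (ι × ι)) (V V' : Fnl ι) :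
    Zb n' L1 L2 V V' = Zp n' V V' L1 L2 := rfl

theorem Zp_smul (n' c d : ℂ) (L1 L2 : List (ι × ι)) (V V' : Fnl ι) :
    Zp n' (c • V) (d • V') L1 L2 = c * d * Zp n' V V' L1 L2 := by
  rw [← Zb_apply, map_smul, map_smul, LinearMap.smul_apply, Zb_apply, smul_eq_mul, smul_eq_mul]
  ring

/-- The empty line is glued to an empty line. -/
theorem E_glue {Γ : Type*} [AddCommGroup Γ] {ν : Γ → ℂ} {p p' : ι} (h : p ≠ p') :
    (cops ν).E p * (cops ν).glue p p' = (cops ν).E p' * (cops ν).E p := by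
  have e1 : (cops (Γ := Γ) ν).E p = lE Γ ℂ p := by
    show repL ν id (we p) = _
    rw [repL, we, FreeAlgebra.lift_ι_apply]
    rfl
  have e2 : (cops (Γ := Γ) ν).E p' = lE Γ ℂ p' := by
    show repL ν id (we p') = _
    rw [repL, we, FreeAlgebra.lift_ι_apply]
    rfl
  rw [glueL, if_neg h, e1, e2]
  refine LinearMap.ext fun F => ?_
  funext P
  simp only [Module.End.mul_apply, LinearMap.add_apply, Pi.add_apply, lE_apply, lCt_apply]
  by_cases h1 : P p = p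
  · have h2 : ¬ LPat.OcOK p p' P := fun hh => hh.2.1 h1
    simp [h1]
  · simp [h1]

variable [Finite ι] {V V' : Fnl ι} {L1 L2 : List (ι × ι)} {n' : ℂ} {p p' : ι}

omit [Finite ι] in
theorem E_Tw_gm {χ : ι → ZMod 2} (hpp : p ≠ p') (L : List (ι × ι)) :
    (cops (nu2 n')).E p (Tw χ (gm (nu2 n') ((p, p') :: L))) =
      (cops (nu2 n')).E p' ((cops (nu2 n')).E p (Tw χ (gm (nu2 n') L))) := by
  have c1 : Commute (Tw χ) ((cops (nu2 n')).E p) := tE χ p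
  have c2 : Commute (Tw χ) ((cops (nu2 n')).E p') := tE χ p'
  have key : (cops (nu2 n')).E p * Tw χ * (cops (nu2 n')).glue p p' =
      (cops (nu2 n')).E p' * ((cops (nu2 n')).E p * Tw χ) := by
    rw [← c1.eq, mul_assoc, E_glue hpp, ← mul_assoc, c2.eq, mul_assoc]
  rw [gm_cons]
  exact congrArg (fun x : Module.End ℂ (LPat (ZMod 2) ι → ℂ) => x (gm (nu2 n') L)) key

omit [Finite ι] in
/-- The line is empty on the right and occupied on the left. -/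
theorem Zp_EO (hG : Gd ((p, p') :: L1 ++ L2)) (hV : SupS (Sr ((p, p') :: L1 ++ L2)) V)
    (hV' : SupS (Sl ((p, p') :: L1 ++ L2)) V') (h : V ∘ₗ uops.E p = V) (h' : V' ∘ₗ uops.E p' = 0) :
    Zp n' V V' ((p, p') :: L1) L2 = 0 := by
  have hd := hG.disj
  have hpp : p ≠ p' := (Gd_cons.1 hG).1
  have q1 : On (Sl ((p, p') :: L1 ++ L2))ᶜ (cw.E p) := On.cE (T := (Sl ((p, p') :: L1 ++ L2))ᶜ)
    (fun hh => Set.disjoint_left.1 hd (show p ∈ Sr ((p, p') :: L1 ++ L2) by simp [Sr]) hh)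
  have q2 : On (Sr ((p, p') :: L1 ++ L2))ᶜ (cw.E p') := On.cE (T := (Sr ((p, p') :: L1 ++ L2))ᶜ)
    (fun hh => Set.disjoint_left.1 hd hh (show p' ∈ Sl ((p, p') :: L1 ++ L2) by simp [Sl]))
  unfold Zp
  conv_lhs => rw [← h]
  have e1 := pr_left (Γ := ZMod 2) (nu2_zero n') hV hV' hd q1
    (Tw (chi ((p, p') :: L1)) (gm (nu2 n') ((p, p') :: L1 ++ L2)))
  rw [show V ∘ₗ uops.E p = V ∘ₗ rep0 ℂ id (cw.E p) from rfl, e1]
  have e2 : repL (nu2 n') id (cw.E p) (Tw (chi ((p, p') :: L1)) (gm (nu2 n') ((p, p') :: L1 ++ L2))) =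
      repL (nu2 n') id (cw.E p') ((cops (nu2 n')).E p (Tw (chi ((p, p') :: L1))
        (gm (nu2 n') (L1 ++ L2)))) := E_Tw_gm hpp (L1 ++ L2)
  rw [e2, ← pr_right (Γ := ZMod 2) (nu2_zero n') hV hV' hd q2,
    show V' ∘ₗ rep0 ℂ id (cw.E p') = V' ∘ₗ uops.E p' from rfl, h']
  rw [pr_apply]
  have : (fun P : EXL.Pat ι => (0 : Fnl ι) fun q => ((cops (nu2 n')).E p
      (Tw (chi ((p, p') :: L1)) (gm (nu2 n') (L1 ++ L2)))) (ofP (ZMod 2) (un P q))) = 0 := rfl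
  rw [this, map_zero]

/-- The line is occupied on the right and empty on the left. -/
theorem Zp_OE (hG : Gd ((p, p') :: L1 ++ L2)) (hV : SupS (Sr ((p, p') :: L1 ++ L2)) V)
    (hV' : SupS (Sl ((p, p') :: L1 ++ L2)) V') (h : V ∘ₗ uops.E p = 0) (h' : V' ∘ₗ uops.E p' = V') :
    Zp n' V V' ((p, p') :: L1) L2 = 0 := by
  have hd := hG.disj
  have hpp : p ≠ p' := (Gd_cons.1 hG).1
  have W := laws (ι := ι) (nu2_neg n') (nu2_zero n')
  have q1 : On (Sl ((p, p') :: L1 ++ L2))ᶜ (cw.E p) := On.cE (T := (Sl ((p, p') :: L1 ++ L2))ᶜ)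
    (fun hh => Set.disjoint_left.1 hd (show p ∈ Sr ((p, p') :: L1 ++ L2) by simp [Sr]) hh)
  have q2 : On (Sr ((p, p') :: L1 ++ L2))ᶜ (cw.E p') := On.cE (T := (Sr ((p, p') :: L1 ++ L2))ᶜ)
    (fun hh => Set.disjoint_left.1 hd hh (show p' ∈ Sl ((p, p') :: L1 ++ L2) by simp [Sl]))
  unfold Zp
  conv_lhs => rw [← h']
  have e1 := pr_right (Γ := ZMod 2) (nu2_zero n') hV hV' hd q2
    (Tw (chi ((p, p') :: L1)) (gm (nu2 n') ((p, p') :: L1 ++ L2)))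
  rw [show V' ∘ₗ uops.E p' = V' ∘ₗ rep0 ℂ id (cw.E p') from rfl, e1]
  have e3 : gm (nu2 n') ((p, p') :: L1 ++ L2) = gm (nu2 n') ((p', p) :: (L1 ++ L2)) := by
    rw [List.cons_append, gm_cons, gm_cons, W.gs]
  have e2 : repL (nu2 n') id (cw.E p') (Tw (chi ((p, p') :: L1)) (gm (nu2 n') ((p, p') :: L1 ++ L2))) =
      repL (nu2 n') id (cw.E p) ((cops (nu2 n')).E p' (Tw (chi ((p, p') :: L1))
        (gm (nu2 n') (L1 ++ L2)))) := by
    rw [e3]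
    exact E_Tw_gm hpp.symm (L1 ++ L2)
  rw [e2, ← pr_left (Γ := ZMod 2) (nu2_zero n') hV hV' hd q1,
    show V ∘ₗ rep0 ℂ id (cw.E p) = V ∘ₗ uops.E p from rfl, h]
  rfl

omit [Finite ι] in
/-- The empty line can be removed. -/
theorem Zp_EE (hG : Gd ((p, p') :: L1 ++ L2)) (hV : SupS (Sr (L1 ++ L2)) V)
    (hV' : SupS (Sl (L1 ++ L2)) V') : Zp n' V V' ((p, p') :: L1) L2 = Zp n' V V' L1 L2 := by
  have hG1 := Gd_cons.1 hG
  have hpp : p ≠ p' := hG1.1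
  have hd := hG1.2.2.disj
  have n1 : ∀ t ∈ L1 ++ L2, p ≠ t.1 ∧ p ≠ t.2 ∧ p' ≠ t.1 ∧ p' ≠ t.2 := fun t ht => hG1.2.1 t ht
  have m1 : p ∉ Sr (L1 ++ L2) := fun h => by
    obtain ⟨t, ht, e⟩ := List.mem_map.1 h
    exact (n1 t ht).1 e.symm
  have m2 : p ∉ Sl (L1 ++ L2) := fun h => by
    obtain ⟨t, ht, e⟩ := List.mem_map.1 h
    exact (n1 t ht).2.1 e.symm
  have m3 : p' ∉ Sr (L1 ++ L2) := fun h => by
    obtain ⟨t, ht, e⟩ := List.mem_map.1 h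
    exact (n1 t ht).2.2.1 e.symm
  have m4 : p' ∉ Sl (L1 ++ L2) := fun h => by
    obtain ⟨t, ht, e⟩ := List.mem_map.1 h
    exact (n1 t ht).2.2.2 e.symm
  have hE : V ∘ₗ uops.E p = V := hV.E m1
  have hE' : V' ∘ₗ uops.E p' = V' := hV'.E m4
  have q1 : On (Sl (L1 ++ L2))ᶜ (cw.E p) := On.cE (T := (Sl (L1 ++ L2))ᶜ) m2
  have q2 : On (Sr (L1 ++ L2))ᶜ (cw.E p') := On.cE (T := (Sr (L1 ++ L2))ᶜ) m3
  unfold Zp
  conv_lhs => rw [← hE]
  have e1 := pr_left (Γ := ZMod 2) (nu2_zero n') hV hV' hd q1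
    (Tw (chi ((p, p') :: L1)) (gm (nu2 n') ((p, p') :: L1 ++ L2)))
  rw [show V ∘ₗ uops.E p = V ∘ₗ rep0 ℂ id (cw.E p) from rfl, e1]
  have e2 : repL (nu2 n') id (cw.E p) (Tw (chi ((p, p') :: L1)) (gm (nu2 n') ((p, p') :: L1 ++ L2))) =
      repL (nu2 n') id (cw.E p') (repL (nu2 n') id (cw.E p) (Tw (chi ((p, p') :: L1))
        (gm (nu2 n') (L1 ++ L2)))) := E_Tw_gm hpp (L1 ++ L2)
  rw [e2, ← pr_right (Γ := ZMod 2) (nu2_zero n') hV hV' hd q2,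
    show V' ∘ₗ rep0 ℂ id (cw.E p') = V' ∘ₗ uops.E p' from rfl, hE',
    ← pr_left (Γ := ZMod 2) (nu2_zero n') hV hV' hd q1,
    show V ∘ₗ rep0 ℂ id (cw.E p) = V ∘ₗ uops.E p from rfl, hE]
  have e : ∀ x, x ≠ p' → chi ((p, p') :: L1) x = chi L1 x := by
    intro x h1
    unfold chi
    simp only [List.map_cons, List.mem_cons, h1, false_or]
  refine pr_tw hV hV' hd (fun x hx y hy => ?_) (fun x hx y hy => ?_) _
  · obtain ⟨t, ht, rfl⟩ := List.mem_map.1 hx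
    obtain ⟨s, hs, rfl⟩ := List.mem_map.1 hy
    rw [e _ (n1 t ht).2.2.1.symm, e _ (n1 s hs).2.2.1.symm]
  · obtain ⟨t, ht, rfl⟩ := List.mem_map.1 hx
    obtain ⟨s, hs, rfl⟩ := List.mem_map.1 hy
    rw [e _ (n1 t ht).2.2.2.symm, e _ (n1 s hs).2.2.2.symm]

end Zb

end Pool.Agent.NUF
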