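import Pool.Agent.NUF.FarV

/-!
# The rhombus at infinite rapidity (helper15)

`Wi e` = the limit of the weights for `u → i∞` (`e = om`) and `u → -i∞` (`e = om⁻¹`).  `LmF`, `LmE` = limits of
functionals and of operators (pointwise).  The line `q` at infinity slides through the other lines: an empty line
(`E_Mi`) and a cup of two lines at infinity (`cu_Mi`).
-/

set_option autoImplicit false
set_option linter.unusedSimpArgs false

namespace Pool.Agent.NUF

open _root_.Pool.Agent.EXL _root_.Pool.Agent.EXL.Pat _root_.Pool.Agent.EXL.HS Filter Topology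
open Complex (I exp)

/-! ### Weights -/

/-- The weights at infinite rapidity. -/
noncomputable def Wi (e : ℂ) : EXL.Wt ℂ where
  v := 1
  u1 := 0
  u2 := 0
  w1 := e ^ 5
  w2 := e ^ 3

/-- Limits of weights. -/
structure TW {β : Type*} (l : Filter β) (w : β → EXL.Wt ℂ) (w0 : EXL.Wt ℂ) : Prop where
  v : Tendsto (fun b => (w b).v) l (𝓝 w0.v)
  u1 : Tendsto (fun b => (w b).u1) l (𝓝 w0.u1)
  u2 : Tendsto (fun b => (w b).u2) l (𝓝 w0.u2)
  w1 : Tendsto (fun b => (w b).w1) l (𝓝 w0.w1)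
  w2 : Tendsto (fun b => (w b).w2) l (𝓝 w0.w2)

theorem TW.congr {β : Type*} {l : Filter β} {w w' : β → EXL.Wt ℂ} {w0 : EXL.Wt ℂ} (h : TW l w w0)
    (e : ∀ b, w b = w' b) : TW l w' w0 := by
  have : w = w' := funext e
  rwa [this] at h

theorem tw_up {β : Type*} {l : Filter β} {u : β → ℂ} (h : Tendsto (fun b => exp (I * u b)) l (𝓝 0)) :
    TW l (fun b => rwt (u b)) (Wi Fm.om) := by
  have hP : Tendsto (fun b => (PP Fm.om (exp (I * u b)))⁻¹) l (𝓝 1) := by
    have : ContinuousAt (fun x : ℂ => (PP Fm.om x)⁻¹) 0 := by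
      unfold PP
      refine ContinuousAt.inv₀ (by fun_prop) ?_
      norm_num
    have h1 := this.tendsto.comp h
    have e0 : (PP Fm.om 0)⁻¹ = 1 := by
      unfold PP
      norm_num
    rw [e0] at h1
    exact h1
  have ho := Fm.om_pow
  have key : ∀ f : ℂ → ℂ, Continuous f → Tendsto (fun b => f (exp (I * u b)) *
      (PP Fm.om (exp (I * u b)))⁻¹) l (𝓝 (f 0)) := by
    intro f hf
    have := (hf.continuousAt.tendsto.comp h).mul hP
    rwa [mul_one] at this
  have e : ∀ b, rwt (u b) = wt Fm.om Fm.ss (exp (I * u b)) (PP Fm.om (exp (I * u b)))⁻¹ := fun b => by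
    rw [Fm.rwt_eq, ← Fm.wt_eq]
  refine ⟨?_, ?_, ?_, ?_, ?_⟩
  · simp only [e, wt]
    have := key (fun x => Fm.om * (x ^ 2 - 1) * (Fm.om ^ 3 - x ^ 2)) (by fun_prop)
    have e0 : Fm.om * ((0 : ℂ) ^ 2 - 1) * (Fm.om ^ 3 - (0 : ℂ) ^ 2) = (Wi Fm.om).v := by
      show _ = (1 : ℂ)
      linear_combination (-1 : ℂ) * ho
    rwa [e0] at this
  · simp only [e, wt]
    have := key (fun x => (Fm.om ^ 2 - 1) * x * (Fm.om ^ 3 - x ^ 2)) (by fun_prop)
    have e0 : (Fm.om ^ 2 - 1) * (0 : ℂ) * (Fm.om ^ 3 - (0 : ℂ) ^ 2) = (Wi Fm.om).u1 := by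
      show _ = (0 : ℂ)
      ring
    rwa [e0] at this
  · simp only [e, wt]
    have := key (fun x => Fm.ss * x * (Fm.om ^ 2 - 1) * (x ^ 2 - 1)) (by fun_prop)
    have e0 : Fm.ss * (0 : ℂ) * (Fm.om ^ 2 - 1) * ((0 : ℂ) ^ 2 - 1) = (Wi Fm.om).u2 := by
      show _ = (0 : ℂ)
      ring
    rwa [e0] at this
  · simp only [e, wt]
    have := key (fun x => (Fm.om ^ 2 - x ^ 2) * (Fm.om ^ 3 - x ^ 2)) (by fun_prop)
    have e0 : (Fm.om ^ 2 - (0 : ℂ) ^ 2) * (Fm.om ^ 3 - (0 : ℂ) ^ 2) = (Wi Fm.om).w1 := by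
      show _ = Fm.om ^ 5
      ring
    rwa [e0] at this
  · simp only [e, wt]
    have := key (fun x => -(Fm.om ^ 2 * (x ^ 2 - 1) * (Fm.om - x ^ 2))) (by fun_prop)
    have e0 : -(Fm.om ^ 2 * ((0 : ℂ) ^ 2 - 1) * (Fm.om - (0 : ℂ) ^ 2)) = (Wi Fm.om).w2 := by
      show _ = Fm.om ^ 3
      ring
    rwa [e0] at this

open scoped ComplexConjugate in
theorem lam_conj : conj Fm.lam = Fm.lam := by
  rw [Fm.lam, map_div₀, Complex.conj_ofReal]
  congr 1
  exact Complex.conj_ofReal 8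

open scoped ComplexConjugate in
theorem om_conj : conj Fm.om = Fm.om⁻¹ := by
  rw [Fm.om, ← Complex.exp_conj, ← Complex.exp_neg]
  congr 1
  rw [map_mul, map_mul, lam_conj, Complex.conj_I]
  have : conj (2 : ℂ) = 2 := Complex.conj_ofReal 2
  rw [this]
  ring

theorem tw_dn {β : Type*} {l : Filter β} {u : β → ℂ}
    (h : Tendsto (fun b => exp (-(I * u b))) l (𝓝 0)) : TW l (fun b => rwt (u b)) (Wi Fm.om⁻¹) := by
  have c2 : (starRingEnd ℂ) (2 : ℂ) = 2 := Complex.conj_ofReal 2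
  have c3 : (starRingEnd ℂ) (3 : ℂ) = 3 := Complex.conj_ofReal 3
  have h1 : Tendsto (fun b => exp (I * (starRingEnd ℂ) (u b))) l (𝓝 0) := by
    have := (Complex.continuous_conj.tendsto 0).comp h
    rw [map_zero] at this
    refine this.congr fun b => ?_
    show (starRingEnd ℂ) (exp (-(I * u b))) = _
    rw [← Complex.exp_conj]
    congr 1
    rw [map_neg, map_mul, Complex.conj_I]
    ring
  have hD : ∀ u : ℂ, Fm.Dn ((starRingEnd ℂ) u) = (starRingEnd ℂ) (Fm.Dn u) := by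
    intro u
    unfold Fm.Dn
    rw [map_mul, ← Complex.sin_conj, ← Complex.sin_conj, map_add, map_add, map_mul, map_mul, lam_conj,
      c2, c3]
  obtain ⟨hv, hu1, hu2, hw1, hw2⟩ := tw_up h1
  have st : ∀ {f : β → ℂ} {g : β → ℂ} {x : ℂ}, Tendsto f l (𝓝 x) →
      (∀ b, (starRingEnd ℂ) (f b) = g b) → Tendsto g l (𝓝 ((starRingEnd ℂ) x)) := by
    intro f g x hf hg
    have := (Complex.continuous_conj.tendsto x).comp hf
    exact this.congr hg
  have sn := fun x : ℂ => Complex.sin_conj x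
  refine ⟨?_, ?_, ?_, ?_, ?_⟩
  · have := st hv (g := fun b => (rwt (u b)).v) (fun b => by
      rw [Fm.rwt_eq, Fm.rwt_eq]
      simp only [Fm.Wc, Fm.Wn, EXL.Wt.sc, map_mul, map_inv₀, hD, Complex.conj_conj, ← sn, map_sub,
        map_add, lam_conj, c2, c3])
    rwa [show (starRingEnd ℂ) (Wi Fm.om).v = (Wi Fm.om⁻¹).v from map_one _] at this
  · have := st hu1 (g := fun b => (rwt (u b)).u1) (fun b => by
      rw [Fm.rwt_eq, Fm.rwt_eq]
      simp only [Fm.Wc, Fm.Wn, EXL.Wt.sc, map_mul, map_inv₀, hD, Complex.conj_conj, ← sn, map_sub,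
        map_add, lam_conj, c2, c3])
    rwa [show (starRingEnd ℂ) (Wi Fm.om).u1 = (Wi Fm.om⁻¹).u1 from map_zero _] at this
  · have := st hu2 (g := fun b => (rwt (u b)).u2) (fun b => by
      rw [Fm.rwt_eq, Fm.rwt_eq]
      simp only [Fm.Wc, Fm.Wn, EXL.Wt.sc, map_mul, map_inv₀, hD, Complex.conj_conj, ← sn, map_sub,
        map_add, lam_conj, c2, c3])
    rwa [show (starRingEnd ℂ) (Wi Fm.om).u2 = (Wi Fm.om⁻¹).u2 from map_zero _] at this
  · have := st hw1 (g := fun b => (rwt (u b)).w1) (fun b => by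
      rw [Fm.rwt_eq, Fm.rwt_eq]
      simp only [Fm.Wc, Fm.Wn, EXL.Wt.sc, map_mul, map_inv₀, hD, Complex.conj_conj, ← sn, map_sub,
        map_add, lam_conj, c2, c3])
    rwa [show (starRingEnd ℂ) (Wi Fm.om).w1 = (Wi Fm.om⁻¹).w1 by
      show (starRingEnd ℂ) (Fm.om ^ 5) = _
      rw [map_pow, om_conj]
      rfl] at this
  · have := st hw2 (g := fun b => (rwt (u b)).w2) (fun b => by
      rw [Fm.rwt_eq, Fm.rwt_eq]
      simp only [Fm.Wc, Fm.Wn, EXL.Wt.sc, map_mul, map_inv₀, hD, Complex.conj_conj, ← sn, map_sub,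
        map_add, lam_conj, c2, c3])
    rwa [show (starRingEnd ℂ) (Wi Fm.om).w2 = (Wi Fm.om⁻¹).w2 by
      show (starRingEnd ℂ) (Fm.om ^ 3) = _
      rw [map_pow, om_conj]
      rfl] at this

/-! ### Limits of functionals and operators -/

section lim

variable {α β : Type*} [DecidableEq α] {l : Filter β}

/-- Limits of functionals. -/
def LmF (l : Filter β) (V : β → Fnl α) (V0 : Fnl α) : Prop :=
  ∀ F, Tendsto (fun b => V b F) l (𝓝 (V0 F))

/-- Limits of operators. -/
def LmE (l : Filter β) (X : β → Module.End ℂ (Pat α → ℂ)) (X0 : Module.End ℂ (Pat α → ℂ)) : Prop :=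
  ∀ F p, Tendsto (fun b => X b F p) l (𝓝 (X0 F p))

omit [DecidableEq α] in
theorem LmF.const (V : Fnl α) : LmF l (fun _ => V) V := fun _ => tendsto_const_nhds

omit [DecidableEq α] in
theorem LmE.const (X : Module.End ℂ (Pat α → ℂ)) : LmE l (fun _ => X) X :=
  fun _ _ => tendsto_const_nhds

omit [DecidableEq α] in
theorem LmF.add {V V' : β → Fnl α} {V0 V0' : Fnl α} (h : LmF l V V0) (h' : LmF l V' V0') :
    LmF l (fun b => V b + V' b) (V0 + V0') := fun F => (h F).add (h' F)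

omit [DecidableEq α] in
theorem LmF.smul {c : β → ℂ} {c0 : ℂ} {V : β → Fnl α} {V0 : Fnl α} (hc : Tendsto c l (𝓝 c0))
    (h : LmF l V V0) : LmF l (fun b => c b • V b) (c0 • V0) := fun F => hc.mul (h F)

omit [DecidableEq α] in
theorem LmF.sum {κ : Type*} (s : Finset κ) {V : κ → β → Fnl α} {V0 : κ → Fnl α}
    (h : ∀ k ∈ s, LmF l (V k) (V0 k)) : LmF l (fun b => ∑ k ∈ s, V k b) (∑ k ∈ s, V0 k) := by
  intro F
  simp only [LinearMap.sum_apply]
  exact tendsto_finsetSum _ fun k hk => h k hk F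

omit [DecidableEq α] in
theorem LmF.congr' {V V' : β → Fnl α} {V0 : Fnl α} (h : LmF l V V0) (e : ∀ᶠ b in l, V b = V' b) :
    LmF l V' V0 := fun F => (h F).congr' (e.mono fun b hb => by rw [hb])

omit [DecidableEq α] in
theorem LmF.congr {V V' : β → Fnl α} {V0 : Fnl α} (h : LmF l V V0) (e : ∀ b, V b = V' b) :
    LmF l V' V0 := h.congr' (Eventually.of_forall e)

omit [DecidableEq α] in
theorem LmF.unique [l.NeBot] {V : β → Fnl α} {V0 V0' : Fnl α} (h : LmF l V V0) (h' : LmF l V V0') :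
    V0 = V0' := LinearMap.ext fun F => tendsto_nhds_unique (h F) (h' F)

omit [DecidableEq α] in
theorem LmE.congr' {X X' : β → Module.End ℂ (Pat α → ℂ)} {X0 : Module.End ℂ (Pat α → ℂ)}
    (h : LmE l X X0) (e : ∀ᶠ b in l, X b = X' b) : LmE l X' X0 :=
  fun F p => (h F p).congr' (e.mono fun b hb => by rw [hb])

omit [DecidableEq α] in
theorem LmE.congr {X X' : β → Module.End ℂ (Pat α → ℂ)} {X0 : Module.End ℂ (Pat α → ℂ)}
    (h : LmE l X X0) (e : ∀ b, X b = X' b) : LmE l X' X0 := h.congr' (Eventually.of_forall e)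

omit [DecidableEq α] in
theorem LmE.unique [l.NeBot] {X : β → Module.End ℂ (Pat α → ℂ)} {X0 X0' : Module.End ℂ (Pat α → ℂ)}
    (h : LmE l X X0) (h' : LmE l X X0') : X0 = X0' :=
  LinearMap.ext fun F => funext fun p => tendsto_nhds_unique (h F p) (h' F p)

omit [DecidableEq α] in
/-- A functional as a finite sum. -/
theorem fnl_sum [Fintype (Pat α)] (V : Fnl α) (F : Pat α → ℂ) :
    V F = ∑ q, F q * V (HS.ind q : Pat α → ℂ) := by
  have h1 : F = ∑ q, F q • (HS.ind q : Pat α → ℂ) := by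
    conv_lhs => rw [eq_sum_ind F]
    funext p
    simp only [Finset.sum_apply, Pi.smul_apply, smul_eq_mul]
  conv_lhs => rw [h1]
  rw [map_sum]
  exact Finset.sum_congr rfl fun q _ => by rw [map_smul, smul_eq_mul]

omit [DecidableEq α] in
/-- An operator as a finite sum. -/
theorem end_sum [Fintype (Pat α)] (X : Module.End ℂ (Pat α → ℂ)) (F : Pat α → ℂ) (p : Pat α) :
    X F p = ∑ q, F q * X (HS.ind q : Pat α → ℂ) p := by
  have := fnl_sum ((LinearMap.proj p : (Pat α → ℂ) →ₗ[ℂ] ℂ) ∘ₗ X) F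
  exact this

variable [Finite α]

omit [DecidableEq α] in
theorem LmF.app {V : β → Fnl α} {V0 : Fnl α} {G : β → Pat α → ℂ} {G0 : Pat α → ℂ} (h : LmF l V V0)
    (hG : ∀ p, Tendsto (fun b => G b p) l (𝓝 (G0 p))) :
    Tendsto (fun b => V b (G b)) l (𝓝 (V0 G0)) := by
  classical
  have : Fintype (Pat α) := Fintype.ofFinite _
  rw [fnl_sum V0 G0]
  refine (tendsto_finsetSum _ fun q _ => (hG q).mul (h (HS.ind q))).congr fun b => ?_
  rw [fnl_sum (V b) (G b)]

omit [DecidableEq α] in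
theorem LmF.comp {V : β → Fnl α} {V0 : Fnl α} {X : β → Module.End ℂ (Pat α → ℂ)}
    {X0 : Module.End ℂ (Pat α → ℂ)} (h : LmF l V V0) (hX : LmE l X X0) :
    LmF l (fun b => V b ∘ₗ X b) (V0 ∘ₗ X0) := fun F => h.app fun p => hX F p

omit [DecidableEq α] in
theorem LmE.mul {X Y : β → Module.End ℂ (Pat α → ℂ)} {X0 Y0 : Module.End ℂ (Pat α → ℂ)}
    (hX : LmE l X X0) (hY : LmE l Y Y0) : LmE l (fun b => X b * Y b) (X0 * Y0) := by
  intro F p
  classical
  have : Fintype (Pat α) := Fintype.ofFinite _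
  show Tendsto (fun b => X b (Y b F) p) l (𝓝 (X0 (Y0 F) p))
  rw [end_sum X0 (Y0 F) p]
  refine (tendsto_finsetSum _ fun q _ => (hY F q).mul (hX (HS.ind q) p)).congr fun b => ?_
  rw [end_sum (X b) (Y b F) p]

end lim

/-! ### The operator -/

section op

variable {α β : Type*} [DecidableEq α] {l : Filter β}

/-- The rhombus at infinite rapidity. -/
noncomputable def Ri (e : ℂ) (i j : α) : Module.End ℂ (Pat α → ℂ) :=
  mk (EXL.R (Wi e) i j) (EXL.lin_R _ _ _)

theorem lm_R {i j : α} (h : i ≠ j) {u : β → ℂ} {e : ℂ} (hu : TW l (fun b => rwt (u b)) (Wi e)) :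
    LmE l (fun b => uops.R i j (u b)) (Ri e i j) := by
  intro F p
  simp only [uops_R_apply h]
  show Tendsto (fun b => EXL.R (rwt (u b)) i j F p) l (𝓝 (EXL.R (Wi e) i j F p))
  obtain ⟨hv, h1, h2, h3, h4⟩ := hu
  by_cases e1 : p i = i
  · by_cases e2 : p j = j
    · simp only [EXL.R, if_pos e1, if_pos e2]
      exact tendsto_const_nhds.add (h2.mul_const _)
    · simp only [EXL.R, if_pos e1, if_neg e2]
      exact (hv.mul_const _).add (h1.mul_const _)
  · by_cases e2 : p j = j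
    · simp only [EXL.R, if_neg e1, if_pos e2]
      exact (hv.mul_const _).add (h1.mul_const _)
    · by_cases e3 : p i = j
      · simp only [EXL.R, if_neg e1, if_neg e2, if_pos e3]
        exact h3.mul_const _
      · simp only [EXL.R, if_neg e1, if_neg e2, if_neg e3]
        exact ((h3.mul_const _).add (h2.mul_const _)).add (h4.mul_const _)

/-- An empty line at infinity is transparent. -/
theorem E_Ri (e : ℂ) (i j : α) : uops.E i * Ri e i j = uops.E i := by
  refine LinearMap.ext fun F => funext fun p => ?_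
  rw [Module.End.mul_apply, uops_E_apply, uops_E_apply]
  show EXL.emp i (EXL.R (Wi e) i j F) p = EXL.emp i F p
  unfold EXL.emp
  by_cases e1 : p i = i
  · rw [if_pos e1, if_pos e1]
    by_cases e2 : p j = j
    · simp only [EXL.R, if_pos e1, if_pos e2, Wi]
      ring
    · simp only [EXL.R, if_pos e1, if_neg e2, Wi]
      ring
  · rw [if_neg e1, if_neg e1]

theorem U_eq {i j : α} (h : i ≠ j) : uops.U i j = uops.E i * uops.E j + opCu ℂ i j := by
  refine LinearMap.ext fun F => funext fun p => ?_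
  rw [uops_U_apply h, LinearMap.add_apply, Pi.add_apply, Module.End.mul_apply, uops_E_apply,
    uops_E_apply, opCu_apply]
  unfold EXL.U EXL.emp
  by_cases e1 : p i = i
  · by_cases e2 : p j = j
    · rw [if_pos e1, if_pos e2, if_pos e1, if_pos e2, if_pos ⟨e1, e2⟩]
    · rw [if_pos e1, if_neg e2, if_pos e1, if_neg e2, if_neg fun h => e2 h.2]
      ring
  · rw [if_neg e1, if_neg e1, if_neg fun h => e1 h.1]
    ring

/-- **The cup slide at infinity**, from the exact law at the rapidity difference `3 lam`. -/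
theorem cu_Ri [Finite α] {e : ℂ} {u : ℕ → ℂ} (hu : TW atTop (fun b => rwt (u b)) (Wi e))
    (hu3 : TW atTop (fun b => rwt (3 * Real.pi / 8 + u b)) (Wi e))
    (k1 : ∀ᶠ b in atTop, okR (u b)) (k2 : ∀ᶠ b in atTop, okR (3 * Real.pi / 8 + u b)) {i j r : α}
    (hij : i ≠ j) (hir : i ≠ r) (hjr : j ≠ r) :
    opCu ℂ i j * Ri e j r * Ri e i r = opCu ℂ i j := by
  have hh : (uops (ι := α)).h + (uops (ι := α)).h = 3 * Real.pi / 8 := by
    rw [uops_h]; ring
  have h1 : uops.U i j * Ri e j r * Ri e i r = uops.U i j := by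
    have a := ((LmE.const (l := atTop (α := ℕ)) (uops.U i j)).mul (lm_R hjr hu3)).mul (lm_R hir hu)
    refine a.unique ((LmE.const (uops.U i j)).congr' ?_)
    filter_upwards [k1, k2] with b hb hb'
    have := (ulaws (ι := α)).CU2 (u := u b) hij hir hjr hb (by rw [hh]; exact hb')
    rw [hh] at this
    exact this.symm
  have h2 : uops.E i * uops.E j * Ri e j r * Ri e i r = uops.E i * uops.E j := by
    rw [mul_assoc (uops.E i), E_Ri, ulaws.cEE.eq, mul_assoc, E_Ri]
  rw [U_eq hij, add_mul, add_mul, h2] at h1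
  exact add_left_cancel h1

theorem sin_ne_im {x : ℂ} (h : x.im ≠ 0) : Complex.sin x ≠ 0 := by
  intro hs
  rw [Complex.sin_eq_zero_iff] at hs
  obtain ⟨k, hk⟩ := hs
  apply h
  rw [hk]
  simp

theorem lam_im : Fm.lam.im = 0 := by
  have := lam_conj
  rwa [Complex.conj_eq_iff_im] at this

theorem ok_im {x : ℂ} (h : x.im ≠ 0) : okR x := by
  have l := lam_im
  rw [Fm.okR_iff, Fm.Dn]
  refine mul_ne_zero (sin_ne_im ?_) (sin_ne_im ?_)
  · simp [Complex.mul_im, l]
    exact h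
  · simp [Complex.mul_im, l]
    exact h

theorem exp_up {β : Type*} {l : Filter β} {f : β → ℝ} (hf : Tendsto f l atTop) (x : ℂ) :
    Tendsto (fun b => exp (I * (x + f b * I))) l (𝓝 0) := by
  have e : ∀ b, exp (I * (x + f b * I)) = exp (I * x) * exp (-(f b : ℂ)) := fun b => by
    rw [← Complex.exp_add]
    congr 1
    linear_combination (f b : ℂ) * Complex.I_sq
  simp only [e]
  rw [show (0 : ℂ) = exp (I * x) * 0 by ring]
  refine Tendsto.const_mul _ ?_
  rw [tendsto_zero_iff_norm_tendsto_zero]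
  have e2 : ∀ b, ‖exp (-(f b : ℂ))‖ = Real.exp (-(f b)) := fun b => by
    rw [← Complex.ofReal_neg, Complex.norm_exp_ofReal]
  simp only [e2]
  exact Real.tendsto_exp_neg_atTop_nhds_zero.comp hf

/-- `u → i∞` -/
theorem tw_up' {β : Type*} {l : Filter β} {f : β → ℝ} (hf : Tendsto f l atTop) (x : ℂ) :
    TW l (fun b => rwt (x + f b * I)) (Wi Fm.om) := tw_up (exp_up hf x)

/-- `u → -i∞` -/
theorem tw_dn' {β : Type*} {l : Filter β} {f : β → ℝ} (hf : Tendsto f l atTop) (x : ℂ) :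
    TW l (fun b => rwt (x - f b * I)) (Wi Fm.om⁻¹) := by
  refine tw_dn ?_
  have := exp_up hf (-x)
  refine this.congr fun b => ?_
  congr 1
  ring

/-- The two directions: `σ = 1` (`u → i∞`) and `σ = -1` (`u → -i∞`). -/
noncomputable def eI (σ : ℂ) : ℂ := exp (I * (σ * (2 * Fm.lam)))

theorem eI_one : eI 1 = Fm.om := by
  rw [eI, Fm.om, one_mul]

theorem eI_neg : eI (-1) = Fm.om⁻¹ := by
  rw [eI, Fm.om, ← Complex.exp_neg]
  congr 1
  ring

theorem tw_sg {β : Type*} {l : Filter β} {f : β → ℝ} (hf : Tendsto f l atTop) {σ : ℂ}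
    (hσ : σ = 1 ∨ σ = -1) (x : ℂ) : TW l (fun b => rwt (x + σ * (f b * I))) (Wi (eI σ)) := by
  rcases hσ with rfl | rfl
  · simp only [one_mul, eI_one]
    exact tw_up' hf x
  · simp only [neg_mul, one_mul, eI_neg, ← sub_eq_add_neg]
    exact tw_dn' hf x

/-- **The cup slide at infinity.** -/
theorem cu_Ri' [Finite α] {σ : ℂ} (hσ : σ = 1 ∨ σ = -1) {i j r : α} (hij : i ≠ j) (hir : i ≠ r)
    (hjr : j ≠ r) : opCu ℂ i j * Ri (eI σ) j r * Ri (eI σ) i r = opCu ℂ i j := by
  have hf : Tendsto (fun n : ℕ => (n : ℝ)) atTop atTop := tendsto_natCast_atTop_atTop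
  have him : ∀ (x : ℝ) (n : ℕ), 0 < n → ((x : ℂ) + σ * ((n : ℝ) * I)).im ≠ 0 := by
    intro x n hn
    have : (n : ℝ) ≠ 0 := by positivity
    rcases hσ with rfl | rfl
    · simpa using this
    · simpa using this
  refine cu_Ri (u := fun n => 0 + σ * ((n : ℝ) * I)) (tw_sg hf hσ 0) ?_ ?_ ?_ hij hir hjr
  · refine (tw_sg hf hσ (3 * Real.pi / 8)).congr fun n => ?_
    rw [zero_add]
  · filter_upwards [eventually_gt_atTop 0] with n hn
    refine ok_im ?_
    have := him 0 n hn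
    rwa [Complex.ofReal_zero] at this
  · filter_upwards [eventually_gt_atTop 0] with n hn
    refine ok_im ?_
    rw [zero_add]
    have := him (3 * Real.pi / 8) n hn
    rwa [show ((3 * Real.pi / 8 : ℝ) : ℂ) = 3 * Real.pi / 8 by push_cast; ring] at this

theorem comm_Ri [Finite α] {σ : ℂ} (hσ : σ = 1 ∨ σ = -1) {i j k m : α} (hij : i ≠ j) (hkm : k ≠ m)
    (h1 : i ≠ k) (h2 : i ≠ m) (h3 : j ≠ k) (h4 : j ≠ m) :
    Commute (Ri (eI σ) i j) (Ri (eI σ) k m) := by
  have hf : Tendsto (fun n : ℕ => (n : ℝ)) atTop atTop := tendsto_natCast_atTop_atTop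
  have a := lm_R hij (tw_sg hf hσ 0)
  have b := lm_R hkm (tw_sg hf hσ 0)
  exact (a.mul b).unique ((b.mul a).congr fun n => ((ulaws.cRR h1 h2 h3 h4).eq).symm)

/-- A line at infinity crosses the rows of `A`. -/
noncomputable def Mi (e : ℂ) (q : α) (A : List α) : Module.End ℂ (Pat α → ℂ) :=
  (A.map fun k => Ri e q k).prod

theorem Mi_nil (e : ℂ) (q : α) : Mi e q [] = 1 := rfl

theorem Mi_cons (e : ℂ) (q k : α) (A : List α) : Mi e q (k :: A) = Ri e q k * Mi e q A := by
  rw [Mi, List.map_cons, List.prod_cons, Mi]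

theorem lm_M [Finite α] {z : β → α → ℂ} {w : β → ℂ} {e : ℂ} {q : α} {A : List α} (hq : q ∉ A)
    (h : ∀ k ∈ A, TW l (fun b => rwt (w b - z b k)) (Wi e)) :
    LmE l (fun b => uops.M (z b) q (w b) A) (Mi e q A) := by
  induction A with
  | nil => exact LmE.const 1
  | cons k A ih =>
    have hqk : q ≠ k := fun e => hq (by simp [e])
    rw [Mi_cons]
    refine ((lm_R hqk (h k (by simp))).mul (ih (fun h' => hq (by simp [h']))
      fun m hm => h m (by simp [hm]))).congr fun b => ?_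
    rw [Glob.Ops.M_cons]

/-- An empty line at infinity is transparent. -/
theorem E_Mi (e : ℂ) (q : α) (A : List α) : uops.E q * Mi e q A = uops.E q := by
  induction A with
  | nil => rw [Mi_nil, mul_one]
  | cons k A ih => rw [Mi_cons, ← mul_assoc, E_Ri, ih]

theorem comm_RMi [Finite α] {σ : ℂ} (hσ : σ = 1 ∨ σ = -1) {p q k : α} {A : List α} (hpq : p ≠ q)
    (hpk : p ≠ k) (hqk : q ≠ k) (hp : p ∉ A) (hq : q ∉ A) (hk : k ∉ A) :
    Commute (Mi (eI σ) q A) (Ri (eI σ) p k) := by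
  induction A with
  | nil => exact Commute.one_left _
  | cons m A ih =>
    have h1 : p ≠ m := fun e => hp (by simp [e])
    have h2 : q ≠ m := fun e => hq (by simp [e])
    have h3 : k ≠ m := fun e => hk (by simp [e])
    rw [Mi_cons]
    exact (comm_Ri hσ h2 hpk hpq.symm hqk h1.symm h3.symm).mul_left
      (ih (fun h => hp (by simp [h])) (fun h => hq (by simp [h])) fun h => hk (by simp [h]))

/-- **The cup slide at infinity** through the rows of `A`. -/
theorem cu_Mi [Finite α] {σ : ℂ} (hσ : σ = 1 ∨ σ = -1) {p q : α} {A : List α} (hpq : p ≠ q)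
    (hp : p ∉ A) (hq : q ∉ A) (hA : A.Nodup) :
    opCu ℂ p q * (Mi (eI σ) q A * Mi (eI σ) p A) = opCu ℂ p q := by
  induction A with
  | nil => rw [Mi_nil, Mi_nil, mul_one, mul_one]
  | cons k A ih =>
    have hpk : p ≠ k := fun e => hp (by simp [e])
    have hqk : q ≠ k := fun e => hq (by simp [e])
    have hp' : p ∉ A := fun h => hp (by simp [h])
    have hq' : q ∉ A := fun h => hq (by simp [h])
    have hk := (List.nodup_cons.1 hA).1
    have c := comm_RMi hσ hpq hpk hqk hp' hq' hk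
    rw [Mi_cons, Mi_cons]
    calc opCu ℂ p q * (Ri (eI σ) q k * Mi (eI σ) q A * (Ri (eI σ) p k * Mi (eI σ) p A))
        = opCu ℂ p q * (Ri (eI σ) q k * (Mi (eI σ) q A * Ri (eI σ) p k) * Mi (eI σ) p A) := by
          simp only [mul_assoc]
      _ = opCu ℂ p q * Ri (eI σ) q k * Ri (eI σ) p k * (Mi (eI σ) q A * Mi (eI σ) p A) := by
          rw [c.eq]; simp only [mul_assoc]
      _ = _ := by rw [cu_Ri' hσ hpq hpk hqk, ih hp' hq' (List.nodup_cons.1 hA).2]

/-- Two empty lines at infinity are transparent. -/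
theorem EE_Mi (e : ℂ) (p q : α) (A : List α) :
    uops.E p * uops.E q * (Mi e q A * Mi e p A) = uops.E p * uops.E q := by
  rw [mul_assoc, ← mul_assoc (uops.E q), E_Mi, ← mul_assoc, ulaws.cEE.eq, mul_assoc, E_Mi]

end op

end Pool.Agent.NUF
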