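import Pool.Agent.NUF.PMid
import Pool.Agent.NUF.PBil
import Pool.Agent.NUF.RInf

/-!
# Limits and analyticity of the pairing
-/

set_option autoImplicit false

namespace Pool.Agent.NUF

open _root_.Pool.Agent.EXL.HS Filter Topology
open Pool.Agent.EXL (okR)
open Pool.Agent.EXL.Fm (Dn)

section lim

variable {ι β : Type*} [DecidableEq ι] [Finite ι] {l : Filter β}

/-- **The pairing is continuous.** -/
theorem Zp_lim {V V' : β → Fnl ι} {V0 V0' : Fnl ι} (h : LmF l V V0) (h' : LmF l V' V0') (n' : ℂ)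
    (L1 L2 : List (ι × ι)) :
    Tendsto (fun b => Zp n' (V b) (V' b) L1 L2) l (𝓝 (Zp n' V0 V0' L1 L2)) :=
  h.app fun _ => h' _

/-- A differentiable functional of a differentiable function. -/
theorem diffAt_app {V : ℂ → Fnl ι} {G : ℂ → EXL.Pat ι → ℂ} {ζ : ℂ}
    (hV : ∀ F, DifferentiableAt ℂ (fun s => V s F) ζ)
    (hG : ∀ P, DifferentiableAt ℂ (fun s => G s P) ζ) :
    DifferentiableAt ℂ (fun s => V s (G s)) ζ := by
  classical
  have : Fintype (EXL.Pat ι) := Fintype.ofFinite _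
  have e : (fun s => V s (G s)) = fun s => ∑ q, G s q * V s (ind q) := by
    funext s
    exact fnl_sum (V s) (G s)
  rw [e]
  exact DifferentiableAt.fun_sum fun q _ => (hG q).mul (hV _)

/-- **The pairing is analytic.** -/
theorem Zp_diffAt {V V' : ℂ → Fnl ι} {ζ : ℂ} (hV : ∀ F, DifferentiableAt ℂ (fun s => V s F) ζ)
    (hV' : ∀ F, DifferentiableAt ℂ (fun s => V' s F) ζ) (n' : ℂ) (L1 L2 : List (ι × ι)) :
    DifferentiableAt ℂ (fun s => Zp n' (V s) (V' s) L1 L2) ζ :=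
  diffAt_app hV fun _ => hV' _

omit [Finite ι] in
/-- The line through the rows is analytic where the denominators do not vanish. -/
theorem M_diffAt {z : ι → ℂ} {p : ι} {X : List ι} (hp : p ∉ X) {ζ : ℂ}
    (h : ∀ x ∈ X, okR (ζ - z x)) (F : EXL.Pat ι → ℂ) (P : EXL.Pat ι) :
    DifferentiableAt ℂ (fun s => uops.M z p s X F P) ζ := by
  have hD : DNs z ζ X ≠ 0 := by
    rw [DNs]
    refine List.prod_ne_zero ?_
    intro h0
    obtain ⟨x, hx, e⟩ := List.mem_map.1 h0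
    exact (EXL.Fm.okR_iff _).1 (h x hx) e
  have hc : ContinuousAt (fun s => DNs z s X) ζ := (diff_DNs z X ζ).continuousAt
  have hev : ∀ᶠ s in 𝓝 ζ, DNs z s X ≠ 0 := hc.eventually_ne hD
  have h1 : DifferentiableAt ℂ (fun s => (DNs z s X)⁻¹ * MN z p s X F P) ζ :=
    ((diff_DNs z X ζ).inv hD).mul (diff_MN z p X F P ζ)
  refine h1.congr_of_eventuallyEq ?_
  filter_upwards [hev] with s hs
  have hok : ∀ x ∈ X, okR (s - z x) := by
    intro x hx
    rw [EXL.Fm.okR_iff]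
    intro h0
    apply hs
    rw [DNs]
    exact List.prod_eq_zero (List.mem_map.2 ⟨x, hx, h0⟩)
  rw [MN_eq hp hok, Pi.smul_apply, smul_eq_mul, inv_mul_cancel_left₀ hs]

/-- A functional followed by an operator. -/
theorem comp_diffAt {V : ℂ → Fnl ι} {X : ℂ → Module.End ℂ (EXL.Pat ι → ℂ)} {ζ : ℂ}
    (hV : ∀ F, DifferentiableAt ℂ (fun s => V s F) ζ)
    (hX : ∀ F P, DifferentiableAt ℂ (fun s => X s F P) ζ) (F : EXL.Pat ι → ℂ) :
    DifferentiableAt ℂ (fun s => (V s ∘ₗ X s) F) ζ :=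
  diffAt_app (V := V) (G := fun s => X s F) hV fun P => hX F P

/-- Products of operators. -/
theorem mul_diffAt {X Y : ℂ → Module.End ℂ (EXL.Pat ι → ℂ)} {ζ : ℂ}
    (hX : ∀ F P, DifferentiableAt ℂ (fun s => X s F P) ζ)
    (hY : ∀ F P, DifferentiableAt ℂ (fun s => Y s F P) ζ) (F : EXL.Pat ι → ℂ) (P : EXL.Pat ι) :
    DifferentiableAt ℂ (fun s => (X s * Y s) F P) ζ :=
  diffAt_app (V := fun s => (LinearMap.proj P : (EXL.Pat ι → ℂ) →ₗ[ℂ] ℂ) ∘ₗ X s)
    (G := fun s => Y s F) (fun G => hX G P) fun Q => hY F Q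

end lim

/-- **Identity theorem** on an open set with countable complement. -/
theorem eq_off {Ω : Set ℂ} (hΩ : IsOpen Ω) (hc : Ωᶜ.Countable) {f g : ℂ → ℂ}
    (hf : ∀ z ∈ Ω, DifferentiableAt ℂ f z) (hg : ∀ z ∈ Ω, DifferentiableAt ℂ g z) {V S : Set ℂ}
    (hV : IsOpen V) (hne : V.Nonempty) (hS : S.Countable) (h : ∀ z ∈ V, z ∉ S → z ∈ Ω → f z = g z) :
    ∀ z ∈ Ω, f z = g z := by
  have hpc : IsPreconnected Ω := by
    have h1 := (hc.isConnected_compl_of_one_lt_rank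
      (by rw [Complex.rank_real_complex]; norm_num)).isPreconnected
    rwa [compl_compl] at h1
  have hd : Dense (Ωᶜ ∪ S)ᶜ := (hc.union hS).dense_compl ℂ
  have hfa : AnalyticOnNhd ℂ f Ω :=
    (show DifferentiableOn ℂ f Ω from fun z hz => (hf z hz).differentiableWithinAt).analyticOnNhd hΩ
  have hga : AnalyticOnNhd ℂ g Ω :=
    (show DifferentiableOn ℂ g Ω from fun z hz => (hg z hz).differentiableWithinAt).analyticOnNhd hΩ
  obtain ⟨z₀, hz₀V, hz₀⟩ := hd.inter_open_nonempty V hV hne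
  rw [Set.mem_compl_iff, Set.mem_union, not_or, Set.notMem_compl_iff] at hz₀
  have hz₀Ω : z₀ ∈ Ω := hz₀.1
  -- equality on `V ∩ Ω`
  have hVΩ : ∀ z ∈ V ∩ Ω, f z = g z := by
    intro z hz
    by_contra hne'
    have hcf : ContinuousOn f (V ∩ Ω) := fun w hw => (hf w hw.2).continuousAt.continuousWithinAt
    have hcg : ContinuousOn g (V ∩ Ω) := fun w hw => (hg w hw.2).continuousAt.continuousWithinAt
    have ho : IsOpen ((V ∩ Ω) ∩ {w | f w - g w ≠ 0}) :=
      (hcf.sub hcg).isOpen_inter_preimage (hV.inter hΩ) isOpen_ne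
    obtain ⟨w, hw, hwS⟩ := hd.inter_open_nonempty _ ho ⟨z, hz, fun h => hne' (sub_eq_zero.1 h)⟩
    rw [Set.mem_compl_iff, Set.mem_union, not_or] at hwS
    exact hw.2 (sub_eq_zero.2 (h w hw.1.1 hwS.2 hw.1.2))
  refine hfa.eqOn_of_preconnected_of_eventuallyEq hga hpc hz₀Ω ?_
  filter_upwards [(hV.inter hΩ).mem_nhds ⟨hz₀V, hz₀Ω⟩] with z hz
  exact hVΩ z hz

end Pool.Agent.NUF
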