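import Pool.Agent.NUF.PNear

/-!
# The polynomial of one more line at the bottom

`PV n' z t L1 L2 ζ` = the pairing of the functionals of the lines `t :: L1 ++ L2` where the line `t` has the
rapidity `ζ` and the functionals are those of `NUF/FarV.lean`.
-/

set_option autoImplicit false

namespace Pool.Agent.NUF

open Pool.Agent.EXL (okR)
open Pool.Agent.EXL.Fm (Dn lam Wn R6)
open Pool.Agent.EXL.HS (ind)
open Pool.Agent.EXL (opCu)
open Polynomial

section parity

variable {ι : Type*} [DecidableEq ι] [Finite ι] {z : ι → ℂ} {X : List ι} {p : ι} {u : ℂ}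

theorem farE_E (hR : ∀ Y : List ι, Y.Sublist X → Reg z Y) (hn : (p :: X).Nodup) {c : ι} (hc : c ∉ X) :
    farE z u X ∘ₗ uops.E p = farE z u X := by
  have hn1 := List.nodup_cons.1 hn
  have h1 : ∀ Y : List ι, Y.Sublist X → VV z Y ∘ₗ uops.E p = VV z Y := fun Y hY =>
    (isV_VV (hn1.2.sublist hY) (fun h => hc (hY.subset h)) (hR Y hY)).sup.supS.E
      (fun h => hn1.1 (hY.subset h))
  unfold farE
  rw [LinearMap.add_comp, LinearMap.smul_comp, h1 X (List.Sublist.refl _)]
  congr 1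
  refine LinearMap.ext fun F => ?_
  rw [LinearMap.comp_apply, LinearMap.sum_apply, LinearMap.sum_apply]
  refine Finset.sum_congr rfl fun i hi => ?_
  have hi' := List.mem_toFinset.1 hi
  have hpi : p ≠ i := fun e => hn1.1 (e ▸ hi')
  have h2 := h1 (X.erase i) List.erase_sublist
  have h3 := (HLaws.oE_E (z := z) (X := X) ulaws hpi hn1.1).eq
  rw [LinearMap.smul_apply, LinearMap.smul_apply]
  congr 1
  calc (VV z (X.erase i) ∘ₗ oE uops z X i) (uops.E p F)
      = VV z (X.erase i) ((oE uops z X i * uops.E p) F) := rfl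
    _ = (VV z (X.erase i) ∘ₗ uops.E p) (oE uops z X i F) := by rw [h3]; rfl
    _ = _ := by rw [h2]; rfl

omit [Finite ι] in
theorem farC_E (hn : (p :: X).Nodup) : farC z p u X ∘ₗ uops.E p = 0 := by
  have hn1 := List.nodup_cons.1 hn
  unfold farC
  refine LinearMap.ext fun F => ?_
  rw [LinearMap.comp_apply, LinearMap.sum_apply, LinearMap.zero_apply]
  refine Finset.sum_eq_zero fun i hi => ?_
  have hi' := List.mem_toFinset.1 hi
  have hpi : p ≠ i := fun e => hn1.1 (e ▸ hi')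
  have h3 := (HLaws.oE_E (z := z) (X := X) ulaws hpi hn1.1).eq
  have h4 : opCu ℂ p i * oE uops z X i * uops.E p = 0 := by
    rw [mul_assoc, h3, ← mul_assoc, uhlaws.cuE0 hpi, zero_mul]
  rw [LinearMap.smul_apply]
  calc _ = _ • VV z (X.erase i) ((opCu ℂ p i * oE uops z X i * uops.E p) F) := rfl
    _ = 0 := by rw [h4, LinearMap.zero_apply, map_zero, smul_zero]

end parity

section defs

variable {ι : Type*} [DecidableEq ι]

/-- **The pairing with one more line at the bottom.** -/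
noncomputable def PV (n' : ℂ) (z : ι → ℂ) (t : ι × ι) (L1 L2 : List (ι × ι)) (ζ : ℂ) : ℂ :=
  Zp n' (far z t.1 (hh - ζ) ((L1 ++ L2).map Prod.fst))
    (far (fun i => -z i) t.2 (hh + ζ) ((L1 ++ L2).map Prod.snd)) (t :: L1) L2

/-- The conditions on the lines and on the additional line. -/
structure Cf (r : ℝ) (z : ι → ℂ) (t : ι × ι) (L : List (ι × ι)) (b c : ι) : Prop where
  cx : Cx r z L b c
  gd : Gd (t :: L)
  nb : b ≠ t.1 ∧ b ≠ t.2
  nc : c ≠ t.1 ∧ c ≠ t.2

omit [DecidableEq ι] in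
theorem Cx.cf {r : ℝ} {z : ι → ℂ} {t : ι × ι} {L : List (ι × ι)} {b c : ι} (h : Cx r z (t :: L) b c) :
    Cf r z t L b c := ⟨h.tail, h.gd, h.nb t (by simp), h.nc t (by simp)⟩

end defs

section main

variable {ι : Type*} [DecidableEq ι] [Finite ι] {z : ι → ℂ} {L L1 L2 : List (ι × ι)} {t : ι × ι} {r : ℝ}
  {b c : ι} {n' : ℂ}

omit [DecidableEq ι] [Finite ι] in
theorem Cf.bR (h : Cf r z t L b c) : b ∉ t.1 :: L.map Prod.fst := by
  rw [List.mem_cons, not_or]
  exact ⟨h.nb.1, h.cx.b1⟩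

omit [DecidableEq ι] [Finite ι] in
theorem Cf.cR (h : Cf r z t L b c) : c ∉ t.1 :: L.map Prod.fst := by
  rw [List.mem_cons, not_or]
  exact ⟨h.nc.1, h.cx.c1⟩

omit [DecidableEq ι] [Finite ι] in
theorem Cf.bL (h : Cf r z t L b c) : b ∉ t.2 :: L.map Prod.snd := by
  rw [List.mem_cons, not_or]
  exact ⟨h.nb.2, h.cx.b2⟩

omit [DecidableEq ι] [Finite ι] in
theorem Cf.cL (h : Cf r z t L b c) : c ∉ t.2 :: L.map Prod.snd := by
  rw [List.mem_cons, not_or]
  exact ⟨h.nc.2, h.cx.c2⟩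

omit [DecidableEq ι] [Finite ι] in
theorem Cf.nR (h : Cf r z t L b c) : (t.1 :: L.map Prod.fst).Nodup := by
  have := h.gd.fst
  rwa [List.map_cons] at this

omit [DecidableEq ι] [Finite ι] in
theorem Cf.nL (h : Cf r z t L b c) : (t.2 :: L.map Prod.snd).Nodup := by
  have := h.gd.snd
  rwa [List.map_cons] at this

omit [DecidableEq ι] [Finite ι] in
theorem sr_cons : {x | x ∈ t.1 :: L.map Prod.fst} = Sr (t :: L) := by
  unfold Sr
  rw [List.map_cons]

omit [DecidableEq ι] [Finite ι] in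
theorem sl_cons : {x | x ∈ t.2 :: L.map Prod.snd} = Sl (t :: L) := by
  unfold Sl
  rw [List.map_cons]

theorem Cf.supR (h : Cf r z t L b c) (hr : NR ι r) (u : ℂ) :
    SupS (Sr (t :: L)) (far z t.1 u (L.map Prod.fst)) := by
  rw [← sr_cons]
  exact (far_sup (h.cx.goodR hr) (List.nodup_cons.1 h.nR).1 h.bR h.cR h.cx.bc).supS

theorem Cf.supL (h : Cf r z t L b c) (hr : NR ι r) (u : ℂ) :
    SupS (Sl (t :: L)) (far (fun i => -z i) t.2 u (L.map Prod.snd)) := by
  rw [← sl_cons]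
  exact (far_sup (h.cx.goodL hr) (List.nodup_cons.1 h.nL).1 h.bL h.cL h.cx.bc).supS

/-- The part with an empty line. -/
theorem Cf.fE (h : Cf r z t L b c) (hr : NR ι r) (u : ℂ) :
    farE z u (L.map Prod.fst) ∘ₗ uops.E t.1 = farE z u (L.map Prod.fst) :=
  farE_E (h.cx.goodR hr).reg h.nR h.cx.c1

theorem Cf.fE' (h : Cf r z t L b c) (hr : NR ι r) (u : ℂ) :
    farE (fun i => -z i) u (L.map Prod.snd) ∘ₗ uops.E t.2 = farE (fun i => -z i) u (L.map Prod.snd) :=
  farE_E (h.cx.goodL hr).reg h.nL h.cx.c2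

theorem Cf.far_E (h : Cf r z t L b c) (hr : NR ι r) (u : ℂ) :
    far z t.1 u (L.map Prod.fst) ∘ₗ uops.E t.1 = farE z u (L.map Prod.fst) := by
  unfold far
  rw [LinearMap.add_comp, h.fE hr, LinearMap.smul_comp, farC_E h.nR, smul_zero, add_zero]

theorem Cf.far_E' (h : Cf r z t L b c) (hr : NR ι r) (u : ℂ) :
    far (fun i => -z i) t.2 u (L.map Prod.snd) ∘ₗ uops.E t.2 = farE (fun i => -z i) u (L.map Prod.snd) := by
  unfold far
  rw [LinearMap.add_comp, h.fE' hr, LinearMap.smul_comp, farC_E h.nL, smul_zero, add_zero]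

theorem Cf.sE (h : Cf r z t L b c) (hr : NR ι r) (u : ℂ) :
    SupS (Sr (t :: L)) (farE z u (L.map Prod.fst)) := by
  rw [← h.far_E hr u]
  exact (h.supR hr u).comp (On.cE (by simp [Sr]))

theorem Cf.sE' (h : Cf r z t L b c) (hr : NR ι r) (u : ℂ) :
    SupS (Sl (t :: L)) (farE (fun i => -z i) u (L.map Prod.snd)) := by
  rw [← h.far_E' hr u]
  exact (h.supL hr u).comp (On.cE (by simp [Sl]))

theorem Cf.sC (h : Cf r z t L b c) (hr : NR ι r) (u : ℂ) :
    SupS (Sr (t :: L)) (Fr.fa u • farC z t.1 u (L.map Prod.fst)) := by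
  have e : Fr.fa u • farC z t.1 u (L.map Prod.fst) =
      far z t.1 u (L.map Prod.fst) - farE z u (L.map Prod.fst) := by
    unfold far
    rw [add_sub_cancel_left]
  rw [e]
  intro F hF
  rw [LinearMap.sub_apply, h.supR hr u F hF, h.sE hr u F hF, sub_self]

theorem Cf.sC' (h : Cf r z t L b c) (hr : NR ι r) (u : ℂ) :
    SupS (Sl (t :: L)) (Fr.fa u • farC (fun i => -z i) t.2 u (L.map Prod.snd)) := by
  have e : Fr.fa u • farC (fun i => -z i) t.2 u (L.map Prod.snd) =
      far (fun i => -z i) t.2 u (L.map Prod.snd) - farE (fun i => -z i) u (L.map Prod.snd) := by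
    unfold far
    rw [add_sub_cancel_left]
  rw [e]
  intro F hF
  rw [LinearMap.sub_apply, h.supL hr u F hF, h.sE' hr u F hF, sub_self]

omit [Finite ι] in
theorem Zp_add_add (V W V' W' : Fnl ι) (L1 L2 : List (ι × ι)) :
    Zp n' (V + W) (V' + W') L1 L2 =
      Zp n' V V' L1 L2 + Zp n' V W' L1 L2 + (Zp n' W V' L1 L2 + Zp n' W W' L1 L2) := by
  rw [← Zb_apply, show Zb n' L1 L2 (V + W) = Zb n' L1 L2 V + Zb n' L1 L2 W from map_add _ _ _,
    LinearMap.add_apply, map_add, map_add]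
  rfl

/-- The pairing splits into the part with an empty and the part with an occupied line. -/
theorem Cf.split (h : Cf r z t (L1 ++ L2) b c) (hr : NR ι r) (u u' : ℂ) :
    Zp n' (far z t.1 u ((L1 ++ L2).map Prod.fst)) (far (fun i => -z i) t.2 u' ((L1 ++ L2).map Prod.snd))
        (t :: L1) L2 =
      Zp n' (farE z u ((L1 ++ L2).map Prod.fst)) (farE (fun i => -z i) u' ((L1 ++ L2).map Prod.snd))
        (t :: L1) L2 + Fr.fa u * Fr.fa u' * Zp n' (farC z t.1 u ((L1 ++ L2).map Prod.fst))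
          (farC (fun i => -z i) t.2 u' ((L1 ++ L2).map Prod.snd)) (t :: L1) L2 := by
  unfold far
  rw [Zp_add_add, Zp_smul]
  have e1 : Zp n' (farE z u ((L1 ++ L2).map Prod.fst))
      (Fr.fa u' • farC (fun i => -z i) t.2 u' ((L1 ++ L2).map Prod.snd)) (t :: L1) L2 = 0 := by
    refine Zp_EO (p := t.1) (p' := t.2) h.gd (h.sE hr u) (h.sC' hr u') (h.fE hr u) ?_
    rw [LinearMap.smul_comp, farC_E h.nL, smul_zero]
  have e2 : Zp n' (Fr.fa u • farC z t.1 u ((L1 ++ L2).map Prod.fst))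
      (farE (fun i => -z i) u' ((L1 ++ L2).map Prod.snd)) (t :: L1) L2 = 0 := by
    refine Zp_OE (p := t.1) (p' := t.2) h.gd (h.sC hr u) (h.sE' hr u') ?_ (h.fE' hr u')
    rw [LinearMap.smul_comp, farC_E h.nR, smul_zero]
  rw [e1, e2, add_zero, zero_add]

/-- **T1: the polynomial.** -/
theorem PV_poly (h : Cf r z t (L1 ++ L2) b c) (hr : NR ι r) :
    ∃ P : ℂ[X], P.natDegree ≤ 2 * (L1 ++ L2).length ∧
      P.coeff (2 * (L1 ++ L2).length) = Fr.qc (cv z (L1 ++ L2)) ^ 2 * ZV n' z L1 L2 ∧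
      ∀ ζ, P.eval (NUMv.cc ζ) = PV n' z t L1 L2 ζ := by
  have hn1 := h.cx.gd.fst
  have hn2 := h.cx.gd.snd
  have hE : PF (L1 ++ L2).length (Fr.Qs (ux z) ((L1 ++ L2).map Prod.fst).toFinset •
      VV z ((L1 ++ L2).map Prod.fst)) (fun u => farE z u ((L1 ++ L2).map Prod.fst)) := by
    refine ⟨cE z ((L1 ++ L2).map Prod.fst), ?_, fun u => ?_⟩
    · have := cE_lead hn1 z
      rwa [List.length_map] at this
    · have := farE_poly hn1 z u
      rw [List.length_map] at this
      exact this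
  have hE' : PF (L1 ++ L2).length (Fr.Qs (ux fun i => -z i) ((L1 ++ L2).map Prod.snd).toFinset •
      VV (fun i => -z i) ((L1 ++ L2).map Prod.snd))
        (fun u => farE (fun i => -z i) u ((L1 ++ L2).map Prod.snd)) := by
    refine ⟨cE (fun i => -z i) ((L1 ++ L2).map Prod.snd), ?_, fun u => ?_⟩
    · have := cE_lead hn2 (fun i => -z i)
      rwa [List.length_map] at this
    · have := farE_poly hn2 (fun i => -z i) u
      rw [List.length_map] at this
      exact this
  have hC : PL (L1 ++ L2).length (fun u => farC z t.1 u ((L1 ++ L2).map Prod.fst)) := by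
    refine ⟨cC z t.1 ((L1 ++ L2).map Prod.fst), fun u => ?_⟩
    have := farC_poly hn1 z t.1 u
    rw [List.length_map] at this
    exact this
  have hC' : PL (L1 ++ L2).length (fun u => farC (fun i => -z i) t.2 u ((L1 ++ L2).map Prod.snd)) := by
    refine ⟨cC (fun i => -z i) t.2 ((L1 ++ L2).map Prod.snd), fun u => ?_⟩
    have := farC_poly hn2 (fun i => -z i) t.2 u
    rw [List.length_map] at this
    exact this
  obtain ⟨P, h1, h2, h3⟩ := exists_poly (n' := n') (L1 := t :: L1) (L2 := L2) hE hE' hC hC'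
  refine ⟨P, h1, ?_, fun ζ => ?_⟩
  · rw [h2, Zp_smul, h.cx.qR hr, h.cx.qL hr, ZV, sq]
    congr 1
    refine Zp_EE (p := t.1) (p' := t.2) h.gd ?_ ?_
    · exact (isV_VV hn1 h.cx.c1 (h.cx.regR hr)).sup.supS
    · exact (isV_VV hn2 h.cx.c2 (h.cx.regL hr)).sup.supS
  · rw [h3, PV, h.split hr, fa_fa]

end main

end Pool.Agent.NUF
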