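import Pool.Agent.NUF.PAna

/-!
# Two variables: identity theorem and limit
-/

set_option autoImplicit false

namespace Pool.Agent.NUF

open Filter Topology

/-- **Identity theorem in two variables**, one after the other. -/
theorem eq_off2 {Ω : Set ℂ} (hΩ : IsOpen Ω) (hc : Ωᶜ.Countable) {f g : ℂ → ℂ → ℂ}
    (hf1 : ∀ ζ, Differentiable ℂ (f ζ)) (hf2 : ∀ ξ, Differentiable ℂ (fun ζ => f ζ ξ))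
    (hg1 : ∀ ζ ∈ Ω, ∀ ξ ∈ Ω, DifferentiableAt ℂ (g ζ) ξ)
    (hg2 : ∀ ζ ∈ Ω, ∀ ξ ∈ Ω, DifferentiableAt ℂ (fun ζ => g ζ ξ) ζ) {V S : Set ℂ}
    (hV : IsOpen V) (hne : V.Nonempty) (hS : S.Countable)
    (h : ∀ ζ ∈ V, ζ ∉ S → ζ ∈ Ω → ∀ ξ ∈ V, ξ ∉ S → ξ ∈ Ω → ζ ≠ ξ → f ζ ξ = g ζ ξ) :
    ∀ ζ ∈ Ω, ∀ ξ ∈ Ω, f ζ ξ = g ζ ξ := by
  have step : ∀ ζ ∈ V, ζ ∉ S → ζ ∈ Ω → ∀ ξ ∈ Ω, f ζ ξ = g ζ ξ := by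
    intro ζ hζV hζS hζΩ
    refine eq_off hΩ hc (fun ξ _ => hf1 ζ ξ) (fun ξ hξ => hg1 ζ hζΩ ξ hξ) hV hne
      (hS.union (Set.countable_singleton ζ)) (fun ξ hξV hξS hξΩ => ?_)
    rw [Set.mem_union, not_or] at hξS
    exact h ζ hζV hζS hζΩ ξ hξV hξS.1 hξΩ (fun e => hξS.2 e.symm)
  intro ζ hζ ξ hξ
  refine eq_off (f := fun ζ => f ζ ξ) (g := fun ζ => g ζ ξ) hΩ hc (fun ζ _ => hf2 ξ ζ)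
    (fun ζ hζ => hg2 ζ hζ ξ hξ) hV hne hS (fun ζ hζV hζS hζΩ => ?_) ζ hζ
  exact step ζ hζV hζS hζΩ ξ hξ

end Pool.Agent.NUF
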