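import Pool.Agent.NUF.PNear
import Pool.Agent.NUF.PMid

/-!
# The partition function with the weight 0 of all loops is 1
-/

set_option autoImplicit false

namespace Pool.Agent.NUF

open LPat
open Pool.Agent.EXL.HS (ind)

section dl

variable {Γ ι : Type*} [AddCommGroup Γ] [DecidableEq ι] {ν : Γ → ℂ}

omit [DecidableEq ι] in
theorem dl_ne {R : LPat Γ ι} {x : ι} (h : R x ≠ x) : dl Γ ι R = 0 := by
  classical
  unfold dl
  rw [if_neg]
  rintro rfl
  exact h rfl

omit [DecidableEq ι] in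
theorem dl_self : dl Γ ι LPat.empty = 1 := by
  classical
  unfold dl
  rw [if_pos rfl]

/-- If all loops have the weight 0, only the empty state can be glued. -/
theorem glue_dl (h0 : ∀ g, ν g = 0) {a b : ι} (hab : a ≠ b) :
    (cops ν).glue a b (dl Γ ι) = dl Γ ι := by
  funext R
  by_cases ha : R a = a
  · by_cases hb : R b = b
    · exact glue_emp hab ha hb _
    · rw [glue_r hab ha hb, dl_ne hb]
  · by_cases hb : R b = b
    · rw [glue_l hab ha hb, dl_ne ha]
    · rw [glue_occ hab ha hb, dl_ne ha]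
      by_cases h : R a = b
      · rw [lw_pos R ν h, h0, zero_mul]
      · have hc : CtOK a b R := ⟨hab, ha, hb, h⟩
        have e1 : R (R a) = a := R.inv a
        have e2 : R (R b) = b := R.inv b
        have h1 : jo a b R (R a) ≠ R a := by
          rw [jo_neg R h, cut_f hc, if_neg ha, if_neg h, if_pos rfl]
          intro e
          exact hab (by rw [← e1, ← e, e2])
        rw [dl_ne h1, mul_zero]

theorem gm_zero (h0 : ∀ g, ν g = 0) {L : List (ι × ι)} (hL : Gd L) : gm ν L = dl Γ ι := by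
  induction L with
  | nil => rfl
  | cons t L ih =>
    rw [gm_cons, ih (Gd_cons.1 hL).2.2, glue_dl h0 (Gd_cons.1 hL).1]

theorem dl_un {S S' : Set ι} (hd : Disjoint S S') {p q : EXL.Pat ι} (hp : ∀ x, x ∉ S → p x = x)
    (hq : ∀ x, x ∉ S' → q x = x) : dl Γ ι (ofP Γ (un p q)) =
      (ind EXL.Pat.empty : EXL.Pat ι → ℂ) p * (ind EXL.Pat.empty : EXL.Pat ι → ℂ) q := by
  have hj : Dj p q := dj_of_sup hd hp hq
  by_cases h1 : p = EXL.Pat.empty
  · by_cases h2 : q = EXL.Pat.empty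
    · rw [h1, h2, EXL.HS.ind_self, mul_one, un_empty]
      have e : ofP Γ (EXL.Pat.empty : EXL.Pat ι) = LPat.empty := by
        refine LPat.ext (funext fun x => rfl) (funext fun x => ?_)
        rfl
      rw [e, dl_self]
    · rw [EXL.HS.ind_ne h2, mul_zero]
      obtain ⟨x, hx⟩ : ∃ x, q x ≠ x := by
        by_contra hh
        push Not at hh
        exact h2 (EXL.Pat.ext (funext hh))
      refine dl_ne (x := x) ?_
      show un p q x ≠ x
      have e : p x = x := by rw [h1]; rfl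
      rw [un_apply hj, if_pos e]
      exact hx
  · rw [EXL.HS.ind_ne h1, zero_mul]
    obtain ⟨x, hx⟩ : ∃ x, p x ≠ x := by
      by_contra hh
      push Not at hh
      exact h1 (EXL.Pat.ext (funext hh))
    refine dl_ne (x := x) ?_
    show un p q x ≠ x
    rw [un_apply hj, if_neg hx]
    exact hx

end dl

section zero

variable {ι : Type*} [DecidableEq ι] {z : ι → ℂ} {L1 L2 : List (ι × ι)} {V V' : Fnl ι}

theorem Zp_zero (hG : Gd (L1 ++ L2)) (hV : SupS (Sr (L1 ++ L2)) V) (hV' : SupS (Sl (L1 ++ L2)) V') :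
    Zp 0 V V' L1 L2 = V (ind EXL.Pat.empty) * V' (ind EXL.Pat.empty) := by
  have h0 : ∀ g : ZMod 2, nu2 0 g = 0 := fun g => by
    unfold nu2
    split_ifs <;> rfl
  unfold Zp
  rw [gm_zero h0 hG, Tw_dl, pr_apply]
  have e1 : V (fun p => V' fun q => dl (ZMod 2) ι (ofP (ZMod 2) (un p q))) =
      V (fun p => (ind EXL.Pat.empty : EXL.Pat ι → ℂ) p * V' (ind EXL.Pat.empty)) := by
    refine hV.congr fun p hp => ?_
    have e2 : V' (fun q => dl (ZMod 2) ι (ofP (ZMod 2) (un p q))) =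
        V' ((ind EXL.Pat.empty : EXL.Pat ι → ℂ) p • (ind EXL.Pat.empty : EXL.Pat ι → ℂ)) :=
      hV'.congr fun q hq => dl_un hG.disj hp hq
    rw [e2, map_smul, smul_eq_mul]
  rw [e1]
  have e3 : (fun p => (ind EXL.Pat.empty : EXL.Pat ι → ℂ) p * V' (ind EXL.Pat.empty)) =
      V' (ind EXL.Pat.empty) • (ind EXL.Pat.empty : EXL.Pat ι → ℂ) := by
    funext p
    rw [Pi.smul_apply, smul_eq_mul, mul_comm]
  rw [e3, map_smul, smul_eq_mul, mul_comm]

/-- **The partition function without loops is 1.** -/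
theorem ZV_zero [Finite ι] (hG : Gd (L1 ++ L2)) {c : ι} (hc : c ∉ (L1 ++ L2).map Prod.fst)
    (hc' : c ∉ (L1 ++ L2).map Prod.snd) (hR : Reg z ((L1 ++ L2).map Prod.fst))
    (hR' : Reg (fun j => -z j) ((L1 ++ L2).map Prod.snd)) : ZV 0 z L1 L2 = 1 := by
  have i1 := isV_VV hG.fst hc hR
  have i2 := isV_VV hG.snd hc' hR'
  unfold ZV
  rw [Zp_zero hG i1.sup.supS i2.sup.supS, i1.one, i2.one, mul_one]

theorem Cx.zero [Finite ι] {r : ℝ} {b c : ι} (h : Cx r z (L1 ++ L2) b c) (hr : NR ι r) :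
    ZV 0 z L1 L2 = 1 :=
  ZV_zero h.gd h.c1 h.c2 (h.regR hr) (h.regL hr)

end zero

end Pool.Agent.NUF
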