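import Pool.Agent.NUF.PNr
import Pool.Agent.NUF.PZero
import Pool.Agent.NUF.Mv.Formula
import Pool.Agent.NUG.FarZ

/-!
# The disc function is the partition function of the sphere lattice

At equal rapidities the strip function is `Q² Z` as well; chain G gives the value of `Z` in the limit.
-/

set_option autoImplicit false

namespace Pool.Agent.NUF

open Pool.Agent.EXL (okR)
open Pool.Agent.EXL.Fm (Dn lam)
open Pool.Agent.EXL.HS (ind)
open Filter Topology Polynomial

section cont

variable {ι : Type*} [DecidableEq ι] {Z : Type*} [TopologicalSpace Z] {y0 : Z}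

omit [DecidableEq ι] in
theorem cont_fnl [Finite ι] {V : Z → Fnl ι} {G : Z → EXL.Pat ι → ℂ}
    (hV : ∀ F, ContinuousAt (fun y => V y F) y0) (hG : ∀ P, ContinuousAt (fun y => G y P) y0) :
    ContinuousAt (fun y => V y (G y)) y0 := by
  classical
  have : Fintype (EXL.Pat ι) := Fintype.ofFinite _
  have e : (fun y => V y (G y)) = fun y => ∑ q, G y q * V y (ind q) := by
    funext y
    have h1 : G y = ∑ q, G y q • (ind q : EXL.Pat ι → ℂ) := by
      conv_lhs => rw [EXL.HS.eq_sum_ind (G y)]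
      funext p
      simp only [Finset.sum_apply, Pi.smul_apply, smul_eq_mul]
    conv_lhs => rw [h1]
    rw [map_sum]
    exact Finset.sum_congr rfl fun q _ => by rw [map_smul, smul_eq_mul]
  rw [e]
  exact tendsto_finsetSum _ fun q _ => (hG q).mul (hV _)

/-- **Continuity of the partition function.** -/
theorem ZV_cont [Fintype ι] {ζ : Z → ι → ℂ} {L1 L2 : List (ι × ι)} {c : ι} {n' : ℂ}
    (hG : Gd (L1 ++ L2)) (hc : c ∉ (L1 ++ L2).map Prod.fst) (hc' : c ∉ (L1 ++ L2).map Prod.snd)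
    (hz : ∀ j, ContinuousAt (fun y => ζ y j) y0)
    (h1 : ∀ j ∈ (L1 ++ L2).map Prod.fst, okR (3 * Real.pi / 16 - ζ y0 j))
    (h2 : ∀ j ∈ (L1 ++ L2).map Prod.snd, okR (3 * Real.pi / 16 + ζ y0 j))
    (hR : Reg (ζ y0) ((L1 ++ L2).map Prod.fst))
    (hR' : Reg (fun i => -ζ y0 i) ((L1 ++ L2).map Prod.snd)) :
    ContinuousAt (fun y => ZV n' (ζ y) L1 L2) y0 := by
  have a1 := (reg_near (ζ := ζ) hG.fst hc (fun j _ => hz j) h1 hR).2
  have a2 := (reg_near (ζ := fun y i => -ζ y i) hG.snd hc' (fun j _ => (hz j).neg)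
    (fun j hj => by rw [sub_neg_eq_add]; exact h2 j hj) hR').2
  unfold ZV Zp
  simp only [pr_apply]
  exact cont_fnl a1 fun P => a2 _

end cont

/-- Distinct directions for the lines. -/
theorem exists_dir {ι : Type*} [DecidableEq ι] : ∀ L : List (ι × ι), Gd L →
    ∃ φ : ι → ℂ, Same φ L ∧ (rp φ L).Nodup := by
  intro L
  induction L with
  | nil => exact fun _ => ⟨fun _ => 0, fun t ht => by simp at ht, List.nodup_nil⟩
  | cons t L ih =>
    intro hG
    obtain ⟨φ, h1, h2⟩ := ih (Gd_cons.1 hG).2.2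
    obtain ⟨q, hq⟩ := (Set.infinite_univ (α := ℂ)).sdiff (List.finite_toSet (rp φ L)) |>.nonempty
    obtain ⟨e1, e2, e3⟩ := hG.up φ q
    refine ⟨up2 φ t q, fun u hu => ?_, ?_⟩
    · rcases List.mem_cons.1 hu with rfl | hu'
      · rw [e1, e2]
      · rw [(e3 u hu').1, (e3 u hu').2]
        exact h1 u hu'
    · rw [rp_up' hG, List.nodup_cons]
      exact ⟨hq.2, h2⟩

/-- **The strip function at equal rapidities.** -/
theorem W_equal {ι : Type*} [DecidableEq ι] [Fintype ι] {L1 L2 : List (ι × ι)} {s4 : Fin 4 → ι}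
    {n' : ℂ} (hG : Gd (L1 ++ L2)) (hi : Function.Injective s4)
    (hs4 : ∀ k, ∀ t ∈ L1 ++ L2, s4 k ≠ t.1 ∧ s4 k ≠ t.2) {r : ℝ} (hr : NR ι r)
    (hrad : r ≤ rad (L1 ++ L2).length) {s : ℂ} (hs : s ∈ Metric.ball z0 r) :
    (near_WW n').Wt (List.replicate L1.length (NUMv.cc s)) (List.replicate L2.length (NUMv.cc s)) =
      Fr.qc (List.replicate (L1 ++ L2).length (NUMv.cc s)) ^ 2 * ZV n' (fun _ => s) L1 L2 := by
  obtain ⟨φ, hφ1, hφ2⟩ := exists_dir (L1 ++ L2) hG
  set ζ : ℂ → ι → ℂ := fun t i => s + t * φ i with hζ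
  have hζ0 : ζ 0 = fun _ => s := by
    funext i
    rw [hζ]
    simp
  have hcont : ∀ i, Continuous fun t => ζ t i := fun i => by
    rw [hζ]
    fun_prop
  have hn1 := hG.fst
  have hn2 := hG.snd
  have m1 : s4 0 ∉ (L1 ++ L2).map Prod.fst := fun h => by
    obtain ⟨t, ht, e⟩ := List.mem_map.1 h
    exact (hs4 0 t ht).1 e.symm
  have m2 : s4 0 ∉ (L1 ++ L2).map Prod.snd := fun h => by
    obtain ⟨t, ht, e⟩ := List.mem_map.1 h
    exact (hs4 0 t ht).2 e.symm
  have m3 : s4 1 ∉ (L1 ++ L2).map Prod.snd := fun h => by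
    obtain ⟨t, ht, e⟩ := List.mem_map.1 h
    exact (hs4 1 t ht).2 e.symm
  have h01 : s4 0 ≠ s4 1 := fun e => absurd (hi e) (by decide)
  -- near 0
  have hnear : ∀ᶠ t : ℂ in 𝓝 0, ∀ i, ζ t i ∈ Metric.ball z0 r := by
    rw [Filter.eventually_all]
    intro i
    have := (hcont i).continuousAt (x := (0 : ℂ))
    refine this.eventually (Metric.isOpen_ball.mem_nhds ?_)
    show ζ 0 i ∈ _
    rw [hζ0]
    exact hs
  have key : ∀ᶠ t : ℂ in 𝓝[≠] 0,
      (near_WW n').Wt ((rp (ζ t) L1).map NUMv.cc) ((rp (ζ t) L2).map NUMv.cc) =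
        Fr.qc ((rp (ζ t) (L1 ++ L2)).map NUMv.cc) ^ 2 * ZV n' (ζ t) L1 L2 := by
    filter_upwards [eventually_nhdsWithin_of_eventually_nhds hnear, self_mem_nhdsWithin] with t ht ht0
    have ht0 : t ≠ 0 := ht0
    have hsame : Same (ζ t) (L1 ++ L2) := fun u hu => by
      show s + t * φ u.2 = s + t * φ u.1
      rw [hφ1 u hu]
    have hnd : (rp (ζ t) (L1 ++ L2)).Nodup := by
      have e : rp (ζ t) (L1 ++ L2) = (rp φ (L1 ++ L2)).map fun x => s + t * x := by
        unfold rp
        rw [List.map_map]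
        rfl
      rw [e]
      refine hφ2.map ?_
      intro x y hxy
      exact mul_left_cancel₀ ht0 (add_left_cancel hxy)
    have hC : Cs r (ζ t) (L1 ++ L2) s4 := by
      refine ⟨⟨hG, fun u _ => ht _, hsame, hnd, h01, fun u hu => hs4 0 u hu, fun u hu => hs4 1 u hu⟩,
        hi, hs4⟩
    have e1 := W_eq (n' := n') hC hr
    have hN : NUMv.Nr UU (rp (ζ t) L1 ++ rp (ζ t) L2) := by
      rw [← rp_append]
      refine ⟨fun a ha => ?_, hnd⟩
      obtain ⟨u, _, rfl⟩ := List.mem_map.1 ha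
      rw [rp_len]
      exact Metric.ball_subset_ball hrad (ht _)
    rw [(near_WW n').wt_eq hN, e1, cv_eq]
  -- the limits
  have hpt : ∀ L : List (ι × ι), Tendsto (fun t => NUMv.pt ((rp (ζ t) L).map NUMv.cc)) (𝓝 0)
      (𝓝 (NUMv.pt (List.replicate L.length (NUMv.cc s)))) := by
    intro L
    induction L with
    | nil => exact tendsto_const_nhds
    | cons u L ih =>
      refine NUMv.tendsto_pt_cons ?_ ih
      have hcc : Continuous NUMv.cc := by
        unfold NUMv.cc
        fun_prop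
      have := (hcc.comp (hcont u.1)).tendsto 0
      simp only [Function.comp_apply, hζ0] at this
      exact this
  have hpt2 : Tendsto (fun t => NUMv.pt ((rp (ζ t) L1).map NUMv.cc ++ (rp (ζ t) L2).map NUMv.cc)) (𝓝 0)
      (𝓝 (NUMv.pt (List.replicate L1.length (NUMv.cc s) ++ List.replicate L2.length (NUMv.cc s)))) := by
    have := hpt (L1 ++ L2)
    rw [List.length_append, List.replicate_add] at this
    simpa only [rp_append, List.map_append] using this
  have lim1 : Tendsto (fun t => (near_WW n').Wt ((rp (ζ t) L1).map NUMv.cc) ((rp (ζ t) L2).map NUMv.cc))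
      (𝓝[≠] 0) (𝓝 ((near_WW n').Wt (List.replicate L1.length (NUMv.cc s))
        (List.replicate L2.length (NUMv.cc s)))) := by
    have h1 := ((MvPolynomial.continuous_eval ((near_WW n').F L1.length L2.length)).tendsto _).comp
      (hpt2.mono_left (nhdsWithin_le_nhds (s := {0}ᶜ)))
    have e : ∀ L : List (ι × ι), ∀ t, ((rp (ζ t) L).map NUMv.cc).length = L.length := fun L t => by
      rw [List.length_map, rp_len]
    unfold NUMv.Near.Wt NUMv.ev
    simp only [e, List.length_replicate]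
    exact h1
  have lim2 : Tendsto (fun t => Fr.qc ((rp (ζ t) (L1 ++ L2)).map NUMv.cc) ^ 2 * ZV n' (ζ t) L1 L2)
      (𝓝[≠] 0) (𝓝 (Fr.qc (List.replicate (L1 ++ L2).length (NUMv.cc s)) ^ 2 *
        ZV n' (fun _ => s) L1 L2)) := by
    have h1 := ((MvPolynomial.continuous_eval (Fr.qF (L1 ++ L2).length)).tendsto _).comp
      ((hpt (L1 ++ L2)).mono_left (nhdsWithin_le_nhds (s := {0}ᶜ)))
    have e : ∀ t, ((rp (ζ t) (L1 ++ L2)).map NUMv.cc).length = (L1 ++ L2).length := fun t => by
      rw [List.length_map, rp_len]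
    have h2 : ContinuousAt (fun t => ZV n' (ζ t) L1 L2) 0 := by
      refine ZV_cont hG m1 m2 (fun i => (hcont i).continuousAt) ?_ ?_ ?_ ?_
      · intro j _
        rw [hζ0]
        exact (hr.ok s hs s hs).hm
      · intro j _
        rw [hζ0]
        exact (hr.ok s hs s hs).hp
      · rw [hζ0]
        exact hr.reg _ _ hn1 fun _ _ => hs
      · rw [hζ0]
        exact hr.reg' (fun _ => s) _ hn2 (fun _ _ => hs) m2 m3 h01
    have h3 : Tendsto (fun t => ZV n' (ζ t) L1 L2) (𝓝[≠] 0) (𝓝 (ZV n' (ζ 0) L1 L2)) :=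
      h2.mono_left nhdsWithin_le_nhds
    rw [hζ0] at h3
    refine Tendsto.mul (Tendsto.pow ?_ 2) h3
    unfold Fr.qc NUMv.ev
    simp only [e, List.length_replicate]
    exact h1
  exact tendsto_nhds_unique_of_eventuallyEq lim1 lim2 key

/-! ### The far limit -/

/-- The polynomial `P` of `cos 2s` as a function of `y = exp (2 i s)`, multiplied by `y ^ D`. -/
noncomputable def yf (P : ℂ[X]) (D : ℕ) (y : ℂ) : ℂ :=
  ∑ k ∈ Finset.range (D + 1), P.coeff k * (y ^ (D - k) * ((y ^ 2 + 1) / 2) ^ k)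

theorem yf_diff (P : ℂ[X]) (D : ℕ) : Differentiable ℂ (yf P D) := by
  unfold yf
  refine Differentiable.fun_sum fun k _ => ?_
  fun_prop

theorem yf_zero (P : ℂ[X]) (D : ℕ) : yf P D 0 = P.coeff D * (1 / 2) ^ D := by
  unfold yf
  rw [Finset.sum_range_succ, Finset.sum_eq_zero, zero_add, Nat.sub_self]
  · norm_num
  · intro k hk
    have hk := Finset.mem_range.1 hk
    have h0 : (0 : ℂ) ^ (D - k) = 0 := zero_pow (by omega)
    rw [h0]
    ring

theorem yf_eval {P : ℂ[X]} {D : ℕ} (hP : ∀ k, D < k → P.coeff k = 0) {y : ℂ} (hy : y ≠ 0) :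
    yf P D y = y ^ D * P.eval ((y + y⁻¹) / 2) := by
  have hd : P.natDegree < D + 1 := by
    refine Nat.lt_succ_of_le (Polynomial.natDegree_le_iff_coeff_eq_zero.2 fun k hk => hP k hk)
  rw [Polynomial.eval_eq_sum_range' hd, Finset.mul_sum]
  unfold yf
  refine Finset.sum_congr rfl fun k hk => ?_
  have hk := Finset.mem_range.1 hk
  have e : (y ^ 2 + 1) / 2 = y * ((y + y⁻¹) / 2) := by
    field_simp
  have e2 : y ^ D = y ^ (D - k) * y ^ k := by
    rw [← pow_add]
    congr 1
    omega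
  rw [e, mul_pow, e2]
  ring

theorem cc_y (s : ℂ) : NUMv.cc s = (Complex.exp (2 * Complex.I * s) + (Complex.exp (2 * Complex.I * s))⁻¹) / 2 := by
  unfold NUMv.cc Complex.cos
  rw [← Complex.exp_neg]
  congr 3 <;> ring_nf

/-- **The disc function at equal points is the partition function of the sphere lattice.** -/
theorem disc_ring {ι : Type*} [DecidableEq ι] [Fintype ι] {L1 L2 : List (ι × ι)} {s4 : Fin 4 → ι}
    {n' : ℂ} (hJ : (near_WW n').Joint n') (hJ0 : (near_WW 0).Joint 0) (hG : Gd (L1 ++ L2))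
    (hi : Function.Injective s4) (hs4 : ∀ k, ∀ t ∈ L1 ++ L2, s4 k ≠ t.1 ∧ s4 k ≠ t.2) :
    (near_WW n').Wd (List.replicate L1.length 1) (List.replicate L2.length 1) =
      (near_WW 0).Wd (List.replicate L1.length 1) (List.replicate L2.length 1) *
        NUG.ZD n' (s4 0) (s4 1) L1 L2 := by
  set D := NUMv.dg (L1.length + L2.length) with hD
  have hlen : (List.replicate L1.length (1 : ℂ)).length + (List.replicate L2.length (1 : ℂ)).length =
      L1.length + L2.length := by
    rw [List.length_replicate, List.length_replicate]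
  have hvan : ∀ (m' : ℂ) (h : (near_WW m').Joint m') (k : ℕ), D < k →
      ((near_WW m').sc (List.replicate L1.length 1) (List.replicate L2.length 1)).coeff k = 0 :=
    fun m' h k hk => (near_WW m').van h _ _ _ hlen k hk
  have hsc : ∀ (m' : ℂ) (x : ℂ),
      ((near_WW m').sc (List.replicate L1.length 1) (List.replicate L2.length 1)).eval x =
        (near_WW m').Wt (List.replicate L1.length x) (List.replicate L2.length x) := fun m' x => by
    rw [(near_WW m').sc_eval, List.map_replicate, List.map_replicate, mul_one]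
  -- the radius
  obtain ⟨r, hr0, hr1, hr⟩ : ∃ r : ℝ, 0 < r ∧ r ≤ rad (L1 ++ L2).length ∧ NR ι r := by
    have h3 : ∀ᶠ r in 𝓝[>] (0 : ℝ), 0 < r := eventually_mem_nhdsWithin
    have h2 : ∀ᶠ r in 𝓝[>] (0 : ℝ), r < rad (L1 ++ L2).length :=
      eventually_nhdsWithin_of_eventually_nhds (eventually_lt_nhds (rad_pos _))
    obtain ⟨r, hr⟩ := (h3.and (h2.and (near_NR ι))).exists
    exact ⟨r, hr.1, hr.2.1.le, hr.2.2⟩
  have hn1 := hG.fst
  have hn2 := hG.snd
  have ms : ∀ k, s4 k ∉ (L1 ++ L2).map Prod.fst ∧ s4 k ∉ (L1 ++ L2).map Prod.snd := fun k => by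
    constructor
    · intro h
      obtain ⟨t, ht, e⟩ := List.mem_map.1 h
      exact (hs4 k t ht).1 e.symm
    · intro h
      obtain ⟨t, ht, e⟩ := List.mem_map.1 h
      exact (hs4 k t ht).2 e.symm
  have ne : ∀ a b : Fin 4, a ≠ b → s4 a ≠ s4 b := fun a b hab e => hab (hi e)
  have hsp : NUG.Spare (s4 0) (s4 1) (s4 2) (L1 ++ L2) :=
    ⟨ne 0 1 (by decide), ne 0 2 (by decide), ne 1 2 (by decide), (ms 0).1, (ms 1).1, (ms 2).1,
      (ms 0).2, (ms 1).2, (ms 2).2⟩
  have key := NUG.far_ZV hG hsp n'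
    (f := yf ((near_WW n').sc (List.replicate L1.length 1) (List.replicate L2.length 1)) D)
    (q := yf ((near_WW 0).sc (List.replicate L1.length 1) (List.replicate L2.length 1)) D)
    (yf_diff _ _).differentiableOn (yf_diff _ _).differentiableOn ?_
  · rw [yf_zero, yf_zero] at key
    have h2 : ((1 : ℂ) / 2) ^ D ≠ 0 := pow_ne_zero _ (by norm_num)
    have e1 : (near_WW n').Wd (List.replicate L1.length 1) (List.replicate L2.length 1) =
        ((near_WW n').sc (List.replicate L1.length 1) (List.replicate L2.length 1)).coeff D := by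
      unfold NUMv.Near.Wd
      rw [hlen]
    have e2 : (near_WW 0).Wd (List.replicate L1.length 1) (List.replicate L2.length 1) =
        ((near_WW 0).sc (List.replicate L1.length 1) (List.replicate L2.length 1)).coeff D := by
      unfold NUMv.Near.Wd
      rw [hlen]
    rw [e1, e2]
    refine mul_right_cancel₀ h2 ?_
    rw [key]
    ring
  · have hball : ∀ᶠ s : ℂ in 𝓝 (Real.pi / 16 : ℂ), s ∈ Metric.ball z0 r :=
      Metric.isOpen_ball.mem_nhds (Metric.mem_ball_self hr0)
    filter_upwards [hball] with s hs _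
    have hy := Complex.exp_ne_zero (2 * Complex.I * s)
    rw [yf_eval (hvan n' hJ) hy, yf_eval (hvan 0 hJ0) hy, ← cc_y, hsc, hsc,
      W_equal hG hi hs4 hr hr1 hs, W_equal hG hi hs4 hr hr1 hs,
      ZV_zero hG (ms 0).1 (ms 0).2 (hr.reg _ _ hn1 fun _ _ => hs)
        (hr.reg' (fun _ => s) _ hn2 (fun _ _ => hs) (ms 0).2 (ms 1).2 (ne 0 1 (by decide)))]
    ring

end Pool.Agent.NUF
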