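import Pool.Agent.NUF.PNear

/-!
# The partition function: permutation of the lines of a group, exchange of the roles of the groups
-/

set_option autoImplicit false

namespace Pool.Agent.NUF

open Pool.Agent.EXL (okR)

variable {ι : Type*} [DecidableEq ι] [Finite ι] {z : ι → ℂ} {r : ℝ} {b c : ι} {n' : ℂ}
  {L1 L2 L1' : List (ι × ι)}

/-- The support of the right vector. -/
theorem Cx.supR {L L' : List (ι × ι)} (h : Cx r z L b c) (hr : NR ι r) (hp : L.Perm L') :
    SupS (Sr L') (VV z (L.map Prod.fst)) :=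
  (isV_VV h.gd.fst h.c1 (h.regR hr)).sup.supS.mono fun _ hx => (hp.map Prod.fst).mem_iff.1 hx

/-- The support of the left vector. -/
theorem Cx.supL {L L' : List (ι × ι)} (h : Cx r z L b c) (hr : NR ι r) (hp : L.Perm L') :
    SupS (Sl L') (VV (fun j => -z j) (L.map Prod.snd)) :=
  (isV_VV h.gd.snd h.c2 (h.regL hr)).sup.supS.mono fun _ hx => (hp.map Prod.snd).mem_iff.1 hx

/-- **Exchange of two neighbouring lines.** -/
theorem ZV_exch1 {M M' : List (ι × ι)} {t s : ι × ι} (h : Cx r z (M ++ t :: s :: M' ++ L2) b c)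
    (hr : NR ι r) : ZV n' z (M ++ t :: s :: M') L2 = ZV n' z (M ++ s :: t :: M') L2 := by
  have hp1 : (M ++ t :: s :: M').Perm (M ++ s :: t :: M') :=
    List.Perm.append_left _ (List.Perm.swap _ _ _)
  have hp2 : (M ++ t :: s :: M').Perm (t :: s :: (M ++ M')) :=
    List.perm_middle.trans (List.Perm.cons _ List.perm_middle)
  have hpA := hp1.append_right L2
  have hpB := hp2.append_right L2
  have h' := h.perm hpA
  have ht : t ∈ M ++ t :: s :: M' ++ L2 := by simp
  have hs : s ∈ M ++ t :: s :: M' ++ L2 := by simp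
  have hts : t ≠ s := by
    intro e
    have h1 := h.dist
    rw [e, List.append_assoc, List.map_append, List.cons_append, List.cons_append, List.map_cons,
      List.map_cons] at h1
    exact (List.nodup_cons.1 (List.nodup_append.1 h1).2.1).1 (by simp)
  have o1 := h.okP hr ht hs
  have o2 := h.okP hr hs ht
  have o3 := h.okD hr ht hs hts
  have st : z t.2 = z t.1 := h.same t ht
  have ss : z s.2 = z s.1 := h.same s hs
  -- the lists of the sites
  have f1 : (M ++ t :: s :: M' ++ L2).map Prod.fst =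
      M.map Prod.fst ++ t.1 :: s.1 :: (M' ++ L2).map Prod.fst := by simp
  have f2 : (M ++ s :: t :: M' ++ L2).map Prod.fst =
      M.map Prod.fst ++ s.1 :: t.1 :: (M' ++ L2).map Prod.fst := by simp
  have g1 : (M ++ t :: s :: M' ++ L2).map Prod.snd =
      M.map Prod.snd ++ t.2 :: s.2 :: (M' ++ L2).map Prod.snd := by simp
  have g2 : (M ++ s :: t :: M' ++ L2).map Prod.snd =
      M.map Prod.snd ++ s.2 :: t.2 :: (M' ++ L2).map Prod.snd := by simp
  have v1 : VV z ((M ++ t :: s :: M' ++ L2).map Prod.fst) ∘ₗ uops.R t.1 s.1 (z t.1 - z s.1) =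
      VV z ((M ++ s :: t :: M' ++ L2).map Prod.fst) := by
    have a1 := h.gd.fst
    have a2 := h.c1
    have a3 := h.regR hr
    have a4 := h'.regR hr
    rw [f1] at a1 a2 a3
    rw [f2] at a4
    rw [f1, f2]
    exact VV_exchange a1 a2 o1.hm o2.hm o1.ab a3 a4
  have v2 : VV (fun j => -z j) ((M ++ t :: s :: M' ++ L2).map Prod.snd) ∘ₗ
      uops.R t.2 s.2 (-(z t.1 - z s.1)) =
      VV (fun j => -z j) ((M ++ s :: t :: M' ++ L2).map Prod.snd) := by
    have a1 := h.gd.snd
    have a2 := h.c2
    have a3 := h.regL hr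
    have a4 := h'.regL hr
    rw [g1] at a1 a2 a3
    rw [g2] at a4
    rw [g1, g2, show -(z t.1 - z s.1) = -z t.2 - -z s.2 by rw [st, ss]; ring]
    refine VV_exchange a1 a2 ?_ ?_ ?_ a3 a4
    · show okR (3 * Real.pi / 16 - -z t.2)
      rw [sub_neg_eq_add, st]
      exact o1.hp
    · show okR (3 * Real.pi / 16 - -z s.2)
      rw [sub_neg_eq_add, ss]
      exact o2.hp
    · show okR (-z t.2 - -z s.2)
      rw [st, ss, show -z t.1 - -z s.1 = z s.1 - z t.1 by ring]
      exact o2.ab
  unfold ZV
  rw [← v1, ← v2, Zp_perm h.gd hp2 (List.Perm.refl _),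
    Zp_perm (h'.gd) (hp1.symm.trans hp2) (List.Perm.refl _)]
  have hG := h.gd.perm hpB
  have e := Zp_exch (n' := n') (w := z t.1 - z s.1) (j := t.1) (j' := t.2) (k := s.1) (k' := s.2)
    (L1 := M ++ M') (L2 := L2) hG (h.supR hr hpB) (h.supL hr hpB) o1.ab ?_ o1.cab ?_
  · exact e.symm
  · rw [neg_sub]
    exact o2.ab
  · exact o3.k3

theorem ZV_perm_aux (hp : L1.Perm L1') (hr : NR ι r) : ∀ M : List (ι × ι),
    Cx r z (M ++ L1 ++ L2) b c → ZV n' z (M ++ L1) L2 = ZV n' z (M ++ L1') L2 := by
  induction hp with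
  | nil => exact fun _ _ => rfl
  | @cons x l1 l2 _ ih =>
    intro M h
    have e := ih (M ++ [x]) (by simpa using h)
    simpa using e
  | swap x y l =>
    intro M h
    exact ZV_exch1 h hr
  | @trans l1 l2 l3 hp1 _ ih1 ih2 =>
    intro M h
    exact (ih1 M h).trans (ih2 M (h.perm ((hp1.append_left M).append_right L2)))

/-- **Permutation of the lines of the first group.** -/
theorem ZV_perm1 (h : Cx r z (L1 ++ L2) b c) (hr : NR ι r) (hp : L1.Perm L1') :
    ZV n' z L1 L2 = ZV n' z L1' L2 :=
  ZV_perm_aux hp hr [] h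

/-- **Exchange of the roles of the groups**: rotation by π. -/
theorem ZV_roles (h : Cx r z (L1 ++ L2) b c) (hr : NR ι r) :
    ZV n' z L1 L2 = ZV n' z (L2.reverse.map Prod.swap) (L1.reverse.map Prod.swap) := by
  have ts : ∀ L : List (ι × ι), (L.map Prod.swap).map Prod.snd = L.map Prod.fst := by
    intro L
    rw [List.map_map]
    rfl
  have tf : ∀ L : List (ι × ι), (L.map Prod.swap).map Prod.fst = L.map Prod.snd := by
    intro L
    rw [List.map_map]
    rfl
  have e0 : L2.reverse.map Prod.swap ++ L1.reverse.map Prod.swap =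
      ((L1 ++ L2).reverse).map Prod.swap := by
    rw [List.reverse_append, List.map_append]
  have e1 : (L2.reverse.map Prod.swap ++ L1.reverse.map Prod.swap).map Prod.fst =
      ((L1 ++ L2).map Prod.snd).reverse := by
    rw [e0, tf, List.map_reverse]
  have e2 : (L2.reverse.map Prod.swap ++ L1.reverse.map Prod.swap).map Prod.snd =
      ((L1 ++ L2).map Prod.fst).reverse := by
    rw [e0, ts, List.map_reverse]
  have v1 : VV z ((L1 ++ L2).map Prod.snd).reverse = VV (fun j => -z j) ((L1 ++ L2).map Prod.snd) := by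
    have := VV_rev (z := fun j => -z j) (c := b) (d := c) h.gd.snd h.bc h.b2 h.c2 (h.regL hr)
    simpa only [neg_neg] using this
  have v2 : VV (fun j => -z j) ((L1 ++ L2).map Prod.fst).reverse = VV z ((L1 ++ L2).map Prod.fst) :=
    VV_rev (c := b) (d := c) h.gd.fst h.bc h.b1 h.c1 (h.regR hr)
  have hG : Gd (L2.map Prod.swap ++ L1.map Prod.swap) := by
    have hperm : (L2.map Prod.swap ++ L1.map Prod.swap).Perm ((L1 ++ L2).map Prod.swap) := by
      rw [List.map_append]
      exact List.perm_append_comm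
    have hG2 : Gd ((L1 ++ L2).map Prod.swap) := by
      unfold Gd
      rw [ts, tf]
      exact (List.perm_append_comm.nodup_iff).1 h.gd
    exact hG2.perm hperm.symm
  unfold ZV
  rw [e1, e2, v1, v2, Zp_swap h.gd (h.supR hr (List.Perm.refl _)) (h.supL hr (List.Perm.refl _))]
  exact Zp_perm hG (((List.reverse_perm L2).symm).map _) (((List.reverse_perm L1).symm).map _)

end Pool.Agent.NUF
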