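import Pool.Agent.NUF.PJoint
import Pool.Agent.NUF.PSym

/-!
# The joint limit of two lines: lists of rapidities
-/

set_option autoImplicit false

namespace Pool.Agent.NUF

open Filter Topology NUMv

section lines

variable {N : ℕ}

theorem Gd_lk {I : List (Fin N)} (hI : I.Nodup) : Gd (I.map lk) := by
  induction I with
  | nil => exact List.nodup_nil
  | cons k I ih =>
    obtain ⟨h1, h2⟩ := List.nodup_cons.1 hI
    rw [List.map_cons, Gd_cons]
    refine ⟨by simp [lk], fun s hs => ?_, ih h2⟩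
    obtain ⟨m, hm, rfl⟩ := List.mem_map.1 hs
    have : k ≠ m := fun e => h1 (e ▸ hm)
    simp [lk, this]

/-- The rapidities of the lines on the sites. -/
noncomputable def zl (L : List ℂ) : St N → ℂ :=
  Sum.elim (fun x => L.getD x.1 z0) (fun _ => z0)

theorem zl_lk (L : List ℂ) (k : Fin N) : zl L (lk k).1 = L.getD k z0 := rfl

theorem zl_lk' (L : List ℂ) (k : Fin N) : zl L (lk k).2 = L.getD k z0 := rfl

/-- The numbers `k, ..., k + m - 1`. -/
def seg (k m : ℕ) (h : k + m ≤ N) : List (Fin N) := List.ofFn fun i : Fin m => ⟨k + i, by omega⟩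

theorem mem_seg {k m : ℕ} (h : k + m ≤ N) (j : Fin N) : j ∈ seg k m h ↔ k ≤ j ∧ (j : ℕ) < k + m := by
  unfold seg
  rw [List.mem_ofFn]
  constructor
  · rintro ⟨i, rfl⟩
    exact ⟨by simp, by simp⟩
  · rintro ⟨h1, h2⟩
    exact ⟨⟨j - k, by omega⟩, Fin.ext (by simp; omega)⟩

theorem seg_nodup {k m : ℕ} (h : k + m ≤ N) : (seg k m h).Nodup := by
  unfold seg
  rw [List.nodup_ofFn]
  intro i j hij
  have := congrArg Fin.val hij
  simp only at this
  exact Fin.ext (by omega)

theorem seg_length {k m : ℕ} (h : k + m ≤ N) : (seg k m h).length = m := by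
  unfold seg
  rw [List.length_ofFn]

theorem seg_map_left (A B : List ℂ) (h : 0 + A.length ≤ N) :
    ((seg 0 A.length h).map lk).map (fun t => zl (A ++ B) t.1) = A := by
  rw [List.map_map]
  refine List.ext_getElem (by rw [List.length_map, seg_length]) fun i h1 h2 => ?_
  rw [List.getElem_map]
  show zl (A ++ B) (lk _).1 = _
  rw [zl_lk]
  have e : ((seg 0 A.length h)[i]'(by rw [seg_length]; exact h2) : Fin N).val = i := by
    unfold seg
    rw [List.getElem_ofFn]
    simp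
  rw [e, List.getD_append _ _ _ _ h2, List.getD_eq_getElem _ _ h2]

theorem seg_map_right (A B : List ℂ) (h : A.length + B.length ≤ N) :
    ((seg A.length B.length h).map lk).map (fun t => zl (A ++ B) t.1) = B := by
  rw [List.map_map]
  refine List.ext_getElem (by rw [List.length_map, seg_length]) fun i h1 h2 => ?_
  rw [List.getElem_map]
  show zl (A ++ B) (lk _).1 = _
  rw [zl_lk]
  have e : ((seg A.length B.length h)[i]'(by rw [seg_length]; exact h2) : Fin N).val =
      A.length + i := by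
    unfold seg
    rw [List.getElem_ofFn]
  rw [e, List.getD_append_right _ _ _ _ (by omega), Nat.add_sub_cancel_left,
    List.getD_eq_getElem _ _ h2]

end lines

variable {U : ℕ → Set ℂ} {W : List ℂ → List ℂ → ℂ} {P : List ℂ → List ℂ → Polynomial ℂ} {n' : ℂ}

/-- **The joint limit.** `hWZ`: `W` is the pairing on the sites `St n`, near. -/
theorem joint_W (h : Near U W P) (hU : ∀ n, z0 ∈ U n)
    (hWZ : ∀ n, ∀ᶠ r in 𝓝[>] (0 : ℝ), ∀ (z : St n → ℂ) (L1 L2 : List (St n × St n)),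
      Cx r z (L1 ++ L2) (Sum.inr 0) (Sum.inr 1) →
      (∀ k : Fin 4, ∀ t ∈ L1 ++ L2, (Sum.inr k : St n) ≠ t.1 ∧ (Sum.inr k : St n) ≠ t.2) →
      W (L1.map fun t => z t.1) (L2.map fun t => z t.1) =
        Fr.qc (cv z (L1 ++ L2)) ^ 2 * ZV n' z L1 L2) : h.Joint n' := by
  intro n
  obtain ⟨ρ, hρ, hρU⟩ := Metric.isOpen_iff.1 (h.isOpen (n + 2)) z0 (hU (n + 2))
  have l : ∀ a : ℝ, 0 < a → ∀ᶠ r in 𝓝[>] (0 : ℝ), r < a := fun a ha =>
    eventually_nhdsWithin_of_eventually_nhds (eventually_lt_nhds ha)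
  obtain ⟨r, hr, hZ, hrρ, hr0⟩ := ((near_NR (St (n + 2))).and ((hWZ (n + 2)).and ((l ρ hρ).and
    self_mem_nhdsWithin))).exists
  have hr0 : 0 < r := hr0
  refine ⟨Metric.ball z0 r, Metric.isOpen_ball, ⟨z0, Metric.mem_ball_self hr0⟩,
    fun x hx => h.sub (by omega) (hρU (Metric.ball_subset_ball hrρ.le hx)), ?_⟩
  intro A B hl hAB hnd x y
  have hA : 0 + A.length ≤ n + 2 := by omega
  have hB : A.length + B.length ≤ n + 2 := by omega
  set I1 : List (Fin (n + 2)) := seg 0 A.length hA with hI1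
  set I2 : List (Fin (n + 2)) := seg A.length B.length hB with hI2
  have hI : ((⟨n, by omega⟩ : Fin (n + 2)) :: (⟨n + 1, by omega⟩ : Fin (n + 2)) ::
      (I1 ++ I2)).Nodup := by
    refine List.nodup_cons.2 ⟨?_, List.nodup_cons.2 ⟨?_, List.nodup_append.2
      ⟨seg_nodup hA, seg_nodup hB, ?_⟩⟩⟩
    · rw [List.mem_cons, List.mem_append, mem_seg, mem_seg]
      simp only [Fin.mk.injEq]
      omega
    · rw [List.mem_append, mem_seg, mem_seg]
      simp only
      omega
    · intro i hi j hj e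
      subst e
      rw [mem_seg] at hi hj
      omega
  have hG := Gd_lk hI
  rw [List.map_cons, List.map_cons, List.map_append] at hG
  have e1 := seg_map_left (N := n + 2) A B hA
  have e2 := seg_map_right (N := n + 2) A B hB
  have e3 : ((I1.map lk ++ I2.map lk).map fun t => zl (A ++ B) t.1) = A ++ B := by
    rw [List.map_append, e1, e2]
  have hmem : ∀ t ∈ I1.map lk ++ I2.map lk, zl (A ++ B) t.1 ∈ Metric.ball z0 r := by
    intro t ht
    have hm : zl (A ++ B) t.1 ∈ (I1.map lk ++ I2.map lk).map fun t => zl (A ++ B) t.1 :=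
      List.mem_map.2 ⟨t, ht, rfl⟩
    rw [e3] at hm
    exact hAB _ hm
  have hsp : ∀ (a : Fin 4), ∀ t ∈ I1.map lk ++ I2.map lk,
      (Sum.inr a : St (n + 2)) ≠ t.1 ∧ (Sum.inr a : St (n + 2)) ≠ t.2 := by
    intro a t ht
    rw [← List.map_append] at ht
    obtain ⟨k, _, rfl⟩ := List.mem_map.1 ht
    exact ⟨Sum.inr_ne_inl, Sum.inr_ne_inl⟩
  have hx : Cx r (zl (A ++ B)) (I1.map lk ++ I2.map lk) (Sum.inr 0) (Sum.inr 1) := by
    refine ⟨?_, hmem, ?_, ?_, ?_, hsp 0, hsp 1⟩
    · exact hG.sublist (((List.sublist_cons_self _ _).trans (List.sublist_cons_self _ _)).map _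
        |>.append (((List.sublist_cons_self _ _).trans (List.sublist_cons_self _ _)).map _))
    · intro t ht
      rw [← List.map_append] at ht
      obtain ⟨k, _, rfl⟩ := List.mem_map.1 ht
      rfl
    · rw [e3]
      exact hnd
    · simp
  have key := joint_at (n' := n') (p := (lk (⟨n, by omega⟩ : Fin (n + 2))).1)
    (p' := (lk (⟨n, by omega⟩ : Fin (n + 2))).2) (q := (lk (⟨n + 1, by omega⟩ : Fin (n + 2))).1)
    (q' := (lk (⟨n + 1, by omega⟩ : Fin (n + 2))).2) (V := Metric.ball z0 r) h hr hx hG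
    ⟨Sum.inr_ne_inl, Sum.inr_ne_inl, Sum.inr_ne_inl, Sum.inr_ne_inl⟩
    ⟨Sum.inr_ne_inl, Sum.inr_ne_inl, Sum.inr_ne_inl, Sum.inr_ne_inl⟩ Metric.isOpen_ball
    ⟨z0, Metric.mem_ball_self hr0⟩ ?_ (le_refl _) hmem ?_ (hZ _ _ _ hx hsp) x y
  · rw [e1, e2] at key
    have ln1 : (I1.map lk).length = A.length := by rw [List.length_map, seg_length]
    have ln2 : (I2.map lk).length = B.length := by rw [List.length_map, seg_length]
    rw [ln1, ln2, hl] at key
    exact key
  · rw [List.length_map, List.length_map, seg_length, seg_length, hl]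
    exact fun w hw => hρU (Metric.ball_subset_ball hrρ.le hw)
  · intro z' hz' _
    have hp1 : (((lk (⟨n, by omega⟩ : Fin (n + 2))).1, (lk (⟨n, by omega⟩ : Fin (n + 2))).2) ::
        I1.map lk).Perm (I1.map lk ++ [((lk (⟨n, by omega⟩ : Fin (n + 2))).1,
          (lk (⟨n, by omega⟩ : Fin (n + 2))).2)]) := (List.perm_append_singleton _ _).symm
    have hp2 : ((((lk (⟨n, by omega⟩ : Fin (n + 2))).1, (lk (⟨n, by omega⟩ : Fin (n + 2))).2) ::
        I1.map lk) ++ (((lk (⟨n + 1, by omega⟩ : Fin (n + 2))).1,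
          (lk (⟨n + 1, by omega⟩ : Fin (n + 2))).2) :: I2.map lk)).Perm
        (((lk (⟨n, by omega⟩ : Fin (n + 2))).1, (lk (⟨n, by omega⟩ : Fin (n + 2))).2) ::
          ((lk (⟨n + 1, by omega⟩ : Fin (n + 2))).1, (lk (⟨n + 1, by omega⟩ : Fin (n + 2))).2) ::
            (I1.map lk ++ I2.map lk)) := List.Perm.cons _ List.perm_middle
    have hCx := hz'.perm hp2.symm
    have hsp' : ∀ (a : Fin 4), ∀ t ∈ (((lk (⟨n, by omega⟩ : Fin (n + 2))).1,
        (lk (⟨n, by omega⟩ : Fin (n + 2))).2) :: I1.map lk) ++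
        (((lk (⟨n + 1, by omega⟩ : Fin (n + 2))).1,
          (lk (⟨n + 1, by omega⟩ : Fin (n + 2))).2) :: I2.map lk),
        (Sum.inr a : St (n + 2)) ≠ t.1 ∧ (Sum.inr a : St (n + 2)) ≠ t.2 := by
      intro a t ht
      rcases List.mem_cons.1 (hp2.mem_iff.1 ht) with rfl | ht
      · exact ⟨Sum.inr_ne_inl, Sum.inr_ne_inl⟩
      rcases List.mem_cons.1 ht with rfl | ht
      · exact ⟨Sum.inr_ne_inl, Sum.inr_ne_inl⟩
      · exact hsp a t ht
    have a1 := hZ z' _ _ hCx hsp'
    have a2 := ZV_perm1 (n' := n') hCx hr hp1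
    rw [← a2]
    have a3 : Fr.qc (cv z' (((lk (⟨n, by omega⟩ : Fin (n + 2))).1,
        (lk (⟨n, by omega⟩ : Fin (n + 2))).2) :: ((lk (⟨n + 1, by omega⟩ : Fin (n + 2))).1,
        (lk (⟨n + 1, by omega⟩ : Fin (n + 2))).2) :: (I1.map lk ++ I2.map lk))) =
        Fr.qc (cv z' ((((lk (⟨n, by omega⟩ : Fin (n + 2))).1,
          (lk (⟨n, by omega⟩ : Fin (n + 2))).2) :: I1.map lk) ++
          (((lk (⟨n + 1, by omega⟩ : Fin (n + 2))).1,
            (lk (⟨n + 1, by omega⟩ : Fin (n + 2))).2) :: I2.map lk))) :=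
      Fr.qc_perm (hp2.symm.map _)
    rw [a3]
    exact a1

end Pool.Agent.NUF
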