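import Pool.Agent.NUF.PDisc
import Pool.Agent.NUF.PJointW

/-!
# The partition function of the sphere lattice is the quotient of two charge sums
-/

set_option autoImplicit false

namespace Pool.Agent.NUF

open Filter Topology Polynomial

section ctx

variable {ι : Type*} [DecidableEq ι] [Finite ι] {z : ι → ℂ} {L1 L2 : List (ι × ι)} {r : ℝ} {b c : ι}
  {n' : ℂ}

/-- `W` in a context with two spare sites. -/
theorem W_eq' (h : Cx r z (L1 ++ L2) b c) (hr : NR ι r) (hr' : NR (ι ⊕ Fin 4) r) :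
    WW n' (rp z L1) (rp z L2) = Fr.qc (cv z (L1 ++ L2)) ^ 2 * ZV n' z L1 L2 := by
  set e : ι → ι ⊕ Fin 4 := Sum.inl with he
  set z' : ι ⊕ Fin 4 → ℂ := Sum.elim z (fun _ => 0) with hz'
  have hinj : Function.Injective e := Sum.inl_injective
  have e0 : ZV n' z' (L1.map (Prod.map e e)) (L2.map (Prod.map e e)) = ZV n' z L1 L2 :=
    ZV_map hinj h.gd h.c1 h.c2 (fun t _ => rfl) (fun t _ => rfl) (h.regR hr) (h.regL hr)
  have hrp : ∀ L : List (ι × ι), rp z' (L.map (Prod.map e e)) = rp z L := fun L => by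
    unfold rp
    rw [List.map_map]
    rfl
  have hC : Cs r z' (L1.map (Prod.map e e) ++ L2.map (Prod.map e e)) Sum.inr := by
    rw [← List.map_append]
    have hm : ∀ t ∈ (L1 ++ L2).map (Prod.map e e), ∃ u ∈ L1 ++ L2, t = Prod.map e e u := fun t ht => by
      obtain ⟨u, hu, rfl⟩ := List.mem_map.1 ht
      exact ⟨u, hu, rfl⟩
    refine ⟨⟨?_, ?_, ?_, ?_, ?_, ?_, ?_⟩, Sum.inr_injective, ?_⟩
    · unfold Gd
      rw [map_pm_fst, map_pm_snd, ← List.map_append]
      exact h.gd.map hinj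
    · intro t ht
      obtain ⟨u, hu, rfl⟩ := hm t ht
      exact h.near u hu
    · intro t ht
      obtain ⟨u, hu, rfl⟩ := hm t ht
      exact h.same u hu
    · show (rp z' ((L1 ++ L2).map (Prod.map e e))).Nodup
      rw [hrp]
      exact h.dist
    · intro hh
      exact absurd (Sum.inr_injective hh) (by decide)
    · intro t ht
      obtain ⟨u, hu, rfl⟩ := hm t ht
      exact ⟨Sum.inr_ne_inl, Sum.inr_ne_inl⟩
    · intro t ht
      obtain ⟨u, hu, rfl⟩ := hm t ht
      exact ⟨Sum.inr_ne_inl, Sum.inr_ne_inl⟩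
    · intro k t ht
      obtain ⟨u, hu, rfl⟩ := hm t ht
      exact ⟨Sum.inr_ne_inl, Sum.inr_ne_inl⟩
  have e1 := W_eq (n' := n') hC hr'
  rw [hrp, hrp, e0, cv_eq, rp_append, hrp, hrp, ← rp_append, ← cv_eq] at e1
  exact e1

end ctx

/-- **The joint limit.** -/
theorem joint_WW (n' : ℂ) : (near_WW n').Joint n' := by
  refine joint_W (near_WW n') (fun n => Metric.mem_ball_self (rad_pos n)) fun n => ?_
  filter_upwards [near_NR (St n)] with r h1 z L1 L2 h h2
  exact W_eq ⟨h, Sum.inr_injective, h2⟩ h1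

/-- **The formula for the disc function.** -/
theorem Wd_formula {σ om : ℂ} (hσ : σ ^ 2 = 2 - NUMv.eta + NUMv.eta ^ 3) (hom : om ≠ 0) {X Y : List ℂ}
    (hX : NUGas.Gen NUMv.eta X) (hY : NUGas.Gen NUMv.eta Y) :
    (near_WW (om + om⁻¹)).Wd X Y = NUGas.N NUMv.eta σ om X Y :=
  (near_WW (om + om⁻¹)).formula (joint_WW _) hσ hom rfl hX hY

/-- **The partition function of the sphere lattice.** -/
theorem ring_formula {ι : Type*} [DecidableEq ι] [Fintype ι] {L1 L2 : List (ι × ι)} {s4 : Fin 4 → ι}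
    (n' : ℂ) (hG : Gd (L1 ++ L2)) (hi : Function.Injective s4)
    (hs4 : ∀ k, ∀ t ∈ L1 ++ L2, s4 k ≠ t.1 ∧ s4 k ≠ t.2) :
    (near_WW n').Wd (List.replicate L1.length 1) (List.replicate L2.length 1) =
      (near_WW 0).Wd (List.replicate L1.length 1) (List.replicate L2.length 1) *
        NUG.ZD n' (s4 0) (s4 1) L1 L2 :=
  disc_ring (joint_WW n') (joint_WW 0) hG hi hs4

end Pool.Agent.NUF
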