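import Pool.Agent.NUF.PDef

/-!
# Fixed functionals at the crossing and at the fusion points
-/

set_option autoImplicit false

namespace Pool.Agent.NUF

open Pool.Agent.EXL (okR okC xh)
open Pool.Agent.EXL.Fm (Dn Wn R6 lam)
open Pool.Agent.EXL.HS (ind)

variable {ι : Type*} [DecidableEq ι] {z z' : ι → ℂ} {p q c : ι} {Y : List ι} {V : Fnl ι}

/-- The left half at a crossing point: the two lines are joined. -/
theorem glue_fix [Finite ι] (hn : (p :: q :: Y).Nodup) (hc : c ∉ p :: q :: Y)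
    (hV : Sup (p :: q :: Y) V) (hf : V ∘ₗ T0 z c (p :: q :: Y) = V)
    (hz : z p = z q + (uops (ι := ι)).h + (uops (ι := ι)).h)
    (h1 : okR ((uops (ι := ι)).h - z p)) (h2 : okR ((uops (ι := ι)).h - z q)) (hR : Reg z Y) :
    V ∘ₗ uops.glue p q = V (ind EXL.Pat.empty) • VV z Y := by
  simp only [List.mem_cons, not_or] at hc
  obtain ⟨hcp, hcq, hcY⟩ := hc
  have hn1 := List.nodup_cons.1 hn
  have hn2 := List.nodup_cons.1 hn1.2
  have hpq : p ≠ q := fun e => hn1.1 (by simp [e])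
  have hpY : p ∉ Y := fun e => hn1.1 (by simp [e])
  have hV2 := isV_VV hn2.2 hcY hR
  have hS : Sup Y (V ∘ₗ uops.glue p q) := hV.comp (pres_glue hn)
  rw [← sub_eq_zero]
  refine fix_zero hcY hR (hS.sub (hV2.sup.smul _)) ?_ ?_
  · rw [LinearMap.sub_comp, LinearMap.smul_comp, hV2.fix c hcY]
    congr 1
    have k := T0_glue (Y := Y) hpq hcp hcq hpY hn2.1 hz h1 h2
    calc (V ∘ₗ uops.glue p q) ∘ₗ T0 z c Y = V ∘ₗ (uops.glue p q * T0 z c Y) := rfl
      _ = (V ∘ₗ T0 z c (p :: q :: Y)) ∘ₗ uops.glue p q := by rw [← k]; rfl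
      _ = _ := by rw [hf]
  · rw [LinearMap.sub_apply, LinearMap.smul_apply, hV2.one, LinearMap.comp_apply, glue_ind hpq,
      smul_eq_mul, mul_one, sub_self]

/-- The right half at a fusion point: the two lines are merged. -/
theorem Yt_fix (hn : (p :: q :: Y).Nodup) (hc : c ∉ p :: q :: Y)
    (hV : Sup (p :: q :: Y) V) (hf : V ∘ₗ T0 z c (p :: q :: Y) = V)
    (hz : z p = z q + (uops (ι := ι)).l + (uops (ι := ι)).l) (hz' : z' q = z q + (uops (ι := ι)).l)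
    (hY : ∀ y ∈ Y, z' y = z y)
    (h1 : okR ((uops (ι := ι)).h - z p)) (h2 : okR ((uops (ι := ι)).h - z q))
    (h3 : okR ((uops (ι := ι)).h - z' q)) :
    Sup (q :: Y) (V ∘ₗ uops.Yt q p) ∧ (V ∘ₗ uops.Yt q p) ∘ₗ T0 z' c (q :: Y) = V ∘ₗ uops.Yt q p ∧
      (V ∘ₗ uops.Yt q p) (ind EXL.Pat.empty) = V (ind EXL.Pat.empty) := by
  simp only [List.mem_cons, not_or] at hc
  obtain ⟨hcp, hcq, hcY⟩ := hc
  have hn1 := List.nodup_cons.1 hn
  have hn2 := List.nodup_cons.1 hn1.2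
  have hpq : p ≠ q := fun e => hn1.1 (by simp [e])
  have hpY : p ∉ Y := fun e => hn1.1 (by simp [e])
  have k := T0_Yt (z' := z') (Y := Y) hpq hcp hcq hpY hn2.1 hz hz' hY h1 h2 h3
  refine ⟨hV.comp (pres_Yt hn), ?_, ?_⟩
  · calc (V ∘ₗ uops.Yt q p) ∘ₗ T0 z' c (q :: Y) = V ∘ₗ (uops.Yt q p * T0 z' c (q :: Y)) := rfl
      _ = (V ∘ₗ T0 z c (p :: q :: Y)) ∘ₗ uops.Yt q p := by rw [← k]; rfl
      _ = _ := by rw [hf]
  · rw [LinearMap.comp_apply, Yt_ind hpq]

theorem on_T0 {S : Set ι} {X : List ι} (hc : c ∈ S) (hX : ∀ x ∈ X, x ∈ S) :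
    ∃ w : Wd ℂ ι, On S w ∧ T0 z c X = rep0 ℂ id w := by
  have hM : ∀ (t : ℂ), ∃ w : Wd ℂ ι, On S w ∧ uops.M z c t X = rep0 ℂ id w := by
    intro t
    induction X with
    | nil => exact ⟨1, On.one, by rw [map_one]; rfl⟩
    | cons x X ih =>
      obtain ⟨w, hw, e⟩ := ih fun y hy => hX y (by simp [hy])
      refine ⟨cw.R c x (t - z x) * w, (On.cR hc (hX x (by simp)) _).mul hw, ?_⟩
      rw [EXL.Glob.Ops.M_cons, e, map_mul]
      rfl
  obtain ⟨w, hw, e⟩ := hM (uops (ι := ι)).h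
  refine ⟨cw.E c * w * cw.E c, ((On.cE hc).mul hw).mul (On.cE hc), ?_⟩
  unfold T0
  rw [e, map_mul, map_mul]
  rfl

theorem comm_E_T0 {X : List ι} (hpc : p ≠ c) (hp : p ∉ X) : Commute (uops.E p) (T0 z c X) := by
  obtain ⟨w, hw, e⟩ := on_T0 (z := z) (c := c) (S := {p}ᶜ) (X := X) (by simpa using hpc.symm)
    (fun x hx => by
      simp only [Set.mem_compl_iff, Set.mem_singleton_iff]
      exact fun e => hp (e ▸ hx))
  rw [e]
  exact comm_of_on (S := {p}) (T := {p}ᶜ) disjoint_compl_right (On.cE (by simp)) hw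

/-- The left half at a fusion point: the two lines come from one line. -/
theorem K_fix (hn : (p :: q :: Y).Nodup) (hc : c ∉ p :: q :: Y)
    (hV : Sup (p :: q :: Y) V) (hf : V ∘ₗ T0 z c (p :: q :: Y) = V)
    (hN : ∀ G : EXL.Pat ι → ℂ, V (R6 (Dn (-(2 * lam))) (Wn (-(2 * lam))) q p G) = 0)
    (hz : z q = z p + (uops (ι := ι)).l + (uops (ι := ι)).l) (hz' : z' q = z p + (uops (ι := ι)).l)
    (hY : ∀ y ∈ Y, z' y = z y)
    (h1 : okR ((uops (ι := ι)).h - z p)) (h2 : okR ((uops (ι := ι)).h - z q))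
    (h3 : okR ((uops (ι := ι)).h - z' q)) :
    V = (V ∘ₗ Kop q p) ∘ₗ uops.Y q p ∧ Sup (q :: Y) (V ∘ₗ Kop q p) ∧
      (V ∘ₗ Kop q p) ∘ₗ T0 z' c (q :: Y) = V ∘ₗ Kop q p ∧
      (V ∘ₗ Kop q p) (ind EXL.Pat.empty) = V (ind EXL.Pat.empty) := by
  simp only [List.mem_cons, not_or] at hc
  obtain ⟨hcp, hcq, hcY⟩ := hc
  have hn1 := List.nodup_cons.1 hn
  have hn2 := List.nodup_cons.1 hn1.2
  have hpq : p ≠ q := fun e => hn1.1 (by simp [e])
  have hpY : p ∉ Y := fun e => hn1.1 (by simp [e])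
  have k := Y_T0 (z' := z') (Y := Y) hpq hcp hcq hpY hn2.1 hz hz' hY h1 h2 h3
  have hs := split_Y hpq.symm hN
  set W := V ∘ₗ Kop q p with hW
  have hKE : (Kop q p : Module.End ℂ (EXL.Pat ι → ℂ)) * uops.E p = Kop q p := by
    refine LinearMap.ext fun F => ?_
    funext P
    rw [Module.End.mul_apply, Kop_apply, Kop_apply, uops_E_apply]
    show (if P p = p then (if P q = q then (if P p = p then F P else 0) else
      xh⁻¹ * (if P p = p then F P else 0)) else 0) = _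
    by_cases h : P p = p
    · simp only [h, if_true]
    · simp only [h, if_false]
  have hWE : W ∘ₗ uops.E p = W := by
    rw [hW]
    show V ∘ₗ (Kop q p * uops.E p) = _
    rw [hKE]
  refine ⟨hs, hV.comp pres_Kop, ?_, ?_⟩
  · rw [← sub_eq_zero]
    have cE : Commute (uops.E p) (T0 z' c (q :: Y)) := comm_E_T0 (Ne.symm hcp) hn1.1
    refine inj_Y hpq.symm ?_ ?_
    · rw [LinearMap.sub_comp, hWE]
      congr 1
      calc (W ∘ₗ T0 z' c (q :: Y)) ∘ₗ uops.E p = W ∘ₗ (T0 z' c (q :: Y) * uops.E p) := rfl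
        _ = (W ∘ₗ uops.E p) ∘ₗ T0 z' c (q :: Y) := by rw [← cE.eq]; rfl
        _ = _ := by rw [hWE]
    · rw [LinearMap.sub_comp, ← hs, sub_eq_zero]
      calc (W ∘ₗ T0 z' c (q :: Y)) ∘ₗ uops.Y q p = W ∘ₗ (T0 z' c (q :: Y) * uops.Y q p) := rfl
        _ = (W ∘ₗ uops.Y q p) ∘ₗ T0 z c (p :: q :: Y) := by rw [← k]; rfl
        _ = V := by rw [← hs, hf]
  · rw [hW, LinearMap.comp_apply, Kop_ind]

/-- **A functional on one more line that is trivial on the line.** -/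
theorem triv_fix [Finite ι] {X : List ι} (hn : (p :: X).Nodup) (hc : c ∉ p :: X)
    (hV : Sup (p :: X) V) (hE : V ∘ₗ uops.E p = V) (hf : V ∘ₗ T0 z c (p :: X) = V)
    (hz : z p = (uops (ι := ι)).h) (hR : Reg z X) : V = V (ind EXL.Pat.empty) • VV z X := by
  have W := ulaws (ι := ι)
  simp only [List.mem_cons, not_or] at hc
  obtain ⟨hcp, hcX⟩ := hc
  have hn1 := List.nodup_cons.1 hn
  have hV2 := isV_VV hn1.2 hcX hR
  have hS : Sup X V := by
    intro F hF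
    rw [← hE, LinearMap.comp_apply]
    apply hV
    intro P hP
    rw [uops_E_apply]
    show (if P p = p then F P else 0) = 0
    by_cases h : P p = p
    · rw [if_pos h, hF _ (ax_tail hP h)]
    · rw [if_neg h]
  have hEc : V ∘ₗ uops.E c = V := (Sup.supS hS).E (by simpa using hcX)
  have hPc : V ∘ₗ uops.P c p = V := by
    calc V ∘ₗ uops.P c p = ((V ∘ₗ uops.E c) ∘ₗ uops.E p) ∘ₗ uops.P c p := by rw [hEc, hE]
      _ = V ∘ₗ (uops.E c * uops.E p * uops.P c p) := rfl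
      _ = V ∘ₗ (uops.E c * uops.E p) := by rw [W.PE hcp]
      _ = (V ∘ₗ uops.E c) ∘ₗ uops.E p := rfl
      _ = V := by rw [hEc, hE]
  have hfX : V ∘ₗ T0 z c X = V := by
    have e : T0 z c (p :: X) = uops.E c * uops.P c p * uops.M z c (uops (ι := ι)).h X * uops.E c := by
      unfold T0
      rw [EXL.Glob.Ops.M_cons, hz, sub_self, W.L3 hcp]
      simp only [mul_assoc]
    calc V ∘ₗ T0 z c X = (V ∘ₗ uops.E c) ∘ₗ (uops.M z c (uops (ι := ι)).h X * uops.E c) := by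
          unfold T0; rfl
      _ = ((V ∘ₗ uops.E c) ∘ₗ uops.P c p) ∘ₗ (uops.M z c (uops (ι := ι)).h X * uops.E c) := by
          rw [hEc, hPc]
      _ = V ∘ₗ T0 z c (p :: X) := by rw [e]; rfl
      _ = V := hf
  rw [← sub_eq_zero]
  refine fix_zero hcX hR (hS.sub (hV2.sup.smul _)) ?_ ?_
  · rw [LinearMap.sub_comp, LinearMap.smul_comp, hV2.fix c hcX, hfX]
  · rw [LinearMap.sub_apply, LinearMap.smul_apply, hV2.one, smul_eq_mul, mul_one, sub_self]

end Pool.Agent.NUF
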