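import Pool.Agent.NUF.UInj

/-!
# The column of the loop gas at the honeycomb point: positivity, injectivity, decay
-/

set_option autoImplicit false

namespace Pool.Agent.NUF

open _root_.Pool.Agent.EXL _root_.Pool.Agent.EXL.Pat _root_.Pool.Agent.EXL.HS HexObs Filter Topology

variable {α : Type*} [DecidableEq α]

section ind

variable {K : Type*} [CommRing K]

omit [DecidableEq α] in
theorem ind_empty_ne {p : Pat α} {x : α} (h : p x ≠ x) : (HS.ind Pat.empty : Pat α → K) p = 0 := by
  apply ind_ne
  rintro rfl
  exact h rfl

omit [DecidableEq α] in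
theorem exists_occ {p : Pat α} (h : p ≠ Pat.empty) : ∃ x, p x ≠ x := by
  by_contra hcon
  push Not at hcon
  exact h (Pat.ext (funext hcon))

/-- The rhombus fixes the indicator of the empty state. -/
theorem R_fix_ind (w : Wt K) {i j : α} (hij : i ≠ j) : R w i j (HS.ind Pat.empty) = HS.ind Pat.empty := by
  funext p
  by_cases hi : p i = i
  · by_cases hj : p j = j
    · have h1 : (HS.ind Pat.empty : Pat α → K) (cup i j p) = 0 := by
        apply ind_empty_ne (x := i)
        rw [pcup_apply hi hj, if_pos rfl]
        exact hij.symm
      simp only [R, if_pos hi, if_pos hj, h1, mul_zero, add_zero]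
    · have h1 : (HS.ind Pat.empty : Pat α → K) (swap i j p) = 0 := by
        apply ind_empty_ne (x := i)
        rw [pswap_apply, Equiv.swap_apply_left]
        intro e
        apply hj
        have := congrArg (Equiv.swap i j) e
        rwa [Equiv.swap_apply_self, Equiv.swap_apply_left] at this
      simp only [R, if_pos hi, if_neg hj, h1, mul_zero, add_zero, ind_empty_ne hj]
  · by_cases hj : p j = j
    · have h1 : (HS.ind Pat.empty : Pat α → K) (swap i j p) = 0 := by
        apply ind_empty_ne (x := j)
        rw [pswap_apply, Equiv.swap_apply_right]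
        intro e
        apply hi
        have := congrArg (Equiv.swap i j) e
        rwa [Equiv.swap_apply_self, Equiv.swap_apply_right] at this
      simp only [R, if_neg hi, if_pos hj, h1, mul_zero, add_zero, ind_empty_ne hi]
    · by_cases hpij : p i = j
      · simp only [R, if_neg hi, if_neg hj, if_pos hpij, ind_empty_ne hi, mul_zero]
      · have h1 : (HS.ind Pat.empty : Pat α → K) (swap i j p) = 0 := by
          apply ind_empty_ne (x := i)
          rw [pswap_apply, Equiv.swap_apply_left]
          intro e
          apply hj
          have := congrArg (Equiv.swap i j) e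
          rwa [Equiv.swap_apply_self, Equiv.swap_apply_left] at this
        have hpi : p i ≠ p j := fun e => hij (p.inj e)
        have hji : p j ≠ i := fun e => hpij (by rw [← e, p.inv])
        have h2 : cut i j p (p i) = p j := by
          rw [pcut_apply hij hi hj hpij, if_neg hi, if_neg hpij, if_pos rfl]
        have h3 : (HS.ind Pat.empty : Pat α → K) (cut i j p) = 0 := by
          apply ind_empty_ne (x := p i)
          rw [h2]
          exact hpi.symm
        have e1 := cut_left hij hi hj hpij
        have e2 := cut_right hij hi hj hpij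
        have h4 : (HS.ind Pat.empty : Pat α → K) (cup i j (cut i j p)) = 0 := by
          apply ind_empty_ne (x := i)
          rw [pcup_apply e1 e2, if_pos rfl]
          exact hij.symm
        simp only [R, if_neg hi, if_neg hj, if_neg hpij, h1, h3, h4, mul_zero, add_zero,
          ind_empty_ne hi]

theorem emp_ind (c : α) : emp c (HS.ind Pat.empty : Pat α → K) = HS.ind Pat.empty := by
  funext p
  simp only [emp]
  split_ifs with h
  · rfl
  · rw [ind_empty_ne h]

theorem M_fix_ind (w : α → Wt K) {c : α} {X : List α} (hc : c ∉ X) :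
    M w c X (HS.ind Pat.empty) = HS.ind Pat.empty := by
  induction X with
  | nil => rfl
  | cons j X ih =>
    rw [M_cons, ih (fun h => hc (by simp [h])), R_fix_ind _ (fun e => hc (by simp [e]))]

theorem colF_ind (w : α → Wt K) {c : α} {X : List α} (hc : c ∉ X) :
    colF w c X (HS.ind Pat.empty) = HS.ind Pat.empty := by
  unfold colF
  rw [emp_ind, M_fix_ind w hc, emp_ind]

end ind

section real

variable {X : List α} {c : α}

theorem emp_nn (c : α) {F : Pat α → ℝ} (hF : ∀ p, 0 ≤ F p) (p : Pat α) : 0 ≤ emp c F p := by
  simp only [emp]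
  split_ifs
  · exact hF p
  · exact le_rfl

theorem colF_pos (c : α) (X : List α) : PosOp (colF (fun _ => hexW xc) c X) := by
  intro F hF p
  exact emp_nn c (M_nn (fun _ => hexW_nn xc_pos.le) c X (emp_nn c hF)) p

theorem colF_ofReal (c : α) (X : List α) (F : Pat α → ℝ) :
    colF (fun _ => hexW (xc : ℂ)) c X (fun p => (F p : ℂ)) =
      fun p => ((colF (fun _ => hexW xc) c X F p : ℝ) : ℂ) := by
  have h1 : ∀ G : Pat α → ℝ, emp c (fun p => (G p : ℂ)) = fun p => ((emp c G p : ℝ) : ℂ) := by
    intro G
    funext p
    simp only [emp]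
    split_ifs
    · rfl
    · simp
  have h2 := M_map Complex.ofRealHom (fun _ => hexW xc) c X (emp c F)
  rw [hexW_map] at h2
  have h3 : M (fun _ => hexW (xc : ℂ)) c X (fun p => ((emp c F p : ℝ) : ℂ)) =
      fun p => ((M (fun _ => hexW xc) c X (emp c F) p : ℝ) : ℂ) := h2
  unfold colF
  rw [h1 F, h3, h1]

/-- Injectivity over the real numbers. -/
theorem injN_real (hn : X.Nodup) (hc : c ∉ X) : InjN (AX X) (colF (fun _ => hexW xc) c X) := by
  intro G h0 h1 p
  have hL := lin_colF (fun _ => hexW xc) c X
  have hP := colF_pos c X
  have h := major_hex hn hc (G := fun q => |G q|) (fun q => abs_nonneg _)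
    (fun q hq => by rw [h0 q hq, abs_zero]) (by
      intro q hq hA
      have h2 : |colF (fun _ => hexW xc) c X G q| ≤ colF (fun _ => hexW xc) c X (fun r => |G r|) q := by
        rw [abs_le]
        constructor
        · have h3 := hP.mono hL (F := fun r => (-1 : ℝ) * |G r|) (G := G)
            (fun r => by
              have := neg_abs_le (G r)
              linarith) q
          rw [PosOp.smul hL (-1) (fun r => |G r|)] at h3
          linarith
        · exact hP.mono hL (fun r => le_abs_self _) q
      rw [h1 q hq hA] at h2
      exact h2) p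
  exact abs_eq_zero.1 h

/-- Injectivity over the complex numbers. -/
theorem injN_cx (hn : X.Nodup) (hc : c ∉ X) : InjN (AX X) (colF (fun _ => hexW (xc : ℂ)) c X) := by
  intro G h0 h1 p
  have hsplit := cx_split (lin_colF (fun _ => hexW (xc : ℂ)) c X) (colF_ofReal c X) G
  have key : ∀ q, q ≠ Pat.empty → AX X q → colF (fun _ => hexW xc) c X (fun q => (G q).re) q = (G q).re ∧
      colF (fun _ => hexW xc) c X (fun q => (G q).im) q = (G q).im := by
    intro q hq hA
    have h2 := h1 q hq hA
    rw [hsplit] at h2
    constructor
    · have := congrArg Complex.re h2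
      simpa using this
    · have := congrArg Complex.im h2
      simpa using this
  apply Complex.ext
  · exact injN_real hn hc (fun q => (G q).re) (fun q hq => by rw [h0 q hq]; rfl)
      (fun q hq hA => (key q hq hA).1) p
  · exact injN_real hn hc (fun q => (G q).im) (fun q hq => by rw [h0 q hq]; rfl)
      (fun q hq hA => (key q hq hA).2) p

end real

/-! ### Decay of the iterates -/

section decay

variable {A : Pat α → Prop} {T : (Pat α → ℝ) → (Pat α → ℝ)}

/-- the operator cut to the non-empty admissible states. -/
noncomputable def cutT (A : Pat α → Prop) (T : (Pat α → ℝ) → (Pat α → ℝ)) (F : Pat α → ℝ) : Pat α → ℝ :=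
  open scoped Classical in fun p => if p ≠ Pat.empty ∧ A p then T F p else 0

/-- the indicator of the non-empty admissible states. -/
noncomputable def oneN (A : Pat α → Prop) : Pat α → ℝ :=
  open scoped Classical in fun p => if p ≠ Pat.empty ∧ A p then 1 else 0

omit [DecidableEq α] in
/-- The resolvent of the cut operator is bounded. -/
theorem exists_super [Finite α] (hP : PosOp T) (hL : Lin T) (inj : InjN A T)
    (hM : ∀ G : Pat α → ℝ, (∀ p, 0 ≤ G p) → (∀ p, ¬ (p ≠ Pat.empty ∧ A p) → G p = 0) →
      (∀ p, p ≠ Pat.empty → A p → G p ≤ T G p) → ∀ p, G p = 0) :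
    ∃ y : Pat α → ℝ, (∀ p, 0 ≤ y p) ∧ ∀ p, y p = oneN A p + cutT A T y p := by
  classical
  have : Fintype (NE A) := Fintype.ofFinite _
  have hdet := (nmat_det hL).2 inj
  set v : NE A → ℝ := Matrix.mulVec (nmat A T)⁻¹ (fun _ => 1) with hv
  have h1 : Matrix.mulVec (nmat A T) v = fun _ => 1 := by
    rw [hv, Matrix.mulVec_mulVec, Matrix.mul_nonsing_inv _ (Ne.isUnit hdet), Matrix.one_mulVec]
  set y : Pat α → ℝ := extN v with hy
  have h2 : ∀ p, y p = oneN A p + cutT A T y p := by
    intro p
    unfold oneN cutT
    by_cases h : p ≠ Pat.empty ∧ A p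
    · rw [if_pos h, if_pos h]
      have h3 := congrFun h1 ⟨p, h⟩
      rw [nmat_mulVec hL] at h3
      have h4 : y p = v ⟨p, h⟩ := extN_val v ⟨p, h⟩
      rw [h4]
      linarith
    · rw [if_neg h, if_neg h, hy, extN_neg _ h, add_zero]
  refine ⟨y, ?_, h2⟩
  have h3 : ∀ p, max (-y p) 0 = 0 := by
    apply hM (fun p => max (-y p) 0) (fun p => le_max_right _ _)
    · intro p hp
      rw [hy, extN_neg _ hp]
      simp
    · intro p hp hA
      by_cases h : 0 ≤ y p
      · rw [max_eq_right (by linarith)]
        exact hP _ (fun q => le_max_right _ _) p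
      · push Not at h
        rw [max_eq_left (by linarith)]
        have h4 : T (fun q => (-1 : ℝ) * y q) p ≤ T (fun q => max (-y q) 0) p :=
          hP.mono hL (fun q => by
            have := le_max_left (-y q) 0
            linarith) p
        rw [PosOp.smul hL] at h4
        have h5 := h2 p
        unfold oneN cutT at h5
        rw [if_pos ⟨hp, hA⟩, if_pos ⟨hp, hA⟩] at h5
        linarith
  intro p
  have := h3 p
  have h4 := le_max_left (-y p) 0
  linarith

omit [DecidableEq α] in
theorem cutT_mono (hP : PosOp T) (hL : Lin T) {F G : Pat α → ℝ} (h : ∀ p, F p ≤ G p) (p : Pat α) :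
    cutT A T F p ≤ cutT A T G p := by
  unfold cutT
  split_ifs
  · exact hP.mono hL h p
  · exact le_rfl

omit [DecidableEq α] in
theorem cutT_nn (hP : PosOp T) {F : Pat α → ℝ} (h : ∀ p, 0 ≤ F p) (p : Pat α) : 0 ≤ cutT A T F p := by
  unfold cutT
  split_ifs
  · exact hP _ h p
  · exact le_rfl

omit [DecidableEq α] in
/-- The iterates of the cut operator tend to 0. -/
theorem cutT_tendsto [Finite α] (hP : PosOp T) (hL : Lin T) (inj : InjN A T)
    (hM : ∀ G : Pat α → ℝ, (∀ p, 0 ≤ G p) → (∀ p, ¬ (p ≠ Pat.empty ∧ A p) → G p = 0) →
      (∀ p, p ≠ Pat.empty → A p → G p ≤ T G p) → ∀ p, G p = 0) (p : Pat α) :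
    Tendsto (fun n => (cutT A T)^[n] (oneN A) p) atTop (𝓝 0) := by
  obtain ⟨y, hy0, hy⟩ := exists_super hP hL inj hM
  have h0 : ∀ n p, 0 ≤ (cutT A T)^[n] (oneN A) p := by
    intro n
    induction n with
    | zero =>
      intro p
      show 0 ≤ oneN A p
      unfold oneN
      split_ifs
      · exact zero_le_one
      · exact le_rfl
    | succ n ih =>
      intro p
      rw [Function.iterate_succ_apply']
      exact cutT_nn hP ih p
  have hsum : ∀ n p, ∑ k ∈ Finset.range n, (cutT A T)^[k] (oneN A) p ≤ y p := by
    intro n
    induction n with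
    | zero =>
      intro p
      simpa using hy0 p
    | succ n ih =>
      intro p
      rw [Finset.sum_range_succ', hy p, add_comm]
      apply add_le_add
      · exact le_rfl
      · have h1 : ∑ k ∈ Finset.range n, (cutT A T)^[k + 1] (oneN A) p =
            cutT A T (fun q => ∑ k ∈ Finset.range n, (cutT A T)^[k] (oneN A) q) p := by
          have h2 : ∀ G : ℕ → Pat α → ℝ, T (fun q => ∑ k ∈ Finset.range n, G k q) =
              fun q => ∑ k ∈ Finset.range n, T (G k) q := by
            intro G
            have := hL.sum (Finset.range n) (fun _ => 1) G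
            simpa using this
          unfold cutT
          simp only [Function.iterate_succ_apply']
          by_cases h : p ≠ Pat.empty ∧ A p
          · simp only [if_pos h]
            rw [h2]
          · simp only [if_neg h, Finset.sum_const_zero]
        rw [h1]
        exact cutT_mono hP hL ih p
  exact (summable_of_sum_range_le (h0 · p) (hsum · p)).tendsto_atTop_zero

omit [DecidableEq α] in
/-- The iterates of the operator tend to 0 on the non-empty admissible states. -/
theorem iterate_tendsto [Finite α] (hP : PosOp T) (hL : Lin T) (PA : Pres A A T)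
    (hT : ∀ p, A p → T (HS.ind Pat.empty) p = HS.ind Pat.empty p) (inj : InjN A T)
    (hM : ∀ G : Pat α → ℝ, (∀ p, 0 ≤ G p) → (∀ p, ¬ (p ≠ Pat.empty ∧ A p) → G p = 0) →
      (∀ p, p ≠ Pat.empty → A p → G p ≤ T G p) → ∀ p, G p = 0) (F : Pat α → ℝ) {p : Pat α}
    (hp : p ≠ Pat.empty) (hA : A p) : Tendsto (fun n => T^[n] F p) atTop (𝓝 0) := by
  classical
  have : Fintype (Pat α) := Fintype.ofFinite _
  obtain ⟨C, hC0, hC⟩ : ∃ C : ℝ, 0 ≤ C ∧ ∀ p, |F p| ≤ C := by
    refine ⟨∑ q, |F q|, Finset.sum_nonneg fun _ _ => abs_nonneg _, fun p => ?_⟩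
    exact Finset.single_le_sum (f := fun q => |F q|) (fun _ _ => abs_nonneg _) (Finset.mem_univ p)
  have key : ∀ n p, p ≠ Pat.empty → A p → |T^[n] F p| ≤ C * (cutT A T)^[n] (oneN A) p := by
    intro n
    induction n with
    | zero =>
      intro p hp hA
      show |F p| ≤ C * oneN A p
      unfold oneN
      rw [if_pos ⟨hp, hA⟩, mul_one]
      exact hC p
    | succ n ih =>
      intro p hp hA
      rw [Function.iterate_succ_apply', Function.iterate_succ_apply']
      set H := T^[n] F with hH
      set B := (cutT A T)^[n] (oneN A) with hB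
      -- the part on the non-empty admissible states
      set H' : Pat α → ℝ := fun q => if q ≠ Pat.empty ∧ A q then H q else 0 with hH'
      have e1 : T H p = T H' p := by
        have e2 : T H p = T (fun q => 1 * H' q + H Pat.empty * HS.ind Pat.empty q) p := by
          apply PA _ _ _ p hA
          intro q hq
          rw [hH']
          simp only
          by_cases h : q = Pat.empty
          · rw [h, if_neg (by simp), ind_self]
            ring
          · rw [if_pos ⟨h, hq⟩, ind_ne h]
            ring
        rw [e2, hL]
        simp only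
        rw [hT p hA, ind_ne hp]
        ring
      have hbd : ∀ q, |H' q| ≤ C * B q := by
        intro q
        rw [hH']
        simp only
        by_cases h : q ≠ Pat.empty ∧ A q
        · rw [if_pos h]
          exact ih q h.1 h.2
        · rw [if_neg h, abs_zero]
          apply mul_nonneg hC0
          have h0 : ∀ n p, 0 ≤ (cutT A T)^[n] (oneN A) p := by
            intro n
            induction n with
            | zero =>
              intro p
              show 0 ≤ oneN A p
              unfold oneN
              split_ifs
              · exact zero_le_one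
              · exact le_rfl
            | succ n ih =>
              intro p
              rw [Function.iterate_succ_apply']
              exact cutT_nn hP ih p
          exact h0 n q
      have e3 : cutT A T B p = T B p := by
        unfold cutT
        rw [if_pos ⟨hp, hA⟩]
      rw [e1, e3, abs_le]
      have e4 : T (fun q => C * B q) p = C * T B p := by rw [PosOp.smul hL]
      have e5 : T (fun q => (-C) * B q) p = (-C) * T B p := by rw [PosOp.smul hL]
      constructor
      · have := hP.mono hL (F := fun q => (-C) * B q) (G := H') (fun q => by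
          have := neg_le_of_abs_le (hbd q)
          linarith) p
        linarith
      · have := hP.mono hL (F := H') (G := fun q => C * B q) (fun q => le_of_abs_le (hbd q)) p
        linarith
  have h1 := (cutT_tendsto hP hL inj hM p).const_mul C
  rw [mul_zero] at h1
  exact squeeze_zero_norm (fun n => by rw [Real.norm_eq_abs]; exact key n p hp hA) h1

end decay

section hex

variable {X : List α} {c : α}

/-- **The iterated honeycomb columns tend to 0 on the non-empty states.** -/
theorem hex_iterate_tendsto [Finite α] (hn : X.Nodup) (hc : c ∉ X) (F : Pat α → ℝ) {p : Pat α}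
    (hp : p ≠ Pat.empty) (hA : AX X p) :
    Tendsto (fun n => (colF (fun _ => hexW xc) c X)^[n] F p) atTop (𝓝 0) :=
  iterate_tendsto (colF_pos c X) (lin_colF _ c X) (pres_colF _ hn hc)
    (fun q _ => by rw [colF_ind _ hc]) (injN_real hn hc)
    (fun _ h0 hs h1 => major_hex hn hc h0 hs h1) F hp hA

theorem colF_iterate_ofReal (c : α) (X : List α) (F : Pat α → ℝ) (n : ℕ) :
    (colF (fun _ => hexW (xc : ℂ)) c X)^[n] (fun p => (F p : ℂ)) =
      fun p => (((colF (fun _ => hexW xc) c X)^[n] F p : ℝ) : ℂ) := by
  induction n with
  | zero => rfl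
  | succ n ih => rw [Function.iterate_succ_apply', ih, colF_ofReal, Function.iterate_succ_apply']

omit [DecidableEq α] in
theorem lin_iterate {K : Type*} [CommRing K] {T : (Pat α → K) → (Pat α → K)} (hL : Lin T) (n : ℕ) :
    Lin (T^[n]) := by
  induction n with
  | zero =>
    intro a b F G
    rfl
  | succ n ih =>
    intro a b F G
    rw [Function.iterate_succ_apply', Function.iterate_succ_apply', Function.iterate_succ_apply', ih, hL]

/-- The same for complex functions. -/
theorem hex_iterate_tendsto_cx [Finite α] (hn : X.Nodup) (hc : c ∉ X) (F : Pat α → ℂ) {p : Pat α}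
    (hp : p ≠ Pat.empty) (hA : AX X p) :
    Tendsto (fun n => (colF (fun _ => hexW (xc : ℂ)) c X)^[n] F p) atTop (𝓝 0) := by
  have h1 := hex_iterate_tendsto hn hc (fun q => (F q).re) hp hA
  have h2 := hex_iterate_tendsto hn hc (fun q => (F q).im) hp hA
  have e : ∀ n, (colF (fun _ => hexW (xc : ℂ)) c X)^[n] F p =
      (((colF (fun _ => hexW xc) c X)^[n] (fun q => (F q).re) p : ℝ) : ℂ) +
        Complex.I * (((colF (fun _ => hexW xc) c X)^[n] (fun q => (F q).im) p : ℝ) : ℂ) := by
    intro n
    exact cx_split (lin_iterate (lin_colF (fun _ => hexW (xc : ℂ)) c X) n)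
      (fun G => colF_iterate_ofReal c X G n) F p
  have h3 : Tendsto (fun n => (((colF (fun _ => hexW xc) c X)^[n] (fun q => (F q).re) p : ℝ) : ℂ) +
        Complex.I * (((colF (fun _ => hexW xc) c X)^[n] (fun q => (F q).im) p : ℝ) : ℂ)) atTop
        (𝓝 (((0 : ℝ) : ℂ) + Complex.I * ((0 : ℝ) : ℂ))) :=
    ((Complex.continuous_ofReal.tendsto _).comp h1).add
      (((Complex.continuous_ofReal.tendsto _).comp h2).const_mul _)
  simp only [Complex.ofReal_zero, mul_zero, add_zero] at h3
  exact h3.congr fun n => (e n).symm

end hex

end Pool.Agent.NUF
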