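import Pool.Agent.NUF.UOps
import Pool.Agent.NUF.UHex
import Pool.Agent.EXL.ContOps

/-!
# The zero-leg functional of a half strip (chain B of the board NUL)

`IsV z X V`: the functional `V` on functions of states is supported on the planar states of the row list `X`,
has the value 1 on the indicator of the empty state, and is fixed by the column `T0 z c X`.
`Reg z X`: `1 - T0` is injective on the functions on the non-empty planar states, so `V` exists and is unique.
`VV z X` = the functional.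
-/

set_option autoImplicit false

namespace Pool.Agent.NUF

open _root_.Pool.Agent.EXL _root_.Pool.Agent.EXL.Pat _root_.Pool.Agent.EXL.HS HexObs Filter Topology

variable {ι : Type*} [DecidableEq ι]

/-- Functionals on functions of states. -/
abbrev Fnl (ι : Type*) := (Pat ι → ℂ) →ₗ[ℂ] ℂ

/-- The functional is supported on the planar states of the row list `X`. -/
abbrev Sup (X : List ι) (V : Fnl ι) : Prop := SupF (AX X) V

/-- The zero-leg functional of the rows `X`. -/
structure IsV (z : ι → ℂ) (X : List ι) (V : Fnl ι) : Prop where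
  sup : Sup X V
  one : V (HS.ind Pat.empty) = 1
  fix : ∀ c, c ∉ X → V ∘ₗ T0 z c X = V

/-- `1 - T0` is injective on the functions on the non-empty planar states. -/
def Reg (z : ι → ℂ) (X : List ι) : Prop := ∀ c, c ∉ X → InjN (AX X) (fun F => T0 z c X F)

/-- **The zero-leg functional.** -/
noncomputable def VV (z : ι → ℂ) (X : List ι) : Fnl ι :=
  open scoped Classical in if h : ∃ V, IsV z X V then h.choose else 0

section basic

variable {z : ι → ℂ} {c c' : ι} {X : List ι}

theorem T0_fun (z : ι → ℂ) (hc : c ∉ X) :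
    (fun F => T0 z c X F) = colF (fun j => rwt (3 * Real.pi / 16 - z j)) c X := by
  funext F
  rw [T0_apply z hc]
  rfl

theorem pres_T0 (z : ι → ℂ) (hn : X.Nodup) (hc : c ∉ X) : Pres (AX X) (AX X) (fun F => T0 z c X F) := by
  rw [T0_fun z hc]
  exact pres_colF _ hn hc

theorem T0_ind (z : ι → ℂ) (hc : c ∉ X) : T0 z c X (HS.ind Pat.empty) = HS.ind Pat.empty := by
  have h := congrFun (T0_fun z hc) (HS.ind Pat.empty)
  rw [h, colF_ind _ hc]

/-- **The auxiliary line is irrelevant.** -/
theorem T0_indep (z : ι → ℂ) (hn : X.Nodup) (hc : c ∉ X) (hc' : c' ∉ X) (F : Pat ι → ℂ) {p : Pat ι}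
    (hp : AX X p) : T0 z c' X F p = T0 z c X F p := by
  by_cases hcc : c = c'
  · rw [hcc]
  have h1 : uops.P c c' * T0 z c X = T0 z c' X * uops.P c c' := by
    have L := ulaws (ι := ι)
    unfold T0
    rw [← uops_bc, ← uops_bc (i := c')]
    calc uops.P c c' * (uops.bc c * uops.M z c (uops (ι := ι)).h X * uops.bc c)
        = (uops.P c c' * uops.bc c) * uops.M z c (uops (ι := ι)).h X * uops.bc c := by
          simp only [mul_assoc]
      _ = uops.bc c' * (uops.P c c' * uops.M z c (uops (ι := ι)).h X) * uops.bc c := by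
          rw [L.Pbc hcc]; simp only [mul_assoc]
      _ = uops.bc c' * uops.M z c' (uops (ι := ι)).h X * (uops.P c c' * uops.bc c) := by
          rw [L.P_M hcc hc hc']; simp only [mul_assoc]
      _ = _ := by rw [L.Pbc hcc]; simp only [mul_assoc]
  have h2 : ∀ (G : Pat ι → ℂ) (q : Pat ι), AX X q → uops.P c c' G q = G q := by
    intro G q hq
    rw [uops_P_apply]
    show G (swap c c' q) = G q
    rw [swap_empty2 (ax_out hq hc) (ax_out hq hc')]
  have h3 : uops.P c c' (T0 z c X F) p = T0 z c' X (uops.P c c' F) p := by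
    rw [← Module.End.mul_apply, h1, Module.End.mul_apply]
  rw [h2 _ _ hp] at h3
  rw [h3]
  exact pres_T0 z hn hc' F (uops.P c c' F) (fun q hq => (h2 F q hq).symm) p hp

theorem fix_indep {V : Fnl ι} (hV : Sup X V) (hn : X.Nodup) (hc : c ∉ X) (hc' : c' ∉ X)
    (h : V ∘ₗ T0 z c X = V) : V ∘ₗ T0 z c' X = V := by
  refine LinearMap.ext fun F => ?_
  rw [LinearMap.comp_apply, hV.congr fun p hp => T0_indep z hn hc hc' F hp, ← LinearMap.comp_apply, h]

theorem reg_of (hn : X.Nodup) (hc : c ∉ X) (h : InjN (AX X) (fun F => T0 z c X F)) : Reg z X := by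
  intro c' hc' G h0 h1 p
  refine h G h0 (fun q hq hA => ?_) p
  show T0 z c X G q = G q
  rw [← T0_indep z hn hc hc' G hA]
  exact h1 q hq hA

/-- **Uniqueness.** -/
theorem fix_zero [Finite ι] (hc : c ∉ X) (hR : Reg z X) {W : Fnl ι} (hW : Sup X W)
    (h : W ∘ₗ T0 z c X = W) (h0 : W (HS.ind Pat.empty) = 0) : W = 0 :=
  fix_unique (hR c hc) hW h h0

theorem IsV.unique [Finite ι] {V W : Fnl ι} (hV : IsV z X V) (hW : IsV z X W) (hc : c ∉ X)
    (hR : Reg z X) : V = W := by
  rw [← sub_eq_zero]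
  apply fix_zero hc hR (hV.sup.sub hW.sup)
  · rw [LinearMap.sub_comp, hV.fix c hc, hW.fix c hc]
  · rw [LinearMap.sub_apply, hV.one, hW.one, sub_self]

/-- **Existence.** -/
theorem exists_isV [Finite ι] (hn : X.Nodup) (hc : c ∉ X) (hR : Reg z X) : ∃ V, IsV z X V := by
  obtain ⟨V, h1, h2, h3⟩ := fix_exists' (ax_empty X) (pres_T0 z hn hc)
    (fun p _ => by rw [T0_ind z hc]) (hR c hc)
  exact ⟨V, h1, h2, fun c' hc' => fix_indep h1 hn hc hc' h3⟩

theorem isV_VV [Finite ι] (hn : X.Nodup) (hc : c ∉ X) (hR : Reg z X) : IsV z X (VV z X) := by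
  classical
  have h := exists_isV hn hc hR
  unfold VV
  rw [dif_pos h]
  exact h.choose_spec

theorem IsV.eq_VV [Finite ι] {V : Fnl ι} (hn : X.Nodup) (hc : c ∉ X) (hR : Reg z X) (hV : IsV z X V) :
    V = VV z X := hV.unique (isV_VV hn hc hR) hc hR

/-- The functional depends on the rapidities of the rows only. -/
theorem T0_congr {z' : ι → ℂ} (h : ∀ j ∈ X, z j = z' j) : T0 z c X = T0 z' c X := by
  unfold T0
  congr 2
  induction X with
  | nil => rfl
  | cons j X ih =>
    rw [Glob.Ops.M_cons, Glob.Ops.M_cons, ih fun k hk => h k (by simp [hk]), h j (by simp)]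

theorem IsV.congr {z' : ι → ℂ} {V : Fnl ι} (h : ∀ j ∈ X, z j = z' j) (hV : IsV z X V) : IsV z' X V :=
  ⟨hV.sup, hV.one, fun c hc => by rw [← T0_congr h]; exact hV.fix c hc⟩

theorem Reg.congr {z' : ι → ℂ} (h : ∀ j ∈ X, z j = z' j) (hR : Reg z X) : Reg z' X :=
  fun c hc => by rw [← T0_congr h]; exact hR c hc

theorem VV_congr {z' : ι → ℂ} (h : ∀ j ∈ X, z j = z' j) : VV z X = VV z' X := by
  classical
  have e : (fun V => IsV z X V) = fun V => IsV z' X V := by
    funext V
    exact propext ⟨fun hV => hV.congr h, fun hV => hV.congr fun j hj => (h j hj).symm⟩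
  have key : ∀ P Q : Fnl ι → Prop, P = Q → (if h : ∃ V, P V then h.choose else 0) =
      (if h : ∃ V, Q V then h.choose else 0) := by
    rintro P Q rfl
    rfl
  exact key _ _ e

end basic

/-! ### Operators that commute with the column -/

section comm

variable {z : ι → ℂ} {c : ι} {X Y : List ι} {V : Fnl ι}

/-- **An operator that intertwines the columns of `X` and `Y`** maps the functional to the functional. -/
theorem IsV.comp (hV : IsV z X V) (hn' : Y.Nodup) (hXY : ∀ c, c ∉ Y → c ∉ X)
    {x : Module.End ℂ (Pat ι → ℂ)} (hP : Pres (AX X) (AX Y) (fun F => x F)) (hc : c ∉ Y)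
    (hx : T0 z c X * x = x * T0 z c Y)
    (h1 : ∀ p, AX X p → x (HS.ind Pat.empty) p = HS.ind Pat.empty p) : IsV z Y (V ∘ₗ x) where
  sup := hV.sup.comp hP
  one := by
    rw [LinearMap.comp_apply, hV.sup.congr h1, hV.one]
  fix := by
    intro c' hc'
    apply fix_indep (hV.sup.comp hP) hn' hc hc'
    rw [LinearMap.comp_assoc, ← Module.End.mul_eq_comp, ← hx, Module.End.mul_eq_comp,
      ← LinearMap.comp_assoc, hV.fix c (hXY c hc)]

/-- The exchange of two neighbouring rows commutes with the column. -/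
theorem T0_exchange {L1 L2 : List ι} {j k : ι} (hn : (L1 ++ j :: k :: L2).Nodup)
    (hc : c ∉ L1 ++ j :: k :: L2) (h1 : okR (3 * Real.pi / 16 - z j)) (h2 : okR (3 * Real.pi / 16 - z k))
    (h3 : okR (z j - z k)) :
    T0 z c (L1 ++ j :: k :: L2) * uops.R j k (z j - z k) =
      uops.R j k (z j - z k) * T0 z c (L1 ++ k :: j :: L2) := by
  have L := ulaws (ι := ι)
  have hcj : c ≠ j := fun e => hc (by simp [e])
  have hck : c ≠ k := fun e => hc (by simp [e])
  have hjk : j ≠ k := by
    have := (List.nodup_append.1 hn).2.1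
    rw [List.nodup_cons] at this
    exact fun e => this.1 (by rw [e]; simp)
  have hj1 : j ∉ L1 := fun h => (List.nodup_append.1 hn).2.2 j h j (by simp) rfl
  have hk1 : k ∉ L1 := fun h => (List.nodup_append.1 hn).2.2 k h k (by simp) rfl
  have hj2 : j ∉ L2 := by
    have := (List.nodup_append.1 hn).2.1
    rw [List.nodup_cons] at this
    exact fun h => this.1 (List.mem_cons_of_mem _ h)
  have hk2 : k ∉ L2 := by
    have := (List.nodup_append.1 hn).2.1
    rw [List.nodup_cons, List.nodup_cons] at this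
    exact this.2.1
  set x := uops.R j k (z j - z k) with hx
  set M1 := uops.M z c (uops (ι := ι)).h L1 with hM1
  set M2 := uops.M z c (uops (ι := ι)).h L2 with hM2
  set Rj := uops.R c j ((uops (ι := ι)).h - z j) with hRj
  set Rk := uops.R c k ((uops (ι := ι)).h - z k) with hRk
  have e1 : uops.E c * x = x * uops.E c := (L.cRE hcj.symm hck.symm).eq.symm
  have e2 : M2 * x = x * M2 := (L.cMR hcj hck hj2 hk2).eq
  have e3 : M1 * x = x * M1 := (L.cMR hcj hck hj1 hk1).eq
  have e4 : Rj * Rk * x = x * Rk * Rj := by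
    have h := L.L2 (i := c) (j := j) (k := k) (u := (uops (ι := ι)).h - z j) (w := z j - z k) hcj hck hjk
      (by rw [uops_h]; exact h1) h3 (by rw [uops_h, sub_add_sub_cancel]; exact h2)
    rw [sub_add_sub_cancel] at h
    exact h
  have e5 : uops.M z c (uops (ι := ι)).h (L1 ++ j :: k :: L2) = M1 * (Rj * (Rk * M2)) := by
    rw [Glob.Ops.M_append, Glob.Ops.M_cons, Glob.Ops.M_cons]
  have e6 : uops.M z c (uops (ι := ι)).h (L1 ++ k :: j :: L2) = M1 * (Rk * (Rj * M2)) := by
    rw [Glob.Ops.M_append, Glob.Ops.M_cons, Glob.Ops.M_cons]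
  unfold T0
  rw [e5, e6]
  calc uops.E c * (M1 * (Rj * (Rk * M2))) * uops.E c * x
      = uops.E c * (M1 * (Rj * (Rk * M2))) * (uops.E c * x) := by simp only [mul_assoc]
    _ = uops.E c * (M1 * (Rj * (Rk * (M2 * x)))) * uops.E c := by rw [e1]; simp only [mul_assoc]
    _ = uops.E c * (M1 * ((Rj * Rk * x) * M2)) * uops.E c := by rw [e2]; simp only [mul_assoc]
    _ = uops.E c * ((M1 * x) * (Rk * (Rj * M2))) * uops.E c := by rw [e4]; simp only [mul_assoc]
    _ = (uops.E c * x) * (M1 * (Rk * (Rj * M2))) * uops.E c := by rw [e3]; simp only [mul_assoc]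
    _ = _ := by rw [e1]; simp only [mul_assoc]

/-- **The exchange of two neighbouring rows.** -/
theorem IsV.exchange {L1 L2 : List ι} {j k : ι} (hV : IsV z (L1 ++ j :: k :: L2) V)
    (hn : (L1 ++ j :: k :: L2).Nodup) (hc : c ∉ L1 ++ j :: k :: L2)
    (h1 : okR (3 * Real.pi / 16 - z j)) (h2 : okR (3 * Real.pi / 16 - z k)) (h3 : okR (z j - z k)) :
    IsV z (L1 ++ k :: j :: L2) (V ∘ₗ uops.R j k (z j - z k)) := by
  have hp : (L1 ++ j :: k :: L2).Perm (L1 ++ k :: j :: L2) := List.Perm.append_left _ (List.Perm.swap _ _ _)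
  have hjk : j ≠ k := by
    have := (List.nodup_append.1 hn).2.1
    rw [List.nodup_cons] at this
    exact fun e => this.1 (by rw [e]; simp)
  have hR : (fun F => uops.R j k (z j - z k) F) = R (rwt (z j - z k)) j k := by
    funext F
    exact uops_R_apply hjk F
  refine hV.comp (hp.nodup_iff.1 hn) (fun c hc' h => hc' (hp.mem_iff.1 h)) ?_
    (fun h => hc (hp.mem_iff.2 h)) (T0_exchange hn hc h1 h2 h3) ?_
  · rw [hR]
    exact pres_ax_R _ hn
  · intro p _
    have := congrFun hR (HS.ind Pat.empty)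
    rw [this, R_fix_ind _ hjk]

/-- **The exchange of two neighbouring rows, for `VV`.** -/
theorem VV_exchange [Finite ι] {L1 L2 : List ι} {j k : ι} (hn : (L1 ++ j :: k :: L2).Nodup)
    (hc : c ∉ L1 ++ j :: k :: L2) (h1 : okR (3 * Real.pi / 16 - z j)) (h2 : okR (3 * Real.pi / 16 - z k))
    (h3 : okR (z j - z k)) (hR : Reg z (L1 ++ j :: k :: L2)) (hR' : Reg z (L1 ++ k :: j :: L2)) :
    VV z (L1 ++ j :: k :: L2) ∘ₗ uops.R j k (z j - z k) = VV z (L1 ++ k :: j :: L2) := by
  have hp : (L1 ++ j :: k :: L2).Perm (L1 ++ k :: j :: L2) := List.Perm.append_left _ (List.Perm.swap _ _ _)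
  exact ((isV_VV hn hc hR).exchange hn hc h1 h2 h3).eq_VV (hp.nodup_iff.1 hn)
    (fun h => hc (hp.mem_iff.2 h)) hR'

end comm

/-! ### Near the honeycomb point -/

section near

variable [Fintype ι] {c : ι} {X : List ι} {z : ι → ℂ}

omit [Fintype ι] in
theorem M_congr' {K : Type*} [CommRing K] {w w' : ι → Wt K} (h : ∀ j ∈ X, w j = w' j) (c : ι) :
    M w c X = M w' c X := by
  funext F
  induction X with
  | nil => rfl
  | cons j X ih =>
    rw [M_cons, M_cons, h j (by simp), ih fun k hk => h k (by simp [hk])]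

omit [Fintype ι] in
/-- The column at the honeycomb point. -/
theorem T0_hex (hz : ∀ j ∈ X, z j = Real.pi / 16) (hc : c ∉ X) :
    (fun F => T0 z c X F) = colF (fun _ => hexW (xc : ℂ)) c X := by
  rw [T0_fun z hc]
  unfold colF
  have h : M (fun j => rwt (3 * Real.pi / 16 - z j)) c X = M (fun _ => hexW (xc : ℂ)) c X := by
    apply M_congr'
    intro j hj
    rw [hz j hj, show (3 * Real.pi / 16 - Real.pi / 16 : ℂ) = Real.pi / 8 by ring, rwt_hex]
  rw [h]

omit [Fintype ι] in
/-- **The honeycomb point is regular.** -/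
theorem reg_hex (hn : X.Nodup) (hz : ∀ j ∈ X, z j = Real.pi / 16) : Reg z X := by
  intro c hc
  rw [T0_hex hz hc]
  exact injN_cx hn hc

theorem okR_hex : okR (Real.pi / 8) := by
  have h := rwt_hex
  intro h0
  have h1 : (rwt (Real.pi / 8)).u1 = (xc : ℂ) := by rw [h]; rfl
  have h2 : (rwt (Real.pi / 8)).u1 = 0 := by
    simp only [rwt, EXL.wt]
    rw [h0]
    simp
  rw [h2] at h1
  exact xc_pos.ne' (by exact_mod_cast h1.symm)

omit [Fintype ι] in
/-- The column is continuous in the rapidities. -/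
theorem cont_T0 {Z : Type*} [TopologicalSpace Z] {ζ : Z → ι → ℂ} {y0 : Z} (hc : c ∉ X)
    (hz : ∀ j ∈ X, ContinuousAt (fun y => ζ y j) y0) (hok : ∀ j ∈ X, okR (3 * Real.pi / 16 - ζ y0 j))
    (F : Pat ι → ℂ) (p : Pat ι) : ContinuousAt (fun y => T0 (ζ y) c X F p) y0 := by
  have e : (fun y => T0 (ζ y) c X F p) = fun y => colF (fun j => rwt (3 * Real.pi / 16 - ζ y j)) c X F p := by
    funext y
    exact congrFun (congrFun (T0_fun (ζ y) hc) F) p
  rw [e]
  have hM : ∀ (L : List ι), (∀ j ∈ L, j ∈ X) → ∀ (G : Pat ι → ℂ) (p : Pat ι),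
      ContinuousAt (fun y => M (fun j => rwt (3 * Real.pi / 16 - ζ y j)) c L G p) y0 := by
    intro L
    induction L with
    | nil =>
      intro _ G p
      exact continuousAt_const
    | cons j L ih =>
      intro hL G p
      have hj := hL j (by simp)
      exact HS.cont_R (wtCont_rwt (continuousAt_const.sub (hz j hj)) (hok j hj)) _ _
        (fun q => ih (fun k hk => hL k (by simp [hk])) G q) p
  unfold colF
  simp only [emp]
  by_cases hp : p c = c
  · simp only [if_pos hp]
    exact hM X (fun _ h => h) _ p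
  · simp only [if_neg hp]
    exact continuousAt_const

/-- **Regularity is an open condition, and the functional is continuous.** -/
theorem reg_near (hn : X.Nodup) (hc : c ∉ X) {Z : Type*} [TopologicalSpace Z] {ζ : Z → ι → ℂ} {y0 : Z}
    (hz : ∀ j ∈ X, ContinuousAt (fun y => ζ y j) y0) (hok : ∀ j ∈ X, okR (3 * Real.pi / 16 - ζ y0 j))
    (hR : Reg (ζ y0) X) :
    (∀ᶠ y in 𝓝 y0, Reg (ζ y) X) ∧ ∀ F, ContinuousAt (fun y => VV (ζ y) X F) y0 := by
  obtain ⟨V, h1, h2, h3⟩ := fix_near (ax_empty X) (T := fun y => T0 (ζ y) c X) (z0 := y0)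
    (fun y => pres_T0 (ζ y) hn hc) (fun y p _ => by rw [T0_ind (ζ y) hc])
    (fun F p => cont_T0 hc hz hok F p) (hR c hc)
  have h4 : ∀ᶠ y in 𝓝 y0, Reg (ζ y) X := h3.mono fun y hy => reg_of hn hc hy.2
  refine ⟨h4, fun F => ?_⟩
  have h5 : (fun y => V y F) =ᶠ[𝓝 y0] fun y => VV (ζ y) X F := by
    filter_upwards [h3] with y hy
    have hR' := reg_of hn hc hy.2
    have hV : IsV (ζ y) X (V y) := ⟨(h1 y).1, (h1 y).2, fun c' hc' => fix_indep (h1 y).1 hn hc hc' hy.1⟩
    rw [hV.eq_VV hn hc hR']
  exact (h2 F).congr h5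

omit [Fintype ι] [DecidableEq ι] in
theorem okR_near (hz : ∀ j ∈ X, z j = Real.pi / 16) : ∀ j ∈ X, okR (3 * Real.pi / 16 - z j) := by
  intro j hj
  rw [hz j hj, show (3 * Real.pi / 16 - Real.pi / 16 : ℂ) = Real.pi / 8 by ring]
  exact okR_hex

/-- **Existence and uniqueness near the honeycomb point**, for all lists at the same time. -/
theorem reg_nhds : ∀ᶠ z in 𝓝 (fun _ : ι => (Real.pi / 16 : ℂ)), ∀ X : List ι, X.Nodup → Reg z X := by
  classical
  have hfin : {X : List ι | X.Nodup}.Finite := by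
    have : {X : List ι | X.Nodup} ⊆ {X : List ι | X.length ≤ Fintype.card ι} := by
      intro X hX
      exact hX.length_le_card
    exact (List.finite_length_le ι (Fintype.card ι)).subset this
  have h : ∀ᶠ z in 𝓝 (fun _ : ι => (Real.pi / 16 : ℂ)), ∀ X ∈ {X : List ι | X.Nodup}, Reg z X := by
    rw [Filter.eventually_all_finite hfin]
    intro X hX
    by_cases hc : ∃ c, c ∉ X
    · obtain ⟨c, hc⟩ := hc
      exact (reg_near hX hc (ζ := fun z => z) (fun j _ => (continuous_apply j).continuousAt)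
        (okR_near fun _ _ => rfl) (reg_hex hX fun _ _ => rfl)).1
    · push Not at hc
      exact Eventually.of_forall fun z c hc' => absurd (hc c) hc'
  exact h.mono fun z hz X hX => hz X hX

/-- The functional is continuous at the honeycomb point. -/
theorem VV_cont (hn : X.Nodup) (hc : c ∉ X) (F : Pat ι → ℂ) :
    ContinuousAt (fun z => VV z X F) (fun _ : ι => (Real.pi / 16 : ℂ)) :=
  (reg_near hn hc (ζ := fun z => z) (fun j _ => (continuous_apply j).continuousAt)
    (okR_near fun j _ => rfl) (reg_hex hn fun j _ => rfl)).2 F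

/-- **The functional at the honeycomb point is the limit of the iterated columns.** -/
theorem VV_hex_lim (hn : X.Nodup) (hc : c ∉ X) (hz : ∀ j ∈ X, z j = Real.pi / 16) (F : Pat ι → ℂ) :
    Tendsto (fun n => ((colF (fun _ => hexW (xc : ℂ)) c X)^[n] F) Pat.empty) atTop (𝓝 (VV z X F)) := by
  classical
  have : Fintype (NE (AX X)) := Fintype.ofFinite _
  have hR := reg_hex hn hz
  have hV := isV_VV hn hc hR
  set T := colF (fun _ => hexW (xc : ℂ)) c X with hT
  have h1 : ∀ n, VV z X (T^[n] F) = VV z X F := by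
    intro n
    induction n with
    | zero => rfl
    | succ n ih =>
      rw [Function.iterate_succ_apply', ← ih]
      have h2 := congrArg (fun V : Fnl ι => V (T^[n] F)) (hV.fix c hc)
      simp only [LinearMap.comp_apply] at h2
      have h3 := congrFun (T0_hex hz hc) (T^[n] F)
      rw [h3] at h2
      exact h2
  have h2 : ∀ n, (T^[n] F) Pat.empty = VV z X F - ∑ p : NE (AX X), (T^[n] F) p.1 * VV z X (HS.ind p.1) := by
    intro n
    rw [← h1 n, sup_sum hV.sup, hV.one, mul_one]
    ring
  have h3 : Tendsto (fun n => VV z X F - ∑ p : NE (AX X), (T^[n] F) p.1 * VV z X (HS.ind p.1)) atTop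
      (𝓝 (VV z X F - ∑ p : NE (AX X), 0 * VV z X (HS.ind p.1))) := by
    apply tendsto_const_nhds.sub
    apply tendsto_finsetSum
    intro p _
    exact (hex_iterate_tendsto_cx hn hc F p.2.1 p.2.2).mul_const _
  simp only [zero_mul, Finset.sum_const_zero, sub_zero] at h3
  exact h3.congr fun n => (h2 n).symm

/-- The functional at the honeycomb point is real on real functions: the limit of the real iterates. -/
theorem VV_hex_lim_real (hn : X.Nodup) (hc : c ∉ X) (hz : ∀ j ∈ X, z j = Real.pi / 16) (F : Pat ι → ℝ) :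
    ∃ r : ℝ, VV z X (fun p => (F p : ℂ)) = (r : ℂ) ∧
      Tendsto (fun n => ((colF (fun _ => hexW xc) c X)^[n] F) Pat.empty) atTop (𝓝 r) := by
  have h := VV_hex_lim hn hc hz (fun p => (F p : ℂ))
  simp only [colF_iterate_ofReal] at h
  have h1 := (Complex.continuous_re.tendsto _).comp h
  have h2 := (Complex.continuous_im.tendsto _).comp h
  have h3 : (VV z X (fun p => (F p : ℂ))).im = 0 := by
    refine tendsto_nhds_unique h2 ?_
    simp only [Function.comp_def, Complex.ofReal_im]
    exact tendsto_const_nhds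
  refine ⟨(VV z X (fun p => (F p : ℂ))).re, ?_, ?_⟩
  · apply Complex.ext
    · rw [Complex.ofReal_re]
    · rw [Complex.ofReal_im, h3]
  · simpa only [Function.comp_def, Complex.ofReal_re] using h1

/-- The functional at the honeycomb point is nonnegative. -/
theorem VV_hex_nonneg (hn : X.Nodup) (hc : c ∉ X) (hz : ∀ j ∈ X, z j = Real.pi / 16) {F : Pat ι → ℝ}
    (hF : ∀ p, 0 ≤ F p) : ∃ r : ℝ, 0 ≤ r ∧ VV z X (fun p => (F p : ℂ)) = (r : ℂ) := by
  obtain ⟨r, h1, h2⟩ := VV_hex_lim_real hn hc hz F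
  refine ⟨r, ge_of_tendsto' h2 fun n => ?_, h1⟩
  have h3 : ∀ n p, 0 ≤ (colF (fun _ => hexW xc) c X)^[n] F p := by
    intro n
    induction n with
    | zero => exact hF
    | succ n ih =>
      intro p
      rw [Function.iterate_succ_apply']
      exact colF_pos c X _ ih p
  exact h3 n _

end near

end Pool.Agent.NUF
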