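import Pool.Agent.NUF.PPair
import Pool.Agent.NUF.UVec
import Pool.Agent.EXL.FormInst

/-!
# Crossing and fusion of the two lowest lines

Intertwining relations of the column with the gluing operator and with the vertices, and the resolution
`1 = K Y + N Λ` on the states of two lines, where `N` = the numerator of the rhombus at `-2 λ`.
-/

set_option autoImplicit false

namespace Pool.Agent.NUF

open Pool.Agent.EXL (okR okC xh)
open Pool.Agent.EXL.Fm (Dn Wn R6 lam)

section loc

variable {ι K : Type*} [DecidableEq ι] [CommRing K]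

theorem loc_of_on {S : Set ι} {w : Wd K ι} (hw : On S w) : rep0 K id w ∈ EXL.Loc K S := by
  induction hw using Algebra.adjoin_induction with
  | algebraMap r =>
    rw [AlgHom.commutes]
    exact Subalgebra.algebraMap_mem _ r
  | mem x hx =>
    obtain ⟨a, ha, rfl⟩ := hx
    rw [rep0, FreeAlgebra.lift_ι_apply]
    cases ha with
    | e h => exact EXL.Loc.e h
    | sw h h' => exact EXL.Loc.sw h h'
    | cu h h' => exact EXL.Loc.cu h h'
    | ct h h' => exact EXL.Loc.ct h h'
  | mul a b _ _ ha hb =>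
    rw [map_mul]
    exact mul_mem ha hb
  | add a b _ _ ha hb =>
    rw [map_add]
    exact add_mem ha hb

theorem comm_of_on {S T : Set ι} (hd : Disjoint S T) {w v : Wd K ι} (hw : On S w) (hv : On T v) :
    Commute (rep0 K id w) (rep0 K id v) := EXL.Loc.commute hd (loc_of_on hw) (loc_of_on hv)

end loc

section ops

variable {ι : Type*} [DecidableEq ι] {i j k a b : ι}

theorem cE_glue (h1 : k ≠ i) (h2 : k ≠ j) : Commute (uops.E k) (uops.glue i j) :=
  comm_of_on (S := {k}) (T := {i, j}) (by simp [h1, h2]) (On.cE (by simp))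
    (On.cglue (by simp) (by simp))

theorem cE_Yt (h1 : k ≠ i) (h2 : k ≠ j) : Commute (uops.E k) (uops.Yt i j) :=
  comm_of_on (S := {k}) (T := {i, j}) (by simp [h1, h2]) (On.cE (by simp))
    (On.cYt (by simp) (by simp))

theorem cE_Y (h1 : k ≠ i) (h2 : k ≠ j) : Commute (uops.E k) (uops.Y i j) :=
  comm_of_on (S := {k}) (T := {i, j}) (by simp [h1, h2]) (On.cE (by simp))
    (On.cY (by simp) (by simp))

theorem uops_Y_apply (F : EXL.Pat ι → ℂ) (h : i ≠ j) : uops.Y i j F = EXL.Y xh i j F := by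
  show rep0 ℂ id (if i = j then 0 else wY xh i j) F = _
  rw [if_neg h, rep0_Y]
  rfl

theorem uops_Yt_apply (F : EXL.Pat ι → ℂ) (h : i ≠ j) : uops.Yt i j F = EXL.Yt xh i j F := by
  show rep0 ℂ id (if i = j then 0 else wYt xh i j) F = _
  rw [if_neg h, rep0_Yt _ _ h]
  rfl

/-- The roles of the two lines of a splitting vertex. -/
theorem P_Y (h : i ≠ j) : uops.P i j * uops.Y i j = uops.Y j i := by
  refine LinearMap.ext fun F => ?_
  rw [Module.End.mul_apply, uops_Y_apply _ h, uops_Y_apply _ h.symm, uops_P_apply]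
  funext p
  have inv : ∀ x, p (p x) = x := p.inv
  show EXL.Y xh i j F (EXL.Pat.swap i j p) = _
  have e1 : EXL.Pat.swap i j p j = j ↔ p i = i := by
    rw [EXL.swap_apply, Equiv.swap_apply_right, Equiv.swap_apply_eq_iff, Equiv.swap_apply_right]
  have e2 : EXL.Pat.swap i j p i = i ↔ p j = j := by
    rw [EXL.swap_apply, Equiv.swap_apply_left, Equiv.swap_apply_eq_iff, Equiv.swap_apply_left]
  have e3 : EXL.Pat.swap i j (EXL.Pat.swap i j p) = p := by
    ext x
    rw [EXL.swap_apply, EXL.swap_apply, Equiv.swap_apply_self, Equiv.swap_apply_self]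
  have e4 : EXL.Pat.swap j i p = EXL.Pat.swap i j p := by
    ext x
    rw [EXL.swap_apply, EXL.swap_apply, Equiv.swap_comm]
  unfold EXL.Y
  simp only [e1, e2, e3, e4]
  by_cases h1 : p i = i
  · rw [if_pos h1, if_pos h1]
    by_cases h2 : p j = j
    · rw [if_pos h2, if_pos h2]
      have e5 : EXL.Pat.swap i j p = p := by
        ext x
        rw [EXL.swap_apply]
        simp only [Equiv.swap_apply_def]
        grind
      have e6 : EXL.Pat.cup j i p = EXL.Pat.cup i j p := by
        ext x
        rw [EXL.cup_apply (show EXL.Pat.CuOK j i p from ⟨h2, h1⟩),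
          EXL.cup_apply (show EXL.Pat.CuOK i j p from ⟨h1, h2⟩)]
        grind
      rw [e5, e6]
    · rw [if_neg h2, if_neg h2, add_comm]
  · rw [if_neg h1, if_neg h1]

end ops

section col

variable {ι : Type*} [DecidableEq ι] {z z' : ι → ℂ} {p q c : ι} {Y : List ι}

theorem uM_comm {z : ι → ℂ} {w : ℂ} {T : Set ι} (hc : c ∉ T) (hY : ∀ y ∈ Y, y ∉ T) {v : Wd ℂ ι}
    (hv : On T v) : Commute (uops.M z c w Y) (rep0 ℂ id v) := by
  refine uops.M_commute fun r hr => ?_
  refine comm_of_on (S := {c, r}) (T := T) ?_ (On.cR (by simp) (by simp) _) hv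
  rw [Set.disjoint_left]
  rintro x (rfl | rfl)
  · exact hc
  · exact hY _ hr

/-- The column on a pair of joined lines. -/
theorem T0_glue (hpq : p ≠ q) (hcp : c ≠ p) (hcq : c ≠ q) (hp : p ∉ Y) (hq : q ∉ Y)
    (hz : z p = z q + (uops (ι := ι)).h + (uops (ι := ι)).h)
    (h1 : okR ((uops (ι := ι)).h - z p)) (h2 : okR ((uops (ι := ι)).h - z q)) :
    T0 z c (p :: q :: Y) * uops.glue p q = uops.glue p q * T0 z c Y := by
  have W := ulaws (ι := ι)
  set s := uops (ι := ι) with hs
  have c1 : Commute (s.E c) (s.glue p q) := cE_glue hcp hcq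
  have c2 : Commute (s.M z c s.h Y) (s.glue p q) :=
    uM_comm (T := {p, q}) (by simp [hcp, hcq]) (by
      rintro y hy (rfl | rfl)
      · exact hp hy
      · exact hq hy) (On.cglue (by simp) (by simp))
  have e : s.h + s.h + (s.h - z p) = s.h - z q := by rw [hz]; ring
  have cu := W.CU (i := q) (j := p) (r := c) (u := s.h - z p) hpq.symm hcq.symm hcp.symm h1
    (by rw [e]; exact h2)
  rw [e, W.Rs (i := p) (j := c), W.Rs (i := q) (j := c), W.gs (i := q) (j := p)] at cu
  unfold T0
  rw [← hs, EXL.Glob.Ops.M_cons, EXL.Glob.Ops.M_cons]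
  calc s.E c * (s.R c p (s.h - z p) * (s.R c q (s.h - z q) * s.M z c s.h Y)) * s.E c * s.glue p q
      = s.E c * s.R c p (s.h - z p) * s.R c q (s.h - z q) * s.M z c s.h Y * (s.E c * s.glue p q) := by
        simp only [mul_assoc]
    _ = s.E c * s.R c p (s.h - z p) * s.R c q (s.h - z q) * (s.M z c s.h Y * s.glue p q) * s.E c := by
        rw [c1.eq]; simp only [mul_assoc]
    _ = s.E c * (s.R c p (s.h - z p) * s.R c q (s.h - z q) * s.glue p q) * s.M z c s.h Y * s.E c := by
        rw [c2.eq]; simp only [mul_assoc]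
    _ = (s.E c * s.glue p q) * s.M z c s.h Y * s.E c := by rw [cu]
    _ = _ := by rw [c1.eq]; simp only [mul_assoc]

/-- The column on a merging vertex. -/
theorem T0_Yt (hpq : p ≠ q) (hcp : c ≠ p) (hcq : c ≠ q) (hp : p ∉ Y) (hq : q ∉ Y)
    (hz : z p = z q + (uops (ι := ι)).l + (uops (ι := ι)).l) (hz' : z' q = z q + (uops (ι := ι)).l)
    (hY : ∀ y ∈ Y, z' y = z y)
    (h1 : okR ((uops (ι := ι)).h - z p)) (h2 : okR ((uops (ι := ι)).h - z q))
    (h3 : okR ((uops (ι := ι)).h - z' q)) :
    T0 z c (p :: q :: Y) * uops.Yt q p = uops.Yt q p * T0 z' c (q :: Y) := by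
  have W := ulaws (ι := ι)
  set s := uops (ι := ι) with hs
  have c1 : Commute (s.E c) (s.Yt q p) := cE_Yt hcq hcp
  have c2 : Commute (s.M z c s.h Y) (s.Yt q p) :=
    uM_comm (T := {p, q}) (by simp [hcp, hcq]) (by
      rintro y hy (rfl | rfl)
      · exact hp hy
      · exact hq hy) (On.cYt (by simp) (by simp))
  have e1 : s.h - z p + s.l + s.l = s.h - z q := by rw [hz]; ring
  have e2 : s.h - z p + s.l = s.h - z' q := by rw [hz, hz']; ring
  have cu := W.B2 (i := q) (j := p) (r := c) (w := s.h - z p) hpq.symm hcq.symm hcp.symm h1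
    (by rw [e2]; exact h3) (by rw [e1]; exact h2)
  rw [e1, e2, W.Rs (i := p) (j := c), W.Rs (i := q) (j := c), W.Rs (i := q) (j := c)] at cu
  have eM : s.M z' c s.h Y = s.M z c s.h Y := by
    unfold EXL.Glob.Ops.M
    congr 1
    exact List.map_congr_left fun y hy => by rw [hY y hy]
  unfold T0
  rw [← hs, EXL.Glob.Ops.M_cons, EXL.Glob.Ops.M_cons, EXL.Glob.Ops.M_cons, eM]
  calc s.E c * (s.R c p (s.h - z p) * (s.R c q (s.h - z q) * s.M z c s.h Y)) * s.E c * s.Yt q p
      = s.E c * s.R c p (s.h - z p) * s.R c q (s.h - z q) * s.M z c s.h Y * (s.E c * s.Yt q p) := by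
        simp only [mul_assoc]
    _ = s.E c * s.R c p (s.h - z p) * s.R c q (s.h - z q) * (s.M z c s.h Y * s.Yt q p) * s.E c := by
        rw [c1.eq]; simp only [mul_assoc]
    _ = s.E c * (s.R c p (s.h - z p) * s.R c q (s.h - z q) * s.Yt q p) * s.M z c s.h Y * s.E c := by
        rw [c2.eq]; simp only [mul_assoc]
    _ = (s.E c * s.Yt q p) * s.R c q (s.h - z' q) * s.M z c s.h Y * s.E c := by
        rw [cu]; simp only [mul_assoc]
    _ = _ := by rw [c1.eq]; simp only [mul_assoc]

/-- The column on a splitting vertex. -/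
theorem Y_T0 (hpq : p ≠ q) (hcp : c ≠ p) (hcq : c ≠ q) (hp : p ∉ Y) (hq : q ∉ Y)
    (hz : z q = z p + (uops (ι := ι)).l + (uops (ι := ι)).l) (hz' : z' q = z p + (uops (ι := ι)).l)
    (hY : ∀ y ∈ Y, z' y = z y)
    (h1 : okR ((uops (ι := ι)).h - z p)) (h2 : okR ((uops (ι := ι)).h - z q))
    (h3 : okR ((uops (ι := ι)).h - z' q)) :
    uops.Y q p * T0 z c (p :: q :: Y) = T0 z' c (q :: Y) * uops.Y q p := by
  have W := ulaws (ι := ι)
  set s := uops (ι := ι) with hs
  have c1 : Commute (s.E c) (s.Y q p) := cE_Y hcq hcp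
  have c2 : Commute (s.M z c s.h Y) (s.Y q p) :=
    uM_comm (T := {p, q}) (by simp [hcp, hcq]) (by
      rintro y hy (rfl | rfl)
      · exact hp hy
      · exact hq hy) (On.cY (by simp) (by simp))
  have e1 : s.h - z q + s.l + s.l = s.h - z p := by rw [hz]; ring
  have e2 : s.h - z q + s.l = s.h - z' q := by rw [hz, hz']; ring
  have cu := W.B1 (i := p) (j := q) (r := c) (w := s.h - z q) hpq hcp.symm hcq.symm h2
    (by rw [e2]; exact h3) (by rw [e1]; exact h1)
  rw [e1, e2] at cu
  have g1 : s.P p q * s.Y p q = s.Y q p := P_Y hpq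
  have g2 : s.P p q * s.R p c (s.h - z' q) = s.R q c (s.h - z' q) * s.P p q :=
    W.PR hpq hcp.symm hcq.symm
  have cu' : s.Y q p * s.R c p (s.h - z p) * s.R c q (s.h - z q) =
      s.R c q (s.h - z' q) * s.Y q p := by
    rw [W.Rs (i := c) (j := p), W.Rs (i := c) (j := q), W.Rs (i := c) (j := q)]
    calc s.Y q p * s.R p c (s.h - z p) * s.R q c (s.h - z q)
        = s.P p q * (s.Y p q * s.R p c (s.h - z p) * s.R q c (s.h - z q)) := by
          rw [← g1]; simp only [mul_assoc]
      _ = (s.P p q * s.R p c (s.h - z' q)) * s.Y p q := by rw [cu]; simp only [mul_assoc]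
      _ = s.R q c (s.h - z' q) * (s.P p q * s.Y p q) := by rw [g2]; simp only [mul_assoc]
      _ = _ := by rw [g1]
  have eM : s.M z' c s.h Y = s.M z c s.h Y := by
    unfold EXL.Glob.Ops.M
    congr 1
    exact List.map_congr_left fun y hy => by rw [hY y hy]
  unfold T0
  rw [← hs, EXL.Glob.Ops.M_cons, EXL.Glob.Ops.M_cons, EXL.Glob.Ops.M_cons, eM]
  calc s.Y q p * (s.E c * (s.R c p (s.h - z p) * (s.R c q (s.h - z q) * s.M z c s.h Y)) * s.E c)
      = (s.E c * s.Y q p) * s.R c p (s.h - z p) * s.R c q (s.h - z q) * s.M z c s.h Y * s.E c := by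
        rw [c1.eq]; simp only [mul_assoc]
    _ = s.E c * (s.Y q p * s.R c p (s.h - z p) * s.R c q (s.h - z q)) * s.M z c s.h Y * s.E c := by
        simp only [mul_assoc]
    _ = s.E c * s.R c q (s.h - z' q) * (s.M z c s.h Y * s.Y q p) * s.E c := by
        rw [cu', c2.eq]; simp only [mul_assoc]
    _ = s.E c * s.R c q (s.h - z' q) * s.M z c s.h Y * (s.E c * s.Y q p) := by
        rw [c1.eq]; simp only [mul_assoc]
    _ = _ := by simp only [mul_assoc]

end col

section resolution

open EXL.Pat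

theorem lam4 : Complex.sin (4 * lam) = 1 := by
  rw [lam, show (4 : ℂ) * (Real.pi / 8) = Real.pi / 2 by ring, Complex.sin_pi_div_two]

theorem s5 : Complex.sin (5 * lam) = Complex.cos lam := by
  rw [show (5 : ℂ) * lam = lam + Real.pi / 2 by rw [lam]; ring, Complex.sin_add_pi_div_two]

theorem s2sq : Complex.sin (2 * lam) ^ 2 = 1 / 2 := by
  have h := Complex.cos_two_mul' (2 * lam)
  have h2 := Complex.cos_sq_add_sin_sq (2 * lam)
  have h3 : Complex.cos (2 * (2 * lam)) = 0 := by
    rw [lam, show 2 * (2 * ((Real.pi : ℂ) / 8)) = Real.pi / 2 by ring, Complex.cos_pi_div_two]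
  rw [h3] at h
  linear_combination (1 / 2) * h + (1 / 2) * h2

theorem s2_ne : Complex.sin (2 * lam) ≠ 0 := by
  intro h
  have := s2sq
  rw [h] at this
  norm_num at this

theorem s5_ne : Complex.sin (5 * lam) ≠ 0 := by
  rw [s5, lam]
  have h : 0 < Real.cos (Real.pi / 8) :=
    Real.cos_pos_of_mem_Ioo ⟨by linarith [Real.pi_pos], by linarith [Real.pi_pos]⟩
  have e : Complex.cos ((Real.pi : ℂ) / 8) = (Real.cos (Real.pi / 8) : ℝ) := by
    push_cast; rfl
  rw [e]
  exact_mod_cast h.ne'

theorem xh_eq : Complex.sin (2 * lam) ^ 2 = xh * Complex.sin (5 * lam) := by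
  have h := s5_ne
  rw [s5, lam] at h
  rw [s2sq, s5, xh, lam]
  field_simp

theorem xh_ne : (xh : ℂ) ≠ 0 := by
  intro h
  have := xh_eq
  rw [h, zero_mul, s2sq] at this
  norm_num at this

theorem D_m2 : Dn (-(2 * lam)) = 0 := by
  rw [Dn, show 2 * lam + -(2 * lam) = (0 : ℂ) by ring, Complex.sin_zero, zero_mul]

theorem W_m2 : Wn (-(2 * lam)) = ⟨-(Complex.sin (2 * lam) * Complex.sin (5 * lam)),
    Complex.sin (2 * lam) * Complex.sin (5 * lam), -Complex.sin (2 * lam) ^ 2, Complex.sin (5 * lam),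
    Complex.sin (2 * lam) * Complex.sin (3 * lam)⟩ := by
  have e1 : Complex.sin (-(2 * lam)) = - Complex.sin (2 * lam) := Complex.sin_neg _
  have e2 : 3 * lam - -(2 * lam) = 5 * lam := by ring
  have e3 : 2 * lam - -(2 * lam) = 4 * lam := by ring
  have e4 : Complex.sin (-(2 * lam) - lam) = - Complex.sin (3 * lam) := by
    rw [← Complex.sin_neg]
    congr 1
    ring
  unfold Wn
  rw [e1, e2, e3, e4, lam4]
  congr 1 <;> ring

variable {ι : Type*} [DecidableEq ι] {a b : ι}

/-- The projection of the states of two lines to the states of one line. -/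
noncomputable def Kop (a b : ι) : Module.End ℂ (EXL.Pat ι → ℂ) :=
  rep0 ℂ id (we b * (we a + (xh⁻¹ : ℂ) • wo a))

theorem Kop_apply (G : EXL.Pat ι → ℂ) (p : EXL.Pat ι) :
    Kop a b G p = if p b = b then (if p a = a then G p else xh⁻¹ * G p) else 0 := by
  unfold Kop
  simp only [map_mul, map_add, map_smul, rep0_e, rep0_o, Module.End.mul_apply, LinearMap.add_apply,
    LinearMap.smul_apply, Pi.add_apply, Pi.smul_apply, smul_eq_mul, EXL.opE_apply, EXL.opO_apply, id]
  by_cases h1 : p b = b <;> by_cases h2 : p a = a <;> simp [h1, h2]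

/-- The second part of the resolution. -/
noncomputable def Lam (a b : ι) (F : EXL.Pat ι → ℂ) : EXL.Pat ι → ℂ := fun p =>
  if p a = a then
    (if p b = b then Complex.sin (3 * lam) / (Complex.sin (5 * lam) * Complex.sin (2 * lam)) *
        F (cup a b p)
      else -(1 / (Complex.sin (2 * lam) * Complex.sin (5 * lam))) * F p)
  else (if p b = b then 0 else 1 / Complex.sin (5 * lam) * F (swap a b p))

theorem Lam_00 {F : EXL.Pat ι → ℂ} {p : EXL.Pat ι} (h1 : p a = a) (h2 : p b = b) :
    Lam a b F p = Complex.sin (3 * lam) / (Complex.sin (5 * lam) * Complex.sin (2 * lam)) *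
        F (cup a b p) := by
  unfold Lam; rw [if_pos h1, if_pos h2]

theorem Lam_01 {F : EXL.Pat ι → ℂ} {p : EXL.Pat ι} (h1 : p a = a) (h2 : p b ≠ b) :
    Lam a b F p = -(1 / (Complex.sin (2 * lam) * Complex.sin (5 * lam))) * F p := by
  unfold Lam; rw [if_pos h1, if_neg h2]

theorem Lam_10 {F : EXL.Pat ι → ℂ} {p : EXL.Pat ι} (h1 : p a ≠ a) (h2 : p b = b) :
    Lam a b F p = 0 := by
  unfold Lam; rw [if_neg h1, if_pos h2]

theorem Lam_11 {F : EXL.Pat ι → ℂ} {p : EXL.Pat ι} (h1 : p a ≠ a) (h2 : p b ≠ b) :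
    Lam a b F p = 1 / Complex.sin (5 * lam) * F (swap a b p) := by
  unfold Lam; rw [if_neg h1, if_neg h2]

theorem swap_cup_self {p : EXL.Pat ι} (h1 : p a = a) (h2 : p b = b) :
    swap a b (cup a b p) = cup a b p := by
  have inv : ∀ x, p (p x) = x := p.inv
  have hc : CuOK a b p := ⟨h1, h2⟩
  ext x
  rw [EXL.swap_apply, EXL.cup_apply hc, EXL.cup_apply hc]
  simp only [Equiv.swap_apply_def]
  grind

/-- **`1 = K Y + N Λ`** -/
theorem resol (hab : a ≠ b) (F : EXL.Pat ι → ℂ) (p : EXL.Pat ι) :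
    F p = Kop a b (uops.Y a b F) p + R6 (Dn (-(2 * lam))) (Wn (-(2 * lam))) a b (Lam a b F) p := by
  have inv : ∀ x, p (p x) = x := p.inv
  have h2 := s2_ne
  have h5 := s5_ne
  have hx := xh_eq
  have hx0 := xh_ne
  rw [Kop_apply, D_m2, W_m2, uops_Y_apply _ hab]
  have sa : swap a b p a = a ↔ p b = b := by
    rw [EXL.swap_apply, Equiv.swap_apply_left, Equiv.swap_apply_eq_iff, Equiv.swap_apply_left]
  have sb : swap a b p b = b ↔ p a = a := by
    rw [EXL.swap_apply, Equiv.swap_apply_right, Equiv.swap_apply_eq_iff, Equiv.swap_apply_right]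
  have ss : swap a b (swap a b p) = p := by
    ext x
    rw [EXL.swap_apply, EXL.swap_apply, Equiv.swap_apply_self, Equiv.swap_apply_self]
  generalize hs2 : Complex.sin (2 * lam) = s2 at *
  generalize hs5 : Complex.sin (5 * lam) = s5 at *
  by_cases ha : p a = a
  · by_cases hb : p b = b
    · have hc : CuOK a b p := ⟨ha, hb⟩
      have c1 : cup a b p a ≠ a := by rw [EXL.cup_apply hc, if_pos rfl]; exact hab.symm
      have c2 : cup a b p b ≠ b := by rw [EXL.cup_apply hc, if_neg hab.symm, if_pos rfl]; exact hab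
      have l1 := Lam_11 (F := F) c1 c2
      rw [swap_cup_self ha hb, hs5] at l1
      simp only [R6, EXL.Y, ha, hb, if_true, l1]
      have e : s2 ^ 2 * (1 / s5) = xh := by
        rw [hx]
        field_simp
      linear_combination (F (cup a b p)) * e
    · have l1 := Lam_01 (F := F) ha hb
      have l2 := Lam_10 (F := F) (p := swap a b p) (fun e => hb (sa.1 e)) (sb.2 ha)
      rw [hs2, hs5] at l1
      simp only [R6, ha, hb, if_true, if_false, l1, l2]
      field_simp
      ring
  · by_cases hb : p b = b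
    · have l1 := Lam_10 (F := F) ha hb
      have l2 := Lam_01 (F := F) (p := swap a b p) (sa.2 hb) (fun e => ha (sb.1 e))
      rw [hs2, hs5] at l2
      simp only [R6, EXL.Y, ha, hb, if_true, if_false, l1, l2]
      field_simp
      ring
    · have l1 := Lam_11 (F := F) ha hb
      have l2 := Lam_11 (F := F) (p := swap a b p) (fun e => hb (sa.1 e)) (fun e => ha (sb.1 e))
      rw [hs5] at l1 l2
      rw [ss] at l2
      by_cases hab' : p a = b
      · have hba : p b = a := by rw [← hab', inv]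
        have e : swap a b p = p := by
          ext x
          rw [EXL.swap_apply]
          simp only [Equiv.swap_apply_def]
          grind
        rw [e] at l1
        simp only [R6, hb, hab', if_true, if_false, l1]
        rw [if_neg hab.symm]
        field_simp
        ring
      · have hct : CtOK a b p := ⟨hab, ha, hb, hab'⟩
        have d1 : cut a b p a = a := by rw [EXL.cut_apply hct, if_pos rfl]
        have d2 : cut a b p b = b := by rw [EXL.cut_apply hct, if_neg hab.symm, if_pos rfl]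
        have hc : CuOK a b (cut a b p) := ⟨d1, d2⟩
        have c1 : cup a b (cut a b p) a ≠ a := by
          rw [EXL.cup_apply hc, if_pos rfl]; exact hab.symm
        have c2 : cup a b (cut a b p) b ≠ b := by
          rw [EXL.cup_apply hc, if_neg hab.symm, if_pos rfl]; exact hab
        have l3 := Lam_11 (F := F) c1 c2
        have l4 := Lam_00 (F := F) d1 d2
        rw [swap_cup_self d1 d2, hs5] at l3
        rw [hs5, hs2] at l4
        simp only [R6, ha, hb, hab', if_false, l2, l3, l4]
        field_simp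
        ring

end resolution

section pres

open EXL.HS EXL.Pat

variable {ι : Type*} [DecidableEq ι] {p q : ι} {Y : List ι}

theorem ax_tail {p : ι} {Y : List ι} {P : EXL.Pat ι} (h : AX (p :: Y) P) (hp : P p = p) : AX Y P :=
  ax_remove (L1 := []) (L2 := Y) h hp

theorem ax_cons {p : ι} {Y : List ι} {P : EXL.Pat ι} (hp : p ∉ Y) (h : AX Y P) : AX (p :: Y) P :=
  ax_insert (L1 := []) (L2 := Y) hp h

theorem ax_cut (hn : (p :: q :: Y).Nodup) {P : EXL.Pat ι} (h : AX (p :: q :: Y) P) :
    AX (p :: q :: Y) (cut p q P) :=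
  PD.cut (ax_injOn _) (by simp) (by simp) h ((adj_next [] Y p q hn).clr h)

theorem ax_swap (hn : (p :: q :: Y).Nodup) {P : EXL.Pat ι} (h : AX (p :: q :: Y) P)
    (he : P p = p ∨ P q = q) : AX (p :: q :: Y) (swap p q P) :=
  PD.swap (ax_injOn _) (by simp) (by simp) h he ((adj_next [] Y p q hn).clr h)

theorem pres_glue (hn : (p :: q :: Y).Nodup) :
    Pres (K := ℂ) (AX (p :: q :: Y)) (AX Y) (fun F => uops.glue p q F) := by
  intro F G h P hP
  have hpq : p ≠ q := fun e => (List.nodup_cons.1 hn).1 (by simp [e])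
  show uops.glue p q F P = uops.glue p q G P
  rw [uops_glue_apply hpq, uops_glue_apply hpq]
  unfold EXL.glue
  split_ifs with h1 h2 h3 h4
  · exact h _ (ax_tail (ax_tail hP h1) h2)
  · rfl
  · rfl
  · rfl
  · have hct : CtOK p q P := ⟨hpq, h1, h3, h4⟩
    refine h _ (ax_tail (ax_tail (ax_cut hn hP) ?_) ?_)
    · rw [EXL.cut_apply hct, if_pos rfl]
    · rw [EXL.cut_apply hct, if_neg hpq.symm, if_pos rfl]

theorem pres_Yt (hn : (p :: q :: Y).Nodup) :
    Pres (K := ℂ) (AX (p :: q :: Y)) (AX (q :: Y)) (fun F => uops.Yt q p F) := by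
  intro F G h P hP
  have hpq : p ≠ q := fun e => (List.nodup_cons.1 hn).1 (by simp [e])
  show uops.Yt q p F P = uops.Yt q p G P
  rw [uops_Yt_apply _ hpq.symm, uops_Yt_apply _ hpq.symm]
  unfold EXL.Yt
  split_ifs with h1 h2 h3 h4
  · exact h _ (ax_tail hP h1)
  · rw [h _ (ax_tail hP h1)]
  · rw [h]
    rw [swap_comm]
    refine ax_tail (ax_swap hn hP (Or.inr h3)) ?_
    rw [EXL.swap_apply, Equiv.swap_apply_left, h3, Equiv.swap_apply_right]
  · rfl
  · rw [h]
    rw [cut_comm]
    have hct : CtOK p q P := ⟨hpq, h1, h3, fun e => h4 (by rw [← e, P.inv])⟩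
    refine ax_tail (ax_cut hn hP) ?_
    rw [EXL.cut_apply hct, if_pos rfl]

theorem pres_Kop : Pres (K := ℂ) (AX (p :: q :: Y)) (AX (q :: Y)) (fun F => Kop q p F) := by
  intro F G h P hP
  simp only [Kop_apply]
  split_ifs with h1 h2
  · exact h _ (ax_tail hP h1)
  · rw [h _ (ax_tail hP h1)]
  · rfl

theorem glue_ind (hpq : p ≠ q) :
    uops.glue p q (ind (empty : EXL.Pat ι) : EXL.Pat ι → ℂ) = ind empty := by
  rw [uops_glue_apply hpq]
  funext P
  unfold EXL.glue
  by_cases h1 : P p = p
  · by_cases h2 : P q = q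
    · rw [if_pos h1, if_pos h2]
    · rw [if_pos h1, if_neg h2, ind_ne]
      rintro rfl
      exact h2 rfl
  · have e1 : (ind (empty : EXL.Pat ι) : EXL.Pat ι → ℂ) P = 0 := by
      apply ind_ne
      rintro rfl
      exact h1 rfl
    rw [if_neg h1, e1]
    split_ifs with h2 h3
    · rfl
    · rfl
    · apply ind_ne
      intro e
      have hct : CtOK p q P := ⟨hpq, h1, h2, h3⟩
      have h5 : cut p q P (P p) = P p := by rw [e]; rfl
      rw [EXL.cut_apply hct, if_neg h1, if_neg h3, if_pos rfl] at h5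
      have inv : ∀ x, P (P x) = x := P.inv
      exact hpq (by rw [← inv p, ← h5, inv])

theorem Yt_ind (hpq : p ≠ q) :
    uops.Yt q p (ind (empty : EXL.Pat ι) : EXL.Pat ι → ℂ) = ind empty := by
  rw [uops_Yt_apply _ hpq.symm]
  funext P
  unfold EXL.Yt
  by_cases h1 : P p = p
  · by_cases h2 : P q = q
    · rw [if_pos h1, if_pos h2]
    · rw [if_pos h1, if_neg h2, ind_ne, mul_zero]
      rintro rfl
      exact h2 rfl
  · have e1 : (ind (empty : EXL.Pat ι) : EXL.Pat ι → ℂ) P = 0 := by
      apply ind_ne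
      rintro rfl
      exact h1 rfl
    rw [if_neg h1, e1]
    split_ifs with h2 h3
    · rw [ind_ne, mul_zero]
      intro e
      have h5 : swap q p P q = q := by rw [e]; rfl
      rw [EXL.swap_apply, Equiv.swap_apply_left, Equiv.swap_apply_eq_iff, Equiv.swap_apply_left] at h5
      exact h1 h5
    · rfl
    · rw [ind_ne, mul_zero]
      intro e
      have hct : CtOK q p P := ⟨hpq.symm, h2, h1, h3⟩
      have h5 : cut q p P (P q) = P q := by rw [e]; rfl
      rw [EXL.cut_apply hct, if_neg h2, if_neg h3, if_pos rfl] at h5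
      have inv : ∀ x, P (P x) = x := P.inv
      exact hpq (by rw [← inv p, h5, inv])

theorem Kop_ind : Kop q p (ind (empty : EXL.Pat ι) : EXL.Pat ι → ℂ) = ind empty := by
  funext P
  rw [Kop_apply]
  by_cases h : P = empty
  · rw [h]
    have e1 : (empty : EXL.Pat ι) p = p := rfl
    have e2 : (empty : EXL.Pat ι) q = q := rfl
    rw [if_pos e1, if_pos e2]
  · have e : (ind (empty : EXL.Pat ι) : EXL.Pat ι → ℂ) P = 0 := ind_ne h
    rw [e, mul_zero]
    simp

/-- A functional on two lines that vanishes on the image of `N` comes from one line. -/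
theorem split_Y (hqp : q ≠ p) {V : Fnl ι}
    (hN : ∀ G : EXL.Pat ι → ℂ, V (R6 (Dn (-(2 * lam))) (Wn (-(2 * lam))) q p G) = 0) :
    V = (V ∘ₗ Kop q p) ∘ₗ uops.Y q p := by
  refine LinearMap.ext fun F => ?_
  rw [LinearMap.comp_apply, LinearMap.comp_apply]
  have e : F = Kop q p (uops.Y q p F) + R6 (Dn (-(2 * lam))) (Wn (-(2 * lam))) q p (Lam q p F) :=
    funext fun P => resol hqp F P
  conv_lhs => rw [e]
  rw [map_add, hN, add_zero]

theorem Y_Yt_apply (hqp : q ≠ p) (F : EXL.Pat ι → ℂ) (P : EXL.Pat ι) :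
    uops.Y q p (uops.Yt q p F) P =
      if P p = p then (if P q = q then F P else 2 * xh ^ 2 * F P) else 0 := by
  have inv : ∀ x, P (P x) = x := P.inv
  rw [uops_Y_apply _ hqp, uops_Yt_apply _ hqp]
  by_cases hp : P p = p
  · by_cases hq : P q = q
    · have hc : CuOK q p P := ⟨hq, hp⟩
      have c1 : cup q p P q = p := by rw [EXL.cup_apply hc, if_pos rfl]
      have c2 : cup q p P p = q := by rw [EXL.cup_apply hc, if_neg hqp.symm, if_pos rfl]
      have e1 : EXL.Yt xh q p F (cup q p P) = 0 := by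
        unfold EXL.Yt
        rw [if_neg (by rw [c2]; exact hqp), if_neg (by rw [c1]; exact hqp.symm), if_pos c1]
      have e2 : EXL.Yt xh q p F P = F P := by
        unfold EXL.Yt
        rw [if_pos hp, if_pos hq]
      unfold EXL.Y
      rw [if_pos hp, if_pos hq, if_pos hp, if_pos hq, e1, e2, mul_zero, add_zero]
    · have s1 : swap q p P q = q := by
        rw [EXL.swap_apply, Equiv.swap_apply_left, hp, Equiv.swap_apply_right]
      have s2 : swap q p P p ≠ p := by
        rw [EXL.swap_apply, Equiv.swap_apply_right]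
        intro e
        rw [Equiv.swap_apply_eq_iff, Equiv.swap_apply_right] at e
        exact hq e
      have ss : swap q p (swap q p P) = P := by
        ext x
        rw [EXL.swap_apply, EXL.swap_apply, Equiv.swap_apply_self, Equiv.swap_apply_self]
      have e1 : EXL.Yt xh q p F (swap q p P) = xh * F P := by
        unfold EXL.Yt
        rw [if_neg s2, if_pos s1, ss]
      have e2 : EXL.Yt xh q p F P = xh * F P := by
        unfold EXL.Yt
        rw [if_pos hp, if_neg hq]
      unfold EXL.Y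
      rw [if_pos hp, if_neg hq, if_pos hp, if_neg hq, e1, e2]
      ring
  · unfold EXL.Y
    rw [if_neg hp, if_neg hp]

/-- A functional on one line is determined by its composition with the splitting vertex. -/
theorem inj_Y (hqp : q ≠ p) {W : Fnl ι} (hE : W ∘ₗ uops.E p = W) (h : W ∘ₗ uops.Y q p = 0) :
    W = 0 := by
  refine LinearMap.ext fun F => ?_
  set G : EXL.Pat ι → ℂ := fun P => if P q = q then F P else (2 * xh ^ 2)⁻¹ * F P with hG
  have hx : (2 * xh ^ 2 : ℂ) ≠ 0 := mul_ne_zero two_ne_zero (pow_ne_zero 2 xh_ne)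
  have e : uops.Y q p (uops.Yt q p G) = uops.E p F := by
    funext P
    rw [Y_Yt_apply hqp, uops_E_apply]
    show _ = if P p = p then F P else 0
    by_cases hp : P p = p
    · rw [if_pos hp, if_pos hp, hG]
      by_cases hq : P q = q
      · simp only [hq, if_true]
      · simp only [hq, if_false]
        rw [← mul_assoc, mul_inv_cancel₀ hx, one_mul]
    · rw [if_neg hp, if_neg hp]
  have h1 := LinearMap.congr_fun hE F
  rw [LinearMap.comp_apply, ← e] at h1
  rw [← h1]
  exact LinearMap.congr_fun h (uops.Yt q p G)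

end pres

end Pool.Agent.NUF
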