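import Pool.Agent.NUF.PTens

/-!
# Gluing of two half planes

Local identities for the gluing of the lines `a`, `b` with their copies `a'`, `b'`.
-/

set_option autoImplicit false

namespace Pool.Agent.NUF

section unl

variable {β K : Type*} [DecidableEq β] [CommRing K]

open EXL EXL.Pat

/-- A U-turn glued to the line `k`: the line `k` gets the name `i`. -/
theorem unl_UG {i j k : β} (hij : i ≠ j) (hik : i ≠ k) (hjk : j ≠ k) (F : EXL.Pat β → K)
    (p : EXL.Pat β) : EXL.U i j (EXL.glue j k F) p =
      if p i = i then (if p j = j then F (EXL.Pat.swap i k p) else 0) else 0 := by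
  have inv : ∀ x, p (p x) = x := p.inv
  by_cases h1 : p i = i
  · by_cases h2 : p j = j
    · rw [if_pos h1, if_pos h2, EXL.U_0 h1 h2 rfl]
      have hc : EXL.Pat.CuOK i j p := ⟨h1, h2⟩
      have e1 : EXL.Pat.cup i j p j = i := by
        rw [EXL.cup_apply hc, if_neg hij.symm, if_pos rfl]
      have e2 : EXL.Pat.cup i j p k = p k := by
        rw [EXL.cup_apply hc, if_neg hik.symm, if_neg hjk.symm]
      by_cases h3 : p k = k
      · rw [EXL.glue_0 h2 h3, EXL.glue_z2 (by rw [e1]; exact hij) (by rw [e2, h3]), add_zero]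
        congr 1
        ext x
        rw [EXL.swap_apply]
        simp only [Equiv.swap_apply_def]
        grind
      · rw [EXL.glue_z1 h2 h3, zero_add, EXL.glue_1 (by rw [e1]; exact hij) (by rw [e2]; exact h3)
          (by rw [e1]; exact hik) rfl]
        congr 1
        have hct : EXL.Pat.CtOK j k (EXL.Pat.cup i j p) :=
          ⟨hjk, by rw [e1]; exact hij, by rw [e2]; exact h3, by rw [e1]; exact hik⟩
        ext x
        rw [EXL.cut_apply hct, e1, e2, EXL.cup_apply hc, EXL.swap_apply]
        simp only [Equiv.swap_apply_def]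
        grind
    · rw [EXL.U_z (Or.inr h2), if_pos h1, if_neg h2]
  · rw [EXL.U_z (Or.inl h1), if_neg h1]

/-- The splitting vertex glued to two lines = the merging vertex of the two lines. -/
theorem unl_YG {a b a' b' : β} (x : K) (h1 : a ≠ b) (h2 : a ≠ a') (h3 : a ≠ b') (h4 : b ≠ a')
    (h5 : b ≠ b') (h6 : a' ≠ b') (F : EXL.Pat β → K) (p : EXL.Pat β) :
    EXL.Y x a b (EXL.glue a a' (EXL.glue b b' F)) p =
      if p b = b then EXL.Yt x a' b' (EXL.glue a a' F) p else 0 := by
  have inv : ∀ x, p (p x) = x := p.inv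
  by_cases hb : p b = b
  swap
  · rw [EXL.Y_z hb, if_neg hb]
  rw [if_pos hb]
  by_cases ha : p a = a
  · -- the line a is empty
    rw [EXL.Y_0 hb ha rfl]
    have hc : EXL.Pat.CuOK a b p := ⟨ha, hb⟩
    have c1 : EXL.Pat.cup a b p a = b := by rw [EXL.cup_apply hc, if_pos rfl]
    have c2 : EXL.Pat.cup a b p b = a := by rw [EXL.cup_apply hc, if_neg h1.symm, if_pos rfl]
    have c3 : EXL.Pat.cup a b p a' = p a' := by
      rw [EXL.cup_apply hc, if_neg h2.symm, if_neg h4.symm]
    have c4 : EXL.Pat.cup a b p b' = p b' := by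
      rw [EXL.cup_apply hc, if_neg h3.symm, if_neg h5.symm]
    by_cases ha' : p a' = a'
    · have gz : EXL.glue a a' (EXL.glue b b' F) (EXL.Pat.cup a b p) = 0 :=
        EXL.glue_z2 (by rw [c1]; exact h1.symm) (by rw [c3, ha'])
      rw [gz, EXL.glue_0 ha ha', mul_zero, add_zero]
      by_cases hb' : p b' = b'
      · rw [EXL.glue_0 hb hb', EXL.Yt_0 hb' ha', EXL.glue_0 ha ha']
      · rw [EXL.glue_z1 hb hb', EXL.Yt_2 hb' ha' rfl]
        have s1 : EXL.Pat.swap a' b' p a = a := by
          rw [EXL.swap_apply, Equiv.swap_apply_of_ne_of_ne h2 h3, ha,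
            Equiv.swap_apply_of_ne_of_ne h2 h3]
        have s2 : EXL.Pat.swap a' b' p a' ≠ a' := by
          rw [EXL.swap_apply, Equiv.swap_apply_left]
          intro e
          rw [Equiv.swap_apply_eq_iff, Equiv.swap_apply_left] at e
          exact hb' e
        rw [EXL.glue_z1 s1 s2, mul_zero]
    · rw [EXL.glue_z1 ha ha', zero_add]
      have g1 : EXL.glue a a' (EXL.glue b b' F) (EXL.Pat.cup a b p) =
          EXL.glue b b' F (EXL.Pat.cut a a' (EXL.Pat.cup a b p)) :=
        EXL.glue_1 (by rw [c1]; exact h1.symm) (by rw [c3]; exact ha') (by rw [c1]; exact h4) rfl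
      have hct : EXL.Pat.CtOK a a' (EXL.Pat.cup a b p) :=
        ⟨h2, by rw [c1]; exact h1.symm, by rw [c3]; exact ha', by rw [c1]; exact h4⟩
      have c5 : EXL.Pat.cut a a' (EXL.Pat.cup a b p) b = p a' := by
        rw [EXL.cut_apply hct, c1, c3]
        grind
      have c6 : p b' ≠ a' → EXL.Pat.cut a a' (EXL.Pat.cup a b p) b' = p b' := by
        intro hh
        rw [EXL.cut_apply hct, c1, c3, c4]
        grind
      have c7 : p b' = a' → EXL.Pat.cut a a' (EXL.Pat.cup a b p) b' = b := by
        intro hh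
        rw [EXL.cut_apply hct, c1, c3, c4]
        grind
      rw [g1]
      by_cases hb' : p b' = b'
      · have hn : p b' ≠ a' := by rw [hb']; exact h6.symm
        rw [EXL.Yt_1 hb' ha', EXL.glue_z1 ha ha', mul_zero,
          EXL.glue_z2 (by rw [c5]; grind) (by rw [c6 hn, hb']), mul_zero]
      · by_cases hab : p a' = b'
        · have hba : p b' = a' := by rw [← hab, inv]
          rw [EXL.Yt_z h6 hab, EXL.glue_z3 h5 (by rw [c5, hab]), mul_zero]
        · have hn : p b' ≠ a' := fun e => hab (by rw [← e, inv])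
          rw [EXL.glue_1 (by rw [c5]; grind) (by rw [c6 hn]; exact hb') (by rw [c5]; exact hab) rfl,
            EXL.Yt_3 ha' hb' hab rfl]
          have hct2 : EXL.Pat.CtOK a' b' p := ⟨h6, ha', hb', hab⟩
          have d1 : EXL.Pat.cut a' b' p a = a := by
            rw [EXL.cut_apply hct2]
            grind
          have d2 : EXL.Pat.cut a' b' p a' = a' := by
            rw [EXL.cut_apply hct2, if_pos rfl]
          rw [EXL.glue_0 d1 d2]
          congr 2
          have hct3 : EXL.Pat.CtOK b b' (EXL.Pat.cut a a' (EXL.Pat.cup a b p)) :=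
            ⟨h5, by rw [c5]; grind, by rw [c6 hn]; exact hb', by rw [c5]; exact hab⟩
          ext y
          rw [EXL.cut_apply hct3, c5, c6 hn, EXL.cut_apply hct, c1, c3, EXL.cup_apply hc,
            EXL.cut_apply hct2]
          grind
  · -- the line a is occupied
    rw [EXL.Y_1 hb ha rfl]
    have s1 : EXL.Pat.swap a b p a = a := by
      rw [EXL.swap_apply, Equiv.swap_apply_left, hb, Equiv.swap_apply_right]
    have s2 : EXL.Pat.swap a b p b = Equiv.swap a b (p a) := by
      rw [EXL.swap_apply, Equiv.swap_apply_right]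
    have s3 : EXL.Pat.swap a b p a' = Equiv.swap a b (p a') := by
      rw [EXL.swap_apply, Equiv.swap_apply_of_ne_of_ne h2.symm h4.symm]
    have s4 : EXL.Pat.swap a b p b' = Equiv.swap a b (p b') := by
      rw [EXL.swap_apply, Equiv.swap_apply_of_ne_of_ne h3.symm h5.symm]
    have s3' : EXL.Pat.swap a b p a' = a' ↔ p a' = a' := by
      rw [s3, Equiv.swap_apply_eq_iff, Equiv.swap_apply_of_ne_of_ne h2.symm h4.symm]
    have s4' : EXL.Pat.swap a b p b' = b' ↔ p b' = b' := by
      rw [s4, Equiv.swap_apply_eq_iff, Equiv.swap_apply_of_ne_of_ne h3.symm h5.symm]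
    have s2' : EXL.Pat.swap a b p b ≠ b := by
      rw [s2]
      intro e
      rw [Equiv.swap_apply_eq_iff, Equiv.swap_apply_right] at e
      exact ha e
    have s5 : EXL.Pat.swap a b p b = b' ↔ p a = b' := by
      rw [s2, Equiv.swap_apply_eq_iff, Equiv.swap_apply_of_ne_of_ne h3.symm h5.symm]
    by_cases ha' : p a' = a'
    · -- a' empty
      rw [EXL.glue_z2 ha ha', mul_zero, zero_add, EXL.glue_0 s1 (s3'.2 ha')]
      by_cases hb' : p b' = b'
      · rw [EXL.glue_z2 s2' (s4'.2 hb'), mul_zero, EXL.Yt_0 hb' ha', EXL.glue_z2 ha ha']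
      · rw [EXL.Yt_2 hb' ha' rfl]
        have t1 : EXL.Pat.swap a' b' p a = Equiv.swap a' b' (p a) := by
          rw [EXL.swap_apply, Equiv.swap_apply_of_ne_of_ne h2 h3]
        have t1' : EXL.Pat.swap a' b' p a ≠ a := by
          rw [t1]
          intro e
          rw [Equiv.swap_apply_eq_iff, Equiv.swap_apply_of_ne_of_ne h2 h3] at e
          exact ha e
        have t2 : EXL.Pat.swap a' b' p a' ≠ a' := by
          rw [EXL.swap_apply, Equiv.swap_apply_left]
          intro e
          rw [Equiv.swap_apply_eq_iff, Equiv.swap_apply_left] at e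
          exact hb' e
        have t3 : EXL.Pat.swap a' b' p a = a' ↔ p a = b' := by
          rw [t1, Equiv.swap_apply_eq_iff, Equiv.swap_apply_left]
        by_cases hab : p a = b'
        · rw [EXL.glue_z3 h2 (t3.2 hab), EXL.glue_z3 h5 (s5.2 hab)]
        · rw [EXL.glue_1 s2' (fun e => hb' (s4'.1 e)) (fun e => hab (s5.1 e)) rfl,
            EXL.glue_1 t1' t2 (fun e => hab (t3.1 e)) rfl]
          congr 2
          have k1 : EXL.Pat.CtOK b b' (EXL.Pat.swap a b p) :=
            ⟨h5, s2', fun e => hb' (s4'.1 e), fun e => hab (s5.1 e)⟩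
          have k2 : EXL.Pat.CtOK a a' (EXL.Pat.swap a' b' p) :=
            ⟨h2, t1', t2, fun e => hab (t3.1 e)⟩
          have w1 : p a ≠ a' := fun e => h2 (by rw [← inv a, e, ha'])
          have w2 : p a ≠ b := fun e => h1 (by rw [← inv a, e, hb])
          have w3 : p b' ≠ a := fun e => hab (by rw [← e, inv])
          have w4 : p b' ≠ b := fun e => h5 (by rw [← hb, ← e, inv])
          have w5 : p b' ≠ a' := fun e => h6 (by rw [← ha', ← e, inv])
          have v1 : EXL.Pat.swap a b p b = p a := by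
            rw [s2, Equiv.swap_apply_of_ne_of_ne ha w2]
          have v2 : EXL.Pat.swap a b p b' = p b' := by
            rw [s4, Equiv.swap_apply_of_ne_of_ne w3 w4]
          have v3 : EXL.Pat.swap a' b' p a = p a := by
            rw [t1, Equiv.swap_apply_of_ne_of_ne w1 hab]
          have v4 : EXL.Pat.swap a' b' p a' = p b' := by
            rw [EXL.swap_apply, Equiv.swap_apply_left, Equiv.swap_apply_of_ne_of_ne w5 hb']
          have z : ∀ y, y ≠ a → y ≠ b → y ≠ a' → y ≠ b' → y ≠ p a → y ≠ p b' →
              EXL.Pat.swap a b p y = EXL.Pat.swap a' b' p y := by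
            intro y y1 y2 y3 y4 y5 y6
            rw [EXL.swap_apply, EXL.swap_apply, Equiv.swap_apply_of_ne_of_ne y1 y2,
              Equiv.swap_apply_of_ne_of_ne y3 y4]
            rw [Equiv.swap_apply_of_ne_of_ne, Equiv.swap_apply_of_ne_of_ne]
            · exact fun e => y3 (by rw [← inv y, e, ha'])
            · exact fun e => y6 (by rw [← e, inv])
            · exact fun e => y5 (by rw [← e, inv])
            · exact fun e => y2 (by rw [← inv y, e, hb])
          ext y
          rw [EXL.cut_apply k1, EXL.cut_apply k2, v1, v2, v3, v4]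
          by_cases y1 : y = a
          · subst y1
            rw [if_neg h1, if_neg h3, if_neg (fun e => ha e.symm), if_neg (fun e => w3 e.symm), s1,
              if_pos rfl]
          by_cases y2 : y = b
          · subst y2
            rw [if_pos rfl, if_neg y1, if_neg h4, if_neg (fun e => w2 e.symm),
              if_neg (fun e => w4 e.symm), EXL.swap_apply, Equiv.swap_apply_of_ne_of_ne h4 h5, hb,
              Equiv.swap_apply_of_ne_of_ne h4 h5]
          by_cases y3 : y = a'
          · subst y3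
            rw [if_neg y2, if_neg h6, if_neg (fun e => w1 e.symm), if_neg (fun e => w5 e.symm),
              if_neg y1, if_pos rfl, s3'.2 ha']
          by_cases y4 : y = b'
          · subst y4
            rw [if_neg y2, if_pos rfl, if_neg y1, if_neg y3, if_neg (fun e => hab e.symm),
              if_neg (fun e => hb' e.symm), EXL.swap_apply, Equiv.swap_apply_right, ha',
              Equiv.swap_apply_left]
          rw [if_neg y2, if_neg y4, if_neg y1, if_neg y3]
          by_cases y5 : y = p a
          · rw [if_pos y5, if_pos y5]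
          by_cases y6 : y = p b'
          · rw [if_neg y5, if_neg y5, if_pos y6, if_pos y6]
          rw [if_neg y5, if_neg y5, if_neg y6, if_neg y6, z y y1 y2 y3 y4 y5 y6]
    · -- a' occupied
      rw [EXL.glue_z1 s1 (fun e => ha' (s3'.1 e)), mul_zero, add_zero]
      by_cases hb' : p b' = b'
      · rw [EXL.Yt_1 hb' ha']
        by_cases haa : p a = a'
        · rw [EXL.glue_z3 h2 haa, EXL.glue_z3 h2 haa]
        · rw [EXL.glue_1 ha ha' haa rfl, EXL.glue_1 ha ha' haa rfl]
          have k1 : EXL.Pat.CtOK a a' p := ⟨h2, ha, ha', haa⟩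
          have d1 : EXL.Pat.cut a a' p b = b := by
            rw [EXL.cut_apply k1]
            grind
          have d2 : EXL.Pat.cut a a' p b' = b' := by
            rw [EXL.cut_apply k1]
            grind
          rw [EXL.glue_0 d1 d2]
      · -- both occupied
        have lhs : EXL.glue a a' (EXL.glue b b' F) p = 0 := by
          by_cases haa : p a = a'
          · exact EXL.glue_z3 h2 haa
          · rw [EXL.glue_1 ha ha' haa rfl]
            have k1 : EXL.Pat.CtOK a a' p := ⟨h2, ha, ha', haa⟩
            apply EXL.glue_z1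
            · rw [EXL.cut_apply k1]
              grind
            · rw [EXL.cut_apply k1]
              grind
        rw [lhs, mul_zero]
        by_cases hab : p a' = b'
        · rw [EXL.Yt_z h6 hab]
        · rw [EXL.Yt_3 ha' hb' hab rfl]
          have hct2 : EXL.Pat.CtOK a' b' p := ⟨h6, ha', hb', hab⟩
          rw [EXL.glue_z2, mul_zero]
          · rw [EXL.cut_apply hct2]
            grind
          · rw [EXL.cut_apply hct2, if_pos rfl]

end unl

section lab

variable {Γ ι : Type*} [AddCommGroup Γ] [DecidableEq ι] [Finite ι] {ν : Γ → ℂ}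
  (hν : ∀ g, ν (-g) = ν g) (h0 : ν 0 = 0)

include hν h0

/-- A U-turn glued to a line. -/
theorem UG {i j k : ι} (hij : i ≠ j) (hik : i ≠ k) (hjk : j ≠ k) :
    (cops ν).U i j * (cops ν).glue j k = (cops ν).E i * (cops ν).E j * (cops ν).P i k := by
  show repL ν id (if i = j then 0 else wU i j) * repL ν id (if j = k then 0 else wglue j k) =
    repL ν id (we i) * repL ν id (we j) * repL ν id (wsw i k)
  rw [if_neg hij, if_neg hjk, ← map_mul, ← map_mul, ← map_mul]
  refine transfer hν h0 ?_
  refine LinearMap.ext fun F => ?_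
  funext p
  have i1 : (Sum.inl i : ι ⊕ ι) ≠ Sum.inl j := by simpa using hij
  have i2 : (Sum.inl i : ι ⊕ ι) ≠ Sum.inl k := by simpa using hik
  have i3 : (Sum.inl j : ι ⊕ ι) ≠ Sum.inl k := by simpa using hjk
  rw [map_mul, Module.End.mul_apply, rep0_U, rep0_glue _ i3, unl_UG i1 i2 i3, map_mul, map_mul,
    Module.End.mul_apply, Module.End.mul_apply, rep0_e, rep0_e, rep0_sw]
  simp only [EXL.opE_apply, EXL.opSw_apply]

/-- The splitting vertex glued to two lines. -/
theorem YG {a b a' b' : ι} (h1 : a ≠ b) (h2 : a ≠ a') (h3 : a ≠ b') (h4 : b ≠ a')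
    (h5 : b ≠ b') (h6 : a' ≠ b') :
    (cops ν).Y a b * ((cops ν).glue a a' * (cops ν).glue b b') =
      (cops ν).E b * ((cops ν).Yt a' b' * (cops ν).glue a a') := by
  show repL ν id (if a = b then 0 else wY EXL.xh a b) * (repL ν id (if a = a' then 0 else wglue a a') *
    repL ν id (if b = b' then 0 else wglue b b')) =
    repL ν id (we b) * (repL ν id (if a' = b' then 0 else wYt EXL.xh a' b') *
      repL ν id (if a = a' then 0 else wglue a a'))
  rw [if_neg h1, if_neg h2, if_neg h5, if_neg h6, ← map_mul, ← map_mul, ← map_mul, ← map_mul]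
  refine transfer hν h0 ?_
  refine LinearMap.ext fun F => ?_
  funext p
  have i1 : (Sum.inl a : ι ⊕ ι) ≠ Sum.inl b := by simpa using h1
  have i2 : (Sum.inl a : ι ⊕ ι) ≠ Sum.inl a' := by simpa using h2
  have i3 : (Sum.inl a : ι ⊕ ι) ≠ Sum.inl b' := by simpa using h3
  have i4 : (Sum.inl b : ι ⊕ ι) ≠ Sum.inl a' := by simpa using h4
  have i5 : (Sum.inl b : ι ⊕ ι) ≠ Sum.inl b' := by simpa using h5
  have i6 : (Sum.inl a' : ι ⊕ ι) ≠ Sum.inl b' := by simpa using h6
  rw [map_mul, map_mul, Module.End.mul_apply, Module.End.mul_apply, rep0_Y, rep0_glue _ i2,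
    rep0_glue _ i5, unl_YG _ i1 i2 i3 i4 i5 i6, map_mul, map_mul, Module.End.mul_apply,
    Module.End.mul_apply, rep0_e,
    rep0_Yt (Sum.inl : ι → ι ⊕ ι) EXL.xh (a := a') (b := b') i6, rep0_glue _ i2]
  simp only [EXL.opE_apply]

/-- The rhombus on two lines glued to their copies. -/
theorem RG {j k j' k' : ι} {w : ℂ} (h1 : j ≠ k) (h2 : j ≠ j') (h3 : j ≠ k') (h4 : k ≠ j')
    (h5 : k ≠ k') (h6 : j' ≠ k') (a1 : EXL.okR w) (a2 : EXL.okR (-w))
    (a3 : EXL.okR ((cops (ι := ι) ν).h + (cops (ι := ι) ν).h - w))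
    (a4 : EXL.okR (w - ((cops (ι := ι) ν).h + (cops (ι := ι) ν).h))) :
    (cops ν).R j k w * ((cops ν).glue j j' * (cops ν).glue k k') =
      (cops ν).R j' k' w * ((cops ν).glue j j' * (cops ν).glue k k') := by
  have L := laws (ι := ι) hν h0
  set S := cops (ι := ι) ν with hS
  -- a line that passes a U-turn
  have key : ∀ {i j r : ι} {u : ℂ}, i ≠ j → i ≠ r → j ≠ r → EXL.okR u → EXL.okR (-u) →
      EXL.okR (S.h + S.h + u) → S.R i r (S.h + S.h + u) * S.glue i j = S.R j r (-u) * S.glue i j := by
    intro i j r u e1 e2 e3 b1 b2 b3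
    have c := L.CU e1 e2 e3 b1 b3
    have d := L.L1 e3 b2 (by rw [neg_neg]; exact b1)
    rw [neg_neg] at d
    calc S.R i r (S.h + S.h + u) * S.glue i j
        = (S.R j r (-u) * S.R j r u) * (S.R i r (S.h + S.h + u) * S.glue i j) := by
          rw [d, one_mul]
      _ = S.R j r (-u) * (S.R j r u * S.R i r (S.h + S.h + u) * S.glue i j) := by
          simp only [mul_assoc]
      _ = _ := by rw [c]
  have k1 : S.R k j w * S.glue k k' = S.R k' j (S.h + S.h - w) * S.glue k k' := by
    have := key (i := k) (j := k') (r := j) (u := w - (S.h + S.h)) h5 h1.symm h3.symm a4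
      (by rw [neg_sub]; exact a3) (by rw [add_sub_cancel]; exact a1)
    rwa [add_sub_cancel, neg_sub] at this
  have k2 : S.R j k' (S.h + S.h - w) * S.glue j j' = S.R j' k' w * S.glue j j' := by
    have := key (i := j) (j := j') (r := k') (u := -w) h2 h3 h6 a2
      (by rw [neg_neg]; exact a1) (by rw [← sub_eq_add_neg]; exact a3)
    rwa [neg_neg, ← sub_eq_add_neg] at this
  have cg : Commute (S.glue j j') (S.glue k k') := by
    show Commute (repL ν id (if j = j' then 0 else wglue j j'))
      (repL ν id (if k = k' then 0 else wglue k k'))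
    rw [if_neg h2, if_neg h5]
    have e1 : Commute (lE Γ ℂ j) (lE Γ ℂ k) := comm_E_E _ _
    have e2 : Commute (lE Γ ℂ j) (lE Γ ℂ k') := comm_E_E _ _
    have e3 : Commute (lE Γ ℂ j') (lE Γ ℂ k) := comm_E_E _ _
    have e4 : Commute (lE Γ ℂ j') (lE Γ ℂ k') := comm_E_E _ _
    have e5 : Commute (lE Γ ℂ j) (lCt ν k k') := comm_E_Ct h1 h3
    have e6 : Commute (lE Γ ℂ j') (lCt ν k k') := comm_E_Ct h4.symm h6
    have e7 : Commute (lE Γ ℂ k) (lCt ν j j') := comm_E_Ct h1.symm h4
    have e8 : Commute (lE Γ ℂ k') (lCt ν j j') := comm_E_Ct h3.symm h6.symm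
    have e9 : Commute (lCt ν j j') (lCt ν k k') := comm_Ct_Ct hν h1.symm h4 h3.symm h6.symm
    have r1 : repL ν id (wglue (K := ℂ) j j') = lE Γ ℂ j * lE Γ ℂ j' + lCt ν j j' := by
      rw [wglue, map_add, map_mul, repL, we, we, wct, FreeAlgebra.lift_ι_apply,
        FreeAlgebra.lift_ι_apply, FreeAlgebra.lift_ι_apply]
      rfl
    have r2 : repL ν id (wglue (K := ℂ) k k') = lE Γ ℂ k * lE Γ ℂ k' + lCt ν k k' := by
      rw [wglue, map_add, map_mul, repL, we, we, wct, FreeAlgebra.lift_ι_apply,
        FreeAlgebra.lift_ι_apply, FreeAlgebra.lift_ι_apply]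
      rfl
    rw [r1, r2]
    exact (((e1.mul_right e2).mul_left (e3.mul_right e4)).add_right (e5.mul_left e6)).add_left
      ((e7.symm.mul_right e8.symm).add_right e9)
  calc S.R j k w * (S.glue j j' * S.glue k k')
      = (S.R k j w * S.glue k k') * S.glue j j' := by
        rw [cg.eq, L.Rs, mul_assoc]
    _ = S.R k' j (S.h + S.h - w) * (S.glue k k' * S.glue j j') := by rw [k1, mul_assoc]
    _ = (S.R j k' (S.h + S.h - w) * S.glue j j') * S.glue k k' := by
        rw [← cg.eq, L.Rs, mul_assoc]
    _ = _ := by rw [k2, mul_assoc]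

end lab

end Pool.Agent.NUF
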