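import Pool.Agent.NUF.PCore
import Pool.Agent.NUF.FarS
import Pool.Agent.NUF.Mv.JointL

/-!
# The strip function with two far lines is the pairing
-/

set_option autoImplicit false

namespace Pool.Agent.NUF

open Filter Topology NUMv

theorem diff_cc : Differentiable ℂ (fun q : ℂ => cc q) := by
  unfold cc
  fun_prop

section

variable {U : ℕ → Set ℂ} {W : List ℂ → List ℂ → ℂ} {P : List ℂ → List ℂ → Polynomial ℂ}

theorem wt_diff1 (h : Near U W P) (A B : List ℂ) (ζ : ℂ) :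
    Differentiable ℂ (fun ξ => h.Wt (cc ζ :: A.map cc) (cc ξ :: B.map cc)) := by
  have e : ∀ ξ : ℂ, h.Wt (cc ζ :: A.map cc) (cc ξ :: B.map cc) =
      (polAt (cc ζ :: A.map cc) (B.map cc)
        (h.F ((A.map cc).length + 1) ((B.map cc).length + 1))).eval (cc ξ) := by
    intro ξ
    rw [← ev_at]
    rfl
  refine Differentiable.congr_fun' ?_ e
  exact (Polynomial.differentiable _).comp diff_cc

theorem wt_diff2 (h : Near U W P) (A B : List ℂ) (ξ : ℂ) :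
    Differentiable ℂ (fun ζ => h.Wt (cc ζ :: A.map cc) (cc ξ :: B.map cc)) := by
  have e : ∀ ζ : ℂ, h.Wt (cc ζ :: A.map cc) (cc ξ :: B.map cc) =
      (polAt [] (A.map cc ++ cc ξ :: B.map cc)
        (h.F ((A.map cc).length + 1) ((B.map cc).length + 1))).eval (cc ζ) := by
    intro ζ
    rw [← ev_at]
    rfl
  refine Differentiable.congr_fun' ?_ e
  exact (Polynomial.differentiable _).comp diff_cc

/-- **The strip function with two far lines**, from the near ones. -/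
theorem joint_abs {ι : Type*} [DecidableEq ι] [Finite ι] (h : Near U W P) {n' : ℂ} {Ω : Set ℂ}
    (hΩ : IsOpen Ω) (hc : Ωᶜ.Countable) (hev : ∀ p : ℂ, ∀ᶠ R : ℝ in atTop, p + R * Complex.I ∈ Ω)
    {A B : List ℂ} {V : Set ℂ} (hVo : IsOpen V) (hVn : V.Nonempty)
    (hVU : V ⊆ U (A.length + B.length + 2)) (hAB : ∀ a ∈ A ++ B, a ∈ V) (hnd : (A ++ B).Nodup)
    {FR FL : ℂ → ℂ → Fnl ι}
    (r1 : ∀ ζ ∈ Ω, ∀ ξ ∈ Ω, ∀ F, DifferentiableAt ℂ (fun ξ => FR ζ ξ F) ξ)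
    (r2 : ∀ ζ ∈ Ω, ∀ ξ ∈ Ω, ∀ F, DifferentiableAt ℂ (fun ζ => FR ζ ξ F) ζ)
    (l1 : ∀ ζ ∈ Ω, ∀ ξ ∈ Ω, ∀ F, DifferentiableAt ℂ (fun ξ => FL ζ ξ F) ξ)
    (l2 : ∀ ζ ∈ Ω, ∀ ξ ∈ Ω, ∀ F, DifferentiableAt ℂ (fun ζ => FL ζ ξ F) ζ)
    {M1 M2 : List (ι × ι)}
    (hnear : ∀ ζ ∈ V, ∀ ξ ∈ V, ζ ≠ ξ → ζ ∉ A ++ B → ξ ∉ A ++ B →
      W (ζ :: A) (ξ :: B) = Zp n' (FR ζ ξ) (FL ζ ξ) M1 M2) (p q : ℂ) {N : ℕ} {c : ℂ}
    (hlim : Tendsto (fun R : ℝ => Zp n' (FR (p + R * Complex.I) (q + R * Complex.I))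
      (FL (p + R * Complex.I) (q + R * Complex.I)) M1 M2 / TT R ^ N) atTop (𝓝 c)) :
    Tendsto (fun R : ℝ => h.Wt (cc (p + R * Complex.I) :: A.map cc)
        (cc (q + R * Complex.I) :: B.map cc) / TT R ^ N) atTop (𝓝 c) := by
  have key := eq_off2 (Ω := Ω) hΩ hc (V := V) (S := {x | x ∈ A ++ B})
    (f := fun ζ ξ => h.Wt (cc ζ :: A.map cc) (cc ξ :: B.map cc))
    (g := fun ζ ξ => Zp n' (FR ζ ξ) (FL ζ ξ) M1 M2) (wt_diff1 h A B) (wt_diff2 h A B)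
    (fun ζ hζ ξ hξ => Zp_diffAt (r1 ζ hζ ξ hξ) (l1 ζ hζ ξ hξ) n' M1 M2)
    (fun ζ hζ ξ hξ => Zp_diffAt (V := fun ζ => FR ζ ξ) (V' := fun ζ => FL ζ ξ) (r2 ζ hζ ξ hξ)
      (l2 ζ hζ ξ hξ) n' M1 M2) hVo hVn
    (List.finite_toSet _).countable (fun ζ hζ hζS _ ξ hξ hξS _ hne => ?_)
  · refine hlim.congr' ?_
    filter_upwards [hev p, hev q] with R hp hq
    rw [← key _ hp _ hq]
  · have hζS' : ζ ∉ A ++ B := hζS
    have hξS' : ξ ∉ A ++ B := hξS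
    have hN : Nr U ((ζ :: A) ++ (ξ :: B)) := by
      have hp : (ζ :: ξ :: (A ++ B)).Perm ((ζ :: A) ++ (ξ :: B)) :=
        List.Perm.cons _ (List.perm_middle.symm)
      refine Nr.perm hp ⟨fun a ha => ?_, ?_⟩
      · have hl : (ζ :: ξ :: (A ++ B)).length = A.length + B.length + 2 := by simp
        rw [hl]
        apply hVU
        rcases List.mem_cons.1 ha with rfl | ha
        · exact hζ
        rcases List.mem_cons.1 ha with rfl | ha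
        · exact hξ
        · exact hAB a ha
      · refine List.nodup_cons.2 ⟨?_, List.nodup_cons.2 ⟨hξS', hnd⟩⟩
        rw [List.mem_cons, not_or]
        exact ⟨hne, hζS'⟩
    have := h.wt_eq hN
    rw [List.map_cons, List.map_cons] at this
    show h.Wt (cc ζ :: A.map cc) (cc ξ :: B.map cc) = _
    rw [this, hnear ζ hζ ξ hξ hne hζS' hξS']

end

end Pool.Agent.NUF
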