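import Pool.Agent.NUF.PLine
import Pool.Agent.NUF.Far2An
import Pool.Agent.NUF.PAna

/-!
# Two lines in the middle: the near value and the limit of the pairing
-/

set_option autoImplicit false

namespace Pool.Agent.NUF

open _root_.Pool.Agent.EXL Filter Topology
open _root_.Pool.Agent.EXL.Fm (lam)

section near

variable {ι : Type*} [DecidableEq ι] [Finite ι] {z : ι → ℂ} {L1 L2 : List (ι × ι)} {p p' q q' : ι}
  {r : ℝ} {b c : ι} {n' : ℂ}

theorem FF_nearR (h : Cx r z ((p, p') :: (q, q') :: (L1 ++ L2)) b c) (hr : NR ι r) :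
    FF z p q (L1.map Prod.fst) ((L1 ++ L2).map Prod.fst) =
      Fr.qc (cv z ((p, p') :: (q, q') :: (L1 ++ L2))) •
        VV z (((L1 ++ [(p, p')]) ++ (q, q') :: L2).map Prod.fst) := by
  have hl : ((p, p') :: (q, q') :: (L1 ++ L2)).map Prod.fst =
      p :: q :: (L1.map Prod.fst ++ L2.map Prod.fst) := by simp
  have e := FF_near (z := z) (A := L1.map Prod.fst) (B := L2.map Prod.fst) (p := p) (q := q)
    (b := b) (c := c) (by rw [← hl]; exact h.goodR hr) (by rw [← hl]; exact h.b1)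
    (by rw [← hl]; exact h.c1) h.bc (fun Y hY => by
      rw [← hl] at hY
      exact hr.reg z Y (hY.nodup_iff.2 h.gd.fst) (fun i hi => h.nearR i (hY.mem_iff.1 hi)))
  rw [← hl, h.qR hr] at e
  rw [List.map_append, e]
  congr 2
  simp

theorem FF_nearL (h : Cx r z ((p, p') :: (q, q') :: (L1 ++ L2)) b c) (hr : NR ι r) :
    FF (fun i => -z i) p' q' (L1.map Prod.snd) ((L1 ++ L2).map Prod.snd) =
      Fr.qc (cv z ((p, p') :: (q, q') :: (L1 ++ L2))) •
        VV (fun i => -z i) (((L1 ++ [(p, p')]) ++ (q, q') :: L2).map Prod.snd) := by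
  have hl : ((p, p') :: (q, q') :: (L1 ++ L2)).map Prod.snd =
      p' :: q' :: (L1.map Prod.snd ++ L2.map Prod.snd) := by simp
  have e := FF_near (z := fun i => -z i) (A := L1.map Prod.snd) (B := L2.map Prod.snd) (p := p')
    (q := q') (b := b) (c := c) (by rw [← hl]; exact h.goodL hr) (by rw [← hl]; exact h.b2)
    (by rw [← hl]; exact h.c2) h.bc (fun Y hY => by
      rw [← hl] at hY
      exact hr.reg' z Y (hY.nodup_iff.2 h.gd.snd) (fun i hi => h.nearL i (hY.mem_iff.1 hi))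
        (fun hb => h.b2 (hY.mem_iff.1 hb)) (fun hc => h.c2 (hY.mem_iff.1 hc)) h.bc)
  rw [← hl, h.qL hr] at e
  rw [List.map_append, e]
  congr 2
  simp

/-- **The near value.** -/
theorem Zp_FF (h : Cx r z ((p, p') :: (q, q') :: (L1 ++ L2)) b c) (hr : NR ι r) :
    Zp n' (FF z p q (L1.map Prod.fst) ((L1 ++ L2).map Prod.fst))
      (FF (fun i => -z i) p' q' (L1.map Prod.snd) ((L1 ++ L2).map Prod.snd)) (L1 ++ [(p, p')])
      ((q, q') :: L2) = Fr.qc (cv z ((p, p') :: (q, q') :: (L1 ++ L2))) ^ 2 *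
        ZV n' z (L1 ++ [(p, p')]) ((q, q') :: L2) := by
  rw [FF_nearR h hr, FF_nearL h hr, Zp_smul, sq]
  rfl

end near

section lim

variable {ι : Type*} [DecidableEq ι] [Finite ι] {L1 L2 : List (ι × ι)} {p p' q q' : ι} {n' : ℂ}

/-- **The limit of the pairing**, two lines in the middle. -/
theorem Zp_lim_mid {β : Type*} {l : Filter β} (hG : Gd ((p, p') :: (q, q') :: (L1 ++ L2)))
    {V V' : Fnl ι} (hV : SupS (Sr (L1 ++ L2)) V) (hV' : SupS (Sl (L1 ++ L2)) V')
    {FR FL : β → Fnl ι} {f : β → ℂ} {m : ℕ} {x y x' y' : ℂ}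
    (hR : LmF l (fun R => (f R ^ m)⁻¹ • FR R) (mid x y p q V))
    (hL : LmF l (fun R => (f R ^ m)⁻¹ • FL R) (mid x' y' p' q' V')) :
    Tendsto (fun R => Zp n' (FR R) (FL R) (L1 ++ [(p, p')]) ((q, q') :: L2) / f R ^ (2 * m)) l
      (𝓝 ((x * x' + y * y' * n') * Zp n' V V' L1 L2)) := by
  rw [← Zp_mid hG hV hV']
  refine (Zp_lim hR hL n' _ _).congr fun R => ?_
  rw [Zp_smul, two_mul, pow_add, div_eq_inv_mul, mul_inv]

end lim

end Pool.Agent.NUF
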