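import Pool.Agent.NUF.PJoin
import Pool.Agent.NUF.PMidN

/-!
# The joint limit of two lines, one on each side of the face
-/

set_option autoImplicit false

namespace Pool.Agent.NUF

open Filter Topology NUMv

section z4

variable {ι : Type*} [DecidableEq ι]

/-- The rapidities with the lines `(p, p')`, `(q, q')` at `ζ`, `ξ`. -/
noncomputable def z4 (z : ι → ℂ) (p p' q q' : ι) (ζ ξ : ℂ) : ι → ℂ := fun i =>
  if i = p ∨ i = p' then ζ else if i = q ∨ i = q' then ξ else z i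

variable {z : ι → ℂ} {p p' q q' : ι} {ζ ξ : ℂ}

theorem z4_p : z4 z p p' q q' ζ ξ p = ζ := if_pos (Or.inl rfl)

theorem z4_p' : z4 z p p' q q' ζ ξ p' = ζ := if_pos (Or.inr rfl)

theorem z4_q (h1 : p ≠ q) (h2 : p' ≠ q) : z4 z p p' q q' ζ ξ q = ξ := by
  unfold z4
  rw [if_neg (by rintro (h | h); exacts [h1 h.symm, h2 h.symm]), if_pos (Or.inl rfl)]

theorem z4_q' (h1 : p ≠ q') (h2 : p' ≠ q') : z4 z p p' q q' ζ ξ q' = ξ := by
  unfold z4
  rw [if_neg (by rintro (h | h); exacts [h1 h.symm, h2 h.symm]), if_pos (Or.inr rfl)]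

theorem z4_ne {i : ι} (h1 : p ≠ i) (h2 : p' ≠ i) (h3 : q ≠ i) (h4 : q' ≠ i) :
    z4 z p p' q q' ζ ξ i = z i := by
  unfold z4
  rw [if_neg (by rintro (h | h); exacts [h1 h.symm, h2 h.symm]),
    if_neg (by rintro (h | h); exacts [h3 h.symm, h4 h.symm])]

end z4

variable {U : ℕ → Set ℂ} {W : List ℂ → List ℂ → ℂ} {P : List ℂ → List ℂ → Polynomial ℂ}
  {ι : Type*} [DecidableEq ι] [Finite ι] {r : ℝ} {z : ι → ℂ} {L1 L2 : List (ι × ι)}
  {p p' q q' b c : ι} {n' : ℂ}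

/-- **The joint limit**, on given sites. -/
theorem joint_at (h : Near U W P) (hr : NR ι r) (hx : Cx r z (L1 ++ L2) b c)
    (hG : Gd ((p, p') :: (q, q') :: (L1 ++ L2))) (hb : b ≠ p ∧ b ≠ p' ∧ b ≠ q ∧ b ≠ q')
    (hc : c ≠ p ∧ c ≠ p' ∧ c ≠ q ∧ c ≠ q') {V : Set ℂ} (hVo : IsOpen V) (hVn : V.Nonempty)
    (hVU : V ⊆ U (L1.length + L2.length + 2)) (hVr : V ⊆ Metric.ball z0 r)
    (hzV : ∀ t ∈ L1 ++ L2, z t.1 ∈ V)
    (hW : ∀ (z' : ι → ℂ), Cx r z' ((p, p') :: (q, q') :: (L1 ++ L2)) b c →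
      (∀ t ∈ (p, p') :: (q, q') :: (L1 ++ L2), z' t.1 ∈ V) →
      W (z' p :: L1.map fun t => z' t.1) (z' q :: L2.map fun t => z' t.1) =
        Fr.qc (cv z' ((p, p') :: (q, q') :: (L1 ++ L2))) ^ 2 *
          ZV n' z' (L1 ++ [(p, p')]) ((q, q') :: L2))
    (hW0 : W (L1.map fun t => z t.1) (L2.map fun t => z t.1) =
      Fr.qc (cv z (L1 ++ L2)) ^ 2 * ZV n' z L1 L2) (x y : ℂ) :
    Tendsto (fun R : ℝ => h.Wt (cc (x + R * Complex.I) :: (L1.map fun t => z t.1).map cc)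
        (cc (y + R * Complex.I) :: (L2.map fun t => z t.1).map cc) /
          (Complex.exp (2 * R) / 2) ^ (4 * (L1.length + L2.length) + 2)) atTop
      (𝓝 ((Complex.exp (-2 * Complex.I * x) * Complex.exp (-2 * Complex.I * y)) ^
          (2 * (L1.length + L2.length)) *
        ((Complex.exp (-2 * Complex.I * x) + Complex.exp (-2 * Complex.I * y)) ^ 2 +
          (2 - rt) * n' * (Complex.exp (-2 * Complex.I * x) * Complex.exp (-2 * Complex.I * y))) *
        W (L1.map fun t => z t.1) (L2.map fun t => z t.1))) := by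
  obtain ⟨a1, a2, a3⟩ := Gd_cons.1 hG
  obtain ⟨a4, a5, a6, a7⟩ := a2 (q, q') (by simp)
  obtain ⟨b1, b2, b3⟩ := Gd_cons.1 a3
  simp only at a1 a4 a5 a6 a7 b1
  have hpL : ∀ t ∈ L1 ++ L2, p ≠ t.1 ∧ p ≠ t.2 ∧ p' ≠ t.1 ∧ p' ≠ t.2 := fun t ht =>
    a2 t (List.mem_cons_of_mem _ ht)
  have hqL : ∀ t ∈ L1 ++ L2, q ≠ t.1 ∧ q ≠ t.2 ∧ q' ≠ t.1 ∧ q' ≠ t.2 := fun t ht => b2 t ht
  have zq : ∀ ζ ξ, z4 z p p' q q' ζ ξ q = ξ := fun ζ ξ => z4_q a4 a6
  have zq' : ∀ ζ ξ, z4 z p p' q q' ζ ξ q' = ξ := fun ζ ξ => z4_q' a5 a7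
  have zR : ∀ ζ ξ, ∀ t ∈ L1 ++ L2, z4 z p p' q q' ζ ξ t.1 = z t.1 := fun ζ ξ t ht =>
    z4_ne (hpL t ht).1 (hpL t ht).2.2.1 (hqL t ht).1 (hqL t ht).2.2.1
  have zL : ∀ ζ ξ, ∀ t ∈ L1 ++ L2, z4 z p p' q q' ζ ξ t.2 = z t.2 := fun ζ ξ t ht =>
    z4_ne (hpL t ht).2.1 (hpL t ht).2.2.2 (hqL t ht).2.1 (hqL t ht).2.2.2
  have zR' : ∀ ζ ξ, ∀ k ∈ (L1 ++ L2).map Prod.fst, z4 z p p' q q' ζ ξ k = z k := by
    intro ζ ξ k hk
    obtain ⟨t, ht, rfl⟩ := List.mem_map.1 hk
    exact zR ζ ξ t ht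
  have zL' : ∀ ζ ξ, ∀ k ∈ (L1 ++ L2).map Prod.snd, z4 z p p' q q' ζ ξ k = z k := by
    intro ζ ξ k hk
    obtain ⟨t, ht, rfl⟩ := List.mem_map.1 hk
    exact zL ζ ξ t ht
  have pX : p ∉ (L1 ++ L2).map Prod.fst := fun hh => by
    obtain ⟨t, ht, e⟩ := List.mem_map.1 hh
    exact (hpL t ht).1 e.symm
  have qX : q ∉ (L1 ++ L2).map Prod.fst := fun hh => by
    obtain ⟨t, ht, e⟩ := List.mem_map.1 hh
    exact (hqL t ht).1 e.symm
  have pX' : p' ∉ (L1 ++ L2).map Prod.snd := fun hh => by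
    obtain ⟨t, ht, e⟩ := List.mem_map.1 hh
    exact (hpL t ht).2.2.2 e.symm
  have qX' : q' ∉ (L1 ++ L2).map Prod.snd := fun hh => by
    obtain ⟨t, ht, e⟩ := List.mem_map.1 hh
    exact (hqL t ht).2.2.2 e.symm
  have sA : (L1.map Prod.fst).Sublist ((L1 ++ L2).map Prod.fst) :=
    (List.sublist_append_left L1 L2).map _
  have sA' : (L1.map Prod.snd).Sublist ((L1 ++ L2).map Prod.snd) :=
    (List.sublist_append_left L1 L2).map _
  -- the good positions
  set Ω := Om z ((L1 ++ L2).map Prod.fst) with hΩ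
  have hΩ' : ∀ ζ ∈ Ω, -ζ ∈ Om (fun i => -z i) ((L1 ++ L2).map Prod.snd) := by
    intro ζ hζ
    rw [Om_neg]
    intro k hk
    obtain ⟨t, ht, rfl⟩ := List.mem_map.1 hk
    rw [hx.same t ht]
    exact hζ t.1 (List.mem_map.2 ⟨t, ht, rfl⟩)
  have hlen : (L1.map fun t => z t.1).length + (L2.map fun t => z t.1).length =
      L1.length + L2.length := by rw [List.length_map, List.length_map]
  have hmap : (L1.map fun t => z t.1) ++ (L2.map fun t => z t.1) = (L1 ++ L2).map fun t => z t.1 :=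
    (List.map_append ..).symm
  refine joint_abs (N := 4 * (L1.length + L2.length) + 2) (n' := n') h (Ω := Ω) (Om_open _ _)
    (Om_countable _ _) (fun s => Om_ev s _ _) hVo hVn (by rw [hlen]; exact hVU)
    (by
      rw [hmap]
      intro a ha
      obtain ⟨t, ht, rfl⟩ := List.mem_map.1 ha
      exact hzV t ht)
    (by rw [hmap]; exact hx.dist)
    (FR := fun ζ ξ => FF (z4 z p p' q q' ζ ξ) p q (L1.map Prod.fst) ((L1 ++ L2).map Prod.fst))
    (FL := fun ζ ξ => FF (fun i => -z4 z p p' q q' ζ ξ i) p' q' (L1.map Prod.snd)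
      ((L1 ++ L2).map Prod.snd)) (M1 := L1 ++ [(p, p')]) (M2 := (q, q') :: L2)
    ?_ ?_ ?_ ?_ ?_ x y ?_
  · intro ζ hζ ξ hξ
    refine dt_FF (z := z) (fun k hk => sA.subset hk) (fun h => pX (sA.subset h))
      (fun h => qX (sA.subset h)) (fun s => zR' ζ s) ?_ ?_ ?_ ?_
    · simp only [z4_p]
      exact differentiableAt_const _
    · simp only [zq]
      exact differentiableAt_id
    · rw [z4_p]
      exact hζ
    · rw [zq]
      exact hξ
  · intro ζ hζ ξ hξ
    refine dt_FF (z := z) (zs := fun ζ => z4 z p p' q q' ζ ξ) (fun k hk => sA.subset hk)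
      (fun h => pX (sA.subset h)) (fun h => qX (sA.subset h)) (fun s => zR' s ξ) ?_ ?_ ?_ ?_
    · simp only [z4_p]
      exact differentiableAt_id
    · simp only [zq]
      exact differentiableAt_const _
    · show z4 z p p' q q' ζ ξ p ∈ _
      rw [z4_p]
      exact hζ
    · show z4 z p p' q q' ζ ξ q ∈ _
      rw [zq]
      exact hξ
  · intro ζ hζ ξ hξ
    refine dt_FF (z := fun i => -z i) (zs := fun ξ i => -z4 z p p' q q' ζ ξ i)
      (fun k hk => sA'.subset hk) (fun h => pX' (sA'.subset h)) (fun h => qX' (sA'.subset h))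
      (fun s k hk => by rw [zL' ζ s k hk]) ?_ ?_ ?_ ?_
    · simp only [z4_p']
      exact differentiableAt_const _
    · simp only [zq']
      exact differentiableAt_id.neg
    · show -z4 z p p' q q' ζ ξ p' ∈ _
      rw [z4_p']
      exact hΩ' ζ hζ
    · show -z4 z p p' q q' ζ ξ q' ∈ _
      rw [zq']
      exact hΩ' ξ hξ
  · intro ζ hζ ξ hξ
    refine dt_FF (z := fun i => -z i) (zs := fun ζ i => -z4 z p p' q q' ζ ξ i)
      (fun k hk => sA'.subset hk) (fun h => pX' (sA'.subset h)) (fun h => qX' (sA'.subset h))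
      (fun s k hk => by rw [zL' s ξ k hk]) ?_ ?_ ?_ ?_
    · simp only [z4_p']
      exact differentiableAt_id.neg
    · simp only [zq']
      exact differentiableAt_const _
    · show -z4 z p p' q q' ζ ξ p' ∈ _
      rw [z4_p']
      exact hΩ' ζ hζ
    · show -z4 z p p' q q' ζ ξ q' ∈ _
      rw [zq']
      exact hΩ' ξ hξ
  · intro ζ hζ ξ hξ hne hζA hξA
    rw [hmap] at hζA hξA
    have hm : ((p, p') :: (q, q') :: (L1 ++ L2)).map (fun t => z4 z p p' q q' ζ ξ t.1) =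
        ζ :: ξ :: (L1 ++ L2).map fun t => z t.1 := by
      rw [List.map_cons, List.map_cons, List.map_congr_left (zR ζ ξ)]
      show z4 z p p' q q' ζ ξ p :: z4 z p p' q q' ζ ξ q :: _ = _
      rw [z4_p, zq]
    have hV' : ∀ t ∈ (p, p') :: (q, q') :: (L1 ++ L2), z4 z p p' q q' ζ ξ t.1 ∈ V := by
      intro t ht
      rcases List.mem_cons.1 ht with rfl | ht
      · show z4 z p p' q q' ζ ξ p ∈ V
        rw [z4_p]
        exact hζ
      rcases List.mem_cons.1 ht with rfl | ht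
      · show z4 z p p' q q' ζ ξ q ∈ V
        rw [zq]
        exact hξ
      · rw [zR ζ ξ t ht]
        exact hzV t ht
    have hCx : Cx r (z4 z p p' q q' ζ ξ) ((p, p') :: (q, q') :: (L1 ++ L2)) b c := by
      refine ⟨hG, fun t ht => hVr (hV' t ht), ?_, ?_, hx.bc, ?_, ?_⟩
      · intro t ht
        rcases List.mem_cons.1 ht with rfl | ht
        · show z4 z p p' q q' ζ ξ p' = z4 z p p' q q' ζ ξ p
          rw [z4_p, z4_p']
        rcases List.mem_cons.1 ht with rfl | ht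
        · show z4 z p p' q q' ζ ξ q' = z4 z p p' q q' ζ ξ q
          rw [zq, zq']
        · rw [zR ζ ξ t ht, zL ζ ξ t ht]
          exact hx.same t ht
      · rw [hm]
        refine List.nodup_cons.2 ⟨?_, List.nodup_cons.2 ⟨hξA, hx.dist⟩⟩
        rw [List.mem_cons, not_or]
        exact ⟨hne, hζA⟩
      · intro t ht
        rcases List.mem_cons.1 ht with rfl | ht
        · exact ⟨hb.1, hb.2.1⟩
        rcases List.mem_cons.1 ht with rfl | ht
        · exact ⟨hb.2.2.1, hb.2.2.2⟩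
        · exact hx.nb t ht
      · intro t ht
        rcases List.mem_cons.1 ht with rfl | ht
        · exact ⟨hc.1, hc.2.1⟩
        rcases List.mem_cons.1 ht with rfl | ht
        · exact ⟨hc.2.2.1, hc.2.2.2⟩
        · exact hx.nc t ht
    have e := hW _ hCx hV'
    rw [z4_p, zq] at e
    have m1 : (L1.map fun t => z4 z p p' q q' ζ ξ t.1) = L1.map fun t => z t.1 :=
      List.map_congr_left fun t ht => zR ζ ξ t (List.mem_append_left _ ht)
    have m2 : (L2.map fun t => z4 z p p' q q' ζ ξ t.1) = L2.map fun t => z t.1 :=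
      List.map_congr_left fun t ht => zR ζ ξ t (List.mem_append_right _ ht)
    rw [m1, m2] at e
    rw [e, ← Zp_FF hCx hr]
  · have hX := hx.gd.fst
    have hX' := hx.gd.snd
    have sR := (isV_VV hX hx.c1 (hx.regR hr)).sup
    have sL := (isV_VV hX' hx.c2 (hx.regL hr)).sup
    have lR := FF_limR (l := atTop) (f := fun R : ℝ => R) (ζ := x) (ξ := y) (z := z)
      (zb := fun R : ℝ => z4 z p p' q q' (x + R * Complex.I) (y + R * Complex.I)) tendsto_id hX
      (fun R => zR' _ _) (fun R => z4_p) (fun R => zq _ _) sR pX qX a4 sA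
    have lL := FF_limL (l := atTop) (f := fun R : ℝ => R) (ζ := x) (ξ := y) (z := z)
      (zb := fun R : ℝ => z4 z p p' q q' (x + R * Complex.I) (y + R * Complex.I)) tendsto_id hX'
      (fun R => zL' _ _) (fun R => z4_p') (fun R => zq' _ _) sL pX' qX' a7 sA'
    rw [List.length_map] at lR lL
    have key := Zp_lim_mid (n' := n') hG sR.supS sL.supS lR lL
    have hN : 2 * (2 * (L1 ++ L2).length + 1) = 4 * (L1.length + L2.length) + 2 := by
      rw [List.length_append]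
      ring
    rw [mid_prod, hx.qR hr, hx.qL hr, ← sq] at key
    simp only [hN] at key
    rw [List.length_append, mul_assoc _ (Fr.qc (cv z (L1 ++ L2)) ^ 2)] at key
    have hZ : Fr.qc (cv z (L1 ++ L2)) ^ 2 * Zp n' (VV z ((L1 ++ L2).map Prod.fst))
        (VV (fun i => -z i) ((L1 ++ L2).map Prod.snd)) L1 L2 =
        W (L1.map fun t => z t.1) (L2.map fun t => z t.1) := hW0.symm
    rw [hZ] at key
    exact key

end Pool.Agent.NUF
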