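import Pool.Agent.NUF.PRels
import Pool.Agent.NUF.ScalF

/-!
# The relations of the pairing of the two half strips
-/

set_option autoImplicit false

namespace Pool.Agent.NUF

open Pool.Agent.EXL (okR opCu)
open Pool.Agent.EXL.Fm (Dn lam Wn R6)
open Pool.Agent.EXL.HS (ind)

variable {ι : Type*} [DecidableEq ι] [Finite ι] {z : ι → ℂ} {L L1 L2 : List (ι × ι)} {t s : ι × ι}
  {r : ℝ} {b c : ι} {n' : ℂ}

/-- **T2: the value at a rapidity near the honeycomb point.** -/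
theorem PV_near (h : Cx r z (t :: (L1 ++ L2)) b c) (hr : NR ι r) :
    PV n' z t L1 L2 (z t.1) = Fr.qc (cv z (t :: (L1 ++ L2))) ^ 2 * ZV n' z (t :: L1) L2 := by
  have e1 := far_near (h.goodR hr) h.b1 h.c1 h.bc
  have e2 := far_near (h.goodL hr) h.b2 h.c2 h.bc
  rw [ux_hh] at e1 e2
  have e3 : far z t.1 (hh - z t.1) ((L1 ++ L2).map Prod.fst) = Fr.qc (cv z (t :: (L1 ++ L2))) •
      VV z ((t :: (L1 ++ L2)).map Prod.fst) := by
    rw [← h.qR hr]
    exact e1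
  have e4 : far (fun i => -z i) t.2 (hh + z t.1) ((L1 ++ L2).map Prod.snd) =
      Fr.qc (cv z (t :: (L1 ++ L2))) • VV (fun i => -z i) ((t :: (L1 ++ L2)).map Prod.snd) := by
    rw [← h.qL hr, ← h.same t (by simp), ← sub_neg_eq_add]
    exact e2
  unfold PV ZV
  rw [e3, e4, Zp_smul, sq]
  rfl

omit [DecidableEq ι] [Finite ι] in
theorem cc_hh : NUMv.cc hh = NUMv.kc 3 := by
  rw [kc3]
  unfold NUMv.cc hh lam
  congr 1
  ring

omit [DecidableEq ι] [Finite ι] in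
theorem cc_neg (x : ℂ) : NUMv.cc (-x) = NUMv.cc x := by
  unfold NUMv.cc
  rw [← Complex.cos_neg]
  congr 1
  ring

/-- **T3: the trivial line.** -/
theorem PV_triv (h : Cf r z t (L1 ++ L2) b c) (hr : NR ι r) :
    PV n' z t L1 L2 hh =
      (NUMv.trivF (cv z (L1 ++ L2)) * Fr.qc (cv z (L1 ++ L2))) ^ 2 * ZV n' z L1 L2 := by
  have f1 := h.cx.fR hr hh
  have f2 := h.cx.fL hr (-hh)
  rw [sub_self, cc_hh, Fr.qc_triv_z] at f1
  rw [add_neg_cancel, cc_neg, cc_hh, Fr.qc_triv_z] at f2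
  have e1 : farE z (hh - hh) ((L1 ++ L2).map Prod.fst) =
      (NUMv.trivF (cv z (L1 ++ L2)) * Fr.qc (cv z (L1 ++ L2))) • VV z ((L1 ++ L2).map Prod.fst) := by
    rw [sub_self, ← far_at0 (p := t.1), ← f1]
    exact side_triv (h.cx.goodR hr) h.nR h.bR h.cR h.cx.bc
  have e2 : farE (fun i => -z i) (hh + hh) ((L1 ++ L2).map Prod.snd) =
      (NUMv.trivF (cv z (L1 ++ L2)) * Fr.qc (cv z (L1 ++ L2))) •
        VV (fun i => -z i) ((L1 ++ L2).map Prod.snd) := by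
    have ev : Fr.cf (hh + hh) = Fr.cf 0 := by
      rw [cf_p, ← cf_m, sub_self]
    rw [farE_even ev, ← far_at0 (p := t.2), ← f2]
    exact side_triv (h.cx.goodL hr) h.nL h.bL h.cL h.cx.bc
  have e0 : Fr.fa (hh - hh) = 0 := by
    rw [sub_self]
    exact Complex.sin_zero
  unfold PV ZV
  rw [h.split hr, e0, zero_mul, zero_mul, add_zero, e1, e2, Zp_smul, sq]
  congr 1
  refine Zp_EE (p := t.1) (p' := t.2) h.gd ?_ ?_
  · exact (isV_VV h.cx.gd.fst h.cx.c1 (h.cx.regR hr)).sup.supS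
  · exact (isV_VV h.cx.gd.snd h.cx.c2 (h.cx.regL hr)).sup.supS

/-- **T4: crossing.** -/
theorem PV_cross (h : Cf r z t (s :: (L1 ++ L2)) b c) (hr : NR ι r) :
    PV n' z t (s :: L1) L2 (z s.1 - 3 * lam) =
      (NUMv.crossF (z s.1) (cv z (L1 ++ L2)) * Fr.qc (cv z (L1 ++ L2))) ^ 2 * ZV n' z L1 L2 := by
  have hok := h.cx.okP hr (t := s) (s := s) (by simp) (by simp)
  have hs := h.cx.same s (by simp)
  have f1 := h.cx.fR hr (z s.1 - 3 * lam)
  have f2 := h.cx.fL hr (z s.1 - 3 * lam)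
  have hq : Fr.qc (NUMv.cc (z s.1 - 3 * lam) :: cv z (s :: (L1 ++ L2))) =
      NUMv.crossF (z s.1) (cv z (L1 ++ L2)) * Fr.qc (cv z (L1 ++ L2)) := by
    rw [← Fr.el_eq]
    exact Fr.qc_cross_z hok.nm _
  rw [hq] at f1 f2
  have e1 : far z t.1 (hh - (z s.1 - 3 * lam)) ((s :: (L1 ++ L2)).map Prod.fst) =
      (NUMv.crossF (z s.1) (cv z (L1 ++ L2)) * Fr.qc (cv z (L1 ++ L2))) •
        (VV z ((L1 ++ L2).map Prod.fst) ∘ₗ uops.U t.1 s.1) := by
    rw [← f1]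
    exact side_U (h.cx.goodR hr) h.nR h.cR rfl
  have e2 : far (fun i => -z i) t.2 (hh + (z s.1 - 3 * lam)) ((s :: (L1 ++ L2)).map Prod.snd) ∘ₗ
      uops.glue t.2 s.2 = (NUMv.crossF (z s.1) (cv z (L1 ++ L2)) * Fr.qc (cv z (L1 ++ L2))) •
        VV (fun i => -z i) ((L1 ++ L2).map Prod.snd) := by
    have k := side_glue (w := fun i => -z i) (p := t.2) (q := s.2) (ζ := -(z s.1 - 3 * lam))
      (h.cx.goodL hr) h.nL h.bL h.cL h.cx.bc (by
        show -(z s.1 - 3 * lam) = -z s.2 + 3 * Real.pi / 8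
        rw [hs]
        unfold lam
        ring) (by rw [sub_neg_eq_add]; exact hok.cr) (by
        show okR (hh - -z s.2)
        rw [hs, sub_neg_eq_add]
        exact hok.hp)
    rw [sub_neg_eq_add] at k
    rw [← f2]
    exact k
  have hV1 := (isV_VV h.cx.tail.gd.fst h.cx.tail.c1 (h.cx.tail.regR hr)).sup.supS
  have hV2 := (isV_VV h.cx.tail.gd.snd h.cx.tail.c2 (h.cx.tail.regL hr)).sup.supS
  have key := Zp_U (n' := n') (p := t.1) (q := s.1) (p' := t.2) (q' := s.2) (L1 := L1) (L2 := L2)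
    h.gd hV1 (h.supL hr (hh + (z s.1 - 3 * lam))) (by
      show SupS _ (far (fun i => -z i) t.2 (hh + (z s.1 - 3 * lam))
        ((s :: (L1 ++ L2)).map Prod.snd) ∘ₗ uops.glue t.2 s.2)
      rw [e2]
      intro F hF
      rw [LinearMap.smul_apply, hV2 F hF, smul_zero])
  have e3 : PV n' z t (s :: L1) L2 (z s.1 - 3 * lam) =
      (NUMv.crossF (z s.1) (cv z (L1 ++ L2)) * Fr.qc (cv z (L1 ++ L2))) *
      Zp n' (VV z ((L1 ++ L2).map Prod.fst) ∘ₗ uops.U t.1 s.1)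
        (far (fun i => -z i) t.2 (hh + (z s.1 - 3 * lam)) ((s :: (L1 ++ L2)).map Prod.snd))
        (t :: s :: L1) L2 := by
    show Zp n' (far z t.1 (hh - (z s.1 - 3 * lam)) ((s :: (L1 ++ L2)).map Prod.fst))
      (far (fun i => -z i) t.2 (hh + (z s.1 - 3 * lam)) ((s :: (L1 ++ L2)).map Prod.snd))
        (t :: s :: L1) L2 = _
    rw [e1]
    have := Zp_smul n' (NUMv.crossF (z s.1) (cv z (L1 ++ L2)) * Fr.qc (cv z (L1 ++ L2))) 1
      (t :: s :: L1) L2 (VV z ((L1 ++ L2).map Prod.fst) ∘ₗ uops.U t.1 s.1)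
        (far (fun i => -z i) t.2 (hh + (z s.1 - 3 * lam)) ((s :: (L1 ++ L2)).map Prod.snd))
    rw [one_smul, mul_one] at this
    exact this
  have e4 : Zp n' (VV z ((L1 ++ L2).map Prod.fst))
      (far (fun i => -z i) t.2 (hh + (z s.1 - 3 * lam)) ((s :: (L1 ++ L2)).map Prod.snd) ∘ₗ
      uops.glue t.2 s.2) L1 L2 =
      (NUMv.crossF (z s.1) (cv z (L1 ++ L2)) * Fr.qc (cv z (L1 ++ L2))) * ZV n' z L1 L2 := by
    rw [e2]
    have := Zp_smul n' 1 (NUMv.crossF (z s.1) (cv z (L1 ++ L2)) * Fr.qc (cv z (L1 ++ L2)))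
      L1 L2 (VV z ((L1 ++ L2).map Prod.fst)) (VV (fun i => -z i) ((L1 ++ L2).map Prod.snd))
    rw [one_smul, one_mul] at this
    exact this
  rw [e3, sq, mul_assoc (NUMv.crossF (z s.1) (cv z (L1 ++ L2)) * Fr.qc (cv z (L1 ++ L2))), ← e4]
  exact congrArg _ key

/-- **T5: fusion.** -/
theorem PV_fuse {z' : ι → ℂ} (h : Cf r z t (s :: (L1 ++ L2)) b c) (hr : NR ι r) (hr0 : 0 < r)
    (h1 : z' s.1 = z s.1 + lam) (h2 : z' s.2 = z s.1 + lam)
    (hY : ∀ u ∈ L1 ++ L2, z' u.1 = z u.1 ∧ z' u.2 = z u.2)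
    (hR : Reg z' ((s :: (L1 ++ L2)).map Prod.fst))
    (hR' : Reg (fun i => -z' i) ((s :: (L1 ++ L2)).map Prod.snd)) :
    PV n' z t (s :: L1) L2 (z s.1 + 2 * lam) =
      NUMv.fuseF (z s.1) (cv z (L1 ++ L2)) ^ 2 * PV n' z s L1 L2 (z s.1 + lam) := by
  have hok := h.cx.okP hr (t := s) (s := s) (by simp) (by simp)
  have hs := h.cx.same s (by simp)
  have hx := h.cx.tail
  set Q : ℂ := Fr.qc (NUMv.cc (z s.1 + lam) :: cv z (L1 ++ L2)) with hQ
  set φ : ℂ := NUMv.fuseF (z s.1) (cv z (L1 ++ L2)) with hφ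
  have f1 := h.cx.fR hr (z s.1 + 2 * lam)
  have f2 := h.cx.fL hr (z s.1 + 2 * lam)
  have hq : Fr.qc (NUMv.cc (z s.1 + 2 * lam) :: cv z (s :: (L1 ++ L2))) = φ * Q := by
    rw [hφ, hQ]
    have := Fr.qc_fuse_z hok.nm (cv z (L1 ++ L2))
    rw [Fr.el_eq] at this
    exact this
  rw [hq] at f1 f2
  have g1 := hx.fR hr (z s.1 + lam)
  have g2 := hx.fL hr (z s.1 + lam)
  rw [← hQ] at g1 g2
  have Y1 : ∀ i ∈ (L1 ++ L2).map Prod.fst, z' i = z i := fun i hi => by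
    obtain ⟨u, hu, rfl⟩ := List.mem_map.1 hi
    exact (hY u hu).1
  have Y2 : ∀ i ∈ (L1 ++ L2).map Prod.snd, z' i = z i := fun i hi => by
    obtain ⟨u, hu, rfl⟩ := List.mem_map.1 hi
    exact (hY u hu).2
  have n1 := List.nodup_cons.1 h.nR
  have n2 := List.nodup_cons.1 h.nL
  have m1 := List.nodup_cons.1 (n1.2 : (s.1 :: (L1 ++ L2).map Prod.fst).Nodup)
  have m2 := List.nodup_cons.1 (n2.2 : (s.2 :: (L1 ++ L2).map Prod.snd).Nodup)
  -- the right half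
  have a1 : far z t.1 (hh - (z s.1 + 2 * lam)) ((s :: (L1 ++ L2)).map Prod.fst) ∘ₗ uops.Yt s.1 t.1 =
      (φ * Q) • VV z' ((s :: (L1 ++ L2)).map Prod.fst) := by
    rw [← f1]
    exact side_Yt (w' := z') (h.cx.goodR hr) h.nR h.bR h.cR h.cx.bc rfl h1 Y1 hok.f1 hok.hm
      (by rw [h1]; exact hok.f3) hR
  -- the left half
  have a2 := side_K (w := fun i => -z i) (w' := fun i => -z' i) (p := t.2) (q := s.2)
    (ζ := -(z s.1 + 2 * lam)) (h.cx.goodL hr) h.nL h.bL h.cL h.cx.bc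
    (by
      show -(z s.1 + 2 * lam) = -z s.2 - 2 * lam
      rw [hs]
      ring)
    (by
      show -z' s.2 = -z s.2 - lam
      rw [hs, h2]
      ring)
    (fun y hy => by
      show -z' y = -z y
      rw [Y2 y hy])
    (by rw [sub_neg_eq_add]; exact hok.f2)
    (by
      show okR (hh - -z s.2)
      rw [hs, sub_neg_eq_add]
      exact hok.hp)
    (by
      show okR (hh - -z' s.2)
      rw [h2, sub_neg_eq_add]
      exact hok.f4) hR'
    (by
      rw [sub_neg_eq_add]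
      exact farL_N h.cx.sL hr hr0 h.nL h.bL h.cL (by rw [hs]))
  rw [sub_neg_eq_add] at a2
  obtain ⟨a2, a3⟩ := a2
  have a3' : far (fun i => -z i) t.2 (hh + (z s.1 + 2 * lam)) ((s :: (L1 ++ L2)).map Prod.snd) ∘ₗ
      Kop s.2 t.2 = (φ * Q) • VV (fun i => -z' i) ((s :: (L1 ++ L2)).map Prod.snd) := by
    rw [← f2]
    exact a3
  -- the line `s` alone
  have b1 : far z s.1 (hh - (z s.1 + lam)) ((L1 ++ L2).map Prod.fst) =
      Q • VV z' ((s :: (L1 ++ L2)).map Prod.fst) := by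
    have e1 : far z s.1 (hh - (z s.1 + lam)) ((L1 ++ L2).map Prod.fst) =
        far z' s.1 (ux z' s.1) ((L1 ++ L2).map Prod.fst) := by
      rw [ux_hh, h1]
      exact far_congr fun i hi => (Y1 i hi).symm
    have e2 := far_eq ((hx.goodR hr).congr fun i hi => (Y1 i hi).symm) m1.1 h.cx.b1 h.cx.c1 h.cx.bc
      (by
        rw [ux_hh, h1]
        exact (EXL.Fm.okR_iff _).1 hok.f3) hR
    rw [e1, e2, ux_hh, h1, ← g1]
    congr 1
    apply Nf_congr
    intro i hi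
    rw [ux_hh, ux_hh, Y1 i (List.mem_toFinset.1 hi)]
  have b2 : far (fun i => -z i) s.2 (hh + (z s.1 + lam)) ((L1 ++ L2).map Prod.snd) =
      Q • VV (fun i => -z' i) ((s :: (L1 ++ L2)).map Prod.snd) := by
    have hu : ux (fun i => -z' i) s.2 = hh + (z s.1 + lam) := by
      rw [ux_hh, h2, sub_neg_eq_add]
    have e1 : far (fun i => -z i) s.2 (hh + (z s.1 + lam)) ((L1 ++ L2).map Prod.snd) =
        far (fun i => -z' i) s.2 (ux (fun i => -z' i) s.2) ((L1 ++ L2).map Prod.snd) := by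
      rw [hu]
      exact far_congr fun i hi => by rw [Y2 i hi]
    have e2 := far_eq (z := fun i => -z' i) ((hx.goodL hr).congr fun i hi => by rw [Y2 i hi]) m2.1
      h.cx.b2 h.cx.c2 h.cx.bc
      (by
        rw [hu]
        exact (EXL.Fm.okR_iff _).1 hok.f4) hR'
    rw [e1, e2, hu, ← g2]
    congr 1
    apply Nf_congr
    intro i hi
    rw [ux_hh, ux_hh, Y2 i (List.mem_toFinset.1 hi)]
  have hV1 := (isV_VV h.cx.gd.fst h.cx.c1 hR).sup.supS
  have hV2 := (isV_VV h.cx.gd.snd h.cx.c2 hR').sup.supS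
  have smS : ∀ {S : Set ι} {V : Fnl ι} (x : ℂ), SupS S V → SupS S (x • V) := fun x hV F hF => by
    rw [LinearMap.smul_apply, hV F hF, smul_zero]
  have key := Zp_Y (n' := n') (p := t.1) (q := s.1) (p' := t.2) (q' := s.2) (L1 := L1) (L2 := L2)
    (V := far z t.1 (hh - (z s.1 + 2 * lam)) ((s :: (L1 ++ L2)).map Prod.fst))
    (V' := far (fun i => -z i) t.2 (hh + (z s.1 + 2 * lam)) ((s :: (L1 ++ L2)).map Prod.snd) ∘ₗ
      Kop s.2 t.2) h.gd (h.supR hr _) (by rw [a1]; exact smS _ hV1) (by rw [a3']; exact smS _ hV2)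
  have a2' : far (fun i => -z i) t.2 (hh + (z s.1 + 2 * lam)) ((s :: (L1 ++ L2)).map Prod.snd) =
      (far (fun i => -z i) t.2 (hh + (z s.1 + 2 * lam)) ((s :: (L1 ++ L2)).map Prod.snd) ∘ₗ
        Kop s.2 t.2) ∘ₗ uops.Y s.2 t.2 := a2
  rw [← a2', a1, a3', Zp_smul] at key
  have e5 : PV n' z s L1 L2 (z s.1 + lam) = Q * Q *
      Zp n' (VV z' ((s :: (L1 ++ L2)).map Prod.fst)) (VV (fun i => -z' i)
        ((s :: (L1 ++ L2)).map Prod.snd)) (s :: L1) L2 := by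
    unfold PV
    rw [b1, b2, Zp_smul]
  rw [e5]
  refine key.trans ?_
  ring

end Pool.Agent.NUF
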