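import Pool.Agent.NUF.PW
import Pool.Agent.NUF.UFar

/-!
# The relations of the strip function near the honeycomb point: `NUMv.Near UU (WW n') (PP n')`
-/

set_option autoImplicit false

namespace Pool.Agent.NUF

open Pool.Agent.EXL (okR)
open Pool.Agent.EXL.Fm (Dn lam)
open Pool.Agent.EXL.HS (ind)
open Filter Topology Polynomial

theorem exists_perm_map {α β : Type*} {f : α → β} {A A' : List β} (h : A.Perm A') :
    ∀ L : List α, L.map f = A → ∃ L', L.Perm L' ∧ L'.map f = A' := by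
  induction h with
  | nil => exact fun L hL => ⟨L, List.Perm.refl _, hL⟩
  | cons x _ ih =>
    intro L hL
    obtain ⟨a, L0, rfl, rfl, h2⟩ := List.map_eq_cons_iff.1 hL
    obtain ⟨L', h3, h4⟩ := ih L0 h2
    exact ⟨a :: L', h3.cons a, by rw [List.map_cons, h4]⟩
  | swap x y l =>
    intro L hL
    obtain ⟨a, L0, rfl, rfl, h2⟩ := List.map_eq_cons_iff.1 hL
    obtain ⟨b, L1, rfl, rfl, h3⟩ := List.map_eq_cons_iff.1 h2
    exact ⟨b :: a :: L1, List.Perm.swap _ _ _, by rw [List.map_cons, List.map_cons, h3]⟩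
  | trans _ _ ih1 ih2 =>
    intro L hL
    obtain ⟨L', h1, h2⟩ := ih1 L hL
    obtain ⟨L'', h3, h4⟩ := ih2 L' h2
    exact ⟨L'', h1.trans h3, h4⟩

/-- A context for a list of rapidities and one more line. -/
theorem exists_ctx (m : ℕ) {r : ℝ} : ∀ C : List ℂ, C.length < m → C.Nodup →
    (∀ a ∈ C, a ∈ Metric.ball z0 r) →
    ∃ (z : St m → ℂ) (L : List (St m × St m)) (t : St m × St m), Cs r z L Sum.inr ∧ Gd (t :: L) ∧
      (∀ k : Fin 4, (Sum.inr k : St m) ≠ t.1 ∧ (Sum.inr k : St m) ≠ t.2) ∧ rp z L = C ∧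
      ∀ u ∈ L, ∃ k : Fin m, k.1 < C.length ∧ u = lk k := by
  have hlk : ∀ (k : Fin m) (j : Fin 4), (Sum.inr j : St m) ≠ (lk k).1 ∧ (Sum.inr j : St m) ≠ (lk k).2 :=
    fun k j => ⟨fun e => (Sum.inr_ne_inl e).elim, fun e => (Sum.inr_ne_inl e).elim⟩
  -- a new line
  have hnew : ∀ (k : Fin m) (L : List (St m × St m)), Gd L → (∀ u ∈ L, ∃ j : Fin m, j.1 < k.1 ∧ u = lk j) →
      Gd (lk k :: L) := by
    intro k L hL hu
    refine Gd_cons.2 ⟨?_, ?_, hL⟩
    · intro e
      have := congrArg (fun x : St m => Sum.elim (fun y : Fin m × Bool => y.2) (fun _ => true) x) e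
      exact Bool.false_ne_true this
    · intro u hu'
      obtain ⟨j, hj, rfl⟩ := hu u hu'
      have hkj : k ≠ j := fun e => by rw [e] at hj; exact lt_irrefl _ hj
      have key : ∀ a b : Bool, (Sum.inl (k, a) : St m) ≠ Sum.inl (j, b) := fun a b e =>
        hkj (congrArg Prod.fst (Sum.inl_injective e))
      exact ⟨key _ _, key _ _, key _ _, key _ _⟩
  intro C
  induction C with
  | nil =>
    intro hm _ _
    have hm' : 0 < m := hm
    refine ⟨fun _ => 0, [], lk ⟨0, hm'⟩, ⟨⟨List.nodup_nil, ?_, ?_, List.nodup_nil, ?_, ?_, ?_⟩,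
      Sum.inr_injective, ?_⟩, hnew _ [] List.nodup_nil (by simp), hlk _, rfl, by simp⟩
    · simp
    · intro t ht
      simp at ht
    · intro e
      have := Sum.inr_injective e
      exact absurd this (by decide)
    all_goals simp
  | cons q C ih =>
    intro hm hn hC
    have hn' := List.nodup_cons.1 hn
    rw [List.length_cons] at hm
    obtain ⟨z, L, t, h1, h2, h3, h4, h5⟩ := ih (by omega) hn'.2 fun a ha => hC a (by simp [ha])
    set k : Fin m := ⟨C.length, by omega⟩ with hk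
    have hG : Gd (lk k :: L) := hnew k L h1.cx.gd h5
    have hL : ∀ u ∈ lk k :: L, ∃ j : Fin m, j.1 < C.length + 1 ∧ u = lk j := by
      intro u hu
      rcases List.mem_cons.1 hu with rfl | hu'
      · exact ⟨k, Nat.lt_succ_self _, rfl⟩
      · obtain ⟨j, hj, rfl⟩ := h5 u hu'
        exact ⟨j, by omega, rfl⟩
    refine ⟨up2 z (lk k) q, lk k :: L, lk ⟨C.length + 1, hm⟩,
      h1.cons hG (hlk k) (hC q (by simp)) (by rw [h4]; exact hn'.1),
      hnew _ _ hG hL, hlk _, ?_, hL⟩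
    rw [rp_up' hG, h4]

/-- A context for two lists of rapidities. -/
theorem exists_ctx2 (m : ℕ) {r : ℝ} (A B : List ℂ) (hm : (A ++ B).length < m) (hn : (A ++ B).Nodup)
    (hC : ∀ a ∈ A ++ B, a ∈ Metric.ball z0 r) :
    ∃ (z : St m → ℂ) (L1 L2 : List (St m × St m)) (t : St m × St m), Cs r z (L1 ++ L2) Sum.inr ∧
      Gd (t :: (L1 ++ L2)) ∧ (∀ k : Fin 4, (Sum.inr k : St m) ≠ t.1 ∧ (Sum.inr k : St m) ≠ t.2) ∧
      rp z L1 = A ∧ rp z L2 = B := by
  obtain ⟨z, L, t, h1, h2, h3, h4, _⟩ := exists_ctx m (A ++ B) hm hn hC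
  obtain ⟨L1, L2, rfl, h5, h6⟩ := List.map_eq_append_iff.1 h4
  exact ⟨z, L1, L2, t, h1, h2, h3, h5, h6⟩

section nil

variable {ι : Type*} [DecidableEq ι]

theorem sup_nil {V : Fnl ι} (h : Sup [] V) (h1 : V (ind EXL.Pat.empty) = 1) (F : EXL.Pat ι → ℂ) :
    V F = F EXL.Pat.empty := by
  have e : V F = V (F EXL.Pat.empty • ind EXL.Pat.empty) := by
    refine h.congr fun p hp => ?_
    have hp0 : p = EXL.Pat.empty := by
      ext x
      exact ax_out hp (by simp)
    rw [hp0, Pi.smul_apply, EXL.HS.ind, if_pos rfl, smul_eq_mul, mul_one]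
  rw [e, map_smul, h1, smul_eq_mul, mul_one]

theorem ZV_nil [Finite ι] {z : ι → ℂ} {n' : ℂ} {c : ι} (h1 : Reg z []) (h2 : Reg (fun i => -z i) []) :
    ZV n' z [] [] = 1 := by
  have a1 := isV_VV (z := z) (X := []) List.nodup_nil (c := c) (by simp) h1
  have a2 := isV_VV (z := fun i => -z i) (X := []) List.nodup_nil (c := c) (by simp) h2
  unfold ZV Zp
  show pr (ZMod 2) (VV z []) (VV (fun i => -z i) []) (Tw (chi []) (dl (ZMod 2) ι)) = 1
  rw [Tw_dl, pr_apply, sup_nil a1.sup a1.one, sup_nil a2.sup a2.one, un_empty]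
  unfold dl
  rw [if_pos]
  rfl

end nil

variable {n' : ℂ} {A A' B : List ℂ}

theorem Nr_iff {L : List ℂ} : NUMv.Nr UU L ↔ (∀ a ∈ L, a ∈ Metric.ball z0 (rad L.length)) ∧ L.Nodup :=
  Iff.rfl

theorem WW_nil : WW n' [] [] = 1 := by
  obtain ⟨m, hm⟩ : ∃ m, m = 1 := ⟨_, rfl⟩
  obtain ⟨z, L1, L2, t, h1, h2, h3, h4, h5⟩ := exists_ctx2 m (r := rad 0) [] [] (by rw [hm]; simp)
    List.nodup_nil (by simp)
  have hr : NR (St m) (rad 0) := rad_NR (by omega)
  have e1 : L1 = [] := List.map_eq_nil_iff.1 h4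
  have e2 : L2 = [] := List.map_eq_nil_iff.1 h5
  subst e1 e2
  have e := W_eq (n' := n') h1 hr
  have e' : WW n' [] [] = Fr.qc (cv z ([] ++ [])) ^ 2 * ZV n' z [] [] := e
  have e3 : cv z ([] ++ []) = [] := rfl
  rw [e', e3, ZV_nil (c := Sum.inr 0) (h1.cx.regR hr) (h1.cx.regL hr), Fr.qc_nil]
  norm_num

theorem WW_perm (h : A.Perm A') (hN : NUMv.Nr UU (A ++ B)) : WW n' A B = WW n' A' B := by
  obtain ⟨m, hm⟩ : ∃ m, m = (A ++ B).length := ⟨_, rfl⟩
  obtain ⟨hN1, hN2⟩ := Nr_iff.1 hN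
  rw [← hm] at hN1
  obtain ⟨z, L1, L2, t, h1, h2, h3, rfl, rfl⟩ := exists_ctx2 (m + 1) A B (by omega) hN2 hN1
  have hr : NR (St (m + 1)) (rad m) := rad_NR (by omega)
  obtain ⟨L1', hp, rfl⟩ := exists_perm_map h L1 rfl
  have hp' : (L1 ++ L2).Perm (L1' ++ L2) := hp.append_right _
  have e1 := W_eq (n' := n') h1 hr
  have e2 := W_eq (n' := n') (h1.perm hp') hr
  show WW n' (rp z L1) (rp z L2) = WW n' (rp z L1') (rp z L2)
  rw [e1, e2, ZV_perm1 h1.cx hr hp]
  congr 2
  exact Fr.qc_perm (hp'.map _)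

theorem WW_rev (hN : NUMv.Nr UU (A ++ B)) : WW n' A B = WW n' B.reverse A.reverse := by
  obtain ⟨m, hm⟩ : ∃ m, m = (A ++ B).length := ⟨_, rfl⟩
  obtain ⟨hN1, hN2⟩ := Nr_iff.1 hN
  rw [← hm] at hN1
  obtain ⟨z, L1, L2, t, h1, h2, h3, rfl, rfl⟩ := exists_ctx2 (m + 1) A B (by omega) hN2 hN1
  have hr : NR (St (m + 1)) (rad m) := rad_NR (by omega)
  have e1 := W_eq (n' := n') h1 hr
  rw [e1, ZV_roles h1.cx hr]
  have hG := h1.cx.gd
  -- the lines with exchanged ends
  have hfst : ∀ L : List (St (m + 1) × St (m + 1)),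
      (L.map Prod.swap).map Prod.fst = L.map Prod.snd := fun L => by
    rw [List.map_map]
    rfl
  have hsnd : ∀ L : List (St (m + 1) × St (m + 1)),
      (L.map Prod.swap).map Prod.snd = L.map Prod.fst := fun L => by
    rw [List.map_map]
    rfl
  have hperm : ((L2.reverse ++ L1.reverse)).Perm (L1 ++ L2) :=
    ((List.reverse_perm L2).append (List.reverse_perm L1)).trans List.perm_append_comm
  have h4 := h1.perm hperm.symm
  have hrp : ∀ L : List (St (m + 1) × St (m + 1)),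
      (∀ u ∈ L, z u.2 = z u.1) → rp z (L.map Prod.swap) = rp z L := fun L hL => by
    unfold rp
    rw [List.map_map]
    exact List.map_congr_left fun u hu => hL u hu
  have h5 : Cs (rad m) z
      (L2.reverse.map Prod.swap ++ L1.reverse.map Prod.swap) Sum.inr := by
    rw [← List.map_append]
    have hs : ∀ u ∈ (L2.reverse ++ L1.reverse).map Prod.swap, ∃ v ∈ L2.reverse ++ L1.reverse,
        u = v.swap := fun u hu => by
      obtain ⟨v, hv, rfl⟩ := List.mem_map.1 hu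
      exact ⟨v, hv, rfl⟩
    refine ⟨⟨?_, ?_, ?_, ?_, h4.cx.bc, ?_, ?_⟩, h4.inj, ?_⟩
    · unfold Gd
      rw [hfst, hsnd]
      exact List.perm_append_comm.nodup_iff.1 h4.cx.gd
    · intro u hu
      obtain ⟨v, hv, rfl⟩ := hs u hu
      show z v.2 ∈ _
      rw [h4.cx.same v hv]
      exact h4.cx.near v hv
    · intro u hu
      obtain ⟨v, hv, rfl⟩ := hs u hu
      exact (h4.cx.same v hv).symm
    · have e := hrp _ h4.cx.same
      show (rp z ((L2.reverse ++ L1.reverse).map Prod.swap)).Nodup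
      rw [e]
      exact h4.cx.dist
    · intro u hu
      obtain ⟨v, hv, rfl⟩ := hs u hu
      exact ⟨(h4.cx.nb v hv).2, (h4.cx.nb v hv).1⟩
    · intro u hu
      obtain ⟨v, hv, rfl⟩ := hs u hu
      exact ⟨(h4.cx.nc v hv).2, (h4.cx.nc v hv).1⟩
    · intro k u hu
      obtain ⟨v, hv, rfl⟩ := hs u hu
      exact ⟨(h4.ns k v hv).2, (h4.ns k v hv).1⟩
  have e2 := W_eq (n' := n') h5 hr
  have s1 : rp z (L2.reverse.map Prod.swap) = (rp z L2).reverse := by
    rw [hrp _ fun u hu => h4.cx.same u (List.mem_append_left _ hu)]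
    unfold rp
    rw [List.map_reverse]
  have s2 : rp z (L1.reverse.map Prod.swap) = (rp z L1).reverse := by
    rw [hrp _ fun u hu => h4.cx.same u (List.mem_append_right _ hu)]
    unfold rp
    rw [List.map_reverse]
  rw [s1, s2] at e2
  rw [e2]
  congr 2
  rw [cv_eq, cv_eq]
  refine Fr.qc_perm (List.Perm.map _ ?_)
  rw [rp_append, rp_append, s1, s2]
  exact List.perm_append_comm.trans ((List.reverse_perm _).symm.append (List.reverse_perm _).symm)

theorem WW_perm2 {B' : List ℂ} (h : B.Perm B') (hN : NUMv.Nr UU (A ++ B)) : WW n' A B = WW n' A B' := by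
  have p1 : (A ++ B).Perm (B.reverse ++ A.reverse) :=
    List.perm_append_comm.trans ((List.reverse_perm _).symm.append (List.reverse_perm _).symm)
  have hp : B.reverse.Perm B'.reverse := ((List.reverse_perm B).trans h).trans (List.reverse_perm B').symm
  have p2 : (B.reverse ++ A.reverse).Perm (B'.reverse ++ A.reverse) := hp.append_right _
  have p3 : (A ++ B).Perm (A ++ B') := h.append_left _
  rw [WW_rev hN, WW_perm hp (hN.perm p1), WW_rev (hN.perm p3)]

theorem WW_roles (hN : NUMv.Nr UU (A ++ B)) : WW n' A B = WW n' B A := by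
  have p1 : (A ++ B).Perm (B.reverse ++ A.reverse) :=
    List.perm_append_comm.trans ((List.reverse_perm _).symm.append (List.reverse_perm _).symm)
  have p2 : (B.reverse ++ A.reverse).Perm (B ++ A.reverse) := (List.reverse_perm B).append_right _
  rw [WW_rev hN, WW_perm (List.reverse_perm B) (hN.perm p1),
    WW_perm2 (List.reverse_perm A) (hN.perm (p1.trans p2))]

/-- The polynomial in a context. -/
theorem PP_all (hN : NUMv.Nr UU (A ++ B)) :
    PPr n' A B (PP n' A B) ∧ (PP n' A B).natDegree ≤ 2 * (A ++ B).length ∧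
      (PP n' A B).coeff (2 * (A ++ B).length) = WW n' A B ∧
      (PP n' A B).eval (NUMv.kc 3) = NUMv.trivF ((A ++ B).map NUMv.cc) ^ 2 * WW n' A B := by
  obtain ⟨m, hm⟩ : ∃ m, m = (A ++ B).length := ⟨_, rfl⟩
  obtain ⟨hN1, hN2⟩ := Nr_iff.1 hN
  rw [← hm] at hN1
  obtain ⟨z, L1, L2, t, h1, h2, h3, h4, h5⟩ := exists_ctx2 (m + 1) A B (by omega) hN2 hN1
  have hl : (L1 ++ L2).length = m := by
    have := rp_len (z := z) (L := L1 ++ L2)
    rw [rp_append, h4, h5] at this
    omega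
  have hr : NR (St (m + 1)) (rad m) := rad_NR (by omega)
  rw [← hm]
  obtain ⟨g1, g2, g3, g4⟩ := PP_spec (n' := n') h1 h2 h3 hr (by rw [hl]; exact rad_anti _)
  rw [h4, h5, hl] at g2 g3
  rw [h4, h5] at g1 g4
  refine ⟨g1, g2, g3, ?_⟩
  have e := PV_triv (n' := n') (⟨h1.cx, h2, h3 0, h3 1⟩ : Cf _ z t (L1 ++ L2) _ _) hr
  have e2 := W_eq (n' := n') h1 hr
  rw [← g4, cc_hh] at e
  rw [h4, h5] at e2
  rw [e, e2, cv_eq, rp_append, h4, h5]
  ring

theorem PP_cross {q : ℂ} (hN : NUMv.Nr UU (q :: (A ++ B))) :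
    (PP n' (q :: A) B).eval (NUMv.cc (q - 3 * NUMv.el)) =
      NUMv.crossF q ((A ++ B).map NUMv.cc) ^ 2 * WW n' A B := by
  obtain ⟨m, hm⟩ : ∃ m, m = (A ++ B).length := ⟨_, rfl⟩
  obtain ⟨hN1, hN2⟩ := Nr_iff.1 hN
  rw [List.length_cons, ← hm] at hN1
  obtain ⟨z, L1, L2, t, h1, h2, h3, h4, h5⟩ := exists_ctx2 (m + 2) (q :: A) B
    (by rw [List.cons_append, List.length_cons]; omega) hN2 hN1
  obtain ⟨s, K, rfl, h6, h7⟩ := List.map_eq_cons_iff.1 h4
  have hs : rp z (s :: K) = q :: A := h4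
  have hl : ((s :: K) ++ L2).length = m + 1 := by
    rw [← rp_len (z := z), rp_append, hs, h5, hm]
    rfl
  have hr : NR (St (m + 2)) (rad (m + 1)) := rad_NR (by omega)
  obtain ⟨g1, g2, g3, g4⟩ := PP_spec (n' := n') h1 h2 h3 hr
    (by rw [hl]; exact rad_anti _)
  rw [hs, h5] at g4
  have e := PV_cross (n' := n') (s := s) (L1 := K) (L2 := L2)
    (⟨h1.cx, h2, h3 0, h3 1⟩ : Cf _ z t ((s :: K) ++ L2) _ _) hr
  have e2 := W_eq (n' := n') (L1 := K) (L2 := L2) h1.tail hr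
  have h7' : rp z K = A := h7
  rw [← g4, h6] at e
  rw [h7', h5] at e2
  rw [Fr.el_eq, e, e2, cv_eq, rp_append, h7', h5]
  ring

/-- The regularity of the rows when the rapidity of one row is changed. -/
theorem exists_S {ι : Type*} [DecidableEq ι] [Finite ι] {r : ℝ} {z : ι → ℂ} {s : ι × ι}
    {L : List (ι × ι)} {b c : ι} (h : Cx r z (s :: L) b c) (hr : NR ι r) :
    ∃ S : Set ℂ, S.Countable ∧ ∀ q, q ∉ S →
      Reg (up2 z s (q + lam)) ((s :: L).map Prod.fst) ∧
        Reg (fun i => -up2 z s (q + lam) i) ((s :: L).map Prod.snd) := by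
  have : Fintype ι := Fintype.ofFinite ι
  have hok := h.okP hr (t := s) (s := s) (by simp) (by simp)
  have u1 : Function.update z s.1 (z s.1) = z := Function.update_eq_self _ _
  have u2 : Function.update (fun i => -z i) s.2 (-z s.1) = fun i => -z i := by
    have := h.same s (by simp)
    rw [← this]
    exact Function.update_eq_self s.2 (fun i => -z i)
  obtain ⟨S1, c1, _, _, d1⟩ := far_regular (z := z) (x := s.1) (ζ0 := z s.1) h.gd.fst h.c1 hok.hm
    (by rw [u1]; exact h.regR hr)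
  obtain ⟨S2, c2, _, _, d2⟩ := far_regular (z := fun i => -z i) (x := s.2) (ζ0 := -z s.1) h.gd.snd h.c2
    (by rw [sub_neg_eq_add]; exact hok.hp) (by rw [u2]; exact h.regL hr)
  refine ⟨(fun q => q + lam) ⁻¹' S1 ∪ (fun q => -(q + lam)) ⁻¹' S2, ?_, ?_⟩
  · refine (c1.preimage (add_left_injective lam)).union (c2.preimage ?_)
    intro x y e
    exact add_left_injective lam (neg_injective e)
  · intro q hq
    rw [Set.mem_union, not_or] at hq
    have a1 := ((d1 _).1 hq.1).2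
    have a2 := ((d2 _).1 hq.2).2
    have hG := h.gd
    obtain ⟨e1, e2, e3⟩ := hG.up z (q + lam)
    have hn := h.gd.fst
    have hn' := h.gd.snd
    constructor
    · refine a1.congr fun i hi => ?_
      obtain ⟨u, hu, rfl⟩ := List.mem_map.1 hi
      rcases List.mem_cons.1 hu with rfl | hu'
      · rw [e1, Function.update_self]
      · have hne : u.1 ≠ s.1 := (Gd_cons.1 hG).2.1 u hu' |>.1.symm
        rw [(e3 u hu').1, Function.update_of_ne hne]
    · refine a2.congr fun i hi => ?_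
      obtain ⟨u, hu, rfl⟩ := List.mem_map.1 hi
      rcases List.mem_cons.1 hu with rfl | hu'
      · show Function.update (fun i => -z i) u.2 (-(q + lam)) u.2 = -up2 z u (q + lam) u.2
        rw [e2, Function.update_self]
      · have hne : u.2 ≠ s.2 := (Gd_cons.1 hG).2.1 u hu' |>.2.2.2.symm
        show Function.update (fun i => -z i) s.2 (-(q + lam)) u.2 = -up2 z s (q + lam) u.2
        rw [(e3 u hu').2, Function.update_of_ne hne]

theorem PP_fuse (hN : NUMv.Nr UU (A ++ B)) : ∃ S : Set ℂ, S.Countable ∧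
    ∀ q, q ∉ S → NUMv.Nr UU (q :: (A ++ B)) →
      (PP n' (q :: A) B).eval (NUMv.cc (q + 2 * NUMv.el)) =
        NUMv.fuseF q ((A ++ B).map NUMv.cc) ^ 2 * (PP n' A B).eval (NUMv.cc (q + NUMv.el)) := by
  obtain ⟨m, hm⟩ : ∃ m, m = (A ++ B).length := ⟨_, rfl⟩
  obtain ⟨hN1, hN2⟩ := Nr_iff.1 hN
  rw [← hm] at hN1
  -- a value for the line `q`
  obtain ⟨ζ1, hζ1⟩ := ((UU_inf m).sdiff (List.finite_toSet (A ++ B))).nonempty
  obtain ⟨z, K1, L2, t, h1, h2, h3, h4, h5⟩ := exists_ctx2 (m + 2) (r := rad m) (ζ1 :: A) B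
    (by rw [List.cons_append, List.length_cons]; omega) (List.nodup_cons.2 ⟨hζ1.2, hN2⟩)
    (fun a ha => by
      rcases List.mem_cons.1 ha with rfl | ha'
      · exact hζ1.1
      · exact hN1 a ha')
  obtain ⟨s, K, rfl, h6, h7⟩ := List.map_eq_cons_iff.1 h4
  have h7' : rp z K = A := h7
  have hr : NR (St (m + 2)) (rad m) := rad_NR (by omega)
  have hr' : NR (St (m + 2)) (rad (m + 1)) := rad_NR (by omega)
  have hl : (K ++ L2).length = m := by
    have := rp_len (z := z) (L := K ++ L2)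
    rw [rp_append, h7', h5] at this
    omega
  obtain ⟨S, hS, hreg⟩ := exists_S (L := K ++ L2) h1.cx hr
  refine ⟨S, hS, fun q hq hNq => ?_⟩
  obtain ⟨hq1, hq2⟩ := Nr_iff.1 hNq
  rw [List.length_cons, ← hm] at hq1
  have hGs : Gd (s :: (K ++ L2)) := h1.cx.gd
  have hcs : Cs (rad (m + 1)) z (K ++ L2) Sum.inr := by
    have h0 : Cs (rad m) z (K ++ L2) Sum.inr := h1.tail
    refine ⟨⟨h0.cx.gd, fun u hu => ?_, h0.cx.same, h0.cx.dist, h0.cx.bc, h0.cx.nb, h0.cx.nc⟩, h0.inj,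
      h0.ns⟩
    refine hq1 _ (List.mem_cons_of_mem _ ?_)
    rw [← h7', ← h5, ← rp_append]
    exact List.mem_map_of_mem hu
  have hss : ∀ k : Fin 4, (Sum.inr k : St (m + 2)) ≠ s.1 ∧ (Sum.inr k : St (m + 2)) ≠ s.2 :=
    fun k => h1.ns k s (by simp)
  have hqn : q ∉ rp z (K ++ L2) := by
    rw [rp_append, h7', h5]
    exact (List.nodup_cons.1 hq2).1
  have hcq : Cs (rad (m + 1)) (up2 z s q) (s :: (K ++ L2)) Sum.inr :=
    hcs.cons hGs hss (hq1 q (by simp)) hqn
  obtain ⟨e1, e2, e3⟩ := hGs.up z q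
  obtain ⟨f1, f2, f3⟩ := hGs.up z (q + lam)
  have ep := rp_up hGs z q
  have r1 : rp (up2 z s q) (s :: K) = q :: A := by
    have : rp (up2 z s q) K = rp z K := List.map_congr_left fun u hu => (e3 u (by simp [hu])).1
    show up2 z s q s.1 :: rp (up2 z s q) K = _
    rw [e1, this, h7']
  have r1' : rp (up2 z s q) K = A := by
    rw [← h7']
    exact List.map_congr_left fun u hu => (e3 u (by simp [hu])).1
  have r2 : rp (up2 z s q) L2 = B := by
    rw [← h5]
    exact List.map_congr_left fun u hu => (e3 u (by simp [hu])).1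
  have g1 := (PP_spec (n' := n') (L1 := s :: K) (L2 := L2) (t := t) hcq h2 h3 hr'
    (by
      show rad ((K ++ L2).length + 1 + 1) ≤ _
      rw [hl]
      exact rad_anti _)).2.2.2 (q + 2 * lam)
  have g2 := (PP_spec (n' := n') (L1 := K) (L2 := L2) (t := s) hcq.tail hGs hss hr'
    (by rw [hl])).2.2.2 (q + lam)
  rw [r1, r2] at g1
  rw [r1', r2] at g2
  obtain ⟨hR1, hR2⟩ := hreg q hq
  have key := PV_fuse (n' := n') (z := up2 z s q) (z' := up2 z s (q + lam)) (s := s) (L1 := K) (L2 := L2)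
    (⟨hcq.cx, h2, h3 0, h3 1⟩ : Cf _ (up2 z s q) t (s :: (K ++ L2)) _ _) hr' (rad_pos _)
    (by rw [f1, e1]) (by rw [f2, e1])
    (fun u hu => ⟨by rw [(f3 u hu).1, (e3 u hu).1], by rw [(f3 u hu).2, (e3 u hu).2]⟩) hR1 hR2
  rw [e1, ← g1, ← g2, cv_eq, ep, rp_append, h7', h5] at key
  rw [Fr.el_eq]
  exact key

/-- **The relations near the honeycomb point.** -/
theorem near_WW (n' : ℂ) : NUMv.Near UU (WW n') (PP n') where
  isOpen n := Metric.isOpen_ball
  nonempty n := ⟨z0, Metric.mem_ball_self (rad_pos n)⟩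
  anti n := UU_anti n
  inj := cc_inj 0
  nil := WW_nil
  perm h hN := WW_perm h hN
  roles hN := WW_roles hN
  deg hN := by
    have := (PP_all (n' := n') hN).2.1
    rwa [List.length_append] at this
  lead hN := by
    have := (PP_all (n' := n') hN).2.2.1
    rwa [List.length_append] at this
  val {t A B} hN := by
    have h1 := List.nodup_cons.1 hN.2
    have hN' : NUMv.Nr UU (A ++ B) := ⟨fun a ha => UU_anti _ (hN.1 a (List.mem_cons_of_mem _ ha)), h1.2⟩
    exact ((PP_all (n' := n') hN').1 t (hN.1 t (by simp)) h1.1).symm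
  triv hN := (PP_all (n' := n') hN).2.2.2
  cross hN := PP_cross hN
  fuse hN := PP_fuse hN

end Pool.Agent.NUF
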