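import Pool.Agent.NUF.PFix

/-!
# The exchange of a far line with the other lines, without denominators
-/

set_option autoImplicit false

namespace Pool.Agent.NUF

open Pool.Agent.EXL (okR okC xh rwt)
open Pool.Agent.EXL.Fm (Dn Wn R6 lam)
open Pool.Agent.EXL.HS (ind)

variable {ι : Type*} [DecidableEq ι]

theorem R6_symm (w₀ : ℂ) (w : EXL.Wt ℂ) (i j : ι) (F : EXL.Pat ι → ℂ) :
    R6 w₀ w i j F = R6 w₀ w j i F := by
  funext p
  have inv : ∀ x, p (p x) = x := p.inv
  unfold R6
  by_cases h1 : p i = i <;> by_cases h2 : p j = j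
  · simp only [h1, h2, if_true, EXL.Pat.cup_comm i j p]
  · simp only [h1, h2, if_true, if_false, EXL.Pat.swap_comm i j p]
  · simp only [h1, h2, if_true, if_false, EXL.Pat.swap_comm i j p]
  · by_cases h3 : p i = j
    · have h4 : p j = i := by rw [← h3, inv]
      simp only [h1, h2, if_false, if_pos h3, if_pos h4]
    · have h4 : p j ≠ i := fun e => h3 (by rw [← e, inv])
      simp only [h1, h2, if_false, if_neg h3, if_neg h4, EXL.Pat.swap_comm i j p,
        EXL.Pat.cut_comm i j p, EXL.Pat.cup_comm i j _]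

/-- The numerator of the rhombus. -/
theorem R6_num {u : ℂ} (h : okR u) {i j : ι} (hij : i ≠ j) (F : EXL.Pat ι → ℂ) :
    R6 (Dn u) (Wn u) i j F = Dn u • uops.R i j u F := by
  have hD : Dn u ≠ 0 := (EXL.Fm.okR_iff u).1 h
  funext p
  rw [uops_R_apply hij, EXL.Fm.rwt_eq, ← EXL.Fm.Wc_sc hD, EXL.Fm.R6_eq]
  rfl

theorem R6_add (w₀ : ℂ) (w : EXL.Wt ℂ) (i j : ι) (F G : EXL.Pat ι → ℂ) :
    R6 w₀ w i j (F + G) = R6 w₀ w i j F + R6 w₀ w i j G := by
  funext p
  simp only [R6, Pi.add_apply]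
  split_ifs <;> ring

theorem R6_smul' (c w₀ : ℂ) (w : EXL.Wt ℂ) (i j : ι) (F : EXL.Pat ι → ℂ) :
    R6 w₀ w i j (c • F) = c • R6 w₀ w i j F := by
  have h := EXL.Fm.R6_smul c w₀ w i j F
  funext p
  exact congrFun h p

/-- A line crosses the rows of the list (numerators). -/
noncomputable def MN (z : ι → ℂ) (p : ι) (ζ : ℂ) : List ι → (EXL.Pat ι → ℂ) → (EXL.Pat ι → ℂ)
  | [], F => F
  | x :: X, F => R6 (Dn (ζ - z x)) (Wn (ζ - z x)) p x (MN z p ζ X F)

/-- The denominators. -/
noncomputable def DNs (z : ι → ℂ) (ζ : ℂ) (X : List ι) : ℂ := (X.map fun x => Dn (ζ - z x)).prod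

variable {z : ι → ℂ} {p : ι} {ζ : ℂ} {X : List ι}

theorem MN_eq (hp : p ∉ X) (h : ∀ x ∈ X, okR (ζ - z x)) (F : EXL.Pat ι → ℂ) :
    MN z p ζ X F = DNs z ζ X • uops.M z p ζ X F := by
  induction X with
  | nil => simp [MN, DNs]
  | cons x X ih =>
    have hpx : p ≠ x := fun e => hp (by simp [e])
    rw [MN, ih (fun h' => hp (by simp [h'])) (fun y hy => h y (by simp [hy])), R6_smul',
      R6_num (h x (by simp)) hpx, EXL.Glob.Ops.M_cons, Module.End.mul_apply, smul_smul, DNs, DNs,
      List.map_cons, List.prod_cons, mul_comm]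

theorem MN_surj (hp : p ∉ X) (h : ∀ x ∈ X, okR (ζ - z x)) (h' : ∀ x ∈ X, okR (-(ζ - z x)))
    (G : EXL.Pat ι → ℂ) : ∃ F, MN z p ζ X F = G := by
  have W := ulaws (ι := ι)
  induction X generalizing G with
  | nil => exact ⟨G, rfl⟩
  | cons x X ih =>
    have hpx : p ≠ x := fun e => hp (by simp [e])
    have hx := h x (by simp)
    have hx' := h' x (by simp)
    have hD : Dn (ζ - z x) ≠ 0 := (EXL.Fm.okR_iff _).1 hx
    obtain ⟨F, hF⟩ := ih (fun h' => hp (by simp [h'])) (fun y hy => h y (by simp [hy]))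
      (fun y hy => h' y (by simp [hy])) ((Dn (ζ - z x))⁻¹ • uops.R p x (-(ζ - z x)) G)
    refine ⟨F, ?_⟩
    have l1 := W.L1 hpx hx hx'
    rw [MN, hF, R6_num hx hpx, map_smul, smul_smul, mul_inv_cancel₀ hD, one_smul]
    exact LinearMap.congr_fun l1 G

theorem diff_Dn : Differentiable ℂ Dn := by
  unfold Dn
  fun_prop

theorem diff_R6 {d : ℂ → ℂ} {w : ℂ → EXL.Wt ℂ} {G : ℂ → EXL.Pat ι → ℂ} (i j : ι)
    (hd : Differentiable ℂ d) (h1 : Differentiable ℂ fun s => (w s).v)
    (h2 : Differentiable ℂ fun s => (w s).u1) (h3 : Differentiable ℂ fun s => (w s).u2)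
    (h4 : Differentiable ℂ fun s => (w s).w1) (h5 : Differentiable ℂ fun s => (w s).w2)
    (hG : ∀ P, Differentiable ℂ fun s => G s P) (P : EXL.Pat ι) :
    Differentiable ℂ fun s => R6 (d s) (w s) i j (G s) P := by
  have g := hG
  by_cases e1 : P i = i
  · by_cases e2 : P j = j
    · have e : (fun s => R6 (d s) (w s) i j (G s) P) =
          fun s => d s * G s P + (w s).u2 * G s (EXL.Pat.cup i j P) := by
        funext s
        unfold R6
        rw [if_pos e1, if_pos e2]
      rw [e]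
      exact (hd.mul (g _)).add (h3.mul (g _))
    · have e : (fun s => R6 (d s) (w s) i j (G s) P) =
          fun s => (w s).v * G s P + (w s).u1 * G s (EXL.Pat.swap i j P) := by
        funext s
        unfold R6
        rw [if_pos e1, if_neg e2]
      rw [e]
      exact (h1.mul (g _)).add (h2.mul (g _))
  · by_cases e2 : P j = j
    · have e : (fun s => R6 (d s) (w s) i j (G s) P) =
          fun s => (w s).v * G s P + (w s).u1 * G s (EXL.Pat.swap i j P) := by
        funext s
        unfold R6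
        rw [if_neg e1, if_pos e2]
      rw [e]
      exact (h1.mul (g _)).add (h2.mul (g _))
    · by_cases e3 : P i = j
      · have e : (fun s => R6 (d s) (w s) i j (G s) P) = fun s => (w s).w1 * G s P := by
          funext s
          unfold R6
          rw [if_neg e1, if_neg e2, if_pos e3]
        rw [e]
        exact h4.mul (g _)
      · have e : (fun s => R6 (d s) (w s) i j (G s) P) = fun s =>
            (w s).w1 * G s (EXL.Pat.swap i j P) + (w s).u2 * G s (EXL.Pat.cut i j P) +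
              (w s).w2 * G s (EXL.Pat.cup i j (EXL.Pat.cut i j P)) := by
          funext s
          unfold R6
          rw [if_neg e1, if_neg e2, if_neg e3]
        rw [e]
        exact ((h4.mul (g _)).add (h3.mul (g _))).add (h5.mul (g _))

theorem diff_MN (z : ι → ℂ) (p : ι) (X : List ι) (F : EXL.Pat ι → ℂ) (P : EXL.Pat ι) :
    Differentiable ℂ fun ζ => MN z p ζ X F P := by
  induction X generalizing P with
  | nil => exact differentiable_const _
  | cons x X ih =>
    refine diff_R6 p x ?_ ?_ ?_ ?_ ?_ ?_ ih P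
    · unfold Dn; fun_prop
    all_goals (unfold Wn; fun_prop)

omit [DecidableEq ι] in
theorem diff_DNs (z : ι → ℂ) (X : List ι) : Differentiable ℂ fun ζ => DNs z ζ X := by
  induction X with
  | nil => exact differentiable_const _
  | cons x X ih =>
    have e : (fun ζ => DNs z ζ (x :: X)) = fun ζ => Dn (ζ - z x) * DNs z ζ X := by
      funext ζ
      rw [DNs, List.map_cons, List.prod_cons]
      rfl
    rw [e]
    refine Differentiable.mul ?_ ih
    unfold Dn
    fun_prop

omit [DecidableEq ι] in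
/-- A functional with entire coefficients on a function with entire values. -/
theorem diff_fnl [Finite ι] {fam : ℂ → Fnl ι} {G : ℂ → EXL.Pat ι → ℂ}
    (hf : ∀ F, Differentiable ℂ fun s => fam s F) (hG : ∀ P, Differentiable ℂ fun s => G s P) :
    Differentiable ℂ fun s => fam s (G s) := by
  classical
  have : Fintype (EXL.Pat ι) := Fintype.ofFinite _
  have e : (fun s => fam s (G s)) = fun s => ∑ q, G s q * fam s (ind q) := by
    funext s
    have h1 : G s = ∑ q, G s q • (ind q : EXL.Pat ι → ℂ) := by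
      conv_lhs => rw [EXL.HS.eq_sum_ind (G s)]
      funext p
      simp only [Finset.sum_apply, Pi.smul_apply, smul_eq_mul]
    conv_lhs => rw [h1]
    rw [map_sum]
    exact Finset.sum_congr rfl fun q _ => by rw [map_smul, smul_eq_mul]
  rw [e]
  exact Differentiable.fun_sum fun q _ => (hG q).mul (hf _)

/-- **The exchange identity for every rapidity of the far line.** -/
theorem far_exch [Finite ι] {fam famT : ℂ → Fnl ι} (hf : ∀ F, Differentiable ℂ fun s => fam s F)
    (hfT : ∀ F, Differentiable ℂ fun s => famT s F) (hp : p ∉ X) {ζ0 : ℂ}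
    (h : ∀ᶠ ζ in nhds ζ0, (∀ x ∈ X, okR (ζ - z x)) ∧ fam ζ ∘ₗ uops.M z p ζ X = famT ζ)
    (ζ : ℂ) (F : EXL.Pat ι → ℂ) : fam ζ (MN z p ζ X F) = DNs z ζ X * famT ζ F := by
  have d1 : Differentiable ℂ fun ζ => fam ζ (MN z p ζ X F) := diff_fnl hf (diff_MN z p X F)
  have d2 : Differentiable ℂ fun ζ => DNs z ζ X * famT ζ F := (diff_DNs z X).mul (hfT F)
  have e : (fun ζ => fam ζ (MN z p ζ X F)) = fun ζ => DNs z ζ X * famT ζ F := by
    refine AnalyticOnNhd.eq_of_eventuallyEq (𝕜 := ℂ) (z₀ := ζ0) (fun x _ => ?_) (fun x _ => ?_) ?_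
    · exact d1.analyticAt x
    · exact d2.analyticAt x
    · filter_upwards [h] with s hs
      rw [MN_eq hp hs.1, map_smul, smul_eq_mul, ← hs.2, LinearMap.comp_apply]
  exact congrFun e ζ

/-- **At the fusion point the numerator of the rhombus annihilates the functional.** -/
theorem far_N [Finite ι] {fam famT : ℂ → Fnl ι} (hf : ∀ F, Differentiable ℂ fun s => fam s F)
    (hfT : ∀ F, Differentiable ℂ fun s => famT s F) {q : ι} {Y : List ι} (hp : p ∉ q :: Y) {ζ0 : ℂ}
    (h : ∀ᶠ ζ in nhds ζ0, (∀ x ∈ q :: Y, okR (ζ - z x)) ∧ fam ζ ∘ₗ uops.M z p ζ (q :: Y) = famT ζ)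
    (hζ : ζ = z q - 2 * lam) (h1 : ∀ x ∈ Y, okR (ζ - z x)) (h2 : ∀ x ∈ Y, okR (-(ζ - z x)))
    (G : EXL.Pat ι → ℂ) : fam ζ (R6 (Dn (-(2 * lam))) (Wn (-(2 * lam))) q p G) = 0 := by
  have e0 : ζ - z q = -(2 * lam) := by rw [hζ]; ring
  obtain ⟨F, hF⟩ := MN_surj (z := z) (p := p) (ζ := ζ) (X := Y) (fun h' => hp (by simp [h'])) h1 h2 G
  have key := far_exch hf hfT hp h ζ F
  have hD : DNs z ζ (q :: Y) = 0 := by
    rw [DNs, List.map_cons, List.prod_cons, e0, D_m2, zero_mul]
  rw [hD, zero_mul, MN, hF, e0, R6_symm] at key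
  exact key

end Pool.Agent.NUF
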