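import Pool.Agent.NUF.PGlue
import Pool.Agent.NUF.UOps

/-!
# Gluing of two functionals

`gm ν L` = the lines `t.1`, `t.2` are glued for all pairs `t` of `L`; nothing else is occupied.
-/

set_option autoImplicit false

namespace Pool.Agent.NUF

open LPat
open Pool.Agent.EXL (okR okC)

section dl

variable {Γ ι : Type*} [AddCommGroup Γ] [DecidableEq ι] {ν : Γ → ℂ}

open Classical in
variable (Γ ι) in
/-- The empty state. -/
noncomputable def dl : LPat Γ ι → ℂ := fun p => if p = LPat.empty then 1 else 0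

theorem swap_empty (i j : ι) : LPat.swap i j (LPat.empty : LPat Γ ι) = LPat.empty := by
  refine LPat.ext (funext fun x => ?_) (funext fun x => ?_)
  · show Equiv.swap i j (Equiv.swap i j x) = x
    rw [Equiv.swap_apply_self]
  · rfl

theorem swap_swap_self (i j : ι) (p : LPat Γ ι) : LPat.swap i j (LPat.swap i j p) = p := by
  refine LPat.ext (funext fun x => ?_) (funext fun x => ?_)
  · show LPat.swap i j (LPat.swap i j p) x = p x
    rw [swap_f, swap_f, Equiv.swap_apply_self, Equiv.swap_apply_self]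
  · rw [swap_s, swap_s, Equiv.swap_apply_self]

theorem P_apply (i j : ι) (F : LPat Γ ι → ℂ) (p : LPat Γ ι) :
    (cops ν).P i j F p = F (LPat.swap i j p) := by
  show repL ν id (wsw i j) F p = _
  rw [repL, wsw, FreeAlgebra.lift_ι_apply]
  rfl

theorem P_dl (i j : ι) : (cops ν).P i j (dl Γ ι) = dl Γ ι := by
  funext p
  rw [P_apply]
  unfold dl
  by_cases h : p = LPat.empty
  · rw [if_pos h, if_pos (by rw [h, swap_empty])]
  · rw [if_neg h, if_neg (fun e => h (by rw [← swap_swap_self i j p, e, swap_empty]))]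

omit [DecidableEq ι] in
theorem gau_empty (χ : ι → Γ) : LPat.gau χ (LPat.empty : LPat Γ ι) = LPat.empty := by
  refine LPat.ext (funext fun x => rfl) (funext fun x => ?_)
  rw [gau_s]
  show (0 : Γ) + χ x - χ x = 0
  abel

omit [DecidableEq ι] in
theorem Tw_dl (χ : ι → Γ) : Tw χ (dl Γ ι) = dl Γ ι := by
  funext p
  show dl Γ ι (LPat.gau χ p) = dl Γ ι p
  unfold dl
  by_cases h : p = LPat.empty
  · rw [if_pos h, if_pos (by rw [h, gau_empty])]
  · rw [if_neg h, if_neg]
    intro e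
    apply h
    have h1 : LPat.gau (-χ) (LPat.gau χ p) = LPat.empty := by rw [e, gau_empty]
    rwa [gau_gau, neg_add_cancel, gau_zero] at h1

end dl

section gm

variable {Γ ι : Type*} [AddCommGroup Γ] [DecidableEq ι] {ν : Γ → ℂ}

/-- The pairs of `L` are glued, nothing else is occupied. -/
noncomputable def gm (ν : Γ → ℂ) (L : List (ι × ι)) : LPat Γ ι → ℂ :=
  (L.map fun t => (cops ν).glue t.1 t.2).prod (dl Γ ι)

theorem gm_nil : gm ν ([] : List (ι × ι)) = dl Γ ι := rfl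

theorem gm_cons (t : ι × ι) (L : List (ι × ι)) :
    gm ν (t :: L) = (cops ν).glue t.1 t.2 (gm ν L) := by
  unfold gm
  rw [List.map_cons, List.prod_cons, Module.End.mul_apply]

theorem glueL (a b : ι) : (cops (Γ := Γ) ν).glue a b =
    if a = b then 0 else lE Γ ℂ a * lE Γ ℂ b + lCt ν a b := by
  show repL ν id (if a = b then 0 else wglue a b) = _
  by_cases h : a = b
  · rw [if_pos h, if_pos h, map_zero]
  · rw [if_neg h, if_neg h, wglue, map_add, map_mul, repL, we, we, wct, FreeAlgebra.lift_ι_apply,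
      FreeAlgebra.lift_ι_apply, FreeAlgebra.lift_ι_apply]
    rfl

theorem comm_glue (hν : ∀ g, ν (-g) = ν g) {a b c d : ι} (h1 : a ≠ c) (h2 : a ≠ d) (h3 : b ≠ c)
    (h4 : b ≠ d) : Commute ((cops (Γ := Γ) ν).glue a b) ((cops ν).glue c d) := by
  rw [glueL, glueL]
  split_ifs
  · exact Commute.zero_left _
  · exact Commute.zero_left _
  · exact Commute.zero_right _
  · have e1 : Commute (lE Γ ℂ a) (lE Γ ℂ c) := comm_E_E _ _
    have e2 : Commute (lE Γ ℂ a) (lE Γ ℂ d) := comm_E_E _ _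
    have e3 : Commute (lE Γ ℂ b) (lE Γ ℂ c) := comm_E_E _ _
    have e4 : Commute (lE Γ ℂ b) (lE Γ ℂ d) := comm_E_E _ _
    have e5 : Commute (lE Γ ℂ a) (lCt ν c d) := comm_E_Ct h1 h2
    have e6 : Commute (lE Γ ℂ b) (lCt ν c d) := comm_E_Ct h3 h4
    have e7 : Commute (lE Γ ℂ c) (lCt ν a b) := comm_E_Ct h1.symm h3.symm
    have e8 : Commute (lE Γ ℂ d) (lCt ν a b) := comm_E_Ct h2.symm h4.symm
    have e9 : Commute (lCt ν a b) (lCt ν c d) := comm_Ct_Ct hν h1.symm h3.symm h2.symm h4.symm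
    exact (((e1.mul_right e2).mul_left (e3.mul_right e4)).add_right (e5.mul_left e6)).add_left
      ((e7.symm.mul_right e8.symm).add_right e9)

/-- The sites of the pairs are different. -/
def Gd (L : List (ι × ι)) : Prop := (L.map Prod.fst ++ L.map Prod.snd).Nodup

omit [DecidableEq ι] in
theorem Gd.perm {L L' : List (ι × ι)} (h : Gd L) (hp : L.Perm L') : Gd L' :=
  ((hp.map Prod.fst).append (hp.map Prod.snd)).nodup_iff.1 h

omit [DecidableEq ι] in
theorem Gd_cons {t : ι × ι} {L : List (ι × ι)} :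
    Gd (t :: L) ↔ t.1 ≠ t.2 ∧ (∀ s ∈ L, t.1 ≠ s.1 ∧ t.1 ≠ s.2 ∧ t.2 ≠ s.1 ∧ t.2 ≠ s.2) ∧ Gd L := by
  unfold Gd
  rw [List.map_cons, List.map_cons, List.cons_append, List.nodup_cons]
  have e : (L.map Prod.fst ++ t.2 :: L.map Prod.snd).Perm
      (t.2 :: (L.map Prod.fst ++ L.map Prod.snd)) := List.perm_middle
  rw [e.nodup_iff, List.nodup_cons]
  simp only [List.mem_append, List.mem_cons, List.mem_map, not_or, not_exists, not_and]
  constructor
  · rintro ⟨⟨h1, h2, h3⟩, ⟨h4, h5⟩, h6⟩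
    exact ⟨h2, fun s hs => ⟨fun e => h1 s hs e.symm, fun e => h3 s hs e.symm,
      fun e => h4 s hs e.symm, fun e => h5 s hs e.symm⟩, h6⟩
  · rintro ⟨h2, h, h6⟩
    exact ⟨⟨fun s hs e => (h s hs).1 e.symm, h2, fun s hs e => (h s hs).2.1 e.symm⟩,
      ⟨fun s hs e => (h s hs).2.2.1 e.symm, fun s hs e => (h s hs).2.2.2 e.symm⟩, h6⟩

theorem gm_perm (hν : ∀ g, ν (-g) = ν g) {L L' : List (ι × ι)} (hL : Gd L) (hp : L.Perm L') :
    gm ν L = gm ν L' := by
  induction hp with
  | nil => rfl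
  | cons t hp ih =>
    rw [gm_cons, gm_cons, ih (Gd_cons.1 hL).2.2]
  | swap s t L =>
    rw [gm_cons, gm_cons, gm_cons, gm_cons, ← Module.End.mul_apply, ← Module.End.mul_apply]
    have h := (Gd_cons.1 hL).2.1 s (by simp)
    rw [(comm_glue hν h.1 h.2.1 h.2.2.1 h.2.2.2).eq]
  | trans h1 h2 ih1 ih2 => rw [ih1 hL, ih2 (hL.perm h1)]

theorem comm_P_glue {i j a b : ι} (h1 : a ≠ i) (h2 : a ≠ j) (h3 : b ≠ i) (h4 : b ≠ j) :
    Commute ((cops (Γ := Γ) ν).P i j) ((cops ν).glue a b) := by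
  have e : (cops (Γ := Γ) ν).P i j = lSw Γ ℂ i j := by
    show repL ν id (wsw i j) = _
    rw [repL, wsw, FreeAlgebra.lift_ι_apply]
    rfl
  rw [e, glueL]
  split_ifs
  · exact Commute.zero_right _
  · exact (((comm_E_Sw h1 h2).symm).mul_right ((comm_E_Sw h3 h4).symm)).add_right
      (comm_Sw_Ct h1 h2 h3 h4)

theorem P_gm {i j : ι} {L : List (ι × ι)} (h : ∀ s ∈ L, i ≠ s.1 ∧ i ≠ s.2 ∧ j ≠ s.1 ∧ j ≠ s.2) :
    (cops ν).P i j (gm ν L) = gm ν L := by
  induction L with
  | nil => exact P_dl i j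
  | cons s L ih =>
    have h1 := h s (by simp)
    have c : Commute ((cops (Γ := Γ) ν).P i j) ((cops ν).glue s.1 s.2) :=
      comm_P_glue h1.1.symm h1.2.2.1.symm h1.2.1.symm h1.2.2.2.symm
    rw [gm_cons, ← Module.End.mul_apply, c.eq, Module.End.mul_apply,
      ih fun s hs => h s (by simp [hs])]

end gm

section sup

variable {ι K : Type*} [DecidableEq ι] [CommRing K]

/-- A word on the sites of `S` preserves the support `S`. -/
theorem SupS.comp {S : Set ι} {V : Module.Dual K (EXL.Pat ι → K)} (h : SupS S V) {w : Wd K ι}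
    (hw : On S w) : SupS S (V ∘ₗ rep0 K id w) := by
  have key : ∀ F : EXL.Pat ι → K, (∀ p, (∀ x, x ∉ S → p x = x) → F p = 0) →
      ∀ p, (∀ x, x ∉ S → p x = x) → rep0 K id w F p = 0 := by
    induction hw using Algebra.adjoin_induction with
    | algebraMap r =>
      intro F hF p hp
      rw [AlgHom.commutes, Module.algebraMap_end_apply, Pi.smul_apply, hF p hp, smul_zero]
    | mem x hx =>
      obtain ⟨a, ha, rfl⟩ := hx
      intro F hF p hp
      rw [rep0, FreeAlgebra.lift_ι_apply]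
      cases ha with
      | @e i hi =>
        simp only [EXL.opE_apply, id]
        split_ifs
        · exact hF p hp
        · rfl
      | @sw i j hi hj =>
        simp only [EXL.opSw_apply, id]
        refine hF _ fun x hx => ?_
        have h1 : x ≠ i := fun e => hx (e ▸ hi)
        have h2 : x ≠ j := fun e => hx (e ▸ hj)
        rw [EXL.swap_apply, Equiv.swap_apply_of_ne_of_ne h1 h2, hp x hx,
          Equiv.swap_apply_of_ne_of_ne h1 h2]
      | @cu i j hi hj =>
        simp only [EXL.opCu_apply, id]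
        split_ifs with hc
        · refine hF _ fun x hx => ?_
          have h1 : x ≠ i := fun e => hx (e ▸ hi)
          have h2 : x ≠ j := fun e => hx (e ▸ hj)
          rw [EXL.cup_apply hc, if_neg h1, if_neg h2, hp x hx]
        · rfl
      | @ct i j hi hj =>
        simp only [EXL.opCt_apply, id]
        split_ifs with hc
        · refine hF _ fun x hx => ?_
          have h1 : x ≠ i := fun e => hx (e ▸ hi)
          have h2 : x ≠ j := fun e => hx (e ▸ hj)
          have inv : ∀ x, p (p x) = x := p.inv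
          have h3 := hp x hx
          have h4 : x ≠ p i := fun e => h1 (by rw [← inv i, ← e, h3])
          have h5 : x ≠ p j := fun e => h2 (by rw [← inv j, ← e, h3])
          rw [EXL.cut_apply hc, if_neg h1, if_neg h2, if_neg h4, if_neg h5, h3]
        · rfl
    | mul a b _ _ ha hb =>
      intro F hF p hp
      rw [map_mul, Module.End.mul_apply]
      exact ha _ (hb F hF) p hp
    | add a b _ _ ha hb =>
      intro F hF p hp
      rw [map_add, LinearMap.add_apply, Pi.add_apply, ha F hF p hp, hb F hF p hp, add_zero]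
  intro F hF
  rw [LinearMap.comp_apply]
  exact h _ (key F hF)

omit [DecidableEq ι] in
theorem On.mono {S T : Set ι} {w : Wd K ι} (h : On S w) (hST : S ⊆ T) : On T w := by
  refine Algebra.adjoin_mono ?_ h
  rintro x ⟨g, hg, rfl⟩
  refine ⟨g, ?_, rfl⟩
  cases hg with
  | e h1 => exact .e (hST h1)
  | sw h1 h2 => exact .sw (hST h1) (hST h2)
  | cu h1 h2 => exact .cu (hST h1) (hST h2)
  | ct h1 h2 => exact .ct (hST h1) (hST h2)

end sup

section cwOn

variable {ι : Type*} [DecidableEq ι] {T : Set ι} {i j : ι}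

omit [DecidableEq ι] in
theorem On.ite {c : Prop} [Decidable c] {w : Wd ℂ ι} (h : On T w) : On T (if c then 0 else w) := by
  split_ifs
  · exact On.zero
  · exact h

theorem On.cR (hi : i ∈ T) (hj : j ∈ T) (u : ℂ) : On T (cw.R i j u) := (On.R _ hi hj).ite

theorem On.cU (hi : i ∈ T) (hj : j ∈ T) : On T (cw.U i j) := (On.U hi hj).ite

theorem On.cglue (hi : i ∈ T) (hj : j ∈ T) : On T (cw.glue i j) := (On.glue hi hj).ite

theorem On.cY (hi : i ∈ T) (hj : j ∈ T) : On T (cw.Y i j) := (On.Y _ hi hj).ite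

theorem On.cYt (hi : i ∈ T) (hj : j ∈ T) : On T (cw.Yt i j) := (On.Yt _ hi hj).ite

theorem On.cE (hi : i ∈ T) : On T (cw.E i) := On.e hi

end cwOn

section E

variable {ι : Type*} [DecidableEq ι] {S : Set ι} {V : Module.Dual ℂ (EXL.Pat ι → ℂ)} {i : ι}

theorem SupS.E (h : SupS S V) (hi : i ∉ S) : V ∘ₗ uops.E i = V := by
  refine LinearMap.ext fun F => ?_
  rw [LinearMap.comp_apply]
  refine h.congr fun p hp => ?_
  rw [uops_E_apply]
  show EXL.emp i F p = F p
  unfold EXL.emp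
  rw [if_pos (hp i hi)]

end E

section pairing

variable {Γ ι : Type*} [AddCommGroup Γ] [DecidableEq ι] [Finite ι] {ν : Γ → ℂ}
  (hν : ∀ g, ν (-g) = ν g) (h0 : ν 0 = 0) {S S' : Set ι}
  {V V' : Module.Dual ℂ (EXL.Pat ι → ℂ)} {χ : ι → Γ}

include hν h0

/-- Exchange of two lines of a group. -/
theorem pr_RR (hV : SupS S V) (hV' : SupS S' V') (hd : Disjoint S S') {j k j' k' : ι} {w : ℂ}
    {L : List (ι × ι)} (hL : Gd ((j, j') :: (k, k') :: L)) (m1 : j ∈ S) (m2 : k ∈ S)
    (m3 : j' ∈ S') (m4 : k' ∈ S') (x1 : χ j = χ k) (x2 : χ j' = χ k') (a1 : okR w) (a2 : okR (-w))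
    (a3 : okR ((cops (ι := ι) ν).h + (cops (ι := ι) ν).h - w))
    (a4 : okR (w - ((cops (ι := ι) ν).h + (cops (ι := ι) ν).h))) :
    pr Γ (V ∘ₗ uops.R j k w) (V' ∘ₗ uops.R j' k' (-w)) (Tw χ (gm ν ((j, j') :: (k, k') :: L))) =
      pr Γ V V' (Tw χ (gm ν ((j, j') :: (k, k') :: L))) := by
  have W := laws (ι := ι) hν h0
  set s := cops (ι := ι) ν with hs
  obtain ⟨e1, e2, e3⟩ := Gd_cons.1 hL
  obtain ⟨e4, e5, e6, e7⟩ := e2 (k, k') (by simp)
  obtain ⟨e8, -, -⟩ := Gd_cons.1 e3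
  simp only at e1 e4 e5 e6 e7 e8
  have q1 : On S'ᶜ (cw.R j k w) := On.cR (T := S'ᶜ) (fun h => Set.disjoint_left.1 hd m1 h)
    (fun h => Set.disjoint_left.1 hd m2 h) w
  have q2 : On Sᶜ (cw.R j' k' (-w)) := On.cR (T := Sᶜ) (fun h => Set.disjoint_left.1 hd h m3)
    (fun h => Set.disjoint_left.1 hd h m4) (-w)
  have q3 : On S' (cw.R j' k' (-w)) := On.cR m3 m4 (-w)
  show pr Γ (V ∘ₗ rep0 ℂ id (cw.R j k w)) (V' ∘ₗ rep0 ℂ id (cw.R j' k' (-w))) _ = _
  rw [pr_left h0 hV (hV'.comp q3) hd q1, pr_right h0 hV hV' hd q2]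
  congr 1
  show s.R j' k' (-w) (s.R j k w (Tw χ (gm ν ((j, j') :: (k, k') :: L)))) = _
  rw [gm_cons, gm_cons]
  have c1 : Commute (Tw χ) (s.R j k w) := tR x1 w
  have c2 : Commute (Tw χ) (s.R j' k' (-w)) := tR x2 (-w)
  have r := RG hν h0 (w := w) e4 e1 e5 (Ne.symm e6) e8 e7 a1 a2 a3 a4
  rw [← hs] at r
  have l1 := W.L1 (i := j') (j := k') (u := -w) e7 a2 (by rw [neg_neg]; exact a1)
  rw [neg_neg] at l1
  have key : s.R j' k' (-w) * s.R j k w * Tw χ * (s.glue j j' * s.glue k k') =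
      Tw χ * (s.glue j j' * s.glue k k') := by
    calc s.R j' k' (-w) * s.R j k w * Tw χ * (s.glue j j' * s.glue k k')
        = s.R j' k' (-w) * (s.R j k w * Tw χ) * (s.glue j j' * s.glue k k') := by
          simp only [mul_assoc]
      _ = (s.R j' k' (-w) * Tw χ) * (s.R j k w * (s.glue j j' * s.glue k k')) := by
          rw [← c1.eq]; simp only [mul_assoc]
      _ = Tw χ * (s.R j' k' (-w) * s.R j' k' w) * (s.glue j j' * s.glue k k') := by
          rw [← c2.eq, r]; simp only [mul_assoc]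
      _ = _ := by rw [l1, mul_one]
  exact congrArg (fun x : Module.End ℂ (LPat Γ ι → ℂ) => x (gm ν L)) key

/-- A U-turn in the first factor: the two lines of the second factor are joined. -/
theorem pr_U (hV : SupS S V) (hV' : SupS S' V') {p i p' i' : ι} {L : List (ι × ι)}
    (hL : Gd ((p, p') :: (i, i') :: L)) (hp : p ∉ S) (hi : i ∉ S) (hp' : p ∉ S') (hi' : i ∉ S')
    (n1 : p' ∉ S) (n2 : i' ∉ S) (hd : Disjoint S S') (x1 : χ p = χ i) (x2 : χ p' = χ i') :
    pr Γ (V ∘ₗ uops.U p i) V' (Tw χ (gm ν ((p, p') :: (i, i') :: L))) =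
      pr Γ V (V' ∘ₗ uops.glue p' i') (Tw χ (gm ν L)) := by
  have W := laws (ι := ι) hν h0
  set s := cops (ι := ι) ν with hs
  obtain ⟨e1, e2, e3⟩ := Gd_cons.1 hL
  obtain ⟨e4, e5, e6, e7⟩ := e2 (i, i') (by simp)
  obtain ⟨e8, e9, -⟩ := Gd_cons.1 e3
  simp only at e1 e4 e5 e6 e7 e8
  have q1 : On S'ᶜ (cw.U p i) := On.cU hp' hi'
  have q2 : On Sᶜ (cw.glue p' i') := On.cglue n1 n2
  show pr Γ (V ∘ₗ rep0 ℂ id (cw.U p i)) V' _ = pr Γ V (V' ∘ₗ rep0 ℂ id (cw.glue p' i')) _
  rw [pr_left h0 hV hV' hd q1, pr_right h0 hV hV' hd q2]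
  show pr Γ V V' (s.U p i (Tw χ (gm ν ((p, p') :: (i, i') :: L)))) =
    pr Γ V V' (s.glue p' i' (Tw χ (gm ν L)))
  rw [gm_cons, gm_cons]
  have c1 : Commute (Tw χ) (s.U p i) := tU x1
  have c2 : Commute (Tw χ) (s.glue p' i') := tglue x2
  have c3 : Commute (Tw χ) (s.E p) := tE χ p
  have c4 : Commute (Tw χ) (s.E i) := tE χ i
  have g1 : s.glue p p' * s.glue i i' = s.glue i i' * s.glue p p' := (comm_glue hν e4 e5 e6 e7).eq
  have g2 : s.P p i' * s.glue p p' = s.glue i' p' * s.P p i' := W.Pglue e5 e1 (Ne.symm e7)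
  have g3 := UG hν h0 (i := p) (j := i) (k := i') e4 e5 e8
  rw [← hs] at g3
  have key : s.U p i * Tw χ * (s.glue p p' * s.glue i i') =
      (s.E p * s.E i) * (s.glue p' i' * Tw χ * s.P p i') := by
    calc s.U p i * Tw χ * (s.glue p p' * s.glue i i')
        = Tw χ * (s.U p i * s.glue i i') * s.glue p p' := by
          rw [← c1.eq, g1]; simp only [mul_assoc]
      _ = Tw χ * (s.E p * s.E i) * (s.P p i' * s.glue p p') := by rw [g3]; simp only [mul_assoc]
      _ = (Tw χ * s.E p) * s.E i * s.glue p' i' * s.P p i' := by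
          rw [g2, W.gs]; simp only [mul_assoc]
      _ = s.E p * (Tw χ * s.E i) * s.glue p' i' * s.P p i' := by
          rw [c3.eq]; simp only [mul_assoc]
      _ = s.E p * s.E i * (Tw χ * s.glue p' i') * s.P p i' := by
          rw [c4.eq]; simp only [mul_assoc]
      _ = _ := by rw [c2.eq]; simp only [mul_assoc]
  have k2 : s.P p i' (gm ν L) = gm ν L := by
    refine P_gm fun t ht => ?_
    have h1 := e2 t (by simp [ht])
    have h2 := e9 t ht
    exact ⟨h1.1, h1.2.1, h2.2.2.1, h2.2.2.2⟩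
  have k3 := congrArg (fun x : Module.End ℂ (LPat Γ ι → ℂ) => x (gm ν L)) key
  simp only [Module.End.mul_apply] at k3
  rw [k2] at k3
  rw [k3]
  have q3 : On S'ᶜ (cw.E p) := On.cE hp'
  have q4 : On S'ᶜ (cw.E i) := On.cE hi'
  have f1 : ∀ F, pr Γ V V' (s.E p F) = pr Γ V V' F := by
    intro F
    have := pr_left h0 hV hV' hd q3 F
    rw [show V ∘ₗ rep0 ℂ id (cw.E p) = V from hV.E hp] at this
    exact this.symm
  have f2 : ∀ F, pr Γ V V' (s.E i F) = pr Γ V V' F := by
    intro F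
    have := pr_left h0 hV hV' hd q4 F
    rw [show V ∘ₗ rep0 ℂ id (cw.E i) = V from hV.E hi] at this
    exact this.symm
  rw [f1, f2]

/-- Fusion: the two lines `a'`, `b'` come from the line `a'` of the second factor. -/
theorem pr_Y (hV : SupS S V) (hV' : SupS S' V') (hd : Disjoint S S') {a b a' b' : ι}
    {L : List (ι × ι)} (hL : Gd ((a, a') :: (b, b') :: L)) (m1 : a ∈ S) (m2 : b ∈ S)
    (m3 : a' ∈ S') (m4 : b' ∉ S') (m5 : b' ∉ S) (x1 : χ a = χ b) (x2 : χ a' = χ b') :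
    pr Γ V (V' ∘ₗ uops.Y a' b') (Tw χ (gm ν ((a, a') :: (b, b') :: L))) =
      pr Γ (V ∘ₗ uops.Yt a b) V' (Tw χ (gm ν ((a, a') :: L))) := by
  have W := laws (ι := ι) hν h0
  set s := cops (ι := ι) ν with hs
  obtain ⟨e1, e2, e3⟩ := Gd_cons.1 hL
  obtain ⟨e4, e5, e6, e7⟩ := e2 (b, b') (by simp)
  obtain ⟨e8, e9, -⟩ := Gd_cons.1 e3
  simp only at e1 e4 e5 e6 e7 e8
  have q1 : On S'ᶜ (cw.Yt a b) := On.cYt (T := S'ᶜ) (fun h => Set.disjoint_left.1 hd m1 h)
    (fun h => Set.disjoint_left.1 hd m2 h)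
  have q2 : On Sᶜ (cw.Y a' b') := On.cY (T := Sᶜ) (fun h => Set.disjoint_left.1 hd h m3) m5
  have q3 : On Sᶜ (cw.E b') := On.cE m5
  show pr Γ V (V' ∘ₗ rep0 ℂ id (cw.Y a' b')) _ = pr Γ (V ∘ₗ rep0 ℂ id (cw.Yt a b)) V' _
  rw [pr_left h0 hV hV' hd q1, pr_right h0 hV hV' hd q2]
  show pr Γ V V' (s.Y a' b' (Tw χ (gm ν ((a, a') :: (b, b') :: L)))) =
    pr Γ V V' (s.Yt a b (Tw χ (gm ν ((a, a') :: L))))
  rw [gm_cons, gm_cons, gm_cons]
  have c1 : Commute (Tw χ) (s.Yt a b) := tYt x1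
  have c2 : Commute (Tw χ) (s.Y a' b') := tY x2
  have c3 : Commute (Tw χ) (s.E b') := tE χ b'
  have g := YG hν h0 (a := a') (b := b') (a' := a) (b' := b) e7 (Ne.symm e1) e6 (Ne.symm e5)
    (Ne.symm e8) e4
  rw [← hs] at g
  have key : s.Y a' b' * Tw χ * (s.glue a a' * s.glue b b') =
      s.E b' * (s.Yt a b * Tw χ * s.glue a a') := by
    calc s.Y a' b' * Tw χ * (s.glue a a' * s.glue b b')
        = Tw χ * (s.Y a' b' * (s.glue a' a * s.glue b' b)) := by
          rw [← c2.eq, W.gs (i := a), W.gs (i := b)]; simp only [mul_assoc]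
      _ = (Tw χ * s.E b') * s.Yt a b * s.glue a a' := by
          rw [g, W.gs (i := a')]; simp only [mul_assoc]
      _ = s.E b' * (Tw χ * s.Yt a b) * s.glue a a' := by
          rw [c3.eq]; simp only [mul_assoc]
      _ = _ := by rw [c1.eq]; simp only [mul_assoc]
  have k3 := congrArg (fun x : Module.End ℂ (LPat Γ ι → ℂ) => x (gm ν L)) key
  simp only [Module.End.mul_apply] at k3
  rw [k3]
  have f1 : ∀ F, pr Γ V V' (s.E b' F) = pr Γ V V' F := by
    intro F
    have := pr_right h0 hV hV' hd q3 F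
    rw [show V' ∘ₗ rep0 ℂ id (cw.E b') = V' from hV'.E m4] at this
    exact this.symm
  rw [f1]

/-- Exchange of the roles of the factors. -/
theorem pr_sym (hV : SupS S V) (hV' : SupS S' V') (hd : Disjoint S S') (L : List (ι × ι)) :
    pr Γ V V' (Tw χ (gm ν L)) = pr Γ V' V (Tw χ (gm ν (L.map Prod.swap))) := by
  have W := laws (ι := ι) hν h0
  have e : gm ν (L.map Prod.swap) = gm ν L := by
    induction L with
    | nil => rfl
    | cons t L ih =>
      rw [List.map_cons, gm_cons, gm_cons, ih, Prod.fst_swap, Prod.snd_swap, W.gs]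
  rw [e, pr_swap hV hV' hd]

omit hν h0 [Finite ι] in
/-- The twist matters only up to constants on both factors. -/
theorem pr_tw {χ' : ι → Γ} (hV : SupS S V) (hV' : SupS S' V') (hd : Disjoint S S')
    (h1 : ∀ x ∈ S, ∀ y ∈ S, χ x - χ y = χ' x - χ' y)
    (h2 : ∀ x ∈ S', ∀ y ∈ S', χ x - χ y = χ' x - χ' y) (F : LPat Γ ι → ℂ) :
    pr Γ V V' (Tw χ F) = pr Γ V V' (Tw χ' F) := by
  rw [pr_apply, pr_apply]
  refine hV.congr fun p hp => ?_
  refine hV'.congr fun q hq => ?_
  have d := dj_of_sup hd hp hq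
  show F (LPat.gau χ (ofP Γ (un p q))) = F (LPat.gau χ' (ofP Γ (un p q)))
  congr 1
  apply gau_congr
  intro x
  have ip : ∀ x, p (p x) = x := p.inv
  have iq : ∀ x, q (q x) = x := q.inv
  show χ x - χ (un p q x) = χ' x - χ' (un p q x)
  rw [un_apply d]
  by_cases h : p x = x
  · rw [if_pos h]
    by_cases h' : q x = x
    · rw [h', sub_self, sub_self]
    · have a : x ∈ S' := by
        by_contra hh
        exact h' (hq x hh)
      have b : q x ∈ S' := by
        by_contra hh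
        have := hq _ hh
        rw [iq] at this
        exact h' this.symm
      exact h2 x a _ b
  · rw [if_neg h]
    have a : x ∈ S := by
      by_contra hh
      exact h (hp x hh)
    have b : p x ∈ S := by
      by_contra hh
      have := hp _ hh
      rw [ip] at this
      exact h this.symm
    exact h1 x a _ b

end pairing

end Pool.Agent.NUF
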