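import Pool.Agent.NUF.ScalN
import Pool.Agent.NUF.Mv.Glob

/-!
# NUF/ScalP (helper15): the scalars are polynomials

`qc L` is a polynomial in the entries of `L` (the values `cos 2z = cos (2u - 3l)`).
-/

set_option autoImplicit false

namespace Pool.Agent.NUF.Fr

open Complex Finset EXL.Fm Filter Topology

/-- `cos (2u - 3l)` -/
noncomputable def cf (u : ℂ) : ℂ := cos (2 * u - 3 * lam)

/-- `cos (2u + 3l)` -/
noncomputable def cp (u : ℂ) : ℂ := cos (2 * u + 3 * lam)

theorem dl_cf (u x : ℂ) : dl u x = cf u - cp x := by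
  unfold dl fa fa' fe cf cp
  have h1 := two_sin_sin u (3 * lam - u)
  have h2 := two_sin_sin x (3 * lam + x)
  have e1 : cos (u - (3 * lam - u)) = cos (2 * u - 3 * lam) := by congr 1; ring
  have e2 : cos (u + (3 * lam - u)) = cos (3 * lam) := by congr 1; ring
  have e3 : cos (x - (3 * lam + x)) = cos (3 * lam) := by rw [← Complex.cos_neg]; congr 1; ring
  have e4 : cos (x + (3 * lam + x)) = cos (2 * x + 3 * lam) := by congr 1; ring
  rw [e1, e2] at h1
  rw [e3, e4] at h2
  linear_combination h1 + h2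

theorem cf_sub (u v : ℂ) : cf u - cf v = 2 * (fa' (u + v) * sin (u - v)) := by
  unfold cf fa'
  have h := two_sin_sin (3 * lam - (u + v)) (u - v)
  have e1 : cos (3 * lam - (u + v) - (u - v)) = cos (2 * u - 3 * lam) := by
    rw [← Complex.cos_neg]; congr 1; ring
  have e2 : cos (3 * lam - (u + v) + (u - v)) = cos (2 * v - 3 * lam) := by
    rw [← Complex.cos_neg]; congr 1; ring
  rw [e1, e2] at h
  exact h.symm

/-- radius of the good set -/
noncomputable def rG : ℝ := exists_GS.choose

theorem rG_pos : 0 < rG := exists_GS.choose_spec.1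

/-- the good set -/
def nb : Set ℂ := Metric.ball lam rG ∪ Metric.ball (2 * lam) rG

/-- its first half -/
def nb1 : Set ℂ := Metric.ball lam rG

theorem nb_GS : GS nb := exists_GS.choose_spec.2.1

theorem nb1_sub : nb1 ⊆ nb := Set.subset_union_left

theorem cf_inj : Set.InjOn cf nb1 := by
  intro u hu v hv h
  by_contra huv
  have h1 := cf_sub u v
  rw [h, sub_self] at h1
  have h2 := nb_GS.s u (nb1_sub hu) v (nb1_sub hv) huv
  have h3 := exists_GS.choose_spec.2.2 u hu v hv
  exact mul_ne_zero two_ne_zero (mul_ne_zero h3 h2) h1.symm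

/-- the set of values -/
def UC : Set ℂ := cf '' nb1

theorem nb1_inf : nb1.Infinite := infinite_of_mem_nhds lam (Metric.ball_mem_nhds lam rG_pos)

theorem UC_inf : UC.Infinite := nb1_inf.image cf_inj

/-- inverse function -/
noncomputable def zf : ℂ → ℂ := Function.invFunOn cf nb1

theorem zf_mem {c : ℂ} (hc : c ∈ UC) : zf c ∈ nb1 := Function.invFunOn_mem hc

theorem cf_zf {c : ℂ} (hc : c ∈ UC) : cf (zf c) = c := Function.invFunOn_eq hc

theorem zf_cf {u : ℂ} (hu : u ∈ nb1) : zf (cf u) = u :=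
  cf_inj (zf_mem ⟨u, hu, rfl⟩) hu (cf_zf ⟨u, hu, rfl⟩)

theorem zf_injOn : Set.InjOn zf UC := by
  intro a ha b hb h
  rw [← cf_zf ha, ← cf_zf hb, h]

/-! ### The polynomial of one more line -/

section

variable {ι : Type*} [DecidableEq ι]

/-- the polynomial of one more line -/
noncomputable def NP (z : ι → ℂ) (Q : Finset ι → ℂ) (X : Finset ι) : Polynomial ℂ :=
  Polynomial.C (Q X) * (∏ k ∈ X, (Polynomial.X - Polynomial.C (cp (z k)))) +
    ∑ i ∈ X, Polynomial.C (wt z i (X.erase i) * fe (z i) * Q (X.erase i)) *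
      (∏ k ∈ X.erase i, (Polynomial.X - Polynomial.C (cp (z k))))

theorem NP_eval (z : ι → ℂ) (Q : Finset ι → ℂ) (X : Finset ι) (u : ℂ) :
    (NP z Q X).eval (cf u) = Nf z Q u X := by
  have h : ∀ Y : Finset ι, (∏ k ∈ Y, (Polynomial.X - Polynomial.C (cp (z k)))).eval (cf u) = Dl z u Y := by
    intro Y
    rw [Polynomial.eval_prod]
    unfold Dl
    apply Finset.prod_congr rfl
    intro k _
    rw [dl_cf]
    simp
  unfold NP Nf
  rw [Polynomial.eval_add, Polynomial.eval_mul, Polynomial.eval_C, h, Polynomial.eval_finsetSum]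
  congr 1
  · ring
  · apply Finset.sum_congr rfl
    intro i _
    rw [Polynomial.eval_mul, Polynomial.eval_C, h]
    ring

theorem prodX_natDegree (z : ι → ℂ) (Y : Finset ι) :
    (∏ k ∈ Y, (Polynomial.X - Polynomial.C (cp (z k)))).natDegree = Y.card := by
  rw [Polynomial.natDegree_prod_of_monic _ _ (fun k _ => Polynomial.monic_X_sub_C _)]
  simp

theorem prodX_coeff (z : ι → ℂ) (Y : Finset ι) :
    (∏ k ∈ Y, (Polynomial.X - Polynomial.C (cp (z k)))).coeff Y.card = 1 := by
  have h := Polynomial.monic_prod_of_monic Y (fun k => Polynomial.X - Polynomial.C (cp (z k)))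
    (fun k _ => Polynomial.monic_X_sub_C _)
  have h2 := h.coeff_natDegree
  rwa [prodX_natDegree] at h2

theorem NP_natDegree (z : ι → ℂ) (Q : Finset ι → ℂ) (X : Finset ι) : (NP z Q X).natDegree ≤ X.card := by
  unfold NP
  refine (Polynomial.natDegree_add_le _ _).trans (max_le ?_ ?_)
  · refine (Polynomial.natDegree_C_mul_le _ _).trans ?_
    rw [prodX_natDegree]
  · apply Polynomial.natDegree_sum_le_of_forall_le
    intro i _
    refine (Polynomial.natDegree_C_mul_le _ _).trans ?_
    rw [prodX_natDegree]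
    exact Finset.card_le_card (Finset.erase_subset i X)

theorem NP_coeff (z : ι → ℂ) (Q : Finset ι → ℂ) (X : Finset ι) : (NP z Q X).coeff X.card = Q X := by
  unfold NP
  rw [Polynomial.coeff_add, Polynomial.coeff_C_mul, prodX_coeff, Polynomial.finset_sum_coeff,
    Finset.sum_eq_zero, mul_one, add_zero]
  intro i hi
  rw [Polynomial.coeff_C_mul, Polynomial.coeff_eq_zero_of_natDegree_lt, mul_zero]
  rw [prodX_natDegree]
  exact Finset.card_lt_card (Finset.erase_ssubset hi)

end

/-! ### The polynomial family -/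

theorem list_insert (A₁ A₂ : List ℂ) (t : ℂ) :
    (A₁ ++ t :: A₂).toFinset = insert t (A₁ ++ A₂).toFinset := by
  ext a
  simp only [List.mem_toFinset, List.mem_append, List.mem_cons, Finset.mem_insert]
  tauto

theorem exists_q (n : ℕ) : ∃ F : MvPolynomial ℕ ℂ, ∀ A : List ℂ, A.length = n → (∀ a ∈ A, a ∈ UC) →
    A.Nodup → Qs zf A.toFinset = NUMv.ev A F := by
  apply NUMv.exists_mv n UC_inf (d := n) (fun A => Qs zf A.toFinset)
  intro A₁ A₂ hlen hU hnd
  refine ⟨NP zf (Qs zf) (A₁ ++ A₂).toFinset, ?_, ?_⟩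
  · refine (NP_natDegree _ _ _).trans ?_
    refine (List.toFinset_card_le _).trans ?_
    rw [List.length_append]
    omega
  · intro t ht htA
    have htA' : t ∉ (A₁ ++ A₂).toFinset := by rwa [List.mem_toFinset]
    have hmem : ∀ a ∈ insert t (A₁ ++ A₂).toFinset, a ∈ UC := by
      intro a ha
      rw [Finset.mem_insert, List.mem_toFinset] at ha
      rcases ha with rfl | ha
      · exact ht
      · exact hU a ha
    show Qs zf (A₁ ++ t :: A₂).toFinset = _
    rw [list_insert, nb_GS.scal htA' (fun a ha => nb1_sub (zf_mem (hmem a ha)))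
      (fun a ha b hb hab => zf_injOn (hmem a (Finset.mem_coe.mp ha)) (hmem b (Finset.mem_coe.mp hb)) hab),
      ← NP_eval, cf_zf ht]

/-- the polynomial -/
noncomputable def qF (n : ℕ) : MvPolynomial ℕ ℂ := (exists_q n).choose

/-- **The scalars** as a polynomial function of the values. -/
noncomputable def qc (L : List ℂ) : ℂ := NUMv.ev L (qF L.length)

theorem qc_PF (n : ℕ) : NUMv.PF n qc := ⟨qF n, fun L hL => by unfold qc; rw [hL]⟩

theorem qc_near {A : List ℂ} (hA : ∀ a ∈ A, a ∈ UC) (hn : A.Nodup) : qc A = Qs zf A.toFinset :=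
  ((exists_q A.length).choose_spec A rfl hA hn).symm

theorem qc_nil : qc [] = 1 := by
  rw [qc_near (by simp) List.nodup_nil, List.toFinset_nil, Qs_eq, if_pos rfl]

theorem qc_swap (L₁ L₂ : List ℂ) (a b : ℂ) : qc (L₁ ++ a :: b :: L₂) = qc (L₁ ++ b :: a :: L₂) := by
  set n := L₁.length + 2 + L₂.length with hn
  have key : ∀ L : List ℂ, L.length = n → NUMv.ev L (qF n) =
      NUMv.ev L (MvPolynomial.rename (Equiv.swap L₁.length (L₁.length + 1)) (qF n)) := by
    refine NUMv.PF.ext UC_inf (NUMv.PF.ev _ _) (NUMv.PF.ev _ _) (fun L hL hLU hLn => ?_)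
    obtain ⟨L₁', R, hL1, hR, rfl⟩ := NUMv.split_len (m := L₁.length) (M := 2 + L₂.length)
      (by rw [hL, hn]; ring)
    obtain ⟨a', b', L₂', rfl⟩ : ∃ a' b' L₂', R = a' :: b' :: L₂' := by
      rcases R with _ | ⟨a', R⟩
      · simp at hR; omega
      · rcases R with _ | ⟨b', R⟩
        · simp at hR; omega
        · exact ⟨a', b', R, rfl⟩
    have hp : (L₁' ++ a' :: b' :: L₂').Perm (L₁' ++ b' :: a' :: L₂') :=
      (List.Perm.swap b' a' L₂').append_left L₁'
    have h1 := (exists_q n).choose_spec _ hL hLU hLn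
    have h2 := (exists_q n).choose_spec _ (hp.length_eq.symm.trans hL)
      (fun c hc => hLU c (hp.mem_iff.2 hc)) (hp.nodup_iff.1 hLn)
    have h3 : (L₁' ++ a' :: b' :: L₂').toFinset = (L₁' ++ b' :: a' :: L₂').toFinset :=
      List.toFinset_eq_of_perm _ _ hp
    rw [h3, h2] at h1
    change NUMv.ev _ (qF n) = NUMv.ev _ (qF n) at h1
    rw [← h1, ← hL1, NUMv.ev_swap]
  have h1 := key (L₁ ++ a :: b :: L₂) (by simp [hn]; ring)
  rw [NUMv.ev_swap] at h1
  have e1 : (L₁ ++ a :: b :: L₂).length = n := by simp [hn]; ring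
  have e2 : (L₁ ++ b :: a :: L₂).length = n := by simp [hn]; ring
  rw [qc, qc, e1, e2]
  exact h1

theorem qc_perm {A A' : List ℂ} (hp : A.Perm A') : qc A = qc A' := by
  suffices H : ∀ L, qc (L ++ A) = qc (L ++ A') from H []
  induction hp with
  | nil => intro L; rfl
  | cons x _ ih =>
    intro L
    have := ih (L ++ [x])
    simpa using this
  | swap x y l => intro L; exact qc_swap L l y x
  | trans _ _ ih1 ih2 => intro L; exact (ih1 L).trans (ih2 L)

/-- the polynomial in the first entry -/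
noncomputable def qP (L : List ℂ) : Polynomial ℂ := NUMv.pol L (qF (L.length + 1))

theorem qP_eval (L : List ℂ) (t : ℂ) : qc (t :: L) = (qP L).eval t := by
  unfold qc qP
  rw [← NUMv.ev_cons]
  rfl

theorem qP_near {A : List ℂ} (hA : ∀ a ∈ A, a ∈ UC) (hn : A.Nodup) :
    qP A = NP zf (Qs zf) A.toFinset := by
  refine Polynomial.eq_of_infinite_eval_eq _ _ ?_
  refine (UC_inf.sdiff (A.toFinset.finite_toSet)).mono (fun s hs => ?_)
  have hs2 : s ∉ A := by simpa using hs.2
  have hs1 : s ∈ UC := hs.1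
  have hs3 : s ∉ A.toFinset := by rwa [List.mem_toFinset]
  have hmem : ∀ a ∈ insert s A.toFinset, a ∈ UC := by
    intro a ha
    rw [Finset.mem_insert, List.mem_toFinset] at ha
    rcases ha with rfl | ha
    · exact hs1
    · exact hA a ha
  have h1 := qc_near (A := s :: A) (by
    intro c hc
    rcases List.mem_cons.1 hc with rfl | hc
    · exact hs1
    · exact hA c hc) (List.nodup_cons.2 ⟨hs2, hn⟩)
  rw [List.toFinset_cons, nb_GS.scal hs3 (fun a ha => nb1_sub (zf_mem (hmem a ha)))
      (fun a ha b hb hab => zf_injOn (hmem a (Finset.mem_coe.mp ha)) (hmem b (Finset.mem_coe.mp hb)) hab),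
      ← NP_eval, cf_zf hs1] at h1
  show (qP A).eval s = (NP zf (Qs zf) A.toFinset).eval s
  rw [← qP_eval]
  exact h1

theorem qP_coeff_aux (L : List ℂ) (j : ℕ) :
    (qP L).coeff j = NUMv.ev L ((NUMv.th (qF (L.length + 1))).coeff j) := NUMv.coeff_pol _ _ _

theorem qP_natDegree (L : List ℂ) : (qP L).natDegree ≤ L.length := by
  rw [Polynomial.natDegree_le_iff_coeff_eq_zero]
  intro j hj
  rw [qP_coeff_aux]
  refine NUMv.ev_zero_ext UC_inf L.length _ (fun A hA hAU hAn => ?_) L rfl
  rw [← hA, ← qP_coeff_aux, qP_near hAU hAn]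
  apply Polynomial.coeff_eq_zero_of_natDegree_lt
  refine (NP_natDegree _ _ _).trans_lt ?_
  rw [List.toFinset_card_of_nodup hAn, hA]
  exact hj

theorem qP_coeff (L : List ℂ) : (qP L).coeff L.length = qc L := by
  rw [qP_coeff_aux, qc]
  refine NUMv.ev_eq_ext UC_inf (n := L.length) (fun A hA hAU hAn => ?_) L rfl
  rw [← hA, ← qP_coeff_aux, qP_near hAU hAn]
  have h1 := NP_coeff zf (Qs zf) A.toFinset
  rw [List.toFinset_card_of_nodup hAn] at h1
  rw [h1, ← qc_near hAU hAn]
  rfl

/-! ### Values at rapidities of the good set -/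

section transport

variable {ι : Type*} [DecidableEq ι]

theorem map_toFinset_aux (L : List ι) :
    (Finset.univ : Finset {i // i ∈ L}).map (Function.Embedding.subtype _) = L.toFinset := by
  ext a
  simp only [Finset.mem_map, Finset.mem_univ, true_and, Function.Embedding.coe_subtype, Subtype.exists,
    List.mem_toFinset, exists_prop, exists_eq_right]

/-- the embedding of the labels of a list by their values -/
def embL (z : ι → ℂ) (L : List ι) (hz : ∀ i ∈ L, ∀ j ∈ L, z i = z j → i = j) : {i // i ∈ L} ↪ ℂ where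
  toFun := fun i => z i.1
  inj' := fun i j h => Subtype.ext (hz _ i.2 _ j.2 h)

theorem map_embL (z : ι → ℂ) (L : List ι) (hz : ∀ i ∈ L, ∀ j ∈ L, z i = z j → i = j) :
    (Finset.univ : Finset {i // i ∈ L}).map (embL z L hz) = (L.map z).toFinset := by
  ext a
  simp only [Finset.mem_map, Finset.mem_univ, true_and, Subtype.exists, List.mem_toFinset, List.mem_map]
  constructor
  · rintro ⟨b, hb, h⟩
    exact ⟨b, hb, h⟩
  · rintro ⟨b, hb, h⟩
    exact ⟨b, hb, h⟩

theorem Qs_transport {w : ℂ → ℂ} {z y : ι → ℂ} (L : List ι)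
    (hz : ∀ i ∈ L, ∀ j ∈ L, z i = z j → i = j) (hy : ∀ i ∈ L, w (z i) = y i) :
    Qs w (L.map z).toFinset = Qs y L.toFinset := by
  rw [← map_embL z L hz, ← map_toFinset_aux, ← Qs_map, ← Qs_map]
  apply Qs_congr
  intro i _
  exact hy i.1 i.2

theorem Nf_transport {w : ℂ → ℂ} {z y : ι → ℂ} (L : List ι) (u : ℂ)
    (hz : ∀ i ∈ L, ∀ j ∈ L, z i = z j → i = j) (hy : ∀ i ∈ L, w (z i) = y i) :
    Nf w (Qs w) u (L.map z).toFinset = Nf y (Qs y) u L.toFinset := by
  rw [← map_embL z L hz, ← map_toFinset_aux, ← Nf_map, ← Nf_map]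
  apply Nf_congr
  intro i _
  exact hy i.1 i.2

end transport

theorem nb_scal {L : List ℂ} {t : ℂ} (hL : ∀ a ∈ t :: L, a ∈ nb) (ht : t ∉ L) :
    Qs id (t :: L).toFinset = (NP id (Qs id) L.toFinset).eval (cf t) := by
  rw [List.toFinset_cons, NP_eval, nb_GS.scal (z := id) (by rwa [List.mem_toFinset])
    (fun a ha => by
      rw [Finset.mem_insert, List.mem_toFinset] at ha
      apply hL
      rw [List.mem_cons]
      exact ha)
    (fun a _ b _ hab => hab)]
  rfl

open Classical in
/-- **The scalars at rapidities of the good set.** -/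
theorem qc_id : ∀ (k : ℕ) (L : List ℂ), L.Nodup → (∀ a ∈ L, a ∈ nb) →
    L.countP (fun a => decide (a ∉ nb1)) = k → qc (L.map cf) = Qs id L.toFinset := by
  intro k
  induction k with
  | zero =>
    intro L hn hL hk
    have h1 : ∀ a ∈ L, a ∈ nb1 := by
      intro a ha
      by_contra hc
      exact (List.countP_eq_zero.1 hk a ha) (by simpa using hc)
    have hinj : ∀ i ∈ L, ∀ j ∈ L, cf i = cf j → i = j := fun i hi j hj h => cf_inj (h1 i hi) (h1 j hj) h
    rw [qc_near (A := L.map cf)]
    · exact Qs_transport L hinj (fun i hi => zf_cf (h1 i hi))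
    · intro a ha
      obtain ⟨b, hb, rfl⟩ := List.mem_map.1 ha
      exact ⟨b, h1 b hb, rfl⟩
    · exact hn.map_on (fun x hx y hy h => hinj x hx y hy h)
  | succ k ih =>
    intro L hn hL hk
    obtain ⟨a, ha, haV⟩ : ∃ a ∈ L, a ∉ nb1 := by
      have := List.countP_pos_iff.1 (by rw [hk]; omega : 0 < L.countP (fun a => decide (a ∉ nb1)))
      obtain ⟨a, ha, h⟩ := this
      exact ⟨a, ha, by simpa using h⟩
    have hp := List.perm_cons_erase ha
    set L' := L.erase a with hL'
    have hn' := hp.nodup_iff.1 hn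
    have hc := hp.countP_eq (fun a => decide (a ∉ nb1))
    rw [hk, List.countP_cons_of_pos (by simpa using haV)] at hc
    have hmem : ∀ b ∈ a :: L', b ∈ nb := fun b hb => hL b (hp.mem_iff.2 hb)
    have hPP : qP (L'.map cf) = NP id (Qs id) L'.toFinset := by
      refine Polynomial.eq_of_infinite_eval_eq _ _ ?_
      have hinf : (cf '' (nb1 \ (L'.toFinset : Set ℂ))).Infinite := by
        refine Set.Infinite.image (cf_inj.mono Set.sdiff_subset) ?_
        exact nb1_inf.sdiff (L'.toFinset.finite_toSet)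
      refine hinf.mono ?_
      rintro _ ⟨t, ⟨ht1, ht2⟩, rfl⟩
      have ht3 : t ∉ L' := by simpa using ht2
      have h1 := ih (t :: L') (List.nodup_cons.2 ⟨ht3, (List.nodup_cons.1 hn').2⟩)
        (by
          intro b hb
          rcases List.mem_cons.1 hb with rfl | hb
          · exact nb1_sub ht1
          · exact hmem b (List.mem_cons_of_mem _ hb))
        (by
          rw [List.countP_cons_of_neg (by simpa using ht1)]
          omega)
      rw [nb_scal (by
          intro b hb
          rcases List.mem_cons.1 hb with rfl | hb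
          · exact nb1_sub ht1
          · exact hmem b (List.mem_cons_of_mem _ hb)) ht3, List.map_cons, qP_eval] at h1
      exact h1
    rw [qc_perm (hp.map cf), List.map_cons, qP_eval, hPP, ← nb_scal hmem (List.nodup_cons.1 hn').1]
    rw [List.toFinset_eq_of_perm _ _ hp]

theorem qc_nb {L : List ℂ} (hn : L.Nodup) (hL : ∀ a ∈ L, a ∈ nb) : qc (L.map cf) = Qs id L.toFinset :=
  qc_id _ L hn hL rfl

theorem qP_nb {L : List ℂ} (hn : L.Nodup) (hL : ∀ a ∈ L, a ∈ nb) :
    qP (L.map cf) = NP id (Qs id) L.toFinset := by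
  refine Polynomial.eq_of_infinite_eval_eq _ _ ?_
  have hinf : (cf '' (nb1 \ (L.toFinset : Set ℂ))).Infinite := by
    refine Set.Infinite.image (cf_inj.mono Set.sdiff_subset) ?_
    exact nb1_inf.sdiff (L.toFinset.finite_toSet)
  refine hinf.mono ?_
  rintro _ ⟨t, ⟨ht1, ht2⟩, rfl⟩
  have ht3 : t ∉ L := by simpa using ht2
  have hm : ∀ b ∈ t :: L, b ∈ nb := by
    intro b hb
    rcases List.mem_cons.1 hb with rfl | hb
    · exact nb1_sub ht1
    · exact hL b hb
  have h1 := qc_nb (L := t :: L) (List.nodup_cons.2 ⟨ht3, hn⟩) hm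
  rw [nb_scal hm ht3, List.map_cons, qP_eval] at h1
  exact h1

/-- **One more line with an arbitrary rapidity.** -/
theorem qc_far {L : List ℂ} (hn : L.Nodup) (hL : ∀ a ∈ L, a ∈ nb) (u : ℂ) :
    qc (cf u :: L.map cf) = Nf id (Qs id) u L.toFinset := by
  rw [qP_eval, qP_nb hn hL, NP_eval]

/-- labelled versions -/
theorem qc_lab {ι : Type*} [DecidableEq ι] {z : ι → ℂ} {L : List ι} (hn : L.Nodup)
    (hi : ∀ i ∈ L, ∀ j ∈ L, z i = z j → i = j) (hL : ∀ i ∈ L, z i ∈ nb) :
    qc (L.map (fun i => cf (z i))) = Qs z L.toFinset := by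
  have h1 := qc_nb (L := L.map z) (hn.map_on (fun x hx y hy h => hi x hx y hy h))
    (fun a ha => by obtain ⟨b, hb, rfl⟩ := List.mem_map.1 ha; exact hL b hb)
  rw [List.map_map, Qs_transport (w := id) (y := z) L hi (fun i _ => rfl)] at h1
  exact h1

theorem qc_far_lab {ι : Type*} [DecidableEq ι] {z : ι → ℂ} {L : List ι} (hn : L.Nodup)
    (hi : ∀ i ∈ L, ∀ j ∈ L, z i = z j → i = j) (hL : ∀ i ∈ L, z i ∈ nb) (u : ℂ) :
    qc (cf u :: L.map (fun i => cf (z i))) = Nf z (Qs z) u L.toFinset := by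
  have h1 := qc_far (L := L.map z) (hn.map_on (fun x hx y hy h => hi x hx y hy h))
    (fun a ha => by obtain ⟨b, hb, rfl⟩ := List.mem_map.1 ha; exact hL b hb) u
  rw [List.map_map, Nf_transport (w := id) (y := z) L u hi (fun i _ => rfl)] at h1
  exact h1

end Pool.Agent.NUF.Fr
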