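import Pool.Agent.NUF.PBil
import Pool.Agent.NUF.ScalP

/-!
# The pairing as a polynomial of the rapidity of the far line
-/

set_option autoImplicit false

namespace Pool.Agent.NUF

open Polynomial
open Pool.Agent.EXL.Fm (lam)
open Fr (cf fa)

variable {ι : Type*}

/-- A functional that is a polynomial of degree less than `n` in `cf u`. -/
def PL (n : ℕ) (V : ℂ → Fnl ι) : Prop :=
  ∃ v : ℕ → Fnl ι, ∀ u, V u = ∑ k ∈ Finset.range n, cf u ^ k • v k

/-- A functional that is a polynomial of degree at most `n` in `cf u` with the leading coefficient `t`. -/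
def PF (n : ℕ) (t : Fnl ι) (V : ℂ → Fnl ι) : Prop :=
  ∃ v : ℕ → Fnl ι, v n = t ∧ ∀ u, V u = ∑ k ∈ Finset.range (n + 1), cf u ^ k • v k

theorem PL.zero (n : ℕ) : PL n (fun _ => (0 : Fnl ι)) :=
  ⟨fun _ => 0, fun _ => by simp⟩

theorem PL.add {n : ℕ} {V W : ℂ → Fnl ι} (hV : PL n V) (hW : PL n W) : PL n (fun u => V u + W u) := by
  obtain ⟨v, hv⟩ := hV
  obtain ⟨w, hw⟩ := hW
  refine ⟨fun k => v k + w k, fun u => ?_⟩
  simp only [hv, hw, smul_add, Finset.sum_add_distrib]

theorem PL.sum {n : ℕ} {σ : Type*} (s : Finset σ) {V : σ → ℂ → Fnl ι} (h : ∀ i ∈ s, PL n (V i)) :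
    PL n (fun u => ∑ i ∈ s, V i u) := by
  classical
  induction s using Finset.induction_on with
  | empty => simpa using PL.zero n
  | insert a s ha ih =>
    have h1 := (h a (by simp)).add (ih fun i hi => h i (by simp [hi]))
    have e : (fun u => ∑ i ∈ insert a s, V i u) = fun u => V a u + ∑ i ∈ s, V i u := by
      funext u
      rw [Finset.sum_insert ha]
    rw [e]
    exact h1

theorem PL.poly {n : ℕ} (P : ℂ[X]) (hP : P.natDegree < n) (A : Fnl ι) :
    PL n (fun u => P.eval (cf u) • A) := by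
  refine ⟨fun k => P.coeff k • A, fun u => ?_⟩
  show P.eval (cf u) • A = _
  rw [eval_eq_sum_range' hP, Finset.sum_smul]
  exact Finset.sum_congr rfl fun k _ => by rw [smul_smul, mul_comm]

theorem PF.poly {n : ℕ} (P : ℂ[X]) (hP : P.natDegree ≤ n) (A : Fnl ι) :
    PF n (P.coeff n • A) (fun u => P.eval (cf u) • A) := by
  refine ⟨fun k => P.coeff k • A, rfl, fun u => ?_⟩
  show P.eval (cf u) • A = _
  rw [eval_eq_sum_range' (Nat.lt_succ_of_le hP), Finset.sum_smul]
  exact Finset.sum_congr rfl fun k _ => by rw [smul_smul, mul_comm]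

theorem PF.add {n : ℕ} {t : Fnl ι} {V W : ℂ → Fnl ι} (hV : PF n t V) (hW : PL n W) :
    PF n t (fun u => V u + W u) := by
  obtain ⟨v, hv0, hv⟩ := hV
  obtain ⟨w, hw⟩ := hW
  refine ⟨fun k => if k = n then v k else v k + w k, by simp [hv0], fun u => ?_⟩
  show V u + W u = _
  rw [hv, hw, Finset.sum_range_succ, Finset.sum_range_succ]
  simp only [if_true]
  have e : ∀ k ∈ Finset.range n, cf u ^ k • (if k = n then v k else v k + w k) =
      cf u ^ k • v k + cf u ^ k • w k := by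
    intro k hk
    rw [if_neg (ne_of_lt (Finset.mem_range.1 hk)), smul_add]
  rw [Finset.sum_congr rfl e, Finset.sum_add_distrib]
  abel

/-- `3 π / 16` -/
noncomputable def hh : ℂ := 3 * Real.pi / 16

theorem cf_m (ζ : ℂ) : cf (hh - ζ) = NUMv.cc ζ := by
  unfold cf NUMv.cc hh lam
  rw [← Complex.cos_neg]
  congr 1
  ring

theorem cf_p (ζ : ℂ) : cf (hh + ζ) = NUMv.cc ζ := by
  unfold cf NUMv.cc hh lam
  congr 1
  ring

theorem kc3 : NUMv.kc 3 = Complex.cos (3 * lam) := by
  unfold NUMv.kc NUMv.el lam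
  congr 1
  push_cast
  ring

theorem fa_fa (ζ : ℂ) : fa (hh - ζ) * fa (hh + ζ) = (NUMv.cc ζ - NUMv.kc 3) / 2 := by
  have h := Complex.cos_sub_cos (2 * ζ) (3 * lam)
  have e1 : (2 * ζ + 3 * lam) / 2 = hh + ζ := by unfold hh lam; ring
  have e2 : (2 * ζ - 3 * lam) / 2 = -(hh - ζ) := by unfold hh lam; ring
  rw [e1, e2, Complex.sin_neg] at h
  rw [kc3]
  unfold NUMv.cc fa
  rw [h]
  ring

variable [DecidableEq ι] {n : ℕ} {n' : ℂ} {L1 L2 : List (ι × ι)}

theorem Zp_sum (a b : Finset ℕ) (x y : ℕ → Fnl ι) :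
    Zp n' (∑ k ∈ a, x k) (∑ m ∈ b, y m) L1 L2 = ∑ k ∈ a, ∑ m ∈ b, Zp n' (x k) (y m) L1 L2 := by
  rw [← Zb_apply, show Zb n' L1 L2 (∑ k ∈ a, x k) = ∑ k ∈ a, Zb n' L1 L2 (x k) from map_sum _ _ _,
    LinearMap.sum_apply]
  exact Finset.sum_congr rfl fun k _ => map_sum _ _ _

/-- **The polynomial of the far line.** -/
theorem exists_poly {t t' : Fnl ι} {E E' C C' : ℂ → Fnl ι} (hE : PF n t E) (hE' : PF n t' E')
    (hC : PL n C) (hC' : PL n C') : ∃ P : ℂ[X], P.natDegree ≤ 2 * n ∧
      P.coeff (2 * n) = Zp n' t t' L1 L2 ∧ ∀ ζ, P.eval (NUMv.cc ζ) =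
        Zp n' (E (hh - ζ)) (E' (hh + ζ)) L1 L2 +
          (NUMv.cc ζ - NUMv.kc 3) / 2 * Zp n' (C (hh - ζ)) (C' (hh + ζ)) L1 L2 := by
  obtain ⟨v, hv0, hv⟩ := hE
  obtain ⟨v', hv0', hv'⟩ := hE'
  obtain ⟨w, hw⟩ := hC
  obtain ⟨w', hw'⟩ := hC'
  set P1 : ℂ[X] := ∑ k ∈ Finset.range (n + 1), ∑ m ∈ Finset.range (n + 1),
    monomial (k + m) (Zp n' (v k) (v' m) L1 L2) with hP1
  set P2 : ℂ[X] := ∑ k ∈ Finset.range n, ∑ m ∈ Finset.range n,
    (Polynomial.C (1 / 2) * (X - Polynomial.C (NUMv.kc 3))) * monomial (k + m) (Zp n' (w k) (w' m) L1 L2)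
    with hP2
  have dX : (Polynomial.C (1 / 2 : ℂ) * (X - Polynomial.C (NUMv.kc 3))).natDegree ≤ 1 := by
    refine (natDegree_C_mul_le _ _).trans ?_
    rw [natDegree_X_sub_C]
  have d2 : ∀ k ∈ Finset.range n, ∀ m ∈ Finset.range n,
      ((Polynomial.C (1 / 2 : ℂ) * (X - Polynomial.C (NUMv.kc 3))) *
        monomial (k + m) (Zp n' (w k) (w' m) L1 L2)).natDegree < 2 * n := by
    intro k hk m hm
    have hk := Finset.mem_range.1 hk
    have hm := Finset.mem_range.1 hm
    have h1 := natDegree_monomial_le (Zp n' (w k) (w' m) L1 L2) (m := k + m)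
    have h2 := natDegree_mul_le (p := Polynomial.C (1 / 2 : ℂ) * (X - Polynomial.C (NUMv.kc 3)))
      (q := monomial (k + m) (Zp n' (w k) (w' m) L1 L2))
    omega
  refine ⟨P1 + P2, ?_, ?_, fun ζ => ?_⟩
  · refine (natDegree_add_le _ _).trans (max_le ?_ ?_)
    · rw [hP1]
      refine natDegree_sum_le_of_forall_le _ _ fun k hk => natDegree_sum_le_of_forall_le _ _ fun m hm => ?_
      have hk := Finset.mem_range.1 hk
      have hm := Finset.mem_range.1 hm
      refine (natDegree_monomial_le _).trans ?_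
      omega
    · rw [hP2]
      exact natDegree_sum_le_of_forall_le _ _ fun k hk => natDegree_sum_le_of_forall_le _ _
        fun m hm => (d2 k hk m hm).le
  · rw [coeff_add]
    have e2 : P2.coeff (2 * n) = 0 := by
      rw [hP2, finsetSum_coeff]
      refine Finset.sum_eq_zero fun k hk => ?_
      rw [finsetSum_coeff]
      exact Finset.sum_eq_zero fun m hm => coeff_eq_zero_of_natDegree_lt (d2 k hk m hm)
    have e1 : P1.coeff (2 * n) = Zp n' t t' L1 L2 := by
      rw [hP1, finsetSum_coeff, Finset.sum_eq_single n]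
      · rw [finsetSum_coeff, Finset.sum_eq_single n]
        · rw [coeff_monomial, if_pos (by ring), hv0, hv0']
        · intro m hm hmn
          have hm := Finset.mem_range.1 hm
          rw [coeff_monomial, if_neg]
          omega
        · intro h
          exact absurd (Finset.mem_range.2 (Nat.lt_succ_self n)) h
      · intro k hk hkn
        have hk := Finset.mem_range.1 hk
        rw [finsetSum_coeff]
        refine Finset.sum_eq_zero fun m hm => ?_
        have hm := Finset.mem_range.1 hm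
        rw [coeff_monomial, if_neg]
        omega
      · intro h
        exact absurd (Finset.mem_range.2 (Nat.lt_succ_self n)) h
    rw [e1, e2, add_zero]
  · have f1 : Zp n' (E (hh - ζ)) (E' (hh + ζ)) L1 L2 = P1.eval (NUMv.cc ζ) := by
      rw [hv, hv', cf_m, cf_p, Zp_sum, hP1, eval_finsetSum]
      refine Finset.sum_congr rfl fun k _ => ?_
      rw [eval_finsetSum]
      refine Finset.sum_congr rfl fun m _ => ?_
      rw [Zp_smul, eval_monomial, pow_add]
      ring
    have f2 : (NUMv.cc ζ - NUMv.kc 3) / 2 * Zp n' (C (hh - ζ)) (C' (hh + ζ)) L1 L2 =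
        P2.eval (NUMv.cc ζ) := by
      rw [hw, hw', cf_m, cf_p, Zp_sum, hP2, eval_finsetSum, Finset.mul_sum]
      refine Finset.sum_congr rfl fun k _ => ?_
      rw [eval_finsetSum, Finset.mul_sum]
      refine Finset.sum_congr rfl fun m _ => ?_
      rw [Zp_smul, eval_mul, eval_mul, eval_C, eval_sub, eval_X, eval_C, eval_monomial,
        pow_add]
      ring
    rw [eval_add, f1, f2]

end Pool.Agent.NUF
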