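import Pool.Agent.NUF.PFus
import Pool.Agent.NUF.URev

/-!
# The pairing of the zero-leg functionals of two half strips

A line is a pair `(x, x')` of sites (its right half and its left half).  `L1` = the lines below the face, `L2` =
the lines above the face.  `Zp n' V V' L1 L2` = the pairing of a functional `V` on the sites `x` and a functional
`V'` on the sites `x'`; the loops round the face have the weight `n'`, the other loops have the weight 0.
-/

set_option autoImplicit false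

namespace Pool.Agent.NUF

open Pool.Agent.EXL (okR okC)

/-- The weight of the loops: 0 for the trivial label, `n'` for the other one. -/
def nu2 (n' : ℂ) : ZMod 2 → ℂ := fun g => if g = 0 then 0 else n'

theorem nu2_neg (n' : ℂ) (g : ZMod 2) : nu2 n' (-g) = nu2 n' g := by
  unfold nu2
  simp only [neg_eq_zero]

theorem nu2_zero (n' : ℂ) : nu2 n' 0 = 0 := if_pos rfl

section defs

variable {ι : Type*} [DecidableEq ι]

/-- The twist: 1 on the left halves of the lines of `L`. -/
def chi (L : List (ι × ι)) : ι → ZMod 2 := fun x => if x ∈ L.map Prod.snd then 1 else 0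

/-- **The pairing.** -/
noncomputable def Zp (n' : ℂ) (V V' : Fnl ι) (L1 L2 : List (ι × ι)) : ℂ :=
  pr (ZMod 2) V V' (Tw (chi L1) (gm (nu2 n') (L1 ++ L2)))

/-- The sites of the right halves. -/
def Sr (L : List (ι × ι)) : Set ι := {x | x ∈ L.map Prod.fst}

/-- The sites of the left halves. -/
def Sl (L : List (ι × ι)) : Set ι := {x | x ∈ L.map Prod.snd}

end defs

section basic

variable {ι : Type*} [DecidableEq ι] {L L1 L2 L1' L2' : List (ι × ι)} {V V' : Fnl ι} {n' : ℂ}

theorem Sup.supS {X : List ι} (h : Sup X V) : SupS {x | x ∈ X} V :=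
  fun F hF => h F fun _ hp => hF _ fun _ hx => ax_out hp hx

omit [DecidableEq ι] in
theorem Gd.disj (h : Gd L) : Disjoint (Sr L) (Sl L) := by
  rw [Set.disjoint_left]
  intro x h1 h2
  exact (List.nodup_append.1 h).2.2 x h1 x h2 rfl

omit [DecidableEq ι] in
theorem Gd.fst (h : Gd L) : (L.map Prod.fst).Nodup := (List.nodup_append.1 h).1

omit [DecidableEq ι] in
theorem Gd.snd (h : Gd L) : (L.map Prod.snd).Nodup := (List.nodup_append.1 h).2.1

theorem chi_mem {x : ι} (h : x ∈ L.map Prod.snd) : chi L x = 1 := if_pos h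

theorem chi_notMem {x : ι} (h : x ∉ L.map Prod.snd) : chi L x = 0 := if_neg h

theorem chi_perm (h : L1.Perm L1') : chi L1 = chi L1' := by
  funext x
  unfold chi
  simp only [(h.map Prod.snd).mem_iff]

/-- on the sites of the lines of the group. -/
theorem chi_in (hG : Gd (L1 ++ L2)) {t : ι × ι} (ht : t ∈ L1) : chi L1 t.1 = 0 ∧ chi L1 t.2 = 1 := by
  refine ⟨chi_notMem fun h => ?_, chi_mem (List.mem_map_of_mem ht)⟩
  have h1 : t.1 ∈ (L1 ++ L2).map Prod.fst := List.mem_map_of_mem (List.mem_append_left _ ht)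
  have h2 : t.1 ∈ (L1 ++ L2).map Prod.snd := by
    rw [List.map_append]
    exact List.mem_append_left _ h
  exact Set.disjoint_left.1 hG.disj h1 h2

/-- on the sites of the lines of the other group. -/
theorem chi_out (hG : Gd (L1 ++ L2)) {t : ι × ι} (ht : t ∈ L2) : chi L1 t.1 = 0 ∧ chi L1 t.2 = 0 := by
  constructor
  · refine chi_notMem fun h => ?_
    have h1 : t.1 ∈ (L1 ++ L2).map Prod.fst := List.mem_map_of_mem (List.mem_append_right _ ht)
    have h2 : t.1 ∈ (L1 ++ L2).map Prod.snd := by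
      rw [List.map_append]
      exact List.mem_append_left _ h
    exact Set.disjoint_left.1 hG.disj h1 h2
  · refine chi_notMem fun h => ?_
    have h1 := hG.snd
    rw [List.map_append] at h1
    exact (List.nodup_append.1 h1).2.2 _ h _ (List.mem_map_of_mem ht) rfl

theorem Zp_perm (hG : Gd (L1 ++ L2)) (h1 : L1.Perm L1') (h2 : L2.Perm L2') :
    Zp n' V V' L1 L2 = Zp n' V V' L1' L2' := by
  unfold Zp
  rw [chi_perm h1, gm_perm (nu2_neg n') hG (h1.append h2)]

theorem tw_gm {Γ : Type*} [AddCommGroup Γ] {ν : Γ → ℂ} {χ : ι → Γ} (h : ∀ t ∈ L, χ t.1 = χ t.2) :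
    Tw χ (gm ν L) = gm ν L := by
  induction L with
  | nil => exact Tw_dl χ
  | cons t L ih =>
    rw [gm_cons, ← Module.End.mul_apply, (tglue (ν := ν) (h t (by simp))).eq, Module.End.mul_apply,
      ih fun s hs => h s (by simp [hs])]

end basic

section rel

variable {ι : Type*} [DecidableEq ι] [Finite ι] {L1 L2 : List (ι × ι)} {V V' : Fnl ι} {n' : ℂ}

/-- **Exchange of two lines of the lower group.** -/
theorem Zp_exch {j k j' k' : ι} {w : ℂ} (hG : Gd ((j, j') :: (k, k') :: L1 ++ L2))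
    (hV : SupS (Sr ((j, j') :: (k, k') :: L1 ++ L2)) V)
    (hV' : SupS (Sl ((j, j') :: (k, k') :: L1 ++ L2)) V')
    (a1 : okR w) (a2 : okR (-w)) (a3 : okR (3 * Real.pi / 8 - w)) (a4 : okR (w - 3 * Real.pi / 8)) :
    Zp n' (V ∘ₗ uops.R j k w) (V' ∘ₗ uops.R j' k' (-w)) ((j, j') :: (k, k') :: L1) L2 =
      Zp n' V V' ((j, j') :: (k, k') :: L1) L2 := by
  have c1 := chi_in hG (t := (j, j')) (by simp)
  have c2 := chi_in hG (t := (k, k')) (by simp)
  have e : (cops (ι := ι) (nu2 n')).h + (cops (ι := ι) (nu2 n')).h = 3 * Real.pi / 8 := by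
    show (3 * Real.pi / 16 + 3 * Real.pi / 16 : ℂ) = _
    ring
  exact pr_RR (nu2_neg n') (nu2_zero n') hV hV' hG.disj hG (by simp [Sr]) (by simp [Sr])
    (by simp [Sl]) (by simp [Sl]) (c1.1.trans c2.1.symm) (c1.2.trans c2.2.symm) a1 a2
    (by rw [e]; exact a3) (by rw [e]; exact a4)

/-- **Exchange of two lines of the upper group.** -/
theorem Zp_exch' {j k j' k' : ι} {w : ℂ} (hG : Gd (L1 ++ (j, j') :: (k, k') :: L2))
    (hV : SupS (Sr (L1 ++ (j, j') :: (k, k') :: L2)) V)
    (hV' : SupS (Sl (L1 ++ (j, j') :: (k, k') :: L2)) V')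
    (a1 : okR w) (a2 : okR (-w)) (a3 : okR (3 * Real.pi / 8 - w)) (a4 : okR (w - 3 * Real.pi / 8)) :
    Zp n' (V ∘ₗ uops.R j k w) (V' ∘ₗ uops.R j' k' (-w)) L1 ((j, j') :: (k, k') :: L2) =
      Zp n' V V' L1 ((j, j') :: (k, k') :: L2) := by
  have c1 := chi_out hG (t := (j, j')) (by simp)
  have c2 := chi_out hG (t := (k, k')) (by simp)
  have e : (cops (ι := ι) (nu2 n')).h + (cops (ι := ι) (nu2 n')).h = 3 * Real.pi / 8 := by
    show (3 * Real.pi / 16 + 3 * Real.pi / 16 : ℂ) = _
    ring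
  have hp : (L1 ++ (j, j') :: (k, k') :: L2).Perm ((j, j') :: (k, k') :: (L1 ++ L2)) := by
    refine (List.perm_middle).trans (List.Perm.cons _ List.perm_middle)
  have hG' := hG.perm hp
  unfold Zp
  rw [gm_perm (nu2_neg n') hG hp]
  exact pr_RR (nu2_neg n') (nu2_zero n') hV hV' hG.disj hG' (by simp [Sr]) (by simp [Sr])
    (by simp [Sl]) (by simp [Sl]) (c1.1.trans c2.1.symm) (c1.2.trans c2.2.symm) a1 a2
    (by rw [e]; exact a3) (by rw [e]; exact a4)

/-- **A U-turn of the right half.** -/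
theorem Zp_U {p q p' q' : ι} (hG : Gd ((p, p') :: (q, q') :: L1 ++ L2))
    (hV : SupS (Sr (L1 ++ L2)) V) (hV' : SupS (Sl ((p, p') :: (q, q') :: L1 ++ L2)) V')
    (hW : SupS (Sl (L1 ++ L2)) (V' ∘ₗ uops.glue p' q')) :
    Zp n' (V ∘ₗ uops.U p q) V' ((p, p') :: (q, q') :: L1) L2 =
      Zp n' V (V' ∘ₗ uops.glue p' q') L1 L2 := by
  have c1 := chi_in hG (t := (p, p')) (by simp)
  have c2 := chi_in hG (t := (q, q')) (by simp)
  have hG1 := Gd_cons.1 hG
  have hG2 := Gd_cons.1 hG1.2.2
  have n1 : ∀ t ∈ L1 ++ L2, p ≠ t.1 ∧ p ≠ t.2 ∧ p' ≠ t.1 ∧ p' ≠ t.2 := fun t ht =>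
    hG1.2.1 t (List.mem_cons_of_mem _ ht)
  have n2 : ∀ t ∈ L1 ++ L2, q ≠ t.1 ∧ q ≠ t.2 ∧ q' ≠ t.1 ∧ q' ≠ t.2 := fun t ht => hG2.2.1 t ht
  have n3 := hG1.2.1 (q, q') (by simp)
  have d0 := hG.disj
  have d1 : Disjoint (Sr (L1 ++ L2)) (Sl ((p, p') :: (q, q') :: L1 ++ L2)) :=
    d0.mono_left fun x hx => by
      simp only [Sr, List.cons_append, List.map_cons, List.mem_cons, Set.mem_ofPred_eq] at hx ⊢
      exact Or.inr (Or.inr hx)
  have q1 : p ∉ Sr (L1 ++ L2) := fun h => by
    obtain ⟨t, ht, e⟩ := List.mem_map.1 h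
    exact (n1 t ht).1 e.symm
  have q2 : q ∉ Sr (L1 ++ L2) := fun h => by
    obtain ⟨t, ht, e⟩ := List.mem_map.1 h
    exact (n2 t ht).1 e.symm
  have q3 : p' ∉ Sr (L1 ++ L2) := fun h => by
    obtain ⟨t, ht, e⟩ := List.mem_map.1 h
    exact (n1 t ht).2.2.1 e.symm
  have q4 : q' ∉ Sr (L1 ++ L2) := fun h => by
    obtain ⟨t, ht, e⟩ := List.mem_map.1 h
    exact (n2 t ht).2.2.1 e.symm
  have q5 : p ∉ Sl ((p, p') :: (q, q') :: L1 ++ L2) := fun h =>
    Set.disjoint_left.1 d0 (by simp [Sr]) h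
  have q6 : q ∉ Sl ((p, p') :: (q, q') :: L1 ++ L2) := fun h =>
    Set.disjoint_left.1 d0 (by simp [Sr]) h
  unfold Zp
  rw [List.cons_append, List.cons_append] at *
  rw [pr_U (nu2_neg n') (nu2_zero n') hV hV' hG q1 q2 q5 q6 q3 q4 d1 (c1.1.trans c2.1.symm)
    (c1.2.trans c2.2.symm)]
  have e : ∀ x, x ≠ p' → x ≠ q' → chi ((p, p') :: (q, q') :: L1) x = chi L1 x := by
    intro x h1 h2
    unfold chi
    simp only [List.map_cons, List.mem_cons, h1, h2, false_or]
  refine pr_tw hV hW hG2.2.2.disj (fun x hx y hy => ?_) (fun x hx y hy => ?_) _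
  · obtain ⟨t, ht, rfl⟩ := List.mem_map.1 hx
    obtain ⟨s, hs, rfl⟩ := List.mem_map.1 hy
    rw [e _ (n1 t ht).2.2.1.symm (n2 t ht).2.2.1.symm, e _ (n1 s hs).2.2.1.symm (n2 s hs).2.2.1.symm]
  · obtain ⟨t, ht, rfl⟩ := List.mem_map.1 hx
    obtain ⟨s, hs, rfl⟩ := List.mem_map.1 hy
    rw [e _ (n1 t ht).2.2.2.symm (n2 t ht).2.2.2.symm, e _ (n1 s hs).2.2.2.symm (n2 s hs).2.2.2.symm]

/-- **Fusion**: the left half comes from one line. -/
theorem Zp_Y {p q p' q' : ι} (hG : Gd ((p, p') :: (q, q') :: L1 ++ L2))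
    (hV : SupS (Sr ((p, p') :: (q, q') :: L1 ++ L2)) V)
    (hW : SupS (Sr ((q, q') :: L1 ++ L2)) (V ∘ₗ uops.Yt q p))
    (hV' : SupS (Sl ((q, q') :: L1 ++ L2)) V') :
    Zp n' V (V' ∘ₗ uops.Y q' p') ((p, p') :: (q, q') :: L1) L2 =
      Zp n' (V ∘ₗ uops.Yt q p) V' ((q, q') :: L1) L2 := by
  have c1 := chi_in hG (t := (p, p')) (by simp)
  have c2 := chi_in hG (t := (q, q')) (by simp)
  have hp : ((p, p') :: (q, q') :: L1 ++ L2).Perm ((q, q') :: (p, p') :: L1 ++ L2) :=
    List.Perm.swap _ _ _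
  have hG' := hG.perm hp
  have hG1 := Gd_cons.1 hG
  have n1 : ∀ t ∈ (q, q') :: L1 ++ L2, p ≠ t.1 ∧ p ≠ t.2 ∧ p' ≠ t.1 ∧ p' ≠ t.2 := fun t ht =>
    hG1.2.1 t ht
  have d0 := hG.disj
  have d1 : Disjoint (Sr ((p, p') :: (q, q') :: L1 ++ L2)) (Sl ((q, q') :: L1 ++ L2)) :=
    d0.mono_right fun x hx => by
      simp only [Sl, List.cons_append, List.map_cons, List.mem_cons, Set.mem_ofPred_eq] at hx ⊢
      exact Or.inr hx
  have q1 : p' ∉ Sl ((q, q') :: L1 ++ L2) := fun h => by
    obtain ⟨t, ht, e⟩ := List.mem_map.1 h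
    exact (n1 t ht).2.2.2 e.symm
  have q2 : p' ∉ Sr ((p, p') :: (q, q') :: L1 ++ L2) := fun h =>
    Set.disjoint_left.1 d0 h (by simp [Sl])
  unfold Zp
  rw [List.cons_append, List.cons_append] at *
  rw [gm_perm (nu2_neg n') hG hp]
  rw [List.cons_append, List.cons_append] at *
  rw [pr_Y (nu2_neg n') (nu2_zero n') hV hV' d1 hG' (by simp [Sr]) (by simp [Sr]) (by simp [Sl])
    q1 q2 (c2.1.trans c1.1.symm) (c2.2.trans c1.2.symm)]
  have e : ∀ x, x ≠ p' → chi ((p, p') :: (q, q') :: L1) x = chi ((q, q') :: L1) x := by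
    intro x h1
    unfold chi
    simp only [List.map_cons, List.mem_cons, h1, false_or]
  refine pr_tw hW hV' (hG1.2.2.disj) (fun x hx y hy => ?_) (fun x hx y hy => ?_) _
  · obtain ⟨t, ht, rfl⟩ := List.mem_map.1 hx
    obtain ⟨s, hs, rfl⟩ := List.mem_map.1 hy
    rw [e _ (n1 t ht).2.2.1.symm, e _ (n1 s hs).2.2.1.symm]
  · obtain ⟨t, ht, rfl⟩ := List.mem_map.1 hx
    obtain ⟨s, hs, rfl⟩ := List.mem_map.1 hy
    rw [e _ (n1 t ht).2.2.2.symm, e _ (n1 s hs).2.2.2.symm]

/-- **Exchange of the roles**: rotation by π. -/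
theorem Zp_swap (hG : Gd (L1 ++ L2)) (hV : SupS (Sr (L1 ++ L2)) V) (hV' : SupS (Sl (L1 ++ L2)) V') :
    Zp n' V V' L1 L2 = Zp n' V' V (L2.map Prod.swap) (L1.map Prod.swap) := by
  have d := hG.disj
  unfold Zp
  rw [pr_sym (nu2_neg n') (nu2_zero n') hV hV' d]
  -- the twist on the other halves
  have ts : ∀ L : List (ι × ι), (L.map Prod.swap).map Prod.snd = L.map Prod.fst := by
    intro L
    rw [List.map_map]
    rfl
  have tf : ∀ L : List (ι × ι), (L.map Prod.swap).map Prod.fst = L.map Prod.snd := by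
    intro L
    rw [List.map_map]
    rfl
  have hperm : (L2.map Prod.swap ++ L1.map Prod.swap).Perm ((L1 ++ L2).map Prod.swap) := by
    rw [List.map_append]
    exact List.perm_append_comm
  have hG2 : Gd ((L1 ++ L2).map Prod.swap) := by
    unfold Gd
    rw [ts, tf]
    exact (List.perm_append_comm.nodup_iff).1 hG
  rw [gm_perm (nu2_neg n') (hG2.perm hperm.symm) hperm]
  set G := gm (nu2 n') ((L1 ++ L2).map Prod.swap) with hGdef
  -- chi on both halves of the group 1
  set ψ : ι → ZMod 2 := chi L1 + chi (L1.map Prod.swap) with hψ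
  have h1 : Tw ψ G = G := by
    refine tw_gm fun t ht => ?_
    obtain ⟨s, hs, rfl⟩ := List.mem_map.1 ht
    show ψ s.2 = ψ s.1
    have key : ψ s.2 = ψ s.1 := by
      rw [hψ]
      simp only [Pi.add_apply]
      rcases List.mem_append.1 hs with hs | hs
      · have a := chi_in hG hs
        have b1 : chi (L1.map Prod.swap) s.1 = 1 := chi_mem (by
          rw [ts]; exact List.mem_map_of_mem hs)
        have b2 : chi (L1.map Prod.swap) s.2 = 0 := chi_notMem (by
          rw [ts]
          intro h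
          exact Set.disjoint_left.1 d (show s.2 ∈ Sr (L1 ++ L2) by
            simp only [Sr, List.map_append, Set.mem_ofPred_eq]
            exact List.mem_append_left _ h) (List.mem_map_of_mem (List.mem_append_left _ hs)))
        rw [a.1, a.2, b1, b2]
        rfl
      · have a := chi_out hG hs
        have b1 : chi (L1.map Prod.swap) s.1 = 0 := chi_notMem (by
          rw [ts]
          intro h
          have h3 := hG.fst
          rw [List.map_append] at h3
          exact (List.nodup_append.1 h3).2.2 _ h _ (List.mem_map_of_mem hs) rfl)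
        have b2 : chi (L1.map Prod.swap) s.2 = 0 := chi_notMem (by
          rw [ts]
          intro h
          exact Set.disjoint_left.1 d (show s.2 ∈ Sr (L1 ++ L2) by
            simp only [Sr, List.map_append, Set.mem_ofPred_eq]
            exact List.mem_append_left _ h) (List.mem_map_of_mem (List.mem_append_right _ hs)))
        rw [a.1, a.2, b1, b2]
    exact key
  have h2 : Tw (chi L1) G = Tw (chi (L1.map Prod.swap)) G := by
    conv_lhs => rw [← h1]
    rw [← Module.End.mul_apply, lG_mul]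
    congr 2
    rw [hψ, ← add_assoc]
    funext x
    simp only [Pi.add_apply]
    rw [CharTwo.add_self_eq_zero, zero_add]
  rw [h2]
  refine pr_tw hV' hV d.symm (fun x hx y hy => ?_) (fun x hx y hy => ?_) _
  · -- on the sites of the left halves both are 0
    have z1 : ∀ x ∈ Sl (L1 ++ L2), chi (L1.map Prod.swap) x = 0 := fun x hx => chi_notMem (by
      rw [ts]
      intro h
      exact Set.disjoint_left.1 d (show x ∈ Sr (L1 ++ L2) by
        simp only [Sr, List.map_append, Set.mem_ofPred_eq]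
        exact List.mem_append_left _ h) hx)
    have z2 : ∀ x ∈ Sl (L1 ++ L2), chi (L2.map Prod.swap) x = 0 := fun x hx => chi_notMem (by
      rw [ts]
      intro h
      exact Set.disjoint_left.1 d (show x ∈ Sr (L1 ++ L2) by
        simp only [Sr, List.map_append, Set.mem_ofPred_eq]
        exact List.mem_append_right _ h) hx)
    rw [z1 x hx, z1 y hy, z2 x hx, z2 y hy]
  · -- on the right halves their sum is 1
    have z1 : ∀ x ∈ Sr (L1 ++ L2), chi (L1.map Prod.swap) x = 1 + chi (L2.map Prod.swap) x := by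
      intro x hx
      have h3 := hG.fst
      rw [List.map_append] at h3
      have h4 : x ∈ L1.map Prod.fst ++ L2.map Prod.fst := by rw [← List.map_append]; exact hx
      rcases List.mem_append.1 h4 with h5 | h5
      · rw [chi_mem (by rw [ts]; exact h5), chi_notMem (by
          rw [ts]
          intro h
          exact (List.nodup_append.1 h3).2.2 _ h5 _ h rfl), add_zero]
      · have e1 : chi (L2.map Prod.swap) x = 1 := chi_mem (by rw [ts]; exact h5)
        have e2 : chi (L1.map Prod.swap) x = 0 := chi_notMem (by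
          rw [ts]
          intro h
          exact (List.nodup_append.1 h3).2.2 _ h _ h5 rfl)
        rw [e1, e2]
        rfl
    rw [z1 x hx, z1 y hy]
    abel

end rel

end Pool.Agent.NUF
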