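import Pool.Agent.NUF.PSide

/-!
# The relations of the pairing: near value, trivial line, crossing, fusion
-/

set_option autoImplicit false

namespace Pool.Agent.NUF

open Pool.Agent.EXL (okR opCu)
open Pool.Agent.EXL.Fm (Dn lam Wn R6)
open Pool.Agent.EXL.HS (ind)
open Filter Topology

section move

variable {ι : Type*} [DecidableEq ι] [Finite ι] {w : ι → ℂ} {X : List ι} {p c : ι}

/-- A line is moved through the lines `X`. -/
theorem VV_move : ∀ (X A : List ι), (A ++ p :: X).Nodup →
    c ∉ A ++ p :: X → okR (3 * Real.pi / 16 - w p) → (∀ x ∈ X, okR (3 * Real.pi / 16 - w x)) →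
    (∀ x ∈ X, okR (w p - w x)) → (∀ Y : List ι, Y.Perm (A ++ p :: X) → Reg w Y) →
    VV w (A ++ p :: X) ∘ₗ uops.M w p (w p) X = VV w (A ++ X ++ [p]) := by
  intro X
  induction X with
  | nil =>
    intro A _ _ _ _ _ _
    rw [List.append_nil]
    rfl
  | cons x X ih =>
    intro A hA hc h1 h2 h3 hR
    have hp : (A ++ p :: x :: X).Perm (A ++ x :: p :: X) := List.Perm.append_left _ (List.Perm.swap _ _ _)
    have e1 := VV_exchange (L1 := A) (L2 := X) (j := p) (k := x) hA hc h1 (h2 x (by simp))
      (h3 x (by simp)) (hR _ (List.Perm.refl _)) (hR _ hp.symm)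
    have e2 : A ++ x :: p :: X = (A ++ [x]) ++ p :: X := by simp
    have e3 := ih (A ++ [x]) (by rw [← e2]; exact hp.nodup_iff.1 hA)
      (by rw [← e2]; exact fun h => hc (hp.mem_iff.2 h)) h1 (fun y hy => h2 y (by simp [hy]))
      (fun y hy => h3 y (by simp [hy])) (fun Y hY => hR Y (by rw [← e2] at hY; exact hY.trans hp.symm))
    rw [EXL.Glob.Ops.M_cons]
    calc VV w (A ++ p :: x :: X) ∘ₗ (uops.R p x (w p - w x) * uops.M w p (w p) X)
        = (VV w (A ++ p :: x :: X) ∘ₗ uops.R p x (w p - w x)) ∘ₗ uops.M w p (w p) X := rfl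
      _ = VV w ((A ++ [x]) ++ p :: X) ∘ₗ uops.M w p (w p) X := by rw [e1, e2]
      _ = _ := by rw [e3]; simp

end move

/-- The rows `X` have distinct rapidities near the honeycomb point; the sites `b`, `c` are not used. -/
structure Sx {ι : Type*} (r : ℝ) (z : ι → ℂ) (X : List ι) (b c : ι) : Prop where
  nd : X.Nodup
  near : ∀ i ∈ X, z i ∈ Metric.ball z0 r
  dist : ∀ i ∈ X, ∀ j ∈ X, i ≠ j → z i ≠ z j
  bc : b ≠ c
  nb : b ∉ X
  nc : c ∉ X

section Sx

variable {ι : Type*} {z : ι → ℂ} {X : List ι} {p b c : ι} {r : ℝ}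

theorem Sx.perm {Y : List ι} (h : Sx r z X b c) (hp : X.Perm Y) : Sx r z Y b c where
  nd := hp.nodup_iff.1 h.nd
  near i hi := h.near i (hp.mem_iff.2 hi)
  dist i hi j hj := h.dist i (hp.mem_iff.2 hi) j (hp.mem_iff.2 hj)
  bc := h.bc
  nb hi := h.nb (hp.mem_iff.2 hi)
  nc hi := h.nc (hp.mem_iff.2 hi)

theorem Sx.tail (h : Sx r z (p :: X) b c) : Sx r z X b c where
  nd := (List.nodup_cons.1 h.nd).2
  near i hi := h.near i (by simp [hi])
  dist i hi j hj := h.dist i (by simp [hi]) j (by simp [hj])
  bc := h.bc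
  nb hi := h.nb (by simp [hi])
  nc hi := h.nc (by simp [hi])

theorem Cx.sL {L : List (ι × ι)} (h : Cx r z L b c) : Sx r z (L.map Prod.snd) b c :=
  ⟨h.gd.snd, h.nearL, h.distL, h.bc, h.b2, h.c2⟩

theorem Cx.sR {L : List (ι × ι)} (h : Cx r z L b c) : Sx r z (L.map Prod.fst) b c :=
  ⟨h.gd.fst, h.nearR, h.distR, h.bc, h.b1, h.c1⟩

variable [DecidableEq ι]

theorem Sx.good (h : Sx r z X b c) (hr : NR ι r) : Good z X := hr.good z X h.nd h.near h.dist

theorem Sx.good' (h : Sx r z X b c) (hr : NR ι r) : Good (fun i => -z i) X :=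
  hr.good' z X h.nd h.near h.dist b c h.nb h.nc h.bc

theorem Sx.q (h : Sx r z X b c) (hr : NR ι r) :
    Fr.Qs (ux z) X.toFinset = Fr.qc (X.map fun i => NUMv.cc (z i)) := by
  have hi : ∀ i ∈ X, ∀ j ∈ X, ux z i = ux z j → i = j := fun i hi j hj e => by
    by_contra hij
    exact h.dist i hi j hj hij (sub_right_injective e)
  have hb : ∀ i ∈ X, ux z i ∈ Fr.nb := fun i hi => by
    have := (hr.ok _ (h.near i hi) _ (h.near i hi)).nm
    rwa [show (3 / 2 * lam - z i) = ux z i by unfold ux lam; ring] at this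
  rw [← Fr.qc_lab h.nd hi hb]
  congr 1
  exact List.map_congr_left fun t _ => (cf_m (z t))

theorem Sx.q' (h : Sx r z X b c) (hr : NR ι r) :
    Fr.Qs (ux fun i => -z i) X.toFinset = Fr.qc (X.map fun i => NUMv.cc (z i)) := by
  have hi : ∀ i ∈ X, ∀ j ∈ X, ux (fun i => -z i) i = ux (fun i => -z i) j →
      i = j := fun i hi j hj e => by
    by_contra hij
    exact h.dist i hi j hj hij (neg_injective (sub_right_injective e))
  have hb : ∀ i ∈ X, ux (fun i => -z i) i ∈ Fr.nb := fun i hi => by
    have := (hr.ok _ (h.near i hi) _ (h.near i hi)).np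
    rwa [show (3 / 2 * lam + z i) = ux (fun i => -z i) i by unfold ux lam; ring] at this
  rw [← Fr.qc_lab h.nd hi hb]
  congr 1
  refine List.map_congr_left fun i _ => ?_
  rw [← cf_p (z i)]
  congr 1
  unfold ux hh
  ring

variable [Finite ι]

/-- **The left half strip with the line moved to the top.** -/
theorem farL_rev (h : Sx r z (p :: X) b c) (hr : NR ι r) :
    far (fun i => -z i) p (hh + z p) X ∘ₗ uops.M (fun i => -z i) p (-z p) X =
      far z p (hh - z p) X.reverse := by
  have hrev : (p :: X).Perm (p :: X.reverse) := List.Perm.cons _ (List.reverse_perm X).symm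
  have h' := h.perm hrev
  have e1 := far_near (h.good' hr) h.nb h.nc h.bc
  have e2 := far_near (h'.good hr) h'.nb h'.nc h'.bc
  rw [ux_hh] at e1 e2
  rw [sub_neg_eq_add, h.q' hr] at e1
  rw [h'.q hr] at e2
  have hp2 : (p :: X).Perm (X ++ [p]) := by
    simpa using (List.perm_middle (a := p) (l₁ := X) (l₂ := [])).symm
  have e3 := VV_move (w := fun i => -z i) (p := p) (c := c) X [] h.nd h.nc
    (by
      show okR (3 * Real.pi / 16 - -z p)
      rw [sub_neg_eq_add]
      exact (hr.ok _ (h.near p (by simp)) _ (h.near p (by simp))).hp)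
    (fun x hx => by
      show okR (3 * Real.pi / 16 - -z x)
      rw [sub_neg_eq_add]
      exact (hr.ok _ (h.near x (by simp [hx])) _ (h.near x (by simp [hx]))).hp)
    (fun x hx => by
      show okR (-z p - -z x)
      rw [show -z p - -z x = z x - z p by ring]
      exact (hr.ok _ (h.near x (by simp [hx])) _ (h.near p (by simp))).ab)
    (fun Y hY => by
      have hY' := h.perm hY.symm
      exact hr.reg' z Y hY'.nd hY'.near hY'.nb hY'.nc hY'.bc)
  rw [List.nil_append, List.nil_append] at e3
  have e4 := VV_rev (z := z) (X := p :: X.reverse) (c := b) (d := c) h'.nd h.bc h'.nb h'.nc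
    (hr.reg z _ h'.nd h'.near)
  rw [List.reverse_cons, List.reverse_reverse] at e4
  rw [e1, e2, LinearMap.smul_comp, e3, e4]
  congr 1
  exact Fr.qc_perm (hrev.map _)

omit [Finite ι] in
theorem far_diff (hX : X.Nodup) (w : ι → ℂ) (p : ι) (F : EXL.Pat ι → ℂ) :
    Differentiable ℂ fun u => far w p u X F := by
  have hcf : Differentiable ℂ cf := by
    unfold cf
    fun_prop
  have hfa : Differentiable ℂ Fr.fa := by
    unfold Fr.fa
    fun_prop
  have e : (fun u => far w p u X F) = fun u =>
      (∑ j ∈ Finset.range (X.length + 1), cf u ^ j * cE w X j F) +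
        Fr.fa u * ∑ j ∈ Finset.range X.length, cf u ^ j * cC w p X j F := by
    funext u
    unfold far
    rw [farE_poly hX, farC_poly hX]
    simp only [LinearMap.add_apply, LinearMap.smul_apply, LinearMap.sum_apply, smul_eq_mul]
  rw [e]
  refine (Differentiable.fun_sum fun j _ => (hcf.pow j).mul_const _).add (hfa.mul ?_)
  exact Differentiable.fun_sum fun j _ => (hcf.pow j).mul_const _

/-- **The fusion identity of the left half strip.** -/
theorem farL_N {q : ι} {Y : List ι} (h : Sx r z (q :: Y) b c) (hr : NR ι r) (hr0 : 0 < r)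
    (hn : (p :: q :: Y).Nodup) (hb : b ∉ p :: q :: Y) (hc : c ∉ p :: q :: Y) {ζ : ℂ}
    (hζ : ζ = z q + 2 * lam) (G : EXL.Pat ι → ℂ) :
    far (fun i => -z i) p (hh + ζ) (q :: Y) (R6 (Dn (-(2 * lam))) (Wn (-(2 * lam))) q p G) = 0 := by
  have hn1 := List.nodup_cons.1 hn
  have hpY : ∀ x ∈ q :: Y, x ≠ p := fun x hx e => hn1.1 (e ▸ hx)
  -- a rapidity near the honeycomb point
  have hopen : IsOpen (Metric.ball z0 r \ {x | x ∈ (q :: Y).map z}) :=
    Metric.isOpen_ball.sdiff (List.finite_toSet _).isClosed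
  have hinf : (Metric.ball z0 r).Infinite := infinite_of_mem_nhds z0 (Metric.ball_mem_nhds z0 hr0)
  obtain ⟨ζ0, hζ0⟩ := (hinf.sdiff (List.finite_toSet ((q :: Y).map z))).nonempty
  have hev : ∀ᶠ s in 𝓝 (-ζ0), -s ∈ Metric.ball z0 r \ {x | x ∈ (q :: Y).map z} := by
    have hcont : ContinuousAt (fun s : ℂ => -s) (-ζ0) := by fun_prop
    refine hcont.eventually (hopen.mem_nhds ?_)
    show - -ζ0 ∈ _
    rw [neg_neg]
    exact hζ0
  have hn0 := h.nd
  have key := far_N (z := fun i => -z i) (p := p) (q := q) (Y := Y)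
    (fam := fun s => far (fun i => -z i) p (hh - s) (q :: Y))
    (famT := fun s => far z p (hh + s) (q :: Y).reverse)
    (fun F => (far_diff hn0 _ p F).comp (by fun_prop : Differentiable ℂ fun s : ℂ => hh - s))
    (fun F => (far_diff (List.nodup_reverse.2 hn0) _ p F).comp
      (by fun_prop : Differentiable ℂ fun s : ℂ => hh + s)) hn1.1 (ζ0 := -ζ0) (ζ := -ζ) ?_
    (by rw [hζ]; ring) ?_ ?_ G
  · rw [sub_neg_eq_add] at key
    exact key
  · filter_upwards [hev] with s hs
    have hs1 : ∀ x ∈ q :: Y, -s ≠ z x := fun x hx e => hs.2 (by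
      show -s ∈ (q :: Y).map z
      rw [e]
      exact List.mem_map_of_mem hx)
    constructor
    · intro x hx
      show okR (s - -z x)
      rw [show s - -z x = z x - -s by ring]
      exact (hr.ok _ (h.near x hx) _ hs.1).ab
    · set z' := Function.update z p (-s) with hz'
      have ep : z' p = -s := by rw [hz', Function.update_self]
      have ex : ∀ x ∈ q :: Y, z' x = z x := fun x hx => by
        rw [hz', Function.update_of_ne (hpY x hx)]
      have hS : Sx r z' (p :: q :: Y) b c := by
        refine ⟨hn, ?_, ?_, h.bc, hb, hc⟩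
        · intro i hi
          rcases List.mem_cons.1 hi with hi1 | hi1
          · rw [hi1, ep]
            exact hs.1
          · rw [ex i hi1]
            exact h.near i hi1
        · intro i hi j hj hij
          rcases List.mem_cons.1 hi with hi1 | hi1
          · rcases List.mem_cons.1 hj with hj1 | hj1
            · exact absurd (hi1.trans hj1.symm) hij
            · rw [hi1, ep, ex j hj1]
              exact hs1 j hj1
          · rcases List.mem_cons.1 hj with hj1 | hj1
            · rw [hj1, ep, ex i hi1]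
              exact (hs1 i hi1).symm
            · rw [ex i hi1, ex j hj1]
              exact h.dist i hi1 j hj1 hij
      have e := farL_rev hS hr
      rw [ep, neg_neg, ← sub_eq_add_neg, sub_neg_eq_add] at e
      have f1 : far (fun i => -z' i) p (hh - s) (q :: Y) = far (fun i => -z i) p (hh - s) (q :: Y) :=
        far_congr fun i hi => by rw [ex i hi]
      have f2 : uops.M (fun i => -z' i) p s (q :: Y) = uops.M (fun i => -z i) p s (q :: Y) :=
        M_congrL fun i hi => by rw [ex i hi]
      have f3 : far z' p (hh + s) (q :: Y).reverse = far z p (hh + s) (q :: Y).reverse :=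
        far_congr fun i hi => ex i (List.mem_reverse.1 hi)
      rw [f1, f2, f3] at e
      exact e
  · intro x hx
    show okR (-ζ - -z x)
    have hxq : q ≠ x := fun e => (List.nodup_cons.1 h.nd).1 (e ▸ hx)
    have := (hr.od _ (h.near q (by simp)) _ (h.near x (by simp [hx]))
      (h.dist q (by simp) x (by simp [hx]) hxq)).g2
    rw [hζ, show -(z q + 2 * lam) - -z x = -(z q + 2 * lam - z x) by ring]
    exact this
  · intro x hx
    show okR (-(-ζ - -z x))
    have := (hr.ok _ (h.near q (by simp)) _ (h.near x (by simp [hx]))).g1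
    rw [hζ, show -(-(z q + 2 * lam) - -z x) = z q + 2 * lam - z x by ring]
    exact this

end Sx

end Pool.Agent.NUF
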