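import Pool.Agent.NUF.PCon

/-!
# The functional of one more line at the special rapidities (one half strip)
-/

set_option autoImplicit false

namespace Pool.Agent.NUF

open Pool.Agent.EXL (okR opCu)
open Pool.Agent.EXL.Fm (Dn lam Wn R6)
open Pool.Agent.EXL.HS (ind)
open Filter Topology

section side

variable {ι : Type*} [DecidableEq ι] {w : ι → ℂ} {X Y : List ι} {p q b c : ι} {u ζ : ℂ}

omit [DecidableEq ι] in
theorem ux_hh (w : ι → ℂ) (p : ι) : ux w p = hh - w p := rfl

theorem far_upd (hp : p ∉ X) (ζ : ℂ) : far w p u X = far (Function.update w p ζ) p u X :=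
  far_congr fun i hi => by
    rw [Function.update_of_ne]
    exact fun e => hp (e ▸ hi)

theorem good_upd (hG : Good w X) (hp : p ∉ X) (ζ : ℂ) : Good (Function.update w p ζ) X :=
  hG.congr fun i hi => by
    rw [Function.update_of_ne]
    exact fun e => hp (e ▸ hi)

theorem far_at0 : far w p 0 X = farE w 0 X := by
  unfold far Fr.fa
  rw [Complex.sin_zero, zero_smul, add_zero]

theorem farE_even (h : Fr.cf u = Fr.cf ζ) : farE w u X = farE w ζ X := by
  have e : ∀ Y : Finset ι, Fr.Dl (ux w) u Y = Fr.Dl (ux w) ζ Y := fun Y => by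
    rw [Dl_cf, Dl_cf]
    exact Finset.prod_congr rfl fun k _ => by rw [show cf u = cf ζ from h]
  unfold farE
  simp only [e]

variable [Finite ι]

/-- The functional is fixed by the column. -/
theorem far_fix' (hG : Good w X) (hn : (p :: X).Nodup) (hb : b ∉ p :: X) (hc : c ∉ p :: X) (hbc : b ≠ c)
    (hD : okR (hh - ζ)) {d : ι} (hd : d ∉ p :: X) :
    far w p (hh - ζ) X ∘ₗ T0 (Function.update w p ζ) d (p :: X) = far w p (hh - ζ) X := by
  have hp := (List.nodup_cons.1 hn).1
  have e : ux (Function.update w p ζ) p = hh - ζ := by rw [ux_hh, Function.update_self]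
  have h := far_fix (good_upd hG hp ζ) hp hb hc hbc (by rw [e]; exact (EXL.Fm.okR_iff _).1 hD) hd
  rw [e, ← far_upd hp] at h
  exact h

/-- **The trivial line.** -/
theorem side_triv (hG : Good w X) (hn : (p :: X).Nodup) (hb : b ∉ p :: X) (hc : c ∉ p :: X)
    (hbc : b ≠ c) : far w p 0 X = Fr.Nf (ux w) (Fr.Qs (ux w)) 0 X.toFinset • VV w X := by
  have hp := (List.nodup_cons.1 hn).1
  have hcX : c ∉ X := fun h => hc (List.mem_cons_of_mem _ h)
  have h0 : far w p 0 X = far w p (hh - hh) X := by rw [sub_self]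
  have h1 := far_fix' (ζ := hh) hG hn hb hc hbc
    (okR_t (t := 0) (by norm_num) (by norm_num) (by push_cast; ring)) hc
  rw [← h0] at h1
  have h2 : far w p 0 X ∘ₗ uops.E p = far w p 0 X := by
    rw [far_at0]
    exact farE_E hG.reg hn hcX
  have hR := (good_upd hG hp hh).reg X (List.Sublist.refl _)
  have h3 := triv_fix hn hc (far_sup hG hp hb hc hbc) h2 h1 (by rw [Function.update_self]; rfl) hR
  rw [h3, far_one hG hp hb hc hbc]
  congr 1
  exact VV_congr fun i hi => by
    rw [Function.update_of_ne]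
    exact fun e => hp (e ▸ hi)

/-- **Crossing**, the half where the lines are joined. -/
theorem side_glue (hG : Good w (q :: Y)) (hn : (p :: q :: Y).Nodup) (hb : b ∉ p :: q :: Y)
    (hc : c ∉ p :: q :: Y) (hbc : b ≠ c) (hz : ζ = w q + 3 * Real.pi / 8) (h1 : okR (hh - ζ))
    (h2 : okR (hh - w q)) :
    far w p (hh - ζ) (q :: Y) ∘ₗ uops.glue p q =
      Fr.Nf (ux w) (Fr.Qs (ux w)) (hh - ζ) (q :: Y).toFinset • VV w Y := by
  have hp := (List.nodup_cons.1 hn).1
  have hpq : p ≠ q := fun e => hp (by simp [e])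
  have hu : Function.update w p ζ q = w q := by rw [Function.update_of_ne hpq.symm]
  have hR := (good_upd hG hp ζ).reg Y (List.sublist_cons_self q Y)
  have h3 := glue_fix hn hc (far_sup hG hp hb hc hbc) (far_fix' hG hn hb hc hbc h1 hc)
    (by
      rw [hu, Function.update_self, hz]
      show w q + 3 * Real.pi / 8 = w q + 3 * Real.pi / 16 + 3 * Real.pi / 16
      ring)
    (by rw [Function.update_self]; exact h1) (by rw [hu]; exact h2) hR
  rw [h3, far_one hG hp hb hc hbc]
  congr 1
  exact VV_congr fun i hi => by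
    rw [Function.update_of_ne]
    exact fun e => hp (e ▸ List.mem_cons_of_mem _ hi)

/-- **Crossing**, the half with the U-turn. -/
theorem side_U (hG : Good w (q :: Y)) (hn : (p :: q :: Y).Nodup) (hc : c ∉ p :: q :: Y)
    (hz : ζ = w q - 3 * lam) :
    far w p (hh - ζ) (q :: Y) =
      Fr.Nf (ux w) (Fr.Qs (ux w)) (hh - ζ) (q :: Y).toFinset • (VV w Y ∘ₗ uops.U p q) := by
  have hn1 := List.nodup_cons.1 hn
  have hn2 := List.nodup_cons.1 hn1.2
  have hpq : p ≠ q := fun e => hn1.1 (by simp [e])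
  have hpY : p ∉ Y := fun e => hn1.1 (by simp [e])
  have hcY : c ∉ Y := fun h => hc (by simp [h])
  have e : hh - ζ = ux w q + 3 * lam := by rw [hz, ux_hh]; ring
  have hV := (isV_VV hn2.2 hcY (hG.reg Y (List.sublist_cons_self q Y))).sup
  have hq : q ∉ Y.toFinset := by rw [List.mem_toFinset]; exact hn2.1
  have h0 : Fr.dl (ux w q + 3 * lam) (ux w q) = 0 := Fr.dl_3s _
  rw [e, far_cross hn2.1 hpq hpY hV, List.toFinset_cons, Fr.Nf_node hq h0]
  congr 1
  ring

/-- **Fusion**, the half where the lines are merged. -/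
theorem side_Yt {w' : ι → ℂ} (hG : Good w (q :: Y)) (hn : (p :: q :: Y).Nodup) (hb : b ∉ p :: q :: Y)
    (hc : c ∉ p :: q :: Y) (hbc : b ≠ c) (hz : ζ = w q + 2 * lam) (hz' : w' q = w q + lam)
    (hY : ∀ y ∈ Y, w' y = w y) (h1 : okR (hh - ζ)) (h2 : okR (hh - w q)) (h3 : okR (hh - w' q))
    (hR : Reg w' (q :: Y)) :
    far w p (hh - ζ) (q :: Y) ∘ₗ uops.Yt q p =
      Fr.Nf (ux w) (Fr.Qs (ux w)) (hh - ζ) (q :: Y).toFinset • VV w' (q :: Y) := by
  have hn1 := List.nodup_cons.1 hn
  have hp := hn1.1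
  have hpq : p ≠ q := fun e => hp (by simp [e])
  have hcq : c ∉ q :: Y := fun h => hc (List.mem_cons_of_mem _ h)
  have hu : Function.update w p ζ q = w q := by rw [Function.update_of_ne hpq.symm]
  obtain ⟨k1, k2, k3⟩ := Yt_fix (z' := w') hn hc (far_sup hG hp hb hc hbc)
    (far_fix' hG hn hb hc hbc h1 hc)
    (by
      rw [hu, Function.update_self, hz]
      show w q + 2 * lam = w q + Real.pi / 8 + Real.pi / 8
      unfold lam
      ring)
    (by
      rw [hu, hz']
      rfl)
    (fun y hy => by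
      rw [hY y hy, Function.update_of_ne]
      exact fun e => hp (e ▸ List.mem_cons_of_mem _ hy))
    (by rw [Function.update_self]; exact h1) (by rw [hu]; exact h2) h3
  have hV := isV_VV hn1.2 hcq hR
  rw [← sub_eq_zero]
  refine fix_zero hcq hR (k1.sub (hV.sup.smul _)) ?_ ?_
  · rw [LinearMap.sub_comp, LinearMap.smul_comp, hV.fix c hcq, k2]
  · rw [LinearMap.sub_apply, LinearMap.smul_apply, hV.one, k3, far_one hG hp hb hc hbc, smul_eq_mul,
      mul_one, sub_self]

/-- **Fusion**, the half where the lines come from one line. -/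
theorem side_K {w' : ι → ℂ} (hG : Good w (q :: Y)) (hn : (p :: q :: Y).Nodup) (hb : b ∉ p :: q :: Y)
    (hc : c ∉ p :: q :: Y) (hbc : b ≠ c) (hz : ζ = w q - 2 * lam) (hz' : w' q = w q - lam)
    (hY : ∀ y ∈ Y, w' y = w y) (h1 : okR (hh - ζ)) (h2 : okR (hh - w q)) (h3 : okR (hh - w' q))
    (hR : Reg w' (q :: Y))
    (hN : ∀ G : EXL.Pat ι → ℂ, far w p (hh - ζ) (q :: Y)
      (R6 (Dn (-(2 * lam))) (Wn (-(2 * lam))) q p G) = 0) :
    far w p (hh - ζ) (q :: Y) = (far w p (hh - ζ) (q :: Y) ∘ₗ Kop q p) ∘ₗ uops.Y q p ∧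
      far w p (hh - ζ) (q :: Y) ∘ₗ Kop q p =
        Fr.Nf (ux w) (Fr.Qs (ux w)) (hh - ζ) (q :: Y).toFinset • VV w' (q :: Y) := by
  have hn1 := List.nodup_cons.1 hn
  have hp := hn1.1
  have hpq : p ≠ q := fun e => hp (by simp [e])
  have hcq : c ∉ q :: Y := fun h => hc (List.mem_cons_of_mem _ h)
  have hu : Function.update w p ζ q = w q := by rw [Function.update_of_ne hpq.symm]
  obtain ⟨k0, k1, k2, k3⟩ := K_fix (z' := w') hn hc (far_sup hG hp hb hc hbc)
    (far_fix' hG hn hb hc hbc h1 hc) hN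
    (by
      rw [hu, Function.update_self, hz]
      show w q = w q - 2 * lam + Real.pi / 8 + Real.pi / 8
      unfold lam
      ring)
    (by
      rw [Function.update_self, hz', hz]
      show w q - lam = w q - 2 * lam + Real.pi / 8
      unfold lam
      ring)
    (fun y hy => by
      rw [hY y hy, Function.update_of_ne]
      exact fun e => hp (e ▸ List.mem_cons_of_mem _ hy))
    (by rw [Function.update_self]; exact h1) (by rw [hu]; exact h2) h3
  have hV := isV_VV hn1.2 hcq hR
  refine ⟨k0, ?_⟩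
  rw [← sub_eq_zero]
  refine fix_zero hcq hR (k1.sub (hV.sup.smul _)) ?_ ?_
  · rw [LinearMap.sub_comp, LinearMap.smul_comp, hV.fix c hcq, k2]
  · rw [LinearMap.sub_apply, LinearMap.smul_apply, hV.one, k3, far_one hG hp hb hc hbc, smul_eq_mul,
      mul_one, sub_self]

end side

end Pool.Agent.NUF
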