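import Pool.Agent.NUF.Gauge

/-!
# Pairs of functionals of unlabelled states

`un p q` = the union of two states with disjoint supports; `pr V V'` = the functional of labelled states
`F ↦ V (p ↦ V' (q ↦ F (un p q)))` for two functionals `V`, `V'` of unlabelled states.  Local operators on the
sites of one factor act on this factor.
-/

set_option autoImplicit false

namespace Pool.Agent.NUF

open LPat

section un

variable {ι : Type*} [DecidableEq ι]

/-- The supports are disjoint. -/
def Dj (p q : EXL.Pat ι) : Prop := ∀ x, p x = x ∨ q x = x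

omit [DecidableEq ι] in
theorem Dj.symm {p q : EXL.Pat ι} (h : Dj p q) : Dj q p := fun x => (h x).symm

open Classical in
/-- The union of two states with disjoint supports. -/
noncomputable def un (p q : EXL.Pat ι) : EXL.Pat ι where
  f x := if Dj p q then (if p x = x then q x else p x) else p x
  inv x := by
    by_cases h : Dj p q
    · simp only [if_pos h]
      have ip : ∀ x, p (p x) = x := p.inv
      have iq : ∀ x, q (q x) = x := q.inv
      by_cases h1 : p x = x
      · rw [if_pos h1]
        rcases h (q x) with h2 | h2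
        · rw [if_pos h2, iq]
        · rw [iq] at h2
          rw [← h2, if_pos h1]
          exact h2.symm
      · rw [if_neg h1, ip, if_neg (fun e => h1 e.symm)]
    · simp only [if_neg h]
      exact p.inv x

theorem un_apply {p q : EXL.Pat ι} (h : Dj p q) (x : ι) : un p q x = if p x = x then q x else p x := by
  classical
  show (if Dj p q then (if p x = x then q x else p x) else p x) = _
  rw [if_pos h]

theorem un_left {p q : EXL.Pat ι} (h : Dj p q) {x : ι} (hx : q x = x) : un p q x = p x := by
  rw [un_apply h]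
  split_ifs with h1
  · rw [hx, h1]
  · rfl

theorem un_comm {p q : EXL.Pat ι} (h : Dj p q) : un p q = un q p := by
  ext x
  show un p q x = un q p x
  rw [un_apply h, un_apply h.symm]
  rcases h x with h1 | h1
  · rw [if_pos h1, h1]
    split_ifs with h2
    · rw [h2]
    · rfl
  · rw [h1, if_pos rfl]
    split_ifs with h2
    · exact h2.symm
    · rfl

theorem un_empty (p : EXL.Pat ι) : un p EXL.Pat.empty = p := by
  have h : Dj p EXL.Pat.empty := fun x => Or.inr rfl
  ext x
  show un p EXL.Pat.empty x = p x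
  rw [un_left h rfl]

end un

section rel

variable {Γ α ι K : Type*} [AddCommGroup Γ] [DecidableEq ι] [CommRing K]

/-- `H` is the function `F` of the union with `q`. -/
def RelQ (q : EXL.Pat ι) (F : LPat Γ ι → K) (H : EXL.Pat ι → K) : Prop :=
  ∀ p, Dj p q → F (ofP Γ (un p q)) = H p

section
variable {p q : EXL.Pat ι} {i j : ι}

theorem swap_fix (hi : q i = i) (hj : q j = j) (x : ι) :
    Equiv.swap i j (q (Equiv.swap i j x)) = q x := by
  have iq : ∀ x, q (q x) = x := q.inv
  simp only [Equiv.swap_apply_def]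
  grind

theorem Dj.swap (h : Dj p q) (hi : q i = i) (hj : q j = j) : Dj (EXL.Pat.swap i j p) q := by
  intro x
  rcases h (Equiv.swap i j x) with h1 | h1
  · left
    show Equiv.swap i j (p (Equiv.swap i j x)) = x
    rw [h1, Equiv.swap_apply_self]
  · right
    rw [← swap_fix hi hj x, h1, Equiv.swap_apply_self]

theorem un_swap (h : Dj p q) (hi : q i = i) (hj : q j = j) :
    EXL.Pat.swap i j (un p q) = un (EXL.Pat.swap i j p) q := by
  ext x
  show Equiv.swap i j (un p q (Equiv.swap i j x)) = un (EXL.Pat.swap i j p) q x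
  rw [un_apply h, un_apply (h.swap hi hj)]
  have e : EXL.Pat.swap i j p x = x ↔ p (Equiv.swap i j x) = Equiv.swap i j x := by
    show Equiv.swap i j (p (Equiv.swap i j x)) = x ↔ _
    rw [← Equiv.eq_symm_apply, Equiv.symm_swap]
  by_cases h1 : p (Equiv.swap i j x) = Equiv.swap i j x
  · rw [if_pos h1, if_pos (e.2 h1), swap_fix hi hj]
  · rw [if_neg h1, if_neg (fun hh => h1 (e.1 hh))]
    rfl

theorem cup_sub (hi : q i = i) (hj : q j = j) (h : Dj p q) : Dj (EXL.Pat.cup i j p) q := by
  intro x
  by_cases h1 : x = i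
  · exact Or.inr (h1 ▸ hi)
  · by_cases h2 : x = j
    · exact Or.inr (h2 ▸ hj)
    · rcases h x with h3 | h3
      · left
        show (if p i = i ∧ p j = j then (if x = i then j else if x = j then i else p x) else p x) = x
        rw [if_neg h1, if_neg h2, h3, ite_self]
      · exact Or.inr h3

theorem un_cup (h : Dj p q) (hi : q i = i) (hj : q j = j) :
    EXL.Pat.cup i j (un p q) = un (EXL.Pat.cup i j p) q := by
  have ei : un p q i = p i := un_left h hi
  have ej : un p q j = p j := un_left h hj
  have iq : ∀ x, q (q x) = x := q.inv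
  have ip : ∀ x, p (p x) = x := p.inv
  ext x
  have d := cup_sub hi hj h
  show (if un p q i = i ∧ un p q j = j then (if x = i then j else if x = j then i else un p q x)
    else un p q x) = un (EXL.Pat.cup i j p) q x
  rw [un_apply d]
  have e : EXL.Pat.cup i j p x =
    (if p i = i ∧ p j = j then (if x = i then j else if x = j then i else p x) else p x) := rfl
  rw [ei, ej, e, un_apply h]
  by_cases hc : p i = i ∧ p j = j
  · obtain ⟨c1, c2⟩ := hc
    simp only [c1, c2, and_self, if_true]
    by_cases h1 : x = i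
    · subst h1
      simp only [if_true, hi]
      split_ifs with hh
      · exact hh
      · rfl
    · by_cases h2 : x = j
      · subst h2
        simp only [if_true, if_neg h1, hj]
        split_ifs with hh
        · exact hh
        · rfl
      · simp only [if_neg h1, if_neg h2]
  · simp only [if_neg hc]

theorem cut_sub (hi : q i = i) (hj : q j = j) (h : Dj p q) : Dj (EXL.Pat.cut i j p) q := by
  have iq : ∀ x, q (q x) = x := q.inv
  have ip : ∀ x, p (p x) = x := p.inv
  intro x
  by_cases hc : EXL.Pat.CtOK i j p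
  · rw [EXL.cut_apply hc]
    obtain ⟨c1, c2, c3, c4⟩ := hc
    have h1 : q (p i) = p i := (h (p i)).resolve_left (by rw [ip]; exact fun e => c2 e.symm)
    have h2 : q (p j) = p j := (h (p j)).resolve_left (by rw [ip]; exact fun e => c3 e.symm)
    have h3 := h x
    grind
  · have e : EXL.Pat.cut i j p x = p x := by
      show (if i ≠ j ∧ p i ≠ i ∧ p j ≠ j ∧ p i ≠ j then _ else p x) = p x
      rw [if_neg hc]
    rw [e]
    exact h x

theorem un_cut (h : Dj p q) (hi : q i = i) (hj : q j = j) :
    EXL.Pat.cut i j (un p q) = un (EXL.Pat.cut i j p) q := by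
  have ei : un p q i = p i := un_left h hi
  have ej : un p q j = p j := un_left h hj
  have iq : ∀ x, q (q x) = x := q.inv
  have ip : ∀ x, p (p x) = x := p.inv
  have d := cut_sub hi hj h
  ext x
  by_cases hc : EXL.Pat.CtOK i j p
  · have hc' : EXL.Pat.CtOK i j (un p q) := by
      obtain ⟨c1, c2, c3, c4⟩ := hc
      exact ⟨c1, by rw [ei]; exact c2, by rw [ej]; exact c3, by rw [ei]; exact c4⟩
    show EXL.Pat.cut i j (un p q) x = un (EXL.Pat.cut i j p) q x
    rw [EXL.cut_apply hc', un_apply d, EXL.cut_apply hc, ei, ej, un_apply h]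
    obtain ⟨c1, c2, c3, c4⟩ := hc
    have h1 : q (p i) = p i := (h (p i)).resolve_left (by rw [ip]; exact fun e => c2 e.symm)
    have h2 : q (p j) = p j := (h (p j)).resolve_left (by rw [ip]; exact fun e => c3 e.symm)
    have h3 := h x
    grind
  · have hc' : ¬ EXL.Pat.CtOK i j (un p q) := by
      rintro ⟨c1, c2, c3, c4⟩
      rw [ei] at c2 c4
      rw [ej] at c3
      exact hc ⟨c1, c2, c3, c4⟩
    have e : ∀ P : EXL.Pat ι, ¬ EXL.Pat.CtOK i j P → ∀ x, EXL.Pat.cut i j P x = P x := by
      intro P hP x
      show (if i ≠ j ∧ P i ≠ i ∧ P j ≠ j ∧ P i ≠ j then _ else P x) = P x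
      rw [if_neg hP]
    show EXL.Pat.cut i j (un p q) x = un (EXL.Pat.cut i j p) q x
    rw [e _ hc' x, un_apply h, un_apply d, e _ hc x]

end

/-- The letters on the sites of `T`. -/
inductive GOn (T : Set ι) : Gen ι → Prop
  | e {i : ι} : i ∈ T → GOn T (.e i)
  | sw {i j : ι} : i ∈ T → j ∈ T → GOn T (.sw i j)
  | cu {i j : ι} : i ∈ T → j ∈ T → GOn T (.cu i j)
  | ct {i j : ι} : i ∈ T → j ∈ T → GOn T (.ct i j)

/-- The words on the sites of `T`. -/
def On (T : Set ι) (w : Wd K ι) : Prop :=
  w ∈ Algebra.adjoin K {x | ∃ g, GOn T g ∧ x = FreeAlgebra.ι K g}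

section On
omit [DecidableEq ι]

variable {T : Set ι} {w v : Wd K ι} {i j : ι}

theorem On.one : On T (1 : Wd K ι) := one_mem _

theorem On.zero : On T (0 : Wd K ι) := zero_mem _

theorem On.mul (h : On T w) (h' : On T v) : On T (w * v) := mul_mem h h'

theorem On.add (h : On T w) (h' : On T v) : On T (w + v) := add_mem h h'

theorem On.sub (h : On T w) (h' : On T v) : On T (w - v) := sub_mem h h'

theorem On.smul (c : K) (h : On T w) : On T (c • w) := Subalgebra.smul_mem _ h c

theorem On.e (hi : i ∈ T) : On T (we i : Wd K ι) := Algebra.subset_adjoin ⟨_, .e hi, rfl⟩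

theorem On.o (hi : i ∈ T) : On T (wo i : Wd K ι) := On.one.sub (On.e hi)

theorem On.sw (hi : i ∈ T) (hj : j ∈ T) : On T (wsw i j : Wd K ι) :=
  Algebra.subset_adjoin ⟨_, .sw hi hj, rfl⟩

theorem On.cu (hi : i ∈ T) (hj : j ∈ T) : On T (wcu i j : Wd K ι) :=
  Algebra.subset_adjoin ⟨_, .cu hi hj, rfl⟩

theorem On.ct (hi : i ∈ T) (hj : j ∈ T) : On T (wct i j : Wd K ι) :=
  Algebra.subset_adjoin ⟨_, .ct hi hj, rfl⟩

theorem On.R (u : EXL.Wt K) (hi : i ∈ T) (hj : j ∈ T) : On T (wR u i j) := by
  have ei : On T (we i : Wd K ι) := .e hi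
  have ej : On T (we j : Wd K ι) := .e hj
  have oi : On T (wo i : Wd K ι) := .o hi
  have oj : On T (wo j : Wd K ι) := .o hj
  have sw : On T (wsw i j : Wd K ι) := .sw hi hj
  have cu : On T (wcu i j : Wd K ι) := .cu hi hj
  have ct : On T (wct i j : Wd K ι) := .ct hi hj
  exact (((ei.mul ej).add (cu.smul _)).add (((ei.mul oj).add (oi.mul ej)).mul
    ((On.one.smul _).add (sw.smul _)))).add ((oi.mul oj).mul (((sw.smul _).add
      (ct.smul _)).add ((ct.mul cu).smul _)))

theorem On.glue (hi : i ∈ T) (hj : j ∈ T) : On T (wglue i j : Wd K ι) :=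
  ((On.e hi).mul (.e hj)).add (.ct hi hj)

theorem On.U (hi : i ∈ T) (hj : j ∈ T) : On T (wU i j : Wd K ι) :=
  ((On.e hi).mul (.e hj)).add (.cu hi hj)

theorem On.Y (x : K) (hi : i ∈ T) (hj : j ∈ T) : On T (wY x i j : Wd K ι) :=
  (((On.e hj).mul (.e hi)).add ((On.cu hi hj).smul _)).add
    ((((On.e hj).mul (.o hi)).mul (On.one.add (.sw hi hj))).smul _)

theorem On.Yt (x : K) (hi : i ∈ T) (hj : j ∈ T) : On T (wYt x i j : Wd K ι) :=
  ((((On.e hj).mul (.e hi)).add (((On.e hj).mul (.o hi)).smul _)).add
    ((((On.o hj).mul (.e hi)).mul (.sw hi hj)).smul _)).add ((On.ct hi hj).smul _)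

end On

/-- Words on sites where `q` is empty. -/
theorem RelQ.rep {ν : Γ → K} (h0 : ν 0 = 0) {T : Set ι} (q : EXL.Pat ι) (hq : ∀ x ∈ T, q x = x)
    {w : Wd K ι} (hw : On T w) : ∀ {F : LPat Γ ι → K} {H : EXL.Pat ι → K},
    RelQ q F H → RelQ q (repL ν id w F) (rep0 K id w H) := by
  induction hw using Algebra.adjoin_induction with
  | algebraMap r =>
    intro F H h p hp
    rw [AlgHom.commutes, AlgHom.commutes]
    simp only [Module.algebraMap_end_apply, Pi.smul_apply, h p hp]
  | mem x hx =>
    obtain ⟨a, ha, rfl⟩ := hx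
    intro F H h p hp
    rw [repL, rep0, FreeAlgebra.lift_ι_apply, FreeAlgebra.lift_ι_apply]
    cases ha with
    | @e i hi' =>
      simp only [lE_apply, EXL.opE_apply, id]
      have e : un p q i = p i := un_left hp (hq i hi')
      by_cases hi : p i = i
      · rw [if_pos hi, if_pos (by rw [ofP_f, e, hi]), h p hp]
      · rw [if_neg hi, if_neg (by rw [ofP_f, e]; exact hi)]
    | @sw i j hi' hj' =>
      simp only [lSw_apply, EXL.opSw_apply, id]
      rw [ofP_swap, un_swap hp (hq i hi') (hq j hj'), h _ (hp.swap (hq i hi') (hq j hj'))]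
    | @cu i j hi' hj' =>
      simp only [lCu_apply, EXL.opCu_apply, id]
      have e1 : un p q i = p i := un_left hp (hq i hi')
      have e2 : un p q j = p j := un_left hp (hq j hj')
      by_cases hi : EXL.Pat.CuOK i j p
      · rw [if_pos hi, if_pos (show CuOK i j (ofP Γ (un p q)) from by
          unfold CuOK
          rw [ofP_f, ofP_f, e1, e2]
          exact hi), ofP_cup, un_cup hp (hq i hi') (hq j hj'), h _ (cup_sub (hq i hi') (hq j hj') hp)]
      · rw [if_neg hi, if_neg (show ¬ CuOK i j (ofP Γ (un p q)) from by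
          unfold CuOK
          rw [ofP_f, ofP_f, e1, e2]
          exact hi)]
    | @ct i j hi' hj' =>
      simp only [lCt_apply, EXL.opCt_apply, id]
      have e1 : un p q i = p i := un_left hp (hq i hi')
      have e2 : un p q j = p j := un_left hp (hq j hj')
      by_cases hi : EXL.Pat.CtOK i j p
      · have a : ofP Γ (un p q) i ≠ j := by rw [ofP_f, e1]; exact hi.2.2.2
        rw [if_pos hi, if_pos (show OcOK i j (ofP Γ (un p q)) from by
          unfold OcOK
          rw [ofP_f, ofP_f, e1, e2]
          exact ⟨hi.1, hi.2.1, hi.2.2.1⟩), lw_neg _ ν a, jo_neg _ a, ofP_cut,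
          un_cut hp (hq i hi') (hq j hj'), h _ (cut_sub (hq i hi') (hq j hj') hp), one_mul]
      · rw [if_neg hi]
        by_cases hc : OcOK i j (ofP Γ (un p q))
        · have a : ofP Γ (un p q) i = j := by
            by_contra hh
            refine hi ⟨hc.1, ?_, ?_, ?_⟩
            · have := hc.2.1
              rwa [ofP_f, e1] at this
            · have := hc.2.2
              rwa [ofP_f, e2] at this
            · rwa [ofP_f, e1] at hh
          rw [if_pos hc, lw_pos _ ν a, ofP_s, h0, zero_mul]
        · rw [if_neg hc]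
  | mul a b _ _ ha hb =>
    intro F H h
    rw [map_mul, map_mul]
    exact ha (hb h)
  | add a b _ _ ha hb =>
    intro F H h p hp
    rw [map_add, map_add, LinearMap.add_apply, LinearMap.add_apply, Pi.add_apply, Pi.add_apply,
      ha h p hp, hb h p hp]

/-- A word acts on one variable, a functional on the other one. -/
theorem rep0_dual {β : Type*} (φ : α → ι) (W : Module.Dual K (β → K)) (w : Wd K α) :
    ∀ (H : β → EXL.Pat ι → K) (p : EXL.Pat ι),
      rep0 K φ w (fun p => W (fun b => H b p)) p = W (fun b => rep0 K φ w (H b) p) := by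
  have hc : ∀ (c : Prop) [Decidable c] (f : β → K),
      (if c then W f else 0) = W (fun b => if c then f b else 0) := by
    intro c _ f
    split_ifs
    · rfl
    · exact (map_zero W).symm
  induction w using Wd.ind with
  | h0 r =>
    intro H p
    simp only [AlgHom.commutes, Module.algebraMap_end_apply, Pi.smul_apply]
    rw [← map_smul]
    rfl
  | h1 a =>
    intro H p
    simp only [rep0, FreeAlgebra.lift_ι_apply]
    cases a with
    | e i => simp only [EXL.opE_apply, hc]
    | sw i j => simp only [EXL.opSw_apply]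
    | cu i j => simp only [EXL.opCu_apply, hc]
    | ct i j => simp only [EXL.opCt_apply, hc]
  | h2 a b ha hb =>
    intro H p
    simp only [map_mul, Module.End.mul_apply]
    rw [show (rep0 K φ b (fun p => W fun b => H b p)) = (fun p => W (fun c => rep0 K φ b (H c) p)) from
      funext fun p => hb H p]
    exact ha _ p
  | h3 a b ha hb =>
    intro H p
    simp only [map_add, LinearMap.add_apply, Pi.add_apply, ha, hb]
    rw [← map_add]
    rfl

end rel

section pr

variable {Γ α ι K : Type*} [AddCommGroup Γ] [DecidableEq ι] [CommRing K]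

/-- The functional is supported on the states that are empty outside `S`. -/
def SupS (S : Set ι) (V : Module.Dual K (EXL.Pat ι → K)) : Prop :=
  ∀ F : EXL.Pat ι → K, (∀ p, (∀ x, x ∉ S → p x = x) → F p = 0) → V F = 0

omit [DecidableEq ι] in
theorem SupS.congr {S : Set ι} {V : Module.Dual K (EXL.Pat ι → K)} (h : SupS S V)
    {F G : EXL.Pat ι → K} (hFG : ∀ p, (∀ x, x ∉ S → p x = x) → F p = G p) : V F = V G := by
  rw [← sub_eq_zero, ← map_sub]
  exact h _ fun p hp => by rw [Pi.sub_apply, hFG p hp, sub_self]

omit [DecidableEq ι] in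
theorem SupS.mono {S T : Set ι} {V : Module.Dual K (EXL.Pat ι → K)} (h : SupS S V) (hST : S ⊆ T) :
    SupS T V := fun F hF => h F fun p hp => hF p fun x hx => hp x fun hh => hx (hST hh)

variable (Γ) in
/-- The functional of the unions. -/
noncomputable def pr (V V' : Module.Dual K (EXL.Pat ι → K)) : Module.Dual K (LPat Γ ι → K) where
  toFun F := V fun p => V' fun q => F (ofP Γ (un p q))
  map_add' F G := by
    rw [← map_add]
    congr 1
    funext p
    rw [Pi.add_apply, ← map_add]
    rfl
  map_smul' c F := by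
    rw [RingHom.id_apply, ← map_smul]
    congr 1
    funext p
    rw [Pi.smul_apply, ← map_smul]
    rfl

theorem pr_apply (V V' : Module.Dual K (EXL.Pat ι → K)) (F : LPat Γ ι → K) :
    pr Γ V V' F = V fun p => V' fun q => F (ofP Γ (un p q)) := rfl

variable {V V' : Module.Dual K (EXL.Pat ι → K)} {S S' : Set ι} {ν : Γ → K} (h0 : ν 0 = 0)

theorem dj_of_sup (hd : Disjoint S S') {p q : EXL.Pat ι} (hp : ∀ x, x ∉ S → p x = x)
    (hq : ∀ x, x ∉ S' → q x = x) : Dj p q := by
  intro x
  by_cases h : x ∈ S
  · exact Or.inr (hq x (Set.disjoint_left.1 hd h))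
  · exact Or.inl (hp x h)

include h0 in
/-- Words on the sites of the first factor. -/
theorem pr_left (hV : SupS S V) (hV' : SupS S' V') (hd : Disjoint S S') {w : Wd K ι}
    (hw : On S'ᶜ w) (F : LPat Γ ι → K) :
    pr Γ (V ∘ₗ rep0 K id w) V' F = pr Γ V V' (repL ν id w F) := by
  rw [pr_apply, pr_apply, LinearMap.comp_apply]
  refine hV.congr fun p hp => ?_
  rw [rep0_dual id V' w (fun q p => F (ofP Γ (un p q))) p]
  refine hV'.congr fun q hq => ?_
  have key : RelQ q (repL ν id w F) (rep0 K id w fun p => F (ofP Γ (un p q))) :=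
    RelQ.rep h0 q (fun x hx => hq _ hx) hw fun p _ => rfl
  exact (key p (dj_of_sup hd hp hq)).symm

include h0 in
/-- Words on the sites of the second factor. -/
theorem pr_right (hV : SupS S V) (hV' : SupS S' V') (hd : Disjoint S S') {w : Wd K ι}
    (hw : On Sᶜ w) (F : LPat Γ ι → K) :
    pr Γ V (V' ∘ₗ rep0 K id w) F = pr Γ V V' (repL ν id w F) := by
  rw [pr_apply, pr_apply]
  refine hV.congr fun p hp => ?_
  rw [LinearMap.comp_apply]
  have key : RelQ p (repL ν id w F) (rep0 K id w fun q => F (ofP Γ (un p q))) :=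
    RelQ.rep h0 p (fun x hx => hp _ hx) hw fun q hq => by rw [un_comm hq]
  refine hV'.congr fun q hq => ?_
  have d := dj_of_sup hd hp hq
  rw [un_comm d]
  exact (key q d.symm).symm

/-- Exchange of the factors. -/
theorem pr_swap [Finite ι] (hV : SupS S V) (hV' : SupS S' V') (hd : Disjoint S S')
    (F : LPat Γ ι → K) : pr Γ V V' F = pr Γ V' V F := by
  classical
  cases nonempty_fintype ι
  have : Finite (EXL.Pat ι) := Finite.of_injective (fun p : EXL.Pat ι => p.f) fun p q h => by
    ext x; exact congrFun h x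
  cases nonempty_fintype (EXL.Pat ι)
  have key : ∀ (W W' : Module.Dual K (EXL.Pat ι → K)) (G : EXL.Pat ι → EXL.Pat ι → K),
      W (fun p => W' fun q => G p q) = W' (fun q => W fun p => G p q) := by
    intro W W' G
    have ex : ∀ (W : Module.Dual K (EXL.Pat ι → K)) (f : EXL.Pat ι → K),
        W f = ∑ p, f p * W (Pi.single p 1) := by
      intro W f
      conv_lhs => rw [← Finset.univ_sum_single f]
      rw [map_sum]
      refine Finset.sum_congr rfl fun p _ => ?_
      have : (Pi.single p (f p) : EXL.Pat ι → K) = f p • Pi.single p 1 := by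
        rw [← Pi.single_smul, smul_eq_mul, mul_one]
      rw [this, map_smul, smul_eq_mul]
    rw [ex W, ex W']
    simp_rw [ex W' (fun q => G _ q), ex W (fun p => G p _)]
    simp_rw [Finset.sum_mul]
    rw [Finset.sum_comm]
    refine Finset.sum_congr rfl fun p _ => Finset.sum_congr rfl fun q _ => by ring
  rw [pr_apply, pr_apply, key]
  refine hV'.congr fun q hq => ?_
  refine hV.congr fun p hp => ?_
  rw [un_comm (dj_of_sup hd hp hq)]

end pr

end Pool.Agent.NUF
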