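import Pool.Agent.NUF.PLine
import Pool.Agent.NUF.PCan
import Pool.Agent.NUF.PSym
import Pool.Agent.NUF.Mv.Near

/-!
# The function `W = Q² Z` of the rapidities and its polynomials
-/

set_option autoImplicit false

namespace Pool.Agent.NUF

open Pool.Agent.EXL (okR)
open Pool.Agent.EXL.Fm (Dn lam)
open Filter Topology Polynomial

/-! ### The radius -/

theorem NR.mono {ι : Type*} [DecidableEq ι] {r r' : ℝ} (h : NR ι r) (hr : r' ≤ r) : NR ι r' where
  good z X hn hX hd := h.good z X hn (fun i hi => Metric.ball_subset_ball hr (hX i hi)) hd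
  good' z X hn hX hd c d hc hd' hcd :=
    h.good' z X hn (fun i hi => Metric.ball_subset_ball hr (hX i hi)) hd c d hc hd' hcd
  reg z X hn hX := h.reg z X hn (fun i hi => Metric.ball_subset_ball hr (hX i hi))
  ok u hu v hv := h.ok u (Metric.ball_subset_ball hr hu) v (Metric.ball_subset_ball hr hv)
  od u hu v hv := h.od u (Metric.ball_subset_ball hr hu) v (Metric.ball_subset_ball hr hv)

theorem exists_rad (n : ℕ) : ∃ r : ℝ, 0 < r ∧ r < Fr.rG ∧ ∀ k ≤ n, NR (St k) r := by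
  have h2 : ∀ᶠ r in 𝓝[>] (0 : ℝ), r < Fr.rG :=
    eventually_nhdsWithin_of_eventually_nhds (eventually_lt_nhds Fr.rG_pos)
  have h3 : ∀ᶠ r in 𝓝[>] (0 : ℝ), 0 < r := eventually_mem_nhdsWithin
  have h4 : ∀ᶠ r in 𝓝[>] (0 : ℝ), ∀ k ∈ Finset.range (n + 1), NR (St k) r := by
    rw [Filter.eventually_all_finset]
    exact fun k _ => near_NR (St k)
  obtain ⟨r, hr⟩ := (h2.and (h3.and h4)).exists
  exact ⟨r, hr.2.1, hr.1, fun k hk => hr.2.2 k (Finset.mem_range.2 (Nat.lt_succ_of_le hk))⟩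

/-- The radius for `n` lines. -/
noncomputable def rad : ℕ → ℝ
  | 0 => (exists_rad 2).choose
  | n + 1 => min (rad n) (exists_rad (n + 3)).choose

theorem rad_anti (n : ℕ) : rad (n + 1) ≤ rad n := min_le_left _ _

theorem rad_le (n : ℕ) : rad n ≤ (exists_rad (n + 2)).choose := by
  cases n with
  | zero => exact le_refl _
  | succ n => exact min_le_right _ _

theorem rad_pos (n : ℕ) : 0 < rad n := by
  induction n with
  | zero => exact (exists_rad 2).choose_spec.1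
  | succ n ih => exact lt_min ih (exists_rad (n + 3)).choose_spec.1

theorem rad_lt (n : ℕ) : rad n < Fr.rG := (rad_le n).trans_lt (exists_rad (n + 2)).choose_spec.2.1

theorem rad_NR {n k : ℕ} (hk : k ≤ n + 2) : NR (St k) (rad n) :=
  ((exists_rad (n + 2)).choose_spec.2.2 k hk).mono (rad_le n)

/-- The neighbourhoods. -/
def UU (n : ℕ) : Set ℂ := Metric.ball z0 (rad n)

theorem UU_anti (n : ℕ) : UU (n + 1) ⊆ UU n := Metric.ball_subset_ball (rad_anti n)

theorem UU_inf (n : ℕ) : (UU n).Infinite := infinite_of_mem_nhds z0 (Metric.ball_mem_nhds z0 (rad_pos n))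

theorem cc_inj (n : ℕ) : Set.InjOn NUMv.cc (UU n) := by
  intro a ha b hb h
  have m : ∀ x ∈ UU n, hh - x ∈ Fr.nb1 := fun x hx => by
    have hx' : dist x z0 < rad n := hx
    show dist (hh - x) lam < Fr.rG
    rw [dist_eq_norm] at hx' ⊢
    rw [show hh - x - lam = -(x - z0) by unfold hh lam z0; ring, norm_neg]
    exact hx'.trans (rad_lt n)
  have e := Fr.cf_inj (m a ha) (m b hb) ((cf_m a).trans (h.trans (cf_m b).symm))
  exact sub_right_injective e

/-! ### Contexts with four spare sites -/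

/-- Distinct rapidities near the honeycomb point; four spare sites. -/
structure Cs {ι : Type*} (r : ℝ) (z : ι → ℂ) (L : List (ι × ι)) (s : Fin 4 → ι) : Prop where
  cx : Cx r z L (s 0) (s 1)
  inj : Function.Injective s
  ns : ∀ k, ∀ t ∈ L, s k ≠ t.1 ∧ s k ≠ t.2

/-- The rapidities of the lines. -/
def rp {ι : Type*} (z : ι → ℂ) (L : List (ι × ι)) : List ℂ := L.map fun t => z t.1

section Cs

variable {ι : Type*} {z : ι → ℂ} {L L1 L2 : List (ι × ι)} {s : Fin 4 → ι} {r : ℝ} {t u : ι × ι}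
  {n' : ℂ} {A B : List ℂ}

theorem rp_append : rp z (L1 ++ L2) = rp z L1 ++ rp z L2 := List.map_append

theorem cv_eq : cv z L = (rp z L).map NUMv.cc := by
  unfold cv rp
  rw [List.map_map]
  rfl

theorem rp_len : (rp z L).length = L.length := List.length_map _

theorem Cs.sub (h : Cs r z L s) (hs : L1.Sublist L) : Cs r z L1 s :=
  ⟨h.cx.sub hs, h.inj, fun k t ht => h.ns k t (hs.subset ht)⟩

theorem Cs.perm (h : Cs r z L s) (hp : L.Perm L1) : Cs r z L1 s :=
  ⟨h.cx.perm hp, h.inj, fun k t ht => h.ns k t (hp.mem_iff.2 ht)⟩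

theorem Cs.tail (h : Cs r z (t :: L) s) : Cs r z L s := h.sub (List.sublist_cons_self t L)

/-- The value of a line is changed. -/
def up2 [DecidableEq ι] (z : ι → ℂ) (t : ι × ι) (q : ℂ) : ι → ℂ :=
  Function.update (Function.update z t.1 q) t.2 q

variable [DecidableEq ι]

theorem up2_1 (ht : t.1 ≠ t.2) (q : ℂ) : up2 z t q t.1 = q := by
  unfold up2
  rw [Function.update_of_ne ht, Function.update_self]

theorem up2_2 (q : ℂ) : up2 z t q t.2 = q := Function.update_self _ _ _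

theorem up2_ne {i : ι} (h1 : i ≠ t.1) (h2 : i ≠ t.2) (q : ℂ) : up2 z t q i = z i := by
  unfold up2
  rw [Function.update_of_ne h2, Function.update_of_ne h1]

theorem Gd.up (h : Gd (t :: L)) (z : ι → ℂ) (q : ℂ) :
    up2 z t q t.1 = q ∧ up2 z t q t.2 = q ∧ ∀ u ∈ L, up2 z t q u.1 = z u.1 ∧ up2 z t q u.2 = z u.2 := by
  have h1 := Gd_cons.1 h
  refine ⟨up2_1 h1.1 q, up2_2 q, fun u hu => ?_⟩
  have h2 := h1.2.1 u hu
  exact ⟨up2_ne h2.1.symm h2.2.2.1.symm q, up2_ne h2.2.1.symm h2.2.2.2.symm q⟩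

/-- One more line. -/
theorem Cx.cons {b c : ι} (h : Cx r z L b c) (hG : Gd (t :: L)) (hb : b ≠ t.1 ∧ b ≠ t.2)
    (hc : c ≠ t.1 ∧ c ≠ t.2) {q : ℂ} (hq : q ∈ Metric.ball z0 r) (hd : q ∉ rp z L) :
    Cx r (up2 z t q) (t :: L) b c := by
  obtain ⟨e1, e2, e3⟩ := hG.up z q
  have er : (L.map fun u => up2 z t q u.1) = rp z L := List.map_congr_left fun u hu => (e3 u hu).1
  refine ⟨hG, ?_, ?_, ?_, h.bc, ?_, ?_⟩
  · intro u hu
    rcases List.mem_cons.1 hu with rfl | hu'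
    · rw [e1]
      exact hq
    · rw [(e3 u hu').1]
      exact h.near u hu'
  · intro u hu
    rcases List.mem_cons.1 hu with rfl | hu'
    · rw [e1, e2]
    · rw [(e3 u hu').1, (e3 u hu').2]
      exact h.same u hu'
  · rw [List.map_cons, er, e1, List.nodup_cons]
    exact ⟨hd, h.dist⟩
  · intro u hu
    rcases List.mem_cons.1 hu with rfl | hu'
    · exact hb
    · exact h.nb u hu'
  · intro u hu
    rcases List.mem_cons.1 hu with rfl | hu'
    · exact hc
    · exact h.nc u hu'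

theorem Cs.cons (h : Cs r z L s) (hG : Gd (t :: L)) (ht : ∀ k, s k ≠ t.1 ∧ s k ≠ t.2) {q : ℂ}
    (hq : q ∈ Metric.ball z0 r) (hd : q ∉ rp z L) : Cs r (up2 z t q) (t :: L) s := by
  refine ⟨h.cx.cons hG (ht 0) (ht 1) hq hd, h.inj, fun k u hu => ?_⟩
  rcases List.mem_cons.1 hu with rfl | hu'
  · exact ht k
  · exact h.ns k u hu'

theorem rp_up (hG : Gd (t :: L)) (z : ι → ℂ) (q : ℂ) : rp (up2 z t q) L = rp z L :=
  List.map_congr_left fun u hu => ((hG.up z q).2.2 u hu).1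

theorem rp_up' (hG : Gd (t :: L)) (z : ι → ℂ) (q : ℂ) : rp (up2 z t q) (t :: L) = q :: rp z L := by
  unfold rp
  rw [List.map_cons, (hG.up z q).1]
  congr 1
  exact rp_up hG z q

end Cs

/-- **The function `W = Q² Z`.** -/
noncomputable def WW (n' : ℂ) (A B : List ℂ) : ℂ := Fr.qc ((A ++ B).map NUMv.cc) ^ 2 * Zc n' A B

section W

variable {ι : Type*} [DecidableEq ι] [Finite ι] {z : ι → ℂ} {L L1 L2 : List (ι × ι)} {s : Fin 4 → ι}
  {r : ℝ} {t u : ι × ι} {n' : ℂ} {A B : List ℂ}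

theorem W_eq (h : Cs r z (L1 ++ L2) s) (hr : NR ι r) :
    WW n' (rp z L1) (rp z L2) = Fr.qc (cv z (L1 ++ L2)) ^ 2 * ZV n' z L1 L2 := by
  unfold WW
  rw [cv_eq, rp_append, ZV_eq_Zc h.cx.gd h.cx.same h.inj h.ns (h.cx.regR hr) (h.cx.regL hr)]
  rfl

/-- The property of the polynomial. -/
def PPr (n' : ℂ) (A B : List ℂ) (P : ℂ[X]) : Prop :=
  ∀ ζ ∈ UU ((A ++ B).length + 1), ζ ∉ A ++ B → P.eval (NUMv.cc ζ) = WW n' (ζ :: A) B

omit [DecidableEq ι] [Finite ι] in
theorem PPr.unique {P Q : ℂ[X]} (hP : PPr n' A B P) (hQ : PPr n' A B Q) : P = Q := by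
  refine Polynomial.eq_of_infinite_eval_eq _ _ ?_
  have h1 : (UU ((A ++ B).length + 1) \ {x | x ∈ A ++ B}).Infinite :=
    (UU_inf _).sdiff (List.finite_toSet _)
  have h2 := h1.image ((cc_inj _).mono Set.sdiff_subset)
  refine h2.mono ?_
  rintro _ ⟨ζ, hζ, rfl⟩
  show P.eval _ = Q.eval _
  rw [hP ζ hζ.1 hζ.2, hQ ζ hζ.1 hζ.2]

open scoped Classical in
/-- **The polynomial of one more line.** -/
noncomputable def PP (n' : ℂ) (A B : List ℂ) : ℂ[X] :=
  if h : ∃ P, PPr n' A B P then h.choose else 0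

theorem PV_upd {t : ι × ι} (hG : Gd (t :: (L1 ++ L2))) (q ζ : ℂ) :
    PV n' (up2 z t q) t L1 L2 ζ = PV n' z t L1 L2 ζ := by
  obtain ⟨_, _, e3⟩ := hG.up z q
  unfold PV
  congr 1
  · refine far_congr fun i hi => ?_
    obtain ⟨u, hu, rfl⟩ := List.mem_map.1 hi
    exact (e3 u hu).1
  · refine far_congr fun i hi => ?_
    obtain ⟨u, hu, rfl⟩ := List.mem_map.1 hi
    show -up2 z t q u.2 = -z u.2
    rw [(e3 u hu).2]

theorem PP_spec (h : Cs r z (L1 ++ L2) s) (hG : Gd (t :: (L1 ++ L2)))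
    (ht : ∀ k, s k ≠ t.1 ∧ s k ≠ t.2) (hr : NR ι r) (hn : rad ((L1 ++ L2).length + 1) ≤ r) :
    PPr n' (rp z L1) (rp z L2) (PP n' (rp z L1) (rp z L2)) ∧
      (PP n' (rp z L1) (rp z L2)).natDegree ≤ 2 * (L1 ++ L2).length ∧
      (PP n' (rp z L1) (rp z L2)).coeff (2 * (L1 ++ L2).length) = WW n' (rp z L1) (rp z L2) ∧
      ∀ ζ, (PP n' (rp z L1) (rp z L2)).eval (NUMv.cc ζ) = PV n' z t L1 L2 ζ := by
  have hf : Cf r z t (L1 ++ L2) (s 0) (s 1) := ⟨h.cx, hG, ht 0, ht 1⟩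
  obtain ⟨P, h1, h2, h3⟩ := PV_poly (n' := n') hf hr
  have hP : PPr n' (rp z L1) (rp z L2) P := by
    intro ζ hζ hd
    rw [← rp_append, rp_len] at hζ
    rw [← rp_append] at hd
    have hc := h.cons hG ht (Metric.ball_subset_ball hn hζ) hd
    have e1 := PV_near (n' := n') (L1 := L1) (L2 := L2) hc.cx hr
    rw [(hG.up z ζ).1, PV_upd hG, ← h3 ζ] at e1
    have e2 := W_eq (n' := n') (L1 := t :: L1) (L2 := L2) hc hr
    have e3 : rp (up2 z t ζ) (t :: L1) = ζ :: rp z L1 := by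
      unfold rp
      rw [List.map_cons, (hG.up z ζ).1]
      congr 1
      exact List.map_congr_left fun u hu => ((hG.up z ζ).2.2 u (List.mem_append_left _ hu)).1
    have e4 : rp (up2 z t ζ) L2 = rp z L2 :=
      List.map_congr_left fun u hu => ((hG.up z ζ).2.2 u (List.mem_append_right _ hu)).1
    rw [e3, e4] at e2
    rw [e1, e2]
    rfl
  have hex : ∃ P, PPr n' (rp z L1) (rp z L2) P := ⟨P, hP⟩
  have hPP : PPr n' (rp z L1) (rp z L2) (PP n' (rp z L1) (rp z L2)) := by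
    unfold PP
    rw [dif_pos hex]
    exact hex.choose_spec
  have e := hPP.unique hP
  refine ⟨hPP, ?_, ?_, ?_⟩
  · rw [e]
    exact h1
  · rw [e, h2, W_eq h hr]
  · intro ζ
    rw [e, h3]

end W

end Pool.Agent.NUF
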