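import Pool.Agent.NUF.Frame

/-!
# NUF/RecA (helper15): the recursion (R0) - (R4) of the zero leg vectors
-/

set_option autoImplicit false

namespace Pool.Agent.NUF.Fr

open Complex Finset EXL.Fm

/-! ### Trigonometry -/

theorem sin_8lam_add (x : ℂ) : sin (8 * lam + x) = - sin x := by
  rw [lam, show (8 * ((Real.pi : ℂ) / 8) + x) = x + Real.pi by ring, Complex.sin_add_pi]

theorem cos_8lam_add (x : ℂ) : cos (8 * lam + x) = - cos x := by
  rw [lam, show (8 * ((Real.pi : ℂ) / 8) + x) = x + Real.pi by ring, Complex.cos_add_pi]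

/-- `2 sin x sin y = cos (x - y) - cos (x + y)`. -/
theorem two_sin_sin (x y : ℂ) : 2 * (sin x * sin y) = cos (x - y) - cos (x + y) := by
  rw [Complex.cos_sub, Complex.cos_add]
  ring

theorem cos_eq_neg (x y : ℂ) (h : x + y = 8 * lam) : cos x = - cos y := by
  rw [show x = 8 * lam + (-y) by rw [← h]; ring, cos_8lam_add, Complex.cos_neg]

/-- `sin 2l sin (3l - x) + sin 3l sin x = sin 3l sin (2l + x)` -/
theorem trig1 (x : ℂ) : s2 * fa' x + s3 * fa x = s3 * fb x := by
  unfold s2 s3 fa fa' fb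
  have h1 := two_sin_sin (2 * lam) (3 * lam - x)
  have h2 := two_sin_sin (3 * lam) x
  have h3 := two_sin_sin (3 * lam) (2 * lam + x)
  have e1 : cos (2 * lam - (3 * lam - x)) = cos (3 * lam - (2 * lam + x)) := by
    rw [← Complex.cos_neg]; congr 1; ring
  have e2 : cos (2 * lam + (3 * lam - x)) = - cos (3 * lam + x) := cos_eq_neg _ _ (by ring)
  have e3 : cos (3 * lam + (2 * lam + x)) = - cos (3 * lam - x) := cos_eq_neg _ _ (by ring)
  linear_combination (1 / 2) * h1 + (1 / 2) * h2 - (1 / 2) * h3 + (1 / 2) * e1 - (1 / 2) * e2 + (1 / 2) * e3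

/-- `sin 2l sin x + sin 3l sin (3l - x) = sin 3l sin (3l + x)` -/
theorem trig2 (x : ℂ) : s2 * fa x + s3 * fa' x = s3 * fe x := by
  unfold s2 s3 fa fa' fe
  have h1 := two_sin_sin (2 * lam) x
  have h2 := two_sin_sin (3 * lam) (3 * lam - x)
  have h3 := two_sin_sin (3 * lam) (3 * lam + x)
  have e1 : cos (3 * lam - (3 * lam - x)) = cos (3 * lam - (3 * lam + x)) := by
    rw [← Complex.cos_neg]; congr 1; ring
  have e2 : cos (2 * lam + x) = - cos (3 * lam + (3 * lam - x)) := cos_eq_neg _ _ (by ring)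
  have e3 : cos (3 * lam + (3 * lam + x)) = - cos (2 * lam - x) := cos_eq_neg _ _ (by ring)
  linear_combination (1 / 2) * h1 + (1 / 2) * h2 - (1 / 2) * h3 + (1 / 2) * e1 - (1 / 2) * e2 + (1 / 2) * e3

/-- `D(x) = sin 2l sin 3l + sin x sin (3l - x)` -/
theorem Dn_pos (x : ℂ) : Dn x = s2 * s3 + fa x * fa' x := by
  unfold Dn s2 s3 fa fa'
  have h1 := two_sin_sin (2 * lam + x) (3 * lam + x)
  have h2 := two_sin_sin (2 * lam) (3 * lam)
  have h3 := two_sin_sin x (3 * lam - x)
  have e1 : cos (2 * lam + x - (3 * lam + x)) = cos (2 * lam - 3 * lam) := by congr 1; ring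
  have e2 : cos (2 * lam + x + (3 * lam + x)) = - cos (x - (3 * lam - x)) := by
    rw [← Complex.cos_neg (x - (3 * lam - x))]
    exact cos_eq_neg _ _ (by ring)
  have e3 : cos (2 * lam + 3 * lam) = - cos (x + (3 * lam - x)) := cos_eq_neg _ _ (by ring)
  linear_combination (1 / 2) * h1 - (1 / 2) * h2 - (1 / 2) * h3 + (1 / 2) * e1 - (1 / 2) * e2 + (1 / 2) * e3

/-- `D(-x) = sin 2l sin 3l - sin x sin (3l + x)` -/
theorem Dn_neg (x : ℂ) : Dn (-x) = s2 * s3 - fa x * fe x := by
  rw [Dn_pos]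
  unfold fa fa' fe
  rw [Complex.sin_neg]
  rw [show 3 * lam - -x = 3 * lam + x by ring]
  ring

/-- `2 (sin 2l)^2 = 1` -/
theorem s2_sq : 2 * s2 ^ 2 = 1 := by
  unfold s2
  have h1 := two_sin_sin (2 * lam) (2 * lam)
  have e1 : cos (2 * lam - 2 * lam) = 1 := by rw [sub_self, Complex.cos_zero]
  have e2 : cos (2 * lam + 2 * lam) = 0 := by
    have := cos_eq_neg (2 * lam + 2 * lam) (2 * lam + 2 * lam) (by ring)
    linear_combination (1 / 2) * this
  linear_combination h1 + e1 - e2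

/-- `sin (3l - x) sin (3l + x) = (sin 3l)^2 - (sin x)^2` -/
theorem trig3 (x : ℂ) : fa' x * fe x = s3 ^ 2 - fa x ^ 2 := by
  unfold fa' fe s3 fa
  rw [Complex.sin_sub, Complex.sin_add]
  have h1 := Complex.sin_sq_add_cos_sq (3 * lam)
  have h2 := Complex.sin_sq_add_cos_sq x
  linear_combination (sin (3 * lam)) ^ 2 * h2 - (sin x) ^ 2 * h1

/-- exchange identity: `sin 2l sin (3l - x) - sin d sin (3l + y) - sin (2l - d) sin (3l - y) = 0`, `y = x + d` -/
theorem trig4 (x d : ℂ) : s2 * fa' x - sin d * fe (x + d) - sin (2 * lam - d) * fa' (x + d) = 0 := by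
  unfold s2 fa' fe
  have h1 := two_sin_sin (2 * lam) (3 * lam - x)
  have h2 := two_sin_sin d (3 * lam + (x + d))
  have h3 := two_sin_sin (2 * lam - d) (3 * lam - (x + d))
  have e1 : cos (2 * lam + (3 * lam - x)) = - cos (3 * lam + x) := cos_eq_neg _ _ (by ring)
  have e2 : cos (d - (3 * lam + (x + d))) = cos (3 * lam + x) := by
    rw [← Complex.cos_neg]; congr 1; ring
  have e3 : cos (2 * lam - (3 * lam - x)) = cos (2 * lam - d - (3 * lam - (x + d))) := by congr 1; ring
  have e4 : cos (2 * lam - d + (3 * lam - (x + d))) = - cos (d + (3 * lam + (x + d))) :=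
    cos_eq_neg _ _ (by ring)
  linear_combination (1 / 2) * h1 - (1 / 2) * h2 - (1 / 2) * h3 - (1 / 2) * e1 - (1 / 2) * e2 + (1 / 2) * e3 + (1 / 2) * e4

/-- exchange identity: `sin d sin (3l - x) - sin 2l sin (3l + y) + sin (2l - d) sin (3l + x) = 0`, `y = x + d` -/
theorem trig5 (x d : ℂ) : sin d * fa' x - s2 * fe (x + d) + sin (2 * lam - d) * fe x = 0 := by
  unfold s2 fa' fe
  have h1 := two_sin_sin d (3 * lam - x)
  have h2 := two_sin_sin (2 * lam) (3 * lam + (x + d))
  have h3 := two_sin_sin (2 * lam - d) (3 * lam + x)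
  have e1 : cos (2 * lam + (3 * lam + (x + d))) = - cos (d - (3 * lam - x)) := by
    rw [← cos_8lam_add]; congr 1; ring
  have e2 : cos (2 * lam - (3 * lam + (x + d))) = cos (2 * lam - d - (3 * lam + x)) := by
    congr 1; ring
  have e3 : cos (2 * lam - d + (3 * lam + x)) = - cos (d + (3 * lam - x)) := cos_eq_neg _ _ (by ring)
  linear_combination (1 / 2) * h1 - (1 / 2) * h2 + (1 / 2) * h3 + (1 / 2) * e1 - (1 / 2) * e2 - (1 / 2) * e3

/-! ### The weights of the recursion -/

section wts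

/-- the pair factor -/
noncomputable def pr (x y : ℂ) : ℂ := 2 * Dn (x - y) * sin (y + x + 2 * lam) / sin (x - y)

theorem Dn_ne {x : ℂ} (h : Dn x ≠ 0) : fb x ≠ 0 ∧ fe x ≠ 0 := by
  rw [Dn_eq] at h
  exact ⟨left_ne_zero_of_mul h, right_ne_zero_of_mul h⟩

theorem Dn_neg' (x : ℂ) : Dn (-x) = sin (2 * lam - x) * sin (3 * lam - x) := by
  unfold Dn
  rw [show 2 * lam + -x = 2 * lam - x by ring, show 3 * lam + -x = 3 * lam - x by ring]

theorem pr_swap1 {x y : ℂ} (hs : sin (x - y) ≠ 0) (hD : Dn (x - y) ≠ 0) :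
    pr x y * rw1 (x - y) + pr y x = 0 := by
  have hs' : sin (y - x) = - sin (x - y) := by rw [← Complex.sin_neg]; congr 1; ring
  unfold pr rw1
  rw [hs', show y - x = -(x - y) by ring, show x + y + 2 * lam = y + x + 2 * lam by ring]
  field_simp
  ring

theorem pr_swap2 {x y : ℂ} (hs : sin (x - y) ≠ 0) (hD : Dn (x - y) ≠ 0) :
    pr x y * (fa' y * ru1 (x - y) - fe x * rv (x - y)) + pr y x * fa' x = 0 := by
  have hs' : sin (y - x) = - sin (x - y) := by rw [← Complex.sin_neg]; congr 1; ring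
  have h4 := trig4 y (x - y)
  rw [show y + (x - y) = x by ring] at h4
  have hDD : Dn (y - x) = sin (2 * lam - (x - y)) * fa' (x - y) := by
    rw [show y - x = -(x - y) by ring, Dn_neg']
    rfl
  unfold pr ru1 rv
  rw [hs', hDD, show x + y + 2 * lam = y + x + 2 * lam by ring]
  have hfa : fa (x - y) = sin (x - y) := rfl
  rw [hfa]
  field_simp
  linear_combination (2 * sin (y + x + 2 * lam) * fa' (x - y)) * h4

theorem pr_swap3 {x y : ℂ} (hs : sin (x - y) ≠ 0) (hD : Dn (x - y) ≠ 0) :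
    pr x y * (fa' y * rv (x - y) - fe x * ru1 (x - y)) - pr y x * fe y = 0 := by
  have hs' : sin (y - x) = - sin (x - y) := by rw [← Complex.sin_neg]; congr 1; ring
  have h5 := trig5 y (x - y)
  rw [show y + (x - y) = x by ring] at h5
  have hDD : Dn (y - x) = sin (2 * lam - (x - y)) * fa' (x - y) := by
    rw [show y - x = -(x - y) by ring, Dn_neg']
    rfl
  unfold pr ru1 rv
  rw [hs', hDD, show x + y + 2 * lam = y + x + 2 * lam by ring]
  have hfa : fa (x - y) = sin (x - y) := rfl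
  rw [hfa]
  field_simp
  linear_combination (2 * sin (y + x + 2 * lam) * fa' (x - y)) * h5

variable {ι : Type*} [DecidableEq ι] (z : ι → ℂ)

/-- the weight of the line `i` over the lines `Y` -/
noncomputable def wt (i : ι) (Y : Finset ι) : ℂ := 4 * c3 * fa' (z i) * ∏ k ∈ Y, pr (z k) (z i)

theorem wt_insert {i j : ι} {Y : Finset ι} (h : j ∉ Y) :
    wt z i (insert j Y) = pr (z j) (z i) * wt z i Y := by
  unfold wt
  rw [Finset.prod_insert h]
  ring

/-- the product of `b / a` -/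
noncomputable def Pe (X : Finset ι) : ℂ := ∏ k ∈ X, fb (z k) / fa (z k)

theorem Pe_insert {j : ι} {Y : Finset ι} (h : j ∉ Y) :
    Pe z (insert j Y) = fb (z j) / fa (z j) * Pe z Y := by
  unfold Pe
  rw [Finset.prod_insert h]

theorem Pe_empty : Pe z ∅ = 1 := by simp [Pe]

variable {z}

theorem Pe_ne (hz : Reg z) (X : Finset ι) : Pe z X ≠ 0 := by
  unfold Pe
  rw [Finset.prod_ne_zero_iff]
  intro k _
  exact div_ne_zero (Dn_ne (hz.D k)).1 (hz.a k)

variable (z)

/-- the eigenvalue -/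
noncomputable def sg (X : Finset ι) : ℂ := 2 * (Pe z X - 1)

theorem sg_empty : sg z ∅ = 0 := by simp [sg, Pe_empty]

end wts

/-- antisymmetric double sums vanish -/
theorem dsum {ι : Type*} [DecidableEq ι] {V : Type*} [AddCommGroup V] [Module ℂ V] (X : Finset ι)
    (G : ι → ι → V) (h : ∀ i ∈ X, ∀ j ∈ X, i ≠ j → G i j + G j i = 0) :
    ∑ i ∈ X, ∑ j ∈ X.erase i, G i j = 0 := by
  have h1 : ∑ i ∈ X, ∑ j ∈ X.erase i, G i j = ∑ j ∈ X, ∑ i ∈ X.erase j, G i j := by
    apply Finset.sum_comm'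
    intro x y
    simp only [Finset.mem_erase]
    tauto
  have h2 : ∑ i ∈ X, ∑ j ∈ X.erase i, G i j + ∑ i ∈ X, ∑ j ∈ X.erase i, G i j = 0 := by
    nth_rewrite 2 [h1]
    rw [← Finset.sum_add_distrib]
    apply Finset.sum_eq_zero
    intro i hi
    rw [← Finset.sum_add_distrib]
    apply Finset.sum_eq_zero
    intro j hj
    rw [Finset.mem_erase] at hj
    exact h i hi j hj.2 (Ne.symm hj.1)
  have h3 : (2 : ℂ) • ∑ i ∈ X, ∑ j ∈ X.erase i, G i j = 0 := by rw [two_smul]; exact h2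
  exact (smul_eq_zero.mp h3).resolve_left two_ne_zero

/-! ### The recursion -/

section main

variable {ι : Type*} [DecidableEq ι] {V : Type*} [AddCommGroup V] [Module ℂ V] {z : ι → ℂ}

/-- A family of vectors with the recursion. -/
structure Rec (A : Frame ι V z) (Ph : Finset ι → V) : Prop where
  m0 : Ph ∅ ∈ A.V0 ∅
  t0 : A.T0 ∅ (Ph ∅) = Ph ∅
  t1 : A.T1 ∅ (Ph ∅) = 0
  R0 : ∀ X, sg z X • Ph X = ∑ i ∈ X, (wt z i (X.erase i) / fa (z i)) • A.E i (X.erase i) (Ph (X.erase i))
  sg0 : ∀ X : Finset ι, X.Nonempty → sg z X ≠ 0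

/-- the one leg vector -/
def fv (A : Frame ι V z) (Ph : Finset ι → V) (X : Finset ι) : V := A.T1 X (Ph X)

/-- The four statements. -/
structure Four (A : Frame ι V z) (Ph : Finset ι → V) (X : Finset ι) : Prop where
  m : Ph X ∈ A.V0 X
  T : A.T0 X (Ph X) = Ph X
  R1 : ∑ i ∈ X, (wt z i (X.erase i) / Dn (z i)) • A.B i (X.erase i) (fv A Ph (X.erase i)) = 0
  R3 : ∑ i ∈ X, (wt z i (X.erase i) / Dn (z i)) •
    (fa' (z i) • A.E i (X.erase i) (fv A Ph (X.erase i)) -
      (s3 * (1 - (Pe z (X.erase i))⁻¹)) • A.F i (X.erase i) (Ph (X.erase i))) = 0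
  R4 : fv A Ph X = (s3 / 2) • ∑ i ∈ X, (wt z i (X.erase i) / (Dn (z i) * Pe z (X.erase i))) •
    A.F i (X.erase i) (Ph (X.erase i))

variable {A : Frame ι V z} {Ph : Finset ι → V}

theorem R1_step (hz : Reg z) (X : Finset ι) (ih : ∀ i ∈ X, Four A Ph (X.erase i))
    (ih2 : ∀ i ∈ X, ∀ j ∈ X.erase i, Ph ((X.erase i).erase j) ∈ A.V0 ((X.erase i).erase j)) :
    ∑ i ∈ X, (wt z i (X.erase i) / Dn (z i)) • A.B i (X.erase i) (fv A Ph (X.erase i)) = 0 := by
  have e1 : ∀ i ∈ X, (wt z i (X.erase i) / Dn (z i)) • A.B i (X.erase i) (fv A Ph (X.erase i)) =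
      ∑ j ∈ X.erase i, ((wt z i (X.erase i) / Dn (z i)) * (s3 / 2) *
        (wt z j ((X.erase i).erase j) / (Dn (z j) * Pe z ((X.erase i).erase j)))) •
        A.B i (X.erase i) (A.F j ((X.erase i).erase j) (Ph ((X.erase i).erase j))) := by
    intro i hi
    rw [(ih i hi).R4, map_smul, map_sum, Finset.smul_sum, Finset.smul_sum]
    apply Finset.sum_congr rfl
    intro j _
    rw [map_smul, smul_smul, smul_smul, mul_assoc]
  rw [Finset.sum_congr rfl e1]
  apply dsum
  intro i hi j hj hij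
  have hji : j ∈ X.erase i := Finset.mem_erase.mpr ⟨Ne.symm hij, hj⟩
  have hij' : i ∈ X.erase j := Finset.mem_erase.mpr ⟨hij, hi⟩
  set Y := (X.erase i).erase j with hY
  have hY2 : (X.erase j).erase i = Y := Finset.erase_right_comm
  have hiY : i ∉ Y := by rw [hY]; simp
  have hjY : j ∉ Y := by rw [hY]; simp
  have hXi : X.erase i = insert j Y := (Finset.insert_erase hji).symm
  have hXj : X.erase j = insert i Y := by rw [← hY2, Finset.insert_erase hij']
  rw [hY2, hXi, hXj, wt_insert z hjY, wt_insert z hiY]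
  have hD := hz.d j i (Ne.symm hij)
  have hs := hz.s j i (Ne.symm hij)
  rw [A.x3 hiY hjY hij (ih2 i hi j hji) hD]
  have hk := pr_swap1 hs hD
  match_scalars
  linear_combination (wt z i Y / Dn (z i) * (s3 / 2) * (wt z j Y / (Dn (z j) * Pe z Y))) * hk


theorem R3_step (hz : Reg z) (X : Finset ι) (ih : ∀ i ∈ X, Four A Ph (X.erase i))
    (hr : ∀ i ∈ X, sg z (X.erase i) • Ph (X.erase i) = ∑ j ∈ X.erase i,
      (wt z j ((X.erase i).erase j) / fa (z j)) • A.E j ((X.erase i).erase j) (Ph ((X.erase i).erase j)))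
    (ih2 : ∀ i ∈ X, ∀ j ∈ X.erase i, Ph ((X.erase i).erase j) ∈ A.V0 ((X.erase i).erase j)) :
    ∑ i ∈ X, (wt z i (X.erase i) / Dn (z i)) •
      (fa' (z i) • A.E i (X.erase i) (fv A Ph (X.erase i)) -
        (s3 * (1 - (Pe z (X.erase i))⁻¹)) • A.F i (X.erase i) (Ph (X.erase i))) = 0 := by
  have e1 : ∀ i ∈ X, (wt z i (X.erase i) / Dn (z i)) •
      (fa' (z i) • A.E i (X.erase i) (fv A Ph (X.erase i)) -
        (s3 * (1 - (Pe z (X.erase i))⁻¹)) • A.F i (X.erase i) (Ph (X.erase i))) =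
      ∑ j ∈ X.erase i, (wt z i (X.erase i) / Dn (z i)) •
        ((fa' (z i) * (s3 / 2) *
          (wt z j ((X.erase i).erase j) / (Dn (z j) * Pe z ((X.erase i).erase j)))) •
          A.E i (X.erase i) (A.F j ((X.erase i).erase j) (Ph ((X.erase i).erase j))) -
        (s3 / 2 * (Pe z (X.erase i))⁻¹ * (wt z j ((X.erase i).erase j) / fa (z j))) •
          A.F i (X.erase i) (A.E j ((X.erase i).erase j) (Ph ((X.erase i).erase j)))) := by
    intro i hi
    have h1 : (s3 * (1 - (Pe z (X.erase i))⁻¹)) • A.F i (X.erase i) (Ph (X.erase i)) =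
        ∑ j ∈ X.erase i, (s3 / 2 * (Pe z (X.erase i))⁻¹ *
          (wt z j ((X.erase i).erase j) / fa (z j))) •
          A.F i (X.erase i) (A.E j ((X.erase i).erase j) (Ph ((X.erase i).erase j))) := by
      have h2 : s3 * (1 - (Pe z (X.erase i))⁻¹) = s3 / 2 * (Pe z (X.erase i))⁻¹ * sg z (X.erase i) := by
        unfold sg
        have := Pe_ne hz (X.erase i)
        field_simp
      rw [h2, mul_smul, ← map_smul, hr i hi, map_sum, Finset.smul_sum]
      apply Finset.sum_congr rfl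
      intro j _
      rw [map_smul, smul_smul]
    rw [h1, (ih i hi).R4, map_smul, map_sum, Finset.smul_sum, Finset.smul_sum,
      ← Finset.sum_sub_distrib, Finset.smul_sum]
    apply Finset.sum_congr rfl
    intro j _
    rw [map_smul, smul_smul, smul_smul, mul_assoc]
  rw [Finset.sum_congr rfl e1]
  apply dsum
  intro i hi j hj hij
  have hji : j ∈ X.erase i := Finset.mem_erase.mpr ⟨Ne.symm hij, hj⟩
  have hij' : i ∈ X.erase j := Finset.mem_erase.mpr ⟨hij, hi⟩
  set Y := (X.erase i).erase j with hY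
  have hY2 : (X.erase j).erase i = Y := Finset.erase_right_comm
  have hiY : i ∉ Y := by rw [hY]; simp
  have hjY : j ∉ Y := by rw [hY]; simp
  have hXi : X.erase i = insert j Y := (Finset.insert_erase hji).symm
  have hXj : X.erase j = insert i Y := by rw [← hY2, Finset.insert_erase hij']
  rw [hY2, hXi, hXj, wt_insert z hjY, wt_insert z hiY, Pe_insert z hjY, Pe_insert z hiY]
  have hD := hz.d j i (Ne.symm hij)
  have hs := hz.s j i (Ne.symm hij)
  have hv := ih2 i hi j hji
  rw [A.x1 hiY hjY hij hv hD, A.x2 hiY hjY hij hv hD]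
  have hk2 := pr_swap2 hs hD
  have hk3 := pr_swap3 hs hD
  have hDi := hz.D i
  have hDj := hz.D j
  have hbi := Dn_ne hDi
  have hbj := Dn_ne hDj
  have hai := hz.a i
  have haj := hz.a j
  have hP := Pe_ne hz Y
  have g1 : ∀ w : ℂ, s3 / 2 * (fb (z j) / fa (z j) * Pe z Y)⁻¹ * (w / fa (z j)) =
      s3 / 2 * fe (z j) * w / (Dn (z j) * Pe z Y) := by
    intro w
    rw [Dn_eq]
    have h1 := hbj.1
    have h2 := hbj.2
    field_simp
  have g2 : ∀ w : ℂ, s3 / 2 * (fb (z i) / fa (z i) * Pe z Y)⁻¹ * (w / fa (z i)) =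
      s3 / 2 * fe (z i) * w / (Dn (z i) * Pe z Y) := by
    intro w
    rw [Dn_eq]
    have h1 := hbi.1
    have h2 := hbi.2
    field_simp
  rw [g1, g2]
  match_scalars
  · linear_combination (s3 / 2 * wt z i Y * wt z j Y / (Dn (z i) * Dn (z j) * Pe z Y)) * hk2
  · linear_combination (s3 / 2 * wt z i Y * wt z j Y / (Dn (z i) * Dn (z j) * Pe z Y)) * hk3

theorem T_step (hz : Reg z) (X : Finset ι) (ih : ∀ i ∈ X, Four A Ph (X.erase i))
    (hr : sg z X • Ph X = ∑ i ∈ X, (wt z i (X.erase i) / fa (z i)) • A.E i (X.erase i) (Ph (X.erase i)))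
    (hs : sg z X ≠ 0)
    (h1 : ∑ i ∈ X, (wt z i (X.erase i) / Dn (z i)) • A.B i (X.erase i) (fv A Ph (X.erase i)) = 0) :
    A.T0 X (Ph X) = Ph X := by
  apply smul_right_injective V hs
  simp only []
  rw [← map_smul, hr, map_sum]
  have e1 : ∀ i ∈ X, A.T0 X ((wt z i (X.erase i) / fa (z i)) • A.E i (X.erase i) (Ph (X.erase i))) =
      (wt z i (X.erase i) / fa (z i)) • A.E i (X.erase i) (Ph (X.erase i)) +
      s2 • ((wt z i (X.erase i) / Dn (z i)) • A.B i (X.erase i) (fv A Ph (X.erase i))) := by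
    intro i hi
    have hc := A.c1 (Finset.notMem_erase i X) (ih i hi).m (hz.D i)
    rw [Finset.insert_erase hi] at hc
    rw [map_smul, hc, (ih i hi).T, smul_add]
    congr 1
    unfold fv ru2
    rw [smul_smul, smul_smul]
    congr 1
    have := hz.a i
    have := hz.D i
    field_simp
  rw [Finset.sum_congr rfl e1, Finset.sum_add_distrib, ← Finset.smul_sum, h1, smul_zero, add_zero]

theorem R4_step (hz : Reg z) (X : Finset ι) (ih : ∀ i ∈ X, Four A Ph (X.erase i))
    (hr : sg z X • Ph X = ∑ i ∈ X, (wt z i (X.erase i) / fa (z i)) • A.E i (X.erase i) (Ph (X.erase i)))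
    (hs : sg z X ≠ 0)
    (h3 : ∑ i ∈ X, (wt z i (X.erase i) / Dn (z i)) •
      (fa' (z i) • A.E i (X.erase i) (fv A Ph (X.erase i)) -
        (s3 * (1 - (Pe z (X.erase i))⁻¹)) • A.F i (X.erase i) (Ph (X.erase i))) = 0) :
    fv A Ph X = (s3 / 2) • ∑ i ∈ X, (wt z i (X.erase i) / (Dn (z i) * Pe z (X.erase i))) •
      A.F i (X.erase i) (Ph (X.erase i)) := by
  apply smul_right_injective V hs
  simp only []
  have e0 : sg z X • fv A Ph X = A.T1 X (sg z X • Ph X) := by rw [map_smul]; rfl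
  rw [e0, hr, map_sum, Finset.smul_sum, Finset.smul_sum]
  refine Eq.trans ?_ (add_zero _)
  rw [← h3, ← Finset.sum_add_distrib]
  apply Finset.sum_congr rfl
  intro i hi
  have hc := A.c3' (Finset.notMem_erase i X) (ih i hi).m (hz.D i)
  rw [Finset.insert_erase hi] at hc
  rw [map_smul, hc, (ih i hi).T]
  have hPX : Pe z X = fb (z i) / fa (z i) * Pe z (X.erase i) := by
    rw [← Pe_insert z (Finset.notMem_erase i X), Finset.insert_erase hi]
  have hP := Pe_ne hz (X.erase i)
  have ha := hz.a i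
  have hD := hz.D i
  have ht := trig1 (z i)
  unfold fv sg rv ru1
  rw [hPX]
  match_scalars
  · field_simp
  · field_simp
    linear_combination (Pe z (X.erase i) * wt z i (X.erase i)) * ht

/-- **The recursion theorem.** -/
theorem four (hz : Reg z) (h : Rec A Ph) (X : Finset ι) : Four A Ph X := by
  induction X using Finset.strongInduction with
  | H X ih =>
    have ih1 : ∀ i ∈ X, Four A Ph (X.erase i) := fun i hi => ih _ (Finset.erase_ssubset hi)
    have ih2 : ∀ i ∈ X, ∀ j ∈ X.erase i, Ph ((X.erase i).erase j) ∈ A.V0 ((X.erase i).erase j) := by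
      intro i hi j hj
      exact (ih _ ((Finset.erase_ssubset hj).trans (Finset.erase_ssubset hi))).m
    have h1 := R1_step hz X ih1 ih2
    have h3 := R3_step hz X ih1 (fun i _ => h.R0 _) ih2
    rcases X.eq_empty_or_nonempty with rfl | hX
    · refine ⟨h.m0, h.t0, h1, h3, ?_⟩
      unfold fv
      rw [h.t1]
      simp
    · have hs := h.sg0 X hX
      refine ⟨?_, T_step hz X ih1 (h.R0 X) hs h1, h1, h3, R4_step hz X ih1 (h.R0 X) hs h3⟩
      have : Ph X = (sg z X)⁻¹ • ∑ i ∈ X, (wt z i (X.erase i) / fa (z i)) •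
          A.E i (X.erase i) (Ph (X.erase i)) := by
        rw [← h.R0 X, smul_smul, inv_mul_cancel₀ hs, one_smul]
      rw [this]
      apply Submodule.smul_mem
      apply Submodule.sum_mem
      intro i hi
      apply Submodule.smul_mem
      have := A.mE0 (Finset.notMem_erase i X) (ih1 i hi).m
      rwa [Finset.insert_erase hi] at this

/-- (R2'): the one leg vector -/
theorem Four.R2 {X : Finset ι} (h : Four A Ph X) : fv A Ph X = (1 / 2 : ℂ) • ∑ i ∈ X,
    (wt z i (X.erase i) / Dn (z i)) • (s3 • A.F i (X.erase i) (Ph (X.erase i)) -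
      fa' (z i) • A.E i (X.erase i) (fv A Ph (X.erase i))) := by
  rw [h.R4]
  have h0 : (1 / 2 : ℂ) • ∑ i ∈ X, (wt z i (X.erase i) / Dn (z i)) •
    (fa' (z i) • A.E i (X.erase i) (fv A Ph (X.erase i)) -
      (s3 * (1 - (Pe z (X.erase i))⁻¹)) • A.F i (X.erase i) (Ph (X.erase i))) = 0 := by
    rw [h.R3, smul_zero]
  refine Eq.trans ?_ (add_zero _)
  rw [← h0, Finset.smul_sum, Finset.smul_sum, Finset.smul_sum, ← Finset.sum_add_distrib]
  apply Finset.sum_congr rfl
  intro i _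
  match_scalars
  · field_simp
    ring
  · ring

end main

end Pool.Agent.NUF.Fr
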