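import Pool.Agent.NUF.TrigA

/-!
# NUF/ScalA (helper15): the scalar fact

`sigma_X Q(X) = sum (w_i / a_i) Q(X - i)` implies
`Q(X + p) = Delta_X(p) Q(X) + sum w_i e_i Delta_{X-i}(p) Q(X - i)`, by interpolation in the rapidity of `p`.
-/

set_option autoImplicit false

namespace Pool.Agent.NUF.Fr

open Complex Finset EXL.Fm

/-! ### Trigonometric polynomials -/

noncomputable def ee (u : ℂ) : ℂ := exp (2 * (I * u))

/-- `f` is a trigonometric polynomial of degree `n`, of the parity of `n`. -/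
def TP (n : ℕ) (f : ℂ → ℂ) : Prop :=
  ∃ P : Polynomial ℂ, P.natDegree ≤ n ∧ ∀ u, exp (n * (I * u)) * f u = P.eval (ee u)

theorem TP.congr {n : ℕ} {f g : ℂ → ℂ} (h : TP n f) (e : ∀ u, g u = f u) : TP n g := by
  obtain ⟨P, h1, h2⟩ := h
  exact ⟨P, h1, fun u => by rw [e u]; exact h2 u⟩

theorem TP.add {n : ℕ} {f g : ℂ → ℂ} (hf : TP n f) (hg : TP n g) : TP n (fun u => f u + g u) := by
  obtain ⟨P, h1, h2⟩ := hf
  obtain ⟨R, h3, h4⟩ := hg
  refine ⟨P + R, (Polynomial.natDegree_add_le _ _).trans (max_le h1 h3), fun u => ?_⟩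
  rw [mul_add, h2, h4, Polynomial.eval_add]

theorem TP.cmul {n : ℕ} {f : ℂ → ℂ} (hf : TP n f) (c : ℂ) : TP n (fun u => c * f u) := by
  obtain ⟨P, h1, h2⟩ := hf
  refine ⟨Polynomial.C c * P, (Polynomial.natDegree_C_mul_le _ _).trans h1, fun u => ?_⟩
  rw [Polynomial.eval_mul, Polynomial.eval_C, ← h2]
  ring

theorem TP.sub {n : ℕ} {f g : ℂ → ℂ} (hf : TP n f) (hg : TP n g) : TP n (fun u => f u - g u) :=
  (hf.add (hg.cmul (-1))).congr (fun u => by ring)

theorem TP.mul {m n : ℕ} {f g : ℂ → ℂ} (hf : TP m f) (hg : TP n g) : TP (m + n) (fun u => f u * g u) := by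
  obtain ⟨P, h1, h2⟩ := hf
  obtain ⟨R, h3, h4⟩ := hg
  refine ⟨P * R, Polynomial.natDegree_mul_le.trans (Nat.add_le_add h1 h3), fun u => ?_⟩
  rw [Polynomial.eval_mul, ← h2, ← h4, show ((m + n : ℕ) : ℂ) * (I * u) = m * (I * u) + n * (I * u) by
    push_cast; ring, Complex.exp_add]
  ring

theorem TP.up {n : ℕ} {f : ℂ → ℂ} (hf : TP n f) : TP (n + 2) f := by
  obtain ⟨P, h1, h2⟩ := hf
  refine ⟨Polynomial.X * P, Polynomial.natDegree_mul_le.trans ?_, fun u => ?_⟩
  · have := Polynomial.natDegree_X_le (R := ℂ)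
    omega
  · rw [Polynomial.eval_mul, Polynomial.eval_X, ← h2, show ((n + 2 : ℕ) : ℂ) * (I * u) =
      2 * (I * u) + n * (I * u) by push_cast; ring, Complex.exp_add, ee]
    ring

theorem TP.zero (n : ℕ) : TP n (fun _ => 0) := ⟨0, by simp, fun u => by simp⟩

theorem TP.one : TP 0 (fun _ => 1) := ⟨1, by simp, fun u => by simp⟩

theorem TP.sum {ι : Type*} {n : ℕ} {f : ι → ℂ → ℂ} (s : Finset ι) (h : ∀ i ∈ s, TP n (f i)) :
    TP n (fun u => ∑ i ∈ s, f i u) := by
  classical
  induction s using Finset.induction with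
  | empty => exact (TP.zero n).congr (fun u => by simp)
  | insert a s ha ih =>
    have h1 := (h a (Finset.mem_insert_self a s)).add
      (ih (fun i hi => h i (Finset.mem_insert_of_mem hi)))
    exact h1.congr (fun u => by rw [Finset.sum_insert ha])

theorem TP.prod {ι : Type*} {m : ℕ} {f : ι → ℂ → ℂ} (s : Finset ι) (h : ∀ i ∈ s, TP m (f i)) :
    TP (m * s.card) (fun u => ∏ i ∈ s, f i u) := by
  classical
  induction s using Finset.induction with
  | empty => exact TP.one.congr (fun u => by simp)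
  | insert a s ha ih =>
    have h1 := (h a (Finset.mem_insert_self a s)).mul
      (ih (fun i hi => h i (Finset.mem_insert_of_mem hi)))
    rw [Finset.card_insert_of_notMem ha, show m * (s.card + 1) = m + m * s.card by ring]
    exact h1.congr (fun u => by rw [Finset.prod_insert ha])

theorem TP.sin_add (c : ℂ) : TP 1 (fun u => sin (u + c)) := by
  refine ⟨Polynomial.C (exp (-(c * I)) * I / 2) - Polynomial.C (exp (c * I) * I / 2) * Polynomial.X, ?_, ?_⟩
  · refine (Polynomial.natDegree_sub_le _ _).trans (max_le ?_ ?_)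
    · rw [Polynomial.natDegree_C]; omega
    · exact (Polynomial.natDegree_C_mul_le _ _).trans Polynomial.natDegree_X_le
  · intro u
    simp only [Polynomial.eval_sub, Polynomial.eval_mul, Polynomial.eval_C, Polynomial.eval_X]
    rw [Complex.sin, ee, show -(u + c) * I = -(I * u) + -(c * I) by ring,
      show (u + c) * I = I * u + c * I by ring, Complex.exp_add, Complex.exp_add,
      show 2 * (I * u) = I * u + I * u by ring, Complex.exp_add, Complex.exp_neg (I * u)]
    have := Complex.exp_ne_zero (I * u)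
    push_cast
    rw [one_mul]
    field_simp

theorem TP.vanish {n : ℕ} {f : ℂ → ℂ} (h : TP n f) (S : Finset ℂ) (hc : n < S.card)
    (h0 : ∀ t ∈ S, ∃ u, ee u = t ∧ f u = 0) (u : ℂ) : f u = 0 := by
  obtain ⟨P, h1, h2⟩ := h
  have hP : P = 0 := by
    apply Polynomial.eq_zero_of_natDegree_lt_card_of_eval_eq_zero' P S
    · intro t ht
      obtain ⟨v, h3, h4⟩ := h0 t ht
      rw [← h3, ← h2 v, h4, mul_zero]
    · omega
  have h3 := h2 u
  rw [hP, Polynomial.eval_zero] at h3
  exact (mul_eq_zero.mp h3).resolve_left (Complex.exp_ne_zero _)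

theorem ee_inj {u v : ℂ} (h : ee u = ee v) : sin (u - v) = 0 := by
  have h1 : exp (2 * (I * (u - v))) = 1 := by
    rw [show 2 * (I * (u - v)) = 2 * (I * u) - 2 * (I * v) by ring, Complex.exp_sub]
    unfold ee at h
    rw [h]
    exact div_self (Complex.exp_ne_zero _)
  rw [Complex.sin, show -(u - v) * I = (u - v) * I - 2 * (I * (u - v)) by ring, Complex.exp_sub, h1]
  simp

/-! ### The statement -/

section main

variable {ι : Type*} [DecidableEq ι] {z : ι → ℂ}

/-- generic rapidities -/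
structure Gen (z : ι → ℂ) : Prop extends Reg z where
  pl : ∀ i j, sin (z i + z j) ≠ 0
  p3 : ∀ i j, fe (z i + z j) ≠ 0
  m3 : ∀ i j, fe (z i - z j) ≠ 0
  a' : ∀ i, fa' (z i) ≠ 0
  sg0 : ∀ X : Finset ι, X.Nonempty → sg z X ≠ 0

/-- the recursion of the scalars -/
structure QRec (z : ι → ℂ) (Q : Finset ι → ℂ) : Prop where
  q0 : Q ∅ = 1
  R : ∀ X, sg z X * Q X = ∑ i ∈ X, wt z i (X.erase i) / fa (z i) * Q (X.erase i)

/-- the numerator -/
noncomputable def Nf (z : ι → ℂ) (Q : Finset ι → ℂ) (u : ℂ) (X : Finset ι) : ℂ :=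
  Dl z u X * Q X + ∑ i ∈ X, wt z i (X.erase i) * fe (z i) * Dl z u (X.erase i) * Q (X.erase i)

variable {Q : Finset ι → ℂ}

theorem Dl_insert {u : ℂ} {i : ι} {W : Finset ι} (hi : i ∉ W) :
    Dl z u (insert i W) = dl u (z i) * Dl z u W := by
  unfold Dl
  rw [Finset.prod_insert hi]

theorem Nf_node {u : ℂ} {i : ι} {W : Finset ι} (hi : i ∉ W) (h : dl u (z i) = 0) :
    Nf z Q u (insert i W) = wt z i W * fe (z i) * Dl z u W * Q W := by
  unfold Nf
  rw [Dl_insert hi, h, zero_mul, zero_mul, zero_add, Finset.sum_insert hi, Finset.erase_insert hi]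
  rw [Finset.sum_eq_zero, add_zero]
  intro j hj
  have hji : j ≠ i := fun e => hi (e ▸ hj)
  have hi' : i ∉ W.erase j := fun h => hi (Finset.mem_of_mem_erase h)
  rw [Finset.erase_insert_of_ne hji.symm, Dl_insert hi', h]
  ring

/-- the function which has to vanish -/
noncomputable def HH (z : ι → ℂ) (Q : Finset ι → ℂ) (u : ℂ) (X : Finset ι) : ℂ :=
  2 * (Pe z X * fb u - fa u) * Nf z Q u X - 4 * c3 * fa' u * (∏ k ∈ X, pr (z k) u) * Q X -
    fa u * ∑ j ∈ X, pr u (z j) * wt z j (X.erase j) / fa (z j) * Nf z Q u (X.erase j)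

/-- the numerator of the pair factor -/
noncomputable def pn (x y : ℂ) : ℂ := 2 * Dn (x - y) * fb (x + y)

theorem pr_pn (x y : ℂ) : pr x y = pn x y / sin (x - y) := pr_e x y

/-- the same function without denominators -/
noncomputable def FF (z : ι → ℂ) (Q : Finset ι → ℂ) (u : ℂ) (X : Finset ι) : ℂ :=
  2 * (Pe z X * fb u - fa u) * Nf z Q u X * (∏ k ∈ X, sin (u - z k)) -
    4 * c3 * fa' u * (∏ k ∈ X, - pn (z k) u) * Q X -
    fa u * ∑ j ∈ X, pn u (z j) * (wt z j (X.erase j) / fa (z j)) * Nf z Q u (X.erase j) *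
      ∏ k ∈ X.erase j, sin (u - z k)

theorem FF_eq {u : ℂ} {X : Finset ι} (h : ∀ k ∈ X, sin (u - z k) ≠ 0) :
    FF z Q u X = (∏ k ∈ X, sin (u - z k)) * HH z Q u X := by
  unfold FF HH
  have e1 : ∏ k ∈ X, - pn (z k) u = (∏ k ∈ X, sin (u - z k)) * ∏ k ∈ X, pr (z k) u := by
    rw [← Finset.prod_mul_distrib]
    apply Finset.prod_congr rfl
    intro k hk
    rw [pr_pn, show z k - u = -(u - z k) by ring, Complex.sin_neg]
    have := h k hk
    field_simp
  have e2 : ∑ j ∈ X, pn u (z j) * (wt z j (X.erase j) / fa (z j)) * Nf z Q u (X.erase j) *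
      ∏ k ∈ X.erase j, sin (u - z k) = (∏ k ∈ X, sin (u - z k)) *
      ∑ j ∈ X, pr u (z j) * wt z j (X.erase j) / fa (z j) * Nf z Q u (X.erase j) := by
    rw [Finset.mul_sum]
    apply Finset.sum_congr rfl
    intro j hj
    rw [← Finset.mul_prod_erase X _ hj, pr_pn]
    have := h j hj
    field_simp
  rw [e1, e2]
  ring

/-- node `z_i`: the poles cancel -/
theorem FF_n1 (hz : Reg z) {X : Finset ι} {i : ι} (hi : i ∈ X)
    (hQ : Q X = Nf z Q (z i) (X.erase i)) : FF z Q (z i) X = 0 := by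
  unfold FF
  have e0 : ∀ Y : Finset ι, i ∈ Y → ∏ k ∈ Y, sin (z i - z k) = 0 := by
    intro Y hY
    apply Finset.prod_eq_zero hY
    rw [sub_self, Complex.sin_zero]
  rw [e0 X hi, mul_zero, ← Finset.add_sum_erase X _ hi]
  have e1 : ∑ j ∈ X.erase i, pn (z i) (z j) * (wt z j (X.erase j) / fa (z j)) *
      Nf z Q (z i) (X.erase j) * ∏ k ∈ X.erase j, sin (z i - z k) = 0 := by
    apply Finset.sum_eq_zero
    intro j hj
    rw [e0 (X.erase j), mul_zero]
    exact Finset.mem_erase.mpr ⟨(Finset.ne_of_mem_erase hj).symm, hi⟩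
  rw [e1, ← hQ, ← Finset.mul_prod_erase X _ hi]
  have e2 : ∏ k ∈ X.erase i, - pn (z k) (z i) = (∏ k ∈ X.erase i, pr (z k) (z i)) *
      ∏ k ∈ X.erase i, sin (z i - z k) := by
    rw [← Finset.prod_mul_distrib]
    apply Finset.prod_congr rfl
    intro k hk
    have := hz.s k i (Finset.ne_of_mem_erase hk)
    rw [pr_pn, show z i - z k = -(z k - z i) by ring, Complex.sin_neg]
    field_simp
  rw [e2]
  unfold wt
  have := hz.a i
  field_simp
  ring

/-- splitting of `HH` at a node -/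
theorem HH_split {u : ℂ} {i : ι} {Y : Finset ι} (hi : i ∉ Y) (h : dl u (z i) = 0) :
    HH z Q u (insert i Y) =
      2 * (fb (z i) / fa (z i) * Pe z Y * fb u - fa u) * (wt z i Y * fe (z i) * Dl z u Y * Q Y) -
      4 * c3 * fa' u * (pr (z i) u * ∏ k ∈ Y, pr (z k) u) * Q (insert i Y) -
      fa u * (pr u (z i) * wt z i Y / fa (z i) * Nf z Q u Y) -
      ∑ j ∈ Y, fa u * (pr u (z j) * (pr (z i) (z j) * wt z j (Y.erase j)) / fa (z j) *
        (wt z i (Y.erase j) * fe (z i) * Dl z u (Y.erase j) * Q (Y.erase j))) := by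
  unfold HH
  rw [Pe_insert z hi, Nf_node hi h, Finset.prod_insert hi, Finset.sum_insert hi, Finset.erase_insert hi,
    mul_add, Finset.mul_sum]
  have e1 : ∑ j ∈ Y, fa u * (pr u (z j) * wt z j ((insert i Y).erase j) / fa (z j) *
      Nf z Q u ((insert i Y).erase j)) = ∑ j ∈ Y, fa u * (pr u (z j) * (pr (z i) (z j) *
        wt z j (Y.erase j)) / fa (z j) *
        (wt z i (Y.erase j) * fe (z i) * Dl z u (Y.erase j) * Q (Y.erase j))) := by
    apply Finset.sum_congr rfl
    intro j hj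
    have hji : j ≠ i := fun e => hi (e ▸ hj)
    have hi' : i ∉ Y.erase j := fun h => hi (Finset.mem_of_mem_erase h)
    rw [Finset.erase_insert_of_ne hji.symm, Nf_node hi' h, wt_insert z hi']
  rw [e1]
  ring

theorem Nf_expand (z : ι → ℂ) (Q : Finset ι → ℂ) (u : ℂ) (X : Finset ι) : Nf z Q u X =
    Dl z u X * Q X + ∑ i ∈ X, wt z i (X.erase i) * fe (z i) * Dl z u (X.erase i) * Q (X.erase i) := rfl

theorem pr_3z (x : ℂ) : pr x (x + 3 * lam) = 0 := by
  rw [pr_e, show x - (x + 3 * lam) = -(3 * lam) by ring, Dn_neg_e]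
  have : fa' (3 * lam) = 0 := by unfold fa'; rw [sub_self, Complex.sin_zero]
  rw [this]
  ring

/-- node `z_i + 3l` -/
theorem HH_n2 (hz : Gen z) (hQ : QRec z Q) {i : ι} {Y : Finset ι} (hi : i ∉ Y) :
    HH z Q (z i + 3 * lam) (insert i Y) = 0 := by
  have h0 : dl (z i + 3 * lam) (z i) = 0 := dl_3s _
  rw [HH_split hi h0, pr_3z]
  set u := z i + 3 * lam with hu
  have hsum : fa u * (pr u (z i) * wt z i Y / fa (z i) * ∑ j ∈ Y, wt z j (Y.erase j) * fe (z j) *
      Dl z u (Y.erase j) * Q (Y.erase j)) +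
      ∑ j ∈ Y, fa u * (pr u (z j) * (pr (z i) (z j) * wt z j (Y.erase j)) / fa (z j) *
        (wt z i (Y.erase j) * fe (z i) * Dl z u (Y.erase j) * Q (Y.erase j))) =
      wt z i Y * Dl z u Y * Ga (z i) * ∑ j ∈ Y, wt z j (Y.erase j) / fa (z j) * Q (Y.erase j) := by
    rw [Finset.mul_sum, Finset.mul_sum, Finset.mul_sum, ← Finset.sum_add_distrib]
    apply Finset.sum_congr rfl
    intro j hj
    have hij : i ≠ j := fun e => hi (e ▸ hj)
    have hj' : j ∉ Y.erase j := Finset.notMem_erase j Y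
    have hw : wt z i Y = pr (z j) (z i) * wt z i (Y.erase j) := by
      rw [← wt_insert z hj', Finset.insert_erase hj]
    have hD : Dl z u Y = dl u (z j) * Dl z u (Y.erase j) := Dl_erase z u hj
    have hk := Z2j (hz.a i) (hz.a j) (hz.s i j hij) (hz.m3 i j)
    rw [← hu] at hk
    rw [hw, hD]
    linear_combination (wt z i (Y.erase j) * wt z j (Y.erase j) * Dl z u (Y.erase j) * Q (Y.erase j)) * hk
  have hk := Z20 (hz.a i) (Pe z Y)
  rw [← hu] at hk
  have hR := hQ.R Y
  rw [← hR] at hsum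
  rw [Nf_expand]
  unfold sg at hsum
  linear_combination (wt z i Y * Dl z u Y * Q Y) * hk - hsum

/-- node `- z_i` -/
theorem HH_n3 (hz : Gen z) (hQ : QRec z Q) {i : ι} {Y : Finset ι} (hi : i ∉ Y)
    (hIH : Q (insert i Y) = Nf z Q (z i) Y) :
    HH z Q (- z i) (insert i Y) = 0 := by
  have h0 : dl (- z i) (z i) = 0 := dl_ns _
  rw [HH_split hi h0, hIH]
  set u := - z i with hu
  have hfa : fa u = - fa (z i) := fa_n _
  have hfa' : fa' u = fe (z i) := fa'_n _
  have hK : ∀ W : Finset ι, i ∉ W → (∏ k ∈ W, pr (z k) u) * Dl z (z i) W =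
      (∏ k ∈ W, pr (z k) (z i)) * Dl z u W := by
    intro W hW
    unfold Dl
    rw [← Finset.prod_mul_distrib, ← Finset.prod_mul_distrib]
    apply Finset.prod_congr rfl
    intro k hk
    have hki : k ≠ i := fun e => hW (e ▸ hk)
    exact pr_K (hz.s k i hki) (hz.pl k i)
  have hwK : ∀ W : Finset ι, wt z i W * Dl z u W =
      4 * c3 * fa' (z i) * ((∏ k ∈ W, pr (z k) (z i)) * Dl z u W) := by
    intro W
    unfold wt
    ring
  have hsum : 4 * c3 * fa' u * (pr (z i) u * ∏ k ∈ Y, pr (z k) u) *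
      (∑ j ∈ Y, wt z j (Y.erase j) * fe (z j) * Dl z (z i) (Y.erase j) * Q (Y.erase j)) +
      fa u * (pr u (z i) * wt z i Y / fa (z i) * ∑ j ∈ Y, wt z j (Y.erase j) * fe (z j) *
      Dl z u (Y.erase j) * Q (Y.erase j)) +
      ∑ j ∈ Y, fa u * (pr u (z j) * (pr (z i) (z j) * wt z j (Y.erase j)) / fa (z j) *
        (wt z i (Y.erase j) * fe (z i) * Dl z u (Y.erase j) * Q (Y.erase j))) =
      4 * c3 * ((∏ k ∈ Y, pr (z k) (z i)) * Dl z u Y) * Gb (z i) *
        ∑ j ∈ Y, wt z j (Y.erase j) / fa (z j) * Q (Y.erase j) := by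
    rw [Finset.mul_sum, Finset.mul_sum, Finset.mul_sum, Finset.mul_sum, ← Finset.sum_add_distrib,
      ← Finset.sum_add_distrib]
    apply Finset.sum_congr rfl
    intro j hj
    have hij : i ≠ j := fun e => hi (e ▸ hj)
    have hj' : j ∉ Y.erase j := Finset.notMem_erase j Y
    have hi' : i ∉ Y.erase j := fun h => hi (Finset.mem_of_mem_erase h)
    have hw : wt z i Y = pr (z j) (z i) * wt z i (Y.erase j) := by
      rw [← wt_insert z hj', Finset.insert_erase hj]
    have hD : Dl z u Y = dl u (z j) * Dl z u (Y.erase j) := Dl_erase z u hj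
    have hP1 : ∏ k ∈ Y, pr (z k) u = pr (z j) u * ∏ k ∈ Y.erase j, pr (z k) u :=
      (Finset.mul_prod_erase Y _ hj).symm
    have hP2 : ∏ k ∈ Y, pr (z k) (z i) = pr (z j) (z i) * ∏ k ∈ Y.erase j, pr (z k) (z i) :=
      (Finset.mul_prod_erase Y _ hj).symm
    have hk := Z3j (hz.a i) (hz.a j) (hz.s i j hij) (hz.pl i j) (hz.pl i i)
    rw [← hu] at hk
    have k1 := hK (Y.erase j) hi'
    have k2 := hwK (Y.erase j)
    have hai := hz.a i
    rw [hw, hD, hP1, hP2, hfa, hfa']
    have e1 : -fa (z i) * (pr u (z i) * (pr (z j) (z i) * wt z i (Y.erase j)) / fa (z i) *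
        (wt z j (Y.erase j) * fe (z j) * Dl z u (Y.erase j) * Q (Y.erase j))) =
        - (pr u (z i) * pr (z j) (z i) * wt z j (Y.erase j) * fe (z j) * Q (Y.erase j)) *
          (wt z i (Y.erase j) * Dl z u (Y.erase j)) := by
      field_simp
    rw [e1, k2]
    linear_combination (4 * c3 * fe (z i) * pr (z i) u * pr (z j) u * wt z j (Y.erase j) * fe (z j) *
        Q (Y.erase j)) * k1 -
      (fa (z i) * pr u (z j) * pr (z i) (z j) * wt z j (Y.erase j) / fa (z j) * fe (z i) *
        Q (Y.erase j)) * k2 -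
      (4 * c3 * (∏ k ∈ Y.erase j, pr (z k) (z i)) * Dl z u (Y.erase j) * wt z j (Y.erase j) *
        Q (Y.erase j)) * hk
  have hk := Z30 (hz.a i) (hz.pl i i) (Pe z Y)
  rw [← hu] at hk
  have hR := hQ.R Y
  rw [← hR] at hsum
  rw [Nf_expand, Nf_expand]
  have k1 := hK Y hi
  have k2 := hwK Y
  unfold sg at hsum
  have hai := hz.a i
  have e1 : fa u * (pr u (z i) * wt z i Y / fa (z i) * (Dl z u Y * Q Y)) =
      - pr u (z i) * Q Y * (wt z i Y * Dl z u Y) := by
    rw [hfa]
    field_simp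
  linear_combination (2 * (fb (z i) / fa (z i) * Pe z Y * fb u - fa u) * fe (z i) * Q Y) * k2 - e1 +
    (pr u (z i) * Q Y) * k2 - (4 * c3 * fa' u * pr (z i) u * Q Y) * k1 -
    (4 * c3 * pr (z i) u * Q Y * ((∏ k ∈ Y, pr (z k) (z i)) * Dl z u Y)) * hfa' +
    (4 * c3 * ((∏ k ∈ Y, pr (z k) (z i)) * Dl z u Y) * Q Y) * hk - hsum

theorem fa_0 : fa 0 = 0 := by unfold fa; exact Complex.sin_zero

theorem fa'_0 : fa' 0 = s3 := by unfold fa' s3; rw [sub_zero]

theorem dl_0 (x : ℂ) : dl 0 x = 2 * (fa x * fe x) := by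
  unfold dl
  rw [fa_0]
  ring

theorem Nf_0 (hz : Gen z) (hQ : QRec z Q) {u : ℂ} (hu : ∀ x, dl u x = 2 * (fa x * fe x)) (X : Finset ι) :
    Nf z Q u X = Dl z u X * Pe z X * Q X := by
  have e1 : ∑ j ∈ X, wt z j (X.erase j) * fe (z j) * Dl z u (X.erase j) * Q (X.erase j) =
      (1 / 2) * Dl z u X * ∑ j ∈ X, wt z j (X.erase j) / fa (z j) * Q (X.erase j) := by
    rw [Finset.mul_sum]
    apply Finset.sum_congr rfl
    intro j hj
    rw [Dl_erase z u hj, hu]
    have := hz.a j
    field_simp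
  have hR := hQ.R X
  rw [Nf_expand, e1, ← hR]
  unfold sg
  ring

/-- node `0` -/
theorem HH_n4 (hz : Gen z) (hQ : QRec z Q) (X : Finset ι) : HH z Q 0 X = 0 := by
  unfold HH
  rw [Nf_0 hz hQ dl_0, fa_0, fa'_0, fb_0]
  have e1 : ∏ k ∈ X, pr (z k) 0 = Pe z X * Pe z X * Dl z 0 X := by
    unfold Pe Dl
    rw [← Finset.prod_mul_distrib, ← Finset.prod_mul_distrib]
    apply Finset.prod_congr rfl
    intro k _
    rw [pr_e, sub_zero, add_zero, dl_0, Dn_eq]
    have h := hz.a k
    have e : sin (z k) = fa (z k) := rfl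
    rw [e]
    field_simp
  have h2 := s2_eq
  rw [e1]
  linear_combination (2 * Pe z X * Pe z X * Dl z 0 X * Q X) * h2

theorem fa_3l : fa (3 * lam) = s3 := rfl

theorem fa'_3l : fa' (3 * lam) = 0 := by unfold fa'; rw [sub_self, Complex.sin_zero]

theorem fb_3l : fb (3 * lam) = s3 := by
  have := fb_3 0
  rw [zero_add] at this
  rw [this, fa'_0]

theorem dl_3l (x : ℂ) : dl (3 * lam) x = 2 * (fa x * fe x) := by
  unfold dl
  rw [fa'_3l]
  ring

/-- node `3 l` -/
theorem HH_n5 (hz : Gen z) (hQ : QRec z Q) (X : Finset ι) : HH z Q (3 * lam) X = 0 := by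
  unfold HH
  rw [Nf_0 hz hQ dl_3l, fa_3l, fa'_3l, fb_3l]
  have e1 : ∑ j ∈ X, pr (3 * lam) (z j) * wt z j (X.erase j) / fa (z j) *
      Nf z Q (3 * lam) (X.erase j) = Dl z (3 * lam) X * Pe z X *
      ∑ j ∈ X, wt z j (X.erase j) / fa (z j) * Q (X.erase j) := by
    rw [Finset.mul_sum]
    apply Finset.sum_congr rfl
    intro j hj
    have hP : Pe z X = fb (z j) / fa (z j) * Pe z (X.erase j) := by
      rw [← Pe_insert z (Finset.notMem_erase j X), Finset.insert_erase hj]
    rw [Nf_0 hz hQ dl_3l, Dl_erase z _ hj, hP, dl_3l, pr_e, show 3 * lam - z j = -(z j) + 3 * lam by ring,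
      Dn_3, neg_neg, show 3 * lam + z j = z j + 3 * lam by ring, fb_3,
      show -(z j) + 3 * lam = 3 * lam - z j by ring, Dn_eq]
    have e : sin (3 * lam - z j) = fa' (z j) := rfl
    rw [e]
    have := hz.a j
    have := hz.a' j
    field_simp
  have hR := hQ.R X
  rw [e1, ← hR]
  unfold sg
  ring

/-! ### The degree -/

theorem TP_fa : TP 1 (fun u => fa u) := (TP.sin_add 0).congr (fun u => by rw [add_zero]; rfl)

theorem TP_fb : TP 1 (fun u => fb u) := (TP.sin_add (2 * lam)).congr (fun u => by rw [add_comm]; rfl)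

theorem TP_fa' : TP 1 (fun u => fa' u) := ((TP.sin_add (-(3 * lam))).cmul (-1)).congr (fun u => by
  unfold fa'
  rw [show 3 * lam - u = -(u + -(3 * lam)) by ring, Complex.sin_neg]
  ring)

theorem TP_sub (x : ℂ) : TP 1 (fun u => sin (u - x)) :=
  (TP.sin_add (-x)).congr (fun u => by rw [sub_eq_add_neg])

theorem TP_pn1 (x : ℂ) : TP 3 (fun u => - pn x u) := by
  have h := (((TP.sin_add (-(x + 2 * lam))).mul (TP.sin_add (-(x + 3 * lam)))).mul
    (TP.sin_add (x + 2 * lam))).cmul (-2)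
  refine h.congr (fun u => ?_)
  unfold pn Dn fb
  rw [show 2 * lam + (x - u) = -(u + -(x + 2 * lam)) by ring,
    show 3 * lam + (x - u) = -(u + -(x + 3 * lam)) by ring,
    show 2 * lam + (x + u) = u + (x + 2 * lam) by ring, Complex.sin_neg, Complex.sin_neg]
  ring

theorem TP_pn2 (x : ℂ) : TP 3 (fun u => pn u x) := by
  have h := (((TP.sin_add (2 * lam - x)).mul (TP.sin_add (3 * lam - x))).mul
    (TP.sin_add (x + 2 * lam))).cmul 2
  refine h.congr (fun u => ?_)
  unfold pn Dn fb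
  rw [show 2 * lam + (u - x) = u + (2 * lam - x) by ring,
    show 3 * lam + (u - x) = u + (3 * lam - x) by ring,
    show 2 * lam + (u + x) = u + (x + 2 * lam) by ring]
  ring

theorem TP_dl (x : ℂ) : TP 2 (fun u => dl u x) := by
  have h := ((TP_fa.mul TP_fa').cmul 2).add ((TP.one.cmul (2 * (fa x * fe x))).up)
  refine h.congr (fun u => ?_)
  unfold dl
  ring

theorem TP_Dl (z : ι → ℂ) (X : Finset ι) : TP (2 * X.card) (fun u => Dl z u X) :=
  TP.prod X (fun i _ => TP_dl (z i))

theorem TP_Nf (z : ι → ℂ) (Q : Finset ι → ℂ) (X : Finset ι) : TP (2 * X.card) (fun u => Nf z Q u X) := by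
  have h1 := (TP_Dl z X).cmul (Q X)
  have h2 : TP (2 * X.card) (fun u => ∑ i ∈ X, wt z i (X.erase i) * fe (z i) * Dl z u (X.erase i) *
      Q (X.erase i)) := by
    apply TP.sum X
    intro i hi
    have h3 := ((TP_Dl z (X.erase i)).cmul (wt z i (X.erase i) * fe (z i) * Q (X.erase i))).up
    have hc : 2 * (X.erase i).card + 2 = 2 * X.card := by
      rw [Finset.card_erase_of_mem hi]
      have := Finset.card_pos.mpr ⟨i, hi⟩
      omega
    rw [hc] at h3
    exact h3.congr (fun u => by ring)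
  exact (h1.add h2).congr (fun u => by rw [Nf_expand]; ring)

theorem TP_FF (z : ι → ℂ) (Q : Finset ι → ℂ) (X : Finset ι) :
    TP (3 * X.card + 1) (fun u => FF z Q u X) := by
  have hs : ∀ Y : Finset ι, TP (1 * Y.card) (fun u => ∏ k ∈ Y, sin (u - z k)) :=
    fun Y => TP.prod Y (fun k _ => TP_sub (z k))
  have h1 := ((((TP_fb.cmul (Pe z X)).sub TP_fa).cmul 2).mul (TP_Nf z Q X)).mul (hs X)
  have h2 := ((TP_fa'.cmul (4 * c3)).mul (TP.prod X (fun k _ => TP_pn1 (z k)))).cmul (Q X)
  have h3 : TP (3 * X.card) (fun u => ∑ j ∈ X, pn u (z j) * (wt z j (X.erase j) / fa (z j)) *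
      Nf z Q u (X.erase j) * ∏ k ∈ X.erase j, sin (u - z k)) := by
    apply TP.sum X
    intro j hj
    have h4 := (((TP_pn2 (z j)).cmul (wt z j (X.erase j) / fa (z j))).mul
      (TP_Nf z Q (X.erase j))).mul (hs (X.erase j))
    have hc : 3 + 2 * (X.erase j).card + 1 * (X.erase j).card = 3 * X.card := by
      rw [Finset.card_erase_of_mem hj]
      have := Finset.card_pos.mpr ⟨j, hj⟩
      omega
    rw [hc] at h4
    exact h4.congr (fun u => by ring)
  have h5 := TP_fa.mul h3
  rw [show 1 + 2 * X.card + 1 * X.card = 3 * X.card + 1 by ring] at h1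
  rw [show 1 + 3 * X.card = 3 * X.card + 1 by ring] at h2 h5
  exact ((h1.sub h2).sub h5).congr (fun u => by unfold FF; ring)

/-! ### The nodes -/

theorem ee_ne {u v : ℂ} (h : sin (u - v) ≠ 0) : ee u ≠ ee v := fun e => h (ee_inj e)

theorem sin_ne_sub {u v : ℂ} (h : sin (u - v) ≠ 0) : sin (v - u) ≠ 0 := by
  rw [show v - u = -(u - v) by ring, Complex.sin_neg]
  exact neg_ne_zero.mpr h

/-- the nodes -/
noncomputable def nodes (z : ι → ℂ) (X : Finset ι) : Finset ℂ :=
  ((X.image (fun i => ee (z i)) ∪ X.image (fun i => ee (z i + 3 * lam))) ∪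
    X.image (fun i => ee (- z i))) ∪ {ee 0, ee (3 * lam)}

theorem fe_ne_add {x : ℂ} (h : fe x ≠ 0) : sin (x + 3 * lam) ≠ 0 := by rwa [← sin_3lam_add]

theorem nodes_card (hz : Gen z) (X : Finset ι) : (nodes z X).card = 3 * X.card + 2 := by
  have i1 : (X.image (fun i => ee (z i))).card = X.card := by
    apply Finset.card_image_of_injOn
    intro i _ j _ h
    by_contra hij
    exact ee_ne (hz.s i j hij) h
  have i2 : (X.image (fun i => ee (z i + 3 * lam))).card = X.card := by
    apply Finset.card_image_of_injOn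
    intro i _ j _ h
    by_contra hij
    refine ee_ne ?_ h
    rw [show z i + 3 * lam - (z j + 3 * lam) = z i - z j by ring]
    exact hz.s i j hij
  have i3 : (X.image (fun i => ee (- z i))).card = X.card := by
    apply Finset.card_image_of_injOn
    intro i _ j _ h
    by_contra hij
    refine ee_ne ?_ h
    rw [show - z i - - z j = z j - z i by ring]
    exact hz.s j i (Ne.symm hij)
  have i4 : ({ee 0, ee (3 * lam)} : Finset ℂ).card = 2 := by
    apply Finset.card_pair
    refine ee_ne ?_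
    rw [zero_sub, Complex.sin_neg]
    exact neg_ne_zero.mpr s3_ne
  have d1 : Disjoint (X.image (fun i => ee (z i))) (X.image (fun i => ee (z i + 3 * lam))) := by
    rw [Finset.disjoint_left]
    intro t h1 h2
    rw [Finset.mem_image] at h1 h2
    obtain ⟨i, _, rfl⟩ := h1
    obtain ⟨j, _, h⟩ := h2
    refine ee_ne ?_ h
    rw [show z j + 3 * lam - z i = (z j - z i) + 3 * lam by ring]
    exact fe_ne_add (hz.m3 j i)
  have d2 : Disjoint (X.image (fun i => ee (z i)) ∪ X.image (fun i => ee (z i + 3 * lam)))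
      (X.image (fun i => ee (- z i))) := by
    rw [Finset.disjoint_left]
    intro t h1 h2
    rw [Finset.mem_union, Finset.mem_image, Finset.mem_image] at h1
    rw [Finset.mem_image] at h2
    obtain ⟨j, _, h⟩ := h2
    rcases h1 with ⟨i, _, rfl⟩ | ⟨i, _, rfl⟩
    · refine ee_ne ?_ h.symm
      rw [sub_neg_eq_add]
      exact hz.pl i j
    · refine ee_ne ?_ h.symm
      rw [show z i + 3 * lam - - z j = (z i + z j) + 3 * lam by ring]
      exact fe_ne_add (hz.p3 i j)
  have d3 : Disjoint ((X.image (fun i => ee (z i)) ∪ X.image (fun i => ee (z i + 3 * lam))) ∪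
      X.image (fun i => ee (- z i))) ({ee 0, ee (3 * lam)} : Finset ℂ) := by
    rw [Finset.disjoint_left]
    intro t h1 h2
    rw [Finset.mem_union, Finset.mem_union, Finset.mem_image, Finset.mem_image, Finset.mem_image] at h1
    rw [Finset.mem_insert, Finset.mem_singleton] at h2
    rcases h1 with (⟨i, _, rfl⟩ | ⟨i, _, rfl⟩) | ⟨i, _, rfl⟩
    · rcases h2 with h | h
      · refine ee_ne ?_ h
        rw [sub_zero]
        exact hz.a i
      · refine ee_ne ?_ h.symm
        exact hz.a' i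
    · rcases h2 with h | h
      · refine ee_ne ?_ h
        rw [sub_zero]
        exact fe_ne_add (Dn_ne (hz.D i)).2
      · refine ee_ne ?_ h
        rw [show z i + 3 * lam - 3 * lam = z i by ring]
        exact hz.a i
    · rcases h2 with h | h
      · refine ee_ne ?_ h
        rw [sub_zero, Complex.sin_neg]
        exact neg_ne_zero.mpr (hz.a i)
      · refine ee_ne ?_ h.symm
        rw [show 3 * lam - - z i = z i + 3 * lam by ring]
        exact fe_ne_add (Dn_ne (hz.D i)).2
  unfold nodes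
  rw [Finset.card_union_of_disjoint d3, Finset.card_union_of_disjoint d2,
    Finset.card_union_of_disjoint d1, i1, i2, i3, i4]
  ring

/-- all the values vanish -/
theorem FF_zero (hz : Gen z) (hQ : QRec z Q) (X : Finset ι)
    (hIH : ∀ i ∈ X, Q X = Nf z Q (z i) (X.erase i)) (u : ℂ) : FF z Q u X = 0 := by
  refine TP.vanish (TP_FF z Q X) (nodes z X) ?_ ?_ u
  · rw [nodes_card hz]
    omega
  · intro t ht
    unfold nodes at ht
    rw [Finset.mem_union, Finset.mem_union, Finset.mem_union, Finset.mem_image, Finset.mem_image,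
      Finset.mem_image, Finset.mem_insert, Finset.mem_singleton] at ht
    rcases ht with ((⟨i, hi, rfl⟩ | ⟨i, hi, rfl⟩) | ⟨i, hi, rfl⟩) | (rfl | rfl)
    · exact ⟨z i, rfl, FF_n1 hz.toReg hi (hIH i hi)⟩
    · refine ⟨_, rfl, ?_⟩
      rw [FF_eq]
      · have h := HH_n2 hz hQ (Finset.notMem_erase i X)
        rw [Finset.insert_erase hi] at h
        rw [h, mul_zero]
      · intro k _
        rw [show z i + 3 * lam - z k = (z i - z k) + 3 * lam by ring]
        exact fe_ne_add (hz.m3 i k)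
    · refine ⟨_, rfl, ?_⟩
      rw [FF_eq]
      · have hIHi := hIH i hi
        have h := HH_n3 (Q := Q) hz hQ (Finset.notMem_erase i X) (by rw [Finset.insert_erase hi]; exact hIHi)
        rw [Finset.insert_erase hi] at h
        rw [h, mul_zero]
      · intro k _
        rw [show - z i - z k = -(z i + z k) by ring, Complex.sin_neg]
        exact neg_ne_zero.mpr (hz.pl i k)
    · refine ⟨_, rfl, ?_⟩
      rw [FF_eq, HH_n4 hz hQ, mul_zero]
      intro k _
      rw [zero_sub, Complex.sin_neg]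
      exact neg_ne_zero.mpr (hz.a k)
    · refine ⟨_, rfl, ?_⟩
      rw [FF_eq, HH_n5 hz hQ, mul_zero]
      intro k _
      exact hz.a' k

/-- **The scalar fact.** -/
theorem scal (hz : Gen z) (hQ : QRec z Q) (X : Finset ι) :
    ∀ p, p ∉ X → Q (insert p X) = Nf z Q (z p) X := by
  induction X using Finset.strongInduction with
  | H X ih =>
    intro p hp
    have hIH : ∀ i ∈ X, Q X = Nf z Q (z i) (X.erase i) := by
      intro i hi
      have := ih _ (Finset.erase_ssubset hi) i (Finset.notMem_erase i X)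
      rwa [Finset.insert_erase hi] at this
    have hF := FF_zero hz hQ X hIH (z p)
    have hne : ∀ k ∈ X, sin (z p - z k) ≠ 0 := by
      intro k hk
      exact hz.s p k (fun e => hp (e ▸ hk))
    rw [FF_eq hne] at hF
    have hH := (mul_eq_zero.mp hF).resolve_left (Finset.prod_ne_zero_iff.mpr hne)
    have hR := hQ.R (insert p X)
    have hs := hz.sg0 (insert p X) (Finset.insert_nonempty p X)
    rw [Finset.sum_insert hp, Finset.erase_insert hp] at hR
    have e1 : ∑ j ∈ X, wt z j ((insert p X).erase j) / fa (z j) * Q ((insert p X).erase j) =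
        ∑ j ∈ X, pr (z p) (z j) * wt z j (X.erase j) / fa (z j) * Nf z Q (z p) (X.erase j) := by
      apply Finset.sum_congr rfl
      intro j hj
      have hjp : j ≠ p := fun e => hp (e ▸ hj)
      have hp' : p ∉ X.erase j := fun h => hp (Finset.mem_of_mem_erase h)
      rw [Finset.erase_insert_of_ne hjp.symm, wt_insert z hp',
        ih _ (Finset.erase_ssubset hj) p hp']
    rw [e1] at hR
    have hw : wt z p X = 4 * c3 * fa' (z p) * ∏ k ∈ X, pr (z k) (z p) := rfl
    have hap := hz.a p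
    have hsg : fa (z p) * sg z (insert p X) = 2 * (Pe z X * fb (z p) - fa (z p)) := by
      unfold sg
      rw [Pe_insert z hp]
      field_simp
    have hfin : fa (z p) * sg z (insert p X) * (Q (insert p X) - Nf z Q (z p) X) = 0 := by
      have h1 : fa (z p) * (sg z (insert p X) * Q (insert p X)) = fa (z p) * (wt z p X / fa (z p) * Q X +
        ∑ j ∈ X, pr (z p) (z j) * wt z j (X.erase j) / fa (z j) * Nf z Q (z p) (X.erase j)) := by
        rw [hR]
      have h2 : fa (z p) * (wt z p X / fa (z p) * Q X) = wt z p X * Q X := by field_simp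
      unfold HH at hH
      rw [hw] at h1 h2
      linear_combination h1 + h2 - hH - Nf z Q (z p) X * hsg
    have := (mul_eq_zero.mp hfin).resolve_left (mul_ne_zero hap hs)
    linear_combination this

end main

end Pool.Agent.NUF.Fr
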