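import Pool.Agent.NUF.StarB

/-!
# NUF/ScalN (helper15): good sets of rapidities, transport of the scalars
-/

set_option autoImplicit false

namespace Pool.Agent.NUF.Fr

open Complex Finset EXL.Fm Filter Topology

/-- A set of rapidities such that distinct elements are always generic. -/
structure GS (B : Set ℂ) : Prop where
  a : ∀ u ∈ B, fa u ≠ 0
  a' : ∀ u ∈ B, fa' u ≠ 0
  D : ∀ u ∈ B, Dn u ≠ 0
  s : ∀ u ∈ B, ∀ v ∈ B, u ≠ v → sin (u - v) ≠ 0
  d : ∀ u ∈ B, ∀ v ∈ B, Dn (u - v) ≠ 0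
  pl : ∀ u ∈ B, ∀ v ∈ B, sin (u + v) ≠ 0
  p3 : ∀ u ∈ B, ∀ v ∈ B, fe (u + v) ≠ 0
  m3 : ∀ u ∈ B, ∀ v ∈ B, fe (u - v) ≠ 0
  big : ∀ u ∈ B, ‖fa u‖ < ‖fb u‖

theorem GS.mono {B C : Set ℂ} (h : GS B) (hC : C ⊆ B) : GS C where
  a := fun u hu => h.a u (hC hu)
  a' := fun u hu => h.a' u (hC hu)
  D := fun u hu => h.D u (hC hu)
  s := fun u hu v hv => h.s u (hC hu) v (hC hv)
  d := fun u hu v hv => h.d u (hC hu) v (hC hv)
  pl := fun u hu v hv => h.pl u (hC hu) v (hC hv)
  p3 := fun u hu v hv => h.p3 u (hC hu) v (hC hv)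
  m3 := fun u hu v hv => h.m3 u (hC hu) v (hC hv)
  big := fun u hu => h.big u (hC hu)

section gen

variable {ι : Type*} [DecidableEq ι]

theorem GS.sg {B : Set ℂ} (h : GS B) {z : ι → ℂ} {X : Finset ι} (hX : X.Nonempty)
    (hz : ∀ i ∈ X, z i ∈ B) : sg z X ≠ 0 := by
  have h1 : 1 < ‖Pe z X‖ := by
    unfold Pe
    rw [norm_prod]
    have h2 : ∀ i ∈ X, (1 : ℝ) < ‖fb (z i) / fa (z i)‖ := by
      intro i hi
      rw [norm_div, one_lt_div (norm_pos_iff.mpr (h.a _ (hz i hi)))]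
      exact h.big _ (hz i hi)
    have h3 := Finset.prod_lt_prod_of_nonempty (f := fun _ : ι => (1 : ℝ))
      (g := fun i => ‖fb (z i) / fa (z i)‖) (s := X) (fun i _ => one_pos) h2 hX
    rwa [Finset.prod_const_one] at h3
  unfold Fr.sg
  intro h2
  have h3 : Pe z X = 1 := by linear_combination (1 / 2) * h2
  rw [h3, norm_one] at h1
  exact lt_irrefl _ h1

theorem GS.gen {B : Set ℂ} (h : GS B) {z : ι → ℂ} (hi : Function.Injective z) (hz : ∀ i, z i ∈ B) :
    Gen z where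
  a := fun i => h.a _ (hz i)
  D := fun i => h.D _ (hz i)
  s := fun i j hij => h.s _ (hz i) _ (hz j) (fun e => hij (hi e))
  d := fun i j _ => h.d _ (hz i) _ (hz j)
  pl := fun i j => h.pl _ (hz i) _ (hz j)
  p3 := fun i j => h.p3 _ (hz i) _ (hz j)
  m3 := fun i j => h.m3 _ (hz i) _ (hz j)
  a' := fun i => h.a' _ (hz i)
  sg0 := fun _ hX => h.sg hX (fun i _ => hz i)

/-! ### Transport -/

variable {ι' : Type*} [DecidableEq ι'] (z : ι → ℂ) (e : ι' ↪ ι)

theorem wt_map (i : ι') (Y : Finset ι') : wt (z ∘ e) i Y = wt z (e i) (Y.map e) := by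
  unfold wt
  rw [Finset.prod_map]
  rfl

theorem Pe_map (X : Finset ι') : Pe (z ∘ e) X = Pe z (X.map e) := by
  unfold Pe
  rw [Finset.prod_map]
  rfl

theorem sg_map (X : Finset ι') : sg (z ∘ e) X = sg z (X.map e) := by
  unfold sg
  rw [Pe_map]

theorem Dl_map (u : ℂ) (X : Finset ι') : Dl (z ∘ e) u X = Dl z u (X.map e) := by
  unfold Dl
  rw [Finset.prod_map]
  rfl

theorem Qs_map (X : Finset ι') : Qs (z ∘ e) X = Qs z (X.map e) := by
  induction X using Finset.strongInduction with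
  | H X ih =>
    rw [Qs_eq, Qs_eq z]
    by_cases h0 : X = ∅
    · rw [if_pos h0, if_pos (by rw [h0]; rfl)]
    · rw [if_neg h0, if_neg (by rw [Finset.map_eq_empty]; exact h0), sg_map, Finset.sum_map]
      congr 1
      apply Finset.sum_congr rfl
      intro i hi
      rw [wt_map, ih _ (Finset.erase_ssubset hi), Finset.map_erase]
      rfl

theorem Nf_map (u : ℂ) (X : Finset ι') : Nf (z ∘ e) (Qs (z ∘ e)) u X = Nf z (Qs z) u (X.map e) := by
  unfold Nf
  rw [Dl_map, Qs_map, Finset.sum_map]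
  congr 1
  apply Finset.sum_congr rfl
  intro i _
  rw [wt_map, Dl_map, Qs_map, Finset.map_erase]
  rfl

theorem Nf_congr {z z' : ι → ℂ} (u : ℂ) (X : Finset ι) (h : ∀ i ∈ X, z i = z' i) :
    Nf z (Qs z) u X = Nf z' (Qs z') u X := by
  unfold Nf
  have hD : ∀ Y ⊆ X, Dl z u Y = Dl z' u Y := by
    intro Y hY
    unfold Dl
    exact Finset.prod_congr rfl (fun k hk => by rw [h k (hY hk)])
  rw [hD X (le_refl _), Qs_congr X h]
  congr 1
  apply Finset.sum_congr rfl
  intro i hi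
  have e2 : wt z i (X.erase i) = wt z' i (X.erase i) := by
    unfold wt
    rw [h i hi, Finset.prod_congr rfl (fun k hk => by rw [h k (Finset.mem_of_mem_erase hk)])]
  rw [e2, h i hi, hD _ (Finset.erase_subset i X),
    Qs_congr (X.erase i) (fun j hj => h j (Finset.mem_of_mem_erase hj))]

/-- the scalar fact for rapidities in a good set -/
theorem GS.scal {B : Set ℂ} (hB : GS B) {z : ι → ℂ} {X : Finset ι} {p : ι} (hp : p ∉ X)
    (hz : ∀ i ∈ insert p X, z i ∈ B) (hi : Set.InjOn z (insert p X : Finset ι)) :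
    Qs z (insert p X) = Nf z (Qs z) (z p) X := by
  let e : {i // i ∈ insert p X} ↪ ι := Function.Embedding.subtype _
  have hG : Gen (z ∘ e) := hB.gen
    (fun a b hab => Subtype.ext (hi (Finset.mem_coe.mpr a.2) (Finset.mem_coe.mpr b.2) hab))
    (fun a => hz _ a.2)
  let X' : Finset {i // i ∈ insert p X} := X.attach.map
    ⟨fun i => ⟨i.1, Finset.mem_insert_of_mem i.2⟩, fun a b h => by
      have h' := congrArg Subtype.val h
      exact Subtype.ext h'⟩
  let p' : {i // i ∈ insert p X} := ⟨p, Finset.mem_insert_self p X⟩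
  have hX' : X'.map e = X := by
    ext i
    simp only [X', e, Finset.mem_map, Finset.mem_attach, true_and, Function.Embedding.coeFn_mk,
      Subtype.exists, Function.Embedding.coe_subtype]
    constructor
    · rintro ⟨a, ha, ⟨b, hb, hab⟩, rfl⟩
      have := congrArg Subtype.val hab
      simp only [] at this
      rw [← this]
      exact hb
    · intro hi'
      exact ⟨i, Finset.mem_insert_of_mem hi', ⟨i, hi', rfl⟩, rfl⟩
  have hp' : p' ∉ X' := by
    intro h
    have h1 : e p' ∈ X'.map e := Finset.mem_map_of_mem e h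
    rw [hX'] at h1
    exact hp h1
  have h := Fr.scal hG (Qs_rec hG.sg0) X' p' hp'
  rw [Qs_map, Nf_map, hX', Finset.map_insert, hX'] at h
  exact h

end gen

/-! ### The good set around the honeycomb point -/

theorem lam_re : lam = ((Real.pi / 8 : ℝ) : ℂ) := by
  unfold lam
  push_cast
  rfl

theorem sin_k_ne {k : ℕ} (h1 : 0 < k) (h2 : k < 8) : sin ((k : ℂ) * lam) ≠ 0 := by
  rw [lam_re, show (k : ℂ) * ((Real.pi / 8 : ℝ) : ℂ) = ((k * (Real.pi / 8) : ℝ) : ℂ) by push_cast; ring,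
    ← Complex.ofReal_sin]
  apply Complex.ofReal_ne_zero.mpr
  apply ne_of_gt
  have hpi := Real.pi_pos
  apply Real.sin_pos_of_pos_of_lt_pi
  · have : (0 : ℝ) < k := by exact_mod_cast h1
    positivity
  · have h3 : (k : ℝ) ≤ 7 := by exact_mod_cast Nat.le_of_lt_succ h2
    nlinarith

theorem near2 {Φ : ℂ → ℂ → ℂ} (hΦ : Continuous (fun p : ℂ × ℂ => Φ p.1 p.2)) {c c' : ℂ}
    (h : Φ c c' ≠ 0) : ∀ᶠ r in 𝓝[>] (0 : ℝ), ∀ u ∈ Metric.ball c r, ∀ v ∈ Metric.ball c' r, Φ u v ≠ 0 := by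
  have h1 : ∀ᶠ p in 𝓝 (c, c'), Φ p.1 p.2 ≠ 0 := (hΦ.continuousAt).eventually_ne h
  rw [Metric.eventually_nhds_iff_ball] at h1
  obtain ⟨ε, hε, h1⟩ := h1
  have h2 : ∀ᶠ r in 𝓝[>] (0 : ℝ), r < ε := eventually_nhdsWithin_of_eventually_nhds (eventually_lt_nhds hε)
  filter_upwards [h2] with r hr u hu v hv
  refine h1 (u, v) ?_
  rw [← ball_prod_same]
  exact ⟨Metric.ball_subset_ball hr.le hu, Metric.ball_subset_ball hr.le hv⟩

/-- one pair of centres -/
theorem pairs_near (c c' : ℂ) (hpl : sin (c + c') ≠ 0) (hp3 : fe (c + c') ≠ 0) (hm3 : fe (c - c') ≠ 0)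
    (hd : Dn (c - c') ≠ 0) :
    ∀ᶠ r in 𝓝[>] (0 : ℝ), ∀ u ∈ Metric.ball c r, ∀ v ∈ Metric.ball c' r,
      sin (u + v) ≠ 0 ∧ fe (u + v) ≠ 0 ∧ fe (u - v) ≠ 0 ∧ Dn (u - v) ≠ 0 := by
  have h1 := near2 (Φ := fun u v => sin (u + v)) (by fun_prop) hpl
  have h2 := near2 (Φ := fun u v => fe (u + v)) (by unfold fe; fun_prop) hp3
  have h3 := near2 (Φ := fun u v => fe (u - v)) (by unfold fe; fun_prop) hm3
  have h4 := near2 (Φ := fun u v => Dn (u - v)) (by unfold Dn; fun_prop) hd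
  filter_upwards [h1, h2, h3, h4] with r g1 g2 g3 g4 u hu v hv
  exact ⟨g1 u hu v hv, g2 u hu v hv, g3 u hu v hv, g4 u hu v hv⟩

theorem sin_sub_ne_near (c : ℂ) : ∀ᶠ r in 𝓝[>] (0 : ℝ), ∀ u ∈ Metric.ball c r, ∀ v ∈ Metric.ball c r,
    u ≠ v → sin (u - v) ≠ 0 := by
  have h2 : ∀ᶠ r in 𝓝[>] (0 : ℝ), r < 1 := eventually_nhdsWithin_of_eventually_nhds (eventually_lt_nhds one_pos)
  filter_upwards [h2] with r hr u hu v hv huv h0
  rw [Complex.sin_eq_zero_iff] at h0
  obtain ⟨k, hk⟩ := h0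
  have h3 : ‖u - v‖ < 2 := by
    have h4 : dist u v ≤ dist u c + dist c v := dist_triangle _ _ _
    rw [Metric.mem_ball] at hu hv
    rw [dist_comm c v, dist_eq_norm] at h4
    linarith
  rw [hk, norm_mul, Complex.norm_real, Complex.norm_intCast, Real.norm_eq_abs, abs_of_pos Real.pi_pos] at h3
  have hpi := Real.pi_gt_three
  by_cases hk0 : k = 0
  · rw [hk0] at hk
    apply huv
    have : u - v = 0 := by rw [hk]; push_cast; ring
    exact sub_eq_zero.mp this
  · have h5 : (1 : ℝ) ≤ |(k : ℝ)| := by exact_mod_cast Int.one_le_abs hk0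
    nlinarith

theorem single_near (c : ℂ) (ha : fa c ≠ 0) (ha' : fa' c ≠ 0) (hD : Dn c ≠ 0) (hb : ‖fa c‖ < ‖fb c‖) :
    ∀ᶠ r in 𝓝[>] (0 : ℝ), ∀ u ∈ Metric.ball c r,
      fa u ≠ 0 ∧ fa' u ≠ 0 ∧ Dn u ≠ 0 ∧ ‖fa u‖ < ‖fb u‖ := by
  have h1 : ∀ᶠ u in 𝓝 c, fa u ≠ 0 := ContinuousAt.eventually_ne (by unfold fa; fun_prop) ha
  have h2 : ∀ᶠ u in 𝓝 c, fa' u ≠ 0 := ContinuousAt.eventually_ne (by unfold fa'; fun_prop) ha'
  have h3 : ∀ᶠ u in 𝓝 c, Dn u ≠ 0 := ContinuousAt.eventually_ne (by unfold Dn; fun_prop) hD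
  have h4 : ∀ᶠ u in 𝓝 c, ‖fa u‖ < ‖fb u‖ := by
    have c1 : Continuous (fun u => ‖fa u‖) := by unfold fa; fun_prop
    have c2 : Continuous (fun u => ‖fb u‖) := by unfold fb; fun_prop
    exact (c1.continuousAt.eventually_lt c2.continuousAt hb)
  have h5 := h1.and (h2.and (h3.and h4))
  rw [Metric.eventually_nhds_iff_ball] at h5
  obtain ⟨ε, hε, h5⟩ := h5
  have h6 : ∀ᶠ r in 𝓝[>] (0 : ℝ), r < ε := eventually_nhdsWithin_of_eventually_nhds (eventually_lt_nhds hε)
  filter_upwards [h6] with r hr u hu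
  exact h5 u (Metric.ball_subset_ball hr.le hu)

theorem norm_sin_k (k : ℕ) (h1 : 0 < k) (h2 : k < 8) :
    ‖sin ((k : ℂ) * lam)‖ = Real.sin (k * (Real.pi / 8)) := by
  rw [lam_re, show (k : ℂ) * ((Real.pi / 8 : ℝ) : ℂ) = ((k * (Real.pi / 8) : ℝ) : ℂ) by push_cast; ring,
    ← Complex.ofReal_sin, Complex.norm_real, Real.norm_eq_abs, abs_of_nonneg]
  have hpi := Real.pi_pos
  apply Real.sin_nonneg_of_nonneg_of_le_pi
  · positivity
  · have h3 : (k : ℝ) ≤ 7 := by exact_mod_cast Nat.le_of_lt_succ h2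
    nlinarith

/-- **The good set**: the union of two balls around `l` and `2 l`. -/
theorem exists_GS : ∃ r : ℝ, 0 < r ∧ GS (Metric.ball lam r ∪ Metric.ball (2 * lam) r) ∧
    ∀ u ∈ Metric.ball lam r, ∀ v ∈ Metric.ball lam r, fa' (u + v) ≠ 0 := by
  have k1 := sin_k_ne (k := 1) (by norm_num) (by norm_num)
  have k2 := sin_k_ne (k := 2) (by norm_num) (by norm_num)
  have k3 := sin_k_ne (k := 3) (by norm_num) (by norm_num)
  have k4 := sin_k_ne (k := 4) (by norm_num) (by norm_num)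
  have k5 := sin_k_ne (k := 5) (by norm_num) (by norm_num)
  have k6 := sin_k_ne (k := 6) (by norm_num) (by norm_num)
  have k7 := sin_k_ne (k := 7) (by norm_num) (by norm_num)
  push_cast at k1 k2 k3 k4 k5 k6 k7
  rw [one_mul] at k1
  have f0 : fe 0 ≠ 0 := by unfold fe; rw [add_zero]; exact k3
  have D0 : Dn 0 ≠ 0 := by rw [Dn_0]; exact mul_ne_zero k2 k3
  have p11 := pairs_near lam lam
    (by rw [show lam + lam = 2 * lam by ring]; exact k2)
    (by unfold fe; rw [show 3 * lam + (lam + lam) = 5 * lam by ring]; exact k5)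
    (by rw [sub_self]; exact f0) (by rw [sub_self]; exact D0)
  have p22 := pairs_near (2 * lam) (2 * lam)
    (by rw [show 2 * lam + 2 * lam = 4 * lam by ring]; exact k4)
    (by unfold fe; rw [show 3 * lam + (2 * lam + 2 * lam) = 7 * lam by ring]; exact k7)
    (by rw [sub_self]; exact f0) (by rw [sub_self]; exact D0)
  have p12 := pairs_near lam (2 * lam)
    (by rw [show lam + 2 * lam = 3 * lam by ring]; exact k3)
    (by unfold fe; rw [show 3 * lam + (lam + 2 * lam) = 6 * lam by ring]; exact k6)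
    (by unfold fe; rw [show 3 * lam + (lam - 2 * lam) = 2 * lam by ring]; exact k2)
    (by
      rw [Dn_eq]
      unfold fb fe
      rw [show 2 * lam + (lam - 2 * lam) = lam by ring, show 3 * lam + (lam - 2 * lam) = 2 * lam by ring]
      exact mul_ne_zero k1 k2)
  have p21 := pairs_near (2 * lam) lam
    (by rw [show 2 * lam + lam = 3 * lam by ring]; exact k3)
    (by unfold fe; rw [show 3 * lam + (2 * lam + lam) = 6 * lam by ring]; exact k6)
    (by unfold fe; rw [show 3 * lam + (2 * lam - lam) = 4 * lam by ring]; exact k4)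
    (by
      rw [Dn_eq]
      unfold fb fe
      rw [show 2 * lam + (2 * lam - lam) = 3 * lam by ring,
        show 3 * lam + (2 * lam - lam) = 4 * lam by ring]
      exact mul_ne_zero k3 k4)
  have s1 := sin_sub_ne_near lam
  have s2' := sin_sub_ne_near (2 * lam)
  have s12 := near2 (Φ := fun u v => sin (u - v)) (c := lam) (c' := 2 * lam) (by fun_prop)
    (by rw [show lam - 2 * lam = -lam by ring, Complex.sin_neg]; exact neg_ne_zero.mpr k1)
  have s21 := near2 (Φ := fun u v => sin (u - v)) (c := 2 * lam) (c' := lam) (by fun_prop)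
    (by rw [show 2 * lam - lam = lam by ring]; exact k1)
  have n1 := single_near lam k1
    (by unfold fa'; rw [show 3 * lam - lam = 2 * lam by ring]; exact k2)
    (by
      rw [Dn_eq]
      unfold fb fe
      rw [show 2 * lam + lam = 3 * lam by ring, show 3 * lam + lam = 4 * lam by ring]
      exact mul_ne_zero k3 k4)
    (by
      have h1 := norm_sin_k 1 (by norm_num) (by norm_num)
      have h3 := norm_sin_k 3 (by norm_num) (by norm_num)
      push_cast at h1 h3
      rw [one_mul] at h1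
      unfold fa fb
      rw [show 2 * lam + lam = 3 * lam by ring, h1, h3]
      have hpi := Real.pi_pos
      apply Real.sin_lt_sin_of_lt_of_le_pi_div_two <;> linarith)
  have n2 := single_near (2 * lam) k2
    (by unfold fa'; rw [show 3 * lam - 2 * lam = lam by ring]; exact k1)
    (by
      rw [Dn_eq]
      unfold fb fe
      rw [show 2 * lam + 2 * lam = 4 * lam by ring, show 3 * lam + 2 * lam = 5 * lam by ring]
      exact mul_ne_zero k4 k5)
    (by
      have h1 := norm_sin_k 2 (by norm_num) (by norm_num)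
      have h3 := norm_sin_k 4 (by norm_num) (by norm_num)
      push_cast at h1 h3
      unfold fa fb
      rw [show 2 * lam + 2 * lam = 4 * lam by ring, h1, h3]
      have hpi := Real.pi_pos
      apply Real.sin_lt_sin_of_lt_of_le_pi_div_two <;> linarith)
  have q11 := near2 (Φ := fun u v => fa' (u + v)) (c := lam) (c' := lam) (by unfold fa'; fun_prop)
    (by unfold fa'; rw [show 3 * lam - (lam + lam) = lam by ring]; exact k1)
  have hpos : ∀ᶠ r in 𝓝[>] (0 : ℝ), 0 < r := eventually_mem_nhdsWithin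
  obtain ⟨r, hr, p11, p22, p12, p21, s1, s2', s12, s21, n1, n2, q11⟩ :=
    (hpos.and (p11.and (p22.and (p12.and (p21.and (s1.and (s2'.and (s12.and (s21.and
      (n1.and (n2.and q11))))))))))).exists
  refine ⟨r, hr, ?_, q11⟩
  have P : ∀ u ∈ Metric.ball lam r ∪ Metric.ball (2 * lam) r,
      ∀ v ∈ Metric.ball lam r ∪ Metric.ball (2 * lam) r,
      sin (u + v) ≠ 0 ∧ fe (u + v) ≠ 0 ∧ fe (u - v) ≠ 0 ∧ Dn (u - v) ≠ 0 := by
    rintro u (hu | hu) v (hv | hv)
    · exact p11 u hu v hv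
    · exact p12 u hu v hv
    · exact p21 u hu v hv
    · exact p22 u hu v hv
  have N : ∀ u ∈ Metric.ball lam r ∪ Metric.ball (2 * lam) r,
      fa u ≠ 0 ∧ fa' u ≠ 0 ∧ Dn u ≠ 0 ∧ ‖fa u‖ < ‖fb u‖ := by
    rintro u (hu | hu)
    · exact n1 u hu
    · exact n2 u hu
  refine ⟨fun u hu => (N u hu).1, fun u hu => (N u hu).2.1, fun u hu => (N u hu).2.2.1, ?_,
    fun u hu v hv => (P u hu v hv).2.2.2, fun u hu v hv => (P u hu v hv).1,
    fun u hu v hv => (P u hu v hv).2.1, fun u hu v hv => (P u hu v hv).2.2.1,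
    fun u hu => (N u hu).2.2.2⟩
  rintro u (hu | hu) v (hv | hv) huv
  · exact s1 u hu v hv huv
  · exact s12 u hu v hv
  · exact s21 u hu v hv
  · exact s2' u hu v hv huv

end Pool.Agent.NUF.Fr
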