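import Pool.Agent.NUF.RecA

/-!
# NUF/StarA (helper15): the insertion of one more line, (*') of proof/DEGREE_h15
-/

set_option autoImplicit false

namespace Pool.Agent.NUF.Fr

open Complex Finset EXL.Fm

/-- `2 (a_u a'_u + a_x e_x)` -/
noncomputable def dl (u x : ℂ) : ℂ := 2 * (fa u * fa' u + fa x * fe x)

theorem star1 {x y : ℂ} (hx : Dn x ≠ 0) (hy : Dn y ≠ 0) :
    fe x * ru2 x + fa y * (ru1 y * rw1 x) = s2 ^ 2 * s3 / (2 * Dn y * Dn x) * dl y x := by
  have h1 := Dn_pos y
  have h2 := Dn_neg x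
  unfold ru2 ru1 rw1 dl
  field_simp
  linear_combination (s2 * fa x * fe x) * h1 + (s2 * fa y * fa' y) * h2

theorem star2 {x y : ℂ} (hx : Dn x ≠ 0) (hy : Dn y ≠ 0) :
    fe x * (ru2 y * rv x) + fa y * (rv y * ru1 x) = ru2 y * (fa' x / (2 * Dn x)) * dl y x := by
  unfold ru2 ru1 rv dl
  field_simp
  ring

theorem star3 {x y : ℂ} (hx : Dn x ≠ 0) (hy : Dn y ≠ 0) :
    fe x * (ru2 y * ru1 x) + fa y * (rv y * rv x) - fa y = - (ru2 y * (s3 / (2 * Dn x)) * dl y x) := by
  have h1 := Dn_pos y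
  have h2 := Dn_pos x
  have h3 := trig3 x
  have h4 := trig2 x
  unfold ru2 ru1 rv dl
  field_simp
  linear_combination (- fa y * Dn x) * h1 - (fa y * (s2 * s3 + fa y * fa' y)) * h2 + fa y * s2 ^ 2 * h3 -
    fa y * s2 * fa x * h4

section main

variable {ι : Type*} [DecidableEq ι] {V : Type*} [AddCommGroup V] [Module ℂ V] {z : ι → ℂ}

/-- the product of the `dl` -/
noncomputable def Dl (z : ι → ℂ) (u : ℂ) (X : Finset ι) : ℂ := ∏ k ∈ X, dl u (z k)

theorem Dl_erase (z : ι → ℂ) (u : ℂ) {X : Finset ι} {i : ι} (hi : i ∈ X) :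
    Dl z u X = dl u (z i) * Dl z u (X.erase i) := by
  unfold Dl
  exact (Finset.mul_prod_erase X _ hi).symm

variable (A : Frame ι V z) (Ph : Finset ι → V)

/-- One more line below the rows `X`, with an arbitrary rapidity `u`. -/
structure FarAt (u : ℂ) (X : Finset ι) where
  W0 : Submodule ℂ V
  TT : V →ₗ[ℂ] V
  Ep : V →ₗ[ℂ] V
  Bp : V →ₗ[ℂ] V
  mE : ∀ {v}, v ∈ A.V0 X → Ep v ∈ W0
  mB : ∀ {v}, v ∈ A.V1 X → Bp v ∈ W0
  c1 : ∀ {v}, v ∈ A.V0 X → Dn u ≠ 0 → TT (Ep v) = Ep (A.T0 X v) + ru2 u • Bp (A.T1 X v)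
  c4 : ∀ {i v}, i ∈ X → v ∈ A.V0 (X.erase i) → Dn u ≠ 0 → Dn (z i) ≠ 0 →
    TT (Bp (A.F i (X.erase i) v)) = rv u • Bp (A.T0 X (A.F i (X.erase i) v)) +
      (ru1 u * rw1 (z i)) • Ep (A.B i (X.erase i) (A.T1 (X.erase i) v))

variable {A}

/-- a line of the frame -/
def own (A : Frame ι V z) {p : ι} {X : Finset ι} (hp : p ∉ X) : FarAt A (z p) X where
  W0 := A.V0 (insert p X)
  TT := A.T0 (insert p X)
  Ep := A.E p X
  Bp := A.B p X
  mE := fun h => A.mE0 hp h
  mB := fun h => A.mB hp h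
  c1 := fun h hD => A.c1 hp h hD
  c4 := by
    intro i v hi hv hD hDi
    have hp' : p ∉ insert i (X.erase i) := by rwa [Finset.insert_erase hi]
    have c4 := A.c4 (Finset.notMem_erase i X) hp' hv hDi hD
    rwa [Finset.insert_erase hi] at c4

/-- the right side of (*') -/
noncomputable def SF {u : ℂ} {X : Finset ι} (L : FarAt A u X) : V :=
  Dl z u X • L.Ep (Ph X) + ∑ i ∈ X, (wt z i (X.erase i) * Dl z u (X.erase i)) •
    (fe (z i) • L.Ep (A.E i (X.erase i) (Ph (X.erase i))) +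
      fa u • L.Bp (A.F i (X.erase i) (Ph (X.erase i))))

variable {Ph}

theorem SF_mem {u : ℂ} {X : Finset ι} (L : FarAt A u X) (h : Ph X ∈ A.V0 X)
    (h' : ∀ i ∈ X, Ph (X.erase i) ∈ A.V0 (X.erase i)) : SF Ph L ∈ L.W0 := by
  unfold SF
  apply Submodule.add_mem
  · exact Submodule.smul_mem _ _ (L.mE h)
  · apply Submodule.sum_mem
    intro i hi
    apply Submodule.smul_mem
    have h1 := A.mE0 (Finset.notMem_erase i X) (h' i hi)
    have h2 := A.mF (Finset.notMem_erase i X) (h' i hi)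
    rw [Finset.insert_erase hi] at h1 h2
    apply Submodule.add_mem
    · exact Submodule.smul_mem _ _ (L.mE h1)
    · exact Submodule.smul_mem _ _ (L.mB h2)

/-- **The right side of (*') is a fixed vector of the column, for every rapidity `u` of the new line.** -/
theorem TT_SF (hz : Reg z) {u : ℂ} (hDp : Dn u ≠ 0) {X : Finset ι} (L : FarAt A u X) (h : Four A Ph X)
    (h' : ∀ i ∈ X, Four A Ph (X.erase i)) : L.TT (SF Ph L) = SF Ph L := by
  have key : L.TT (SF Ph L) = SF Ph L +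
      ((Dl z u X * ru2 u) • L.Bp (fv A Ph X) -
        (Dl z u X * ru2 u) • L.Bp ((1 / 2 : ℂ) • ∑ i ∈ X,
          (wt z i (X.erase i) / Dn (z i)) • (s3 • A.F i (X.erase i) (Ph (X.erase i)) -
            fa' (z i) • A.E i (X.erase i) (fv A Ph (X.erase i))))) +
      (Dl z u X * (s2 ^ 2 * s3 / (2 * Dn u))) • L.Ep (∑ i ∈ X,
        (wt z i (X.erase i) / Dn (z i)) • A.B i (X.erase i) (fv A Ph (X.erase i))) := by
    unfold SF
    rw [map_add, map_sum, map_smul, L.c1 h.m hDp, h.T]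
    have e1 : ∀ i ∈ X, L.TT ((wt z i (X.erase i) * Dl z u (X.erase i)) •
        (fe (z i) • L.Ep (A.E i (X.erase i) (Ph (X.erase i))) +
          fa u • L.Bp (A.F i (X.erase i) (Ph (X.erase i))))) =
        (wt z i (X.erase i) * Dl z u (X.erase i)) •
        (fe (z i) • L.Ep (A.E i (X.erase i) (Ph (X.erase i))) +
          fa u • L.Bp (A.F i (X.erase i) (Ph (X.erase i)))) -
        (Dl z u X * ru2 u) • L.Bp ((1 / 2 : ℂ) •
          (wt z i (X.erase i) / Dn (z i)) • (s3 • A.F i (X.erase i) (Ph (X.erase i)) -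
            fa' (z i) • A.E i (X.erase i) (fv A Ph (X.erase i)))) +
        (Dl z u X * (s2 ^ 2 * s3 / (2 * Dn u))) • L.Ep
          ((wt z i (X.erase i) / Dn (z i)) • A.B i (X.erase i) (fv A Ph (X.erase i))) := by
      intro i hi
      have hi' := Finset.notMem_erase i X
      have hm := (h' i hi).m
      have hDi := hz.D i
      have m1 := A.mE0 hi' hm
      have c1 := A.c1 hi' hm hDi
      have c2 := A.c2 hi' hm hDi
      have c3 := A.c3' hi' hm hDi
      rw [Finset.insert_erase hi] at m1 c1 c2 c3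
      have c4 := L.c4 hi hm hDp hDi
      have d1 := L.c1 m1 hDp
      rw [c1, c3] at d1
      rw [c2] at c4
      rw [(h' i hi).T] at c4 d1
      rw [map_smul, map_add, map_smul, map_smul, d1, c4, Dl_erase z u hi]
      have k1 := star1 hDi hDp
      have k2 := star2 hDi hDp
      have k3 := star3 hDi hDp
      unfold fv
      simp only [map_add, map_smul, map_sub]
      match_scalars
      · ring
      · linear_combination (wt z i (X.erase i) * Dl z u (X.erase i)) * k1
      · linear_combination (wt z i (X.erase i) * Dl z u (X.erase i)) * k2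
      · linear_combination (wt z i (X.erase i) * Dl z u (X.erase i)) * k3
    rw [Finset.sum_congr rfl e1, Finset.sum_add_distrib, Finset.sum_sub_distrib, map_smul, map_sum,
      map_sum, Finset.smul_sum, Finset.smul_sum, Finset.smul_sum]
    simp only [map_smul, fv]
    module
  rw [key, ← h.R2, h.R1, map_zero, smul_zero, sub_self, add_zero, add_zero]

end main

end Pool.Agent.NUF.Fr
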