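import Pool.Agent.NUF.ScalA

/-!
# NUF/StarB (helper15): the recursion family, its empty component, and (*') for the fixed vectors
-/

set_option autoImplicit false

namespace Pool.Agent.NUF.Fr

open Complex Finset EXL.Fm

section main

variable {ι : Type*} [DecidableEq ι] {V : Type*} [AddCommGroup V] [Module ℂ V] {z : ι → ℂ}

/-- The empty component. -/
structure Emp (A : Frame ι V z) where
  emp : V →ₗ[ℂ] ℂ
  eE : ∀ {i X v}, i ∉ X → v ∈ A.V0 X → emp (A.E i X v) = emp v
  eB : ∀ {i X v}, i ∉ X → v ∈ A.V1 X → emp (A.B i X v) = 0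

variable {A : Frame ι V z} {Ph : Finset ι → V}

/-- the family of the recursion -/
noncomputable def RPh (A : Frame ι V z) (v0 : V) : Finset ι → V :=
  Finset.strongInduction (fun X f =>
    if X = ∅ then v0 else (sg z X)⁻¹ • ∑ i ∈ X.attach, (wt z i.1 (X.erase i.1) / fa (z i.1)) •
      A.E i.1 (X.erase i.1) (f (X.erase i.1) (Finset.erase_ssubset i.2)))

theorem RPh_eq (A : Frame ι V z) (v0 : V) (X : Finset ι) : RPh A v0 X =
    if X = ∅ then v0 else (sg z X)⁻¹ • ∑ i ∈ X, (wt z i (X.erase i) / fa (z i)) •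
      A.E i (X.erase i) (RPh A v0 (X.erase i)) := by
  unfold RPh
  rw [Finset.strongInduction_eq]
  split_ifs with h
  · rfl
  · congr 1
    exact Finset.sum_attach X (fun i => (wt z i (X.erase i) / fa (z i)) •
      A.E i (X.erase i) (Finset.strongInduction (fun X f =>
        if X = ∅ then v0 else (sg z X)⁻¹ • ∑ i ∈ X.attach, (wt z i.1 (X.erase i.1) / fa (z i.1)) •
          A.E i.1 (X.erase i.1) (f (X.erase i.1) (Finset.erase_ssubset i.2))) (X.erase i)))

theorem RPh_empty (A : Frame ι V z) (v0 : V) : RPh A v0 ∅ = v0 := by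
  rw [RPh_eq, if_pos rfl]

/-- the recursion has a solution -/
theorem RPh_rec (hs : ∀ X : Finset ι, X.Nonempty → sg z X ≠ 0) {v0 : V} (m0 : v0 ∈ A.V0 ∅)
    (t0 : A.T0 ∅ v0 = v0) (t1 : A.T1 ∅ v0 = 0) : Rec A (RPh A v0) where
  m0 := by rw [RPh_empty]; exact m0
  t0 := by rw [RPh_empty]; exact t0
  t1 := by rw [RPh_empty]; exact t1
  sg0 := hs
  R0 := by
    intro X
    rcases X.eq_empty_or_nonempty with rfl | hX
    · rw [sg_empty]
      simp
    · rw [RPh_eq, if_neg (Finset.nonempty_iff_ne_empty.mp hX), smul_smul,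
        mul_inv_cancel₀ (hs X hX), one_smul]

/-- the empty component satisfies the scalar recursion -/
theorem emp_rec (hz : Reg z) (h : Rec A Ph) (m : Emp A) (h1 : m.emp (Ph ∅) = 1) :
    QRec z (fun X => m.emp (Ph X)) where
  q0 := h1
  R := by
    intro X
    have h2 := congrArg m.emp (h.R0 X)
    rw [map_smul, map_sum, smul_eq_mul] at h2
    rw [h2]
    apply Finset.sum_congr rfl
    intro i _
    rw [map_smul, smul_eq_mul, m.eE (Finset.notMem_erase i X) (four hz h _).m]

/-- the empty component of the right side of (*') -/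
theorem emp_SF {u : ℂ} {X : Finset ι} (L : FarAt A u X) (m : Emp A) {e : V →ₗ[ℂ] ℂ}
    (eE : ∀ v ∈ A.V0 X, e (L.Ep v) = m.emp v) (eB : ∀ v ∈ A.V1 X, e (L.Bp v) = 0)
    (hz : Reg z) (h : Rec A Ph) : e (SF Ph L) = Nf z (fun X => m.emp (Ph X)) u X := by
  unfold SF Nf
  rw [map_add, map_smul, smul_eq_mul, eE _ (four hz h _).m, map_sum]
  congr 1
  apply Finset.sum_congr rfl
  intro i hi
  have h1 := A.mE0 (Finset.notMem_erase i X) (four hz h (X.erase i)).m
  have h2 := A.mF (Finset.notMem_erase i X) (four hz h (X.erase i)).m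
  rw [Finset.insert_erase hi] at h1 h2
  rw [map_smul, map_add, map_smul, map_smul, eE _ h1, eB _ h2,
    m.eE (Finset.notMem_erase i X) (four hz h _).m]
  simp only [smul_eq_mul]
  ring

/-- **(*')**: the family at `insert p X`, from uniqueness of the fixed vector of the rows `insert p X`. -/
theorem star (hz : Gen z) (h : Rec A Ph) (m : Emp A) (h1 : m.emp (Ph ∅) = 1) {p : ι} {X : Finset ι}
    (hp : p ∉ X)
    (uniq : ∀ v ∈ A.V0 (insert p X), A.T0 (insert p X) v = v → m.emp v = 0 → v = 0) :
    Ph (insert p X) = SF Ph (own A hp) := by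
  have hm : Ph (insert p X) - SF Ph (own A hp) ∈ A.V0 (insert p X) :=
    Submodule.sub_mem _ (four hz.toReg h _).m
      (SF_mem (own A hp) (four hz.toReg h _).m (fun i _ => (four hz.toReg h _).m))
  have hT : A.T0 (insert p X) (Ph (insert p X) - SF Ph (own A hp)) =
      Ph (insert p X) - SF Ph (own A hp) := by
    rw [map_sub, (four hz.toReg h _).T]
    congr 1
    exact TT_SF hz.toReg (hz.D p) (own A hp) (four hz.toReg h _) (fun i _ => four hz.toReg h _)
  have hE : m.emp (Ph (insert p X) - SF Ph (own A hp)) = 0 := by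
    rw [map_sub, emp_SF (own A hp) m (fun v hv => m.eE hp hv) (fun v hv => m.eB hp hv) hz.toReg h,
      sub_eq_zero]
    exact scal hz (emp_rec hz.toReg h m h1) X p hp
  exact sub_eq_zero.mp (uniq _ hm hT hE)

/-- the family in terms of the normalised fixed vector -/
theorem Ph_eq (hz : Reg z) (h : Rec A Ph) (m : Emp A) {X : Finset ι} {w : V}
    (uniq : ∀ v ∈ A.V0 X, A.T0 X v = v → m.emp v = 0 → v = 0)
    (hw : w ∈ A.V0 X) (hT : A.T0 X w = w) (he : m.emp w = 1) : Ph X = m.emp (Ph X) • w := by
  have := uniq (Ph X - m.emp (Ph X) • w) (Submodule.sub_mem _ (four hz h X).m (Submodule.smul_mem _ _ hw))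
    (by rw [map_sub, map_smul, (four hz h X).T, hT]) (by rw [map_sub, map_smul, he, smul_eq_mul]; ring)
  exact sub_eq_zero.mp this

/-! ### The scalars -/

/-- the scalars of the recursion -/
noncomputable def Qs (z : ι → ℂ) : Finset ι → ℂ :=
  Finset.strongInduction (fun X f =>
    if X = ∅ then 1 else (sg z X)⁻¹ * ∑ i ∈ X.attach, wt z i.1 (X.erase i.1) / fa (z i.1) *
      f (X.erase i.1) (Finset.erase_ssubset i.2))

theorem Qs_eq (z : ι → ℂ) (X : Finset ι) : Qs z X =
    if X = ∅ then 1 else (sg z X)⁻¹ * ∑ i ∈ X, wt z i (X.erase i) / fa (z i) * Qs z (X.erase i) := by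
  unfold Qs
  rw [Finset.strongInduction_eq]
  split_ifs with h
  · rfl
  · congr 1
    exact Finset.sum_attach X (fun i => wt z i (X.erase i) / fa (z i) *
      (Finset.strongInduction (fun X f =>
        if X = ∅ then 1 else (sg z X)⁻¹ * ∑ i ∈ X.attach, wt z i.1 (X.erase i.1) / fa (z i.1) *
          f (X.erase i.1) (Finset.erase_ssubset i.2)) (X.erase i)))

theorem Qs_rec (hs : ∀ X : Finset ι, X.Nonempty → sg z X ≠ 0) : QRec z (Qs z) where
  q0 := by rw [Qs_eq, if_pos rfl]
  R := by
    intro X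
    rcases X.eq_empty_or_nonempty with rfl | hX
    · rw [sg_empty]
      simp
    · rw [Qs_eq, if_neg (Finset.nonempty_iff_ne_empty.mp hX), ← mul_assoc,
        mul_inv_cancel₀ (hs X hX), one_mul]

/-- the scalars are unique -/
theorem QRec.eq {Q Q' : Finset ι → ℂ} (hs : ∀ X : Finset ι, X.Nonempty → sg z X ≠ 0) (h : QRec z Q)
    (h' : QRec z Q') (X : Finset ι) : Q X = Q' X := by
  induction X using Finset.strongInduction with
  | H X ih =>
    rcases X.eq_empty_or_nonempty with rfl | hX
    · rw [h.q0, h'.q0]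
    · apply mul_left_cancel₀ (hs X hX)
      rw [h.R, h'.R]
      apply Finset.sum_congr rfl
      intro i hi
      rw [ih _ (Finset.erase_ssubset hi)]

/-- the scalars depend only on the rapidities of the rows -/
theorem Qs_congr {z z' : ι → ℂ} (X : Finset ι) (h : ∀ i ∈ X, z i = z' i) : Qs z X = Qs z' X := by
  induction X using Finset.strongInduction with
  | H X ih =>
    rw [Qs_eq, Qs_eq]
    split_ifs with h0
    · rfl
    · have e1 : sg z X = sg z' X := by
        unfold sg Pe
        rw [Finset.prod_congr rfl (fun k hk => by rw [h k hk])]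
      rw [e1]
      congr 1
      apply Finset.sum_congr rfl
      intro i hi
      have e2 : wt z i (X.erase i) = wt z' i (X.erase i) := by
        unfold wt
        rw [h i hi, Finset.prod_congr rfl (fun k hk => by rw [h k (Finset.mem_of_mem_erase hk)])]
      rw [e2, h i hi, ih _ (Finset.erase_ssubset hi) (fun j hj => h j (Finset.mem_of_mem_erase hj))]

end main

end Pool.Agent.NUF.Fr
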