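import Pool.Agent.NUF.LGen
import Pool.Agent.EXL.Comm

/-!
# Identities for unlabelled states hold for labelled states

`Wd K α` = formal combinations of words in the elementary operators.  If two words act in the same way on
functions of unlabelled states (closed loops have weight 0), with the sites embedded in a set of twice
the size, they act in the same way on functions of labelled states, for every even loop weight `ν` with
`ν 0 = 0`.  Proof: cut all arcs open and glue them outside.
-/

set_option autoImplicit false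

namespace Pool.Agent.NUF

open LPat

/-- The elementary operators, as letters. -/
inductive Gen (α : Type*) : Type _
  | e : α → Gen α
  | sw : α → α → Gen α
  | cu : α → α → Gen α
  | ct : α → α → Gen α

/-- Formal combinations of words in the elementary operators. -/
abbrev Wd (K α : Type*) [CommRing K] := FreeAlgebra K (Gen α)

section rep

variable {Γ α β K : Type*} [AddCommGroup Γ] [DecidableEq α] [DecidableEq β] [CommRing K]

/-- The action on functions of unlabelled states. -/
noncomputable def rep0 (K : Type*) [CommRing K] (φ : α → β) : Wd K α →ₐ[K] Module.End K (EXL.Pat β → K) :=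
  FreeAlgebra.lift K fun g => match g with
    | .e i => EXL.opE K (φ i)
    | .sw i j => EXL.opSw K (φ i) (φ j)
    | .cu i j => EXL.opCu K (φ i) (φ j)
    | .ct i j => EXL.opCt K (φ i) (φ j)

/-- The action on functions of labelled states. -/
noncomputable def repL (ν : Γ → K) (φ : α → β) : Wd K α →ₐ[K] Module.End K (LPat Γ β → K) :=
  FreeAlgebra.lift K fun g => match g with
    | .e i => lE Γ K (φ i)
    | .sw i j => lSw Γ K (φ i) (φ j)
    | .cu i j => lCu Γ K (φ i) (φ j)
    | .ct i j => lCt ν (φ i) (φ j)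

omit [DecidableEq α] in
theorem Wd.ind {C : Wd K α → Prop} (h0 : ∀ r, C (algebraMap K _ r)) (h1 : ∀ g, C (FreeAlgebra.ι K g))
    (h2 : ∀ a b, C a → C b → C (a * b)) (h3 : ∀ a b, C a → C b → C (a + b)) (a : Wd K α) : C a :=
  FreeAlgebra.induction K (Gen α) h0 h1 h2 h3 a

variable {ν : Γ → K}

/-- The words commute with the twists and the joinings outside. -/
theorem repL_comm_tw (φ : α → β) (k : β) (g : Γ) (hk : ∀ x, k ≠ φ x) (w : Wd K α) :
    Commute (repL ν φ w) (lTw K k g) := by
  induction w using Wd.ind with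
  | h0 r => rw [AlgHom.commutes]; exact Algebra.commutes r _
  | h1 a =>
    rw [repL, FreeAlgebra.lift_ι_apply]
    cases a with
    | e i => exact comm_E_Tw g _ _
    | sw i j => exact comm_Sw_Tw g (hk i) (hk j)
    | cu i j => exact comm_Cu_Tw g (hk i) (hk j)
    | ct i j => exact comm_Ct_Tw g (hk i) (hk j)
  | h2 a b ha hb => rw [map_mul]; exact ha.mul_left hb
  | h3 a b ha hb => rw [map_add]; exact ha.add_left hb

theorem repL_comm_ct (hν : ∀ g, ν (-g) = ν g) (φ : α → β) (k l : β) (hk : ∀ x, k ≠ φ x)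
    (hl : ∀ x, l ≠ φ x) (w : Wd K α) : Commute (repL ν φ w) (lCt ν k l) := by
  induction w using Wd.ind with
  | h0 r => rw [AlgHom.commutes]; exact Algebra.commutes r _
  | h1 a =>
    rw [repL, FreeAlgebra.lift_ι_apply]
    cases a with
    | e i => exact comm_E_Ct (hk i).symm (hl i).symm
    | sw i j => exact comm_Sw_Ct (hk i) (hk j) (hl i) (hl j)
    | cu i j => exact comm_Cu_Ct (hk i) (hk j) (hl i) (hl j)
    | ct i j => exact comm_Ct_Ct hν (hk i) (hk j) (hl i) (hl j)
  | h2 a b ha hb => rw [map_mul]; exact ha.mul_left hb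
  | h3 a b ha hb => rw [map_add]; exact ha.add_left hb

/-! ### Restriction to a closed set of sites -/

/-- On the image of `φ` the state `Q` is `p`. -/
def Res (φ : α → β) (Q : LPat Γ β) (p : LPat Γ α) : Prop :=
  (∀ x, Q (φ x) = φ (p x)) ∧ ∀ x, Q.s (φ x) = p.s x

section res

variable {φ : α → β} (hφ : Function.Injective φ) {Q : LPat Γ β} {p : LPat Γ α}

omit [DecidableEq α] [DecidableEq β] in
include hφ in
theorem Res.unique {p' : LPat Γ α} (h : Res φ Q p) (h' : Res φ Q p') : p = p' := by
  ext x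
  · exact hφ ((h.1 x).symm.trans (h'.1 x))
  · exact (h.2 x).symm.trans (h'.2 x)

include hφ in
theorem swap_map (i j x : α) : Equiv.swap (φ i) (φ j) (φ x) = φ (Equiv.swap i j x) := by
  simp only [Equiv.swap_apply_def, hφ.eq_iff]
  split_ifs <;> rfl

include hφ in
theorem Res.swap (i j : α) (h : Res φ Q p) : Res φ (swap (φ i) (φ j) Q) (swap i j p) := by
  constructor
  · intro x
    rw [swap_f, swap_f, swap_map hφ, h.1, swap_map hφ]
  · intro x
    rw [swap_s, swap_s, swap_map hφ, h.2]

include hφ in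
theorem Res.cuOK (i j : α) (h : Res φ Q p) : CuOK (φ i) (φ j) Q ↔ CuOK i j p := by
  simp only [CuOK, h.1, hφ.eq_iff]

include hφ in
theorem Res.ocOK (i j : α) (h : Res φ Q p) : OcOK (φ i) (φ j) Q ↔ OcOK i j p := by
  simp only [OcOK, ne_eq, h.1, hφ.eq_iff]

include hφ in
theorem Res.cup (i j : α) (h : Res φ Q p) (hc : CuOK i j p) :
    Res φ (cup (φ i) (φ j) Q) (cup i j p) := by
  constructor
  · intro x
    rw [cup_f ((h.cuOK hφ i j).2 hc), cup_f hc]
    simp only [hφ.eq_iff, h.1]
    split_ifs <;> rfl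
  · intro x
    rw [cup_s, cup_s, h.2]

include hφ in
theorem Res.jo (i j : α) (h : Res φ Q p) (hc : OcOK i j p) : Res φ (jo (φ i) (φ j) Q) (jo i j p) := by
  by_cases a : p i = j
  · have a' : Q (φ i) = φ j := by rw [h.1, a]
    rw [jo_pos _ a, jo_pos _ a']
    constructor
    · intro x
      rw [rem_f a, rem_f a']
      simp only [hφ.eq_iff, h.1]
      split_ifs <;> rfl
    · intro x
      rw [rem_s a, rem_s a']
      simp only [hφ.eq_iff, h.2]
  · have a' : Q (φ i) ≠ φ j := by rw [h.1]; exact fun hh => a (hφ hh)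
    have c : CtOK i j p := ⟨hc.1, hc.2.1, hc.2.2, a⟩
    have c' : CtOK (φ i) (φ j) Q := by
      obtain ⟨q1, q2, q3⟩ := (h.ocOK hφ i j).2 hc
      exact ⟨q1, q2, q3, a'⟩
    rw [jo_neg _ a, jo_neg _ a']
    constructor
    · intro x
      rw [cut_f c, cut_f c']
      simp only [hφ.eq_iff, h.1]
      split_ifs <;> rfl
    · intro x
      rw [cut_s c, cut_s c']
      simp only [hφ.eq_iff, h.1, h.2]

include hφ in
theorem Res.lw (ν : Γ → K) (i j : α) (h : Res φ Q p) : lw ν (φ i) (φ j) Q = lw ν i j p := by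
  by_cases a : p i = j
  · have a' : Q (φ i) = φ j := by rw [h.1, a]
    rw [lw_pos _ ν a, lw_pos _ ν a', h.2]
  · have a' : Q (φ i) ≠ φ j := by rw [h.1]; exact fun hh => a (hφ hh)
    rw [lw_neg _ ν a, lw_neg _ ν a']

/-- `G` is the function `H` of the restriction. -/
def RelR (φ : α → β) (G : LPat Γ β → K) (H : LPat Γ α → K) : Prop := ∀ Q p, Res φ Q p → G Q = H p

include hφ in
theorem RelR.rep (w : Wd K α) : ∀ {G : LPat Γ β → K} {H : LPat Γ α → K}, RelR φ G H →
    RelR φ (repL ν φ w G) (repL ν id w H) := by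
  induction w using Wd.ind with
  | h0 r =>
    intro G H h Q p hQ
    rw [AlgHom.commutes, AlgHom.commutes]
    simp only [Module.algebraMap_end_apply, Pi.smul_apply, h Q p hQ]
  | h1 a =>
    intro G H h Q p hQ
    rw [repL, repL, FreeAlgebra.lift_ι_apply, FreeAlgebra.lift_ι_apply]
    cases a with
    | e i =>
      simp only [lE_apply, id]
      by_cases hp : p i = i
      · rw [if_pos hp, if_pos (by rw [hQ.1, hp]), h Q p hQ]
      · rw [if_neg hp, if_neg (by rw [hQ.1]; exact fun hh => hp (hφ hh))]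
    | sw i j => exact h _ _ (hQ.swap hφ i j)
    | cu i j =>
      simp only [lCu_apply, id]
      by_cases hp : CuOK i j p
      · rw [if_pos hp, if_pos ((hQ.cuOK hφ i j).2 hp), h _ _ (hQ.cup hφ i j hp)]
      · rw [if_neg hp, if_neg (fun hh => hp ((hQ.cuOK hφ i j).1 hh))]
    | ct i j =>
      simp only [lCt_apply, id]
      by_cases hp : OcOK i j p
      · rw [if_pos hp, if_pos ((hQ.ocOK hφ i j).2 hp), h _ _ (hQ.jo hφ i j hp), hQ.lw hφ ν i j]
      · rw [if_neg hp, if_neg (fun hh => hp ((hQ.ocOK hφ i j).1 hh))]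
  | h2 a b ha hb =>
    intro G H h
    rw [map_mul, map_mul]
    exact ha (hb h)
  | h3 a b ha hb =>
    intro G H h Q p hQ
    rw [map_add, map_add, LinearMap.add_apply, LinearMap.add_apply, Pi.add_apply, Pi.add_apply,
      ha h Q p hQ, hb h Q p hQ]

end res

/-! ### States with all labels 0 -/

/-- The state with all labels 0. -/
def ofP (Γ : Type*) [AddCommGroup Γ] (q : EXL.Pat β) : LPat Γ β where
  f := q.f
  s _ := 0
  inv := q.inv
  anti _ := by simp
  fix _ _ := rfl

omit [DecidableEq β] in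
theorem ofP_f (q : EXL.Pat β) (x : β) : ofP Γ q x = q x := rfl

omit [DecidableEq β] in
theorem ofP_s (q : EXL.Pat β) (x : β) : (ofP Γ q).s x = 0 := rfl

theorem ofP_swap (i j : β) (q : EXL.Pat β) : swap i j (ofP Γ q) = ofP Γ (EXL.Pat.swap i j q) := by
  ext x
  · rfl
  · rfl

theorem ofP_cup (i j : β) (q : EXL.Pat β) : cup i j (ofP Γ q) = ofP Γ (EXL.Pat.cup i j q) := by
  ext x
  · rfl
  · rfl

theorem ofP_cut (i j : β) (q : EXL.Pat β) : cut i j (ofP Γ q) = ofP Γ (EXL.Pat.cut i j q) := by
  ext x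
  · rfl
  · simp only [cut, ofP_s]
    split_ifs <;> simp

/-- `H` is the function `G` at the states with all labels 0. -/
def Rel0 (G : LPat Γ β → K) (H : EXL.Pat β → K) : Prop := ∀ q, G (ofP Γ q) = H q

theorem Rel0.rep (h0 : ν 0 = 0) (φ : α → β) (w : Wd K α) : ∀ {G : LPat Γ β → K} {H : EXL.Pat β → K},
    Rel0 G H → Rel0 (repL ν φ w G) (rep0 K φ w H) := by
  induction w using Wd.ind with
  | h0 r =>
    intro G H h q
    rw [AlgHom.commutes, AlgHom.commutes]
    simp only [Module.algebraMap_end_apply, Pi.smul_apply, h q]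
  | h1 a =>
    intro G H h q
    rw [repL, rep0, FreeAlgebra.lift_ι_apply, FreeAlgebra.lift_ι_apply]
    cases a with
    | e i =>
      simp only [lE_apply, EXL.opE_apply]
      by_cases hp : q (φ i) = φ i
      · rw [if_pos hp, if_pos (by rw [ofP_f, hp]), h q]
      · rw [if_neg hp, if_neg (by rw [ofP_f]; exact hp)]
    | sw i j =>
      simp only [lSw_apply, EXL.opSw_apply]
      rw [ofP_swap, h]
    | cu i j =>
      simp only [lCu_apply, EXL.opCu_apply]
      by_cases hp : EXL.Pat.CuOK (φ i) (φ j) q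
      · rw [if_pos hp, if_pos (show CuOK (φ i) (φ j) (ofP Γ q) from hp), ofP_cup, h]
      · rw [if_neg hp, if_neg (show ¬ CuOK (φ i) (φ j) (ofP Γ q) from hp)]
    | ct i j =>
      simp only [lCt_apply, EXL.opCt_apply]
      by_cases hp : EXL.Pat.CtOK (φ i) (φ j) q
      · have a : ofP Γ q (φ i) ≠ φ j := hp.2.2.2
        rw [if_pos hp, if_pos (show OcOK (φ i) (φ j) (ofP Γ q) from ⟨hp.1, hp.2.1, hp.2.2.1⟩),
          lw_neg _ ν a, jo_neg _ a, ofP_cut, h, one_mul]
      · rw [if_neg hp]
        by_cases hq : OcOK (φ i) (φ j) (ofP Γ q)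
        · have a : ofP Γ q (φ i) = φ j := by
            by_contra hh
            exact hp ⟨hq.1, hq.2.1, hq.2.2, hh⟩
          rw [if_pos hq, lw_pos _ ν a, ofP_s, h0, zero_mul]
        · rw [if_neg hq]
  | h2 a b ha hb =>
    intro G H h
    rw [map_mul, map_mul]
    exact ha (hb h)
  | h3 a b ha hb =>
    intro G H h q
    rw [map_add, map_add, LinearMap.add_apply, LinearMap.add_apply, Pi.add_apply, Pi.add_apply,
      ha h q, hb h q]

end rep

/-! ### The arcs are cut open -/

section opn

variable {Γ α K : Type*} [AddCommGroup Γ] [DecidableEq α] [CommRing K]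

/-- The arcs with ends in `D` are cut open: the new ends are the right copies. -/
def opn (P : LPat Γ α) (D : Finset α) (hD : ∀ x ∈ D, P x ∈ D) : LPat Γ (α ⊕ α) where
  f := Sum.elim (fun x => if x ∈ D ∧ P x ≠ x then Sum.inr x else Sum.inl (P x))
    (fun x => if x ∈ D ∧ P x ≠ x then Sum.inl x else Sum.inr x)
  s := Sum.elim (fun x => if x ∈ D then 0 else P.s x) (fun _ => 0)
  inv y := by
    have inv : ∀ x, P (P x) = x := P.inv
    have hD' : ∀ x, x ∉ D → P x ∉ D := fun x hx h => hx (by rw [← inv x]; exact hD _ h)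
    rcases y with x | x
    · by_cases h : x ∈ D ∧ P x ≠ x
      · simp [h]
      · have h2 : ¬ (P x ∈ D ∧ P (P x) ≠ P x) := by
          rintro ⟨a, b⟩
          apply h
          rw [inv] at b
          exact ⟨by rw [← inv x]; exact hD _ a, b.symm⟩
        simp only [Sum.elim_inl, if_neg h]
        rw [if_neg h2, inv]
    · by_cases h : x ∈ D ∧ P x ≠ x
      · simp [h]
      · simp [h]
  anti y := by
    have inv : ∀ x, P (P x) = x := P.inv
    have hD' : ∀ x, x ∉ D → P x ∉ D := fun x hx h => hx (by rw [← inv x]; exact hD _ h)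
    rcases y with x | x
    · by_cases h : x ∈ D ∧ P x ≠ x
      · simp [h]
      · by_cases hx : x ∈ D
        · have : P x = x := by
            by_contra hh
            exact h ⟨hx, hh⟩
          simp [hx, this]
        · simp [hx, hD' x hx, P.anti]
    · by_cases h : x ∈ D ∧ P x ≠ x
      · simp [h]
      · simp [h]
  fix y hy := by
    rcases y with x | x
    · by_cases h : x ∈ D ∧ P x ≠ x
      · simp [h]
      · by_cases hx : x ∈ D
        · simp [hx]
        · simp only [Sum.elim_inl, hx, false_and, if_false, Sum.inl.injEq] at hy ⊢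
          exact P.fix x hy
    · rfl

variable (P : LPat Γ α)

theorem opn_res (D : Finset α) (hD : ∀ x ∈ D, P x ∈ D) (h : ∀ x ∈ D, P x = x) :
    Res (Sum.inl : α → α ⊕ α) (opn P D hD) P := by
  constructor
  · intro x
    have : ¬ (x ∈ D ∧ P x ≠ x) := fun hh => hh.2 (h x hh.1)
    show (if x ∈ D ∧ P x ≠ x then Sum.inr x else Sum.inl (P x)) = _
    rw [if_neg this]
  · intro x
    show (if x ∈ D then 0 else P.s x) = _
    split_ifs with hx
    · exact (P.fix x (h x hx)).symm
    · rfl

theorem opn_step (D : Finset α) (hD : ∀ x ∈ D, P x ∈ D) {x : α} (hx : x ∈ D) (hx2 : P x ≠ x)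
    (hD2 : ∀ y ∈ (D.erase x).erase (P x), P y ∈ (D.erase x).erase (P x)) :
    CtOK (Sum.inr x) (Sum.inr (P x)) (opn P D hD) ∧
    cut (Sum.inr x) (Sum.inr (P x)) (tw (Sum.inr x) (-P.s x) (opn P D hD)) =
      opn P ((D.erase x).erase (P x)) hD2 := by
  have inv : ∀ x, P (P x) = x := P.inv
  have an : ∀ x, P.s (P x) = - P.s x := P.anti
  have hPx : P x ∈ D := hD x hx
  have c0 : CtOK (Sum.inr x) (Sum.inr (P x)) (opn P D hD) := by
    refine ⟨?_, ?_, ?_, ?_⟩
    · simp [hx2.symm]
    · simp [opn, hx, hx2]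
    · simp [opn, hPx, hx2.symm, inv]
    · simp [opn, hx, hx2]
  refine ⟨c0, ?_⟩
  have e1 : opn P D hD (Sum.inr x) = Sum.inl x := by simp [opn, hx, hx2]
  have e2 : opn P D hD (Sum.inr (P x)) = Sum.inl (P x) := by simp [opn, hPx, inv, hx2.symm]
  have s1 : (opn P D hD).s (Sum.inr x) = 0 := rfl
  have s2 : (opn P D hD).s (Sum.inr (P x)) = 0 := rfl
  have c1 : CtOK (Sum.inr x) (Sum.inr (P x)) (tw (Sum.inr x) (-P.s x) (opn P D hD)) := c0
  ext y
  · rw [cut_f c1, tw_f, tw_f, tw_f, e1, e2]
    rcases y with y | y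
    · simp only [reduceCtorEq, if_false, Sum.inl.injEq]
      by_cases h1 : y = x
      · subst h1
        simp [opn]
      · by_cases h2 : y = P x
        · subst h2
          simp [opn, hx2, inv]
        · rw [if_neg h1, if_neg h2]
          simp [opn, h1, h2]
    · simp only [reduceCtorEq, if_false, Sum.inr.injEq]
      by_cases h1 : y = x
      · subst h1
        simp [opn]
      · by_cases h2 : y = P x
        · subst h2
          simp [opn, hx2]
        · rw [if_neg h1, if_neg h2]
          simp [opn, h1, h2]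
  · rw [cut_s c1, tw_f, tw_f, e1, e2]
    rw [tw_s (by rw [e1]; simp), tw_s (by rw [e1]; simp), tw_s (by rw [e1]; simp), e1, s1, s2]
    rcases y with y | y
    · simp only [reduceCtorEq, if_false, Sum.inl.injEq, if_true, Sum.inr.injEq, hx2]
      by_cases h1 : y = x
      · subst h1
        simp [opn]
      · by_cases h2 : y = P x
        · subst h2
          simp [opn, hx2, an]
        · simp [opn, h1, h2]
    · simp only [reduceCtorEq, if_false, Sum.inr.injEq]
      by_cases h1 : y = x
      · subst h1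
        simp [opn]
      · by_cases h2 : y = P x
        · subst h2
          simp [opn]
        · simp [opn, h1, h2]

theorem opn_close {ν : Γ → K} (hν : ∀ g, ν (-g) = ν g) : ∀ (n : ℕ) (D : Finset α)
    (hD : ∀ x ∈ D, P x ∈ D), D.card ≤ n →
    ∃ X : Module.End K (LPat Γ (α ⊕ α) → K),
      (∀ w : Wd K α, Commute (repL ν (Sum.inl : α → α ⊕ α) w) X) ∧
      ∃ (D0 : Finset α) (hD0 : ∀ x ∈ D0, P x ∈ D0), (∀ x ∈ D0, P x = x) ∧
        ∀ F, X F (opn P D hD) = F (opn P D0 hD0) := by
  have inv : ∀ x, P (P x) = x := P.inv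
  intro n
  induction n with
  | zero =>
    intro D hD hn
    have hD' : D = ∅ := Finset.card_eq_zero.1 (Nat.le_zero.1 hn)
    subst hD'
    exact ⟨1, fun w => Commute.one_right _, ∅, hD, by simp, fun F => rfl⟩
  | succ n ih =>
    intro D hD hn
    by_cases h : ∀ x ∈ D, P x = x
    · exact ⟨1, fun w => Commute.one_right _, D, hD, h, fun F => rfl⟩
    · push Not at h
      obtain ⟨x, hx, hx2⟩ := h
      have hPx : P x ∈ D.erase x := Finset.mem_erase.2 ⟨hx2, hD x hx⟩
      have hD2 : ∀ y ∈ (D.erase x).erase (P x), P y ∈ (D.erase x).erase (P x) := by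
        intro y hy
        rw [Finset.mem_erase, Finset.mem_erase] at hy ⊢
        refine ⟨fun hh => hy.2.1 ?_, fun hh => hy.1 ?_, hD y hy.2.2⟩
        · rw [← inv y, hh, inv]
        · rw [← hh, inv]
      have hcard : ((D.erase x).erase (P x)).card ≤ n := by
        rw [Finset.card_erase_of_mem hPx, Finset.card_erase_of_mem hx]
        omega
      obtain ⟨X, hX, D0, hD0, hfix, hF⟩ := ih _ hD2 hcard
      obtain ⟨c1, c2⟩ := opn_step P D hD hx hx2 hD2
      refine ⟨lTw K (Sum.inr x) (-P.s x) * lCt ν (Sum.inr x) (Sum.inr (P x)) * X, ?_, D0, hD0,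
        hfix, ?_⟩
      · intro w
        refine ((repL_comm_tw _ _ _ (fun y => by simp) w).mul_right
          (repL_comm_ct hν _ _ _ (fun y => by simp) (fun y => by simp) w)).mul_right (hX w)
      · intro F
        have c3 : OcOK (Sum.inr x) (Sum.inr (P x)) (tw (Sum.inr x) (-P.s x) (opn P D hD)) :=
          ⟨c1.1, c1.2.1, c1.2.2.1⟩
        have c4 : tw (Sum.inr x) (-P.s x) (opn P D hD) (Sum.inr x) ≠ Sum.inr (P x) := c1.2.2.2
        rw [Module.End.mul_apply, Module.End.mul_apply, lTw_apply, lCt_apply, if_pos c3,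
          lw_neg _ ν c4, jo_neg _ c4, one_mul, c2, hF]

/-- **Transfer.** -/
theorem transfer [Finite α] {ν : Γ → K} (hν : ∀ g, ν (-g) = ν g) (h0 : ν 0 = 0) {w w' : Wd K α}
    (h : rep0 K (Sum.inl : α → α ⊕ α) w = rep0 K Sum.inl w') :
    repL ν (id : α → α) w = repL ν id w' := by
  classical
  have := Fintype.ofFinite α
  refine LinearMap.ext fun F => ?_
  funext P
  -- the extension of `F`
  let F' : LPat Γ (α ⊕ α) → K := fun Q =>
    if hQ : ∃ p, Res (Sum.inl : α → α ⊕ α) Q p then F hQ.choose else 0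
  have hF' : RelR (Sum.inl : α → α ⊕ α) F' F := by
    intro Q p hQ
    have hex : ∃ p, Res (Sum.inl : α → α ⊕ α) Q p := ⟨p, hQ⟩
    show (if hQ : ∃ p, Res (Sum.inl : α → α ⊕ α) Q p then F hQ.choose else 0) = F p
    rw [dif_pos hex, hex.choose_spec.unique Sum.inl_injective hQ]
  obtain ⟨X, hX, D0, hD0, hfix, hop⟩ := opn_close (K := K) P hν Finset.univ.card Finset.univ
    (fun _ _ => Finset.mem_univ _) le_rfl
  -- the open state has labels 0
  obtain ⟨q, hq⟩ : ∃ q : EXL.Pat (α ⊕ α), ofP Γ q = opn P Finset.univ (fun _ _ => Finset.mem_univ _) := by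
    refine ⟨⟨(opn P Finset.univ (fun _ _ => Finset.mem_univ _)).f, (opn P _ _).inv⟩, ?_⟩
    ext y
    · rfl
    · rcases y with y | y
      · simp [opn, ofP]
      · rfl
  have key : ∀ w : Wd K α, repL ν (id : α → α) w F P =
      rep0 K (Sum.inl : α → α ⊕ α) w (fun q => X F' (ofP Γ q)) q := by
    intro w
    have e1 := hF'.rep (ν := ν) Sum.inl_injective w _ _ (opn_res P D0 hD0 hfix)
    rw [← e1, ← hop (repL ν (Sum.inl : α → α ⊕ α) w F')]
    have e2 : X (repL ν (Sum.inl : α → α ⊕ α) w F') = repL ν (Sum.inl : α → α ⊕ α) w (X F') := by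
      rw [← Module.End.mul_apply, ← (hX w).eq, Module.End.mul_apply]
    rw [e2, ← hq]
    exact Rel0.rep (ν := ν) h0 (Sum.inl : α → α ⊕ α) w (G := X F') (H := fun q => X F' (ofP Γ q))
      (fun _ => rfl) q
  rw [key w, key w', h]

end opn

end Pool.Agent.NUF
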