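import Pool.Agent.NUF.StarA

/-!
# NUF/TrigA (helper15): trigonometric identities for the scalar fact
-/

set_option autoImplicit false

namespace Pool.Agent.NUF.Fr

open Complex Finset EXL.Fm

theorem cos2_eq : cos (2 * lam) = s2 := by
  unfold s2 lam
  rw [← Complex.cos_pi_div_two_sub]
  congr 1
  ring

theorem s3_sq : s3 ^ 2 = (1 + s2) * (1 / 2) := by
  have h1 := two_sin_sin (3 * lam) (3 * lam)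
  have e1 : cos (3 * lam - 3 * lam) = 1 := by rw [sub_self, Complex.cos_zero]
  have e2 : cos (3 * lam + 3 * lam) = - cos (2 * lam) := cos_eq_neg _ _ (by ring)
  rw [e1, e2, cos2_eq] at h1
  unfold s3
  linear_combination (1 / 2) * h1

theorem s3_ne : s3 ≠ 0 := by
  intro h
  have h1 := s3_sq
  have h2 := s2_sq
  rw [h] at h1
  have h3 : s2 = -1 := by linear_combination (-2) * h1
  rw [h3] at h2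
  norm_num at h2

theorem s2_eq : s2 = 2 * s3 * c3 := by
  have h : sin (2 * (3 * lam)) = 2 * sin (3 * lam) * cos (3 * lam) := Complex.sin_two_mul _
  have h2 : sin (2 * (3 * lam)) = s2 := by
    have := sin_8lam_add (-(2 * lam))
    rw [Complex.sin_neg, neg_neg] at this
    rw [← show 8 * lam + -(2 * lam) = 2 * (3 * lam) by ring]
    exact this
  rw [h2] at h
  exact h

theorem c3_eq : c3 = (2 * s2 - 1) * s3 := by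
  have h1 := s3_sq
  have h2 := s2_sq
  have h3 := s2_eq
  have h4 : (2 * s3) * (c3 - (2 * s2 - 1) * s3) = 0 := by
    linear_combination (-1) * h3 - 2 * (2 * s2 - 1) * h1 - h2
  have h5 : c3 - (2 * s2 - 1) * s3 = 0 :=
    (mul_eq_zero.mp h4).resolve_left (mul_ne_zero two_ne_zero s3_ne)
  linear_combination h5

theorem fb_e (x : ℂ) : fb x = s2 * cos x + s2 * sin x := by
  unfold fb
  rw [Complex.sin_add, cos2_eq]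
  rfl

theorem fe_e (x : ℂ) : fe x = s3 * cos x + (2 * s2 - 1) * s3 * sin x := by
  rw [← c3_eq]
  unfold fe
  rw [Complex.sin_add]
  rfl

theorem fa'_e (x : ℂ) : fa' x = s3 * cos x - (2 * s2 - 1) * s3 * sin x := by
  rw [← c3_eq]
  unfold fa'
  rw [Complex.sin_sub]
  rfl

theorem fb'_e (x : ℂ) : sin (2 * lam - x) = s2 * cos x - s2 * sin x := by
  rw [Complex.sin_sub, cos2_eq]
  rfl

theorem fa_e (x : ℂ) : fa x = sin x := rfl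

theorem Dn_neg_e (x : ℂ) : Dn (-x) = sin (2 * lam - x) * fa' x := Dn_neg' x

theorem O1 (x : ℂ) : fa x * fe x + s2 * fa' (2 * x) - fb x * fa' x = 0 := by
  have hr := s3_sq
  have hq : s2 ^ 2 = 1 / 2 := by linear_combination (1 / 2) * s2_sq
  have hx : sin x ^ 2 = 1 - cos x ^ 2 := by linear_combination Complex.sin_sq_add_cos_sq x
  try simp only [Dn_neg_e]
  try simp only [Dn_eq]
  simp only [fb_e, fe_e, fa'_e, fb'_e, fa_e]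
  try simp only [Complex.sin_two_mul, Complex.cos_two_mul']
  linear_combination
    (2 * sin x ^ 2 * s3 + (-2) * sin x * cos x * s3) * hq

theorem O3 (x : ℂ) : 2 * s2 * fa' x * fe x * cos x - fe x * Dn (2 * x) - fa' x * Dn (-(2 * x)) = 0 := by
  have hr := s3_sq
  have hq : s2 ^ 2 = 1 / 2 := by linear_combination (1 / 2) * s2_sq
  have hx : sin x ^ 2 = 1 - cos x ^ 2 := by linear_combination Complex.sin_sq_add_cos_sq x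
  try simp only [Dn_neg_e]
  try simp only [Dn_eq]
  simp only [fb_e, fe_e, fa'_e, fb'_e, fa_e]
  try simp only [Complex.sin_two_mul, Complex.cos_two_mul']
  linear_combination
    (16 * sin x ^ 4 * cos x * s2 ^ 3 + (-8) * sin x ^ 4 * cos x * s2 ^ 2 + (-2) * sin x ^ 4 * cos x * s2 +
    (-16) * sin x ^ 2 * cos x ^ 3 * s2 ^ 3 + (-8) * sin x ^ 2 * cos x ^ 3 * s2 ^ 2 + 12 * sin x ^ 2 * cos x
    ^ 3 * s2 + (-8) * sin x ^ 2 * cos x * s2 ^ 3 + 8 * sin x ^ 2 * cos x * s2 ^ 2 + (-2) * sin x ^ 2 * cos x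
    * s2 + (-2) * cos x ^ 5 * s2 + 2 * cos x ^ 3 * s2) * hr +     (8 * sin x ^ 4 * cos x * s2 ^ 2 + 4 * sin
    x ^ 4 * cos x * s2 + (-1) * sin x ^ 4 * cos x + (-8) * sin x ^ 2 * cos x ^ 3 * s2 ^ 2 + (-12) * sin x ^
    2 * cos x ^ 3 * s2 + (-2) * sin x ^ 2 * cos x ^ 3 + (-4) * sin x ^ 2 * cos x * s2 ^ 2 + sin x ^ 2 * cos
    x + (-1) * cos x ^ 5 + cos x ^ 3) * hq +     (sin x ^ 2 * cos x * s2 + (-1/2) * sin x ^ 2 * cos x + (-1)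
    * cos x ^ 3 * s2 + (-1/2) * cos x ^ 3) * hx

theorem O4 (x : ℂ) : fb x * sin (2 * lam - x) - s2 * s2 + fa x * fa x = 0 := by
  have hr := s3_sq
  have hq : s2 ^ 2 = 1 / 2 := by linear_combination (1 / 2) * s2_sq
  have hx : sin x ^ 2 = 1 - cos x ^ 2 := by linear_combination Complex.sin_sq_add_cos_sq x
  try simp only [Dn_neg_e]
  try simp only [Dn_eq]
  simp only [fb_e, fe_e, fa'_e, fb'_e, fa_e]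
  try simp only [Complex.sin_two_mul, Complex.cos_two_mul']
  linear_combination
    ((-1) * sin x ^ 2 + cos x ^ 2 + (-1)) * hq +     ((1/2)) * hx

theorem T2 (x y : ℂ) : fa x * fe x * fa' (x + y) * fb (x - y) - s2 * fa' (2 * x) * fa y * fe y -
    fb x * fa' x * fe (x + y) * sin (x - y) = 0 := by
  have hr := s3_sq
  have hq : s2 ^ 2 = 1 / 2 := by linear_combination (1 / 2) * s2_sq
  have hx : sin x ^ 2 = 1 - cos x ^ 2 := by linear_combination Complex.sin_sq_add_cos_sq x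
  have hy : sin y ^ 2 = 1 - cos y ^ 2 := by linear_combination Complex.sin_sq_add_cos_sq y
  try simp only [Dn_neg_e]
  try simp only [Dn_eq]
  simp only [fb_e, fe_e, fa'_e, fb'_e, fa_e]
  try simp only [Complex.sin_two_mul, Complex.cos_two_mul']
  simp only [Complex.sin_sub, Complex.cos_sub, Complex.sin_add, Complex.cos_add]
  linear_combination
    ((-2) * sin x ^ 4 * sin y ^ 2 * s2 ^ 2 + sin x ^ 4 * sin y ^ 2 * s2 + (-4) * sin x ^ 4 * sin y * cos y *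
    s2 ^ 3 + sin x ^ 4 * sin y * cos y * s2 + (-4) * sin x ^ 3 * cos x * sin y ^ 2 * s2 ^ 3 + 8 * sin x ^ 3
    * cos x * sin y ^ 2 * s2 ^ 2 + (-4) * sin x ^ 3 * cos x * sin y ^ 2 * s2 + (-4) * sin x ^ 3 * cos x *
    sin y * cos y * s2 ^ 2 + 2 * sin x ^ 3 * cos x * sin y * cos y * s2 + (-4) * sin x ^ 2 * cos x ^ 2 * sin
    y * cos y * s2 ^ 3 + 2 * sin x ^ 2 * cos x ^ 2 * sin y * cos y * s2 + 2 * sin x ^ 2 * sin y ^ 2 * s2 ^ 2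
    + (-1) * sin x ^ 2 * sin y ^ 2 * s2 + sin x ^ 2 * sin y * cos y * s2 + (-4) * sin x * cos x ^ 3 * sin y
    ^ 2 * s2 ^ 3 + 8 * sin x * cos x ^ 3 * sin y ^ 2 * s2 ^ 2 + (-4) * sin x * cos x ^ 3 * sin y ^ 2 * s2 +
    (-4) * sin x * cos x ^ 3 * sin y * cos y * s2 ^ 2 + 2 * sin x * cos x ^ 3 * sin y * cos y * s2 + 8 * sin
    x * cos x * sin y ^ 2 * s2 ^ 3 + (-8) * sin x * cos x * sin y ^ 2 * s2 ^ 2 + 2 * sin x * cos x * sin y ^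
    2 * s2 + 4 * sin x * cos x * sin y * cos y * s2 ^ 2 + (-2) * sin x * cos x * sin y * cos y * s2 + 2 *
    cos x ^ 4 * sin y ^ 2 * s2 ^ 2 + (-1) * cos x ^ 4 * sin y ^ 2 * s2 + cos x ^ 4 * sin y * cos y * s2 +
    (-2) * cos x ^ 2 * sin y ^ 2 * s2 ^ 2 + cos x ^ 2 * sin y ^ 2 * s2 + (-1) * cos x ^ 2 * sin y * cos y *
    s2) * hr +     ((-1) * sin x ^ 4 * sin y ^ 2 * s2 + (-1/2) * sin x ^ 4 * sin y ^ 2 + (-2) * sin x ^ 4 *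
    sin y * cos y * s2 ^ 2 + (-2) * sin x ^ 4 * sin y * cos y * s2 + (-1/2) * sin x ^ 4 * sin y * cos y +
    (-2) * sin x ^ 3 * cos x * sin y ^ 2 * s2 ^ 2 + 2 * sin x ^ 3 * cos x * sin y ^ 2 * s2 + sin x ^ 3 * cos
    x * sin y ^ 2 + (-2) * sin x ^ 3 * cos x * sin y * cos y * s2 + (-1) * sin x ^ 3 * cos x * sin y * cos y
    + (-2) * sin x ^ 2 * cos x ^ 2 * sin y * cos y * s2 ^ 2 + (-2) * sin x ^ 2 * cos x ^ 2 * sin y * cos y *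
    s2 + sin x ^ 2 * sin y ^ 2 * s2 + (1/2) * sin x ^ 2 * sin y ^ 2 + (1/2) * sin x ^ 2 * sin y * cos y +
    (-2) * sin x * cos x ^ 3 * sin y ^ 2 * s2 ^ 2 + 2 * sin x * cos x ^ 3 * sin y ^ 2 * s2 + sin x * cos x ^
    3 * sin y ^ 2 + (-2) * sin x * cos x ^ 3 * sin y * cos y * s2 + (-1) * sin x * cos x ^ 3 * sin y * cos y
    + 4 * sin x * cos x * sin y ^ 2 * s2 ^ 2 + (-1) * sin x * cos x * sin y ^ 2 + 2 * sin x * cos x * sin y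
    * cos y * s2 + sin x * cos x * sin y * cos y + cos x ^ 4 * sin y ^ 2 * s2 + (1/2) * cos x ^ 4 * sin y ^
    2 + (1/2) * cos x ^ 4 * sin y * cos y + (-1) * cos x ^ 2 * sin y ^ 2 * s2 + (-1/2) * cos x ^ 2 * sin y ^
    2 + (-1/2) * cos x ^ 2 * sin y * cos y) * hq +     ((-1/4) * sin x ^ 2 * sin y ^ 2 + (-1/2) * sin x ^ 2
    * sin y * cos y * s2 + (-1/4) * sin x ^ 2 * sin y * cos y + (-1) * sin x * cos x * sin y ^ 2 * s2 +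
    (1/2) * sin x * cos x * sin y ^ 2 + (-1/2) * sin x * cos x * sin y * cos y + (1/4) * cos x ^ 2 * sin y ^
    2 + (1/2) * cos x ^ 2 * sin y * cos y * s2 + (1/4) * cos x ^ 2 * sin y * cos y) * hx

theorem T5 (x y : ℂ) : - s2 * fa y * fe y * (fe x * Dn (2 * x) * sin (x - y) * fe (x + y) -
      fa' x * Dn (-(2 * x)) * sin (x + y) * fa' (x - y)) -
    2 * cos x * fa x * fa x * fa' x * fe x * Dn (-(x + y)) * Dn (x - y) +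
    2 * cos x * fb x * sin (2 * lam - x) * fa' x * fe x * sin (x + y) * fa' (x - y) * sin (x - y) * fe (x + y) = 0 := by
  have hr := s3_sq
  have hq : s2 ^ 2 = 1 / 2 := by linear_combination (1 / 2) * s2_sq
  have hx : sin x ^ 2 = 1 - cos x ^ 2 := by linear_combination Complex.sin_sq_add_cos_sq x
  have hy : sin y ^ 2 = 1 - cos y ^ 2 := by linear_combination Complex.sin_sq_add_cos_sq y
  try simp only [Dn_neg_e]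
  try simp only [Dn_eq]
  simp only [fb_e, fe_e, fa'_e, fb'_e, fa_e]
  try simp only [Complex.sin_two_mul, Complex.cos_two_mul']
  simp only [Complex.sin_sub, Complex.cos_sub, Complex.sin_add, Complex.cos_add]
  linear_combination
    (4 * sin x ^ 8 * cos x * sin y ^ 4 * s2 ^ 5 + 8 * sin x ^ 8 * cos x * sin y ^ 4 * s2 ^ 4 * s3 ^ 2 + (-8)
    * sin x ^ 8 * cos x * sin y ^ 4 * s2 ^ 3 * s3 ^ 2 + (-3) * sin x ^ 8 * cos x * sin y ^ 4 * s2 ^ 3 + 2 *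
    sin x ^ 8 * cos x * sin y ^ 4 * s2 ^ 2 * s3 ^ 2 + sin x ^ 8 * cos x * sin y ^ 4 * s2 ^ 2 + 16 * sin x ^
    8 * cos x * sin y ^ 3 * cos y * s2 ^ 6 + 32 * sin x ^ 8 * cos x * sin y ^ 3 * cos y * s2 ^ 5 * s3 ^ 2 +
    (-32) * sin x ^ 8 * cos x * sin y ^ 3 * cos y * s2 ^ 4 * s3 ^ 2 + (-12) * sin x ^ 8 * cos x * sin y ^ 3
    * cos y * s2 ^ 4 + 8 * sin x ^ 8 * cos x * sin y ^ 3 * cos y * s2 ^ 3 * s3 ^ 2 + 4 * sin x ^ 8 * cos x *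
    sin y ^ 3 * cos y * s2 ^ 3 + 16 * sin x ^ 8 * cos x * sin y ^ 2 * cos y ^ 2 * s2 ^ 7 + 32 * sin x ^ 8 *
    cos x * sin y ^ 2 * cos y ^ 2 * s2 ^ 6 * s3 ^ 2 + 16 * sin x ^ 8 * cos x * sin y ^ 2 * cos y ^ 2 * s2 ^
    6 + (-24) * sin x ^ 8 * cos x * sin y ^ 2 * cos y ^ 2 * s2 ^ 5 + (-48) * sin x ^ 8 * cos x * sin y ^ 2 *
    cos y ^ 2 * s2 ^ 4 * s3 ^ 2 + (-8) * sin x ^ 8 * cos x * sin y ^ 2 * cos y ^ 2 * s2 ^ 4 + 32 * sin x ^ 8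
    * cos x * sin y ^ 2 * cos y ^ 2 * s2 ^ 3 * s3 ^ 2 + 13 * sin x ^ 8 * cos x * sin y ^ 2 * cos y ^ 2 * s2
    ^ 3 + (-6) * sin x ^ 8 * cos x * sin y ^ 2 * cos y ^ 2 * s2 ^ 2 * s3 ^ 2 + (-3) * sin x ^ 8 * cos x *
    sin y ^ 2 * cos y ^ 2 * s2 ^ 2 + 32 * sin x ^ 8 * cos x * sin y * cos y ^ 3 * s2 ^ 7 + 64 * sin x ^ 8 *
    cos x * sin y * cos y ^ 3 * s2 ^ 6 * s3 ^ 2 + (-64) * sin x ^ 8 * cos x * sin y * cos y ^ 3 * s2 ^ 5 *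
    s3 ^ 2 + (-32) * sin x ^ 8 * cos x * sin y * cos y ^ 3 * s2 ^ 5 + 8 * sin x ^ 8 * cos x * sin y * cos y
    ^ 3 * s2 ^ 4 + 16 * sin x ^ 8 * cos x * sin y * cos y ^ 3 * s2 ^ 3 * s3 ^ 2 + 6 * sin x ^ 8 * cos x *
    sin y * cos y ^ 3 * s2 ^ 3 + (-4) * sin x ^ 8 * cos x * sin y * cos y ^ 3 * s2 ^ 2 * s3 ^ 2 + (-2) * sin
    x ^ 8 * cos x * sin y * cos y ^ 3 * s2 ^ 2 + (-16) * sin x ^ 6 * cos x ^ 3 * sin y ^ 4 * s2 ^ 7 + (-32)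
    * sin x ^ 6 * cos x ^ 3 * sin y ^ 4 * s2 ^ 6 * s3 ^ 2 + 16 * sin x ^ 6 * cos x ^ 3 * sin y ^ 4 * s2 ^ 6
    + 64 * sin x ^ 6 * cos x ^ 3 * sin y ^ 4 * s2 ^ 5 * s3 ^ 2 + 8 * sin x ^ 6 * cos x ^ 3 * sin y ^ 4 * s2
    ^ 5 + (-48) * sin x ^ 6 * cos x ^ 3 * sin y ^ 4 * s2 ^ 4 * s3 ^ 2 + (-16) * sin x ^ 6 * cos x ^ 3 * sin
    y ^ 4 * s2 ^ 4 + 16 * sin x ^ 6 * cos x ^ 3 * sin y ^ 4 * s2 ^ 3 * s3 ^ 2 + 6 * sin x ^ 6 * cos x ^ 3 *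
    sin y ^ 4 * s2 ^ 3 + (-4) * sin x ^ 6 * cos x ^ 3 * sin y ^ 4 * s2 ^ 2 * s3 ^ 2 + (-2) * sin x ^ 6 * cos
    x ^ 3 * sin y ^ 4 * s2 ^ 2 + (-32) * sin x ^ 6 * cos x ^ 3 * sin y ^ 3 * cos y * s2 ^ 7 + (-64) * sin x
    ^ 6 * cos x ^ 3 * sin y ^ 3 * cos y * s2 ^ 6 * s3 ^ 2 + 16 * sin x ^ 6 * cos x ^ 3 * sin y ^ 3 * cos y *
    s2 ^ 6 + 96 * sin x ^ 6 * cos x ^ 3 * sin y ^ 3 * cos y * s2 ^ 5 * s3 ^ 2 + 32 * sin x ^ 6 * cos x ^ 3 *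
    sin y ^ 3 * cos y * s2 ^ 5 + (-32) * sin x ^ 6 * cos x ^ 3 * sin y ^ 3 * cos y * s2 ^ 4 * s3 ^ 2 + (-24)
    * sin x ^ 6 * cos x ^ 3 * sin y ^ 3 * cos y * s2 ^ 4 + (-16) * sin x ^ 6 * cos x ^ 3 * sin y ^ 3 * cos y
    * s2 ^ 3 * s3 ^ 2 + (-6) * sin x ^ 6 * cos x ^ 3 * sin y ^ 3 * cos y * s2 ^ 3 + 4 * sin x ^ 6 * cos x ^
    3 * sin y ^ 3 * cos y * s2 ^ 2 * s3 ^ 2 + 2 * sin x ^ 6 * cos x ^ 3 * sin y ^ 3 * cos y * s2 ^ 2 + 64 *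
    sin x ^ 6 * cos x ^ 3 * sin y ^ 2 * cos y ^ 2 * s2 ^ 6 + 128 * sin x ^ 6 * cos x ^ 3 * sin y ^ 2 * cos y
    ^ 2 * s2 ^ 5 * s3 ^ 2 + (-40) * sin x ^ 6 * cos x ^ 3 * sin y ^ 2 * cos y ^ 2 * s2 ^ 5 + (-208) * sin x
    ^ 6 * cos x ^ 3 * sin y ^ 2 * cos y ^ 2 * s2 ^ 4 * s3 ^ 2 + (-56) * sin x ^ 6 * cos x ^ 3 * sin y ^ 2 *
    cos y ^ 2 * s2 ^ 4 + 96 * sin x ^ 6 * cos x ^ 3 * sin y ^ 2 * cos y ^ 2 * s2 ^ 3 * s3 ^ 2 + 42 * sin x ^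
    6 * cos x ^ 3 * sin y ^ 2 * cos y ^ 2 * s2 ^ 3 + (-12) * sin x ^ 6 * cos x ^ 3 * sin y ^ 2 * cos y ^ 2 *
    s2 ^ 2 * s3 ^ 2 + (-6) * sin x ^ 6 * cos x ^ 3 * sin y ^ 2 * cos y ^ 2 * s2 ^ 2 + 32 * sin x ^ 6 * cos x
    ^ 3 * sin y * cos y ^ 3 * s2 ^ 7 + 64 * sin x ^ 6 * cos x ^ 3 * sin y * cos y ^ 3 * s2 ^ 6 * s3 ^ 2 +
    (-32) * sin x ^ 6 * cos x ^ 3 * sin y * cos y ^ 3 * s2 ^ 6 + (-128) * sin x ^ 6 * cos x ^ 3 * sin y *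
    cos y ^ 3 * s2 ^ 5 * s3 ^ 2 + (-32) * sin x ^ 6 * cos x ^ 3 * sin y * cos y ^ 3 * s2 ^ 5 + 64 * sin x ^
    6 * cos x ^ 3 * sin y * cos y ^ 3 * s2 ^ 4 * s3 ^ 2 + 24 * sin x ^ 6 * cos x ^ 3 * sin y * cos y ^ 3 *
    s2 ^ 4 + (-16) * sin x ^ 6 * cos x ^ 3 * sin y * cos y ^ 3 * s2 ^ 3 * s3 ^ 2 + (-6) * sin x ^ 6 * cos x
    ^ 3 * sin y * cos y ^ 3 * s2 ^ 3 + 4 * sin x ^ 6 * cos x ^ 3 * sin y * cos y ^ 3 * s2 ^ 2 * s3 ^ 2 + 2 *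
    sin x ^ 6 * cos x ^ 3 * sin y * cos y ^ 3 * s2 ^ 2 + (-4) * sin x ^ 6 * cos x * sin y ^ 4 * s2 ^ 5 +
    (-8) * sin x ^ 6 * cos x * sin y ^ 4 * s2 ^ 4 * s3 ^ 2 + 8 * sin x ^ 6 * cos x * sin y ^ 4 * s2 ^ 3 * s3
    ^ 2 + 3 * sin x ^ 6 * cos x * sin y ^ 4 * s2 ^ 3 + (-2) * sin x ^ 6 * cos x * sin y ^ 4 * s2 ^ 2 * s3 ^
    2 + (-1) * sin x ^ 6 * cos x * sin y ^ 4 * s2 ^ 2 + (-16) * sin x ^ 6 * cos x * sin y ^ 3 * cos y * s2 ^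
    6 + (-32) * sin x ^ 6 * cos x * sin y ^ 3 * cos y * s2 ^ 5 * s3 ^ 2 + 32 * sin x ^ 6 * cos x * sin y ^ 3
    * cos y * s2 ^ 4 * s3 ^ 2 + 12 * sin x ^ 6 * cos x * sin y ^ 3 * cos y * s2 ^ 4 + (-8) * sin x ^ 6 * cos
    x * sin y ^ 3 * cos y * s2 ^ 3 * s3 ^ 2 + (-4) * sin x ^ 6 * cos x * sin y ^ 3 * cos y * s2 ^ 3 + 32 *
    sin x ^ 6 * cos x * sin y ^ 2 * cos y ^ 2 * s2 ^ 7 + 64 * sin x ^ 6 * cos x * sin y ^ 2 * cos y ^ 2 * s2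
    ^ 6 * s3 ^ 2 + (-16) * sin x ^ 6 * cos x * sin y ^ 2 * cos y ^ 2 * s2 ^ 6 + (-96) * sin x ^ 6 * cos x *
    sin y ^ 2 * cos y ^ 2 * s2 ^ 5 * s3 ^ 2 + (-40) * sin x ^ 6 * cos x * sin y ^ 2 * cos y ^ 2 * s2 ^ 5 +
    16 * sin x ^ 6 * cos x * sin y ^ 2 * cos y ^ 2 * s2 ^ 4 * s3 ^ 2 + 16 * sin x ^ 6 * cos x * sin y ^ 2 *
    cos y ^ 2 * s2 ^ 4 + 16 * sin x ^ 6 * cos x * sin y ^ 2 * cos y ^ 2 * s2 ^ 3 * s3 ^ 2 + 7 * sin x ^ 6 *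
    cos x * sin y ^ 2 * cos y ^ 2 * s2 ^ 3 + (-2) * sin x ^ 6 * cos x * sin y ^ 2 * cos y ^ 2 * s2 ^ 2 * s3
    ^ 2 + (-1) * sin x ^ 6 * cos x * sin y ^ 2 * cos y ^ 2 * s2 ^ 2 + 16 * sin x ^ 6 * cos x * sin y * cos y
    ^ 3 * s2 ^ 6 + 32 * sin x ^ 6 * cos x * sin y * cos y ^ 3 * s2 ^ 5 * s3 ^ 2 + (-32) * sin x ^ 6 * cos x
    * sin y * cos y ^ 3 * s2 ^ 4 * s3 ^ 2 + (-16) * sin x ^ 6 * cos x * sin y * cos y ^ 3 * s2 ^ 4 + 2 * sin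
    x ^ 6 * cos x * sin y * cos y ^ 3 * s2 ^ 3 + 4 * sin x ^ 6 * cos x * sin y * cos y ^ 3 * s2 ^ 2 * s3 ^ 2
    + 2 * sin x ^ 6 * cos x * sin y * cos y ^ 3 * s2 ^ 2 + (-32) * sin x ^ 4 * cos x ^ 5 * sin y ^ 3 * cos y
    * s2 ^ 7 + (-64) * sin x ^ 4 * cos x ^ 5 * sin y ^ 3 * cos y * s2 ^ 6 * s3 ^ 2 + 16 * sin x ^ 4 * cos x
    ^ 5 * sin y ^ 3 * cos y * s2 ^ 6 + 96 * sin x ^ 4 * cos x ^ 5 * sin y ^ 3 * cos y * s2 ^ 5 * s3 ^ 2 + 32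
    * sin x ^ 4 * cos x ^ 5 * sin y ^ 3 * cos y * s2 ^ 5 + (-32) * sin x ^ 4 * cos x ^ 5 * sin y ^ 3 * cos y
    * s2 ^ 4 * s3 ^ 2 + (-16) * sin x ^ 4 * cos x ^ 5 * sin y ^ 3 * cos y * s2 ^ 4 + (-2) * sin x ^ 4 * cos
    x ^ 5 * sin y ^ 3 * cos y * s2 ^ 3 + (-4) * sin x ^ 4 * cos x ^ 5 * sin y ^ 3 * cos y * s2 ^ 2 * s3 ^ 2
    + (-2) * sin x ^ 4 * cos x ^ 5 * sin y ^ 3 * cos y * s2 ^ 2 + (-16) * sin x ^ 4 * cos x ^ 5 * sin y ^ 2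
    * cos y ^ 2 * s2 ^ 7 + (-32) * sin x ^ 4 * cos x ^ 5 * sin y ^ 2 * cos y ^ 2 * s2 ^ 6 * s3 ^ 2 + 48 *
    sin x ^ 4 * cos x ^ 5 * sin y ^ 2 * cos y ^ 2 * s2 ^ 6 + 128 * sin x ^ 4 * cos x ^ 5 * sin y ^ 2 * cos y
    ^ 2 * s2 ^ 5 * s3 ^ 2 + (-8) * sin x ^ 4 * cos x ^ 5 * sin y ^ 2 * cos y ^ 2 * s2 ^ 5 + (-144) * sin x ^
    4 * cos x ^ 5 * sin y ^ 2 * cos y ^ 2 * s2 ^ 4 * s3 ^ 2 + (-56) * sin x ^ 4 * cos x ^ 5 * sin y ^ 2 *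
    cos y ^ 2 * s2 ^ 4 + 32 * sin x ^ 4 * cos x ^ 5 * sin y ^ 2 * cos y ^ 2 * s2 ^ 3 * s3 ^ 2 + 20 * sin x ^
    4 * cos x ^ 5 * sin y ^ 2 * cos y ^ 2 * s2 ^ 3 + 8 * sin x ^ 4 * cos x ^ 5 * sin y ^ 2 * cos y ^ 2 * s2
    ^ 2 * s3 ^ 2 + 4 * sin x ^ 4 * cos x ^ 5 * sin y ^ 2 * cos y ^ 2 * s2 ^ 2 + (-32) * sin x ^ 4 * cos x ^
    5 * sin y * cos y ^ 3 * s2 ^ 6 + (-64) * sin x ^ 4 * cos x ^ 5 * sin y * cos y ^ 3 * s2 ^ 5 * s3 ^ 2 +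
    64 * sin x ^ 4 * cos x ^ 5 * sin y * cos y ^ 3 * s2 ^ 4 * s3 ^ 2 + 24 * sin x ^ 4 * cos x ^ 5 * sin y *
    cos y ^ 3 * s2 ^ 4 + (-16) * sin x ^ 4 * cos x ^ 5 * sin y * cos y ^ 3 * s2 ^ 3 * s3 ^ 2 + (-6) * sin x
    ^ 4 * cos x ^ 5 * sin y * cos y ^ 3 * s2 ^ 3 + 4 * sin x ^ 4 * cos x ^ 5 * sin y * cos y ^ 3 * s2 ^ 2 *
    s3 ^ 2 + 2 * sin x ^ 4 * cos x ^ 5 * sin y * cos y ^ 3 * s2 ^ 2 + (-32) * sin x ^ 4 * cos x ^ 3 * sin y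
    ^ 4 * s2 ^ 7 + (-64) * sin x ^ 4 * cos x ^ 3 * sin y ^ 4 * s2 ^ 6 * s3 ^ 2 + (-16) * sin x ^ 4 * cos x ^
    3 * sin y ^ 4 * s2 ^ 6 + 32 * sin x ^ 4 * cos x ^ 3 * sin y ^ 4 * s2 ^ 5 * s3 ^ 2 + 60 * sin x ^ 4 * cos
    x ^ 3 * sin y ^ 4 * s2 ^ 5 + 88 * sin x ^ 4 * cos x ^ 3 * sin y ^ 4 * s2 ^ 4 * s3 ^ 2 + 8 * sin x ^ 4 *
    cos x ^ 3 * sin y ^ 4 * s2 ^ 4 + (-72) * sin x ^ 4 * cos x ^ 3 * sin y ^ 4 * s2 ^ 3 * s3 ^ 2 + (-29) *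
    sin x ^ 4 * cos x ^ 3 * sin y ^ 4 * s2 ^ 3 + 14 * sin x ^ 4 * cos x ^ 3 * sin y ^ 4 * s2 ^ 2 * s3 ^ 2 +
    7 * sin x ^ 4 * cos x ^ 3 * sin y ^ 4 * s2 ^ 2 + (-16) * sin x ^ 4 * cos x ^ 3 * sin y ^ 3 * cos y * s2
    ^ 6 + (-32) * sin x ^ 4 * cos x ^ 3 * sin y ^ 3 * cos y * s2 ^ 5 * s3 ^ 2 + 32 * sin x ^ 4 * cos x ^ 3 *
    sin y ^ 3 * cos y * s2 ^ 4 * s3 ^ 2 + 20 * sin x ^ 4 * cos x ^ 3 * sin y ^ 3 * cos y * s2 ^ 4 + 8 * sin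
    x ^ 4 * cos x ^ 3 * sin y ^ 3 * cos y * s2 ^ 3 * s3 ^ 2 + 2 * sin x ^ 4 * cos x ^ 3 * sin y ^ 3 * cos y
    * s2 ^ 3 + (-4) * sin x ^ 4 * cos x ^ 3 * sin y ^ 3 * cos y * s2 ^ 2 * s3 ^ 2 + (-2) * sin x ^ 4 * cos x
    ^ 3 * sin y ^ 3 * cos y * s2 ^ 2 + (-32) * sin x ^ 4 * cos x ^ 3 * sin y ^ 2 * cos y ^ 2 * s2 ^ 7 +
    (-64) * sin x ^ 4 * cos x ^ 3 * sin y ^ 2 * cos y ^ 2 * s2 ^ 6 * s3 ^ 2 + (-48) * sin x ^ 4 * cos x ^ 3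
    * sin y ^ 2 * cos y ^ 2 * s2 ^ 6 + (-32) * sin x ^ 4 * cos x ^ 3 * sin y ^ 2 * cos y ^ 2 * s2 ^ 5 * s3 ^
    2 + 80 * sin x ^ 4 * cos x ^ 3 * sin y ^ 2 * cos y ^ 2 * s2 ^ 5 + 192 * sin x ^ 4 * cos x ^ 3 * sin y ^
    2 * cos y ^ 2 * s2 ^ 4 * s3 ^ 2 + 40 * sin x ^ 4 * cos x ^ 3 * sin y ^ 2 * cos y ^ 2 * s2 ^ 4 + (-112) *
    sin x ^ 4 * cos x ^ 3 * sin y ^ 2 * cos y ^ 2 * s2 ^ 3 * s3 ^ 2 + (-49) * sin x ^ 4 * cos x ^ 3 * sin y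
    ^ 2 * cos y ^ 2 * s2 ^ 3 + 14 * sin x ^ 4 * cos x ^ 3 * sin y ^ 2 * cos y ^ 2 * s2 ^ 2 * s3 ^ 2 + 7 *
    sin x ^ 4 * cos x ^ 3 * sin y ^ 2 * cos y ^ 2 * s2 ^ 2 + (-16) * sin x ^ 4 * cos x ^ 3 * sin y * cos y ^
    3 * s2 ^ 6 + (-32) * sin x ^ 4 * cos x ^ 3 * sin y * cos y ^ 3 * s2 ^ 5 * s3 ^ 2 + (-32) * sin x ^ 4 *
    cos x ^ 3 * sin y * cos y ^ 3 * s2 ^ 5 + (-32) * sin x ^ 4 * cos x ^ 3 * sin y * cos y ^ 3 * s2 ^ 4 * s3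
    ^ 2 + 24 * sin x ^ 4 * cos x ^ 3 * sin y * cos y ^ 3 * s2 ^ 4 + 80 * sin x ^ 4 * cos x ^ 3 * sin y * cos
    y ^ 3 * s2 ^ 3 * s3 ^ 2 + 28 * sin x ^ 4 * cos x ^ 3 * sin y * cos y ^ 3 * s2 ^ 3 + (-24) * sin x ^ 4 *
    cos x ^ 3 * sin y * cos y ^ 3 * s2 ^ 2 * s3 ^ 2 + (-12) * sin x ^ 4 * cos x ^ 3 * sin y * cos y ^ 3 * s2
    ^ 2 + 16 * sin x ^ 2 * cos x ^ 7 * sin y ^ 4 * s2 ^ 7 + 32 * sin x ^ 2 * cos x ^ 7 * sin y ^ 4 * s2 ^ 6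
    * s3 ^ 2 + (-16) * sin x ^ 2 * cos x ^ 7 * sin y ^ 4 * s2 ^ 6 + (-64) * sin x ^ 2 * cos x ^ 7 * sin y ^
    4 * s2 ^ 5 * s3 ^ 2 + (-8) * sin x ^ 2 * cos x ^ 7 * sin y ^ 4 * s2 ^ 5 + 48 * sin x ^ 2 * cos x ^ 7 *
    sin y ^ 4 * s2 ^ 4 * s3 ^ 2 + 16 * sin x ^ 2 * cos x ^ 7 * sin y ^ 4 * s2 ^ 4 + (-16) * sin x ^ 2 * cos
    x ^ 7 * sin y ^ 4 * s2 ^ 3 * s3 ^ 2 + (-6) * sin x ^ 2 * cos x ^ 7 * sin y ^ 4 * s2 ^ 3 + 4 * sin x ^ 2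
    * cos x ^ 7 * sin y ^ 4 * s2 ^ 2 * s3 ^ 2 + 2 * sin x ^ 2 * cos x ^ 7 * sin y ^ 4 * s2 ^ 2 + 16 * sin x
    ^ 2 * cos x ^ 7 * sin y ^ 3 * cos y * s2 ^ 6 + 32 * sin x ^ 2 * cos x ^ 7 * sin y ^ 3 * cos y * s2 ^ 5 *
    s3 ^ 2 + (-32) * sin x ^ 2 * cos x ^ 7 * sin y ^ 3 * cos y * s2 ^ 4 * s3 ^ 2 + (-8) * sin x ^ 2 * cos x
    ^ 7 * sin y ^ 3 * cos y * s2 ^ 4 + 16 * sin x ^ 2 * cos x ^ 7 * sin y ^ 3 * cos y * s2 ^ 3 * s3 ^ 2 + 6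
    * sin x ^ 2 * cos x ^ 7 * sin y ^ 3 * cos y * s2 ^ 3 + (-4) * sin x ^ 2 * cos x ^ 7 * sin y ^ 3 * cos y
    * s2 ^ 2 * s3 ^ 2 + (-2) * sin x ^ 2 * cos x ^ 7 * sin y ^ 3 * cos y * s2 ^ 2 + 8 * sin x ^ 2 * cos x ^
    7 * sin y ^ 2 * cos y ^ 2 * s2 ^ 5 + 16 * sin x ^ 2 * cos x ^ 7 * sin y ^ 2 * cos y ^ 2 * s2 ^ 4 * s3 ^
    2 + (-8) * sin x ^ 2 * cos x ^ 7 * sin y ^ 2 * cos y ^ 2 * s2 ^ 4 + (-32) * sin x ^ 2 * cos x ^ 7 * sin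
    y ^ 2 * cos y ^ 2 * s2 ^ 3 * s3 ^ 2 + (-10) * sin x ^ 2 * cos x ^ 7 * sin y ^ 2 * cos y ^ 2 * s2 ^ 3 +
    12 * sin x ^ 2 * cos x ^ 7 * sin y ^ 2 * cos y ^ 2 * s2 ^ 2 * s3 ^ 2 + 6 * sin x ^ 2 * cos x ^ 7 * sin y
    ^ 2 * cos y ^ 2 * s2 ^ 2 + 8 * sin x ^ 2 * cos x ^ 7 * sin y * cos y ^ 3 * s2 ^ 4 + 16 * sin x ^ 2 * cos
    x ^ 7 * sin y * cos y ^ 3 * s2 ^ 3 * s3 ^ 2 + 6 * sin x ^ 2 * cos x ^ 7 * sin y * cos y ^ 3 * s2 ^ 3 +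
    (-4) * sin x ^ 2 * cos x ^ 7 * sin y * cos y ^ 3 * s2 ^ 2 * s3 ^ 2 + (-2) * sin x ^ 2 * cos x ^ 7 * sin
    y * cos y ^ 3 * s2 ^ 2 + 32 * sin x ^ 2 * cos x ^ 5 * sin y ^ 4 * s2 ^ 7 + 64 * sin x ^ 2 * cos x ^ 5 *
    sin y ^ 4 * s2 ^ 6 * s3 ^ 2 + 16 * sin x ^ 2 * cos x ^ 5 * sin y ^ 4 * s2 ^ 6 + (-32) * sin x ^ 2 * cos
    x ^ 5 * sin y ^ 4 * s2 ^ 5 * s3 ^ 2 + (-60) * sin x ^ 2 * cos x ^ 5 * sin y ^ 4 * s2 ^ 5 + (-88) * sin x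
    ^ 2 * cos x ^ 5 * sin y ^ 4 * s2 ^ 4 * s3 ^ 2 + (-8) * sin x ^ 2 * cos x ^ 5 * sin y ^ 4 * s2 ^ 4 + 72 *
    sin x ^ 2 * cos x ^ 5 * sin y ^ 4 * s2 ^ 3 * s3 ^ 2 + 29 * sin x ^ 2 * cos x ^ 5 * sin y ^ 4 * s2 ^ 3 +
    (-14) * sin x ^ 2 * cos x ^ 5 * sin y ^ 4 * s2 ^ 2 * s3 ^ 2 + (-7) * sin x ^ 2 * cos x ^ 5 * sin y ^ 4 *
    s2 ^ 2 + 32 * sin x ^ 2 * cos x ^ 5 * sin y ^ 3 * cos y * s2 ^ 6 + 64 * sin x ^ 2 * cos x ^ 5 * sin y ^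
    3 * cos y * s2 ^ 5 * s3 ^ 2 + 32 * sin x ^ 2 * cos x ^ 5 * sin y ^ 3 * cos y * s2 ^ 5 + (-36) * sin x ^
    2 * cos x ^ 5 * sin y ^ 3 * cos y * s2 ^ 4 + (-72) * sin x ^ 2 * cos x ^ 5 * sin y ^ 3 * cos y * s2 ^ 3
    * s3 ^ 2 + (-24) * sin x ^ 2 * cos x ^ 5 * sin y ^ 3 * cos y * s2 ^ 3 + 24 * sin x ^ 2 * cos x ^ 5 * sin
    y ^ 3 * cos y * s2 ^ 2 * s3 ^ 2 + 12 * sin x ^ 2 * cos x ^ 5 * sin y ^ 3 * cos y * s2 ^ 2 + (-8) * sin x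
    ^ 2 * cos x ^ 5 * sin y ^ 2 * cos y ^ 2 * s2 ^ 5 + (-16) * sin x ^ 2 * cos x ^ 5 * sin y ^ 2 * cos y ^ 2
    * s2 ^ 4 * s3 ^ 2 + 8 * sin x ^ 2 * cos x ^ 5 * sin y ^ 2 * cos y ^ 2 * s2 ^ 4 + 32 * sin x ^ 2 * cos x
    ^ 5 * sin y ^ 2 * cos y ^ 2 * s2 ^ 3 * s3 ^ 2 + 9 * sin x ^ 2 * cos x ^ 5 * sin y ^ 2 * cos y ^ 2 * s2 ^
    3 + (-14) * sin x ^ 2 * cos x ^ 5 * sin y ^ 2 * cos y ^ 2 * s2 ^ 2 * s3 ^ 2 + (-7) * sin x ^ 2 * cos x ^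
    5 * sin y ^ 2 * cos y ^ 2 * s2 ^ 2 + (-8) * sin x ^ 2 * cos x ^ 5 * sin y * cos y ^ 3 * s2 ^ 4 + (-16) *
    sin x ^ 2 * cos x ^ 5 * sin y * cos y ^ 3 * s2 ^ 3 * s3 ^ 2 + (-6) * sin x ^ 2 * cos x ^ 5 * sin y * cos
    y ^ 3 * s2 ^ 3 + 4 * sin x ^ 2 * cos x ^ 5 * sin y * cos y ^ 3 * s2 ^ 2 * s3 ^ 2 + 2 * sin x ^ 2 * cos x
    ^ 5 * sin y * cos y ^ 3 * s2 ^ 2 + (-4) * cos x ^ 9 * sin y ^ 4 * s2 ^ 5 + (-8) * cos x ^ 9 * sin y ^ 4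
    * s2 ^ 4 * s3 ^ 2 + 8 * cos x ^ 9 * sin y ^ 4 * s2 ^ 3 * s3 ^ 2 + 3 * cos x ^ 9 * sin y ^ 4 * s2 ^ 3 +
    (-2) * cos x ^ 9 * sin y ^ 4 * s2 ^ 2 * s3 ^ 2 + (-1) * cos x ^ 9 * sin y ^ 4 * s2 ^ 2 + (-4) * cos x ^
    9 * sin y ^ 3 * cos y * s2 ^ 4 + (-8) * cos x ^ 9 * sin y ^ 3 * cos y * s2 ^ 3 * s3 ^ 2 + (-2) * cos x ^
    9 * sin y ^ 3 * cos y * s2 ^ 3 + 4 * cos x ^ 9 * sin y ^ 3 * cos y * s2 ^ 2 * s3 ^ 2 + 2 * cos x ^ 9 *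
    sin y ^ 3 * cos y * s2 ^ 2 + (-1) * cos x ^ 9 * sin y ^ 2 * cos y ^ 2 * s2 ^ 3 + (-2) * cos x ^ 9 * sin
    y ^ 2 * cos y ^ 2 * s2 ^ 2 * s3 ^ 2 + (-1) * cos x ^ 9 * sin y ^ 2 * cos y ^ 2 * s2 ^ 2 + 4 * cos x ^ 7
    * sin y ^ 4 * s2 ^ 5 + 8 * cos x ^ 7 * sin y ^ 4 * s2 ^ 4 * s3 ^ 2 + (-8) * cos x ^ 7 * sin y ^ 4 * s2 ^
    3 * s3 ^ 2 + (-3) * cos x ^ 7 * sin y ^ 4 * s2 ^ 3 + 2 * cos x ^ 7 * sin y ^ 4 * s2 ^ 2 * s3 ^ 2 + cos x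
    ^ 7 * sin y ^ 4 * s2 ^ 2 + 4 * cos x ^ 7 * sin y ^ 3 * cos y * s2 ^ 4 + 8 * cos x ^ 7 * sin y ^ 3 * cos
    y * s2 ^ 3 * s3 ^ 2 + 2 * cos x ^ 7 * sin y ^ 3 * cos y * s2 ^ 3 + (-4) * cos x ^ 7 * sin y ^ 3 * cos y
    * s2 ^ 2 * s3 ^ 2 + (-2) * cos x ^ 7 * sin y ^ 3 * cos y * s2 ^ 2 + cos x ^ 7 * sin y ^ 2 * cos y ^ 2 *
    s2 ^ 3 + 2 * cos x ^ 7 * sin y ^ 2 * cos y ^ 2 * s2 ^ 2 * s3 ^ 2 + cos x ^ 7 * sin y ^ 2 * cos y ^ 2 *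
    s2 ^ 2) * hr +     (2 * sin x ^ 8 * cos x * sin y ^ 4 * s2 ^ 4 + 2 * sin x ^ 8 * cos x * sin y ^ 4 * s2
    ^ 3 + (-1/2) * sin x ^ 8 * cos x * sin y ^ 4 * s2 ^ 2 + (1/4) * sin x ^ 8 * cos x * sin y ^ 4 + 8 * sin
    x ^ 8 * cos x * sin y ^ 3 * cos y * s2 ^ 5 + 8 * sin x ^ 8 * cos x * sin y ^ 3 * cos y * s2 ^ 4 + (-2) *
    sin x ^ 8 * cos x * sin y ^ 3 * cos y * s2 ^ 3 + sin x ^ 8 * cos x * sin y ^ 3 * cos y * s2 + 8 * sin x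
    ^ 8 * cos x * sin y ^ 2 * cos y ^ 2 * s2 ^ 6 + 16 * sin x ^ 8 * cos x * sin y ^ 2 * cos y ^ 2 * s2 ^ 5 +
    (-8) * sin x ^ 8 * cos x * sin y ^ 2 * cos y ^ 2 * s2 ^ 3 + (5/2) * sin x ^ 8 * cos x * sin y ^ 2 * cos
    y ^ 2 * s2 ^ 2 + sin x ^ 8 * cos x * sin y ^ 2 * cos y ^ 2 * s2 + (-1/4) * sin x ^ 8 * cos x * sin y ^ 2
    * cos y ^ 2 + 16 * sin x ^ 8 * cos x * sin y * cos y ^ 3 * s2 ^ 6 + 16 * sin x ^ 8 * cos x * sin y * cos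
    y ^ 3 * s2 ^ 5 + (-8) * sin x ^ 8 * cos x * sin y * cos y ^ 3 * s2 ^ 4 + (-4) * sin x ^ 8 * cos x * sin
    y * cos y ^ 3 * s2 ^ 3 + 3 * sin x ^ 8 * cos x * sin y * cos y ^ 3 * s2 ^ 2 + (1/2) * sin x ^ 8 * cos x
    * sin y * cos y ^ 3 + (-8) * sin x ^ 6 * cos x ^ 3 * sin y ^ 4 * s2 ^ 6 + 8 * sin x ^ 6 * cos x ^ 3 *
    sin y ^ 4 * s2 ^ 4 + (-4) * sin x ^ 6 * cos x ^ 3 * sin y ^ 4 * s2 ^ 3 + (-1) * sin x ^ 6 * cos x ^ 3 *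
    sin y ^ 4 * s2 ^ 2 + (-3/2) * sin x ^ 6 * cos x ^ 3 * sin y ^ 4 + (-16) * sin x ^ 6 * cos x ^ 3 * sin y
    ^ 3 * cos y * s2 ^ 6 + (-8) * sin x ^ 6 * cos x ^ 3 * sin y ^ 3 * cos y * s2 ^ 5 + 16 * sin x ^ 6 * cos
    x ^ 3 * sin y ^ 3 * cos y * s2 ^ 4 + (-7) * sin x ^ 6 * cos x ^ 3 * sin y ^ 3 * cos y * s2 ^ 2 + (-2) *
    sin x ^ 6 * cos x ^ 3 * sin y ^ 3 * cos y * s2 + (-5/2) * sin x ^ 6 * cos x ^ 3 * sin y ^ 3 * cos y + 32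
    * sin x ^ 6 * cos x ^ 3 * sin y ^ 2 * cos y ^ 2 * s2 ^ 5 + 12 * sin x ^ 6 * cos x ^ 3 * sin y ^ 2 * cos
    y ^ 2 * s2 ^ 4 + (-32) * sin x ^ 6 * cos x ^ 3 * sin y ^ 2 * cos y ^ 2 * s2 ^ 3 + (-1) * sin x ^ 6 * cos
    x ^ 3 * sin y ^ 2 * cos y ^ 2 * s2 ^ 2 + 2 * sin x ^ 6 * cos x ^ 3 * sin y ^ 2 * cos y ^ 2 * s2 + (-7/2)
    * sin x ^ 6 * cos x ^ 3 * sin y ^ 2 * cos y ^ 2 + 16 * sin x ^ 6 * cos x ^ 3 * sin y * cos y ^ 3 * s2 ^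
    6 + (-24) * sin x ^ 6 * cos x ^ 3 * sin y * cos y ^ 3 * s2 ^ 4 + (-4) * sin x ^ 6 * cos x ^ 3 * sin y *
    cos y ^ 3 * s2 ^ 3 + (-3) * sin x ^ 6 * cos x ^ 3 * sin y * cos y ^ 3 * s2 ^ 2 + (-4) * sin x ^ 6 * cos
    x ^ 3 * sin y * cos y ^ 3 * s2 + (-1/2) * sin x ^ 6 * cos x ^ 3 * sin y * cos y ^ 3 + (-2) * sin x ^ 6 *
    cos x * sin y ^ 4 * s2 ^ 4 + (-2) * sin x ^ 6 * cos x * sin y ^ 4 * s2 ^ 3 + (1/2) * sin x ^ 6 * cos x *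
    sin y ^ 4 * s2 ^ 2 + (-1/4) * sin x ^ 6 * cos x * sin y ^ 4 + (-8) * sin x ^ 6 * cos x * sin y ^ 3 * cos
    y * s2 ^ 5 + (-8) * sin x ^ 6 * cos x * sin y ^ 3 * cos y * s2 ^ 4 + 2 * sin x ^ 6 * cos x * sin y ^ 3 *
    cos y * s2 ^ 3 + (-1) * sin x ^ 6 * cos x * sin y ^ 3 * cos y * s2 + 16 * sin x ^ 6 * cos x * sin y ^ 2
    * cos y ^ 2 * s2 ^ 6 + 8 * sin x ^ 6 * cos x * sin y ^ 2 * cos y ^ 2 * s2 ^ 5 + (-20) * sin x ^ 6 * cos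
    x * sin y ^ 2 * cos y ^ 2 * s2 ^ 4 + (-8) * sin x ^ 6 * cos x * sin y ^ 2 * cos y ^ 2 * s2 ^ 3 + (3/2) *
    sin x ^ 6 * cos x * sin y ^ 2 * cos y ^ 2 * s2 ^ 2 + (-1) * sin x ^ 6 * cos x * sin y ^ 2 * cos y ^ 2 *
    s2 + (1/4) * sin x ^ 6 * cos x * sin y ^ 2 * cos y ^ 2 + 8 * sin x ^ 6 * cos x * sin y * cos y ^ 3 * s2
    ^ 5 + 8 * sin x ^ 6 * cos x * sin y * cos y ^ 3 * s2 ^ 4 + (-4) * sin x ^ 6 * cos x * sin y * cos y ^ 3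
    * s2 ^ 3 + (-3) * sin x ^ 6 * cos x * sin y * cos y ^ 3 * s2 ^ 2 + (-1/2) * sin x ^ 6 * cos x * sin y *
    cos y ^ 3 + (-16) * sin x ^ 4 * cos x ^ 5 * sin y ^ 3 * cos y * s2 ^ 6 + (-8) * sin x ^ 4 * cos x ^ 5 *
    sin y ^ 3 * cos y * s2 ^ 5 + 16 * sin x ^ 4 * cos x ^ 5 * sin y ^ 3 * cos y * s2 ^ 4 + 4 * sin x ^ 4 *
    cos x ^ 5 * sin y ^ 3 * cos y * s2 ^ 3 + (-1) * sin x ^ 4 * cos x ^ 5 * sin y ^ 3 * cos y * s2 ^ 2 +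
    (-3/2) * sin x ^ 4 * cos x ^ 5 * sin y ^ 3 * cos y + (-8) * sin x ^ 4 * cos x ^ 5 * sin y ^ 2 * cos y ^
    2 * s2 ^ 6 + 16 * sin x ^ 4 * cos x ^ 5 * sin y ^ 2 * cos y ^ 2 * s2 ^ 5 + 16 * sin x ^ 4 * cos x ^ 5 *
    sin y ^ 2 * cos y ^ 2 * s2 ^ 4 + (-24) * sin x ^ 4 * cos x ^ 5 * sin y ^ 2 * cos y ^ 2 * s2 ^ 3 + (-10)
    * sin x ^ 4 * cos x ^ 5 * sin y ^ 2 * cos y ^ 2 * s2 ^ 2 + (-3) * sin x ^ 4 * cos x ^ 5 * sin y ^ 2 *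
    cos y ^ 2 + (-16) * sin x ^ 4 * cos x ^ 5 * sin y * cos y ^ 3 * s2 ^ 5 + (-16) * sin x ^ 4 * cos x ^ 5 *
    sin y * cos y ^ 3 * s2 ^ 4 + 4 * sin x ^ 4 * cos x ^ 5 * sin y * cos y ^ 3 * s2 ^ 3 + sin x ^ 4 * cos x
    ^ 5 * sin y * cos y ^ 3 * s2 ^ 2 + (3/2) * sin x ^ 4 * cos x ^ 5 * sin y * cos y ^ 3 + (-16) * sin x ^ 4
    * cos x ^ 3 * sin y ^ 4 * s2 ^ 6 + (-24) * sin x ^ 4 * cos x ^ 3 * sin y ^ 4 * s2 ^ 5 + 14 * sin x ^ 4 *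
    cos x ^ 3 * sin y ^ 4 * s2 ^ 4 + 22 * sin x ^ 4 * cos x ^ 3 * sin y ^ 4 * s2 ^ 3 + (-7/2) * sin x ^ 4 *
    cos x ^ 3 * sin y ^ 4 * s2 ^ 2 + (7/4) * sin x ^ 4 * cos x ^ 3 * sin y ^ 4 + (-8) * sin x ^ 4 * cos x ^
    3 * sin y ^ 3 * cos y * s2 ^ 5 + (-8) * sin x ^ 4 * cos x ^ 3 * sin y ^ 3 * cos y * s2 ^ 4 + 6 * sin x ^
    4 * cos x ^ 3 * sin y ^ 3 * cos y * s2 ^ 3 + 7 * sin x ^ 4 * cos x ^ 3 * sin y ^ 3 * cos y * s2 ^ 2 + 3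
    * sin x ^ 4 * cos x ^ 3 * sin y ^ 3 * cos y * s2 + (5/2) * sin x ^ 4 * cos x ^ 3 * sin y ^ 3 * cos y +
    (-16) * sin x ^ 4 * cos x ^ 3 * sin y ^ 2 * cos y ^ 2 * s2 ^ 6 + (-40) * sin x ^ 4 * cos x ^ 3 * sin y ^
    2 * cos y ^ 2 * s2 ^ 5 + 8 * sin x ^ 4 * cos x ^ 3 * sin y ^ 2 * cos y ^ 2 * s2 ^ 4 + 40 * sin x ^ 4 *
    cos x ^ 3 * sin y ^ 2 * cos y ^ 2 * s2 ^ 3 + (-1/2) * sin x ^ 4 * cos x ^ 3 * sin y ^ 2 * cos y ^ 2 * s2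
    ^ 2 + (-1) * sin x ^ 4 * cos x ^ 3 * sin y ^ 2 * cos y ^ 2 * s2 + (13/4) * sin x ^ 4 * cos x ^ 3 * sin y
    ^ 2 * cos y ^ 2 + (-8) * sin x ^ 4 * cos x ^ 3 * sin y * cos y ^ 3 * s2 ^ 5 + (-24) * sin x ^ 4 * cos x
    ^ 3 * sin y * cos y ^ 3 * s2 ^ 4 + (-8) * sin x ^ 4 * cos x ^ 3 * sin y * cos y ^ 3 * s2 ^ 3 + 14 * sin
    x ^ 4 * cos x ^ 3 * sin y * cos y ^ 3 * s2 ^ 2 + 4 * sin x ^ 4 * cos x ^ 3 * sin y * cos y ^ 3 * s2 +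
    sin x ^ 4 * cos x ^ 3 * sin y * cos y ^ 3 + 8 * sin x ^ 2 * cos x ^ 7 * sin y ^ 4 * s2 ^ 6 + (-8) * sin
    x ^ 2 * cos x ^ 7 * sin y ^ 4 * s2 ^ 4 + 4 * sin x ^ 2 * cos x ^ 7 * sin y ^ 4 * s2 ^ 3 + sin x ^ 2 *
    cos x ^ 7 * sin y ^ 4 * s2 ^ 2 + (3/2) * sin x ^ 2 * cos x ^ 7 * sin y ^ 4 + 8 * sin x ^ 2 * cos x ^ 7 *
    sin y ^ 3 * cos y * s2 ^ 5 + 8 * sin x ^ 2 * cos x ^ 7 * sin y ^ 3 * cos y * s2 ^ 4 + 3 * sin x ^ 2 *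
    cos x ^ 7 * sin y ^ 3 * cos y * s2 ^ 2 + 2 * sin x ^ 2 * cos x ^ 7 * sin y ^ 3 * cos y * s2 + (1/2) *
    sin x ^ 2 * cos x ^ 7 * sin y ^ 3 * cos y + 4 * sin x ^ 2 * cos x ^ 7 * sin y ^ 2 * cos y ^ 2 * s2 ^ 4 +
    (-7) * sin x ^ 2 * cos x ^ 7 * sin y ^ 2 * cos y ^ 2 * s2 ^ 2 + (-2) * sin x ^ 2 * cos x ^ 7 * sin y ^ 2
    * cos y ^ 2 * s2 + (-1/2) * sin x ^ 2 * cos x ^ 7 * sin y ^ 2 * cos y ^ 2 + 4 * sin x ^ 2 * cos x ^ 7 *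
    sin y * cos y ^ 3 * s2 ^ 3 + 7 * sin x ^ 2 * cos x ^ 7 * sin y * cos y ^ 3 * s2 ^ 2 + 4 * sin x ^ 2 *
    cos x ^ 7 * sin y * cos y ^ 3 * s2 + (5/2) * sin x ^ 2 * cos x ^ 7 * sin y * cos y ^ 3 + 16 * sin x ^ 2
    * cos x ^ 5 * sin y ^ 4 * s2 ^ 6 + 24 * sin x ^ 2 * cos x ^ 5 * sin y ^ 4 * s2 ^ 5 + (-14) * sin x ^ 2 *
    cos x ^ 5 * sin y ^ 4 * s2 ^ 4 + (-22) * sin x ^ 2 * cos x ^ 5 * sin y ^ 4 * s2 ^ 3 + (7/2) * sin x ^ 2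
    * cos x ^ 5 * sin y ^ 4 * s2 ^ 2 + (-7/4) * sin x ^ 2 * cos x ^ 5 * sin y ^ 4 + 16 * sin x ^ 2 * cos x ^
    5 * sin y ^ 3 * cos y * s2 ^ 5 + 32 * sin x ^ 2 * cos x ^ 5 * sin y ^ 3 * cos y * s2 ^ 4 + 6 * sin x ^ 2
    * cos x ^ 5 * sin y ^ 3 * cos y * s2 ^ 3 + (-14) * sin x ^ 2 * cos x ^ 5 * sin y ^ 3 * cos y * s2 ^ 2 +
    (-3) * sin x ^ 2 * cos x ^ 5 * sin y ^ 3 * cos y * s2 + (-1) * sin x ^ 2 * cos x ^ 5 * sin y ^ 3 * cos y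
    + (-4) * sin x ^ 2 * cos x ^ 5 * sin y ^ 2 * cos y ^ 2 * s2 ^ 4 + (13/2) * sin x ^ 2 * cos x ^ 5 * sin y
    ^ 2 * cos y ^ 2 * s2 ^ 2 + sin x ^ 2 * cos x ^ 5 * sin y ^ 2 * cos y ^ 2 * s2 + (-1/4) * sin x ^ 2 * cos
    x ^ 5 * sin y ^ 2 * cos y ^ 2 + (-4) * sin x ^ 2 * cos x ^ 5 * sin y * cos y ^ 3 * s2 ^ 3 + (-7) * sin x
    ^ 2 * cos x ^ 5 * sin y * cos y ^ 3 * s2 ^ 2 + (-4) * sin x ^ 2 * cos x ^ 5 * sin y * cos y ^ 3 * s2 +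
    (-5/2) * sin x ^ 2 * cos x ^ 5 * sin y * cos y ^ 3 + (-2) * cos x ^ 9 * sin y ^ 4 * s2 ^ 4 + (-2) * cos
    x ^ 9 * sin y ^ 4 * s2 ^ 3 + (1/2) * cos x ^ 9 * sin y ^ 4 * s2 ^ 2 + (-1/4) * cos x ^ 9 * sin y ^ 4 +
    (-2) * cos x ^ 9 * sin y ^ 3 * cos y * s2 ^ 3 + (-3) * cos x ^ 9 * sin y ^ 3 * cos y * s2 ^ 2 + (-1) *
    cos x ^ 9 * sin y ^ 3 * cos y * s2 + (-1/2) * cos x ^ 9 * sin y ^ 3 * cos y + (-1/2) * cos x ^ 9 * sin y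
    ^ 2 * cos y ^ 2 * s2 ^ 2 + (-1) * cos x ^ 9 * sin y ^ 2 * cos y ^ 2 * s2 + (-3/4) * cos x ^ 9 * sin y ^
    2 * cos y ^ 2 + 2 * cos x ^ 7 * sin y ^ 4 * s2 ^ 4 + 2 * cos x ^ 7 * sin y ^ 4 * s2 ^ 3 + (-1/2) * cos x
    ^ 7 * sin y ^ 4 * s2 ^ 2 + (1/4) * cos x ^ 7 * sin y ^ 4 + 2 * cos x ^ 7 * sin y ^ 3 * cos y * s2 ^ 3 +
    3 * cos x ^ 7 * sin y ^ 3 * cos y * s2 ^ 2 + cos x ^ 7 * sin y ^ 3 * cos y * s2 + (1/2) * cos x ^ 7 *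
    sin y ^ 3 * cos y + (1/2) * cos x ^ 7 * sin y ^ 2 * cos y ^ 2 * s2 ^ 2 + cos x ^ 7 * sin y ^ 2 * cos y ^
    2 * s2 + (3/4) * cos x ^ 7 * sin y ^ 2 * cos y ^ 2) * hq +     ((1/8) * sin x ^ 6 * cos x * sin y ^ 4 +
    (1/2) * sin x ^ 6 * cos x * sin y ^ 3 * cos y * s2 + (1/2) * sin x ^ 6 * cos x * sin y ^ 2 * cos y ^ 2 *
    s2 + (-1/8) * sin x ^ 6 * cos x * sin y ^ 2 * cos y ^ 2 + (1/4) * sin x ^ 6 * cos x * sin y * cos y ^ 3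
    + (-7/8) * sin x ^ 4 * cos x ^ 3 * sin y ^ 4 + (-3/2) * sin x ^ 4 * cos x ^ 3 * sin y ^ 3 * cos y * s2 +
    (-5/4) * sin x ^ 4 * cos x ^ 3 * sin y ^ 3 * cos y + (1/2) * sin x ^ 4 * cos x ^ 3 * sin y ^ 2 * cos y ^
    2 * s2 + (-13/8) * sin x ^ 4 * cos x ^ 3 * sin y ^ 2 * cos y ^ 2 + (-2) * sin x ^ 4 * cos x ^ 3 * sin y
    * cos y ^ 3 * s2 + (-1/2) * sin x ^ 4 * cos x ^ 3 * sin y * cos y ^ 3 + (7/8) * sin x ^ 2 * cos x ^ 5 *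
    sin y ^ 4 + (3/2) * sin x ^ 2 * cos x ^ 5 * sin y ^ 3 * cos y * s2 + (1/2) * sin x ^ 2 * cos x ^ 5 * sin
    y ^ 3 * cos y + (-1/2) * sin x ^ 2 * cos x ^ 5 * sin y ^ 2 * cos y ^ 2 * s2 + (1/8) * sin x ^ 2 * cos x
    ^ 5 * sin y ^ 2 * cos y ^ 2 + 2 * sin x ^ 2 * cos x ^ 5 * sin y * cos y ^ 3 * s2 + (5/4) * sin x ^ 2 *
    cos x ^ 5 * sin y * cos y ^ 3 + (-1/8) * cos x ^ 7 * sin y ^ 4 + (-1/2) * cos x ^ 7 * sin y ^ 3 * cos y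
    * s2 + (-1/4) * cos x ^ 7 * sin y ^ 3 * cos y + (-1/2) * cos x ^ 7 * sin y ^ 2 * cos y ^ 2 * s2 + (-3/8)
    * cos x ^ 7 * sin y ^ 2 * cos y ^ 2) * hx

theorem dl_prod (u x : ℂ) : dl u x = 2 * (sin (u + x) * fa' (u - x)) := by
  unfold dl fa fa' fe
  have h1 := two_sin_sin u (3 * lam - u)
  have h2 := two_sin_sin x (3 * lam + x)
  have h3 := two_sin_sin (u + x) (3 * lam - (u - x))
  have e1 : cos (u + (3 * lam - u)) = cos (3 * lam) := by congr 1; ring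
  have e2 : cos (x - (3 * lam + x)) = cos (3 * lam) := by
    rw [← Complex.cos_neg]; congr 1; ring
  have e3 : cos (u + x - (3 * lam - (u - x))) = cos (u - (3 * lam - u)) := by congr 1; ring
  have e4 : cos (u + x + (3 * lam - (u - x))) = cos (x + (3 * lam + x)) := by congr 1; ring
  linear_combination h1 + h2 - h3 - e1 + e2 - e3 + e4

theorem pr_e (x y : ℂ) : pr x y = 2 * Dn (x - y) * fb (x + y) / sin (x - y) := by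
  unfold pr fb
  rw [show y + x + 2 * lam = 2 * lam + (x + y) by ring]

theorem pr_r (x y : ℂ) : pr y x = - (2 * Dn (-(x - y)) * fb (x + y) / sin (x - y)) := by
  rw [pr_e, show y - x = -(x - y) by ring, Complex.sin_neg, div_neg, show y + x = x + y by ring]

/-- reflection of the pair factors -/
theorem pr_K {x y : ℂ} (h1 : sin (x - y) ≠ 0) (h2 : sin (x + y) ≠ 0) :
    pr x (-y) * dl y x = pr x y * dl (-y) x := by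
  rw [pr_e, pr_e, dl_prod, dl_prod]
  rw [show x - -y = x + y by ring, show x + -y = x - y by ring, show y + x = x + y by ring,
    show -y + x = x - y by ring]
  have e1 : fa' (y - x) = fe (x - y) := by unfold fa' fe; congr 1; ring
  have e2 : fa' (-y - x) = fe (x + y) := by unfold fa' fe; congr 1; ring
  rw [e1, e2, Dn_eq, Dn_eq]
  field_simp

/-! ### The node `z_i + 3l` -/

theorem sin_3lam_add (x : ℂ) : fe x = sin (x + 3 * lam) := by unfold fe; congr 1; ring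

theorem Dn_3 (x : ℂ) : Dn (x + 3 * lam) = Dn (-x) := by
  rw [Dn_neg_e, Dn_eq]
  unfold fb fe fa'
  have e1 : sin (2 * lam + (x + 3 * lam)) = sin (3 * lam - x) := by
    have := sin_8lam_add (x - 3 * lam)
    rw [show 8 * lam + (x - 3 * lam) = 2 * lam + (x + 3 * lam) by ring] at this
    rw [this, ← Complex.sin_neg]
    congr 1; ring
  have e2 : sin (3 * lam + (x + 3 * lam)) = sin (2 * lam - x) := by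
    have := sin_8lam_add (x - 2 * lam)
    rw [show 8 * lam + (x - 2 * lam) = 3 * lam + (x + 3 * lam) by ring] at this
    rw [this, ← Complex.sin_neg]
    congr 1; ring
  rw [e1, e2]
  ring

theorem fb_3 (x : ℂ) : fb (x + 3 * lam) = fa' x := by
  unfold fb fa'
  have := sin_8lam_add (x - 3 * lam)
  rw [show 8 * lam + (x - 3 * lam) = 2 * lam + (x + 3 * lam) by ring] at this
  rw [this, ← Complex.sin_neg]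
  congr 1; ring

theorem fa_3 (x : ℂ) : fa (x + 3 * lam) = fe x := by unfold fa; rw [← sin_3lam_add]

theorem fa'_3 (x : ℂ) : fa' (x + 3 * lam) = - fa x := by
  unfold fa' fa
  rw [← Complex.sin_neg]
  congr 1; ring

theorem pr_3 (x y : ℂ) : pr (x + 3 * lam) y = 2 * Dn (-(x - y)) * fa' (x + y) / fe (x - y) := by
  rw [pr_e, show x + 3 * lam - y = (x - y) + 3 * lam by ring, Dn_3,
    show x + 3 * lam + y = (x + y) + 3 * lam by ring, fb_3, ← sin_3lam_add]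

theorem Dn_0 : Dn 0 = s2 * s3 := by
  unfold Dn s2 s3
  rw [add_zero, add_zero]

theorem pr_3s (x : ℂ) : pr (x + 3 * lam) x = 2 * s2 * fa' (2 * x) := by
  rw [pr_3, sub_self, neg_zero, Dn_0, show x + x = 2 * x by ring]
  have : fe 0 = s3 := by unfold fe s3; rw [add_zero]
  rw [this]
  have := s3_ne
  field_simp

theorem dl_3 (x y : ℂ) : dl (x + 3 * lam) y = - (2 * fe (x + y) * sin (x - y)) := by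
  rw [dl_prod, show x + 3 * lam + y = (x + y) + 3 * lam by ring, ← sin_3lam_add,
    show x + 3 * lam - y = (x - y) + 3 * lam by ring, fa'_3]
  unfold fa
  ring

theorem dl_3s (x : ℂ) : dl (x + 3 * lam) x = 0 := by rw [dl_3, sub_self, Complex.sin_zero, mul_zero, neg_zero]

/-- the constant of the node `z_i + 3l` -/
noncomputable def Ga (x : ℂ) : ℂ := fb x * fa' x * fe x / fa x

theorem Z20 {x : ℂ} (hx : fa x ≠ 0) (P : ℂ) :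
    2 * (fb x / fa x * P * fb (x + 3 * lam) - fa (x + 3 * lam)) * fe x -
      fa (x + 3 * lam) * pr (x + 3 * lam) x / fa x = Ga x * (2 * (P - 1)) := by
  rw [fb_3, fa_3, pr_3s]
  unfold Ga
  have h := O1 x
  field_simp
  linear_combination (-1 : ℂ) * fe x * h

theorem Z2j {x y : ℂ} (hx : fa x ≠ 0) (hy : fa y ≠ 0) (h1 : sin (x - y) ≠ 0) (h2 : fe (x - y) ≠ 0) :
    fa (x + 3 * lam) * (pr (x + 3 * lam) y * pr x y / fa y * fe x +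
      pr (x + 3 * lam) x * pr y x / fa x * fe y) = Ga x * pr y x * dl (x + 3 * lam) y / fa y := by
  rw [fa_3, pr_3, pr_3s, pr_r x y, pr_e x y, dl_3, Dn_eq (x - y)]
  unfold Ga
  have h := T2 x y
  field_simp
  linear_combination fe x * Dn (-(x - y)) * fb (x + y) * h

/-! ### The node `- z_i` -/

noncomputable def Gb (x : ℂ) : ℂ := fb x * sin (2 * lam - x) * fa' x * fe x / fa x

theorem fa_n (x : ℂ) : fa (-x) = - fa x := by unfold fa; rw [Complex.sin_neg]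
theorem fa'_n (x : ℂ) : fa' (-x) = fe x := by unfold fa' fe; congr 1; ring
theorem fe_n (x : ℂ) : fe (-x) = fa' x := by unfold fa' fe; congr 1
theorem fb_n (x : ℂ) : fb (-x) = sin (2 * lam - x) := by unfold fb; congr 1

theorem fb_0 : fb 0 = s2 := by unfold fb s2; rw [add_zero]

theorem pr_n1 (x y : ℂ) : pr y (-x) = 2 * Dn (x + y) * sin (2 * lam - (x - y)) / sin (x + y) := by
  rw [pr_e, show y - -x = x + y by ring, show y + -x = -(x - y) by ring, fb_n]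

theorem pr_n2 (x y : ℂ) : pr (-x) y = - (2 * Dn (-(x + y)) * sin (2 * lam - (x - y)) / sin (x + y)) := by
  rw [pr_e, show -x - y = -(x + y) by ring, show -x + y = -(x - y) by ring, fb_n, Complex.sin_neg, div_neg]

theorem dl_n (x y : ℂ) : dl (-x) y = - (2 * fe (x + y) * sin (x - y)) := by
  rw [dl_prod, show -x + y = -(x - y) by ring, show -x - y = -(x + y) by ring, fa'_n, Complex.sin_neg]
  ring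

theorem dl_ns (x : ℂ) : dl (-x) x = 0 := by rw [dl_n, sub_self, Complex.sin_zero, mul_zero, neg_zero]

theorem Z30 {x : ℂ} (hx : fa x ≠ 0) (h2 : sin (x + x) ≠ 0) (P : ℂ) :
    2 * (fb x / fa x * P * fb (-x) - fa (-x)) * fa' x * fe x - fe x * pr x (-x) + fa' x * pr (-x) x =
      Gb x * (2 * (P - 1)) := by
  rw [fb_n, fa_n, pr_n1, pr_n2, sub_self, sub_zero]
  unfold Gb
  have h3 := O3 x
  have h4 := O4 x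
  have e : sin (2 * lam) = s2 := rfl
  have e2 : sin (x + x) = 2 * fa x * cos x := by
    rw [← two_mul, Complex.sin_two_mul]; rfl
  have hc : cos x ≠ 0 := by
    intro hc
    rw [e2, hc, mul_zero] at h2
    exact h2 rfl
  rw [e, e2, show x + x = 2 * x by ring]
  field_simp
  linear_combination s2 * h3 + 2 * cos x * fa' x * fe x * h4

theorem Z3j {x y : ℂ} (hx : fa x ≠ 0) (hy : fa y ≠ 0) (h1 : sin (x - y) ≠ 0) (h2 : sin (x + y) ≠ 0)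
    (h3 : sin (x + x) ≠ 0) :
    - (fe x * fe y * pr x (-x) * pr y (-x)) + fa' x * fe y * pr (-x) x * pr y x +
      fa x * fa' x * fe x * pr (-x) y * pr x y / fa y = - (Gb x * pr y x * dl (-x) y / fa y) := by
  rw [pr_n1, pr_n1 x y, pr_n2, pr_n2 x y, pr_r, pr_e x y, dl_n, sub_self, sub_zero]
  unfold Gb
  have h := T5 x y
  have e : sin (2 * lam) = s2 := rfl
  have e2 : sin (x + x) = 2 * fa x * cos x := by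
    rw [← two_mul, Complex.sin_two_mul]; rfl
  have hc : cos x ≠ 0 := by
    intro hc
    rw [e2, hc, mul_zero] at h3
    exact h3 rfl
  rw [e, e2, show x + x = 2 * x by ring, Dn_eq (x + y), Dn_neg_e (x - y)]
  field_simp
  linear_combination fb (x + y) * sin (2 * lam - (x - y)) * h

end Pool.Agent.NUF.Fr
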