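import Pool.Agent.NUZ.InjDN
import Pool.Agent.NUF.UPlan
import Pool.Agent.NUF.ULin

/-!
# The column of the loop gas at the honeycomb point: `1 - T` is injective on the non-empty states
-/

set_option autoImplicit false

namespace Pool.Agent.NUF

open _root_.Pool.Agent.EXL _root_.Pool.Agent.EXL.Pat _root_.Pool.Agent.EXL.HS _root_.Pool.Agent.EXL.Site HexObs

/-- The embedding is onto the states with the right values. -/
theorem exists_st {α β : Type*} (E : Pat.Emb β α) (p : Pat α) (h1 : ∀ b, ∃ c, p (E.φ b) = E.φ c)
    (h2 : ∀ x, (¬ ∃ b, E.φ b = x) → p x = E.p₀ x) : ∃ q, E.st q = p := by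
  choose f hf using h1
  refine ⟨⟨f, fun b => E.inj (by rw [← hf, ← hf, p.inv])⟩, ?_⟩
  ext x
  by_cases hx : ∃ b, E.φ b = x
  · obtain ⟨b, rfl⟩ := hx
    rw [Pat.Emb.st_apply, hf]
  · rw [Pat.Emb.st_apply' _ _ hx, h2 x hx]

theorem st_inj {α β : Type*} (E : Pat.Emb β α) {q q' : Pat β} (h : E.st q = E.st q') : q = q' := by
  ext b
  apply E.inj
  rw [← Pat.Emb.st_apply, ← Pat.Emb.st_apply, h]

theorem M_st {α β K : Type*} [DecidableEq α] [DecidableEq β] [CommRing K] (E : Pat.Emb β α) (w : Wt K)
    (a : β) (L : List β) (F : Pat α → K) (q : Pat β) :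
    M (fun _ => w) (E.φ a) (L.map E.φ) F (E.st q) = M (fun _ => w) a L (fun q => F (E.st q)) q := by
  induction L generalizing q with
  | nil => rfl
  | cons j L ih =>
    rw [List.map_cons, M_cons, M_cons, R_st]
    congr 1
    funext q'
    exact ih q'

section

variable {α : Type*} [DecidableEq α] {X : List α} {c : α}

/-- the rows and the auxiliary line in the sites of the strip with joined ends. -/
def E1 (N : ℕ) : Pat.Emb (Option (Fin N)) (Site N) where
  φ o := o.elim (ax 0) row
  inj a b h := by
    rcases a with _ | a <;> rcases b with _ | b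
    · rfl
    · simp at h
    · simp at h
    · simp only [Option.elim_some, row.injEq] at h
      rw [h]
  p₀ := full fl tp
  closed b := by
    refine ⟨b, ?_⟩
    rcases b with _ | b
    · simp only [Option.elim_none]
      rw [full_apply, if_neg (by simp), if_neg (by simp)]
    · simp only [Option.elim_some]
      rw [full_apply, if_neg (by simp), if_neg (by simp)]

/-- the rows of a list and an auxiliary line. -/
def E2 (hn : X.Nodup) (hc : c ∉ X) : Pat.Emb (Option (Fin X.length)) α where
  φ o := o.elim c X.get
  inj a b h := by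
    rcases a with _ | a <;> rcases b with _ | b
    · rfl
    · simp only [Option.elim_none, Option.elim_some] at h
      exact absurd (h ▸ List.get_mem X b) hc
    · simp only [Option.elim_none, Option.elim_some] at h
      exact absurd (h ▸ List.get_mem X a) hc
    · simp only [Option.elim_some] at h
      rw [hn.injective_get h]
  p₀ := Pat.empty
  closed b := ⟨b, rfl⟩

theorem E1_none (N : ℕ) : (E1 N).φ none = ax 0 := rfl
theorem E1_some (N : ℕ) (i : Fin N) : (E1 N).φ (some i) = row i := rfl
omit [DecidableEq α] in
theorem E2_none (hn : X.Nodup) (hc : c ∉ X) : (E2 hn hc).φ none = c := rfl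
omit [DecidableEq α] in
theorem E2_some (hn : X.Nodup) (hc : c ∉ X) (i : Fin X.length) : (E2 hn hc).φ (some i) = X.get i := rfl

/-- the abstract column. -/
def colB (K : Type*) [CommRing K] (w : Wt K) (N : ℕ) : (Pat (Option (Fin N)) → K) → Pat (Option (Fin N)) → K :=
  colF (fun _ => w) none ((List.finRange N).map some)

theorem not_E1 {N : ℕ} {x : Site N} (h : x = fl ∨ x = tp) : ¬ ∃ b, (E1 N).φ b = x := by
  rintro ⟨b, hb⟩
  rcases b with _ | b
  · rw [E1_none] at hb
    rcases h with h | h <;> rw [h] at hb <;> simp at hb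
  · rw [E1_some] at hb
    rcases h with h | h <;> rw [h] at hb <;> simp at hb

theorem E1_fl {N : ℕ} (q : Pat (Option (Fin N))) : (E1 N).st q fl = tp := by
  rw [Pat.Emb.st_apply' _ _ (not_E1 (Or.inl rfl))]
  show full fl tp fl = tp
  rw [full_apply, if_pos rfl]

theorem E1_tp {N : ℕ} (q : Pat (Option (Fin N))) : (E1 N).st q tp = fl := by
  rw [← E1_fl q, Pat.inv_apply]

/-- the honeycomb column on the states with joined ends. -/
theorem colH_st {N : ℕ} (F : Pat (Site N) → ℝ) (q : Pat (Option (Fin N))) :
    colH N F ((E1 N).st q) = colB ℝ (hexW HexObs.xc) N (fun q => F ((E1 N).st q)) q := by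
  rw [colH_eq]
  unfold HS.CC colB colF
  have e0 : ∀ q : Pat (Option (Fin N)), ((E1 N).st q) (ax 0) = ax 0 ↔ q none = none := by
    intro q
    rw [← E1_none, Pat.Emb.st_apply, (E1 N).inj.eq_iff]
  have e1 : ∀ (G : Pat (Site N) → ℝ) q, bc (ax 0) fl G ((E1 N).st q) = emp none (fun q => G ((E1 N).st q)) q := by
    intro G q
    simp only [bc, emp]
    by_cases h : q none = none
    · rw [if_pos ((e0 q).2 h), if_pos h, E1_fl, if_neg (by simp)]
    · rw [if_neg fun e => h ((e0 q).1 e), if_neg h]
  have e2 : ∀ (G : Pat (Site N) → ℝ) q, tc (ax 0) tp G ((E1 N).st q) = emp none (fun q => G ((E1 N).st q)) q := by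
    intro G q
    simp only [tc, emp]
    by_cases h : q none = none
    · rw [if_pos ((e0 q).2 h), if_pos h]
    · rw [if_neg fun e => h ((e0 q).1 e), if_neg h, E1_tp, if_neg (by simp)]
  rw [e1]
  congr 1
  funext q'
  have e3 : rowsL N = ((List.finRange N).map some).map (E1 N).φ := by
    unfold rowsL
    rw [List.map_map]
    rfl
  rw [e3, ← E1_none, M_st]
  congr 1
  funext q''
  rw [E1_none, e2]

/-- the column of the list. -/
theorem colF_st {K : Type*} [CommRing K] (w : Wt K) (hn : X.Nodup) (hc : c ∉ X) (F : Pat α → K)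
    (q : Pat (Option (Fin X.length))) :
    colF (fun _ => w) c X F ((E2 hn hc).st q) = colB K w X.length (fun q => F ((E2 hn hc).st q)) q := by
  have e3 : X = ((List.finRange X.length).map some).map (E2 hn hc).φ := by
    rw [List.map_map]
    exact (List.map_get_finRange X).symm
  unfold colB colF
  show emp ((E2 hn hc).φ none) _ ((E2 hn hc).st q) = _
  rw [emp_st]
  congr 1
  funext q'
  have e4 : M (fun _ => w) c X (emp c F) ((E2 hn hc).st q') =
      M (fun _ => w) ((E2 hn hc).φ none) (((List.finRange X.length).map some).map (E2 hn hc).φ)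
        (emp ((E2 hn hc).φ none) F) ((E2 hn hc).st q') := by
    rw [← e3]
    rfl
  rw [e4, M_st]
  congr 1
  funext q''
  rw [emp_st]

theorem idx_get (hn : X.Nodup) (i : Fin X.length) : X.idxOf (X.get i) = i :=
  List.get_idxOf hn i

/-- a planar state on the list comes from a planar state of the strip. -/
theorem ax_to_an (hn : X.Nodup) (hc : c ∉ X) {p : Pat α} (h : AX X p) (hp : p ≠ Pat.empty) :
    ∃ q : Pat (Option (Fin X.length)), (E2 hn hc).st q = p ∧ q none = none ∧
      AN X.length ((E1 X.length).st q) ∧ HS.Dead fl tp ((E1 X.length).st q) := by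
  have hmem : ∀ x, x ∈ X → p x ∈ X := by
    intro x hx
    by_contra h'
    have h1 := ax_out h h'
    rw [p.inv] at h1
    exact h' (h1 ▸ hx)
  have hex : ∀ x, x ∈ X → ∃ i, X.get i = x := fun x hx => List.get_of_mem hx
  obtain ⟨q, hq⟩ := exists_st (E2 hn hc) p (by
    intro b
    rcases b with _ | b
    · exact ⟨none, by rw [E2_none]; exact ax_out h hc⟩
    · obtain ⟨i, hi⟩ := hex _ (hmem _ (List.get_mem X b))
      exact ⟨some i, by rw [E2_some, E2_some, hi]⟩) (by
    intro x hx
    apply ax_out h
    intro hxX
    obtain ⟨i, hi⟩ := hex x hxX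
    exact hx ⟨some i, hi⟩)
  have hqn : q none = none := by
    apply (E2 hn hc).inj
    rw [← Pat.Emb.st_apply, hq, E2_none]
    exact ax_out h hc
  have hrow : ∀ i : Fin X.length, ∃ j : Fin X.length, q (some i) = some j := by
    intro i
    rcases hi : q (some i) with _ | j
    · exfalso
      have := q.inv (some i)
      rw [hi, hqn] at this
      simp at this
    · exact ⟨j, rfl⟩
  refine ⟨q, hq, hqn, ⟨?_, ?_⟩, ?_⟩
  · intro x hx
    unfold DN at hx
    simp only [Set.mem_ofPred_eq, not_forall, not_not] at hx
    obtain ⟨k, rfl⟩ := hx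
    by_cases hk : k = 0
    · rw [hk, ← E1_none, Pat.Emb.st_apply, hqn]
    · rw [Pat.Emb.st_apply']
      · show full fl tp (ax k) = ax k
        rw [full_apply, if_neg (by simp), if_neg (by simp)]
      · rintro ⟨b, hb⟩
        rcases b with _ | b
        · rw [E1_none] at hb
          exact hk (by simpa using hb.symm)
        · rw [E1_some] at hb
          simp at hb
  · -- planar
    have nc := h.nc
    have rfl0 : rk (fl : Site X.length) = 0 := rfl
    have rtp : rk (tp : Site X.length) = 2 * X.length + 2 := rfl
    have rrow : ∀ k : Fin X.length, rk (row k) = 2 * (k : ℤ) + 2 := fun k => rfl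
    have srow : ∀ i j : Fin X.length, q (some i) = some j → (E1 X.length).st q (row i) = row j := by
      intro i j hij
      rw [← E1_some, Pat.Emb.st_apply, hij, E1_some]
    have prow : ∀ i j : Fin X.length, q (some i) = some j → p (X.get i) = X.get j := by
      intro i j hij
      rw [← hq, ← E2_some hn hc, Pat.Emb.st_apply, hij, E2_some]
    have hax : ∀ k, (E1 X.length).st q (ax k) = ax k := by
      intro k
      by_cases hk : k = 0
      · rw [hk, ← E1_none, Pat.Emb.st_apply, hqn]
      · rw [Pat.Emb.st_apply']
        · show full fl tp (ax k) = ax k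
          rw [full_apply, if_neg (by simp), if_neg (by simp)]
        · rintro ⟨b, hb⟩
          rcases b with _ | b
          · rw [E1_none] at hb
            exact hk (by simpa using hb.symm)
          · rw [E1_some] at hb
            simp at hb
    intro a b hab hba
    rcases a with _ | _ | a | a
    · -- the walk
      rw [E1_fl] at hba ⊢
      rcases b with _ | _ | b | b
      · exact absurd hab (lt_irrefl _)
      · exact absurd hba (lt_irrefl _)
      · obtain ⟨j, hj⟩ := hrow b
        rw [srow b j hj, rfl0, rtp, rrow]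
        have := j.2
        constructor <;> omega
      · rw [hax]
        exact ⟨hab, hba⟩
    · rw [E1_tp, rfl0] at hba
      rw [rtp] at hab
      omega
    · obtain ⟨i', hi'⟩ := hrow a
      rw [srow a i' hi'] at hba ⊢
      rcases b with _ | _ | b | b
      · rw [rfl0, rrow] at hab
        omega
      · rw [rtp, rrow] at hba
        have := i'.2
        omega
      · obtain ⟨j, hj⟩ := hrow b
        rw [srow b j hj]
        rw [rrow, rrow] at hab hba
        have h1 := nc (X.get a) (X.get b) (by simp only [idx_get hn]; omega)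
          (by rw [prow a i' hi']; simp only [idx_get hn]; omega)
        rw [prow b j hj, prow a i' hi'] at h1
        simp only [idx_get hn] at h1
        rw [rrow, rrow, rrow]
        omega
      · rw [hax]
        exact ⟨hab, hba⟩
    · rw [hax] at hba
      omega
  · refine ⟨E1_fl q, ?_⟩
    by_contra hcon
    push Not at hcon
    apply hp
    rw [← hq]
    ext x
    show _ = x
    by_cases hx : ∃ b, (E2 hn hc).φ b = x
    · obtain ⟨b, rfl⟩ := hx
      rw [Pat.Emb.st_apply]
      congr 1
      rcases b with _ | b
      · exact hqn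
      · have h1 := hcon (row b) (by simp) (by simp)
        rw [← E1_some, Pat.Emb.st_apply] at h1
        exact (E1 X.length).inj h1
    · rw [Pat.Emb.st_apply' _ _ hx]
      rfl

/-- a planar state of the strip with a complete walk comes from a planar state on the list. -/
theorem an_to_ax (hn : X.Nodup) (hc : c ∉ X) {p : Pat (Site X.length)} (h : AN X.length p)
    (hd : HS.Dead fl tp p) :
    ∃ q : Pat (Option (Fin X.length)), (E1 X.length).st q = p ∧ q none = none ∧
      AX X ((E2 hn hc).st q) ∧ (E2 hn hc).st q ≠ Pat.empty := by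
  obtain ⟨hj, z, hz1, hz2, hz3⟩ := hd
  have hax := AN_axE h
  have htp : p tp = fl := by rw [← hj, p.inv]
  have hrow : ∀ i : Fin X.length, ∃ j, p (row i) = row j := by
    intro i
    rcases hy : p (row i) with _ | _ | k | k
    · exfalso
      have h1 := p.inv (row i)
      rw [hy, hj] at h1
      simp at h1
    · exfalso
      have h1 := p.inv (row i)
      rw [hy, htp] at h1
      simp at h1
    · exact ⟨k, rfl⟩
    · exact absurd hy (not_ax hax (fun k => by simp) k)
  obtain ⟨q, hq⟩ := exists_st (E1 X.length) p (by
    intro b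
    rcases b with _ | b
    · exact ⟨none, by rw [E1_none]; exact hax 0⟩
    · obtain ⟨j, hj⟩ := hrow b
      exact ⟨some j, by rw [E1_some, E1_some, hj]⟩) (by
    intro x hx
    show p x = full fl tp x
    rw [full_apply]
    rcases x with _ | _ | i | k
    · rw [if_pos rfl, hj]
    · rw [if_neg (by simp), if_pos rfl, htp]
    · exact absurd ⟨some i, rfl⟩ hx
    · rw [if_neg (by simp), if_neg (by simp)]
      exact hax k)
  have hqn : q none = none := by
    apply (E1 X.length).inj
    rw [← Pat.Emb.st_apply, hq, E1_none]
    exact hax 0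
  have hrow' : ∀ i : Fin X.length, ∃ j : Fin X.length, q (some i) = some j := by
    intro i
    rcases hi : q (some i) with _ | j
    · exfalso
      have := q.inv (some i)
      rw [hi, hqn] at this
      simp at this
    · exact ⟨j, rfl⟩
  have srow : ∀ i j : Fin X.length, q (some i) = some j → p (row i) = row j := by
    intro i j hij
    rw [← hq, ← E1_some, Pat.Emb.st_apply, hij, E1_some]
  have prow : ∀ i j : Fin X.length, q (some i) = some j → (E2 hn hc).st q (X.get i) = X.get j := by
    intro i j hij
    rw [← E2_some hn hc, Pat.Emb.st_apply, hij, E2_some]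
  have hout : ∀ x, x ∉ X → (E2 hn hc).st q x = x := by
    intro x hx
    by_cases hxc : x = c
    · have h1 := Pat.Emb.st_apply (E2 hn hc) q none
      rw [hqn] at h1
      rw [hxc]
      exact h1
    · rw [Pat.Emb.st_apply']
      · rfl
      · rintro ⟨b, hb⟩
        rcases b with _ | b
        · exact hxc hb.symm
        · rw [E2_some] at hb
          exact hx (hb ▸ List.get_mem X b)
  have rrow : ∀ k : Fin X.length, rk (row k) = 2 * (k : ℤ) + 2 := fun k => rfl
  refine ⟨q, hq, hqn, ⟨hout, ?_⟩, ?_⟩
  · intro a b hab hba
    by_cases ha : a ∈ X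
    swap
    · rw [hout a ha] at hba
      omega
    by_cases hb : b ∈ X
    swap
    · rw [hout b hb]
      exact ⟨hab, hba⟩
    obtain ⟨i, rfl⟩ := List.get_of_mem ha
    obtain ⟨j, rfl⟩ := List.get_of_mem hb
    obtain ⟨i', hi'⟩ := hrow' i
    obtain ⟨j', hj'⟩ := hrow' j
    rw [prow i i' hi'] at hba ⊢
    rw [prow j j' hj']
    simp only [idx_get hn] at hab hba ⊢
    have h1 := h.nc (row i) (row j) (by rw [rrow, rrow]; omega) (by rw [srow i i' hi', rrow, rrow]; omega)
    rw [srow i i' hi', srow j j' hj', rrow, rrow, rrow] at h1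
    omega
  · intro he
    rcases z with _ | _ | i | k
    · exact hz1 rfl
    · exact hz2 rfl
    · obtain ⟨i', hi'⟩ := hrow' i
      have h1 := prow i i' hi'
      rw [he] at h1
      have h2 : i = i' := hn.injective_get h1
      rw [srow i i' hi', ← h2] at hz3
      exact hz3 rfl
    · exact hz3 (hax k)

/-- the function of the strip that belongs to a function on the list. -/
noncomputable def lift (hn : X.Nodup) (hc : c ∉ X) (G : Pat α → ℝ) : Pat (Site X.length) → ℝ :=
  open scoped Classical in
  fun p => if h : ∃ q, (E1 X.length).st q = p ∧ q none = none then G ((E2 hn hc).st h.choose) else 0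

omit [DecidableEq α] in
theorem lift_st (hn : X.Nodup) (hc : c ∉ X) (G : Pat α → ℝ) {q : Pat (Option (Fin X.length))}
    (hq : q none = none) : lift hn hc G ((E1 X.length).st q) = G ((E2 hn hc).st q) := by
  classical
  have hex : ∃ q', (E1 X.length).st q' = (E1 X.length).st q ∧ q' none = none := ⟨q, rfl, hq⟩
  unfold lift
  rw [dif_pos hex]
  congr 2
  exact st_inj _ hex.choose_spec.1

/-- **The majorant.**  A nonnegative function supported on the non-empty planar states that increases under the
honeycomb column vanishes. -/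
theorem major_hex (hn : X.Nodup) (hc : c ∉ X) {G : Pat α → ℝ} (h0 : ∀ p, 0 ≤ G p)
    (hs : ∀ p, ¬ (p ≠ Pat.empty ∧ AX X p) → G p = 0)
    (h1 : ∀ p, p ≠ Pat.empty → AX X p → G p ≤ colF (fun _ => hexW HexObs.xc) c X G p) (p : Pat α) :
    G p = 0 := by
  classical
  by_cases hp : p ≠ Pat.empty ∧ AX X p
  swap
  · exact hs p hp
  by_cases hN : 1 ≤ X.length
  swap
  · exfalso
    apply hp.1
    have hX : X = [] := by
      rw [← List.length_eq_zero_iff]
      omega
    subst hX
    ext x
    exact ax_out hp.2 (by simp)
  have key := dead_major_colH hN (G := lift hn hc G) ?_ ?_ ?_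
  · obtain ⟨q, hq, hqn, _, _⟩ := ax_to_an hn hc hp.2 hp.1
    have h2 := key ((E1 X.length).st q)
    rw [lift_st hn hc G hqn, hq] at h2
    exact h2
  · intro p
    unfold lift
    split_ifs
    · exact h0 _
    · exact le_rfl
  · intro p hp
    by_cases hex : ∃ q, (E1 X.length).st q = p ∧ q none = none
    · obtain ⟨q, rfl, hqn⟩ := hex
      rw [lift_st hn hc G hqn]
      apply hs
      rintro ⟨h2, h3⟩
      obtain ⟨q', h4, h5, h6, h7⟩ := ax_to_an hn hc h3 h2
      have h8 := st_inj _ h4
      subst h8
      exact hp ⟨h7, h6⟩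
    · unfold lift
      rw [dif_neg hex]
  · intro p hd hA
    obtain ⟨q, rfl, hqn, h2, h3⟩ := an_to_ax hn hc hA hd
    rw [lift_st hn hc G hqn, colH_st]
    refine (h1 _ h3 h2).trans (le_of_eq ?_)
    rw [colF_st]
    unfold colB colF
    have e : emp none (fun q => G ((E2 hn hc).st q)) = emp none (fun q => lift hn hc G ((E1 X.length).st q)) := by
      funext q'
      simp only [emp]
      split_ifs with h4
      · rw [lift_st hn hc G h4]
      · rfl
    rw [e]

end

end Pool.Agent.NUF
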