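import Pool.Agent.HexLoop.Stepped
import Pool.Agent.HexLoop.Shift
import Pool.Agent.CMP.LatTail
import Pool.Agent.NUF.NF

/-!
Polygons of a strip around a face with a large lateral extent.
-/

set_option autoImplicit false

namespace HexObs

namespace LP

open Complex Finset

namespace Wide

/-- v is the leftmost one of the lowest vertices of E. -/
def Low (E : Finset (Pt × Pt)) (v : Pt) : Prop := v ∈ VE E ∧ ∀ u ∈ VE E, lv v < lv u ∨ (lv v = lv u ∧ nn v ≤ nn u)

lemma exists_low {E : Finset (Pt × Pt)} (hE : IsPoly E) : ∃ v, Low E v := by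
  have hne : (VE E).Nonempty := by
    obtain ⟨v, d, τ, m, hP, hEq⟩ := hE
    refine ⟨v, ?_⟩
    unfold VE
    rw [Finset.mem_image]
    refine ⟨eg v d τ 0, ?_, rfl⟩
    rw [hEq]
    unfold pe
    rw [Finset.mem_image]
    exact ⟨0, Finset.mem_range.2 hP.pos, rfl⟩
  obtain ⟨v, hv, hmin⟩ := Finset.exists_min_image (VE E) (fun u => toLex (lv u, nn u)) hne
  refine ⟨v, hv, fun u hu => ?_⟩
  have h := hmin u hu
  rw [Prod.Lex.toLex_le_toLex] at h
  exact h

private lemma lv_add (v w : Pt) : lv (v + w) = lv v + lv w := by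
  unfold lv
  simp only [Prod.fst_add, Prod.snd_add]
  ring

private lemma nn_add (v w : Pt) : nn (v + w) = nn v + nn w := by
  unfold nn
  simp only [Prod.fst_add, Prod.snd_add]
  ring

private lemma lv_sub (v w : Pt) : lv (v - w) = lv v - lv w := by
  unfold lv
  simp only [Prod.fst_sub, Prod.snd_sub]
  ring

private lemma nn_sub (v w : Pt) : nn (v - w) = nn v - nn w := by
  unfold nn
  simp only [Prod.fst_sub, Prod.snd_sub]
  ring

lemma Low.lv_le {E : Finset (Pt × Pt)} {v : Pt} (h : Low E v) {u : Pt} (hu : u ∈ VE E) : lv v ≤ lv u := by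
  rcases h.2 u hu with h1 | ⟨h1, _⟩ <;> omega

private lemma up_out : ∀ d ∈ dirs, ∀ b : Bool, lv d ≤ 0 → 0 ≤ lv (turn b d) →
    (turn b d = (1, 0) ∧ d = (1, -1)) ∨ (turn b d = (-1, 1) ∧ d = (-1, 0)) := by
  decide

private lemma ve_fst {E : Finset (Pt × Pt)} {v d : Pt} (h : (v, d) ∈ E) : v ∈ VE E := by
  unfold VE
  rw [Finset.mem_image]
  exact ⟨(v, d), h, rfl⟩

/-- the two edges at the lowest vertex. -/
lemma low_edge {E : Finset (Pt × Pt)} (hE : IsPoly E) {v : Pt} (h : Low E v) :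
    (v, (1, 0)) ∈ E ∨ ((v, (-1, 1)) ∈ E ∧ (v + (1, 0), (-1, 0)) ∈ E) := by
  obtain ⟨d', b, h1, h2⟩ := isPoly_prev hE h.1
  have hd' : d' ∈ dirs := (isPoly_de hE h1).1
  have h3 := h.lv_le (ve_fst h1)
  rw [lv_sub] at h3
  obtain ⟨b', h4⟩ := isPoly_next hE h2
  have h5 := h.lv_le (ve_fst h4)
  simp only at h5
  rw [lv_add] at h5
  rcases up_out d' hd' b (by omega) (by omega) with ⟨e1, e2⟩ | ⟨e1, e2⟩
  · left
    rw [e1] at h2
    exact h2
  · right
    rw [e1] at h2
    refine ⟨h2, ?_⟩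
    rw [e2] at h1
    have : v - ((-1, 0) : Pt) = v + (1, 0) := by
      apply Prod.ext <;> simp
    rw [this] at h1
    exact h1

/-- the letters of the word of a polygon. -/
private def sw (τ : ℕ → Bool) (m : ℕ) (i : ℕ) : Bool :=
  if i = 0 then false else if i < m - 1 then τ (i - 1) else if i = m - 1 then false else true

private def wd (τ : ℕ → Bool) (m : ℕ) : List Bool := (List.range (m + 1)).map (sw τ m)

private lemma wd_length (τ : ℕ → Bool) (m : ℕ) : (wd τ m).length = m + 1 := by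
  unfold wd
  rw [List.length_map, List.length_range]

private lemma wd_tf (τ : ℕ → Bool) (m : ℕ) {i : ℕ} (h : i < m + 1) : tf (wd τ m) i = sw τ m i := by
  unfold tf wd
  rw [List.getD_eq_getElem _ _ (by rw [List.length_map, List.length_range]; exact h), List.getElem_map,
    List.getElem_range]

/-- the polygon is recovered from the word. -/
def rc (v : Pt) (t : List Bool) : Finset (Pt × Pt) :=
  (range (t.length - 2)).image (fun i => (vx (v - up) up t (i + 1), dx up t (i + 1))) ∪ {(v + (-1, 1), (1, -1))}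

private lemma dir_last : ∀ d ∈ dirs, ∀ b : Bool, turn b d = (1, 0) → d = (1, -1) ∨ d = (0, 1) := by
  decide

private lemma dir_last2 : ∀ d ∈ dirs, ∀ b : Bool, turn b d = (1, -1) → (d = (0, -1) ∧ b = true) ∨ d = (1, 0) := by
  decide

/-- the word of a polygon with the first edge (v, (1, 0)). -/
lemma word {E : Finset (Pt × Pt)} (hE : IsPoly E) {v : Pt} (h : Low E v) (hI : (v, (1, 0)) ∈ E) :
    ∃ t : List Bool, t.length = E.card + 1 ∧ E = rc v t ∧
      (∀ i, 1 ≤ i → i ≤ E.card → vx (v - up) up t i ∈ VE E) ∧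
      (∀ u ∈ VE E, ∃ i, 1 ≤ i ∧ i ≤ E.card ∧ vx (v - up) up t i = u) ∧
      vx (v - up) up t (E.card + 1) = v + (-2, 1) ∧ dx up t (E.card + 1) = -up ∧
      (∀ i k, 1 ≤ i → i < k → k ≤ E.card → vx (v - up) up t i ≠ vx (v - up) up t k) := by
  obtain ⟨τ, m, hP, hEq⟩ := root_at hE hI
  simp only at hP hEq
  have hm3 := poly_len hP
  have hcard : E.card = m := by rw [hEq, pe_card hP]
  have hmem : ∀ i, i < m → vs v (1, 0) τ i ∈ VE E := by
    intro i hi
    unfold VE
    rw [Finset.mem_image]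
    refine ⟨eg v (1, 0) τ i, ?_, rfl⟩
    rw [hEq]
    unfold pe
    exact Finset.mem_image_of_mem _ (Finset.mem_range.2 hi)
  -- the last edge
  obtain ⟨n, rfl⟩ : ∃ n, m = n + 3 := ⟨m - 3, by omega⟩
  have k1 : vs v (1, 0) τ (n + 2) + ds (1, 0) τ (n + 2) = v := hP.clv
  have k2 : turn (τ (n + 2)) (ds (1, 0) τ (n + 2)) = (1, 0) := hP.cld
  have k3 : ds (1, 0) τ (n + 2) ∈ dirs := ds_mem hP.de.1 _
  have k4 : ds (1, 0) τ (n + 2) = (1, -1) := by
    rcases dir_last _ k3 _ k2 with h1 | h1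
    · exact h1
    · exfalso
      have h2 := h.lv_le (hmem (n + 2) (by omega))
      rw [h1] at k1
      have h3 := congrArg lv k1
      rw [lv_add] at h3
      have e1 : lv (0, 1) = 2 := rfl
      omega
  have k5 : vs v (1, 0) τ (n + 2) = v + (-1, 1) := by
    rw [k4] at k1
    have : vs v (1, 0) τ (n + 2) = v - (1, -1) := eq_sub_of_add_eq k1
    rw [this]
    apply Prod.ext
    · simp only [Prod.fst_sub, Prod.fst_add]
      ring
    · simp only [Prod.snd_sub, Prod.snd_add]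
      ring
  have k6 : ds (1, 0) τ (n + 1) ∈ dirs := ds_mem hP.de.1 _
  have k7 : turn (τ (n + 1)) (ds (1, 0) τ (n + 1)) = (1, -1) := by
    rw [← ds_succ]
    exact k4
  have k8 : ds (1, 0) τ (n + 1) = (0, -1) ∧ τ (n + 1) = true := by
    rcases dir_last2 _ k6 _ k7 with h1 | h1
    · exact h1
    · exfalso
      have h2 : vs v (1, 0) τ (n + 2) = vs v (1, 0) τ (n + 1) + ds (1, 0) τ (n + 1) := rfl
      rw [k5, h1] at h2
      have h3 := h.2 _ (hmem (n + 1) (by omega))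
      have h4 : lv (vs v (1, 0) τ (n + 1)) = lv v := by
        have := congrArg lv h2
        rw [lv_add, lv_add] at this
        have e1 : lv (-1, 1) = 1 := rfl
        have e2 : lv (1, 0) = 1 := rfl
        omega
      have h5 : nn (vs v (1, 0) τ (n + 1)) = nn v - 3 := by
        have := congrArg nn h2
        rw [nn_add, nn_add] at this
        have e1 : nn (-1, 1) = -2 := rfl
        have e2 : nn (1, 0) = 1 := rfl
        omega
      omega
  -- the word
  obtain ⟨t, ht⟩ : ∃ t, t = wd τ (n + 3) := ⟨_, rfl⟩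
  have htl : t.length = n + 4 := by rw [ht, wd_length]
  have hσ : ∀ i, i < n + 4 → tf t i = sw τ (n + 3) i := by
    intro i hi
    rw [ht]
    exact wd_tf τ (n + 3) hi
  have hvx : ∀ i, vx (v - up) up t (i + 1) = vx (v - up) up t i + dx up t i := fun i => rfl
  have hdx : ∀ i, dx up t (i + 1) = turn (tf t i) (dx up t i) := fun i => rfl
  have key : ∀ i, i ≤ n + 1 → vx (v - up) up t (i + 1) = vs v (1, 0) τ i ∧ dx up t (i + 1) = ds (1, 0) τ i := by
    intro i
    induction i with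
    | zero =>
      intro _
      constructor
      · show v - up + up = v
        abel
      · rw [hdx, hσ 0 (by omega)]
        show turn (sw τ (n + 3) 0) up = (1, 0)
        unfold sw
        rw [if_pos rfl]
        decide
    | succ i ih =>
      intro hi
      obtain ⟨e1, e2⟩ := ih (by omega)
      constructor
      · rw [hvx, e1, e2]
        rfl
      · rw [hdx, e2, hσ (i + 1) (by omega)]
        unfold sw
        rw [if_neg (by omega), if_pos (by omega), Nat.add_sub_cancel]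
        rfl
  have kv : vx (v - up) up t (n + 3) = v + (-1, 1) := by
    rw [hvx, (key (n + 1) le_rfl).1, (key (n + 1) le_rfl).2]
    exact k5
  have kd : dx up t (n + 3) = (-1, 0) := by
    rw [hdx, (key (n + 1) le_rfl).2, k8.1, hσ (n + 2) (by omega)]
    unfold sw
    rw [if_neg (by omega), if_neg (by omega), if_pos (by omega)]
    decide
  have kall : ∀ i, i < n + 3 → vx (v - up) up t (i + 1) = vs v (1, 0) τ i := by
    intro i hi
    rcases Nat.lt_or_ge i (n + 2) with h1 | h1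
    · exact (key i (by omega)).1
    · have h2 : i = n + 2 := by omega
      rw [h2, kv, k5]
  refine ⟨t, by rw [htl, hcard], ?_, ?_, ?_, ?_, ?_, ?_⟩
  · unfold rc
    rw [htl, show n + 4 - 2 = n + 2 by omega]
    ext p
    rw [hEq]
    unfold pe
    rw [Finset.mem_image, Finset.mem_union, Finset.mem_image, Finset.mem_singleton]
    constructor
    · rintro ⟨i, hi, rfl⟩
      rw [Finset.mem_range] at hi
      rcases Nat.lt_or_ge i (n + 2) with h1 | h1
      · left
        refine ⟨i, Finset.mem_range.2 h1, ?_⟩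
        rw [(key i (by omega)).1, (key i (by omega)).2]
        rfl
      · right
        have h2 : i = n + 2 := by omega
        rw [h2]
        unfold eg
        rw [k5, k4]
    · rintro (⟨i, hi, rfl⟩ | rfl)
      · rw [Finset.mem_range] at hi
        refine ⟨i, Finset.mem_range.2 (by omega), ?_⟩
        rw [(key i (by omega)).1, (key i (by omega)).2]
        rfl
      · refine ⟨n + 2, Finset.mem_range.2 (by omega), ?_⟩
        unfold eg
        rw [k5, k4]
  · intro i h1 h2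
    rw [hcard] at h2
    obtain ⟨j, rfl⟩ : ∃ j, i = j + 1 := ⟨i - 1, by omega⟩
    rw [kall j (by omega)]
    exact hmem j (by omega)
  · intro u hu
    unfold VE at hu
    rw [Finset.mem_image] at hu
    obtain ⟨p, hp, rfl⟩ := hu
    rw [hEq] at hp
    unfold pe at hp
    rw [Finset.mem_image] at hp
    obtain ⟨i, hi, rfl⟩ := hp
    rw [Finset.mem_range] at hi
    exact ⟨i + 1, by omega, by omega, kall i hi⟩
  · rw [hcard, hvx, kv, kd, add_assoc]
    rfl
  · rw [hcard, hdx, kd, hσ (n + 3) (by omega)]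
    unfold sw
    rw [if_neg (by omega), if_neg (by omega), if_neg (by omega)]
    decide
  · intro i k h1 h2 h3
    rw [hcard] at h3
    obtain ⟨i', rfl⟩ : ∃ i', i = i' + 1 := ⟨i - 1, by omega⟩
    obtain ⟨k', rfl⟩ : ∃ k', k = k' + 1 := ⟨k - 1, by omega⟩
    rw [kall i' (by omega), kall k' (by omega)]
    exact hP.inj i' k' (by omega) (by omega)

private lemma vt_iff (v : Pt) : Vt v ↔ (v.1 - v.2) % 3 ≠ 1 := by
  unfold Vt cl
  have h : ((v.1 - v.2 : ℤ) : ZMod 3) = ((1 : ℤ) : ZMod 3) ↔ (v.1 - v.2 - 1) % 3 = 0 := by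
    rw [ZMod.intCast_eq_intCast_iff]
    unfold Int.ModEq
    push_cast
    omega
  rw [Int.cast_one] at h
  rw [Ne, h]
  omega

/-- the word of a polygon in the strip is an arc. -/
lemma word_exits {T M A : ℕ} (hA : 2 * M + 2 ≤ A) {E : Finset (Pt × Pt)} (hE : IsPoly E) (hV : VE E ⊆ PP T M) {v : Pt}
    (h : Low E v) (hI : (v, (1, 0)) ∈ E) : ∃ t : List Bool, t.length = E.card + 1 ∧ E = rc v t ∧
      t ∈ exits (Par (2 * T) A A) oo up ∧ ∀ r : ℕ, (∃ u ∈ VE E, 3 * (r : ℤ) ≤ |nn u - nn v|) → CMP.Far r t := by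
  obtain ⟨t, ht1, ht2, ht3, ht4, ht5, ht6, ht7⟩ := word hE h hI
  have hvx : ∀ i, vx (v - up) up t i = vx oo up t i + (v - up) := by
    intro i
    have := vx_tr (v - up) oo up t i
    rw [← this]
    congr 1
    show v - up = oo + (v - up)
    unfold oo
    rw [Prod.mk_zero_zero, zero_add]
  have hvx' : ∀ i, vx oo up t i = vx (v - up) up t i - (v - up) := by
    intro i
    rw [hvx]
    abel
  have hde := isPoly_de hE hI
  have hv1 : (v.1 - v.2) % 3 = 2 := by
    have h1 := (vt_iff _).1 hde.2.1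
    have h2 := (vt_iff _).1 hde.2.2
    simp only [Prod.fst_add, Prod.snd_add] at h1 h2
    omega
  have hvPP := mem_PP.1 (hV h.1)
  have hval : ∀ u : Pt, lv (u - (v - up)) = lv u - lv v + 2 ∧ nn (u - (v - up)) = nn u - nn v - 1 := by
    intro u
    rw [lv_sub, lv_sub, nn_sub, nn_sub]
    have e1 : lv up = 2 := rfl
    have e2 : nn up = -1 := rfl
    omega
  have hw : v + (-2, 1) ∉ VE E := by
    intro hcon
    have h1 := h.2 _ hcon
    rw [lv_add, nn_add] at h1
    have e1 : lv (-2, 1) = 0 := rfl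
    have e2 : nn (-2, 1) = -3 := rfl
    omega
  have hvt : ∀ u : Pt, Vt u → Vt (u - (v - up)) := by
    intro u hu
    rw [vt_iff] at hu ⊢
    simp only [Prod.fst_sub, Prod.snd_sub, up]
    omega
  have hlow : ∀ i, 1 ≤ i → i ≤ E.card + 1 → vx oo up t i ∈ Par (2 * T) A A ∧ 2 ≤ lv (vx oo up t i) := by
    intro i h1 h2
    rcases Nat.lt_or_ge E.card i with h3 | h3
    · have h4 : i = E.card + 1 := by omega
      rw [h4, hvx', ht5, mem_par]
      have h5 := hval (v + (-2, 1))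
      rw [lv_add, nn_add] at h5
      have e1 : lv (-2, 1) = 0 := rfl
      have e2 : nn (-2, 1) = -3 := rfl
      rw [abs_lt, abs_lt] at hvPP
      rw [h5.1, h5.2]
      refine ⟨⟨hvt _ ?_, ?_⟩, ?_⟩
      · rw [vt_iff]
        simp only [Prod.fst_add, Prod.snd_add]
        omega
      · push_cast
        omega
      · omega
    · have h4 := ht3 i h1 h3
      have h5 := mem_PP.1 (hV h4)
      have h6 := h.lv_le h4
      rw [hvx', mem_par]
      have h7 := hval (vx (v - up) up t i)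
      rw [h7.1, h7.2]
      rw [abs_lt, abs_lt] at hvPP h5
      refine ⟨⟨hvt _ h5.1, ?_⟩, ?_⟩
      · push_cast
        omega
      · omega
  refine ⟨t, ht1, ht2, ?_, ?_⟩
  · rw [mem_exits]
    refine ⟨⟨?_, ?_⟩, ?_⟩
    · intro i h1 h2
      rw [ht1] at h2
      exact (hlow i h1 h2).1
    · intro i k hik hk
      rw [ht1] at hk
      rcases Nat.eq_zero_or_pos i with h0 | h0
      · intro heq
        have h1 := (hlow k (by omega) hk).2
        rw [← heq, h0] at h1
        have : lv (vx oo up t 0) = 0 := rfl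
        omega
      · rcases Nat.lt_or_ge E.card k with h3 | h3
        · have h4 : k = E.card + 1 := by omega
          intro heq
          rw [hvx', hvx' k, h4, ht5] at heq
          have h5 := sub_left_injective heq
          apply hw
          rw [← h5]
          exact ht3 i h0 (by omega)
        · intro heq
          rw [hvx', hvx' k] at heq
          exact ht7 i k h0 hik h3 (sub_left_injective heq)
    · intro hcon
      rw [mem_par] at hcon
      have h1 : tip oo up t = vx oo up t t.length + dx up t t.length := rfl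
      rw [ht1, ht6, hvx', ht5] at h1
      have h2 : lv (tip oo up t) = 0 := by
        rw [h1, lv_add, (hval _).1, lv_add]
        have e1 : lv (-2, 1) = 0 := rfl
        have e2 : lv (-up) = -2 := rfl
        omega
      omega
  · rintro r ⟨u, hu, hr⟩
    obtain ⟨i, h1, h2, h3⟩ := ht4 u hu
    refine ⟨i, h1, by omega, ?_⟩
    rw [hvx', h3, (hval u).2]
    rcases le_abs.1 hr with h4 | h4
    · left
      omega
    · right
      omega

/-- a polygon around f0 passes near the line nn = 1. -/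
lemma near {E : Finset (Pt × Pt)} (h : Nw E f0 ≠ 0) : ∃ u ∈ VE E, |nn u - 1| ≤ 1 := by
  unfold Nw at h
  obtain ⟨p, hp, hne⟩ := Finset.exists_ne_zero_of_sum_ne_zero h
  refine ⟨p.1, Finset.mem_image_of_mem _ hp, ?_⟩
  have e : nn f0 = 1 := rfl
  unfold cr at hne
  rw [abs_le]
  split_ifs at hne with h2 h3
  · have := h2.2.1
    omega
  · have := h3.2.1
    omega
  · exact absurd rfl hne

private lemma cos_le_cw {T A : ℕ} (hT : 1 ≤ T) (hA : 1 ≤ A) {t : List Bool} (ht : t ∈ exits (Par T A A) oo up) :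
    Real.cos (3 * Real.pi / 8) * xc ^ t.length ≤ cw t := by
  have h3 := Tube.dm_wind upd true hT hA hA ht
  unfold cw
  apply mul_le_mul_of_nonneg_right _ (pow_nonneg xc_pos.le _)
  rw [← Real.cos_abs (wind t * (Real.pi / 8))]
  have h4 : (-3 : ℝ) ≤ wind t := by exact_mod_cast h3.1
  have h5 : (wind t : ℝ) ≤ 3 := by exact_mod_cast h3.2
  have hp := Real.pi_pos
  apply Real.cos_le_cos_of_nonneg_of_le_pi (abs_nonneg _) (by linarith)
  rw [abs_mul, abs_of_pos (by positivity : 0 < Real.pi / 8)]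
  have h6 : |(wind t : ℝ)| ≤ 3 := abs_le.2 ⟨h4, h5⟩
  nlinarith

/-- the lateral reach of the polygons with the root v. -/
def jj (ρ : ℕ) (v : Pt) : ℕ := max ρ ((|nn v - 1| - 1) / 3).toNat

open Classical in
/-- the polygons with the root v. -/
private lemma one_root {C q : ℝ} (hq : 0 < q)
    (hlat : ∀ T A B r : ℕ, 1 ≤ T → 1 ≤ A → 1 ≤ B → 1 ≤ r →
      ∑ t ∈ (exits (Par T A B) oo up).filter (CMP.Far r), cw t ≤ C * q ^ (r / T)) {T M ρ : ℕ} (hT : 1 ≤ T) (hρ : 1 ≤ ρ)
    {v : Pt} {S : Finset (Finset (Pt × Pt))}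
    (hS : ∀ E ∈ S, IsPoly E ∧ VE E ⊆ PP T M ∧ Low E v ∧ (v, (1, 0)) ∈ E ∧ Nw E f0 ≠ 0 ∧
      ∃ u ∈ VE E, 3 * (2 * (ρ : ℤ)) ≤ |nn u - 1|) :
    ∑ E ∈ S, xc ^ E.card ≤ C / (xc * Real.cos (3 * Real.pi / 8)) * q ^ (jj ρ v / (2 * T)) := by
  have hx := xc_pos
  have hcos := cos3_pos
  obtain ⟨A, hA⟩ : ∃ A : ℕ, A = 2 * M + 2 := ⟨_, rfl⟩
  have h1 : ∀ E ∈ S, ∃ t : List Bool, t.length = E.card + 1 ∧ E = rc v t ∧
      t ∈ (exits (Par (2 * T) A A) oo up).filter (CMP.Far (jj ρ v)) := by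
    intro E hE
    obtain ⟨a1, a2, a3, a4, a5, u, hu, a6⟩ := hS E hE
    obtain ⟨t, b1, b2, b3, b4⟩ := word_exits (A := A) (by omega) a1 a2 a3 a4
    refine ⟨t, b1, b2, Finset.mem_filter.2 ⟨b3, b4 _ ?_⟩⟩
    obtain ⟨u0, hu0, a7⟩ := near a5
    rw [abs_le] at a7
    -- max of the two distances
    unfold jj
    obtain ⟨D, hD⟩ : ∃ D : ℤ, D = |nn v - 1| := ⟨_, rfl⟩
    rw [← hD]
    have hD0 : 0 ≤ D := by rw [hD]; exact abs_nonneg _
    have c1 : D - 1 ≤ |nn u0 - nn v| := by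
      rw [hD]
      rcases abs_cases (nn v - 1) with ⟨c, _⟩ | ⟨c, _⟩ <;> rcases abs_cases (nn u0 - nn v) with ⟨c', _⟩ | ⟨c', _⟩ <;> omega
    have c2 : 3 * (2 * (ρ : ℤ)) - D ≤ |nn u - nn v| := by
      rw [hD]
      rcases abs_cases (nn v - 1) with ⟨c, _⟩ | ⟨c, _⟩ <;> rcases abs_cases (nn u - nn v) with ⟨c', _⟩ | ⟨c', _⟩ <;>
        rcases abs_cases (nn u - 1) with ⟨c'', _⟩ | ⟨c'', _⟩ <;> omega
    rcases le_or_gt (ρ : ℤ) ((D - 1) / 3) with h5 | h5
    · refine ⟨u0, hu0, le_trans ?_ c1⟩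
      have : (max ρ ((D - 1) / 3).toNat : ℤ) = (D - 1) / 3 := by omega
      push_cast
      omega
    · refine ⟨u, hu, le_trans ?_ c2⟩
      push_cast
      omega
  have hj : 1 ≤ jj ρ v := le_trans hρ (le_max_left _ _)
  choose! g hg using h1
  have h2 : ∀ E ∈ S, xc ^ E.card ≤ cw (g E) / (xc * Real.cos (3 * Real.pi / 8)) := by
    intro E hE
    obtain ⟨b1, _, b3⟩ := hg E hE
    have h3 := cos_le_cw (by omega) (by omega) (Finset.mem_filter.1 b3).1
    rw [le_div_iff₀ (by positivity)]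
    rw [b1, pow_succ] at h3
    linarith
  refine (Finset.sum_le_sum h2).trans ?_
  rw [← Finset.sum_div, div_mul_eq_mul_div]
  apply div_le_div_of_nonneg_right _ (by positivity)
  have h4 : ∑ E ∈ S, cw (g E) = ∑ t ∈ S.image g, cw t := by
    rw [Finset.sum_image]
    intro E hE E' hE' h
    rw [(hg E hE).2.1, (hg E' hE').2.1, h]
  rw [h4]
  refine le_trans ?_ (hlat (2 * T) A A (jj ρ v) (by omega) (by omega) (by omega) hj)
  apply Finset.sum_le_sum_of_subset_of_nonneg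
  · intro t ht
    rw [Finset.mem_image] at ht
    obtain ⟨E, hE, rfl⟩ := ht
    exact (hg E hE).2.2
  · intro t ht _
    have h5 := cos_le_cw (by omega) (by omega) (Finset.mem_filter.1 ht).1
    exact le_trans (by positivity) h5

private lemma block {T M : ℕ} (hT : 1 ≤ T) (b : ℕ) :
    ((PP T M).filter (fun v => ((|nn v - 1| - 1) / 3).toNat / (2 * T) = b)).card ≤ 84 * T ^ 2 := by
  classical
  have h1 : ((PP T M).filter (fun v => ((|nn v - 1| - 1) / 3).toNat / (2 * T) = b)).card ≤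
      (((Finset.univ : Finset Bool) ×ˢ Finset.Icc (6 * T * b : ℤ) (6 * T * b + 6 * T)) ×ˢ
        Finset.Ioo (1 - 3 * T : ℤ) (1 + 3 * T)).card := by
    apply Finset.card_le_card_of_injOn (fun v => ((decide (0 ≤ nn v - 1), |nn v - 1|), lv v))
    · intro v hv
      rw [Finset.mem_coe, Finset.mem_filter, mem_PP] at hv
      obtain ⟨⟨h1, h2, h3⟩, h4⟩ := hv
      rw [Finset.mem_coe, Finset.mem_product, Finset.mem_product, Finset.mem_Icc, Finset.mem_Ioo]
      simp only
      rw [abs_lt] at h2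
      obtain ⟨J, hJ⟩ : ∃ J : ℕ, J = ((|nn v - 1| - 1) / 3).toNat := ⟨_, rfl⟩
      rw [← hJ] at h4
      have h5 := Nat.div_add_mod J (2 * T)
      have h6 := Nat.mod_lt J (show 0 < 2 * T by omega)
      rw [h4] at h5
      have h7 : (0 : ℤ) ≤ |nn v - 1| := abs_nonneg _
      have h8 : ((2 * T * b : ℕ) : ℤ) = 2 * T * b := by push_cast; ring
      have h9 : (6 * T * b : ℤ) = 3 * ((2 * T * b : ℕ) : ℤ) := by push_cast; ring
      rw [h9]
      refine ⟨⟨Finset.mem_univ _, ?_, ?_⟩, ?_, ?_⟩ <;> omega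
    · intro v hv w hw hvw
      simp only [Prod.mk.injEq] at hvw
      obtain ⟨⟨e1, e2⟩, e3⟩ := hvw
      have e4 : (0 ≤ nn v - 1) ↔ (0 ≤ nn w - 1) := by simpa using e1
      have e5 : nn v = nn w := by
        rcases abs_cases (nn v - 1) with ⟨c, _⟩ | ⟨c, _⟩ <;> rcases abs_cases (nn w - 1) with ⟨c', _⟩ | ⟨c', _⟩ <;> omega
      unfold nn at e5
      unfold lv at e3
      apply Prod.ext <;> omega
  refine h1.trans ?_
  rw [Finset.card_product, Finset.card_product, Finset.card_univ, Fintype.card_bool, Int.card_Icc, Int.card_Ioo]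
  have e1 : ((6 * T * b + 6 * T : ℤ) + 1 - (6 * T * b)).toNat = 6 * T + 1 := by omega
  have e2 : ((1 + 3 * T : ℤ) - (1 - 3 * T) - 1).toNat = 6 * T - 1 := by omega
  rw [e1, e2]
  have h2 : 6 * T + 1 ≤ 7 * T := by omega
  have h3 : 6 * T - 1 ≤ 6 * T := by omega
  calc 2 * (6 * T + 1) * (6 * T - 1) ≤ 2 * (7 * T) * (6 * T) := by gcongr
    _ = 84 * T ^ 2 := by ring

/-- the sum over the roots. -/
private lemma roots {q : ℝ} (hq : 0 < q) (hq1 : q < 1) {T M k : ℕ} (hT : 1 ≤ T) :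
    ∑ v ∈ PP T M, q ^ (jj (2 * T * k) v / (2 * T)) ≤
      84 * (T : ℝ) ^ 2 * ((Real.sqrt q) ^ k / (1 - Real.sqrt q)) := by
  classical
  set s := Real.sqrt q with hs
  have hs0 : 0 < s := Real.sqrt_pos.2 hq
  have hss : s * s = q := Real.mul_self_sqrt hq.le
  have hs1 : s < 1 := by
    by_contra hcon
    rw [not_lt] at hcon
    nlinarith
  obtain ⟨bf, hbf⟩ : ∃ bf : Pt → ℕ, bf = fun v => ((|nn v - 1| - 1) / 3).toNat / (2 * T) := ⟨_, rfl⟩
  have h1 : ∀ v ∈ PP T M, q ^ (jj (2 * T * k) v / (2 * T)) ≤ s ^ k * s ^ bf v := by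
    intro v _
    have h2 : k ≤ jj (2 * T * k) v / (2 * T) := by
      rw [Nat.le_div_iff_mul_le (by omega)]
      unfold jj
      have := le_max_left (2 * T * k) ((|nn v - 1| - 1) / 3).toNat
      calc k * (2 * T) = 2 * T * k := by ring
        _ ≤ _ := this
    have h3 : bf v ≤ jj (2 * T * k) v / (2 * T) := by
      rw [hbf]
      exact Nat.div_le_div_right (le_max_right _ _)
    rw [← hss, mul_pow, ← pow_add, ← pow_add]
    exact pow_le_pow_of_le_one hs0.le hs1.le (by omega)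
  refine (Finset.sum_le_sum h1).trans ?_
  rw [← Finset.mul_sum]
  obtain ⟨B, hB⟩ : ∃ B : ℕ, ∀ v ∈ PP T M, bf v ∈ range B := by
    refine ⟨(PP T M).sup bf + 1, fun v hv => ?_⟩
    rw [Finset.mem_range]
    have := Finset.le_sup (f := bf) hv
    omega
  have h4 : ∑ v ∈ PP T M, s ^ bf v ≤ ∑ b ∈ range B, 84 * (T : ℝ) ^ 2 * s ^ b := by
    rw [← Finset.sum_fiberwise_of_maps_to hB]
    apply Finset.sum_le_sum
    intro b _
    have h5 : ∑ v ∈ (PP T M).filter (fun v => bf v = b), s ^ bf v = ∑ _v ∈ (PP T M).filter (fun v => bf v = b), s ^ b := by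
      apply Finset.sum_congr rfl
      intro v hv
      rw [(Finset.mem_filter.1 hv).2]
    rw [h5, Finset.sum_const, nsmul_eq_mul]
    apply mul_le_mul_of_nonneg_right _ (pow_nonneg hs0.le _)
    have h6 := block (M := M) hT b
    rw [hbf]
    exact_mod_cast h6
  rw [← Finset.mul_sum] at h4
  have h7 : ∑ b ∈ range B, s ^ b ≤ 1 / (1 - s) := by
    rw [le_div_iff₀ (by linarith), geom_sum_mul_neg]
    have := pow_nonneg hs0.le B
    linarith
  have h8 : 0 < s ^ k := pow_pos hs0 _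
  calc s ^ k * ∑ v ∈ PP T M, s ^ bf v ≤ s ^ k * (84 * (T : ℝ) ^ 2 * (1 / (1 - s))) := by
        apply mul_le_mul_of_nonneg_left _ h8.le
        refine h4.trans ?_
        apply mul_le_mul_of_nonneg_left h7 (by positivity)
    _ = _ := by
        ring

end Wide

open Classical in
/-- the wide polygons of a strip around f0. -/
theorem wide : ∃ C s : ℝ, 0 < C ∧ 0 < s ∧ s < 1 ∧ ∀ T k M : ℕ, 1 ≤ T → 1 ≤ k →
    ∑ E ∈ (pf (PP T M) f0).filter (fun E => ¬ VE E ⊆ PP T (4 * T * k)), xc ^ E.card ≤ C * (T : ℝ) ^ 2 * s ^ k := by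
  obtain ⟨C, q, hC, hq, hq1, hlat⟩ := CMP.lat_tail
  have hx := xc_pos
  have hcos := cos3_pos
  have hs0 : 0 < Real.sqrt q := Real.sqrt_pos.2 hq
  have hs1 : Real.sqrt q < 1 := by
    have hss := Real.mul_self_sqrt hq.le
    by_contra hcon
    rw [not_lt] at hcon
    nlinarith
  have h1s : 0 < 1 - Real.sqrt q := by linarith
  refine ⟨2 * (C / (xc * Real.cos (3 * Real.pi / 8)) * (84 / (1 - Real.sqrt q))), Real.sqrt q, by positivity, hs0, hs1, ?_⟩
  intro T k M hT hk
  set S := (pf (PP T M) f0).filter (fun E => ¬ VE E ⊆ PP T (4 * T * k)) with hS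
  have hSp : ∀ E ∈ S, IsPoly E ∧ VE E ⊆ PP T M ∧ Nw E f0 ≠ 0 ∧ ∃ u ∈ VE E, 3 * (2 * ((2 * T * k : ℕ) : ℤ)) ≤ |nn u - 1| := by
    intro E hE
    rw [hS, Finset.mem_filter, mem_pf, mem_polys] at hE
    obtain ⟨⟨⟨a1, a2⟩, a3⟩, a4⟩ := hE
    refine ⟨a1, a2, a3, ?_⟩
    rw [Finset.not_subset] at a4
    obtain ⟨u, hu, hu2⟩ := a4
    refine ⟨u, hu, ?_⟩
    have hu3 := mem_PP.1 (a2 hu)
    rw [mem_PP] at hu2
    by_contra hcon
    apply hu2
    refine ⟨hu3.1, hu3.2.1, ?_⟩
    push_cast at hcon ⊢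
    rw [not_le] at hcon
    linarith
  have hrt : ∀ E ∈ S, ∃ v, Wide.Low E v := fun E hE => Wide.exists_low (hSp E hE).1
  choose! rt hrt' using hrt
  -- the part with the first orientation
  set S1 := S.filter (fun E => (rt E, (1, 0)) ∈ E) with hS1
  set S2 := S.filter (fun E => ¬ (rt E, (1, 0)) ∈ E) with hS2
  have hrtmem : ∀ E ∈ S, rt E ∈ PP T M := fun E hE => (hSp E hE).2.1 (hrt' E hE).1
  have hlow_unique : ∀ (E : Finset (Pt × Pt)) (v w : Pt), Wide.Low E v → Wide.Low E w → v = w := by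
    intro E v w hv hw
    have h1 := hv.2 w hw.1
    have h2 := hw.2 v hv.1
    unfold lv nn at *
    apply Prod.ext <;> omega
  have hrE : ∀ E ∈ S, rE E ∈ S := by
    intro E hE
    rw [hS, Finset.mem_filter, mem_pf, mem_polys] at hE ⊢
    obtain ⟨⟨⟨a1, a2⟩, a3⟩, a4⟩ := hE
    rw [VE_rE a1, Nw_rE a1]
    exact ⟨⟨⟨isPoly_rE a1, a2⟩, neg_ne_zero.2 a3⟩, a4⟩
  have hmaps : ∀ E ∈ S2, rE E ∈ S1 := by
    intro E hE
    rw [hS2, Finset.mem_filter] at hE
    obtain ⟨h1, h2⟩ := hE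
    rw [hS1, Finset.mem_filter]
    refine ⟨hrE E h1, ?_⟩
    have h3 : Wide.Low (rE E) (rt E) := by
      have h4 := hrt' E h1
      unfold Wide.Low at h4 ⊢
      rw [VE_rE (hSp E h1).1]
      exact h4
    have h5 : rt (rE E) = rt E := hlow_unique _ _ _ (hrt' _ (hrE E h1)) h3
    rw [h5]
    rcases Wide.low_edge (hSp E h1).1 (hrt' E h1) with h6 | ⟨_, h6⟩
    · exact absurd h6 h2
    · unfold rE
      rw [Finset.mem_image]
      refine ⟨_, h6, ?_⟩
      show (rt E + (1, 0) + (-1, 0), -((-1, 0) : Pt)) = (rt E, (1, 0))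
      have e1 : ((1, 0) : Pt) + (-1, 0) = 0 := by decide
      have e2 : -((-1, 0) : Pt) = (1, 0) := by decide
      rw [add_assoc, e1, e2, add_zero]
  have hinv : ∀ E ∈ S, rE (rE E) = E := by
    intro E _
    unfold rE
    rw [Finset.image_image]
    have : rv ∘ rv = id := by
      funext p
      unfold rv
      simp
    rw [this, Finset.image_id]
  have h12 : ∑ E ∈ S2, xc ^ E.card ≤ ∑ E ∈ S1, xc ^ E.card := by
    have h1 : ∑ E ∈ S2, xc ^ E.card = ∑ E ∈ S2.image rE, xc ^ E.card := by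
      rw [Finset.sum_image]
      · apply Finset.sum_congr rfl
        intro E _
        rw [card_rE]
      · intro E hE E' hE' h
        rw [hS2, Finset.mem_coe, Finset.mem_filter] at hE hE'
        rw [← hinv E hE.1, ← hinv E' hE'.1, h]
    rw [h1]
    apply Finset.sum_le_sum_of_subset_of_nonneg
    · intro E hE
      rw [Finset.mem_image] at hE
      obtain ⟨E', hE', rfl⟩ := hE
      exact hmaps E' hE'
    · intro E _ _
      positivity
  have hS1b : ∑ E ∈ S1, xc ^ E.card ≤ C / (xc * Real.cos (3 * Real.pi / 8)) *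
      (84 * (T : ℝ) ^ 2 * ((Real.sqrt q) ^ k / (1 - Real.sqrt q))) := by
    have h1 : ∀ E ∈ S1, rt E ∈ PP T M := fun E hE => hrtmem E (Finset.mem_filter.1 hE).1
    rw [← Finset.sum_fiberwise_of_maps_to h1]
    have h2 : ∀ v ∈ PP T M, ∑ E ∈ S1.filter (fun E => rt E = v), xc ^ E.card ≤
        C / (xc * Real.cos (3 * Real.pi / 8)) * q ^ (Wide.jj (2 * T * k) v / (2 * T)) := by
      intro v _
      apply Wide.one_root hq hlat hT (ρ := 2 * T * k) (M := M) (Nat.mul_pos (by omega) hk)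
      intro E hE
      rw [Finset.mem_filter, hS1, Finset.mem_filter] at hE
      obtain ⟨⟨a1, a2⟩, a3⟩ := hE
      obtain ⟨b1, b2, b3, b4⟩ := hSp E a1
      have a4 := hrt' E a1
      rw [a3] at a2 a4
      exact ⟨b1, b2, a4, a2, b3, b4⟩
    refine (Finset.sum_le_sum h2).trans ?_
    rw [← Finset.mul_sum]
    exact mul_le_mul_of_nonneg_left (Wide.roots hq hq1 hT) (by positivity)
  have hsplit : ∑ E ∈ S, xc ^ E.card = ∑ E ∈ S1, xc ^ E.card + ∑ E ∈ S2, xc ^ E.card := by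
    rw [hS1, hS2, Finset.sum_filter_add_sum_filter_not]
  rw [hsplit]
  calc ∑ E ∈ S1, xc ^ E.card + ∑ E ∈ S2, xc ^ E.card ≤ 2 * (C / (xc * Real.cos (3 * Real.pi / 8)) *
      (84 * (T : ℝ) ^ 2 * ((Real.sqrt q) ^ k / (1 - Real.sqrt q)))) := by linarith
    _ = _ := by
      ring

/-- the gas of the strip against the gas of a parallelogram. -/
theorem NF_strip {z : ℝ} (hz : 0 ≤ z) : ∃ K : ℝ, 0 < K ∧ ∀ T : ℕ, 1 ≤ T → ∃ R : ℕ, T ≤ R ∧
    (R : ℝ) ≤ K * T * (1 + Real.log T) ∧ ∀ M : ℕ, NF z (PP T M) f0 ≤ 2 * NF z (PP T R) f0 := by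
  classical
  obtain ⟨C, s, hC, hs, hs1, hw⟩ := wide
  have hls : Real.log s < 0 := Real.log_neg hs hs1
  -- the choice of k
  obtain ⟨K, hK, hk⟩ : ∃ K : ℝ, 0 < K ∧ ∀ T : ℕ, 1 ≤ T → ∃ k : ℕ, 1 ≤ k ∧ (k : ℝ) ≤ K * (1 + Real.log T) ∧
      z / 2 * (C * (T : ℝ) ^ 2 * s ^ k) ≤ 1 / 2 := by
    obtain ⟨a, ha⟩ : ∃ a : ℝ, a = -Real.log s := ⟨_, rfl⟩
    have ha0 : 0 < a := by rw [ha]; linarith
    obtain ⟨D, hD⟩ : ∃ D : ℝ, D = Real.log (z * C + 1) := ⟨_, rfl⟩
    have hD0 : 0 ≤ D := by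
      rw [hD]
      apply Real.log_nonneg
      have := mul_nonneg hz hC.le
      linarith
    refine ⟨(D + 2) / a + 2, by positivity, ?_⟩
    intro T hT
    have hT1 : (1 : ℝ) ≤ T := by exact_mod_cast hT
    have hlT : 0 ≤ Real.log T := Real.log_nonneg hT1
    obtain ⟨k, hk⟩ : ∃ k : ℕ, k = ⌈(D + 2 * Real.log T) / a⌉₊ + 1 := ⟨_, rfl⟩
    refine ⟨k, by omega, ?_, ?_⟩
    · have h1 := Nat.ceil_lt_add_one (show 0 ≤ (D + 2 * Real.log T) / a by positivity)
      have h2 : (k : ℝ) = (⌈(D + 2 * Real.log T) / a⌉₊ : ℝ) + 1 := by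
        rw [hk]
        push_cast
        ring
      have h3 : (D + 2 * Real.log T) / a ≤ (D + 2) / a * (1 + Real.log T) := by
        rw [div_mul_eq_mul_div]
        apply div_le_div_of_nonneg_right _ ha0.le
        nlinarith
      rw [h2]
      nlinarith
    · have h1 := Nat.le_ceil ((D + 2 * Real.log T) / a)
      have h2 : (D + 2 * Real.log T) / a ≤ k := by
        rw [hk]
        push_cast
        linarith
      rw [div_le_iff₀ ha0] at h2
      have h3 : s ^ k = Real.exp (-(k * a)) := by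
        rw [ha, mul_neg, neg_neg, ← Real.log_pow, Real.exp_log (pow_pos hs _)]
      have h4 : s ^ k ≤ Real.exp (-(D + 2 * Real.log T)) := by
        rw [h3]
        exact Real.exp_le_exp.2 (by linarith)
      have h5 : Real.exp (-(D + 2 * Real.log T)) = ((z * C + 1) * (T : ℝ) ^ 2)⁻¹ := by
        rw [Real.exp_neg, Real.exp_add, hD, Real.exp_log (by positivity), mul_comm 2 (Real.log (T : ℝ)), Real.exp_mul,
          Real.exp_log (by linarith)]
        norm_num
      rw [h5] at h4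
      have hzC := mul_nonneg hz hC.le
      have hTT : (0 : ℝ) < (T : ℝ) ^ 2 := by positivity
      calc z / 2 * (C * (T : ℝ) ^ 2 * s ^ k) ≤ z / 2 * (C * (T : ℝ) ^ 2 * ((z * C + 1) * (T : ℝ) ^ 2)⁻¹) := by gcongr
        _ = 1 / 2 * (z * C / (z * C + 1)) := by
          field_simp
        _ ≤ 1 / 2 * 1 := by
          apply mul_le_mul_of_nonneg_left _ (by norm_num)
          rw [div_le_one (by positivity)]
          linarith
        _ = 1 / 2 := by ring
  refine ⟨4 * K, by positivity, ?_⟩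
  intro T hT
  obtain ⟨k, hk1, hk2, hk3⟩ := hk T hT
  have hT1 : (1 : ℝ) ≤ T := by exact_mod_cast hT
  refine ⟨4 * T * k, by nlinarith, ?_, ?_⟩
  · push_cast
    calc 4 * (T : ℝ) * k ≤ 4 * (T : ℝ) * (K * (1 + Real.log T)) := by gcongr
      _ = _ := by ring
  intro M
  have hx := xc_pos
  obtain ⟨N, hN⟩ : ∃ N : ℝ, N = NF z (PP T M) f0 := ⟨_, rfl⟩
  obtain ⟨N', hN'⟩ : ∃ N' : ℝ, N' = NF z (PP T (4 * T * k)) f0 := ⟨_, rfl⟩
  have hN1 : 1 ≤ N := by rw [hN]; exact one_le_NF hz _ _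
  have hfull : Full (PP T (4 * T * k)) := SP_full T (4 * T * k) _ _
  have h1 : N = 1 + (∑ E ∈ (pf (PP T M) f0).filter (fun E => VE E ⊆ PP T (4 * T * k)),
      (xc ^ E.card / 2) • (z * NF z (inn (PP T M) E) f0) +
      ∑ E ∈ (pf (PP T M) f0).filter (fun E => ¬ VE E ⊆ PP T (4 * T * k)),
      (xc ^ E.card / 2) • (z * NF z (inn (PP T M) E) f0)) := by
    rw [Finset.sum_filter_add_sum_filter_not, hN]
    exact NF_rec z (PP T M) f0
  have h2 : 1 + ∑ E ∈ (pf (PP T M) f0).filter (fun E => VE E ⊆ PP T (4 * T * k)),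
      (xc ^ E.card / 2) • (z * NF z (inn (PP T M) E) f0) ≤ N' := by
    rw [hN', NF_rec z (PP T (4 * T * k)) f0]
    apply add_le_add_right
    have h3 : ∀ E ∈ (pf (PP T M) f0).filter (fun E => VE E ⊆ PP T (4 * T * k)),
        (xc ^ E.card / 2) • (z * NF z (inn (PP T M) E) f0) ≤
        (xc ^ E.card / 2) • (z * NF z (inn (PP T (4 * T * k)) E) f0) := by
      intro E hE
      rw [Finset.mem_filter, mem_pf, mem_polys] at hE
      have h4 : inn (PP T M) E ⊆ inn (PP T (4 * T * k)) E := by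
        intro v hv
        rw [mem_inn] at hv ⊢
        exact ⟨hfull.2 E hE.1.1.1 hE.2 v hv.2, hv.2⟩
      have h5 := NF_mono hz f0 h4
      rw [smul_eq_mul, smul_eq_mul]
      gcongr
    refine (Finset.sum_le_sum h3).trans ?_
    apply Finset.sum_le_sum_of_subset_of_nonneg
    · intro E hE
      rw [Finset.mem_filter, mem_pf, mem_polys] at hE
      rw [mem_pf, mem_polys]
      exact ⟨⟨hE.1.1.1, hE.2⟩, hE.1.2⟩
    · intro E _ _
      have := one_le_NF hz (inn (PP T (4 * T * k)) E) f0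
      rw [smul_eq_mul]
      positivity
  have h3 : ∑ E ∈ (pf (PP T M) f0).filter (fun E => ¬ VE E ⊆ PP T (4 * T * k)),
      (xc ^ E.card / 2) • (z * NF z (inn (PP T M) E) f0) ≤ 1 / 2 * N := by
    have h4 : ∀ E ∈ (pf (PP T M) f0).filter (fun E => ¬ VE E ⊆ PP T (4 * T * k)),
        (xc ^ E.card / 2) • (z * NF z (inn (PP T M) E) f0) ≤ xc ^ E.card * (z / 2 * N) := by
      intro E _
      have h5 : NF z (inn (PP T M) E) f0 ≤ N := by
        rw [hN]
        apply NF_mono hz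
        intro v hv
        exact (mem_inn.1 hv).1
      rw [smul_eq_mul]
      calc xc ^ E.card / 2 * (z * NF z (inn (PP T M) E) f0) ≤ xc ^ E.card / 2 * (z * N) := by gcongr
        _ = _ := by ring
    refine (Finset.sum_le_sum h4).trans ?_
    rw [← Finset.sum_mul]
    have h6 := hw T k M hT hk1
    have h7 : 0 ≤ z / 2 * N := by positivity
    calc (∑ E ∈ (pf (PP T M) f0).filter (fun E => ¬ VE E ⊆ PP T (4 * T * k)), xc ^ E.card) * (z / 2 * N) ≤
        (C * (T : ℝ) ^ 2 * s ^ k) * (z / 2 * N) := mul_le_mul_of_nonneg_right h6 h7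
      _ = (z / 2 * (C * (T : ℝ) ^ 2 * s ^ k)) * N := by ring
      _ ≤ 1 / 2 * N := mul_le_mul_of_nonneg_right hk3 (by linarith)
  rw [← hN, ← hN']
  linarith

/-- a bound for the parallelograms PP r r with the exponent b + ε for every ε > 0 gives the bound for the strips. -/
theorem strip_of_ball {z : ℝ} (hz : 0 ≤ z) {b : ℝ} (hb : 0 ≤ b)
    (h : ∀ ε : ℝ, 0 < ε → ∃ C : ℝ, ∀ r : ℕ, 1 ≤ r → NF z (PP r r) f0 ≤ C * (r : ℝ) ^ (b + ε)) :
    ∀ ε : ℝ, 0 < ε → ∃ C : ℝ, ∀ T M : ℕ, 1 ≤ T → NF z (PP T M) f0 ≤ C * (T : ℝ) ^ (b + ε) := by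
  intro ε hε
  obtain ⟨K, hK, hstrip⟩ := NF_strip hz
  obtain ⟨C, hC⟩ := h (ε / 2) (by positivity)
  have hC1 : 1 ≤ C := by
    have h1 := (one_le_NF hz (PP 1 1) f0).trans (hC 1 le_rfl)
    rwa [Nat.cast_one, Real.one_rpow, mul_one] at h1
  -- the logarithm
  obtain ⟨δ, hδ⟩ : ∃ δ : ℝ, δ = ε / 2 / (b + ε / 2) := ⟨_, rfl⟩
  have hbe : 0 < b + ε / 2 := by positivity
  have hδ0 : 0 < δ := by rw [hδ]; positivity
  have hlog : ∀ T : ℕ, 1 ≤ T → 1 + Real.log T ≤ (1 + 1 / δ) * (T : ℝ) ^ δ := by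
    intro T hT
    have hT1 : (1 : ℝ) ≤ T := by exact_mod_cast hT
    have h1 := Real.log_le_rpow_div (show (0 : ℝ) ≤ T by linarith) hδ0
    have h2 : 1 ≤ (T : ℝ) ^ δ := Real.one_le_rpow hT1 hδ0.le
    calc 1 + Real.log T ≤ (T : ℝ) ^ δ + (T : ℝ) ^ δ / δ := by linarith
      _ = _ := by ring
  refine ⟨2 * (C * (K * (1 + 1 / δ)) ^ (b + ε / 2)), ?_⟩
  intro T M hT
  have hT1 : (1 : ℝ) ≤ T := by exact_mod_cast hT
  have hT0 : (0 : ℝ) < T := by linarith
  obtain ⟨R, hR1, hR2, hR3⟩ := hstrip T hT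
  have h1 : NF z (PP T R) f0 ≤ NF z (PP R R) f0 := by
    apply NF_mono hz
    intro v hv
    rw [mem_PP] at hv ⊢
    have : (T : ℤ) ≤ R := by exact_mod_cast hR1
    exact ⟨hv.1, by linarith [hv.2.1], hv.2.2⟩
  have h2 := hC R (by omega)
  have hR0 : (0 : ℝ) ≤ R := Nat.cast_nonneg _
  have h3 : (R : ℝ) ≤ K * (1 + 1 / δ) * (T : ℝ) ^ (1 + δ) := by
    rw [Real.rpow_add hT0, Real.rpow_one]
    calc (R : ℝ) ≤ K * T * (1 + Real.log T) := hR2
      _ ≤ K * T * ((1 + 1 / δ) * (T : ℝ) ^ δ) := by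
        apply mul_le_mul_of_nonneg_left (hlog T hT) (by positivity)
      _ = _ := by ring
  have h4 : (R : ℝ) ^ (b + ε / 2) ≤ (K * (1 + 1 / δ)) ^ (b + ε / 2) * (T : ℝ) ^ (b + ε) := by
    refine (Real.rpow_le_rpow hR0 h3 hbe.le).trans (le_of_eq ?_)
    rw [Real.mul_rpow (by positivity) (by positivity), ← Real.rpow_mul hT0.le]
    congr 2
    rw [hδ]
    field_simp
    ring
  calc NF z (PP T M) f0 ≤ 2 * NF z (PP T R) f0 := hR3 M
    _ ≤ 2 * (C * (R : ℝ) ^ (b + ε / 2)) := by linarith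
    _ ≤ 2 * (C * ((K * (1 + 1 / δ)) ^ (b + ε / 2) * (T : ℝ) ^ (b + ε))) := by gcongr
    _ = _ := by ring

end LP

end HexObs
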