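import Pool.Agent.NUF.Transfer
import Pool.Agent.EXL.Inst

/-!
# The operators as words

`wR`, `wcb`, `wct`, ... are the words of the local operators; `wcb`, `wct` are the bottom cap and the top
cap without ends (loop gas).
-/

set_option autoImplicit false

namespace Pool.Agent.NUF

open EXL (Wt)

section words

variable {α K : Type*} [CommRing K]

/-- the letter of `lE`. -/
def we (i : α) : Wd K α := FreeAlgebra.ι K (.e i)
/-- the site is occupied. -/
def wo (i : α) : Wd K α := 1 - we i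
/-- the letter of `lSw`. -/
def wsw (i j : α) : Wd K α := FreeAlgebra.ι K (.sw i j)
/-- the letter of `lCu`. -/
def wcu (i j : α) : Wd K α := FreeAlgebra.ι K (.cu i j)
/-- the letter of `lCt`. -/
def wct (i j : α) : Wd K α := FreeAlgebra.ι K (.ct i j)

/-- The rhombus. -/
def wR (w : Wt K) (i j : α) : Wd K α :=
  we i * we j + w.u2 • wcu i j + (we i * wo j + wo i * we j) * (w.v • 1 + w.u1 • wsw i j)
    + wo i * wo j * (w.w1 • wsw i j + w.u2 • wct i j + w.w2 • (wct i j * wcu i j))

/-- The bottom cap without ends. -/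
def wbot (κ : K) (i j : α) : Wd K α := we i * we j + κ • wcu i j

/-- The top cap without ends. -/
def wtop (κ : K) (i j : α) : Wd K α := we i * we j + κ • wct i j

/-- Gluing of two lines. -/
def wglue (i j : α) : Wd K α := we i * we j + wct i j

/-- U-turn. -/
def wU (i j : α) : Wd K α := we i * we j + wcu i j

/-- The splitting vertex. -/
def wY (x : K) (a b : α) : Wd K α :=
  we b * we a + x • wcu a b + x • (we b * wo a * (1 + wsw a b))

/-- The merging vertex. -/
def wYt (x : K) (a b : α) : Wd K α :=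
  we b * we a + x • (we b * wo a) + x • (wo b * we a * wsw a b) + x • wct a b

/-- The sign of the occupation. -/
def wsg (i : α) : Wd K α := we i - wo i

end words

section rep0

variable {α β K : Type*} [DecidableEq β] [CommRing K] (φ : α → β)

theorem rep0_e (i : α) : rep0 K φ (we i) = EXL.opE K (φ i) := by
  rw [rep0, we, FreeAlgebra.lift_ι_apply]

theorem rep0_o (i : α) : rep0 K φ (wo i) = EXL.opO (φ i) := by
  rw [wo, map_sub, map_one, rep0_e, EXL.opO]

theorem rep0_sw (i j : α) : rep0 K φ (wsw i j) = EXL.opSw K (φ i) (φ j) := by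
  rw [rep0, wsw, FreeAlgebra.lift_ι_apply]

theorem rep0_cu (i j : α) : rep0 K φ (wcu i j) = EXL.opCu K (φ i) (φ j) := by
  rw [rep0, wcu, FreeAlgebra.lift_ι_apply]

theorem rep0_ct (i j : α) : rep0 K φ (wct i j) = EXL.opCt K (φ i) (φ j) := by
  rw [rep0, wct, FreeAlgebra.lift_ι_apply]

theorem rep0_R (w : Wt K) {i j : α} (hij : φ i ≠ φ j) (F : EXL.Pat β → K) :
    rep0 K φ (wR w i j) F = EXL.R w (φ i) (φ j) F := by
  rw [wR]
  simp only [map_add, map_mul, map_smul, map_one, rep0_e, rep0_o, rep0_sw, rep0_cu, rep0_ct]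
  funext p
  simp only [LinearMap.add_apply, Module.End.mul_apply, LinearMap.smul_apply, Pi.add_apply,
    Pi.smul_apply, smul_eq_mul, Module.End.one_apply, EXL.opE_apply, EXL.opO_apply,
    EXL.opCu_apply, EXL.opCt_apply, EXL.opSw_apply, EXL.R, EXL.Pat.CuOK, EXL.Pat.CtOK]
  by_cases h1 : p (φ i) = φ i
  · by_cases h2 : p (φ j) = φ j
    · simp [h1, h2]
    · simp [h1, h2]
  · by_cases h2 : p (φ j) = φ j
    · simp [h1, h2]
    · by_cases h3 : p (φ i) = φ j
      · have h4 : p (φ j) = φ i := by rw [← h3, p.inv]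
        have h5 : EXL.Pat.swap (φ i) (φ j) p = p := by
          have inv : ∀ x, p (p x) = x := p.inv
          ext x
          rw [EXL.swap_apply]
          simp only [Equiv.swap_apply_def]
          grind
        simp [h3, h4, hij, hij.symm, h5]
      · have hc : EXL.Pat.CtOK (φ i) (φ j) p := ⟨hij, h1, h2, h3⟩
        have h6 : EXL.Pat.cut (φ i) (φ j) p (φ i) = φ i := by rw [EXL.cut_apply hc]; simp
        have h7 : EXL.Pat.cut (φ i) (φ j) p (φ j) = φ j := by
          rw [EXL.cut_apply hc]; simp [hij.symm]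
        simp [h1, h2, h3, hij, h6, h7]

theorem rep0_glue {i j : α} (hij : φ i ≠ φ j) (F : EXL.Pat β → K) :
    rep0 K φ (wglue i j) F = EXL.glue (φ i) (φ j) F := by
  rw [wglue]
  simp only [map_add, map_mul, rep0_e, rep0_ct]
  funext p
  simp only [LinearMap.add_apply, Module.End.mul_apply, Pi.add_apply, EXL.opE_apply,
    EXL.opCt_apply, EXL.glue, EXL.Pat.CtOK]
  by_cases h1 : p (φ i) = φ i <;> by_cases h2 : p (φ j) = φ j <;>
    by_cases h4 : p (φ i) = φ j <;> simp_all

theorem rep0_U (i j : α) (F : EXL.Pat β → K) :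
    rep0 K φ (wU i j) F = EXL.U (φ i) (φ j) F := by
  rw [wU]
  simp only [map_add, map_mul, rep0_e, rep0_cu]
  funext p
  simp only [LinearMap.add_apply, Module.End.mul_apply, Pi.add_apply, EXL.opE_apply,
    EXL.opCu_apply, EXL.U, EXL.Pat.CuOK]
  by_cases h1 : p (φ i) = φ i <;> by_cases h2 : p (φ j) = φ j <;> simp [h1, h2]

theorem rep0_Y (x : K) (a b : α) (F : EXL.Pat β → K) :
    rep0 K φ (wY x a b) F = EXL.Y x (φ a) (φ b) F := by
  rw [wY]
  simp only [map_add, map_mul, map_smul, map_one, rep0_e, rep0_o, rep0_sw, rep0_cu]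
  funext p
  simp only [LinearMap.add_apply, Module.End.mul_apply, LinearMap.smul_apply, Pi.add_apply,
    Pi.smul_apply, smul_eq_mul, Module.End.one_apply, EXL.opE_apply, EXL.opO_apply,
    EXL.opSw_apply, EXL.opCu_apply, EXL.Y, EXL.Pat.CuOK]
  by_cases h1 : p (φ a) = φ a <;> by_cases h2 : p (φ b) = φ b <;> simp [h1, h2, mul_add]

theorem rep0_Yt (x : K) {a b : α} (hab : φ a ≠ φ b) (F : EXL.Pat β → K) :
    rep0 K φ (wYt x a b) F = EXL.Yt x (φ a) (φ b) F := by
  rw [wYt]
  simp only [map_add, map_mul, map_smul, map_one, rep0_e, rep0_o, rep0_sw, rep0_ct]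
  funext p
  simp only [LinearMap.add_apply, Module.End.mul_apply, LinearMap.smul_apply, Pi.add_apply,
    Pi.smul_apply, smul_eq_mul, EXL.opE_apply, EXL.opO_apply, EXL.opSw_apply, EXL.opCt_apply,
    EXL.Yt, EXL.Pat.CtOK]
  by_cases h1 : p (φ a) = φ a <;> by_cases h2 : p (φ b) = φ b <;>
    by_cases h4 : p (φ a) = φ b <;> simp_all

theorem rep0_emp (i : α) (F : EXL.Pat β → K) : rep0 K φ (we i) F = EXL.emp (φ i) F := by
  rw [rep0_e]
  rfl

theorem rep0_sw' (i j : α) (F : EXL.Pat β → K) : rep0 K φ (wsw i j) F = EXL.sw (φ i) (φ j) F := by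
  rw [rep0_sw]
  rfl

theorem rep0_sg (i : α) (F : EXL.Pat β → K) : rep0 K φ (wsg i) F = EXL.sg (φ i) F := by
  rw [wsg, map_sub, rep0_e, rep0_o]
  funext p
  simp only [LinearMap.sub_apply, Pi.sub_apply, EXL.opE_apply, EXL.opO_apply, EXL.sg]
  by_cases h1 : p (φ i) = φ i <;> simp [h1]

end rep0

end Pool.Agent.NUF
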